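import Mathlib
import Pool.Agent.TH41.LP.Stm

/-!
Project BL (helper41, MP_0430e4_lc): limits of the linear programming bound for binary codes.
Definitions and statements of the pieces.
-/

set_option autoImplicit false

open MeasureTheory Filter Topology

namespace Pool.Agent.TH41.BL

open Pool.Agent.TH41.LP (WW)

/-! ### Krawtchouk polynomials -/

/-- the binary Krawtchouk polynomial of degree `j` at `w` -/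
def kr (n j w : ℕ) : ℤ :=
  ∑ i ∈ Finset.range (j + 1), (-1) ^ i * (w.choose i : ℤ) * ((n - w).choose (j - i) : ℤ)

/-- the normalised transform of a function of the weight -/
noncomputable def tr (n : ℕ) (f : ℕ → ℝ) (j : ℕ) : ℝ :=
  (√2 ^ n)⁻¹ * ∑ w ∈ Finset.range (n + 1), f w * (kr n w j : ℝ)

/-- the `l¹` norm of the transform -/
noncomputable def NN (n : ℕ) (f : ℕ → ℝ) : ℝ :=
  ∑ j ∈ Finset.range (n + 1), (n.choose j : ℝ) * |tr n f j|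

/-- KRA -/
def S_kra : Prop :=
  (∀ (n : ℕ) (f : ℕ → ℝ) (a b : ℂ),
    ∑ w ∈ Finset.range (n + 1), (n.choose w : ℂ) * (a ^ (n - w) * b ^ w) * (f w : ℂ) =
      ∑ j ∈ Finset.range (n + 1), (n.choose j : ℂ) *
        (((a + b) / (√2 : ℝ)) ^ (n - j) * ((a - b) / (√2 : ℝ)) ^ j) * (tr n f j : ℂ)) ∧
  (∀ (n : ℕ) (l : ℕ → ℝ) (j : ℕ), j ≤ n →
    tr n (fun w => ∑ i ∈ Finset.range (n + 1), l i * (kr n i w : ℝ)) j = √2 ^ n * l j) ∧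
  (∀ n j : ℕ, kr n j 0 = n.choose j) ∧ (∀ n w : ℕ, kr n 0 w = 1) ∧
  (∀ (n : ℕ) (f : ℕ → ℝ), NN n (fun w => (-1) ^ w * f w) = NN n f)

/-! ### The kernel -/

noncomputable def AA (s : ℂ) : ℂ := Complex.cos s + Complex.sin s

noncomputable def BB (s : ℂ) : ℂ := Complex.cos s - Complex.sin s

/-- `tan 2s - (8 s / π) / sin 4s`, with the removable singularities at `0` and `π / 4` removed -/
noncomputable def Lz (s : ℂ) : ℂ :=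
  if s = 0 then -(2 / (Real.pi : ℂ)) else if s = (Real.pi : ℂ) / 4 then 2 / (Real.pi : ℂ) else
    (1 - Complex.cos (4 * s) - 8 * s / Real.pi) / Complex.sin (4 * s)

/-- the primitive of `Lz` -/
noncomputable def Lam (s : ℂ) : ℂ := ∫ u in (0 : ℝ)..1, s * Lz (u * s)

/-- the kernel -/
noncomputable def QQ (n w : ℕ) (s : ℂ) : ℂ :=
  AA s ^ (n - w) * BB s ^ w * Complex.exp (n * Lam s)

/-- its logarithmic derivative, divided by `n` -/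
noncomputable def GG (ω : ℝ) (s : ℂ) : ℂ :=
  (1 - ω) * (BB s / AA s) - ω * (AA s / BB s) + Lz s

/-- the logarithmic derivative at `0`, divided by `n` -/
noncomputable def bb (n w : ℕ) : ℝ := 1 - 2 * (w : ℝ) / n - 2 / Real.pi

/-- LZ1 -/
def S_lz1 : Prop := ∀ s : ℂ, -(Real.pi / 8) < s.re → s.re < 3 * Real.pi / 8 →
  DifferentiableAt ℂ Lz s

/-- LZ2 -/
def S_lz2 : Prop :=
  (∀ s : ℂ, Lz ((Real.pi : ℂ) / 4 - s) = -Lz s) ∧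
  (∀ s : ℂ, Lz ((starRingEnd ℂ) s) = (starRingEnd ℂ) (Lz s)) ∧
  (∀ t : ℝ, t ≠ 0 → Lz (t * Complex.I) =
    ((Real.tanh (2 * t) : ℝ) : ℂ) * Complex.I -
      ((8 * t / Real.pi / Real.sinh (4 * t) : ℝ) : ℂ))

/-- LZ3 -/
def S_lz3 : Prop := ∃ C : ℝ, 0 < C ∧ ∀ s : ℂ, -(Real.pi / 10) ≤ s.re →
  s.re ≤ 7 * Real.pi / 20 → ‖Lz s‖ ≤ C

/-- LAM -/
def S_lam : Prop :=
  (∀ s : ℂ, -(Real.pi / 8) < s.re → s.re < 3 * Real.pi / 8 → HasDerivAt Lam (Lz s) s) ∧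
  Lam 0 = 0 ∧
  (∀ s : ℂ, Lam ((starRingEnd ℂ) s) = (starRingEnd ℂ) (Lam s)) ∧
  (∀ s : ℂ, -(Real.pi / 8) < s.re → s.re < 3 * Real.pi / 8 →
    Lam ((Real.pi : ℂ) / 4 - s) = Lam s) ∧
  (∀ t : ℝ, (Lam (t * Complex.I)).re = -(1 / 2) * Real.log (Real.cosh (2 * t)))

/-- QQ -/
def S_qq : Prop := ∀ n w : ℕ, w ≤ n →
  (∀ s : ℂ, -(Real.pi / 8) < s.re → s.re < 3 * Real.pi / 8 → DifferentiableAt ℂ (QQ n w) s) ∧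
  (∀ t : ℝ, ‖QQ n w (t * Complex.I)‖ = 1) ∧
  QQ n w 0 = 1 ∧
  (∀ s : ℂ, 0 < n → |s.re| < Real.pi / 8 →
    HasDerivAt (QQ n w) (n * GG ((w : ℝ) / n) s * QQ n w s) s) ∧
  (∀ σ : ℝ, |σ| < Real.pi / 8 → (QQ n w σ).im = 0 ∧ 0 < (QQ n w σ).re) ∧
  (∃ M : ℝ, ∀ s : ℂ, -(Real.pi / 10) ≤ s.re → s.re ≤ Real.pi / 4 → ‖QQ n w s‖ ≤ M)

/-- DL: the dual line -/
def S_dl : Prop := ∀ n j : ℕ, j ≤ n → ∀ t : ℝ,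
  ‖((AA ((Real.pi / 4 : ℝ) + t * Complex.I) + BB ((Real.pi / 4 : ℝ) + t * Complex.I)) /
      (√2 : ℝ)) ^ (n - j) *
    ((AA ((Real.pi / 4 : ℝ) + t * Complex.I) - BB ((Real.pi / 4 : ℝ) + t * Complex.I)) /
      (√2 : ℝ)) ^ j *
    Complex.exp (n * Lam ((Real.pi / 4 : ℝ) + t * Complex.I))‖ = 1

/-- the bounds of the logarithmic derivative, for the constants `C` and `κ` -/
structure GDp (C κ : ℝ) : Prop where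
  d1 : ∀ ω : ℝ, 0 ≤ ω → ω ≤ 1 → ∀ s : ℂ, |s.re| ≤ κ →
    DifferentiableAt ℂ (GG ω) s ∧ ‖GG ω s‖ ≤ C
  d2 : ∀ ω : ℝ, 0 ≤ ω → ω ≤ 1 → ∀ σ t : ℝ, |σ| ≤ κ →
    |(GG ω (σ + t * Complex.I)).re - (GG ω (t * Complex.I)).re| ≤ C * |σ|
  d3 : ∀ ω : ℝ, 0 ≤ ω → ω ≤ 1 → ∀ σ t : ℝ, |σ| ≤ κ →
    |(GG ω (σ + t * Complex.I)).re - (GG ω σ).re| ≤ C * t ^ 2
  d4 : ∀ ω : ℝ, 0 ≤ ω → ω ≤ 1 → ∀ σ : ℝ, |σ| ≤ κ →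
    |(GG ω σ).re - (1 - 2 * ω - 2 / Real.pi)| ≤ C * σ ^ 2

/-- GD -/
def S_gd : Prop := ∃ C κ : ℝ, 0 < C ∧ 0 < κ ∧ κ ≤ Real.pi / 16 ∧ GDp C κ

/-- GI: on the imaginary axis -/
def S_gi : Prop := ∀ ω t : ℝ,
  (1 - 2 * ω - 2 / Real.pi) / Real.cosh (2 * t) ≤ (GG ω (t * Complex.I)).re

/-- the bounds of the kernel, for the constants `C` and `κ` -/
structure QB (C κ : ℝ) (n w : ℕ) : Prop where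
  q1 : ∀ σ : ℝ, |σ| ≤ κ → (QQ n w σ).im = 0 ∧ 0 < (QQ n w σ).re
  q2 : ∀ σ t : ℝ, |σ| ≤ κ → ‖QQ n w (σ + t * Complex.I)‖ ≤ Real.exp (C * n * |σ|)
  q3 : ∀ σ t : ℝ, |σ| ≤ κ →
    ‖QQ n w (σ + t * Complex.I)‖ ≤ ‖QQ n w σ‖ * Real.exp (C * n * |σ| * t ^ 2)
  q4 : ∀ σ t : ℝ, |σ| ≤ κ →
    ‖QQ n w σ‖ * Real.exp (-(C * n * |σ| * t ^ 2)) ≤ ‖QQ n w (σ + t * Complex.I)‖
  q5 : ∀ σ t : ℝ, |σ| ≤ κ → ∃ θ : ℝ, |θ| ≤ C * n * |t| ^ 3 ∧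
    QQ n w (σ + t * Complex.I) = (‖QQ n w (σ + t * Complex.I)‖ : ℂ) *
      Complex.exp (((n * (GG ((w : ℝ) / n) σ).re * t + θ : ℝ) : ℂ) * Complex.I)
  q6 : ∀ σ t : ℝ, |σ| ≤ κ → σ ≤ 0 →
    ‖QQ n w (σ + t * Complex.I)‖ ≤
      Real.exp (n * (σ * (bb n w / Real.cosh (2 * t)) + C * σ ^ 2))
  q7 : ∀ σ : ℝ, |σ| ≤ κ → ‖QQ n w σ‖ ≤ Real.exp (n * (bb n w * σ + C * |σ| ^ 3))
  q8 : ∀ σ : ℝ, |σ| ≤ κ → |(GG ((w : ℝ) / n) σ).re - bb n w| ≤ C * σ ^ 2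
  q9 : ContinuousOn (fun σ : ℝ => (GG ((w : ℝ) / n) σ).re) (Set.Icc (-κ) κ)

/-- QB -/
def S_qb : Prop := ∃ C κ : ℝ, 0 < C ∧ 0 < κ ∧ κ ≤ Real.pi / 16 ∧
  ∀ n w : ℕ, 0 < n → w ≤ n → QB C κ n w

/-- SHIFT: shift of the contour in a strip -/
def S_shift : Prop := ∀ (Y : ℂ → ℂ) (A B A' B' M ε : ℝ), 0 < A → A < A' → 0 < B → B < B' →
  0 < ε →
  (∀ s : ℂ, -A' < s.re → s.re < B' → DifferentiableAt ℂ Y s) →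
  (∀ s : ℂ, -A ≤ s.re → s.re ≤ B → ‖Y s‖ ≤ M * Real.exp (-ε * s.im ^ 2)) →
  ∀ ρ : ℝ, (∀ c : ℝ, 0 < c → c ≤ B → WW Y c ρ = WW Y B ρ) ∧
    (∀ c : ℝ, -A ≤ c → c < 0 → WW Y B ρ - WW Y c ρ = 2 * Real.pi * Y 0)

/-! ### The test functions -/

/-- the integrand without the pole, with the pole moved to `0` -/
noncomputable def YY (n w : ℕ) (ε τ : ℝ) (s : ℂ) : ℂ :=
  QQ n w (s + τ * Complex.I) * Complex.exp (n * ε * s ^ 2)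

/-- the test function -/
noncomputable def vv (n w : ℕ) (ε η τ : ℝ) : ℂ :=
  WW (YY n w ε τ) (Real.pi / 4) (n * η) / (2 * Real.pi)

/-- SH: the shift for the test function -/
def S_sh : Prop := ∀ (n w : ℕ) (ε η τ : ℝ), 0 < n → w ≤ n → 0 < ε →
  (∀ c : ℝ, 0 < c → c ≤ Real.pi / 4 → vv n w ε η τ = WW (YY n w ε τ) c (n * η) / (2 * Real.pi)) ∧
  (∀ c : ℝ, -(Real.pi / 16) ≤ c → c < 0 →
    vv n w ε η τ - QQ n w (τ * Complex.I) = WW (YY n w ε τ) c (n * η) / (2 * Real.pi))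

/-- LEFT -/
def S_left : Prop := ∀ ε η Δ : ℝ, 0 < ε → |η| ≤ 1 → 0 < Δ → ∃ ε₁ : ℝ, 0 < ε₁ ∧ ∃ n₀ : ℕ,
  ∀ n w : ℕ, n₀ ≤ n → w ≤ n → ∀ τ : ℝ, η + Δ ≤ bb n w / Real.cosh (2 * τ) →
    ‖vv n w ε η τ - QQ n w (τ * Complex.I)‖ ≤ Real.exp (-ε₁ * n)

/-- RIGHT -/
def S_right : Prop := ∀ ε ε₂ : ℝ, 0 < ε → 0 < ε₂ → ∃ n₀ : ℕ, ∀ n w : ℕ, n₀ ≤ n → w ≤ n →
  ∀ τ η : ℝ, |η| ≤ 1 → ‖vv n w ε η τ‖ ≤ Real.exp (ε₂ * n)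

/-- DUAL -/
def S_dual : Prop := ∀ ε : ℝ, 0 < ε → ∃ n₀ : ℕ, ∀ n : ℕ, n₀ ≤ n → ∀ (η τ : ℝ) (f : ℕ → ℝ),
  ‖∑ w ∈ Finset.range (n + 1), (n.choose w : ℂ) * vv n w ε η τ * (f w : ℂ)‖ ≤
    Real.exp (n * (ε * Real.pi ^ 2 / 16 - η * Real.pi / 4)) * NN n f

/-- TRANS -/
def S_trans : Prop := ∀ ε η : ℝ, 0 < ε → ε ≤ 1 → |η| ≤ 1 → ∃ Δ : ℝ, 0 < Δ ∧ ∃ n₀ : ℕ,
  ∀ n w : ℕ, n₀ ≤ n → w ≤ n →
    (bb n w ≤ η + Δ → (vv n w ε η 0).re ≤ 1) ∧ (bb n w ≤ η → (vv n w ε η 0).re ≤ 5 / 6)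

/-- FAM -/
def S_fam : Prop := ∀ η Δ ε₂ : ℝ, η ≤ 0 → -1 ≤ η → 0 < Δ → 0 < ε₂ → ∃ n₀ : ℕ,
  ∀ n : ℕ, n₀ ≤ n → ∀ θ : ℝ, ∃ u : ℕ → ℂ,
    (∀ w : ℕ, w ≤ n → η + Δ ≤ bb n w →
      ‖u w - Complex.exp ((θ * w : ℝ) * Complex.I)‖ ≤ 1 / (4 * ((n : ℝ) + 1))) ∧
    (∀ w : ℕ, w ≤ n → ‖u w‖ ≤ Real.exp (ε₂ * n)) ∧
    (∀ f : ℕ → ℝ, ‖∑ w ∈ Finset.range (n + 1), (n.choose w : ℂ) * u w * (f w : ℂ)‖ ≤
      Real.exp (ε₂ * n) * Real.exp (-(η * Real.pi / 4) * n) * NN n f)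

/-- NEAR -/
def S_near : Prop := ∀ η Δ ε₂ : ℝ, η ≤ 0 → -1 ≤ η → 0 < Δ → 0 < ε₂ → ∃ n₀ : ℕ,
  ∀ n : ℕ, n₀ ≤ n → ∀ f : ℕ → ℝ,
    ∑ w ∈ (Finset.range (n + 1)).filter (fun w => η + Δ ≤ bb n w), (n.choose w : ℝ) * |f w| ≤
      Real.exp (ε₂ * n) *
        (∑ w ∈ (Finset.range (n + 1)).filter (fun w => bb n w < η + Δ),
            (n.choose w : ℝ) * |f w| +
          Real.exp (-(η * Real.pi / 4) * n) * NN n f)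

/-- MAIN: feasible functions of the linear program -/
def S_main : Prop := ∀ δ μ : ℝ, 0 ≤ μ → μ ≤ 1 / 2 → δ < 1 / 2 - 1 / Real.pi + 2 * μ / Real.pi →
  ∃ n₀ : ℕ, ∀ n : ℕ, n₀ ≤ n → ∀ d : ℕ, (d : ℝ) ≤ δ * n → ∀ l : ℕ → ℝ, (∀ j, 0 ≤ l j) →
    (∀ w : ℕ, d ≤ w → w ≤ n →
      ∑ j ∈ Finset.range (n + 1), l j * (kr n j w : ℝ) ≤ 0) →
    √2 ^ n * Real.exp (-μ * n) * l 0 ≤
      2 * ∑ j ∈ Finset.range (n + 1), l j * (kr n j 0 : ℝ)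

end Pool.Agent.TH41.BL
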