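import Mathlib
import Pool.Agent.TH41.BL.Stm

/-!
Project BL2 (helper41, MP_0430e4_lc): limits of the linear programming bound for binary codes,
the bound `(1 + (π (1 - 2 δ) / 2) ^ 2) ^ (n / 2)`.  Definitions and statements of the pieces.
-/

set_option autoImplicit false

open MeasureTheory Filter Topology

namespace Pool.Agent.TH41.BL

/-! ### The additional factor of the kernel -/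

/-- `arctan (tan (2 s) / √(1 - a²))` -/
noncomputable def rr (a : ℝ) (s : ℂ) : ℂ :=
  -(Complex.I / 2) * Complex.log
    ((1 + Complex.I * (Complex.tan (2 * s) / (√(1 - a ^ 2) : ℝ))) /
      (1 - Complex.I * (Complex.tan (2 * s) / (√(1 - a ^ 2) : ℝ))))

/-- its derivative -/
noncomputable def rd (a : ℝ) (s : ℂ) : ℂ :=
  2 * (√(1 - a ^ 2) : ℝ) / (1 - (a : ℂ) ^ 2 * Complex.cos (2 * s) ^ 2)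

/-- finite families of weights `c` and parameters `a = cos φ` -/
structure Fm where
  ι : Type
  inst : Fintype ι
  c : ι → ℝ
  a : ι → ℝ
  c_nn : ∀ i, 0 ≤ c i
  a_nn : ∀ i, 0 ≤ a i
  a_lt : ∀ i, a i < 1

attribute [instance] Fm.inst

noncomputable def Fm.P (F : Fm) (s : ℂ) : ℂ := ∑ i, (F.c i : ℂ) * rr (F.a i) s

noncomputable def Fm.PD (F : Fm) (s : ℂ) : ℂ := ∑ i, (F.c i : ℂ) * rd (F.a i) s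

noncomputable def Fm.S (F : Fm) : ℝ := ∑ i, 2 * F.c i / √(1 - F.a i ^ 2)

/-- the dual exponent -/
noncomputable def mu (a0 : ℝ) : ℝ := 1 / 2 * Real.log (1 + a0)

/-- the family is admissible for `a0 = cos θ₀`, with error `ε` -/
structure Adm (F : Fm) (a0 ε : ℝ) : Prop where
  h1 : ∀ i, F.a i < a0
  h2 : Real.pi / 2 * ∑ i, F.c i ≤ mu a0
  h3 : ∃ ϑ : ℝ, 0 < ϑ ∧ ∀ a : ℝ, 0 ≤ a → a ≤ a0 →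
    1 / 2 * Real.log (1 + a) +
      Real.pi / 2 * ∑ i ∈ Finset.univ.filter (fun i => a - ϑ ≤ F.a i), F.c i ≤ mu a0 + ε

/-- RR -/
def S_rr : Prop :=
  (∀ (a : ℝ) (s : ℂ), 0 ≤ a → a < 1 → -(Real.pi / 4) < s.re → s.re < Real.pi / 4 →
    (s.re ≠ 0 ∨ a * Real.cosh (2 * s.im) < 1) → HasDerivAt (rr a) (rd a s) s) ∧
  (∀ (a : ℝ) (s : ℂ), |(rr a s).re| ≤ Real.pi / 2) ∧
  (∀ a t : ℝ, 0 ≤ a → a * Real.cosh (2 * t) < 1 → (rr a (t * Complex.I)).re = 0) ∧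
  (∀ a σ : ℝ, 0 ≤ a → a < 1 → |σ| < Real.pi / 4 → (rr a σ).im = 0) ∧
  (∀ a : ℝ, rr a 0 = 0)

/-- the bounds of the additional factor, for the constants `C` and `κ`, up to height `T` -/
structure PGp (F : Fm) (T C κ : ℝ) : Prop where
  g0 : ∀ σ t : ℝ, |σ| ≤ κ → |t| ≤ T →
    HasDerivAt F.P (F.PD (σ + t * Complex.I)) (σ + t * Complex.I)
  g1 : ∀ σ t : ℝ, |σ| ≤ κ → |t| ≤ T → ‖F.PD (σ + t * Complex.I)‖ ≤ C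
  g2 : ∀ σ t : ℝ, |σ| ≤ κ → |t| ≤ T →
    |(F.PD (σ + t * Complex.I)).re - (F.PD (t * Complex.I)).re| ≤ C * |σ|
  g3 : ∀ σ t : ℝ, |σ| ≤ κ → |t| ≤ T →
    |(F.PD (σ + t * Complex.I)).re - (F.PD σ).re| ≤ C * t ^ 2
  g4 : ∀ σ : ℝ, |σ| ≤ κ → |(F.PD σ).re - F.S| ≤ C * σ ^ 2
  g5 : ∀ t : ℝ, |t| ≤ T → F.S ≤ (F.PD (t * Complex.I)).re
  g6 : ∀ t : ℝ, |t| ≤ T → (F.P (t * Complex.I)).re = 0
  g7 : ∀ σ : ℝ, |σ| ≤ κ → (F.P σ).im = 0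
  g8 : ContinuousOn F.PD {s : ℂ | |s.re| ≤ κ ∧ |s.im| ≤ T}

/-- PG -/
def S_pg : Prop := ∀ (F : Fm) (T : ℝ), 0 < T → (∀ i, F.a i * Real.cosh (2 * T) < 1) →
  ∃ C κ : ℝ, 0 < C ∧ 0 < κ ∧ κ ≤ Real.pi / 16 ∧ PGp F T C κ

/-! ### The kernel -/

noncomputable def QM (F : Fm) (n w : ℕ) (s : ℂ) : ℂ := QQ n w s * Complex.exp (n * F.P s)

noncomputable def GM (F : Fm) (ω : ℝ) (s : ℂ) : ℂ := GG ω s + F.PD s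

noncomputable def bM (F : Fm) (n w : ℕ) : ℝ := bb n w + F.S

/-- the bounds of the kernel, for the constants `C` and `κ`, up to height `T` -/
structure QBM (F : Fm) (T C κ : ℝ) (n w : ℕ) : Prop where
  m0 : ∀ t : ℝ, |t| ≤ T → ‖QM F n w (t * Complex.I)‖ = 1
  m1 : ∀ σ : ℝ, |σ| ≤ κ → (QM F n w σ).im = 0 ∧ 0 < (QM F n w σ).re
  m2 : ∀ σ t : ℝ, |σ| ≤ κ → |t| ≤ T →
    ‖QM F n w (σ + t * Complex.I)‖ ≤ Real.exp (C * n * |σ|)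
  m3 : ∀ σ t : ℝ, |σ| ≤ κ → |t| ≤ T →
    ‖QM F n w (σ + t * Complex.I)‖ ≤ ‖QM F n w σ‖ * Real.exp (C * n * |σ| * t ^ 2)
  m4 : ∀ σ t : ℝ, |σ| ≤ κ → |t| ≤ T →
    ‖QM F n w σ‖ * Real.exp (-(C * n * |σ| * t ^ 2)) ≤ ‖QM F n w (σ + t * Complex.I)‖
  m5 : ∀ σ t : ℝ, |σ| ≤ κ → |t| ≤ T → ∃ θ : ℝ, |θ| ≤ C * n * |t| ^ 3 ∧
    QM F n w (σ + t * Complex.I) = (‖QM F n w (σ + t * Complex.I)‖ : ℂ) *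
      Complex.exp (((n * (GM F ((w : ℝ) / n) σ).re * t + θ : ℝ) : ℂ) * Complex.I)
  m6 : ∀ σ t : ℝ, |σ| ≤ κ → σ ≤ 0 → |t| ≤ T →
    ‖QM F n w (σ + t * Complex.I)‖ ≤
      Real.exp (n * (σ * (bM F n w / Real.cosh (2 * t)) + C * σ ^ 2))
  m7 : ∀ σ : ℝ, |σ| ≤ κ → ‖QM F n w σ‖ ≤ Real.exp (n * (bM F n w * σ + C * |σ| ^ 3))
  m8 : ∀ σ : ℝ, |σ| ≤ κ → |(GM F ((w : ℝ) / n) σ).re - bM F n w| ≤ C * σ ^ 2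
  m9 : ContinuousOn (fun σ : ℝ => (GM F ((w : ℝ) / n) σ).re) (Set.Icc (-κ) κ)
  m10 : ∀ s : ℂ, |s.re| ≤ κ → |s.im| ≤ T → DifferentiableAt ℂ (QM F n w) s

/-- QBM -/
def S_qbm : Prop := ∀ (F : Fm) (T : ℝ), 0 < T → (∀ i, F.a i * Real.cosh (2 * T) < 1) →
  ∃ C κ : ℝ, 0 < C ∧ 0 < κ ∧ κ ≤ Real.pi / 16 ∧
    ∀ n w : ℕ, 0 < n → w ≤ n → QBM F T C κ n w

/-- the size of the transform of the kernel -/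
noncomputable def Dsz (F : Fm) (n j : ℕ) (s : ℂ) : ℝ :=
  ‖((AA s + BB s) / (√2 : ℝ)) ^ (n - j) * ((AA s - BB s) / (√2 : ℝ)) ^ j *
    Complex.exp (n * Lam s) * Complex.exp (n * F.P s)‖

/-- DB: the transform of the kernel -/
def S_db : Prop := ∀ (F : Fm) (a0 ε : ℝ), 0 < a0 → a0 < 1 → 0 < ε → Adm F a0 ε →
  ∃ c₀ : ℝ, 0 < c₀ ∧ c₀ ≤ Real.pi / 16 ∧ ∀ c : ℝ, 0 < c → c ≤ c₀ →
  ∀ (n j : ℕ) (t : ℝ), j ≤ n →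
    (1 / Real.cosh (2 * t) ≤ a0 →
      Dsz F n j (c + t * Complex.I) ≤ Real.exp (n * (mu a0 + 3 * ε))) ∧
    Dsz F n j ((Real.pi / 4 - c : ℝ) + t * Complex.I) ≤ Real.exp (n * (mu a0 + 3 * ε))

/-! ### The contour -/

/-- RECT: shift of a vertical segment -/
def S_rect : Prop := ∀ (Y : ℂ → ℂ) (α β T τ M : ℝ), α < 0 → 0 < β → |τ| < T →
  (∀ s : ℂ, α ≤ s.re → s.re ≤ β → |s.im| ≤ T → DifferentiableAt ℂ Y s) →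
  (∀ σ : ℝ, α ≤ σ → σ ≤ β → ‖Y (σ + T * Complex.I)‖ ≤ M ∧ ‖Y (σ + (-T : ℝ) * Complex.I)‖ ≤ M) →
  (∀ c c' : ℝ, 0 < c → c ≤ β → 0 < c' → c' ≤ β →
    ‖(∫ t in (-T)..T, Y (c + t * Complex.I) / (c + (t - τ) * Complex.I)) -
      ∫ t in (-T)..T, Y (c' + t * Complex.I) / (c' + (t - τ) * Complex.I)‖ ≤
      2 * (β - α) * M / (T - |τ|)) ∧
  (∀ c c' : ℝ, α ≤ c → c < 0 → 0 < c' → c' ≤ β →
    ‖(∫ t in (-T)..T, Y (c' + t * Complex.I) / (c' + (t - τ) * Complex.I)) -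
      (∫ t in (-T)..T, Y (c + t * Complex.I) / (c + (t - τ) * Complex.I)) -
      2 * Real.pi * Y (τ * Complex.I)‖ ≤ 2 * (β - α) * M / (T - |τ|))

/-- the Gaussian factor and the pole -/
noncomputable def Kf (n : ℕ) (ε η : ℝ) (s : ℂ) : ℂ :=
  Complex.exp (n * ε * s ^ 2 - n * η * s) / s

/-- the test function -/
noncomputable def vM (F : Fm) (T : ℝ) (n w : ℕ) (ε η c τ : ℝ) : ℂ :=
  (∫ t in (-T)..T, QM F n w (c + t * Complex.I) * Kf n ε η (c + (t - τ) * Complex.I)) /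
    (2 * Real.pi)

/-- STRIP: the segment from the two full lines -/
def S_seg : Prop := ∀ (F : Fm) (T : ℝ) (n w : ℕ) (ε η c τ : ℝ), 0 < n → w ≤ n → 0 < ε →
  0 < T → 0 < c → c ≤ Real.pi / 16 →
  Integrable (fun t : ℝ => QM F n w ((Real.pi / 4 - c : ℝ) + t * Complex.I) *
    Kf n ε η ((Real.pi / 4 - c : ℝ) + (t - τ) * Complex.I)) ∧
  Integrable (fun t : ℝ => QM F n w (c + t * Complex.I) * Kf n ε η (c + (t - τ) * Complex.I)) ∧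
  2 * Real.pi * vM F T n w ε η c τ =
    (∫ t : ℝ, QM F n w ((Real.pi / 4 - c : ℝ) + t * Complex.I) *
      Kf n ε η ((Real.pi / 4 - c : ℝ) + (t - τ) * Complex.I)) -
    ∫ t in {t : ℝ | t ≤ -T ∨ T < t}, QM F n w (c + t * Complex.I) *
      Kf n ε η (c + (t - τ) * Complex.I)

/-- LEFTM -/
def S_leftM : Prop := ∀ (F : Fm) (T : ℝ), 0 < T → (∀ i, F.a i * Real.cosh (2 * T) < 1) →
  ∀ ε η Δ ϑ : ℝ, 0 < ε → |η| ≤ 1 → 0 < Δ → 0 < ϑ →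
  ∃ c₀ : ℝ, 0 < c₀ ∧ ∀ c : ℝ, 0 < c → c ≤ c₀ →
  ∃ ε₁ : ℝ, 0 < ε₁ ∧ ∃ n₀ : ℕ, ∀ n w : ℕ, n₀ ≤ n → w ≤ n →
  ∀ τ : ℝ, |τ| ≤ T - ϑ → η + Δ ≤ bM F n w / Real.cosh (2 * τ) →
    ‖vM F T n w ε η c τ - QM F n w (τ * Complex.I)‖ ≤ Real.exp (-ε₁ * n)

/-- RIGHTM -/
def S_rightM : Prop := ∀ (F : Fm) (T : ℝ), 0 < T → (∀ i, F.a i * Real.cosh (2 * T) < 1) →
  ∀ ε ε₂ : ℝ, 0 < ε → 0 < ε₂ →
  ∃ c₀ : ℝ, 0 < c₀ ∧ ∀ c : ℝ, 0 < c → c ≤ c₀ →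
  ∃ n₀ : ℕ, ∀ n w : ℕ, n₀ ≤ n → w ≤ n →
  ∀ τ η : ℝ, |τ| ≤ T → |η| ≤ 1 → ‖vM F T n w ε η c τ‖ ≤ Real.exp (ε₂ * n)

/-- DUALM -/
def S_dualM : Prop := ∀ (F : Fm) (T a0 ε ε' : ℝ), 0 < T → 0 < a0 → a0 < 1 →
  Real.cosh (2 * T) = 1 / a0 → Adm F a0 ε' → 0 < ε → ε ≤ ε' →
  ∃ c₀ : ℝ, 0 < c₀ ∧ ∀ c : ℝ, 0 < c → c ≤ c₀ →
  ∃ n₀ : ℕ, ∀ n : ℕ, n₀ ≤ n → ∀ (η τ : ℝ) (f : ℕ → ℝ), 0 ≤ η → |τ| ≤ T →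
  ‖∑ w ∈ Finset.range (n + 1), (n.choose w : ℂ) * vM F T n w ε η c τ * (f w : ℂ)‖ ≤
    Real.exp (n * (mu a0 + 5 * ε')) * NN n f

/-- TRANSM -/
def S_transM : Prop := ∀ (F : Fm) (T : ℝ), 0 < T → (∀ i, F.a i * Real.cosh (2 * T) < 1) →
  ∀ ε η : ℝ, 0 < ε → ε ≤ 1 → |η| ≤ 1 → ∃ Δ : ℝ, 0 < Δ ∧
  ∃ c₀ : ℝ, 0 < c₀ ∧ ∀ c : ℝ, 0 < c → c ≤ c₀ →
  ∃ ε₁ : ℝ, 0 < ε₁ ∧ ∃ n₀ : ℕ, ∀ n w : ℕ, n₀ ≤ n → w ≤ n →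
    (bM F n w ≤ η + Δ → (vM F T n w ε η c 0).re ≤ 1 + Real.exp (-ε₁ * n)) ∧
    (bM F n w ≤ η → (vM F T n w ε η c 0).re ≤ 5 / 6)

/-- FAMM -/
def S_famM : Prop := ∀ (F : Fm) (T a0 ε' : ℝ), 0 < T → 0 < a0 → a0 < 1 →
  Real.cosh (2 * T) = 1 / a0 → Adm F a0 ε' → 0 < ε' →
  ∀ Δ ε₂ : ℝ, 0 < Δ → 0 < ε₂ → ∃ n₀ : ℕ,
  ∀ n : ℕ, n₀ ≤ n → ∀ θ : ℝ, ∃ u : ℕ → ℂ,
    (∀ w : ℕ, w ≤ n → Δ ≤ bM F n w →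
      ‖u w - Complex.exp ((θ * w : ℝ) * Complex.I)‖ ≤ 1 / (4 * ((n : ℝ) + 1))) ∧
    (∀ w : ℕ, w ≤ n → ‖u w‖ ≤ Real.exp (ε₂ * n)) ∧
    (∀ f : ℕ → ℝ, ‖∑ w ∈ Finset.range (n + 1), (n.choose w : ℂ) * u w * (f w : ℂ)‖ ≤
      Real.exp (n * (mu a0 + 6 * ε')) * NN n f)

/-- NEARM -/
def S_nearM : Prop := ∀ (F : Fm) (T a0 ε' : ℝ), 0 < T → 0 < a0 → a0 < 1 →
  Real.cosh (2 * T) = 1 / a0 → Adm F a0 ε' → 0 < ε' →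
  ∀ Δ ε₂ : ℝ, 0 < Δ → 0 < ε₂ → ∃ n₀ : ℕ, ∀ n : ℕ, n₀ ≤ n → ∀ f : ℕ → ℝ,
    ∑ w ∈ (Finset.range (n + 1)).filter (fun w => Δ ≤ bM F n w), (n.choose w : ℝ) * |f w| ≤
      Real.exp (ε₂ * n) *
        ∑ w ∈ (Finset.range (n + 1)).filter (fun w => bM F n w < Δ), (n.choose w : ℝ) * |f w| +
      Real.exp (n * (mu a0 + 7 * ε')) * NN n f

/-- MAINM -/
def S_mainM : Prop := ∀ (F : Fm) (T a0 ε' : ℝ), 0 < T → 0 < a0 → a0 < 1 →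
  Real.cosh (2 * T) = 1 / a0 → Adm F a0 ε' → 0 < ε' →
  ∀ δ : ℝ, 0 < 1 - 2 * δ - 2 / Real.pi + F.S →
  ∃ n₀ : ℕ, ∀ n : ℕ, n₀ ≤ n → ∀ d : ℕ, (d : ℝ) ≤ δ * n → ∀ l : ℕ → ℝ, (∀ j, 0 ≤ l j) →
    (∀ w : ℕ, d ≤ w → w ≤ n →
      ∑ j ∈ Finset.range (n + 1), l j * (kr n j w : ℝ) ≤ 0) →
    √2 ^ n * Real.exp (-(n * (mu a0 + 8 * ε'))) * l 0 ≤
      ∑ j ∈ Finset.range (n + 1), l j * (kr n j 0 : ℝ)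

/-- DISC: admissible families -/
def S_disc : Prop := ∀ a0 ε : ℝ, 0 < a0 → a0 < 1 → 0 < ε → ∃ F : Fm, Adm F a0 ε ∧
  2 / Real.pi * (1 - √((1 - a0) / (1 + a0))) - ε ≤ F.S

/-- FIN: the linear programming bound is at least `(1 + (π (1 - 2 δ) / 2) ^ 2) ^ (n / 2 - o(n))` -/
def S_fin : Prop := ∀ δ ε : ℝ, 1 / 2 - 1 / Real.pi ≤ δ → δ < 1 / 2 → 0 < ε →
  ∃ n₀ : ℕ, ∀ n : ℕ, n₀ ≤ n → ∀ d : ℕ, (d : ℝ) ≤ δ * n → ∀ l : ℕ → ℝ, (∀ j, 0 ≤ l j) →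
    (∀ w : ℕ, d ≤ w → w ≤ n →
      ∑ j ∈ Finset.range (n + 1), l j * (kr n j w : ℝ) ≤ 0) →
    (1 + (Real.pi * (1 - 2 * δ) / 2) ^ 2) ^ ((n : ℝ) / 2) * Real.exp (-ε * n) * l 0 ≤
      ∑ j ∈ Finset.range (n + 1), l j * (kr n j 0 : ℝ)

/-- PUNC: puncturing -/
def S_punc : Prop := ∀ (n d : ℕ) (l : ℕ → ℝ), (∀ j, 0 ≤ l j) →
  (∀ w : ℕ, d ≤ w → w ≤ n → ∑ j ∈ Finset.range (n + 1), l j * (kr n j w : ℝ) ≤ 0) →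
  ∃ l' : ℕ → ℝ, (∀ j, 0 ≤ l' j) ∧ l' 0 = l 0 ∧
    (∀ w : ℕ, d + 1 ≤ w → w ≤ n + 1 →
      ∑ j ∈ Finset.range (n + 2), l' j * (kr (n + 1) j w : ℝ) ≤ 0) ∧
    ∑ j ∈ Finset.range (n + 2), l' j * (kr (n + 1) j 0 : ℝ) =
      ∑ j ∈ Finset.range (n + 1), l j * (kr n j 0 : ℝ)

end Pool.Agent.TH41.BL
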