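import Mathlib
import Pool.Agent.TH41.BL.Stm

/-!
Project BL3 (helper41, MP_0430e4_lc): limits of the linear programming bound for binary codes of
rate at least `1/2`.  Definitions and statements of the pieces.
-/

set_option autoImplicit false

open MeasureTheory Filter Topology

namespace Pool.Agent.TH41.BL

/-- the universal weight -/
noncomputable def WN (y : ℝ) : ℝ :=
  1 / (2 * Real.pi) * ∫ φ in (0 : ℝ)..(Real.pi / 2),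
    Real.cos φ ^ 2 / (√(1 + y * Real.cos φ ^ 2)) ^ 3

/-- the principal square root -/
noncomputable def sq (z : ℂ) : ℂ := Complex.exp (Complex.log z / 2)

/-- `∫_0^m W(y) / √(1 + y cosh² s) dy` -/
noncomputable def Nf (m : ℝ) (s : ℂ) : ℂ :=
  ∫ y in (0 : ℝ)..m, (WN y : ℂ) / sq (1 + y * Complex.cosh s ^ 2)

/-- the same on the real line -/
noncomputable def NR (m x : ℝ) : ℝ :=
  ∫ y in (0 : ℝ)..m, WN y / √(1 + y * Real.cosh x ^ 2)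

/-- the primitive of `Nf` -/
noncomputable def Ph (m : ℝ) (s : ℂ) : ℂ := ∫ u in (0 : ℝ)..1, s * Nf m (u * s)

/-- the domain -/
def DN (m : ℝ) : Set ℂ := {s : ℂ | |s.im| < Real.pi / 2 ∨ m * Real.sinh s.re ^ 2 < 1}

noncomputable def I3 (m : ℝ) : ℝ := ∫ x in Set.Ioi (0 : ℝ), NR m x

/-- the dual exponent -/
noncomputable def mu3 (m : ℝ) : ℝ := I3 m - 1 / 2 * Real.log 2

/-- the mean of `Nf` on the imaginary axis -/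
noncomputable def Nbar (m : ℝ) : ℝ :=
  1 / Real.pi * ∫ φ in (0 : ℝ)..Real.pi, (Nf m (φ * Complex.I)).re

/-- quantisation -/
def Qz (m : ℝ) (n : ℕ) : Prop := ∃ k : ℤ, (n : ℝ) * Nbar m = 2 * k

/-- W3: the weight -/
def S3_w : Prop :=
  ContinuousOn WN (Set.Ici 0) ∧ (∀ y : ℝ, 0 ≤ y → 0 < WN y ∧ WN y ≤ 1 / 8) ∧
  (∀ S : ℝ, 0 < S → ∫ y in (0 : ℝ)..(1 / S), WN y / √(1 - y * S) =
    1 / 2 * (1 - √(S / (1 + S))))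

/-- N3A: analyticity -/
def S3_na : Prop := ∀ m : ℝ, 0 < m → ∀ s ∈ DN m, DifferentiableAt ℂ (Nf m) s

/-- N3B: symmetries and values -/
def S3_nb : Prop := ∀ m : ℝ, 0 < m →
  (∀ s : ℂ, Nf m (s + Real.pi * Complex.I) = Nf m s) ∧
  (∀ s ∈ DN m, Nf m ((starRingEnd ℂ) s) = (starRingEnd ℂ) (Nf m s)) ∧
  (∀ x : ℝ, Nf m x = ((NR m x : ℝ) : ℂ)) ∧
  (∀ φ : ℝ, (Nf m (φ * Complex.I)).im = 0 ∧ NR m 0 ≤ (Nf m (φ * Complex.I)).re) ∧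
  (∀ s : ℂ, |s.im| < Real.pi / 2 → 0 ≤ (Nf m s).re)

/-- N3C: bounds in the half strip -/
def S3_nc : Prop := ∀ m : ℝ, 0 < m → ∃ C : ℝ, 0 < C ∧
  (∀ s : ℂ, |s.im| < Real.pi / 2 → 0 ≤ s.re → ‖Nf m s‖ ≤ C * Real.exp (-s.re)) ∧
  (∀ x : ℝ, 0 ≤ x → 0 ≤ NR m x ∧ NR m x ≤ C * Real.exp (-x))

/-- the bounds near the imaginary axis -/
structure PB (m C κ : ℝ) : Prop where
  p0 : m * Real.sinh κ ^ 2 < 1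
  p1 : ∀ s : ℂ, |s.re| ≤ κ → HasDerivAt (Ph m) (Nf m s) s
  p2 : ∀ s : ℂ, |s.re| ≤ κ → ‖Nf m s‖ ≤ C
  p3 : ∀ σ t : ℝ, |σ| ≤ κ → |(Ph m (σ + t * Complex.I)).re| ≤ C * |σ|
  p4 : ∀ σ t : ℝ, |σ| ≤ κ →
    |(Ph m (σ + t * Complex.I)).re - (Ph m σ).re| ≤ C * |σ| * t ^ 2
  p5 : ∀ σ t : ℝ, |σ| ≤ κ →
    |(Ph m (σ + t * Complex.I)).im - (Nf m σ).re * t| ≤ C * |t| ^ 3
  p6 : ∀ σ t : ℝ, |σ| ≤ κ → σ ≤ 0 →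
    (Ph m (σ + t * Complex.I)).re ≤ σ * NR m 0 + C * σ ^ 2
  p7 : ∀ σ : ℝ, |σ| ≤ κ → (Ph m σ).im = 0 ∧ |(Ph m σ).re - NR m 0 * σ| ≤ C * |σ| ^ 3
  p8 : ∀ σ : ℝ, |σ| ≤ κ → |(Nf m σ).re - NR m 0| ≤ C * σ ^ 2
  p9 : ∀ t : ℝ, (Ph m (t * Complex.I)).re = 0
  p10 : ContinuousOn (fun σ : ℝ => (Nf m σ).re) (Set.Icc (-κ) κ)

/-- PB3 -/
def S3_pb : Prop := ∀ m : ℝ, 0 < m → ∃ C κ : ℝ, 0 < C ∧ 0 < κ ∧ κ ≤ 1 ∧ PB m C κ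

/-- PH3: the primitive -/
def S3_ph : Prop := ∀ m : ℝ, 0 < m →
  (∀ s ∈ DN m, HasDerivAt (Ph m) (Nf m s) s) ∧ Ph m 0 = 0 ∧
  (∀ s ∈ DN m, Ph m ((starRingEnd ℂ) s) = (starRingEnd ℂ) (Ph m s)) ∧
  (∀ s : ℂ, m * Real.sinh s.re ^ 2 < 1 →
    Ph m (s + Real.pi * Complex.I) = Ph m s + Real.pi * Nbar m * Complex.I)

/-- the size of the transform of the kernel -/
noncomputable def Dsn (m : ℝ) (n j : ℕ) (s : ℂ) : ℝ :=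
  ‖((1 + Complex.exp (-s)) / (√2 : ℝ)) ^ (n - j) * ((1 - Complex.exp (-s)) / (√2 : ℝ)) ^ j *
    Complex.exp (n * Ph m s)‖

/-- DB3: the transform of the kernel near the cut -/
def S3_db : Prop := ∀ m ε : ℝ, 0 < m → 0 < ε →
  ∃ ϑ ρ : ℝ, 0 < ϑ ∧ ϑ < Real.pi / 2 ∧ 0 < ρ ∧ m * Real.sinh ρ ^ 2 < 1 ∧
  (∀ (n j : ℕ) (x : ℝ), j ≤ n → ρ ≤ x →
    Dsn m n j (x + (Real.pi / 2 - ϑ : ℝ) * Complex.I) ≤ Real.exp (n * (mu3 m + ε)) ∧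
    Dsn m n j (x + (-(Real.pi / 2 - ϑ) : ℝ) * Complex.I) ≤ Real.exp (n * (mu3 m + ε))) ∧
  (∀ (n j : ℕ) (φ : ℝ), j ≤ n → Real.pi / 2 - ϑ ≤ |φ| → |φ| ≤ Real.pi / 2 →
    Dsn m n j (ρ + φ * Complex.I) ≤ Real.exp (n * (mu3 m + ε)))

/-- CONT: the contour -/
def S3_cont : Prop := ∀ (E K : ℂ → ℂ) (m ϑ ρ B B' : ℝ), 0 < m → 0 < ϑ → ϑ < Real.pi / 2 →
  0 < ρ → m * Real.sinh ρ ^ 2 < 1 →
  (∀ s ∈ DN m, DifferentiableAt ℂ E s) →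
  (∀ s : ℂ, m * Real.sinh s.re ^ 2 < 1 → E (s + Real.pi * Complex.I) = E s) →
  (∀ s : ℂ, 0 < s.re → DifferentiableAt ℂ K s) →
  (∀ s : ℂ, K (s + 2 * Real.pi * Complex.I) = K s) →
  (∀ s : ℂ, ρ ≤ s.re → |s.im| ≤ Real.pi / 2 - ϑ →
    ‖E s * K s‖ ≤ B' * Real.exp (-s.re) ∧
    ‖E s * K (s + Real.pi * Complex.I)‖ ≤ B' * Real.exp (-s.re)) →
  (∀ s : ℂ, ρ ≤ s.re → |s.im| = Real.pi / 2 - ϑ →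
    ‖E s * K s‖ ≤ B * Real.exp (-s.re) ∧
    ‖E s * K (s + Real.pi * Complex.I)‖ ≤ B * Real.exp (-s.re)) →
  (∀ s : ℂ, s.re = ρ → Real.pi / 2 - ϑ ≤ |s.im| → |s.im| ≤ Real.pi / 2 →
    ‖E s * K s‖ ≤ B ∧ ‖E s * K (s + Real.pi * Complex.I)‖ ≤ B) →
  ∀ c : ℝ, 0 < c → c ≤ ρ →
    ‖∫ φ in (-Real.pi)..Real.pi, E (c + φ * Complex.I) * K (c + φ * Complex.I)‖ ≤ 16 * B

/-! ### The test functions -/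

/-- the mollifier -/
noncomputable def gN (n : ℕ) (ε : ℝ) (s : ℂ) : ℂ :=
  Complex.exp (n * ε * (Complex.exp (-s) - 1))

/-- the test function, on the line `Re s = c` -/
noncomputable def vN (m : ℝ) (n w : ℕ) (ε c θ : ℝ) : ℂ :=
  (∫ φ in (-Real.pi)..Real.pi, Complex.exp (n * Ph m (c + φ * Complex.I)) *
    (Complex.exp (-(w * (c + φ * Complex.I))) * (gN n ε (c + (φ - θ) * Complex.I) /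
      (Complex.exp (c + (φ - θ) * Complex.I) - 1)))) / (2 * Real.pi)

/-- SH3: shift of the line -/
def S3_sh : Prop := ∀ (m C κ : ℝ) (n w : ℕ) (ε θ : ℝ), 0 < m → 0 < κ → PB m C κ → Qz m n →
  (∀ c c' : ℝ, 0 < c → c ≤ κ → 0 < c' → c' ≤ κ → vN m n w ε c θ = vN m n w ε c' θ) ∧
  (∀ c c' : ℝ, -κ ≤ c → c < 0 → 0 < c' → c' ≤ κ →
    vN m n w ε c' θ - vN m n w ε c θ =
      Complex.exp (n * Ph m (θ * Complex.I) - w * (θ * Complex.I)))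

/-- LEFT3 -/
def S3_left : Prop := ∀ m ε Δ : ℝ, 0 < m → 0 < ε → 0 < Δ →
  ∃ c₀ : ℝ, 0 < c₀ ∧ ∀ c : ℝ, 0 < c → c ≤ c₀ →
  ∃ ε₁ : ℝ, 0 < ε₁ ∧ ∃ n₀ : ℕ, ∀ n w : ℕ, n₀ ≤ n → Qz m n →
  (w : ℝ) ≤ (NR m 0 - ε - Δ) * n → ∀ θ : ℝ,
    ‖vN m n w ε c θ - Complex.exp (n * Ph m (θ * Complex.I) - w * (θ * Complex.I))‖ ≤
      Real.exp (-ε₁ * n)

/-- RIGHT3 -/
def S3_right : Prop := ∀ m ε ε₂ : ℝ, 0 < m → 0 < ε → 0 < ε₂ →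
  ∃ c₀ : ℝ, 0 < c₀ ∧ ∀ c : ℝ, 0 < c → c ≤ c₀ → ∃ n₀ : ℕ, ∀ n w : ℕ, n₀ ≤ n → w ≤ n →
  ∀ θ : ℝ, ‖vN m n w ε c θ‖ ≤ Real.exp (ε₂ * n)

/-- DUAL3 -/
def S3_dual : Prop := ∀ m ε ε₂ : ℝ, 0 < m → 0 < ε → 0 < ε₂ →
  ∃ c₀ : ℝ, 0 < c₀ ∧ ∀ c : ℝ, 0 < c → c ≤ c₀ → ∃ n₀ : ℕ, ∀ n : ℕ, n₀ ≤ n → Qz m n →
  ∀ (θ : ℝ) (f : ℕ → ℝ),
  ‖∑ w ∈ Finset.range (n + 1), (n.choose w : ℂ) * vN m n w ε c θ * (f w : ℂ)‖ ≤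
    Real.exp (n * (mu3 m + ε₂)) * NN n f

/-- TRANS3 -/
def S3_trans : Prop := ∀ m ε : ℝ, 0 < m → 0 < ε → ε ≤ 1 → ∃ Δ : ℝ, 0 < Δ ∧
  ∃ c₀ : ℝ, 0 < c₀ ∧ ∀ c : ℝ, 0 < c → c ≤ c₀ →
  ∃ ε₁ : ℝ, 0 < ε₁ ∧ ∃ n₀ : ℕ, ∀ n w : ℕ, n₀ ≤ n → w ≤ n → Qz m n →
    ((NR m 0 - ε - Δ) * n ≤ w → (vN m n w ε c 0).re ≤ 1 + Real.exp (-ε₁ * n)) ∧
    ((NR m 0 - ε) * n ≤ w → (vN m n w ε c 0).re ≤ 5 / 6)

/-- NEAR3 -/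
def S3_near : Prop := ∀ m ε ε₂ ε₃ : ℝ, 0 < m → 0 < ε → 0 < ε₂ → 0 < ε₃ → ∃ n₀ : ℕ,
  ∀ n : ℕ, n₀ ≤ n → Qz m n → ∀ f : ℕ → ℝ,
    ∑ w ∈ (Finset.range (n + 1)).filter (fun w : ℕ => (w : ℝ) < (NR m 0 - ε) * n),
        (n.choose w : ℝ) * |f w| ≤
      Real.exp (ε₂ * n) *
        ∑ w ∈ (Finset.range (n + 1)).filter (fun w : ℕ => (NR m 0 - ε) * n ≤ (w : ℝ)),
          (n.choose w : ℝ) * |f w| +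
      Real.exp (n * (mu3 m + ε₃)) * NN n f

/-- MAIN3 -/
def S3_main : Prop := ∀ m δ ε : ℝ, 0 < m → δ < NR m 0 → 0 < ε →
  ∃ n₀ : ℕ, ∀ n : ℕ, n₀ ≤ n → Qz m n → ∀ d : ℕ, (d : ℝ) ≤ δ * n → ∀ l : ℕ → ℝ,
    (∀ j, 0 ≤ l j) →
    (∀ w : ℕ, d ≤ w → w ≤ n →
      ∑ j ∈ Finset.range (n + 1), l j * (kr n j w : ℝ) ≤ 0) →
    Real.exp (n * (Real.log 2 - I3 m - ε)) * l 0 ≤
      ∑ j ∈ Finset.range (n + 1), l j * (kr n j 0 : ℝ)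

/-- QUANT: the mean is strictly monotone and continuous -/
def S3_quant : Prop := ContinuousOn Nbar (Set.Ioi 0) ∧ StrictMonoOn Nbar (Set.Ioi 0) ∧
  (∀ x : ℝ, ContinuousOn (fun m => NR m x) (Set.Ioi 0)) ∧ MonotoneOn I3 (Set.Ioi 0)

/-- FIN3 -/
def S3_fin : Prop := ∀ m δ ε : ℝ, 0 < m → δ < NR m 0 → 0 < ε →
  ∃ n₀ : ℕ, ∀ n : ℕ, n₀ ≤ n → ∀ d : ℕ, (d : ℝ) ≤ δ * n → ∀ l : ℕ → ℝ,
    (∀ j, 0 ≤ l j) →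
    (∀ w : ℕ, d ≤ w → w ≤ n →
      ∑ j ∈ Finset.range (n + 1), l j * (kr n j w : ℝ) ≤ 0) →
    Real.exp (n * (Real.log 2 - I3 m - ε)) * l 0 ≤
      ∑ j ∈ Finset.range (n + 1), l j * (kr n j 0 : ℝ)

end Pool.Agent.TH41.BL
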