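import Mathlib
import Pool.Agent.TH41.BL.Stm2
import Pool.Agent.TH41.BL.Stm3

/-!
Project BL4 (helper41, MP_0430e4_lc): limits of the linear programming bound for binary codes of
rate at most `1/2`.  Definitions and statements of the pieces.
-/

set_option autoImplicit false

open MeasureTheory Filter Topology

namespace Pool.Agent.TH41.BL

/-! ### The additional factor -/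

/-- `∫_m^∞ 2 W(y) / √(y + sin² 2s) dy` -/
noncomputable def JJ (m : ℝ) (s : ℂ) : ℂ :=
  ∫ y in Set.Ioi m, (2 * WN y : ℂ) / sq (y + Complex.sin (2 * s) ^ 2)

/-- the primitive of `JJ` -/
noncomputable def PJ (m : ℝ) (s : ℂ) : ℂ := ∫ u in (0 : ℝ)..1, s * JJ m (u * s)

/-- the domain -/
def DJ (m : ℝ) : Set ℂ :=
  {s : ℂ | |s.re| < Real.pi / 2 ∧ (s.re ≠ 0 ∨ Real.sinh (2 * s.im) ^ 2 < m)}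

/-- the dual exponent -/
noncomputable def mu4 (m : ℝ) : ℝ := ∫ x in (0 : ℝ)..(Real.pi / 4), (JJ m x).re

/-- the threshold -/
noncomputable def THR (P M : ℝ) : ℝ := √(1 + P) * ∫ y in P..M, 2 * WN y / √(y - P)

/-- the kernel -/
noncomputable def QJ (m : ℝ) (n w : ℕ) (s : ℂ) : ℂ := QQ n w s * Complex.exp (n * PJ m s)

/-- quantisation -/
def Qz4 (m : ℝ) (n : ℕ) (σ : ℝ) : Prop :=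
  (σ = 1 ∨ σ = -1) ∧ Complex.exp (((Real.pi * n * Nbar m : ℝ) : ℂ) * Complex.I) = (σ : ℂ)

/-- W4: the weight -/
def S4_w : Prop :=
  (IntegrableOn WN (Set.Ioi 0) ∧ ∫ y in Set.Ioi (0 : ℝ), WN y ≤ 1 / 2) ∧
  (∀ z : ℂ, IntegrableOn (fun y : ℝ => (2 * WN y : ℂ) / sq (y + z)) (Set.Ioi 0) ∧
    ∫ y in Set.Ioi (0 : ℝ), ‖(2 * WN y : ℂ) / sq (y + z)‖ ≤ 4)

/-- AB4: the identities on the cut -/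
def S4_ab : Prop :=
  (∫ y in Set.Ioi (0 : ℝ), 2 * WN y / √y = 2 / Real.pi) ∧
  (∀ t : ℝ, 0 < t → ∫ y in Set.Ioi (Real.sinh (2 * t) ^ 2),
    2 * WN y / √(y - Real.sinh (2 * t) ^ 2) = 8 * t / (Real.pi * Real.sinh (4 * t)))

/-- ID4: the identity in the half plane -/
def S4_id : Prop := ∀ s : ℂ, 0 < s.re → s.re < 3 * Real.pi / 8 →
  ∫ y in Set.Ioi (0 : ℝ), (2 * WN y : ℂ) / sq (y + Complex.sin (2 * s) ^ 2) =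
    Complex.tan s - Lz s

/-- JA4: analyticity and symmetries -/
def S4_ja : Prop := ∀ m : ℝ, 0 < m →
  (∀ s ∈ DJ m, DifferentiableAt ℂ (JJ m) s) ∧ (∀ s : ℂ, ‖JJ m s‖ ≤ 4) ∧
  (∀ s ∈ DJ m, JJ m ((starRingEnd ℂ) s) = (starRingEnd ℂ) (JJ m s)) ∧
  (∀ t : ℝ, (JJ m ((Real.pi / 4 : ℝ) + t * Complex.I)).im = 0) ∧
  (∀ t : ℝ, Real.sinh (2 * t) ^ 2 < m → (JJ m (t * Complex.I)).im = 0 ∧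
    (JJ m 0).re ≤ (JJ m (t * Complex.I)).re) ∧
  (∀ x : ℝ, (JJ m x).im = 0)

/-- PH4: the primitive -/
def S4_ph : Prop := ∀ m : ℝ, 0 < m →
  (∀ s ∈ DJ m, HasDerivAt (PJ m) (JJ m s) s) ∧ PJ m 0 = 0 ∧
  (∀ s ∈ DJ m, PJ m ((starRingEnd ℂ) s) = (starRingEnd ℂ) (PJ m s)) ∧
  (∀ s : ℂ, ‖PJ m s‖ ≤ 4 * ‖s‖) ∧
  (∀ t : ℝ, Real.sinh (2 * t) ^ 2 < m → (PJ m (t * Complex.I)).re = 0) ∧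
  (∀ x : ℝ, (PJ m x).im = 0)

/-- the bounds of the additional factor near the imaginary axis -/
structure PGG (P PD : ℂ → ℂ) (T C κ : ℝ) : Prop where
  g0 : ∀ σ t : ℝ, |σ| ≤ κ → |t| ≤ T →
    HasDerivAt P (PD (σ + t * Complex.I)) (σ + t * Complex.I)
  g1 : ∀ σ t : ℝ, |σ| ≤ κ → |t| ≤ T → ‖PD (σ + t * Complex.I)‖ ≤ C
  g2 : ∀ σ t : ℝ, |σ| ≤ κ → |t| ≤ T →
    |(PD (σ + t * Complex.I)).re - (PD (t * Complex.I)).re| ≤ C * |σ|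
  g3 : ∀ σ t : ℝ, |σ| ≤ κ → |t| ≤ T →
    |(PD (σ + t * Complex.I)).re - (PD σ).re| ≤ C * t ^ 2
  g4 : ∀ σ : ℝ, |σ| ≤ κ → |(PD σ).re - (PD 0).re| ≤ C * σ ^ 2
  g5 : ∀ t t' : ℝ, |t| ≤ T → |t'| ≤ T →
    |(PD (t * Complex.I)).re - (PD (t' * Complex.I)).re| ≤ C * |t - t'|
  g6 : ∀ t : ℝ, |t| ≤ T → (P (t * Complex.I)).re = 0
  g7 : ∀ σ : ℝ, |σ| ≤ κ → (P σ).im = 0
  g8 : ContinuousOn PD {s : ℂ | |s.re| ≤ κ ∧ |s.im| ≤ T}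
  g9 : P 0 = 0

/-- PG4 -/
def S4_pg : Prop := ∀ m T : ℝ, 0 < m → 0 < T → Real.sinh (2 * T) ^ 2 < m →
  ∃ C κ : ℝ, 0 < C ∧ 0 < κ ∧ κ ≤ Real.pi / 16 ∧ PGG (PJ m) (JJ m) T C κ

/-- THR4 -/
def S4_thr : Prop :=
  (∀ m t : ℝ, 0 < m → Real.sinh (2 * t) ^ 2 < m →
    (Lz (t * Complex.I) + JJ m (t * Complex.I)).re * Real.cosh (2 * t) =
      -THR (Real.sinh (2 * t) ^ 2) m) ∧
  (∀ ω m t : ℝ, 0 < m → Real.sinh (2 * t) ^ 2 < m →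
    (GG ω (t * Complex.I) + JJ m (t * Complex.I)).re =
      (1 - 2 * ω - THR (Real.sinh (2 * t) ^ 2) m) / Real.cosh (2 * t)) ∧
  (∀ P m : ℝ, 0 ≤ P → P < m → 0 ≤ THR P m ∧ THR P m ≤ THR 0 m) ∧
  (∀ P M : ℝ, 0 ≤ P → P < M → THR P M ≤ √(1 + P) * √(M - P) / 2) ∧
  ContinuousOn (fun m => THR 0 m) (Set.Ioi 0)

/-! ### General kernels -/

/-- the bounds of the kernel `Q`, with logarithmic derivative `g` on the real line and real part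
`γ` of the logarithmic derivative on the imaginary axis, up to height `T` -/
structure QBG (Q : ℂ → ℂ) (g γ : ℝ → ℝ) (b T C κ : ℝ) (n : ℕ) : Prop where
  mz : Q 0 = 1
  m0 : ∀ t : ℝ, |t| ≤ T → ‖Q (t * Complex.I)‖ = 1
  m1 : ∀ σ : ℝ, |σ| ≤ κ → (Q σ).im = 0 ∧ 0 < (Q σ).re
  m2 : ∀ σ t : ℝ, |σ| ≤ κ → |t| ≤ T → ‖Q (σ + t * Complex.I)‖ ≤ Real.exp (C * n * |σ|)
  m3 : ∀ σ t : ℝ, |σ| ≤ κ → |t| ≤ T →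
    ‖Q (σ + t * Complex.I)‖ ≤ ‖Q σ‖ * Real.exp (C * n * |σ| * t ^ 2)
  m4 : ∀ σ t : ℝ, |σ| ≤ κ → |t| ≤ T →
    ‖Q σ‖ * Real.exp (-(C * n * |σ| * t ^ 2)) ≤ ‖Q (σ + t * Complex.I)‖
  m5 : ∀ σ t : ℝ, |σ| ≤ κ → |t| ≤ T → ∃ θ : ℝ, |θ| ≤ C * n * |t| ^ 3 ∧
    Q (σ + t * Complex.I) = (‖Q (σ + t * Complex.I)‖ : ℂ) *
      Complex.exp (((n * g σ * t + θ : ℝ) : ℂ) * Complex.I)
  m6 : ∀ σ t : ℝ, |σ| ≤ κ → |t| ≤ T →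
    ‖Q (σ + t * Complex.I)‖ ≤ Real.exp (n * (σ * γ t + C * σ ^ 2))
  m7 : ∀ σ : ℝ, |σ| ≤ κ → ‖Q σ‖ ≤ Real.exp (n * (b * σ + C * |σ| ^ 3))
  m8 : ∀ σ : ℝ, |σ| ≤ κ → |g σ - b| ≤ C * σ ^ 2
  m9 : ContinuousOn g (Set.Icc (-κ) κ)
  m10 : ∀ s : ℂ, |s.re| ≤ κ → |s.im| ≤ T → DifferentiableAt ℂ Q s
  m11 : ∀ t t' : ℝ, |t| ≤ T → |t'| ≤ T → |γ t - γ t'| ≤ C * |t - t'|
  m12 : γ 0 = b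

/-- QB4: the bounds of the kernels -/
def S4_qb : Prop := ∀ (P PD : ℂ → ℂ) (T C₀ κ₀ : ℝ), 0 < T → 0 < C₀ → 0 < κ₀ →
  κ₀ ≤ Real.pi / 16 → PGG P PD T C₀ κ₀ →
  ∃ C κ : ℝ, 0 < C ∧ 0 < κ ∧ κ ≤ Real.pi / 16 ∧ ∀ n w : ℕ, 0 < n → w ≤ n →
    QBG (fun s => QQ n w s * Complex.exp (n * P s))
      (fun σ => (GG ((w : ℝ) / n) σ + PD σ).re)
      (fun t => (GG ((w : ℝ) / n) (t * Complex.I) + PD (t * Complex.I)).re)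
      (bb n w + (PD 0).re) T C κ n

/-- the test function of a segment -/
noncomputable def vS (Q : ℂ → ℂ) (T : ℝ) (n : ℕ) (ε η c τ : ℝ) : ℂ :=
  (∫ t in (-T)..T, Q (c + t * Complex.I) * Kf n ε η (c + (t - τ) * Complex.I)) / (2 * Real.pi)

/-- LEFT4 -/
def S4_left : Prop := ∀ T C κ : ℝ, 0 < T → 0 < C → 0 < κ → κ ≤ Real.pi / 16 →
  ∀ ε η Δ ϑ : ℝ, 0 < ε → |η| ≤ 1 → 0 < Δ → 0 < ϑ →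
  ∃ c₀ : ℝ, 0 < c₀ ∧ ∀ c : ℝ, 0 < c → c ≤ c₀ →
  ∃ ε₁ : ℝ, 0 < ε₁ ∧ ∃ n₀ : ℕ, ∀ n : ℕ, n₀ ≤ n →
  ∀ (Q : ℂ → ℂ) (g γ : ℝ → ℝ) (b : ℝ), QBG Q g γ b T C κ n → ∀ τ : ℝ, |τ| ≤ T - ϑ →
    (η + Δ ≤ γ τ → ‖vS Q T n ε η c τ - Q (τ * Complex.I)‖ ≤ Real.exp (-ε₁ * n)) ∧
    (γ τ ≤ η - Δ → ‖vS Q T n ε η c τ‖ ≤ Real.exp (-ε₁ * n))

/-- RIGHT4 -/
def S4_right : Prop := ∀ T C κ : ℝ, 0 < T → 0 < C → 0 < κ → κ ≤ Real.pi / 16 →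
  ∀ ε ε₂ : ℝ, 0 < ε → 0 < ε₂ →
  ∃ c₀ : ℝ, 0 < c₀ ∧ ∀ c : ℝ, 0 < c → c ≤ c₀ → ∃ n₀ : ℕ, ∀ n : ℕ, n₀ ≤ n →
  ∀ (Q : ℂ → ℂ) (g γ : ℝ → ℝ) (b : ℝ), QBG Q g γ b T C κ n →
  ∀ τ η : ℝ, |τ| ≤ T → |η| ≤ 1 → ‖vS Q T n ε η c τ‖ ≤ Real.exp (ε₂ * n)

/-- TRANS4 -/
def S4_trans : Prop := ∀ T C κ : ℝ, 0 < T → 0 < C → 0 < κ → κ ≤ Real.pi / 16 →
  ∀ ε η : ℝ, 0 < ε → ε ≤ 1 → |η| ≤ 1 → ∃ Δ : ℝ, 0 < Δ ∧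
  ∃ c₀ : ℝ, 0 < c₀ ∧ ∀ c : ℝ, 0 < c → c ≤ c₀ →
  ∃ ε₁ : ℝ, 0 < ε₁ ∧ ∃ n₀ : ℕ, ∀ n : ℕ, n₀ ≤ n →
  ∀ (Q : ℂ → ℂ) (g γ : ℝ → ℝ) (b : ℝ), QBG Q g γ b T C κ n →
    (b ≤ η + Δ → (vS Q T n ε η c 0).re ≤ 1 + Real.exp (-ε₁ * n)) ∧
    (b ≤ η → (vS Q T n ε η c 0).re ≤ 5 / 6) ∧
    (η - Δ ≤ b → -Real.exp (-ε₁ * n) ≤ (vS Q T n ε η c 0).re)

/-! ### The test function -/

/-- the integral over the whole line -/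
noncomputable def vF (m : ℝ) (n w : ℕ) (ε η c τ : ℝ) : ℂ :=
  (∫ t : ℝ, QJ m n w (c + t * Complex.I) * Kf n ε η (c + (t - τ) * Complex.I)) / (2 * Real.pi)

/-- the test function -/
noncomputable def v4 (m : ℝ) (n w : ℕ) (σ ε η τ : ℝ) : ℂ :=
  vF m n w ε η (Real.pi / 4) τ + σ * vF m n (n - w) ε (-η) (Real.pi / 4) (-τ)

/-- LINE4 -/
def S4_line : Prop := ∀ (m : ℝ) (n w : ℕ) (ε η τ : ℝ), 0 < m → 0 < n → w ≤ n → 0 < ε →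
  (∀ c : ℝ, 0 < c → c ≤ Real.pi / 4 → Integrable (fun t : ℝ =>
    QJ m n w (c + t * Complex.I) * Kf n ε η (c + (t - τ) * Complex.I))) ∧
  (∀ c : ℝ, 0 < c → c ≤ Real.pi / 4 → vF m n w ε η c τ = vF m n w ε η (Real.pi / 4) τ)

/-- NB4: the size of the kernel near the imaginary axis -/
def S4_nb : Prop := ∀ m T : ℝ, 0 < m → 0 < T → Real.sinh (2 * T) ^ 2 = m →
  ∃ C κ : ℝ, 0 < C ∧ 0 < κ ∧ κ ≤ Real.pi / 16 ∧ ∀ n w : ℕ, w ≤ n → ∀ σ t : ℝ, 0 < σ → σ ≤ κ →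
    ‖QJ m n w (σ + t * Complex.I)‖ ≤ Real.exp (C * n * (σ + max 0 (|t| - T)))

/-- the phase -/
noncomputable def chi4 (m : ℝ) : ℝ :=
  ∫ u in (0 : ℝ)..(Real.arsinh (√m) / 2), THR (Real.sinh (2 * u) ^ 2) m / Real.cosh (2 * u)

/-- CHI4 -/
def S4_chi : Prop := ∀ m : ℝ, 0 < m → chi4 m = Real.pi / 2 * Nbar m

/-- GLUE4: the continuation through the cut -/
def S4_glue : Prop := ∀ m : ℝ, 0 < m → ∃ Ψ : ℂ → ℂ,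
  (∀ s : ℂ, |s.re| < Real.pi / 8 → 0 < s.im → m < Real.sinh (2 * s.im) ^ 2 →
    DifferentiableAt ℂ Ψ s ∧
    (0 < s.re → Ψ s = Lam s + PJ m s) ∧
    (s.re < 0 → Ψ s = Lam (-s) + PJ m (-s) - 2 * chi4 m * Complex.I))

/-- GY4: the continuation of the kernel -/
def S4_gy : Prop := ∀ (m σ : ℝ) (n w : ℕ), 0 < m → w ≤ n → Qz4 m n σ → ∃ Y : ℂ → ℂ,
  (∀ s : ℂ, |s.re| < Real.pi / 8 → m < Real.sinh (2 * s.im) ^ 2 →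
    DifferentiableAt ℂ Y s ∧
    (0 < s.re → Y s = QJ m n w s) ∧
    (s.re < 0 → Y s = σ * QJ m n (n - w) (-s)))

/-- OUT4: the test function and the segments -/
def S4_out : Prop := ∀ m T : ℝ, 0 < m → 0 < T → Real.sinh (2 * T) ^ 2 = m →
  ∀ ε ϑ : ℝ, 0 < ε → 0 < ϑ → ϑ < T → ∃ T' : ℝ, T - ϑ ≤ T' ∧ 0 < T' ∧ T' < T ∧
  ∃ c₀ : ℝ, 0 < c₀ ∧ ∀ c : ℝ, 0 < c → c ≤ c₀ →
  ∃ ε₁ : ℝ, 0 < ε₁ ∧ ∃ n₀ : ℕ, ∀ n : ℕ, n₀ ≤ n → ∀ σ : ℝ, Qz4 m n σ → ∀ w : ℕ, w ≤ n →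
  ∀ η τ : ℝ, |η| ≤ 1 → |τ| ≤ T - 2 * ϑ →
    ‖v4 m n w σ ε η τ - (vS (QJ m n w) T' n ε η c τ +
      σ * vS (QJ m n (n - w)) T' n ε (-η) c (-τ))‖ ≤ Real.exp (-ε₁ * n)

/-- DB4: the dual line -/
def S4_db : Prop := ∀ m t : ℝ, 0 < m →
  (Lam ((Real.pi / 4 : ℝ) + t * Complex.I) + PJ m ((Real.pi / 4 : ℝ) + t * Complex.I)).re =
    mu4 m - 1 / 2 * Real.log (Real.cosh (2 * t))

/-- DUAL4 -/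
def S4_dual : Prop := ∀ m ε : ℝ, 0 < m → 0 < ε → ∃ n₀ : ℕ, ∀ n : ℕ, n₀ ≤ n →
  ∀ (σ η τ : ℝ) (f : ℕ → ℝ), |σ| ≤ 1 →
  ‖∑ w ∈ Finset.range (n + 1), (n.choose w : ℂ) * v4 m n w σ ε η τ * (f w : ℂ)‖ ≤
    Real.exp (n * (mu4 m + ε + |η|)) * NN n f

/-- VL4: the test function near the left end -/
def S4_vl : Prop := ∀ m T : ℝ, 0 < m → 0 < T → Real.sinh (2 * T) ^ 2 = m →
  ∀ ε η Δ ϑ : ℝ, 0 < ε → 0 ≤ η → η ≤ 1 → 0 < Δ → 0 < ϑ →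
  ∃ ε₁ : ℝ, 0 < ε₁ ∧ ∃ n₀ : ℕ, ∀ n : ℕ, n₀ ≤ n → ∀ σ : ℝ, Qz4 m n σ → ∀ w : ℕ, w ≤ n →
  ∀ τ : ℝ, |τ| ≤ T - ϑ →
    (η + Δ) * Real.cosh (2 * τ) ≤ 1 - 2 * (w : ℝ) / n - THR (Real.sinh (2 * τ) ^ 2) m →
    ‖v4 m n w σ ε η τ - QJ m n w (τ * Complex.I)‖ ≤ Real.exp (-ε₁ * n)

/-- VR4: the rough bound -/
def S4_vr : Prop := ∀ m T : ℝ, 0 < m → 0 < T → Real.sinh (2 * T) ^ 2 = m →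
  ∀ ε ε₂ ϑ : ℝ, 0 < ε → 0 < ε₂ → 0 < ϑ →
  ∃ n₀ : ℕ, ∀ n : ℕ, n₀ ≤ n → ∀ σ : ℝ, Qz4 m n σ → ∀ w : ℕ, w ≤ n →
  ∀ η τ : ℝ, |η| ≤ 1 → |τ| ≤ T - ϑ → ‖v4 m n w σ ε η τ‖ ≤ Real.exp (ε₂ * n)

/-- VT4: the transition region -/
def S4_vt : Prop := ∀ m : ℝ, 0 < m → ∀ ε η : ℝ, 0 < ε → ε ≤ 1 → 0 ≤ η → η ≤ 1 →
  ∃ Δ : ℝ, 0 < Δ ∧ ∃ ε₁ : ℝ, 0 < ε₁ ∧ ∃ n₀ : ℕ, ∀ n : ℕ, n₀ ≤ n → Qz4 m n (-1) →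
  ∀ w : ℕ, w ≤ n →
    (1 - 2 * (w : ℝ) / n - THR 0 m ≤ η + Δ →
      (v4 m n w (-1) ε η 0).re ≤ 1 + Real.exp (-ε₁ * n)) ∧
    (1 - 2 * (w : ℝ) / n - THR 0 m ≤ η → (v4 m n w (-1) ε η 0).re ≤ 7 / 8)

/-- MU4: the dual exponent -/
def S4_mu : Prop := AntitoneOn mu4 (Set.Ioi 0) ∧ (∀ m : ℝ, 0 < m → 0 < mu4 m) ∧
  ContinuousOn mu4 (Set.Ioi 0)

/-- FAMP4: exponentials, for one kernel -/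
def S4_famp : Prop := ∀ M P Δ ε₂ ε₃ : ℝ, 0 < M → 0 ≤ P → P < M → 0 < Δ → 0 < ε₂ → 0 < ε₃ →
  ∃ n₀ : ℕ, ∀ n : ℕ, n₀ ≤ n → ∀ σ : ℝ, Qz4 M n σ → ∀ θ : ℝ, 0 < Real.cos θ →
  Real.tan θ ^ 2 ≤ P → ∃ u : ℕ → ℂ,
    (∀ w : ℕ, w ≤ n → Δ ≤ 1 - 2 * (w : ℝ) / n - THR (Real.tan θ ^ 2) M →
      ‖u w - Complex.exp ((θ * w : ℝ) * Complex.I)‖ ≤ 1 / (4 * ((n : ℝ) + 1))) ∧
    (∀ w : ℕ, w ≤ n → ‖u w‖ ≤ Real.exp (ε₂ * n)) ∧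
    (∀ f : ℕ → ℝ, ‖∑ w ∈ Finset.range (n + 1), (n.choose w : ℂ) * u w * (f w : ℂ)‖ ≤
      Real.exp (n * (mu4 M + ε₃)) * NN n f)

/-- FAM4: approximate extensions of the exponentials -/
def S4_fam : Prop := ∀ (m : ℝ) (q : ℕ), 0 < m → 0 < q → (∃ p : ℤ, Nbar m * q = p) →
  ∀ Δ ε₂ ε₃ : ℝ, 0 < Δ → 0 < ε₂ → 0 < ε₃ → ∃ r : ℕ, Odd r ∧ ∃ n₀ : ℕ,
  ∀ n : ℕ, n₀ ≤ n → q * r ∣ n → ∀ θ : ℝ, ∃ u : ℕ → ℂ,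
    (∀ w : ℕ, w ≤ n → Δ ≤ 1 - 2 * (w : ℝ) / n - THR 0 m →
      ‖u w - Complex.exp ((θ * w : ℝ) * Complex.I)‖ ≤ 1 / (4 * ((n : ℝ) + 1))) ∧
    (∀ w : ℕ, w ≤ n → ‖u w‖ ≤ Real.exp (ε₂ * n)) ∧
    (∀ f : ℕ → ℝ, ‖∑ w ∈ Finset.range (n + 1), (n.choose w : ℂ) * u w * (f w : ℂ)‖ ≤
      Real.exp (n * (mu4 m + ε₃)) * NN n f)

/-- NEAR4 -/
def S4_near : Prop := ∀ (m : ℝ) (q : ℕ), 0 < m → 0 < q → (∃ p : ℤ, Nbar m * q = p) →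
  ∀ Δ ε₂ ε₃ : ℝ, 0 < Δ → 0 < ε₂ → 0 < ε₃ → ∃ r : ℕ, Odd r ∧ ∃ n₀ : ℕ,
  ∀ n : ℕ, n₀ ≤ n → q * r ∣ n → ∀ f : ℕ → ℝ,
    ∑ w ∈ (Finset.range (n + 1)).filter (fun w : ℕ => Δ ≤ 1 - 2 * (w : ℝ) / n - THR 0 m),
        (n.choose w : ℝ) * |f w| ≤
      Real.exp (ε₂ * n) *
        ∑ w ∈ (Finset.range (n + 1)).filter (fun w : ℕ => 1 - 2 * (w : ℝ) / n - THR 0 m < Δ),
          (n.choose w : ℝ) * |f w| +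
      Real.exp (n * (mu4 m + ε₃)) * NN n f

/-- MAIN4 -/
def S4_main : Prop := ∀ (m δ ε : ℝ) (q : ℕ), 0 < m → δ < 1 / 2 - 1 / 2 * THR 0 m → 0 < ε →
  0 < q → (∃ p : ℤ, Odd p ∧ Nbar m * q = p) → ∃ r : ℕ, Odd r ∧ ∃ n₀ : ℕ,
  ∀ n : ℕ, n₀ ≤ n → (∃ j : ℕ, Odd j ∧ n = q * r * j) → ∀ d : ℕ, (d : ℝ) ≤ δ * n →
    ∀ l : ℕ → ℝ, (∀ j, 0 ≤ l j) →
    (∀ w : ℕ, d ≤ w → w ≤ n →
      ∑ j ∈ Finset.range (n + 1), l j * (kr n j w : ℝ) ≤ 0) →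
    Real.exp (n * (1 / 2 * Real.log 2 - mu4 m - ε)) * l 0 ≤
      ∑ j ∈ Finset.range (n + 1), l j * (kr n j 0 : ℝ)

/-- FIN4 -/
def S4_fin : Prop := ∀ m δ ε : ℝ, 0 < m → δ < 1 / 2 - 1 / 2 * THR 0 m → 0 < ε →
  ∃ n₀ : ℕ, ∀ n : ℕ, n₀ ≤ n → ∀ d : ℕ, (d : ℝ) ≤ δ * n → ∀ l : ℕ → ℝ,
    (∀ j, 0 ≤ l j) →
    (∀ w : ℕ, d ≤ w → w ≤ n →
      ∑ j ∈ Finset.range (n + 1), l j * (kr n j w : ℝ) ≤ 0) →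
    Real.exp (n * (1 / 2 * Real.log 2 - mu4 m - ε)) * l 0 ≤
      ∑ j ∈ Finset.range (n + 1), l j * (kr n j 0 : ℝ)

/-- VAL4 -/
def S4_val : Prop := ∀ m : ℝ, 0 < m → mu4 m = 1 / 2 * Real.log 2 - I3 m

/-! ### Closed forms -/

/-- the complete elliptic integral of the first kind -/
noncomputable def Kc (k : ℝ) : ℝ :=
  ∫ φ in (0 : ℝ)..(Real.pi / 2), 1 / √(1 - k ^ 2 * Real.sin φ ^ 2)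

/-- the complete elliptic integral of the second kind -/
noncomputable def Ec (k : ℝ) : ℝ :=
  ∫ φ in (0 : ℝ)..(Real.pi / 2), √(1 - k ^ 2 * Real.sin φ ^ 2)

/-- `(1/π) ∫_0^k (K(x) - E(x)) K(√(1 - x²)) / x dx` -/
noncomputable def Ic (k : ℝ) : ℝ :=
  1 / Real.pi * ∫ x in (0 : ℝ)..k, (Kc x - Ec x) * Kc (√(1 - x ^ 2)) / x

/-- EL1: derivatives of the elliptic integrals -/
def S5_kd : Prop := (∀ k : ℝ, 0 < k → k < 1 →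
    HasDerivAt Ec ((Ec k - Kc k) / k) k ∧
    HasDerivAt Kc ((Ec k - (1 - k ^ 2) * Kc k) / (k * (1 - k ^ 2))) k) ∧
  ContinuousOn Ec (Set.Ico 0 1) ∧ ContinuousOn Kc (Set.Ico 0 1) ∧
  Ec 0 = Real.pi / 2 ∧ Kc 0 = Real.pi / 2

/-- EL2: the weight -/
def S5_wn : Prop := ∀ k : ℝ, 0 < k → k < 1 →
  WN (k ^ 2 / (1 - k ^ 2)) = 1 / (2 * Real.pi) * √(1 - k ^ 2) ^ 3 * (Kc k - Ec k) / k ^ 2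

/-- EL3 -/
def S5_a : Prop := ∀ k : ℝ, 0 < k → k < 1 →
  NR (k ^ 2 / (1 - k ^ 2)) 0 = 1 / 2 - Ec k / Real.pi

/-- EL4 -/
def S5_b : Prop := ∀ k : ℝ, 0 < k → k < 1 →
  1 / 2 * THR 0 (k ^ 2 / (1 - k ^ 2)) = (Ec k - (1 - k ^ 2) * Kc k) / (Real.pi * k)

/-- EL5 -/
def S5_c : Prop := ∀ k : ℝ, 0 < k → k < 1 → I3 (k ^ 2 / (1 - k ^ 2)) = Ic k

end Pool.Agent.TH41.BL
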