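import Mathlib
import Pool.Agent.TH41.BL.Stm4

set_option autoImplicit false

open MeasureTheory Filter Topology

namespace Pool.Agent.TH41.BL.EFIf

open Pool.Agent.TH41.BL

/-- the bound with exponent `x` -/
def Bd (δ x : ℝ) : Prop := ∀ ε : ℝ, 0 < ε → ∃ n₀ : ℕ, ∀ n : ℕ, n₀ ≤ n →
  ∀ d : ℕ, (d : ℝ) ≤ δ * n → ∀ l : ℕ → ℝ, (∀ j, 0 ≤ l j) →
    (∀ w : ℕ, d ≤ w → w ≤ n → ∑ j ∈ Finset.range (n + 1), l j * (kr n j w : ℝ) ≤ 0) →
    Real.exp (n * (x - ε)) * l 0 ≤ ∑ j ∈ Finset.range (n + 1), l j * (kr n j 0 : ℝ)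

noncomputable def mk (k : ℝ) : ℝ := k ^ 2 / (1 - k ^ 2)

lemma mk_pos {k : ℝ} (h0 : 0 < k) (h1 : k < 1) : 0 < mk k := by
  have : k ^ 2 < 1 := by nlinarith
  unfold mk
  have : 0 < 1 - k ^ 2 := by linarith
  positivity

lemma mk_cont : ContinuousOn mk (Set.Ioo 0 1) := by
  unfold mk
  refine ContinuousOn.div (by fun_prop) (by fun_prop) ?_
  intro k hk
  have : k ^ 2 < 1 := by nlinarith [hk.1, hk.2]
  linarith

lemma Ic_cont (hmu : S4_mu) (hval : S4_val) (hc : S5_c) : ContinuousOn Ic (Set.Ioo 0 1) := by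
  have h1 : ContinuousOn (fun k => 1 / 2 * Real.log 2 - mu4 (mk k)) (Set.Ioo 0 1) := by
    refine ContinuousOn.sub continuousOn_const ?_
    exact hmu.2.2.comp mk_cont fun k hk => mk_pos hk.1 hk.2
  refine h1.congr fun k hk => ?_
  have h2 := hc k hk.1 hk.2
  have h3 := hval (mk k) (mk_pos hk.1 hk.2)
  rw [← h2]
  unfold mk at h3 ⊢
  linarith

lemma K_gt_E (hw : S3_w) (hn : S5_wn) {k : ℝ} (h0 : 0 < k) (h1 : k < 1) : Ec k < Kc k := by
  have h2 := hn k h0 h1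
  have h3 := (hw.2.1 (mk k) (mk_pos h0 h1).le).1
  unfold mk at h3
  rw [h2] at h3
  have h4 : 0 < 1 - k ^ 2 := by nlinarith
  have h5 : 0 < √(1 - k ^ 2) := Real.sqrt_pos.2 h4
  have hpi := Real.pi_pos
  by_contra hcon
  push Not at hcon
  have h6 : 1 / (2 * Real.pi) * √(1 - k ^ 2) ^ 3 * (Kc k - Ec k) / k ^ 2 ≤ 0 := by
    apply div_nonpos_of_nonpos_of_nonneg _ (by positivity)
    apply mul_nonpos_of_nonneg_of_nonpos (by positivity)
    linarith
  linarith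

lemma Ec_anti (hw : S3_w) (hn : S5_wn) (hd : S5_kd) : StrictAntiOn Ec (Set.Ioo 0 1) := by
  refine strictAntiOn_of_deriv_neg (convex_Ioo 0 1) ?_ ?_
  · intro k hk
    exact (hd.1 k hk.1 hk.2).1.continuousAt.continuousWithinAt
  · intro k hk
    rw [interior_Ioo] at hk
    rw [(hd.1 k hk.1 hk.2).1.deriv]
    exact div_neg_of_neg_of_pos (by linarith [K_gt_E hw hn hk.1 hk.2]) hk.1

/-- `(E - (1 - k²) K) / k` -/
noncomputable def Dk (k : ℝ) : ℝ := (Ec k - (1 - k ^ 2) * Kc k) / k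

lemma Dk_deriv (hd : S5_kd) {k : ℝ} (h0 : 0 < k) (h1 : k < 1) :
    HasDerivAt Dk ((Kc k - Ec k) / k ^ 2) k := by
  obtain ⟨hE, hK⟩ := hd.1 k h0 h1
  have h4 : 0 < 1 - k ^ 2 := by nlinarith
  have h2 : HasDerivAt (fun x : ℝ => 1 - x ^ 2) (-(2 * k)) k := by
    have := (hasDerivAt_pow 2 k).const_sub 1
    simpa using this
  have h3 := ((hE.sub (h2.mul hK)).div (hasDerivAt_id k) h0.ne')
  refine h3.congr_deriv ?_
  simp only [id, Pi.sub_apply, Pi.mul_apply]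
  field_simp
  ring

lemma Dk_mono (hw : S3_w) (hn : S5_wn) (hd : S5_kd) : StrictMonoOn Dk (Set.Ioo 0 1) := by
  refine strictMonoOn_of_deriv_pos (convex_Ioo 0 1) ?_ ?_
  · intro k hk
    exact (Dk_deriv hd hk.1 hk.2).continuousAt.continuousWithinAt
  · intro k hk
    rw [interior_Ioo] at hk
    rw [(Dk_deriv hd hk.1 hk.2).deriv]
    exact div_pos (by linarith [K_gt_E hw hn hk.1 hk.2]) (by have := hk.1; positivity)

/-- the first branch -/
theorem branch1 (hw : S3_w) (hn : S5_wn) (hd : S5_kd) (hmu : S4_mu) (hval : S4_val)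
    (ha : S5_a) (hc : S5_c) (hf : S3_fin) {k : ℝ} (h0 : 0 < k) (h1 : k < 1) :
    Bd (1 / 2 - Ec k / Real.pi) (Real.log 2 - Ic k) := by
  intro ε hε
  have hcont : ContinuousAt Ic k := (Ic_cont hmu hval hc).continuousAt (Ioo_mem_nhds h0 h1)
  have e1 : ∀ᶠ x in 𝓝 k, Ic x < Ic k + ε / 2 :=
    hcont.eventually_lt continuousAt_const (by linarith)
  have e2 : ∀ᶠ x in 𝓝 k, x < 1 := eventually_lt_nhds h1
  have e3 := (e1.and e2).filter_mono (nhdsWithin_le_nhds (s := Set.Ioi k))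
  have e4 : ∀ᶠ x in 𝓝[>] k, k < x := eventually_mem_nhdsWithin
  obtain ⟨x, ⟨hx1, hx2⟩, hx3⟩ := (e3.and e4).exists
  have hx0 : 0 < x := h0.trans hx3
  have hE : Ec x < Ec k := Ec_anti hw hn hd ⟨h0, h1⟩ ⟨hx0, hx2⟩ hx3
  have hpi := Real.pi_pos
  have hδ : 1 / 2 - Ec k / Real.pi < NR (mk x) 0 := by
    unfold mk
    rw [ha x hx0 hx2]
    have : Ec x / Real.pi < Ec k / Real.pi := div_lt_div_of_pos_right hE hpi
    linarith
  obtain ⟨n₀, hn₀⟩ := hf (mk x) _ (ε / 2) (mk_pos hx0 hx2) hδ (by linarith)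
  refine ⟨n₀, fun n hn' d hd' l hl hfe => ?_⟩
  refine le_trans (mul_le_mul_of_nonneg_right ?_ (hl 0)) (hn₀ n hn' d hd' l hl hfe)
  rw [Real.exp_le_exp]
  refine mul_le_mul_of_nonneg_left ?_ (Nat.cast_nonneg n)
  have := hc x hx0 hx2
  unfold mk
  rw [this]
  linarith

/-- the second branch -/
theorem branch2 (hw : S3_w) (hn : S5_wn) (hd : S5_kd) (hmu : S4_mu) (hval : S4_val)
    (hb : S5_b) (hc : S5_c) (hf : S4_fin) {k : ℝ} (h0 : 0 < k) (h1 : k < 1) :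
    Bd (1 / 2 - (Ec k - (1 - k ^ 2) * Kc k) / (Real.pi * k)) (Ic k) := by
  intro ε hε
  have hcont : ContinuousAt Ic k := (Ic_cont hmu hval hc).continuousAt (Ioo_mem_nhds h0 h1)
  have e1 : ∀ᶠ x in 𝓝 k, Ic k - ε / 2 < Ic x :=
    continuousAt_const.eventually_lt hcont (by linarith)
  have e2 : ∀ᶠ x in 𝓝 k, 0 < x := eventually_gt_nhds h0
  have e3 := (e1.and e2).filter_mono (nhdsWithin_le_nhds (s := Set.Iio k))
  have e4 : ∀ᶠ x in 𝓝[<] k, x < k := eventually_mem_nhdsWithin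
  obtain ⟨x, ⟨hx1, hx2⟩, hx3⟩ := (e3.and e4).exists
  have hx0 : x < 1 := lt_trans hx3 h1
  have hD : Dk x < Dk k := Dk_mono hw hn hd ⟨hx2, hx0⟩ ⟨h0, h1⟩ hx3
  have hpi := Real.pi_pos
  have eD : ∀ y : ℝ, (Ec y - (1 - y ^ 2) * Kc y) / (Real.pi * y) = Dk y / Real.pi := by
    intro y
    unfold Dk
    rw [div_div, mul_comm Real.pi y]
  have hδ : 1 / 2 - (Ec k - (1 - k ^ 2) * Kc k) / (Real.pi * k) <
      1 / 2 - 1 / 2 * THR 0 (mk x) := by
    unfold mk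
    rw [hb x hx2 hx0, eD, eD]
    have : Dk x / Real.pi < Dk k / Real.pi := div_lt_div_of_pos_right hD hpi
    linarith
  obtain ⟨n₀, hn₀⟩ := hf (mk x) _ (ε / 2) (mk_pos hx2 hx0) hδ (by linarith)
  refine ⟨n₀, fun n hn' d hd' l hl hfe => ?_⟩
  refine le_trans (mul_le_mul_of_nonneg_right ?_ (hl 0)) (hn₀ n hn' d hd' l hl hfe)
  rw [Real.exp_le_exp]
  refine mul_le_mul_of_nonneg_left ?_ (Nat.cast_nonneg n)
  have h5 := hc x hx2 hx0
  have h6 := hval (mk x) (mk_pos hx2 hx0)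
  unfold mk at h6 ⊢
  rw [h6, h5]
  linarith

lemma Ec_cont : Continuous Ec := by
  unfold Ec
  refine intervalIntegral.continuous_parametric_intervalIntegral_of_continuous' ?_ _ _
  exact (by fun_prop : Continuous fun p : ℝ × ℝ => √(1 - p.1 ^ 2 * Real.sin p.2 ^ 2))

lemma Ec_one : Ec 1 = 1 := by
  unfold Ec
  have h1 : ∫ φ in (0 : ℝ)..(Real.pi / 2), √(1 - 1 ^ 2 * Real.sin φ ^ 2) =
      ∫ φ in (0 : ℝ)..(Real.pi / 2), Real.cos φ := by
    refine intervalIntegral.integral_congr fun φ hφ => ?_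
    have hpi := Real.pi_pos
    rw [Set.uIcc_of_le (by positivity)] at hφ
    have hc : 0 ≤ Real.cos φ := Real.cos_nonneg_of_neg_pi_div_two_le_of_le
      (by linarith [hφ.1]) hφ.2
    have h2 : 1 - 1 ^ 2 * Real.sin φ ^ 2 = Real.cos φ ^ 2 := by
      have := Real.sin_sq_add_cos_sq φ
      linarith
    simp only [h2]
    exact Real.sqrt_sq hc
  rw [h1, integral_cos]
  simp

lemma Ec_ge {k : ℝ} (h0 : 0 ≤ k) (h1 : k ≤ 1) : 1 ≤ Ec k := by
  rw [← Ec_one]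
  unfold Ec
  have hpi := Real.pi_pos
  refine intervalIntegral.integral_mono_on (by positivity) ?_ ?_ ?_
  · exact (by fun_prop : Continuous fun φ : ℝ => √(1 - 1 ^ 2 * Real.sin φ ^ 2)).intervalIntegrable
      _ _
  · exact (by fun_prop : Continuous fun φ : ℝ => √(1 - k ^ 2 * Real.sin φ ^ 2)).intervalIntegrable
      _ _
  · intro φ _
    refine Real.sqrt_le_sqrt ?_
    have h2 : k ^ 2 ≤ 1 := by nlinarith
    have h3 : 0 ≤ Real.sin φ ^ 2 := sq_nonneg _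
    nlinarith

lemma rad_pos {k : ℝ} (h0 : 0 ≤ k) (h1 : k < 1) (φ : ℝ) :
    1 - k ^ 2 ≤ 1 - k ^ 2 * Real.sin φ ^ 2 ∧ 0 < 1 - k ^ 2 := by
  have h2 : k ^ 2 < 1 := by nlinarith
  have h3 := Real.sin_sq_le_one φ
  have h4 : 0 ≤ k ^ 2 := sq_nonneg _
  constructor
  · nlinarith
  · linarith

lemma Kc_le {k : ℝ} (h0 : 0 ≤ k) (h1 : k < 1) : √(1 - k ^ 2) * Kc k ≤ Real.pi / 2 := by
  have hpi := Real.pi_pos
  have hk := (rad_pos h0 h1 0).2
  have hs : 0 < √(1 - k ^ 2) := Real.sqrt_pos.2 hk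
  have h2 : Kc k ≤ ∫ _φ in (0 : ℝ)..(Real.pi / 2), 1 / √(1 - k ^ 2) := by
    unfold Kc
    refine intervalIntegral.integral_mono_on (by positivity) ?_ (by simp) ?_
    · refine Continuous.intervalIntegrable ?_ _ _
      refine Continuous.div continuous_const (by fun_prop) fun φ => ?_
      have := rad_pos h0 h1 φ
      exact (Real.sqrt_pos.2 (by linarith)).ne'
    · intro φ _
      have h3 := rad_pos h0 h1 φ
      exact one_div_le_one_div_of_le hs (Real.sqrt_le_sqrt h3.1)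
  rw [intervalIntegral.integral_const, smul_eq_mul] at h2
  calc √(1 - k ^ 2) * Kc k ≤ √(1 - k ^ 2) * ((Real.pi / 2 - 0) * (1 / √(1 - k ^ 2))) :=
        mul_le_mul_of_nonneg_left h2 hs.le
    _ = Real.pi / 2 := by field_simp; ring

/-- the curve covers `(0, 1/2)` -/
theorem cover (hw : S3_w) (hn : S5_wn) (hd : S5_kd) {δ : ℝ} (h0 : 0 < δ) (h1 : δ < 1 / 2) :
    δ = 1 / 2 - 1 / Real.pi ∨ ∃ k : ℝ, 0 < k ∧ k < 1 ∧
      (δ = 1 / 2 - Ec k / Real.pi ∨
        δ = 1 / 2 - (Ec k - (1 - k ^ 2) * Kc k) / (Real.pi * k)) := by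
  have hpi := Real.pi_pos
  have hpi3 := Real.pi_gt_three
  rcases lt_trichotomy δ (1 / 2 - 1 / Real.pi) with h | h | h
  · right
    have hy1 : 1 < Real.pi * (1 / 2 - δ) := by
      have h2 : 1 / Real.pi < 1 / 2 - δ := by linarith
      have h3 : Real.pi * (1 / Real.pi) < Real.pi * (1 / 2 - δ) :=
        mul_lt_mul_of_pos_left h2 hpi
      have h4 : Real.pi * (1 / Real.pi) = 1 := by field_simp
      linarith
    have hy2 : Real.pi * (1 / 2 - δ) < Real.pi / 2 := by nlinarith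
    have hE0 : Ec 0 = Real.pi / 2 := hd.2.2.2.1
    have hivt := intermediate_value_Icc' (show (0 : ℝ) ≤ 1 by norm_num) Ec_cont.continuousOn
    rw [hE0, Ec_one] at hivt
    obtain ⟨k, hk, hkE⟩ := hivt ⟨hy1.le, hy2.le⟩
    have hk0 : 0 < k := by
      refine lt_of_le_of_ne hk.1 ?_
      rintro rfl
      rw [hE0] at hkE
      linarith
    have hk1 : k < 1 := by
      refine lt_of_le_of_ne hk.2 ?_
      rintro rfl
      rw [Ec_one] at hkE
      linarith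
    refine ⟨k, hk0, hk1, Or.inl ?_⟩
    rw [hkE]
    field_simp
    ring
  · left; exact h
  · right
    have hy1 : Real.pi * (1 / 2 - δ) < 1 := by
      have h2 : 1 / 2 - δ < 1 / Real.pi := by linarith
      have h3 : Real.pi * (1 / 2 - δ) < Real.pi * (1 / Real.pi) :=
        mul_lt_mul_of_pos_left h2 hpi
      have h4 : Real.pi * (1 / Real.pi) = 1 := by field_simp
      linarith
    have hy0 : 0 < Real.pi * (1 / 2 - δ) := mul_pos hpi (by linarith)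
    obtain ⟨y, hy⟩ : ∃ y, y = Real.pi * (1 / 2 - δ) := ⟨_, rfl⟩
    rw [← hy] at hy1 hy0
    -- small values
    obtain ⟨k1, hk10, hk11, hk1y⟩ : ∃ k1 : ℝ, 0 < k1 ∧ k1 < 1 / 2 ∧ Dk k1 < y := by
      refine ⟨min (1 / 4) (y / 4), lt_min (by norm_num) (by linarith),
        lt_of_le_of_lt (min_le_left _ _) (by norm_num), ?_⟩
      obtain ⟨k, hk⟩ : ∃ k, k = min (1 / 4) (y / 4) := ⟨_, rfl⟩
      rw [← hk]
      have a1 : 0 < k := by rw [hk]; exact lt_min (by norm_num) (by linarith)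
      have a2 : k ≤ 1 / 4 := by rw [hk]; exact min_le_left _ _
      have a3 : k ≤ y / 4 := by rw [hk]; exact min_le_right _ _
      have a4 := K_gt_E hw hn a1 (by linarith)
      have a5 := Kc_le a1.le (by linarith : k < 1)
      have a6 : (3 : ℝ) / 4 ≤ √(1 - k ^ 2) := by
        rw [show (3 : ℝ) / 4 = √((3 / 4) ^ 2) by rw [Real.sqrt_sq (by norm_num)]]
        refine Real.sqrt_le_sqrt ?_
        nlinarith
      have a7 : 0 < Kc k := by
        have := Ec_ge a1.le (by linarith : k ≤ 1)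
        linarith
      have a8 : Kc k ≤ 3 := by
        have : 3 / 4 * Kc k ≤ √(1 - k ^ 2) * Kc k := mul_le_mul_of_nonneg_right a6 a7.le
        have hp := Real.pi_lt_d2
        linarith
      unfold Dk
      rw [div_lt_iff₀ a1]
      have a9 : Ec k - (1 - k ^ 2) * Kc k ≤ k ^ 2 * Kc k := by nlinarith
      have a10 : k ^ 2 * Kc k ≤ k ^ 2 * 3 := mul_le_mul_of_nonneg_left a8 (sq_nonneg _)
      nlinarith
    -- values near 1
    obtain ⟨k2, hk20, hk21, hk2y⟩ : ∃ k2 : ℝ, 1 / 2 < k2 ∧ k2 < 1 ∧ y < Dk k2 := by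
      have hcont : ContinuousAt (fun x : ℝ => 1 - Real.pi / 2 * √(1 - x ^ 2)) 1 := by fun_prop
      have e1 : ∀ᶠ x in 𝓝 (1 : ℝ), y < 1 - Real.pi / 2 * √(1 - x ^ 2) :=
        continuousAt_const.eventually_lt hcont (by simpa using hy1)
      have e2 : ∀ᶠ x in 𝓝 (1 : ℝ), 1 / 2 < x := eventually_gt_nhds (by norm_num)
      have e3 := (e1.and e2).filter_mono (nhdsWithin_le_nhds (s := Set.Iio (1 : ℝ)))
      have e4 : ∀ᶠ x in 𝓝[<] (1 : ℝ), x < 1 := eventually_mem_nhdsWithin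
      obtain ⟨x, ⟨hx1, hx2⟩, hx3⟩ := (e3.and e4).exists
      refine ⟨x, hx2, hx3, lt_of_lt_of_le hx1 ?_⟩
      have b1 := Ec_ge (by linarith : (0 : ℝ) ≤ x) hx3.le
      have b2 := Kc_le (by linarith : (0 : ℝ) ≤ x) hx3
      have b3 : 0 ≤ √(1 - x ^ 2) := Real.sqrt_nonneg _
      have b4 : √(1 - x ^ 2) * √(1 - x ^ 2) = 1 - x ^ 2 :=
        Real.mul_self_sqrt (by nlinarith)
      have b5 : (1 - x ^ 2) * Kc x ≤ Real.pi / 2 * √(1 - x ^ 2) := by
        calc (1 - x ^ 2) * Kc x = √(1 - x ^ 2) * (√(1 - x ^ 2) * Kc x) := by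
              rw [← mul_assoc, b4]
          _ ≤ √(1 - x ^ 2) * (Real.pi / 2) := mul_le_mul_of_nonneg_left b2 b3
          _ = _ := mul_comm _ _
      unfold Dk
      rw [le_div_iff₀ (by linarith)]
      have b6 : 0 ≤ 1 - Real.pi / 2 * √(1 - x ^ 2) := by linarith
      nlinarith
    have hcontD : ContinuousOn Dk (Set.Icc k1 k2) := by
      intro x hx
      exact (Dk_deriv hd (lt_of_lt_of_le hk10 hx.1)
        (lt_of_le_of_lt hx.2 hk21)).continuousAt.continuousWithinAt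
    obtain ⟨k, hk, hkD⟩ := intermediate_value_Icc (by linarith) hcontD ⟨hk1y.le, hk2y.le⟩
    have hk0 : 0 < k := lt_of_lt_of_le hk10 hk.1
    refine ⟨k, hk0, lt_of_le_of_lt hk.2 hk21, Or.inr ?_⟩
    have : (Ec k - (1 - k ^ 2) * Kc k) / (Real.pi * k) = Dk k / Real.pi := by
      unfold Dk
      rw [div_div, mul_comm Real.pi k]
    rw [this, hkD, hy]
    field_simp
    ring

end Pool.Agent.TH41.BL.EFIf
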