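import Mathlib
import Pool.Agent.TH41.BL.Stm4

/-!
Project BL5 (helper41, MP_0430e4_lc): the closed form of the curve (sums over a lattice of
hyperbolic secants).  Definitions and statements of the pieces.
-/

set_option autoImplicit false

open MeasureTheory Filter Topology

namespace Pool.Agent.TH41.BL

/-- `∑_j sech(u - 2 j e)` -/
noncomputable def Fs (e : ℝ) (u : ℂ) : ℂ := ∑' j : ℤ, 1 / Complex.cosh (u - 2 * j * e)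

/-- its derivative -/
noncomputable def Gs (e : ℝ) (u : ℂ) : ℂ :=
  -∑' j : ℤ, Complex.sinh (u - 2 * j * e) / Complex.cosh (u - 2 * j * e) ^ 2

/-- `∑_j sech²(u - 2 j e)` -/
noncomputable def Ps (e : ℝ) (u : ℂ) : ℂ := ∑' j : ℤ, 1 / Complex.cosh (u - 2 * j * e) ^ 2

/-- `∑_j sech³(u - 2 j e)` -/
noncomputable def Ts (e : ℝ) (u : ℂ) : ℂ := ∑' j : ℤ, 1 / Complex.cosh (u - 2 * j * e) ^ 3

/-- the regular points -/
def Us (e : ℝ) : Set ℂ := {u : ℂ | ∀ j : ℤ, Complex.cosh (u - 2 * j * e) ≠ 0}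

noncomputable def As (e : ℝ) : ℝ := ∑' j : ℤ, 1 / Real.cosh (2 * j * e)

noncomputable def Bs (e : ℝ) : ℝ := ∑' j : ℤ, 1 / Real.cosh ((2 * j + 1) * e)

noncomputable def A2s (e : ℝ) : ℝ := ∑' j : ℤ, 1 / Real.cosh (2 * j * e) ^ 2

noncomputable def B2s (e : ℝ) : ℝ := ∑' j : ℤ, 1 / Real.cosh ((2 * j + 1) * e) ^ 2

/-- `∑_{d ≠ 0} 2 d / sinh(2 d e)` -/
noncomputable def c0s (e : ℝ) : ℝ := ∑' d : ℤ, if d = 0 then 0 else 2 * d / Real.sinh (2 * d * e)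

/-- SM: summability and derivatives -/
def S6_sm : Prop := ∀ e : ℝ, 0 < e →
  (∀ u ∈ Us e,
    Summable (fun j : ℤ => ‖1 / Complex.cosh (u - 2 * j * e)‖) ∧
    Summable (fun j : ℤ => ‖1 / Complex.cosh (u - 2 * j * e) ^ 2‖) ∧
    Summable (fun j : ℤ => ‖1 / Complex.cosh (u - 2 * j * e) ^ 3‖) ∧
    Summable (fun j : ℤ => ‖Complex.sinh (u - 2 * j * e) / Complex.cosh (u - 2 * j * e) ^ 2‖) ∧
    HasDerivAt (Fs e) (Gs e u) u ∧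
    HasDerivAt (Gs e) (Fs e u - 2 * Ts e u) u) ∧
  Summable (fun d : ℤ => if d = 0 then 0 else 2 * (d : ℝ) / Real.sinh (2 * d * e)) ∧
  Summable (fun d : ℤ => if d = 0 then 0 else 1 / Real.cosh (d * e) ^ 2)

/-- SQ: the square -/
def S6_sq : Prop := ∀ e : ℝ, 0 < e → ∀ u ∈ Us e, Fs e u ^ 2 = Ps e u + c0s e

/-- CU: the cube -/
def S6_cu : Prop := ∀ e : ℝ, 0 < e → ∃ c : ℝ, ∀ u ∈ Us e, Fs e u * Ps e u = Ts e u + c * Fs e u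

/-- SY: symmetries and values -/
def S6_sy : Prop := ∀ e : ℝ, 0 < e →
  (∀ u : ℂ, Fs e (u + 2 * e) = Fs e u) ∧ (∀ u : ℂ, Fs e (-u) = Fs e u) ∧
  (∀ u : ℂ, Fs e ((starRingEnd ℂ) u) = (starRingEnd ℂ) (Fs e u)) ∧
  Fs e 0 = As e ∧ Fs e e = Bs e ∧ Gs e 0 = 0 ∧ Gs e e = 0 ∧
  (∀ u : ℂ, |u.im| < Real.pi / 2 → u ∈ Us e) ∧
  (∀ x y : ℝ, 0 < x → x < 2 * e → (x + y * Complex.I : ℂ) ∈ Us e) ∧
  Ps e 0 = A2s e ∧ Ps e e = B2s e ∧ 0 < As e ∧ 0 < Bs e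

/-- the differential equations, with the constant `b` -/
def OD (e b : ℝ) : Prop :=
  (∀ u ∈ Us e, |u.im| ≤ Real.pi / 2 →
    Gs e u ^ 2 = ((As e : ℂ) ^ 2 - Fs e u ^ 2) * (Fs e u ^ 2 - b)) ∧
  (∀ u ∈ Us e, Fs e u - 2 * Ts e u = ((As e : ℂ) ^ 2 + b) * Fs e u - 2 * Fs e u ^ 3)

/-- FO: the differential equations -/
def S6_fo : Prop := ∀ e : ℝ, 0 < e → ∃ b : ℝ, OD e b

/-- CL: the line `Im u = π / 2` -/
def S6_cl : Prop := ∀ e b : ℝ, 0 < e → OD e b →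
  0 < b ∧ e = ∫ x in Set.Ioi (0 : ℝ), 1 / (√(As e ^ 2 + x ^ 2) * √(x ^ 2 + b))

/-- IM: the imaginary axis -/
def S6_im : Prop := ∀ e b : ℝ, 0 < e → 0 < b → OD e b →
  ∃ k : ℝ, 0 < k ∧ k < 1 ∧ b = (k * As e) ^ 2 ∧ As e = 2 / Real.pi * Kc k

/-- CZ: the constant -/
def S6_cz : Prop := ∀ e b k : ℝ, 0 < e → 0 < b → OD e b → 0 < k → k < 1 → b = (k * As e) ^ 2 →
  As e = 2 / Real.pi * Kc k → c0s e = 2 / Real.pi * As e * (Kc k - Ec k)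

/-- BV: the value at `e` -/
def S6_bv : Prop := ∀ e b : ℝ, 0 < e → 0 < b → b < As e ^ 2 → OD e b → Bs e ^ 2 = b

/-- KE: the modulus -/
def S6_ke : Prop := ∀ e : ℝ, 0 < e → ∃ k : ℝ, 0 < k ∧ k < 1 ∧
  As e = 2 / Real.pi * Kc k ∧ Bs e = k * As e ∧ e * As e = Kc (√(1 - k ^ 2)) ∧
  A2s e / As e = 2 / Real.pi * Ec k ∧
  B2s e / Bs e = 2 / Real.pi * ((Ec k - (1 - k ^ 2) * Kc k) / k) ∧
  A2s e - B2s e = 4 / Real.pi ^ 2 * ((1 - k ^ 2) * Kc k ^ 2)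

/-! ### The exponent -/

/-- `η(x) = -x log₂ x` -/
noncomputable def ηb (x : ℝ) : ℝ := -x * Real.logb 2 x

noncomputable def Hb (x : ℝ) : ℝ := ηb x + ηb (1 - x)

noncomputable def hb (x : ℝ) : ℝ := Hb (1 / 2 - 1 / 2 * √(1 - x))

/-- `h(sech² e) - h(sech² 2e) + h(sech² 3e) - …` -/
noncomputable def Ss (e : ℝ) : ℝ := ∑' n : ℕ, (-1) ^ n * hb (1 / Real.cosh ((n + 1) * e) ^ 2)

/-- `∑_{n ≥ 1} (-1)^(n-1) n² sech²(n e)` -/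
noncomputable def Zs (e : ℝ) : ℝ :=
  ∑' n : ℕ, (-1) ^ n * ((n : ℝ) + 1) ^ 2 / Real.cosh ((n + 1) * e) ^ 2

/-- SD: the derivative of the exponent -/
def S6_sd : Prop := (∀ e : ℝ, 0 < e → HasDerivAt Ss (-(e * Zs e) / Real.log 2) e) ∧
  Tendsto Ss atTop (𝓝 0)

/-- ZD: the derivative of the difference of the sums -/
def S6_zd : Prop := ∀ e : ℝ, 0 < e → HasDerivAt (fun x => A2s x - B2s x) (4 * Zs e) e

/-- EK: the exponent as a function of the modulus -/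
def S6_ek : Prop := ∀ k : ℝ, 0 < k → k < 1 →
  Ss (Real.pi * Kc (√(1 - k ^ 2)) / (2 * Kc k)) = Ic k / Real.log 2

/-- FI: the curve -/
def S6_fi : Prop := ∀ e : ℝ, 0 < e → ∃ k : ℝ, 0 < k ∧ k < 1 ∧
  A2s e / As e = 2 / Real.pi * Ec k ∧
  B2s e / Bs e = 2 / Real.pi * ((Ec k - (1 - k ^ 2) * Kc k) / k) ∧
  Ss e = Ic k / Real.log 2

end Pool.Agent.TH41.BL
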