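import Mathlib
import Pool.Agent.TH41.BL.Stm5
import Pool.Agent.TH41.BL.EFI

set_option autoImplicit false

open MeasureTheory Filter Topology

namespace Pool.Agent.TH41.BL.CURf

open Pool.Agent.TH41.BL Pool.Agent.TH41.BL.EFIf

/-- the middle point -/
theorem middle (hs : S_fin) : Bd (1 / 2 - 1 / Real.pi) (1 / 2 * Real.log 2) := by
  intro ε hε
  have hpi := Real.pi_pos
  have h1 : 1 / 2 - 1 / Real.pi < 1 / 2 := by
    have : 0 < 1 / Real.pi := by positivity
    linarith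
  obtain ⟨n₀, hn₀⟩ := hs (1 / 2 - 1 / Real.pi) ε le_rfl h1 hε
  refine ⟨n₀, fun n hn d hd l hl hf => ?_⟩
  have h2 := hn₀ n hn d hd l hl hf
  refine le_trans (le_of_eq ?_) h2
  congr 1
  have e0 : (1 + (Real.pi * (1 - 2 * (1 / 2 - 1 / Real.pi)) / 2) ^ 2) = 2 := by
    field_simp
    ring
  rw [e0, Real.rpow_def_of_pos (by norm_num), ← Real.exp_add]
  congr 1
  ring

/-- the first branch -/
theorem one (hw : S3_w) (hn : S5_wn) (hd : S5_kd) (hmu : S4_mu) (hval : S4_val)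
    (ha : S5_a) (hc : S5_c) (hf : S3_fin) (hfi : S6_fi) {e : ℝ} (he : 0 < e) :
    Bd ((1 - A2s e / As e) / 2) ((1 - Ss e) * Real.log 2) := by
  obtain ⟨k, hk0, hk1, h1, -, h3⟩ := hfi e he
  have hlog : 0 < Real.log 2 := Real.log_pos (by norm_num)
  have h4 := branch1 hw hn hd hmu hval ha hc hf hk0 hk1
  have e1 : (1 - A2s e / As e) / 2 = 1 / 2 - Ec k / Real.pi := by
    rw [h1]; ring
  have e2 : (1 - Ss e) * Real.log 2 = Real.log 2 - Ic k := by
    rw [h3, sub_mul, div_mul_cancel₀ _ hlog.ne', one_mul]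
  rw [e1, e2]
  exact h4

/-- the second branch -/
theorem two (hw : S3_w) (hn : S5_wn) (hd : S5_kd) (hmu : S4_mu) (hval : S4_val)
    (hb : S5_b) (hc : S5_c) (hf : S4_fin) (hfi : S6_fi) {e : ℝ} (he : 0 < e) :
    Bd ((1 - B2s e / Bs e) / 2) (Ss e * Real.log 2) := by
  obtain ⟨k, hk0, hk1, -, h2, h3⟩ := hfi e he
  have hlog : 0 < Real.log 2 := Real.log_pos (by norm_num)
  have hpi := Real.pi_pos
  have h4 := branch2 hw hn hd hmu hval hb hc hf hk0 hk1
  have e1 : (1 - B2s e / Bs e) / 2 = 1 / 2 - (Ec k - (1 - k ^ 2) * Kc k) / (Real.pi * k) := by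
    rw [h2]
    field_simp
  have e2 : Ss e * Real.log 2 = Ic k := by
    rw [h3, div_mul_cancel₀ _ hlog.ne']
  rw [e1, e2]
  exact h4

end Pool.Agent.TH41.BL.CURf
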