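import Mathlib
import Pool.Agent.TH41.BL.Stm5
import Pool.Agent.TH41.BL.EFI
import Pool.Agent.TH41.BL.CUR

set_option autoImplicit false

open MeasureTheory Filter Topology

namespace Pool.Agent.TH41.BL.LIMf

open Pool.Agent.TH41.BL Pool.Agent.TH41.BL.EFIf

/-- the bound with exponent `x`, for all distances up to `δ n + 1` -/
def Be (δ x : ℝ) : Prop := ∀ ε : ℝ, 0 < ε → ∃ n₀ : ℕ, ∀ n : ℕ, n₀ ≤ n →
  ∀ d : ℕ, (d : ℝ) ≤ δ * n + 1 → ∀ l : ℕ → ℝ, (∀ j, 0 ≤ l j) →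
    (∀ w : ℕ, d ≤ w → w ≤ n → ∑ j ∈ Finset.range (n + 1), l j * (kr n j w : ℝ) ≤ 0) →
    Real.exp (n * (x - ε)) * l 0 ≤ ∑ j ∈ Finset.range (n + 1), l j * (kr n j 0 : ℝ)

theorem be_of {δ x : ℝ} (h : ∀ ε : ℝ, 0 < ε → ∃ δ' x' : ℝ, δ < δ' ∧ x - ε ≤ x' ∧ Bd δ' x') :
    Be δ x := by
  intro ε hε
  obtain ⟨δ', x', h1, h2, h3⟩ := h (ε / 2) (half_pos hε)
  obtain ⟨n₀, hn₀⟩ := h3 (ε / 2) (half_pos hε)
  obtain ⟨n₁, hn₁⟩ := exists_nat_gt (1 / (δ' - δ))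
  refine ⟨max n₀ n₁, fun n hn d hd l hl hf => ?_⟩
  have hn0 : n₀ ≤ n := le_trans (le_max_left _ _) hn
  have hn1 : (n₁ : ℝ) ≤ n := by exact_mod_cast le_trans (le_max_right _ _) hn
  have hd' : (d : ℝ) ≤ δ' * n := by
    have h4 : 1 / (δ' - δ) < n := lt_of_lt_of_le hn₁ hn1
    rw [div_lt_iff₀ (by linarith)] at h4
    nlinarith
  have h5 := hn₀ n hn0 d hd' l hl hf
  refine le_trans ?_ h5
  refine mul_le_mul_of_nonneg_right ?_ (hl 0)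
  rw [Real.exp_le_exp]
  refine mul_le_mul_of_nonneg_left ?_ (Nat.cast_nonneg n)
  linarith

theorem middle (hs : S_fin) : Be (1 / 2 - 1 / Real.pi) (1 / 2 * Real.log 2) := by
  refine be_of fun ε hε => ?_
  have hpi := Real.pi_pos
  have hc : ContinuousAt (fun δ : ℝ => 1 / 2 * Real.log (1 + (Real.pi * (1 - 2 * δ) / 2) ^ 2))
      (1 / 2 - 1 / Real.pi) := by
    refine ContinuousAt.mul continuousAt_const (ContinuousAt.log (by fun_prop) ?_)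
    positivity
  have e0 : (1 + (Real.pi * (1 - 2 * (1 / 2 - 1 / Real.pi)) / 2) ^ 2) = 2 := by
    field_simp
    ring
  have e1 : ∀ᶠ δ in 𝓝 (1 / 2 - 1 / Real.pi),
      1 / 2 * Real.log 2 - ε < 1 / 2 * Real.log (1 + (Real.pi * (1 - 2 * δ) / 2) ^ 2) := by
    refine continuousAt_const.eventually_lt hc ?_
    simp only [e0]
    linarith
  have e2 : ∀ᶠ δ : ℝ in 𝓝 (1 / 2 - 1 / Real.pi), δ < 1 / 2 := by
    refine eventually_lt_nhds ?_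
    have : 0 < 1 / Real.pi := by positivity
    linarith
  have e3 := (e1.and e2).filter_mono (nhdsWithin_le_nhds (s := Set.Ioi (1 / 2 - 1 / Real.pi)))
  have e4 : ∀ᶠ x in 𝓝[>] (1 / 2 - 1 / Real.pi), 1 / 2 - 1 / Real.pi < x :=
    eventually_mem_nhdsWithin
  obtain ⟨δ, ⟨h1, h2⟩, h3⟩ := (e3.and e4).exists
  refine ⟨δ, 1 / 2 * Real.log (1 + (Real.pi * (1 - 2 * δ) / 2) ^ 2), h3, h1.le, ?_⟩
  intro η hη
  obtain ⟨n₀, hn₀⟩ := hs δ η h3.le h2 hη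
  refine ⟨n₀, fun n hn d hd l hl hf => ?_⟩
  refine le_trans (le_of_eq ?_) (hn₀ n hn d hd l hl hf)
  congr 1
  have hb : 0 < 1 + (Real.pi * (1 - 2 * δ) / 2) ^ 2 := by positivity
  rw [Real.rpow_def_of_pos hb, ← Real.exp_add]
  congr 1
  ring

theorem one (hw : S3_w) (hn : S5_wn) (hd : S5_kd) (hmu : S4_mu) (hval : S4_val)
    (ha : S5_a) (hc : S5_c) (hf : S3_fin) (hfi : S6_fi) {e : ℝ} (he : 0 < e) :
    Be ((1 - A2s e / As e) / 2) ((1 - Ss e) * Real.log 2) := by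
  obtain ⟨k, hk0, hk1, h1, -, h3⟩ := hfi e he
  have hlog : 0 < Real.log 2 := Real.log_pos (by norm_num)
  have e1 : (1 - A2s e / As e) / 2 = 1 / 2 - Ec k / Real.pi := by
    rw [h1]; ring
  have e2 : (1 - Ss e) * Real.log 2 = Real.log 2 - Ic k := by
    rw [h3, sub_mul, div_mul_cancel₀ _ hlog.ne', one_mul]
  rw [e1, e2]
  refine be_of fun ε hε => ?_
  have hcont : ContinuousAt Ic k := (Ic_cont hmu hval hc).continuousAt (Ioo_mem_nhds hk0 hk1)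
  have e1 : ∀ᶠ x in 𝓝 k, Ic x < Ic k + ε :=
    hcont.eventually_lt continuousAt_const (by linarith)
  have e2 : ∀ᶠ x in 𝓝 k, x < 1 := eventually_lt_nhds hk1
  have e3 := (e1.and e2).filter_mono (nhdsWithin_le_nhds (s := Set.Ioi k))
  have e4 : ∀ᶠ x in 𝓝[>] k, k < x := eventually_mem_nhdsWithin
  obtain ⟨x, ⟨hx1, hx2⟩, hx3⟩ := (e3.and e4).exists
  have hx0 : 0 < x := hk0.trans hx3
  have hE : Ec x < Ec k := Ec_anti hw hn hd ⟨hk0, hk1⟩ ⟨hx0, hx2⟩ hx3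
  have hpi := Real.pi_pos
  refine ⟨1 / 2 - Ec x / Real.pi, Real.log 2 - Ic x, ?_, by linarith,
    branch1 hw hn hd hmu hval ha hc hf hx0 hx2⟩
  have := div_lt_div_of_pos_right hE hpi
  linarith

theorem two (hw : S3_w) (hn : S5_wn) (hd : S5_kd) (hmu : S4_mu) (hval : S4_val)
    (hb : S5_b) (hc : S5_c) (hf : S4_fin) (hfi : S6_fi) {e : ℝ} (he : 0 < e) :
    Be ((1 - B2s e / Bs e) / 2) (Ss e * Real.log 2) := by
  obtain ⟨k, hk0, hk1, -, h2, h3⟩ := hfi e he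
  have hlog : 0 < Real.log 2 := Real.log_pos (by norm_num)
  have hpi := Real.pi_pos
  have e1 : (1 - B2s e / Bs e) / 2 = 1 / 2 - (Ec k - (1 - k ^ 2) * Kc k) / (Real.pi * k) := by
    rw [h2]
    field_simp
  have e2 : Ss e * Real.log 2 = Ic k := by
    rw [h3, div_mul_cancel₀ _ hlog.ne']
  rw [e1, e2]
  refine be_of fun ε hε => ?_
  have hcont : ContinuousAt Ic k := (Ic_cont hmu hval hc).continuousAt (Ioo_mem_nhds hk0 hk1)
  have e1 : ∀ᶠ x in 𝓝 k, Ic k - ε < Ic x :=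
    continuousAt_const.eventually_lt hcont (by linarith)
  have e2 : ∀ᶠ x in 𝓝 k, 0 < x := eventually_gt_nhds hk0
  have e3 := (e1.and e2).filter_mono (nhdsWithin_le_nhds (s := Set.Iio k))
  have e4 : ∀ᶠ x in 𝓝[<] k, x < k := eventually_mem_nhdsWithin
  obtain ⟨x, ⟨hx1, hx2⟩, hx3⟩ := (e3.and e4).exists
  have hx0 : x < 1 := lt_trans hx3 hk1
  have hD : Dk x < Dk k := Dk_mono hw hn hd ⟨hx2, hx0⟩ ⟨hk0, hk1⟩ hx3
  have eD : ∀ y : ℝ, (Ec y - (1 - y ^ 2) * Kc y) / (Real.pi * y) = Dk y / Real.pi := by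
    intro y
    unfold Dk
    rw [div_div, mul_comm Real.pi y]
  refine ⟨1 / 2 - (Ec x - (1 - x ^ 2) * Kc x) / (Real.pi * x), Ic x, ?_, hx1.le,
    branch2 hw hn hd hmu hval hb hc hf hx2 hx0⟩
  rw [eD, eD]
  have := div_lt_div_of_pos_right hD hpi
  linarith

end Pool.Agent.TH41.BL.LIMf
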