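import Mathlib
import Pool.Agent.TH41.BL.Stm

/-!
Project BL6 (helper41, MP_0430e4_lc): upper bounds for the optimum of Delsarte's linear program for
binary codes, from permutation invariant operators.  Definitions and statements of the pieces.
-/

set_option autoImplicit false

open MeasureTheory Filter Topology

namespace Pool.Agent.TH41.BL

section
variable {Ω β V : Type} [Fintype Ω] [DecidableEq Ω] [Fintype β] [DecidableEq β] [Fintype V]

/-- the Hilbert-Schmidt inner product -/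
def hs (A B : Matrix V V ℝ) : ℝ := ∑ a, ∑ b, A a b * B a b

/-- orthogonal projections -/
def Prj (M : Matrix V V ℝ) : Prop := M.transpose = M ∧ M * M = M

/-- positive semidefinite matrices -/
def PSD (M : Matrix V V ℝ) : Prop :=
  M.transpose = M ∧ ∀ x : V → ℝ, 0 ≤ ∑ a, ∑ b, x a * M a b * x b

/-- permutation invariant matrices -/
def PInv {m : ℕ} (M : Matrix (Fin m → Ω) (Fin m → Ω) ℝ) : Prop :=
  ∀ (σ : Equiv.Perm (Fin m)) (a b : Fin m → Ω), M (fun k => a (σ k)) (fun k => b (σ k)) = M a b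

/-- the space of permutation invariant matrices -/
def PIs (Ω : Type) (m : ℕ) : Submodule ℝ (Matrix (Fin m → Ω) (Fin m → Ω) ℝ) where
  carrier := {M | ∀ (σ : Equiv.Perm (Fin m)) (a b : Fin m → Ω),
    M (fun k => a (σ k)) (fun k => b (σ k)) = M a b}
  add_mem' := by
    intro A B hA hB σ a b
    simp only [Matrix.add_apply]
    rw [hA σ a b, hB σ a b]
  zero_mem' := by
    intro σ a b
    simp
  smul_mem' := by
    intro c A hA σ a b
    simp only [Matrix.smul_apply]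
    rw [hA σ a b]

/-- its dimension -/
noncomputable def dimP (Ω : Type) (m : ℕ) : ℝ := (Module.finrank ℝ (PIs Ω m) : ℝ)

/-- the number of bits in which the positions of two words differ -/
def hd (bt : Ω → β → Bool) {m : ℕ} (a b : Fin m → Ω) : ℕ :=
  (Finset.univ.filter fun p : Fin m × β => bt (a p.1) p.2 ≠ bt (b p.1) p.2).card

/-- matrices diagonal in the position -/
def PDi (bt : Ω → β → Bool) {m : ℕ} (M : Matrix (Fin m → Ω) (Fin m → Ω) ℝ) : Prop :=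
  ∀ a b : Fin m → Ω, hd bt a b ≠ 0 → M a b = 0

/-- the position-diagonal part -/
def dgP (bt : Ω → β → Bool) {m : ℕ} (M : Matrix (Fin m → Ω) (Fin m → Ω) ℝ) :
    Matrix (Fin m → Ω) (Fin m → Ω) ℝ :=
  Matrix.of fun a b => if hd bt a b = 0 then M a b else 0

/-- the number of bits -/
def nb (β : Type) [Fintype β] (m : ℕ) : ℕ := m * Fintype.card β

/-- the energy superoperator, the sum of `Z M Z` over the sign matrices `Z` of the bits -/
noncomputable def Ad (bt : Ω → β → Bool) {m : ℕ} (M : Matrix (Fin m → Ω) (Fin m → Ω) ℝ) :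
    Matrix (Fin m → Ω) (Fin m → Ω) ℝ :=
  Matrix.of fun a b => ((nb β m : ℝ) - 2 * hd bt a b) * M a b

end

/-- feasible solutions of the linear program -/
def Feas (n d : ℕ) (l : ℕ → ℝ) : Prop :=
  (∀ j, 0 ≤ l j) ∧ 0 < l 0 ∧
    ∀ w : ℕ, d ≤ w → w ≤ n → ∑ j ∈ Finset.range (n + 1), l j * (kr n j w : ℝ) ≤ 0

/-- the value at the origin -/
noncomputable def Vl (n : ℕ) (l : ℕ → ℝ) : ℝ := ∑ j ∈ Finset.range (n + 1), l j * (n.choose j : ℝ)

/-- DM: the dimension of the space of permutation invariant matrices -/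
def S7_dim : Prop := ∀ (Ω : Type) [Fintype Ω] [DecidableEq Ω] (m : ℕ),
  dimP Ω m ≤ ((m : ℝ) + 1) ^ (Fintype.card Ω ^ 2)

/-- EN: the invariant envelope of a projection -/
def S7_env : Prop := ∀ (Ω : Type) [Fintype Ω] [DecidableEq Ω] (m : ℕ)
  (E : Matrix (Fin m → Ω) (Fin m → Ω) ℝ), PInv E → Prj E →
    ∃ Q : Matrix (Fin m → Ω) (Fin m → Ω) ℝ, PInv Q ∧ Prj Q ∧ Q * E = E ∧
      (∀ N : Matrix (Fin m → Ω) (Fin m → Ω) ℝ, PInv N → Q * N = N * Q) ∧
      Q.trace ≤ dimP Ω m * E.trace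

/-- LO: removal of the small position-diagonal projections -/
def S7_low : Prop := ∀ (Ω β : Type) [Fintype Ω] [DecidableEq Ω] [Fintype β] [DecidableEq β]
  (bt : Ω → β → Bool) (m : ℕ) (L : ℝ), 0 < L →
    ∃ P : Matrix (Fin m → Ω) (Fin m → Ω) ℝ, PInv P ∧ PDi bt P ∧ Prj P ∧
      (1 - P).trace ≤ L * dimP Ω m ∧
      ∀ F : Matrix (Fin m → Ω) (Fin m → Ω) ℝ, PInv F → PDi bt F → Prj F → P * F = F → F ≠ 0 →
        L ≤ F.trace

/-- TP: the top eigenprojection -/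
def S7_top : Prop := ∀ (Ω β : Type) [Fintype Ω] [DecidableEq Ω] [Fintype β] [DecidableEq β]
  (bt : Ω → β → Bool) (m : ℕ) (L : ℝ) (P : Matrix (Fin m → Ω) (Fin m → Ω) ℝ), 0 ≤ L →
  (∀ F : Matrix (Fin m → Ω) (Fin m → Ω) ℝ, PInv F → PDi bt F → Prj F → P * F = F → F ≠ 0 →
    L ≤ F.trace) →
  ∀ M : Matrix (Fin m → Ω) (Fin m → Ω) ℝ, PSD M → PInv M → PDi bt M → P * M = M →
    L * hs M M ≤ M.trace ^ 2

/-- PO: positivity -/
def S7_pos : Prop :=
  (∀ (V : Type) [Fintype V] (A B : Matrix V V ℝ), PSD A → PSD B → 0 ≤ hs A B) ∧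
  (∀ (V : Type) [Fintype V] (s : V → ℝ) (A : Matrix V V ℝ), PSD A →
    PSD (Matrix.of fun a b => s a * A a b * s b)) ∧
  ∀ (Ω β : Type) [Fintype Ω] [DecidableEq Ω] [Fintype β] [DecidableEq β] (bt : Ω → β → Bool)
    (m : ℕ) (A B : Matrix (Fin m → Ω) (Fin m → Ω) ℝ),
    (PSD A → PSD (Ad bt A)) ∧ (PSD A → PSD (dgP bt A)) ∧ (PInv A → PInv (Ad bt A)) ∧
    (PInv A → PInv (dgP bt A)) ∧ PDi bt (dgP bt A) ∧ hs A (Ad bt B) = hs (Ad bt A) B ∧
    (PDi bt A → Ad bt (A * B) = A * Ad bt B) ∧ (PDi bt A → dgP bt (A * B) = A * dgP bt B) ∧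
    |hs A (Ad bt B)| ≤ nb β m * (√(hs A A) * √(hs B B))

/-- AB: the absolute value of a symmetric matrix -/
def S7_abs : Prop := ∀ (V : Type) [Fintype V] [DecidableEq V] (T : Matrix V V ℝ),
  T.transpose = T → ∃ p : Polynomial ℝ, p.coeff 0 = 0 ∧ PSD (Polynomial.aeval T p) ∧
    PSD (Polynomial.aeval T p - T) ∧ PSD (Polynomial.aeval T p + T) ∧
    hs (Polynomial.aeval T p) (Polynomial.aeval T p) = hs T T

/-- MX: the maximum of a quadratic form on a subspace -/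
def S7_max : Prop := ∀ (V : Type) [Fintype V] [DecidableEq V] (W : Submodule ℝ (Matrix V V ℝ))
  (A : Matrix V V ℝ →ₗ[ℝ] Matrix V V ℝ), (∀ S T, hs S (A T) = hs (A S) T) → (∃ T ∈ W, T ≠ 0) →
  ∃ r : ℝ, (∀ S ∈ W, hs S (A S) ≤ r * hs S S) ∧ (∃ T ∈ W, T ≠ 0 ∧ hs T (A T) = r * hs T T) ∧
    ∀ T ∈ W, hs T (A T) = r * hs T T → ∀ S ∈ W, hs S (A T) = r * hs S T

/-- RY: the top eigenoperator -/
def S7_ray : Prop := ∀ (Ω β : Type) [Fintype Ω] [DecidableEq Ω] [Fintype β] [DecidableEq β]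
  (bt : Ω → β → Bool) (m : ℕ) (P Q T₁ : Matrix (Fin m → Ω) (Fin m → Ω) ℝ),
  PInv P → PDi bt P → Prj P → PInv Q → Prj Q →
  (∀ N : Matrix (Fin m → Ω) (Fin m → Ω) ℝ, PInv N → Q * N = N * Q) →
  T₁.transpose = T₁ → PInv T₁ → P * T₁ = T₁ → Q * T₁ = T₁ → T₁ ≠ 0 →
  ∃ (T : Matrix (Fin m → Ω) (Fin m → Ω) ℝ) (r : ℝ), PSD T ∧ PInv T ∧ T ≠ 0 ∧ P * T = T ∧
    Q * T = T ∧ hs T₁ (Ad bt T₁) ≤ r * hs T₁ T₁ ∧ PSD (Ad bt T - r • T)

/-- CH: Krawtchouk polynomials as sums of characters -/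
def S7_chr : Prop := ∀ (ι : Type) [Fintype ι] [DecidableEq ι] (z : Finset ι) (j : ℕ),
  ∑ s ∈ Finset.powersetCard j (Finset.univ : Finset ι), (-1 : ℤ) ^ (s ∩ z).card =
    kr (Fintype.card ι) j z.card

/-- CE: the feasible solution given by an operator -/
def S7_cert : Prop := ∀ (Ω β : Type) [Fintype Ω] [DecidableEq Ω] [Fintype β] [DecidableEq β]
  (bt : Ω → β → Bool) (m d : ℕ) (T : Matrix (Fin m → Ω) (Fin m → Ω) ℝ) (r : ℝ),
  PSD T → 0 < hs T T → PSD (Ad bt T - r • T) → (nb β m : ℝ) - 2 * d < r →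
  ∃ l : ℕ → ℝ, Feas (nb β m) d l ∧
    Vl (nb β m) l * ((r - ((nb β m : ℝ) - 2 * d)) * hs T T) ≤
      2 ^ (nb β m + 1) * d * hs (dgP bt T) (dgP bt T) * l 0

/-- SH: shortening, and monotonicity in the distance -/
def S7_short : Prop :=
  (∀ (n d d' : ℕ) (l : ℕ → ℝ), d ≤ d' → Feas n d l → Feas n d' l) ∧
  ∀ (n d : ℕ) (l : ℕ → ℝ), Feas (n + 1) d l → ∃ l' : ℕ → ℝ, Feas n d l' ∧
    Vl n l' * l 0 ≤ Vl (n + 1) l * l' 0

end Pool.Agent.TH41.BL
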