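import Mathlib
import Pool.Agent.TH41.BL.Stm6
import Pool.Agent.H390R2.LP.ProdB
import Pool.Agent.TH753.FF3

/-!
Project BL6 (helper41, MP_0430e4_lc): upper bounds for the optimum of Delsarte's linear program.
Statements of the pieces on product states.
-/

set_option autoImplicit false

open MeasureTheory Filter Topology

namespace Pool.Agent.TH41.BL

open Pool.Agent.H390R2.LP Pool.Agent.TH753.FF

section
variable {Ω : Type} [Fintype Ω] [DecidableEq Ω]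

/-- the two bits of a position -/
def bG (pos : Ω → G2) (ω : Ω) (i : Fin 2) : Bool :=
  decide ((if i = 0 then (pos ω).1 else (pos ω).2) = 1)

/-- the product state -/
noncomputable def Rm (s : Site Ω G2) (m : ℕ) : Matrix (Fin m → Ω) (Fin m → Ω) ℝ :=
  Matrix.of fun a b => ∏ k, ∑ x, s.lam x * s.u x (a k) * s.u x (b k)

/-- its square root -/
noncomputable def Tm (s : Site Ω G2) (m : ℕ) : Matrix (Fin m → Ω) (Fin m → Ω) ℝ :=
  Matrix.of fun a b => ∏ k, ∑ x, √(s.lam x) * s.u x (a k) * s.u x (b k)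

end

/-- TY: the typical subspace -/
def S7_typ : Prop := ∀ (Ω : Type) [Fintype Ω] [DecidableEq Ω] (s : Site Ω G2) (ε : ℝ), 0 < ε →
  ∃ m₀ : ℕ, ∀ m ≥ m₀, ∃ E : Matrix (Fin m → Ω) (Fin m → Ω) ℝ, PInv E ∧ Prj E ∧
    E.trace ≤ Real.exp (m * (s.S + ε)) ∧ ((1 - E) * Rm s m).trace ≤ ε

/-- PS: small position-diagonal projections carry no weight -/
def S7_ps : Prop := ∀ (Ω : Type) [Fintype Ω] [DecidableEq Ω] (s : Site Ω G2) (ε : ℝ), 0 < ε →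
  ∃ m₀ : ℕ, ∀ m ≥ m₀, ∀ G : Matrix (Fin m → Ω) (Fin m → Ω) ℝ, Prj G → PDi (bG s.pos) G →
    G.trace ≤ Real.exp (m * (s.h - ε)) → (G * Rm s m).trace ≤ ε

/-- ST: the square root of the state -/
def S7_st : Prop := ∀ (Ω : Type) [Fintype Ω] [DecidableEq Ω] (s : Site Ω G2) (m : ℕ),
  PSD (Tm s m) ∧ PInv (Tm s m) ∧ Tm s m * Tm s m = Rm s m ∧ hs (Tm s m) (Tm s m) = 1 ∧
    hs (Tm s m) (Ad (bG s.pos) (Tm s m)) = 2 * m * (1 - s.E ff)

/-- AS: the bound of a site, even lengths -/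
def S7_asm : Prop := ∀ (Ω : Type) [Fintype Ω] [DecidableEq Ω] (s : Site Ω G2) (δ ε : ℝ),
  s.E ff < 2 * δ → 0 < ε → ∃ m₀ : ℕ, ∀ m ≥ m₀, ∀ d : ℕ, δ * (2 * m) ≤ d → d ≤ 2 * m →
    ∃ l : ℕ → ℝ, Feas (2 * m) d l ∧
      Vl (2 * m) l ≤ Real.exp (m * (2 * Real.log 2 - (s.h - s.S) + ε)) * l 0

/-- the linear program gives the exponent `θ` at relative distance `δ` -/
def UB (δ θ : ℝ) : Prop := ∀ ε : ℝ, 0 < ε → ∃ n₀ : ℕ, ∀ n ≥ n₀, ∀ d : ℕ, δ * n ≤ d →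
  ∃ l : ℕ → ℝ, Feas n d l ∧ Vl n l ≤ (2 : ℝ) ^ ((θ + ε) * n) * l 0

/-- UP: the bound of a site -/
def S7_up : Prop := ∀ (Ω : Type) [Fintype Ω] [DecidableEq Ω] (s : Site Ω G2) (δ : ℝ),
  0 < δ → δ < 1 → s.E ff < 2 * δ → UB δ (1 - (s.h - s.S) / (2 * Real.log 2))

/-- CO: limits of sites -/
def S7_clo : Prop := ∀ δ K : ℝ, 0 < δ → δ < 1 →
  (∀ η : ℝ, 0 < η → ∃ (Ω : Type) (_ : Fintype Ω) (_ : DecidableEq Ω) (s : Site Ω G2),
    s.E ff ≤ 2 * δ + η ∧ K - η ≤ s.h - s.S) → UB δ (1 - K / (2 * Real.log 2))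

end Pool.Agent.TH41.BL
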