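import Mathlib
import Pool.Agent.TH41.BL.Stm7
import Pool.Agent.TH41.BL.LIM

set_option autoImplicit false

open MeasureTheory Filter Topology

namespace Pool.Agent.TH41.BL.FINf

open Pool.Agent.TH41.BL Pool.Agent.TH41.BL.EFIf Pool.Agent.TH41.BL.LIMf

/-- the optimum of the linear program -/
noncomputable def LPv (n d : ℕ) : ℝ := sInf {v : ℝ | ∃ l : ℕ → ℝ, Feas n d l ∧ v = Vl n l / l 0}

theorem Vl_eq (n : ℕ) (l : ℕ → ℝ) :
    Vl n l = ∑ j ∈ Finset.range (n + 1), l j * (kr n j 0 : ℝ) := by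
  unfold Vl
  refine Finset.sum_congr rfl fun j _ => ?_
  have h : kr n j 0 = n.choose j := by
    unfold kr
    rw [Finset.sum_eq_single 0]
    · simp
    · intro i _ hi
      rw [Nat.choose_eq_zero_of_lt (Nat.pos_of_ne_zero hi)]
      simp
    · simp
  rw [h]
  simp

theorem bdd (n d : ℕ) : BddBelow {v : ℝ | ∃ l : ℕ → ℝ, Feas n d l ∧ v = Vl n l / l 0} := by
  refine ⟨0, ?_⟩
  rintro v ⟨l, hl, rfl⟩
  refine div_nonneg ?_ hl.2.1.le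
  unfold Vl
  exact Finset.sum_nonneg fun j _ => mul_nonneg (hl.1 j) (Nat.cast_nonneg _)

theorem tendsto_of {θ : ℝ} {a : ℕ → ℝ}
    (hlow : ∀ ε : ℝ, 0 < ε → ∀ᶠ n : ℕ in atTop, (2 : ℝ) ^ ((θ - ε) * n) ≤ a n)
    (hup : ∀ ε : ℝ, 0 < ε → ∀ᶠ n : ℕ in atTop, a n ≤ (2 : ℝ) ^ ((θ + ε) * n)) :
    Tendsto (fun n : ℕ => Real.logb 2 (a n) / n) atTop (𝓝 θ) := by
  rw [Metric.tendsto_atTop']
  intro ε hε
  obtain ⟨n₀, hn₀⟩ := eventually_atTop.1 ((hlow (ε / 2) (half_pos hε)).and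
    (hup (ε / 2) (half_pos hε)))
  refine ⟨n₀, fun n hn => ?_⟩
  obtain ⟨h1, h2⟩ := hn₀ n hn.le
  have hnR : (0 : ℝ) < n := by exact_mod_cast lt_of_le_of_lt (Nat.zero_le _) hn
  have ha : 0 < a n := lt_of_lt_of_le (by positivity) h1
  rw [Real.dist_eq, abs_lt]
  have h3 : (θ - ε / 2) * n ≤ Real.logb 2 (a n) := by
    rw [Real.le_logb_iff_rpow_le (by norm_num) ha]
    exact h1
  have h4 : Real.logb 2 (a n) ≤ (θ + ε / 2) * n := by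
    rw [Real.logb_le_iff_le_rpow (by norm_num) ha]
    exact h2
  have h5 : θ - ε / 2 ≤ Real.logb 2 (a n) / n := by rwa [le_div_iff₀ hnR]
  have h6 : Real.logb 2 (a n) / n ≤ θ + ε / 2 := by rwa [div_le_iff₀ hnR]
  constructor <;> linarith

theorem limit {δ θ : ℝ} (h0 : 0 < δ) (hlow : Be δ (θ * Real.log 2)) (hup : UB δ θ) :
    Tendsto (fun n : ℕ => Real.logb 2 (LPv n ⌈δ * n⌉₊) / n) atTop (𝓝 θ) := by
  have hlog : 0 < Real.log 2 := Real.log_pos (by norm_num)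
  have hupe : ∀ ε : ℝ, 0 < ε → ∀ᶠ n : ℕ in atTop,
      ∃ l : ℕ → ℝ, Feas n ⌈δ * n⌉₊ l ∧ Vl n l / l 0 ≤ (2 : ℝ) ^ ((θ + ε) * n) := by
    intro ε hε
    obtain ⟨n₀, hn₀⟩ := hup ε hε
    filter_upwards [eventually_ge_atTop n₀] with n hn
    obtain ⟨l, hl, hv⟩ := hn₀ n hn ⌈δ * n⌉₊ (Nat.le_ceil _)
    exact ⟨l, hl, by rwa [div_le_iff₀ hl.2.1]⟩
  refine tendsto_of ?_ ?_
  · intro ε hε
    obtain ⟨n₀, hn₀⟩ := hlow (ε * Real.log 2) (by positivity)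
    filter_upwards [eventually_ge_atTop n₀, hupe 1 one_pos] with n hn hne
    obtain ⟨l₁, hl₁, -⟩ := hne
    refine le_csInf ⟨_, l₁, hl₁, rfl⟩ ?_
    rintro v ⟨l, hl, rfl⟩
    have hd : ((⌈δ * n⌉₊ : ℕ) : ℝ) ≤ δ * n + 1 :=
      (Nat.ceil_lt_add_one (by positivity)).le
    have h1 := hn₀ n hn ⌈δ * n⌉₊ hd l hl.1 hl.2.2
    rw [← Vl_eq] at h1
    rw [le_div_iff₀ hl.2.1]
    refine le_trans (le_of_eq ?_) h1
    congr 1
    rw [Real.rpow_def_of_pos (by norm_num)]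
    congr 1
    ring
  · intro ε hε
    filter_upwards [hupe ε hε] with n hne
    obtain ⟨l, hl, hv⟩ := hne
    exact (csInf_le (bdd n _) ⟨l, hl, rfl⟩).trans hv

end Pool.Agent.TH41.BL.FINf
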