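import Mathlib
import Pool.Agent.TH41.BL.Stm

/-!
Project BL, piece KRA: Krawtchouk identities.
-/

set_option autoImplicit false

open MeasureTheory Filter Topology

namespace Pool.Agent.TH41.BL.KRAf

open Pool.Agent.TH41.BL

open Pool.Agent.TH41.LP (WW)

/-- the homogeneous generating polynomial -/
noncomputable def G {R : Type*} [CommRing R] (n j : ℕ) (a b : R) : Polynomial R :=
  (Polynomial.C a + Polynomial.C b * Polynomial.X) ^ (n - j) *
    (Polynomial.C a - Polynomial.C b * Polynomial.X) ^ j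

lemma coeff_lin {R : Type*} [CommRing R] (a b : R) (m k : ℕ) :
    ((Polynomial.C a + Polynomial.C b * Polynomial.X) ^ m).coeff k =
      a ^ (m - k) * (m.choose k : R) * b ^ k := by
  have h : (Polynomial.C a + Polynomial.C b * Polynomial.X) ^ m =
      ((Polynomial.X + Polynomial.C a) ^ m).comp (Polynomial.C b * Polynomial.X) := by
    simp [add_comm]
  rw [h, Polynomial.comp_C_mul_X_coeff, Polynomial.coeff_X_add_C_pow]

lemma coeff_G {R : Type*} [CommRing R] (n j w : ℕ) (hj : j ≤ n) (a b : R) :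
    (G n j a b).coeff w = (kr n w j : R) * (a ^ (n - w) * b ^ w) := by
  have hsub : (Polynomial.C a - Polynomial.C b * Polynomial.X : Polynomial R) =
      Polynomial.C a + Polynomial.C (-b) * Polynomial.X := by
    simp [sub_eq_add_neg]
  unfold G
  rw [hsub, mul_comm, Polynomial.coeff_mul, Finset.Nat.sum_antidiagonal_eq_sum_range_succ_mk]
  unfold kr
  push_cast
  rw [Finset.sum_mul]
  refine Finset.sum_congr rfl fun i hi => ?_
  have hi' : i ≤ w := by
    have := Finset.mem_range.mp hi
    omega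
  rw [coeff_lin, coeff_lin]
  by_cases h1 : j < i
  · rw [Nat.choose_eq_zero_of_lt h1]
    simp
  by_cases h2 : n - j < w - i
  · rw [Nat.choose_eq_zero_of_lt h2]
    simp
  have e1 : a ^ (n - w) = a ^ (j - i) * a ^ (n - j - (w - i)) := by
    rw [← pow_add]
    congr 1
    omega
  have e2 : b ^ w = b ^ i * b ^ (w - i) := by
    rw [← pow_add]
    congr 1
    omega
  rw [e1, e2, neg_pow]
  ring

lemma natDegree_G {R : Type*} [CommRing R] (n j : ℕ) (hj : j ≤ n) (a b : R) :
    (G n j a b).natDegree < n + 1 := by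
  have h0 : (Polynomial.C a + Polynomial.C b * Polynomial.X : Polynomial R).natDegree ≤ 1 := by
    compute_degree
  have h1 : (Polynomial.C a - Polynomial.C b * Polynomial.X : Polynomial R).natDegree ≤ 1 := by
    compute_degree
  have h2 : ((Polynomial.C a + Polynomial.C b * Polynomial.X : Polynomial R) ^ (n - j)).natDegree
      ≤ (n - j) * 1 := Polynomial.natDegree_pow_le_of_le _ h0
  have h3 : ((Polynomial.C a - Polynomial.C b * Polynomial.X : Polynomial R) ^ j).natDegree
      ≤ j * 1 := Polynomial.natDegree_pow_le_of_le _ h1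
  have h4 : (G n j a b).natDegree ≤ (n - j) * 1 + j * 1 :=
    Polynomial.natDegree_mul_le_of_le h2 h3
  omega

/-- homogeneous generating function -/
lemma hom_gen {R : Type*} [CommRing R] (n j : ℕ) (hj : j ≤ n) (a b : R) :
    ∑ w ∈ Finset.range (n + 1), (kr n w j : R) * (a ^ (n - w) * b ^ w) =
      (a + b) ^ (n - j) * (a - b) ^ j := by
  have h := Polynomial.eval_eq_sum_range' (natDegree_G n j hj a b) 1
  have h2 : Polynomial.eval 1 (G n j a b) = (a + b) ^ (n - j) * (a - b) ^ j := by
    simp [G]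
  rw [← h2, h]
  refine Finset.sum_congr rfl fun w _ => ?_
  rw [coeff_G n j w hj, one_pow, mul_one]

/-- identity (1) -/
lemma id1 {R : Type*} [CommRing R] (n w : ℕ) (A B : R) :
    ∑ j ∈ Finset.range (n + 1),
      (n.choose j : R) * ((A + B) ^ (n - j) * (A - B) ^ j) * (kr n w j : R) =
      2 ^ n * ((n.choose w : R) * (A ^ (n - w) * B ^ w)) := by
  have key : ∑ j ∈ Finset.range (n + 1),
      Polynomial.C ((n.choose j : R) * ((A + B) ^ (n - j) * (A - B) ^ j)) * G n j (1 : R) 1 =
      (Polynomial.C (2 * A) + Polynomial.C (2 * B) * Polynomial.X) ^ n := by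
    have h1 : (Polynomial.C (2 * A) + Polynomial.C (2 * B) * Polynomial.X : Polynomial R) =
        Polynomial.C (A - B) * (1 - Polynomial.X) + Polynomial.C (A + B) * (1 + Polynomial.X) := by
      simp only [Polynomial.C_mul, Polynomial.C_sub, Polynomial.C_add, Polynomial.C_ofNat]
      ring
    rw [h1, add_pow]
    refine Finset.sum_congr rfl fun j _ => ?_
    unfold G
    simp only [Polynomial.C_mul, Polynomial.C_pow, Polynomial.C_1, one_mul, mul_pow,
      Polynomial.C_eq_natCast]
    ring
  have h2 := congrArg (fun p => Polynomial.coeff p w) key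
  simp only [Polynomial.finsetSum_coeff, Polynomial.coeff_C_mul] at h2
  rw [coeff_lin] at h2
  have h3 : ∑ j ∈ Finset.range (n + 1),
      (n.choose j : R) * ((A + B) ^ (n - j) * (A - B) ^ j) * (kr n w j : R) =
      ∑ j ∈ Finset.range (n + 1),
      (n.choose j : R) * ((A + B) ^ (n - j) * (A - B) ^ j) * (G n j (1 : R) 1).coeff w := by
    refine Finset.sum_congr rfl fun j hj => ?_
    rw [coeff_G n j w (by have := Finset.mem_range.mp hj; omega)]
    simp
  rw [h3, h2]
  by_cases hw : w ≤ n
  · have e1 : (2 : R) ^ n = 2 ^ (n - w) * 2 ^ w := by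
      rw [← pow_add]
      congr 1
      omega
    rw [mul_pow, mul_pow, e1]
    ring
  · rw [Nat.choose_eq_zero_of_lt (by omega)]
    simp

/-- inversion -/
lemma inv (n i j : ℕ) (hj : j ≤ n) :
    ∑ w ∈ Finset.range (n + 1), (kr n i w : ℝ) * (kr n w j : ℝ) =
      if i = j then 2 ^ n else 0 := by
  have h := hom_gen (R := Polynomial ℝ) n j hj (1 + Polynomial.X) (1 - Polynomial.X)
  have e1 : (1 + Polynomial.X + (1 - Polynomial.X) : Polynomial ℝ) = Polynomial.C 2 := by
    rw [Polynomial.C_ofNat]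
    ring
  have e2 : (1 + Polynomial.X - (1 - Polynomial.X) : Polynomial ℝ) =
      Polynomial.C 2 * Polynomial.X := by
    rw [Polynomial.C_ofNat]
    ring
  rw [e1, e2, mul_pow, ← mul_assoc, ← pow_add, Nat.sub_add_cancel hj, ← Polynomial.C_pow] at h
  have h2 := congrArg (fun p => Polynomial.coeff p i) h
  simp only [Polynomial.finsetSum_coeff, Polynomial.coeff_C_mul, Polynomial.coeff_X_pow] at h2
  have h3 : ∑ w ∈ Finset.range (n + 1), (kr n i w : ℝ) * (kr n w j : ℝ) =
      ∑ w ∈ Finset.range (n + 1), (((kr n w j : ℤ) : Polynomial ℝ) *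
        ((1 + Polynomial.X) ^ (n - w) * (1 - Polynomial.X) ^ w)).coeff i := by
    refine Finset.sum_congr rfl fun w hw => ?_
    have hw' : w ≤ n := by have := Finset.mem_range.mp hw; omega
    have h4 := coeff_G (R := ℝ) n w i hw' 1 1
    simp only [one_pow, mul_one, G, Polynomial.C_1, one_mul] at h4
    rw [← Polynomial.C_eq_intCast, Polynomial.coeff_C_mul, h4]
    ring
  rw [h3, h2]
  split_ifs <;> simp

lemma kr_refl (n w j : ℕ) (hj : j ≤ n) : kr n w (n - j) = (-1) ^ w * kr n w j := by
  have h1 := coeff_G (R := ℤ) n (n - j) w (Nat.sub_le n j) 1 1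
  have h2 := coeff_G (R := ℤ) n j w hj 1 (-1)
  have h3 : G (R := ℤ) n (n - j) 1 1 = G (R := ℤ) n j 1 (-1) := by
    unfold G
    rw [Nat.sub_sub_self hj]
    simp [sub_eq_add_neg, mul_comm]
  rw [h3, h2] at h1
  simp only [one_pow, mul_one, one_mul, Int.cast_id] at h1
  rw [← h1]
  ring

lemma kr_zero_right (n j : ℕ) : kr n j 0 = n.choose j := by
  unfold kr
  rw [Finset.sum_eq_single 0]
  · simp
  · intro i _ hi
    rw [Nat.choose_eq_zero_of_lt (Nat.pos_of_ne_zero hi)]
    simp
  · simp

theorem kra : S_kra := by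
  have hs : (√2 : ℝ) ≠ 0 := by positivity
  have hsq : (√2 : ℝ) ^ 2 = 2 := Real.sq_sqrt (by norm_num)
  refine ⟨?_, ?_, kr_zero_right, ?_, ?_⟩
  · intro n f a b
    have hsC : ((√2 : ℝ) : ℂ) ≠ 0 := by exact_mod_cast hs
    have hsqC : ((√2 : ℝ) : ℂ) ^ 2 = 2 := by
      rw [← Complex.ofReal_pow, hsq]
      norm_num
    have e : ∀ j ∈ Finset.range (n + 1), (n.choose j : ℂ) *
        (((a + b) / (√2 : ℝ)) ^ (n - j) * ((a - b) / (√2 : ℝ)) ^ j) * (tr n f j : ℂ) =
        ∑ w ∈ Finset.range (n + 1), (2 ^ n)⁻¹ * (f w : ℂ) *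
          ((n.choose j : ℂ) * ((a + b) ^ (n - j) * (a - b) ^ j) * ((kr n w j : ℤ) : ℂ)) := by
      intro j hj
      have hj' : j ≤ n := by have := Finset.mem_range.mp hj; omega
      have e1 : ((√2 : ℝ) : ℂ) ^ (n - j) * ((√2 : ℝ) : ℂ) ^ j * ((√2 : ℝ) : ℂ) ^ n = 2 ^ n := by
        rw [← pow_add, Nat.sub_add_cancel hj', ← hsqC, ← pow_mul, ← pow_add]
        congr 1
        omega
      unfold tr
      push_cast
      rw [Finset.mul_sum, Finset.mul_sum]
      refine Finset.sum_congr rfl fun w _ => ?_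
      rw [div_pow, div_pow, ← e1]
      field_simp
    rw [Finset.sum_congr rfl e, Finset.sum_comm]
    refine Finset.sum_congr rfl fun w _ => ?_
    rw [← Finset.mul_sum, id1]
    have h2 : (2 : ℂ) ^ n ≠ 0 := pow_ne_zero n two_ne_zero
    field_simp
  · intro n l j hj
    unfold tr
    have e : ∑ w ∈ Finset.range (n + 1),
        (∑ i ∈ Finset.range (n + 1), l i * (kr n i w : ℝ)) * (kr n w j : ℝ) =
        2 ^ n * l j := by
      simp only [Finset.sum_mul]
      rw [Finset.sum_comm]
      have e2 : ∀ i ∈ Finset.range (n + 1), ∑ w ∈ Finset.range (n + 1),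
          l i * (kr n i w : ℝ) * (kr n w j : ℝ) = if i = j then 2 ^ n * l j else 0 := by
        intro i _
        simp only [mul_assoc]
        rw [← Finset.mul_sum, inv n i j hj]
        split_ifs with h
        · rw [h]
          ring
        · ring
      rw [Finset.sum_congr rfl e2, Finset.sum_ite_eq' (Finset.range (n + 1)) j]
      rw [if_pos (Finset.mem_range.mpr (by omega))]
    have hp : (√2 : ℝ) ^ n * (√2 : ℝ) ^ n = 2 ^ n := by
      rw [← mul_pow, ← sq, hsq]
    rw [e, ← hp]
    field_simp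
  · intro n w
    simp [kr]
  · intro n f
    have ht : ∀ j, j ≤ n → tr n (fun w => (-1) ^ w * f w) j = tr n f (n - j) := by
      intro j hj
      unfold tr
      congr 1
      refine Finset.sum_congr rfl fun w _ => ?_
      rw [kr_refl n w j hj]
      push_cast
      ring
    unfold NN
    rw [← Finset.sum_range_reflect (fun j => (n.choose j : ℝ) * |tr n f j|) (n + 1)]
    refine Finset.sum_congr rfl fun j hj => ?_
    have hj' : j ≤ n := by have := Finset.mem_range.mp hj; omega
    rw [ht j hj', Nat.add_sub_cancel, Nat.choose_symm hj']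

end Pool.Agent.TH41.BL.KRAf
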