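import Mathlib
import Pool.Agent.TH41.BL.Stm6
import Pool.Agent.TH41.BL.FIN
import Pool.Agent.TH41.BL.KRA

/-!
Delsarte's inequality for binary codes.
-/

set_option autoImplicit false

open Finset

namespace Pool.Agent.TH41.BL.DELf

open Pool.Agent.TH41.BL

/-- a character -/
def chi {n : ℕ} (s : Finset (Fin n)) (x : Fin n → Bool) : ℝ := ∏ i ∈ s, if x i then -1 else 1

lemma chi_mul {n : ℕ} (s : Finset (Fin n)) (x y : Fin n → Bool) :
    chi s x * chi s y = (-1 : ℝ) ^ (s ∩ univ.filter fun i => x i ≠ y i).card := by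
  unfold chi
  rw [← Finset.prod_mul_distrib, ← Finset.prod_const]
  rw [show s ∩ univ.filter (fun i => x i ≠ y i) = s.filter (fun i => x i ≠ y i) by
    ext i; simp]
  rw [Finset.prod_filter]
  refine Finset.prod_congr rfl fun i _ => ?_
  cases x i <;> cases y i <;> simp

lemma kr_pos_sum (hc : S7_chr) {n : ℕ} (C : Finset (Fin n → Bool)) (j : ℕ) :
    0 ≤ ∑ x ∈ C, ∑ y ∈ C, (kr n j (hammingDist x y) : ℝ) := by
  have h1 : ∀ x y : Fin n → Bool, (kr n j (hammingDist x y) : ℝ) =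
      ∑ s ∈ Finset.powersetCard j (Finset.univ : Finset (Fin n)), chi s x * chi s y := by
    intro x y
    have h2 := hc (Fin n) (univ.filter fun i => x i ≠ y i) j
    rw [Fintype.card_fin] at h2
    have h3 : (univ.filter fun i => x i ≠ y i).card = hammingDist x y := rfl
    rw [h3] at h2
    rw [← h2]
    push_cast
    exact Finset.sum_congr rfl fun s _ => (chi_mul s x y).symm
  simp_rw [h1]
  have h4 : ∑ x ∈ C, ∑ y ∈ C, ∑ s ∈ Finset.powersetCard j (Finset.univ : Finset (Fin n)),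
      chi s x * chi s y = ∑ s ∈ Finset.powersetCard j (Finset.univ : Finset (Fin n)),
        (∑ x ∈ C, chi s x) * (∑ y ∈ C, chi s y) := by
    simp_rw [Finset.sum_mul_sum]
    rw [Finset.sum_comm' (s := C) (t := fun _ => C) (t' := C) (s' := fun _ => C) (by
      intro x y; exact ⟨fun h => ⟨h.1, h.2⟩, fun h => ⟨h.1, h.2⟩⟩)]
    rw [Finset.sum_comm' (s := C) (t := fun _ => C) (t' := C) (s' := fun _ => C) (by
      intro x y; exact ⟨fun h => ⟨h.1, h.2⟩, fun h => ⟨h.1, h.2⟩⟩)]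
    rw [show (∑ x ∈ C, ∑ y ∈ C, ∑ s ∈ Finset.powersetCard j (Finset.univ : Finset (Fin n)),
        chi s x * chi s y) = ∑ x ∈ C, ∑ s ∈ Finset.powersetCard j (Finset.univ : Finset (Fin n)),
          ∑ y ∈ C, chi s x * chi s y from
        Finset.sum_congr rfl fun x _ => Finset.sum_comm]
    exact Finset.sum_comm
  rw [h4]
  exact Finset.sum_nonneg fun s _ => mul_self_nonneg _

theorem delsarte (hc : S7_chr) {n d : ℕ} {l : ℕ → ℝ} (hl : Feas n d l)
    (C : Finset (Fin n → Bool)) (hC : ∀ x ∈ C, ∀ y ∈ C, x ≠ y → d ≤ hammingDist x y) :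
    (C.card : ℝ) ≤ Vl n l / l 0 := by
  rw [le_div_iff₀ hl.2.1]
  rcases C.eq_empty_or_nonempty with rfl | hne
  · simp only [Finset.card_empty, Nat.cast_zero, zero_mul]
    unfold Vl
    exact Finset.sum_nonneg fun j _ => mul_nonneg (hl.1 j) (Nat.cast_nonneg _)
  have hcard : (0 : ℝ) < C.card := by exact_mod_cast hne.card_pos
  have hk0 : ∀ w, (kr n 0 w : ℝ) = 1 := by
    intro w
    simp [kr]
  have h1 : l 0 * (C.card : ℝ) ^ 2 ≤
      ∑ j ∈ Finset.range (n + 1), l j * ∑ x ∈ C, ∑ y ∈ C, (kr n j (hammingDist x y) : ℝ) := by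
    rw [Finset.sum_range_succ']
    have h2 : ∑ x ∈ C, ∑ y ∈ C, (kr n 0 (hammingDist x y) : ℝ) = (C.card : ℝ) ^ 2 := by
      simp_rw [hk0]
      simp only [Finset.sum_const, nsmul_eq_mul, mul_one]
      ring
    rw [h2]
    have h3 : 0 ≤ ∑ j ∈ Finset.range n, l (j + 1) *
        ∑ x ∈ C, ∑ y ∈ C, (kr n (j + 1) (hammingDist x y) : ℝ) :=
      Finset.sum_nonneg fun j _ => mul_nonneg (hl.1 _) (kr_pos_sum hc C _)
    linarith
  have h4 : ∑ j ∈ Finset.range (n + 1), l j * ∑ x ∈ C, ∑ y ∈ C, (kr n j (hammingDist x y) : ℝ) =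
      ∑ x ∈ C, ∑ y ∈ C, ∑ j ∈ Finset.range (n + 1), l j * (kr n j (hammingDist x y) : ℝ) := by
    simp_rw [Finset.mul_sum]
    rw [Finset.sum_comm]
    exact Finset.sum_congr rfl fun x _ => Finset.sum_comm
  have h5 : ∑ x ∈ C, ∑ y ∈ C, ∑ j ∈ Finset.range (n + 1), l j * (kr n j (hammingDist x y) : ℝ) ≤
      C.card * Vl n l := by
    rw [← nsmul_eq_mul]
    refine Finset.sum_le_card_nsmul C _ _ fun x hx => ?_
    rw [← Finset.add_sum_erase C _ hx]
    have h6 : ∑ j ∈ Finset.range (n + 1), l j * (kr n j (hammingDist x x) : ℝ) = Vl n l := by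
      rw [FINf.Vl_eq, hammingDist_self]
    rw [h6]
    have h7 : ∑ y ∈ C.erase x, ∑ j ∈ Finset.range (n + 1), l j * (kr n j (hammingDist x y) : ℝ)
        ≤ 0 := by
      refine Finset.sum_nonpos fun y hy => ?_
      rw [Finset.mem_erase] at hy
      refine hl.2.2 _ (hC x hx y hy.2 hy.1.symm) ?_
      refine hammingDist_le_card_fintype.trans ?_
      simp
    linarith
  rw [h4] at h1
  have h8 : (C.card : ℝ) * ((C.card : ℝ) * l 0) ≤ C.card * Vl n l := by
    refine le_trans (le_of_eq ?_) (h1.trans h5)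
    ring
  exact le_of_mul_le_mul_left h8 hcard

/-- all ones is feasible -/
theorem feas_one {n d : ℕ} (hd : 1 ≤ d) : Feas n d (fun _ => 1) := by
  refine ⟨fun _ => zero_le_one, one_pos, fun w hw hwn => ?_⟩
  have h := KRAf.inv n 0 0 (Nat.zero_le n)
  have key : ∑ j ∈ Finset.range (n + 1), (1 : ℝ) * (kr n j w : ℝ) = 0 := by
    have h1 := KRAf.inv n 0 w hwn
    rw [if_neg (by omega)] at h1
    rw [← h1]
    refine Finset.sum_congr rfl fun j _ => ?_
    have : (kr n 0 j : ℝ) = 1 := by simp [kr]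
    rw [this]
  rw [key]

end Pool.Agent.TH41.BL.DELf
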