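import Mathlib
import Pool.Agent.TH41.BL.Stm6
import Pool.Agent.TH41.BL.KRA

/-!
Project BL6, piece CE: the feasible solution given by an operator.
-/

set_option autoImplicit false
set_option linter.unusedSectionVars false

open MeasureTheory Filter Topology

namespace Pool.Agent.TH41.BL.CE7f

open Pool.Agent.TH41.BL

lemma kr_symm (n j w : ℕ) (hw : w ≤ n) :
    (n.choose j : ℝ) * (kr n w j : ℝ) = (n.choose w : ℝ) * (kr n j w : ℝ) := by
  by_cases hj : j ≤ n
  · have h := KRAf.id1 (R := Polynomial ℝ) n w (1 + Polynomial.X) (1 - Polynomial.X)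
    have e1 : (1 + Polynomial.X + (1 - Polynomial.X) : Polynomial ℝ) = Polynomial.C 2 := by
      rw [Polynomial.C_ofNat]
      ring
    have e2 : (1 + Polynomial.X - (1 - Polynomial.X) : Polynomial ℝ) =
        Polynomial.C 2 * Polynomial.X := by
      rw [Polynomial.C_ofNat]
      ring
    rw [e1, e2] at h
    have e3 : ∀ i ∈ Finset.range (n + 1), (n.choose i : Polynomial ℝ) *
        (Polynomial.C 2 ^ (n - i) * (Polynomial.C 2 * Polynomial.X) ^ i) *
          ((kr n w i : ℤ) : Polynomial ℝ) =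
        Polynomial.C ((2 : ℝ) ^ n * ((n.choose i : ℝ) * (kr n w i : ℝ))) * Polynomial.X ^ i := by
      intro i hi
      have hi' : i ≤ n := by have := Finset.mem_range.mp hi; omega
      have e4 : (2 : ℝ) ^ n = 2 ^ (n - i) * 2 ^ i := by
        rw [← pow_add]
        congr 1
        omega
      rw [e4]
      simp only [Polynomial.C_mul, Polynomial.C_pow, Polynomial.C_eq_natCast,
        Polynomial.C_eq_intCast]
      ring
    rw [Finset.sum_congr rfl e3] at h
    have h2 := congrArg (fun p => Polynomial.coeff p j) h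
    simp only [Polynomial.finsetSum_coeff, Polynomial.coeff_C_mul_X_pow] at h2
    rw [Finset.sum_ite_eq (Finset.range (n + 1)) j, if_pos (Finset.mem_range.mpr (by omega))] at h2
    have h3 : (2 : Polynomial ℝ) ^ n * ((n.choose w : Polynomial ℝ) *
        ((1 + Polynomial.X) ^ (n - w) * (1 - Polynomial.X) ^ w)) =
        Polynomial.C ((2 : ℝ) ^ n * (n.choose w : ℝ)) * KRAf.G n w (1 : ℝ) 1 := by
      unfold KRAf.G
      simp only [Polynomial.C_mul, Polynomial.C_pow, Polynomial.C_eq_natCast, Polynomial.C_1,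
        one_mul, Polynomial.C_ofNat]
      ring
    rw [h3, Polynomial.coeff_C_mul, KRAf.coeff_G n w j hw] at h2
    simp only [one_pow, mul_one] at h2
    have h4 : (2 : ℝ) ^ n ≠ 0 := pow_ne_zero n two_ne_zero
    have h5 : (2 : ℝ) ^ n * ((n.choose j : ℝ) * (kr n w j : ℝ)) =
        (2 : ℝ) ^ n * ((n.choose w : ℝ) * (kr n j w : ℝ)) := by
      rw [h2]
      ring
    exact mul_left_cancel₀ h4 h5
  · have h1 : kr n j w = 0 := by
      unfold kr
      refine Finset.sum_eq_zero fun i _ => ?_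
      by_cases h2 : w < i
      · rw [Nat.choose_eq_zero_of_lt h2]
        simp
      · rw [Nat.choose_eq_zero_of_lt (show n - w < j - i by omega)]
        simp
    rw [h1, Nat.choose_eq_zero_of_lt (by omega)]
    simp

section
variable {Ω β V : Type} [Fintype Ω] [DecidableEq Ω] [Fintype β] [DecidableEq β] [Fintype V]

/-- the character of a set of bits -/
noncomputable def chi (bt : Ω → β → Bool) {m : ℕ} (s : Finset (Fin m × β)) (a : Fin m → Ω) : ℝ :=
  ∏ p ∈ s, (if bt (a p.1) p.2 then (-1 : ℝ) else 1)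

lemma chi_mul (bt : Ω → β → Bool) {m : ℕ} (s : Finset (Fin m × β)) (a b : Fin m → Ω) :
    chi bt s a * chi bt s b = (((-1 : ℤ) ^ (s ∩ (Finset.univ.filter
      fun p : Fin m × β => bt (a p.1) p.2 ≠ bt (b p.1) p.2)).card : ℤ) : ℝ) := by
  unfold chi
  rw [← Finset.prod_mul_distrib]
  have h1 : ∀ p ∈ s, (if bt (a p.1) p.2 then (-1 : ℝ) else 1) *
      (if bt (b p.1) p.2 then (-1 : ℝ) else 1) =
      if bt (a p.1) p.2 ≠ bt (b p.1) p.2 then (-1 : ℝ) else 1 := by
    intro p _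
    cases bt (a p.1) p.2 <;> cases bt (b p.1) p.2 <;> simp
  rw [Finset.prod_congr rfl h1, Finset.prod_ite, Finset.prod_const, Finset.prod_const_one, mul_one]
  push_cast
  congr 2
  ext p
  simp

lemma hd_le (bt : Ω → β → Bool) {m : ℕ} (a b : Fin m → Ω) : hd bt a b ≤ nb β m := by
  unfold hd nb
  refine (Finset.card_le_univ _).trans ?_
  rw [Fintype.card_prod, Fintype.card_fin]

/-- the sum of the characters -/
lemma kr_sum (hc : S7_chr) (bt : Ω → β → Bool) {m : ℕ} (a b : Fin m → Ω) (j : ℕ) :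
    (kr (nb β m) j (hd bt a b) : ℝ) =
      ∑ s ∈ Finset.powersetCard j (Finset.univ : Finset (Fin m × β)), chi bt s a * chi bt s b := by
  have h1 := hc (Fin m × β) (Finset.univ.filter
    fun p : Fin m × β => bt (a p.1) p.2 ≠ bt (b p.1) p.2) j
  rw [Fintype.card_prod, Fintype.card_fin] at h1
  unfold nb hd
  rw [← h1]
  push_cast
  refine Finset.sum_congr rfl fun s _ => ?_
  rw [chi_mul]
  push_cast
  rfl

/-- the sums -/
noncomputable def SS (bt : Ω → β → Bool) {m : ℕ} (d : ℕ) (T : Matrix (Fin m → Ω) (Fin m → Ω) ℝ)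
    (j : ℕ) : ℝ :=
  ∑ a, ∑ b, ((d : ℝ) - hd bt a b) * T a b ^ 2 * (kr (nb β m) j (hd bt a b) : ℝ)

/-- the shifted energy -/
noncomputable def AA (bt : Ω → β → Bool) {m : ℕ} (d : ℕ) (T : Matrix (Fin m → Ω) (Fin m → Ω) ℝ) :
    Matrix (Fin m → Ω) (Fin m → Ω) ℝ :=
  Ad bt T - ((nb β m : ℝ) - 2 * d) • T

lemma AA_apply (bt : Ω → β → Bool) {m : ℕ} (d : ℕ) (T : Matrix (Fin m → Ω) (Fin m → Ω) ℝ)
    (a b : Fin m → Ω) : AA bt d T a b = 2 * ((d : ℝ) - hd bt a b) * T a b := by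
  unfold AA Ad
  rw [Matrix.sub_apply, Matrix.smul_apply, Matrix.of_apply, smul_eq_mul]
  ring

lemma SS_eq (hc : S7_chr) (bt : Ω → β → Bool) {m : ℕ} (d : ℕ)
    (T : Matrix (Fin m → Ω) (Fin m → Ω) ℝ) (j : ℕ) :
    2 * SS bt d T j = ∑ s ∈ Finset.powersetCard j (Finset.univ : Finset (Fin m × β)),
      hs (Matrix.of fun a b => chi bt s a * T a b * chi bt s b) (AA bt d T) := by
  unfold SS hs
  rw [Finset.sum_comm (s := Finset.powersetCard j (Finset.univ : Finset (Fin m × β))),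
    Finset.mul_sum]
  refine Finset.sum_congr rfl fun a _ => ?_
  rw [Finset.sum_comm (s := Finset.powersetCard j (Finset.univ : Finset (Fin m × β))),
    Finset.mul_sum]
  refine Finset.sum_congr rfl fun b _ => ?_
  rw [kr_sum hc, Finset.mul_sum, Finset.mul_sum]
  refine Finset.sum_congr rfl fun s _ => ?_
  rw [AA_apply, Matrix.of_apply]
  ring

lemma PSD_AA (bt : Ω → β → Bool) {m : ℕ} {d : ℕ} {T : Matrix (Fin m → Ω) (Fin m → Ω) ℝ} {r : ℝ}
    (hT : PSD T) (h : PSD (Ad bt T - r • T)) (hr : (nb β m : ℝ) - 2 * d ≤ r) :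
    PSD (AA bt d T) := by
  have e : AA bt d T = (Ad bt T - r • T) + (r - ((nb β m : ℝ) - 2 * d)) • T := by
    unfold AA
    module
  rw [e]
  refine ⟨?_, fun x => ?_⟩
  · rw [Matrix.transpose_add, Matrix.transpose_smul, h.1, hT.1]
  · have h1 := h.2 x
    have h2 := hT.2 x
    have h3 : ∑ a, ∑ b, x a * ((Ad bt T - r • T) + (r - ((nb β m : ℝ) - 2 * d)) • T) a b * x b =
        ∑ a, ∑ b, x a * (Ad bt T - r • T) a b * x b +
          (r - ((nb β m : ℝ) - 2 * d)) * ∑ a, ∑ b, x a * T a b * x b := by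
      rw [Finset.mul_sum, ← Finset.sum_add_distrib]
      refine Finset.sum_congr rfl fun a _ => ?_
      rw [Finset.mul_sum, ← Finset.sum_add_distrib]
      refine Finset.sum_congr rfl fun b _ => ?_
      rw [Matrix.add_apply, Matrix.smul_apply, smul_eq_mul]
      ring
    rw [h3]
    have h4 : 0 ≤ r - ((nb β m : ℝ) - 2 * d) := by linarith
    exact add_nonneg h1 (mul_nonneg h4 h2)

lemma SS_nonneg (hp : S7_pos) (hc : S7_chr) (bt : Ω → β → Bool) {m : ℕ} {d : ℕ}
    {T : Matrix (Fin m → Ω) (Fin m → Ω) ℝ} {r : ℝ}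
    (hT : PSD T) (h : PSD (Ad bt T - r • T)) (hr : (nb β m : ℝ) - 2 * d ≤ r) (j : ℕ) :
    0 ≤ SS bt d T j := by
  have h1 := SS_eq hc bt d T j
  have h2 : 0 ≤ ∑ s ∈ Finset.powersetCard j (Finset.univ : Finset (Fin m × β)),
      hs (Matrix.of fun a b => chi bt s a * T a b * chi bt s b) (AA bt d T) :=
    Finset.sum_nonneg fun s _ => hp.1 _ _ _ (hp.2.1 _ _ _ hT) (PSD_AA bt hT h hr)
  linarith

lemma SS_zero (hp : S7_pos) (hc : S7_chr) (bt : Ω → β → Bool) {m : ℕ} {d : ℕ}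
    {T : Matrix (Fin m → Ω) (Fin m → Ω) ℝ} {r : ℝ}
    (hT : PSD T) (h : PSD (Ad bt T - r • T)) :
    (r - ((nb β m : ℝ) - 2 * d)) * hs T T ≤ 2 * SS bt d T 0 := by
  rw [SS_eq hc bt d T 0, Finset.powersetCard_zero, Finset.sum_singleton]
  have h1 := hp.1 _ _ _ hT h
  have h2 : hs (Matrix.of fun a b => chi bt (∅ : Finset (Fin m × β)) a * T a b * chi bt ∅ b)
      (AA bt d T) = hs T (Ad bt T - r • T) + (r - ((nb β m : ℝ) - 2 * d)) * hs T T := by
    unfold hs
    rw [Finset.mul_sum, ← Finset.sum_add_distrib]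
    refine Finset.sum_congr rfl fun a _ => ?_
    rw [Finset.mul_sum, ← Finset.sum_add_distrib]
    refine Finset.sum_congr rfl fun b _ => ?_
    unfold AA chi
    rw [Matrix.of_apply, Matrix.sub_apply, Matrix.sub_apply, Matrix.smul_apply, Matrix.smul_apply,
      smul_eq_mul, smul_eq_mul, Finset.prod_empty]
    ring
  rw [h2]
  linarith

/-- the sums of the squares of the entries with a given distance -/
noncomputable def FF (bt : Ω → β → Bool) {m : ℕ} (T : Matrix (Fin m → Ω) (Fin m → Ω) ℝ)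
    (w : ℕ) : ℝ :=
  ∑ a, ∑ b, if hd bt a b = w then T a b ^ 2 else 0

lemma FF_nonneg (bt : Ω → β → Bool) {m : ℕ} (T : Matrix (Fin m → Ω) (Fin m → Ω) ℝ)
    (w : ℕ) : 0 ≤ FF bt T w := by
  refine Finset.sum_nonneg fun a _ => Finset.sum_nonneg fun b _ => ?_
  split_ifs
  · exact sq_nonneg _
  · exact le_rfl

lemma FF_zero (bt : Ω → β → Bool) {m : ℕ} (T : Matrix (Fin m → Ω) (Fin m → Ω) ℝ) :
    FF bt T 0 = hs (dgP bt T) (dgP bt T) := by
  unfold FF hs dgP
  refine Finset.sum_congr rfl fun a _ => Finset.sum_congr rfl fun b _ => ?_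
  rw [Matrix.of_apply]
  split_ifs
  · ring
  · ring

/-- the multipliers -/
noncomputable def ll (bt : Ω → β → Bool) {m : ℕ} (d : ℕ) (T : Matrix (Fin m → Ω) (Fin m → Ω) ℝ)
    (j : ℕ) : ℝ :=
  if j ≤ nb β m then (2 ^ nb β m)⁻¹ * SS bt d T j / ((nb β m).choose j : ℝ) else 0

lemma ll_sum (bt : Ω → β → Bool) {m : ℕ} (d : ℕ) (T : Matrix (Fin m → Ω) (Fin m → Ω) ℝ)
    (w : ℕ) (hw : w ≤ nb β m) :
    ∑ j ∈ Finset.range (nb β m + 1), ll bt d T j * (kr (nb β m) j w : ℝ) =
      ((d : ℝ) - w) * FF bt T w / ((nb β m).choose w : ℝ) := by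
  set n := nb β m with hn
  have hcw : ((n.choose w : ℕ) : ℝ) ≠ 0 := by exact_mod_cast (Nat.choose_pos hw).ne'
  have h2 : (2 : ℝ) ^ n ≠ 0 := pow_ne_zero n two_ne_zero
  have e1 : ∀ j ∈ Finset.range (n + 1), ll bt d T j * (kr n j w : ℝ) =
      ∑ a, ∑ b, (((d : ℝ) - hd bt a b) * T a b ^ 2 * (2 ^ n)⁻¹ / (n.choose w : ℝ)) *
        ((kr n w j : ℝ) * (kr n j (hd bt a b) : ℝ)) := by
    intro j hj
    have hj' : j ≤ n := by have := Finset.mem_range.mp hj; omega
    have hcj : ((n.choose j : ℕ) : ℝ) ≠ 0 := by exact_mod_cast (Nat.choose_pos hj').ne'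
    unfold ll SS
    rw [if_pos hj']
    have h3 : (kr n j w : ℝ) = (n.choose j : ℝ) * (kr n w j : ℝ) / (n.choose w : ℝ) := by
      rw [kr_symm n j w hw]
      field_simp
    rw [h3]
    have h4 : (2 ^ n)⁻¹ * (∑ a, ∑ b, ((d : ℝ) - hd bt a b) * T a b ^ 2 * (kr n j (hd bt a b) : ℝ)) /
        (n.choose j : ℝ) * ((n.choose j : ℝ) * (kr n w j : ℝ) / (n.choose w : ℝ)) =
        (∑ a, ∑ b, ((d : ℝ) - hd bt a b) * T a b ^ 2 * (kr n j (hd bt a b) : ℝ)) *
          ((2 ^ n)⁻¹ * (kr n w j : ℝ) / (n.choose w : ℝ)) := by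
      field_simp
    rw [h4, Finset.sum_mul]
    refine Finset.sum_congr rfl fun a _ => ?_
    rw [Finset.sum_mul]
    refine Finset.sum_congr rfl fun b _ => ?_
    ring
  rw [Finset.sum_congr rfl e1, Finset.sum_comm]
  unfold FF
  rw [Finset.mul_sum, Finset.sum_div]
  refine Finset.sum_congr rfl fun a _ => ?_
  rw [Finset.sum_comm, Finset.mul_sum, Finset.sum_div]
  refine Finset.sum_congr rfl fun b _ => ?_
  rw [← Finset.mul_sum, KRAf.inv n w (hd bt a b) (hd_le bt a b)]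
  by_cases h : hd bt a b = w
  · rw [if_pos h, if_pos h.symm, h]
    field_simp
  · rw [if_neg h, if_neg (fun h' => h h'.symm)]
    simp

end

theorem ce (hp : S7_pos) (hc : S7_chr) : S7_cert := by
  intro Ω β _ _ _ _ bt m d T r hT hTT hA hr
  set n := nb β m with hn
  have h2 : (0 : ℝ) < 2 ^ n := by positivity
  have hl0 : ll bt d T 0 = (2 ^ n)⁻¹ * SS bt d T 0 := by
    unfold ll
    rw [if_pos (Nat.zero_le _), Nat.choose_zero_right, Nat.cast_one, div_one]
  have hz := SS_zero (d := d) hp hc bt hT hA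
  have hX : 0 < (r - ((nb β m : ℝ) - 2 * d)) * hs T T := mul_pos (by linarith) hTT
  refine ⟨ll bt d T, ⟨fun j => ?_, ?_, fun w hw1 hw2 => ?_⟩, ?_⟩
  · unfold ll
    split_ifs
    · exact div_nonneg (mul_nonneg (by positivity) (SS_nonneg hp hc bt hT hA hr.le j))
        (Nat.cast_nonneg _)
    · exact le_rfl
  · rw [hl0]
    exact mul_pos (by positivity) (by linarith)
  · rw [ll_sum bt d T w hw2]
    have h3 : (d : ℝ) ≤ w := by exact_mod_cast hw1
    refine div_nonpos_of_nonpos_of_nonneg ?_ (Nat.cast_nonneg _)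
    exact mul_nonpos_of_nonpos_of_nonneg (by linarith) (FF_nonneg bt T w)
  · have h3 : Vl (nb β m) (ll bt d T) = d * hs (dgP bt T) (dgP bt T) := by
      have h4 := ll_sum bt d T 0 (Nat.zero_le _)
      rw [Nat.choose_zero_right, Nat.cast_one, div_one, Nat.cast_zero, sub_zero, FF_zero] at h4
      rw [← h4]
      unfold Vl
      refine Finset.sum_congr rfl fun j _ => ?_
      rw [KRAf.kr_zero_right]
      push_cast
      rfl
    rw [h3, hl0]
    have h5 : 0 ≤ (d : ℝ) * hs (dgP bt T) (dgP bt T) := by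
      rw [← FF_zero]
      exact mul_nonneg (Nat.cast_nonneg _) (FF_nonneg bt T 0)
    calc (d : ℝ) * hs (dgP bt T) (dgP bt T) * ((r - ((nb β m : ℝ) - 2 * d)) * hs T T) ≤
        (d : ℝ) * hs (dgP bt T) (dgP bt T) * (2 * SS bt d T 0) :=
          mul_le_mul_of_nonneg_left hz h5
      _ = 2 ^ (n + 1) * d * hs (dgP bt T) (dgP bt T) * ((2 ^ n)⁻¹ * SS bt d T 0) := by
          rw [pow_succ]
          field_simp

end Pool.Agent.TH41.BL.CE7f
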