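import Mathlib
import Pool.Agent.TH41.BL.Stm6
import Pool.Agent.H390R2.LP.ProdB

/-!
Project BL7 (helper41, MP_dbfdb2_gt): upper bounds for the optimum of the Cohn-Elkies linear
program, from permutation invariant operators.  Definitions and statements of the pieces.
-/

set_option autoImplicit false

open MeasureTheory Filter Topology

open scoped FourierTransform

namespace Pool.Agent.TH41.BL

open Pool.Agent.H390R2.LP

section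
variable {Ω : Type} [Fintype Ω] [DecidableEq Ω] {q : ℕ}

/-- the squared distance of the positions -/
noncomputable def sd (pos : Ω → Fin q) {m : ℕ} (a b : Fin m → Ω) : ℝ :=
  ∑ k, (((pos (a k) : ℕ) : ℝ) - ((pos (b k) : ℕ) : ℝ)) ^ 2

/-- positions in unary -/
def bX (pos : Ω → Fin q) (ω : Ω) (x : Fin q) : Bool := decide (pos ω = x)

/-- the energy superoperator -/
noncomputable def Ae (pos : Ω → Fin q) {m : ℕ} (M : Matrix (Fin m → Ω) (Fin m → Ω) ℝ) :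
    Matrix (Fin m → Ω) (Fin m → Ω) ℝ :=
  Matrix.of fun a b => -(sd pos a b) * M a b

/-- the product state -/
noncomputable def Rg {X : Type} (s : Site Ω X) (m : ℕ) : Matrix (Fin m → Ω) (Fin m → Ω) ℝ :=
  Matrix.of fun a b => ∏ k, ∑ x, s.lam x * s.u x (a k) * s.u x (b k)

/-- its square root -/
noncomputable def Tg {X : Type} (s : Site Ω X) (m : ℕ) : Matrix (Fin m → Ω) (Fin m → Ω) ℝ :=
  Matrix.of fun a b => ∏ k, ∑ x, √(s.lam x) * s.u x (a k) * s.u x (b k)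

end

/-- the auxiliary functions of the linear programming bound for sphere packings -/
structure Aux (d : ℕ) (r : ℝ) (f : EuclideanSpace ℝ (Fin d) → ℝ) : Prop where
  continuous : Continuous f
  integrable : Integrable f
  integrable_fourier : Integrable (𝓕 (fun x => (f x : ℂ)))
  fourier_real : ∀ y, (𝓕 (fun x => (f x : ℂ)) y).im = 0
  fourier_nonneg : ∀ y, 0 ≤ (𝓕 (fun x => (f x : ℂ)) y).re
  integral_pos : 0 < ∫ x, f x
  nonpos : ∀ x, r ≤ ‖x‖ → f x ≤ 0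

/-- AL: positivity and algebra -/
def S8_alg : Prop := ∀ (Ω : Type) [Fintype Ω] [DecidableEq Ω] (q : ℕ) (pos : Ω → Fin q) (m : ℕ)
  (A B : Matrix (Fin m → Ω) (Fin m → Ω) ℝ),
  (PSD A → PSD B → hs A B = 0 → 0 ≤ hs A (Ae pos B)) ∧
  (∀ Q : Matrix (Fin m → Ω) (Fin m → Ω) ℝ, Q.transpose = Q → PSD A → Q * A = A →
    PSD ((1 - Q) * Ae pos A * (1 - Q))) ∧
  (PInv A → PInv (Ae pos A)) ∧ (Ae pos A).transpose = Ae pos A.transpose ∧
  hs A (Ae pos B) = hs (Ae pos A) B ∧ (PDi (bX pos) A → Ae pos (A * B) = A * Ae pos B) ∧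
  |hs A (Ae pos B)| ≤ m * (q : ℝ) ^ 2 * (√(hs A A) * √(hs B B))

/-- RE: the top eigenoperator -/
def S8_ray : Prop := ∀ (Ω : Type) [Fintype Ω] [DecidableEq Ω] (q : ℕ) (pos : Ω → Fin q) (m : ℕ)
  (P Q T₁ : Matrix (Fin m → Ω) (Fin m → Ω) ℝ),
  PInv P → PDi (bX pos) P → Prj P → PInv Q → Prj Q →
  (∀ N : Matrix (Fin m → Ω) (Fin m → Ω) ℝ, PInv N → Q * N = N * Q) →
  T₁.transpose = T₁ → PInv T₁ → P * T₁ = T₁ → Q * T₁ = T₁ → T₁ ≠ 0 →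
  ∃ (T : Matrix (Fin m → Ω) (Fin m → Ω) ℝ) (r : ℝ), PSD T ∧ PInv T ∧ T ≠ 0 ∧ P * T = T ∧
    Q * T = T ∧ hs T₁ (Ae pos T₁) ≤ r * hs T₁ T₁ ∧ PSD (Ae pos T - r • T)

/-- TE: tent functions -/
def S8_tent : Prop := ∀ n : ℕ, ∃ φ : EuclideanSpace ℝ (Fin n) → ℝ, Continuous φ ∧ Integrable φ ∧
  ∫ x, φ x = 1 ∧ (∀ x, 0 ≤ φ x) ∧ φ 0 = 1 ∧ (∀ x, (∃ i, 1 ≤ |x i|) → φ x = 0) ∧
  ∃ g : EuclideanSpace ℝ (Fin n) → ℝ, Integrable g ∧ (∀ p, 0 ≤ g p) ∧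
    ∀ p, 𝓕 (fun x => (φ x : ℂ)) p = (g p : ℂ)

/-- CE: the auxiliary function given by an operator -/
def S8_cert : Prop := ∀ (Ω : Type) [Fintype Ω] [DecidableEq Ω] (q : ℕ) (pos : Ω → Fin q) (m : ℕ)
  (T : Matrix (Fin m → Ω) (Fin m → Ω) ℝ) (r D : ℝ), PSD T → 0 < hs T T →
  PSD (Ae pos T - r • T) → 0 < D → -D < r →
  ∃ f : EuclideanSpace ℝ (Fin m) → ℝ, Aux m (√D + √m) f ∧
    f 0 * ((r + D) * hs T T) ≤ D * hs (dgP (bX pos) T) (dgP (bX pos) T) * ∫ x, f x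

/-- TY: the typical subspace -/
def S8_typ : Prop := ∀ (Ω : Type) [Fintype Ω] [DecidableEq Ω] (q : ℕ) (s : Site Ω (Fin q)) (ε : ℝ),
  0 < ε → ∃ m₀ : ℕ, ∀ m ≥ m₀, ∃ E : Matrix (Fin m → Ω) (Fin m → Ω) ℝ, PInv E ∧ Prj E ∧
    E.trace ≤ Real.exp (m * (s.S + ε)) ∧ ((1 - E) * Rg s m).trace ≤ ε

/-- PS: small position-diagonal projections carry no weight -/
def S8_ps : Prop := ∀ (Ω : Type) [Fintype Ω] [DecidableEq Ω] (q : ℕ) (s : Site Ω (Fin q)) (ε : ℝ),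
  0 < ε → ∃ m₀ : ℕ, ∀ m ≥ m₀, ∀ G : Matrix (Fin m → Ω) (Fin m → Ω) ℝ, Prj G →
    PDi (bX s.pos) G → G.trace ≤ Real.exp (m * (s.h - ε)) → (G * Rg s m).trace ≤ ε

/-- ST: the square root of the state -/
def S8_st : Prop := ∀ (Ω : Type) [Fintype Ω] [DecidableEq Ω] (q : ℕ) (s : Site Ω (Fin q)) (m : ℕ),
  PSD (Tg s m) ∧ PInv (Tg s m) ∧ Tg s m * Tg s m = Rg s m ∧ hs (Tg s m) (Tg s m) = 1 ∧
    hs (Tg s m) (Ae s.pos (Tg s m)) = -(m * s.E (fun (_ : Unit) (x : Fin q) => (x : ℝ)))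

/-- AS: the bound of a site -/
def S8_asm : Prop := ∀ (Ω : Type) [Fintype Ω] [DecidableEq Ω] (q : ℕ) (s : Site Ω (Fin q))
  (D ε : ℝ), s.E (fun (_ : Unit) (x : Fin q) => (x : ℝ)) < D → 0 < D → 0 < ε → ∃ m₀ : ℕ,
  ∀ m ≥ m₀, ∃ f : EuclideanSpace ℝ (Fin m) → ℝ, Aux m (√(m * D) + √m) f ∧
    f 0 ≤ Real.exp (-(m * (s.h - s.S - ε))) * ∫ x, f x

/-- the bound for the density of packings of balls of radius `r / 2` given by `f` -/
noncomputable def dB (d : ℕ) (r : ℝ) (f : EuclideanSpace ℝ (Fin d) → ℝ) : ℝ :=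
  (volume (Metric.ball (0 : EuclideanSpace ℝ (Fin d)) (r / 2))).toReal * f 0 / ∫ x, f x

/-- SC: scaling -/
def S8_sc : Prop := ∀ (d : ℕ) (r t : ℝ) (f : EuclideanSpace ℝ (Fin d) → ℝ), 0 < r → 0 < t →
  Aux d r f → Aux d (t * r) (fun x => f (t⁻¹ • x)) ∧
    dB d (t * r) (fun x => f (t⁻¹ • x)) = dB d r f

/-- EU: the packing exponent of a site (compare `cE`) -/
def S8_euc : Prop := ∀ (Ω : Type) [Fintype Ω] [DecidableEq Ω] (q : ℕ) (s : Site Ω (Fin q))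
  (hg ε : ℝ), 0 < hg → 0 < ε → ∃ n₀ : ℕ, ∀ n ≥ n₀, ∀ r : ℝ, 0 < r →
  ∃ f : EuclideanSpace ℝ (Fin n) → ℝ, Aux n r f ∧
    dB n r f ≤ Real.exp (-(n * (s.h - s.S + Real.log hg - 1 / 2 * Real.log (2 * Real.pi *
      Real.exp 1) - Real.log ((√(s.E (fun (_ : Unit) (x : Fin q) => hg * (x : ℝ))) + hg) / 2)
        - ε)))

/-- FE: the linear programming bound reaches `(e / 2π)^(n/2)` -/
def S8_fin : Prop := ∀ ε : ℝ, 0 < ε → ∃ n₀ : ℕ, ∀ n ≥ n₀, ∀ r : ℝ, 0 < r →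
  ∃ f : EuclideanSpace ℝ (Fin n) → ℝ, Aux n r f ∧
    dB n r f ≤ Real.exp (-(n * (1 / 2 * Real.log (2 * Real.pi / Real.exp 1) - ε)))

end Pool.Agent.TH41.BL
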