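import Mathlib
import Pool.Agent.TH41.BL.Stm9

/-!
Project BL8 (helper41): smooth compactly supported auxiliary functions, and the linear programming
bound for binary codes by arbitrary positive semidefinite kernels.
-/

set_option autoImplicit false

open MeasureTheory Filter Topology

open scoped FourierTransform ContDiff

namespace Pool.Agent.TH41.BL

open Pool.Agent.H390R2.LP

/-- smooth compactly supported auxiliary functions of the linear programming bound for sphere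
packings -/
structure AuxS (d : ℕ) (r : ℝ) (f : EuclideanSpace ℝ (Fin d) → ℝ) : Prop extends Aux d r f where
  smooth : ContDiff ℝ ∞ f
  compact : HasCompactSupport f

/-- TE: smooth tent functions -/
def S9_tent : Prop := ∀ n : ℕ, ∃ φ : EuclideanSpace ℝ (Fin n) → ℝ, ContDiff ℝ ∞ φ ∧
  HasCompactSupport φ ∧ Continuous φ ∧ Integrable φ ∧
  ∫ x, φ x = 1 ∧ (∀ x, 0 ≤ φ x) ∧ φ 0 ≤ 2 ∧ (∀ x, (∃ i, 1 ≤ |x i|) → φ x = 0) ∧
  ∃ g : EuclideanSpace ℝ (Fin n) → ℝ, Integrable g ∧ (∀ p, 0 ≤ g p) ∧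
    ∀ p, 𝓕 (fun x => (φ x : ℂ)) p = (g p : ℂ)

/-- CE: the auxiliary function given by an operator -/
def S9_cert : Prop := ∀ (Ω : Type) [Fintype Ω] [DecidableEq Ω] (q : ℕ) (pos : Ω → Fin q) (m : ℕ)
  (T : Matrix (Fin m → Ω) (Fin m → Ω) ℝ) (r D : ℝ), PSD T → 0 < hs T T →
  PSD (Ae pos T - r • T) → 0 < D → -D < r →
  ∃ f : EuclideanSpace ℝ (Fin m) → ℝ, AuxS m (√D + √m) f ∧
    f 0 * ((r + D) * hs T T) ≤ 2 * (D * hs (dgP (bX pos) T) (dgP (bX pos) T)) * ∫ x, f x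

/-- AS: the bound of a site -/
def S9_asm : Prop := ∀ (Ω : Type) [Fintype Ω] [DecidableEq Ω] (q : ℕ) (s : Site Ω (Fin q))
  (D ε : ℝ), s.E (fun (_ : Unit) (x : Fin q) => (x : ℝ)) < D → 0 < D → 0 < ε → ∃ m₀ : ℕ,
  ∀ m ≥ m₀, ∃ f : EuclideanSpace ℝ (Fin m) → ℝ, AuxS m (√(m * D) + √m) f ∧
    f 0 ≤ Real.exp (-(m * (s.h - s.S - ε))) * ∫ x, f x

/-- SC: scaling -/
def S9_sc : Prop := ∀ (d : ℕ) (r t : ℝ) (f : EuclideanSpace ℝ (Fin d) → ℝ), 0 < r → 0 < t →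
  AuxS d r f → AuxS d (t * r) (fun x => f (t⁻¹ • x)) ∧
    dB d (t * r) (fun x => f (t⁻¹ • x)) = dB d r f

/-- EU: the packing exponent of a site (compare `cE`) -/
def S9_euc : Prop := ∀ (Ω : Type) [Fintype Ω] [DecidableEq Ω] (q : ℕ) (s : Site Ω (Fin q))
  (hg ε : ℝ), 0 < hg → 0 < ε → ∃ n₀ : ℕ, ∀ n ≥ n₀, ∀ r : ℝ, 0 < r →
  ∃ f : EuclideanSpace ℝ (Fin n) → ℝ, AuxS n r f ∧
    dB n r f ≤ Real.exp (-(n * (s.h - s.S + Real.log hg - 1 / 2 * Real.log (2 * Real.pi *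
      Real.exp 1) - Real.log ((√(s.E (fun (_ : Unit) (x : Fin q) => hg * (x : ℝ))) + hg) / 2)
        - ε)))

/-- FE: the linear programming bound reaches `(e / 2π)^(n/2)` -/
def S9_fin : Prop := ∀ ε : ℝ, 0 < ε → ∃ n₀ : ℕ, ∀ n ≥ n₀, ∀ r : ℝ, 0 < r →
  ∃ f : EuclideanSpace ℝ (Fin n) → ℝ, AuxS n r f ∧
    dB n r f ≤ Real.exp (-(n * (1 / 2 * Real.log (2 * Real.pi / Real.exp 1) - ε)))

/-- PK: binary codes, arbitrary positive semidefinite kernels -/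
def S9_pk : Prop := ∀ (n d : ℕ) (G : Matrix (Fin n → Bool) (Fin n → Bool) ℝ), PSD G →
  (∀ x y, d ≤ hammingDist x y → G x y ≤ 0) → 0 < ∑ x, ∑ y, G x y →
  ∃ l : ℕ → ℝ, Feas n d l ∧ Vl n l * ∑ x, ∑ y, G x y ≤ 2 ^ n * G.trace * l 0

end Pool.Agent.TH41.BL
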