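import Mathlib
import Pool.Agent.TH41.BL.Stm10
import Pool.Agent.TH41.BL.CE7

/-!
Project BL8, piece PK: binary codes, arbitrary positive semidefinite kernels.
-/

set_option autoImplicit false
set_option linter.unusedVariables false

open MeasureTheory Filter Topology

open scoped FourierTransform

namespace Pool.Agent.TH41.BL.PK9f

open Pool.Agent.TH41.BL

/-- the character of a set of coordinates -/
noncomputable def chi {n : ℕ} (s : Finset (Fin n)) (x : Fin n → Bool) : ℝ :=
  ∏ i ∈ s, (if x i then (-1 : ℝ) else 1)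

lemma chi_mul {n : ℕ} (s : Finset (Fin n)) (x y : Fin n → Bool) :
    chi s x * chi s y = (((-1 : ℤ) ^ (s ∩ (Finset.univ.filter
      fun i : Fin n => x i ≠ y i)).card : ℤ) : ℝ) := by
  unfold chi
  rw [← Finset.prod_mul_distrib]
  have h1 : ∀ i ∈ s, (if x i then (-1 : ℝ) else 1) * (if y i then (-1 : ℝ) else 1) =
      if x i ≠ y i then (-1 : ℝ) else 1 := by
    intro i _
    cases x i <;> cases y i <;> simp
  rw [Finset.prod_congr rfl h1, Finset.prod_ite, Finset.prod_const, Finset.prod_const_one, mul_one]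
  push_cast
  congr 2
  ext i
  simp

lemma hd_le {n : ℕ} (x y : Fin n → Bool) : hammingDist x y ≤ n := by
  have h := hammingDist_le_card_fintype (x := x) (y := y)
  rwa [Fintype.card_fin] at h

/-- the sum of the characters -/
lemma kr_sum (hc : S7_chr) {n : ℕ} (x y : Fin n → Bool) (j : ℕ) :
    (kr n j (hammingDist x y) : ℝ) =
      ∑ s ∈ Finset.powersetCard j (Finset.univ : Finset (Fin n)), chi s x * chi s y := by
  have h1 := hc (Fin n) (Finset.univ.filter fun i : Fin n => x i ≠ y i) j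
  rw [Fintype.card_fin] at h1
  unfold hammingDist
  rw [← h1]
  push_cast
  refine Finset.sum_congr rfl fun s _ => ?_
  rw [chi_mul]
  push_cast
  rfl

/-- the sums -/
noncomputable def SS {n : ℕ} (G : Matrix (Fin n → Bool) (Fin n → Bool) ℝ) (j : ℕ) : ℝ :=
  ∑ x, ∑ y, G x y * (kr n j (hammingDist x y) : ℝ)

lemma SS_eq (hc : S7_chr) {n : ℕ} (G : Matrix (Fin n → Bool) (Fin n → Bool) ℝ) (j : ℕ) :
    SS G j = ∑ s ∈ Finset.powersetCard j (Finset.univ : Finset (Fin n)),
      ∑ x, ∑ y, chi s x * G x y * chi s y := by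
  unfold SS
  rw [Finset.sum_comm (s := Finset.powersetCard j (Finset.univ : Finset (Fin n)))]
  refine Finset.sum_congr rfl fun x _ => ?_
  rw [Finset.sum_comm (s := Finset.powersetCard j (Finset.univ : Finset (Fin n)))]
  refine Finset.sum_congr rfl fun y _ => ?_
  rw [kr_sum hc, Finset.mul_sum]
  refine Finset.sum_congr rfl fun s _ => ?_
  ring

lemma SS_nonneg (hc : S7_chr) {n : ℕ} {G : Matrix (Fin n → Bool) (Fin n → Bool) ℝ}
    (hG : PSD G) (j : ℕ) : 0 ≤ SS G j := by
  rw [SS_eq hc]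
  exact Finset.sum_nonneg fun s _ => hG.2 (chi s)

lemma SS_zero (hc : S7_chr) {n : ℕ} (G : Matrix (Fin n → Bool) (Fin n → Bool) ℝ) :
    SS G 0 = ∑ x, ∑ y, G x y := by
  rw [SS_eq hc, Finset.powersetCard_zero, Finset.sum_singleton]
  refine Finset.sum_congr rfl fun x _ => Finset.sum_congr rfl fun y _ => ?_
  unfold chi
  rw [Finset.prod_empty, Finset.prod_empty, one_mul, mul_one]

/-- the sums of the entries with a given distance -/
noncomputable def FF {n : ℕ} (G : Matrix (Fin n → Bool) (Fin n → Bool) ℝ) (w : ℕ) : ℝ :=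
  ∑ x, ∑ y, if hammingDist x y = w then G x y else 0

lemma FF_nonpos {n d : ℕ} {G : Matrix (Fin n → Bool) (Fin n → Bool) ℝ}
    (h : ∀ x y, d ≤ hammingDist x y → G x y ≤ 0) (w : ℕ) (hw : d ≤ w) : FF G w ≤ 0 := by
  refine Finset.sum_nonpos fun x _ => Finset.sum_nonpos fun y _ => ?_
  split_ifs with h1
  · exact h x y (by omega)
  · exact le_rfl

lemma FF_zero {n : ℕ} (G : Matrix (Fin n → Bool) (Fin n → Bool) ℝ) : FF G 0 = G.trace := by
  unfold FF Matrix.trace
  refine Finset.sum_congr rfl fun x _ => ?_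
  have h : ∀ y ∈ (Finset.univ : Finset (Fin n → Bool)),
      (if hammingDist x y = 0 then G x y else 0) = if x = y then G x y else 0 := by
    intro y _
    by_cases hxy : x = y
    · rw [if_pos hxy, if_pos (hammingDist_eq_zero.2 hxy)]
    · rw [if_neg hxy, if_neg (fun h => hxy (hammingDist_eq_zero.1 h))]
  rw [Finset.sum_congr rfl h, Finset.sum_ite_eq, if_pos (Finset.mem_univ _), Matrix.diag_apply]

/-- the multipliers -/
noncomputable def ll {n : ℕ} (G : Matrix (Fin n → Bool) (Fin n → Bool) ℝ) (j : ℕ) : ℝ :=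
  if j ≤ n then (2 ^ n)⁻¹ * SS G j / (n.choose j : ℝ) else 0

lemma ll_sum {n : ℕ} (G : Matrix (Fin n → Bool) (Fin n → Bool) ℝ) (w : ℕ) (hw : w ≤ n) :
    ∑ j ∈ Finset.range (n + 1), ll G j * (kr n j w : ℝ) = FF G w / (n.choose w : ℝ) := by
  have hcw : ((n.choose w : ℕ) : ℝ) ≠ 0 := by exact_mod_cast (Nat.choose_pos hw).ne'
  have h2 : (2 : ℝ) ^ n ≠ 0 := pow_ne_zero n two_ne_zero
  have e1 : ∀ j ∈ Finset.range (n + 1), ll G j * (kr n j w : ℝ) =
      ∑ x, ∑ y, (G x y * (2 ^ n)⁻¹ / (n.choose w : ℝ)) *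
        ((kr n w j : ℝ) * (kr n j (hammingDist x y) : ℝ)) := by
    intro j hj
    have hj' : j ≤ n := by have := Finset.mem_range.mp hj; omega
    have hcj : ((n.choose j : ℕ) : ℝ) ≠ 0 := by exact_mod_cast (Nat.choose_pos hj').ne'
    unfold ll SS
    rw [if_pos hj']
    have h3 : (kr n j w : ℝ) = (n.choose j : ℝ) * (kr n w j : ℝ) / (n.choose w : ℝ) := by
      rw [CE7f.kr_symm n j w hw]
      field_simp
    rw [h3]
    have h4 : (2 ^ n)⁻¹ * (∑ x, ∑ y, G x y * (kr n j (hammingDist x y) : ℝ)) /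
        (n.choose j : ℝ) * ((n.choose j : ℝ) * (kr n w j : ℝ) / (n.choose w : ℝ)) =
        (∑ x, ∑ y, G x y * (kr n j (hammingDist x y) : ℝ)) *
          ((2 ^ n)⁻¹ * (kr n w j : ℝ) / (n.choose w : ℝ)) := by
      field_simp
    rw [h4, Finset.sum_mul]
    refine Finset.sum_congr rfl fun x _ => ?_
    rw [Finset.sum_mul]
    refine Finset.sum_congr rfl fun y _ => ?_
    ring
  rw [Finset.sum_congr rfl e1, Finset.sum_comm]
  unfold FF
  rw [Finset.sum_div]
  refine Finset.sum_congr rfl fun x _ => ?_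
  rw [Finset.sum_comm, Finset.sum_div]
  refine Finset.sum_congr rfl fun y _ => ?_
  rw [← Finset.mul_sum, KRAf.inv n w (hammingDist x y) (hd_le x y)]
  by_cases h : hammingDist x y = w
  · rw [if_pos h, if_pos h.symm]
    field_simp
  · rw [if_neg h, if_neg (fun h' => h h'.symm)]
    simp

theorem pk9 (hp : S7_pos) (hc : S7_chr) : S9_pk := by
  intro n d G hG hd hs
  have h2 : (0 : ℝ) < 2 ^ n := by positivity
  have hl0 : ll G 0 = (2 ^ n)⁻¹ * ∑ x, ∑ y, G x y := by
    unfold ll
    rw [if_pos (Nat.zero_le _), Nat.choose_zero_right, Nat.cast_one, div_one, SS_zero hc]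
  refine ⟨ll G, ⟨fun j => ?_, ?_, fun w hw1 hw2 => ?_⟩, ?_⟩
  · unfold ll
    split_ifs
    · exact div_nonneg (mul_nonneg (by positivity) (SS_nonneg hc hG j)) (Nat.cast_nonneg _)
    · exact le_rfl
  · rw [hl0]
    exact mul_pos (by positivity) hs
  · rw [ll_sum G w hw2]
    exact div_nonpos_of_nonpos_of_nonneg (FF_nonpos hd w hw1) (Nat.cast_nonneg _)
  · have h3 : Vl n (ll G) = G.trace := by
      have h4 := ll_sum G 0 (Nat.zero_le _)
      rw [Nat.choose_zero_right, Nat.cast_one, div_one, FF_zero] at h4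
      rw [← h4]
      unfold Vl
      refine Finset.sum_congr rfl fun j _ => ?_
      rw [KRAf.kr_zero_right]
      push_cast
      rfl
    rw [h3, hl0]
    refine le_of_eq ?_
    field_simp

end Pool.Agent.TH41.BL.PK9f
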