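import Mathlib
import Pool.Agent.TH41.BL.Stm9
import Pool.Agent.H390R2.LP.Iface2

/-!
Project BL9 (helper41, MP_b5f63d_co): the linear programming bound for spherical codes reaches the
bounds given by one-site states.  Definitions and statements of the pieces.
-/

set_option autoImplicit false

open MeasureTheory Filter Topology

namespace Pool.Agent.TH41.BL

open Pool.Agent.H390R2.LP

/-- the auxiliary functions of the linear programming bound for spherical codes in `S^(n-1)` with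
inner products at most `s` -/
structure SAux (n : ℕ) (s : ℝ) (g : ℝ → ℝ) : Prop where
  continuousOn : ContinuousOn g (Set.Icc (-1) 1)
  posdef : ∀ (m : ℕ) (x : Fin m → EuclideanSpace ℝ (Fin n)) (a : Fin m → ℝ), (∀ i, ‖x i‖ = 1) →
    0 ≤ ∑ i, ∑ j, a i * a j * g (inner ℝ (x i) (x j))
  nonpos : ∀ t : ℝ, -1 ≤ t → t ≤ s → g t ≤ 0

/-- the mean of `g(⟨x, y⟩)` over the sphere: the mean of `g` of the cosine of the angle between two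
independent random points of the unit ball -/
noncomputable def mn (n : ℕ) (g : ℝ → ℝ) : ℝ :=
  (∫ u in Metric.ball (0 : EuclideanSpace ℝ (Fin n)) 1,
    ∫ w in Metric.ball (0 : EuclideanSpace ℝ (Fin n)) 1, g (inner ℝ u w / (‖u‖ * ‖w‖))) /
      (volume (Metric.ball (0 : EuclideanSpace ℝ (Fin n)) 1)).toReal ^ 2

/-- the volume of the unit ball -/
noncomputable def vb (n : ℕ) : ℝ := (volume (Metric.ball (0 : EuclideanSpace ℝ (Fin n)) 1)).toReal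

/-- a grid point -/
noncomputable def zg {q : ℕ} (a₀ hg : ℝ) {n : ℕ} (x : Fin n → Fin q) : EuclideanSpace ℝ (Fin n) :=
  WithLp.toLp 2 fun i => a₀ + hg * ((x i : ℕ) : ℝ)

/-- OP: an operator supported in a shell -/
def S10_op : Prop := ∀ (Ω : Type) [Fintype Ω] [DecidableEq Ω] (q : ℕ) (s : Site Ω (Fin q))
  (a₀ hg α β D ε : ℝ), 0 < hg → 0 ≤ α → α < √(∑ x, s.P x * (a₀ + hg * (x : ℝ)) ^ 2) →
  √(∑ x, s.P x * (a₀ + hg * (x : ℝ)) ^ 2) < β →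
  s.E (fun (_ : Unit) (x : Fin q) => (x : ℝ)) < D → 0 < D → 0 < ε → ∃ m₀ : ℕ,
  ∀ m ≥ m₀, ∃ (T : Matrix (Fin m → Ω) (Fin m → Ω) ℝ) (r : ℝ), PSD T ∧ 0 < hs T T ∧
    PSD (Ae s.pos T - r • T) ∧ -(m * D) < r ∧
    (∀ a b, T a b ≠ 0 → α * √m ≤ ‖zg a₀ hg (fun k => s.pos (a k))‖ ∧
      ‖zg a₀ hg (fun k => s.pos (a k))‖ ≤ β * √m) ∧
    m * D * hs (dgP (bX s.pos) T) (dgP (bX s.pos) T) ≤
      Real.exp (-(m * (s.h - s.S - ε))) * ((r + m * D) * hs T T)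

/-- RO: averaging over rotations -/
def S10_rot : Prop := ∀ (n : ℕ) (G : EuclideanSpace ℝ (Fin n) → EuclideanSpace ℝ (Fin n) → ℝ)
  (s : ℝ), 2 ≤ n →
  ContinuousOn (fun p : EuclideanSpace ℝ (Fin n) × EuclideanSpace ℝ (Fin n) => G p.1 p.2)
    (Metric.sphere 0 1 ×ˢ Metric.sphere 0 1) →
  (∀ (m : ℕ) (x : Fin m → EuclideanSpace ℝ (Fin n)) (a : Fin m → ℝ), (∀ i, ‖x i‖ = 1) →
    0 ≤ ∑ i, ∑ j, a i * a j * G (x i) (x j)) →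
  (∀ x y : EuclideanSpace ℝ (Fin n), ‖x‖ = 1 → ‖y‖ = 1 → inner ℝ x y ≤ s → G x y ≤ 0) →
  ∃ g : ℝ → ℝ, SAux n s g ∧
    (∫ u in Metric.ball (0 : EuclideanSpace ℝ (Fin n)) 1,
      ∫ w in Metric.ball (0 : EuclideanSpace ℝ (Fin n)) 1, g (inner ℝ u w / (‖u‖ * ‖w‖))) =
    (∫ u in Metric.ball (0 : EuclideanSpace ℝ (Fin n)) 1,
      ∫ w in Metric.ball (0 : EuclideanSpace ℝ (Fin n)) 1, G (‖u‖⁻¹ • u) (‖w‖⁻¹ • w)) ∧
    g 1 * vb n =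
      ∫ u in Metric.ball (0 : EuclideanSpace ℝ (Fin n)) 1, G (‖u‖⁻¹ • u) (‖u‖⁻¹ • u)

/-- PL: the cells of the grid seen from the origin -/
def S10_cell : Prop := ∀ (n q : ℕ) (a₀ hg : ℝ), 1 ≤ n → 0 < hg →
  ∃ F : (Fin n → Fin q) → EuclideanSpace ℝ (Fin n) → ℝ,
    (∀ x, ContinuousOn (F x) (Metric.sphere 0 1)) ∧ (∀ x ξ, 0 ≤ F x ξ) ∧
    (∀ x ξ, ‖ξ‖ = 1 → F x ξ ≠ 0 → ∃ r : ℝ, 0 < r ∧ ‖r • ξ - zg a₀ hg x‖ ≤ hg * √n) ∧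
    (∀ x, ∫ u in Metric.ball (0 : EuclideanSpace ℝ (Fin n)) 1, F x (‖u‖⁻¹ • u) = hg ^ n / n) ∧
    (∀ (Y : Finset (Fin n → Fin q)) (R : ℝ) (ξ : EuclideanSpace ℝ (Fin n)), 0 ≤ R → ‖ξ‖ = 1 →
      (∀ y ∈ Y, ‖zg a₀ hg y‖ + hg * √n ≤ R) → ∑ y ∈ Y, F y ξ ≤ R ^ n / n)

/-- KE: from kernels on the grid to functions on the sphere -/
def S10_ker : Prop := ∀ (n q : ℕ) (a₀ hg A B D sd : ℝ) (k : (Fin n → Fin q) → (Fin n → Fin q) → ℝ),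
  2 ≤ n → 0 < hg → hg * √n ≤ A → A ≤ B → 0 ≤ D → 0 ≤ sd →
  hg * √D + 2 * (hg * √n) ≤ (A - hg * √n) * sd →
  (∀ x y, k x y = k y x) → (∀ a : (Fin n → Fin q) → ℝ, 0 ≤ ∑ x, ∑ y, a x * k x y * a y) →
  (∀ x y, k x y ≠ 0 → A ≤ ‖zg a₀ hg x‖ ∧ ‖zg a₀ hg x‖ ≤ B) →
  (∀ x y, D ≤ ∑ i, (((x i : ℕ) : ℝ) - ((y i : ℕ) : ℝ)) ^ 2 → k x y ≤ 0) →
  0 < ∑ x, ∑ y, k x y →
  ∃ g : ℝ → ℝ, SAux n (1 - sd ^ 2 / 2) g ∧ 0 < mn n g ∧
    g 1 / mn n g ≤ vb n * (B + hg * √n) ^ n / hg ^ n * ((∑ x, k x x) / ∑ x, ∑ y, k x y)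

/-- CB: the bound of a site for spherical codes -/
def S10_code : Prop := ∀ (Ω : Type) [Fintype Ω] [DecidableEq Ω] (q : ℕ) (s : Site Ω (Fin q))
  (a₀ hg α β sd ε : ℝ), 0 < hg → hg ≤ α → α < √(∑ x, s.P x * (a₀ + hg * (x : ℝ)) ^ 2) →
  √(∑ x, s.P x * (a₀ + hg * (x : ℝ)) ^ 2) < β → 0 ≤ sd → 2 * hg < (α - hg) * sd →
  s.E (fun (_ : Unit) (x : Fin q) => hg * (x : ℝ)) < ((α - hg) * sd - 2 * hg) ^ 2 → 0 < ε →
  ∃ n₀ : ℕ, ∀ n ≥ n₀, ∃ g : ℝ → ℝ, SAux n (1 - sd ^ 2 / 2) g ∧ 0 < mn n g ∧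
    g 1 / mn n g ≤ Real.exp (n * (1 / 2 * Real.log (2 * Real.pi * Real.exp 1) +
      Real.log (β + hg) - Real.log hg - s.h + s.S + ε))

end Pool.Agent.TH41.BL
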