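import Mathlib
import Pool.Agent.TH41.BL.Stm11
import Pool.Agent.H390R2.LP.EuclidB

set_option autoImplicit false

open MeasureTheory Filter Topology

namespace Pool.Agent.TH41.BL.CB10f

open Pool.Agent.TH41.BL

open Pool.Agent.H390R2.LP in
lemma E_scale {Ω : Type} [Fintype Ω] [DecidableEq Ω] {q : ℕ} (s : Site Ω (Fin q)) (hg : ℝ) :
    s.E (fun (_ : Unit) (x : Fin q) => hg * (x : ℝ)) =
      hg ^ 2 * s.E (fun (_ : Unit) (x : Fin q) => (x : ℝ)) := by
  unfold Site.E
  simp only [Finset.univ_unique, Finset.sum_singleton]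
  have h1 : ∑ a, s.lam a * ∑ ω, s.u a ω ^ 2 * (hg * ((s.pos ω : ℕ) : ℝ)) ^ 2 =
      hg ^ 2 * ∑ a, s.lam a * ∑ ω, s.u a ω ^ 2 * ((s.pos ω : ℕ) : ℝ) ^ 2 := by
    rw [Finset.mul_sum]
    refine Finset.sum_congr rfl fun a _ => ?_
    rw [Finset.mul_sum, Finset.mul_sum, Finset.mul_sum]
    refine Finset.sum_congr rfl fun ω _ => ?_
    ring
  have h2 : ∑ a, ∑ b, √(s.lam a * s.lam b) *
      (∑ ω, s.u a ω * (hg * ((s.pos ω : ℕ) : ℝ)) * s.u b ω) ^ 2 =
      hg ^ 2 * ∑ a, ∑ b, √(s.lam a * s.lam b) *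
        (∑ ω, s.u a ω * ((s.pos ω : ℕ) : ℝ) * s.u b ω) ^ 2 := by
    rw [Finset.mul_sum]
    refine Finset.sum_congr rfl fun a _ => ?_
    rw [Finset.mul_sum]
    refine Finset.sum_congr rfl fun b _ => ?_
    have h3 : ∑ ω, s.u a ω * (hg * ((s.pos ω : ℕ) : ℝ)) * s.u b ω =
        hg * ∑ ω, s.u a ω * ((s.pos ω : ℕ) : ℝ) * s.u b ω := by
      rw [Finset.mul_sum]
      refine Finset.sum_congr rfl fun ω _ => ?_
      ring
    rw [h3]
    ring
  rw [h1, h2]
  ring

lemma push {V X : Type} [Fintype V] [Fintype X] [DecidableEq X] (P : V → X) (v : V → V → ℝ)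
    (w : X → X → ℝ) :
    ∑ x, ∑ y, w x y * (∑ a, ∑ b, if P a = x ∧ P b = y then v a b else 0) =
      ∑ a, ∑ b, w (P a) (P b) * v a b := by
  simp only [Finset.mul_sum]
  have e : ∀ x : X, ∑ y, ∑ a, ∑ b, w x y * (if P a = x ∧ P b = y then v a b else 0) =
      ∑ a, ∑ b, ∑ y, w x y * (if P a = x ∧ P b = y then v a b else 0) := by
    intro x
    rw [Finset.sum_comm]
    refine Finset.sum_congr rfl fun a _ => ?_
    rw [Finset.sum_comm]
  calc ∑ x, ∑ y, ∑ a, ∑ b, w x y * (if P a = x ∧ P b = y then v a b else 0)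
      = ∑ x, ∑ a, ∑ b, ∑ y, w x y * (if P a = x ∧ P b = y then v a b else 0) :=
        Finset.sum_congr rfl fun x _ => e x
    _ = ∑ a, ∑ x, ∑ b, ∑ y, w x y * (if P a = x ∧ P b = y then v a b else 0) :=
        Finset.sum_comm
    _ = ∑ a, ∑ b, ∑ x, ∑ y, w x y * (if P a = x ∧ P b = y then v a b else 0) :=
        Finset.sum_congr rfl fun a _ => Finset.sum_comm
    _ = ∑ a, ∑ b, w (P a) (P b) * v a b := by
        refine Finset.sum_congr rfl fun a _ => Finset.sum_congr rfl fun b _ => ?_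
        rw [Finset.sum_eq_single (P a), Finset.sum_eq_single (P b), if_pos ⟨rfl, rfl⟩]
        · intro y _ hy
          rw [if_neg (fun h => hy h.2.symm), mul_zero]
        · intro h
          exact absurd (Finset.mem_univ _) h
        · intro x _ hx
          refine Finset.sum_eq_zero fun y _ => ?_
          rw [if_neg (fun h => hx h.1.symm), mul_zero]
        · intro h
          exact absurd (Finset.mem_univ _) h

lemma hd_zero {Ω : Type} {q : ℕ} (pos : Ω → Fin q) {m : ℕ} (a b : Fin m → Ω) :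
    hd (bX pos) a b = 0 ↔ (fun i => pos (a i)) = fun i => pos (b i) := by
  unfold hd bX
  rw [Finset.card_eq_zero, Finset.filter_eq_empty_iff]
  constructor
  · intro h
    funext i
    have h1 := h (x := (i, pos (b i))) (Finset.mem_univ _)
    simp only [decide_true, ne_eq, decide_eq_true_eq, not_not] at h1
    exact h1
  · intro h p _
    have h1 : pos (a p.1) = pos (b p.1) := congrFun h p.1
    rw [h1]
    simp

lemma sd_comm {Ω : Type} {q : ℕ} (pos : Ω → Fin q) {m : ℕ} (a b : Fin m → Ω) :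
    sd pos a b = sd pos b a := by
  unfold sd
  refine Finset.sum_congr rfl fun k _ => ?_
  ring

lemma sd_pos {Ω : Type} {q : ℕ} (pos : Ω → Fin q) {m : ℕ} (a b : Fin m → Ω) :
    sd pos a b = ∑ i, (((pos (a i) : ℕ) : ℝ) - ((pos (b i) : ℕ) : ℝ)) ^ 2 := rfl

theorem cb10 (hp : S7_pos) (hq : S8_alg) (ho : S10_op) (hk : S10_ker) : S10_code := by
  intro Ω _ _ q s a₀ hg α β sd' ε hg0 hgα hα hβ hsd hsd2 hE hε
  obtain ⟨E₁, hE₁⟩ : ∃ E₁ : ℝ, E₁ = s.E (fun (_ : Unit) (x : Fin q) => (x : ℝ)) := ⟨_, rfl⟩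
  obtain ⟨X, hX⟩ : ∃ X : ℝ, X = (α - hg) * sd' - 2 * hg := ⟨_, rfl⟩
  have hX0 : 0 < X := by linarith
  rw [E_scale, ← hE₁, ← hX] at hE
  have hE2 : E₁ < X ^ 2 / hg ^ 2 := by
    rw [lt_div_iff₀ (by positivity)]
    linarith
  have hXg : 0 < X ^ 2 / hg ^ 2 := by positivity
  obtain ⟨D, hD0, hDE, hDX⟩ : ∃ D : ℝ, 0 < D ∧ E₁ < D ∧ D < X ^ 2 / hg ^ 2 := by
    obtain ⟨D, h1, h2⟩ := exists_between (max_lt hE2 hXg)
    exact ⟨D, (le_max_right _ _).trans_lt h1, (le_max_left _ _).trans_lt h1, h2⟩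
  have hsqD : hg * √D ≤ X := by
    have h1 : √D ≤ X / hg := by
      rw [Real.sqrt_le_left (by positivity), div_pow]
      exact hDX.le
    rw [le_div_iff₀ hg0] at h1
    linarith
  have hα0 : 0 ≤ α := hg0.le.trans hgα
  have hβ0 : 0 < β := lt_of_le_of_lt (Real.sqrt_nonneg _) hβ
  have hαβ : α ≤ β := (hα.trans hβ).le
  obtain ⟨m₀, hm₀⟩ := ho Ω q s a₀ hg α β D (ε / 2) hg0 hα0 hα hβ (by rw [← hE₁]; exact hDE) hD0
    (by positivity)
  refine ⟨m₀ + 2, fun n hn => ?_⟩
  obtain ⟨T, r, hT, hTT, hAT, hr, hsup, hdg⟩ := hm₀ n (by omega)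
  have hn2 : 2 ≤ n := by omega
  have hn0 : (0 : ℝ) < n := by
    have : 0 < n := by omega
    exact_mod_cast this
  have hsn : 0 < √(n : ℝ) := Real.sqrt_pos.2 hn0
  have hTs : ∀ a b, T a b = T b a := by
    intro a b
    have := congrFun (congrFun hT.1 b) a
    exact this
  -- the matrix `n D T + Ae T`
  obtain ⟨B, hB⟩ : ∃ B : Matrix (Fin n → Ω) (Fin n → Ω) ℝ,
      B = Matrix.of fun a b => ((n : ℝ) * D - sd s.pos a b) * T a b := ⟨_, rfl⟩
  have hBe : ∀ a b, B a b = (Ae s.pos T - r • T) a b + (r + n * D) * T a b := by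
    intro a b
    rw [hB]
    unfold Ae
    simp only [Matrix.of_apply, Matrix.sub_apply, Matrix.smul_apply, smul_eq_mul]
    ring
  have hrD : 0 < r + n * D := by linarith
  have hBpsd : PSD B := by
    refine ⟨?_, ?_⟩
    · ext a b
      rw [Matrix.transpose_apply, hB]
      simp only [Matrix.of_apply]
      rw [hTs b a, sd_comm s.pos b a]
    · intro x
      have h1 := hAT.2 x
      have h2 := hT.2 x
      have h3 : ∑ a, ∑ b, x a * B a b * x b = ∑ a, ∑ b, x a * (Ae s.pos T - r • T) a b * x b +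
          (r + n * D) * ∑ a, ∑ b, x a * T a b * x b := by
        rw [Finset.mul_sum, ← Finset.sum_add_distrib]
        refine Finset.sum_congr rfl fun a _ => ?_
        rw [Finset.mul_sum, ← Finset.sum_add_distrib]
        refine Finset.sum_congr rfl fun b _ => ?_
        rw [hBe]
        ring
      rw [h3]
      have h4 := mul_nonneg hrD.le h2
      linarith
  have hTB : (r + n * D) * hs T T ≤ hs T B := by
    have h1 := hp.1 (Fin n → Ω) T (Ae s.pos T - r • T) hT hAT
    have h2 : hs T B = hs T (Ae s.pos T - r • T) + (r + n * D) * hs T T := by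
      unfold hs
      rw [Finset.mul_sum, ← Finset.sum_add_distrib]
      refine Finset.sum_congr rfl fun a _ => ?_
      rw [Finset.mul_sum, ← Finset.sum_add_distrib]
      refine Finset.sum_congr rfl fun b _ => ?_
      rw [hBe]
      ring
    rw [h2]
    linarith
  -- the kernel
  obtain ⟨P, hP⟩ : ∃ P : (Fin n → Ω) → (Fin n → Fin q), P = fun a i => s.pos (a i) := ⟨_, rfl⟩
  obtain ⟨v, hv⟩ : ∃ v : (Fin n → Ω) → (Fin n → Ω) → ℝ,
      v = fun a b => ((n : ℝ) * D - sd s.pos a b) * T a b ^ 2 := ⟨_, rfl⟩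
  obtain ⟨k, hkd⟩ : ∃ k : (Fin n → Fin q) → (Fin n → Fin q) → ℝ,
      k = fun x y => ∑ a, ∑ b, if P a = x ∧ P b = y then v a b else 0 := ⟨_, rfl⟩
  have hpush : ∀ w : (Fin n → Fin q) → (Fin n → Fin q) → ℝ,
      ∑ x, ∑ y, w x y * k x y = ∑ a, ∑ b, w (P a) (P b) * v a b := by
    intro w
    rw [hkd]
    exact push P v w
  have hvs : ∀ a b, v a b = v b a := by
    intro a b
    rw [hv]
    simp only
    rw [hTs a b, sd_comm s.pos a b]
  have hksym : ∀ x y, k x y = k y x := by
    intro x y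
    rw [hkd]
    simp only
    rw [Finset.sum_comm]
    refine Finset.sum_congr rfl fun a _ => Finset.sum_congr rfl fun b _ => ?_
    rw [hvs b a]
    by_cases h : P b = x ∧ P a = y
    · rw [if_pos h, if_pos ⟨h.2, h.1⟩]
    · rw [if_neg h, if_neg (fun h' => h ⟨h'.2, h'.1⟩)]
  have hkpsd : ∀ c : (Fin n → Fin q) → ℝ, 0 ≤ ∑ x, ∑ y, c x * k x y * c y := by
    intro c
    have h1 := hpush (fun x y => c x * c y)
    have h2 : ∑ x, ∑ y, c x * k x y * c y = ∑ x, ∑ y, c x * c y * k x y := by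
      refine Finset.sum_congr rfl fun x _ => Finset.sum_congr rfl fun y _ => ?_
      ring
    rw [h2, h1]
    have h3 := hp.1 (Fin n → Ω) _ B (hp.2.1 (Fin n → Ω) (fun a => c (P a)) T hT) hBpsd
    unfold hs at h3
    refine h3.trans (le_of_eq ?_)
    refine Finset.sum_congr rfl fun a _ => Finset.sum_congr rfl fun b _ => ?_
    rw [hB, hv]
    simp only [Matrix.of_apply]
    ring
  have hkne : ∀ x y, k x y ≠ 0 → α * √n ≤ ‖zg a₀ hg x‖ ∧ ‖zg a₀ hg x‖ ≤ β * √n := by
    intro x y hxy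
    rw [hkd] at hxy
    simp only at hxy
    obtain ⟨a, _, ha⟩ := Finset.exists_ne_zero_of_sum_ne_zero hxy
    obtain ⟨b, _, hb⟩ := Finset.exists_ne_zero_of_sum_ne_zero ha
    by_cases h : P a = x ∧ P b = y
    · rw [if_pos h, hv] at hb
      simp only at hb
      have hTab : T a b ≠ 0 := by
        intro h0
        apply hb
        rw [h0]
        ring
      have h1 := hsup a b hTab
      rw [← h.1, hP]
      exact h1
    · rw [if_neg h] at hb
      exact absurd rfl hb
  have hkle : ∀ x y, (n : ℝ) * D ≤ ∑ i, (((x i : ℕ) : ℝ) - ((y i : ℕ) : ℝ)) ^ 2 → k x y ≤ 0 := by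
    intro x y hxy
    rw [hkd]
    simp only
    refine Finset.sum_nonpos fun a _ => Finset.sum_nonpos fun b _ => ?_
    by_cases h : P a = x ∧ P b = y
    · rw [if_pos h, hv]
      simp only
      have h1 : sd s.pos a b = ∑ i, (((x i : ℕ) : ℝ) - ((y i : ℕ) : ℝ)) ^ 2 := by
        rw [← h.1, ← h.2, hP]
        rfl
      rw [h1]
      exact mul_nonpos_of_nonpos_of_nonneg (by linarith) (sq_nonneg _)
    · rw [if_neg h]
  have hsum : ∑ x, ∑ y, k x y = hs T B := by
    have h1 := hpush (fun _ _ => 1)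
    simp only [one_mul] at h1
    rw [h1]
    unfold hs
    refine Finset.sum_congr rfl fun a _ => Finset.sum_congr rfl fun b _ => ?_
    rw [hv, hB]
    simp only [Matrix.of_apply]
    ring
  have hsum0 : 0 < ∑ x, ∑ y, k x y := by
    rw [hsum]
    exact lt_of_lt_of_le (mul_pos hrD hTT) hTB
  have hdiag : ∑ x, k x x = n * D * hs (dgP (bX s.pos) T) (dgP (bX s.pos) T) := by
    have h1 := hpush (fun x y => if x = y then 1 else 0)
    have h2 : ∑ x, ∑ y, (if x = y then (1 : ℝ) else 0) * k x y = ∑ x, k x x := by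
      refine Finset.sum_congr rfl fun x _ => ?_
      rw [Finset.sum_eq_single x]
      · rw [if_pos rfl, one_mul]
      · intro y _ hy
        rw [if_neg (fun h => hy h.symm), zero_mul]
      · intro h
        exact absurd (Finset.mem_univ _) h
    rw [← h2, h1]
    unfold hs
    rw [Finset.mul_sum]
    refine Finset.sum_congr rfl fun a _ => ?_
    rw [Finset.mul_sum]
    refine Finset.sum_congr rfl fun b _ => ?_
    unfold dgP
    simp only [Matrix.of_apply]
    have h3 := hd_zero s.pos a b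
    by_cases h : P a = P b
    · have h4 : hd (bX s.pos) a b = 0 := by
        rw [h3]
        rw [hP] at h
        exact h
      rw [if_pos h, if_pos h4, hv]
      simp only
      have h5 : sd s.pos a b = 0 := by
        rw [hP] at h
        unfold sd
        refine Finset.sum_eq_zero fun i _ => ?_
        have := congrFun h i
        simp only at this
        rw [this]
        ring
      rw [h5]
      ring
    · have h4 : ¬ hd (bX s.pos) a b = 0 := by
        rw [h3]
        rw [hP] at h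
        exact h
      rw [if_neg h, if_neg h4]
      ring
  have hcond : hg * √((n : ℝ) * D) + 2 * (hg * √n) ≤ (α * √n - hg * √n) * sd' := by
    rw [Real.sqrt_mul hn0.le]
    have h1 : hg * √D + 2 * hg ≤ (α - hg) * sd' := by linarith
    have h2 := mul_le_mul_of_nonneg_right h1 hsn.le
    nlinarith
  obtain ⟨g, hg1, hg2, hg3⟩ := hk n q a₀ hg (α * √n) (β * √n) (n * D) sd' k hn2 hg0
    (mul_le_mul_of_nonneg_right hgα hsn.le) (mul_le_mul_of_nonneg_right hαβ hsn.le)
    (by positivity) hsd hcond hksym hkpsd hkne hkle hsum0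
  refine ⟨g, hg1, hg2, hg3.trans ?_⟩
  have hrat : (∑ x, k x x) / ∑ x, ∑ y, k x y ≤ Real.exp (-(n * (s.h - s.S - ε / 2))) := by
    rw [div_le_iff₀ hsum0, hdiag]
    refine hdg.trans (mul_le_mul_of_nonneg_left ?_ (Real.exp_pos _).le)
    rw [hsum]
    exact hTB
  have hvol : vb n ≤ √(2 * Real.pi * Real.exp 1 / n) ^ n := by
    have h1 := Pool.Agent.H390R2.LP.volume_ball_le n (by omega) 0 1 (by positivity)
    have h2 := ENNReal.toReal_mono ENNReal.ofReal_ne_top h1
    rw [ENNReal.toReal_ofReal (by positivity), mul_one] at h2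
    exact h2
  have hvb0 : 0 ≤ vb n := ENNReal.toReal_nonneg
  have hrat0 : 0 ≤ (∑ x, k x x) / ∑ x, ∑ y, k x y := by
    rw [hdiag]
    apply div_nonneg _ hsum0.le
    apply mul_nonneg (by positivity)
    unfold hs
    exact Finset.sum_nonneg fun a _ => Finset.sum_nonneg fun b _ => mul_self_nonneg _
  have hfac : 0 < (β * √n + hg * √n) ^ n / hg ^ n := by positivity
  calc vb n * (β * √n + hg * √n) ^ n / hg ^ n * ((∑ x, k x x) / ∑ x, ∑ y, k x y)
      = vb n * ((β * √n + hg * √n) ^ n / hg ^ n) * ((∑ x, k x x) / ∑ x, ∑ y, k x y) := by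
        rw [mul_div_assoc]
    _ ≤ √(2 * Real.pi * Real.exp 1 / n) ^ n * ((β * √n + hg * √n) ^ n / hg ^ n) *
        Real.exp (-(n * (s.h - s.S - ε / 2))) := by
        apply mul_le_mul (mul_le_mul_of_nonneg_right hvol hfac.le) hrat hrat0
        positivity
    _ = (√(2 * Real.pi * Real.exp 1) * (β + hg) / hg) ^ n *
        Real.exp (-(n * (s.h - s.S - ε / 2))) := by
        congr 1
        rw [← div_pow, ← mul_pow]
        congr 1
        rw [Real.sqrt_div (by positivity)]
        field_simp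
    _ = Real.exp (n * (1 / 2 * Real.log (2 * Real.pi * Real.exp 1) + Real.log (β + hg) -
        Real.log hg)) * Real.exp (-(n * (s.h - s.S - ε / 2))) := by
        congr 1
        have h1 : √(2 * Real.pi * Real.exp 1) * (β + hg) / hg =
            Real.exp (1 / 2 * Real.log (2 * Real.pi * Real.exp 1) + Real.log (β + hg) -
              Real.log hg) := by
          rw [Real.exp_sub, Real.exp_add, Real.exp_log (by positivity), Real.exp_log hg0]
          congr 2
          rw [Real.sqrt_eq_rpow, Real.rpow_def_of_pos (by positivity)]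
          congr 1
          ring
        rw [h1, ← Real.exp_nat_mul]
    _ ≤ Real.exp (n * (1 / 2 * Real.log (2 * Real.pi * Real.exp 1) +
      Real.log (β + hg) - Real.log hg - s.h + s.S + ε)) := by
        rw [← Real.exp_add]
        apply Real.exp_le_exp.2
        have : 0 < (n : ℝ) * (ε / 2) := by positivity
        nlinarith

end Pool.Agent.TH41.BL.CB10f
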