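import Mathlib
import Pool.Agent.TH41.BL.Stm11
import Pool.Agent.TH41.SC.Kiss
import Pool.Agent.TH41.SC.Fin

/-!
Project BL9 (helper41, MP_b5f63d_co): the linear programming bound for spherical codes.  The closed
form.
-/

set_option autoImplicit false

open MeasureTheory Filter Topology

namespace Pool.Agent.TH41.BL

open Pool.Agent.W259.GP Pool.Agent.W48.KS Pool.Agent.TH41.SC

/-- the linear programming bound for spherical codes of minimal distance `sd` has exponent at most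
`β` -/
def SLP (sd β : ℝ) : Prop := ∀ ε : ℝ, 0 < ε → ∃ N0 : ℕ, ∀ N ≥ N0, ∃ g : ℝ → ℝ,
  SAux N (1 - sd ^ 2 / 2) g ∧ 0 < mn N g ∧ g 1 / mn N g ≤ Real.exp (N * (β + ε))

/-- GA: Gaussian states -/
def S10_gauss : Prop := ∀ {n : ℕ} {O : Fin (n + 1) → Fin (n + 1) → ℝ} {c : Fin (n + 1) → ℝ}
    {O' : Fin n → Fin n → ℝ} {c' : Fin n → ℝ}, IsOrth O → IsOrth O' →
    (∀ j, 0 < c j) → (∀ j, 0 < c' j) →
    (∀ i l : Fin n, QM O c i.succ l.succ = QM O' c' i l) → ∀ {sd : ℝ}, 0 < sd →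
    ∑ j, O j 0 ^ 2 * eC (c j) < 1 / 2 * sd ^ 2 → SLP sd (∑ j, gH (c j) - ∑ j, gH (c' j))

/-- MX: finitely supported distributions -/
def S10_mx : Prop := ∀ {n : ℕ} {w c : Fin (n + 1) → ℝ}, (∀ j, 0 < w j) → ∑ j, w j = 1 →
    (∀ j, 0 < c j) → ∀ {sd : ℝ}, 0 < sd →
    1 - sd ^ 2 / 2 < ∑ j, w j * ph (c j) → SLP sd (mx w c)

/-- MN: the limiting bound -/
def S10_main : Prop := ∀ {r : ℝ}, 0 < r → r < 1 → ∀ {sd : ℝ}, 0 < sd →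
    (1 - sd ^ 2 / 2) * ∑' k, a r k ≤ ∑' k, a r k * ph (cc r (2 * k + 1)) → SLP sd (Φ r)

/-- FI: the closed form, and kissing numbers -/
def S10_fin : Prop :=
  (∀ κ η : ℝ, κ < 1 → 0 < η → κ * oddSum η ≤ evenSum η → ∀ ε : ℝ, 0 < ε →
    ∀ᶠ n : ℕ in atTop, ∃ g : ℝ → ℝ, SAux n κ g ∧ 0 < mn n g ∧
      g 1 / mn n g ≤ Real.exp (n * (Ψ η + ε))) ∧
  ∀ᶠ n : ℕ in atTop, ∃ g : ℝ → ℝ, SAux n (1 / 2) g ∧ 0 < mn n g ∧
    g 1 / mn n g ≤ (2 : ℝ) ^ ((396601 / 1000000 : ℝ) * n)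

end Pool.Agent.TH41.BL
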