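import Mathlib
import Pool.Agent.TH41.BL.Stm12
import Pool.Agent.W48.KS.Gauss

set_option autoImplicit false

open MeasureTheory Filter Topology

namespace Pool.Agent.TH41.BL.GA10f

open Pool.Agent.TH41.BL

open Pool.Agent.H390R2.LP Pool.Agent.W259.GP Pool.Agent.W48.KS in
theorem ga10 (hc : S10_code) : S10_gauss := by
  intro n O c O' c' hO hO' hc0 hc' hQ sd hsd hE ε hε
  set E0 := ∑ j, O j 0 ^ 2 * eC (c j) with hE0
  -- choice of `δ`
  have hδ : Tendsto (fun δ : ℝ => δ) (𝓝[>] 0) (𝓝 0) := tendsto_id.mono_left nhdsWithin_le_nhds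
  have hlimα : Tendsto (fun δ : ℝ => √(1 / 2 - δ) - 2 * δ) (𝓝[>] 0) (𝓝 (√(1 / 2))) := by
    have : Tendsto (fun δ : ℝ => √(1 / 2 - δ) - 2 * δ) (𝓝 0) (𝓝 (√(1 / 2 - 0) - 2 * 0)) := by
      apply Continuous.tendsto
      fun_prop
    simp only [sub_zero, mul_zero] at this
    exact this.mono_left nhdsWithin_le_nhds
  have hlimβ : Tendsto (fun δ : ℝ => Real.log (√(1 / 2 + δ) + 2 * δ)) (𝓝[>] 0)
      (𝓝 (Real.log (√(1 / 2)))) := by
    have : Tendsto (fun δ : ℝ => √(1 / 2 + δ) + 2 * δ) (𝓝 0) (𝓝 (√(1 / 2 + 0) + 2 * 0)) := by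
      apply Continuous.tendsto
      fun_prop
    simp only [add_zero, mul_zero] at this
    exact (this.mono_left nhdsWithin_le_nhds).log (Real.sqrt_pos.mpr (by norm_num)).ne'
  have hδ2 : Tendsto (fun δ : ℝ => 2 * δ) (𝓝[>] 0) (𝓝 0) := by
    have := hδ.const_mul 2
    rwa [mul_zero] at this
  have hs2 : √(1 / 2 : ℝ) ^ 2 = 1 / 2 := Real.sq_sqrt (by norm_num)
  have hs0 : 0 < √(1 / 2 : ℝ) := Real.sqrt_pos.mpr (by norm_num)
  have l1 : Tendsto (fun δ : ℝ => ((√(1 / 2 - δ) - 2 * δ) * sd - 2 * δ) ^ 2 - δ) (𝓝[>] 0)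
      (𝓝 (1 / 2 * sd ^ 2)) := by
    have := ((((hlimα.mul_const sd).sub hδ2).pow 2).sub hδ)
    simp only [sub_zero, mul_pow, hs2] at this
    exact this
  have l2 : Tendsto (fun δ : ℝ => (√(1 / 2 - δ) - 2 * δ) * sd - 2 * δ) (𝓝[>] 0)
      (𝓝 (√(1 / 2) * sd)) := by
    have := (hlimα.mul_const sd).sub hδ2
    simpa using this
  have l3 : Tendsto (fun δ : ℝ => Real.log (√(1 / 2 + δ) + 2 * δ) + δ) (𝓝[>] 0)
      (𝓝 (Real.log (√(1 / 2)))) := by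
    have := hlimβ.add hδ
    simpa using this
  have hlog : Real.log (√(1 / 2)) = -(1 / 2 * Real.log 2) := by
    rw [Real.log_sqrt (by norm_num), one_div, Real.log_inv]
    ring
  have ev := ((l1.eventually_const_lt hE).and ((l2.eventually_const_lt (mul_pos hs0 hsd)).and
    ((l3.eventually_lt_const (show Real.log (√(1 / 2)) < -(1 / 2 * Real.log 2) + ε / 2 by
      rw [hlog]; linarith)).and ((hlimα.eventually_const_lt hs0).and
      ((hδ.eventually_lt_const (show (0 : ℝ) < 1 / 2 by norm_num)).and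
      (self_mem_nhdsWithin : ∀ᶠ δ : ℝ in 𝓝[>] 0, δ ∈ Set.Ioi (0 : ℝ)))))))
  obtain ⟨δ, d1, d2, d3, d4, d5, d6⟩ := ev.exists
  have hδ0 : 0 < δ := d6
  obtain ⟨Ω, i1, i2, q, s, a0, hg, hg0, hgδ, g1, g2, g3⟩ :=
    gauss2 n O c O' c' hO hO' hc0 hc' hQ δ hδ0
  set M2 := ∑ x, s.P x * (a0 + hg * (x : ℝ)) ^ 2 with hM2
  rw [abs_lt] at g2
  have hM2l : √(1 / 2 - δ) ≤ √M2 := Real.sqrt_le_sqrt (by linarith [g2.1])
  have hM2u : √M2 ≤ √(1 / 2 + δ) := Real.sqrt_le_sqrt (by linarith [g2.2])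
  have hX : (√(1 / 2 - δ) - 2 * δ) * sd - 2 * δ ≤ ((√(1 / 2 - δ) - δ) - hg) * sd - 2 * hg := by
    have h1 : (√(1 / 2 - δ) - 2 * δ) * sd ≤ ((√(1 / 2 - δ) - δ) - hg) * sd :=
      mul_le_mul_of_nonneg_right (by linarith) hsd.le
    linarith
  have d2' : 0 < (√(1 / 2 - δ) - 2 * δ) * sd - 2 * δ := d2
  obtain ⟨N0, hN0⟩ := hc Ω q s a0 hg (√(1 / 2 - δ) - δ) (√(1 / 2 + δ) + δ) sd (ε / 2) hg0
    (by linarith)
    (by rw [← hM2]; linarith) (by rw [← hM2]; linarith) hsd.le (by linarith)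
    (by
      have h2 : ((√(1 / 2 - δ) - 2 * δ) * sd - 2 * δ) ^ 2 ≤
          (((√(1 / 2 - δ) - δ) - hg) * sd - 2 * hg) ^ 2 := pow_le_pow_left₀ d2'.le hX 2
      linarith) (by positivity)
  refine ⟨N0, fun N hN => ?_⟩
  obtain ⟨g, k1, k2, k3⟩ := hN0 N hN
  refine ⟨g, k1, k2, k3.trans ?_⟩
  apply Real.exp_le_exp.mpr
  apply mul_le_mul_of_nonneg_left _ (Nat.cast_nonneg N)
  have hl2 : Real.log (2 * Real.pi * Real.exp 1) = Real.log 2 + Real.log Real.pi + 1 := by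
    rw [Real.log_mul (by positivity) (Real.exp_pos 1).ne', Real.log_exp,
      Real.log_mul two_ne_zero Real.pi_ne_zero]
  have hlg : Real.log (√(1 / 2 + δ) + δ + hg) ≤ Real.log (√(1 / 2 + δ) + 2 * δ) := by
    apply Real.log_le_log
    · positivity
    · linarith
  rw [hl2]
  linarith

end Pool.Agent.TH41.BL.GA10f
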