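import Mathlib
import Pool.Agent.TH41.BL.Stm11

set_option autoImplicit false

open MeasureTheory Filter Topology

namespace Pool.Agent.TH41.BL.KE10f

open Pool.Agent.TH41.BL

section kernel

variable {ι : Type} [Fintype ι] [DecidableEq ι] {k : ι → ι → ℝ}

theorem diag_nonneg (hk : ∀ a : ι → ℝ, 0 ≤ ∑ x, ∑ y, a x * k x y * a y) (x : ι) : 0 ≤ k x x := by
  have h := hk (Pi.single x 1)
  simpa [Pi.single_apply] using h

theorem two_le (hs : ∀ x y, k x y = k y x) (hk : ∀ a : ι → ℝ, 0 ≤ ∑ x, ∑ y, a x * k x y * a y)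
    (x y : ι) : k x y ≤ (k x x + k y y) / 2 := by
  have h := hk (fun z => (if z = x then 1 else 0) - (if z = y then 1 else 0))
  have h1 : ∑ z, ∑ w, ((if z = x then (1 : ℝ) else 0) - (if z = y then 1 else 0)) * k z w *
      ((if w = x then 1 else 0) - (if w = y then 1 else 0)) =
      k x x - k x y - k y x + k y y := by
    simp only [sub_mul, mul_sub, Finset.sum_sub_distrib, ite_mul, one_mul, zero_mul, mul_ite,
      mul_one, mul_zero, Finset.sum_ite_eq', Finset.mem_univ, if_true]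
    ring
  rw [h1, hs y x] at h
  linarith

end kernel

theorem norm_zg_sub {n q : ℕ} (a₀ hg : ℝ) (x y : Fin n → Fin q) :
    ‖zg a₀ hg x - zg a₀ hg y‖ ^ 2 =
      hg ^ 2 * ∑ i, (((x i : ℕ) : ℝ) - ((y i : ℕ) : ℝ)) ^ 2 := by
  rw [EuclideanSpace.norm_sq_eq, Finset.mul_sum]
  refine Finset.sum_congr rfl fun i _ => ?_
  rw [Real.norm_eq_abs, sq_abs]
  simp only [zg, PiLp.sub_apply]
  ring

theorem cone_ineq {E : Type} [NormedAddCommGroup E] [InnerProductSpace ℝ E] {ξ η : E}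
    (h1 : ‖ξ‖ = 1) (h2 : ‖η‖ = 1) {r r' ρ sd : ℝ} (hρ : 0 ≤ ρ) (hr : ρ ≤ r) (hr' : ρ ≤ r')
    (h : inner ℝ ξ η ≤ 1 - sd ^ 2 / 2) : ρ * sd ≤ ‖r • ξ - r' • η‖ := by
  have h3 : ‖r • ξ - r' • η‖ ^ 2 = r ^ 2 - 2 * (r * r') * inner ℝ ξ η + r' ^ 2 := by
    rw [norm_sub_sq_real, norm_smul, norm_smul, h1, h2, inner_smul_left, inner_smul_right]
    simp only [Real.norm_eq_abs, mul_one, sq_abs, conj_trivial]
    ring
  have h4 : (ρ * sd) ^ 2 ≤ ‖r • ξ - r' • η‖ ^ 2 := by
    rw [h3]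
    have h5 : ρ * ρ ≤ r * r' := mul_le_mul hr hr' hρ (hρ.trans hr)
    have h6 : r * r' * (sd ^ 2 / 2) ≤ r * r' * (1 - inner ℝ ξ η) :=
      mul_le_mul_of_nonneg_left (by linarith) ((mul_nonneg hρ hρ).trans h5)
    have h7 : ρ * ρ * (sd ^ 2 / 2) ≤ r * r' * (sd ^ 2 / 2) :=
      mul_le_mul_of_nonneg_right h5 (by positivity)
    nlinarith [sq_nonneg (r - r')]
  exact (abs_le_of_sq_le_sq' h4 (norm_nonneg _)).2

theorem ke10 (hr : S10_rot) (hc : S10_cell) : S10_ker := by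
  classical
  intro n q a₀ hg A B D sd k hn hhg hA hAB hD hsd hDs hsym hpsd hsupp hsign hpos
  obtain ⟨F, hF1, hF2, hF3, hF4, hF5⟩ := hc n q a₀ hg (by omega) hhg
  have hn0 : (0 : ℝ) < n := by exact_mod_cast (show 0 < n by omega)
  set c : ℝ := hg ^ n / n with hcdef
  have hc0 : 0 < c := by positivity
  set μ : Measure (EuclideanSpace ℝ (Fin n)) :=
    volume.restrict (Metric.ball (0 : EuclideanSpace ℝ (Fin n)) 1) with hμ
  have hint : ∀ x, Integrable (fun u => F x (‖u‖⁻¹ • u)) μ := by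
    intro x
    by_contra h
    have h1 := hF4 x
    rw [integral_undef h] at h1
    exact hc0.ne h1
  set ρ : ℝ := A - hg * √n with hρ
  have hρ0 : 0 ≤ ρ := by linarith
  -- the sign condition
  have hneg : ∀ ξ η : EuclideanSpace ℝ (Fin n), ‖ξ‖ = 1 → ‖η‖ = 1 →
      inner ℝ ξ η ≤ 1 - sd ^ 2 / 2 → ∑ x, ∑ y, k x y * F x ξ * F y η ≤ 0 := by
    intro ξ η hξ hη hin
    refine Finset.sum_nonpos fun x _ => Finset.sum_nonpos fun y _ => ?_
    by_cases hk : k x y = 0
    · rw [hk]; simp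
    by_cases hx : F x ξ = 0
    · rw [hx]; simp
    by_cases hy : F y η = 0
    · rw [hy]; simp
    have hk' : k y x ≠ 0 := by rwa [hsym y x]
    obtain ⟨r, hr0, hr1⟩ := hF3 x ξ hξ hx
    obtain ⟨r', hr0', hr1'⟩ := hF3 y η hη hy
    have hrρ : ρ ≤ r := by
      have h1 : ‖zg a₀ hg x‖ ≤ ‖r • ξ‖ + ‖r • ξ - zg a₀ hg x‖ := by
        have := norm_sub_le (r • ξ) (r • ξ - zg a₀ hg x)
        rwa [sub_sub_cancel] at this
      rw [norm_smul, hξ, mul_one, Real.norm_eq_abs, abs_of_pos hr0] at h1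
      have h2 := (hsupp x y hk).1
      rw [hρ]; linarith
    have hrρ' : ρ ≤ r' := by
      have h1 : ‖zg a₀ hg y‖ ≤ ‖r' • η‖ + ‖r' • η - zg a₀ hg y‖ := by
        have := norm_sub_le (r' • η) (r' • η - zg a₀ hg y)
        rwa [sub_sub_cancel] at this
      rw [norm_smul, hη, mul_one, Real.norm_eq_abs, abs_of_pos hr0'] at h1
      have h2 := (hsupp y x hk').1
      rw [hρ]; linarith
    have h3 := cone_ineq hξ hη hρ0 hrρ hrρ' hin
    have h4 : ‖r • ξ - r' • η‖ ≤ ‖r • ξ - zg a₀ hg x‖ + ‖zg a₀ hg x - zg a₀ hg y‖ +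
        ‖r' • η - zg a₀ hg y‖ := by
      have h5 : r • ξ - r' • η = (r • ξ - zg a₀ hg x) + (zg a₀ hg x - zg a₀ hg y) -
          (r' • η - zg a₀ hg y) := by abel
      rw [h5]
      exact (norm_sub_le _ _).trans (by gcongr; exact norm_add_le _ _)
    have h6 : hg * √D ≤ ‖zg a₀ hg x - zg a₀ hg y‖ := by
      rw [hρ] at h3
      linarith
    have h7 : D ≤ ∑ i, (((x i : ℕ) : ℝ) - ((y i : ℕ) : ℝ)) ^ 2 := by
      have h8 : (hg * √D) ^ 2 ≤ ‖zg a₀ hg x - zg a₀ hg y‖ ^ 2 :=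
        pow_le_pow_left₀ (by positivity) h6 2
      rw [norm_zg_sub, mul_pow, Real.sq_sqrt hD] at h8
      exact le_of_mul_le_mul_left h8 (by positivity)
    have h9 := hsign x y h7
    have h10 : 0 ≤ F x ξ * F y η := mul_nonneg (hF2 _ _) (hF2 _ _)
    rw [mul_assoc]
    exact mul_nonpos_of_nonpos_of_nonneg h9 h10
  have hcont : ContinuousOn (fun p : EuclideanSpace ℝ (Fin n) × EuclideanSpace ℝ (Fin n) =>
      (fun ξ η => ∑ x, ∑ y, k x y * F x ξ * F y η) p.1 p.2)
      (Metric.sphere 0 1 ×ˢ Metric.sphere 0 1) := by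
    refine continuousOn_finsetSum _ fun x _ => continuousOn_finsetSum _ fun y _ => ?_
    refine (continuousOn_const.mul ?_).mul ?_
    · exact (hF1 x).comp continuousOn_fst fun p hp => hp.1
    · exact (hF1 y).comp continuousOn_snd fun p hp => hp.2
  have hpd : ∀ (m : ℕ) (x : Fin m → EuclideanSpace ℝ (Fin n)) (a : Fin m → ℝ),
      (∀ i, ‖x i‖ = 1) → 0 ≤ ∑ i, ∑ j, a i * a j *
        (fun ξ η => ∑ x, ∑ y, k x y * F x ξ * F y η) (x i) (x j) := by
    intro m z a _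
    have h := hpsd fun x => ∑ i, a i * F x (z i)
    have h2 : ∑ x, ∑ y, (∑ i, a i * F x (z i)) * k x y * (∑ j, a j * F y (z j)) =
        ∑ i, ∑ j, a i * a j * (∑ x, ∑ y, k x y * F x (z i) * F y (z j)) := by
      have e1 : ∀ x y, (∑ i, a i * F x (z i)) * k x y * (∑ j, a j * F y (z j)) =
          ∑ i, ∑ j, a i * a j * (k x y * F x (z i) * F y (z j)) := by
        intro x y
        rw [Finset.sum_mul, Finset.sum_mul]
        refine Finset.sum_congr rfl fun i _ => ?_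
        rw [Finset.mul_sum]
        refine Finset.sum_congr rfl fun j _ => ?_
        ring
      simp only [e1]
      calc ∑ x, ∑ y, ∑ i, ∑ j, a i * a j * (k x y * F x (z i) * F y (z j))
          = ∑ x, ∑ i, ∑ y, ∑ j, a i * a j * (k x y * F x (z i) * F y (z j)) :=
            Finset.sum_congr rfl fun x _ => Finset.sum_comm
        _ = ∑ i, ∑ x, ∑ y, ∑ j, a i * a j * (k x y * F x (z i) * F y (z j)) := Finset.sum_comm
        _ = ∑ i, ∑ x, ∑ j, ∑ y, a i * a j * (k x y * F x (z i) * F y (z j)) :=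
            Finset.sum_congr rfl fun i _ => Finset.sum_congr rfl fun x _ => Finset.sum_comm
        _ = ∑ i, ∑ j, ∑ x, ∑ y, a i * a j * (k x y * F x (z i) * F y (z j)) :=
            Finset.sum_congr rfl fun i _ => Finset.sum_comm
        _ = _ := by
            refine Finset.sum_congr rfl fun i _ => Finset.sum_congr rfl fun j _ => ?_
            rw [Finset.mul_sum]
            exact Finset.sum_congr rfl fun x _ => by rw [Finset.mul_sum]
    rw [h2] at h
    exact h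
  obtain ⟨g, hS, hI, hg1⟩ := hr n (fun ξ η => ∑ x, ∑ y, k x y * F x ξ * F y η)
    (1 - sd ^ 2 / 2) hn hcont hpd hneg
  beta_reduce at hI hg1
  set Kt : ℝ := ∑ x, ∑ y, k x y with hKt
  set S : ℝ := ∑ x, k x x with hSdef
  have hin : ∀ ξ : EuclideanSpace ℝ (Fin n),
      ∫ w in Metric.ball (0 : EuclideanSpace ℝ (Fin n)) 1,
        (∑ x, ∑ y, k x y * F x ξ * F y (‖w‖⁻¹ • w)) = ∑ x, ∑ y, k x y * F x ξ * c := by
    intro ξ
    rw [integral_finsetSum _ fun x _ => integrable_finsetSum _ fun y _ =>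
      (hint y).const_mul _]
    refine Finset.sum_congr rfl fun x _ => ?_
    rw [integral_finsetSum _ fun y _ => (hint y).const_mul _]
    refine Finset.sum_congr rfl fun y _ => ?_
    rw [integral_const_mul, hF4]
  have hI2 : ∫ u in Metric.ball (0 : EuclideanSpace ℝ (Fin n)) 1,
      ∫ w in Metric.ball (0 : EuclideanSpace ℝ (Fin n)) 1,
        (∑ x, ∑ y, k x y * F x (‖u‖⁻¹ • u) * F y (‖w‖⁻¹ • w)) = c ^ 2 * Kt := by
    simp only [hin]
    rw [integral_finsetSum _ fun x _ => integrable_finsetSum _ fun y _ =>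
      ((hint x).const_mul _).mul_const _]
    rw [hKt, Finset.mul_sum]
    refine Finset.sum_congr rfl fun x _ => ?_
    rw [integral_finsetSum _ fun y _ => ((hint x).const_mul _).mul_const _, Finset.mul_sum]
    refine Finset.sum_congr rfl fun y _ => ?_
    rw [integral_mul_const, integral_const_mul, hF4]
    ring
  have hvb : 0 < vb n := by
    have h1 := Metric.measure_ball_pos volume (0 : EuclideanSpace ℝ (Fin n)) one_pos
    exact ENNReal.toReal_pos h1.ne' (measure_ball_lt_top).ne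
  have hmn : mn n g = c ^ 2 * Kt / vb n ^ 2 := by
    rw [mn, hI, hI2, vb]
  have hdiag : ∀ x, 0 ≤ k x x := diag_nonneg hpsd
  have hS0 : 0 ≤ S := Finset.sum_nonneg fun x _ => hdiag x
  set R : ℝ := B + hg * √n with hR
  have hR0 : 0 ≤ R := by
    have : 0 ≤ hg * √n := by positivity
    rw [hR]; linarith
  -- the diagonal
  have hG : ∀ ξ : EuclideanSpace ℝ (Fin n), ‖ξ‖ = 1 →
      ∑ x, ∑ y, k x y * F x ξ * F y ξ ≤ R ^ n / n * ∑ x, k x x * F x ξ := by
    intro ξ hξ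
    set Y : Finset (Fin n → Fin q) := Finset.univ.filter fun y => ∃ x, k x y ≠ 0 with hY
    have hYn : ∀ x, x ∉ Y → ∀ y, k x y = 0 := by
      intro x hx y
      by_contra h
      exact hx (Finset.mem_filter.2 ⟨Finset.mem_univ _, y, by rwa [hsym y x]⟩)
    have h1 : ∑ x, ∑ y, k x y * F x ξ * F y ξ = ∑ x ∈ Y, ∑ y ∈ Y, k x y * F x ξ * F y ξ := by
      rw [← Finset.sum_subset (Finset.subset_univ Y)]
      · refine Finset.sum_congr rfl fun x _ => ?_
        rw [← Finset.sum_subset (Finset.subset_univ Y)]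
        intro y _ hy
        rw [hsym x y, hYn y hy x]; simp
      · intro x _ hx
        refine Finset.sum_eq_zero fun y _ => ?_
        rw [hYn x hx y]; simp
    have h2 : ∑ x ∈ Y, ∑ y ∈ Y, k x y * F x ξ * F y ξ ≤
        ∑ x ∈ Y, ∑ y ∈ Y, (k x x + k y y) / 2 * F x ξ * F y ξ := by
      refine Finset.sum_le_sum fun x _ => Finset.sum_le_sum fun y _ => ?_
      have := two_le hsym hpsd x y
      have h3 : 0 ≤ F x ξ * F y ξ := mul_nonneg (hF2 _ _) (hF2 _ _)
      rw [mul_assoc, mul_assoc]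
      exact mul_le_mul_of_nonneg_right this h3
    have h3 : ∑ x ∈ Y, ∑ y ∈ Y, (k x x + k y y) / 2 * F x ξ * F y ξ =
        (∑ x ∈ Y, k x x * F x ξ) * ∑ y ∈ Y, F y ξ := by
      have e1 : ∑ x ∈ Y, ∑ y ∈ Y, k x x * F x ξ * F y ξ =
          (∑ x ∈ Y, k x x * F x ξ) * ∑ y ∈ Y, F y ξ := by
        rw [Finset.sum_mul]
        exact Finset.sum_congr rfl fun x _ => by rw [Finset.mul_sum]
      have e2 : ∑ x ∈ Y, ∑ y ∈ Y, k y y * F x ξ * F y ξ =
          (∑ x ∈ Y, k x x * F x ξ) * ∑ y ∈ Y, F y ξ := by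
        rw [Finset.sum_comm, ← e1]
        exact Finset.sum_congr rfl fun x _ => Finset.sum_congr rfl fun y _ => by ring
      have e3 : ∑ x ∈ Y, ∑ y ∈ Y, (k x x + k y y) / 2 * F x ξ * F y ξ =
          (∑ x ∈ Y, ∑ y ∈ Y, k x x * F x ξ * F y ξ +
            ∑ x ∈ Y, ∑ y ∈ Y, k y y * F x ξ * F y ξ) / 2 := by
        rw [← Finset.sum_add_distrib, Finset.sum_div]
        refine Finset.sum_congr rfl fun x _ => ?_
        rw [← Finset.sum_add_distrib, Finset.sum_div]
        exact Finset.sum_congr rfl fun y _ => by ring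
      rw [e3, e1, e2]
      ring
    have h4 : ∑ y ∈ Y, F y ξ ≤ R ^ n / n := by
      refine hF5 Y R ξ hR0 hξ fun y hy => ?_
      obtain ⟨-, x, hx⟩ := Finset.mem_filter.1 hy
      have h5 : k y x ≠ 0 := by rwa [hsym y x]
      have := (hsupp y x h5).2
      rw [hR]; linarith
    have h5 : ∑ x ∈ Y, k x x * F x ξ ≤ ∑ x, k x x * F x ξ :=
      Finset.sum_le_sum_of_subset_of_nonneg (Finset.subset_univ _)
        fun x _ _ => mul_nonneg (hdiag x) (hF2 _ _)
    have h6 : 0 ≤ ∑ x ∈ Y, k x x * F x ξ :=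
      Finset.sum_nonneg fun x _ => mul_nonneg (hdiag x) (hF2 _ _)
    have h7 : 0 ≤ R ^ n / n := by positivity
    calc ∑ x, ∑ y, k x y * F x ξ * F y ξ
        ≤ (∑ x ∈ Y, k x x * F x ξ) * ∑ y ∈ Y, F y ξ := by rw [h1, ← h3]; exact h2
      _ ≤ (∑ x ∈ Y, k x x * F x ξ) * (R ^ n / n) := mul_le_mul_of_nonneg_left h4 h6
      _ ≤ (∑ x, k x x * F x ξ) * (R ^ n / n) := mul_le_mul_of_nonneg_right h5 h7
      _ = _ := mul_comm _ _
  have hdi : ∫ u in Metric.ball (0 : EuclideanSpace ℝ (Fin n)) 1,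
      (∑ x, ∑ y, k x y * F x (‖u‖⁻¹ • u) * F y (‖u‖⁻¹ • u)) ≤ R ^ n / n * (c * S) := by
    have h1 : ∫ u in Metric.ball (0 : EuclideanSpace ℝ (Fin n)) 1,
        (R ^ n / n * ∑ x, k x x * F x (‖u‖⁻¹ • u)) = R ^ n / n * (c * S) := by
      have e1 : ∫ u in Metric.ball (0 : EuclideanSpace ℝ (Fin n)) 1,
          (∑ x, k x x * F x (‖u‖⁻¹ • u)) = c * S := by
        rw [integral_finsetSum _ fun x _ => (hint x).const_mul _, hSdef, Finset.mul_sum]
        refine Finset.sum_congr rfl fun x _ => ?_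
        rw [integral_const_mul, hF4, mul_comm]
      rw [integral_const_mul, e1]
    rw [← h1]
    refine integral_mono_of_nonneg ?_ ?_ ?_
    · refine Filter.Eventually.of_forall fun u => ?_
      have h := hpsd fun x => F x (‖u‖⁻¹ • u)
      have h2 : ∑ x, ∑ y, F x (‖u‖⁻¹ • u) * k x y * F y (‖u‖⁻¹ • u) =
          ∑ x, ∑ y, k x y * F x (‖u‖⁻¹ • u) * F y (‖u‖⁻¹ • u) :=
        Finset.sum_congr rfl fun x _ => Finset.sum_congr rfl fun y _ => by ring
      rw [h2] at h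
      exact h
    · exact (integrable_finsetSum _ fun x _ => (hint x).const_mul _).const_mul _
    · have : Nonempty (Fin n) := ⟨⟨0, by omega⟩⟩
      have : Nontrivial (EuclideanSpace ℝ (Fin n)) := inferInstance
      have h2 : ∀ᵐ u : EuclideanSpace ℝ (Fin n) ∂μ, u ≠ 0 := by
        refine ae_restrict_of_ae ?_
        exact MeasureTheory.Measure.ae_ne volume 0
      filter_upwards [h2] with u hu
      refine hG _ ?_
      rw [norm_smul, norm_inv, norm_norm]
      exact inv_mul_cancel₀ (norm_ne_zero_iff.2 hu)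
  refine ⟨g, hS, ?_, ?_⟩
  · rw [hmn]
    positivity
  · rw [hmn]
    have h1 : g 1 * vb n ≤ R ^ n / n * (c * S) := by rw [hg1]; exact hdi
    have hcK : 0 < c ^ 2 * Kt := by positivity
    have h2 : g 1 / (c ^ 2 * Kt / vb n ^ 2) = (g 1 * vb n) * (vb n / (c ^ 2 * Kt)) := by
      field_simp
    have h3 : vb n * R ^ n / hg ^ n * (S / Kt) =
        (R ^ n / n * (c * S)) * (vb n / (c ^ 2 * Kt)) := by
      have h4 : hg ^ n = n * c := by rw [hcdef]; field_simp
      rw [h4]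
      field_simp
    rw [h2, h3]
    exact mul_le_mul_of_nonneg_right h1 (by positivity)

end Pool.Agent.TH41.BL.KE10f
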