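import Mathlib
import Pool.Agent.TH41.BL.Stm12

/-!
Project BL9: the linear programming bound for spherical codes.  From Gaussian states to the closed
form (pieces MX, MN, FI).
-/

set_option autoImplicit false

open MeasureTheory Filter Topology

namespace Pool.Agent.TH41.BL.MN10f

open Pool.Agent.TH41.BL

open Finset Pool.Agent.W259.GP Pool.Agent.W48.KS Pool.Agent.TH41.SC

theorem mx10 (hg : S10_gauss) : S10_mx := by
  intro n w c hw hsum hc sd hsd hE
  obtain ⟨O, O', c', hO, hO', hc', hO0, hQ, hdet⟩ := Pool.Agent.W417.KS.la n w c hw hsum hc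
  have hE2 : ∑ j, O j 0 ^ 2 * eC (c j) < 1 / 2 * sd ^ 2 := by
    have h1 : ∑ j, O j 0 ^ 2 * eC (c j) = 1 - ∑ j, w j * ph (c j) := by
      rw [← hsum, ← sum_sub_distrib]
      refine sum_congr rfl fun j _ => ?_
      rw [hO0]
      unfold eC ph
      ring
    rw [h1]
    linarith
  have h1 := hg hO hO' hc hc' hQ hsd hE2
  have hint := Pool.Agent.W460.KSI.int
  have hg : ∀ x : ℝ, 0 < x → gH x = 1 - Real.log 2 + 1 / 2 * ∫ t in (0 : ℝ)..1,
      Real.log (1 + 2 * x - t ^ 2) := hint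
  have hp : ∀ x : ℝ, 0 < x → 1 < 1 + 2 * x := fun x hx => by linarith
  have key : ∫ t in (0 : ℝ)..1, Real.log (∑ j, w j / (1 + 2 * c j - t ^ 2))
      = ∑ i, (∫ t in (0 : ℝ)..1, Real.log (1 + 2 * c' i - t ^ 2))
        - ∑ j, ∫ t in (0 : ℝ)..1, Real.log (1 + 2 * c j - t ^ 2) := by
    rw [← intervalIntegral.integral_finsetSum fun i _ => int_log (hp _ (hc' i)),
      ← intervalIntegral.integral_finsetSum fun j _ => int_log (hp _ (hc j)),
      ← intervalIntegral.integral_sub]
    · apply intervalIntegral.integral_congr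
      intro t ht
      rw [Set.uIcc_of_le zero_le_one] at ht
      have ht2 : t ^ 2 ≤ 1 := by nlinarith [ht.1, ht.2]
      have hd := hdet (t ^ 2) (sq_nonneg t) ht2
      have hpos : ∀ j, 0 < 1 + 2 * c j - t ^ 2 := fun j => by have := hc j; linarith
      have hpos' : ∀ i, 0 < 1 + 2 * c' i - t ^ 2 := fun i => by have := hc' i; linarith
      have hR : 0 < ∑ j, w j / (1 + 2 * c j - t ^ 2) :=
        sum_pos (fun j _ => div_pos (hw j) (hpos j)) univ_nonempty
      show Real.log (∑ j, w j / (1 + 2 * c j - t ^ 2)) = ∑ i, Real.log (1 + 2 * c' i - t ^ 2)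
        - ∑ j, Real.log (1 + 2 * c j - t ^ 2)
      rw [← Real.log_prod fun i _ => (hpos' i).ne', ← hd, Real.log_mul hR.ne'
        (prod_pos fun j _ => hpos j).ne', Real.log_prod fun i _ => (hpos i).ne']
      ring
    · have := IntervalIntegrable.sum univ fun i _ => int_log (hp _ (hc' i))
      simpa only [Finset.sum_fn] using this
    · have := IntervalIntegrable.sum univ fun j _ => int_log (hp _ (hc j))
      simpa only [Finset.sum_fn] using this
  have hmx : mx w c = ∑ j, gH (c j) - ∑ j, gH (c' j) := by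
    unfold mx
    rw [key]
    have h2 : ∑ j, gH (c j) = (n + 1) * (1 - Real.log 2)
        + 1 / 2 * ∑ j, ∫ t in (0 : ℝ)..1, Real.log (1 + 2 * c j - t ^ 2) := by
      rw [mul_sum, sum_congr rfl fun j _ => hg (c j) (hc j), sum_add_distrib, sum_const, card_univ,
        Fintype.card_fin, nsmul_eq_mul]
      push_cast
      ring
    have h3 : ∑ i, gH (c' i) = n * (1 - Real.log 2)
        + 1 / 2 * ∑ i, ∫ t in (0 : ℝ)..1, Real.log (1 + 2 * c' i - t ^ 2) := by
      rw [mul_sum, sum_congr rfl fun j _ => hg (c' j) (hc' j), sum_add_distrib, sum_const, card_univ,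
        Fintype.card_fin, nsmul_eq_mul]
    rw [h2, h3]
    ring
  rw [hmx]
  exact h1

theorem mn10 (hm : S10_mx) : S10_main := by
  intro r h0 h1 sd hsd hE ε hε
  have hcc : ∀ k : ℕ, 0 < cc r (2 * k + 1) := fun k => cc_pos h0 h1 _ (by omega)
  set κ := 1 - sd ^ 2 / 2 with hκ
  have hκ1 : κ < 1 := by
    have : 0 < sd ^ 2 := by positivity
    linarith
  set μ := (∑' k, a r k * ph (cc r (2 * k + 1))) / ∑' k, a r k with hμ
  have hκμ : κ ≤ μ := by
    rw [hμ, le_div_iff₀ (a_tsum_pos h0 h1)]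
    exact hE
  obtain ⟨P, hP0, hP⟩ := ph_big hκ1
  -- choice of δ
  obtain ⟨δ, hδ0, hδ1, hδ⟩ : ∃ δ : ℝ, 0 < δ ∧ δ < 1 ∧ -(1 / 2 * Real.log (1 - δ)) < ε / 3 := by
    have hlim : Tendsto (fun δ : ℝ => -(1 / 2 * Real.log (1 - δ))) (𝓝[>] 0) (𝓝 0) := by
      have : Tendsto (fun δ : ℝ => -(1 / 2 * Real.log (1 - δ))) (𝓝 0)
          (𝓝 (-(1 / 2 * Real.log (1 - 0)))) := by
        apply ContinuousAt.tendsto
        apply ContinuousAt.neg
        apply ContinuousAt.mul continuousAt_const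
        apply ContinuousAt.log
        · fun_prop
        · norm_num
      simp only [sub_zero, Real.log_one, mul_zero, neg_zero] at this
      exact this.mono_left nhdsWithin_le_nhds
    have h2 := hlim.eventually (gt_mem_nhds (by positivity : (0 : ℝ) < ε / 3))
    have h3 : ∀ᶠ δ : ℝ in 𝓝[>] 0, δ < 1 :=
      (Filter.Tendsto.eventually (tendsto_id.mono_left nhdsWithin_le_nhds)
        (gt_mem_nhds one_pos))
    obtain ⟨δ, ⟨h4, h5⟩, h6⟩ := ((h2.and h3).and self_mem_nhdsWithin).exists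
    exact ⟨δ, h6, h5, h4⟩
  have hlim1 := mean_lim h0 h1 (fun k => ph (cc r (2 * k + 1))) (fun k => by
    rw [abs_of_nonneg (ph_nonneg _)]; exact ph_le_one (hcc k))
  have hlim2 := alt_lim h0 h1
  have hgt : κ < δ * ph P + (1 - δ) * μ := by
    have e1 : δ * κ < δ * ph P := mul_lt_mul_of_pos_left hP hδ0
    have e2 : (1 - δ) * κ ≤ (1 - δ) * μ := mul_le_mul_of_nonneg_left hκμ (by linarith)
    linarith
  have hlim3 : Tendsto (fun M => δ * ph P + (1 - δ) * ∑ k ∈ range (M + 1), W r M k *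
      ph (cc r (2 * k + 1))) atTop (𝓝 (δ * ph P + (1 - δ) * μ)) :=
    tendsto_const_nhds.add (tendsto_const_nhds.mul hlim1)
  obtain ⟨M, hM1, hM2⟩ := ((hlim3.eventually (lt_mem_nhds hgt)).and
    (hlim2.eventually (gt_mem_nhds (show Φ r < Φ r + ε / 3 by linarith)))).exists
  set w : Fin (M + 1) → ℝ := fun k => W r M k with hw
  set c : Fin (M + 1) → ℝ := fun k => cc r (2 * k + 1) with hc
  have hwpos : ∀ j, 0 < w j := fun j => W_pos h0 h1 M j (Nat.lt_succ_iff.1 j.2)
  have hcpos : ∀ j, 0 < c j := fun j => hcc j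
  have hwsum : ∑ j, w j = 1 := by
    rw [hw, Fin.sum_univ_eq_sum_range (fun k => W r M k)]
    exact W_sum h0 h1 M
  have hmx : mx w c < Φ r + ε / 3 := by
    rw [hw, hc, mx_eq h0 h1]
    exact hM2
  have hcons := mx_cons hwpos hcpos hδ0 hδ1 hP0
  have e0 : 0 < 1 - δ := by linarith
  obtain ⟨N0, hN0⟩ := hm (n := M + 1) (w := Fin.cons δ fun j => (1 - δ) * w j)
    (c := Fin.cons P c)
    (fun j => by
      refine Fin.cases ?_ (fun i => ?_) j
      · simpa using hδ0
      · simp only [Fin.cons_succ]; exact mul_pos e0 (hwpos i))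
    (by
      rw [Fin.sum_univ_succ]
      simp only [Fin.cons_zero, Fin.cons_succ]
      rw [← mul_sum, hwsum]
      ring)
    (fun j => by
      refine Fin.cases ?_ (fun i => ?_) j
      · simpa using hP0
      · simp only [Fin.cons_succ]; exact hcpos i)
    (sd := sd) hsd
    (by
      rw [Fin.sum_univ_succ]
      simp only [Fin.cons_zero, Fin.cons_succ]
      have e3 : ∑ i, (1 - δ) * w i * ph (c i) =
          (1 - δ) * ∑ k ∈ range (M + 1), W r M k * ph (cc r (2 * k + 1)) := by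
        rw [← Fin.sum_univ_eq_sum_range (fun k => W r M k * ph (cc r (2 * k + 1))), mul_sum]
        exact sum_congr rfl fun i _ => by rw [mul_assoc]
      rw [e3]
      exact hM1)
    (ε / 3) (by positivity)
  refine ⟨N0, fun N hN => ?_⟩
  obtain ⟨g, hg1, hg2, hg3⟩ := hN0 N hN
  refine ⟨g, hg1, hg2, hg3.trans ?_⟩
  apply Real.exp_le_exp.2
  apply mul_le_mul_of_nonneg_left _ (Nat.cast_nonneg N)
  linarith

theorem fi10 (hm : S10_main) : S10_fin := by
  constructor
  · intro κ η hκ hη h ε hε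
    have hsd : 0 < √(2 - 2 * κ) := Real.sqrt_pos.mpr (by linarith)
    have hsq : 1 - √(2 - 2 * κ) ^ 2 / 2 = κ := by
      rw [Real.sq_sqrt (by linarith)]
      ring
    obtain ⟨N0, hN0⟩ := hm (sq_s hη).1 (sq_s hη).2 hsd (by
      rw [hsq]
      exact (hyp_iff hη κ).1 h) ε hε
    filter_upwards [eventually_ge_atTop N0] with n hn
    have h2 := hN0 n hn
    rw [hsq, ← Ψ_eq hη] at h2
    exact h2
  · have hε : 0 < (396601 / 1000000 : ℝ) * Real.log 2 - Φ ((6515 / 22611 : ℝ) ^ 2) :=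
      sub_pos.mpr num_Φ
    have e : (1 : ℝ) - 1 ^ 2 / 2 = 1 / 2 := by norm_num
    obtain ⟨N0, hN0⟩ := hm (r := (6515 / 22611 : ℝ) ^ 2) (by norm_num) (by norm_num) (sd := 1)
      one_pos (by rw [e]; exact num_hyp) _ hε
    filter_upwards [eventually_ge_atTop N0] with n hn
    obtain ⟨g, hg1, hg2, hg3⟩ := hN0 n hn
    refine ⟨g, e ▸ hg1, hg2, hg3.trans (le_of_eq ?_)⟩
    rw [Real.rpow_def_of_pos two_pos]
    congr 1
    ring

end Pool.Agent.TH41.BL.MN10f
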