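import Mathlib
import Pool.Agent.TH41.BL.Stm11
import Pool.Agent.TH41.BL.AS8
import Pool.Agent.H703R2.LP.Code

/-!
# An operator supported in a shell
-/

set_option autoImplicit false

open MeasureTheory Filter Topology

namespace Pool.Agent.TH41.BL.OP10f

open Pool.Agent.TH41.BL

open Pool.Agent.H390R2.LP

open Pool.Agent.TH41.BL.AS8f

section site
variable {Ω X : Type} [Fintype Ω] [DecidableEq Ω] [DecidableEq X] (s : Site Ω X)

/-- squares of the coefficients at one position -/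
theorem parseval_pos (v : Ω → ℝ) (x : X) :
    ∑ c ∈ Finset.univ.filter (fun c => s.lab c = x), (∑ ω, v ω * s.w c ω) ^ 2 =
      ∑ o ∈ Finset.univ.filter (fun o => s.pos o = x), v o ^ 2 := by
  have h := Pool.Agent.H703R2.LP.site_parseval s (fun ω => if s.pos ω = x then v ω else 0)
  rw [Finset.sum_filter, Finset.sum_filter]
  have h1 : ∀ ω, (if s.pos ω = x then v ω else 0) ^ 2 = if s.pos ω = x then v ω ^ 2 else 0 := by
    intro ω
    split_ifs
    · rfl
    · norm_num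
  simp only [h1] at h
  rw [← h]
  refine Finset.sum_congr rfl fun c _ => ?_
  by_cases hc : s.lab c = x
  · rw [if_pos hc]
    congr 1
    refine Finset.sum_congr rfl fun ω _ => ?_
    by_cases hω : s.pos ω = x
    · rw [if_pos hω]
    · rw [if_neg hω, s.w_supp c ω (fun h' => hω (h'.trans hc)), mul_zero, mul_zero]
  · rw [if_neg hc]
    have h2 : ∑ ω, (if s.pos ω = x then v ω else 0) * s.w c ω = 0 := by
      refine Finset.sum_eq_zero fun ω _ => ?_
      by_cases hω : s.pos ω = x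
      · rw [s.w_supp c ω (fun h' => hc (h'.symm.trans hω)), mul_zero]
      · rw [if_neg hω, zero_mul]
    rw [h2]
    norm_num

/-- the distribution of the position -/
theorem pos_dist (x : X) :
    ∑ o ∈ Finset.univ.filter (fun o => s.pos o = x), ∑ a, s.lam a * s.u a o * s.u a o = s.P x := by
  have h1 : ∀ c, s.g c = ∑ a, s.lam a * (∑ ω, s.u a ω * s.w c ω) ^ 2 :=
    Pool.Agent.H703R2.LP.site_g_eq s
  have hL : ∑ o ∈ Finset.univ.filter (fun o => s.pos o = x), ∑ a, s.lam a * s.u a o * s.u a o =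
      ∑ a, s.lam a * ∑ o ∈ Finset.univ.filter (fun o => s.pos o = x), s.u a o ^ 2 := by
    rw [Finset.sum_comm]
    refine Finset.sum_congr rfl fun a _ => ?_
    rw [Finset.mul_sum]
    exact Finset.sum_congr rfl fun o _ => by ring
  have hR : s.P x = ∑ a, s.lam a * ∑ c ∈ Finset.univ.filter (fun c => s.lab c = x),
      (∑ ω, s.u a ω * s.w c ω) ^ 2 := by
    unfold Site.P
    simp only [h1]
    rw [Finset.sum_comm]
    refine Finset.sum_congr rfl fun a _ => ?_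
    rw [Finset.mul_sum]
  rw [hL, hR]
  refine Finset.sum_congr rfl fun a _ => ?_
  rw [parseval_pos]

omit [DecidableEq X] in
theorem Rg_apply {m : ℕ} (a : Fin m → Ω) :
    Rg s m a a = ∏ k, ∑ c, s.lam c * s.u c (a k) * s.u c (a k) := rfl

/-- the distribution of the positions -/
theorem pos_prod {m : ℕ} (x : Fin m → X) :
    ∑ a ∈ Finset.univ.filter (fun a : Fin m → Ω => (fun k => s.pos (a k)) = x), Rg s m a a =
      ∏ k, s.P (x k) := by
  rw [Finset.sum_filter]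
  have h1 : ∀ a : Fin m → Ω, (if (fun k => s.pos (a k)) = x then Rg s m a a else 0) =
      ∏ k, if s.pos (a k) = x k then ∑ c, s.lam c * s.u c (a k) * s.u c (a k) else 0 := by
    intro a
    by_cases h : (fun k => s.pos (a k)) = x
    · rw [if_pos h, Rg_apply]
      refine Finset.prod_congr rfl fun k _ => ?_
      rw [if_pos (congrFun h k)]
    · rw [if_neg h]
      obtain ⟨k, hk⟩ := Function.ne_iff.mp h
      exact (Finset.prod_eq_zero (Finset.mem_univ k) (if_neg hk)).symm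
  simp only [h1]
  rw [sum_prod fun k o => if s.pos o = x k then ∑ c, s.lam c * s.u c o * s.u c o else 0]
  refine Finset.prod_congr rfl fun k _ => ?_
  rw [← pos_dist, Finset.sum_filter]

omit [DecidableEq X] in
theorem Rg_diag_nonneg {m : ℕ} (a : Fin m → Ω) : 0 ≤ Rg s m a a := by
  rw [Rg_apply]
  refine Finset.prod_nonneg fun k _ => Finset.sum_nonneg fun c _ => ?_
  rw [mul_assoc]
  exact mul_nonneg (s.lam_nonneg c) (mul_self_nonneg _)

end site

section diag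
variable {V : Type} [Fintype V] [DecidableEq V]

open Classical in
/-- the diagonal projection onto the words with the property `χ` -/
noncomputable def Pd (χ : V → Prop) : Matrix V V ℝ :=
  Matrix.diagonal fun a => if χ a then 1 else 0

open Classical in
theorem Pd_mul (χ : V → Prop) (M : Matrix V V ℝ) (a b : V) :
    (Pd χ * M) a b = if χ a then M a b else 0 := by
  rw [Pd, Matrix.diagonal_mul]
  split_ifs
  · rw [one_mul]
  · rw [zero_mul]

open Classical in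
theorem mul_Pd (χ : V → Prop) (M : Matrix V V ℝ) (a b : V) :
    (M * Pd χ) a b = if χ b then M a b else 0 := by
  rw [Pd, Matrix.mul_diagonal]
  split_ifs
  · rw [mul_one]
  · rw [mul_zero]

theorem Pd_prj (χ : V → Prop) : Prj (Pd χ) := by
  refine ⟨Matrix.diagonal_transpose _, ?_⟩
  ext a b
  rw [Pd_mul]
  split_ifs with h
  · rfl
  · rw [Pd, Matrix.diagonal_apply]
    split_ifs
    · rfl
    · rfl

end diag

section words
variable {Ω : Type} [Fintype Ω] [DecidableEq Ω] {q m : ℕ}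

omit [Fintype Ω] [DecidableEq Ω] in
theorem hd_zero {pos : Ω → Fin q} {a b : Fin m → Ω} (h : hd (bX pos) a b = 0) (k : Fin m) :
    pos (a k) = pos (b k) := by
  unfold hd at h
  rw [Finset.card_eq_zero, Finset.filter_eq_empty_iff] at h
  have h1 := h (Finset.mem_univ (k, pos (b k)))
  rw [not_not] at h1
  simpa [bX] using h1

theorem Pd_comm {pos : Ω → Fin q} {P : Matrix (Fin m → Ω) (Fin m → Ω) ℝ}
    (hP : PDi (bX pos) P) {χ : (Fin m → Ω) → Prop}
    (hχ : ∀ a b : Fin m → Ω, (∀ k, pos (a k) = pos (b k)) → (χ a ↔ χ b)) :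
    Pd χ * P = P * Pd χ := by
  classical
  ext a b
  rw [Pd_mul, mul_Pd]
  by_cases h : hd (bX pos) a b = 0
  · have h1 := hχ a b (hd_zero h)
    by_cases h2 : χ a
    · rw [if_pos h2, if_pos (h1.1 h2)]
    · rw [if_neg h2, if_neg (fun h3 => h2 (h1.2 h3))]
  · rw [hP a b h]
    simp

omit [Fintype Ω] in
theorem Pd_pinv {χ : (Fin m → Ω) → Prop}
    (hχ : ∀ (σ : Equiv.Perm (Fin m)) (a : Fin m → Ω), χ (fun k => a (σ k)) ↔ χ a) :
    PInv (Pd χ) := by
  classical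
  intro σ a b
  rw [Pd, Matrix.diagonal_apply, Matrix.diagonal_apply]
  have h1 : ((fun k => a (σ k)) = fun k => b (σ k)) ↔ a = b := by
    constructor
    · intro h
      funext k
      have := congrFun h (σ.symm k)
      simpa using this
    · rintro rfl
      rfl
  by_cases h : a = b
  · rw [if_pos (h1.2 h), if_pos h]
    have h2 := hχ σ a
    by_cases h3 : χ a
    · rw [if_pos (h2.2 h3), if_pos h3]
    · rw [if_neg (fun h4 => h3 (h2.1 h4)), if_neg h3]
  · rw [if_neg (fun h2 => h (h1.1 h2)), if_neg h]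

theorem zg_norm (a₀ hg : ℝ) (x : Fin m → Fin q) :
    ‖zg a₀ hg x‖ = √(∑ k, (a₀ + hg * ((x k : ℕ) : ℝ)) ^ 2) := by
  rw [EuclideanSpace.norm_eq]
  congr 1
  refine Finset.sum_congr rfl fun k _ => ?_
  rw [Real.norm_eq_abs, sq_abs]
  rfl

/-- the words in the shell -/
def Shl (pos : Ω → Fin q) (a₀ hg α β : ℝ) (a : Fin m → Ω) : Prop :=
  α * √m ≤ ‖zg a₀ hg (fun k => pos (a k))‖ ∧ ‖zg a₀ hg (fun k => pos (a k))‖ ≤ β * √m

omit [Fintype Ω] [DecidableEq Ω] in
theorem shl_pos {pos : Ω → Fin q} {a₀ hg α β : ℝ} (a b : Fin m → Ω)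
    (h : ∀ k, pos (a k) = pos (b k)) : Shl pos a₀ hg α β a ↔ Shl pos a₀ hg α β b := by
  have h1 : (fun k => pos (a k)) = fun k => pos (b k) := funext h
  unfold Shl
  rw [h1]

omit [Fintype Ω] [DecidableEq Ω] in
theorem shl_perm {pos : Ω → Fin q} {a₀ hg α β : ℝ} (σ : Equiv.Perm (Fin m)) (a : Fin m → Ω) :
    Shl pos a₀ hg α β (fun k => a (σ k)) ↔ Shl pos a₀ hg α β a := by
  unfold Shl
  rw [zg_norm, zg_norm]
  have h := Equiv.sum_comp σ (fun k => (a₀ + hg * ((pos (a k) : ℕ) : ℝ)) ^ 2)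
  rw [h]

end words

theorem lln {Ω : Type} [Fintype Ω] [DecidableEq Ω] {q : ℕ} (s : Site Ω (Fin q))
    {a₀ hg α β κ : ℝ} (hα0 : 0 ≤ α) (hα : α < √(∑ x, s.P x * (a₀ + hg * (x : ℝ)) ^ 2))
    (hβ : √(∑ x, s.P x * (a₀ + hg * (x : ℝ)) ^ 2) < β) (hκ : 0 < κ) :
    ∃ m₀ : ℕ, ∀ m ≥ m₀, ((1 - Pd (Shl (m := m) s.pos a₀ hg α β)) * Rg s m).trace ≤ κ := by
  classical
  obtain ⟨M2, hM2⟩ : ∃ M2 : ℝ, M2 = ∑ x, s.P x * (a₀ + hg * (x : ℝ)) ^ 2 := ⟨_, rfl⟩
  rw [← hM2] at hα hβ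
  have hM20 : 0 ≤ M2 := by
    rw [hM2]
    exact Finset.sum_nonneg fun x _ =>
      mul_nonneg (Pool.Agent.H703R2.LP.site_P_nonneg s x) (sq_nonneg _)
  have hs2 : √M2 ^ 2 = M2 := Real.sq_sqrt hM20
  have hd1 : 0 < M2 - α ^ 2 := by nlinarith [Real.sqrt_nonneg M2]
  have hβ0 : 0 < β := lt_of_le_of_lt (Real.sqrt_nonneg M2) hβ
  have hd2 : 0 < β ^ 2 - M2 := by nlinarith [Real.sqrt_nonneg M2]
  obtain ⟨δ, hδ0, hδ1, hδ2⟩ : ∃ δ : ℝ, 0 < δ ∧ δ ≤ M2 - α ^ 2 ∧ δ ≤ β ^ 2 - M2 :=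
    ⟨min (M2 - α ^ 2) (β ^ 2 - M2), lt_min hd1 hd2, min_le_left _ _, min_le_right _ _⟩
  obtain ⟨Vr, hVr⟩ : ∃ Vr : ℝ, Vr = ∑ y, s.P y * ((a₀ + hg * (y : ℝ)) ^ 2 -
    ∑ y', s.P y' * (a₀ + hg * (y' : ℝ)) ^ 2) ^ 2 := ⟨_, rfl⟩
  obtain ⟨m₂, hm₂⟩ := exists_nat_gt (Vr / (δ ^ 2 * κ))
  refine ⟨max m₂ 1, fun m hm => ?_⟩
  have hm0 : 0 < m := le_trans (le_max_right _ _) hm
  have hmr : (0 : ℝ) < m := by exact_mod_cast hm0
  obtain ⟨B, hB⟩ : ∃ B : Finset (Fin m → Fin q), B = Finset.univ.filter fun x =>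
      m * δ ≤ |∑ k, (a₀ + hg * ((x k : ℕ) : ℝ)) ^ 2 - m * M2| := ⟨_, rfl⟩
  have hshl : ∀ a : Fin m → Ω, ¬ Shl s.pos a₀ hg α β a → (fun k => s.pos (a k)) ∈ B := by
    intro a ha
    by_contra hcon
    apply ha
    rw [hB, Finset.mem_filter, not_and] at hcon
    have h1 := hcon (Finset.mem_univ _)
    rw [not_le, abs_lt] at h1
    obtain ⟨h2, h3⟩ := h1
    unfold Shl
    rw [zg_norm]
    have hsm : √(m : ℝ) ^ 2 = m := Real.sq_sqrt hmr.le
    constructor
    · apply Real.le_sqrt_of_sq_le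
      rw [mul_pow, hsm]
      nlinarith
    · rw [Real.sqrt_le_left (by positivity), mul_pow, hsm]
      nlinarith
  have htr : ((1 - Pd (Shl (m := m) s.pos a₀ hg α β)) * Rg s m).trace =
      ∑ a : Fin m → Ω, if Shl s.pos a₀ hg α β a then 0 else Rg s m a a := by
    rw [Matrix.sub_mul, Matrix.one_mul, Matrix.trace_sub, Matrix.trace, Matrix.trace,
      ← Finset.sum_sub_distrib]
    refine Finset.sum_congr rfl fun a _ => ?_
    rw [Matrix.diag_apply, Matrix.diag_apply, Pd_mul]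
    split_ifs
    · rw [sub_self]
    · rw [sub_zero]
  have hle : ((1 - Pd (Shl (m := m) s.pos a₀ hg α β)) * Rg s m).trace ≤
      ∑ x ∈ B, ∏ k, s.P (x k) := by
    rw [htr]
    calc ∑ a : Fin m → Ω, (if Shl s.pos a₀ hg α β a then 0 else Rg s m a a)
        ≤ ∑ a : Fin m → Ω, if (fun k => s.pos (a k)) ∈ B then Rg s m a a else 0 := by
          refine Finset.sum_le_sum fun a _ => ?_
          have h0 := Rg_diag_nonneg s a
          by_cases h1 : Shl s.pos a₀ hg α β a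
          · rw [if_pos h1]
            split_ifs
            · exact h0
            · exact le_rfl
          · rw [if_neg h1, if_pos (hshl a h1)]
      _ = ∑ a ∈ Finset.univ.filter (fun a : Fin m → Ω => (fun k => s.pos (a k)) ∈ B),
            Rg s m a a := (Finset.sum_filter _ _).symm
      _ = ∑ x ∈ B, ∑ a ∈ Finset.univ.filter (fun a : Fin m → Ω => (fun k => s.pos (a k)) = x),
            Rg s m a a := by
          rw [← Finset.sum_fiberwise_of_maps_to (s := Finset.univ.filter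
            (fun a : Fin m → Ω => (fun k => s.pos (a k)) ∈ B)) (t := B)
            (g := fun a k => s.pos (a k)) (fun a ha => (Finset.mem_filter.1 ha).2)]
          refine Finset.sum_congr rfl fun x hx => ?_
          refine Finset.sum_congr ?_ fun _ _ => rfl
          ext a
          simp only [Finset.mem_filter, Finset.mem_univ, true_and]
          constructor
          · rintro ⟨-, h⟩
            exact h
          · intro h
            exact ⟨by rw [h]; exact hx, h⟩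
      _ = ∑ x ∈ B, ∏ k, s.P (x k) := Finset.sum_congr rfl fun x _ => pos_prod s x
  refine hle.trans ?_
  have hBx : ∀ x ∈ B, m * δ ≤ |∑ k, (fun y : Fin q => (a₀ + hg * (y : ℝ)) ^ 2) (x k) -
      m * ∑ y, s.P y * (fun y : Fin q => (a₀ + hg * (y : ℝ)) ^ 2) y| := by
    intro x hx
    rw [hB] at hx
    have hx2 := (Finset.mem_filter.1 hx).2
    rw [hM2] at hx2
    simpa only using hx2
  have h2 := Pool.Agent.H703R2.LP.cheb hm0 s.P (Pool.Agent.H703R2.LP.site_P_nonneg s)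
    (Pool.Agent.H703R2.LP.site_P_sum s) (fun y : Fin q => (a₀ + hg * (y : ℝ)) ^ 2) hδ0 B hBx
  have h2' : ∑ x ∈ B, ∏ k, s.P (x k) ≤ Vr / (m * δ ^ 2) := by
    rw [hVr]
    simpa only using h2
  refine h2'.trans ?_
  rw [div_le_iff₀ (by positivity)]
  have h3 : Vr / (δ ^ 2 * κ) < m :=
    lt_of_lt_of_le hm₂ (by exact_mod_cast le_trans (le_max_left _ _) hm)
  rw [div_lt_iff₀ (by positivity)] at h3
  nlinarith

/-- commuting projections -/
theorem prj_mul {V : Type} [Fintype V] {P Q : Matrix V V ℝ} (hP : Prj P) (hQ : Prj Q)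
    (h : Q * P = P * Q) : Prj (P * Q) := by
  refine ⟨by rw [Matrix.transpose_mul, hP.1, hQ.1, h], ?_⟩
  rw [Matrix.mul_assoc, ← Matrix.mul_assoc Q P Q, h, Matrix.mul_assoc P Q Q, hQ.2,
    ← Matrix.mul_assoc, hP.2]

/-- the weight outside the product of two commuting projections -/
theorem trace_two {V : Type} [Fintype V] [DecidableEq V] {P N R T : Matrix V V ℝ} {κ : ℝ}
    (hP : Prj P) (hN : Prj N) (h : N * P = P * N) (hT : T.transpose = T) (hTT : T * T = R)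
    (h1 : ((1 - P) * R).trace ≤ κ / 2) (h2 : ((1 - N) * R).trace ≤ κ / 2) :
    ((1 - P * N) * R).trace ≤ κ := by
  have h3 : (1 - N) * P = P * (1 - N) := by
    rw [Matrix.sub_mul, Matrix.mul_sub, Matrix.one_mul, Matrix.mul_one, h]
  have hPN : Prj (P * (1 - N)) := prj_mul hP (prj_compl hN) h3
  have h4 : (1 - P * N) * R = (1 - P) * R + P * (1 - N) * R := by
    rw [← Matrix.add_mul]
    congr 1
    rw [Matrix.mul_sub, Matrix.mul_one]
    abel
  have h5 : (P * (1 - N) * R).trace ≤ ((1 - N) * R).trace := by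
    rw [← hTT, tr_proj hPN hT, tr_proj (prj_compl hN) hT, Matrix.mul_assoc]
    exact hs_proj_le hP _
  rw [h4, Matrix.trace_add]
  linarith

theorem op10 (hd : S7_dim) (he : S7_env) (hl : S7_low) (ht : S7_top) (hp : S7_pos) (hq : S8_alg) (hr : S8_ray) (hy : S8_typ) (hs8 : S8_ps) (hst : S8_st) : S10_op := by
  intro Ω _ _ q s a₀ hg α β D ε hhg hα0 hα hβ hED hD hε
  obtain ⟨E₀, hE₀⟩ : ∃ E₀ : ℝ, E₀ = s.E (fun (_ : Unit) (x : Fin q) => (x : ℝ)) := ⟨_, rfl⟩
  have hE0 : 0 ≤ E₀ := by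
    have h1 := (hst Ω q s 1).2.2.2.2
    have h2 := hs_Ae_nonpos s.pos (Tg s 1)
    rw [h1, ← hE₀] at h2
    push_cast at h2
    linarith
  rw [← hE₀] at hED
  obtain ⟨g, hgE⟩ : ∃ g : ℝ, g = D - E₀ := ⟨_, rfl⟩
  have hg0 : 0 < g := by linarith
  obtain ⟨κ, hκ0, hκ1, hκ2, hκ3⟩ :
      ∃ κ : ℝ, 0 < κ ∧ 16 * (D + (q : ℝ) ^ 2) * √κ ≤ g ∧ 4 * √κ < 1 ∧ 6 * κ ≤ ε := by
    have hw : 0 < 16 * (D + (q : ℝ) ^ 2) := by positivity
    refine ⟨min (min ((g / (16 * (D + (q : ℝ) ^ 2))) ^ 2) ((1 / 8) ^ 2)) (ε / 6),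
      by positivity, ?_, ?_, ?_⟩
    · have h1 : √(min (min ((g / (16 * (D + (q : ℝ) ^ 2))) ^ 2) ((1 / 8) ^ 2)) (ε / 6)) ≤
          g / (16 * (D + (q : ℝ) ^ 2)) := by
        rw [Real.sqrt_le_left (by positivity)]
        exact (min_le_left _ _).trans (min_le_left _ _)
      rw [le_div_iff₀ hw] at h1
      linarith
    · have h1 : √(min (min ((g / (16 * (D + (q : ℝ) ^ 2))) ^ 2) ((1 / 8) ^ 2)) (ε / 6)) ≤
          1 / 8 := by
        rw [Real.sqrt_le_left (by positivity)]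
        exact (min_le_left _ _).trans (min_le_right _ _)
      linarith
    · have h1 : min (min ((g / (16 * (D + (q : ℝ) ^ 2))) ^ 2) ((1 / 8) ^ 2)) (ε / 6) ≤ ε / 6 :=
        min_le_right _ _
      linarith
  obtain ⟨m₁, hm₁⟩ := hy Ω q s κ hκ0
  obtain ⟨m₂, hm₂⟩ := hs8 Ω q s (κ / 2) (by positivity)
  obtain ⟨m₅, hm₅⟩ := lln s hα0 hα hβ (show 0 < κ / 2 by positivity)
  obtain ⟨m₃, hm₃⟩ := eventually_atTop.mp (ev_pow (Fintype.card Ω ^ 2) 1 κ one_pos hκ0)
  obtain ⟨m₄, hm₄⟩ := eventually_atTop.mp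
    (ev_pow (Fintype.card Ω ^ 2) (2 * D / g) (ε / 2) (by positivity) (by positivity))
  refine ⟨m₁ + m₂ + m₃ + m₄ + m₅ + 1, fun m hm => ?_⟩
  obtain ⟨E, hEi, hEp, hEt, hEr⟩ := hm₁ m (by omega)
  have hps := hm₂ m (by omega)
  have hB1 := hm₃ m (by omega)
  have hNr := hm₅ m (by omega)
  have hB2 := hm₄ m (by omega)
  have hdim := hd Ω m
  have hmn : 1 ≤ m := by omega
  have hm1 : (1 : ℝ) ≤ m := by exact_mod_cast hmn
  obtain ⟨Q, hQi, hQp, hQE, hQc, hQt⟩ := he Ω m E hEi hEp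
  obtain ⟨L, hL⟩ : ∃ L : ℝ, L = Real.exp (m * (s.h - 2 * κ)) := ⟨_, rfl⟩
  have hL0 : 0 < L := by
    rw [hL]
    exact Real.exp_pos _
  obtain ⟨P₀, hP₀i, hP₀d, hP₀p, hP₀t, hP₀min⟩ := hl Ω (Fin q) (bX s.pos) m L hL0
  obtain ⟨N, hN⟩ : ∃ N : Matrix (Fin m → Ω) (Fin m → Ω) ℝ, N = Pd (Shl s.pos a₀ hg α β) :=
    ⟨_, rfl⟩
  have hNp : Prj N := by
    rw [hN]
    exact Pd_prj _
  have hNi : PInv N := by
    rw [hN]
    exact Pd_pinv fun σ a => shl_perm σ a
  have hNP : N * P₀ = P₀ * N := by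
    rw [hN]
    exact Pd_comm hP₀d fun a b h => shl_pos a b h
  rw [← hN] at hNr
  obtain ⟨hTpsd, hTi, hTT, hT1, hTE⟩ := hst Ω q s m
  rw [← hE₀] at hTE
  have hB : dimP Ω m ≤ Real.exp (m * κ) := by linarith
  have hP₀r : ((1 - P₀) * Rg s m).trace ≤ κ / 2 := by
    apply hps _ (prj_compl hP₀p) (pdi_compl hP₀d)
    refine hP₀t.trans ?_
    have h1 : Real.exp (m * (s.h - κ)) = L * Real.exp (m * κ) := by
      rw [hL, ← Real.exp_add]
      congr 1
      ring
    have h2 : Real.exp (m * (s.h - κ)) ≤ Real.exp (m * (s.h - κ / 2)) := by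
      apply Real.exp_le_exp.mpr
      exact mul_le_mul_of_nonneg_left (by linarith) (by positivity)
    refine le_trans ?_ h2
    rw [h1]
    exact mul_le_mul_of_nonneg_left hB hL0.le
  have hPr : ((1 - P₀ * N) * Rg s m).trace ≤ κ :=
    trace_two hP₀p hNp hNP hTpsd.1 hTT hP₀r hNr
  have hPi : PInv (P₀ * N) := pinv_mul hP₀i hNi
  have hPp : Prj (P₀ * N) := prj_mul hP₀p hNp hNP
  have hPd : PDi (bX s.pos) (P₀ * N) := by
    classical
    intro a b hab
    rw [hN, mul_Pd, hP₀d a b hab]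
    simp
  have hPmin : ∀ F : Matrix (Fin m → Ω) (Fin m → Ω) ℝ, PInv F → PDi (bX s.pos) F → Prj F →
      P₀ * N * F = F → F ≠ 0 → L ≤ F.trace := by
    intro F h1 h2 h3 h4 h5
    refine hP₀min F h1 h2 h3 ?_ h5
    rw [← h4, ← Matrix.mul_assoc, ← Matrix.mul_assoc, hP₀p.2]
  have hNPN : N * (P₀ * N) = P₀ * N := by
    rw [← Matrix.mul_assoc, hNP, Matrix.mul_assoc, hNp.2]
  obtain ⟨P, hP⟩ : ∃ P : Matrix (Fin m → Ω) (Fin m → Ω) ℝ, P = P₀ * N := ⟨_, rfl⟩
  rw [← hP] at hPr hPi hPp hPd hPmin hNPN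
  rw [← hTT] at hPr hEr
  generalize Tg s m = T₀ at hTpsd hTi hTT hT1 hTE hPr hEr
  have hPQ : Q * P = P * Q := hQc P hPi
  obtain ⟨c1, c2, c3, c4, c5⟩ := comp hPp hQp hEp hPQ hQE hTpsd hT1 hPr hEr
  have hT₁i : PInv (P * Q * T₀ * (P * Q)) :=
    pinv_mul (pinv_mul (pinv_mul hPi hQi) hTi) (pinv_mul hPi hQi)
  generalize P * Q * T₀ * (P * Q) = T₁ at c1 c2 c3 c4 c5 hT₁i
  have hT₁0 : T₁ ≠ 0 := by
    intro h0
    rw [h0, sub_zero, hT1, Real.sqrt_one] at c5
    linarith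
  obtain ⟨T, r, hTp, hTin, hTne, hPT, hQT, hray, hAdT⟩ := hr Ω q s.pos m P Q T₁
    hPi hPd hPp hQi hQp hQc c1.1 hT₁i c2 c3 hT₁0
  have hlow : -(m * E₀) - m * (8 * (q : ℝ) ^ 2 * √κ) ≤ hs T₁ (Ae s.pos T₁) := by
    have e1 : hs T₀ (Ae s.pos T₀) - hs T₁ (Ae s.pos T₁) =
        hs (T₀ - T₁) (Ae s.pos (T₀ + T₁)) := by
      have e0 := (hq Ω q s.pos m T₀ T₁).2.2.2.2.1
      rw [Ae_add, hs_add_right, hs_sub_left, hs_sub_left, hs_comm T₁ (Ae s.pos T₀), ← e0]
      ring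
    have e2 := (hq Ω q s.pos m (T₀ - T₁) (T₀ + T₁)).2.2.2.2.2.2
    have e3 : √(hs (T₀ + T₁) (T₀ + T₁)) ≤ 2 := by
      have h1 := N_add T₀ T₁
      have h2 := Real.sqrt_le_one.mpr c4
      rw [hT1, Real.sqrt_one] at h1
      linarith
    rw [← e1] at e2
    have e4 := (le_abs_self _).trans e2
    have e5 : √(hs (T₀ - T₁) (T₀ - T₁)) * √(hs (T₀ + T₁) (T₀ + T₁)) ≤ 4 * √κ * 2 :=
      mul_le_mul c5 e3 (Real.sqrt_nonneg _) (by positivity)
    have e6 := mul_le_mul_of_nonneg_left e5 (show (0 : ℝ) ≤ m * (q : ℝ) ^ 2 by positivity)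
    rw [hTE] at e4
    linarith
  have hN1 : 1 - 8 * √κ ≤ hs T₁ T₁ := by
    have h1 := N_add (T₀ - T₁) T₁
    rw [sub_add_cancel, hT1, Real.sqrt_one] at h1
    have h2 : 1 - 4 * √κ ≤ √(hs T₁ T₁) := by linarith
    have h3 := mul_self_le_mul_self (by linarith) h2
    rw [Real.mul_self_sqrt (hs_self_nonneg T₁)] at h3
    have h4 := mul_self_nonneg (4 * √κ)
    linarith
  have hgap : m * (g / 2) ≤ r + m * D := by
    rw [hgE]
    rw [hgE] at hκ1
    exact rbd hD hE0 hED hmn hκ1 hN1 hlow hray (by positivity)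
  have hmg : 0 < (m : ℝ) * (g / 2) := by positivity
  have hNT : N * T = T := by
    rw [← hPT, ← Matrix.mul_assoc, hNPN]
  have hgapr : -((m : ℝ) * D) < r := by linarith
  refine ⟨T, r, hTp, hs_self_pos hTne, hAdT, hgapr, ?_, ?_⟩
  · intro a b hab
    classical
    by_contra hcon
    have hcon' : ¬ Shl s.pos a₀ hg α β a := hcon
    have h1 : (N * T) a b = 0 := by
      rw [hN, Pd_mul, if_neg hcon']
    rw [hNT] at h1
    exact hab h1
  have hMp := hp.2.2 Ω (Fin q) (bX s.pos) m P T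
  have hMt := hp.2.2 Ω (Fin q) (bX s.pos) m T T
  have hPM : P * dgP (bX s.pos) T = dgP (bX s.pos) T := by
    have h1 := hMp.2.2.2.2.2.2.2.1 hPd
    rw [hPT] at h1
    exact h1.symm
  have htop := ht Ω (Fin q) (bX s.pos) m L P hL0.le hPmin (dgP (bX s.pos) T) (hMt.2.1 hTp)
    (hMt.2.2.2.1 hTin) hMt.2.2.2.2.1 hPM
  rw [trace_dgP] at htop
  have htr2 : T.trace ^ 2 ≤ Q.trace * hs T T := by
    have e1 : T.trace = hs Q T := by rw [hs_trace, hQp.1, hQT]
    have e2 : hs Q Q = Q.trace := by rw [hs_trace, hQp.1, hQp.2]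
    rw [e1, ← e2]
    exact hs_cs Q T
  have hTpos := hs_self_pos hTne
  generalize hs (dgP (bX s.pos) T) (dgP (bX s.pos) T) = G at htop ⊢
  have hB0 : 0 ≤ dimP Ω m := by
    unfold dimP
    positivity
  have hQ2 : Q.trace ≤ dimP Ω m * Real.exp (m * (s.S + κ)) :=
    hQt.trans (mul_le_mul_of_nonneg_left hEt hB0)
  have g3 : L * G ≤ dimP Ω m * Real.exp (m * (s.S + κ)) * hs T T :=
    htop.trans (htr2.trans (mul_le_mul_of_nonneg_right hQ2 hTpos.le))
  have f3 : D * (dimP Ω m * Real.exp (m * (s.S + κ))) ≤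
      Real.exp (-(m * (s.h - s.S - ε))) * (g / 2 * L) := by
    have h1 : 2 * D / g * dimP Ω m ≤ Real.exp (m * (ε / 2)) :=
      (mul_le_mul_of_nonneg_left hdim (by positivity)).trans hB2
    have h3 : D * (dimP Ω m * Real.exp (m * (s.S + κ))) =
        g / 2 * ((2 * D / g * dimP Ω m) * Real.exp (m * (s.S + κ))) := by
      field_simp
    have h4 : Real.exp (-(m * (s.h - s.S - ε))) * (g / 2 * L) =
        g / 2 * (Real.exp (-(m * (s.h - s.S - ε))) * L) := by ring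
    rw [h3, h4]
    refine mul_le_mul_of_nonneg_left ?_ (by positivity)
    refine (mul_le_mul_of_nonneg_right h1 (by positivity)).trans ?_
    rw [hL, ← Real.exp_add, ← Real.exp_add]
    apply Real.exp_le_exp.mpr
    have h5 : (m : ℝ) * (6 * κ) ≤ m * ε := mul_le_mul_of_nonneg_left hκ3 (by positivity)
    linarith
  have hx0 : 0 < Real.exp (-(m * (s.h - s.S - ε))) := Real.exp_pos _
  generalize Real.exp (-(m * (s.h - s.S - ε))) = ex at f3 hx0 ⊢
  have f4 : L * (m * D * G) ≤ L * (ex * ((r + m * D) * hs T T)) := by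
    have e1 : L * (m * D * G) = m * D * (L * G) := by ring
    have e2 : m * D * (L * G) ≤
        m * D * (dimP Ω m * Real.exp (m * (s.S + κ)) * hs T T) :=
      mul_le_mul_of_nonneg_left g3 (by positivity)
    have e3 : m * D * (dimP Ω m * Real.exp (m * (s.S + κ)) * hs T T) =
        (D * (dimP Ω m * Real.exp (m * (s.S + κ)))) * (m * hs T T) := by ring
    have e4 : (D * (dimP Ω m * Real.exp (m * (s.S + κ)))) * (m * hs T T) ≤
        (ex * (g / 2 * L)) * (m * hs T T) :=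
      mul_le_mul_of_nonneg_right f3 (by positivity)
    have e5 : (ex * (g / 2 * L)) * (m * hs T T) = (L * ex * hs T T) * (m * (g / 2)) := by ring
    have e6 : (L * ex * hs T T) * (m * (g / 2)) ≤ (L * ex * hs T T) * (r + m * D) :=
      mul_le_mul_of_nonneg_left hgap (by positivity)
    have e7 : (L * ex * hs T T) * (r + m * D) = L * (ex * ((r + m * D) * hs T T)) := by ring
    rw [e1]
    rw [e3] at e2
    rw [e5] at e4
    rw [e7] at e6
    exact e2.trans (e4.trans e6)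
  exact le_of_mul_le_mul_left f4 hL0

end Pool.Agent.TH41.BL.OP10f
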