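import Mathlib
import Pool.Agent.TH41.BL.Stm11

/-!
Project BL9 (helper41, MP_b5f63d_co), piece PL: the cells of the grid seen from the origin.
-/

set_option autoImplicit false

open MeasureTheory Filter Topology

namespace Pool.Agent.TH41.BL.PL10f

open Pool.Agent.TH41.BL

/-- the tent -/
noncomputable def tt (x : ℝ) : ℝ := max 0 (1 - |x|)

lemma tt_nonneg (x : ℝ) : 0 ≤ tt x := le_max_left _ _

lemma tt_zero {x : ℝ} (h : 1 ≤ |x|) : tt x = 0 := max_eq_left (by linarith)

lemma tt_cont : Continuous tt := by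
  unfold tt
  fun_prop

lemma tt_int : ∫ x : ℝ, tt x = 1 := by
  have h1 : ∫ v in (-1 : ℝ)..1, tt v = ∫ v : ℝ, tt v := by
    refine intervalIntegral.integral_eq_integral_of_support_subset fun x hx => ?_
    have h2 : tt x ≠ 0 := hx
    have h3 : |x| < 1 := by
      by_contra h
      push Not at h
      exact h2 (tt_zero h)
    exact ⟨(abs_lt.mp h3).1, (abs_lt.mp h3).2.le⟩
  rw [← h1, ← intervalIntegral.integral_add_adjacent_intervals (b := 0)
    (tt_cont.intervalIntegrable _ _) (tt_cont.intervalIntegrable _ _)]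
  have h2 : ∫ v in (-1 : ℝ)..0, tt v = ∫ v in (-1 : ℝ)..0, (1 + v) := by
    refine intervalIntegral.integral_congr fun v hv => ?_
    rw [Set.uIcc_of_le (by norm_num)] at hv
    unfold tt
    rw [abs_of_nonpos hv.2, max_eq_right (by linarith [hv.1])]
    ring
  have h3 : ∫ v in (0 : ℝ)..1, tt v = ∫ v in (0 : ℝ)..1, (1 - v) := by
    refine intervalIntegral.integral_congr fun v hv => ?_
    rw [Set.uIcc_of_le zero_le_one] at hv
    unfold tt
    rw [abs_of_nonneg hv.1, max_eq_right (by linarith [hv.2])]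
  rw [h2, h3, intervalIntegral.integral_add (by simp) (by simp),
    intervalIntegral.integral_sub (by simp) (by simp)]
  simp
  norm_num

/-- the clamp -/
noncomputable def cl (x : ℝ) : ℝ := max 0 (min 1 x)

lemma tt_eq (x : ℝ) : tt x = cl (x + 1) - cl x := by
  unfold tt cl
  rcases le_total x (-1) with h | h
  · rw [abs_of_nonpos (by linarith), max_eq_left (by linarith), min_eq_right (by linarith),
      min_eq_right (by linarith), max_eq_left (by linarith), max_eq_left (by linarith)]
    ring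
  · rcases le_total x 0 with h0 | h0
    · rw [abs_of_nonpos h0, max_eq_right (by linarith), min_eq_right (by linarith),
        min_eq_right (by linarith), max_eq_right (by linarith), max_eq_left (by linarith)]
      ring
    · rcases le_total x 1 with h1 | h1
      · rw [abs_of_nonneg h0, max_eq_right (by linarith), min_eq_left (by linarith),
          min_eq_right (by linarith), max_eq_right (by linarith), max_eq_right (by linarith)]
      · rw [abs_of_nonneg h0, max_eq_left (by linarith), min_eq_left (by linarith),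
          min_eq_left (by linarith)]
        ring

lemma cl_nonneg (x : ℝ) : 0 ≤ cl x := le_max_left _ _

lemma cl_le_one (x : ℝ) : cl x ≤ 1 := max_le zero_le_one (min_le_left _ _)

lemma tt_sum (q : ℕ) (s : ℝ) : ∑ j : Fin q, tt (s - ((j : ℕ) : ℝ)) ≤ 1 := by
  rw [Fin.sum_univ_eq_sum_range (fun j : ℕ => tt (s - (j : ℝ))) q]
  have h1 : ∀ j ∈ Finset.range q, tt (s - (j : ℝ)) =
      (fun j : ℕ => cl (s + 1 - (j : ℝ))) j - (fun j : ℕ => cl (s + 1 - (j : ℝ))) (j + 1) := by
    intro j _
    simp only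
    rw [tt_eq]
    push_cast
    congr 2
    · ring
    · ring
  rw [Finset.sum_congr rfl h1, Finset.sum_range_sub']
  have h2 := cl_nonneg (s + 1 - (q : ℝ))
  have h3 := cl_le_one (s + 1 - ((0 : ℕ) : ℝ))
  linarith

variable {n : ℕ}

/-- the product of tents -/
noncomputable def ph (hg : ℝ) (v : EuclideanSpace ℝ (Fin n)) : ℝ := ∏ i, tt (v i / hg)

lemma ph_nonneg (hg : ℝ) (v : EuclideanSpace ℝ (Fin n)) : 0 ≤ ph hg v :=
  Finset.prod_nonneg fun _ _ => tt_nonneg _

lemma ph_cont (hg : ℝ) : Continuous (ph hg : EuclideanSpace ℝ (Fin n) → ℝ) := by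
  unfold ph
  refine continuous_finsetProd _ fun i _ => tt_cont.comp ?_
  fun_prop

lemma ph_supp {hg : ℝ} (hhg : 0 < hg) {v : EuclideanSpace ℝ (Fin n)} (h : ph hg v ≠ 0) :
    ‖v‖ ≤ hg * √n := by
  have h1 : ∀ i, |v i| ≤ hg := by
    intro i
    by_contra hc
    push Not at hc
    refine h (Finset.prod_eq_zero (Finset.mem_univ i) (tt_zero ?_))
    rw [abs_div, abs_of_pos hhg, le_div_iff₀ hhg]
    linarith
  rw [EuclideanSpace.norm_eq]
  have h2 : hg * √n = √(∑ _i : Fin n, hg ^ 2) := by
    rw [Finset.sum_const, Finset.card_univ, Fintype.card_fin, nsmul_eq_mul, Real.sqrt_mul (by simp),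
      Real.sqrt_sq hhg.le]
    ring
  rw [h2]
  refine Real.sqrt_le_sqrt (Finset.sum_le_sum fun i _ => ?_)
  rw [Real.norm_eq_abs, sq_abs]
  exact sq_le_sq' (by linarith [neg_abs_le (v i), h1 i]) (by linarith [le_abs_self (v i), h1 i])

lemma ph_int {hg : ℝ} (hhg : 0 < hg) : ∫ v : EuclideanSpace ℝ (Fin n), ph hg v = hg ^ n := by
  have h1 := (EuclideanSpace.volume_preserving_symm_measurableEquiv_toLp (Fin n)).integral_comp'
    (fun w : Fin n → ℝ => ∏ i, tt (w i / hg))
  have h2 : ∫ v : EuclideanSpace ℝ (Fin n), ph hg v =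
      ∫ w : Fin n → ℝ, ∏ i, tt (w i / hg) := h1
  rw [h2, integral_fintype_prod_volume_eq_prod (fun _ : Fin n => fun x : ℝ => tt (x / hg)),
    Measure.integral_comp_div tt hg, tt_int]
  simp [abs_of_pos hhg]

lemma ph_integrable {hg : ℝ} (hhg : 0 < hg) :
    Integrable (ph hg : EuclideanSpace ℝ (Fin n) → ℝ) := by
  refine (ph_cont hg).integrable_of_hasCompactSupport ?_
  refine HasCompactSupport.intro (K := Metric.closedBall 0 (hg * √n))
    (isCompact_closedBall _ _) fun v hv => ?_
  by_contra h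
  exact hv (by simpa using ph_supp hhg h)

lemma ph_sum {hg : ℝ} (hhg : 0 < hg) {q : ℕ} (a₀ : ℝ) (Y : Finset (Fin n → Fin q))
    (v : EuclideanSpace ℝ (Fin n)) : ∑ y ∈ Y, ph hg (v - zg a₀ hg y) ≤ 1 := by
  have h1 : ∑ y ∈ Y, ph hg (v - zg a₀ hg y) ≤ ∑ y : Fin n → Fin q, ph hg (v - zg a₀ hg y) :=
    Finset.sum_le_sum_of_subset_of_nonneg (Finset.subset_univ _) fun y _ _ => ph_nonneg _ _
  refine h1.trans ?_
  have h2 : ∀ y : Fin n → Fin q, ph hg (v - zg a₀ hg y) =
      ∏ i, tt ((v i - a₀) / hg - (((y i : Fin q) : ℕ) : ℝ)) := by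
    intro y
    unfold ph zg
    refine Finset.prod_congr rfl fun i _ => ?_
    congr 1
    simp only [PiLp.sub_apply]
    field_simp
    ring
  rw [Finset.sum_congr rfl fun y _ => h2 y]
  have h3 := Finset.prod_univ_sum (fun _ : Fin n => (Finset.univ : Finset (Fin q)))
    (fun i j => tt ((v i - a₀) / hg - ((j : ℕ) : ℝ)))
  rw [Fintype.piFinset_univ] at h3
  rw [← h3]
  exact Finset.prod_le_one (fun i _ => Finset.sum_nonneg fun j _ => tt_nonneg _)
    fun i _ => tt_sum q _

/-- polar coordinates -/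
theorem polarG {F : Type*} [NormedAddCommGroup F] [InnerProductSpace ℝ F] [FiniteDimensional ℝ F]
    [MeasurableSpace F] [BorelSpace F] [Nontrivial F] (g : F → ℝ) (hg : Integrable g) :
    ∫ y : F, g y = ∫ v : Metric.sphere (0 : F) 1,
      (∫ r in Set.Ioi (0:ℝ), r ^ (Module.finrank ℝ F - 1) * g (r • (v : F)))
        ∂((volume : Measure F).toSphere) := by
  have hmp := (volume : Measure F).measurePreserving_homeomorphUnitSphereProd
  have hemb := (homeomorphUnitSphereProd F).measurableEmbedding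
  have hcomp : ∀ x : ({(0 : F)}ᶜ : Set F),
      (fun p : Metric.sphere (0 : F) 1 × Set.Ioi (0:ℝ) => g ((p.2 : ℝ) • (p.1 : F)))
        (homeomorphUnitSphereProd F x) = g x := by
    intro x
    show g _ = g x
    congr 1
    have h1 := (homeomorphUnitSphereProd F).symm_apply_apply x
    have h2 := congrArg Subtype.val h1
    rw [homeomorphUnitSphereProd_symm_apply_coe] at h2
    exact h2
  have hint : Integrable
      (fun p : Metric.sphere (0 : F) 1 × Set.Ioi (0:ℝ) => g ((p.2 : ℝ) • (p.1 : F)))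
      ((volume : Measure F).toSphere.prod
        (Measure.volumeIoiPow (Module.finrank ℝ F - 1))) := by
    rw [← hmp.integrable_comp_emb hemb]
    have h1 : IntegrableOn g ({(0 : F)}ᶜ : Set F) := hg.integrableOn
    rw [integrableOn_iff_comap_subtypeVal (measurableSet_singleton _).compl] at h1
    refine h1.congr (Filter.Eventually.of_forall fun x => ?_)
    exact (hcomp x).symm
  calc ∫ y : F, g y = ∫ x : ({(0 : F)}ᶜ : Set F), g x ∂((volume : Measure F).comap (↑)) := by
        rw [integral_subtype_comap (measurableSet_singleton _).compl g,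
          restrict_compl_singleton]
    _ = ∫ x : ({(0 : F)}ᶜ : Set F),
        (fun p : Metric.sphere (0 : F) 1 × Set.Ioi (0:ℝ) => g ((p.2 : ℝ) • (p.1 : F)))
          (homeomorphUnitSphereProd F x) ∂((volume : Measure F).comap (↑)) := by
        congr 1
        funext x
        exact (hcomp x).symm
    _ = ∫ p : Metric.sphere (0 : F) 1 × Set.Ioi (0:ℝ), g ((p.2 : ℝ) • (p.1 : F))
          ∂((volume : Measure F).toSphere.prod
            (Measure.volumeIoiPow (Module.finrank ℝ F - 1))) :=
        hmp.integral_comp hemb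
          (fun p : Metric.sphere (0 : F) 1 × Set.Ioi (0:ℝ) => g ((p.2 : ℝ) • (p.1 : F)))
    _ = ∫ v : Metric.sphere (0 : F) 1, ∫ r : Set.Ioi (0:ℝ), g ((r : ℝ) • (v : F))
          ∂(Measure.volumeIoiPow (Module.finrank ℝ F - 1))
          ∂((volume : Measure F).toSphere) := integral_prod _ hint
    _ = _ := by
        congr 1
        funext v
        simp only [Measure.volumeIoiPow, ENNReal.ofReal]
        rw [integral_withDensity_eq_integral_smul,
          integral_subtype_comap measurableSet_Ioi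
            fun a ↦ Real.toNNReal (a ^ (Module.finrank ℝ F - 1)) • g (a • (v : F)),
          setIntegral_congr_fun measurableSet_Ioi fun x hx ↦ ?_]
        · rw [NNReal.smul_def, Real.coe_toNNReal _ (pow_nonneg (le_of_lt hx) _), smul_eq_mul]
        · exact (measurable_subtype_coe.pow_const _).real_toNNReal

/-- the function of a cell with centre `z` -/
noncomputable def ff (hg : ℝ) (z ξ : EuclideanSpace ℝ (Fin n)) : ℝ :=
  ∫ r in (0 : ℝ)..(‖z‖ + hg * √n), r ^ (n - 1) * ph hg (r • ξ - z)

lemma ff_cont (hg : ℝ) (z : EuclideanSpace ℝ (Fin n)) : Continuous (ff hg z) := by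
  unfold ff
  refine intervalIntegral.continuous_parametric_intervalIntegral_of_continuous' ?_ _ _
  have := ph_cont (n := n) hg
  unfold Function.uncurry
  fun_prop

lemma ff_nonneg {hg : ℝ} (hhg : 0 < hg) (z ξ : EuclideanSpace ℝ (Fin n)) : 0 ≤ ff hg z ξ := by
  refine intervalIntegral.integral_nonneg (by positivity) fun r hr => ?_
  exact mul_nonneg (pow_nonneg hr.1 _) (ph_nonneg _ _)

lemma ph_zero_of {hg : ℝ} (hhg : 0 < hg) {z ξ : EuclideanSpace ℝ (Fin n)} (hξ : ‖ξ‖ = 1) {r : ℝ}
    (hr : 0 ≤ r) (h : ‖z‖ + hg * √n < r) : ph hg (r • ξ - z) = 0 := by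
  by_contra hc
  have h1 := ph_supp hhg hc
  have h2 : ‖r • ξ‖ = r := by rw [norm_smul, hξ, mul_one, Real.norm_eq_abs, abs_of_nonneg hr]
  have h3 : ‖r • ξ‖ - ‖z‖ ≤ ‖r • ξ - z‖ := norm_sub_norm_le _ _
  linarith

lemma ff_eq {hg : ℝ} (hhg : 0 < hg) (z : EuclideanSpace ℝ (Fin n))
    {ξ : EuclideanSpace ℝ (Fin n)} (hξ : ‖ξ‖ = 1) :
    ff hg z ξ = ∫ r in Set.Ioi (0 : ℝ), r ^ (n - 1) * ph hg (r • ξ - z) := by
  unfold ff
  rw [intervalIntegral.integral_of_le (by positivity)]
  symm
  refine setIntegral_eq_of_subset_of_forall_sdiff_eq_zero measurableSet_Ioi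
    (fun r hr => hr.1) fun r hr => ?_
  have h1 : 0 < r := hr.1
  have h2 : ‖z‖ + hg * √n < r := by
    by_contra hc
    push Not at hc
    exact hr.2 ⟨h1, hc⟩
  rw [ph_zero_of hhg hξ h1.le h2, mul_zero]

lemma ff_ball (hn : 1 ≤ n) {hg : ℝ} (hhg : 0 < hg) (z : EuclideanSpace ℝ (Fin n)) :
    ∫ u in Metric.ball (0 : EuclideanSpace ℝ (Fin n)) 1, ff hg z (‖u‖⁻¹ • u) = hg ^ n / n := by
  have : Nonempty (Fin n) := ⟨⟨0, hn⟩⟩
  have : Nontrivial (EuclideanSpace ℝ (Fin n)) := inferInstance
  have hfr : Module.finrank ℝ (EuclideanSpace ℝ (Fin n)) = n := finrank_euclideanSpace_fin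
  have hn0 : (n : ℝ) ≠ 0 := by
    have : 0 < n := hn
    positivity
  -- the mass
  have h1 : ∫ v : Metric.sphere (0 : EuclideanSpace ℝ (Fin n)) 1, ff hg z v
      ∂((volume : Measure (EuclideanSpace ℝ (Fin n))).toSphere) = hg ^ n := by
    have h2 := polarG (fun u : EuclideanSpace ℝ (Fin n) => ph hg (u - z))
      ((ph_integrable hhg).comp_sub_right z)
    rw [hfr] at h2
    rw [integral_sub_right_eq_self (fun u : EuclideanSpace ℝ (Fin n) => ph hg u) z,
      ph_int hhg] at h2
    rw [h2]
    refine integral_congr_ae (Filter.Eventually.of_forall fun v => ?_)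
    exact ff_eq hhg z (by simp)
  -- the ball
  obtain ⟨C, hC⟩ := (isCompact_closedBall (0 : EuclideanSpace ℝ (Fin n)) 1).exists_bound_of_continuousOn
    (ff_cont hg z).continuousOn
  have hint : IntegrableOn (fun u : EuclideanSpace ℝ (Fin n) => ff hg z (‖u‖⁻¹ • u))
      (Metric.ball (0 : EuclideanSpace ℝ (Fin n)) 1) := by
    refine Measure.integrableOn_of_bounded (M := C) measure_ball_lt_top.ne ?_ ?_
    · refine Measurable.aestronglyMeasurable ?_
      refine (ff_cont hg z).measurable.comp ?_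
      fun_prop
    · refine Filter.Eventually.of_forall fun u => hC _ ?_
      rw [mem_closedBall_zero_iff, norm_smul, norm_inv, norm_norm]
      exact inv_mul_le_one
  have hint' : Integrable ((Metric.ball (0 : EuclideanSpace ℝ (Fin n)) 1).indicator
      (fun u : EuclideanSpace ℝ (Fin n) => ff hg z (‖u‖⁻¹ • u))) :=
    (integrable_indicator_iff measurableSet_ball).mpr hint
  rw [← integral_indicator measurableSet_ball, polarG _ hint', hfr]
  have h3 : ∀ v : Metric.sphere (0 : EuclideanSpace ℝ (Fin n)) 1,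
      ∫ r in Set.Ioi (0:ℝ), r ^ (n - 1) *
        (Metric.ball (0 : EuclideanSpace ℝ (Fin n)) 1).indicator
          (fun u : EuclideanSpace ℝ (Fin n) => ff hg z (‖u‖⁻¹ • u))
          (r • (v : EuclideanSpace ℝ (Fin n))) = ff hg z v * (n : ℝ)⁻¹ := by
    intro v
    have hv : ‖(v : EuclideanSpace ℝ (Fin n))‖ = 1 := by simp
    have h4 : ∫ r in Set.Ioi (0:ℝ), r ^ (n - 1) *
        (Metric.ball (0 : EuclideanSpace ℝ (Fin n)) 1).indicator
          (fun u : EuclideanSpace ℝ (Fin n) => ff hg z (‖u‖⁻¹ • u))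
          (r • (v : EuclideanSpace ℝ (Fin n))) = ∫ r in Set.Ioo (0:ℝ) 1, r ^ (n - 1) *
        (Metric.ball (0 : EuclideanSpace ℝ (Fin n)) 1).indicator
          (fun u : EuclideanSpace ℝ (Fin n) => ff hg z (‖u‖⁻¹ • u))
          (r • (v : EuclideanSpace ℝ (Fin n))) := by
      refine setIntegral_eq_of_subset_of_forall_sdiff_eq_zero measurableSet_Ioi
        (fun r hr => hr.1) fun r hr => ?_
      have h5 : 0 < r := hr.1
      have h6 : 1 ≤ r := by
        by_contra hc
        push Not at hc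
        exact hr.2 ⟨h5, hc⟩
      rw [Set.indicator_of_notMem, mul_zero]
      rw [mem_ball_zero_iff, norm_smul, hv, mul_one, Real.norm_eq_abs, abs_of_pos h5]
      exact not_lt.mpr h6
    rw [h4]
    have h7 : ∫ r in Set.Ioo (0:ℝ) 1, r ^ (n - 1) *
        (Metric.ball (0 : EuclideanSpace ℝ (Fin n)) 1).indicator
          (fun u : EuclideanSpace ℝ (Fin n) => ff hg z (‖u‖⁻¹ • u))
          (r • (v : EuclideanSpace ℝ (Fin n))) =
        ∫ r in Set.Ioo (0:ℝ) 1, r ^ (n - 1) * ff hg z v := by
      refine setIntegral_congr_fun measurableSet_Ioo fun r hr => ?_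
      have h5 : ‖r • (v : EuclideanSpace ℝ (Fin n))‖ = r := by
        rw [norm_smul, hv, mul_one, Real.norm_eq_abs, abs_of_pos hr.1]
      rw [Set.indicator_of_mem (by rw [mem_ball_zero_iff, h5]; exact hr.2), h5, smul_smul,
        inv_mul_cancel₀ hr.1.ne', one_smul]
    rw [h7, integral_mul_const, ← integral_Ioc_eq_integral_Ioo,
      ← intervalIntegral.integral_of_le zero_le_one, integral_pow]
    have h8 : n - 1 + 1 = n := Nat.sub_add_cancel hn
    have h9 : (((n - 1 : ℕ) : ℝ) + 1) = n := by exact_mod_cast h8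
    rw [h8, h9]
    simp [zero_pow (show n ≠ 0 by omega)]
    ring
  simp only [h3]
  rw [integral_mul_const, h1]
  rfl

theorem pl10 : S10_cell := by
  intro n q a₀ hg hn hhg
  refine ⟨fun x ξ => ff hg (zg a₀ hg x) ξ, fun x => (ff_cont hg _).continuousOn,
    fun x ξ => ff_nonneg hhg _ _, ?_, fun x => ff_ball hn hhg _, ?_⟩
  · intro x ξ hξ hne
    by_contra hc
    push Not at hc
    apply hne
    simp only
    rw [ff_eq hhg _ hξ]
    refine setIntegral_eq_zero_of_forall_eq_zero fun r hr => ?_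
    have h1 : ph hg (r • ξ - zg a₀ hg x) = 0 := by
      by_contra h2
      exact absurd (ph_supp hhg h2) (not_le.mpr (hc r hr))
    rw [h1, mul_zero]
  · intro Y R ξ hR hξ hY
    have hcont : ∀ y : Fin n → Fin q,
        Continuous fun r : ℝ => r ^ (n - 1) * ph hg (r • ξ - zg a₀ hg y) := by
      intro y
      have := ph_cont (n := n) hg
      fun_prop
    have h1 : ∀ y ∈ Y, ff hg (zg a₀ hg y) ξ ≤
        ∫ r in (0 : ℝ)..R, r ^ (n - 1) * ph hg (r • ξ - zg a₀ hg y) := by
      intro y hy
      unfold ff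
      refine intervalIntegral.integral_mono_interval le_rfl (by positivity) (hY y hy) ?_
        ((hcont y).intervalIntegrable _ _)
      refine (ae_restrict_iff' measurableSet_Ioc).mpr (Filter.Eventually.of_forall fun r hr => ?_)
      exact mul_nonneg (pow_nonneg hr.1.le _) (ph_nonneg _ _)
    refine (Finset.sum_le_sum h1).trans ?_
    rw [← intervalIntegral.integral_finsetSum fun y _ => (hcont y).intervalIntegrable _ _]
    have h2 : ∫ r in (0 : ℝ)..R, ∑ y ∈ Y, r ^ (n - 1) * ph hg (r • ξ - zg a₀ hg y) ≤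
        ∫ r in (0 : ℝ)..R, r ^ (n - 1) := by
      refine intervalIntegral.integral_mono_on hR ?_ ?_ fun r hr => ?_
      · exact (continuous_finsetSum _ fun y _ => hcont y).intervalIntegrable _ _
      · exact (by fun_prop : Continuous fun r : ℝ => r ^ (n - 1)).intervalIntegrable _ _
      · rw [← Finset.mul_sum]
        exact mul_le_of_le_one_right (pow_nonneg hr.1 _) (ph_sum hhg a₀ Y _)
    refine h2.trans ?_
    rw [integral_pow]
    have h8 : n - 1 + 1 = n := Nat.sub_add_cancel hn
    have h9 : (((n - 1 : ℕ) : ℝ) + 1) = n := by exact_mod_cast h8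
    rw [h8, h9, zero_pow (show n ≠ 0 by omega), sub_zero]

end Pool.Agent.TH41.BL.PL10f
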