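import Mathlib
import Pool.Agent.Helper843.Haar
import Pool.Agent.TH41.BL.Stm11

set_option autoImplicit false

open MeasureTheory Filter Topology Metric

namespace Pool.Agent.TH41.BL.RO10f

open Pool.Agent.Helper843.Haar (exists_onb1 exists_onb2 exists_UG)

abbrev EE (k : ℕ) : Type := EuclideanSpace ℝ (Fin (k + 2))

abbrev UU (k : ℕ) : Type := unitary (EE k →L[ℝ] EE k)

instance contStar (k : ℕ) : ContinuousStar (EE k →L[ℝ] EE k) :=
  ⟨by
    have := (ContinuousLinearMap.adjoint (𝕜 := ℝ) (E := EE k) (F := EE k)).continuous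
    exact this⟩

instance compUU (k : ℕ) : CompactSpace (UU k) := by
  have hb : Bornology.IsBounded
      ((unitary (EE k →L[ℝ] EE k) : Submonoid _) : Set (EE k →L[ℝ] EE k)) := by
    rw [isBounded_iff_forall_norm_le]
    refine ⟨1, fun x hx => ?_⟩
    refine ContinuousLinearMap.opNorm_le_bound _ zero_le_one fun y => ?_
    have := (Unitary.linearIsometryEquiv (⟨x, hx⟩ : unitary (EE k →L[ℝ] EE k))).norm_map y
    rw [one_mul]
    exact this.le
  exact isCompact_iff_compactSpace.1 (isCompact_of_isClosed_isBounded isClosed_unitary hb)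

instance tgUU (k : ℕ) : IsTopologicalGroup (UU k) := inferInstance
noncomputable instance measUU (k : ℕ) : MeasurableSpace (UU k) := inferInstance
instance borelUU (k : ℕ) : BorelSpace (UU k) := inferInstance
instance scUU (k : ℕ) : SecondCountableTopology (UU k) := inferInstance

noncomputable def hm (k : ℕ) : Measure (UU k) :=
  Measure.haarMeasure (⊤ : TopologicalSpace.PositiveCompacts (UU k))

instance (k : ℕ) : IsProbabilityMeasure (hm k) := ⟨by
  have := Measure.haarMeasure_self (K₀ := (⊤ : TopologicalSpace.PositiveCompacts (UU k)))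
  simpa [hm] using this⟩

instance (k : ℕ) : (hm k).IsMulLeftInvariant := by unfold hm; infer_instance

/-- inverse action -/
noncomputable def act {k : ℕ} (Q : UU k) (x : EE k) : EE k :=
  ((Q⁻¹ : UU k) : EE k →L[ℝ] EE k) x

theorem act_norm {k : ℕ} (Q : UU k) (x : EE k) : ‖act Q x‖ = ‖x‖ := Unitary.norm_map _ _

theorem act_inner {k : ℕ} (Q : UU k) (x y : EE k) :
    inner ℝ (act Q x) (act Q y) = inner ℝ x y := Unitary.inner_map_map _ _ _

theorem act_continuous {k : ℕ} : Continuous (fun p : UU k × EE k => act p.1 p.2) := by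
  unfold act
  exact (continuous_subtype_val.comp (continuous_inv.comp continuous_fst)).clm_apply continuous_snd

theorem act_mul {k : ℕ} (g Q : UU k) (x : EE k) :
    act (g⁻¹ * Q) x = act Q ((g : EE k →L[ℝ] EE k) x) := by
  simp [act, mul_inv_rev]

theorem act_smul {k : ℕ} (Q : UU k) (c : ℝ) (x : EE k) : act Q (c • x) = c • act Q x := by
  unfold act
  rw [map_smul]

/-- the action as a measurable equivalence -/
noncomputable def ae {k : ℕ} (Q : UU k) : EE k ≃ᵐ EE k :=
  (Unitary.linearIsometryEquiv (Q⁻¹ : UU k)).toHomeomorph.toMeasurableEquiv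

theorem ae_apply {k : ℕ} (Q : UU k) (x : EE k) : ae Q x = act Q x := rfl

theorem ae_mp {k : ℕ} (Q : UU k) : MeasurePreserving (ae Q) (volume : Measure (EE k)) volume :=
  (Unitary.linearIsometryEquiv (Q⁻¹ : UU k)).measurePreserving

attribute [irreducible] act ae hm

variable {k : ℕ}

noncomputable def II (H : EE k × EE k → ℝ) (x y : EE k) : ℝ :=
  ∫ Q, H (act Q x, act Q y) ∂(hm k)

theorem II_shift (H : EE k × EE k → ℝ) (g : UU k) (x y : EE k) :
    II H ((g : EE k →L[ℝ] EE k) x) ((g : EE k →L[ℝ] EE k) y) = II H x y := by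
  unfold II
  have h := integral_mul_left_eq_self (μ := hm k) (fun Q => H (act Q x, act Q y)) g⁻¹
  simpa only [act_mul] using h

theorem finr : Module.finrank ℝ (EE k) = k + 2 := by simp

theorem exists_dir (x y : EE k) (hx : ‖x‖ = 1) (hy : ‖y‖ = 1) :
    ∃ u : EE k, ‖u‖ = 1 ∧ inner ℝ x u = 0 ∧
      y = (inner ℝ x y) • x + √(1 - (inner ℝ x y) ^ 2) • u := by
  set t : ℝ := inner ℝ x y with ht
  set z : EE k := y - t • x with hz
  have hxx : inner ℝ x x = (1 : ℝ) := by rw [real_inner_self_eq_norm_sq, hx]; norm_num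
  have hxz : inner ℝ x z = (0 : ℝ) := by
    rw [hz, inner_sub_right, inner_smul_right, hxx, ← ht]; ring
  have hzz : ‖z‖ ^ 2 = 1 - t ^ 2 := by
    rw [← real_inner_self_eq_norm_sq]
    conv_lhs => rw [hz]
    rw [inner_sub_left, inner_sub_right, inner_sub_right, inner_smul_left, inner_smul_right,
      inner_smul_left, inner_smul_right, hxx, real_inner_self_eq_norm_sq, hy, real_inner_comm x y,
      ← ht]
    simp; ring
  by_cases h0 : z = 0
  · obtain ⟨b, hb⟩ := exists_onb1 (n := k + 1) (E := EE k) finr x hx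
    refine ⟨b 1, b.orthonormal.1 1, ?_, ?_⟩
    · rw [← hb]
      exact b.orthonormal.2 (by simp)
    · have h1 : 1 - t ^ 2 = 0 := by rw [← hzz, h0]; simp
      rw [h1, Real.sqrt_zero, zero_smul, add_zero]
      have : y - t • x = 0 := by rw [← hz]; exact h0
      exact sub_eq_zero.1 this
  · have hn : ‖z‖ ≠ 0 := norm_ne_zero_iff.2 h0
    refine ⟨‖z‖⁻¹ • z, ?_, ?_, ?_⟩
    · rw [norm_smul, norm_inv, norm_norm, inv_mul_cancel₀ hn]
    · rw [inner_smul_right, hxz, mul_zero]
    · rw [← hzz, Real.sqrt_sq (norm_nonneg z), smul_smul, mul_inv_cancel₀ hn, one_smul, hz]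
      abel

theorem II_eq (H : EE k × EE k → ℝ) (x y x' y' : EE k) (hx : ‖x‖ = 1) (hy : ‖y‖ = 1)
    (hx' : ‖x'‖ = 1) (hy' : ‖y'‖ = 1) (h : inner ℝ x y = inner ℝ x' y') :
    II H x y = II H x' y' := by
  obtain ⟨u, hu, hxu, hyu⟩ := exists_dir x y hx hy
  obtain ⟨u', hu', hxu', hyu'⟩ := exists_dir x' y' hx' hy'
  obtain ⟨b, hb0, hb1⟩ := exists_onb2 (E := EE k) finr x u hx hu hxu
  obtain ⟨c, hc0, hc1⟩ := exists_onb2 (E := EE k) finr x' u' hx' hu' hxu'
  obtain ⟨g, hg⟩ := exists_UG b c
  have h0 := hg 0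
  have h1 := hg 1
  rw [hb0, hc0] at h0
  rw [hb1, hc1] at h1
  have h2 : (g : EE k →L[ℝ] EE k) y = y' := by
    rw [hyu, hyu', map_add, map_smul, map_smul, h0, h1, h]
  rw [← II_shift H g x y, h0, h2]

theorem II_continuous (H : EE k × EE k → ℝ) (hH : Continuous H) :
    Continuous fun p : EE k × EE k => II H p.1 p.2 := by
  have hc : Continuous (fun q : (EE k × EE k) × UU k => H (act q.2 q.1.1, act q.2 q.1.2)) := by
    have h1 : Continuous (fun q : (EE k × EE k) × UU k => act q.2 q.1.1) :=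
      act_continuous.comp (f := fun q : (EE k × EE k) × UU k => (q.2, q.1.1))
        (continuous_snd.prodMk (continuous_fst.comp continuous_fst))
    have h2 : Continuous (fun q : (EE k × EE k) × UU k => act q.2 q.1.2) :=
      act_continuous.comp (f := fun q : (EE k × EE k) × UU k => (q.2, q.1.2))
        (continuous_snd.prodMk (continuous_snd.comp continuous_fst))
    exact hH.comp (h1.prodMk h2)
  have h := continuous_parametric_integral_of_continuous (μ := hm k)
    (f := fun (p : EE k × EE k) (Q : UU k) => H (act Q p.1, act Q p.2)) hc isCompact_univ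
  simpa only [Measure.restrict_univ, II] using h

/-- the uniform measure on the ball -/
noncomputable def nu (k : ℕ) : Measure (EE k) := volume.restrict (ball 0 1)

instance : IsFiniteMeasure (nu k) := by
  unfold nu
  exact ⟨by rw [Measure.restrict_apply_univ]; exact measure_ball_lt_top⟩

noncomputable def nz (u : EE k) : EE k := ‖u‖⁻¹ • u

theorem norm_nz {u : EE k} (hu : u ≠ 0) : ‖nz u‖ = 1 := by
  unfold nz
  rw [norm_smul, norm_inv, norm_norm, inv_mul_cancel₀ (norm_ne_zero_iff.2 hu)]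

theorem norm_nz_le (u : EE k) : ‖nz u‖ ≤ 1 := by
  by_cases hu : u = 0
  · rw [hu]; simp [nz]
  · exact (norm_nz hu).le

theorem act_nz (Q : UU k) (u : EE k) : act Q (nz u) = nz (act Q u) := by
  unfold nz
  rw [act_norm, act_smul]

theorem measurable_nz : Measurable (nz : EE k → EE k) := by
  unfold nz
  exact measurable_norm.inv.smul measurable_id

theorem mp (Q : UU k) : MeasurePreserving (ae Q) (nu k) (nu k) := by
  have h1 := ae_mp Q
  have h2 : (ae Q) ⁻¹' (ball (0 : EE k) 1) = ball 0 1 := by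
    ext x
    simp only [Set.mem_preimage, mem_ball_zero_iff, ae_apply, act_norm]
  have h3 := h1.restrict_preimage (measurableSet_ball (x := (0 : EE k)) (ε := 1))
  rw [h2] at h3
  exact h3

theorem inv1 (Q : UU k) (φ : EE k → ℝ) : ∫ u, φ (act Q u) ∂(nu k) = ∫ u, φ u ∂(nu k) := by
  simpa only [ae_apply] using (mp Q).integral_comp' φ

theorem inv2 (Q : UU k) (φ : EE k → EE k → ℝ) :
    ∫ u, ∫ w, φ (act Q u) (act Q w) ∂(nu k) ∂(nu k) = ∫ u, ∫ w, φ u w ∂(nu k) ∂(nu k) := by
  have h1 : ∀ u, ∫ w, φ (act Q u) (act Q w) ∂(nu k) = ∫ w, φ (act Q u) w ∂(nu k) := fun u =>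
    inv1 Q (fun w => φ (act Q u) w)
  simp only [h1]
  exact inv1 Q (fun u => ∫ w, φ u w ∂(nu k))

theorem bound (H : EE k × EE k → ℝ) (hH : Continuous H) : ∃ C : ℝ, ∀ x y : EE k, ‖x‖ ≤ 1 →
    ‖y‖ ≤ 1 → |H (x, y)| ≤ C := by
  obtain ⟨C, hC⟩ := ((isCompact_closedBall (0 : EE k) 1).prod
    (isCompact_closedBall (0 : EE k) 1)).exists_bound_of_continuousOn hH.continuousOn
  exact ⟨C, fun x y hx hy => hC (x, y) ⟨mem_closedBall_zero_iff.2 hx, mem_closedBall_zero_iff.2 hy⟩⟩

theorem meas1 (H : EE k × EE k → ℝ) (hH : Continuous H) :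
    Measurable (fun q : (EE k × EE k) × UU k => H (act q.2 (nz q.1.1), act q.2 (nz q.1.2))) := by
  have h1 : Measurable (fun q : (EE k × EE k) × UU k => act q.2 (nz q.1.1)) :=
    act_continuous.measurable.comp (f := fun q : (EE k × EE k) × UU k => (q.2, nz q.1.1))
      (measurable_snd.prodMk (measurable_nz.comp (measurable_fst.comp measurable_fst)))
  have h2 : Measurable (fun q : (EE k × EE k) × UU k => act q.2 (nz q.1.2)) :=
    act_continuous.measurable.comp (f := fun q : (EE k × EE k) × UU k => (q.2, nz q.1.2))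
      (measurable_snd.prodMk (measurable_nz.comp (measurable_snd.comp measurable_fst)))
  exact hH.measurable.comp (h1.prodMk h2)

theorem int1 (H : EE k × EE k → ℝ) (hH : Continuous H) :
    Integrable (fun q : (EE k × EE k) × UU k => H (act q.2 (nz q.1.1), act q.2 (nz q.1.2)))
      (((nu k).prod (nu k)).prod (hm k)) := by
  obtain ⟨C, hC⟩ := bound H hH
  refine Integrable.of_bound (meas1 H hH).aestronglyMeasurable C (Eventually.of_forall fun q => ?_)
  rw [Real.norm_eq_abs]
  exact hC _ _ (by rw [act_norm]; exact norm_nz_le _) (by rw [act_norm]; exact norm_nz_le _)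

theorem fub2 (H : EE k × EE k → ℝ) (hH : Continuous H) :
    ∫ u, ∫ w, II H (nz u) (nz w) ∂(nu k) ∂(nu k) =
      ∫ u, ∫ w, H (nz u, nz w) ∂(nu k) ∂(nu k) := by
  have hi := int1 H hH
  have e1 : ∫ u, ∫ w, II H (nz u) (nz w) ∂(nu k) ∂(nu k) =
      ∫ p : EE k × EE k, II H (nz p.1) (nz p.2) ∂((nu k).prod (nu k)) :=
    (integral_prod (fun p : EE k × EE k => II H (nz p.1) (nz p.2)) hi.integral_prod_left).symm
  have e2 : ∫ p : EE k × EE k, II H (nz p.1) (nz p.2) ∂((nu k).prod (nu k)) =
      ∫ Q, ∫ p : EE k × EE k, H (act Q (nz p.1), act Q (nz p.2)) ∂((nu k).prod (nu k)) ∂(hm k) :=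
    integral_integral_swap hi
  have hi3 : ∀ Q : UU k, Integrable (fun p : EE k × EE k => H (act Q (nz p.1), act Q (nz p.2)))
      ((nu k).prod (nu k)) := by
    intro Q
    obtain ⟨C, hC⟩ := bound H hH
    refine Integrable.of_bound ((meas1 H hH).comp (measurable_id.prodMk
      measurable_const)).aestronglyMeasurable C (Eventually.of_forall fun q => ?_)
    rw [Real.norm_eq_abs]
    exact hC _ _ (by simp only [act_norm]; exact norm_nz_le _)
      (by simp only [act_norm]; exact norm_nz_le _)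
  have e3 : ∀ Q : UU k, ∫ p : EE k × EE k, H (act Q (nz p.1), act Q (nz p.2))
      ∂((nu k).prod (nu k)) = ∫ u, ∫ w, H (nz u, nz w) ∂(nu k) ∂(nu k) := by
    intro Q
    rw [integral_prod _ (hi3 Q)]
    have := inv2 Q (fun u w => H (nz u, nz w))
    simp only [act_nz]
    exact this
  rw [e1, e2]
  simp only [e3]
  rw [integral_const]
  simp

theorem fub1 (H : EE k × EE k → ℝ) (hH : Continuous H) :
    ∫ u, II H (nz u) (nz u) ∂(nu k) = ∫ u, H (nz u, nz u) ∂(nu k) := by
  have hi : Integrable (fun q : EE k × UU k => H (act q.2 (nz q.1), act q.2 (nz q.1)))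
      ((nu k).prod (hm k)) := by
    obtain ⟨C, hC⟩ := bound H hH
    refine Integrable.of_bound ((meas1 H hH).comp ((measurable_fst.prodMk measurable_fst).prodMk
      measurable_snd)).aestronglyMeasurable C (Eventually.of_forall fun q => ?_)
    rw [Real.norm_eq_abs]
    exact hC _ _ (by rw [act_norm]; exact norm_nz_le _) (by rw [act_norm]; exact norm_nz_le _)
  have e2 : ∫ u, II H (nz u) (nz u) ∂(nu k) =
      ∫ Q, ∫ u, H (act Q (nz u), act Q (nz u)) ∂(nu k) ∂(hm k) :=
    integral_integral_swap hi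
  have e3 : ∀ Q : UU k, ∫ u, H (act Q (nz u), act Q (nz u)) ∂(nu k) =
      ∫ u, H (nz u, nz u) ∂(nu k) := by
    intro Q
    simp only [act_nz]
    exact inv1 Q (fun u => H (nz u, nz u))
  rw [e2]
  simp only [e3]
  rw [integral_const]
  simp

theorem ae_ne : ∀ᵐ u ∂(nu k), u ≠ 0 := by
  refine ae_restrict_of_ae ?_
  rw [ae_iff]
  simp

theorem integrable_act (H : EE k × EE k → ℝ) (hH : Continuous H) (x y : EE k) (hx : ‖x‖ ≤ 1)
    (hy : ‖y‖ ≤ 1) : Integrable (fun Q => H (act Q x, act Q y)) (hm k) := by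
  obtain ⟨C, hC⟩ := bound H hH
  have h1 : Continuous (fun Q : UU k => act Q x) :=
    act_continuous.comp (f := fun Q : UU k => (Q, x)) (continuous_id.prodMk continuous_const)
  have h2 : Continuous (fun Q : UU k => act Q y) :=
    act_continuous.comp (f := fun Q : UU k => (Q, y)) (continuous_id.prodMk continuous_const)
  have hc : Continuous (fun Q : UU k => H (act Q x, act Q y)) := hH.comp (h1.prodMk h2)
  refine Integrable.of_bound hc.aestronglyMeasurable C (Eventually.of_forall fun Q => ?_)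
  rw [Real.norm_eq_abs]
  exact hC _ _ (by rw [act_norm]; exact hx) (by rw [act_norm]; exact hy)

/-- the clamped argument -/
noncomputable def cl (t : ℝ) : ℝ := max (-1) (min 1 t)

theorem cl_continuous : Continuous cl := by
  unfold cl
  exact continuous_const.max (continuous_const.min continuous_id)

theorem cl_sq (t : ℝ) : cl t ^ 2 ≤ 1 := by
  have h1 : -1 ≤ cl t := le_max_left _ _
  have h2 : cl t ≤ 1 := max_le (by norm_num) (min_le_left _ _)
  nlinarith

theorem cl_eq (t : ℝ) (h1 : -1 ≤ t) (h2 : t ≤ 1) : cl t = t := by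
  unfold cl
  rw [min_eq_right h2, max_eq_right h1]

/-- the second vector -/
noncomputable def yt (e f : EE k) (t : ℝ) : EE k := cl t • e + √(1 - cl t ^ 2) • f

theorem yt_inner (e f : EE k) (he : ‖e‖ = 1) (hef : inner ℝ e f = 0) (t : ℝ) :
    inner ℝ e (yt e f t) = cl t := by
  unfold yt
  rw [inner_add_right, inner_smul_right, inner_smul_right, hef, real_inner_self_eq_norm_sq, he]
  ring

theorem yt_norm (e f : EE k) (he : ‖e‖ = 1) (hf : ‖f‖ = 1) (hef : inner ℝ e f = 0) (t : ℝ) :
    ‖yt e f t‖ = 1 := by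
  have h1 : ‖yt e f t‖ ^ 2 = 1 := by
    rw [← real_inner_self_eq_norm_sq]
    unfold yt
    rw [inner_add_left, inner_add_right, inner_add_right, inner_smul_left, inner_smul_right,
      inner_smul_left, inner_smul_right, inner_smul_left, inner_smul_right, inner_smul_left,
      inner_smul_right, real_inner_comm e f, hef, real_inner_self_eq_norm_sq,
      real_inner_self_eq_norm_sq, he, hf]
    have h2 := Real.mul_self_sqrt (sub_nonneg.2 (cl_sq t))
    simp only [conj_trivial]
    nlinarith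
  have h3 : ‖yt e f t‖ = √(‖yt e f t‖ ^ 2) := (Real.sqrt_sq (norm_nonneg _)).symm
  rw [h3, h1, Real.sqrt_one]

theorem yt_continuous (e f : EE k) : Continuous (yt e f) := by
  unfold yt
  exact (cl_continuous.smul continuous_const).add
    ((Real.continuous_sqrt.comp (continuous_const.sub (cl_continuous.pow 2))).smul
      continuous_const)

theorem g_eq (H : EE k × EE k → ℝ) (e f : EE k) (he : ‖e‖ = 1) (hf : ‖f‖ = 1)
    (hef : inner ℝ e f = 0) (x y : EE k) (hx : ‖x‖ = 1) (hy : ‖y‖ = 1) :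
    II H e (yt e f (inner ℝ x y)) = II H x y := by
  refine II_eq H e _ x y he (yt_norm e f he hf hef _) hx hy ?_
  rw [yt_inner e f he hef]
  have h := abs_real_inner_le_norm x y
  rw [hx, hy, one_mul, abs_le] at h
  exact cl_eq _ h.1 h.2

theorem inner_nz (u w : EE k) : inner ℝ u w / (‖u‖ * ‖w‖) = inner ℝ (nz u) (nz w) := by
  unfold nz
  rw [inner_smul_left, inner_smul_right, conj_trivial, div_eq_mul_inv, mul_inv]
  ring

open Pool.Agent.TH41.BL

theorem ro10 : S10_rot := by
  intro n G s hn hcont hpos hnp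
  obtain ⟨k, rfl⟩ : ∃ k, n = k + 2 := ⟨n - 2, by omega⟩
  obtain ⟨H, hHc, hHG⟩ : ∃ H : EE k × EE k → ℝ, Continuous H ∧
      ∀ x y : EE k, ‖x‖ = 1 → ‖y‖ = 1 → H (x, y) = G x y := by
    have hcl : IsClosed ((sphere (0 : EE k) 1) ×ˢ (sphere (0 : EE k) 1)) :=
      isClosed_sphere.prod isClosed_sphere
    obtain ⟨g, hg⟩ := ContinuousMap.exists_restrict_eq hcl
      (⟨fun p => G p.1.1 p.1.2, hcont.comp_continuous continuous_subtype_val fun p => p.2⟩ :
        C(((sphere (0 : EE k) 1) ×ˢ (sphere (0 : EE k) 1) : Set (EE k × EE k)), ℝ))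
    refine ⟨g, g.continuous, fun x y hx hy => ?_⟩
    have hm : (x, y) ∈ ((sphere (0 : EE k) 1) ×ˢ (sphere (0 : EE k) 1) : Set (EE k × EE k)) :=
      ⟨mem_sphere_zero_iff_norm.2 hx, mem_sphere_zero_iff_norm.2 hy⟩
    exact DFunLike.congr_fun hg ⟨(x, y), hm⟩
  obtain ⟨e, f, he, hf, hef⟩ : ∃ e f : EE k, ‖e‖ = 1 ∧ ‖f‖ = 1 ∧ inner ℝ e f = (0 : ℝ) :=
    ⟨EuclideanSpace.basisFun (Fin (k + 2)) ℝ 0, EuclideanSpace.basisFun (Fin (k + 2)) ℝ 1,
      (EuclideanSpace.basisFun (Fin (k + 2)) ℝ).orthonormal.1 0,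
      (EuclideanSpace.basisFun (Fin (k + 2)) ℝ).orthonormal.1 1,
      (EuclideanSpace.basisFun (Fin (k + 2)) ℝ).orthonormal.2 (by simp)⟩
  have hgc : Continuous fun t : ℝ => II H e (yt e f t) :=
    (II_continuous H hHc).comp (f := fun t : ℝ => (e, yt e f t))
      (continuous_const.prodMk (yt_continuous e f))
  refine ⟨fun t => II H e (yt e f t), ⟨hgc.continuousOn, ?_, ?_⟩, ?_, ?_⟩
  · intro m x a hx
    have e1 : ∀ i j, II H e (yt e f (inner ℝ (x i) (x j))) =
        ∫ Q, H (act Q (x i), act Q (x j)) ∂(hm k) := fun i j =>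
      g_eq H e f he hf hef (x i) (x j) (hx i) (hx j)
    have hi : ∀ i j, Integrable (fun Q => a i * a j * H (act Q (x i), act Q (x j))) (hm k) :=
      fun i j => (integrable_act H hHc (x i) (x j) (hx i).le (hx j).le).const_mul _
    have e2 : ∑ i, ∑ j, a i * a j * II H e (yt e f (inner ℝ (x i) (x j))) =
        ∫ Q, ∑ i, ∑ j, a i * a j * H (act Q (x i), act Q (x j)) ∂(hm k) := by
      rw [integral_finsetSum _ fun i _ => integrable_finsetSum _ fun j _ => hi i j]
      refine Finset.sum_congr rfl fun i _ => ?_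
      rw [integral_finsetSum _ fun j _ => hi i j]
      refine Finset.sum_congr rfl fun j _ => ?_
      rw [e1, integral_const_mul]
    show 0 ≤ ∑ i, ∑ j, a i * a j * II H e (yt e f (inner ℝ (x i) (x j)))
    rw [e2]
    refine integral_nonneg fun Q => ?_
    have h3 := hpos m (fun i => act Q (x i)) a fun i => by rw [act_norm]; exact hx i
    have h4 : ∀ i j, H (act Q (x i), act Q (x j)) = G (act Q (x i)) (act Q (x j)) := fun i j =>
      hHG _ _ (by rw [act_norm]; exact hx i) (by rw [act_norm]; exact hx j)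
    simp only [Pi.zero_apply, h4]
    exact h3
  · intro t ht1 ht2
    show ∫ Q, H (act Q e, act Q (yt e f t)) ∂(hm k) ≤ 0
    refine integral_nonpos fun Q => ?_
    have h1 : ‖act Q e‖ = 1 := by rw [act_norm]; exact he
    have h2 : ‖act Q (yt e f t)‖ = 1 := by rw [act_norm]; exact yt_norm e f he hf hef t
    show H (act Q e, act Q (yt e f t)) ≤ 0
    rw [hHG _ _ h1 h2]
    refine hnp _ _ h1 h2 ?_
    rw [act_inner, yt_inner e f he hef]
    exact max_le (ht1.trans ht2) ((min_le_right _ _).trans ht2)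
  · show ∫ u, ∫ w, II H e (yt e f (inner ℝ u w / (‖u‖ * ‖w‖))) ∂(nu k) ∂(nu k) =
      ∫ u, ∫ w, G (nz u) (nz w) ∂(nu k) ∂(nu k)
    have e1 : ∫ u, ∫ w, II H e (yt e f (inner ℝ u w / (‖u‖ * ‖w‖))) ∂(nu k) ∂(nu k) =
        ∫ u, ∫ w, II H (nz u) (nz w) ∂(nu k) ∂(nu k) := by
      refine integral_congr_ae ?_
      filter_upwards [ae_ne] with u hu
      refine integral_congr_ae ?_
      filter_upwards [ae_ne] with w hw
      rw [inner_nz]
      exact g_eq H e f he hf hef _ _ (norm_nz hu) (norm_nz hw)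
    have e2 : ∫ u, ∫ w, G (nz u) (nz w) ∂(nu k) ∂(nu k) =
        ∫ u, ∫ w, H (nz u, nz w) ∂(nu k) ∂(nu k) := by
      refine integral_congr_ae ?_
      filter_upwards [ae_ne] with u hu
      refine integral_congr_ae ?_
      filter_upwards [ae_ne] with w hw
      exact (hHG _ _ (norm_nz hu) (norm_nz hw)).symm
    rw [e1, e2, fub2 H hHc]
  · show II H e (yt e f 1) * vb (k + 2) = ∫ u, G (nz u) (nz u) ∂(nu k)
    have e2 : ∫ u, G (nz u) (nz u) ∂(nu k) = ∫ u, H (nz u, nz u) ∂(nu k) := by
      refine integral_congr_ae ?_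
      filter_upwards [ae_ne] with u hu
      exact (hHG _ _ (norm_nz hu) (norm_nz hu)).symm
    have e3 : ∫ u, II H (nz u) (nz u) ∂(nu k) = ∫ u, II H e (yt e f 1) ∂(nu k) := by
      refine integral_congr_ae ?_
      filter_upwards [ae_ne] with u hu
      have h1 : inner ℝ (nz u) (nz u) = (1 : ℝ) := by
        rw [real_inner_self_eq_norm_sq, norm_nz hu]; norm_num
      rw [← g_eq H e f he hf hef _ _ (norm_nz hu) (norm_nz hu), h1]
    have h5 : (nu k).real Set.univ = vb (k + 2) := by
      unfold nu vb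
      rw [measureReal_def, Measure.restrict_apply_univ]
    rw [e2, ← fub1 H hHc, e3, integral_const, h5, smul_eq_mul, mul_comm]

end Pool.Agent.TH41.BL.RO10f
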