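import Pool.Agent.TH41.BL.ASM9
import Pool.Agent.TH41.BL.OP10
import Pool.Agent.TH41.BL.RO10
import Pool.Agent.TH41.BL.PL10
import Pool.Agent.TH41.BL.KE10
import Pool.Agent.TH41.BL.CB10
import Pool.Agent.TH41.BL.GA10
import Pool.Agent.TH41.BL.MN10

/-!
Project BL9 (helper41, MP_b5f63d_co): assembly.
-/

set_option autoImplicit false

namespace Pool.Agent.TH41.BL

theorem k10_op : S10_op := OP10f.op10 DM7f.dm EN7f.en LO7f.lo TP7f.tp PO7f.po k8_alg k8_ray k8_typ
  k8_ps k8_st
theorem k10_rot : S10_rot := RO10f.ro10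
theorem k10_cell : S10_cell := PL10f.pl10
theorem k10_ker : S10_ker := KE10f.ke10 k10_rot k10_cell
theorem k10_code : S10_code := CB10f.cb10 PO7f.po k8_alg k10_op k10_ker
theorem k10_gauss : S10_gauss := GA10f.ga10 k10_code
theorem k10_mx : S10_mx := MN10f.mx10 k10_gauss
theorem k10_main : S10_main := MN10f.mn10 k10_mx
theorem k10_fin : S10_fin := MN10f.fi10 k10_main

end Pool.Agent.TH41.BL
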