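import Mathlib
import Pool.Agent.TH41.BL.Stm6

/-!
Project BL6, piece AB (written by helper720): the absolute value of a symmetric matrix.
-/

set_option autoImplicit false

open MeasureTheory Filter Topology

namespace Pool.Agent.TH41.BL.AB7f

open Pool.Agent.TH41.BL

theorem psd_of {V : Type} [Fintype V] [DecidableEq V] (U : Matrix V V ℝ) (c : V → ℝ)
    (hc : ∀ i, 0 ≤ c i) : PSD (U * Matrix.diagonal c * U.transpose) := by
  refine ⟨?_, fun x => ?_⟩
  · simp [Matrix.transpose_mul, Matrix.diagonal_transpose, Matrix.mul_assoc]
  · have h : ∀ a b, (U * Matrix.diagonal c * U.transpose) a b = ∑ i, U a i * c i * U b i := by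
      intro a b
      rw [Matrix.mul_apply]
      refine Finset.sum_congr rfl fun i _ => ?_
      rw [Matrix.mul_diagonal, Matrix.transpose_apply]
    have h2 : ∑ a, ∑ b, x a * (U * Matrix.diagonal c * U.transpose) a b * x b =
        ∑ i, c i * (∑ a, x a * U a i) ^ 2 := by
      calc ∑ a, ∑ b, x a * (U * Matrix.diagonal c * U.transpose) a b * x b
          = ∑ a, ∑ b, ∑ i, c i * ((x a * U a i) * (x b * U b i)) := by
            refine Finset.sum_congr rfl fun a _ => Finset.sum_congr rfl fun b _ => ?_
            rw [h, Finset.mul_sum, Finset.sum_mul]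
            refine Finset.sum_congr rfl fun i _ => ?_
            ring
        _ = ∑ i, ∑ a, ∑ b, c i * ((x a * U a i) * (x b * U b i)) := by
            rw [Finset.sum_congr rfl (fun a _ => Finset.sum_comm), Finset.sum_comm]
        _ = ∑ i, c i * (∑ a, x a * U a i) ^ 2 := by
            refine Finset.sum_congr rfl fun i _ => ?_
            rw [sq, Finset.sum_mul_sum, Finset.mul_sum]
            refine Finset.sum_congr rfl fun a _ => ?_
            rw [Finset.mul_sum]
    rw [h2]
    exact Finset.sum_nonneg fun i _ => mul_nonneg (hc i) (sq_nonneg _)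

theorem diag_aeval {V : Type} [Fintype V] [DecidableEq V] (U : Matrix V V ℝ) (μ : V → ℝ)
    (hU : U.transpose * U = 1) (hU' : U * U.transpose = 1) (q : Polynomial ℝ) :
    Polynomial.aeval (U * Matrix.diagonal μ * U.transpose) q =
      U * Matrix.diagonal (fun i => q.eval (μ i)) * U.transpose := by
  induction q using Polynomial.induction_on with
  | C a =>
    rw [Polynomial.aeval_C]
    have : Matrix.diagonal (fun i => (Polynomial.C a).eval (μ i)) = a • (1 : Matrix V V ℝ) := by
      ext i j
      by_cases hij : i = j
      · subst hij; simp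
      · simp [hij]
    rw [this, Matrix.mul_smul, Matrix.mul_one, Matrix.smul_mul, hU', Algebra.algebraMap_eq_smul_one]
  | add p q hp hq =>
    rw [map_add, hp, hq, ← Matrix.add_mul, ← Matrix.mul_add, Matrix.diagonal_add]
    simp [Polynomial.eval_add]
  | monomial n a h =>
    have e : Polynomial.C a * Polynomial.X ^ (n + 1) =
        Polynomial.C a * Polynomial.X ^ n * Polynomial.X := by rw [pow_succ, mul_assoc]
    rw [e, map_mul, h, Polynomial.aeval_X]
    have e2 : U * Matrix.diagonal (fun i => (Polynomial.C a * Polynomial.X ^ n).eval (μ i)) *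
        U.transpose * (U * Matrix.diagonal μ * U.transpose) =
        U * (Matrix.diagonal (fun i => (Polynomial.C a * Polynomial.X ^ n).eval (μ i)) *
          (U.transpose * U) * Matrix.diagonal μ) * U.transpose := by
      simp only [Matrix.mul_assoc]
    rw [e2, hU, Matrix.mul_one, Matrix.diagonal_mul_diagonal]
    simp [Polynomial.eval_mul]

theorem hs_self {V : Type} [Fintype V] [DecidableEq V] (S : Matrix V V ℝ)
    (hS : S.transpose = S) : hs S S = (S * S).trace := by
  unfold hs
  rw [Matrix.trace]
  refine Finset.sum_congr rfl fun a _ => ?_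
  rw [Matrix.diag_apply, Matrix.mul_apply]
  refine Finset.sum_congr rfl fun b _ => ?_
  have : S b a = S a b := by
    have := congrFun (congrFun hS a) b
    simpa [Matrix.transpose_apply] using this
  rw [this]

theorem ab7 : S7_abs := by
  intro V _ _ T hT
  have hH : T.IsHermitian := by
    rw [Matrix.IsHermitian, Matrix.conjTranspose_eq_transpose_of_trivial]
    exact hT
  obtain ⟨U, μ, hU, hU', hTe⟩ : ∃ (U : Matrix V V ℝ) (μ : V → ℝ), U.transpose * U = 1 ∧
      U * U.transpose = 1 ∧ T = U * Matrix.diagonal μ * U.transpose := by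
    refine ⟨(hH.eigenvectorUnitary : Matrix V V ℝ), hH.eigenvalues, ?_, ?_, ?_⟩
    · have := Unitary.coe_star_mul_self hH.eigenvectorUnitary
      rwa [Matrix.star_eq_conjTranspose, Matrix.conjTranspose_eq_transpose_of_trivial] at this
    · have := Unitary.coe_star_mul_self hH.eigenvectorUnitary
      rw [Matrix.star_eq_conjTranspose, Matrix.conjTranspose_eq_transpose_of_trivial] at this
      exact mul_eq_one_comm.1 this
    · have := hH.spectral_theorem
      rw [Unitary.conjStarAlgAut_apply, Matrix.star_eq_conjTranspose,
        Matrix.conjTranspose_eq_transpose_of_trivial] at this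
      exact this
  set s : Finset ℝ := insert 0 (Finset.univ.image μ) with hs'
  set p : Polynomial ℝ := Lagrange.interpolate s id (fun x => |x|) with hp
  have hev : ∀ x ∈ s, p.eval x = |x| := by
    intro x hx
    have := Lagrange.eval_interpolate_at_node (s := s) (v := id) (fun x : ℝ => |x|)
      (Set.injOn_id _) hx
    simpa [hp] using this
  have hevμ : ∀ i, p.eval (μ i) = |μ i| := fun i => hev _ (by
    rw [hs']
    exact Finset.mem_insert_of_mem (Finset.mem_image_of_mem _ (Finset.mem_univ i)))
  have hpT : Polynomial.aeval T p = U * Matrix.diagonal (fun i => |μ i|) * U.transpose := by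
    rw [hTe, diag_aeval U μ hU hU' p]
    simp only [hevμ]
  have hsub : Polynomial.aeval T p - T =
      U * Matrix.diagonal (fun i => |μ i| - μ i) * U.transpose := by
    rw [hpT]
    conv_lhs => rw [hTe]
    rw [← Matrix.sub_mul, ← Matrix.mul_sub, Matrix.diagonal_sub]
  have hadd : Polynomial.aeval T p + T =
      U * Matrix.diagonal (fun i => |μ i| + μ i) * U.transpose := by
    rw [hpT]
    conv_lhs => rw [hTe]
    rw [← Matrix.add_mul, ← Matrix.mul_add, Matrix.diagonal_add]
  have hPSD : PSD (Polynomial.aeval T p) := by
    rw [hpT]; exact psd_of U _ fun i => abs_nonneg _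
  refine ⟨p, ?_, hPSD, ?_, ?_, ?_⟩
  · rw [Polynomial.coeff_zero_eq_eval_zero, hev 0 (Finset.mem_insert_self _ _), abs_zero]
  · rw [hsub]; exact psd_of U _ fun i => by linarith [le_abs_self (μ i)]
  · rw [hadd]; exact psd_of U _ fun i => by linarith [neg_abs_le (μ i)]
  · rw [hs_self _ hPSD.1, hs_self _ hT]
    congr 1
    have e1 : Polynomial.aeval T p * Polynomial.aeval T p = Polynomial.aeval T (p * p) := by
      rw [map_mul]
    have e2 : T * T = Polynomial.aeval T (Polynomial.X * Polynomial.X : Polynomial ℝ) := by
      rw [map_mul, Polynomial.aeval_X]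
    rw [e1, e2, hTe, diag_aeval U μ hU hU' (p * p), diag_aeval U μ hU hU' _]
    congr 3
    funext i
    simp only [Polynomial.eval_mul, hevμ, Polynomial.eval_X]
    exact abs_mul_abs_self _

end Pool.Agent.TH41.BL.AB7f
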