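import Mathlib
import Pool.Agent.TH41.BL.Stm9

/-! AL: positivity and algebra of the energy superoperator. -/

set_option autoImplicit false

open MeasureTheory Filter Topology

open scoped FourierTransform

namespace Pool.Agent.TH41.BL.AL8f

open Pool.Agent.TH41.BL

section gen
variable {V : Type} [Fintype V]

theorem symm_of {A : Matrix V V ℝ} (h : A.transpose = A) (a b : V) : A a b = A b a :=
  congrFun (congrFun h b) a

theorem quad (A : Matrix V V ℝ) (x : V → ℝ) :
    star x ⬝ᵥ (Matrix.mulVec A x) = ∑ a, ∑ b, x a * A a b * x b := by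
  simp only [dotProduct, Matrix.mulVec, star_trivial, Finset.mul_sum]
  refine Finset.sum_congr rfl fun a _ => Finset.sum_congr rfl fun b _ => ?_
  ring

theorem toPos {A : Matrix V V ℝ} (hA : PSD A) : A.PosSemidef := by
  rw [Matrix.posSemidef_iff_dotProduct_mulVec]
  constructor
  · rw [Matrix.IsHermitian, Matrix.conjTranspose_eq_transpose_of_trivial]
    exact hA.1
  · intro x
    rw [quad]
    exact hA.2 x

/-- the kernel of a positive matrix -/
theorem ker_of {A : Matrix V V ℝ} (hA : PSD A) {x : V → ℝ}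
    (hx : ∑ a, ∑ b, x a * A a b * x b = 0) (a : V) : ∑ b, A a b * x b = 0 := by
  have h1 := ((toPos hA).dotProduct_mulVec_zero_iff x).1 ((quad A x).trans hx)
  exact congrFun h1 a

/-- Schur products -/
theorem schur (hp : S7_pos) {A B : Matrix V V ℝ} (hA : PSD A) (hB : PSD B) :
    PSD (Matrix.of fun a b => A a b * B a b) := by
  constructor
  · ext a b
    simp only [Matrix.transpose_apply, Matrix.of_apply]
    rw [symm_of hA.1 b a, symm_of hB.1 b a]
  · intro x
    have h := hp.1 V _ B (hp.2.1 V x A hA) hB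
    refine h.trans (le_of_eq ?_)
    unfold hs
    refine Finset.sum_congr rfl fun a _ => Finset.sum_congr rfl fun b _ => ?_
    simp only [Matrix.of_apply]
    ring

end gen

section
variable {Ω : Type} [Fintype Ω] [DecidableEq Ω] {q m : ℕ} (pos : Ω → Fin q)

/-- the position as a real number -/
def xx (k : Fin m) (a : Fin m → Ω) : ℝ := ((pos (a k) : ℕ) : ℝ)

omit [Fintype Ω] [DecidableEq Ω] in
theorem sd_eq (a b : Fin m → Ω) : sd pos a b = ∑ k, (xx pos k a - xx pos k b) ^ 2 := rfl

omit [Fintype Ω] [DecidableEq Ω] in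
theorem sd_symm (a b : Fin m → Ω) : sd pos a b = sd pos b a := by
  rw [sd_eq, sd_eq]
  refine Finset.sum_congr rfl fun k _ => ?_
  ring

omit [Fintype Ω] [DecidableEq Ω] in
theorem sd_perm (σ : Equiv.Perm (Fin m)) (a b : Fin m → Ω) :
    sd pos (fun k => a (σ k)) (fun k => b (σ k)) = sd pos a b :=
  Equiv.sum_comp σ (fun k => (((pos (a k) : ℕ) : ℝ) - ((pos (b k) : ℕ) : ℝ)) ^ 2)

omit [Fintype Ω] [DecidableEq Ω] in
theorem sd_nonneg (a b : Fin m → Ω) : 0 ≤ sd pos a b :=
  Finset.sum_nonneg fun _ _ => sq_nonneg _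

omit [Fintype Ω] [DecidableEq Ω] in
theorem sd_le (a b : Fin m → Ω) : sd pos a b ≤ m * (q : ℝ) ^ 2 := by
  have h : ∀ k : Fin m, (xx pos k a - xx pos k b) ^ 2 ≤ (q : ℝ) ^ 2 := by
    intro k
    have h1 : xx pos k a ≤ q := by
      unfold xx
      exact_mod_cast (pos (a k)).2.le
    have h2 : xx pos k b ≤ q := by
      unfold xx
      exact_mod_cast (pos (b k)).2.le
    have h3 : 0 ≤ xx pos k a := Nat.cast_nonneg _
    have h4 : 0 ≤ xx pos k b := Nat.cast_nonneg _
    apply sq_le_sq'
    · linarith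
    · linarith
  rw [sd_eq]
  refine (Finset.sum_le_sum fun k _ => h k).trans ?_
  rw [Finset.sum_const, Finset.card_univ, Fintype.card_fin, nsmul_eq_mul]

omit [Fintype Ω] [DecidableEq Ω] in
theorem sd_congr {a c : Fin m → Ω} (h : hd (bX pos) a c = 0) (b : Fin m → Ω) :
    sd pos a b = sd pos c b := by
  have h1 : ∀ k, pos (a k) = pos (c k) := by
    intro k
    unfold hd at h
    rw [Finset.card_eq_zero, Finset.filter_eq_empty_iff] at h
    have h2 := h (Finset.mem_univ (k, pos (a k)))
    simp only [bX, ne_eq, decide_eq_decide, not_not, true_iff] at h2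
    exact h2.symm
  unfold sd
  refine Finset.sum_congr rfl fun k _ => ?_
  rw [h1 k]

omit [DecidableEq Ω] in
/-- the energy is nonnegative on the kernel -/
theorem energy_nonneg {C : Matrix (Fin m → Ω) (Fin m → Ω) ℝ} (hC : PSD C) {y : (Fin m → Ω) → ℝ}
    (hy : ∀ a, ∑ b, C a b * y b = 0) : 0 ≤ ∑ a, ∑ b, y a * Ae pos C a b * y b := by
  have hy' : ∀ b, ∑ a, y a * C a b = 0 := by
    intro b
    rw [← hy b]
    refine Finset.sum_congr rfl fun a _ => ?_
    rw [symm_of hC.1 a b]
    ring
  have e1 : ∀ a b, y a * Ae pos C a b * y b = ∑ k, (2 * ((y a * xx pos k a) * C a b *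
      (y b * xx pos k b)) - xx pos k a ^ 2 * y a * (C a b * y b) -
      xx pos k b ^ 2 * y b * (y a * C a b)) := by
    intro a b
    simp only [Ae, Matrix.of_apply]
    rw [sd_eq, ← Finset.sum_neg_distrib, Finset.sum_mul, Finset.mul_sum, Finset.sum_mul]
    refine Finset.sum_congr rfl fun k _ => ?_
    ring
  have e2 : ∑ a, ∑ b, y a * Ae pos C a b * y b = ∑ k, (2 * (∑ a, ∑ b, (y a * xx pos k a) * C a b *
      (y b * xx pos k b))) := by
    simp only [e1]
    calc ∑ a, ∑ b, ∑ k, (2 * ((y a * xx pos k a) * C a b *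
        (y b * xx pos k b)) - xx pos k a ^ 2 * y a * (C a b * y b) -
        xx pos k b ^ 2 * y b * (y a * C a b)) =
        ∑ a, ∑ k, ∑ b, (2 * ((y a * xx pos k a) * C a b *
        (y b * xx pos k b)) - xx pos k a ^ 2 * y a * (C a b * y b) -
        xx pos k b ^ 2 * y b * (y a * C a b)) :=
          Finset.sum_congr rfl fun a _ => Finset.sum_comm
      _ = ∑ k, ∑ a, ∑ b, (2 * ((y a * xx pos k a) * C a b *
        (y b * xx pos k b)) - xx pos k a ^ 2 * y a * (C a b * y b) -
        xx pos k b ^ 2 * y b * (y a * C a b)) := Finset.sum_comm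
      _ = _ := by
          refine Finset.sum_congr rfl fun k _ => ?_
          simp only [Finset.sum_sub_distrib, ← Finset.mul_sum, hy, mul_zero,
            Finset.sum_const_zero, sub_zero]
          have h2 : ∑ a, ∑ b, xx pos k b ^ 2 * y b * (y a * C a b) = 0 := by
            rw [Finset.sum_comm]
            simp only [← Finset.mul_sum, hy', mul_zero, Finset.sum_const_zero]
          rw [h2, sub_zero]
  rw [e2]
  refine Finset.sum_nonneg fun k _ => mul_nonneg (by norm_num) ?_
  exact hC.2 fun a => y a * xx pos k a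

theorem pos_one (hp : S7_pos) {A B : Matrix (Fin m → Ω) (Fin m → Ω) ℝ} (hA : PSD A) (hB : PSD B)
    (h0 : hs A B = 0) : 0 ≤ hs A (Ae pos B) := by
  have hC := schur hp hA hB
  have h1 : ∀ a, ∑ b, (Matrix.of fun a b => A a b * B a b : Matrix (Fin m → Ω) (Fin m → Ω) ℝ) a b *
      (fun _ => (1 : ℝ)) b = 0 := by
    apply ker_of hC
    rw [← h0]
    unfold hs
    refine Finset.sum_congr rfl fun a _ => Finset.sum_congr rfl fun b _ => ?_
    simp only [Matrix.of_apply]
    ring
  refine (energy_nonneg pos hC h1).trans (le_of_eq ?_)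
  unfold hs
  refine Finset.sum_congr rfl fun a _ => Finset.sum_congr rfl fun b _ => ?_
  simp only [Ae, Matrix.of_apply]
  ring

theorem pos_two {A Q : Matrix (Fin m → Ω) (Fin m → Ω) ℝ} (hQ : Q.transpose = Q) (hA : PSD A)
    (hQA : Q * A = A) : PSD ((1 - Q) * Ae pos A * (1 - Q)) := by
  have hN : (1 - Q).transpose = 1 - Q := by
    rw [Matrix.transpose_sub, Matrix.transpose_one, hQ]
  have hAt : (Ae pos A).transpose = Ae pos A := by
    ext a b
    simp only [Matrix.transpose_apply, Ae, Matrix.of_apply]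
    rw [symm_of hA.1 b a, sd_symm]
  have hAQ : A * Q = A := by
    have := congrArg Matrix.transpose hQA
    rw [Matrix.transpose_mul, hQ, hA.1] at this
    exact this
  have hAN : A * (1 - Q) = 0 := by
    rw [mul_sub, mul_one, hAQ, sub_self]
  constructor
  · rw [Matrix.transpose_mul, Matrix.transpose_mul, hN, hAt, mul_assoc]
  · intro x
    rw [← quad, star_trivial]
    have e1 : x ⬝ᵥ (((1 - Q) * Ae pos A * (1 - Q)).mulVec x) =
        star ((1 - Q).mulVec x) ⬝ᵥ ((Ae pos A).mulVec ((1 - Q).mulVec x)) := by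
      rw [star_trivial, mul_assoc, ← Matrix.mulVec_mulVec, ← Matrix.mulVec_mulVec,
        Matrix.dotProduct_mulVec x (1 - Q), ← Matrix.mulVec_transpose, hN]
    rw [e1, quad]
    apply energy_nonneg pos hA
    intro a
    have h1 : A.mulVec ((1 - Q).mulVec x) = 0 := by
      rw [Matrix.mulVec_mulVec, hAN, Matrix.zero_mulVec]
    exact congrFun h1 a

omit [DecidableEq Ω] in
theorem Ae_bound (A B : Matrix (Fin m → Ω) (Fin m → Ω) ℝ) :
    |hs A (Ae pos B)| ≤ m * (q : ℝ) ^ 2 * (√(hs A A) * √(hs B B)) := by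
  have h0 : (0 : ℝ) ≤ m * (q : ℝ) ^ 2 := by positivity
  have h1 : |hs A (Ae pos B)| ≤ m * (q : ℝ) ^ 2 * ∑ a, ∑ b, |A a b| * |B a b| := by
    unfold hs
    rw [Finset.mul_sum]
    refine (Finset.abs_sum_le_sum_abs _ _).trans (Finset.sum_le_sum fun a _ => ?_)
    rw [Finset.mul_sum]
    refine (Finset.abs_sum_le_sum_abs _ _).trans (Finset.sum_le_sum fun b _ => ?_)
    simp only [Ae, Matrix.of_apply]
    rw [abs_mul, abs_mul, abs_neg, abs_of_nonneg (sd_nonneg pos a b)]
    have h5 : 0 ≤ |A a b| * |B a b| := by positivity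
    calc |A a b| * (sd pos a b * |B a b|) = sd pos a b * (|A a b| * |B a b|) := by ring
      _ ≤ _ := mul_le_mul_of_nonneg_right (sd_le pos a b) h5
  refine h1.trans (mul_le_mul_of_nonneg_left ?_ h0)
  have h6 := Real.sum_mul_le_sqrt_mul_sqrt (Finset.univ : Finset ((Fin m → Ω) × (Fin m → Ω)))
    (fun q => |A q.1 q.2|) (fun q => |B q.1 q.2|)
  simp only [sq_abs] at h6
  rw [Fintype.sum_prod_type, Fintype.sum_prod_type, Fintype.sum_prod_type] at h6
  refine h6.trans (le_of_eq ?_)
  unfold hs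
  simp only [sq]

end

theorem al8 (hp : S7_pos) : S8_alg := by
  intro Ω _ _ q pos m A B
  refine ⟨fun hA hB h0 => pos_one pos hp hA hB h0, fun Q hQ hA hQA => pos_two pos hQ hA hQA,
    ?_, ?_, ?_, ?_, Ae_bound pos A B⟩
  · intro hA σ a b
    simp only [Ae, Matrix.of_apply]
    rw [sd_perm, hA σ a b]
  · ext a b
    simp only [Matrix.transpose_apply, Ae, Matrix.of_apply]
    rw [sd_symm]
  · unfold hs
    refine Finset.sum_congr rfl fun a _ => Finset.sum_congr rfl fun b _ => ?_
    simp only [Ae, Matrix.of_apply]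
    ring
  · intro hA
    ext a b
    simp only [Ae, Matrix.of_apply, Matrix.mul_apply]
    rw [Finset.mul_sum]
    refine Finset.sum_congr rfl fun c _ => ?_
    by_cases h : hd (bX pos) a c = 0
    · rw [sd_congr pos h b]
      ring
    · rw [hA a c h]
      ring

end Pool.Agent.TH41.BL.AL8f
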