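import Mathlib
import Pool.Agent.TH41.BL.Stm9

/-!
Project BL7, piece CE: the auxiliary function given by an operator (by helper582).
-/

set_option autoImplicit false
set_option linter.unusedSectionVars false

open MeasureTheory Filter Topology

open scoped FourierTransform

namespace Pool.Agent.TH41.BL.CE8f

open Pool.Agent.TH41.BL

section
variable {Ω : Type} [Fintype Ω] [DecidableEq Ω] {q : ℕ}

/-- difference of the positions -/
noncomputable def zz (pos : Ω → Fin q) {m : ℕ} (a b : Fin m → Ω) : EuclideanSpace ℝ (Fin m) :=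
  WithLp.toLp 2 (fun k => ((pos (a k) : ℕ) : ℝ) - ((pos (b k) : ℕ) : ℝ))

lemma zz_apply (pos : Ω → Fin q) {m : ℕ} (a b : Fin m → Ω) (k : Fin m) :
    zz pos a b k = ((pos (a k) : ℕ) : ℝ) - ((pos (b k) : ℕ) : ℝ) := rfl

lemma norm_zz (pos : Ω → Fin q) {m : ℕ} (a b : Fin m → Ω) : ‖zz pos a b‖ ^ 2 = sd pos a b := by
  rw [EuclideanSpace.real_norm_sq_eq]
  rfl

/-- the coefficients -/
noncomputable def cc (pos : Ω → Fin q) {m : ℕ} (D : ℝ) (T : Matrix (Fin m → Ω) (Fin m → Ω) ℝ)
    (a b : Fin m → Ω) : ℝ := (D - sd pos a b) * T a b ^ 2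

lemma sd_symm (pos : Ω → Fin q) {m : ℕ} (a b : Fin m → Ω) : sd pos a b = sd pos b a := by
  unfold sd
  refine Finset.sum_congr rfl fun k _ => ?_
  ring

lemma cc_symm (pos : Ω → Fin q) {m : ℕ} (D : ℝ) {T : Matrix (Fin m → Ω) (Fin m → Ω) ℝ}
    (hT : PSD T) (a b : Fin m → Ω) : cc pos D T a b = cc pos D T b a := by
  unfold cc
  have h : T a b = T b a := by
    have := congrFun (congrFun hT.1 a) b
    rw [Matrix.transpose_apply] at this
    exact this.symm
  rw [sd_symm, h]

/-- the auxiliary function -/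
noncomputable def ff (pos : Ω → Fin q) {m : ℕ} (D : ℝ) (T : Matrix (Fin m → Ω) (Fin m → Ω) ℝ)
    (φ : EuclideanSpace ℝ (Fin m) → ℝ) (x : EuclideanSpace ℝ (Fin m)) : ℝ :=
  ∑ a, ∑ b, cc pos D T a b * φ (x - zz pos a b)

/-- the shifted energy -/
noncomputable def WW (pos : Ω → Fin q) {m : ℕ} (D : ℝ) (T : Matrix (Fin m → Ω) (Fin m → Ω) ℝ) :
    Matrix (Fin m → Ω) (Fin m → Ω) ℝ := Matrix.of fun a b => (D - sd pos a b) * T a b

lemma WW_eq (pos : Ω → Fin q) {m : ℕ} (D r : ℝ) (T : Matrix (Fin m → Ω) (Fin m → Ω) ℝ)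
    (a b : Fin m → Ω) :
    WW pos D T a b = (Ae pos T - r • T) a b + (D + r) * T a b := by
  unfold WW Ae
  rw [Matrix.of_apply, Matrix.sub_apply, Matrix.smul_apply, Matrix.of_apply, smul_eq_mul]
  ring

lemma PSD_WW (pos : Ω → Fin q) {m : ℕ} {D r : ℝ} {T : Matrix (Fin m → Ω) (Fin m → Ω) ℝ}
    (hT : PSD T) (hA : PSD (Ae pos T - r • T)) (hr : -D ≤ r) : PSD (WW pos D T) := by
  refine ⟨?_, fun x => ?_⟩
  · ext a b
    rw [Matrix.transpose_apply, WW_eq pos D r, WW_eq pos D r]
    have h1 := congrFun (congrFun hA.1 a) b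
    have h2 := congrFun (congrFun hT.1 a) b
    rw [Matrix.transpose_apply] at h1 h2
    rw [h1, h2]
  · have h1 := hA.2 x
    have h2 := hT.2 x
    have h3 : ∑ a, ∑ b, x a * WW pos D T a b * x b =
        ∑ a, ∑ b, x a * (Ae pos T - r • T) a b * x b +
          (D + r) * ∑ a, ∑ b, x a * T a b * x b := by
      rw [Finset.mul_sum, ← Finset.sum_add_distrib]
      refine Finset.sum_congr rfl fun a _ => ?_
      rw [Finset.mul_sum, ← Finset.sum_add_distrib]
      refine Finset.sum_congr rfl fun b _ => ?_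
      rw [WW_eq pos D r]
      ring
    rw [h3]
    have h4 : 0 ≤ D + r := by linarith
    exact add_nonneg h1 (mul_nonneg h4 h2)

lemma sum_cc (pos : Ω → Fin q) {m : ℕ} (D r : ℝ) (T : Matrix (Fin m → Ω) (Fin m → Ω) ℝ) :
    ∑ a, ∑ b, cc pos D T a b = hs T (Ae pos T - r • T) + (D + r) * hs T T := by
  unfold hs
  rw [Finset.mul_sum, ← Finset.sum_add_distrib]
  refine Finset.sum_congr rfl fun a _ => ?_
  rw [Finset.mul_sum, ← Finset.sum_add_distrib]
  refine Finset.sum_congr rfl fun b _ => ?_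
  unfold cc Ae
  rw [Matrix.sub_apply, Matrix.smul_apply, Matrix.of_apply, smul_eq_mul]
  ring

lemma hd_zero_iff (pos : Ω → Fin q) {m : ℕ} (a b : Fin m → Ω) :
    hd (bX pos) a b = 0 ↔ ∀ k, pos (a k) = pos (b k) := by
  unfold hd
  rw [Finset.card_eq_zero, Finset.filter_eq_empty_iff]
  constructor
  · intro h k
    have h1 := h (Finset.mem_univ (k, pos (a k)))
    simp only [bX, decide_true, ne_eq, not_not] at h1
    have h2 : pos (b k) = pos (a k) := by
      have := h1.symm
      simpa using this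
    exact h2.symm
  · intro h p _
    simp only [bX, h p.1, ne_eq, not_true_eq_false, not_false_eq_true]

lemma ff_zero (pos : Ω → Fin q) {m : ℕ} (D : ℝ) (T : Matrix (Fin m → Ω) (Fin m → Ω) ℝ)
    (φ : EuclideanSpace ℝ (Fin m) → ℝ) (h1 : φ 0 = 1)
    (h0 : ∀ x : EuclideanSpace ℝ (Fin m), (∃ i, 1 ≤ |x i|) → φ x = 0) :
    ff pos D T φ 0 = D * hs (dgP (bX pos) T) (dgP (bX pos) T) := by
  unfold ff hs
  rw [Finset.mul_sum]
  refine Finset.sum_congr rfl fun a _ => ?_
  rw [Finset.mul_sum]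
  refine Finset.sum_congr rfl fun b _ => ?_
  unfold dgP cc
  rw [Matrix.of_apply]
  by_cases h : hd (bX pos) a b = 0
  · rw [if_pos h]
    have h2 := (hd_zero_iff pos a b).1 h
    have h3 : zz pos a b = 0 := by
      ext k
      rw [zz_apply, h2 k, sub_self]
      rfl
    have h4 : sd pos a b = 0 := by
      unfold sd
      refine Finset.sum_eq_zero fun k _ => ?_
      rw [h2 k, sub_self]
      ring
    rw [h3, sub_zero, h1, h4]
    ring
  · rw [if_neg h]
    rw [hd_zero_iff] at h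
    push Not at h
    obtain ⟨k, hk⟩ := h
    have h5 : φ (0 - zz pos a b) = 0 := by
      apply h0
      refine ⟨k, ?_⟩
      have e : (0 - zz pos a b : EuclideanSpace ℝ (Fin m)) k =
          -(((pos (a k) : ℕ) : ℝ) - ((pos (b k) : ℕ) : ℝ)) := by
        rw [PiLp.sub_apply, zz_apply, PiLp.zero_apply, zero_sub]
      rw [e, abs_neg]
      have h6 : ((pos (a k) : ℕ) : ℤ) - ((pos (b k) : ℕ) : ℤ) ≠ 0 := by
        intro h7
        apply hk
        apply Fin.ext
        omega
      have h8 := Int.one_le_abs h6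
      have h9 : ((1 : ℤ) : ℝ) ≤ ((|((pos (a k) : ℕ) : ℤ) - ((pos (b k) : ℕ) : ℤ)| : ℤ) : ℝ) := by
        exact_mod_cast h8
      push_cast at h9
      exact h9
    rw [h5]
    ring

lemma ff_nonpos (pos : Ω → Fin q) {m : ℕ} {D : ℝ} (T : Matrix (Fin m → Ω) (Fin m → Ω) ℝ)
    (φ : EuclideanSpace ℝ (Fin m) → ℝ) (hpos : ∀ x, 0 ≤ φ x)
    (h0 : ∀ x : EuclideanSpace ℝ (Fin m), (∃ i, 1 ≤ |x i|) → φ x = 0) (hD : 0 < D)
    (x : EuclideanSpace ℝ (Fin m)) (hx : √D + √m ≤ ‖x‖) : ff pos D T φ x ≤ 0 := by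
  unfold ff
  refine Finset.sum_nonpos fun a _ => Finset.sum_nonpos fun b _ => ?_
  by_cases hz : φ (x - zz pos a b) = 0
  · rw [hz, mul_zero]
  · have hi : ∀ i, |(x - zz pos a b : EuclideanSpace ℝ (Fin m)) i| < 1 := by
      intro i
      by_contra h
      push Not at h
      exact hz (h0 _ ⟨i, h⟩)
    have h1 : ‖x - zz pos a b‖ ^ 2 ≤ m := by
      rw [EuclideanSpace.real_norm_sq_eq]
      calc ∑ i, (x - zz pos a b : EuclideanSpace ℝ (Fin m)) i ^ 2 ≤ ∑ _i : Fin m, (1 : ℝ) := by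
            refine Finset.sum_le_sum fun i _ => ?_
            have := (hi i).le
            rw [← sq_abs]
            have h2 := abs_nonneg ((x - zz pos a b : EuclideanSpace ℝ (Fin m)) i)
            nlinarith
        _ = m := by simp
    have h2 : ‖x - zz pos a b‖ ≤ √m := Real.le_sqrt_of_sq_le h1
    have h3 : ‖x‖ ≤ ‖x - zz pos a b‖ + ‖zz pos a b‖ := by
      have := norm_add_le (x - zz pos a b) (zz pos a b)
      rwa [sub_add_cancel] at this
    have h4 : √D ≤ ‖zz pos a b‖ := by linarith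
    have h5 : D ≤ sd pos a b := by
      rw [← norm_zz]
      have h6 := Real.sq_sqrt hD.le
      have h7 := Real.sqrt_nonneg D
      nlinarith
    have h8 : cc pos D T a b ≤ 0 := by
      unfold cc
      exact mul_nonpos_of_nonpos_of_nonneg (by linarith) (sq_nonneg _)
    exact mul_nonpos_of_nonpos_of_nonneg h8 (hpos _)

/-- the phase -/
noncomputable def ex {m : ℕ} (z p : EuclideanSpace ℝ (Fin m)) : ℂ :=
  Complex.exp (((-2 * Real.pi * inner ℝ z p : ℝ) : ℂ) * Complex.I)

lemma ex_norm {m : ℕ} (z p : EuclideanSpace ℝ (Fin m)) : ‖ex z p‖ = 1 :=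
  Complex.norm_exp_ofReal_mul_I _

lemma ex_cont {m : ℕ} (z : EuclideanSpace ℝ (Fin m)) : Continuous (fun p => ex z p) := by
  unfold ex
  fun_prop

lemma ex_cont' {m : ℕ} (p : EuclideanSpace ℝ (Fin m)) : Continuous (fun z => ex z p) := by
  unfold ex
  fun_prop

lemma ex_add {m : ℕ} (z w p : EuclideanSpace ℝ (Fin m)) : ex (z + w) p = ex w p * ex z p := by
  unfold ex
  rw [← Complex.exp_add, inner_add_left]
  congr 1
  push_cast
  ring

lemma tr_int {m : ℕ} {φ : EuclideanSpace ℝ (Fin m) → ℝ} (hc : Continuous φ) (hi : Integrable φ)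
    (z p : EuclideanSpace ℝ (Fin m)) :
    Integrable (fun v => ex v p * ((φ (v - z) : ℝ) : ℂ)) := by
  refine ((hi.comp_sub_right z).norm).mono' ?_ (Eventually.of_forall fun v => ?_)
  · refine Continuous.aestronglyMeasurable ?_
    have h1 := ex_cont' p
    have h2 : Continuous fun v : EuclideanSpace ℝ (Fin m) => ((φ (v - z) : ℝ) : ℂ) := by fun_prop
    exact h1.mul h2
  · rw [norm_mul, ex_norm, one_mul, Complex.norm_real]

lemma tr_val {m : ℕ} (φ : EuclideanSpace ℝ (Fin m) → ℝ) (z p : EuclideanSpace ℝ (Fin m)) :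
    ∫ v, ex v p * ((φ (v - z) : ℝ) : ℂ) = ex z p * 𝓕 (fun x => (φ x : ℂ)) p := by
  have h := integral_sub_right_eq_self (μ := volume)
    (fun v : EuclideanSpace ℝ (Fin m) => ex (v + z) p * ((φ v : ℝ) : ℂ)) z
  simp only [sub_add_cancel] at h
  rw [h, Real.fourier_eq', ← integral_const_mul]
  refine integral_congr_ae (Eventually.of_forall fun v => ?_)
  simp only
  rw [ex_add, smul_eq_mul, mul_assoc]
  rfl

lemma ff_fourier (pos : Ω → Fin q) {m : ℕ} (D : ℝ) (T : Matrix (Fin m → Ω) (Fin m → Ω) ℝ)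
    {φ : EuclideanSpace ℝ (Fin m) → ℝ} (hc : Continuous φ) (hi : Integrable φ)
    (g : EuclideanSpace ℝ (Fin m) → ℝ) (hg : ∀ p, 𝓕 (fun x => (φ x : ℂ)) p = (g p : ℂ))
    (p : EuclideanSpace ℝ (Fin m)) :
    𝓕 (fun x => (ff pos D T φ x : ℂ)) p =
      ∑ a, ∑ b, (cc pos D T a b : ℂ) * (ex (zz pos a b) p * (g p : ℂ)) := by
  rw [Real.fourier_eq']
  have h1 : ∀ v : EuclideanSpace ℝ (Fin m),
      Complex.exp (((-2 * Real.pi * inner ℝ v p : ℝ) : ℂ) * Complex.I) • (ff pos D T φ v : ℂ) =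
        ∑ a, ∑ b, (cc pos D T a b : ℂ) * (ex v p * ((φ (v - zz pos a b) : ℝ) : ℂ)) := by
    intro v
    unfold ff
    push_cast
    rw [smul_eq_mul, Finset.mul_sum]
    refine Finset.sum_congr rfl fun a _ => ?_
    rw [Finset.mul_sum]
    refine Finset.sum_congr rfl fun b _ => ?_
    unfold ex
    push_cast
    ring
  simp_rw [h1]
  have hI : ∀ a b : Fin m → Ω, Integrable (fun v : EuclideanSpace ℝ (Fin m) =>
      (cc pos D T a b : ℂ) * (ex v p * ((φ (v - zz pos a b) : ℝ) : ℂ))) := fun a b =>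
    (tr_int hc hi (zz pos a b) p).const_mul _
  rw [integral_finsetSum _ fun a _ => integrable_finsetSum _ fun b _ => hI a b]
  refine Finset.sum_congr rfl fun a _ => ?_
  rw [integral_finsetSum _ fun b _ => hI a b]
  refine Finset.sum_congr rfl fun b _ => ?_
  rw [integral_const_mul, tr_val, hg]

/-- the phase of a word -/
noncomputable def th (pos : Ω → Fin q) {m : ℕ} (p : EuclideanSpace ℝ (Fin m)) (a : Fin m → Ω) : ℝ :=
  2 * Real.pi * ∑ k, ((pos (a k) : ℕ) : ℝ) * p k

lemma th_sub (pos : Ω → Fin q) {m : ℕ} (p : EuclideanSpace ℝ (Fin m)) (a b : Fin m → Ω) :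
    -2 * Real.pi * inner ℝ (zz pos a b) p = th pos p b - th pos p a := by
  unfold th
  rw [PiLp.inner_apply, ← mul_sub, ← Finset.sum_sub_distrib, mul_assoc, neg_mul, ← mul_neg,
    ← mul_neg, ← Finset.sum_neg_distrib, mul_assoc]
  congr 2
  refine Finset.sum_congr rfl fun k _ => ?_
  rw [zz_apply]
  simp only [RCLike.inner_apply, conj_trivial]
  ring

lemma term_re (c g t : ℝ) (w : ℂ) (hw : w = Complex.exp ((t : ℂ) * Complex.I)) :
    ((c : ℂ) * (w * (g : ℂ))).re = c * (Real.cos t * g) := by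
  rw [Complex.re_ofReal_mul, Complex.re_mul_ofReal, hw, Complex.exp_ofReal_mul_I_re]

lemma term_im (c g t : ℝ) (w : ℂ) (hw : w = Complex.exp ((t : ℂ) * Complex.I)) :
    ((c : ℂ) * (w * (g : ℂ))).im = c * (Real.sin t * g) := by
  rw [Complex.im_ofReal_mul, Complex.im_mul_ofReal, hw, Complex.exp_ofReal_mul_I_im]

end

theorem ce8 (hp : S7_pos) (hq : S8_alg) (ht : S8_tent) : S8_cert := by
  intro Ω _ _ q pos m T r D hT hTT hA hD hr
  obtain ⟨φ, hc, hi, h1, hpos, h01, h0, g, hgi, hg0, hg⟩ := ht m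
  have hW := PSD_WW pos hT hA hr.le
  have hI : ∫ x, ff pos D T φ x = ∑ a, ∑ b, cc pos D T a b := by
    unfold ff
    have hI1 : ∀ a b : Fin m → Ω, Integrable (fun x : EuclideanSpace ℝ (Fin m) =>
        cc pos D T a b * φ (x - zz pos a b)) := fun a b =>
      (hi.comp_sub_right (zz pos a b)).const_mul _
    rw [integral_finsetSum _ fun a _ => integrable_finsetSum _ fun b _ => hI1 a b]
    refine Finset.sum_congr rfl fun a _ => ?_
    rw [integral_finsetSum _ fun b _ => hI1 a b]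
    refine Finset.sum_congr rfl fun b _ => ?_
    rw [integral_const_mul, integral_sub_right_eq_self (μ := volume) φ (zz pos a b), h1, mul_one]
  have hI2 : (r + D) * hs T T ≤ ∫ x, ff pos D T φ x := by
    rw [hI, sum_cc pos D r T]
    have := hp.1 _ _ _ hT hA
    linarith
  have hI0 : 0 < (r + D) * hs T T := mul_pos (by linarith) hTT
  have hF := ff_fourier pos D T hc hi g hg
  refine ⟨ff pos D T φ, ⟨?_, ?_, ?_, ?_, ?_, ?_, ?_⟩, ?_⟩
  · unfold ff
    fun_prop
  · unfold ff
    exact integrable_finsetSum _ fun a _ => integrable_finsetSum _ fun b _ =>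
      (hi.comp_sub_right (zz pos a b)).const_mul _
  · have e : 𝓕 (fun x => (ff pos D T φ x : ℂ)) =
        fun p => ∑ a, ∑ b, (cc pos D T a b : ℂ) * (ex (zz pos a b) p * (g p : ℂ)) := by
      ext p
      exact hF p
    rw [e]
    refine integrable_finsetSum _ fun a _ => integrable_finsetSum _ fun b _ => Integrable.const_mul ?_ _
    refine hgi.mono' ?_ (Eventually.of_forall fun p => ?_)
    · exact (ex_cont (zz pos a b)).aestronglyMeasurable.mul hgi.ofReal.aestronglyMeasurable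
    · rw [norm_mul, ex_norm, one_mul, Complex.norm_real, Real.norm_of_nonneg (hg0 p)]
  · intro p
    rw [hF p, Complex.im_sum]
    simp_rw [Complex.im_sum]
    have h2 : ∀ a b : Fin m → Ω, ((cc pos D T a b : ℂ) * (ex (zz pos a b) p * (g p : ℂ))).im =
        cc pos D T a b * (Real.sin (th pos p b - th pos p a) * g p) := by
      intro a b
      rw [← th_sub]
      exact term_im _ _ _ _ rfl
    simp_rw [h2]
    have h3 : ∑ a, ∑ b, cc pos D T a b * (Real.sin (th pos p b - th pos p a) * g p) =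
        -∑ a, ∑ b, cc pos D T a b * (Real.sin (th pos p b - th pos p a) * g p) := by
      conv_lhs => rw [Finset.sum_comm]
      rw [← Finset.sum_neg_distrib]
      refine Finset.sum_congr rfl fun a _ => ?_
      rw [← Finset.sum_neg_distrib]
      refine Finset.sum_congr rfl fun b _ => ?_
      rw [cc_symm pos D hT b a, ← neg_sub (th pos p b) (th pos p a), Real.sin_neg]
      ring
    linarith
  · intro p
    rw [hF p, Complex.re_sum]
    simp_rw [Complex.re_sum]
    have h2 : ∀ a b : Fin m → Ω, ((cc pos D T a b : ℂ) * (ex (zz pos a b) p * (g p : ℂ))).re =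
        cc pos D T a b * (Real.cos (th pos p b - th pos p a) * g p) := by
      intro a b
      rw [← th_sub]
      exact term_re _ _ _ _ rfl
    simp_rw [h2]
    have h3 : ∑ a, ∑ b, cc pos D T a b * (Real.cos (th pos p b - th pos p a) * g p) =
        g p * (hs (Matrix.of fun a b => Real.cos (th pos p a) * T a b * Real.cos (th pos p b))
            (WW pos D T) +
          hs (Matrix.of fun a b => Real.sin (th pos p a) * T a b * Real.sin (th pos p b))
            (WW pos D T)) := by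
      unfold hs
      rw [← Finset.sum_add_distrib, Finset.mul_sum]
      refine Finset.sum_congr rfl fun a _ => ?_
      rw [← Finset.sum_add_distrib, Finset.mul_sum]
      refine Finset.sum_congr rfl fun b _ => ?_
      unfold cc WW
      rw [Matrix.of_apply, Matrix.of_apply, Matrix.of_apply, Real.cos_sub]
      ring
    rw [h3]
    exact mul_nonneg (hg0 p) (add_nonneg
      (hp.1 _ _ _ (hp.2.1 _ _ _ hT) hW) (hp.1 _ _ _ (hp.2.1 _ _ _ hT) hW))
  · linarith
  · intro x hx
    exact ff_nonpos pos T φ hpos h0 hD x hx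
  · rw [ff_zero pos D T φ h01 h0]
    have h2 : 0 ≤ D * hs (dgP (bX pos) T) (dgP (bX pos) T) := by
      refine mul_nonneg hD.le ?_
      unfold hs
      exact Finset.sum_nonneg fun a _ => Finset.sum_nonneg fun b _ => mul_self_nonneg _
    exact mul_le_mul_of_nonneg_left hI2 h2

end Pool.Agent.TH41.BL.CE8f
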