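import Mathlib
import Pool.Agent.TH41.BL.Stm6

/-!
Project BL6 (helper41, MP_0430e4_lc), piece DM: the dimension of the space of permutation
invariant matrices.
-/

set_option autoImplicit false

open MeasureTheory Filter Topology

namespace Pool.Agent.TH41.BL.DM7f

open Pool.Agent.TH41.BL

variable {Ω : Type} [Fintype Ω] [DecidableEq Ω] {m : ℕ}

/-- the type of a pair of words -/
def ty (p : (Fin m → Ω) × (Fin m → Ω)) (x : Ω × Ω) : Fin (m + 1) :=
  ⟨(Finset.univ.filter fun k : Fin m => (p.1 k, p.2 k) = x).card, by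
    have := Finset.card_le_univ (Finset.univ.filter fun k : Fin m => (p.1 k, p.2 k) = x)
    rw [Fintype.card_fin] at this
    omega⟩

/-- pairs of words of the same type differ by a permutation -/
lemma exists_perm {p q : (Fin m → Ω) × (Fin m → Ω)} (h : ty p = ty q) :
    ∃ σ : Equiv.Perm (Fin m), (fun k => q.1 (σ k)) = p.1 ∧ (fun k => q.2 (σ k)) = p.2 := by
  have hc : ∀ x : Ω × Ω, Fintype.card {k : Fin m // (p.1 k, p.2 k) = x} =
      Fintype.card {k : Fin m // (q.1 k, q.2 k) = x} := by
    intro x
    rw [Fintype.card_subtype, Fintype.card_subtype]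
    exact congrArg Fin.val (congrFun h x)
  let e : ∀ x : Ω × Ω, {k : Fin m // (p.1 k, p.2 k) = x} ≃ {k : Fin m // (q.1 k, q.2 k) = x} :=
    fun x => Fintype.equivOfCardEq (hc x)
  refine ⟨Equiv.ofFiberEquiv e, ?_, ?_⟩
  · funext k
    exact congrArg Prod.fst (Equiv.ofFiberEquiv_map e k)
  · funext k
    exact congrArg Prod.snd (Equiv.ofFiberEquiv_map e k)

open Classical in
/-- the values on representatives of the types -/
noncomputable def T (Ω : Type) [Fintype Ω] [DecidableEq Ω] (m : ℕ) :
    PIs Ω m →ₗ[ℝ] ((Ω × Ω → Fin (m + 1)) → ℝ) where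
  toFun M t := if h : ∃ p : (Fin m → Ω) × (Fin m → Ω), ty p = t then
    M.1 (Classical.choose h).1 (Classical.choose h).2 else 0
  map_add' M N := by
    funext t
    by_cases h : ∃ p : (Fin m → Ω) × (Fin m → Ω), ty p = t
    · simp only [dif_pos h, Pi.add_apply]
      rfl
    · simp only [dif_neg h, Pi.add_apply, add_zero]
  map_smul' c M := by
    funext t
    by_cases h : ∃ p : (Fin m → Ω) × (Fin m → Ω), ty p = t
    · simp only [dif_pos h, Pi.smul_apply]
      rfl
    · simp only [dif_neg h, Pi.smul_apply, smul_zero]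

lemma T_inj : Function.Injective (T Ω m) := by
  classical
  intro M N hMN
  apply Subtype.ext
  funext a b
  have h : ∃ p : (Fin m → Ω) × (Fin m → Ω), ty p = ty (a, b) := ⟨(a, b), rfl⟩
  have h1 := congrFun hMN (ty (a, b))
  simp only [T, LinearMap.coe_mk, AddHom.coe_mk, dif_pos h] at h1
  obtain ⟨σ, h2, h3⟩ := exists_perm (Classical.choose_spec h).symm
  have hM := M.2 σ (Classical.choose h).1 (Classical.choose h).2
  have hN := N.2 σ (Classical.choose h).1 (Classical.choose h).2
  rw [h2, h3] at hM hN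
  change M.1 a b = N.1 a b
  exact hM.trans (h1.trans hN.symm)

theorem dm : S7_dim := by
  intro Ω _ _ m
  have h := LinearMap.finrank_le_finrank_of_injective (T_inj (Ω := Ω) (m := m))
  rw [Module.finrank_fintype_fun_eq_card] at h
  have hc : Fintype.card (Ω × Ω → Fin (m + 1)) = (m + 1) ^ (Fintype.card Ω ^ 2) := by
    rw [Fintype.card_fun, Fintype.card_fin, Fintype.card_prod, sq]
  rw [hc] at h
  unfold dimP
  exact_mod_cast h

end Pool.Agent.TH41.BL.DM7f
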