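import Mathlib
import Pool.Agent.TH41.BL.Stm6

set_option autoImplicit false

open MeasureTheory Filter Topology

namespace Pool.Agent.TH41.BL.EN7f

open Pool.Agent.TH41.BL

section
variable {V : Type} [Fintype V] [DecidableEq V]

/-- matrix of the orthogonal projection onto a subspace -/
theorem exists_proj (W : Submodule ℝ (V → ℝ)) : ∃ Q : Matrix V V ℝ, Q.transpose = Q ∧
    Q * Q = Q ∧ (∀ x ∈ W, Q.mulVec x = x) ∧ (∀ x, Q.mulVec x ∈ W) ∧
    Q.trace = (Module.finrank ℝ W : ℝ) := by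
  let e : EuclideanSpace ℝ V ≃ₗ[ℝ] (V → ℝ) := WithLp.linearEquiv 2 ℝ (V → ℝ)
  let W' : Submodule ℝ (EuclideanSpace ℝ V) := W.map e.symm.toLinearMap
  have hmem : ∀ y : EuclideanSpace ℝ V, y ∈ W' ↔ e y ∈ W := by
    intro y
    constructor
    · rintro ⟨x, hx, rfl⟩
      simpa using hx
    · intro h
      exact ⟨e y, h, by simp⟩
  let b := stdOrthonormalBasis ℝ W'
  let B : Matrix V (Fin (Module.finrank ℝ W')) ℝ :=
    Matrix.of fun a i => (b i : EuclideanSpace ℝ V) a
  have hin : ∀ x y : EuclideanSpace ℝ V, inner ℝ x y = ∑ a, x a * y a := by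
    intro x y
    rw [PiLp.inner_apply]
    refine Finset.sum_congr rfl fun a _ => ?_
    simp [mul_comm]
  have hBB : B.transpose * B = 1 := by
    ext i j
    have h1 := orthonormal_iff_ite.1 b.orthonormal i j
    rw [Submodule.coe_inner, hin] at h1
    rw [Matrix.mul_apply, Matrix.one_apply, ← h1]
    rfl
  have hfr : Module.finrank ℝ W' = Module.finrank ℝ W := LinearEquiv.finrank_map_eq e.symm W
  refine ⟨B * B.transpose, ?_, ?_, ?_, ?_, ?_⟩
  · rw [Matrix.transpose_mul, Matrix.transpose_transpose]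
  · calc B * B.transpose * (B * B.transpose) = B * (B.transpose * B) * B.transpose := by
          simp only [Matrix.mul_assoc]
      _ = B * B.transpose := by rw [hBB, Matrix.mul_one]
  · intro x hx
    have hx' : e.symm x ∈ W' := (hmem _).2 (by simpa using hx)
    have h1 := b.sum_repr' ⟨e.symm x, hx'⟩
    have h2 := congrArg (fun w : W' => e (w : EuclideanSpace ℝ V)) h1
    rw [← Matrix.mulVec_mulVec]
    funext a
    have h3 := congrFun h2 a
    simp only [Submodule.coe_sum, Submodule.coe_smul, map_sum, map_smul, Finset.sum_apply,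
      Pi.smul_apply, smul_eq_mul, LinearEquiv.apply_symm_apply, Submodule.coe_inner, hin] at h3
    rw [← h3, Matrix.mulVec, dotProduct]
    refine Finset.sum_congr rfl fun i _ => ?_
    rw [mul_comm]
    rfl
  · intro x
    rw [← Matrix.mulVec_mulVec]
    have h1 : B.mulVec (B.transpose.mulVec x) =
        ∑ i, (B.transpose.mulVec x) i • e (b i : EuclideanSpace ℝ V) := by
      funext a
      rw [Finset.sum_apply, Matrix.mulVec, dotProduct]
      refine Finset.sum_congr rfl fun i _ => ?_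
      rw [Pi.smul_apply, smul_eq_mul, mul_comm]
      rfl
    rw [h1]
    exact Submodule.sum_mem _ fun i _ => W.smul_mem _ ((hmem _).1 (b i).2)
  · rw [Matrix.trace_mul_comm, hBB, Matrix.trace_one, Fintype.card_fin, hfr]

/-- a matrix preserving the subspace together with its transpose commutes with the projection -/
theorem comm_of {W : Submodule ℝ (V → ℝ)} {Q : Matrix V V ℝ} (hs : Q.transpose = Q)
    (hf : ∀ x ∈ W, Q.mulVec x = x) (hr : ∀ x, Q.mulVec x ∈ W) (N : Matrix V V ℝ)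
    (h1 : ∀ x ∈ W, N.mulVec x ∈ W) (h2 : ∀ x ∈ W, N.transpose.mulVec x ∈ W) :
    Q * N = N * Q := by
  have key : ∀ M : Matrix V V ℝ, (∀ x ∈ W, M.mulVec x ∈ W) → Q * (M * Q) = M * Q := by
    intro M hM
    apply Matrix.toLin'.injective
    apply LinearMap.ext
    intro x
    rw [Matrix.toLin'_apply, Matrix.toLin'_apply, ← Matrix.mulVec_mulVec, ← Matrix.mulVec_mulVec]
    exact hf _ (hM _ (hr x))
  have e1 := key N h1
  have e2 := congrArg Matrix.transpose (key N.transpose h2)
  rw [Matrix.transpose_mul, Matrix.transpose_mul, Matrix.transpose_transpose, hs] at e2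
  rw [← e2, Matrix.mul_assoc, e1]

end

section
variable {Ω : Type} [Fintype Ω] [DecidableEq Ω] {m : ℕ}

/-- the action of a permutation -/
def pe (Ω : Type) (σ : Equiv.Perm (Fin m)) : (Fin m → Ω) ≃ (Fin m → Ω) :=
  Equiv.arrowCongr σ.symm (Equiv.refl Ω)

theorem pe_apply (σ : Equiv.Perm (Fin m)) (a : Fin m → Ω) : pe Ω σ a = fun k => a (σ k) := rfl

theorem pinv_mul {M N : Matrix (Fin m → Ω) (Fin m → Ω) ℝ} (hM : PInv M) (hN : PInv N) :
    PInv (M * N) := by
  intro σ a b
  rw [Matrix.mul_apply, Matrix.mul_apply, ← Equiv.sum_comp (pe Ω σ)]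
  refine Finset.sum_congr rfl fun c _ => ?_
  rw [pe_apply, hM σ a c, hN σ c b]

theorem pinv_transpose {M : Matrix (Fin m → Ω) (Fin m → Ω) ℝ} (hM : PInv M) :
    PInv M.transpose := by
  intro σ a b
  exact hM σ b a

theorem pinv_one : PInv (1 : Matrix (Fin m → Ω) (Fin m → Ω) ℝ) := by
  intro σ a b
  rw [Matrix.one_apply, Matrix.one_apply]
  have : ((fun k => a (σ k)) = fun k => b (σ k)) ↔ a = b := (pe Ω σ).injective.eq_iff
  simp only [this]

/-- the permutation matrix -/
def pm (Ω : Type) [DecidableEq Ω] (σ : Equiv.Perm (Fin m)) :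
    Matrix (Fin m → Ω) (Fin m → Ω) ℝ :=
  Matrix.of fun a b => if pe Ω σ a = b then 1 else 0

theorem pm_mulVec (σ : Equiv.Perm (Fin m)) (x : (Fin m → Ω) → ℝ) (a : Fin m → Ω) :
    (pm Ω σ).mulVec x a = x (pe Ω σ a) := by
  simp [pm, Matrix.mulVec, dotProduct]

theorem pm_transpose (σ : Equiv.Perm (Fin m)) : (pm Ω σ).transpose = pm Ω σ.symm := by
  ext a b
  simp only [pm, Matrix.transpose_apply, Matrix.of_apply]
  have : pe Ω σ b = a ↔ pe Ω σ.symm a = b := by
    constructor
    · rintro rfl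
      funext k
      simp [pe_apply]
    · rintro rfl
      funext k
      simp [pe_apply]
  simp only [this]

theorem pm_comm {N : Matrix (Fin m → Ω) (Fin m → Ω) ℝ} (hN : PInv N) (σ : Equiv.Perm (Fin m))
    (x : (Fin m → Ω) → ℝ) : (pm Ω σ).mulVec (N.mulVec x) = N.mulVec ((pm Ω σ).mulVec x) := by
  funext a
  rw [pm_mulVec, Matrix.mulVec, Matrix.mulVec, dotProduct, dotProduct,
    ← Equiv.sum_comp (pe Ω σ)]
  refine Finset.sum_congr rfl fun c _ => ?_
  rw [pm_mulVec, pe_apply, pe_apply, hN σ a c]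

/-- the bilinear map giving the invariant envelope -/
def bl (E : Matrix (Fin m → Ω) (Fin m → Ω) ℝ) :
    PIs Ω m →ₗ[ℝ] (LinearMap.range (Matrix.toLin' E)) →ₗ[ℝ] ((Fin m → Ω) → ℝ) :=
  LinearMap.mk₂ ℝ (fun N y => (N : Matrix (Fin m → Ω) (Fin m → Ω) ℝ).mulVec (y : (Fin m → Ω) → ℝ))
    (by intro N N' y; simp [Matrix.add_mulVec])
    (by intro c N y; simp [Matrix.smul_mulVec])
    (by intro N y y'; simp [Matrix.mulVec_add])
    (by intro c N y; simp [Matrix.mulVec_smul])

/-- the invariant envelope of the range of `E` -/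
def env (E : Matrix (Fin m → Ω) (Fin m → Ω) ℝ) : Submodule ℝ ((Fin m → Ω) → ℝ) :=
  LinearMap.range (TensorProduct.lift (bl E))

theorem env_le {E : Matrix (Fin m → Ω) (Fin m → Ω) ℝ} (S : Submodule ℝ ((Fin m → Ω) → ℝ))
    (h : ∀ N : Matrix (Fin m → Ω) (Fin m → Ω) ℝ, PInv N → ∀ x, N.mulVec (E.mulVec x) ∈ S) :
    env E ≤ S := by
  rintro _ ⟨t, rfl⟩
  induction t using TensorProduct.induction_on with
  | zero => simp
  | tmul N y =>
    obtain ⟨y, x, rfl⟩ := y
    exact h N N.2 x
  | add s t hs ht =>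
    rw [map_add]
    exact S.add_mem hs ht

theorem mem_env {E : Matrix (Fin m → Ω) (Fin m → Ω) ℝ} {N : Matrix (Fin m → Ω) (Fin m → Ω) ℝ}
    (hN : PInv N) (x : (Fin m → Ω) → ℝ) : N.mulVec (E.mulVec x) ∈ env E :=
  ⟨TensorProduct.tmul ℝ (⟨N, hN⟩ : PIs Ω m) ⟨E.mulVec x, x, rfl⟩, rfl⟩

theorem env_mul {E : Matrix (Fin m → Ω) (Fin m → Ω) ℝ} {N : Matrix (Fin m → Ω) (Fin m → Ω) ℝ}
    (hN : PInv N) : ∀ w ∈ env E, N.mulVec w ∈ env E := by
  have h := env_le (E := E) ((env E).comap (Matrix.toLin' N)) (by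
    intro N' hN' x
    rw [Submodule.mem_comap, Matrix.toLin'_apply, Matrix.mulVec_mulVec]
    exact mem_env (pinv_mul hN hN') x)
  intro w hw
  exact h hw

theorem env_pm {E : Matrix (Fin m → Ω) (Fin m → Ω) ℝ} (hE : PInv E) (σ : Equiv.Perm (Fin m)) :
    ∀ w ∈ env E, (pm Ω σ).mulVec w ∈ env E := by
  have h := env_le (E := E) ((env E).comap (Matrix.toLin' (pm Ω σ))) (by
    intro N' hN' x
    rw [Submodule.mem_comap, Matrix.toLin'_apply, pm_comm hN', pm_comm hE]
    exact mem_env hN' _)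
  intro w hw
  exact h hw

theorem trace_proj {V : Type} [Fintype V] [DecidableEq V] {E : Matrix V V ℝ} (h : E * E = E) :
    (Module.finrank ℝ (LinearMap.range (Matrix.toLin' E)) : ℝ) = E.trace := by
  have hp : LinearMap.IsProj (LinearMap.range (Matrix.toLin' E)) (Matrix.toLin' E) := by
    refine ⟨fun x => ⟨x, rfl⟩, ?_⟩
    rintro _ ⟨x, rfl⟩
    rw [Matrix.toLin'_apply, Matrix.toLin'_apply, Matrix.mulVec_mulVec, h]
  rw [← hp.trace, Matrix.trace_toLin'_eq]

theorem finrank_env (E : Matrix (Fin m → Ω) (Fin m → Ω) ℝ) (h : E * E = E) :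
    (Module.finrank ℝ (env E) : ℝ) ≤ dimP Ω m * E.trace := by
  rw [← trace_proj h, dimP]
  have h1 := LinearMap.finrank_range_le (TensorProduct.lift (bl E))
  rw [Module.finrank_tensorProduct] at h1
  exact_mod_cast h1

end

theorem en : S7_env := by
  intro Ω _ _ m E hE hP
  obtain ⟨Q, q1, q2, q3, q4, q5⟩ := exists_proj (env E)
  refine ⟨Q, ?_, ⟨q1, q2⟩, ?_, ?_, ?_⟩
  · intro σ a b
    have h1 : Q * pm Ω σ = pm Ω σ * Q := by
      refine comm_of q1 q3 q4 _ (env_pm hE σ) ?_
      rw [pm_transpose]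
      exact env_pm hE σ.symm
    have h2 := congrFun (congrFun h1 a) (pe Ω σ b)
    rw [Matrix.mul_apply, Matrix.mul_apply] at h2
    have h3 : ∑ j, Q a j * pm Ω σ j (pe Ω σ b) = Q a b := by
      rw [Finset.sum_eq_single b]
      · simp [pm]
      · intro c _ hc
        have : pe Ω σ c ≠ pe Ω σ b := fun h => hc ((pe Ω σ).injective h)
        simp [pm, this]
      · intro h
        exact absurd (Finset.mem_univ b) h
    have h4 : ∑ j, pm Ω σ a j * Q j (pe Ω σ b) = Q (pe Ω σ a) (pe Ω σ b) := by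
      rw [Finset.sum_eq_single (pe Ω σ a)]
      · simp [pm]
      · intro c _ hc
        have : pe Ω σ a ≠ c := fun h => hc h.symm
        simp [pm, this]
      · intro h
        exact absurd (Finset.mem_univ _) h
    rw [h3, h4] at h2
    exact h2.symm
  · apply Matrix.toLin'.injective
    apply LinearMap.ext
    intro x
    rw [Matrix.toLin'_apply, Matrix.toLin'_apply, ← Matrix.mulVec_mulVec]
    apply q3
    have := mem_env (E := E) pinv_one x
    rwa [Matrix.one_mulVec] at this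
  · intro N hN
    exact comm_of q1 q3 q4 N (env_mul hN) (env_mul (pinv_transpose hN))
  · rw [q5]
    exact finrank_env E hP.2

end Pool.Agent.TH41.BL.EN7f
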