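import Mathlib
import Pool.Agent.TH41.BL.Stm9
import Pool.Agent.W259.GP.Main
import Pool.Agent.W259.GP.Fin

set_option autoImplicit false

open MeasureTheory Filter Topology

open scoped FourierTransform

namespace Pool.Agent.TH41.BL.FE8f

open Pool.Agent.TH41.BL

theorem fe8 (he : S8_euc) : S8_fin := by
  intro ε hε
  obtain ⟨Ω, i1, i2, q, s, hs⟩ := Pool.Agent.W259.GP.s_main (ε / 3) (by positivity)
  obtain ⟨Ω', j1, j2, q', s', hg, hg0, -, hs'⟩ :=
    Pool.Agent.H785R2.LP.exists_refine s (show 0 < ε / 3 by positivity)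
  have hcE : Pool.Agent.H390R2.LP.cE s' hg = Pool.Agent.H785R2.LP.cval s' hg := rfl
  obtain ⟨n0, hn0⟩ := he Ω' q' s' hg (ε / 3) hg0 (by positivity)
  refine ⟨n0, fun n hn r hr => ?_⟩
  obtain ⟨f, hf, hb⟩ := hn0 n hn r hr
  refine ⟨f, hf, hb.trans ?_⟩
  apply Real.exp_le_exp.mpr
  have h1 : 1 / 2 * Real.log (2 * Real.pi / Real.exp 1) - ε ≤
      Pool.Agent.H390R2.LP.cE s' hg - ε / 3 := by
    rw [hcE]
    linarith
  have h2 := mul_le_mul_of_nonneg_left h1 (Nat.cast_nonneg (α := ℝ) n)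
  unfold Pool.Agent.H390R2.LP.cE at h2
  linarith

end Pool.Agent.TH41.BL.FE8f
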