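import Mathlib
import Pool.Agent.TH41.BL.Stm6

set_option autoImplicit false
set_option linter.unusedSectionVars false

open MeasureTheory Filter Topology

namespace Pool.Agent.TH41.BL.LO7f

open Pool.Agent.TH41.BL

section
variable {Ω β : Type} [Fintype Ω] [DecidableEq Ω] [Fintype β] [DecidableEq β]
  {bt : Ω → β → Bool} {m : ℕ} {L : ℝ}

/-- families of small orthogonal projections -/
structure Fam (bt : Ω → β → Bool) (m : ℕ) (L : ℝ)
    (S : Finset (Matrix (Fin m → Ω) (Fin m → Ω) ℝ)) : Prop where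
  inv : ∀ F ∈ S, PInv F
  dia : ∀ F ∈ S, PDi bt F
  prj : ∀ F ∈ S, Prj F
  ne : ∀ F ∈ S, F ≠ 0
  tr : ∀ F ∈ S, F.trace < L
  orth : ∀ F ∈ S, ∀ G ∈ S, F ≠ G → F * G = 0

theorem mul_sum {S : Finset (Matrix (Fin m → Ω) (Fin m → Ω) ℝ)} (h : Fam bt m L S)
    {F : Matrix (Fin m → Ω) (Fin m → Ω) ℝ} (hF : F ∈ S) : F * ∑ G ∈ S, G = F := by
  classical
  rw [Finset.mul_sum, Finset.sum_eq_single F]
  · exact (h.prj F hF).2
  · intro G hG hne
    exact h.orth F hF G hG (fun h => hne h.symm)
  · intro h1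
    exact absurd hF h1

theorem card_le {S : Finset (Matrix (Fin m → Ω) (Fin m → Ω) ℝ)} (h : Fam bt m L S) :
    S.card ≤ Module.finrank ℝ (PIs Ω m) := by
  classical
  have hli : LinearIndependent ℝ (fun F : S => (⟨F.1, h.inv F.1 F.2⟩ : PIs Ω m)) := by
    rw [linearIndependent_iff']
    intro s g hs F hF
    have h1 : ∑ G ∈ s, g G • (G : Matrix (Fin m → Ω) (Fin m → Ω) ℝ) = 0 := by
      have h2 := congrArg (Submodule.subtype (PIs Ω m)) hs
      rw [map_sum, map_zero] at h2
      rw [← h2]
      rfl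
    have h3 := congrArg (fun M => (F : Matrix (Fin m → Ω) (Fin m → Ω) ℝ) * M) h1
    simp only [mul_zero] at h3
    rw [Finset.mul_sum, Finset.sum_eq_single F] at h3
    · rw [mul_smul_comm, (h.prj F.1 F.2).2] at h3
      exact (smul_eq_zero.1 h3).resolve_right (h.ne F.1 F.2)
    · intro G _ hne
      rw [mul_smul_comm, h.orth F.1 F.2 G.1 G.2 (fun h4 => hne (Subtype.ext h4.symm)), smul_zero]
    · intro h4
      exact absurd hF h4
  have := hli.fintype_card_le_finrank
  rwa [Fintype.card_coe] at this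

theorem exists_max : ∃ S : Finset (Matrix (Fin m → Ω) (Fin m → Ω) ℝ), Fam bt m L S ∧
    ∀ S' : Finset (Matrix (Fin m → Ω) (Fin m → Ω) ℝ), Fam bt m L S' → S'.card ≤ S.card := by
  by_contra hcon
  push Not at hcon
  have key : ∀ k : ℕ, ∃ S : Finset (Matrix (Fin m → Ω) (Fin m → Ω) ℝ), Fam bt m L S ∧
      k ≤ S.card := by
    intro k
    induction k with
    | zero =>
      refine ⟨∅, ⟨?_, ?_, ?_, ?_, ?_, ?_⟩, Nat.zero_le _⟩ <;>
        exact fun F hF => absurd hF (Finset.notMem_empty F)
    | succ k ih =>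
      obtain ⟨S, hS, hk⟩ := ih
      obtain ⟨S', hS', hlt⟩ := hcon S hS
      exact ⟨S', hS', by omega⟩
  obtain ⟨S, hS, hk⟩ := key (Module.finrank ℝ (PIs Ω m) + 1)
  have := card_le hS
  omega

theorem inv_one : PInv (1 : Matrix (Fin m → Ω) (Fin m → Ω) ℝ) := by
  intro σ a b
  rw [Matrix.one_apply, Matrix.one_apply]
  refine if_congr ?_ rfl rfl
  constructor
  · intro h
    funext k
    have := congrFun h (σ.symm k)
    simpa using this
  · intro h
    rw [h]

theorem dia_one : PDi bt (1 : Matrix (Fin m → Ω) (Fin m → Ω) ℝ) := by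
  intro a b h
  rw [Matrix.one_apply, if_neg]
  rintro rfl
  apply h
  unfold hd
  simp

end

theorem lo : S7_low := by
  classical
  intro Ω β _ _ _ _ bt m L hL
  obtain ⟨S, hS, hmax⟩ := exists_max (bt := bt) (m := m) (L := L)
  set T : Matrix (Fin m → Ω) (Fin m → Ω) ℝ := ∑ G ∈ S, G with hT
  have hTT : T * T = T := by
    conv_lhs => rw [hT, Finset.sum_mul]
    refine Finset.sum_congr rfl fun F hF => ?_
    exact mul_sum hS hF
  have hTt : T.transpose = T := by
    rw [hT, Matrix.transpose_sum]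
    exact Finset.sum_congr rfl fun F hF => (hS.prj F hF).1
  have happ : ∀ a b, T a b = ∑ G ∈ S, G a b := by
    intro a b
    rw [hT, Matrix.sum_apply]
  refine ⟨1 - T, ?_, ?_, ⟨?_, ?_⟩, ?_, ?_⟩
  · intro σ a b
    rw [Matrix.sub_apply, Matrix.sub_apply, inv_one σ a b, happ, happ]
    congr 1
    exact Finset.sum_congr rfl fun F hF => hS.inv F hF σ a b
  · intro a b h
    rw [Matrix.sub_apply, dia_one a b h, happ, Finset.sum_eq_zero fun F hF => hS.dia F hF a b h,
      sub_zero]
  · rw [Matrix.transpose_sub, Matrix.transpose_one, hTt]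
  · rw [sub_mul, mul_sub, mul_sub, one_mul, mul_one, hTT, one_mul, sub_self, sub_zero]
  · rw [sub_sub_cancel, hT, Matrix.trace_sum]
    have h1 : ∑ G ∈ S, G.trace ≤ ∑ _G ∈ S, L := Finset.sum_le_sum fun F hF => (hS.tr F hF).le
    refine h1.trans ?_
    rw [Finset.sum_const, nsmul_eq_mul, mul_comm]
    refine mul_le_mul_of_nonneg_left ?_ hL.le
    unfold dimP
    exact_mod_cast card_le hS
  · intro F hF1 hF2 hF3 hPF hF0
    by_contra hlt
    push Not at hlt
    have hGF : ∀ G ∈ S, G * F = 0 := by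
      intro G hG
      rw [← hPF, ← mul_assoc, mul_sub, mul_one, hT, mul_sum hS hG, sub_self, zero_mul]
    have hFG : ∀ G ∈ S, F * G = 0 := by
      intro G hG
      have h1 := congrArg Matrix.transpose (hGF G hG)
      rwa [Matrix.transpose_mul, Matrix.transpose_zero, hF3.1, (hS.prj G hG).1] at h1
    have hFS : F ∉ S := by
      intro h
      have := hGF F h
      rw [hF3.2] at this
      exact hF0 this
    have hfam : Fam bt m L (insert F S) := by
      refine ⟨?_, ?_, ?_, ?_, ?_, ?_⟩
      · exact fun G hG => (Finset.mem_insert.1 hG).elim (fun h => h ▸ hF1) (hS.inv G)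
      · exact fun G hG => (Finset.mem_insert.1 hG).elim (fun h => h ▸ hF2) (hS.dia G)
      · exact fun G hG => (Finset.mem_insert.1 hG).elim (fun h => h ▸ hF3) (hS.prj G)
      · exact fun G hG => (Finset.mem_insert.1 hG).elim (fun h => h ▸ hF0) (hS.ne G)
      · exact fun G hG => (Finset.mem_insert.1 hG).elim (fun h => h ▸ hlt) (hS.tr G)
      · intro G hG H hH hne
        rcases Finset.mem_insert.1 hG with h1 | h1
        · rcases Finset.mem_insert.1 hH with h2 | h2
          · exact absurd (h1.trans h2.symm) hne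
          · rw [h1]
            exact hFG H h2
        · rcases Finset.mem_insert.1 hH with h2 | h2
          · rw [h2]
            exact hGF G h1
          · exact hS.orth G h1 H h2 hne
    have := hmax _ hfam
    rw [Finset.card_insert_of_notMem hFS] at this
    omega

end Pool.Agent.TH41.BL.LO7f
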