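import Mathlib
import Pool.Agent.TH41.BL.Stm6

set_option autoImplicit false

open MeasureTheory Filter Topology

namespace Pool.Agent.TH41.BL.MX7f

open Pool.Agent.TH41.BL

section
variable {V : Type} [Fintype V]

theorem hs_add_left (X Y Z : Matrix V V ℝ) : hs (X + Y) Z = hs X Z + hs Y Z := by
  unfold hs
  simp only [Matrix.add_apply, add_mul, Finset.sum_add_distrib]

theorem hs_comm (X Y : Matrix V V ℝ) : hs X Y = hs Y X := by
  unfold hs
  simp only [mul_comm]

theorem hs_smul_left (c : ℝ) (X Y : Matrix V V ℝ) : hs (c • X) Y = c * hs X Y := by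
  unfold hs
  simp only [Matrix.smul_apply, smul_eq_mul, Finset.mul_sum, mul_assoc]

theorem hs_add_right (X Y Z : Matrix V V ℝ) : hs X (Y + Z) = hs X Y + hs X Z := by
  rw [hs_comm, hs_add_left, hs_comm Y, hs_comm Z]

theorem hs_smul_right (c : ℝ) (X Y : Matrix V V ℝ) : hs X (c • Y) = c * hs X Y := by
  rw [hs_comm, hs_smul_left, hs_comm]

theorem hs_self_nonneg (X : Matrix V V ℝ) : 0 ≤ hs X X := by
  unfold hs
  exact Finset.sum_nonneg fun a _ => Finset.sum_nonneg fun b _ => mul_self_nonneg _

theorem sq_le_hs (X : Matrix V V ℝ) (a b : V) : X a b * X a b ≤ hs X X := by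
  unfold hs
  calc X a b * X a b ≤ ∑ b', X a b' * X a b' :=
        Finset.single_le_sum (f := fun b' => X a b' * X a b')
          (fun b' _ => mul_self_nonneg (X a b')) (Finset.mem_univ b)
    _ ≤ ∑ a', ∑ b', X a' b' * X a' b' :=
        Finset.single_le_sum (f := fun a' => ∑ b', X a' b' * X a' b')
          (fun a' _ => Finset.sum_nonneg fun b' _ => mul_self_nonneg (X a' b')) (Finset.mem_univ a)

theorem hs_self_pos (X : Matrix V V ℝ) (h : X ≠ 0) : 0 < hs X X := by
  rcases (hs_self_nonneg X).lt_or_eq with h0 | h0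
  · exact h0
  · exfalso
    apply h
    ext a b
    have := sq_le_hs X a b
    rw [← h0] at this
    have h2 : X a b * X a b = 0 := le_antisymm this (mul_self_nonneg _)
    simpa using h2

theorem cont_hs {α : Type} [TopologicalSpace α] (f g : α → Matrix V V ℝ) (hf : Continuous f)
    (hg : Continuous g) : Continuous fun x => hs (f x) (g x) := by
  unfold hs
  refine continuous_finsetSum _ fun a _ => continuous_finsetSum _ fun b _ => ?_
  exact (hf.matrix_elem a b).mul (hg.matrix_elem a b)

end

theorem mx : S7_max := by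
  intro V _ _ W A hA hW
  obtain ⟨T1, hT1W, hT1⟩ := hW
  have hcA : Continuous A := A.continuous_of_finiteDimensional
  have hcs : Continuous fun T : Matrix V V ℝ => hs T T := cont_hs _ _ continuous_id continuous_id
  have hcf : Continuous fun T : Matrix V V ℝ => hs T (A T) := cont_hs _ _ continuous_id hcA
  have hKc : IsCompact {T : Matrix V V ℝ | T ∈ W ∧ hs T T = 1} := by
    have hbig : IsCompact (Set.pi Set.univ fun _ : V => Set.pi Set.univ fun _ : V =>
        Set.Icc (-1 : ℝ) 1) :=
      isCompact_univ_pi fun _ => isCompact_univ_pi fun _ => isCompact_Icc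
    refine IsCompact.of_isClosed_subset (X := V → V → ℝ) hbig ?_ ?_
    · have h1 : IsClosed (W : Set (Matrix V V ℝ)) := W.closed_of_finiteDimensional
      have h2 : IsClosed {T : Matrix V V ℝ | hs T T = 1} := isClosed_eq hcs continuous_const
      exact h1.inter h2
    · intro T hT a _ b _
      have h := sq_le_hs T a b
      have h1 : hs T T = 1 := hT.2
      rw [h1] at h
      constructor
      · nlinarith
      · nlinarith
  have hKne : {T : Matrix V V ℝ | T ∈ W ∧ hs T T = 1}.Nonempty := by
    have hp := hs_self_pos T1 hT1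
    refine ⟨(1 / √(hs T1 T1)) • T1, W.smul_mem _ hT1W, ?_⟩
    rw [hs_smul_left, hs_smul_right]
    have h1 : √(hs T1 T1) * √(hs T1 T1) = hs T1 T1 := Real.mul_self_sqrt hp.le
    have h2 : 0 < √(hs T1 T1) := Real.sqrt_pos.mpr hp
    field_simp
    nlinarith
  obtain ⟨T0, hT0, hmax⟩ := hKc.exists_isMaxOn hKne hcf.continuousOn
  have hT01 : hs T0 T0 = 1 := hT0.2
  have hub : ∀ S ∈ W, hs S (A S) ≤ hs T0 (A T0) * hs S S := by
    intro S hS
    by_cases hS0 : S = 0
    · subst hS0
      simp [hs]
    · have hp := hs_self_pos S hS0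
      have h1 : √(hs S S) * √(hs S S) = hs S S := Real.mul_self_sqrt hp.le
      have h2 : 0 < √(hs S S) := Real.sqrt_pos.mpr hp
      have hmem : (1 / √(hs S S)) • S ∈ {T : Matrix V V ℝ | T ∈ W ∧ hs T T = 1} := by
        refine ⟨W.smul_mem _ hS, ?_⟩
        rw [hs_smul_left, hs_smul_right]
        field_simp
        nlinarith
      have h3 := hmax hmem
      have h4 : hs ((1 / √(hs S S)) • S) (A ((1 / √(hs S S)) • S)) ≤ hs T0 (A T0) := h3
      rw [map_smul, hs_smul_left, hs_smul_right] at h4
      have h5 : 1 / √(hs S S) * (1 / √(hs S S) * hs S (A S)) = hs S (A S) / hs S S := by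
        have h6 : 1 / √(hs S S) * (1 / √(hs S S) * hs S (A S)) =
            hs S (A S) / (√(hs S S) * √(hs S S)) := by
          field_simp
        rw [h6, h1]
      rw [h5, div_le_iff₀ hp] at h4
      exact h4
  refine ⟨hs T0 (A T0), hub, ⟨T0, hT0.1, ?_, ?_⟩, ?_⟩
  · intro h
    rw [h] at hT01
    simp [hs] at hT01
  · rw [hT01, mul_one]
  · intro T hT hTe S hS
    set r := hs T0 (A T0) with hr
    have key : ∀ t : ℝ, 0 ≤ 2 * t * (r * hs S T - hs S (A T)) + t ^ 2 * (r * hs S S - hs S (A S)) := by
      intro t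
      have h := hub (T + t • S) (W.add_mem hT (W.smul_mem t hS))
      rw [map_add, map_smul] at h
      simp only [hs_add_left, hs_add_right, hs_smul_left, hs_smul_right] at h
      have h1 : hs T (A S) = hs S (A T) := by rw [hA T S, hs_comm]
      have h2 : hs T S = hs S T := hs_comm _ _
      rw [h1, h2] at h
      nlinarith
    by_contra hne
    set L := r * hs S T - hs S (A T) with hL
    have hL0 : L ≠ 0 := fun h => hne (by linarith)
    set c := r * hs S S - hs S (A S) with hc
    have hc0 : 0 ≤ c := by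
      have := hub S hS
      linarith
    have h := key (-L / (c + 1))
    have hc1 : 0 < c + 1 := by linarith
    have h2 : 2 * (-L / (c + 1)) * L + (-L / (c + 1)) ^ 2 * c = - (L ^ 2 * (c + 2) / (c + 1) ^ 2) := by
      field_simp
      ring
    rw [h2] at h
    have h3 : 0 < L ^ 2 * (c + 2) / (c + 1) ^ 2 := by positivity
    linarith

end Pool.Agent.TH41.BL.MX7f
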