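import Mathlib
import Pool.Agent.TH41.BL.Stm6

set_option autoImplicit false

open MeasureTheory Filter Topology

namespace Pool.Agent.TH41.BL.PO7f

open Pool.Agent.TH41.BL

theorem symm_of {V : Type} {A : Matrix V V ℝ} (h : A.transpose = A) (a b : V) : A a b = A b a := by
  have := congrFun (congrFun h b) a
  exact this

theorem hs_nonneg {V : Type} [Fintype V] {A B : Matrix V V ℝ} (hA : PSD A) (hB : PSD B) :
    0 ≤ hs A B := by
  have hB' : B.PosSemidef := by
    rw [Matrix.posSemidef_iff_dotProduct_mulVec]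
    constructor
    · rw [Matrix.IsHermitian, Matrix.conjTranspose_eq_transpose_of_trivial]
      exact hB.1
    · intro x
      have h := hB.2 x
      have e : star x ⬝ᵥ (Matrix.mulVec B x) = ∑ a, ∑ b, x a * B a b * x b := by
        simp only [dotProduct, Matrix.mulVec, star_trivial, Finset.mul_sum]
        refine Finset.sum_congr rfl fun a _ => Finset.sum_congr rfl fun b _ => ?_
        ring
      rw [e]
      exact h
  obtain ⟨m, v, hv⟩ := Matrix.posSemidef_iff_eq_sum_vecMulVec.1 hB'
  have hb : ∀ a b, B a b = ∑ i, v i a * v i b := by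
    intro a b
    rw [hv, Matrix.sum_apply]
    refine Finset.sum_congr rfl fun i _ => ?_
    simp [Matrix.vecMulVec_apply]
  have e : hs A B = ∑ i, ∑ a, ∑ b, v i a * A a b * v i b := by
    unfold hs
    simp only [hb, Finset.mul_sum]
    have : ∀ a, ∑ b, ∑ i, A a b * (v i a * v i b) = ∑ i, ∑ b, A a b * (v i a * v i b) :=
      fun a => Finset.sum_comm
    simp only [this]
    rw [Finset.sum_comm]
    refine Finset.sum_congr rfl fun i _ => Finset.sum_congr rfl fun a _ =>
      Finset.sum_congr rfl fun b _ => ?_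
    ring
  rw [e]
  exact Finset.sum_nonneg fun i _ => hA.2 (v i)

theorem psd_sign {V : Type} [Fintype V] (s : V → ℝ) {A : Matrix V V ℝ} (hA : PSD A) :
    PSD (Matrix.of fun a b => s a * A a b * s b) := by
  constructor
  · ext a b
    simp only [Matrix.transpose_apply, Matrix.of_apply]
    rw [symm_of hA.1 b a]
    ring
  · intro x
    have h := hA.2 (fun a => x a * s a)
    refine h.trans (le_of_eq ?_)
    refine Finset.sum_congr rfl fun a _ => Finset.sum_congr rfl fun b _ => ?_
    simp only [Matrix.of_apply]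
    ring

section
variable {Ω β : Type} [Fintype Ω] [DecidableEq Ω] [Fintype β] [DecidableEq β] {m : ℕ}

/-- the sign of a bit -/
def zz (bt : Ω → β → Bool) (p : Fin m × β) (a : Fin m → Ω) : ℝ :=
  if bt (a p.1) p.2 then 1 else -1

omit [Fintype Ω] [DecidableEq Ω] [DecidableEq β] in
theorem hd_sum (bt : Ω → β → Bool) (a b : Fin m → Ω) :
    hd bt a b = ∑ p : Fin m × β, (if bt (a p.1) p.2 ≠ bt (b p.1) p.2 then 1 else 0) := by
  unfold hd
  rw [Finset.card_filter]

omit [Fintype Ω] [DecidableEq Ω] [DecidableEq β] in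
theorem hd_symm (bt : Ω → β → Bool) (a b : Fin m → Ω) : hd bt a b = hd bt b a := by
  rw [hd_sum, hd_sum]
  refine Finset.sum_congr rfl fun p _ => ?_
  simp only [ne_comm]

omit [Fintype Ω] [DecidableEq Ω] [DecidableEq β] in
theorem hd_zero (bt : Ω → β → Bool) (a b : Fin m → Ω) :
    hd bt a b = 0 ↔ ∀ p : Fin m × β, bt (a p.1) p.2 = bt (b p.1) p.2 := by
  unfold hd
  rw [Finset.card_eq_zero, Finset.filter_eq_empty_iff]
  constructor
  · intro h p
    simpa using h (Finset.mem_univ p)
  · intro h p _
    simpa using h p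

omit [Fintype Ω] [DecidableEq Ω] [DecidableEq β] in
theorem hd_congr (bt : Ω → β → Bool) {a c : Fin m → Ω} (h : hd bt a c = 0) (b : Fin m → Ω) :
    hd bt a b = hd bt c b := by
  rw [hd_zero] at h
  rw [hd_sum, hd_sum]
  refine Finset.sum_congr rfl fun p _ => ?_
  rw [h p]

omit [Fintype Ω] [DecidableEq Ω] [DecidableEq β] in
theorem nb_sub (bt : Ω → β → Bool) (a b : Fin m → Ω) :
    (nb β m : ℝ) - 2 * hd bt a b = ∑ p : Fin m × β, zz bt p a * zz bt p b := by
  have h1 : (nb β m : ℝ) = ∑ _p : Fin m × β, (1 : ℝ) := by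
    rw [Finset.sum_const, Finset.card_univ, Fintype.card_prod, Fintype.card_fin]
    simp [nb]
  rw [h1, hd_sum]
  push_cast
  rw [Finset.mul_sum, ← Finset.sum_sub_distrib]
  refine Finset.sum_congr rfl fun p _ => ?_
  unfold zz
  cases bt (a p.1) p.2 <;> cases bt (b p.1) p.2 <;> norm_num

omit [Fintype Ω] [DecidableEq Ω] [DecidableEq β] in
theorem hd_le (bt : Ω → β → Bool) (a b : Fin m → Ω) : hd bt a b ≤ nb β m := by
  unfold hd
  refine (Finset.card_filter_le _ _).trans ?_
  rw [Finset.card_univ, Fintype.card_prod, Fintype.card_fin]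
  rfl

omit [Fintype Ω] [DecidableEq Ω] [DecidableEq β] in
theorem hd_perm (bt : Ω → β → Bool) (σ : Equiv.Perm (Fin m)) (a b : Fin m → Ω) :
    hd bt (fun k => a (σ k)) (fun k => b (σ k)) = hd bt a b := by
  rw [hd_sum, hd_sum]
  exact Equiv.sum_comp (σ.prodCongr (Equiv.refl β))
    (fun p : Fin m × β => if bt (a p.1) p.2 ≠ bt (b p.1) p.2 then 1 else 0)

omit [DecidableEq β] in
theorem psd_Ad (bt : Ω → β → Bool) {A : Matrix (Fin m → Ω) (Fin m → Ω) ℝ} (hA : PSD A) :
    PSD (Ad bt A) := by
  constructor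
  · ext a b
    simp only [Matrix.transpose_apply, Ad, Matrix.of_apply]
    rw [symm_of hA.1 b a, hd_symm]
  · intro x
    have e1 : ∀ a b : Fin m → Ω, x a * Ad bt A a b * x b = ∑ p : Fin m × β,
        x a * (Matrix.of fun a b => zz bt p a * A a b * zz bt p b : Matrix (Fin m → Ω) (Fin m → Ω)
          ℝ) a b * x b := by
      intro a b
      simp only [Ad, Matrix.of_apply]
      rw [nb_sub, Finset.sum_mul, Finset.mul_sum, Finset.sum_mul]
      refine Finset.sum_congr rfl fun p _ => ?_
      ring
    have e : ∑ a : Fin m → Ω, ∑ b : Fin m → Ω, x a * Ad bt A a b * x b =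
        ∑ p : Fin m × β, ∑ a : Fin m → Ω, ∑ b : Fin m → Ω,
        x a * (Matrix.of fun a b => zz bt p a * A a b * zz bt p b : Matrix (Fin m → Ω) (Fin m → Ω)
          ℝ) a b * x b := by
      calc ∑ a : Fin m → Ω, ∑ b : Fin m → Ω, x a * Ad bt A a b * x b =
          ∑ a : Fin m → Ω, ∑ b : Fin m → Ω, ∑ p : Fin m × β,
            x a * (Matrix.of fun a b => zz bt p a * A a b * zz bt p b :
              Matrix (Fin m → Ω) (Fin m → Ω) ℝ) a b * x b :=
            Finset.sum_congr rfl fun a _ => Finset.sum_congr rfl fun b _ => e1 a b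
        _ = ∑ a : Fin m → Ω, ∑ p : Fin m × β, ∑ b : Fin m → Ω,
            x a * (Matrix.of fun a b => zz bt p a * A a b * zz bt p b :
              Matrix (Fin m → Ω) (Fin m → Ω) ℝ) a b * x b :=
            Finset.sum_congr rfl fun a _ => Finset.sum_comm
        _ = _ := Finset.sum_comm
    rw [e]
    exact Finset.sum_nonneg fun p _ => (psd_sign (zz bt p) hA).2 x

/-- the position -/
def pos (bt : Ω → β → Bool) (a : Fin m → Ω) : Fin m × β → Bool := fun p => bt (a p.1) p.2

omit [DecidableEq β] in
theorem psd_dgP (bt : Ω → β → Bool) {A : Matrix (Fin m → Ω) (Fin m → Ω) ℝ} (hA : PSD A) :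
    PSD (dgP bt A) := by
  classical
  constructor
  · ext a b
    simp only [Matrix.transpose_apply, dgP, Matrix.of_apply]
    rw [symm_of hA.1 b a, hd_symm]
  · intro x
    have e1 : ∀ a b : Fin m → Ω, x a * dgP bt A a b * x b = ∑ w : Fin m × β → Bool,
        x a * (Matrix.of fun a b => (if pos bt a = w then (1 : ℝ) else 0) * A a b *
          (if pos bt b = w then (1 : ℝ) else 0) : Matrix (Fin m → Ω) (Fin m → Ω) ℝ) a b * x b := by
      intro a b
      simp only [dgP, Matrix.of_apply]
      rw [Finset.sum_eq_single (pos bt a)]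
      · rw [if_pos rfl]
        by_cases h : hd bt a b = 0
        · have h2 : pos bt b = pos bt a := by
            funext p
            exact ((hd_zero bt a b).1 h p).symm
          rw [if_pos h, if_pos h2]
          ring
        · have h2 : pos bt b ≠ pos bt a := by
            intro h3
            exact h ((hd_zero bt a b).2 fun p => (congrFun h3 p).symm)
          rw [if_neg h, if_neg h2]
          ring
      · intro w _ hw
        rw [if_neg (Ne.symm hw)]
        ring
      · intro h
        exact absurd (Finset.mem_univ _) h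
    have e : ∑ a : Fin m → Ω, ∑ b : Fin m → Ω, x a * dgP bt A a b * x b =
        ∑ w : Fin m × β → Bool, ∑ a : Fin m → Ω, ∑ b : Fin m → Ω,
        x a * (Matrix.of fun a b => (if pos bt a = w then (1 : ℝ) else 0) * A a b *
          (if pos bt b = w then (1 : ℝ) else 0) : Matrix (Fin m → Ω) (Fin m → Ω) ℝ) a b * x b := by
      calc ∑ a : Fin m → Ω, ∑ b : Fin m → Ω, x a * dgP bt A a b * x b =
          ∑ a : Fin m → Ω, ∑ b : Fin m → Ω, ∑ w : Fin m × β → Bool,
            x a * (Matrix.of fun a b => (if pos bt a = w then (1 : ℝ) else 0) * A a b *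
              (if pos bt b = w then (1 : ℝ) else 0) :
              Matrix (Fin m → Ω) (Fin m → Ω) ℝ) a b * x b :=
            Finset.sum_congr rfl fun a _ => Finset.sum_congr rfl fun b _ => e1 a b
        _ = ∑ a : Fin m → Ω, ∑ w : Fin m × β → Bool, ∑ b : Fin m → Ω,
            x a * (Matrix.of fun a b => (if pos bt a = w then (1 : ℝ) else 0) * A a b *
              (if pos bt b = w then (1 : ℝ) else 0) :
              Matrix (Fin m → Ω) (Fin m → Ω) ℝ) a b * x b :=
            Finset.sum_congr rfl fun a _ => Finset.sum_comm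
        _ = _ := Finset.sum_comm
    rw [e]
    exact Finset.sum_nonneg fun w _ =>
      (psd_sign (fun a => if pos bt a = w then (1 : ℝ) else 0) hA).2 x

omit [DecidableEq β] in
theorem Ad_bound (bt : Ω → β → Bool) (A B : Matrix (Fin m → Ω) (Fin m → Ω) ℝ) :
    |hs A (Ad bt B)| ≤ nb β m * (√(hs A A) * √(hs B B)) := by
  have h1 : |hs A (Ad bt B)| ≤ nb β m * ∑ a, ∑ b, |A a b| * |B a b| := by
    unfold hs
    rw [Finset.mul_sum]
    refine (Finset.abs_sum_le_sum_abs _ _).trans (Finset.sum_le_sum fun a _ => ?_)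
    rw [Finset.mul_sum]
    refine (Finset.abs_sum_le_sum_abs _ _).trans (Finset.sum_le_sum fun b _ => ?_)
    simp only [Ad, Matrix.of_apply]
    rw [abs_mul, abs_mul]
    have h2 : |(nb β m : ℝ) - 2 * hd bt a b| ≤ nb β m := by
      have h3 : (hd bt a b : ℝ) ≤ nb β m := by exact_mod_cast hd_le bt a b
      have h4 : (0 : ℝ) ≤ hd bt a b := Nat.cast_nonneg _
      rw [abs_le]
      constructor <;> linarith
    have h5 : 0 ≤ |A a b| * |B a b| := by positivity
    calc |A a b| * (|(nb β m : ℝ) - 2 * hd bt a b| * |B a b|) =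
        |(nb β m : ℝ) - 2 * hd bt a b| * (|A a b| * |B a b|) := by ring
      _ ≤ _ := mul_le_mul_of_nonneg_right h2 h5
  refine h1.trans (mul_le_mul_of_nonneg_left ?_ (Nat.cast_nonneg _))
  have h6 := Real.sum_mul_le_sqrt_mul_sqrt (Finset.univ : Finset ((Fin m → Ω) × (Fin m → Ω)))
    (fun q => |A q.1 q.2|) (fun q => |B q.1 q.2|)
  simp only [sq_abs] at h6
  rw [Fintype.sum_prod_type, Fintype.sum_prod_type, Fintype.sum_prod_type] at h6
  refine h6.trans (le_of_eq ?_)
  unfold hs
  simp only [sq]

end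

theorem po : S7_pos := by
  refine ⟨fun V _ A B hA hB => hs_nonneg hA hB, fun V _ s A hA => psd_sign s hA, ?_⟩
  intro Ω β _ _ _ _ bt m A B
  refine ⟨psd_Ad bt, psd_dgP bt, ?_, ?_, ?_, ?_, ?_, ?_, Ad_bound bt A B⟩
  · intro hA σ a b
    simp only [Ad, Matrix.of_apply]
    rw [hd_perm, hA σ a b]
  · intro hA σ a b
    simp only [dgP, Matrix.of_apply]
    rw [hd_perm, hA σ a b]
  · intro a b h
    simp only [dgP, Matrix.of_apply]
    rw [if_neg h]
  · unfold hs
    refine Finset.sum_congr rfl fun a _ => Finset.sum_congr rfl fun b _ => ?_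
    simp only [Ad, Matrix.of_apply]
    ring
  · intro hA
    ext a b
    simp only [Ad, Matrix.of_apply, Matrix.mul_apply]
    rw [Finset.mul_sum]
    refine Finset.sum_congr rfl fun c _ => ?_
    by_cases h : hd bt a c = 0
    · rw [hd_congr bt h b]
      ring
    · rw [hA a c h]
      ring
  · intro hA
    ext a b
    simp only [dgP, Matrix.of_apply, Matrix.mul_apply]
    by_cases h0 : hd bt a b = 0
    · rw [if_pos h0]
      refine Finset.sum_congr rfl fun c _ => ?_
      by_cases h : hd bt a c = 0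
      · rw [← hd_congr bt h b, if_pos h0]
      · rw [hA a c h]
        ring
    · rw [if_neg h0]
      symm
      refine Finset.sum_eq_zero fun c _ => ?_
      by_cases h : hd bt a c = 0
      · rw [← hd_congr bt h b, if_neg h0, mul_zero]
      · rw [hA a c h, zero_mul]

end Pool.Agent.TH41.BL.PO7f
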