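import Mathlib
import Pool.Agent.TH41.BL.Stm9
import Pool.Agent.H390R2.LP.Block

/-!
Project BL7 (helper41, MP_dbfdb2_gt), piece PS: a position-diagonal projection of small trace
carries little weight in the product state.
-/

set_option autoImplicit false

open MeasureTheory Filter Topology

open scoped FourierTransform

namespace Pool.Agent.TH41.BL.PS8f

open Pool.Agent.TH41.BL
open Pool.Agent.H390R2.LP

section gen
variable {V : Type} [Fintype V] [DecidableEq V]

/-- matrix elements in a basis -/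
def me (W : V → V → ℝ) (G : Matrix V V ℝ) (c c' : V) : ℝ := ∑ a, ∑ b, W c a * G a b * W c' b

omit [DecidableEq V] in
lemma me_sq (W : V → V → ℝ) (G : Matrix V V ℝ) (hG : Prj G) (c : V) :
    me W G c c = ∑ e, (∑ a, G e a * W c a) ^ 2 := by
  have h1 : ∀ a b, G a b = ∑ e, G e a * G e b := by
    intro a b
    have h2 := congrFun (congrFun hG.2 a) b
    rw [Matrix.mul_apply] at h2
    rw [← h2]
    refine Finset.sum_congr rfl fun e _ => ?_
    have h3 := congrFun (congrFun hG.1 e) a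
    rw [Matrix.transpose_apply] at h3
    rw [h3]
  have h5 : ∀ e, (∑ a, G e a * W c a) ^ 2 = ∑ a, ∑ b, (G e a * W c a) * (G e b * W c b) := by
    intro e
    rw [sq, Finset.sum_mul_sum]
  simp only [h5]
  rw [Finset.sum_comm]
  unfold me
  refine Finset.sum_congr rfl fun a _ => ?_
  rw [Finset.sum_comm]
  refine Finset.sum_congr rfl fun b _ => ?_
  rw [h1 a b, Finset.mul_sum, Finset.sum_mul]
  exact Finset.sum_congr rfl fun _ _ => by ring

omit [DecidableEq V] in
lemma me_nonneg (W : V → V → ℝ) (G : Matrix V V ℝ) (hG : Prj G) (c : V) : 0 ≤ me W G c c := by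
  rw [me_sq W G hG c]
  exact Finset.sum_nonneg fun _ _ => sq_nonneg _

lemma me_le_one (W : V → V → ℝ) (hW : ∀ a b, ∑ ω, W a ω * W b ω = if a = b then 1 else 0)
    (G : Matrix V V ℝ) (hG : Prj G) (c : V) : me W G c c ≤ 1 := by
  have h1 : ∑ e, W c e * ∑ a, G e a * W c a = me W G c c := by
    unfold me
    refine Finset.sum_congr rfl fun a _ => ?_
    rw [Finset.mul_sum]
    exact Finset.sum_congr rfl fun _ _ => by ring
  have h2 := me_sq W G hG c
  have h3 : ∑ e, W c e * W c e = 1 := by rw [hW, if_pos rfl]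
  have h4 : 0 ≤ ∑ e, (W c e - ∑ a, G e a * W c a) ^ 2 := Finset.sum_nonneg fun _ _ => sq_nonneg _
  have h5 : ∑ e, (W c e - ∑ a, G e a * W c a) ^ 2 =
      ∑ e, W c e * W c e - 2 * ∑ e, W c e * ∑ a, G e a * W c a + ∑ e, (∑ a, G e a * W c a) ^ 2 := by
    rw [Finset.mul_sum, ← Finset.sum_sub_distrib, ← Finset.sum_add_distrib]
    exact Finset.sum_congr rfl fun _ _ => by ring
  rw [h5, h1, ← h2, h3] at h4
  linarith

lemma compl (e : V → V → ℝ)
    (he : ∀ a b, ∑ ω, e a ω * e b ω = if a = b then 1 else 0) (ω ω' : V) :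
    ∑ a, e a ω * e a ω' = if ω = ω' then 1 else 0 := by
  have h1 : (Matrix.of e) * (Matrix.of e).transpose = 1 := by
    ext a b
    rw [Matrix.mul_apply, Matrix.one_apply]
    simpa [Matrix.transpose_apply] using he a b
  have h2 := mul_eq_one_comm.mp h1
  have h3 := congrFun (congrFun h2 ω) ω'
  rw [Matrix.mul_apply, Matrix.one_apply] at h3
  simpa [Matrix.transpose_apply] using h3

lemma me_trace (W : V → V → ℝ) (hW : ∀ a b, ∑ ω, W a ω * W b ω = if a = b then 1 else 0)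
    (G : Matrix V V ℝ) : ∑ c, me W G c c = G.trace := by
  unfold me
  rw [Finset.sum_comm, Matrix.trace]
  refine Finset.sum_congr rfl fun a _ => ?_
  rw [Finset.sum_comm]
  have h1 : ∀ b, ∑ c, W c a * G a b * W c b = G a b * if a = b then 1 else 0 := by
    intro b
    rw [← compl W hW a b, Finset.mul_sum]
    exact Finset.sum_congr rfl fun _ _ => by ring
  simp only [h1]
  simp

/-- change of basis in a quadratic form -/
lemma quad (W : V → V → ℝ) (hW : ∀ a b, ∑ ω, W a ω * W b ω = if a = b then 1 else 0)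
    (G : Matrix V V ℝ) (f : V → ℝ) :
    ∑ a, ∑ b, f a * G a b * f b =
      ∑ c, ∑ c', me W G c c' * ((∑ ω, f ω * W c ω) * (∑ ω, f ω * W c' ω)) := by
  have h1 : ∀ a, f a = ∑ c, (∑ ω, f ω * W c ω) * W c a := by
    intro a
    have h2 : ∀ c, (∑ ω, f ω * W c ω) * W c a = ∑ ω, f ω * (W c ω * W c a) := by
      intro c
      rw [Finset.sum_mul]
      exact Finset.sum_congr rfl fun _ _ => by ring
    simp only [h2]
    rw [Finset.sum_comm]
    simp only [← Finset.mul_sum, compl W hW]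
    simp
  have h3 : ∀ a b, f a * G a b * f b = ∑ c, ∑ c', (W c a * G a b * W c' b) *
      ((∑ ω, f ω * W c ω) * (∑ ω, f ω * W c' ω)) := by
    intro a b
    conv_lhs => rw [h1 a, h1 b]
    rw [Finset.sum_mul, Finset.sum_mul]
    refine Finset.sum_congr rfl fun c _ => ?_
    rw [Finset.mul_sum]
    exact Finset.sum_congr rfl fun _ _ => by ring
  simp only [h3]
  have h4 : ∀ c c', me W G c c' * ((∑ ω, f ω * W c ω) * (∑ ω, f ω * W c' ω)) =
      ∑ a, ∑ b, (W c a * G a b * W c' b) * ((∑ ω, f ω * W c ω) * (∑ ω, f ω * W c' ω)) := by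
    intro c c'
    unfold me
    simp only [Finset.sum_mul]
  simp only [h4]
  have h5 : ∀ a : V, ∑ b, ∑ c, ∑ c', (W c a * G a b * W c' b) *
      ((∑ ω, f ω * W c ω) * (∑ ω, f ω * W c' ω)) = ∑ c, ∑ c', ∑ b, (W c a * G a b * W c' b) *
      ((∑ ω, f ω * W c ω) * (∑ ω, f ω * W c' ω)) := by
    intro a
    rw [Finset.sum_comm]
    exact Finset.sum_congr rfl fun _ _ => Finset.sum_comm
  simp only [h5]
  rw [Finset.sum_comm]
  refine Finset.sum_congr rfl fun c _ => ?_
  rw [Finset.sum_comm]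

end gen

/-- the final estimate -/
lemma final {V : Type} [Fintype V] [DecidableEq V] (q g : V → ℝ) (hq0 : ∀ c, 0 ≤ q c)
    (hq1 : ∀ c, q c ≤ 1) (hg0 : ∀ c, 0 ≤ g c) (t A B : ℝ)
    (hB : ∑ c ∈ Finset.univ.filter (fun c => ¬ g c ≤ t), g c ≤ B) (hA : ∑ c, q c ≤ A)
    (ht : 0 ≤ t) : ∑ c, q c * g c ≤ B + t * A := by
  rw [← Finset.sum_filter_add_sum_filter_not Finset.univ (fun c => ¬ g c ≤ t)]
  refine add_le_add ?_ ?_
  · refine le_trans (Finset.sum_le_sum fun c _ => ?_) hB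
    have := mul_le_mul_of_nonneg_right (hq1 c) (hg0 c)
    rwa [one_mul] at this
  · refine le_trans ?_ (mul_le_mul_of_nonneg_left hA ht)
    rw [Finset.mul_sum]
    refine le_trans (Finset.sum_le_sum (g := fun c => t * q c) fun c hc => ?_)
      (Finset.sum_le_sum_of_subset_of_nonneg (Finset.filter_subset _ _)
        fun c _ _ => mul_nonneg ht (hq0 c))
    rw [Finset.mem_filter, not_not] at hc
    rw [mul_comm]
    exact mul_le_mul_of_nonneg_right hc.2 (hq0 c)

lemma choose_m (C h ε : ℝ) (hε : 0 < ε) : ∃ m₀ : ℕ, 0 < m₀ ∧ ∀ m : ℕ, m₀ ≤ m →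
    C / (m * (ε / 2) ^ 2) + Real.exp (-(m * (h - ε / 2))) * Real.exp (m * (h - ε)) ≤ ε := by
  obtain ⟨m₀, hm₀⟩ := exists_nat_gt (max (8 * C / ε ^ 3) (4 / ε ^ 2))
  have h4 : 0 < 4 / ε ^ 2 := by positivity
  have hpos : (0 : ℝ) < m₀ := lt_trans (lt_of_lt_of_le h4 (le_max_right _ _)) hm₀
  refine ⟨m₀, by exact_mod_cast hpos, fun m hm => ?_⟩
  have hm' : (m₀ : ℝ) ≤ m := by exact_mod_cast hm
  have hmp : (0 : ℝ) < m := lt_of_lt_of_le hpos hm'
  have h1 : 8 * C / ε ^ 3 ≤ m := ((le_max_left _ _).trans hm₀.le).trans hm'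
  have h2 : 4 / ε ^ 2 ≤ m := ((le_max_right _ _).trans hm₀.le).trans hm'
  have h3 : C / (m * (ε / 2) ^ 2) ≤ ε / 2 := by
    rw [div_le_iff₀ (by positivity)]
    rw [div_le_iff₀ (by positivity)] at h1
    nlinarith
  have h5 : Real.exp (-(m * (h - ε / 2))) * Real.exp (m * (h - ε)) ≤ ε / 2 := by
    rw [← Real.exp_add]
    have h6 : -(m * (h - ε / 2)) + m * (h - ε) = -(m * (ε / 2)) := by ring
    rw [h6, Real.exp_neg]
    have h7 : m * (ε / 2) ≤ Real.exp (m * (ε / 2)) := by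
      have := Real.add_one_le_exp (m * (ε / 2))
      linarith
    have h8 : 0 < m * (ε / 2) := by positivity
    refine le_trans (inv_anti₀ h8 h7) ?_
    rw [inv_le_comm₀ h8 (by positivity)]
    rw [div_le_iff₀ (by positivity)] at h2
    rw [inv_le_iff_one_le_mul₀ (by positivity)]
    nlinarith
  linarith


section site
variable {Ω : Type} [Fintype Ω] [DecidableEq Ω] {q : ℕ} (s : Site Ω (Fin q)) {m : ℕ}

lemma Rg_eq (a b : Fin m → Ω) :
    Rg s m a b = ∑ x : Fin m → Ω, Pool.Agent.H390R2.LP.Lam s x * (pv s.u x a * pv s.u x b) := by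
  unfold Rg
  rw [Matrix.of_apply, ← sum_prod (fun k o => s.lam o * s.u o (a k) * s.u o (b k))]
  refine Finset.sum_congr rfl fun x _ => ?_
  rw [Finset.prod_mul_distrib, Finset.prod_mul_distrib]
  unfold Pool.Agent.H390R2.LP.Lam pv
  ring

lemma hd_ne (a b : Fin m → Ω) (h : (fun k => s.pos (a k)) ≠ fun k => s.pos (b k)) :
    hd (bX s.pos) a b ≠ 0 := by
  obtain ⟨k, hk⟩ := Function.ne_iff.mp h
  unfold hd
  rw [Finset.card_ne_zero]
  refine ⟨(k, s.pos (a k)), ?_⟩
  have hk' : ¬ s.pos (b k) = s.pos (a k) := fun h1 => hk h1.symm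
  simp [bX, hk']

lemma me_zero (G : Matrix (Fin m → Ω) (Fin m → Ω) ℝ) (hG : PDi (bX s.pos) G)
    (c c' : Fin m → Ω) (h : (fun k => s.lab (c k)) ≠ fun k => s.lab (c' k)) :
    me (pv s.w) G c c' = 0 := by
  unfold me
  refine Finset.sum_eq_zero fun a _ => Finset.sum_eq_zero fun b _ => ?_
  by_cases h1 : (fun k => s.pos (a k)) = fun k => s.lab (c k)
  · by_cases h2 : (fun k => s.pos (b k)) = fun k => s.lab (c' k)
    · have h3 : (fun k => s.pos (a k)) ≠ fun k => s.pos (b k) := by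
        rw [h1, h2]; exact h
      rw [hG a b (hd_ne s a b h3)]
      ring
    · rw [pv_supp s c' b h2, mul_zero]
  · rw [pv_supp s c a h1]
    ring

lemma tr_eq (G : Matrix (Fin m → Ω) (Fin m → Ω) ℝ) (hG : PDi (bX s.pos) G) :
    (G * Rg s m).trace = ∑ c, me (pv s.w) G c c * Gg s c := by
  have hW : ∀ a b : Fin m → Ω, ∑ ω, pv s.w a ω * pv s.w b ω = if a = b then 1 else 0 :=
    pv_orth s.w s.w_orth
  have h1 : (G * Rg s m).trace = ∑ x : Fin m → Ω, Pool.Agent.H390R2.LP.Lam s x *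
      ∑ a, ∑ b, pv s.u x a * G a b * pv s.u x b := by
    unfold Matrix.trace
    have h2 : ∀ a : Fin m → Ω, (G * Rg s m).diag a =
        ∑ b, ∑ x : Fin m → Ω, Pool.Agent.H390R2.LP.Lam s x * (pv s.u x a * G a b * pv s.u x b) := by
      intro a
      rw [Matrix.diag_apply, Matrix.mul_apply]
      refine Finset.sum_congr rfl fun b _ => ?_
      rw [Rg_eq, Finset.mul_sum]
      exact Finset.sum_congr rfl fun _ _ => by ring
    simp only [h2]
    have h3 : ∀ a : Fin m → Ω, ∑ b, ∑ x : Fin m → Ω, Pool.Agent.H390R2.LP.Lam s x * (pv s.u x a * G a b * pv s.u x b) =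
        ∑ x : Fin m → Ω, ∑ b, Pool.Agent.H390R2.LP.Lam s x * (pv s.u x a * G a b * pv s.u x b) :=
      fun a => Finset.sum_comm
    simp only [h3]
    rw [Finset.sum_comm]
    refine Finset.sum_congr rfl fun x _ => ?_
    rw [Finset.mul_sum]
    refine Finset.sum_congr rfl fun a _ => ?_
    rw [Finset.mul_sum]
  rw [h1]
  have h4 : ∀ x : Fin m → Ω, Pool.Agent.H390R2.LP.Lam s x * ∑ a, ∑ b, pv s.u x a * G a b * pv s.u x b =
      ∑ c, ∑ c', me (pv s.w) G c c' * (Pool.Agent.H390R2.LP.Lam s x * (∑ ω, pv s.u x ω * pv s.w c ω) *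
        (∑ ω, pv s.u x ω * pv s.w c' ω)) := by
    intro x
    rw [quad (pv s.w) hW G (pv s.u x), Finset.mul_sum]
    refine Finset.sum_congr rfl fun c _ => ?_
    rw [Finset.mul_sum]
    exact Finset.sum_congr rfl fun _ _ => by ring
  simp only [h4]
  rw [Finset.sum_comm]
  refine Finset.sum_congr rfl fun c _ => ?_
  rw [Finset.sum_comm]
  simp only [← Finset.mul_sum]
  have h5 : ∀ c', me (pv s.w) G c c' * ∑ x : Fin m → Ω, (Pool.Agent.H390R2.LP.Lam s x *
      (∑ ω, pv s.u x ω * pv s.w c ω) * (∑ ω, pv s.u x ω * pv s.w c' ω)) =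
      if c = c' then me (pv s.w) G c c * Gg s c else 0 := by
    intro c'
    by_cases hl : (fun k => s.lab (c k)) = fun k => s.lab (c' k)
    · rw [pv_diag s c c' hl]
      by_cases hc : c = c'
      · subst hc; rw [if_pos rfl, if_pos rfl]
      · rw [if_neg hc, if_neg hc, mul_zero]
    · rw [me_zero s G hG c c' hl, zero_mul, if_neg]
      intro hc
      exact hl (by rw [hc])
  simp only [h5]
  simp

end site

theorem ps8 : S8_ps := by
  intro Ω _ _ q s ε hε
  have hg0 : ∀ a, 0 ≤ s.g a := fun a => Pool.Agent.H703R2.LP.site_g_nonneg s a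
  have hgs : ∑ a, s.g a = 1 := Pool.Agent.H703R2.LP.site_g_sum s
  set C : ℝ := ∑ o, s.g o * (-Real.log (s.g o) - ∑ o', Real.negMulLog (s.g o')) ^ 2 with hC
  obtain ⟨m₀, hm₀, hm⟩ := choose_m C s.h ε hε
  refine ⟨m₀, fun m hmm G hG hD htr => ?_⟩
  have hmp : 0 < m := lt_of_lt_of_le hm₀ hmm
  have hW : ∀ a b : Fin m → Ω, ∑ ω, pv s.w a ω * pv s.w b ω = if a = b then 1 else 0 :=
    pv_orth s.w s.w_orth
  rw [tr_eq s G hD]
  have h1 := aep_heavy hmp s.g hg0 hgs (half_pos hε)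
  have h2 := final (fun c => me (pv s.w) G c c) (fun c : Fin m → Ω => Gg s c)
    (me_nonneg (pv s.w) G hG) (me_le_one (pv s.w) hW G hG) (Gg_nonneg s)
    (Real.exp (-(m * (s.h - ε / 2)))) (Real.exp (m * (s.h - ε))) (C / (m * (ε / 2) ^ 2))
    (by
      rw [hC]
      exact h1)
    (by
      rw [me_trace (pv s.w) hW G]
      exact htr)
    (Real.exp_pos _).le
  exact h2.trans (hm m hmm)

end Pool.Agent.TH41.BL.PS8f
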