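import Mathlib
import Pool.Agent.TH41.BL.Stm6

set_option autoImplicit false

open MeasureTheory Filter Topology

namespace Pool.Agent.TH41.BL.RY7f

open Pool.Agent.TH41.BL

section hsl

variable {V : Type} [Fintype V]

lemma hs_comm (A B : Matrix V V ℝ) : hs A B = hs B A := by
  unfold hs
  exact Finset.sum_congr rfl fun a _ => Finset.sum_congr rfl fun b _ => mul_comm _ _

lemma hs_add (A B C : Matrix V V ℝ) : hs A (B + C) = hs A B + hs A C := by
  unfold hs
  rw [← Finset.sum_add_distrib]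
  refine Finset.sum_congr rfl fun a _ => ?_
  rw [← Finset.sum_add_distrib]
  refine Finset.sum_congr rfl fun b _ => ?_
  rw [Matrix.add_apply]; ring

lemma hs_sub (A B C : Matrix V V ℝ) : hs A (B - C) = hs A B - hs A C := by
  unfold hs
  rw [← Finset.sum_sub_distrib]
  refine Finset.sum_congr rfl fun a _ => ?_
  rw [← Finset.sum_sub_distrib]
  refine Finset.sum_congr rfl fun b _ => ?_
  rw [Matrix.sub_apply]; ring

lemma sub_hs (A B C : Matrix V V ℝ) : hs (A - B) C = hs A C - hs B C := by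
  rw [hs_comm, hs_sub, hs_comm C A, hs_comm C B]

lemma hs_smul (r : ℝ) (A B : Matrix V V ℝ) : hs A (r • B) = r * hs A B := by
  unfold hs
  rw [Finset.mul_sum]
  refine Finset.sum_congr rfl fun a _ => ?_
  rw [Finset.mul_sum]
  refine Finset.sum_congr rfl fun b _ => ?_
  rw [Matrix.smul_apply, smul_eq_mul]; ring

lemma hs_self_pos {A : Matrix V V ℝ} (h : A ≠ 0) : 0 < hs A A := by
  have h0 : 0 ≤ hs A A := by
    unfold hs
    exact Finset.sum_nonneg fun a _ => Finset.sum_nonneg fun b _ => mul_self_nonneg _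
  rcases h0.lt_or_eq with h1 | h1
  · exact h1
  · exfalso
    apply h
    unfold hs at h1
    have h2 := (Finset.sum_eq_zero_iff_of_nonneg fun a _ =>
      Finset.sum_nonneg fun b _ => mul_self_nonneg (A a b)).1 h1.symm
    ext a b
    have h3 := (Finset.sum_eq_zero_iff_of_nonneg fun b _ => mul_self_nonneg (A a b)).1
      (h2 a (Finset.mem_univ _)) b (Finset.mem_univ _)
    simpa using h3

lemma hs_trace (A B : Matrix V V ℝ) : hs A B = (A.transpose * B).trace := by
  unfold hs Matrix.trace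
  rw [Finset.sum_comm]
  refine Finset.sum_congr rfl fun b _ => ?_
  rw [Matrix.diag_apply, Matrix.mul_apply]
  rfl

lemma quad (M : Matrix V V ℝ) (x : V → ℝ) :
    ∑ a, ∑ b, x a * M a b * x b = x ⬝ᵥ (M.mulVec x) := by
  unfold dotProduct Matrix.mulVec dotProduct
  refine Finset.sum_congr rfl fun a _ => ?_
  rw [Finset.mul_sum]
  exact Finset.sum_congr rfl fun b _ => mul_assoc _ _ _

lemma compress {C M : Matrix V V ℝ} (hC : C.transpose = C) (hM : PSD M) : PSD (C * M * C) := by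
  refine ⟨?_, fun x => ?_⟩
  · rw [Matrix.transpose_mul, Matrix.transpose_mul, hC, hM.1, ← Matrix.mul_assoc]
  · rw [quad]
    have h := hM.2 (C.mulVec x)
    rw [quad] at h
    have e : x ⬝ᵥ (C * M * C).mulVec x = C.mulVec x ⬝ᵥ M.mulVec (C.mulVec x) := by
      rw [← Matrix.mulVec_mulVec, ← Matrix.mulVec_mulVec, Matrix.dotProduct_mulVec,
        ← Matrix.mulVec_transpose, hC]
    rw [e]
    exact h

end hsl

section pinv

variable {Ω : Type} [Fintype Ω] [DecidableEq Ω] {m : ℕ}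

/-- the action of a permutation on the words -/
def act (σ : Equiv.Perm (Fin m)) : (Fin m → Ω) ≃ (Fin m → Ω) :=
  Equiv.arrowCongr σ.symm (Equiv.refl Ω)

omit [Fintype Ω] [DecidableEq Ω] in
lemma act_apply (σ : Equiv.Perm (Fin m)) (a : Fin m → Ω) : act σ a = fun k => a (σ k) := rfl

omit [DecidableEq Ω] in
lemma PInv.mul {M N : Matrix (Fin m → Ω) (Fin m → Ω) ℝ} (hM : PInv M) (hN : PInv N) :
    PInv (M * N) := by
  intro σ a b
  rw [Matrix.mul_apply, Matrix.mul_apply, ← Equiv.sum_comp (act σ)]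
  refine Finset.sum_congr rfl fun c _ => ?_
  rw [act_apply, hM σ a c, hN σ c b]

omit [Fintype Ω] [DecidableEq Ω] in
lemma PInv.add {M N : Matrix (Fin m → Ω) (Fin m → Ω) ℝ} (hM : PInv M) (hN : PInv N) :
    PInv (M + N) := by
  intro σ a b
  rw [Matrix.add_apply, Matrix.add_apply, hM σ a b, hN σ a b]

omit [Fintype Ω] [DecidableEq Ω] in
lemma PInv.sub {M N : Matrix (Fin m → Ω) (Fin m → Ω) ℝ} (hM : PInv M) (hN : PInv N) :
    PInv (M - N) := by
  intro σ a b
  rw [Matrix.sub_apply, Matrix.sub_apply, hM σ a b, hN σ a b]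

omit [Fintype Ω] [DecidableEq Ω] in
lemma PInv.smul {M : Matrix (Fin m → Ω) (Fin m → Ω) ℝ} (hM : PInv M) (c : ℝ) :
    PInv (c • M) := by
  intro σ a b
  rw [Matrix.smul_apply, Matrix.smul_apply, hM σ a b]

omit [Fintype Ω] in
lemma PInv.one : PInv (1 : Matrix (Fin m → Ω) (Fin m → Ω) ℝ) := by
  intro σ a b
  rw [Matrix.one_apply, Matrix.one_apply]
  have : ((fun k => a (σ k)) = fun k => b (σ k)) ↔ a = b := (act (Ω := Ω) σ).apply_eq_iff_eq
  simp only [this]

lemma PInv.aeval {T : Matrix (Fin m → Ω) (Fin m → Ω) ℝ} (hT : PInv T) (p : Polynomial ℝ) :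
    PInv (Polynomial.aeval T p) := by
  induction p using Polynomial.induction_on' with
  | add p q hp hq =>
    rw [map_add]
    exact PInv.add hp hq
  | monomial n c =>
    rw [Polynomial.aeval_monomial, Algebra.algebraMap_eq_smul_one, smul_mul_assoc, one_mul]
    refine PInv.smul ?_ c
    induction n with
    | zero => rw [pow_zero]; exact PInv.one
    | succ n ih => rw [pow_succ]; exact PInv.mul ih hT

end pinv

/-- the space of the symmetric invariant matrices below the two projections -/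
def WW {Ω : Type} [Fintype Ω] [DecidableEq Ω] {m : ℕ}
    (P Q : Matrix (Fin m → Ω) (Fin m → Ω) ℝ) : Submodule ℝ (Matrix (Fin m → Ω) (Fin m → Ω) ℝ) where
  carrier := {T | T.transpose = T ∧ PInv T ∧ P * T = T ∧ Q * T = T}
  add_mem' := by
    rintro A B ⟨h1, h2, h3, h4⟩ ⟨k1, k2, k3, k4⟩
    refine ⟨?_, PInv.add h2 k2, ?_, ?_⟩
    · rw [Matrix.transpose_add, h1, k1]
    · rw [Matrix.mul_add, h3, k3]
    · rw [Matrix.mul_add, h4, k4]
  zero_mem' := by
    refine ⟨Matrix.transpose_zero, ?_, Matrix.mul_zero _, Matrix.mul_zero _⟩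
    intro σ a b
    rfl
  smul_mem' := by
    rintro c A ⟨h1, h2, h3, h4⟩
    refine ⟨?_, PInv.smul h2 c, ?_, ?_⟩
    · rw [Matrix.transpose_smul, h1]
    · rw [Matrix.mul_smul, h3]
    · rw [Matrix.mul_smul, h4]

/-- the energy superoperator as a linear map -/
noncomputable def AdL {Ω β : Type} [Fintype Ω] [DecidableEq Ω] [Fintype β] [DecidableEq β]
    (bt : Ω → β → Bool) {m : ℕ} :
    Matrix (Fin m → Ω) (Fin m → Ω) ℝ →ₗ[ℝ] Matrix (Fin m → Ω) (Fin m → Ω) ℝ where
  toFun := Ad bt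
  map_add' := by
    intro A B
    ext a b
    simp only [Ad, Matrix.of_apply, Matrix.add_apply]
    ring
  map_smul' := by
    intro c A
    ext a b
    simp only [Ad, Matrix.of_apply, Matrix.smul_apply, smul_eq_mul, RingHom.id_apply]
    ring

theorem ry (hp : S7_pos) (ha : S7_abs) (hm : S7_max) : S7_ray := by
  intro Ω β _ _ _ _ bt m P Q T₁ hP1 hP2 hP3 hQ1 hQ2 hQ3 hT1 hT2 hT3 hT4 hT5
  obtain ⟨hp1, hp2, hp3⟩ := hp
  have hsym : ∀ S T : Matrix (Fin m → Ω) (Fin m → Ω) ℝ,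
      hs S (AdL bt T) = hs (AdL bt S) T := fun S T => (hp3 Ω β bt m S T).2.2.2.2.2.1
  have hTW : T₁ ∈ WW P Q := ⟨hT1, hT2, hT3, hT4⟩
  obtain ⟨r, h1, ⟨T, hTW', hT0, hTr⟩, h3⟩ := hm _ (WW P Q) (AdL bt) hsym ⟨T₁, hTW, hT5⟩
  obtain ⟨t1, t2, t3, t4⟩ := hTW'
  obtain ⟨p, hp0, q1, q2, q3, q4⟩ := ha _ T t1
  set T' := Polynomial.aeval T p with hT'
  obtain ⟨g, hg⟩ := Polynomial.X_dvd_iff.2 hp0
  have hfac : T' = T * Polynomial.aeval T g := by
    rw [hT', hg, map_mul, Polynomial.aeval_X]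
  have w3 : P * T' = T' := by rw [hfac, ← Matrix.mul_assoc, t3]
  have w4 : Q * T' = T' := by rw [hfac, ← Matrix.mul_assoc, t4]
  have w2 : PInv T' := PInv.aeval t2 p
  have hT'W : T' ∈ WW P Q := ⟨q1.1, w2, w3, w4⟩
  have hT'pos : 0 < hs T' T' := by rw [q4]; exact hs_self_pos hT0
  have hT'0 : T' ≠ 0 := by
    intro h0
    rw [h0] at hT'pos
    simp [hs] at hT'pos
  have hge : hs T (AdL bt T) ≤ hs T' (AdL bt T') := by
    have hps : PSD (AdL bt (T' + T)) := (hp3 Ω β bt m (T' + T) 0).1 q3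
    have h0 := hp1 _ (T' - T) (AdL bt (T' + T)) q2 hps
    rw [map_add, hs_add, sub_hs, sub_hs, hsym T' T, hs_comm (AdL bt T') T] at h0
    linarith
  have heq : hs T' (AdL bt T') = r * hs T' T' := by
    apply le_antisymm (h1 T' hT'W)
    rw [q4, ← hTr]
    exact hge
  have h4 := h3 T' hT'W heq
  set D := AdL bt T' - r • T' with hD
  have hDz : ∀ S ∈ WW P Q, hs S D = 0 := by
    intro S hS
    rw [hD, hs_sub, hs_smul, h4 S hS, sub_self]
  have hApsd : PSD (AdL bt T') := (hp3 Ω β bt m T' 0).1 q1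
  have d1 : D.transpose = D := by
    rw [hD, Matrix.transpose_sub, Matrix.transpose_smul, hApsd.1, q1.1]
  have d2 : PInv D := PInv.sub ((hp3 Ω β bt m T' 0).2.2.1 w2) (PInv.smul w2 r)
  have d3 : P * D = D := by
    have e := (hp3 Ω β bt m P T').2.2.2.2.2.2.1 hP2
    rw [w3] at e
    rw [hD, Matrix.mul_sub, Matrix.mul_smul, w3]
    congr 1
    exact e.symm
  have d4 : Q * D = D * Q := hQ3 D d2
  have d5 : Q * P = P * Q := hQ3 P hP1
  have hSW : Q * D ∈ WW P Q := by
    refine ⟨?_, PInv.mul hQ1 d2, ?_, ?_⟩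
    · rw [Matrix.transpose_mul, d1, hQ2.1, d4]
    · rw [← Matrix.mul_assoc, ← d5, Matrix.mul_assoc, d3]
    · rw [← Matrix.mul_assoc, hQ2.2]
  have hz := hDz _ hSW
  have hQD : Q * D = 0 := by
    by_contra hne
    have h5 := hs_self_pos hne
    have h6 : hs (Q * D) (Q * D) = hs (Q * D) D := by
      rw [hs_trace, hs_trace]
      congr 1
      rw [Matrix.transpose_mul, d1, hQ2.1, Matrix.mul_assoc, ← Matrix.mul_assoc Q Q D, hQ2.2,
        Matrix.mul_assoc]
    rw [h6, hz] at h5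
    exact lt_irrefl _ h5
  have hDQ : D * Q = 0 := by rw [← d4, hQD]
  have w5 : T' * Q = T' := by
    have := congrArg Matrix.transpose w4
    rwa [Matrix.transpose_mul, q1.1, hQ2.1] at this
  refine ⟨T', r, q1, w2, hT'0, w3, w4, h1 T₁ hTW, ?_⟩
  have hfin : D = (1 - Q) * (AdL bt T') * (1 - Q) := by
    have e1 : (1 - Q) * D * (1 - Q) = D := by
      rw [Matrix.sub_mul, Matrix.one_mul, hQD, sub_zero, Matrix.mul_sub, Matrix.mul_one, hDQ,
        sub_zero]
    have e2 : (1 - Q) * T' = 0 := by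
      rw [Matrix.sub_mul, Matrix.one_mul, w4, sub_self]
    have e4 : (1 - Q) * D = (1 - Q) * (AdL bt T') := by
      rw [hD, Matrix.mul_sub (1 - Q) (AdL bt T') (r • T'), Matrix.mul_smul, e2, smul_zero, sub_zero]
    have e3 : (1 - Q) * D * (1 - Q) = (1 - Q) * (AdL bt T') * (1 - Q) := by
      rw [e4]
    rw [← e3, e1]
  change PSD D
  rw [hfin]
  refine compress ?_ hApsd
  rw [Matrix.transpose_sub, Matrix.transpose_one, hQ2.1]

end Pool.Agent.TH41.BL.RY7f
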