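import Mathlib
import Pool.Agent.TH41.BL.Stm9
import Pool.Agent.TH41.BL.RY7

set_option autoImplicit false

open MeasureTheory Filter Topology

open scoped FourierTransform

namespace Pool.Agent.TH41.BL.RE8f

open Pool.Agent.TH41.BL

open Pool.Agent.TH41.BL.RY7f (hs_comm hs_add hs_sub sub_hs hs_smul hs_self_pos hs_trace WW)

/-- the energy superoperator as a linear map -/
noncomputable def AeL {Ω : Type} [Fintype Ω] [DecidableEq Ω] {q : ℕ} (pos : Ω → Fin q) {m : ℕ} :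
    Matrix (Fin m → Ω) (Fin m → Ω) ℝ →ₗ[ℝ] Matrix (Fin m → Ω) (Fin m → Ω) ℝ where
  toFun := Ae pos
  map_add' := by
    intro A B
    ext a b
    simp only [Ae, Matrix.of_apply, Matrix.add_apply]
    ring
  map_smul' := by
    intro c A
    ext a b
    simp only [Ae, Matrix.of_apply, Matrix.smul_apply, smul_eq_mul, RingHom.id_apply]
    ring

theorem re8 (hp : S7_pos) (hq : S8_alg) (ha : S7_abs) (hm : S7_max) : S8_ray := by
  intro Ω _ _ q pos m P Q T₁ hP1 hP2 hP3 hQ1 hQ2 hQ3 hT1 hT2 hT3 hT4 hT5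
  have hal := fun A B : Matrix (Fin m → Ω) (Fin m → Ω) ℝ => hq Ω q pos m A B
  have hsym : ∀ S T : Matrix (Fin m → Ω) (Fin m → Ω) ℝ,
      hs S (AeL pos T) = hs (AeL pos S) T := fun S T => (hal S T).2.2.2.2.1
  have hTW : T₁ ∈ WW P Q := ⟨hT1, hT2, hT3, hT4⟩
  obtain ⟨r, h1, ⟨T, hTW', hT0, hTr⟩, h3⟩ := hm _ (WW P Q) (AeL pos) hsym ⟨T₁, hTW, hT5⟩
  obtain ⟨t1, t2, t3, t4⟩ := hTW'
  obtain ⟨p, hp0, q1, q2, q3, q4⟩ := ha _ T t1
  set T' := Polynomial.aeval T p with hT'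
  obtain ⟨g, hg⟩ := Polynomial.X_dvd_iff.2 hp0
  have hfac : T' = T * Polynomial.aeval T g := by
    rw [hT', hg, map_mul, Polynomial.aeval_X]
  have w3 : P * T' = T' := by rw [hfac, ← Matrix.mul_assoc, t3]
  have w4 : Q * T' = T' := by rw [hfac, ← Matrix.mul_assoc, t4]
  have w2 : PInv T' := RY7f.PInv.aeval t2 p
  have hT'W : T' ∈ WW P Q := ⟨q1.1, w2, w3, w4⟩
  have hT'pos : 0 < hs T' T' := by rw [q4]; exact hs_self_pos hT0
  have hT'0 : T' ≠ 0 := by
    intro h0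
    rw [h0] at hT'pos
    simp [hs] at hT'pos
  have hge : hs T (AeL pos T) ≤ hs T' (AeL pos T') := by
    have h0' : hs (T' - T) (T' + T) = 0 := by
      rw [hs_add, sub_hs, sub_hs, q4, hs_comm T' T]
      ring
    have h0 : 0 ≤ hs (T' - T) (AeL pos (T' + T)) := (hal (T' - T) (T' + T)).1 q2 q3 h0'
    rw [map_add, hs_add, sub_hs, sub_hs, hsym T' T, hs_comm (AeL pos T') T] at h0
    linarith
  have heq : hs T' (AeL pos T') = r * hs T' T' := by
    apply le_antisymm (h1 T' hT'W)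
    rw [q4, ← hTr]
    exact hge
  have h4 := h3 T' hT'W heq
  set D := AeL pos T' - r • T' with hD
  have hDz : ∀ S ∈ WW P Q, hs S D = 0 := by
    intro S hS
    rw [hD, hs_sub, hs_smul, h4 S hS, sub_self]
  have hAsym : (AeL pos T').transpose = AeL pos T' := by
    have e := (hal T' 0).2.2.2.1
    rw [q1.1] at e
    exact e
  have d1 : D.transpose = D := by
    rw [hD, Matrix.transpose_sub, Matrix.transpose_smul, hAsym, q1.1]
  have d2 : PInv D := RY7f.PInv.sub ((hal T' 0).2.2.1 w2) (RY7f.PInv.smul w2 r)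
  have d3 : P * D = D := by
    have e := (hal P T').2.2.2.2.2.1 hP2
    rw [w3] at e
    rw [hD, Matrix.mul_sub, Matrix.mul_smul, w3]
    congr 1
    exact e.symm
  have d4 : Q * D = D * Q := hQ3 D d2
  have d5 : Q * P = P * Q := hQ3 P hP1
  have hSW : Q * D ∈ WW P Q := by
    refine ⟨?_, RY7f.PInv.mul hQ1 d2, ?_, ?_⟩
    · rw [Matrix.transpose_mul, d1, hQ2.1, d4]
    · rw [← Matrix.mul_assoc, ← d5, Matrix.mul_assoc, d3]
    · rw [← Matrix.mul_assoc, hQ2.2]
  have hz := hDz _ hSW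
  have hQD : Q * D = 0 := by
    by_contra hne
    have h5 := hs_self_pos hne
    have h6 : hs (Q * D) (Q * D) = hs (Q * D) D := by
      rw [hs_trace, hs_trace]
      congr 1
      rw [Matrix.transpose_mul, d1, hQ2.1, Matrix.mul_assoc, ← Matrix.mul_assoc Q Q D, hQ2.2,
        Matrix.mul_assoc]
    rw [h6, hz] at h5
    exact lt_irrefl _ h5
  have hDQ : D * Q = 0 := by rw [← d4, hQD]
  refine ⟨T', r, q1, w2, hT'0, w3, w4, h1 T₁ hTW, ?_⟩
  have hfin : D = (1 - Q) * (AeL pos T') * (1 - Q) := by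
    have e1 : (1 - Q) * D * (1 - Q) = D := by
      rw [Matrix.sub_mul, Matrix.one_mul, hQD, sub_zero, Matrix.mul_sub, Matrix.mul_one, hDQ,
        sub_zero]
    have e2 : (1 - Q) * T' = 0 := by
      rw [Matrix.sub_mul, Matrix.one_mul, w4, sub_self]
    have e4 : (1 - Q) * D = (1 - Q) * (AeL pos T') := by
      rw [hD, Matrix.mul_sub (1 - Q) (AeL pos T') (r • T'), Matrix.mul_smul, e2, smul_zero, sub_zero]
    rw [← e4, e1]
  change PSD D
  rw [hfin]
  exact (hal T' 0).2.1 Q hQ2.1 q1 w4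

end Pool.Agent.TH41.BL.RE8f
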