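import Mathlib
import Pool.Agent.TH41.BL.Stm9

set_option autoImplicit false

open MeasureTheory Filter Topology

open scoped FourierTransform

namespace Pool.Agent.TH41.BL.SC8f

open Pool.Agent.TH41.BL

/-- The Fourier transform of a scaled function. -/
theorem fourier_scale {d : ℕ} {t : ℝ} (ht : 0 < t) (f : EuclideanSpace ℝ (Fin d) → ℝ)
    (p : EuclideanSpace ℝ (Fin d)) :
    𝓕 (fun x : EuclideanSpace ℝ (Fin d) => ((f (t⁻¹ • x) : ℝ) : ℂ)) p =
      (t ^ d : ℝ) • 𝓕 (fun x : EuclideanSpace ℝ (Fin d) => (f x : ℂ)) (t • p) := by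
  rw [Real.fourier_eq, Real.fourier_eq]
  have h := Measure.integral_comp_inv_smul (volume : Measure (EuclideanSpace ℝ (Fin d)))
    (fun u : EuclideanSpace ℝ (Fin d) => 𝐞 (-(inner ℝ u (t • p))) • (f u : ℂ)) t
  rw [finrank_euclideanSpace_fin, abs_of_pos (pow_pos ht d)] at h
  rw [← h]
  refine integral_congr_ae (Eventually.of_forall fun v => ?_)
  have e : inner ℝ (t⁻¹ • v) (t • p) = inner ℝ v p := by
    rw [inner_smul_left, inner_smul_right]
    simp only [conj_trivial]
    rw [← mul_assoc, inv_mul_cancel₀ ht.ne', one_mul]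
  simp only [e]

theorem integral_scale {d : ℕ} {t : ℝ} (ht : 0 < t) (f : EuclideanSpace ℝ (Fin d) → ℝ) :
    ∫ x : EuclideanSpace ℝ (Fin d), f (t⁻¹ • x) = t ^ d * ∫ x, f x := by
  have h := Measure.integral_comp_inv_smul (volume : Measure (EuclideanSpace ℝ (Fin d))) f t
  rw [finrank_euclideanSpace_fin, abs_of_pos (pow_pos ht d), smul_eq_mul] at h
  exact h

theorem vol_scale {d : ℕ} {t : ℝ} (ht : 0 < t) (r : ℝ) :
    (volume (Metric.ball (0 : EuclideanSpace ℝ (Fin d)) (t * r))).toReal =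
      t ^ d * (volume (Metric.ball (0 : EuclideanSpace ℝ (Fin d)) r)).toReal := by
  rw [Measure.addHaar_ball_mul_of_pos _ _ ht, finrank_euclideanSpace_fin, ENNReal.toReal_mul,
    ENNReal.toReal_ofReal (pow_pos ht d).le]

theorem sc8 : S8_sc := by
  intro d r t f hr ht hf
  have ht0 : t ≠ 0 := ht.ne'
  have htd : 0 < t ^ d := pow_pos ht d
  refine ⟨⟨?_, ?_, ?_, ?_, ?_, ?_, ?_⟩, ?_⟩
  · exact hf.continuous.comp (continuous_const_smul t⁻¹)
  · exact hf.integrable.comp_smul (inv_ne_zero ht0)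
  · have h : (𝓕 (fun x : EuclideanSpace ℝ (Fin d) => ((f (t⁻¹ • x) : ℝ) : ℂ))) =
        fun p => (t ^ d : ℝ) • 𝓕 (fun x : EuclideanSpace ℝ (Fin d) => (f x : ℂ)) (t • p) :=
      funext fun p => fourier_scale ht f p
    rw [h]
    exact (hf.integrable_fourier.comp_smul ht0).smul (t ^ d : ℝ)
  · intro y
    rw [fourier_scale ht f y, Complex.smul_im, hf.fourier_real, smul_zero]
  · intro y
    rw [fourier_scale ht f y, Complex.smul_re, smul_eq_mul]
    exact mul_nonneg htd.le (hf.fourier_nonneg _)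
  · rw [integral_scale ht f]
    exact mul_pos htd hf.integral_pos
  · intro x hx
    refine hf.nonpos _ ?_
    rw [norm_smul, Real.norm_eq_abs, abs_of_pos (inv_pos.2 ht), inv_mul_eq_div, le_div_iff₀ ht]
    linarith
  · unfold dB
    have e0 : (fun x : EuclideanSpace ℝ (Fin d) => f (t⁻¹ • x)) 0 = f 0 := by
      simp only [smul_zero]
    rw [integral_scale ht f, e0, show t * r / 2 = t * (r / 2) by ring, vol_scale ht,
      mul_assoc, mul_div_mul_left _ _ htd.ne']

end Pool.Agent.TH41.BL.SC8f
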