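import Mathlib
import Pool.Agent.TH41.BL.Stm9

/-!
Project BL7 (helper41, MP_dbfdb2_gt), piece TE: products of tents and their Fourier transforms.
-/

set_option autoImplicit false

open MeasureTheory Filter Topology

open scoped FourierTransform

namespace Pool.Agent.TH41.BL.TE8f

open Pool.Agent.TH41.BL

/-- the tent -/
noncomputable def tent (x : ℝ) : ℝ := max 0 (1 - |x|)

lemma tent_nonneg (x : ℝ) : 0 ≤ tent x := le_max_left _ _

lemma tent_zero : tent 0 = 1 := by simp [tent]

lemma tent_eq_zero {x : ℝ} (h : 1 ≤ |x|) : tent x = 0 := max_eq_left (by linarith)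

lemma tent_cont : Continuous tent := by
  unfold tent
  fun_prop

lemma tent_supp : HasCompactSupport tent := by
  refine HasCompactSupport.intro (K := Set.Icc (-1) 1) isCompact_Icc fun x hx => ?_
  refine tent_eq_zero ?_
  by_contra h
  push Not at h
  exact hx ⟨(abs_le.mp h.le).1, (abs_le.mp h.le).2⟩

lemma tent_int : Integrable tent := tent_cont.integrable_of_hasCompactSupport tent_supp

/-- the primitive of `(1 - v) exp (c v)` -/
lemma half_int (c : ℂ) (hc : c ≠ 0) :
    ∫ v in (0 : ℝ)..1, ((1 - v : ℝ) : ℂ) * Complex.exp (c * v) =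
      (Complex.exp c - 1 - c) / c ^ 2 := by
  have h1 : ∀ v : ℝ, HasDerivAt (fun v : ℝ => ((1 - v : ℝ) : ℂ) * Complex.exp (c * v) / c +
      Complex.exp (c * v) / c ^ 2) (((1 - v : ℝ) : ℂ) * Complex.exp (c * v)) v := by
    intro v
    have h2 : HasDerivAt (fun v : ℝ => Complex.exp (c * v)) (Complex.exp (c * v) * c) v := by
      have h3 : HasDerivAt (fun v : ℝ => c * (v : ℂ)) c v := by
        have := (Complex.ofRealCLM.hasDerivAt (x := v)).const_mul c
        simpa using this
      exact h3.cexp
    have h4 : HasDerivAt (fun v : ℝ => ((1 - v : ℝ) : ℂ)) (-1) v := by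
      have h5 : HasDerivAt (fun v : ℝ => (1 - v : ℝ)) (-1) v := by
        simpa using (hasDerivAt_id v).const_sub 1
      have := h5.ofReal_comp
      simpa using this
    have h6 := ((h4.mul h2).div_const c).add (h2.div_const (c ^ 2))
    convert! h6 using 1
    field_simp
    ring
  have h2 := intervalIntegral.integral_eq_sub_of_hasDerivAt (a := 0) (b := 1)
    (fun v _ => h1 v) (by
      apply Continuous.intervalIntegrable
      fun_prop)
  rw [h2]
  simp
  field_simp
  ring

/-- the integral against an exponential, folded -/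
lemma tent_fold (c : ℂ) : ∫ v : ℝ, Complex.exp (c * v) * (tent v : ℂ) =
    (∫ v in (0 : ℝ)..1, ((1 - v : ℝ) : ℂ) * Complex.exp (-c * v)) +
      ∫ v in (0 : ℝ)..1, ((1 - v : ℝ) : ℂ) * Complex.exp (c * v) := by
  have hcont : Continuous fun v : ℝ => Complex.exp (c * v) * (tent v : ℂ) := by
    have := tent_cont
    fun_prop
  have h1 : ∫ v in (-1 : ℝ)..1, Complex.exp (c * v) * (tent v : ℂ) =
      ∫ v : ℝ, Complex.exp (c * v) * (tent v : ℂ) := by
    refine intervalIntegral.integral_eq_integral_of_support_subset fun x hx => ?_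
    have h2 : tent x ≠ 0 := by
      intro h0
      apply hx
      simp [h0]
    have h3 : |x| < 1 := by
      by_contra h
      push Not at h
      exact h2 (tent_eq_zero h)
    exact ⟨(abs_lt.mp h3).1, (abs_lt.mp h3).2.le⟩
  rw [← h1, ← intervalIntegral.integral_add_adjacent_intervals (b := 0)
    (hcont.intervalIntegrable _ _) (hcont.intervalIntegrable _ _)]
  congr 1
  · have h4 := intervalIntegral.integral_comp_neg (a := 0) (b := 1)
      (fun v : ℝ => Complex.exp (c * v) * (tent v : ℂ))
    rw [neg_zero] at h4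
    rw [← h4]
    refine intervalIntegral.integral_congr fun v hv => ?_
    rw [Set.uIcc_of_le zero_le_one] at hv
    have h5 : tent (-v) = 1 - v := by
      unfold tent
      rw [abs_neg, abs_of_nonneg hv.1, max_eq_right (by linarith [hv.2])]
    simp only [h5]
    push_cast
    ring_nf
  · refine intervalIntegral.integral_congr fun v hv => ?_
    rw [Set.uIcc_of_le zero_le_one] at hv
    have h5 : tent v = 1 - v := by
      unfold tent
      rw [abs_of_nonneg hv.1, max_eq_right (by linarith [hv.2])]
    simp only [h5]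
    ring_nf

lemma tent_four (p : ℝ) : ∫ v : ℝ, Complex.exp (((-2 * Real.pi * (v * p) : ℝ) : ℂ) * Complex.I) *
    (tent v : ℂ) = ((Real.sinc (Real.pi * p) ^ 2 : ℝ) : ℂ) := by
  have h0 : ∀ v : ℝ, ((-2 * Real.pi * (v * p) : ℝ) : ℂ) * Complex.I =
      (((-2 * Real.pi * p : ℝ) : ℂ) * Complex.I) * v := by
    intro v
    push_cast
    ring
  simp only [h0]
  rw [tent_fold]
  by_cases hp : p = 0
  · subst hp
    simp only [mul_zero, Complex.ofReal_zero, zero_mul, neg_zero, Complex.exp_zero, mul_one,
      Real.sinc_zero, one_pow, Complex.ofReal_one]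
    rw [intervalIntegral.integral_ofReal]
    have : ∫ x in (0 : ℝ)..1, (1 - x) = 1 / 2 := by
      rw [intervalIntegral.integral_sub (by simp) (by simp)]
      simp
      norm_num
    rw [this]
    norm_num
  · have hpi : Real.pi ≠ 0 := Real.pi_ne_zero
    have hc : ((-2 * Real.pi * p : ℝ) : ℂ) * Complex.I ≠ 0 := by
      refine mul_ne_zero ?_ Complex.I_ne_zero
      exact_mod_cast mul_ne_zero (mul_ne_zero (by norm_num) hpi) hp
    rw [half_int _ hc, half_int _ (neg_ne_zero.mpr hc), Real.sinc_of_ne_zero (mul_ne_zero hpi hp)]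
    set x : ℝ := Real.pi * p with hx
    have hx0 : (x : ℂ) ≠ 0 := by exact_mod_cast mul_ne_zero hpi hp
    have h1 : ((-2 * Real.pi * p : ℝ) : ℂ) * Complex.I = -(2 * (x : ℂ) * Complex.I) := by
      rw [hx]; push_cast; ring
    rw [h1, neg_neg]
    have h2 : Complex.exp (2 * (x : ℂ) * Complex.I) + Complex.exp (-(2 * (x : ℂ) * Complex.I)) =
        2 - 4 * Complex.sin x ^ 2 := by
      have h3 := Complex.two_cos (2 * (x : ℂ))
      rw [neg_mul] at h3
      rw [← h3, Complex.cos_two_mul]
      have h4 := Complex.sin_sq_add_cos_sq (x : ℂ)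
      linear_combination 4 * h4
    have h5 : (2 * (x : ℂ) * Complex.I) ^ 2 = -(4 * (x : ℂ) ^ 2) := by
      rw [mul_pow, Complex.I_sq]; ring
    have h6 : (-(2 * (x : ℂ) * Complex.I)) ^ 2 = -(4 * (x : ℂ) ^ 2) := by
      rw [neg_sq, h5]
    rw [h5, h6, ← add_div]
    push_cast
    rw [div_pow, div_eq_div_iff (by
      refine neg_ne_zero.mpr (mul_ne_zero (by norm_num) (pow_ne_zero 2 hx0))) (pow_ne_zero 2 hx0)]
    linear_combination ((x : ℂ) ^ 2) * h2

lemma sinc_sq_int : Integrable fun p : ℝ => Real.sinc (Real.pi * p) ^ 2 := by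
  have hcont : Continuous fun p : ℝ => Real.sinc (Real.pi * p) ^ 2 :=
    (Real.continuous_sinc.comp (continuous_const.mul continuous_id)).pow 2
  refine Integrable.mono' (g := fun p : ℝ => 2 * (1 + p ^ 2)⁻¹)
    (integrable_inv_one_add_sq.const_mul 2) hcont.aestronglyMeasurable ?_
  refine Filter.Eventually.of_forall fun p => ?_
  rw [Real.norm_eq_abs, abs_of_nonneg (sq_nonneg _), ← div_eq_mul_inv, le_div_iff₀ (by positivity)]
  have h1 : Real.sinc (Real.pi * p) ^ 2 ≤ 1 := by
    have := Real.abs_sinc_le_one (Real.pi * p)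
    rw [← sq_abs]
    exact pow_le_one₀ (abs_nonneg _) this
  have h2 : Real.sinc (Real.pi * p) ^ 2 * p ^ 2 ≤ 1 := by
    by_cases hp : p = 0
    · subst hp; simp
    · rw [Real.sinc_of_ne_zero (mul_ne_zero Real.pi_ne_zero hp), div_pow, mul_pow]
      have h3 : Real.sin (Real.pi * p) ^ 2 ≤ 1 := Real.sin_sq_le_one _
      have h4 : 1 ≤ Real.pi ^ 2 := one_le_pow₀ (by linarith [Real.pi_gt_three])
      have h5 : 0 < p ^ 2 := by positivity
      rw [div_mul_eq_mul_div, div_le_one (by positivity)]
      exact mul_le_mul (h3.trans h4) le_rfl h5.le (by positivity)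
  linarith

section euc
variable {n : ℕ}

/-- integrals over the Euclidean space of products -/
lemma int_prod (f : Fin n → ℝ → ℂ) :
    ∫ x : EuclideanSpace ℝ (Fin n), ∏ i, f i (x i) = ∏ i, ∫ v : ℝ, f i v := by
  rw [← (PiLp.volume_preserving_toLp (Fin n)).integral_comp
    (MeasurableEquiv.toLp 2 _).measurableEmbedding]
  exact integral_fintype_prod_volume_eq_prod (fun i (v : ℝ) => f i v)

lemma int_prod_real (f : Fin n → ℝ → ℝ) :
    ∫ x : EuclideanSpace ℝ (Fin n), ∏ i, f i (x i) = ∏ i, ∫ v : ℝ, f i v := by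
  rw [← (PiLp.volume_preserving_toLp (Fin n)).integral_comp
    (MeasurableEquiv.toLp 2 _).measurableEmbedding]
  exact integral_fintype_prod_volume_eq_prod (fun i (v : ℝ) => f i v)

lemma integrable_prod (f : ℝ → ℝ) (hf : Integrable f) :
    Integrable fun x : EuclideanSpace ℝ (Fin n) => ∏ i, f (x i) := by
  rw [← (PiLp.volume_preserving_toLp (Fin n)).integrable_comp_emb
    (MeasurableEquiv.toLp 2 _).measurableEmbedding]
  exact Integrable.fintype_prod (f := fun _ (v : ℝ) => f v) fun _ => hf

end euc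

theorem te8 : S8_tent := by
  intro n
  have hone : ∫ v : ℝ, tent v = 1 := by
    have h := tent_four 0
    simp only [mul_zero, Complex.ofReal_zero, zero_mul, Complex.exp_zero, one_mul,
      Real.sinc_zero, one_pow, Complex.ofReal_one] at h
    rw [integral_complex_ofReal] at h
    exact_mod_cast h
  refine ⟨fun x => ∏ i, tent (x i), ?_, integrable_prod tent tent_int, ?_,
    fun x => Finset.prod_nonneg fun i _ => tent_nonneg _, ?_, ?_,
    fun p => ∏ i, Real.sinc (Real.pi * p i) ^ 2,
    integrable_prod (fun v => Real.sinc (Real.pi * v) ^ 2) sinc_sq_int,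
    fun p => Finset.prod_nonneg fun i _ => sq_nonneg _, ?_⟩
  · refine continuous_finsetProd _ fun i _ => tent_cont.comp ?_
    fun_prop
  · rw [int_prod_real (fun _ => tent)]
    simp [hone]
  · simp [tent_zero]
  · rintro x ⟨i, hi⟩
    exact Finset.prod_eq_zero (Finset.mem_univ i) (tent_eq_zero hi)
  · intro p
    rw [Real.fourier_eq']
    have h1 : ∀ v : EuclideanSpace ℝ (Fin n),
        Complex.exp (((-2 * Real.pi * inner ℝ v p : ℝ) : ℂ) * Complex.I) •
          ((∏ i, tent (v i) : ℝ) : ℂ) =
        ∏ i, (Complex.exp (((-2 * Real.pi * (v i * p i) : ℝ) : ℂ) * Complex.I) *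
          (tent (v i) : ℂ)) := by
      intro v
      rw [Finset.prod_mul_distrib, ← Complex.exp_sum, smul_eq_mul, Complex.ofReal_prod]
      congr 2
      rw [← Finset.sum_mul]
      congr 1
      rw [← Complex.ofReal_sum, ← Finset.mul_sum]
      congr 2
      simp only [PiLp.inner_apply, RCLike.inner_apply, conj_trivial]
      exact Finset.sum_congr rfl fun _ _ => mul_comm _ _
    simp only [h1]
    rw [int_prod (fun i v => Complex.exp (((-2 * Real.pi * (v * p i) : ℝ) : ℂ) * Complex.I) *
      (tent v : ℂ))]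
    simp only [tent_four]
    rw [← Complex.ofReal_prod]

end Pool.Agent.TH41.BL.TE8f
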