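import Mathlib
import Pool.Agent.TH41.BL.Stm6

set_option autoImplicit false
set_option linter.unusedSectionVars false

open MeasureTheory Filter Topology

namespace Pool.Agent.TH41.BL.TP7f

open Pool.Agent.TH41.BL

section
variable {V : Type} [Fintype V] [DecidableEq V]

lemma aeval_diagonal (d : V → ℝ) (p : Polynomial ℝ) :
    Polynomial.aeval (Matrix.diagonal d) p = Matrix.diagonal (fun i => p.eval (d i)) := by
  induction p using Polynomial.induction_on' with
  | add p q hp hq =>
    rw [map_add, hp, hq, Matrix.diagonal_add]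
    congr 1
    funext i
    simp
  | monomial n a =>
    rw [Polynomial.aeval_monomial, Matrix.diagonal_pow]
    ext i j
    by_cases h : i = j
    · subst h
      simp [Matrix.algebraMap_eq_diagonal]
    · simp [Matrix.algebraMap_eq_diagonal, h]

lemma hs_eq_trace (M : Matrix V V ℝ) (hM : M.transpose = M) : hs M M = (M * M).trace := by
  unfold hs Matrix.trace
  apply Finset.sum_congr rfl
  intro a _
  simp only [Matrix.diag_apply, Matrix.mul_apply]
  apply Finset.sum_congr rfl
  intro b _
  have : M b a = M a b := by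
    have := congrFun (congrFun hM a) b
    simpa [Matrix.transpose_apply] using this
  rw [this]

lemma psd_pos (M : Matrix V V ℝ) (hM : PSD M) : M.PosSemidef := by
  rw [Matrix.posSemidef_iff_dotProduct_mulVec]
  refine ⟨?_, ?_⟩
  · unfold Matrix.IsHermitian
    rw [Matrix.conjTranspose_eq_transpose_of_trivial]
    exact hM.1
  · intro x
    have := hM.2 x
    have h2 : star x ⬝ᵥ M.mulVec x = ∑ a, ∑ b, x a * M a b * x b := by
      simp only [dotProduct, Matrix.mulVec, star_trivial]
      apply Finset.sum_congr rfl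
      intro a _
      rw [Finset.mul_sum]
      apply Finset.sum_congr rfl
      intro b _
      ring
    rw [h2]
    exact this

lemma key (M : Matrix V V ℝ) (hM : PSD M) (h0 : M ≠ 0) :
    ∃ (p : Polynomial ℝ) (μ : ℝ), 0 < μ ∧ p.coeff 0 = 0 ∧ Prj (Polynomial.aeval M p) ∧
      Polynomial.aeval M p ≠ 0 ∧ μ * (Polynomial.aeval M p).trace ≤ M.trace ∧
      hs M M ≤ μ * M.trace := by
  have hP := psd_pos M hM
  have hH : M.IsHermitian := hP.1
  set d := hH.eigenvalues with hd
  have hd0 : ∀ i, 0 ≤ d i := fun i => hP.eigenvalues_nonneg i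
  set φ := Unitary.conjStarAlgAut ℝ (Matrix V V ℝ) hH.eigenvectorUnitary with hφ
  have hspec : M = φ (Matrix.diagonal d) := by
    have h1 := hH.spectral_theorem
    have h2 : (RCLike.ofReal ∘ hH.eigenvalues : V → ℝ) = d := by
      funext i
      simp [hd]
    rw [h2] at h1
    exact h1
  have hae : ∀ p : Polynomial ℝ, Polynomial.aeval M p =
      φ (Matrix.diagonal (fun i => p.eval (d i))) := by
    intro p
    conv_lhs => rw [hspec]
    have h1 := Polynomial.aeval_algHom_apply (φ : Matrix V V ℝ →ₐ[ℝ] Matrix V V ℝ)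
      (Matrix.diagonal d) p
    rw [← aeval_diagonal]
    simpa using h1
  have htr : ∀ A : Matrix V V ℝ, (φ A).trace = A.trace := by
    intro A
    rw [hφ, Unitary.conjStarAlgAut_apply, Matrix.mul_assoc, Matrix.trace_mul_comm,
      Matrix.mul_assoc]
    simp
  have hne : Nonempty V := by
    by_contra hV
    rw [not_nonempty_iff] at hV
    exact h0 (Subsingleton.elim _ _)
  obtain ⟨i₀, hi₀⟩ := Finite.exists_max d
  have hμ : 0 < d i₀ := by
    rcases (hd0 i₀).lt_or_eq with h | h
    · exact h
    · exfalso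
      apply h0
      rw [hspec]
      have hd00 : d = 0 := by
        funext i
        have h3 := hi₀ i
        rw [← h] at h3
        exact le_antisymm h3 (hd0 i)
      rw [hd00]
      simp
  classical
  set S : Finset ℝ := insert 0 (Finset.univ.image d) with hS
  have hmem : ∀ i, d i ∈ S := fun i => by
    rw [hS]
    exact Finset.mem_insert_of_mem (Finset.mem_image_of_mem _ (Finset.mem_univ i))
  have h0S : (0 : ℝ) ∈ S := Finset.mem_insert_self _ _
  have hinj : Set.InjOn (id : ℝ → ℝ) (S : Set ℝ) := Function.injective_id.injOn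
  set p := Lagrange.basis S (id : ℝ → ℝ) (d i₀) with hp
  have hp1 : p.eval (d i₀) = 1 := Lagrange.eval_basis_self hinj (hmem i₀)
  have hp0 : ∀ x ∈ S, x ≠ d i₀ → p.eval x = 0 := by
    intro x hx hne
    exact Lagrange.eval_basis_of_ne (v := id) (Ne.symm hne) hx
  have hpe : ∀ i, p.eval (d i) = if d i = d i₀ then 1 else 0 := by
    intro i
    split_ifs with h
    · rw [h, hp1]
    · exact hp0 _ (hmem i) h
  refine ⟨p, d i₀, hμ, ?_, ?_, ?_, ?_, ?_⟩
  · rw [Polynomial.coeff_zero_eq_eval_zero]
    exact hp0 0 h0S hμ.ne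
  · constructor
    · rw [hae]
      have h1 : star (φ (Matrix.diagonal fun i => p.eval (d i))) =
          φ (Matrix.diagonal fun i => p.eval (d i)) := by
        rw [← map_star]
        congr 1
        rw [Matrix.star_eq_conjTranspose, Matrix.diagonal_conjTranspose]
        simp
      rw [Matrix.star_eq_conjTranspose, Matrix.conjTranspose_eq_transpose_of_trivial] at h1
      exact h1
    · rw [hae, ← map_mul, Matrix.diagonal_mul_diagonal]
      congr 2
      funext i
      rw [hpe]
      split_ifs <;> simp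
  · rw [hae]
    intro h
    have h2 : Matrix.diagonal (fun i => p.eval (d i)) = 0 := by
      have := φ.injective (h.trans (map_zero φ).symm)
      exact this
    have h3 := congrFun (congrFun h2 i₀) i₀
    simp only [Matrix.diagonal_apply_eq, Matrix.zero_apply] at h3
    rw [hp1] at h3
    exact one_ne_zero h3
  · rw [hae, htr]
    conv_rhs => rw [hspec, htr]
    rw [Matrix.trace_diagonal, Matrix.trace_diagonal, Finset.mul_sum]
    apply Finset.sum_le_sum
    intro i _
    rw [hpe]
    split_ifs with h
    · rw [h]; simp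
    · simpa using hd0 i
  · rw [hs_eq_trace M hM.1]
    have h1 : (M * M).trace = ∑ i, d i * d i := by
      conv_lhs => rw [hspec]
      rw [← map_mul, htr, Matrix.diagonal_mul_diagonal, Matrix.trace_diagonal]
    have h2 : M.trace = ∑ i, d i := by
      conv_lhs => rw [hspec]
      rw [htr, Matrix.trace_diagonal]
    rw [h1, h2, Finset.mul_sum]
    apply Finset.sum_le_sum
    intro i _
    exact mul_le_mul_of_nonneg_right (hi₀ i) (hd0 i)

end

section
variable {Ω β : Type} [Fintype Ω] [DecidableEq Ω] [Fintype β] [DecidableEq β]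

lemma pinv_one {m : ℕ} : PInv (1 : Matrix (Fin m → Ω) (Fin m → Ω) ℝ) := by
  intro σ a b
  by_cases h : a = b
  · subst h
    simp
  · have h2 : (fun k => a (σ k)) ≠ (fun k => b (σ k)) := by
      intro h3
      apply h
      funext k
      have := congrFun h3 (σ.symm k)
      simpa using this
    rw [Matrix.one_apply_ne h, Matrix.one_apply_ne h2]

lemma pinv_mul {m : ℕ} {A B : Matrix (Fin m → Ω) (Fin m → Ω) ℝ} (hA : PInv A) (hB : PInv B) :
    PInv (A * B) := by
  intro σ a b
  rw [Matrix.mul_apply, Matrix.mul_apply]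
  rw [← Equiv.sum_comp (Equiv.arrowCongr σ.symm (Equiv.refl Ω))]
  apply Finset.sum_congr rfl
  intro c _
  have h1 : (Equiv.arrowCongr σ.symm (Equiv.refl Ω)) c = fun k => c (σ k) := by
    funext k
    simp [Equiv.arrowCongr]
  rw [h1, hA σ a c, hB σ c b]

lemma hd_self {m : ℕ} (bt : Ω → β → Bool) (a : Fin m → Ω) : hd bt a a = 0 := by
  simp [hd]

lemma pdi_one {m : ℕ} (bt : Ω → β → Bool) :
    PDi bt (1 : Matrix (Fin m → Ω) (Fin m → Ω) ℝ) := by
  intro a b h
  by_cases hab : a = b
  · subst hab
    exact absurd (hd_self bt a) h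
  · exact Matrix.one_apply_ne hab

lemma pdi_mul {m : ℕ} (bt : Ω → β → Bool) {A B : Matrix (Fin m → Ω) (Fin m → Ω) ℝ}
    (hA : PDi bt A) (hB : PDi bt B) : PDi bt (A * B) := by
  intro a b h
  rw [Matrix.mul_apply]
  apply Finset.sum_eq_zero
  intro c _
  by_cases h1 : hd bt a c = 0
  · have h2 : hd bt c b ≠ 0 := by
      intro h2
      apply h
      unfold hd at h1 h2 ⊢
      rw [Finset.card_eq_zero, Finset.filter_eq_empty_iff] at h1 h2 ⊢
      intro p hp h3
      have e1 := h1 hp
      have e2 := h2 hp
      rw [not_not] at e1 e2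
      exact h3 (e1.trans e2)
    rw [hB c b h2, mul_zero]
  · rw [hA a c h1, zero_mul]

lemma pinv_aeval {m : ℕ} {M : Matrix (Fin m → Ω) (Fin m → Ω) ℝ} (hM : PInv M)
    (p : Polynomial ℝ) : PInv (Polynomial.aeval M p) := by
  have hpow : ∀ n : ℕ, PInv (M ^ n) := by
    intro n
    induction n with
    | zero => rw [pow_zero]; exact pinv_one
    | succ n ih => rw [pow_succ]; exact pinv_mul ih hM
  intro σ a b
  induction p using Polynomial.induction_on' with
  | add p q hp hq => rw [map_add, Matrix.add_apply, Matrix.add_apply, hp, hq]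
  | monomial n c =>
    rw [Polynomial.aeval_monomial, ← Algebra.smul_def, Matrix.smul_apply, Matrix.smul_apply,
      hpow n σ a b]

lemma pdi_aeval {m : ℕ} (bt : Ω → β → Bool) {M : Matrix (Fin m → Ω) (Fin m → Ω) ℝ}
    (hM : PDi bt M) (p : Polynomial ℝ) : PDi bt (Polynomial.aeval M p) := by
  have hpow : ∀ n : ℕ, PDi bt (M ^ n) := by
    intro n
    induction n with
    | zero => rw [pow_zero]; exact pdi_one bt
    | succ n ih => rw [pow_succ]; exact pdi_mul bt ih hM
  intro a b h
  induction p using Polynomial.induction_on' with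
  | add p q hp hq => rw [map_add, Matrix.add_apply, hp, hq, add_zero]
  | monomial n c =>
    rw [Polynomial.aeval_monomial, ← Algebra.smul_def, Matrix.smul_apply, hpow n a b h,
      smul_zero]

end

theorem tp : S7_top := by
  intro Ω β _ _ _ _ bt m L P hL hF M hM hMi hMd hPM
  by_cases h0 : M = 0
  · subst h0
    simp [hs]
  obtain ⟨p, μ, hμ, hp0, hprj, hne, htr, hhs⟩ := key M hM h0
  have hPF : P * Polynomial.aeval M p = Polynomial.aeval M p := by
    obtain ⟨q, hq⟩ := Polynomial.X_dvd_iff.mpr hp0
    rw [hq, map_mul, Polynomial.aeval_X, ← Matrix.mul_assoc, hPM]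
  have h1 := hF _ (pinv_aeval hMi p) (pdi_aeval bt hMd p) hprj hPF hne
  have htr0 : 0 ≤ M.trace := by
    have : 0 ≤ μ * (Polynomial.aeval M p).trace := mul_nonneg hμ.le (hL.trans h1)
    exact this.trans htr
  calc L * hs M M ≤ L * (μ * M.trace) := mul_le_mul_of_nonneg_left hhs hL
    _ = (μ * L) * M.trace := by ring
    _ ≤ (μ * (Polynomial.aeval M p).trace) * M.trace :=
        mul_le_mul_of_nonneg_right (mul_le_mul_of_nonneg_left h1 hμ.le) htr0
    _ ≤ M.trace * M.trace := mul_le_mul_of_nonneg_right htr htr0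
    _ = M.trace ^ 2 := by ring

end Pool.Agent.TH41.BL.TP7f
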