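import Mathlib
import Pool.Agent.TH41.BL.Stm9

/-!
Project BL7 (helper41, MP_dbfdb2_gt), piece TY: the typical subspace of the product state
(written by helper713).
-/

set_option autoImplicit false

open MeasureTheory Filter Topology

open scoped FourierTransform

namespace Pool.Agent.TH41.BL.TY8f

open Pool.Agent.TH41.BL
open Pool.Agent.H390R2.LP

section gen
variable {V : Type} [Fintype V] [DecidableEq V]

/-- operators diagonal in a given basis -/
def MM (W : V → V → ℝ) (c : V → ℝ) : Matrix V V ℝ :=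
  Matrix.of fun a b => ∑ x, c x * (W x a * W x b)

omit [DecidableEq V] in
lemma MM_apply (W : V → V → ℝ) (c : V → ℝ) (a b : V) :
    MM W c a b = ∑ x, c x * (W x a * W x b) := rfl

omit [DecidableEq V] in
lemma MM_transpose (W : V → V → ℝ) (c : V → ℝ) : (MM W c).transpose = MM W c := by
  ext a b
  rw [Matrix.transpose_apply, MM_apply, MM_apply]
  exact Finset.sum_congr rfl fun x _ => by ring

lemma MM_mul {W : V → V → ℝ} (hW : ∀ a b, ∑ ω, W a ω * W b ω = if a = b then 1 else 0)
    (c d : V → ℝ) : MM W c * MM W d = MM W (fun x => c x * d x) := by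
  ext a b
  rw [Matrix.mul_apply, MM_apply]
  have h1 : ∀ e, MM W c a e * MM W d e b =
      ∑ x, ∑ y, ((c x * W x a) * (d y * W y b)) * (W x e * W y e) := by
    intro e
    rw [MM_apply, MM_apply, Finset.sum_mul_sum]
    refine Finset.sum_congr rfl fun x _ => ?_
    exact Finset.sum_congr rfl fun y _ => by ring
  simp only [h1]
  rw [Finset.sum_comm]
  refine Finset.sum_congr rfl fun x _ => ?_
  rw [Finset.sum_comm]
  simp only [← Finset.mul_sum, hW]
  rw [Finset.sum_eq_single x]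
  · rw [if_pos rfl]
    ring
  · intro y _ hy
    rw [if_neg (Ne.symm hy), mul_zero]
  · simp

lemma MM_trace {W : V → V → ℝ} (hW : ∀ a b, ∑ ω, W a ω * W b ω = if a = b then 1 else 0)
    (c : V → ℝ) : (MM W c).trace = ∑ x, c x := by
  unfold Matrix.trace
  have h1 : ∀ a, (MM W c).diag a = ∑ x, c x * (W x a * W x a) := fun a => rfl
  simp only [h1]
  rw [Finset.sum_comm]
  refine Finset.sum_congr rfl fun x _ => ?_
  rw [← Finset.mul_sum, hW, if_pos rfl, mul_one]

end gen

section site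
variable {Ω : Type} [Fintype Ω] [DecidableEq Ω] {m : ℕ}

lemma MM_inv (u : Ω → Ω → ℝ) (c : (Fin m → Ω) → ℝ)
    (hc : ∀ (σ : Equiv.Perm (Fin m)) (x : Fin m → Ω), c (fun k => x (σ k)) = c x) :
    PInv (MM (pv u) c) := by
  intro σ a b
  rw [MM_apply, MM_apply]
  have h1 := Equiv.sum_comp (Equiv.arrowCongr σ.symm (Equiv.refl Ω))
    (fun x : Fin m → Ω => c x * (pv u x (fun k => a (σ k)) * pv u x (fun k => b (σ k))))
  rw [← h1]
  refine Finset.sum_congr rfl fun x _ => ?_
  have h2 : (Equiv.arrowCongr σ.symm (Equiv.refl Ω)) x = fun k => x (σ k) := by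
    funext k
    simp [Equiv.arrowCongr]
  have h3 : ∀ e : Fin m → Ω, pv u (fun k => x (σ k)) (fun k => e (σ k)) = pv u x e := by
    intro e
    unfold pv
    exact Equiv.prod_comp σ fun k => u (x k) (e k)
  rw [h2, hc, h3, h3]

variable {X : Type} (s : Site Ω X)

lemma Rg_eq : Rg s m = MM (pv s.u) (fun x => ∏ k, s.lam (x k)) := by
  ext a b
  rw [MM_apply]
  unfold Rg
  rw [Matrix.of_apply, ← sum_prod (fun k o => s.lam o * s.u o (a k) * s.u o (b k))]
  refine Finset.sum_congr rfl fun x _ => ?_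
  rw [Finset.prod_mul_distrib, Finset.prod_mul_distrib]
  unfold pv
  ring

end site

theorem ty8 : S8_typ := by
  intro Ω _ _ q s ε hε
  set C : ℝ := ∑ o, s.lam o * (-Real.log (s.lam o) - ∑ o', Real.negMulLog (s.lam o')) ^ 2 with hC
  obtain ⟨m₀, hm₀⟩ := exists_nat_gt (max (C / ε ^ 3) 0)
  have hpos : (0 : ℝ) < m₀ := lt_of_le_of_lt (le_max_right _ _) hm₀
  refine ⟨m₀, fun m hm => ?_⟩
  have hmm : (m₀ : ℝ) ≤ m := by exact_mod_cast hm
  have hmp : (0 : ℝ) < m := lt_of_lt_of_le hpos hmm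
  have hmn : 0 < m := by exact_mod_cast hmp
  have hCm : C / ε ^ 3 ≤ m := ((le_max_left _ _).trans hm₀.le).trans hmm
  have hW : ∀ a b : Fin m → Ω, ∑ ω, pv s.u a ω * pv s.u b ω = if a = b then 1 else 0 :=
    pv_orth s.u s.u_orth
  set L : (Fin m → Ω) → ℝ := fun x => ∏ k, s.lam (x k) with hL
  have hL0 : ∀ x, 0 ≤ L x := fun x => Finset.prod_nonneg fun k _ => s.lam_nonneg _
  have hLs : ∑ x, L x = 1 := by
    rw [hL]
    rw [sum_prod fun _ o => s.lam o]
    simp [s.lam_sum]
  set θ : ℝ := Real.exp (-(m * (s.S + ε))) with hθ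
  have hθ0 : 0 < θ := Real.exp_pos _
  set c : (Fin m → Ω) → ℝ := fun x => if L x < θ then 0 else 1 with hc
  have hcc : ∀ x, c x * c x = c x := by
    intro x
    rw [hc]
    dsimp only
    split_ifs <;> norm_num
  have hLi : ∀ (σ : Equiv.Perm (Fin m)) (x : Fin m → Ω), L (fun k => x (σ k)) = L x := by
    intro σ x
    exact Equiv.prod_comp σ fun k => s.lam (x k)
  have hcle : ∀ x, c x * θ ≤ L x := by
    intro x
    rw [hc]
    dsimp only
    split_ifs with h
    · rw [zero_mul]; exact hL0 x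
    · rw [one_mul]; exact not_lt.1 h
  refine ⟨MM (pv s.u) c, ?_, ⟨MM_transpose _ _, ?_⟩, ?_, ?_⟩
  · refine MM_inv s.u c fun σ x => ?_
    rw [hc]
    dsimp only
    rw [hLi σ x]
  · rw [MM_mul hW]
    congr 1
    funext x
    exact hcc x
  · rw [MM_trace hW]
    have h1 : (∑ x, c x) * θ ≤ 1 := by
      rw [Finset.sum_mul, ← hLs]
      exact Finset.sum_le_sum fun x _ => hcle x
    have h2 : Real.exp (m * (s.S + ε)) = 1 / θ := by
      rw [hθ, Real.exp_neg, one_div, inv_inv]
    rw [h2, le_div_iff₀ hθ0]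
    exact h1
  · rw [sub_mul, one_mul, Matrix.trace_sub, Rg_eq, MM_mul hW, MM_trace hW, MM_trace hW,
      ← Finset.sum_sub_distrib]
    have h1 := aep_light hmn s.lam s.lam_nonneg s.lam_sum hε
    rw [← hC, Finset.sum_filter] at h1
    have h2 : ∑ x : Fin m → Ω, (∏ k, s.lam (x k) - c x * ∏ k, s.lam (x k)) =
        ∑ a : Fin m → Ω, if ∏ k, s.lam (a k) <
          Real.exp (-(m * (∑ o, Real.negMulLog (s.lam o) + ε))) then ∏ k, s.lam (a k) else 0 := by
      refine Finset.sum_congr rfl fun x _ => ?_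
      have h3 : c x = if ∏ k, s.lam (x k) <
          Real.exp (-(m * (∑ o, Real.negMulLog (s.lam o) + ε))) then 0 else 1 := rfl
      rw [h3]
      split_ifs <;> ring
    rw [h2]
    refine h1.trans ?_
    rw [div_le_iff₀ (by positivity)] at hCm ⊢
    nlinarith

end Pool.Agent.TH41.BL.TY8f
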