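import Mathlib
import Pool.Agent.TH41.BL.Stm9
import Pool.Agent.TH41.BL.DM7
import Pool.Agent.TH41.BL.EN7
import Pool.Agent.TH41.BL.LO7
import Pool.Agent.TH41.BL.TP7
import Pool.Agent.TH41.BL.PO7
import Pool.Agent.TH41.BL.AB7
import Pool.Agent.TH41.BL.MX7
import Pool.Agent.TH41.BL.AL8
import Pool.Agent.TH41.BL.RE8
import Pool.Agent.TH41.BL.TE8
import Pool.Agent.TH41.BL.CE8
import Pool.Agent.TH41.BL.TY8
import Pool.Agent.TH41.BL.PS8
import Pool.Agent.TH41.BL.ST8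
import Pool.Agent.TH41.BL.AS8
import Pool.Agent.TH41.BL.SC8
import Pool.Agent.TH41.BL.EU8
import Pool.Agent.TH41.BL.FE8

set_option autoImplicit false

namespace Pool.Agent.TH41.BL

theorem k8_alg : S8_alg := AL8f.al8 PO7f.po
theorem k8_ray : S8_ray := RE8f.re8 PO7f.po k8_alg AB7f.ab7 MX7f.mx
theorem k8_tent : S8_tent := TE8f.te8
theorem k8_cert : S8_cert := CE8f.ce8 PO7f.po k8_alg k8_tent
theorem k8_typ : S8_typ := TY8f.ty8
theorem k8_ps : S8_ps := PS8f.ps8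
theorem k8_st : S8_st := ST8f.st8
theorem k8_asm : S8_asm := AS8f.as8 DM7f.dm EN7f.en LO7f.lo TP7f.tp PO7f.po k8_alg k8_ray k8_cert
  k8_typ k8_ps k8_st
theorem k8_sc : S8_sc := SC8f.sc8
theorem k8_euc : S8_euc := EU8f.eu8 k8_asm k8_sc
theorem k8_fin : S8_fin := FE8f.fe8 k8_euc

end Pool.Agent.TH41.BL
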