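import Mathlib
import Pool.Agent.TH41.BL.Stm10
import Pool.Agent.TH41.BL.CE8

/-!
Project BL8, piece CE: the smooth auxiliary function given by an operator.
-/

set_option autoImplicit false
set_option linter.unusedSectionVars false

open MeasureTheory Filter Topology

open scoped FourierTransform

namespace Pool.Agent.TH41.BL.CE9f

open Pool.Agent.TH41.BL

open Pool.Agent.TH41.BL.CE8f

section
variable {Ω : Type} [Fintype Ω] [DecidableEq Ω] {q : ℕ}

lemma ff_zero' (pos : Ω → Fin q) {m : ℕ} (D : ℝ) (T : Matrix (Fin m → Ω) (Fin m → Ω) ℝ)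
    (φ : EuclideanSpace ℝ (Fin m) → ℝ)
    (h0 : ∀ x : EuclideanSpace ℝ (Fin m), (∃ i, 1 ≤ |x i|) → φ x = 0) :
    ff pos D T φ 0 = φ 0 * (D * hs (dgP (bX pos) T) (dgP (bX pos) T)) := by
  unfold ff hs
  rw [Finset.mul_sum, Finset.mul_sum]
  refine Finset.sum_congr rfl fun a _ => ?_
  rw [Finset.mul_sum, Finset.mul_sum]
  refine Finset.sum_congr rfl fun b _ => ?_
  unfold dgP cc
  rw [Matrix.of_apply]
  by_cases h : hd (bX pos) a b = 0
  · rw [if_pos h]
    have h2 := (hd_zero_iff pos a b).1 h
    have h3 : zz pos a b = 0 := by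
      ext k
      rw [zz_apply, h2 k, sub_self]
      rfl
    have h4 : sd pos a b = 0 := by
      unfold sd
      refine Finset.sum_eq_zero fun k _ => ?_
      rw [h2 k, sub_self]
      ring
    rw [h3, sub_zero, h4]
    ring
  · rw [if_neg h]
    rw [hd_zero_iff] at h
    push Not at h
    obtain ⟨k, hk⟩ := h
    have h5 : φ (0 - zz pos a b) = 0 := by
      apply h0
      refine ⟨k, ?_⟩
      have e : (0 - zz pos a b : EuclideanSpace ℝ (Fin m)) k =
          -(((pos (a k) : ℕ) : ℝ) - ((pos (b k) : ℕ) : ℝ)) := by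
        rw [PiLp.sub_apply, zz_apply, PiLp.zero_apply, zero_sub]
      rw [e, abs_neg]
      have h6 : ((pos (a k) : ℕ) : ℤ) - ((pos (b k) : ℕ) : ℤ) ≠ 0 := by
        intro h7
        apply hk
        apply Fin.ext
        omega
      have h8 := Int.one_le_abs h6
      have h9 : ((1 : ℤ) : ℝ) ≤ ((|((pos (a k) : ℕ) : ℤ) - ((pos (b k) : ℕ) : ℤ)| : ℤ) : ℝ) := by
        exact_mod_cast h8
      push_cast at h9
      exact h9
    rw [h5]
    ring


lemma hcs_tr {m : ℕ} {φ : EuclideanSpace ℝ (Fin m) → ℝ} (h : HasCompactSupport φ)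
    (z : EuclideanSpace ℝ (Fin m)) : HasCompactSupport (fun x => φ (x - z)) := by
  have h1 := h.comp_homeomorph (Homeomorph.subRight z)
  exact h1

lemma hcs_sum {m : ℕ} {ι : Type} (s : Finset ι) (F : ι → EuclideanSpace ℝ (Fin m) → ℝ)
    (h : ∀ i, HasCompactSupport (F i)) : HasCompactSupport (fun x => ∑ i ∈ s, F i x) := by
  classical
  induction s using Finset.induction_on with
  | empty =>
    simp only [Finset.sum_empty]
    exact HasCompactSupport.zero
  | insert i s hi ih =>
    have e : (fun x => ∑ j ∈ insert i s, F j x) = fun x => F i x + ∑ j ∈ s, F j x := by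
      ext x
      rw [Finset.sum_insert hi]
    rw [e]
    exact (h i).add ih

lemma ff_smooth (pos : Ω → Fin q) {m : ℕ} (D : ℝ) (T : Matrix (Fin m → Ω) (Fin m → Ω) ℝ)
    {φ : EuclideanSpace ℝ (Fin m) → ℝ} {n : WithTop ℕ∞} (h : ContDiff ℝ n φ) :
    ContDiff ℝ n (ff pos D T φ) := by
  unfold ff
  refine ContDiff.sum fun a _ => ContDiff.sum fun b _ => ?_
  exact contDiff_const.mul (h.comp (contDiff_id.sub contDiff_const))

lemma ff_compact (pos : Ω → Fin q) {m : ℕ} (D : ℝ) (T : Matrix (Fin m → Ω) (Fin m → Ω) ℝ)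
    {φ : EuclideanSpace ℝ (Fin m) → ℝ} (h : HasCompactSupport φ) :
    HasCompactSupport (ff pos D T φ) := by
  unfold ff
  refine hcs_sum _ _ fun a => hcs_sum _ _ fun b => ?_
  exact (hcs_tr h (zz pos a b)).mul_left

end

theorem ce9 (hp : S7_pos) (hq : S8_alg) (ht : S9_tent) : S9_cert := by
  intro Ω _ _ q pos m T r D hT hTT hA hD hr
  obtain ⟨φ, hsm, hcs, hc, hi, h1, hpos, h02, h0, g, hgi, hg0, hg⟩ := ht m
  have hW := PSD_WW pos hT hA hr.le
  have hI : ∫ x, ff pos D T φ x = ∑ a, ∑ b, cc pos D T a b := by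
    unfold ff
    have hI1 : ∀ a b : Fin m → Ω, Integrable (fun x : EuclideanSpace ℝ (Fin m) =>
        cc pos D T a b * φ (x - zz pos a b)) := fun a b =>
      (hi.comp_sub_right (zz pos a b)).const_mul _
    rw [integral_finsetSum _ fun a _ => integrable_finsetSum _ fun b _ => hI1 a b]
    refine Finset.sum_congr rfl fun a _ => ?_
    rw [integral_finsetSum _ fun b _ => hI1 a b]
    refine Finset.sum_congr rfl fun b _ => ?_
    rw [integral_const_mul, integral_sub_right_eq_self (μ := volume) φ (zz pos a b), h1, mul_one]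
  have hI2 : (r + D) * hs T T ≤ ∫ x, ff pos D T φ x := by
    rw [hI, sum_cc pos D r T]
    have := hp.1 _ _ _ hT hA
    linarith
  have hI0 : 0 < (r + D) * hs T T := mul_pos (by linarith) hTT
  have hF := ff_fourier pos D T hc hi g hg
  refine ⟨ff pos D T φ, ⟨⟨?_, ?_, ?_, ?_, ?_, ?_, ?_⟩, ff_smooth pos D T hsm, ff_compact pos D T hcs⟩, ?_⟩
  · unfold ff
    fun_prop
  · unfold ff
    exact integrable_finsetSum _ fun a _ => integrable_finsetSum _ fun b _ =>
      (hi.comp_sub_right (zz pos a b)).const_mul _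
  · have e : 𝓕 (fun x => (ff pos D T φ x : ℂ)) =
        fun p => ∑ a, ∑ b, (cc pos D T a b : ℂ) * (ex (zz pos a b) p * (g p : ℂ)) := by
      ext p
      exact hF p
    rw [e]
    refine integrable_finsetSum _ fun a _ => integrable_finsetSum _ fun b _ => Integrable.const_mul ?_ _
    refine hgi.mono' ?_ (Eventually.of_forall fun p => ?_)
    · exact (ex_cont (zz pos a b)).aestronglyMeasurable.mul hgi.ofReal.aestronglyMeasurable
    · rw [norm_mul, ex_norm, one_mul, Complex.norm_real, Real.norm_of_nonneg (hg0 p)]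
  · intro p
    rw [hF p, Complex.im_sum]
    simp_rw [Complex.im_sum]
    have h2 : ∀ a b : Fin m → Ω, ((cc pos D T a b : ℂ) * (ex (zz pos a b) p * (g p : ℂ))).im =
        cc pos D T a b * (Real.sin (th pos p b - th pos p a) * g p) := by
      intro a b
      rw [← th_sub]
      exact term_im _ _ _ _ rfl
    simp_rw [h2]
    have h3 : ∑ a, ∑ b, cc pos D T a b * (Real.sin (th pos p b - th pos p a) * g p) =
        -∑ a, ∑ b, cc pos D T a b * (Real.sin (th pos p b - th pos p a) * g p) := by
      conv_lhs => rw [Finset.sum_comm]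
      rw [← Finset.sum_neg_distrib]
      refine Finset.sum_congr rfl fun a _ => ?_
      rw [← Finset.sum_neg_distrib]
      refine Finset.sum_congr rfl fun b _ => ?_
      rw [cc_symm pos D hT b a, ← neg_sub (th pos p b) (th pos p a), Real.sin_neg]
      ring
    linarith
  · intro p
    rw [hF p, Complex.re_sum]
    simp_rw [Complex.re_sum]
    have h2 : ∀ a b : Fin m → Ω, ((cc pos D T a b : ℂ) * (ex (zz pos a b) p * (g p : ℂ))).re =
        cc pos D T a b * (Real.cos (th pos p b - th pos p a) * g p) := by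
      intro a b
      rw [← th_sub]
      exact term_re _ _ _ _ rfl
    simp_rw [h2]
    have h3 : ∑ a, ∑ b, cc pos D T a b * (Real.cos (th pos p b - th pos p a) * g p) =
        g p * (hs (Matrix.of fun a b => Real.cos (th pos p a) * T a b * Real.cos (th pos p b))
            (WW pos D T) +
          hs (Matrix.of fun a b => Real.sin (th pos p a) * T a b * Real.sin (th pos p b))
            (WW pos D T)) := by
      unfold hs
      rw [← Finset.sum_add_distrib, Finset.mul_sum]
      refine Finset.sum_congr rfl fun a _ => ?_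
      rw [← Finset.sum_add_distrib, Finset.mul_sum]
      refine Finset.sum_congr rfl fun b _ => ?_
      unfold cc WW
      rw [Matrix.of_apply, Matrix.of_apply, Matrix.of_apply, Real.cos_sub]
      ring
    rw [h3]
    exact mul_nonneg (hg0 p) (add_nonneg
      (hp.1 _ _ _ (hp.2.1 _ _ _ hT) hW) (hp.1 _ _ _ (hp.2.1 _ _ _ hT) hW))
  · linarith
  · intro x hx
    exact ff_nonpos pos T φ hpos h0 hD x hx
  · rw [ff_zero' pos D T φ h0]
    have h2 : 0 ≤ D * hs (dgP (bX pos) T) (dgP (bX pos) T) := by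
      refine mul_nonneg hD.le ?_
      unfold hs
      exact Finset.sum_nonneg fun a _ => Finset.sum_nonneg fun b _ => mul_self_nonneg _
    have h3 : φ 0 * (D * hs (dgP (bX pos) T) (dgP (bX pos) T)) ≤
        2 * (D * hs (dgP (bX pos) T) (dgP (bX pos) T)) := mul_le_mul_of_nonneg_right h02 h2
    calc φ 0 * (D * hs (dgP (bX pos) T) (dgP (bX pos) T)) * ((r + D) * hs T T)
        ≤ 2 * (D * hs (dgP (bX pos) T) (dgP (bX pos) T)) * ((r + D) * hs T T) :=
          mul_le_mul_of_nonneg_right h3 hI0.le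
      _ ≤ 2 * (D * hs (dgP (bX pos) T) (dgP (bX pos) T)) * ∫ x, ff pos D T φ x :=
          mul_le_mul_of_nonneg_left hI2 (by linarith)

end Pool.Agent.TH41.BL.CE9f
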