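import Mathlib
import Pool.Agent.TH41.BL.Stm10

set_option autoImplicit false

open MeasureTheory Filter Topology

open scoped FourierTransform

namespace Pool.Agent.TH41.BL.SC9f

open Pool.Agent.TH41.BL

theorem sc9 (hs : S8_sc) : S9_sc := by
  intro d r t f hr ht hf
  obtain ⟨h1, h2⟩ := hs d r t f hr ht hf.toAux
  refine ⟨{ toAux := h1, smooth := ?_, compact := ?_ }, h2⟩
  · exact hf.smooth.comp (contDiff_const_smul t⁻¹)
  · exact hf.compact.comp_smul (inv_ne_zero ht.ne')

end Pool.Agent.TH41.BL.SC9f
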