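import Mathlib
import Pool.Agent.TH41.BL.Stm10
import Pool.Agent.TH41.BL.TE8

/-!
Project BL8 (helper41), piece TE: smooth tent functions, products of self-convolutions of an even
smooth bump.
-/

set_option autoImplicit false

open MeasureTheory Filter Topology

open scoped FourierTransform ContDiff Convolution

namespace Pool.Agent.TH41.BL.TE9f

open Pool.Agent.TH41.BL

section one

variable (f : ContDiffBump (0 : ℝ))

/-- the normalized bump -/
noncomputable def be : ℝ → ℝ := f.normed volume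

/-- the self-convolution of the normalized bump -/
noncomputable def ps : ℝ → ℝ :=
  be f ⋆[ContinuousLinearMap.mul ℝ ℝ, volume] be f

lemma ps_apply (x : ℝ) : ps f x = ∫ t, be f t * be f (x - t) := rfl

lemma be_smooth : ContDiff ℝ ∞ (be f) := f.contDiff_normed

lemma be_supp : HasCompactSupport (be f) := f.hasCompactSupport_normed

lemma be_nonneg (x : ℝ) : 0 ≤ be f x := f.nonneg_normed x

lemma be_neg (x : ℝ) : be f (-x) = be f x := f.normed_neg x

lemma be_int : Integrable (be f) := f.integrable_normed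

lemma be_one : ∫ x, be f x = 1 := f.integral_normed

lemma be_zero {x : ℝ} (h : f.rOut ≤ |x|) : be f x = 0 := by
  by_contra h0
  have h1 : x ∈ Function.support (be f) := h0
  unfold be at h1
  rw [f.support_normed_eq] at h1
  simp only [Metric.mem_ball, dist_zero_right, Real.norm_eq_abs] at h1
  linarith

lemma be_le (x : ℝ) : be f x ≤ 1 / (2 * f.rIn) := by
  have h := f.normed_le_div_measure_closedBall_rIn (μ := volume) x
  have h2 : (volume : Measure ℝ).real (Metric.closedBall 0 f.rIn) = 2 * f.rIn := by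
    rw [Measure.real, Real.volume_closedBall, ENNReal.toReal_ofReal]
    have := f.rIn_pos
    positivity
  rw [h2] at h
  exact h

lemma ps_smooth : ContDiff ℝ ∞ (ps f) :=
  (be_supp f).contDiff_convolution_right _ (be_int f).locallyIntegrable (be_smooth f)

lemma ps_supp : HasCompactSupport (ps f) := (be_supp f).convolution _ (be_supp f)

lemma ps_nonneg (x : ℝ) : 0 ≤ ps f x :=
  integral_nonneg fun t => mul_nonneg (be_nonneg f _) (be_nonneg f _)

lemma ps_one : ∫ x, ps f x = 1 := by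
  have h := integral_convolution (μ := volume) (ν := volume) (ContinuousLinearMap.mul ℝ ℝ)
    (be_int f) (be_int f)
  unfold ps
  rw [h, be_one]
  simp

lemma ps_at : ps f 0 ≤ 1 / (2 * f.rIn) := by
  rw [ps_apply]
  have h : ∫ t, be f t * be f (0 - t) ≤ ∫ t, be f t * (1 / (2 * f.rIn)) := by
    refine integral_mono_of_nonneg ?_ ((be_int f).mul_const _) ?_
    · exact Filter.Eventually.of_forall fun t => mul_nonneg (be_nonneg f _) (be_nonneg f _)
    · exact Filter.Eventually.of_forall fun t =>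
        mul_le_mul_of_nonneg_left (be_le f _) (be_nonneg f _)
  refine h.trans ?_
  rw [integral_mul_const, be_one, one_mul]

lemma ps_zero (hr : f.rOut ≤ 1 / 2) {x : ℝ} (h : 1 ≤ |x|) : ps f x = 0 := by
  rw [ps_apply]
  have h0 : ∀ t, be f t * be f (x - t) = 0 := by
    intro t
    by_cases ht : f.rOut ≤ |t|
    · rw [be_zero f ht, zero_mul]
    · push Not at ht
      have h1 : f.rOut ≤ |x - t| := by
        have h2 : |x| ≤ |x - t| + |t| := by
          have := abs_add_le (x - t) t
          simpa using this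
        linarith
      rw [be_zero f h1, mul_zero]
  simp [h0]

/-- the bump as a complex Schwartz function -/
noncomputable def B : SchwartzMap ℝ ℂ :=
  HasCompactSupport.toSchwartzMap (f := fun x => ((be f x : ℝ) : ℂ))
    ((be_supp f).comp_left (g := fun y : ℝ => (y : ℂ)) Complex.ofReal_zero)
    (Complex.ofRealCLM.contDiff.comp (be_smooth f))

lemma B_apply (x : ℝ) : B f x = ((be f x : ℝ) : ℂ) := rfl

lemma four_real (p : ℝ) : (starRingEnd ℂ) (𝓕 (B f : ℝ → ℂ) p) = 𝓕 (B f : ℝ → ℂ) p := by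
  rw [Real.fourier_real_eq_integral_exp_smul, ← integral_conj]
  rw [← integral_neg_eq_self]
  refine integral_congr_ae (Filter.Eventually.of_forall fun v => ?_)
  simp only [B_apply, be_neg, smul_eq_mul, map_mul, Complex.conj_ofReal, ← Complex.exp_conj,
    Complex.conj_I]
  congr 2
  push_cast
  ring

/-- the Fourier transform of the bump -/
noncomputable def F (p : ℝ) : ℝ := (𝓕 (B f : ℝ → ℂ) p).re

lemma F_eq (p : ℝ) : 𝓕 (B f : ℝ → ℂ) p = (F f p : ℂ) := by
  unfold F
  exact (Complex.conj_eq_iff_re.mp (four_real f p)).symm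

lemma conv_eq (x : ℝ) :
    ((B f : ℝ → ℂ) ⋆[ContinuousLinearMap.mul ℂ ℂ, volume] (B f : ℝ → ℂ)) x = (ps f x : ℂ) := by
  rw [ps_apply, ← integral_complex_ofReal]
  refine integral_congr_ae (Filter.Eventually.of_forall fun v => ?_)
  simp [B_apply]

lemma four_ps (p : ℝ) : 𝓕 (fun x => (ps f x : ℂ)) p = ((F f p ^ 2 : ℝ) : ℂ) := by
  have h := Real.fourier_mul_convolution_eq (f₁ := (B f : ℝ → ℂ)) (f₂ := (B f : ℝ → ℂ))
    (B f).integrable (B f).integrable p
  have h2 : (fun x => (ps f x : ℂ)) =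
      ((B f : ℝ → ℂ) ⋆[ContinuousLinearMap.mul ℂ ℂ, volume] (B f : ℝ → ℂ)) := by
    funext x
    exact (conv_eq f x).symm
  rw [h2, h, F_eq]
  push_cast
  ring

lemma F_int : Integrable fun p => F f p ^ 2 := by
  have h2 := ((𝓕 (B f)).memLp 2 volume).re
  exact h2.integrable_sq

end one

/-- the one-dimensional factor -/
lemma one_dim (n : ℕ) : ∃ ψ : ℝ → ℝ, ContDiff ℝ ∞ ψ ∧ HasCompactSupport ψ ∧ (∀ x, 0 ≤ ψ x) ∧
    ∫ x, ψ x = 1 ∧ ψ 0 ^ n ≤ 2 ∧ (∀ x, 1 ≤ |x| → ψ x = 0) ∧
    ∃ g : ℝ → ℝ, Integrable g ∧ (∀ p, 0 ≤ g p) ∧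
      ∀ p, 𝓕 (fun x => (ψ x : ℂ)) p = (g p : ℂ) := by
  set a : ℝ := 1 - 1 / (2 * (n + 1)) with ha
  have hn : (0 : ℝ) < 2 * (n + 1) := by positivity
  have h1 : (1 : ℝ) / (2 * (n + 1)) ≤ 1 / 2 := by
    apply one_div_le_one_div_of_le (by norm_num)
    have : (0 : ℝ) ≤ n := Nat.cast_nonneg n
    linarith
  have h2 : (0 : ℝ) < 1 / (2 * (n + 1)) := by positivity
  have ha0 : 1 / 2 ≤ a := by rw [ha]; linarith
  have ha1 : a < 1 := by rw [ha]; linarith
  let f : ContDiffBump (0 : ℝ) := ⟨a / 2, (a / 2 + 1 / 2) / 2, by linarith, by linarith⟩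
  have hr : f.rOut ≤ 1 / 2 := by
    change (a / 2 + 1 / 2) / 2 ≤ 1 / 2
    linarith
  refine ⟨ps f, ps_smooth f, ps_supp f, ps_nonneg f, ps_one f, ?_, fun x hx => ps_zero f hr hx,
    fun p => F f p ^ 2, F_int f, fun p => sq_nonneg _, four_ps f⟩
  have h3 : ps f 0 ≤ 1 / a := by
    have h := ps_at f
    have e : 2 * f.rIn = a := by
      change 2 * (a / 2) = a
      ring
    rw [e] at h
    exact h
  have h4 : ps f 0 ^ n ≤ (1 / a) ^ n := pow_le_pow_left₀ (ps_nonneg f 0) h3 n
  refine h4.trans ?_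
  rw [one_div, inv_pow]
  have h5 : 1 / 2 ≤ a ^ n := by
    have h6 := one_add_mul_le_pow (a := -(1 / (2 * ((n : ℝ) + 1)))) (by linarith) n
    have h7 : 1 + -(1 / (2 * ((n : ℝ) + 1))) = a := by rw [ha]; ring
    rw [h7] at h6
    refine le_trans ?_ h6
    have h8 : (n : ℝ) * (1 / (2 * (n + 1))) ≤ 1 / 2 := by
      rw [mul_one_div, div_le_iff₀ hn]
      linarith
    linarith
  have h6 : (a ^ n)⁻¹ ≤ (1 / 2)⁻¹ := inv_anti₀ (by norm_num) h5
  refine h6.trans (by norm_num)

theorem te9 : S9_tent := by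
  intro n
  obtain ⟨ψ, h1, h2, h3, h4, h5, h6, g, h7, h8, h9⟩ := one_dim n
  have hf : ∀ p : ℝ, ∫ v : ℝ, Complex.exp (((-2 * Real.pi * (v * p) : ℝ) : ℂ) * Complex.I) *
      (ψ v : ℂ) = (g p : ℂ) := by
    intro p
    rw [← h9 p, Real.fourier_real_eq_integral_exp_smul]
    refine integral_congr_ae (Filter.Eventually.of_forall fun v => ?_)
    simp only [smul_eq_mul, mul_assoc]
  have hi : Integrable ψ := h1.continuous.integrable_of_hasCompactSupport h2
  have hz : ∀ x : EuclideanSpace ℝ (Fin n), (∃ i, 1 ≤ |x i|) → ∏ i, ψ (x i) = 0 := by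
    rintro x ⟨i, hi⟩
    exact Finset.prod_eq_zero (Finset.mem_univ i) (h6 _ hi)
  refine ⟨fun x => ∏ i, ψ (x i), ?_, ?_, ?_, TE8f.integrable_prod ψ hi, ?_,
    fun x => Finset.prod_nonneg fun i _ => h3 _, ?_, hz,
    fun p => ∏ i, g (p i), TE8f.integrable_prod g h7,
    fun p => Finset.prod_nonneg fun i _ => h8 _, ?_⟩
  · refine contDiff_prod fun i _ => h1.comp ?_
    fun_prop
  · refine HasCompactSupport.intro (K := Metric.closedBall 0 (√n)) (isCompact_closedBall _ _)
      fun x hx => ?_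
    refine hz x ?_
    by_contra hc
    push Not at hc
    apply hx
    rw [Metric.mem_closedBall, dist_zero_right, EuclideanSpace.norm_eq]
    refine Real.sqrt_le_sqrt ?_
    calc ∑ i, ‖x i‖ ^ 2 ≤ ∑ _i : Fin n, (1 : ℝ) := by
          refine Finset.sum_le_sum fun i _ => ?_
          exact pow_le_one₀ (norm_nonneg _) (hc i).le
      _ = n := by simp
  · refine continuous_finsetProd _ fun i _ => h1.continuous.comp ?_
    fun_prop
  · rw [TE8f.int_prod_real (fun _ => ψ)]
    simp [h4]
  · simpa using h5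
  · intro p
    rw [Real.fourier_eq']
    have h10 : ∀ v : EuclideanSpace ℝ (Fin n),
        Complex.exp (((-2 * Real.pi * inner ℝ v p : ℝ) : ℂ) * Complex.I) •
          ((∏ i, ψ (v i) : ℝ) : ℂ) =
        ∏ i, (Complex.exp (((-2 * Real.pi * (v i * p i) : ℝ) : ℂ) * Complex.I) *
          (ψ (v i) : ℂ)) := by
      intro v
      rw [Finset.prod_mul_distrib, ← Complex.exp_sum, smul_eq_mul, Complex.ofReal_prod]
      congr 2
      rw [← Finset.sum_mul]
      congr 1
      rw [← Complex.ofReal_sum, ← Finset.mul_sum]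
      congr 2
      simp only [PiLp.inner_apply, RCLike.inner_apply, conj_trivial]
      exact Finset.sum_congr rfl fun _ _ => mul_comm _ _
    simp only [h10]
    rw [TE8f.int_prod (fun i v => Complex.exp (((-2 * Real.pi * (v * p i) : ℝ) : ℂ) * Complex.I) *
      (ψ v : ℂ))]
    simp only [hf]
    rw [← Complex.ofReal_prod]

end Pool.Agent.TH41.BL.TE9f
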