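import Mathlib
import Pool.Agent.TH41.BL.Stm10
import Pool.Agent.TH41.BL.ASM8
import Pool.Agent.TH41.BL.TE9
import Pool.Agent.TH41.BL.CE9
import Pool.Agent.TH41.BL.AS9
import Pool.Agent.TH41.BL.SC9
import Pool.Agent.TH41.BL.EU9

set_option autoImplicit false

namespace Pool.Agent.TH41.BL

theorem k9_tent : S9_tent := TE9f.te9
theorem k9_cert : S9_cert := CE9f.ce9 PO7f.po k8_alg k9_tent
theorem k9_asm : S9_asm := AS9f.as9 DM7f.dm EN7f.en LO7f.lo TP7f.tp PO7f.po k8_alg k8_ray k9_cert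
  k8_typ k8_ps k8_st
theorem k9_sc : S9_sc := SC9f.sc9 k8_sc
theorem k9_euc : S9_euc := EU9f.eu9 k9_asm k9_sc

theorem k9_fin : S9_fin := by
  intro ε hε
  obtain ⟨Ω, i1, i2, q, s, hs⟩ := Pool.Agent.W259.GP.s_main (ε / 3) (by positivity)
  obtain ⟨Ω', j1, j2, q', s', hg, hg0, -, hs'⟩ :=
    Pool.Agent.H785R2.LP.exists_refine s (show 0 < ε / 3 by positivity)
  have hcE : Pool.Agent.H390R2.LP.cE s' hg = Pool.Agent.H785R2.LP.cval s' hg := rfl
  obtain ⟨n0, hn0⟩ := k9_euc Ω' q' s' hg (ε / 3) hg0 (by positivity)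
  refine ⟨n0, fun n hn r hr => ?_⟩
  obtain ⟨f, hf, hb⟩ := hn0 n hn r hr
  refine ⟨f, hf, hb.trans ?_⟩
  apply Real.exp_le_exp.mpr
  have h1 : 1 / 2 * Real.log (2 * Real.pi / Real.exp 1) - ε ≤
      Pool.Agent.H390R2.LP.cE s' hg - ε / 3 := by
    rw [hcE]
    linarith
  have h2 := mul_le_mul_of_nonneg_left h1 (Nat.cast_nonneg (α := ℝ) n)
  unfold Pool.Agent.H390R2.LP.cE at h2
  linarith

end Pool.Agent.TH41.BL
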