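import Mathlib
import Pool.Agent.TH41.BL.Stm4

/-!
Project BL4 (helper41, MP_0430e4_lc), piece AB: the identities on the cut.
-/

set_option autoImplicit false

open MeasureTheory Filter Topology

namespace Pool.Agent.TH41.BL.AB4f

open Pool.Agent.TH41.BL

/-- the integrand -/
noncomputable def F (P y φ : ℝ) : ℝ :=
  Real.cos φ ^ 2 / (√(1 + y * Real.cos φ ^ 2)) ^ 3 / √(y - P)

/-- the antiderivative -/
noncomputable def G (P c y : ℝ) : ℝ :=
  2 * c ^ 2 / (1 + P * c ^ 2) * (√(y - P) / √(1 + y * c ^ 2))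

lemma G_deriv {P c y : ℝ} (hP : 0 ≤ P) (hy : P < y) :
    HasDerivAt (G P c) (c ^ 2 / (√(1 + y * c ^ 2)) ^ 3 / √(y - P)) y := by
  have hv : 0 < y - P := by linarith
  have hD : 0 < 1 + y * c ^ 2 := by
    have : 0 ≤ y * c ^ 2 := mul_nonneg (by linarith) (sq_nonneg c)
    linarith
  have hE : 0 < 1 + P * c ^ 2 := by
    have : 0 ≤ P * c ^ 2 := mul_nonneg hP (sq_nonneg c)
    linarith
  have h1 : HasDerivAt (fun y : ℝ => √(y - P)) (1 / (2 * √(y - P))) y := by
    have := ((hasDerivAt_id y).sub_const P).sqrt hv.ne'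
    simpa using this
  have h2 : HasDerivAt (fun y : ℝ => √(1 + y * c ^ 2)) (c ^ 2 / (2 * √(1 + y * c ^ 2))) y := by
    have := (((hasDerivAt_id y).mul_const (c ^ 2)).const_add 1).sqrt hD.ne'
    simpa using this
  have hsD : 0 < √(1 + y * c ^ 2) := Real.sqrt_pos.2 hD
  have hsv : 0 < √(y - P) := Real.sqrt_pos.2 hv
  have h3 := (h1.div h2 hsD.ne').const_mul (2 * c ^ 2 / (1 + P * c ^ 2))
  refine h3.congr_deriv ?_
  have e1 : √(y - P) ^ 2 = y - P := Real.sq_sqrt hv.le
  have e2 : √(1 + y * c ^ 2) ^ 2 = 1 + y * c ^ 2 := Real.sq_sqrt hD.le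
  generalize hA : √(y - P) = A at *
  generalize hB : √(1 + y * c ^ 2) = B at *
  field_simp
  have : y = A ^ 2 + P := by linarith
  rw [e2, e1]
  ring

lemma G_lim {P c : ℝ} (hP : 0 ≤ P) (hc : 0 < c) :
    Tendsto (G P c) atTop (𝓝 (2 * c / (1 + P * c ^ 2))) := by
  have hE : 0 < 1 + P * c ^ 2 := by positivity
  have h1 : Tendsto (fun y : ℝ => (y - P) / (1 + y * c ^ 2)) atTop (𝓝 (1 / c ^ 2)) := by
    have h2 : Tendsto (fun y : ℝ => (1 - P * y⁻¹) / (y⁻¹ + c ^ 2)) atTop (𝓝 (1 / c ^ 2)) := by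
      have h3 := tendsto_inv_atTop_zero (𝕜 := ℝ)
      have h4 : Tendsto (fun y : ℝ => (1 - P * y⁻¹) / (y⁻¹ + c ^ 2)) atTop
          (𝓝 ((1 - P * 0) / (0 + c ^ 2))) :=
        ((h3.const_mul P).const_sub 1).div (h3.add_const (c ^ 2)) (by positivity)
      rw [mul_zero, sub_zero, zero_add] at h4
      exact h4
    refine h2.congr' ?_
    filter_upwards [eventually_gt_atTop 0] with y hy
    field_simp
  have h5 : Tendsto (fun y : ℝ => √((y - P) / (1 + y * c ^ 2))) atTop (𝓝 (1 / c)) := by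
    have h6 := h1.sqrt
    have e : √(1 / c ^ 2) = 1 / c := by
      rw [Real.sqrt_div zero_le_one, Real.sqrt_one, Real.sqrt_sq hc.le]
    rwa [e] at h6
  have h7 := h5.const_mul (2 * c ^ 2 / (1 + P * c ^ 2))
  have e2 : 2 * c ^ 2 / (1 + P * c ^ 2) * (1 / c) = 2 * c / (1 + P * c ^ 2) := by
    field_simp
  rw [e2] at h7
  refine h7.congr' ?_
  filter_upwards [eventually_gt_atTop P] with y hy
  unfold G
  rw [Real.sqrt_div (by linarith)]

lemma G_cont {P c : ℝ} (hP : 0 ≤ P) : ContinuousWithinAt (G P c) (Set.Ici P) P := by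
  have hE : 0 < 1 + P * c ^ 2 := by
    have : 0 ≤ P * c ^ 2 := mul_nonneg hP (sq_nonneg c)
    linarith
  apply ContinuousAt.continuousWithinAt
  unfold G
  have : √(1 + P * c ^ 2) ≠ 0 := (Real.sqrt_pos.2 hE).ne'
  fun_prop (disch := assumption)

lemma F_nonneg {P : ℝ} (y φ : ℝ) : 0 ≤ F P y φ := by
  unfold F
  positivity

lemma inner_int {P φ : ℝ} (hP : 0 ≤ P) (hφ : 0 < Real.cos φ) :
    IntegrableOn (fun y => F P y φ) (Set.Ioi P) ∧
      ∫ y in Set.Ioi P, F P y φ = 2 * Real.cos φ / (1 + P * Real.cos φ ^ 2) := by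
  constructor
  · exact integrableOn_Ioi_deriv_of_nonneg (G_cont hP)
      (fun y hy => G_deriv (c := Real.cos φ) hP hy) (fun y _ => F_nonneg y φ) (G_lim hP hφ)
  · have h := integral_Ioi_of_hasDerivAt_of_nonneg (G_cont hP)
      (fun y hy => G_deriv (c := Real.cos φ) hP hy) (fun y _ => F_nonneg y φ) (G_lim hP hφ)
    have e : G P (Real.cos φ) P = 0 := by
      unfold G
      simp
    rw [e, sub_zero] at h
    exact h

lemma F_meas (P : ℝ) : Measurable (Function.uncurry (F P)) := by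
  unfold F Function.uncurry
  fun_prop

lemma F_int {P : ℝ} (hP : 0 ≤ P) :
    Integrable (Function.uncurry (F P))
      ((volume.restrict (Set.Ioi P)).prod (volume.restrict (Set.Ioo 0 (Real.pi / 2)))) := by
  rw [integrable_prod_iff' (F_meas P).aestronglyMeasurable]
  have hcos : ∀ φ ∈ Set.Ioo 0 (Real.pi / 2), 0 < Real.cos φ := fun φ hφ =>
    Real.cos_pos_of_mem_Ioo ⟨by linarith [hφ.1, Real.pi_pos], hφ.2⟩
  constructor
  · filter_upwards [ae_restrict_mem measurableSet_Ioo] with φ hφ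
    exact (inner_int hP (hcos φ hφ)).1
  · have h1 : IntegrableOn (fun φ => 2 * Real.cos φ / (1 + P * Real.cos φ ^ 2))
        (Set.Ioo 0 (Real.pi / 2)) := by
      have hc : Continuous (fun φ => 2 * Real.cos φ / (1 + P * Real.cos φ ^ 2)) := by
        apply Continuous.div (by fun_prop) (by fun_prop)
        intro φ
        have : 0 ≤ P * Real.cos φ ^ 2 := mul_nonneg hP (sq_nonneg _)
        linarith
      exact (hc.integrableOn_Icc (a := 0) (b := Real.pi / 2)).mono_set Set.Ioo_subset_Icc_self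
    refine Integrable.congr h1 ?_
    filter_upwards [ae_restrict_mem measurableSet_Ioo] with φ hφ
    rw [← (inner_int hP (hcos φ hφ)).2]
    refine integral_congr_ae (Eventually.of_forall fun y => ?_)
    simp only [Function.uncurry, Real.norm_eq_abs]
    rw [abs_of_nonneg (F_nonneg y φ)]

lemma main {P : ℝ} (hP : 0 ≤ P) :
    ∫ y in Set.Ioi P, 2 * WN y / √(y - P) =
      2 / Real.pi * ∫ φ in (0 : ℝ)..(Real.pi / 2), Real.cos φ / (1 + P * Real.cos φ ^ 2) := by
  have hpi := Real.pi_pos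
  have h1 : ∀ y : ℝ, 2 * WN y / √(y - P) =
      1 / Real.pi * ∫ φ in Set.Ioo 0 (Real.pi / 2), F P y φ := by
    intro y
    unfold WN F
    rw [intervalIntegral.integral_of_le (by positivity), integral_Ioc_eq_integral_Ioo,
      integral_div]
    ring
  calc ∫ y in Set.Ioi P, 2 * WN y / √(y - P)
      = ∫ y in Set.Ioi P, 1 / Real.pi * ∫ φ in Set.Ioo 0 (Real.pi / 2), F P y φ :=
        integral_congr_ae (Eventually.of_forall fun y => h1 y)
    _ = 1 / Real.pi * ∫ y in Set.Ioi P, ∫ φ in Set.Ioo 0 (Real.pi / 2), F P y φ :=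
        integral_const_mul _ _
    _ = 1 / Real.pi * ∫ φ in Set.Ioo 0 (Real.pi / 2), ∫ y in Set.Ioi P, F P y φ := by
        rw [integral_integral_swap (F_int hP)]
    _ = 1 / Real.pi * ∫ φ in Set.Ioo 0 (Real.pi / 2),
          2 * (Real.cos φ / (1 + P * Real.cos φ ^ 2)) := by
        congr 1
        refine setIntegral_congr_fun measurableSet_Ioo fun φ hφ => ?_
        have hc : 0 < Real.cos φ :=
          Real.cos_pos_of_mem_Ioo ⟨by linarith [hφ.1, Real.pi_pos], hφ.2⟩
        rw [(inner_int hP hc).2]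
        ring
    _ = _ := by
        rw [integral_const_mul, intervalIntegral.integral_of_le (by positivity),
          integral_Ioc_eq_integral_Ioo]
        ring

lemma int_cos {t : ℝ} (ht : 0 < t) :
    ∫ φ in (0 : ℝ)..(Real.pi / 2), Real.cos φ / (1 + Real.sinh (2 * t) ^ 2 * Real.cos φ ^ 2) =
      4 * t / Real.sinh (4 * t) := by
  set S := Real.sinh (2 * t) with hS
  set C := Real.cosh (2 * t) with hC
  have hSp : 0 < S := Real.sinh_pos_iff.2 (by linarith)
  have hCp : 0 < C := Real.cosh_pos _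
  have hSC : S < C := Real.sinh_lt_cosh _
  have hCS : C ^ 2 = S ^ 2 + 1 := Real.cosh_sq _
  have hpos : ∀ φ : ℝ, 0 < C + S * Real.sin φ ∧ 0 < C - S * Real.sin φ := by
    intro φ
    have h1 := Real.sin_le_one φ
    have h2 := Real.neg_one_le_sin φ
    constructor <;> nlinarith
  have hd : ∀ φ ∈ Set.uIcc 0 (Real.pi / 2), HasDerivAt
      (fun φ => (Real.log (C + S * Real.sin φ) - Real.log (C - S * Real.sin φ)) / (2 * S * C))
      (Real.cos φ / (1 + S ^ 2 * Real.cos φ ^ 2)) φ := by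
    intro φ _
    obtain ⟨hp, hm⟩ := hpos φ
    have h1 : HasDerivAt (fun φ => C + S * Real.sin φ) (S * Real.cos φ) φ :=
      ((Real.hasDerivAt_sin φ).const_mul S).const_add C
    have h2 : HasDerivAt (fun φ => C - S * Real.sin φ) (-(S * Real.cos φ)) φ :=
      ((Real.hasDerivAt_sin φ).const_mul S).const_sub C
    have h3 := ((h1.log hp.ne').sub (h2.log hm.ne')).div_const (2 * S * C)
    refine h3.congr_deriv ?_
    have hE : 0 < 1 + S ^ 2 * Real.cos φ ^ 2 := by positivity
    have hprod : (C + S * Real.sin φ) * (C - S * Real.sin φ) = 1 + S ^ 2 * Real.cos φ ^ 2 := by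
      have := Real.sin_sq_add_cos_sq φ
      nlinarith
    rw [div_sub_div _ _ hp.ne' hm.ne', hprod]
    field_simp
    ring
  rw [intervalIntegral.integral_eq_sub_of_hasDerivAt hd]
  · rw [Real.sin_pi_div_two, Real.sin_zero, mul_one, mul_zero, add_zero, sub_zero, sub_self,
      zero_div, sub_zero]
    have e1 : C + S = Real.exp (2 * t) := Real.cosh_add_sinh _
    have e2 : C - S = Real.exp (-(2 * t)) := Real.cosh_sub_sinh _
    rw [e1, e2, Real.log_exp, Real.log_exp]
    have e3 : Real.sinh (4 * t) = 2 * S * C := by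
      rw [show 4 * t = 2 * (2 * t) by ring, Real.sinh_two_mul]
    rw [e3]
    ring
  · apply Continuous.intervalIntegrable
    apply Continuous.div (by fun_prop) (by fun_prop)
    intro φ
    have : 0 ≤ S ^ 2 * Real.cos φ ^ 2 := by positivity
    linarith

theorem ab (hw : S3_w) (hi : S4_w) : S4_ab := by

  constructor
  · have h := main (P := 0) le_rfl
    simp only [sub_zero, zero_mul, add_zero, div_one] at h
    rw [h, integral_cos, Real.sin_pi_div_two, Real.sin_zero]
    ring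
  · intro t ht
    rw [main (sq_nonneg _), int_cos ht]
    ring

end Pool.Agent.TH41.BL.AB4f
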