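import Mathlib
import Pool.Agent.TH41.BL.Stm7

set_option autoImplicit false

open MeasureTheory Filter Topology

namespace Pool.Agent.TH41.BL.AS7f

open Pool.Agent.TH41.BL

section lin
variable {V : Type} [Fintype V]

theorem hs_comm (A B : Matrix V V ℝ) : hs A B = hs B A :=
  Finset.sum_congr rfl fun _ _ => Finset.sum_congr rfl fun _ _ => mul_comm _ _

theorem hs_add_left (A B C : Matrix V V ℝ) : hs (A + B) C = hs A C + hs B C := by
  unfold hs
  simp only [Matrix.add_apply, add_mul, Finset.sum_add_distrib]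

theorem hs_sub_left (A B C : Matrix V V ℝ) : hs (A - B) C = hs A C - hs B C := by
  unfold hs
  simp only [Matrix.sub_apply, sub_mul, Finset.sum_sub_distrib]

theorem hs_add_right (A B C : Matrix V V ℝ) : hs A (B + C) = hs A B + hs A C := by
  rw [hs_comm, hs_add_left, hs_comm B, hs_comm C]

theorem hs_trace (A B : Matrix V V ℝ) : hs A B = (A.transpose * B).trace := by
  unfold hs
  rw [Matrix.trace]
  simp only [Matrix.diag_apply, Matrix.mul_apply, Matrix.transpose_apply]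
  exact Finset.sum_comm

theorem hs_self_nonneg (A : Matrix V V ℝ) : 0 ≤ hs A A :=
  Finset.sum_nonneg fun _ _ => Finset.sum_nonneg fun _ _ => mul_self_nonneg _

theorem hs_self_pos {A : Matrix V V ℝ} (h : A ≠ 0) : 0 < hs A A := by
  by_contra hc
  apply h
  have h0 : hs A A = 0 := le_antisymm (not_lt.mp hc) (hs_self_nonneg A)
  ext a b
  have h1 := (Finset.sum_eq_zero_iff_of_nonneg
    (fun a _ => Finset.sum_nonneg fun b _ => mul_self_nonneg (A a b))).mp h0 a (Finset.mem_univ a)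
  have h2 := (Finset.sum_eq_zero_iff_of_nonneg
    (fun b _ => mul_self_nonneg (A a b))).mp h1 b (Finset.mem_univ b)
  simpa using mul_self_eq_zero.mp h2

theorem hs_cs (A B : Matrix V V ℝ) : hs A B ^ 2 ≤ hs A A * hs B B := by
  have h := Finset.sum_mul_sq_le_sq_mul_sq (Finset.univ : Finset (V × V))
    (fun p => A p.1 p.2) (fun p => B p.1 p.2)
  rw [Fintype.sum_prod_type, Fintype.sum_prod_type, Fintype.sum_prod_type] at h
  simp only [sq (A _ _), sq (B _ _)] at h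
  exact h

theorem N_add (A B : Matrix V V ℝ) :
    √(hs (A + B) (A + B)) ≤ √(hs A A) + √(hs B B) := by
  have h1 : hs (A + B) (A + B) = hs A A + 2 * hs A B + hs B B := by
    rw [hs_add_left, hs_add_right, hs_add_right, hs_comm B A]
    ring
  have h2 : hs A B ≤ √(hs A A) * √(hs B B) := by
    rw [← Real.sqrt_mul (hs_self_nonneg A)]
    exact Real.le_sqrt_of_sq_le (hs_cs A B)
  apply Real.sqrt_le_iff.mpr
  constructor
  · positivity
  · rw [h1]
    nlinarith [Real.sq_sqrt (hs_self_nonneg A), Real.sq_sqrt (hs_self_nonneg B)]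

theorem hs_proj {F : Matrix V V ℝ} (hF : Prj F) (X : Matrix V V ℝ) :
    hs (F * X) (F * X) = (X.transpose * (F * X)).trace := by
  rw [hs_trace, Matrix.transpose_mul, hF.1, Matrix.mul_assoc, ← Matrix.mul_assoc F F X, hF.2]

theorem hs_transpose (X : Matrix V V ℝ) : hs X.transpose X.transpose = hs X X := by
  unfold hs
  simp only [Matrix.transpose_apply]
  exact Finset.sum_comm

theorem prj_compl [DecidableEq V] {F : Matrix V V ℝ} (hF : Prj F) : Prj (1 - F) := by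
  refine ⟨by rw [Matrix.transpose_sub, Matrix.transpose_one, hF.1], ?_⟩
  rw [Matrix.sub_mul, Matrix.mul_sub, Matrix.mul_sub, hF.2, Matrix.one_mul, Matrix.one_mul,
    Matrix.mul_one, sub_self, sub_zero]

theorem hs_proj_le [DecidableEq V] {F : Matrix V V ℝ} (hF : Prj F) (X : Matrix V V ℝ) :
    hs (F * X) (F * X) ≤ hs X X := by
  have h1 := hs_proj hF X
  have h2 := hs_proj (prj_compl hF) X
  have h3 := hs_self_nonneg ((1 - F) * X)
  rw [h2, Matrix.sub_mul, Matrix.one_mul, Matrix.mul_sub, Matrix.trace_sub, ← hs_trace, ← h1] at h3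
  linarith

theorem N_proj [DecidableEq V] {F : Matrix V V ℝ} (hF : Prj F) (X : Matrix V V ℝ) :
    √(hs (F * X) (F * X)) ≤ √(hs X X) := Real.sqrt_le_sqrt (hs_proj_le hF X)

theorem N_proj' [DecidableEq V] {F : Matrix V V ℝ} (hF : Prj F) (X : Matrix V V ℝ) :
    √(hs (X * F) (X * F)) ≤ √(hs X X) := by
  rw [← hs_transpose (X * F), Matrix.transpose_mul, hF.1, ← hs_transpose X]
  exact N_proj hF _

theorem tr_proj {F T : Matrix V V ℝ} (hF : Prj F) (hT : T.transpose = T) :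
    (F * (T * T)).trace = hs (F * T) (F * T) := by
  rw [hs_proj hF, hT, ← Matrix.mul_assoc, Matrix.trace_mul_comm]

theorem quad_eq (M : Matrix V V ℝ) (x : V → ℝ) :
    ∑ a, ∑ b, x a * M a b * x b = x ⬝ᵥ (M.mulVec x) := by
  simp only [dotProduct, Matrix.mulVec, Finset.mul_sum, mul_assoc]

theorem psd_compress {R T : Matrix V V ℝ} (hR : R.transpose = R) (hT : PSD T) :
    PSD (R * T * R) := by
  refine ⟨?_, fun x => ?_⟩
  · rw [Matrix.transpose_mul, Matrix.transpose_mul, hR, hT.1, Matrix.mul_assoc]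
  · have h := hT.2 (R.mulVec x)
    rw [quad_eq] at h ⊢
    have h2 : (R.mulVec x) ⬝ᵥ (T.mulVec (R.mulVec x)) = x ⬝ᵥ ((R * T * R).mulVec x) := by
      rw [Matrix.mul_assoc, ← Matrix.mulVec_mulVec, ← Matrix.mulVec_mulVec,
        Matrix.dotProduct_mulVec x, ← Matrix.mulVec_transpose, hR]
    rw [← h2]
    exact h

end lin

theorem pinv_mul {Ω : Type} [Fintype Ω] {m : ℕ} {A B : Matrix (Fin m → Ω) (Fin m → Ω) ℝ}
    (hA : PInv A) (hB : PInv B) : PInv (A * B) := by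
  intro σ a b
  let e : (Fin m → Ω) ≃ (Fin m → Ω) :=
    ⟨fun c k => c (σ k), fun c k => c (σ.symm k), fun c => by funext k; simp,
      fun c => by funext k; simp⟩
  rw [Matrix.mul_apply, Matrix.mul_apply, ← Equiv.sum_comp e]
  refine Finset.sum_congr rfl fun c _ => ?_
  rw [show e c = fun k => c (σ k) from rfl, hA σ a c, hB σ c b]

theorem Ad_add {Ω β : Type} [Fintype β] {m : ℕ} (bt : Ω → β → Bool)
    (A B : Matrix (Fin m → Ω) (Fin m → Ω) ℝ) : Ad bt (A + B) = Ad bt A + Ad bt B := by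
  ext a b
  simp only [Ad, Matrix.of_apply, Matrix.add_apply]
  ring

theorem hd_self {Ω β : Type} [Fintype β] {m : ℕ} (bt : Ω → β → Bool) (a : Fin m → Ω) :
    hd bt a a = 0 := by
  simp [hd]

theorem trace_dgP {Ω β : Type} [Fintype Ω] [Fintype β] {m : ℕ} (bt : Ω → β → Bool)
    (A : Matrix (Fin m → Ω) (Fin m → Ω) ℝ) : (dgP bt A).trace = A.trace := by
  simp [Matrix.trace, dgP, hd_self]

theorem pdi_compl {Ω β : Type} [DecidableEq Ω] [Fintype β] {m : ℕ}
    {bt : Ω → β → Bool} {A : Matrix (Fin m → Ω) (Fin m → Ω) ℝ} (hA : PDi bt A) :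
    PDi bt (1 - A) := by
  intro a b hab
  have hne : a ≠ b := by
    rintro rfl
    exact hab (hd_self bt a)
  rw [Matrix.sub_apply, hA a b hab, Matrix.one_apply_ne hne, sub_zero]

theorem ev_pow (K : ℕ) (C b : ℝ) (hC : 0 < C) (hb : 0 < b) :
    ∀ᶠ m : ℕ in atTop, C * ((m : ℝ) + 1) ^ K ≤ Real.exp (m * b) := by
  have h := (isLittleO_pow_exp_pos_mul_atTop (k := K) hb).def (c := Real.exp (-b) / C)
    (by positivity)
  have h2 : Tendsto (fun m : ℕ => (m : ℝ) + 1) atTop atTop :=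
    tendsto_atTop_add_const_right _ _ tendsto_natCast_atTop_atTop
  filter_upwards [h2.eventually h] with m hm
  rw [Real.norm_of_nonneg (by positivity), Real.norm_of_nonneg (Real.exp_pos _).le] at hm
  have h3 : Real.exp (-b) / C * Real.exp (b * ((m : ℝ) + 1)) = Real.exp (m * b) / C := by
    rw [div_mul_eq_mul_div, ← Real.exp_add]
    ring_nf
  rw [h3, le_div_iff₀ hC] at hm
  linarith

/-- the compressed square root -/
theorem comp {V : Type} [Fintype V] [DecidableEq V] {P Q T E : Matrix V V ℝ} {κ : ℝ}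
    (hP : Prj P) (hQ : Prj Q) (hE : Prj E) (hPQ : Q * P = P * Q) (hQE : Q * E = E)
    (hT : PSD T) (hT1 : hs T T = 1) (h1 : ((1 - P) * (T * T)).trace ≤ κ)
    (h2 : ((1 - E) * (T * T)).trace ≤ κ) :
    PSD (P * Q * T * (P * Q)) ∧ P * (P * Q * T * (P * Q)) = P * Q * T * (P * Q) ∧
    Q * (P * Q * T * (P * Q)) = P * Q * T * (P * Q) ∧
    hs (P * Q * T * (P * Q)) (P * Q * T * (P * Q)) ≤ 1 ∧
    √(hs (T - P * Q * T * (P * Q)) (T - P * Q * T * (P * Q))) ≤ 4 * √κ := by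
  have hR : Prj (P * Q) := by
    refine ⟨by rw [Matrix.transpose_mul, hP.1, hQ.1, hPQ], ?_⟩
    rw [Matrix.mul_assoc, ← Matrix.mul_assoc Q P Q, hPQ, Matrix.mul_assoc P Q Q, hQ.2,
      ← Matrix.mul_assoc, hP.2]
  have hEQ : E * Q = E := by
    have := congrArg Matrix.transpose hQE
    rwa [Matrix.transpose_mul, hE.1, hQ.1] at this
  have hQE' : Prj (Q - E) := by
    refine ⟨by rw [Matrix.transpose_sub, hQ.1, hE.1], ?_⟩
    rw [Matrix.sub_mul, Matrix.mul_sub, Matrix.mul_sub, hQ.2, hQE, hEQ, hE.2, sub_self, sub_zero]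
  have h3 : ((1 - Q) * (T * T)).trace ≤ κ := by
    have h4 : ((Q - E) * (T * T)).trace = hs ((Q - E) * T) ((Q - E) * T) := tr_proj hQE' hT.1
    have h5 := hs_self_nonneg ((Q - E) * T)
    have h6 : ((1 - Q) * (T * T)).trace = ((1 - E) * (T * T)).trace
        - ((Q - E) * (T * T)).trace := by
      rw [← Matrix.trace_sub, ← Matrix.sub_mul]
      congr 2
      abel
    rw [h6, h4]
    linarith
  rw [tr_proj (prj_compl hP) hT.1] at h1
  rw [tr_proj (prj_compl hQ) hT.1] at h3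
  have h4 : √(hs ((1 - P * Q) * T) ((1 - P * Q) * T)) ≤ 2 * √κ := by
    have h5 : (1 - P * Q) * T = (1 - P) * T + P * ((1 - Q) * T) := by
      simp only [Matrix.sub_mul, Matrix.mul_sub, Matrix.one_mul, Matrix.mul_assoc]
      abel
    rw [h5]
    have h6 := N_add ((1 - P) * T) (P * ((1 - Q) * T))
    have h7 := N_proj hP ((1 - Q) * T)
    have h8 := Real.sqrt_le_sqrt h1
    have h9 := Real.sqrt_le_sqrt h3
    linarith
  refine ⟨psd_compress hR.1 hT, ?_, ?_, ?_, ?_⟩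
  · simp only [← Matrix.mul_assoc]
    rw [hP.2]
  · simp only [← Matrix.mul_assoc]
    rw [hPQ, Matrix.mul_assoc P Q Q, hQ.2]
  · have h5 := N_proj hR (T * (P * Q))
    have h6 := N_proj' hR T
    rw [← Matrix.mul_assoc] at h5
    rw [hT1, Real.sqrt_one] at h6
    have h7 := h5.trans h6
    have h8 := Real.sqrt_le_one.mp h7
    exact h8
  · have h5 : T - P * Q * T * (P * Q) = (1 - P * Q) * T + P * Q * (T * (1 - P * Q)) := by
      simp only [Matrix.sub_mul, Matrix.mul_sub, Matrix.one_mul, Matrix.mul_one, Matrix.mul_assoc]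
      abel
    rw [h5]
    have h6 := N_add ((1 - P * Q) * T) (P * Q * (T * (1 - P * Q)))
    have h7 := N_proj hR (T * (1 - P * Q))
    have h8 : hs (T * (1 - P * Q)) (T * (1 - P * Q)) = hs ((1 - P * Q) * T) ((1 - P * Q) * T) := by
      rw [← hs_transpose (T * (1 - P * Q)), Matrix.transpose_mul, hT.1, (prj_compl hR).1]
    rw [h8] at h7
    linarith

theorem as7 (hd : S7_dim) (he : S7_env) (hl : S7_low) (ht : S7_top) (hp : S7_pos) (hr : S7_ray) (hc : S7_cert) (hy : S7_typ) (hs7 : S7_ps) (hst : S7_st) : S7_asm := by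
  intro Ω _ _ s δ ε hδ hε
  have hg0 : 0 < 2 * δ - s.E Pool.Agent.TH753.FF.ff := by linarith
  obtain ⟨g, hg⟩ : ∃ g : ℝ, g = 2 * δ - s.E Pool.Agent.TH753.FF.ff := ⟨_, rfl⟩
  rw [← hg] at hg0
  obtain ⟨κ, hκ0, hκ1, hκ2, hκ3⟩ :
      ∃ κ : ℝ, 0 < κ ∧ 16 * √κ ≤ g ∧ 4 * √κ < 1 ∧ 6 * κ ≤ ε := by
    refine ⟨min (min ((g / 16) ^ 2) ((1 / 8) ^ 2)) (ε / 6), by positivity, ?_, ?_, ?_⟩
    · have h1 : √(min (min ((g / 16) ^ 2) ((1 / 8) ^ 2)) (ε / 6)) ≤ g / 16 := by
        rw [Real.sqrt_le_left (by positivity)]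
        exact (min_le_left _ _).trans (min_le_left _ _)
      linarith
    · have h1 : √(min (min ((g / 16) ^ 2) ((1 / 8) ^ 2)) (ε / 6)) ≤ 1 / 8 := by
        rw [Real.sqrt_le_left (by positivity)]
        exact (min_le_left _ _).trans (min_le_right _ _)
      linarith
    · have h1 : min (min ((g / 16) ^ 2) ((1 / 8) ^ 2)) (ε / 6) ≤ ε / 6 := min_le_right _ _
      linarith
  obtain ⟨m₁, hm₁⟩ := hy Ω s κ hκ0
  obtain ⟨m₂, hm₂⟩ := hs7 Ω s κ hκ0
  obtain ⟨m₃, hm₃⟩ := eventually_atTop.mp (ev_pow (Fintype.card Ω ^ 2) 1 κ one_pos hκ0)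
  obtain ⟨m₄, hm₄⟩ := eventually_atTop.mp
    (ev_pow (Fintype.card Ω ^ 2) (4 / g) (ε / 2) (by positivity) (by positivity))
  refine ⟨m₁ + m₂ + m₃ + m₄ + 1, fun m hm d hd1 hd2 => ?_⟩
  obtain ⟨E, hEi, hEp, hEt, hEr⟩ := hm₁ m (by omega)
  have hps := hm₂ m (by omega)
  have hB1 := hm₃ m (by omega)
  have hB2 := hm₄ m (by omega)
  have hdim := hd Ω m
  have hm1 : (1 : ℝ) ≤ m := by
    have : 1 ≤ m := by omega
    exact_mod_cast this
  obtain ⟨Q, hQi, hQp, hQE, hQc, hQt⟩ := he Ω m E hEi hEp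
  obtain ⟨L, hL⟩ : ∃ L : ℝ, L = Real.exp (m * (s.h - 2 * κ)) := ⟨_, rfl⟩
  have hL0 : 0 < L := by
    rw [hL]
    exact Real.exp_pos _
  obtain ⟨P, hPi, hPd, hPp, hPt, hPmin⟩ := hl Ω (Fin 2) (bG s.pos) m L hL0
  obtain ⟨hTpsd, hTi, hTT, hT1, hTE⟩ := hst Ω s m
  have hB : dimP Ω m ≤ Real.exp (m * κ) := by linarith
  have hPr : ((1 - P) * Rm s m).trace ≤ κ := by
    apply hps _ (prj_compl hPp) (pdi_compl hPd)
    refine hPt.trans ?_
    have h1 : Real.exp (m * (s.h - κ)) = L * Real.exp (m * κ) := by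
      rw [hL, ← Real.exp_add]
      congr 1
      ring
    rw [h1]
    exact mul_le_mul_of_nonneg_left hB hL0.le
  rw [← hTT] at hPr hEr
  generalize Tm s m = T₀ at hTpsd hTi hTT hT1 hTE hPr hEr
  have hPQ : Q * P = P * Q := hQc P hPi
  obtain ⟨c1, c2, c3, c4, c5⟩ := comp hPp hQp hEp hPQ hQE hTpsd hT1 hPr hEr
  have hT₁i : PInv (P * Q * T₀ * (P * Q)) :=
    pinv_mul (pinv_mul (pinv_mul hPi hQi) hTi) (pinv_mul hPi hQi)
  generalize P * Q * T₀ * (P * Q) = T₁ at c1 c2 c3 c4 c5 hT₁i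
  have hT₁0 : T₁ ≠ 0 := by
    intro h0
    rw [h0, sub_zero, hT1, Real.sqrt_one] at c5
    linarith
  obtain ⟨T, r, hTp, hTin, hTne, hPT, hQT, hray, hAdT⟩ := hr Ω (Fin 2) (bG s.pos) m P Q T₁
    hPi hPd hPp hQi hQp hQc c1.1 hT₁i c2 c3 hT₁0
  have hT₁pos := hs_self_pos hT₁0
  have hAd0 : 0 ≤ hs T₁ (Ad (bG s.pos) T₁) :=
    hp.1 _ _ _ c1 ((hp.2.2 Ω (Fin 2) (bG s.pos) m T₁ T₁).1 c1)
  have hnb : nb (Fin 2) m = 2 * m := by simp [nb, mul_comm]
  have hn : (nb (Fin 2) m : ℝ) = 2 * m := by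
    rw [hnb]
    push_cast
    ring
  have hlow : 2 * m * (1 - s.E Pool.Agent.TH753.FF.ff) - 2 * m * (8 * √κ) ≤
      hs T₁ (Ad (bG s.pos) T₁) := by
    have e1 : hs T₀ (Ad (bG s.pos) T₀) - hs T₁ (Ad (bG s.pos) T₁) =
        hs (T₀ - T₁) (Ad (bG s.pos) (T₀ + T₁)) := by
      have e0 := (hp.2.2 Ω (Fin 2) (bG s.pos) m T₀ T₁).2.2.2.2.2.1
      rw [Ad_add, hs_add_right, hs_sub_left, hs_sub_left, hs_comm T₁ (Ad (bG s.pos) T₀), ← e0]
      ring
    have e2 := (hp.2.2 Ω (Fin 2) (bG s.pos) m (T₀ - T₁) (T₀ + T₁)).2.2.2.2.2.2.2.2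
    have e3 : √(hs (T₀ + T₁) (T₀ + T₁)) ≤ 2 := by
      have h1 := N_add T₀ T₁
      have h2 := Real.sqrt_le_one.mpr c4
      rw [hT1, Real.sqrt_one] at h1
      linarith
    rw [← e1, hn] at e2
    have e4 := (le_abs_self _).trans e2
    have e5 : √(hs (T₀ - T₁) (T₀ - T₁)) * √(hs (T₀ + T₁) (T₀ + T₁)) ≤ 4 * √κ * 2 :=
      mul_le_mul c5 e3 (Real.sqrt_nonneg _) (by positivity)
    have e6 := mul_le_mul_of_nonneg_left e5 (show (0 : ℝ) ≤ 2 * m by positivity)
    rw [hTE] at e4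
    linarith
  have hr0 : 0 ≤ r := by
    by_contra h
    push Not at h
    have := mul_neg_of_neg_of_pos h hT₁pos
    linarith
  have hra : hs T₁ (Ad (bG s.pos) T₁) ≤ r := hray.trans (mul_le_of_le_one_right hr0 c4)
  have hgap : (m : ℝ) * g ≤ r - ((nb (Fin 2) m : ℝ) - 2 * d) := by
    rw [hn]
    have e1 := mul_le_mul_of_nonneg_left hκ1 (Nat.cast_nonneg (α := ℝ) m)
    have e2 : 2 * m * (1 - s.E Pool.Agent.TH753.FF.ff) - 2 * m * (8 * √κ) -
        (2 * m - 2 * (δ * (2 * m))) = 2 * (m * g) - m * (16 * √κ) := by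
      rw [hg]
      ring
    linarith
  have hmg : 0 < (m : ℝ) * g := by positivity
  obtain ⟨l, hfeas, hval⟩ := hc Ω (Fin 2) (bG s.pos) m d T r hTp (hs_self_pos hTne) hAdT
    (by linarith)
  have hMp := hp.2.2 Ω (Fin 2) (bG s.pos) m P T
  have hMt := hp.2.2 Ω (Fin 2) (bG s.pos) m T T
  have hPM : P * dgP (bG s.pos) T = dgP (bG s.pos) T := by
    have h1 := hMp.2.2.2.2.2.2.2.1 hPd
    rw [hPT] at h1
    exact h1.symm
  have htop := ht Ω (Fin 2) (bG s.pos) m L P hL0.le hPmin (dgP (bG s.pos) T) (hMt.2.1 hTp)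
    (hMt.2.2.2.1 hTin) hMt.2.2.2.2.1 hPM
  rw [trace_dgP] at htop
  have htr2 : T.trace ^ 2 ≤ Q.trace * hs T T := by
    have e1 : T.trace = hs Q T := by rw [hs_trace, hQp.1, hQT]
    have e2 : hs Q Q = Q.trace := by rw [hs_trace, hQp.1, hQp.2]
    rw [e1, ← e2]
    exact hs_cs Q T
  have hTpos := hs_self_pos hTne
  have hv0 : 0 ≤ Vl (nb (Fin 2) m) l :=
    Finset.sum_nonneg fun j _ => mul_nonneg (hfeas.1 j) (Nat.cast_nonneg _)
  have hl0 : 0 < l 0 := hfeas.2.1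
  have hdm : (d : ℝ) ≤ 2 * m := by exact_mod_cast hd2
  rw [hnb] at hfeas
  refine ⟨l, hfeas, ?_⟩
  rw [← hnb]
  generalize Vl (nb (Fin 2) m) l = v at hval hv0
  generalize r - ((nb (Fin 2) m : ℝ) - 2 * d) = ρ at hval hgap
  generalize hs (dgP (bG s.pos) T) (dgP (bG s.pos) T) = D at hval htop
  rw [hnb] at hval
  have hB0 : 0 ≤ dimP Ω m := by
    unfold dimP
    positivity
  have hQ2 : Q.trace ≤ dimP Ω m * Real.exp (m * (s.S + κ)) :=
    hQt.trans (mul_le_mul_of_nonneg_left hEt hB0)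
  have f1 : v * (m * g * hs T T) * L ≤ 2 ^ (2 * m + 1) * (2 * m) *
      (dimP Ω m * Real.exp (m * (s.S + κ)) * hs T T) * l 0 := by
    have g1 : v * (m * g * hs T T) * L ≤ v * (ρ * hs T T) * L :=
      mul_le_mul_of_nonneg_right (mul_le_mul_of_nonneg_left
        (mul_le_mul_of_nonneg_right hgap hTpos.le) hv0) hL0.le
    have g2 : v * (ρ * hs T T) * L ≤ 2 ^ (2 * m + 1) * d * D * l 0 * L :=
      mul_le_mul_of_nonneg_right hval hL0.le
    have g3 : L * D ≤ dimP Ω m * Real.exp (m * (s.S + κ)) * hs T T :=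
      htop.trans (htr2.trans (mul_le_mul_of_nonneg_right hQ2 hTpos.le))
    have g4 : 2 ^ (2 * m + 1) * d * D * l 0 * L = 2 ^ (2 * m + 1) * d * (L * D) * l 0 := by ring
    have g5 : (2 : ℝ) ^ (2 * m + 1) * d * (L * D) * l 0 ≤ 2 ^ (2 * m + 1) * d *
        (dimP Ω m * Real.exp (m * (s.S + κ)) * hs T T) * l 0 :=
      mul_le_mul_of_nonneg_right (mul_le_mul_of_nonneg_left g3 (by positivity)) hl0.le
    have g6 : (2 : ℝ) ^ (2 * m + 1) * d *
        (dimP Ω m * Real.exp (m * (s.S + κ)) * hs T T) * l 0 ≤ 2 ^ (2 * m + 1) * (2 * m) *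
        (dimP Ω m * Real.exp (m * (s.S + κ)) * hs T T) * l 0 := by
      refine mul_le_mul_of_nonneg_right (mul_le_mul_of_nonneg_right
        (mul_le_mul_of_nonneg_left hdm (by positivity)) ?_) hl0.le
      positivity
    linarith
  have f2 : v * (g * L) ≤ 4 * 2 ^ (2 * m) * (dimP Ω m * Real.exp (m * (s.S + κ))) * l 0 := by
    have h1 : v * (m * g * hs T T) * L = v * (g * L) * (m * hs T T) := by ring
    have h2 : 2 ^ (2 * m + 1) * (2 * m) *
      (dimP Ω m * Real.exp (m * (s.S + κ)) * hs T T) * l 0 =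
      4 * 2 ^ (2 * m) * (dimP Ω m * Real.exp (m * (s.S + κ))) * l 0 * (m * hs T T) := by
      rw [pow_succ]
      ring
    rw [h1, h2] at f1
    exact le_of_mul_le_mul_right f1 (by positivity)
  have f3 : 4 * 2 ^ (2 * m) * (dimP Ω m * Real.exp (m * (s.S + κ))) ≤
      Real.exp (m * (2 * Real.log 2 - (s.h - s.S) + ε)) * (g * L) := by
    have h1 : 4 / g * dimP Ω m ≤ Real.exp (m * (ε / 2)) :=
      (mul_le_mul_of_nonneg_left hdim (by positivity)).trans hB2
    have h2 : (2 : ℝ) ^ (2 * m) = Real.exp (m * (2 * Real.log 2)) := by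
      rw [← Real.exp_log (show (0 : ℝ) < 2 ^ (2 * m) by positivity), Real.log_pow]
      congr 1
      push_cast
      ring
    have h3 : 4 * 2 ^ (2 * m) * (dimP Ω m * Real.exp (m * (s.S + κ))) =
        g * ((4 / g * dimP Ω m) * (Real.exp (m * (2 * Real.log 2)) *
          Real.exp (m * (s.S + κ)))) := by
      rw [h2]
      field_simp
    have h4 : Real.exp (m * (2 * Real.log 2 - (s.h - s.S) + ε)) * (g * L) =
        g * (Real.exp (m * (2 * Real.log 2 - (s.h - s.S) + ε)) * L) := by ring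
    rw [h3, h4]
    refine mul_le_mul_of_nonneg_left ?_ hg0.le
    refine (mul_le_mul_of_nonneg_right h1 (by positivity)).trans ?_
    rw [hL, ← Real.exp_add, ← Real.exp_add, ← Real.exp_add]
    apply Real.exp_le_exp.mpr
    have h5 : (m : ℝ) * (6 * κ) ≤ m * ε := mul_le_mul_of_nonneg_left hκ3 (by positivity)
    linarith
  have f4 := mul_le_mul_of_nonneg_right f3 hl0.le
  have f5 : v * (g * L) ≤ Real.exp (m * (2 * Real.log 2 - (s.h - s.S) + ε)) * l 0 * (g * L) := by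
    linarith
  exact le_of_mul_le_mul_right f5 (by positivity)

end Pool.Agent.TH41.BL.AS7f
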