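import Mathlib
import Pool.Agent.TH41.BL.Stm2

/-!
Project BL2, piece DB: the size of the transform of the kernel.
-/

set_option autoImplicit false

open MeasureTheory Filter Topology

namespace Pool.Agent.TH41.BL.DBAf

open Pool.Agent.TH41.BL

/-! ### Sizes of the sine and the cosine -/

lemma cos_sq (s : ℂ) : ‖Complex.cos s‖ ^ 2 = Real.cos s.re ^ 2 + Real.sinh s.im ^ 2 := by
  have h : Complex.cos s = ((Real.cos s.re * Real.cosh s.im : ℝ) : ℂ) +
      ((-(Real.sin s.re * Real.sinh s.im) : ℝ) : ℂ) * Complex.I := by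
    rw [Complex.cos_eq s]
    push_cast
    ring
  rw [h, Complex.sq_norm, Complex.normSq_add_mul_I]
  have h1 := Real.cosh_sq s.im
  have h2 := Real.sin_sq s.re
  have e : (Real.cos s.re * Real.cosh s.im) ^ 2 + (-(Real.sin s.re * Real.sinh s.im)) ^ 2 =
      Real.cos s.re ^ 2 * Real.cosh s.im ^ 2 + Real.sin s.re ^ 2 * Real.sinh s.im ^ 2 := by ring
  rw [e, h1, h2]
  ring

lemma sin_sq (s : ℂ) : ‖Complex.sin s‖ ^ 2 = Real.sin s.re ^ 2 + Real.sinh s.im ^ 2 := by
  have h : Complex.sin s = ((Real.sin s.re * Real.cosh s.im : ℝ) : ℂ) +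
      ((Real.cos s.re * Real.sinh s.im : ℝ) : ℂ) * Complex.I := by
    rw [Complex.sin_eq s]
    push_cast
    ring
  rw [h, Complex.sq_norm, Complex.normSq_add_mul_I]
  have h1 := Real.cosh_sq s.im
  have h2 := Real.cos_sq' s.re
  have e : (Real.sin s.re * Real.cosh s.im) ^ 2 + (Real.cos s.re * Real.sinh s.im) ^ 2 =
      Real.sin s.re ^ 2 * Real.cosh s.im ^ 2 + Real.cos s.re ^ 2 * Real.sinh s.im ^ 2 := by ring
  rw [e, h1, h2]
  ring

lemma sin_le_cos {s : ℂ} (h0 : 0 ≤ s.re) (h1 : s.re ≤ Real.pi / 4) :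
    ‖Complex.sin s‖ ≤ ‖Complex.cos s‖ := by
  refine le_of_sq_le_sq ?_ (norm_nonneg _)
  rw [cos_sq, sin_sq]
  have h2 : 0 ≤ Real.cos (2 * s.re) :=
    Real.cos_nonneg_of_mem_Icc ⟨by linarith [Real.pi_pos], by linarith⟩
  rw [Real.cos_two_mul] at h2
  have h3 := Real.sin_sq_add_cos_sq s.re
  linarith

/-- the size in terms of the cosine -/
lemma dsz_le (F : Fm) {n j : ℕ} (hj : j ≤ n) {s : ℂ} (h0 : 0 ≤ s.re) (h1 : s.re ≤ Real.pi / 4)
    {L : ℝ} (hL : √2 * ‖Complex.cos s‖ * Real.exp (Lam s).re * Real.exp (F.P s).re ≤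
      Real.exp L) : Dsz F n j s ≤ Real.exp (n * L) := by
  have e1 : AA s + BB s = 2 * Complex.cos s := by unfold AA BB; ring
  have e2 : AA s - BB s = 2 * Complex.sin s := by unfold AA BB; ring
  have h2 : (0 : ℝ) < √2 := by positivity
  have h22 : √2 * √2 = 2 := Real.mul_self_sqrt (by norm_num)
  have n1 : ‖(AA s + BB s) / (√2 : ℝ)‖ = √2 * ‖Complex.cos s‖ := by
    rw [e1, norm_div, norm_mul, Complex.norm_real, Real.norm_eq_abs, abs_of_pos h2]
    rw [div_eq_iff h2.ne']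
    have : ‖(2 : ℂ)‖ = 2 := by simp
    rw [this]
    calc 2 * ‖Complex.cos s‖ = (√2 * √2) * ‖Complex.cos s‖ := by rw [h22]
      _ = _ := by ring
  have n2 : ‖(AA s - BB s) / (√2 : ℝ)‖ ≤ √2 * ‖Complex.cos s‖ := by
    rw [e2, norm_div, norm_mul, Complex.norm_real, Real.norm_eq_abs, abs_of_pos h2]
    rw [div_le_iff₀ h2]
    have : ‖(2 : ℂ)‖ = 2 := by simp
    rw [this]
    calc 2 * ‖Complex.sin s‖ ≤ 2 * ‖Complex.cos s‖ := by
          have := sin_le_cos h0 h1
          linarith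
      _ = (√2 * √2) * ‖Complex.cos s‖ := by rw [h22]
      _ = _ := by ring
  have n3 : ‖Complex.exp (n * Lam s)‖ = Real.exp (Lam s).re ^ n := by
    rw [Complex.norm_exp, ← Real.exp_nat_mul]
    congr 1
    simp
  have n4 : ‖Complex.exp (n * F.P s)‖ = Real.exp (F.P s).re ^ n := by
    rw [Complex.norm_exp, ← Real.exp_nat_mul]
    congr 1
    simp
  unfold Dsz
  rw [norm_mul, norm_mul, norm_mul, norm_pow, norm_pow, n1, n3, n4]
  have hx : 0 ≤ √2 * ‖Complex.cos s‖ := by positivity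
  calc (√2 * ‖Complex.cos s‖) ^ (n - j) * ‖(AA s - BB s) / (√2 : ℝ)‖ ^ j *
        Real.exp (Lam s).re ^ n * Real.exp (F.P s).re ^ n ≤
      (√2 * ‖Complex.cos s‖) ^ (n - j) * (√2 * ‖Complex.cos s‖) ^ j *
        Real.exp (Lam s).re ^ n * Real.exp (F.P s).re ^ n := by gcongr
    _ = (√2 * ‖Complex.cos s‖ * Real.exp (Lam s).re * Real.exp (F.P s).re) ^ n := by
        rw [← pow_add, Nat.sub_add_cancel hj, ← mul_pow, ← mul_pow]
    _ ≤ Real.exp L ^ n := by gcongr
    _ = _ := by rw [← Real.exp_nat_mul]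

/-- horizontal shifts of `Lam` -/
lemma lam_shift (hl : S_lam) {C : ℝ} (h3 : ∀ s : ℂ, -(Real.pi / 10) ≤ s.re →
    s.re ≤ 7 * Real.pi / 20 → ‖Lz s‖ ≤ C) {c : ℝ} (hc : 0 ≤ c) (hc' : c ≤ Real.pi / 16) (t : ℝ) :
    (Lam (c + t * Complex.I)).re ≤ -(1 / 2) * Real.log (Real.cosh (2 * t)) + C * c := by
  have hpi := Real.pi_pos
  have h1 := Convex.norm_image_sub_le_of_norm_hasDerivWithin_le (f := Lam) (f' := Lz) (C := C)
    (s := {z : ℂ | 0 ≤ z.re} ∩ {z : ℂ | z.re ≤ Real.pi / 16})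
    (x := (t : ℂ) * Complex.I) (y := (c : ℂ) + (t : ℂ) * Complex.I)
    (fun z hz => (hl.1 z (by
      have : 0 ≤ z.re := hz.1
      linarith) (by
      have : z.re ≤ Real.pi / 16 := hz.2
      linarith)).hasDerivWithinAt)
    (fun z hz => h3 z (by
      have : 0 ≤ z.re := hz.1
      linarith) (by
      have : z.re ≤ Real.pi / 16 := hz.2
      linarith))
    ((convex_halfSpace_re_ge 0).inter (convex_halfSpace_re_le _))
    (by constructor <;> simp; positivity) (by
      constructor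
      · show 0 ≤ ((c : ℂ) + (t : ℂ) * Complex.I).re
        simpa using hc
      · show ((c : ℂ) + (t : ℂ) * Complex.I).re ≤ Real.pi / 16
        simpa using hc')
  have e1 : (c : ℂ) + (t : ℂ) * Complex.I - (t : ℂ) * Complex.I = (c : ℂ) := by ring
  rw [e1, Complex.norm_real, Real.norm_eq_abs, abs_of_nonneg hc] at h1
  have h2 := (Complex.re_le_norm _).trans h1
  rw [Complex.sub_re, hl.2.2.2.2 t] at h2
  linarith

lemma le_exp_of_sq {x y : ℝ} (h : x ^ 2 ≤ Real.exp (2 * y)) : x ≤ Real.exp y := by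
  refine le_of_sq_le_sq ?_ (Real.exp_pos y).le
  rw [← Real.exp_nat_mul]
  exact_mod_cast h

/-- the line near the imaginary axis -/
lemma base_a (hl : S_lam) {C : ℝ} (h3 : ∀ s : ℂ, -(Real.pi / 10) ≤ s.re →
    s.re ≤ 7 * Real.pi / 20 → ‖Lz s‖ ≤ C) {c : ℝ} (hc : 0 ≤ c) (hc' : c ≤ Real.pi / 16) (t : ℝ) :
    √2 * ‖Complex.cos (c + t * Complex.I)‖ * Real.exp (Lam (c + t * Complex.I)).re ≤
      Real.exp (1 / 2 * Real.log (1 + 1 / Real.cosh (2 * t)) + C * c) := by
  have hch : 0 < Real.cosh (2 * t) := Real.cosh_pos _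
  have h1 : √2 * ‖Complex.cos (c + t * Complex.I)‖ ≤
      Real.exp (1 / 2 * Real.log (1 + 1 / Real.cosh (2 * t)) +
        1 / 2 * Real.log (Real.cosh (2 * t))) := by
    apply le_exp_of_sq
    have e1 : 2 * (1 / 2 * Real.log (1 + 1 / Real.cosh (2 * t)) +
        1 / 2 * Real.log (Real.cosh (2 * t))) =
        Real.log (1 + 1 / Real.cosh (2 * t)) + Real.log (Real.cosh (2 * t)) := by ring
    rw [e1, Real.exp_add, Real.exp_log (by positivity), Real.exp_log hch, mul_pow, cos_sq,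
      Real.sq_sqrt (by norm_num)]
    have e2 : ((c : ℂ) + (t : ℂ) * Complex.I).im = t := by simp
    have e3 : ((c : ℂ) + (t : ℂ) * Complex.I).re = c := by simp
    rw [e2, e3, add_mul, one_div_mul_cancel hch.ne', one_mul, Real.cosh_two_mul]
    have h4 := Real.cosh_sq t
    have h5 := Real.cos_sq_le_one c
    linarith
  have h2 : Real.exp (Lam (c + t * Complex.I)).re ≤
      Real.exp (-(1 / 2) * Real.log (Real.cosh (2 * t)) + C * c) :=
    Real.exp_le_exp.2 (lam_shift hl h3 hc hc' t)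
  calc _ ≤ Real.exp (1 / 2 * Real.log (1 + 1 / Real.cosh (2 * t)) +
        1 / 2 * Real.log (Real.cosh (2 * t))) *
        Real.exp (-(1 / 2) * Real.log (Real.cosh (2 * t)) + C * c) := by gcongr
    _ = _ := by rw [← Real.exp_add]; congr 1; ring

/-- the line near `Re s = π / 4` -/
lemma base_b (hl : S_lam) {C : ℝ} (h3 : ∀ s : ℂ, -(Real.pi / 10) ≤ s.re →
    s.re ≤ 7 * Real.pi / 20 → ‖Lz s‖ ≤ C) {c : ℝ} (hc : 0 ≤ c) (hc' : c ≤ Real.pi / 16) (t : ℝ) :
    √2 * ‖Complex.cos ((Real.pi / 4 - c : ℝ) + t * Complex.I)‖ *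
      Real.exp (Lam ((Real.pi / 4 - c : ℝ) + t * Complex.I)).re ≤
      Real.exp ((C + 1) * c) := by
  have hpi := Real.pi_pos
  have hch : 1 ≤ Real.cosh (2 * t) := Real.one_le_cosh _
  have hch0 : 0 < Real.cosh (2 * t) := Real.cosh_pos _
  have h1 : √2 * ‖Complex.cos ((Real.pi / 4 - c : ℝ) + t * Complex.I)‖ ≤
      Real.exp (1 / 2 * Real.log (Real.cosh (2 * t)) + c) := by
    apply le_exp_of_sq
    have e1 : 2 * (1 / 2 * Real.log (Real.cosh (2 * t)) + c) =
        Real.log (Real.cosh (2 * t)) + 2 * c := by ring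
    rw [e1, Real.exp_add, Real.exp_log hch0, mul_pow, cos_sq, Real.sq_sqrt (by norm_num)]
    have e2 : (((Real.pi / 4 - c : ℝ) : ℂ) + (t : ℂ) * Complex.I).im = t := by simp
    have e3 : (((Real.pi / 4 - c : ℝ) : ℂ) + (t : ℂ) * Complex.I).re = Real.pi / 4 - c := by simp
    rw [e2, e3]
    have h4 : Real.cos (2 * (Real.pi / 4 - c)) = Real.sin (2 * c) := by
      rw [show 2 * (Real.pi / 4 - c) = Real.pi / 2 - 2 * c by ring, Real.cos_pi_div_two_sub]
    rw [Real.cos_two_mul] at h4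
    have h5 : Real.sin (2 * c) ≤ 2 * c := Real.sin_le (by linarith)
    have h6 : Real.cosh (2 * t) = 1 + 2 * Real.sinh t ^ 2 := by
      rw [Real.cosh_two_mul, Real.cosh_sq]; ring
    have h7 : 1 + 2 * c ≤ Real.exp (2 * c) := by
      have := Real.add_one_le_exp (2 * c)
      linarith
    have h8 : 2 * c ≤ 2 * c * Real.cosh (2 * t) := le_mul_of_one_le_right (by linarith) hch
    calc 2 * (Real.cos (Real.pi / 4 - c) ^ 2 + Real.sinh t ^ 2) =
        Real.sin (2 * c) + Real.cosh (2 * t) := by rw [h6]; linarith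
      _ ≤ Real.cosh (2 * t) * (1 + 2 * c) := by linarith
      _ ≤ _ := by gcongr
  have e4 : Lam ((Real.pi / 4 - c : ℝ) + t * Complex.I) = Lam (c + (-t : ℝ) * Complex.I) := by
    have h5 := hl.2.2.2.1 ((c : ℂ) + ((-t : ℝ) : ℂ) * Complex.I) (by
      have : ((c : ℂ) + ((-t : ℝ) : ℂ) * Complex.I).re = c := by simp
      rw [this]; linarith) (by
      have : ((c : ℂ) + ((-t : ℝ) : ℂ) * Complex.I).re = c := by simp
      rw [this]; linarith)
    rw [← h5]
    congr 1
    push_cast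
    ring
  have h2 := lam_shift hl h3 hc hc' (-t)
  rw [← e4, mul_neg, Real.cosh_neg] at h2
  have h2' : Real.exp (Lam ((Real.pi / 4 - c : ℝ) + t * Complex.I)).re ≤
      Real.exp (-(1 / 2) * Real.log (Real.cosh (2 * t)) + C * c) := Real.exp_le_exp.2 h2
  calc _ ≤ Real.exp (1 / 2 * Real.log (Real.cosh (2 * t)) + c) *
        Real.exp (-(1 / 2) * Real.log (Real.cosh (2 * t)) + C * c) := by gcongr
    _ = _ := by rw [← Real.exp_add]; congr 1; ring

/-- the additional factor, one term -/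
lemma rr_small (hr : S_rr) {ai ϑ t c : ℝ} (ha : 0 ≤ ai) (ha1 : ai < 1) (hϑ : 0 < ϑ)
    (hϑ1 : ϑ ≤ 1) (hlt : ai * Real.cosh (2 * t) ≤ 1 - ϑ) (hc : 0 ≤ c)
    (hc' : c ≤ Real.pi / 16) :
    (rr ai (c + t * Complex.I)).re ≤ 2 / ϑ * c := by
  have hpi := Real.pi_pos
  have hre : ∀ z : ℂ, z ∈ ({z : ℂ | 0 ≤ z.re} ∩ {z : ℂ | z.re ≤ Real.pi / 16}) ∩
      {z : ℂ | z.im = t} → 0 ≤ z.re ∧ z.re ≤ Real.pi / 16 ∧ z.im = t := fun z hz =>
    ⟨hz.1.1, hz.1.2, hz.2⟩
  have hconv : Convex ℝ (({z : ℂ | 0 ≤ z.re} ∩ {z : ℂ | z.re ≤ Real.pi / 16}) ∩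
      {z : ℂ | z.im = t}) := by
    refine ((convex_halfSpace_re_ge 0).inter (convex_halfSpace_re_le _)).inter ?_
    have : {z : ℂ | z.im = t} = {z : ℂ | z.im ≤ t} ∩ {z : ℂ | t ≤ z.im} := by
      ext z
      exact ⟨fun h => ⟨le_of_eq h, ge_of_eq h⟩, fun h => le_antisymm h.1 h.2⟩
    rw [this]
    exact (convex_halfSpace_im_le t).inter (convex_halfSpace_im_ge t)
  have hbound : ∀ z : ℂ, z.im = t → ‖rd ai z‖ ≤ 2 / ϑ := by
    intro z hz
    have hs0 : 0 ≤ √(1 - ai ^ 2) := Real.sqrt_nonneg _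
    have hs1 : √(1 - ai ^ 2) ≤ 1 := by
      refine Real.sqrt_le_iff.2 ⟨zero_le_one, ?_⟩
      nlinarith [sq_nonneg ai]
    have hcos : ‖Complex.cos (2 * z)‖ ≤ Real.cosh (2 * t) := by
      refine le_of_sq_le_sq ?_ (Real.cosh_pos _).le
      rw [cos_sq, Real.cosh_sq]
      have : (2 * z).im = 2 * t := by simp [hz]
      rw [this]
      have := Real.cos_sq_le_one (2 * z).re
      linarith
    have h1 : ‖(ai : ℂ) ^ 2 * Complex.cos (2 * z) ^ 2‖ ≤ (1 - ϑ) ^ 2 := by
      rw [norm_mul, norm_pow, norm_pow, Complex.norm_real, Real.norm_eq_abs, abs_of_nonneg ha,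
        ← mul_pow]
      refine pow_le_pow_left₀ (by positivity) ?_ 2
      calc ai * ‖Complex.cos (2 * z)‖ ≤ ai * Real.cosh (2 * t) := by gcongr
        _ ≤ _ := hlt
    have h2 : ϑ ≤ ‖1 - (ai : ℂ) ^ 2 * Complex.cos (2 * z) ^ 2‖ := by
      have h4 := norm_sub_norm_le (1 : ℂ) ((ai : ℂ) ^ 2 * Complex.cos (2 * z) ^ 2)
      rw [norm_one] at h4
      nlinarith
    unfold rd
    rw [norm_div, norm_mul, Complex.norm_real, Real.norm_eq_abs, abs_of_nonneg hs0]
    have h5 : ‖(2 : ℂ)‖ = 2 := by simp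
    rw [h5]
    refine div_le_div₀ (by norm_num) (by linarith) hϑ h2
  have h1 := Convex.norm_image_sub_le_of_norm_hasDerivWithin_le (f := rr ai) (f' := rd ai)
    (C := 2 / ϑ)
    (s := ({z : ℂ | 0 ≤ z.re} ∩ {z : ℂ | z.re ≤ Real.pi / 16}) ∩ {z : ℂ | z.im = t})
    (x := (t : ℂ) * Complex.I) (y := (c : ℂ) + (t : ℂ) * Complex.I)
    (fun z hz => by
      obtain ⟨k1, k2, k3⟩ := hre z hz
      refine (hr.1 ai z ha ha1 (by linarith) (by linarith) (Or.inr ?_)).hasDerivWithinAt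
      rw [k3]; linarith)
    (fun z hz => hbound z (hre z hz).2.2) hconv
    (by
      refine ⟨⟨?_, ?_⟩, ?_⟩
      · show 0 ≤ ((t : ℂ) * Complex.I).re
        simp
      · show ((t : ℂ) * Complex.I).re ≤ Real.pi / 16
        have : ((t : ℂ) * Complex.I).re = 0 := by simp
        rw [this]; positivity
      · show ((t : ℂ) * Complex.I).im = t
        simp)
    (by
      refine ⟨⟨?_, ?_⟩, ?_⟩
      · show 0 ≤ ((c : ℂ) + (t : ℂ) * Complex.I).re
        simpa using hc
      · show ((c : ℂ) + (t : ℂ) * Complex.I).re ≤ Real.pi / 16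
        simpa using hc'
      · show ((c : ℂ) + (t : ℂ) * Complex.I).im = t
        simp)
  have e1 : (c : ℂ) + (t : ℂ) * Complex.I - (t : ℂ) * Complex.I = (c : ℂ) := by ring
  rw [e1, Complex.norm_real, Real.norm_eq_abs, abs_of_nonneg hc] at h1
  have h2 := (Complex.re_le_norm _).trans h1
  rw [Complex.sub_re, hr.2.2.1 ai t ha (by linarith), sub_zero] at h2
  exact h2

lemma P_re (F : Fm) (s : ℂ) : (F.P s).re = ∑ i, F.c i * (rr (F.a i) s).re := by
  unfold Fm.P
  rw [Complex.re_sum]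
  exact Finset.sum_congr rfl fun i _ => Complex.re_ofReal_mul _ _

/-- the size of the transform of the kernel -/
theorem db (hl : S_lam) (h3 : S_lz3) (hr : S_rr) : S_db := by
  intro F a0 ε ha0 ha1 hε hadm
  obtain ⟨C, hC, hLz⟩ := h3
  obtain ⟨ϑ', hϑ', h3'⟩ := hadm.h3
  have hpi := Real.pi_pos
  -- we may assume `ϑ ≤ 1`
  set ϑ : ℝ := min ϑ' 1 with hϑdef
  have hϑ : 0 < ϑ := lt_min hϑ' one_pos
  have hϑ1 : ϑ ≤ 1 := min_le_right _ _
  have hϑle : ϑ ≤ ϑ' := min_le_left _ _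
  set Sc : ℝ := ∑ i, F.c i with hSc
  have hSc0 : 0 ≤ Sc := Finset.sum_nonneg fun i _ => F.c_nn i
  set D : ℝ := C + 1 + 2 / ϑ * Sc with hD
  have hD0 : 0 < D := by
    have : 0 ≤ 2 / ϑ * Sc := by positivity
    rw [hD]; linarith
  refine ⟨min (Real.pi / 16) (ε / D), lt_min (by positivity) (by positivity), min_le_left _ _, ?_⟩
  intro c hc0 hc1 n j t hj
  have hc16 : c ≤ Real.pi / 16 := hc1.trans (min_le_left _ _)
  have hcD : D * c ≤ ε := by
    have := hc1.trans (min_le_right _ _)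
    rw [le_div_iff₀ hD0] at this
    linarith
  have hDparts : (C + 1) * c + 2 / ϑ * Sc * c ≤ ε := by
    have : D * c = (C + 1) * c + 2 / ϑ * Sc * c := by rw [hD]; ring
    linarith
  have hCc : 0 ≤ C * c := by positivity
  have hSS : 0 ≤ 2 / ϑ * Sc * c := by positivity
  constructor
  · intro hat
    set a : ℝ := 1 / Real.cosh (2 * t) with hadef
    have hch : 0 < Real.cosh (2 * t) := Real.cosh_pos _
    have hch1 : 1 ≤ Real.cosh (2 * t) := Real.one_le_cosh _
    have ha_pos : 0 < a := by positivity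
    have hacosh : a * Real.cosh (2 * t) = 1 := by rw [hadef]; field_simp
    apply dsz_le F hj (s := (c : ℂ) + (t : ℂ) * Complex.I)
    · simpa using hc0.le
    · have : ((c : ℂ) + (t : ℂ) * Complex.I).re = c := by simp
      rw [this]; linarith
    have hb := base_a hl hLz hc0.le hc16 t
    have hP : (F.P (c + t * Complex.I)).re ≤
        Real.pi / 2 * ∑ i ∈ Finset.univ.filter (fun i => a - ϑ' ≤ F.a i), F.c i +
          2 / ϑ * Sc * c := by
      rw [P_re, Finset.mul_sum, hSc, Finset.mul_sum, Finset.sum_mul, Finset.sum_filter,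
        ← Finset.sum_add_distrib]
      refine Finset.sum_le_sum fun i _ => ?_
      have hci := F.c_nn i
      have hpos : 0 ≤ 2 / ϑ * F.c i * c := by positivity
      split_ifs with hcase
      · have h5 := (le_abs_self _).trans (hr.2.1 (F.a i) ((c : ℂ) + (t : ℂ) * Complex.I))
        calc F.c i * (rr (F.a i) (c + t * Complex.I)).re ≤ F.c i * (Real.pi / 2) := by gcongr
          _ = Real.pi / 2 * F.c i := by ring
          _ ≤ _ := by linarith
      · have hlt : F.a i * Real.cosh (2 * t) ≤ 1 - ϑ := by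
          have h6 : F.a i ≤ a - ϑ := by
            push Not at hcase
            linarith
          calc F.a i * Real.cosh (2 * t) ≤ (a - ϑ) * Real.cosh (2 * t) := by gcongr
            _ = 1 - ϑ * Real.cosh (2 * t) := by rw [sub_mul, hacosh]
            _ ≤ 1 - ϑ := by
                have : ϑ ≤ ϑ * Real.cosh (2 * t) := le_mul_of_one_le_right hϑ.le hch1
                linarith
        have h5 := rr_small hr (F.a_nn i) (F.a_lt i) hϑ hϑ1 hlt hc0.le hc16
        calc F.c i * (rr (F.a i) (c + t * Complex.I)).re ≤ F.c i * (2 / ϑ * c) := by gcongr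
          _ = 0 + 2 / ϑ * F.c i * c := by ring
    have h7 := h3' a ha_pos.le hat
    calc √2 * ‖Complex.cos (c + t * Complex.I)‖ * Real.exp (Lam (c + t * Complex.I)).re *
          Real.exp (F.P (c + t * Complex.I)).re ≤
        Real.exp (1 / 2 * Real.log (1 + a) + C * c) *
          Real.exp (F.P (c + t * Complex.I)).re := by gcongr
      _ = Real.exp (1 / 2 * Real.log (1 + a) + C * c + (F.P (c + t * Complex.I)).re) := by
          rw [← Real.exp_add]
      _ ≤ Real.exp (mu a0 + 3 * ε) := by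
          apply Real.exp_le_exp.2
          linarith
  · apply dsz_le F hj (s := ((Real.pi / 4 - c : ℝ) : ℂ) + (t : ℂ) * Complex.I)
    · have : (((Real.pi / 4 - c : ℝ) : ℂ) + (t : ℂ) * Complex.I).re = Real.pi / 4 - c := by simp
      rw [this]; linarith
    · have : (((Real.pi / 4 - c : ℝ) : ℂ) + (t : ℂ) * Complex.I).re = Real.pi / 4 - c := by simp
      rw [this]; linarith
    have hb := base_b hl hLz hc0.le hc16 t
    have hP : (F.P ((Real.pi / 4 - c : ℝ) + t * Complex.I)).re ≤ Real.pi / 2 * Sc := by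
      rw [P_re, hSc, Finset.mul_sum]
      refine Finset.sum_le_sum fun i _ => ?_
      have hci := F.c_nn i
      have h5 := (le_abs_self _).trans
        (hr.2.1 (F.a i) (((Real.pi / 4 - c : ℝ) : ℂ) + (t : ℂ) * Complex.I))
      calc F.c i * (rr (F.a i) ((Real.pi / 4 - c : ℝ) + t * Complex.I)).re ≤
          F.c i * (Real.pi / 2) := by gcongr
        _ = Real.pi / 2 * F.c i := by ring
    have h7 := hadm.h2
    calc √2 * ‖Complex.cos ((Real.pi / 4 - c : ℝ) + t * Complex.I)‖ *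
          Real.exp (Lam ((Real.pi / 4 - c : ℝ) + t * Complex.I)).re *
          Real.exp (F.P ((Real.pi / 4 - c : ℝ) + t * Complex.I)).re ≤
        Real.exp ((C + 1) * c) * Real.exp (F.P ((Real.pi / 4 - c : ℝ) + t * Complex.I)).re := by
          gcongr
      _ = Real.exp ((C + 1) * c + (F.P ((Real.pi / 4 - c : ℝ) + t * Complex.I)).re) := by
          rw [← Real.exp_add]
      _ ≤ Real.exp (mu a0 + 3 * ε) := by
          apply Real.exp_le_exp.2
          linarith

end Pool.Agent.TH41.BL.DBAf
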