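import Mathlib
import Pool.Agent.TH41.BL.Stm2

/-!
Project BL2, piece DISC: admissible families.
-/

set_option autoImplicit false

open MeasureTheory Filter Topology

namespace Pool.Agent.TH41.BL.DISf

open Pool.Agent.TH41.BL

/-- the antiderivative -/
noncomputable def gg (t : ℝ) : ℝ := -(√(1 - t ^ 2) / (1 + t))

lemma gg_deriv (t : ℝ) (h0 : 0 ≤ t) (h1 : t < 1) :
    HasDerivAt gg (1 / ((1 + t) * √(1 - t ^ 2))) t := by
  have hpos : 0 < 1 - t ^ 2 := by nlinarith
  have hs : 0 < √(1 - t ^ 2) := Real.sqrt_pos.mpr hpos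
  have hsq : √(1 - t ^ 2) ^ 2 = 1 - t ^ 2 := Real.sq_sqrt hpos.le
  have h2 : HasDerivAt (fun x : ℝ => 1 - x ^ 2) (-(2 * t)) t := by
    have := (hasDerivAt_pow 2 t).const_sub 1
    simpa using this
  have h3 := h2.sqrt hpos.ne'
  have h4 : HasDerivAt (fun x : ℝ => 1 + x) 1 t := by
    simpa using (hasDerivAt_id t).const_add 1
  have ht : (1 + t) ≠ 0 := by linarith
  have h5 := (h3.div h4 ht).neg
  have h6 : HasDerivAt gg _ t := h5
  refine h6.congr_deriv ?_
  have hs' : √(1 - t ^ 2) ≠ 0 := hs.ne'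
  field_simp
  rw [hsq]
  ring

lemma gg_le (x y : ℝ) (h0 : 0 ≤ x) (hxy : x ≤ y) (h1 : y < 1) :
    gg y - gg x ≤ (Real.log (1 + y) - Real.log (1 + x)) / √(1 - y ^ 2) := by
  have hy2 : 0 < 1 - y ^ 2 := by nlinarith
  have hsy : 0 < √(1 - y ^ 2) := Real.sqrt_pos.mpr hy2
  set D : ℝ → ℝ := fun t => Real.log (1 + t) / √(1 - y ^ 2) - gg t with hD
  have hd : ∀ t ∈ Set.Icc x y, HasDerivAt D
      (1 / (1 + t) / √(1 - y ^ 2) - 1 / ((1 + t) * √(1 - t ^ 2))) t := by
    intro t ht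
    have ht0 : 0 ≤ t := h0.trans ht.1
    have ht1 : t < 1 := lt_of_le_of_lt ht.2 h1
    have h4 : HasDerivAt (fun x : ℝ => 1 + x) 1 t := by
      simpa using (hasDerivAt_id t).const_add 1
    have h5 : HasDerivAt (fun x : ℝ => Real.log (1 + x)) (1 / (1 + t)) t :=
      h4.log (by linarith)
    exact (h5.div_const _).sub (gg_deriv t ht0 ht1)
  have hmono : MonotoneOn D (Set.Icc x y) := by
    refine monotoneOn_of_deriv_nonneg (convex_Icc x y)
      (fun t ht => (hd t ht).continuousAt.continuousWithinAt) ?_ ?_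
    · intro t ht
      rw [interior_Icc] at ht
      exact (hd t ⟨ht.1.le, ht.2.le⟩).differentiableAt.differentiableWithinAt
    · intro t ht
      rw [interior_Icc] at ht
      rw [(hd t ⟨ht.1.le, ht.2.le⟩).deriv]
      have ht0 : 0 ≤ t := h0.trans ht.1.le
      have ht1 : t < 1 := lt_trans ht.2 h1
      have hp : 0 < 1 + t := by linarith
      have hle : √(1 - y ^ 2) ≤ √(1 - t ^ 2) := by
        apply Real.sqrt_le_sqrt
        nlinarith [ht.2]
      have h6 : 1 / ((1 + t) * √(1 - t ^ 2)) ≤ 1 / ((1 + t) * √(1 - y ^ 2)) := by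
        apply one_div_le_one_div_of_le
        · positivity
        · exact mul_le_mul_of_nonneg_left hle hp.le
      have h7 : 1 / (1 + t) / √(1 - y ^ 2) = 1 / ((1 + t) * √(1 - y ^ 2)) := by
        rw [div_div]
      rw [h7]
      linarith
  have h8 := hmono (Set.left_mem_Icc.mpr hxy) (Set.right_mem_Icc.mpr hxy) hxy
  simp only [hD] at h8
  rw [sub_div]
  linarith

/-- the nodes -/
noncomputable def nd (a0 : ℝ) (m k : ℕ) : ℝ := a0 * k / m

lemma nd_zero (a0 : ℝ) (m : ℕ) : nd a0 m 0 = 0 := by simp [nd]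

lemma nd_last (a0 : ℝ) (m : ℕ) (hm : 0 < m) : nd a0 m m = a0 := by
  have : (m : ℝ) ≠ 0 := by positivity
  unfold nd
  field_simp

lemma nd_succ (a0 : ℝ) (m k : ℕ) : nd a0 m (k + 1) = nd a0 m k + a0 / m := by
  unfold nd
  push_cast
  ring

lemma nd_nn (a0 : ℝ) (h : 0 ≤ a0) (m k : ℕ) : 0 ≤ nd a0 m k := by
  unfold nd
  positivity

lemma nd_mono (a0 : ℝ) (h : 0 ≤ a0) (m : ℕ) {k l : ℕ} (hkl : k ≤ l) :
    nd a0 m k ≤ nd a0 m l := by
  unfold nd
  have : (k : ℝ) ≤ l := by exact_mod_cast hkl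
  gcongr

lemma nd_le (a0 : ℝ) (h : 0 ≤ a0) (m k : ℕ) (hm : 0 < m) (hk : k ≤ m) : nd a0 m k ≤ a0 := by
  calc nd a0 m k ≤ nd a0 m m := nd_mono a0 h m hk
    _ = a0 := nd_last a0 m hm

lemma nd_lt (a0 : ℝ) (h : 0 < a0) (m k : ℕ) (hm : 0 < m) (hk : k < m) : nd a0 m k < a0 := by
  have h1 : nd a0 m (k + 1) ≤ a0 := nd_le a0 h.le m (k + 1) hm hk
  rw [nd_succ] at h1
  have : 0 < a0 / m := by positivity
  linarith

/-- the increments of the logarithm -/
noncomputable def li (a0 : ℝ) (m k : ℕ) : ℝ :=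
  Real.log (1 + nd a0 m (k + 1)) - Real.log (1 + nd a0 m k)

lemma li_nn (a0 : ℝ) (h : 0 ≤ a0) (m k : ℕ) : 0 ≤ li a0 m k := by
  unfold li
  have h1 := nd_nn a0 h m k
  have h2 := nd_mono a0 h m (Nat.le_succ k)
  have := Real.log_le_log (by linarith : 0 < 1 + nd a0 m k)
    (by linarith [h2] : 1 + nd a0 m k ≤ 1 + nd a0 m (k + 1))
  linarith

lemma log_sub_le (x y : ℝ) (hx : 0 ≤ x) (hxy : x ≤ y) :
    Real.log (1 + y) - Real.log (1 + x) ≤ y - x := by
  have h1 : 0 < 1 + x := by linarith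
  have h2 : 0 < 1 + y := by linarith
  rw [← Real.log_div h2.ne' h1.ne']
  have h3 := Real.log_le_sub_one_of_pos (div_pos h2 h1)
  have h4 : (1 + y) / (1 + x) - 1 ≤ y - x := by
    rw [div_sub_one h1.ne', div_le_iff₀ h1]
    nlinarith
  linarith

lemma li_le (a0 : ℝ) (h : 0 ≤ a0) (m k : ℕ) : li a0 m k ≤ a0 / m := by
  unfold li
  have h1 := nd_nn a0 h m k
  have h2 := nd_mono a0 h m (Nat.le_succ k)
  have h3 := log_sub_le (nd a0 m k) (nd a0 m (k + 1)) h1 h2
  rw [nd_succ] at h3 ⊢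
  linarith

/-- the family -/
noncomputable def fam (a0 : ℝ) (h0 : 0 < a0) (h1 : a0 < 1) (m : ℕ) (hm : 0 < m) : Fm where
  ι := Fin m
  inst := inferInstance
  c := fun i => li a0 m i / Real.pi
  a := fun i => nd a0 m i
  c_nn := fun i => div_nonneg (li_nn a0 h0.le m i) Real.pi_pos.le
  a_nn := fun i => nd_nn a0 h0.le m i
  a_lt := fun i => lt_trans (nd_lt a0 h0 m i hm i.isLt) h1

lemma sum_c (a0 : ℝ) (h0 : 0 < a0) (h1 : a0 < 1) (m : ℕ) (hm : 0 < m) :
    Real.pi / 2 * ∑ i, (fam a0 h0 h1 m hm).c i ≤ mu a0 := by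
  have h2 : ∑ i, (fam a0 h0 h1 m hm).c i = (∑ k ∈ Finset.range m, li a0 m k) / Real.pi := by
    rw [← Fin.sum_univ_eq_sum_range, Finset.sum_div]
    rfl
  have h3 : ∑ k ∈ Finset.range m, li a0 m k = Real.log (1 + a0) := by
    unfold li
    rw [Finset.sum_range_sub (fun k => Real.log (1 + nd a0 m k)), nd_last a0 m hm, nd_zero]
    simp
  rw [h2, h3]
  have hp : Real.pi ≠ 0 := Real.pi_ne_zero
  unfold mu
  apply le_of_eq
  field_simp

lemma adm (a0 ε : ℝ) (h0 : 0 < a0) (h1 : a0 < 1) (hε : 0 < ε) (m : ℕ) (hm : 0 < m) :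
    Adm (fam a0 h0 h1 m hm) a0 ε := by
  refine ⟨fun (i : Fin m) => nd_lt a0 h0 m i hm i.isLt, sum_c a0 h0 h1 m hm, ε, hε, ?_⟩
  intro a ha0 haa
  set b : ℝ := max (a - ε) 0 with hb
  have hb0 : 0 ≤ b := le_max_right _ _
  have hba : b ≤ a := max_le (by linarith) ha0
  have hbε : a - b ≤ ε := by
    have := le_max_left (a - ε) 0
    linarith
  set M : ℕ → ℝ := fun k => max (Real.log (1 + nd a0 m k)) (Real.log (1 + b)) with hM
  have hMm : ∀ k, M k ≤ M (k + 1) := by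
    intro k
    refine max_le_max ?_ le_rfl
    have := li_nn a0 h0.le m k
    unfold li at this
    linarith
  have hterm : ∀ i : Fin m, (if a - ε ≤ nd a0 m i then li a0 m i / Real.pi else 0) ≤
      (M (i + 1) - M i) / Real.pi := by
    intro i
    split_ifs with hi
    · have hbi : b ≤ nd a0 m i := max_le hi (nd_nn a0 h0.le m i)
      have hbi' : b ≤ nd a0 m ((i : ℕ) + 1) := hbi.trans (nd_mono a0 h0.le m (Nat.le_succ _))
      have e1 : M i = Real.log (1 + nd a0 m i) := by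
        refine max_eq_left (Real.log_le_log (by linarith) (by linarith))
      have e2 : M ((i : ℕ) + 1) = Real.log (1 + nd a0 m ((i : ℕ) + 1)) := by
        refine max_eq_left (Real.log_le_log (by linarith) (by linarith))
      rw [e1, e2]
      exact le_rfl
    · exact div_nonneg (by linarith [hMm i]) Real.pi_pos.le
  have hsum : ∑ i ∈ Finset.univ.filter (fun i => a - ε ≤ (fam a0 h0 h1 m hm).a i),
      (fam a0 h0 h1 m hm).c i ≤ (M m - M 0) / Real.pi := by
    rw [Finset.sum_filter]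
    have h3 : ∑ i : Fin m, (M ((i : ℕ) + 1) - M i) / Real.pi = (M m - M 0) / Real.pi := by
      rw [← Finset.sum_div, Fin.sum_univ_eq_sum_range (fun k => M (k + 1) - M k),
        Finset.sum_range_sub]
    rw [← h3]
    exact Finset.sum_le_sum fun i _ => hterm i
  have hMm' : M m = Real.log (1 + a0) := by
    simp only [hM, nd_last a0 m hm]
    exact max_eq_left (Real.log_le_log (by linarith) (by linarith))
  have hM0 : M 0 = Real.log (1 + b) := by
    simp only [hM, nd_zero]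
    refine max_eq_right (Real.log_le_log (by norm_num) (by linarith))
  rw [hMm', hM0] at hsum
  have h5 : Real.pi / 2 * ∑ i ∈ Finset.univ.filter (fun i => a - ε ≤ (fam a0 h0 h1 m hm).a i),
      (fam a0 h0 h1 m hm).c i ≤ (Real.log (1 + a0) - Real.log (1 + b)) / 2 := by
    calc Real.pi / 2 * ∑ i ∈ Finset.univ.filter (fun i => a - ε ≤ (fam a0 h0 h1 m hm).a i),
          (fam a0 h0 h1 m hm).c i
        ≤ Real.pi / 2 * ((Real.log (1 + a0) - Real.log (1 + b)) / Real.pi) :=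
          mul_le_mul_of_nonneg_left hsum (by positivity)
      _ = (Real.log (1 + a0) - Real.log (1 + b)) / 2 := by
          have hp : Real.pi ≠ 0 := Real.pi_ne_zero
          field_simp
  have h6 := log_sub_le b a hb0 hba
  unfold mu
  linarith

lemma S_ge (a0 : ℝ) (h0 : 0 < a0) (h1 : a0 < 1) (m : ℕ) (hm : 0 < m) :
    2 / Real.pi * (1 - √((1 - a0) / (1 + a0))) - 2 / Real.pi * (a0 / m / √(1 - a0 ^ 2)) ≤
      (fam a0 h0 h1 m hm).S := by
  have hS : (fam a0 h0 h1 m hm).S =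
      2 / Real.pi * ∑ k ∈ Finset.range m, li a0 m k / √(1 - nd a0 m k ^ 2) := by
    rw [← Fin.sum_univ_eq_sum_range (fun k => li a0 m k / √(1 - nd a0 m k ^ 2)),
      Finset.mul_sum]
    change ∑ i : Fin m, 2 * (li a0 m i / Real.pi) / √(1 - nd a0 m i ^ 2) = _
    refine Finset.sum_congr rfl fun i _ => ?_
    ring
  have hq : √((1 - a0) / (1 + a0)) = √(1 - a0 ^ 2) / (1 + a0) := by
    have hp : 0 < 1 + a0 := by linarith
    have e : (1 - a0) / (1 + a0) = (1 - a0 ^ 2) / (1 + a0) ^ 2 := by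
      field_simp
      ring
    rw [e, Real.sqrt_div (by nlinarith), Real.sqrt_sq hp.le]
  have hg : ∑ k ∈ Finset.range m, (gg (nd a0 m (k + 1)) - gg (nd a0 m k)) =
      1 - √((1 - a0) / (1 + a0)) := by
    rw [Finset.sum_range_sub (fun k => gg (nd a0 m k)), nd_last a0 m hm, nd_zero, hq]
    simp [gg]
    ring
  set v : ℕ → ℝ := fun k => 1 / √(1 - nd a0 m k ^ 2) with hv
  have hpos : ∀ k, k ≤ m → 0 < 1 - nd a0 m k ^ 2 := by
    intro k hk
    have e1 := nd_nn a0 h0.le m k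
    have e2 := nd_le a0 h0.le m k hm hk
    nlinarith
  have hvm : ∀ k, k < m → v k ≤ v (k + 1) := by
    intro k hk
    simp only [hv]
    apply one_div_le_one_div_of_le (Real.sqrt_pos.mpr (hpos (k + 1) hk))
    apply Real.sqrt_le_sqrt
    have e1 := nd_nn a0 h0.le m k
    have e2 := nd_mono a0 h0.le m (Nat.le_succ k)
    nlinarith
  have hstep : ∀ k ∈ Finset.range m, (gg (nd a0 m (k + 1)) - gg (nd a0 m k)) ≤
      li a0 m k / √(1 - nd a0 m k ^ 2) + a0 / m * (v (k + 1) - v k) := by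
    intro k hk
    have hk' : k < m := Finset.mem_range.mp hk
    have e1 := gg_le (nd a0 m k) (nd a0 m (k + 1)) (nd_nn a0 h0.le m k)
      (nd_mono a0 h0.le m (Nat.le_succ k))
      (lt_of_le_of_lt (nd_le a0 h0.le m (k + 1) hm hk') h1)
    have e2 : (Real.log (1 + nd a0 m (k + 1)) - Real.log (1 + nd a0 m k)) /
        √(1 - nd a0 m (k + 1) ^ 2) = li a0 m k * v (k + 1) := by
      simp only [hv, li]
      ring
    have e3 : li a0 m k / √(1 - nd a0 m k ^ 2) = li a0 m k * v k := by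
      simp only [hv]
      ring
    rw [e2] at e1
    rw [e3]
    have e4 : li a0 m k * (v (k + 1) - v k) ≤ a0 / m * (v (k + 1) - v k) :=
      mul_le_mul_of_nonneg_right (li_le a0 h0.le m k) (by linarith [hvm k hk'])
    nlinarith
  have hsum := Finset.sum_le_sum hstep
  rw [hg, Finset.sum_add_distrib, ← Finset.mul_sum, Finset.sum_range_sub v] at hsum
  have hv0 : v 0 = 1 := by
    simp only [hv, nd_zero]
    norm_num
  have hvl : v m = 1 / √(1 - a0 ^ 2) := by
    simp only [hv, nd_last a0 m hm]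
  rw [hv0, hvl] at hsum
  have ham : 0 ≤ a0 / m := by positivity
  have e5 : a0 / m * (1 / √(1 - a0 ^ 2) - 1) ≤ a0 / m / √(1 - a0 ^ 2) := by
    have : a0 / m * (1 / √(1 - a0 ^ 2) - 1) = a0 / m / √(1 - a0 ^ 2) - a0 / m := by ring
    linarith
  rw [hS]
  have hp : 0 ≤ 2 / Real.pi := by positivity
  have e6 : 1 - √((1 - a0) / (1 + a0)) - a0 / m / √(1 - a0 ^ 2) ≤
      ∑ k ∈ Finset.range m, li a0 m k / √(1 - nd a0 m k ^ 2) := by linarith
  have e7 := mul_le_mul_of_nonneg_left e6 hp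
  linarith

theorem disc : S_disc := by
  intro a0 ε h0 h1 hε
  have hs : 0 < √(1 - a0 ^ 2) := Real.sqrt_pos.mpr (by nlinarith)
  obtain ⟨m, hm⟩ := exists_nat_gt (2 / Real.pi * (a0 / √(1 - a0 ^ 2)) / ε)
  have hm0 : (0 : ℝ) < m := lt_of_le_of_lt (by positivity) hm
  have hm' : 0 < m := by exact_mod_cast hm0
  refine ⟨fam a0 h0 h1 m hm', adm a0 ε h0 h1 hε m hm', ?_⟩
  have h2 := S_ge a0 h0 h1 m hm'
  have h3 : 2 / Real.pi * (a0 / m / √(1 - a0 ^ 2)) ≤ ε := by
    rw [div_lt_iff₀ hε] at hm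
    have e : 2 / Real.pi * (a0 / m / √(1 - a0 ^ 2)) =
        2 / Real.pi * (a0 / √(1 - a0 ^ 2)) / m := by ring
    rw [e, div_le_iff₀ hm0]
    linarith
  linarith

end Pool.Agent.TH41.BL.DISf
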