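import Mathlib
import Pool.Agent.TH41.BL.Stm2

/-!
# BL2-DUALM: the transform of the test function is bounded (job 3243, helper521)
-/

set_option autoImplicit false

open MeasureTheory Filter Topology

namespace Pool.Agent.TH41.BL.DUMf

open Pool.Agent.TH41.BL

theorem sum_bound (hk : S_kra) (F : Fm) (n : ℕ) (f : ℕ → ℝ) (z : ℂ) (M : ℝ)
    (hM : ∀ j : ℕ, j ≤ n → Dsz F n j z ≤ M) :
    ‖∑ w ∈ Finset.range (n + 1), (n.choose w : ℂ) * (f w : ℂ) * QM F n w z‖ ≤ M * NN n f := by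
  have h1 := hk.1 n f (AA z) (BB z)
  have h2 : ∑ w ∈ Finset.range (n + 1), (n.choose w : ℂ) * (f w : ℂ) * QM F n w z =
      ∑ j ∈ Finset.range (n + 1), (n.choose j : ℂ) * (tr n f j : ℂ) *
        (((AA z + BB z) / (√2 : ℝ)) ^ (n - j) * ((AA z - BB z) / (√2 : ℝ)) ^ j *
          Complex.exp (n * Lam z) * Complex.exp (n * F.P z)) := by
    have h3 : ∑ w ∈ Finset.range (n + 1), (n.choose w : ℂ) * (f w : ℂ) * QM F n w z =
        (∑ w ∈ Finset.range (n + 1), (n.choose w : ℂ) * (AA z ^ (n - w) * BB z ^ w) *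
          (f w : ℂ)) * (Complex.exp (n * Lam z) * Complex.exp (n * F.P z)) := by
      rw [Finset.sum_mul]
      refine Finset.sum_congr rfl fun w _ => ?_
      unfold QM QQ
      ring
    rw [h3, h1, Finset.sum_mul]
    refine Finset.sum_congr rfl fun j _ => ?_
    ring
  rw [h2]
  refine (norm_sum_le _ _).trans ?_
  unfold NN
  rw [Finset.mul_sum]
  refine Finset.sum_le_sum fun j hj => ?_
  have hj' : j ≤ n := by
    have := Finset.mem_range.1 hj
    omega
  have h4 := hM j hj'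
  unfold Dsz at h4
  rw [norm_mul, norm_mul, Complex.norm_real, Real.norm_eq_abs, mul_comm M]
  have h5 : ‖(n.choose j : ℂ)‖ = (n.choose j : ℝ) := by simp
  rw [h5]
  exact mul_le_mul_of_nonneg_left h4 (by positivity)

theorem norm_Kf (n : ℕ) (ε η c x t τ : ℝ) (hε : 0 < ε) (hη : 0 ≤ η) (hc : 0 < c) (hcx : c ≤ x)
    (hx : x ≤ 1) :
    ‖Kf n ε η ((x : ℂ) + ((t : ℂ) - (τ : ℂ)) * Complex.I)‖ ≤
      Real.exp (n * ε) / c * Real.exp (-(n * ε) * (t - τ) ^ 2) := by
  obtain ⟨u, hu⟩ : ∃ u : ℝ, u = t - τ := ⟨_, rfl⟩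
  have hs : (x : ℂ) + ((t : ℂ) - (τ : ℂ)) * Complex.I = (x : ℂ) + (u : ℂ) * Complex.I := by
    rw [hu]
    push_cast
    ring
  have hx0 : 0 < x := by linarith
  rw [hs, ← hu, Kf, norm_div, Complex.norm_exp]
  have h1 : (n : ℂ) * ε * ((x : ℂ) + (u : ℂ) * Complex.I) ^ 2 -
      n * η * ((x : ℂ) + (u : ℂ) * Complex.I) =
      ((n * ε * (x ^ 2 - u ^ 2) - n * η * x : ℝ) : ℂ) +
        ((n * ε * (2 * x * u) - n * η * u : ℝ) : ℂ) * Complex.I := by
    push_cast
    ring_nf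
    rw [Complex.I_sq]
    ring
  rw [h1, Complex.add_re, Complex.ofReal_re, Complex.re_ofReal_mul, Complex.I_re, mul_zero,
    add_zero]
  have h2 : c ≤ ‖(x : ℂ) + (u : ℂ) * Complex.I‖ := by
    have h := Complex.abs_re_le_norm ((x : ℂ) + (u : ℂ) * Complex.I)
    have h3 : ((x : ℂ) + (u : ℂ) * Complex.I).re = x := by simp
    rw [h3, abs_of_pos hx0] at h
    linarith
  have h4 : Real.exp (n * ε * (x ^ 2 - u ^ 2) - n * η * x) ≤
      Real.exp (n * ε) * Real.exp (-(n * ε) * u ^ 2) := by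
    rw [← Real.exp_add]
    apply Real.exp_le_exp.2
    have h5 : 0 ≤ (n : ℝ) * η * x := by positivity
    have h6 : x ^ 2 ≤ 1 := by nlinarith
    have h7 : 0 ≤ (n : ℝ) * ε := by positivity
    nlinarith
  calc Real.exp (n * ε * (x ^ 2 - u ^ 2) - n * η * x) / ‖(x : ℂ) + (u : ℂ) * Complex.I‖
      ≤ (Real.exp (n * ε) * Real.exp (-(n * ε) * u ^ 2)) / c :=
        div_le_div₀ (by positivity) h4 hc h2
    _ = _ := by ring

theorem gauss_int {b : ℝ} (hb : 0 < b) (τ : ℝ) :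
    Integrable (fun t : ℝ => Real.exp (-b * (t - τ) ^ 2)) :=
  (integrable_exp_neg_mul_sq hb).comp_sub_right τ

theorem gauss_val {b : ℝ} (τ : ℝ) :
    ∫ t : ℝ, Real.exp (-b * (t - τ) ^ 2) = √(Real.pi / b) := by
  rw [integral_sub_right_eq_self (fun t : ℝ => Real.exp (-b * t ^ 2)) τ, integral_gaussian]

/-- one line -/
theorem line_bound (hk : S_kra) (F : Fm) (n : ℕ) (f : ℕ → ℝ) (ε η c x τ M : ℝ)
    (hn : 0 < (n : ℝ) * ε) (hε : 0 < ε) (hη : 0 ≤ η) (hc : 0 < c) (hcx : c ≤ x)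
    (hx : x ≤ 1) (S : Set ℝ) (hS : MeasurableSet S)
    (hM : ∀ t ∈ S, ∀ j : ℕ, j ≤ n → Dsz F n j ((x : ℂ) + t * Complex.I) ≤ M) (hM0 : 0 ≤ M)
    (hint : ∀ w : ℕ, w ≤ n → IntegrableOn (fun t : ℝ => QM F n w ((x : ℂ) + t * Complex.I) *
      Kf n ε η ((x : ℂ) + ((t : ℂ) - (τ : ℂ)) * Complex.I)) S) :
    ‖∑ w ∈ Finset.range (n + 1), (n.choose w : ℂ) * (f w : ℂ) *
      ∫ t in S, QM F n w ((x : ℂ) + t * Complex.I) *
        Kf n ε η ((x : ℂ) + ((t : ℂ) - (τ : ℂ)) * Complex.I)‖ ≤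
      M * NN n f * (Real.exp (n * ε) / c) * √(Real.pi / (n * ε)) := by
  have hNN : 0 ≤ NN n f := by
    unfold NN
    exact Finset.sum_nonneg fun j _ => by positivity
  have h1 : ∑ w ∈ Finset.range (n + 1), (n.choose w : ℂ) * (f w : ℂ) *
      ∫ t in S, QM F n w ((x : ℂ) + t * Complex.I) *
        Kf n ε η ((x : ℂ) + ((t : ℂ) - (τ : ℂ)) * Complex.I) =
      ∫ t in S, ∑ w ∈ Finset.range (n + 1), (n.choose w : ℂ) * (f w : ℂ) *
        (QM F n w ((x : ℂ) + t * Complex.I) *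
        Kf n ε η ((x : ℂ) + ((t : ℂ) - (τ : ℂ)) * Complex.I)) := by
    rw [integral_finsetSum]
    · refine Finset.sum_congr rfl fun w _ => ?_
      rw [integral_const_mul]
    · intro w hw
      have hw' : w ≤ n := by
        have := Finset.mem_range.1 hw
        omega
      exact (hint w hw').const_mul _
  rw [h1]
  have h2 : ∀ t ∈ S, ‖∑ w ∈ Finset.range (n + 1), (n.choose w : ℂ) * (f w : ℂ) *
        (QM F n w ((x : ℂ) + t * Complex.I) *
        Kf n ε η ((x : ℂ) + ((t : ℂ) - (τ : ℂ)) * Complex.I))‖ ≤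
      M * NN n f * (Real.exp (n * ε) / c) * Real.exp (-(n * ε) * (t - τ) ^ 2) := by
    intro t ht
    have h3 : ∑ w ∈ Finset.range (n + 1), (n.choose w : ℂ) * (f w : ℂ) *
        (QM F n w ((x : ℂ) + t * Complex.I) *
        Kf n ε η ((x : ℂ) + ((t : ℂ) - (τ : ℂ)) * Complex.I)) =
        (∑ w ∈ Finset.range (n + 1), (n.choose w : ℂ) * (f w : ℂ) *
          QM F n w ((x : ℂ) + t * Complex.I)) *
          Kf n ε η ((x : ℂ) + ((t : ℂ) - (τ : ℂ)) * Complex.I) := by
      rw [Finset.sum_mul]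
      refine Finset.sum_congr rfl fun w _ => ?_
      ring
    rw [h3, norm_mul]
    have h4 := sum_bound hk F n f ((x : ℂ) + t * Complex.I) M (hM t ht)
    have h5 := norm_Kf n ε η c x t τ hε hη hc hcx hx
    calc _ ≤ (M * NN n f) *
        (Real.exp (n * ε) / c * Real.exp (-(n * ε) * (t - τ) ^ 2)) :=
          mul_le_mul h4 h5 (norm_nonneg _) (by positivity)
      _ = _ := by ring
  have hg : Integrable (fun t : ℝ => M * NN n f * (Real.exp (n * ε) / c) *
      Real.exp (-(n * ε) * (t - τ) ^ 2)) := (gauss_int hn τ).const_mul _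
  have h3 := norm_integral_le_of_norm_le (μ := volume.restrict S) hg.integrableOn
    (ae_restrict_of_forall_mem hS h2)
  refine h3.trans ?_
  refine (setIntegral_le_integral hg (Eventually.of_forall fun t => ?_)).trans ?_
  · simp only [Pi.zero_apply]
    positivity
  · rw [integral_const_mul, gauss_val]

theorem dualM (hk : S_kra) (hs : S_seg) (hd : S_db) : S_dualM := by
  intro F T a0 ε ε' hT ha0 ha1 hcosh hAdm hε hεε'
  have hε'0 : 0 < ε' := hε.trans_le hεε'
  have hpi := Real.pi_pos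
  obtain ⟨c₀, hc₀, hc₀', hD⟩ := hd F a0 ε' ha0 ha1 hε'0 hAdm
  refine ⟨c₀, hc₀, fun c hc hcc => ⟨⌈Real.pi / ε⌉₊ + ⌈1 / (c * ε')⌉₊ + 1, ?_⟩⟩
  intro n hn η τ f hη hτ
  have hn0 : 0 < n := by omega
  have hn1 : Real.pi / ε ≤ n := (Nat.le_ceil _).trans (by exact_mod_cast (by omega))
  have hn2 : 1 / (c * ε') ≤ n := (Nat.le_ceil _).trans (by exact_mod_cast (by omega))
  have hnε : Real.pi ≤ n * ε := by rwa [div_le_iff₀ hε] at hn1
  have hnε0 : 0 < n * ε := by linarith
  have hNN : 0 ≤ NN n f := by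
    unfold NN
    exact Finset.sum_nonneg fun j _ => by positivity
  have hc16 : c ≤ Real.pi / 16 := hcc.trans hc₀'
  obtain ⟨M, hMdef⟩ : ∃ M, M = Real.exp (n * (mu a0 + 3 * ε')) := ⟨_, rfl⟩
  have hM0 : 0 ≤ M := by rw [hMdef]; positivity
  have hseg := fun w hw => hs F T n w ε η c τ hn0 hw hε hT hc hc16
  -- the two lines
  have hl1 := line_bound hk F n f ε η c (Real.pi / 4 - c) τ M hnε0 hε hη hc (by linarith)
    (by have := Real.pi_lt_four; linarith) Set.univ MeasurableSet.univ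
    (fun t _ j hj => by
      rw [hMdef]
      exact (hD c hc hcc n j t hj).2) hM0
    (fun w hw => (hseg w hw).1.integrableOn)
  have hcoshT : ∀ t : ℝ, t ∈ {t : ℝ | t ≤ -T ∨ T < t} → 1 / Real.cosh (2 * t) ≤ a0 := by
    intro t ht
    have h1 : Real.cosh (2 * T) ≤ Real.cosh (2 * t) := by
      rw [Real.cosh_le_cosh, abs_of_pos (by linarith : 0 < 2 * T)]
      rcases ht with h | h
      · rw [abs_of_nonpos (by linarith)]
        linarith
      · rw [abs_of_pos (by linarith)]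
        linarith
    have h2 : 1 / Real.cosh (2 * t) ≤ 1 / Real.cosh (2 * T) :=
      one_div_le_one_div_of_le (Real.cosh_pos _) h1
    rw [hcosh, one_div_one_div] at h2
    exact h2
  have hl2 := line_bound hk F n f ε η c c τ M hnε0 hε hη hc le_rfl
    (by have := Real.pi_lt_four; linarith) {t : ℝ | t ≤ -T ∨ T < t}
    (measurableSet_Iic.union measurableSet_Ioi)
    (fun t ht j hj => by
      rw [hMdef]
      exact (hD c hc hcc n j t hj).1 (hcoshT t ht)) hM0
    (fun w hw => (hseg w hw).2.1.integrableOn)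
  simp only [Measure.restrict_univ] at hl1
  have key : (∑ w ∈ Finset.range (n + 1), (n.choose w : ℂ) * vM F T n w ε η c τ * (f w : ℂ)) *
      (2 * Real.pi) =
      (∑ w ∈ Finset.range (n + 1), (n.choose w : ℂ) * (f w : ℂ) *
        ∫ t : ℝ, QM F n w (((Real.pi / 4 - c : ℝ) : ℂ) + t * Complex.I) *
          Kf n ε η (((Real.pi / 4 - c : ℝ) : ℂ) + ((t : ℂ) - (τ : ℂ)) * Complex.I)) -
      ∑ w ∈ Finset.range (n + 1), (n.choose w : ℂ) * (f w : ℂ) *
        ∫ t in {t : ℝ | t ≤ -T ∨ T < t}, QM F n w ((c : ℂ) + t * Complex.I) *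
          Kf n ε η ((c : ℂ) + ((t : ℂ) - (τ : ℂ)) * Complex.I) := by
    rw [Finset.sum_mul, ← Finset.sum_sub_distrib]
    refine Finset.sum_congr rfl fun w hw => ?_
    have hw' : w ≤ n := by
      have := Finset.mem_range.1 hw
      omega
    have h := (hseg w hw').2.2
    rw [← mul_sub, ← h]
    ring
  have hpiC : ‖(2 * Real.pi : ℂ)‖ = 2 * Real.pi := by
    rw [norm_mul, Complex.norm_real, Real.norm_eq_abs, abs_of_pos hpi]
    simp
  have h5 : √(Real.pi / (n * ε)) ≤ 1 := by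
    rw [Real.sqrt_le_one]
    rwa [div_le_one hnε0]
  have h6 : 1 / c ≤ Real.exp (n * ε') := by
    have h7 : 1 / c ≤ n * ε' := by
      have h8 : 1 / (c * ε') * ε' ≤ n * ε' := mul_le_mul_of_nonneg_right hn2 hε'0.le
      have h9 : 1 / (c * ε') * ε' = 1 / c := by field_simp
      linarith
    have := Real.add_one_le_exp (n * ε')
    linarith
  have h7 : M * NN n f * (Real.exp (n * ε) / c) * √(Real.pi / (n * ε)) ≤
      Real.exp (n * (mu a0 + 5 * ε')) * NN n f := by
    have h8 : Real.exp (n * ε) ≤ Real.exp (n * ε') := by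
      apply Real.exp_le_exp.2
      exact mul_le_mul_of_nonneg_left hεε' (by positivity)
    have h9 : Real.exp (n * ε) / c ≤ Real.exp (n * ε') * Real.exp (n * ε') := by
      rw [div_eq_mul_one_div]
      exact mul_le_mul h8 h6 (by positivity) (by positivity)
    calc M * NN n f * (Real.exp (n * ε) / c) * √(Real.pi / (n * ε))
        ≤ M * NN n f * (Real.exp (n * ε') * Real.exp (n * ε')) * 1 := by gcongr
      _ = Real.exp (n * (mu a0 + 5 * ε')) * NN n f := by
        have h10 : Real.exp (n * (mu a0 + 5 * ε')) =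
            M * (Real.exp (n * ε') * Real.exp (n * ε')) := by
          rw [hMdef, ← Real.exp_add, ← Real.exp_add]
          congr 1
          ring
        rw [h10]
        ring
  have h8 : ‖∑ w ∈ Finset.range (n + 1), (n.choose w : ℂ) * vM F T n w ε η c τ * (f w : ℂ)‖ *
      (2 * Real.pi) ≤ 2 * (Real.exp (n * (mu a0 + 5 * ε')) * NN n f) := by
    rw [← hpiC, ← norm_mul, key]
    refine (norm_sub_le _ _).trans ?_
    have := hl1.trans h7
    have := hl2.trans h7
    linarith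
  have h9 : 0 ≤ Real.exp (n * (mu a0 + 5 * ε')) * NN n f := by positivity
  have h10 := Real.pi_gt_three
  have h11 := norm_nonneg
    (∑ w ∈ Finset.range (n + 1), (n.choose w : ℂ) * vM F T n w ε η c τ * (f w : ℂ))
  nlinarith

end Pool.Agent.TH41.BL.DUMf
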