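import Mathlib
import Pool.Agent.TH41.BL.Stm2

/-!
Project BL2 (helper41, MP_0430e4_lc): the final estimate (job BL2-FIN, written by helper496).
-/

set_option autoImplicit false

open MeasureTheory Filter Topology

namespace Pool.Agent.TH41.BL.FIMf

open Pool.Agent.TH41.BL

/-- a positive `T` with `cosh (2 T) = y`, for `y > 1` -/
lemma exists_cosh {y : ℝ} (hy : 1 < y) : ∃ T : ℝ, 0 < T ∧ Real.cosh (2 * T) = y := by
  have hcont : ContinuousOn (fun t : ℝ => Real.cosh (2 * t)) (Set.Icc 0 y) :=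
    (Real.continuous_cosh.comp (continuous_const.mul continuous_id)).continuousOn
  have h0 : Real.cosh (2 * (0 : ℝ)) = 1 := by simp
  have hy1 : y ≤ Real.cosh (2 * y) := by
    have h1 : 2 * y + 1 ≤ Real.exp (2 * y) := Real.add_one_le_exp _
    have h2 : 0 < Real.exp (-(2 * y)) := Real.exp_pos _
    rw [Real.cosh_eq]
    linarith
  have hmem : y ∈ Set.Icc ((fun t : ℝ => Real.cosh (2 * t)) 0) ((fun t : ℝ => Real.cosh (2 * t)) y) := by
    refine ⟨?_, hy1⟩
    simp only [h0]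
    exact hy.le
  obtain ⟨T, hT, hTy⟩ := intermediate_value_Icc (by linarith : (0 : ℝ) ≤ y) hcont hmem
  refine ⟨T, ?_, hTy⟩
  rcases hT.1.lt_or_eq with h | h
  · exact h
  · exfalso
    rw [← h] at hTy
    simp only [h0] at hTy
    linarith

theorem finM (hd : S_disc) (hm : S_mainM) : S_fin := by
  intro δ ε hδ1 hδ2 hε
  have hπ := Real.pi_pos
  set x : ℝ := Real.pi * (1 - 2 * δ) / 2 with hx
  have hx0 : 0 < x := by
    have : 0 < 1 - 2 * δ := by linarith
    positivity
  have hx1 : x ≤ 1 := by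
    have h1 : 1 - 2 * δ ≤ 2 / Real.pi := by
      have : 2 / Real.pi = 2 * (1 / Real.pi) := by ring
      rw [this]; linarith
    have h2 : Real.pi * (1 - 2 * δ) ≤ Real.pi * (2 / Real.pi) :=
      mul_le_mul_of_nonneg_left h1 hπ.le
    have h3 : Real.pi * (2 / Real.pi) = 2 := by field_simp
    rw [hx]; linarith
  have hxx : 0 < 1 + x ^ 2 := by positivity
  have hx2 : x ^ 2 ≤ 1 := by nlinarith
  set b : ℝ := (1 - x ^ 2) / (1 + x ^ 2) with hb
  have hb0 : 0 ≤ b := div_nonneg (by linarith) hxx.le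
  have hb1 : b < 1 := by
    rw [hb, div_lt_one hxx]
    have : 0 < x ^ 2 := by positivity
    linarith
  have hb2 : 1 + b = 2 / (1 + x ^ 2) := by
    rw [hb]; field_simp; ring
  set e : ℝ := min ((1 - b) / 2) (2 * ε / 3) with he
  have he0 : 0 < e := lt_min (by linarith) (by linarith)
  have he1 : e ≤ (1 - b) / 2 := min_le_left _ _
  have he2 : e ≤ 2 * ε / 3 := min_le_right _ _
  set a0 : ℝ := b + e with ha
  have ha0 : 0 < a0 := by linarith
  have ha1 : a0 < 1 := by linarith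
  have hmu : mu a0 ≤ 1 / 2 * Real.log 2 - 1 / 2 * Real.log (1 + x ^ 2) + ε / 3 := by
    have h1 : Real.log (1 + a0) - Real.log (1 + b) ≤ e := by
      rw [← Real.log_div (by linarith) (by linarith)]
      have h2 : (1 + a0) / (1 + b) = 1 + e / (1 + b) := by
        rw [ha]; field_simp; ring
      rw [h2]
      have h3 : 0 ≤ e / (1 + b) := div_nonneg he0.le (by linarith)
      have h4 : Real.log (1 + e / (1 + b)) ≤ e / (1 + b) := by
        have := Real.log_le_sub_one_of_pos (x := 1 + e / (1 + b)) (by linarith)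
        linarith
      have h5 : e / (1 + b) ≤ e := by
        rw [div_le_iff₀ (by linarith)]
        nlinarith
      linarith
    have h6 : Real.log (1 + b) = Real.log 2 - Real.log (1 + x ^ 2) := by
      rw [hb2, Real.log_div (by norm_num) hxx.ne']
    unfold mu
    linarith
  have hsq : √((1 - a0) / (1 + a0)) < x := by
    rw [Real.sqrt_lt' hx0, div_lt_iff₀ (by linarith)]
    have h1 : b < a0 := by linarith
    rw [hb, div_lt_iff₀ hxx] at h1
    nlinarith
  set g : ℝ := 2 / Real.pi * (x - √((1 - a0) / (1 + a0))) with hg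
  have hg0 : 0 < g := mul_pos (by positivity) (by linarith)
  set ε' : ℝ := min (ε / 24) (g / 2) with hε'
  have hε'0 : 0 < ε' := lt_min (by linarith) (by linarith)
  have hε'1 : ε' ≤ ε / 24 := min_le_left _ _
  have hε'2 : ε' ≤ g / 2 := min_le_right _ _
  obtain ⟨F, hF, hFS⟩ := hd a0 ε' ha0 ha1 hε'0
  have hy : 1 < 1 / a0 := by
    rw [lt_div_iff₀ ha0]; linarith
  obtain ⟨T, hT, hTa⟩ := exists_cosh hy
  have hpos : 0 < 1 - 2 * δ - 2 / Real.pi + F.S := by
    have h1 : 2 / Real.pi * x = 1 - 2 * δ := by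
      rw [hx]; field_simp
    have h2 : g = 2 / Real.pi * x - 2 / Real.pi * √((1 - a0) / (1 + a0)) := by rw [hg]; ring
    have h3 : 2 / Real.pi * (1 - √((1 - a0) / (1 + a0))) =
      2 / Real.pi - 2 / Real.pi * √((1 - a0) / (1 + a0)) := by ring
    linarith
  obtain ⟨n₀, hn₀⟩ := hm F T a0 ε' hT ha0 ha1 hTa hF hε'0 δ hpos
  refine ⟨n₀, fun n hn d hdn l hl hkr => ?_⟩
  refine le_trans ?_ (hn₀ n hn d hdn l hl hkr)
  refine mul_le_mul_of_nonneg_right ?_ (hl 0)
  have e1 : (1 + x ^ 2) ^ ((n : ℝ) / 2) = Real.exp ((n : ℝ) / 2 * Real.log (1 + x ^ 2)) := by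
    rw [Real.rpow_def_of_pos hxx, mul_comm]
  have e2 : √2 ^ n = Real.exp ((n : ℝ) / 2 * Real.log 2) := by
    have h1 : √2 ^ n = (2 : ℝ) ^ ((n : ℝ) / 2) := by
      rw [Real.sqrt_eq_rpow, ← Real.rpow_natCast, ← Real.rpow_mul (by norm_num)]
      congr 1; ring
    rw [h1, Real.rpow_def_of_pos (by norm_num), mul_comm]
  rw [e1, e2, ← Real.exp_add, ← Real.exp_add]
  apply Real.exp_le_exp.2
  have hn0 : (0 : ℝ) ≤ n := Nat.cast_nonneg n
  have hkey : 0 ≤ (n : ℝ) * (1 / 2 * Real.log 2 - 1 / 2 * Real.log (1 + x ^ 2) + ε -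
      (mu a0 + 8 * ε')) := mul_nonneg hn0 (by linarith)
  nlinarith [hkey]

end Pool.Agent.TH41.BL.FIMf
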