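import Mathlib
import Pool.Agent.TH41.BL.Stm

/-!
Project BL, piece GD: bounds of the logarithmic derivative near the imaginary axis.
-/

set_option autoImplicit false

open MeasureTheory Filter Topology

namespace Pool.Agent.TH41.BL.GDAf

open Pool.Agent.TH41.BL

open Pool.Agent.TH41.LP (WW)

/-! ### Cauchy estimates in a strip -/

lemma mem_strip {z w : ℂ} {a r : ℝ} (hz : |z.re| ≤ a) (hw : w ∈ Metric.closedBall z r) :
    |w.re| ≤ a + r := by
  have h1 : |(w - z).re| ≤ r := (Complex.abs_re_le_norm _).trans (by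
    rw [Metric.mem_closedBall, dist_eq_norm] at hw; exact hw)
  rw [Complex.sub_re] at h1
  rw [abs_le] at *
  constructor <;> linarith [h1.1, h1.2, hz.1, hz.2]

lemma convex_strip (a : ℝ) : Convex ℝ {z : ℂ | |z.re| ≤ a} := by
  have : {z : ℂ | |z.re| ≤ a} = Complex.reLm ⁻¹' (Set.Icc (-a) a) := by
    ext z
    simp [abs_le]
  rw [this]
  exact (convex_Icc _ _).linear_preimage Complex.reLm

lemma cauchy (f : ℂ → ℂ) (M : ℝ) (hM : 0 ≤ M)
    (hd : ∀ z : ℂ, |z.re| < 1 / 4 → DifferentiableAt ℂ f z)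
    (hb : ∀ z : ℂ, |z.re| < 1 / 4 → ‖f z‖ ≤ M) :
    (∀ z : ℂ, |z.re| ≤ 3 / 16 → ‖deriv f z‖ ≤ 32 * M) ∧
    ∀ z w : ℂ, |z.re| ≤ 1 / 8 → |w.re| ≤ 1 / 8 →
      ‖f w - f z - (w - z) * deriv f z‖ ≤ 1024 * M * ‖w - z‖ ^ 2 := by
  have hU : IsOpen {z : ℂ | |z.re| < 1 / 4} :=
    isOpen_lt (continuous_abs.comp Complex.continuous_re) continuous_const
  have dO : DifferentiableOn ℂ f {z : ℂ | |z.re| < 1 / 4} :=
    fun z hz => (hd z hz).differentiableWithinAt
  have dO' : DifferentiableOn ℂ (deriv f) {z : ℂ | |z.re| < 1 / 4} := dO.deriv hU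
  have hd' : ∀ z : ℂ, |z.re| < 1 / 4 → DifferentiableAt ℂ (deriv f) z :=
    fun z hz => (dO' z hz).differentiableAt (hU.mem_nhds hz)
  have k1 : ∀ z : ℂ, |z.re| ≤ 3 / 16 → ‖deriv f z‖ ≤ 32 * M := by
    intro z hz
    have hsub : Metric.closedBall z (1 / 32) ⊆ {z : ℂ | |z.re| < 1 / 4} := by
      intro w hw
      have := mem_strip hz hw
      show |w.re| < 1 / 4
      linarith
    have := Complex.norm_deriv_le_of_forall_mem_sphere_norm_le (f := f) (c := z) (R := 1 / 32)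
      (C := M) (by norm_num) (dO.diffContOnCl_ball hsub)
      (fun w hw => hb w (hsub (Metric.sphere_subset_closedBall hw)))
    linarith
  have k2 : ∀ z : ℂ, |z.re| ≤ 1 / 8 → ‖deriv (deriv f) z‖ ≤ 1024 * M := by
    intro z hz
    have hsub : Metric.closedBall z (1 / 32) ⊆ {z : ℂ | |z.re| ≤ 3 / 16} := by
      intro w hw
      have := mem_strip hz hw
      show |w.re| ≤ 3 / 16
      linarith
    have hsub' : Metric.closedBall z (1 / 32) ⊆ {z : ℂ | |z.re| < 1 / 4} := by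
      intro w hw
      have := hsub hw
      have h2 : |w.re| ≤ 3 / 16 := this
      show |w.re| < 1 / 4
      linarith
    have := Complex.norm_deriv_le_of_forall_mem_sphere_norm_le (f := deriv f) (c := z)
      (R := 1 / 32) (C := 32 * M) (by norm_num) (dO'.diffContOnCl_ball hsub')
      (fun w hw => k1 w (hsub (Metric.sphere_subset_closedBall hw)))
    linarith
  refine ⟨k1, fun z w hz hw => ?_⟩
  have k3 : ∀ x : ℂ, |x.re| ≤ 1 / 8 → ‖deriv f x - deriv f z‖ ≤ 1024 * M * ‖x - z‖ := by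
    intro x hx
    exact Convex.norm_image_sub_le_of_norm_deriv_le (f := deriv f)
      (s := {z : ℂ | |z.re| ≤ 1 / 8}) (fun y hy => hd' y (by
        have : |y.re| ≤ 1 / 8 := hy
        linarith)) (fun y hy => k2 y hy) (convex_strip _) hz hx
  have hconv : Convex ℝ ({x : ℂ | |x.re| ≤ 1 / 8} ∩ Metric.closedBall z ‖w - z‖) :=
    (convex_strip _).inter (convex_closedBall _ _)
  have hdiff : ∀ x : ℂ, |x.re| ≤ 1 / 8 →
      HasDerivAt (fun x => f x - x * deriv f z) (deriv f x - deriv f z) x := by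
    intro x hx
    have h1 := (hd x (by linarith)).hasDerivAt
    have h2 := (hasDerivAt_id x).mul_const (deriv f z)
    rw [one_mul] at h2
    exact h1.sub h2
  have := Convex.norm_image_sub_le_of_norm_deriv_le (f := fun x => f x - x * deriv f z)
    (s := {x : ℂ | |x.re| ≤ 1 / 8} ∩ Metric.closedBall z ‖w - z‖) (C := 1024 * M * ‖w - z‖)
    (x := z) (y := w)
    (fun y hy => (hdiff y hy.1).differentiableAt) (fun y hy => by
      rw [(hdiff y hy.1).deriv]
      refine (k3 y hy.1).trans ?_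
      have h2 := hy.2
      rw [Metric.mem_closedBall, dist_eq_norm] at h2
      gcongr) hconv ⟨hz, Metric.mem_closedBall_self (norm_nonneg _)⟩
      ⟨hw, by rw [Metric.mem_closedBall, dist_eq_norm]⟩
  have e : f w - f z - (w - z) * deriv f z =
      (f w - w * deriv f z) - (f z - z * deriv f z) := by ring
  rw [e]
  calc _ ≤ 1024 * M * ‖w - z‖ * ‖w - z‖ := this
    _ = _ := by ring

/-- a number that is small of second order vanishes -/
lemma zero_of_small {a M : ℝ} (h : ∀ t : ℝ, 0 < t → t ≤ 1 / 16 → |a| * t ≤ M * t ^ 2) :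
    a = 0 := by
  by_contra ha
  have ha' : 0 < |a| := abs_pos.2 ha
  have hM : 0 < M := by
    have := h (1 / 16) (by norm_num) le_rfl
    nlinarith
  set t : ℝ := min (1 / 16) (|a| / (2 * M)) with ht
  have ht0 : 0 < t := lt_min (by norm_num) (by positivity)
  have h1 := h t ht0 (min_le_left _ _)
  have h2 : t ≤ |a| / (2 * M) := min_le_right _ _
  rw [le_div_iff₀ (by positivity)] at h2
  nlinarith

/-! ### The functions `A`, `B` -/

lemma AA_eq (s : ℂ) : AA s = (((Real.cos s.re + Real.sin s.re) * Real.cosh s.im : ℝ) : ℂ) +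
    (((Real.cos s.re - Real.sin s.re) * Real.sinh s.im : ℝ) : ℂ) * Complex.I := by
  unfold AA
  rw [Complex.cos_eq s, Complex.sin_eq s]
  push_cast
  ring

lemma BB_eq (s : ℂ) : BB s = (((Real.cos s.re - Real.sin s.re) * Real.cosh s.im : ℝ) : ℂ) +
    ((-((Real.cos s.re + Real.sin s.re) * Real.sinh s.im) : ℝ) : ℂ) * Complex.I := by
  unfold BB
  rw [Complex.cos_eq s, Complex.sin_eq s]
  push_cast
  ring

lemma AA_sq (s : ℂ) : ‖AA s‖ ^ 2 = ((Real.cos s.re + Real.sin s.re) * Real.cosh s.im) ^ 2 +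
    ((Real.cos s.re - Real.sin s.re) * Real.sinh s.im) ^ 2 := by
  rw [AA_eq, Complex.sq_norm, Complex.normSq_add_mul_I]

lemma BB_sq (s : ℂ) : ‖BB s‖ ^ 2 = ((Real.cos s.re - Real.sin s.re) * Real.cosh s.im) ^ 2 +
    ((Real.cos s.re + Real.sin s.re) * Real.sinh s.im) ^ 2 := by
  rw [BB_eq, Complex.sq_norm, Complex.normSq_add_mul_I]
  ring

lemma trig_bounds {x : ℝ} (hx : |x| ≤ 1 / 4) :
    1 / 2 ≤ (Real.cos x + Real.sin x) ^ 2 ∧ (Real.cos x + Real.sin x) ^ 2 ≤ 3 / 2 ∧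
    1 / 2 ≤ (Real.cos x - Real.sin x) ^ 2 ∧ (Real.cos x - Real.sin x) ^ 2 ≤ 3 / 2 := by
  have h1 : |Real.sin x| ≤ 1 / 4 := Real.abs_sin_le_abs.trans hx
  have h2 : |Real.cos x| ≤ 1 := Real.abs_cos_le_one x
  have h3 : |Real.cos x * Real.sin x| ≤ 1 / 4 := by
    rw [abs_mul]
    calc |Real.cos x| * |Real.sin x| ≤ 1 * (1 / 4) := by gcongr
      _ = _ := by ring
  have h4 := Real.sin_sq_add_cos_sq x
  rw [abs_le] at h3
  refine ⟨?_, ?_, ?_, ?_⟩ <;> nlinarith [h3.1, h3.2, h4]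

lemma AB_bounds {s : ℂ} (hs : |s.re| ≤ 1 / 4) :
    AA s ≠ 0 ∧ BB s ≠ 0 ∧ ‖BB s / AA s‖ ≤ 3 ∧ ‖AA s / BB s‖ ≤ 3 := by
  obtain ⟨t1, t2, t3, t4⟩ := trig_bounds hs
  have hc : Real.cosh s.im ^ 2 = Real.sinh s.im ^ 2 + 1 := Real.cosh_sq s.im
  have hS : 0 ≤ Real.sinh s.im ^ 2 := sq_nonneg _
  have a1 : 1 / 2 * Real.cosh s.im ^ 2 ≤ ‖AA s‖ ^ 2 := by
    rw [AA_sq, mul_pow, mul_pow]
    nlinarith [sq_nonneg (Real.cos s.re - Real.sin s.re), sq_nonneg (Real.cosh s.im)]
  have a2 : ‖AA s‖ ^ 2 ≤ 3 * Real.cosh s.im ^ 2 := by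
    rw [AA_sq, mul_pow, mul_pow]
    nlinarith [sq_nonneg (Real.cosh s.im)]
  have b1 : 1 / 2 * Real.cosh s.im ^ 2 ≤ ‖BB s‖ ^ 2 := by
    rw [BB_sq, mul_pow, mul_pow]
    nlinarith [sq_nonneg (Real.cos s.re + Real.sin s.re), sq_nonneg (Real.cosh s.im)]
  have b2 : ‖BB s‖ ^ 2 ≤ 3 * Real.cosh s.im ^ 2 := by
    rw [BB_sq, mul_pow, mul_pow]
    nlinarith [sq_nonneg (Real.cosh s.im)]
  have hA : AA s ≠ 0 := by
    intro h
    rw [h, norm_zero] at a1
    nlinarith
  have hB : BB s ≠ 0 := by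
    intro h
    rw [h, norm_zero] at b1
    nlinarith
  have hA' : 0 < ‖AA s‖ := norm_pos_iff.2 hA
  have hB' : 0 < ‖BB s‖ := norm_pos_iff.2 hB
  refine ⟨hA, hB, ?_, ?_⟩
  · rw [norm_div, div_le_iff₀ hA']
    refine le_of_sq_le_sq ?_ (by positivity)
    nlinarith
  · rw [norm_div, div_le_iff₀ hB']
    refine le_of_sq_le_sq ?_ (by positivity)
    nlinarith

lemma conj_GG (h2 : S_lz2) (ω : ℝ) (s : ℂ) :
    GG ω ((starRingEnd ℂ) s) = (starRingEnd ℂ) (GG ω s) := by
  unfold GG AA BB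
  rw [h2.2.1, Complex.cos_conj, Complex.sin_conj]
  simp only [map_add, map_sub, map_mul, map_div₀, map_one, Complex.conj_ofReal]

lemma im_real (h2 : S_lz2) (ω σ : ℝ) : (GG ω (σ : ℂ)).im = 0 := by
  have h := conj_GG h2 ω (σ : ℂ)
  rw [Complex.conj_ofReal] at h
  exact Complex.conj_eq_iff_im.1 h.symm

lemma im_imag (h2 : S_lz2) (ω t : ℝ) : (GG ω (t * Complex.I)).im = 0 := by
  by_cases ht : t = 0
  · subst ht
    have := im_real h2 ω 0
    simpa using this
  have hre : ((t : ℂ) * Complex.I).re = 0 := by simp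
  have him : ((t : ℂ) * Complex.I).im = t := by simp
  have hA := AA_eq ((t : ℂ) * Complex.I)
  have hB := BB_eq ((t : ℂ) * Complex.I)
  rw [hre, him, Real.cos_zero, Real.sin_zero] at hA hB
  have e1 : GG ω (t * Complex.I) = ((1 - ω : ℝ) : ℂ) * (BB (t * Complex.I) / AA (t * Complex.I)) -
      (ω : ℂ) * (AA (t * Complex.I) / BB (t * Complex.I)) + Lz (t * Complex.I) := by
    unfold GG; push_cast; ring
  have hL : (Lz (t * Complex.I)).im = Real.tanh (2 * t) := by
    rw [h2.2.2 t ht, Complex.sub_im, Complex.im_ofReal_mul, Complex.I_im, Complex.ofReal_im]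
    ring
  have hD : 0 < Real.cosh t ^ 2 + Real.sinh t ^ 2 := by
    have := Real.cosh_pos t
    positivity
  have hAre : (AA (t * Complex.I)).re = Real.cosh t := by rw [hA]; simp
  have hAim : (AA (t * Complex.I)).im = Real.sinh t := by
    rw [hA, Complex.add_im, Complex.ofReal_im, Complex.im_ofReal_mul, Complex.I_im]; ring
  have hBre : (BB (t * Complex.I)).re = Real.cosh t := by rw [hB]; simp
  have hBim : (BB (t * Complex.I)).im = -Real.sinh t := by
    rw [hB, Complex.add_im, Complex.ofReal_im, Complex.im_ofReal_mul, Complex.I_im]; ring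
  have nA : Complex.normSq (AA (t * Complex.I)) = Real.cosh t ^ 2 + Real.sinh t ^ 2 := by
    rw [Complex.normSq_apply, hAre, hAim]; ring
  have nB : Complex.normSq (BB (t * Complex.I)) = Real.cosh t ^ 2 + Real.sinh t ^ 2 := by
    rw [Complex.normSq_apply, hBre, hBim]; ring
  rw [e1, Complex.add_im, Complex.sub_im, Complex.im_ofReal_mul, Complex.im_ofReal_mul,
    Complex.div_im, Complex.div_im, hAre, hAim, hBre, hBim, nA, nB, hL, Real.tanh_eq_sinh_div_cosh,
    Real.sinh_two_mul, Real.cosh_two_mul]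
  field_simp
  ring

/-- the bounds of the logarithmic derivative -/
theorem gd (h1 : S_lz1) (h2 : S_lz2) (h3 : S_lz3) : S_gd := by
  obtain ⟨C3, hC3, hLz⟩ := h3
  have hpi := Real.pi_gt_three
  set M : ℝ := 6 + C3 with hM
  have hM0 : 0 ≤ M := by positivity
  have hd : ∀ ω : ℝ, ∀ z : ℂ, |z.re| < 1 / 4 → DifferentiableAt ℂ (GG ω) z := by
    intro ω z hz
    obtain ⟨a1, a2, -, -⟩ := AB_bounds hz.le
    have dA : DifferentiableAt ℂ AA z := by unfold AA; fun_prop
    have dB : DifferentiableAt ℂ BB z := by unfold BB; fun_prop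
    have dL : DifferentiableAt ℂ Lz z := by
      rw [abs_lt] at hz
      exact h1 z (by linarith [hz.1]) (by linarith [hz.2])
    unfold GG
    exact (((dB.div dA a1).const_mul _).sub ((dA.div dB a2).const_mul _)).add dL
  have hb : ∀ ω : ℝ, 0 ≤ ω → ω ≤ 1 → ∀ z : ℂ, |z.re| < 1 / 4 → ‖GG ω z‖ ≤ M := by
    intro ω hω0 hω1 z hz
    obtain ⟨-, -, a3, a4⟩ := AB_bounds hz.le
    have hL : ‖Lz z‖ ≤ C3 := by
      rw [abs_lt] at hz
      exact hLz z (by linarith [hz.1]) (by linarith [hz.2])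
    have e1 : ‖(1 - (ω : ℂ)) * (BB z / AA z)‖ ≤ 3 := by
      rw [norm_mul]
      have : ‖(1 - (ω : ℂ))‖ ≤ 1 := by
        rw [← Complex.ofReal_one, ← Complex.ofReal_sub, Complex.norm_real, Real.norm_eq_abs,
          abs_le]
        constructor <;> linarith
      exact (mul_le_mul this a3 (norm_nonneg _) zero_le_one).trans (by norm_num)
    have e2 : ‖(ω : ℂ) * (AA z / BB z)‖ ≤ 3 := by
      rw [norm_mul]
      have : ‖(ω : ℂ)‖ ≤ 1 := by
        rw [Complex.norm_real, Real.norm_eq_abs, abs_le]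
        constructor <;> linarith
      exact (mul_le_mul this a4 (norm_nonneg _) zero_le_one).trans (by norm_num)
    unfold GG
    calc _ ≤ ‖(1 - (ω : ℂ)) * (BB z / AA z) - (ω : ℂ) * (AA z / BB z)‖ + ‖Lz z‖ := norm_add_le _ _
      _ ≤ (‖(1 - (ω : ℂ)) * (BB z / AA z)‖ + ‖(ω : ℂ) * (AA z / BB z)‖) + ‖Lz z‖ := by
          gcongr; exact norm_sub_le _ _
      _ ≤ (3 + 3) + C3 := by gcongr
      _ = M := by rw [hM]; ring
  -- the derivative on the real axis is real
  have him : ∀ ω : ℝ, 0 ≤ ω → ω ≤ 1 → ∀ σ : ℝ, |σ| ≤ 1 / 16 →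
      (deriv (GG ω) (σ : ℂ)).im = 0 := by
    intro ω hω0 hω1 σ hσ
    apply zero_of_small (M := 1024 * M)
    intro t ht0 ht1
    obtain ⟨-, k2⟩ := cauchy (GG ω) M hM0 (hd ω) (hb ω hω0 hω1)
    have h5 := k2 (σ : ℂ) ((σ + t : ℝ) : ℂ) (by
      rw [Complex.ofReal_re]; linarith) (by
      rw [Complex.ofReal_re]
      refine (abs_add_le _ _).trans ?_
      rw [abs_of_pos ht0]
      linarith)
    have e1 : (((σ + t : ℝ) : ℂ) - (σ : ℂ)) = (t : ℂ) := by push_cast; ring
    rw [e1, Complex.norm_real, Real.norm_eq_abs, abs_of_pos ht0] at h5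
    have h6 := (Complex.abs_im_le_norm _).trans h5
    rw [Complex.sub_im, Complex.sub_im, im_real h2, im_real h2, Complex.im_ofReal_mul] at h6
    rw [sub_zero, zero_sub, abs_neg, abs_mul, abs_of_pos ht0] at h6
    linarith
  have hre : ∀ ω : ℝ, 0 ≤ ω → ω ≤ 1 → (deriv (GG ω) 0).re = 0 := by
    intro ω hω0 hω1
    apply zero_of_small (M := 1024 * M)
    intro t ht0 ht1
    obtain ⟨-, k2⟩ := cauchy (GG ω) M hM0 (hd ω) (hb ω hω0 hω1)
    have h5 := k2 0 ((t : ℂ) * Complex.I) (by simp) (by simp)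
    rw [sub_zero, norm_mul, Complex.norm_I, mul_one, Complex.norm_real, Real.norm_eq_abs,
      abs_of_pos ht0] at h5
    have h6 := (Complex.abs_im_le_norm _).trans h5
    have h7 : (GG ω 0).im = 0 := by
      have := im_real h2 ω 0
      rwa [Complex.ofReal_zero] at this
    have h8 : ((t : ℂ) * Complex.I * deriv (GG ω) 0).im = t * (deriv (GG ω) 0).re := by
      simp [Complex.mul_im]
    rw [Complex.sub_im, Complex.sub_im, im_imag h2, h7, h8] at h6
    rw [sub_zero, zero_sub, abs_neg, abs_mul, abs_of_pos ht0] at h6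
    linarith
  refine ⟨1024 * M, 1 / 16, by positivity, by norm_num, by linarith, ?_⟩
  constructor
  · -- d1
    intro ω hω0 hω1 s hs
    have hs' : |s.re| < 1 / 4 := by linarith
    refine ⟨hd ω s hs', (hb ω hω0 hω1 s hs').trans (by linarith)⟩
  · -- d2
    intro ω hω0 hω1 σ t hσ
    obtain ⟨k1, -⟩ := cauchy (GG ω) M hM0 (hd ω) (hb ω hω0 hω1)
    have h5 := Convex.norm_image_sub_le_of_norm_deriv_le (f := GG ω)
      (s := {z : ℂ | |z.re| ≤ 3 / 16}) (C := 32 * M) (x := (t : ℂ) * Complex.I)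
      (y := (σ : ℂ) + (t : ℂ) * Complex.I)
      (fun y hy => hd ω y (by
        have : |y.re| ≤ 3 / 16 := hy
        linarith)) (fun y hy => k1 y hy) (convex_strip _) (by
        show |((t : ℂ) * Complex.I).re| ≤ 3 / 16
        rw [show ((t : ℂ) * Complex.I).re = 0 by simp, abs_zero]
        norm_num) (by
        show |((σ : ℂ) + (t : ℂ) * Complex.I).re| ≤ 3 / 16
        simp only [Complex.add_re, Complex.ofReal_re, Complex.mul_re, Complex.I_re, mul_zero,
          Complex.ofReal_im, Complex.I_im, mul_one, sub_self, add_zero]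
        linarith)
    have h6 := (Complex.abs_re_le_norm _).trans h5
    rw [Complex.sub_re] at h6
    have e1 : (σ : ℂ) + (t : ℂ) * Complex.I - (t : ℂ) * Complex.I = (σ : ℂ) := by ring
    rw [e1, Complex.norm_real, Real.norm_eq_abs] at h6
    refine h6.trans ?_
    have : 0 ≤ |σ| := abs_nonneg σ
    gcongr
    norm_num
  · -- d3
    intro ω hω0 hω1 σ t hσ
    obtain ⟨-, k2⟩ := cauchy (GG ω) M hM0 (hd ω) (hb ω hω0 hω1)
    have h5 := k2 (σ : ℂ) ((σ : ℂ) + (t : ℂ) * Complex.I) (by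
      rw [Complex.ofReal_re]; linarith) (by
      simp only [Complex.add_re, Complex.ofReal_re, Complex.mul_re, Complex.I_re, mul_zero,
          Complex.ofReal_im, Complex.I_im, mul_one, sub_self, add_zero]
      linarith)
    have e1 : (σ : ℂ) + (t : ℂ) * Complex.I - (σ : ℂ) = (t : ℂ) * Complex.I := by ring
    rw [e1, norm_mul, Complex.norm_I, mul_one, Complex.norm_real, Real.norm_eq_abs, sq_abs] at h5
    have h6 := (Complex.abs_re_le_norm _).trans h5
    have h8 : ((t : ℂ) * Complex.I * deriv (GG ω) (σ : ℂ)).re =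
        -(t * (deriv (GG ω) (σ : ℂ)).im) := by
      simp [Complex.mul_re]
    rw [Complex.sub_re, Complex.sub_re, h8, him ω hω0 hω1 σ hσ, mul_zero, neg_zero,
      sub_zero] at h6
    exact h6
  · -- d4
    intro ω hω0 hω1 σ hσ
    obtain ⟨-, k2⟩ := cauchy (GG ω) M hM0 (hd ω) (hb ω hω0 hω1)
    have h5 := k2 0 (σ : ℂ) (by simp) (by
      rw [Complex.ofReal_re]; linarith)
    rw [sub_zero, Complex.norm_real, Real.norm_eq_abs, sq_abs] at h5
    have hzero : deriv (GG ω) 0 = 0 := by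
      apply Complex.ext
      · exact hre ω hω0 hω1
      · have := him ω hω0 hω1 0 (by norm_num)
        rwa [Complex.ofReal_zero] at this
    rw [hzero, mul_zero, sub_zero] at h5
    have h6 := (Complex.abs_re_le_norm _).trans h5
    have h0 : (GG ω 0).re = 1 - 2 * ω - 2 / Real.pi := by
      have hG : GG ω 0 = ((1 - 2 * ω - 2 / Real.pi : ℝ) : ℂ) := by
        unfold GG AA BB Lz
        rw [if_pos rfl, Complex.cos_zero, Complex.sin_zero]
        push_cast
        ring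
      rw [hG, Complex.ofReal_re]
    rw [Complex.sub_re, h0] at h6
    exact h6

end Pool.Agent.TH41.BL.GDAf
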