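import Mathlib
import Pool.Agent.TH41.BL.Stm

/-!
Project BL (helper41, MP_0430e4_lc), piece GI: the real part of the logarithmic derivative on the
imaginary axis.
-/

set_option autoImplicit false

open MeasureTheory Filter Topology

namespace Pool.Agent.TH41.BL.GIAf

open Pool.Agent.TH41.BL

open Pool.Agent.TH41.LP (WW)

lemma AA_eq (t : ℝ) : AA (t * Complex.I) = ⟨Real.cosh t, Real.sinh t⟩ := by
  unfold AA
  rw [Complex.cos_mul_I, Complex.sin_mul_I]
  apply Complex.ext
  · simp [← Complex.ofReal_cosh, ← Complex.ofReal_sinh]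
  · simp [← Complex.ofReal_cosh, ← Complex.ofReal_sinh]

lemma BB_eq (t : ℝ) : BB (t * Complex.I) = ⟨Real.cosh t, -Real.sinh t⟩ := by
  unfold BB
  rw [Complex.cos_mul_I, Complex.sin_mul_I]
  apply Complex.ext
  · simp [← Complex.ofReal_cosh, ← Complex.ofReal_sinh]
  · simp [← Complex.ofReal_cosh, ← Complex.ofReal_sinh]

lemma norm_sq_eq (t : ℝ) : Real.cosh t * Real.cosh t + Real.sinh t * Real.sinh t =
    Real.cosh (2 * t) := by
  rw [Real.cosh_two_mul]; ring

lemma re_quot (t : ℝ) : (BB (t * Complex.I) / AA (t * Complex.I)).re = 1 / Real.cosh (2 * t) ∧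
    (AA (t * Complex.I) / BB (t * Complex.I)).re = 1 / Real.cosh (2 * t) := by
  have h1 := norm_sq_eq t
  have h2 := Real.cosh_sq t
  have h0 : (0 : ℝ) < Real.cosh (2 * t) := Real.cosh_pos _
  rw [AA_eq, BB_eq]
  constructor
  · rw [Complex.div_re, Complex.normSq_mk, h1]
    field_simp
    nlinarith
  · rw [Complex.div_re, Complex.normSq_mk]
    have h3 : Real.cosh t * Real.cosh t + -Real.sinh t * -Real.sinh t = Real.cosh (2 * t) := by
      rw [← h1]; ring
    rw [h3]
    field_simp
    nlinarith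

lemma key_pos (t : ℝ) (ht : 0 < t) : 4 * t / Real.sinh (4 * t) ≤ 1 / Real.cosh (2 * t) := by
  have h1 : Real.sinh (4 * t) = 2 * Real.sinh (2 * t) * Real.cosh (2 * t) := by
    rw [← Real.sinh_two_mul]; ring_nf
  have h2 : 2 * t ≤ Real.sinh (2 * t) := by
    have := Real.self_le_sinh_iff.2 (by linarith : (0 : ℝ) ≤ 2 * t)
    exact this
  have h3 : 0 < Real.sinh (2 * t) := by linarith
  have h0 : (0 : ℝ) < Real.cosh (2 * t) := Real.cosh_pos _
  rw [h1, div_le_div_iff₀ (by positivity) h0]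
  nlinarith

lemma key (t : ℝ) (ht : t ≠ 0) : 4 * t / Real.sinh (4 * t) ≤ 1 / Real.cosh (2 * t) := by
  rcases lt_or_gt_of_ne ht with h | h
  · have h1 := key_pos (-t) (by linarith)
    have e1 : 4 * -t = -(4 * t) := by ring
    have e2 : 2 * -t = -(2 * t) := by ring
    rw [e1, e2, Real.sinh_neg, Real.cosh_neg, neg_div_neg_eq] at h1
    exact h1
  · exact key_pos t h

theorem gi (h2 : S_lz2) : S_gi := by
  intro ω t
  obtain ⟨hq1, hq2⟩ := re_quot t
  have hG : (GG ω (t * Complex.I)).re =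
      (1 - ω) * (1 / Real.cosh (2 * t)) - ω * (1 / Real.cosh (2 * t)) +
        (Lz (t * Complex.I)).re := by
    unfold GG
    rw [Complex.add_re, Complex.sub_re]
    have a1 : ((1 - (ω : ℂ)) * (BB (t * Complex.I) / AA (t * Complex.I))).re =
        (1 - ω) * (1 / Real.cosh (2 * t)) := by
      rw [← hq1, show (1 - (ω : ℂ)) = ((1 - ω : ℝ) : ℂ) by push_cast; rfl,
        Complex.re_ofReal_mul]
    have a2 : ((ω : ℂ) * (AA (t * Complex.I) / BB (t * Complex.I))).re =
        ω * (1 / Real.cosh (2 * t)) := by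
      rw [← hq2, Complex.re_ofReal_mul]
    rw [a1, a2]
  rw [hG]
  by_cases ht : t = 0
  · subst ht
    have hL : (Lz (((0 : ℝ) : ℂ) * Complex.I)).re = -(2 / Real.pi) := by
      have : Lz (((0 : ℝ) : ℂ) * Complex.I) = ((-(2 / Real.pi) : ℝ) : ℂ) := by
        unfold Lz
        simp
      rw [this, Complex.ofReal_re]
    rw [hL]
    simp
    apply le_of_eq
    ring
  · have hL : (Lz (t * Complex.I)).re = -(8 * t / Real.pi / Real.sinh (4 * t)) := by
      rw [h2.2.2 t ht, Complex.sub_re, Complex.re_ofReal_mul, Complex.ofReal_re]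
      simp
    rw [hL]
    have hk := key t ht
    have hpi := Real.pi_pos
    have e1 : 8 * t / Real.pi / Real.sinh (4 * t) =
        (2 / Real.pi) * (4 * t / Real.sinh (4 * t)) := by
      field_simp
      ring
    rw [e1]
    have h3 : (2 / Real.pi) * (4 * t / Real.sinh (4 * t)) ≤
        (2 / Real.pi) * (1 / Real.cosh (2 * t)) :=
      mul_le_mul_of_nonneg_left hk (by positivity)
    have e2 : (1 - 2 * ω - 2 / Real.pi) / Real.cosh (2 * t) =
        (1 - ω) * (1 / Real.cosh (2 * t)) - ω * (1 / Real.cosh (2 * t)) -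
          (2 / Real.pi) * (1 / Real.cosh (2 * t)) := by
      ring
    rw [e2]
    linarith

end Pool.Agent.TH41.BL.GIAf
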