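import Mathlib
import Pool.Agent.TH41.BL.Stm

set_option autoImplicit false

open MeasureTheory Filter Topology

namespace Pool.Agent.TH41.BL.LEFf

open Pool.Agent.TH41.BL

open Pool.Agent.TH41.LP (WW)

lemma sech_lip (x y : ℝ) : |1 / Real.cosh y - 1 / Real.cosh x| ≤ |y - x| := by
  have h := Convex.norm_image_sub_le_of_norm_hasDerivWithin_le (f := fun x => 1 / Real.cosh x)
    (f' := fun x => -Real.sinh x / Real.cosh x ^ 2) (s := Set.univ) (C := 1)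
    (x := x) (y := y) ?_ ?_ convex_univ (Set.mem_univ _) (Set.mem_univ _)
  · simpa [Real.norm_eq_abs] using h
  · intro z _
    have h1 := (Real.hasDerivAt_cosh z).inv (Real.cosh_pos z).ne'
    have h2 : (fun x => 1 / Real.cosh x) = fun x => (Real.cosh x)⁻¹ := by
      funext x
      rw [one_div]
    rw [h2]
    exact h1.hasDerivWithinAt
  · intro z _
    have h1 : |Real.sinh z| ≤ Real.cosh z := by
      rw [abs_le]
      have h2 := Real.sinh_lt_cosh z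
      have h3 := Real.sinh_lt_cosh (-z)
      rw [Real.sinh_neg, Real.cosh_neg] at h3
      constructor <;> linarith
    have h4 := Real.one_le_cosh z
    rw [Real.norm_eq_abs, abs_div, abs_neg, abs_of_nonneg (sq_nonneg (Real.cosh z)),
      div_le_one (by positivity)]
    nlinarith

lemma bb_abs (n w : ℕ) (hn : 0 < n) (hw : w ≤ n) : |bb n w| ≤ 2 := by
  unfold bb
  have hn' : (0 : ℝ) < n := by exact_mod_cast hn
  have hw' : (w : ℝ) ≤ n := by exact_mod_cast hw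
  have h1 : 0 ≤ (w : ℝ) / n := by positivity
  have h2 : (w : ℝ) / n ≤ 1 := by rwa [div_le_one hn']
  have h3 : 0 < 2 / Real.pi := by positivity
  have h4 : 2 / Real.pi ≤ 1 := by
    rw [div_le_one Real.pi_pos]
    linarith [Real.pi_gt_three]
  have h5 : 2 * (w : ℝ) / n = 2 * ((w : ℝ) / n) := by ring
  rw [h5, abs_le]
  constructor <;> linarith

/-- the exponent on the line -/
lemma expo {C ε η Δ κ b τ t : ℝ} (hε : 0 < ε) (hκ : 0 < κ) (hb : |b| ≤ 2)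
    (hk : κ * (C + ε + 8 / ε) ≤ Δ / 2) (h : η + Δ ≤ b / Real.cosh (2 * τ)) :
    -κ * (b / Real.cosh (2 * (t + τ))) + C * (-κ) ^ 2 + (ε * (κ ^ 2 - t ^ 2) + κ * η) ≤
      -(κ * Δ / 2) - ε / 2 * t ^ 2 := by
  have h1 := sech_lip (2 * τ) (2 * (t + τ))
  have h2 : |2 * (t + τ) - 2 * τ| = 2 * |t| := by
    rw [show 2 * (t + τ) - 2 * τ = 2 * t by ring, abs_mul, abs_two]
  rw [h2] at h1
  have h3 : |b * (1 / Real.cosh (2 * (t + τ)) - 1 / Real.cosh (2 * τ))| ≤ 4 * |t| := by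
    rw [abs_mul]
    calc _ ≤ 2 * (2 * |t|) := mul_le_mul hb h1 (abs_nonneg _) (by norm_num)
      _ = 4 * |t| := by ring
  have h4 : b / Real.cosh (2 * τ) - 4 * |t| ≤ b / Real.cosh (2 * (t + τ)) := by
    have h5 := (abs_le.1 h3).1
    have e1 : b * (1 / Real.cosh (2 * (t + τ)) - 1 / Real.cosh (2 * τ)) =
        b / Real.cosh (2 * (t + τ)) - b / Real.cosh (2 * τ) := by ring
    rw [e1] at h5
    linarith
  have h6 : η + Δ - 4 * |t| ≤ b / Real.cosh (2 * (t + τ)) := by linarith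
  have h7 : κ * (η + Δ - 4 * |t|) ≤ κ * (b / Real.cosh (2 * (t + τ))) :=
    mul_le_mul_of_nonneg_left h6 hκ.le
  have h8 : 4 * κ * |t| ≤ ε / 2 * t ^ 2 + 8 * κ ^ 2 / ε := by
    have h9 : 0 ≤ (ε * |t| - 4 * κ) ^ 2 := sq_nonneg _
    have h10 : 0 ≤ (ε * |t| - 4 * κ) ^ 2 / (2 * ε) := by positivity
    have h11 : (ε * |t| - 4 * κ) ^ 2 / (2 * ε) =
        ε / 2 * t ^ 2 + 8 * κ ^ 2 / ε - 4 * κ * |t| := by
      rw [← sq_abs t]
      field_simp
      ring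
    linarith
  have h12 : κ * (κ * (C + ε + 8 / ε)) ≤ κ * (Δ / 2) := mul_le_mul_of_nonneg_left hk hκ.le
  have h13 : κ * (κ * (C + ε + 8 / ε)) = C * κ ^ 2 + ε * κ ^ 2 + 8 * κ ^ 2 / ε := by ring
  nlinarith

/-- the integrand on the line -/
lemma integrand {C κ₀ ε η Δ κ τ : ℝ} {n w : ℕ} (hn : 0 < n) (hw : w ≤ n) (hQ : QB C κ₀ n w)
    (hε : 0 < ε) (hκ : 0 < κ) (hκ₀ : κ ≤ κ₀) (hk : κ * (C + ε + 8 / ε) ≤ Δ / 2)
    (h : η + Δ ≤ bb n w / Real.cosh (2 * τ)) (t : ℝ) :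
    ‖YY n w ε τ (((-κ : ℝ) : ℂ) + t * Complex.I) / (((-κ : ℝ) : ℂ) + t * Complex.I) *
      Complex.exp (-(((-κ : ℝ) : ℂ) + t * Complex.I) * ((n * η : ℝ) : ℂ))‖ ≤
      κ⁻¹ * Real.exp (-(n * (κ * Δ / 2))) * Real.exp (-(n * ε / 2) * t ^ 2) := by
  have hn' : (0 : ℝ) < n := by exact_mod_cast hn
  set s : ℂ := ((-κ : ℝ) : ℂ) + t * Complex.I with hs
  have e1 : s + τ * Complex.I = ((-κ : ℝ) : ℂ) + ((t + τ : ℝ) : ℂ) * Complex.I := by
    rw [hs]
    push_cast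
    ring
  have hre : s.re = -κ := by simp [hs]
  have him : s.im = t := by simp [hs]
  have h1 : ‖QQ n w (s + τ * Complex.I)‖ ≤
      Real.exp (n * (-κ * (bb n w / Real.cosh (2 * (t + τ))) + C * (-κ) ^ 2)) := by
    rw [e1]
    exact hQ.q6 (-κ) (t + τ) (by rw [abs_neg, abs_of_pos hκ]; exact hκ₀) (by linarith)
  have h2 : ‖Complex.exp (n * ε * s ^ 2)‖ = Real.exp (n * (ε * (κ ^ 2 - t ^ 2))) := by
    rw [Complex.norm_exp]
    congr 1
    have e2 : (n * ε * s ^ 2 : ℂ) = ((n * ε : ℝ) : ℂ) * s ^ 2 := by push_cast; ring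
    rw [e2, Complex.re_ofReal_mul, pow_two, Complex.mul_re, hre, him]
    ring
  have h3 : ‖Complex.exp (-s * ((n * η : ℝ) : ℂ))‖ = Real.exp (n * (κ * η)) := by
    rw [Complex.norm_exp]
    congr 1
    rw [Complex.re_mul_ofReal, Complex.neg_re, hre]
    ring
  have h4 : κ ≤ ‖s‖ := by
    have := Complex.abs_re_le_norm s
    rw [hre, abs_neg, abs_of_pos hκ] at this
    exact this
  have h5 : ‖YY n w ε τ s‖ ≤ Real.exp (n * (-κ * (bb n w / Real.cosh (2 * (t + τ))) +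
      C * (-κ) ^ 2)) * Real.exp (n * (ε * (κ ^ 2 - t ^ 2))) := by
    unfold YY
    rw [norm_mul, h2]
    exact mul_le_mul_of_nonneg_right h1 (Real.exp_pos _).le
  rw [norm_mul, norm_div, h3]
  have h6 : ‖YY n w ε τ s‖ / ‖s‖ ≤ κ⁻¹ * (Real.exp (n * (-κ * (bb n w /
      Real.cosh (2 * (t + τ))) + C * (-κ) ^ 2)) * Real.exp (n * (ε * (κ ^ 2 - t ^ 2)))) := by
    rw [div_eq_inv_mul]
    exact mul_le_mul (inv_anti₀ hκ h4) h5 (norm_nonneg _) (inv_nonneg.2 hκ.le)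
  refine (mul_le_mul_of_nonneg_right h6 (Real.exp_pos _).le).trans ?_
  rw [mul_assoc, mul_assoc κ⁻¹, ← Real.exp_add, ← Real.exp_add, ← Real.exp_add]
  refine mul_le_mul_of_nonneg_left (Real.exp_le_exp.2 ?_) (inv_nonneg.2 hκ.le)
  have h7 := mul_le_mul_of_nonneg_left
    (expo (C := C) (t := t) hε hκ (bb_abs n w hn hw) hk h) hn'.le
  nlinarith

theorem left (h : S_sh) (hb : S_qb) : S_left := by
  intro ε η Δ hε hη hΔ
  obtain ⟨C, κ₀, hC, hκ₀, hκπ, hQ⟩ := hb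
  have hD : 0 < C + ε + 8 / ε := by positivity
  set κ : ℝ := min κ₀ (Δ / 2 / (C + ε + 8 / ε)) with hκdef
  have hκ : 0 < κ := lt_min hκ₀ (by positivity)
  have hκ1 : κ ≤ κ₀ := min_le_left _ _
  have hκ2 : κ * (C + ε + 8 / ε) ≤ Δ / 2 := by
    have := min_le_right κ₀ (Δ / 2 / (C + ε + 8 / ε))
    rwa [← hκdef, le_div_iff₀ hD] at this
  set K : ℝ := κ⁻¹ * √(2 * Real.pi / ε) with hK
  have hK0 : 0 ≤ K := by positivity
  obtain ⟨n₁, hn₁⟩ := exists_nat_ge (K / (κ * Δ / 4))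
  refine ⟨κ * Δ / 4, by positivity, n₁ + 1, ?_⟩
  intro n w hn hw τ hτ
  have hn0 : 0 < n := by omega
  have hn' : (1 : ℝ) ≤ n := by exact_mod_cast hn0
  have hsh := (h n w ε η τ hn0 hw hε).2 (-κ) (by linarith) (by linarith)
  rw [hsh]
  have hint : Integrable (fun t : ℝ => κ⁻¹ * Real.exp (-(n * (κ * Δ / 2))) *
      Real.exp (-(n * ε / 2) * t ^ 2)) := by
    refine Integrable.const_mul ?_ _
    exact integrable_exp_neg_mul_sq (by positivity)
  have hW : ‖WW (YY n w ε τ) (-κ) (n * η)‖ ≤ ∫ t : ℝ, κ⁻¹ * Real.exp (-(n * (κ * Δ / 2))) *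
      Real.exp (-(n * ε / 2) * t ^ 2) := by
    unfold WW
    refine norm_integral_le_of_norm_le hint (ae_of_all _ fun t => ?_)
    exact integrand hn0 hw (hQ n w hn0 hw) hε hκ hκ1 hκ2 hτ t
  rw [integral_const_mul, integral_gaussian] at hW
  have h1 : √(Real.pi / (n * ε / 2)) ≤ √(2 * Real.pi / ε) := by
    apply Real.sqrt_le_sqrt
    rw [div_le_div_iff₀ (by positivity) hε]
    have : 0 ≤ Real.pi * ε := by positivity
    nlinarith
  have h2 : K ≤ Real.exp (n * (κ * Δ / 4)) := by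
    have h3 : K / (κ * Δ / 4) ≤ n := hn₁.trans (by exact_mod_cast (by omega : n₁ ≤ n))
    rw [div_le_iff₀ (by positivity)] at h3
    have h4 := Real.add_one_le_exp (n * (κ * Δ / 4))
    linarith
  have hpi : 1 ≤ 2 * Real.pi := by linarith [Real.pi_gt_three]
  rw [norm_div]
  have h5 : ‖(2 * Real.pi : ℂ)‖ = 2 * Real.pi := by
    rw [norm_mul, Complex.norm_ofNat, Complex.norm_real, Real.norm_eq_abs,
      abs_of_pos Real.pi_pos]
  rw [h5, div_le_iff₀ (by positivity)]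
  have h6 : Real.exp (-(n * (κ * Δ / 2))) = Real.exp (-(κ * Δ / 4) * n) *
      Real.exp (-(n * (κ * Δ / 4))) := by
    rw [← Real.exp_add]
    congr 1
    ring
  calc ‖WW (YY n w ε τ) (-κ) (n * η)‖
      ≤ κ⁻¹ * Real.exp (-(n * (κ * Δ / 2))) * √(Real.pi / (n * ε / 2)) := hW
    _ ≤ κ⁻¹ * Real.exp (-(n * (κ * Δ / 2))) * √(2 * Real.pi / ε) := by gcongr
    _ = K * Real.exp (-(n * (κ * Δ / 4))) * Real.exp (-(κ * Δ / 4) * n) := by
      rw [h6, hK]
      ring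
    _ ≤ Real.exp (n * (κ * Δ / 4)) * Real.exp (-(n * (κ * Δ / 4))) *
        Real.exp (-(κ * Δ / 4) * n) := by gcongr
    _ = Real.exp (-(κ * Δ / 4) * n) := by
      rw [← Real.exp_add, add_neg_cancel, Real.exp_zero, one_mul]
    _ ≤ Real.exp (-(κ * Δ / 4) * n) * (2 * Real.pi) :=
      le_mul_of_one_le_right (Real.exp_pos _).le hpi

end Pool.Agent.TH41.BL.LEFf
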