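import Mathlib
import Pool.Agent.TH41.BL.Stm2
import Pool.Agent.TH41.BL.LEF

set_option autoImplicit false

open MeasureTheory Filter Topology

namespace Pool.Agent.TH41.BL.LEMf

open Pool.Agent.TH41.BL

lemma S_nn (F : Fm) : 0 ≤ F.S := by
  unfold Fm.S
  refine Finset.sum_nonneg fun i _ => ?_
  have := F.c_nn i
  positivity

lemma bM_abs (F : Fm) (n w : ℕ) (hn : 0 < n) (hw : w ≤ n) : |bM F n w| ≤ 2 + F.S := by
  unfold bM
  have h1 := LEFf.bb_abs n w hn hw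
  have h2 := S_nn F
  calc |bb n w + F.S| ≤ |bb n w| + |F.S| := abs_add_le _ _
    _ ≤ 2 + F.S := by rw [abs_of_nonneg h2]; linarith

/-- the exponent on the left line -/
lemma expo {C ε η Δ κ b τ t R : ℝ} (hε : 0 < ε) (hκ : 0 < κ) (hb : |b| ≤ R)
    (hk : κ * (C + ε + R ^ 2 / ε) ≤ Δ / 2) (h : η + Δ ≤ b / Real.cosh (2 * τ)) :
    -κ * (b / Real.cosh (2 * t)) + C * (-κ) ^ 2 + (ε * (κ ^ 2 - (t - τ) ^ 2) + κ * η) ≤
      -(κ * Δ / 2) := by
  have hR : 0 ≤ R := (abs_nonneg b).trans hb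
  have h1 := LEFf.sech_lip (2 * τ) (2 * t)
  have h2 : |2 * t - 2 * τ| = 2 * |t - τ| := by
    rw [show 2 * t - 2 * τ = 2 * (t - τ) by ring, abs_mul, abs_two]
  rw [h2] at h1
  have h3 : |b * (1 / Real.cosh (2 * t) - 1 / Real.cosh (2 * τ))| ≤ 2 * R * |t - τ| := by
    rw [abs_mul]
    calc _ ≤ R * (2 * |t - τ|) := mul_le_mul hb h1 (abs_nonneg _) hR
      _ = 2 * R * |t - τ| := by ring
  have h4 : b / Real.cosh (2 * τ) - 2 * R * |t - τ| ≤ b / Real.cosh (2 * t) := by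
    have h5 := (abs_le.1 h3).1
    have e1 : b * (1 / Real.cosh (2 * t) - 1 / Real.cosh (2 * τ)) =
        b / Real.cosh (2 * t) - b / Real.cosh (2 * τ) := by ring
    rw [e1] at h5
    linarith
  have h6 : η + Δ - 2 * R * |t - τ| ≤ b / Real.cosh (2 * t) := by linarith
  have h7 : κ * (η + Δ - 2 * R * |t - τ|) ≤ κ * (b / Real.cosh (2 * t)) :=
    mul_le_mul_of_nonneg_left h6 hκ.le
  have h8 : 2 * R * κ * |t - τ| ≤ ε * (t - τ) ^ 2 + R ^ 2 * κ ^ 2 / ε := by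
    have h10 : 0 ≤ (ε * |t - τ| - R * κ) ^ 2 / ε := by positivity
    have h11 : (ε * |t - τ| - R * κ) ^ 2 / ε =
        ε * (t - τ) ^ 2 + R ^ 2 * κ ^ 2 / ε - 2 * R * κ * |t - τ| := by
      rw [← sq_abs (t - τ)]
      field_simp
      ring
    linarith
  have h12 : κ * (κ * (C + ε + R ^ 2 / ε)) ≤ κ * (Δ / 2) := mul_le_mul_of_nonneg_left hk hκ.le
  have h13 : κ * (κ * (C + ε + R ^ 2 / ε)) = C * κ ^ 2 + ε * κ ^ 2 + R ^ 2 * κ ^ 2 / ε := by ring
  nlinarith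

/-- the function under the integral, without the pole -/
noncomputable def Yf (F : Fm) (n w : ℕ) (ε η τ : ℝ) (s : ℂ) : ℂ :=
  QM F n w s * Complex.exp (n * ε * (s - τ * Complex.I) ^ 2 - n * η * (s - τ * Complex.I))

lemma norm_Yf (F : Fm) (n w : ℕ) (ε η τ σ t : ℝ) :
    ‖Yf F n w ε η τ (σ + t * Complex.I)‖ = ‖QM F n w (σ + t * Complex.I)‖ *
      Real.exp (n * (ε * (σ ^ 2 - (t - τ) ^ 2) - η * σ)) := by
  unfold Yf
  rw [norm_mul, Complex.norm_exp]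
  congr 2
  have e1 : ((σ : ℂ) + t * Complex.I) - τ * Complex.I = (σ : ℂ) + ((t - τ : ℝ) : ℂ) * Complex.I := by
    push_cast
    ring
  rw [e1]
  set u : ℂ := (σ : ℂ) + ((t - τ : ℝ) : ℂ) * Complex.I with hu
  have hre : u.re = σ := by simp [hu]
  have him : u.im = t - τ := by simp [hu]
  have e2 : ((n : ℂ) * ε * u ^ 2 - n * η * u) =
      ((n * ε : ℝ) : ℂ) * u ^ 2 - ((n * η : ℝ) : ℂ) * u := by
    push_cast
    ring
  rw [e2, Complex.sub_re, Complex.re_ofReal_mul, Complex.re_ofReal_mul, pow_two, Complex.mul_re,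
    hre, him]
  ring

lemma Yf_pole (F : Fm) (n w : ℕ) (ε η τ : ℝ) :
    Yf F n w ε η τ (τ * Complex.I) = QM F n w (τ * Complex.I) := by
  unfold Yf
  rw [sub_self]
  simp

theorem leftM (h : S_rect) (hb : S_qbm) : S_leftM := by
  intro F T hT hF ε η Δ ϑ hε hη hΔ hϑ
  obtain ⟨C, κ₀, hC, hκ₀, hκπ, hQ⟩ := hb F T hT hF
  set R : ℝ := 2 + F.S with hR
  have hR0 : 0 < R := by have := S_nn F; linarith
  have hD : 0 < C + ε + R ^ 2 / ε := by positivity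
  have hE : 0 < C + ε + 1 := by positivity
  obtain ⟨κ, hκ, hκ1, hκ2, hκ3, hκ4⟩ : ∃ κ : ℝ, 0 < κ ∧ κ ≤ κ₀ ∧
      κ * (C + ε + R ^ 2 / ε) ≤ Δ / 2 ∧ κ * (C + ε + 1) ≤ ε * ϑ ^ 2 / 2 ∧ κ ≤ 1 := by
    refine ⟨min (min κ₀ 1) (min (Δ / 2 / (C + ε + R ^ 2 / ε)) (ε * ϑ ^ 2 / 2 / (C + ε + 1))),
      by positivity, ?_, ?_, ?_, ?_⟩
    · exact (min_le_left _ _).trans (min_le_left _ _)
    · rw [← le_div_iff₀ hD]
      exact (min_le_right _ _).trans (min_le_left _ _)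
    · rw [← le_div_iff₀ hE]
      exact (min_le_right _ _).trans (min_le_right _ _)
    · exact (min_le_left _ _).trans (min_le_right _ _)
  refine ⟨κ, hκ, ?_⟩
  intro c hc hcκ
  set ε₁ : ℝ := min (κ * Δ / 2) (ε * ϑ ^ 2 / 2) / 2 with hε₁
  have hε₁0 : 0 < ε₁ := by positivity
  have hε₁a : 2 * ε₁ ≤ κ * Δ / 2 := by
    have := min_le_left (κ * Δ / 2) (ε * ϑ ^ 2 / 2)
    linarith
  have hε₁b : 2 * ε₁ ≤ ε * ϑ ^ 2 / 2 := by
    have := min_le_right (κ * Δ / 2) (ε * ϑ ^ 2 / 2)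
    linarith
  set K : ℝ := 2 * T / κ + 4 * κ / ϑ with hK
  have hK0 : 0 < K := by positivity
  obtain ⟨n₁, hn₁⟩ := exists_nat_ge (K / ε₁)
  refine ⟨ε₁, hε₁0, n₁ + 1, ?_⟩
  intro n w hn hw τ hτ hbτ
  have hn0 : 0 < n := by omega
  have hn' : (1 : ℝ) ≤ n := by exact_mod_cast hn0
  have hq := hQ n w hn0 hw
  have hτT : |τ| < T := by linarith
  -- differentiability
  have hdiff : ∀ s : ℂ, -κ ≤ s.re → s.re ≤ κ → |s.im| ≤ T →
      DifferentiableAt ℂ (Yf F n w ε η τ) s := by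
    intro s h1 h2 h3
    have h4 : DifferentiableAt ℂ (QM F n w) s :=
      hq.m10 s ((abs_le.2 ⟨h1, h2⟩).trans hκ1) h3
    unfold Yf
    refine h4.mul (DifferentiableAt.cexp ?_)
    fun_prop
  -- horizontal sides
  have hhor0 : ∀ σ t : ℝ, -κ ≤ σ → σ ≤ κ → |t| ≤ T → ϑ ^ 2 ≤ (t - τ) ^ 2 →
      ‖Yf F n w ε η τ (σ + t * Complex.I)‖ ≤ Real.exp (-(n * (ε * ϑ ^ 2 / 2))) := by
    intro σ t h1 h2 h3 h4
    have hσ : |σ| ≤ κ := abs_le.2 ⟨h1, h2⟩
    rw [norm_Yf]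
    have h5 := hq.m2 σ t (hσ.trans hκ1) h3
    refine (mul_le_mul_of_nonneg_right h5 (Real.exp_pos _).le).trans ?_
    rw [← Real.exp_add]
    apply Real.exp_le_exp.2
    have h6 : -(η * σ) ≤ κ := by
      have h7 : |η * σ| ≤ 1 * κ := by
        rw [abs_mul]
        exact mul_le_mul hη hσ (abs_nonneg _) zero_le_one
      have := (abs_le.1 h7).1
      linarith
    have h8 : σ ^ 2 ≤ κ := by
      have h9 : σ ^ 2 ≤ κ ^ 2 := by
        rw [← sq_abs σ]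
        exact pow_le_pow_left₀ (abs_nonneg _) hσ 2
      nlinarith
    have h10 : C * |σ| ≤ C * κ := mul_le_mul_of_nonneg_left hσ hC.le
    have h11 : ε * (σ ^ 2 - (t - τ) ^ 2) ≤ ε * (κ - ϑ ^ 2) :=
      mul_le_mul_of_nonneg_left (by linarith) hε.le
    have h12 : C * |σ| + (ε * (σ ^ 2 - (t - τ) ^ 2) - η * σ) ≤ -(ε * ϑ ^ 2 / 2) := by
      have : C * κ + ε * (κ - ϑ ^ 2) + κ = κ * (C + ε + 1) - ε * ϑ ^ 2 := by ring
      linarith
    have h13 := mul_le_mul_of_nonneg_left h12 (by linarith : (0 : ℝ) ≤ n)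
    linarith
  have hsq : ∀ t : ℝ, |t| = T → ϑ ^ 2 ≤ (t - τ) ^ 2 := by
    intro t ht
    rw [← sq_abs (t - τ)]
    apply pow_le_pow_left₀ hϑ.le
    have := abs_sub_abs_le_abs_sub t τ
    linarith
  have hhor : ∀ σ : ℝ, -κ ≤ σ → σ ≤ κ →
      ‖Yf F n w ε η τ (σ + T * Complex.I)‖ ≤ Real.exp (-(n * (ε * ϑ ^ 2 / 2))) ∧
      ‖Yf F n w ε η τ (σ + (-T : ℝ) * Complex.I)‖ ≤ Real.exp (-(n * (ε * ϑ ^ 2 / 2))) := by
    intro σ h1 h2
    refine ⟨hhor0 σ T h1 h2 (abs_of_pos hT).le (hsq T (abs_of_pos hT)), ?_⟩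
    exact hhor0 σ (-T) h1 h2 (by rw [abs_neg, abs_of_pos hT])
      (hsq (-T) (by rw [abs_neg, abs_of_pos hT]))
  -- the contour
  have hrect := (h (Yf F n w ε η τ) (-κ) κ T τ (Real.exp (-(n * (ε * ϑ ^ 2 / 2)))) (by linarith) hκ
    hτT hdiff hhor).2 (-κ) c le_rfl (by linarith) hc hcκ
  rw [Yf_pole] at hrect
  -- the left line
  have hleft : ‖∫ t in (-T)..T, Yf F n w ε η τ (((-κ : ℝ) : ℂ) + t * Complex.I) /
      (((-κ : ℝ) : ℂ) + (t - τ) * Complex.I)‖ ≤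
      κ⁻¹ * Real.exp (-(n * (κ * Δ / 2))) * |T - -T| := by
    apply intervalIntegral.norm_integral_le_of_norm_le_const
    intro t ht
    rw [Set.uIoc_of_le (by linarith)] at ht
    have htT : |t| ≤ T := abs_le.2 ⟨ht.1.le, ht.2⟩
    have h1 := hq.m6 (-κ) t (by rw [abs_neg, abs_of_pos hκ]; exact hκ1) (by linarith) htT
    have h2 : κ ≤ ‖((-κ : ℝ) : ℂ) + (t - τ) * Complex.I‖ := by
      have h3 := Complex.abs_re_le_norm (((-κ : ℝ) : ℂ) + (t - τ) * Complex.I)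
      have h4 : (((-κ : ℝ) : ℂ) + (t - τ) * Complex.I).re = -κ := by simp
      rw [h4, abs_neg, abs_of_pos hκ] at h3
      exact h3
    rw [norm_div, norm_Yf, div_eq_inv_mul]
    refine mul_le_mul (inv_anti₀ hκ h2) ?_ (by positivity) (by positivity)
    refine (mul_le_mul_of_nonneg_right h1 (Real.exp_pos _).le).trans ?_
    rw [← Real.exp_add]
    apply Real.exp_le_exp.2
    have h5 := mul_le_mul_of_nonneg_left
      (expo (C := C) (t := t) hε hκ (bM_abs F n w hn0 hw) hκ2 hbτ) (by linarith : (0 : ℝ) ≤ n)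
    nlinarith
  -- the test function
  have hvM : 2 * Real.pi * vM F T n w ε η c τ =
      ∫ t in (-T)..T, Yf F n w ε η τ ((c : ℂ) + t * Complex.I) /
        ((c : ℂ) + (t - τ) * Complex.I) := by
    unfold vM
    have hpi : (2 * Real.pi : ℂ) ≠ 0 := by
      have := Real.pi_ne_zero
      exact mul_ne_zero two_ne_zero (by exact_mod_cast this)
    rw [mul_div_cancel₀ _ hpi]
    apply intervalIntegral.integral_congr
    intro t _
    simp only [Yf, Kf]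
    rw [mul_div_assoc]
    congr 3
    have e1 : (c : ℂ) + t * Complex.I - τ * Complex.I = (c : ℂ) + (t - τ) * Complex.I := by ring
    rw [e1]
  have hpi : 1 ≤ 2 * Real.pi := by linarith [Real.pi_gt_three]
  have hfin : ‖(2 * Real.pi : ℂ) * (vM F T n w ε η c τ - QM F n w (τ * Complex.I))‖ ≤
      K * Real.exp (-(2 * ε₁ * n)) := by
    rw [mul_sub, hvM]
    have e1 : (∫ t in (-T)..T, Yf F n w ε η τ ((c : ℂ) + t * Complex.I) /
        ((c : ℂ) + (t - τ) * Complex.I)) - 2 * Real.pi * QM F n w (τ * Complex.I) =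
        ((∫ t in (-T)..T, Yf F n w ε η τ ((c : ℂ) + t * Complex.I) /
          ((c : ℂ) + (t - τ) * Complex.I)) -
        (∫ t in (-T)..T, Yf F n w ε η τ (((-κ : ℝ) : ℂ) + t * Complex.I) /
          (((-κ : ℝ) : ℂ) + (t - τ) * Complex.I)) - 2 * Real.pi * QM F n w (τ * Complex.I)) +
        (∫ t in (-T)..T, Yf F n w ε η τ (((-κ : ℝ) : ℂ) + t * Complex.I) /
          (((-κ : ℝ) : ℂ) + (t - τ) * Complex.I)) := by ring
    rw [e1]
    refine (norm_add_le _ _).trans ?_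
    have h1 : 2 * (κ - -κ) * Real.exp (-(n * (ε * ϑ ^ 2 / 2))) / (T - |τ|) ≤
        4 * κ / ϑ * Real.exp (-(2 * ε₁ * n)) := by
      have h2 : Real.exp (-(n * (ε * ϑ ^ 2 / 2))) ≤ Real.exp (-(2 * ε₁ * n)) := by
        apply Real.exp_le_exp.2
        nlinarith
      have h3 : ϑ ≤ T - |τ| := by linarith
      rw [div_le_iff₀ (by linarith)]
      calc 2 * (κ - -κ) * Real.exp (-(n * (ε * ϑ ^ 2 / 2)))
          ≤ 4 * κ * Real.exp (-(2 * ε₁ * n)) := by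
            have : 2 * (κ - -κ) = 4 * κ := by ring
            rw [this]
            exact mul_le_mul_of_nonneg_left h2 (by positivity)
        _ = 4 * κ / ϑ * Real.exp (-(2 * ε₁ * n)) * ϑ := by field_simp
        _ ≤ 4 * κ / ϑ * Real.exp (-(2 * ε₁ * n)) * (T - |τ|) :=
            mul_le_mul_of_nonneg_left h3 (by positivity)
    have h4 : κ⁻¹ * Real.exp (-(n * (κ * Δ / 2))) * |T - -T| ≤
        2 * T / κ * Real.exp (-(2 * ε₁ * n)) := by
      have h5 : Real.exp (-(n * (κ * Δ / 2))) ≤ Real.exp (-(2 * ε₁ * n)) := by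
        apply Real.exp_le_exp.2
        nlinarith
      have h6 : |T - -T| = 2 * T := by
        rw [sub_neg_eq_add, ← two_mul, abs_of_pos (by linarith)]
      rw [h6]
      calc κ⁻¹ * Real.exp (-(n * (κ * Δ / 2))) * (2 * T)
          ≤ κ⁻¹ * Real.exp (-(2 * ε₁ * n)) * (2 * T) := by gcongr
        _ = 2 * T / κ * Real.exp (-(2 * ε₁ * n)) := by field_simp
    have h7 := hrect.trans h1
    have h8 := hleft.trans h4
    rw [hK, add_mul]
    linarith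
  have hKe : K ≤ Real.exp (ε₁ * n) := by
    have h3 : K / ε₁ ≤ n := hn₁.trans (by exact_mod_cast (by omega : n₁ ≤ n))
    rw [div_le_iff₀ hε₁0] at h3
    have h4 := Real.add_one_le_exp (ε₁ * n)
    nlinarith
  rw [norm_mul] at hfin
  have h5 : ‖(2 * Real.pi : ℂ)‖ = 2 * Real.pi := by
    rw [norm_mul, Complex.norm_ofNat, Complex.norm_real, Real.norm_eq_abs,
      abs_of_pos Real.pi_pos]
  rw [h5] at hfin
  calc ‖vM F T n w ε η c τ - QM F n w (τ * Complex.I)‖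
      ≤ 2 * Real.pi * ‖vM F T n w ε η c τ - QM F n w (τ * Complex.I)‖ :=
        le_mul_of_one_le_left (norm_nonneg _) hpi
    _ ≤ K * Real.exp (-(2 * ε₁ * n)) := hfin
    _ ≤ Real.exp (ε₁ * n) * Real.exp (-(2 * ε₁ * n)) := by gcongr
    _ = Real.exp (-ε₁ * n) := by
      rw [← Real.exp_add]
      congr 1
      ring

end Pool.Agent.TH41.BL.LEMf
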