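import Mathlib
import Pool.Agent.TH41.BL.Stm

/-!
BL-LAM (a): `Lam` is a primitive of `Lz` in the strip (differentiation under the integral sign and
the fundamental theorem along the segments from `0`).
-/

set_option autoImplicit false

open MeasureTheory Filter Topology

namespace Pool.Agent.TH41.BL.LMAf

open Pool.Agent.TH41.BL

open Pool.Agent.TH41.LP (WW)

/-- the primitive of a holomorphic function on an open set which is star-shaped about `0` -/
theorem prim {S : Set ℂ} (hS : IsOpen S)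
    (hstar : ∀ s ∈ S, ∀ u : ℝ, u ∈ Set.Icc (0 : ℝ) 1 → (u : ℂ) * s ∈ S) {f : ℂ → ℂ}
    (hf : DifferentiableOn ℂ f S) {s₀ : ℂ} (hs₀ : s₀ ∈ S) :
    HasDerivAt (fun s : ℂ => ∫ u in (0 : ℝ)..1, s * f (u * s)) (f s₀) s₀ := by
  have hfd : DifferentiableOn ℂ (deriv f) S := hf.deriv hS
  have hfc : ContinuousOn f S := hf.continuousOn
  have hfdc : ContinuousOn (deriv f) S := hfd.continuousOn
  obtain ⟨ε, hε, hball⟩ := Metric.isOpen_iff.1 hS s₀ hs₀
  have hcb : Metric.closedBall s₀ (ε / 2) ⊆ S :=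
    (Metric.closedBall_subset_ball (half_lt_self hε)).trans hball
  -- the derivative of the integrand
  set G : ℂ → ℝ → ℂ := fun s u => f (u * s) + (u * s) * deriv f (u * s) with hG
  have hmulc : Continuous fun p : ℝ × ℂ => (p.1 : ℂ) * p.2 :=
    (Complex.continuous_ofReal.comp continuous_fst).mul continuous_snd
  have hmaps : Set.MapsTo (fun p : ℝ × ℂ => (p.1 : ℂ) * p.2)
      (Set.Icc (0 : ℝ) 1 ×ˢ Metric.closedBall s₀ (ε / 2)) S := by
    rintro ⟨u, s⟩ ⟨hu, hs⟩
    exact hstar s (hcb hs) u hu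
  have hGc : ContinuousOn (fun p : ℝ × ℂ => G p.2 p.1)
      (Set.Icc (0 : ℝ) 1 ×ˢ Metric.closedBall s₀ (ε / 2)) := by
    have h1 := hfc.comp hmulc.continuousOn hmaps
    have h2 := hfdc.comp hmulc.continuousOn hmaps
    exact h1.add (hmulc.continuousOn.mul h2)
  have hK : IsCompact (Set.Icc (0 : ℝ) 1 ×ˢ Metric.closedBall s₀ (ε / 2)) :=
    isCompact_Icc.prod (isCompact_closedBall s₀ (ε / 2))
  obtain ⟨C, hC⟩ := hK.exists_bound_of_continuousOn hGc
  -- the integrand is continuous in `u`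
  have hmaps1 : ∀ s ∈ S, Set.MapsTo (fun u : ℝ => (u : ℂ) * s) (Set.Icc (0 : ℝ) 1) S :=
    fun s hs u hu => hstar s hs u hu
  have hlin : ∀ s : ℂ, Continuous fun u : ℝ => (u : ℂ) * s := fun s =>
    Complex.continuous_ofReal.mul continuous_const
  have hFc : ∀ s ∈ S, ContinuousOn (fun u : ℝ => s * f (u * s)) (Set.Icc (0 : ℝ) 1) :=
    fun s hs => continuousOn_const.mul (hfc.comp (hlin s).continuousOn (hmaps1 s hs))
  have hGc1 : ContinuousOn (fun u : ℝ => G s₀ u) (Set.Icc (0 : ℝ) 1) :=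
    (hfc.comp (hlin s₀).continuousOn (hmaps1 s₀ hs₀)).add
      ((hlin s₀).continuousOn.mul (hfdc.comp (hlin s₀).continuousOn (hmaps1 s₀ hs₀)))
  have huI : Set.uIoc (0 : ℝ) 1 = Set.Ioc 0 1 := Set.uIoc_of_le zero_le_one
  have hsub : Set.Ioc (0 : ℝ) 1 ⊆ Set.Icc 0 1 := Set.Ioc_subset_Icc_self
  have key := (intervalIntegral.hasDerivAt_integral_of_dominated_loc_of_deriv_le
    (μ := volume) (a := (0 : ℝ)) (b := 1) (F := fun (s : ℂ) (u : ℝ) => s * f (u * s)) (F' := G)
    (x₀ := s₀) (s := Metric.ball s₀ (ε / 2)) (bound := fun _ => C)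
    (Metric.ball_mem_nhds s₀ (half_pos hε)) ?_ ?_ ?_ ?_ ?_ ?_).2
  · -- the value of the derivative
    have hval : ∫ u in (0 : ℝ)..1, G s₀ u = f s₀ := by
      have hder : ∀ u ∈ Set.uIcc (0 : ℝ) 1,
          HasDerivAt (fun u : ℝ => (u : ℂ) * f (u * s₀)) (G s₀ u) u := by
        intro u hu
        rw [Set.uIcc_of_le zero_le_one] at hu
        have hmem : (u : ℂ) * s₀ ∈ S := hstar s₀ hs₀ u hu
        have h1 : HasDerivAt f (deriv f (u * s₀)) (u * s₀) :=
          (hf.differentiableAt (hS.mem_nhds hmem)).hasDerivAt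
        have h2 : HasDerivAt (fun u : ℝ => (u : ℂ) * s₀) s₀ u := by
          simpa using (Complex.ofRealCLM.hasDerivAt (x := u)).mul_const s₀
        have h3 : HasDerivAt (fun u : ℝ => f (u * s₀)) (deriv f (u * s₀) * s₀) u :=
          HasDerivAt.comp (h₂ := f) (h := fun u : ℝ => (u : ℂ) * s₀) u h1 h2
        have h4 : HasDerivAt (fun u : ℝ => (u : ℂ)) 1 u := HasDerivAt.ofReal_comp (hasDerivAt_id u)
        have h5 := h4.mul h3
        refine h5.congr_deriv ?_
        simp only [hG]
        ring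
      have hint : IntervalIntegrable (fun u : ℝ => G s₀ u) volume 0 1 := by
        apply ContinuousOn.intervalIntegrable
        rw [Set.uIcc_of_le zero_le_one]
        exact hGc1
      rw [intervalIntegral.integral_eq_sub_of_hasDerivAt hder hint]
      simp
    rw [hval] at key
    exact key
  · -- measurability of the integrand near `s₀`
    filter_upwards [hS.mem_nhds hs₀] with s hs
    rw [huI]
    exact ((hFc s hs).mono hsub).aestronglyMeasurable measurableSet_Ioc
  · apply ContinuousOn.intervalIntegrable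
    rw [Set.uIcc_of_le zero_le_one]
    exact hFc s₀ hs₀
  · rw [huI]
    exact (hGc1.mono hsub).aestronglyMeasurable measurableSet_Ioc
  · refine Eventually.of_forall fun u hu s hs => ?_
    rw [huI] at hu
    exact hC (u, s) ⟨hsub hu, Metric.ball_subset_closedBall hs⟩
  · exact intervalIntegrable_const
  · refine Eventually.of_forall fun u hu s hs => ?_
    rw [huI] at hu
    have hmem : (u : ℂ) * s ∈ S :=
      hstar s (hcb (Metric.ball_subset_closedBall hs)) u (hsub hu)
    have h1 : HasDerivAt f (deriv f (u * s)) (u * s) :=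
      (hf.differentiableAt (hS.mem_nhds hmem)).hasDerivAt
    have h2 : HasDerivAt (fun s : ℂ => (u : ℂ) * s) u s := by
      simpa using (hasDerivAt_id s).const_mul (u : ℂ)
    have h3 : HasDerivAt (fun s : ℂ => f (u * s)) (deriv f (u * s) * u) s :=
      HasDerivAt.comp (h₂ := f) (h := fun s : ℂ => (u : ℂ) * s) s h1 h2
    have h5 := (hasDerivAt_id s).mul h3
    refine h5.congr_deriv ?_
    simp only [hG, id]
    ring

theorem lamA (h : S_lz1) : ∀ s : ℂ, -(Real.pi / 8) < s.re → s.re < 3 * Real.pi / 8 → HasDerivAt Lam (Lz s) s := by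
  intro s h1 h2
  have hpi := Real.pi_pos
  set S : Set ℂ := {z : ℂ | -(Real.pi / 8) < z.re ∧ z.re < 3 * Real.pi / 8} with hSdef
  have hS : IsOpen S :=
    (isOpen_lt continuous_const Complex.continuous_re).inter
      (isOpen_lt Complex.continuous_re continuous_const)
  have hstar : ∀ s ∈ S, ∀ u : ℝ, u ∈ Set.Icc (0 : ℝ) 1 → (u : ℂ) * s ∈ S := by
    rintro z ⟨hz1, hz2⟩ u ⟨hu0, hu1⟩
    have hre : ((u : ℂ) * z).re = u * z.re := by simp
    constructor
    · rw [hre]
      rcases le_or_gt 0 z.re with h0 | h0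
      · nlinarith [mul_nonneg hu0 h0]
      · nlinarith
    · rw [hre]
      rcases le_or_gt 0 z.re with h0 | h0
      · nlinarith
      · nlinarith
  have hf : DifferentiableOn ℂ Lz S := fun z hz => (h z hz.1 hz.2).differentiableWithinAt
  exact prim hS hstar hf (show s ∈ S from ⟨h1, h2⟩)

end Pool.Agent.TH41.BL.LMAf
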