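import Mathlib
import Pool.Agent.TH41.BL.Stm

set_option autoImplicit false

/-! Project BL: values of the primitive. -/

open MeasureTheory Filter Topology

namespace Pool.Agent.TH41.BL.LMBf

open Pool.Agent.TH41.BL

open Pool.Agent.TH41.LP (WW)

/-- the strip -/
def Sp : Set ℂ := {s : ℂ | -(Real.pi / 8) < s.re ∧ s.re < 3 * Real.pi / 8}

theorem Sp_open : IsOpen Sp :=
  (isOpen_lt continuous_const Complex.continuous_re).inter
    (isOpen_lt Complex.continuous_re continuous_const)

theorem Sp_convex : Convex ℝ Sp :=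
  (convex_halfSpace_re_gt _).inter (convex_halfSpace_re_lt _)

theorem mem_sub {s : ℂ} (hs : s ∈ Sp) : (Real.pi : ℂ) / 4 - s ∈ Sp := by
  obtain ⟨h1, h2⟩ := hs
  have h3 : ((Real.pi : ℂ) / 4 - s).re = Real.pi / 4 - s.re := by
    have : (Real.pi : ℂ) / 4 = ((Real.pi / 4 : ℝ) : ℂ) := by push_cast; ring
    rw [this, Complex.sub_re, Complex.ofReal_re]
  constructor <;> rw [h3] <;> linarith

theorem zero_mem : (0 : ℂ) ∈ Sp := by
  have := Real.pi_pos
  constructor <;> rw [Complex.zero_re] <;> linarith

theorem lamB (h1 : S_lz1) (h2 : S_lz2) (h : ∀ s : ℂ, -(Real.pi / 8) < s.re → s.re < 3 * Real.pi / 8 → HasDerivAt Lam (Lz s) s) : S_lam := by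
  have _h1 := h1
  have hL0 : Lam 0 = 0 := by simp [Lam]
  refine ⟨h, hL0, ?_, ?_, ?_⟩
  · intro s
    unfold Lam
    rw [← intervalIntegral.intervalIntegral_conj]
    refine intervalIntegral.integral_congr fun u _ => ?_
    rw [map_mul, ← h2.2.1, map_mul, Complex.conj_ofReal]
  · intro s hs1 hs2
    have hD : ∀ w ∈ Sp, HasDerivAt (fun w => Lam ((Real.pi : ℂ) / 4 - w) - Lam w) 0 w := by
      intro w hw
      have hw' := mem_sub hw
      have e1 := h _ hw'.1 hw'.2
      have e2 : HasDerivAt (fun w : ℂ => (Real.pi : ℂ) / 4 - w) (-1) w := by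
        simpa using (hasDerivAt_id w).const_sub ((Real.pi : ℂ) / 4)
      have e3 := e1.comp w e2
      have e4 := e3.sub (h w hw.1 hw.2)
      rw [h2.1 w] at e4
      exact e4.congr_deriv (by ring)
    have hconst : ∀ x ∈ Sp, ∀ y ∈ Sp, Lam ((Real.pi : ℂ) / 4 - x) - Lam x =
        Lam ((Real.pi : ℂ) / 4 - y) - Lam y := by
      intro x hx y hy
      exact Sp_open.is_const_of_deriv_eq_zero Sp_convex.isPreconnected
        (fun w hw => (hD w hw).differentiableAt.differentiableWithinAt)
        (fun w hw => (hD w hw).deriv) hx hy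
    have hp : (Real.pi : ℂ) / 4 - 0 ∈ Sp := mem_sub zero_mem
    rw [sub_zero] at hp
    have e1 := hconst 0 zero_mem ((Real.pi : ℂ) / 4) hp
    have e2 := hconst s ⟨hs1, hs2⟩ 0 zero_mem
    rw [sub_zero, sub_self, hL0] at e1
    rw [sub_zero, hL0] at e2
    have e3 : Lam ((Real.pi : ℂ) / 4) = 0 := by
      have e4 : (2 : ℂ) * Lam ((Real.pi : ℂ) / 4) = 0 := by linear_combination e1
      exact (mul_eq_zero.1 e4).resolve_left two_ne_zero
    rw [e3, sub_zero] at e2
    exact sub_eq_zero.1 e2
  · have hre : ∀ t : ℝ, ((t : ℂ) * Complex.I).re = 0 := fun t => by simp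
    have hpi := Real.pi_pos
    have hd : ∀ t : ℝ, HasDerivAt
        (fun t : ℝ => (Lam (t * Complex.I)).re + (1 / 2) * Real.log (Real.cosh (2 * t))) 0 t := by
      intro t
      have e1 : HasDerivAt Lam (Lz (t * Complex.I)) (t * Complex.I) :=
        h _ (by rw [hre]; linarith) (by rw [hre]; positivity)
      have e2 : HasDerivAt (fun t : ℝ => (t : ℂ) * Complex.I) Complex.I t := by
        simpa using (Complex.ofRealCLM.hasDerivAt (x := t)).mul_const Complex.I
      have e3 : HasDerivAt (fun t : ℝ => Lam (t * Complex.I)) (Lz (t * Complex.I) * Complex.I) t :=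
        (HasDerivAt.scomp (h := fun t : ℝ => (t : ℂ) * Complex.I) (g₁ := Lam) t e1 e2).congr_deriv
          (by rw [smul_eq_mul, mul_comm])
      have e4 : HasDerivAt (fun t : ℝ => (Lam (t * Complex.I)).re)
          (Lz (t * Complex.I) * Complex.I).re t :=
        (Complex.reCLM.hasFDerivAt.comp_hasDerivAt t e3)
      have hc : Real.cosh (2 * t) ≠ 0 := (Real.cosh_pos _).ne'
      have e5 : HasDerivAt (fun t : ℝ => Real.cosh (2 * t)) (Real.sinh (2 * t) * 2) t := by
        have e6 : HasDerivAt (fun t : ℝ => 2 * t) 2 t := by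
          simpa using (hasDerivAt_id t).const_mul (2 : ℝ)
        exact (Real.hasDerivAt_cosh (2 * t)).comp t e6
      have e7 := (e5.log hc).const_mul (1 / 2 : ℝ)
      have e8 := e4.add e7
      refine e8.congr_deriv ?_
      have e9 : (Lz (t * Complex.I) * Complex.I).re = -Real.tanh (2 * t) := by
        rcases eq_or_ne t 0 with rfl | ht
        · have : Lz ((0 : ℝ) * Complex.I) = ((-(2 / Real.pi) : ℝ) : ℂ) := by
            rw [Complex.ofReal_zero, zero_mul]
            unfold Lz
            rw [if_pos rfl]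
            push_cast
            rfl
          rw [this]
          simp
        · rw [h2.2.2 t ht]
          generalize Real.tanh (2 * t) = a
          generalize 8 * t / Real.pi / Real.sinh (4 * t) = b
          simp
      rw [e9, Real.tanh_eq_sinh_div_cosh]
      field_simp
      ring
    intro t
    have e1 := is_const_of_deriv_eq_zero (fun x => (hd x).differentiableAt)
      (fun x => (hd x).deriv) t 0
    simp only [Complex.ofReal_zero, zero_mul, hL0, Complex.zero_re, mul_zero, Real.cosh_zero,
      Real.log_one, add_zero] at e1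
    linarith

end Pool.Agent.TH41.BL.LMBf
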