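import Mathlib
import Pool.Agent.TH41.BL.Stm

set_option autoImplicit false

open MeasureTheory Filter Topology

namespace Pool.Agent.TH41.BL.LZAf

open Pool.Agent.TH41.BL

open Pool.Agent.TH41.LP (WW)

/-- a removable singularity of a quotient with simple zeros -/
theorem quot_diff (f g : ℂ → ℂ) (c : ℂ) (hf : Differentiable ℂ f) (hg : Differentiable ℂ g)
    (hg1 : deriv g c ≠ 0) :
    DifferentiableAt ℂ (fun s => dslope f c s / dslope g c s) c := by
  have h1 : DifferentiableAt ℂ (dslope f c) c := by
    have := (Complex.differentiableOn_dslope (f := f) (c := c) (s := Set.univ)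
      Filter.univ_mem).2 hf.differentiableOn
    exact this.differentiableAt Filter.univ_mem
  have h2 : DifferentiableAt ℂ (dslope g c) c := by
    have := (Complex.differentiableOn_dslope (f := g) (c := c) (s := Set.univ)
      Filter.univ_mem).2 hg.differentiableOn
    exact this.differentiableAt Filter.univ_mem
  refine h1.div h2 ?_
  rw [dslope_same]
  exact hg1

theorem quot_eq (f g : ℂ → ℂ) (c s : ℂ) (hf0 : f c = 0) (hg0 : g c = 0) (hs : s ≠ c) :
    dslope f c s / dslope g c s = f s / g s := by
  rw [dslope_of_ne _ hs, dslope_of_ne _ hs, slope_def_field, slope_def_field, hf0, hg0, sub_zero,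
    sub_zero]
  have : s - c ≠ 0 := sub_ne_zero.2 hs
  exact div_div_div_cancel_right₀ this _ _

/-- numerator -/
noncomputable def nu (s : ℂ) : ℂ := 1 - Complex.cos (4 * s) - 8 * s / Real.pi

/-- denominator -/
noncomputable def de (s : ℂ) : ℂ := Complex.sin (4 * s)

theorem nu_has (s : ℂ) : HasDerivAt nu (4 * Complex.sin (4 * s) - 8 / Real.pi) s := by
  have h4 : HasDerivAt (fun s : ℂ => 4 * s) 4 s := by
    simpa using (hasDerivAt_id s).const_mul (4 : ℂ)
  have h1 : HasDerivAt (fun s : ℂ => Complex.cos (4 * s)) (-Complex.sin (4 * s) * 4) s :=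
    (Complex.hasDerivAt_cos (4 * s)).comp s h4
  have h2 : HasDerivAt (fun s : ℂ => 8 * s / (Real.pi : ℂ)) (8 / (Real.pi : ℂ)) s := by
    have := ((hasDerivAt_id s).const_mul (8 : ℂ)).div_const (Real.pi : ℂ)
    simpa using this
  have h3 := ((hasDerivAt_const s (1 : ℂ)).sub h1).sub h2
  have h5 : HasDerivAt nu (0 - -Complex.sin (4 * s) * 4 - 8 / (Real.pi : ℂ)) s := h3
  refine h5.congr_deriv ?_
  ring

theorem de_has (s : ℂ) : HasDerivAt de (4 * Complex.cos (4 * s)) s := by
  have h4 : HasDerivAt (fun s : ℂ => 4 * s) 4 s := by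
    simpa using (hasDerivAt_id s).const_mul (4 : ℂ)
  have h1 : HasDerivAt (fun s : ℂ => Complex.sin (4 * s)) (Complex.cos (4 * s) * 4) s :=
    (Complex.hasDerivAt_sin (4 * s)).comp s h4
  have h5 : HasDerivAt de (Complex.cos (4 * s) * 4) s := h1
  refine h5.congr_deriv ?_
  ring

theorem pi4 : (4 : ℂ) * ((Real.pi : ℂ) / 4) = (Real.pi : ℂ) := by ring

theorem pi_ne : (Real.pi : ℂ) ≠ 0 := by
  exact_mod_cast Real.pi_ne_zero

theorem pi4_ne : (Real.pi : ℂ) / 4 ≠ 0 := div_ne_zero pi_ne (by norm_num)

theorem nu_zero : nu 0 = 0 := by simp [nu]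

theorem de_zero : de 0 = 0 := by simp [de]

theorem nu_pi : nu ((Real.pi : ℂ) / 4) = 0 := by
  unfold nu
  rw [pi4, Complex.cos_pi]
  have := pi_ne
  field_simp
  ring

theorem de_pi : de ((Real.pi : ℂ) / 4) = 0 := by
  unfold de
  rw [pi4, Complex.sin_pi]

theorem at_zero : DifferentiableAt ℂ Lz 0 := by
  have h := quot_diff nu de 0 (fun s => (nu_has s).differentiableAt)
    (fun s => (de_has s).differentiableAt) (by
      rw [(de_has 0).deriv]; simp)
  refine h.congr_of_eventuallyEq ?_
  have hne : ∀ᶠ s : ℂ in 𝓝 0, s ≠ (Real.pi : ℂ) / 4 :=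
    isOpen_ne.mem_nhds pi4_ne.symm
  filter_upwards [hne] with s hs
  by_cases h0 : s = 0
  · subst h0
    rw [dslope_same, dslope_same, (nu_has 0).deriv, (de_has 0).deriv]
    have := pi_ne
    simp only [Lz, if_true, mul_zero, Complex.sin_zero, Complex.cos_zero]
    field_simp
    ring
  · rw [quot_eq nu de 0 s nu_zero de_zero h0]
    simp only [Lz, if_neg h0, if_neg hs, nu, de]

theorem at_pi : DifferentiableAt ℂ Lz ((Real.pi : ℂ) / 4) := by
  have h := quot_diff nu de ((Real.pi : ℂ) / 4) (fun s => (nu_has s).differentiableAt)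
    (fun s => (de_has s).differentiableAt) (by
      rw [(de_has _).deriv, pi4, Complex.cos_pi]; norm_num)
  refine h.congr_of_eventuallyEq ?_
  have hne : ∀ᶠ s : ℂ in 𝓝 ((Real.pi : ℂ) / 4), s ≠ 0 :=
    isOpen_ne.mem_nhds pi4_ne
  filter_upwards [hne] with s hs
  by_cases h0 : s = (Real.pi : ℂ) / 4
  · subst h0
    rw [dslope_same, dslope_same, (nu_has _).deriv, (de_has _).deriv, pi4, Complex.sin_pi,
      Complex.cos_pi]
    have := pi_ne
    simp only [Lz, if_neg hs, if_true]
    field_simp
    ring
  · rw [quot_eq nu de _ s nu_pi de_pi h0]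
    simp only [Lz, if_neg h0, if_neg hs, nu, de]

theorem lz1 : S_lz1 := by
  intro s h1 h2
  by_cases h0 : s = 0
  · subst h0; exact at_zero
  by_cases hp : s = (Real.pi : ℂ) / 4
  · subst hp; exact at_pi
  have hde : de s ≠ 0 := by
    intro h
    unfold de at h
    obtain ⟨k, hk⟩ := Complex.sin_eq_zero_iff.1 h
    have hre : 4 * s.re = k * Real.pi := by
      have := congrArg Complex.re hk
      simpa using this
    have him : 4 * s.im = 0 := by
      have := congrArg Complex.im hk
      simpa using this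
    have hpi := Real.pi_pos
    have k1 : (-1 : ℝ) < k := by
      by_contra hc
      push Not at hc
      nlinarith
    have k2 : (k : ℝ) < 2 := by
      by_contra hc
      push Not at hc
      nlinarith
    have k1' : (-1 : ℤ) < k := by exact_mod_cast k1
    have k2' : k < (2 : ℤ) := by exact_mod_cast k2
    have hk' : k = 0 ∨ k = 1 := by omega
    rcases hk' with rfl | rfl
    · apply h0
      apply Complex.ext
      · simp at hre ⊢; exact hre
      · simp at him ⊢; exact him
    · apply hp
      apply Complex.ext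
      · have : (((Real.pi : ℂ) / 4)).re = Real.pi / 4 := by
          have : ((Real.pi : ℂ) / 4) = ((Real.pi / 4 : ℝ) : ℂ) := by push_cast; ring
          rw [this, Complex.ofReal_re]
        rw [this]
        push_cast at hre
        linarith
      · have : (((Real.pi : ℂ) / 4)).im = 0 := by
          have : ((Real.pi : ℂ) / 4) = ((Real.pi / 4 : ℝ) : ℂ) := by push_cast; ring
          rw [this, Complex.ofReal_im]
        rw [this]
        linarith
  have h := (nu_has s).differentiableAt.div (de_has s).differentiableAt hde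
  refine h.congr_of_eventuallyEq ?_
  filter_upwards [isOpen_ne.mem_nhds h0, isOpen_ne.mem_nhds hp] with u hu0 hup
  simp only [Lz, if_neg hu0, if_neg hup, nu, de, Pi.div_apply]

end Pool.Agent.TH41.BL.LZAf
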