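import Mathlib
import Pool.Agent.TH41.BL.Stm

/-!
# Algebraic identities of `Lz` (job BL-LZ2, helper416 for helper41)
-/

set_option autoImplicit false

open MeasureTheory Filter Topology

namespace Pool.Agent.TH41.BL.LZBf

open Pool.Agent.TH41.BL

open Pool.Agent.TH41.LP (WW)

theorem pi0 : (Real.pi : ℂ) ≠ 0 := by exact_mod_cast Real.pi_ne_zero

theorem refl (s : ℂ) : Lz ((Real.pi : ℂ) / 4 - s) = -Lz s := by
  have hp := pi0
  by_cases h0 : s = 0
  · subst h0
    rw [sub_zero]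
    unfold Lz
    rw [if_neg (div_ne_zero hp (by norm_num)), if_pos rfl, if_pos rfl, neg_neg]
  by_cases h1 : s = (Real.pi : ℂ) / 4
  · subst h1
    rw [sub_self]
    unfold Lz
    rw [if_pos rfl, if_neg h0, if_pos rfl]
  have h2 : (Real.pi : ℂ) / 4 - s ≠ 0 := fun h => h1 (sub_eq_zero.1 h).symm
  have h3 : (Real.pi : ℂ) / 4 - s ≠ (Real.pi : ℂ) / 4 := by
    intro h
    apply h0
    linear_combination -h
  unfold Lz
  rw [if_neg h2, if_neg h3, if_neg h0, if_neg h1]
  have e1 : 4 * ((Real.pi : ℂ) / 4 - s) = Real.pi - 4 * s := by ring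
  rw [e1, Complex.cos_pi_sub, Complex.sin_pi_sub, ← neg_div]
  congr 1
  field_simp
  ring

theorem conj (s : ℂ) : Lz ((starRingEnd ℂ) s) = (starRingEnd ℂ) (Lz s) := by
  have hp := pi0
  have c1 : (starRingEnd ℂ) (Real.pi : ℂ) = Real.pi := Complex.conj_ofReal _
  have c2 : (starRingEnd ℂ) (2 : ℂ) = 2 := map_ofNat _ 2
  have c4 : (starRingEnd ℂ) (4 : ℂ) = 4 := map_ofNat _ 4
  have c8 : (starRingEnd ℂ) (8 : ℂ) = 8 := map_ofNat _ 8
  by_cases h0 : s = 0
  · subst h0
    rw [map_zero]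
    unfold Lz
    rw [if_pos rfl, map_neg, map_div₀, c1, c2]
  by_cases h1 : s = (Real.pi : ℂ) / 4
  · subst h1
    rw [map_div₀, c1, c4]
    unfold Lz
    rw [if_neg h0, if_pos rfl, map_div₀, c1, c2]
  have h2 : (starRingEnd ℂ) s ≠ 0 := by
    intro h
    exact h0 ((map_eq_zero (starRingEnd ℂ)).1 h)
  have h3 : (starRingEnd ℂ) s ≠ (Real.pi : ℂ) / 4 := by
    intro h
    apply h1
    have := congrArg (starRingEnd ℂ) h
    rw [Complex.conj_conj, map_div₀, c1, c4] at this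
    exact this
  unfold Lz
  rw [if_neg h2, if_neg h3, if_neg h0, if_neg h1, map_div₀, map_sub, map_sub, map_one, map_div₀,
    map_mul, c1, c8, ← Complex.cos_conj, ← Complex.sin_conj, map_mul, c4]

theorem imag (t : ℝ) (ht : t ≠ 0) : Lz (t * Complex.I) =
    ((Real.tanh (2 * t) : ℝ) : ℂ) * Complex.I -
      ((8 * t / Real.pi / Real.sinh (4 * t) : ℝ) : ℂ) := by
  have hp := pi0
  have htC : (t : ℂ) ≠ 0 := by exact_mod_cast ht
  have h0 : (t : ℂ) * Complex.I ≠ 0 := mul_ne_zero htC Complex.I_ne_zero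
  have h1 : (t : ℂ) * Complex.I ≠ (Real.pi : ℂ) / 4 := by
    intro h
    have h2 := congrArg Complex.re h
    have h3 : ((Real.pi : ℂ) / 4).re = Real.pi / 4 := by
      have : (Real.pi : ℂ) / 4 = ((Real.pi / 4 : ℝ) : ℂ) := by push_cast; rfl
      rw [this, Complex.ofReal_re]
    rw [h3] at h2
    have h4 : ((t : ℂ) * Complex.I).re = 0 := by simp
    rw [h4] at h2
    have := Real.pi_pos
    linarith
  unfold Lz
  rw [if_neg h0, if_neg h1]
  have e1 : 4 * ((t : ℂ) * Complex.I) = ((4 * t : ℝ) : ℂ) * Complex.I := by push_cast; ring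
  rw [e1, Complex.cos_mul_I, Complex.sin_mul_I, ← Complex.ofReal_cosh, ← Complex.ofReal_sinh]
  have hs : Real.sinh (2 * t) ≠ 0 := by
    rw [Ne, Real.sinh_eq_zero]
    intro h
    apply ht
    linarith
  have hc : Real.cosh (2 * t) ≠ 0 := (Real.cosh_pos _).ne'
  have e2 : Real.cosh (4 * t) = 2 * Real.sinh (2 * t) ^ 2 + 1 := by
    have := Real.cosh_two_mul (2 * t)
    have h2 := Real.cosh_sq (2 * t)
    rw [show 2 * (2 * t) = 4 * t by ring] at this
    linarith
  have e3 : Real.sinh (4 * t) = 2 * Real.sinh (2 * t) * Real.cosh (2 * t) := by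
    have := Real.sinh_two_mul (2 * t)
    rwa [show 2 * (2 * t) = 4 * t by ring] at this
  rw [Real.tanh_eq_sinh_div_cosh, e2, e3]
  push_cast
  have hsC : Complex.sinh (2 * (t : ℂ)) ≠ 0 := by
    have : ((Real.sinh (2 * t) : ℝ) : ℂ) ≠ 0 := by exact_mod_cast hs
    push_cast at this
    exact this
  have hcC : Complex.cosh (2 * (t : ℂ)) ≠ 0 := by
    have : ((Real.cosh (2 * t) : ℝ) : ℂ) ≠ 0 := by exact_mod_cast hc
    push_cast at this
    exact this
  have hI := Complex.I_ne_zero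
  have hI2 := Complex.I_sq
  generalize Complex.sinh (2 * (t : ℂ)) = S at *
  generalize Complex.cosh (2 * (t : ℂ)) = K at *
  generalize (Real.pi : ℂ) = p at *
  field_simp
  linear_combination (-2 * S ^ 2 * p) * hI2

theorem lz2 : S_lz2 := ⟨refl, conj, imag⟩

end Pool.Agent.TH41.BL.LZBf
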