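import Mathlib
import Pool.Agent.TH41.BL.Stm

/-!
# `Lz` is bounded in a strip
-/

set_option autoImplicit false

open MeasureTheory Filter Topology

namespace Pool.Agent.TH41.BL.LZCf

open Pool.Agent.TH41.BL

open Pool.Agent.TH41.LP (WW)

theorem norm_exp_neg (z : ℂ) : ‖Complex.exp (-z * Complex.I)‖ = Real.exp z.im := by
  rw [Complex.norm_exp]
  congr 1
  simp

theorem norm_exp_pos (z : ℂ) : ‖Complex.exp (z * Complex.I)‖ = Real.exp (-z.im) := by
  rw [Complex.norm_exp]
  congr 1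
  simp

theorem norm_cos_le (z : ℂ) : ‖Complex.cos z‖ ≤ Real.exp |z.im| := by
  have h : Complex.cos z = (Complex.exp (z * Complex.I) + Complex.exp (-z * Complex.I)) / 2 := rfl
  rw [h, norm_div, Complex.norm_ofNat]
  have h1 := norm_add_le (Complex.exp (z * Complex.I)) (Complex.exp (-z * Complex.I))
  rw [norm_exp_neg, norm_exp_pos] at h1
  have h2 : Real.exp z.im ≤ Real.exp |z.im| := Real.exp_le_exp.2 (le_abs_self _)
  have h3 : Real.exp (-z.im) ≤ Real.exp |z.im| := Real.exp_le_exp.2 (neg_le_abs _)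
  rw [div_le_iff₀ (by norm_num)]
  linarith

theorem le_norm_sin (z : ℂ) : (Real.exp |z.im| - Real.exp (-|z.im|)) / 2 ≤ ‖Complex.sin z‖ := by
  have h : Complex.sin z =
      (Complex.exp (-z * Complex.I) - Complex.exp (z * Complex.I)) * Complex.I / 2 := rfl
  rw [h, norm_div, Complex.norm_ofNat, norm_mul, Complex.norm_I, mul_one]
  refine div_le_div_of_nonneg_right ?_ (by norm_num)
  rcases le_total 0 z.im with h0 | h0
  · rw [abs_of_nonneg h0]
    have h1 := norm_sub_norm_le (Complex.exp (-z * Complex.I)) (Complex.exp (z * Complex.I))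
    rw [norm_exp_neg, norm_exp_pos] at h1
    exact h1
  · rw [abs_of_nonpos h0, neg_neg]
    have h1 := norm_sub_norm_le (Complex.exp (z * Complex.I)) (Complex.exp (-z * Complex.I))
    rw [norm_exp_neg, norm_exp_pos, norm_sub_rev] at h1
    exact h1

theorem far {s : ℂ} (h1 : -(Real.pi / 10) ≤ s.re) (h2 : s.re ≤ 7 * Real.pi / 20)
    (h3 : 1 ≤ |s.im|) : ‖Lz s‖ ≤ 32 := by
  have hpi := Real.pi_gt_three
  have hpi4 := Real.pi_lt_four
  have hs0 : s ≠ 0 := by
    intro h
    rw [h] at h3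
    norm_num at h3
  have hs1 : s ≠ (Real.pi : ℂ) / 4 := by
    intro h
    have : s.im = 0 := by
      rw [h]
      have e : (Real.pi : ℂ) / 4 = ((Real.pi / 4 : ℝ) : ℂ) := by push_cast; rfl
      rw [e, Complex.ofReal_im]
    rw [this] at h3
    norm_num at h3
  unfold Lz
  rw [if_neg hs0, if_neg hs1, norm_div]
  have him : (4 * s).im = 4 * s.im := by simp
  obtain ⟨Y, hY⟩ : ∃ Y, Y = |(4 * s).im| := ⟨_, rfl⟩
  have hY1 : Y = 4 * |s.im| := by rw [hY, him, abs_mul, abs_of_pos (by norm_num : (0 : ℝ) < 4)]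
  have hY4 : 4 ≤ Y := by linarith
  have hc := norm_cos_le (4 * s)
  have hsn := le_norm_sin (4 * s)
  rw [← hY] at hc hsn
  have hE := Real.add_one_le_exp Y
  have hE0 := Real.exp_pos Y
  have hneg : Real.exp (-Y) ≤ Real.exp Y / 2 := by
    have h4 : Real.exp (-Y) ≤ 1 := by
      rw [Real.exp_le_one_iff]
      linarith
    linarith
  have hsin : Real.exp Y / 4 ≤ ‖Complex.sin (4 * s)‖ := by linarith
  have hns : ‖s‖ ≤ 2 + Y := by
    have h4 := Complex.norm_le_abs_re_add_abs_im s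
    have h5 : |s.re| ≤ 2 := by
      rw [abs_le]
      constructor <;> linarith
    linarith
  have h8 : ‖8 * s / (Real.pi : ℂ)‖ ≤ 8 / 3 * (2 + Y) := by
    rw [norm_div, norm_mul, Complex.norm_real, Complex.norm_ofNat, Real.norm_eq_abs,
      abs_of_pos Real.pi_pos, div_le_iff₀ Real.pi_pos]
    have h9 : 8 / 3 * (2 + Y) * 3 ≤ 8 / 3 * (2 + Y) * Real.pi :=
      mul_le_mul_of_nonneg_left hpi.le (by linarith)
    linarith
  have hnum : ‖1 - Complex.cos (4 * s) - 8 * s / (Real.pi : ℂ)‖ ≤ 8 * Real.exp Y := by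
    have h9 := norm_sub_le (1 - Complex.cos (4 * s)) (8 * s / (Real.pi : ℂ))
    have h10 := norm_sub_le (1 : ℂ) (Complex.cos (4 * s))
    rw [norm_one] at h10
    linarith
  rw [div_le_iff₀ (by linarith)]
  linarith

theorem lz3 : S_lz1 → S_lz3 := by
  intro h
  have hpi := Real.pi_pos
  have hcomp : IsCompact (Set.Icc (-(Real.pi / 10)) (7 * Real.pi / 20) ×ℂ Set.Icc (-1 : ℝ) 1) :=
    isCompact_Icc.reProdIm isCompact_Icc
  have hcont : ContinuousOn Lz
      (Set.Icc (-(Real.pi / 10)) (7 * Real.pi / 20) ×ℂ Set.Icc (-1 : ℝ) 1) := by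
    intro s hs
    rw [Complex.mem_reProdIm] at hs
    refine (h s ?_ ?_).continuousAt.continuousWithinAt
    · have := hs.1.1
      linarith
    · have := hs.1.2
      linarith
  obtain ⟨M, hM⟩ := hcomp.exists_bound_of_continuousOn hcont
  refine ⟨|M| + 32, by positivity, fun s h1 h2 => ?_⟩
  rcases le_total 1 |s.im| with h3 | h3
  · have := far h1 h2 h3
    have := abs_nonneg M
    linarith
  · have h4 := hM s (by
      rw [Complex.mem_reProdIm]
      exact ⟨⟨h1, h2⟩, abs_le.1 h3⟩)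
    have := le_abs_self M
    linarith

end Pool.Agent.TH41.BL.LZCf
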