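import Mathlib
import Pool.Agent.TH41.BL.Stm

set_option autoImplicit false

open MeasureTheory Filter Topology

namespace Pool.Agent.TH41.BL.NEAf

open Pool.Agent.TH41.BL

open Pool.Agent.TH41.LP (WW)

/-- the root of unity -/
noncomputable def zt (N : ℕ) : ℂ := Complex.exp (2 * Real.pi * Complex.I / N)

/-- the frequencies -/
noncomputable def th (N k : ℕ) : ℝ := 2 * Real.pi * k / N

lemma exp_th (N k w : ℕ) : Complex.exp ((th N k * w : ℝ) * Complex.I) = (zt N ^ w) ^ k := by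
  rw [zt, ← Complex.exp_nat_mul, ← Complex.exp_nat_mul]
  congr 1
  simp only [th]
  push_cast
  ring

lemma norm_zt (N : ℕ) : ‖zt N‖ = 1 := by
  have : zt N = Complex.exp ((2 * Real.pi / N : ℝ) * Complex.I) := by
    rw [zt]; congr 1; push_cast; ring
  rw [this, Complex.norm_exp_ofReal_mul_I]

/-- orthogonality -/
lemma orth {N : ℕ} (hN : N ≠ 0) {w w' : ℕ} (hw : w < N) (hw' : w' < N) :
    ∑ k ∈ Finset.range N, (zt N ^ w) ^ k * ((zt N ^ w') ^ k)⁻¹ = if w' = w then (N : ℂ) else 0 := by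
  have hp : IsPrimitiveRoot (zt N) N := Complex.isPrimitiveRoot_exp N hN
  have h0 : zt N ≠ 0 := by
    intro h
    have := norm_zt N
    rw [h] at this
    simp at this
  have h1 : ∀ k, (zt N ^ w) ^ k * ((zt N ^ w') ^ k)⁻¹ = (zt N ^ w * (zt N ^ w')⁻¹) ^ k := by
    intro k
    rw [mul_pow, inv_pow]
  rw [Finset.sum_congr rfl (fun k _ => h1 k)]
  split_ifs with h
  · subst h
    rw [mul_inv_cancel₀ (pow_ne_zero _ h0)]
    simp
  · have hz : zt N ^ w * (zt N ^ w')⁻¹ ≠ 1 := by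
      intro hz
      have h2 : zt N ^ w = zt N ^ w' := by
        field_simp at hz
        exact hz
      exact h (hp.pow_inj hw hw' h2).symm
    have h3 : (zt N ^ w * (zt N ^ w')⁻¹) ^ N = 1 := by
      rw [mul_pow, inv_pow, ← pow_mul, ← pow_mul, mul_comm w, mul_comm w', pow_mul, pow_mul,
        hp.pow_eq_one]
      simp
    have h4 := mul_geom_sum (zt N ^ w * (zt N ^ w')⁻¹) N
    rw [h3, sub_self] at h4
    rcases mul_eq_zero.1 h4 with h5 | h5
    · exact absurd (sub_eq_zero.1 h5) hz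
    · exact h5

/-- the coefficients -/
noncomputable def co (N : ℕ) (s : ℕ → ℝ) (k : ℕ) : ℂ :=
  (1 / (N : ℂ)) * ∑ w ∈ Finset.range N, (s w : ℂ) * ((zt N ^ w) ^ k)⁻¹

lemma norm_co {N : ℕ} (hN : N ≠ 0) (s : ℕ → ℝ) (hs : ∀ w, |s w| ≤ 1) (k : ℕ) :
    ‖co N s k‖ ≤ 1 := by
  have hN' : (0 : ℝ) < N := by exact_mod_cast Nat.pos_of_ne_zero hN
  rw [co, norm_mul]
  have h1 : ‖∑ w ∈ Finset.range N, (s w : ℂ) * ((zt N ^ w) ^ k)⁻¹‖ ≤ N := by
    calc _ ≤ ∑ w ∈ Finset.range N, ‖(s w : ℂ) * ((zt N ^ w) ^ k)⁻¹‖ := norm_sum_le _ _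
      _ ≤ ∑ w ∈ Finset.range N, (1 : ℝ) := by
          refine Finset.sum_le_sum (fun w _ => ?_)
          rw [norm_mul, norm_inv, norm_pow, norm_pow, norm_zt, one_pow, one_pow, inv_one, mul_one,
            Complex.norm_real]
          exact hs w
      _ = N := by simp
  have h2 : ‖(1 / (N : ℂ))‖ = 1 / N := by simp
  rw [h2, div_mul_eq_mul_div, one_mul, div_le_one hN']
  exact h1

lemma sum_co {N : ℕ} (hN : N ≠ 0) (s : ℕ → ℝ) {w : ℕ} (hw : w < N) :
    ∑ k ∈ Finset.range N, co N s k * (zt N ^ w) ^ k = s w := by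
  have hN' : (N : ℂ) ≠ 0 := by exact_mod_cast hN
  have h1 : ∀ k, co N s k * (zt N ^ w) ^ k = (1 / (N : ℂ)) *
      ∑ w' ∈ Finset.range N, (s w' : ℂ) * ((zt N ^ w) ^ k * ((zt N ^ w') ^ k)⁻¹) := by
    intro k
    rw [co, mul_assoc, Finset.sum_mul]
    congr 1
    refine Finset.sum_congr rfl (fun w' _ => ?_)
    ring
  rw [Finset.sum_congr rfl (fun k _ => h1 k), ← Finset.mul_sum, Finset.sum_comm]
  have h2 : ∀ w' ∈ Finset.range N,
      ∑ k ∈ Finset.range N, (s w' : ℂ) * ((zt N ^ w) ^ k * ((zt N ^ w') ^ k)⁻¹) =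
        if w' = w then (s w' : ℂ) * N else 0 := by
    intro w' hw'
    rw [← Finset.mul_sum, orth hN hw (Finset.mem_range.1 hw')]
    split_ifs <;> simp
  rw [Finset.sum_congr rfl h2, Finset.sum_ite_eq' , if_pos (Finset.mem_range.2 hw)]
  field_simp

lemma large (e : ℝ) (he : 0 < e) : ∃ n₀ : ℕ, ∀ n : ℕ, n₀ ≤ n →
    2 * ((n : ℝ) + 1) ≤ Real.exp (e * n) := by
  obtain ⟨m, hm⟩ := exists_nat_ge (8 / e ^ 2)
  refine ⟨m + 1, fun n hn => ?_⟩
  have hn' : (m : ℝ) + 1 ≤ n := by exact_mod_cast hn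
  have hm0 : (0 : ℝ) ≤ m := Nat.cast_nonneg m
  have h1 : 8 / e ^ 2 ≤ n := by linarith
  rw [div_le_iff₀ (by positivity)] at h1
  have h2 := Real.quadratic_le_exp_of_nonneg (show 0 ≤ e * n by positivity)
  have h3 : (0 : ℝ) ≤ e * n := by positivity
  have h4 : 8 * (n : ℝ) ≤ (e * n) ^ 2 := by
    nlinarith [mul_le_mul_of_nonneg_right h1 (show (0 : ℝ) ≤ n by linarith)]
  nlinarith

theorem near (h : S_fam) : S_near := by
  intro η Δ ε₂ hη hη1 hΔ hε
  obtain ⟨n₁, h1⟩ := h η Δ (ε₂ / 2) hη hη1 hΔ (by linarith)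
  obtain ⟨n₂, h2⟩ := large (ε₂ / 2) (by linarith)
  refine ⟨max n₁ n₂, fun n hn f => ?_⟩
  have hn1 : n₁ ≤ n := (le_max_left _ _).trans hn
  have hn2 := h2 n ((le_max_right _ _).trans hn)
  choose u hu1 hu2 hu3 using h1 n hn1
  classical
  set N : ℕ := n + 1 with hNdef
  have hN : N ≠ 0 := Nat.succ_ne_zero n
  have hNr : (N : ℝ) = (n : ℝ) + 1 := by rw [hNdef]; push_cast; ring
  have hN0 : (0 : ℝ) < N := by rw [hNr]; positivity
  let s : ℕ → ℝ := fun w => if η + Δ ≤ bb n w then Real.sign (f w) else 0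
  have hs : ∀ w, |s w| ≤ 1 := by
    intro w
    simp only [s]
    split_ifs
    · rcases Real.sign_apply_eq (f w) with h | h | h <;> rw [h] <;> norm_num
    · simp
  let a : ℕ → ℂ := co N s
  have ha : ∀ k, ‖a k‖ ≤ 1 := fun k => norm_co hN s hs k
  let x : ℕ → ℂ := fun w => ∑ k ∈ Finset.range N, a k * u (th N k) w
  set E : ℝ := Real.exp (ε₂ / 2 * n) with hE
  have hE0 : 0 < E := Real.exp_pos _
  have hNN : 0 ≤ NN n f := Finset.sum_nonneg (fun j _ => by positivity)
  set R : ℝ := Real.exp (-(η * Real.pi / 4) * n) * NN n f with hR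
  have hR0 : 0 ≤ R := by positivity
  -- the three properties of `x`
  have hx1 : ∀ w, w ≤ n → η + Δ ≤ bb n w → ‖x w - s w‖ ≤ 1 / 4 := by
    intro w hw hnear
    have hw' : w < N := Nat.lt_succ_of_le hw
    rw [← sum_co hN s hw']
    simp only [x, a]
    rw [← Finset.sum_sub_distrib]
    calc _ ≤ ∑ k ∈ Finset.range N,
          ‖co N s k * u (th N k) w - co N s k * (zt N ^ w) ^ k‖ := norm_sum_le _ _
      _ ≤ ∑ k ∈ Finset.range N, 1 / (4 * ((n : ℝ) + 1)) := by
          refine Finset.sum_le_sum (fun k _ => ?_)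
          rw [← mul_sub, norm_mul, ← exp_th]
          have h3 := hu1 (th N k) w hw hnear
          calc _ ≤ 1 * (1 / (4 * ((n : ℝ) + 1))) :=
                mul_le_mul (ha k) h3 (norm_nonneg _) zero_le_one
            _ = _ := one_mul _
      _ = 1 / 4 := by
          rw [Finset.sum_const, Finset.card_range, nsmul_eq_mul, hNr]
          field_simp
  have hx2 : ∀ w, w ≤ n → ‖x w‖ ≤ N * E := by
    intro w hw
    calc _ ≤ ∑ k ∈ Finset.range N, ‖a k * u (th N k) w‖ := norm_sum_le _ _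
      _ ≤ ∑ k ∈ Finset.range N, E := by
          refine Finset.sum_le_sum (fun k _ => ?_)
          rw [norm_mul]
          calc _ ≤ 1 * E := mul_le_mul (ha k) (hu2 (th N k) w hw) (norm_nonneg _) zero_le_one
            _ = E := one_mul _
      _ = N * E := by rw [Finset.sum_const, Finset.card_range, nsmul_eq_mul]
  have hx3 : ‖∑ w ∈ Finset.range (n + 1), (n.choose w : ℂ) * x w * (f w : ℂ)‖ ≤ N * (E * R) := by
    have h3 : ∑ w ∈ Finset.range (n + 1), (n.choose w : ℂ) * x w * (f w : ℂ) =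
        ∑ k ∈ Finset.range N, a k *
          ∑ w ∈ Finset.range (n + 1), (n.choose w : ℂ) * u (th N k) w * (f w : ℂ) := by
      simp only [x, Finset.mul_sum, Finset.sum_mul]
      rw [Finset.sum_comm]
      refine Finset.sum_congr rfl (fun k _ => Finset.sum_congr rfl (fun w _ => ?_))
      ring
    rw [h3]
    calc _ ≤ ∑ k ∈ Finset.range N, ‖a k *
          ∑ w ∈ Finset.range (n + 1), (n.choose w : ℂ) * u (th N k) w * (f w : ℂ)‖ :=
          norm_sum_le _ _
      _ ≤ ∑ k ∈ Finset.range N, E * R := by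
          refine Finset.sum_le_sum (fun k _ => ?_)
          rw [norm_mul]
          calc _ ≤ 1 * (E * R) := by
                refine mul_le_mul (ha k) ?_ (norm_nonneg _) zero_le_one
                rw [hR, ← mul_assoc]
                exact hu3 (th N k) f
            _ = E * R := one_mul _
      _ = N * (E * R) := by rw [Finset.sum_const, Finset.card_range, nsmul_eq_mul]
  -- splitting
  set near := (Finset.range (n + 1)).filter (fun w => η + Δ ≤ bb n w) with hnear
  set far := (Finset.range (n + 1)).filter (fun w => bb n w < η + Δ) with hfar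
  have hfar' : far = (Finset.range (n + 1)).filter (fun w => ¬ η + Δ ≤ bb n w) := by
    rw [hfar]
    refine Finset.filter_congr (fun w _ => ?_)
    exact not_le.symm
  have hsplit : ∑ w ∈ Finset.range (n + 1), (n.choose w : ℂ) * x w * (f w : ℂ) =
      ∑ w ∈ near, (n.choose w : ℂ) * x w * (f w : ℂ) +
        ∑ w ∈ far, (n.choose w : ℂ) * x w * (f w : ℂ) := by
    rw [hfar', hnear, Finset.sum_filter_add_sum_filter_not]
  have hA : (1 / 2) * ∑ w ∈ near, (n.choose w : ℝ) * |f w| ≤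
      (∑ w ∈ near, (n.choose w : ℂ) * x w * (f w : ℂ)).re := by
    rw [Complex.re_sum, Finset.mul_sum]
    refine Finset.sum_le_sum (fun w hw => ?_)
    obtain ⟨hw1, hw2⟩ := Finset.mem_filter.1 hw
    have hwn : w ≤ n := Nat.lt_succ_iff.1 (Finset.mem_range.1 hw1)
    have h3 := hx1 w hwn hw2
    have h4 : |(x w).re - s w| ≤ 1 / 4 := by
      have := (Complex.abs_re_le_norm (x w - s w)).trans h3
      simpa using this
    have h5 : ((n.choose w : ℂ) * x w * (f w : ℂ)).re = (n.choose w : ℝ) * ((x w).re * f w) := by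
      have : (n.choose w : ℂ) * x w * (f w : ℂ) = (((n.choose w : ℝ) * f w : ℝ) : ℂ) * x w := by
        push_cast; ring
      rw [this, Complex.re_ofReal_mul]
      ring
    rw [h5, ← mul_assoc, mul_comm (1 / 2 : ℝ), mul_assoc]
    refine mul_le_mul_of_nonneg_left ?_ (Nat.cast_nonneg _)
    have h6 : s w = Real.sign (f w) := if_pos hw2
    rw [h6] at h4
    obtain ⟨h7, h8⟩ := abs_le.1 h4
    rcases lt_trichotomy (f w) 0 with hf | hf | hf
    · rw [Real.sign_of_neg hf] at h7 h8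
      rw [abs_of_neg hf]
      nlinarith
    · rw [hf]; simp
    · rw [Real.sign_of_pos hf] at h7 h8
      rw [abs_of_pos hf]
      nlinarith
  have hB : ‖∑ w ∈ far, (n.choose w : ℂ) * x w * (f w : ℂ)‖ ≤
      N * (E * ∑ w ∈ far, (n.choose w : ℝ) * |f w|) := by
    calc _ ≤ ∑ w ∈ far, ‖(n.choose w : ℂ) * x w * (f w : ℂ)‖ := norm_sum_le _ _
      _ ≤ ∑ w ∈ far, (N * E) * ((n.choose w : ℝ) * |f w|) := by
          refine Finset.sum_le_sum (fun w hw => ?_)
          obtain ⟨hw1, -⟩ := Finset.mem_filter.1 hw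
          have hwn : w ≤ n := Nat.lt_succ_iff.1 (Finset.mem_range.1 hw1)
          rw [norm_mul, norm_mul, Complex.norm_real, Complex.norm_natCast, Real.norm_eq_abs]
          calc (n.choose w : ℝ) * ‖x w‖ * |f w| = ‖x w‖ * ((n.choose w : ℝ) * |f w|) := by ring
            _ ≤ (N * E) * ((n.choose w : ℝ) * |f w|) :=
                mul_le_mul_of_nonneg_right (hx2 w hwn) (by positivity)
      _ = _ := by rw [← Finset.mul_sum]; ring
  have hC : (∑ w ∈ near, (n.choose w : ℂ) * x w * (f w : ℂ)).re ≤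
      N * (E * R) + N * (E * ∑ w ∈ far, (n.choose w : ℝ) * |f w|) := by
    have h3 : ∑ w ∈ near, (n.choose w : ℂ) * x w * (f w : ℂ) =
        ∑ w ∈ Finset.range (n + 1), (n.choose w : ℂ) * x w * (f w : ℂ) -
          ∑ w ∈ far, (n.choose w : ℂ) * x w * (f w : ℂ) := by
      rw [hsplit]; ring
    calc _ ≤ ‖∑ w ∈ near, (n.choose w : ℂ) * x w * (f w : ℂ)‖ :=
          (le_abs_self _).trans (Complex.abs_re_le_norm _)
      _ ≤ _ := by
          rw [h3]
          exact (norm_sub_le _ _).trans (add_le_add hx3 hB)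
  have hfar0 : 0 ≤ ∑ w ∈ far, (n.choose w : ℝ) * |f w| :=
    Finset.sum_nonneg (fun w _ => by positivity)
  have hE2 : Real.exp (ε₂ * n) = E * E := by
    rw [hE, ← Real.exp_add]; congr 1; ring
  rw [hE2]
  set S := ∑ w ∈ far, (n.choose w : ℝ) * |f w| with hS
  set T := ∑ w ∈ near, (n.choose w : ℝ) * |f w| with hT
  have hfin : T ≤ (2 * N) * (E * (S + R)) := by nlinarith
  have h9 : 2 * (N : ℝ) ≤ E := by rw [hNr]; exact hn2
  calc T ≤ (2 * N) * (E * (S + R)) := hfin
    _ ≤ E * (E * (S + R)) := mul_le_mul_of_nonneg_right h9 (by positivity)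
    _ = E * E * (S + R) := by ring

end Pool.Agent.TH41.BL.NEAf
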