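import Mathlib
import Pool.Agent.TH41.BL.Stm2

/-!
Project BL2 (helper41), PG: bounds of the additional factor (job 3236, written by helper914).
-/

set_option autoImplicit false

open MeasureTheory Filter Topology

namespace Pool.Agent.TH41.BL.PGAf

open Pool.Agent.TH41.BL

/-! ### elementary bounds -/

lemma sinh_le {T t : ℝ} (ht : |t| ≤ T) : |Real.sinh (2 * t)| ≤ 2 * |t| * Real.cosh (2 * T) := by
  have hT : 0 ≤ T := (abs_nonneg t).trans ht
  have h1 := Convex.norm_image_sub_le_of_norm_deriv_le (f := Real.sinh) (s := Set.Icc (-(2 * T)) (2 * T))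
    (x := 0) (y := 2 * t) (C := Real.cosh (2 * T)) (fun x _ => Real.differentiable_sinh x) (by
      intro x hx
      rw [Real.deriv_sinh, Real.norm_eq_abs, abs_of_pos (Real.cosh_pos _)]
      rw [Real.cosh_le_cosh, abs_of_nonneg (by linarith : 0 ≤ 2 * T)]
      exact abs_le.2 hx) (convex_Icc _ _) ⟨by linarith, by linarith⟩
    ⟨by linarith [(abs_le.1 ht).1], by linarith [(abs_le.1 ht).2]⟩
  rw [Real.sinh_zero, sub_zero, sub_zero, Real.norm_eq_abs, Real.norm_eq_abs, abs_mul,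
    abs_of_pos (by norm_num : (0 : ℝ) < 2)] at h1
  linarith

lemma sin_sq_le (σ : ℝ) : Real.sin (2 * σ) ^ 2 ≤ 4 * σ ^ 2 := by
  have h1 : |Real.sin (2 * σ)| ≤ |2 * σ| := Real.abs_sin_le_abs
  have h2 := sq_le_sq.2 h1
  nlinarith

/-- the real part of the denominator -/
noncomputable def XX (a σ t : ℝ) : ℝ :=
  1 - a ^ 2 * (Real.cos (2 * σ) ^ 2 * Real.cosh (2 * t) ^ 2 -
    Real.sin (2 * σ) ^ 2 * Real.sinh (2 * t) ^ 2)

/-- the imaginary part of the denominator -/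
noncomputable def YY' (a σ t : ℝ) : ℝ :=
  2 * a ^ 2 * (Real.cos (2 * σ) * Real.sin (2 * σ) * Real.cosh (2 * t) * Real.sinh (2 * t))

lemma den_eq (a σ t : ℝ) :
    1 - (a : ℂ) ^ 2 * Complex.cos (2 * (σ + t * Complex.I)) ^ 2 =
      (XX a σ t : ℂ) + (YY' a σ t : ℂ) * Complex.I := by
  have h1 : (2 * ((σ : ℂ) + t * Complex.I)) = ((2 * σ : ℝ) : ℂ) + ((2 * t : ℝ) : ℂ) * Complex.I := by
    push_cast; ring
  rw [h1, Complex.cos_add_mul_I, XX, YY']
  push_cast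
  linear_combination (-(a : ℂ) ^ 2 * (Complex.sin (2 * (σ : ℂ)) * Complex.sinh (2 * (t : ℂ))) ^ 2) *
    Complex.I_sq

lemma XX_lower {a T : ℝ} (σ t : ℝ) (_ha : 0 ≤ a) (ht : |t| ≤ T) :
    1 - a ^ 2 * Real.cosh (2 * T) ^ 2 ≤ XX a σ t := by
  have hT : 0 ≤ T := (abs_nonneg t).trans ht
  have h1 : Real.cosh (2 * t) ≤ Real.cosh (2 * T) := by
    rw [Real.cosh_le_cosh, abs_mul, abs_mul, abs_of_nonneg hT]
    have := abs_nonneg (2 : ℝ)
    nlinarith
  have h2 : Real.cosh (2 * t) ^ 2 ≤ Real.cosh (2 * T) ^ 2 :=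
    pow_le_pow_left₀ (Real.cosh_pos _).le h1 2
  have h3 : Real.cos (2 * σ) ^ 2 * Real.cosh (2 * t) ^ 2 -
    Real.sin (2 * σ) ^ 2 * Real.sinh (2 * t) ^ 2 ≤ Real.cosh (2 * T) ^ 2 := by
    have h4 : Real.cos (2 * σ) ^ 2 * Real.cosh (2 * t) ^ 2 ≤ 1 * Real.cosh (2 * t) ^ 2 :=
      mul_le_mul_of_nonneg_right (Real.cos_sq_le_one _) (sq_nonneg _)
    have h5 : 0 ≤ Real.sin (2 * σ) ^ 2 * Real.sinh (2 * t) ^ 2 := by positivity
    linarith
  have h6 := mul_le_mul_of_nonneg_left h3 (sq_nonneg a)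
  unfold XX
  linarith

lemma XX_abs {a T : ℝ} (σ t : ℝ) (ha : 0 ≤ a) (ha1 : a < 1) (ht : |t| ≤ T) :
    |XX a σ t| ≤ 1 + 2 * Real.cosh (2 * T) ^ 2 := by
  have hT : 0 ≤ T := (abs_nonneg t).trans ht
  have h1 : Real.cosh (2 * t) ≤ Real.cosh (2 * T) := by
    rw [Real.cosh_le_cosh, abs_mul, abs_mul, abs_of_nonneg hT]
    have := abs_nonneg (2 : ℝ)
    nlinarith
  have h2 : Real.cosh (2 * t) ^ 2 ≤ Real.cosh (2 * T) ^ 2 :=
    pow_le_pow_left₀ (Real.cosh_pos _).le h1 2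
  have h3 : Real.sinh (2 * t) ^ 2 ≤ Real.cosh (2 * T) ^ 2 := by
    have := Real.cosh_sq (2 * t)
    linarith
  have h4 : |Real.cos (2 * σ) ^ 2 * Real.cosh (2 * t) ^ 2 -
    Real.sin (2 * σ) ^ 2 * Real.sinh (2 * t) ^ 2| ≤ 2 * Real.cosh (2 * T) ^ 2 := by
    have e1 : Real.cos (2 * σ) ^ 2 * Real.cosh (2 * t) ^ 2 ≤ 1 * Real.cosh (2 * t) ^ 2 :=
      mul_le_mul_of_nonneg_right (Real.cos_sq_le_one _) (sq_nonneg _)
    have e2 : Real.sin (2 * σ) ^ 2 * Real.sinh (2 * t) ^ 2 ≤ 1 * Real.sinh (2 * t) ^ 2 :=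
      mul_le_mul_of_nonneg_right (Real.sin_sq_le_one _) (sq_nonneg _)
    have e3 : 0 ≤ Real.cos (2 * σ) ^ 2 * Real.cosh (2 * t) ^ 2 := by positivity
    have e4 : 0 ≤ Real.sin (2 * σ) ^ 2 * Real.sinh (2 * t) ^ 2 := by positivity
    rw [abs_le]
    constructor <;> linarith
  have ha2 : a ^ 2 ≤ 1 := by nlinarith
  have h5 : |a ^ 2 * (Real.cos (2 * σ) ^ 2 * Real.cosh (2 * t) ^ 2 -
    Real.sin (2 * σ) ^ 2 * Real.sinh (2 * t) ^ 2)| ≤ 2 * Real.cosh (2 * T) ^ 2 := by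
    rw [abs_mul, abs_of_nonneg (sq_nonneg a)]
    calc a ^ 2 * _ ≤ 1 * _ := mul_le_mul_of_nonneg_right ha2 (abs_nonneg _)
      _ ≤ _ := by rw [one_mul]; exact h4
  unfold XX
  calc |1 - _| ≤ |(1 : ℝ)| + |a ^ 2 * (Real.cos (2 * σ) ^ 2 * Real.cosh (2 * t) ^ 2 -
    Real.sin (2 * σ) ^ 2 * Real.sinh (2 * t) ^ 2)| := abs_sub _ _
    _ ≤ _ := by rw [abs_one]; linarith

lemma rd_re (a σ t : ℝ) : (rd a (σ + t * Complex.I)).re =
    2 * √(1 - a ^ 2) * XX a σ t / (XX a σ t ^ 2 + YY' a σ t ^ 2) := by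
  unfold rd
  rw [den_eq, Complex.div_re]
  simp only [Complex.normSq_add_mul_I, Complex.add_re, Complex.ofReal_re, Complex.mul_re,
    Complex.I_re, mul_zero, Complex.ofReal_im, Complex.I_im, mul_one, sub_self, add_zero,
    Complex.mul_im, Complex.re_ofNat, Complex.im_ofNat, zero_mul, sub_zero, Complex.add_im,
    zero_add]
  ring

lemma rd_norm {a σ t q : ℝ} (hq : 0 < q) (hX : q ≤ XX a σ t) :
    ‖rd a (σ + t * Complex.I)‖ ≤ 2 / q := by
  unfold rd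
  rw [den_eq, norm_div]
  have h1 : ‖(2 : ℂ) * (√(1 - a ^ 2) : ℝ)‖ ≤ 2 := by
    rw [norm_mul, Complex.norm_real, Complex.norm_ofNat, Real.norm_of_nonneg (Real.sqrt_nonneg _)]
    have : √(1 - a ^ 2) ≤ 1 := by
      rw [Real.sqrt_le_one]
      nlinarith [sq_nonneg a]
    linarith
  have h2 : q ≤ ‖(XX a σ t : ℂ) + (YY' a σ t : ℂ) * Complex.I‖ := by
    refine hX.trans ?_
    have := Complex.abs_re_le_norm ((XX a σ t : ℂ) + (YY' a σ t : ℂ) * Complex.I)
    simp only [Complex.add_re, Complex.ofReal_re, Complex.mul_re, Complex.I_re, mul_zero,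
      Complex.ofReal_im, Complex.I_im, mul_one, sub_self, add_zero] at this
    exact (le_abs_self _).trans this
  exact div_le_div₀ (by norm_num) h1 hq h2

lemma frac_diff {q X X' Y E M : ℝ} (hq : 0 < q) (hX : q ≤ X) (hX' : q ≤ X') (hM : |X| ≤ M)
    (hd : |X - X'| ≤ E) (hY : Y ^ 2 ≤ E * (2 * M)) {r : ℝ} (hr0 : 0 ≤ r) (hr1 : r ≤ 1) :
    |2 * r * X / (X ^ 2 + Y ^ 2) - 2 * r / X'| ≤ 6 * M / q ^ 3 * E := by
  have hXp : 0 < X := hq.trans_le hX
  have hXp' : 0 < X' := hq.trans_le hX'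
  have hS : 0 < X ^ 2 + Y ^ 2 := by positivity
  have hM0 : 0 ≤ M := (abs_nonneg X).trans hM
  have hE0 : 0 ≤ E := (abs_nonneg _).trans hd
  have e : 2 * r * X / (X ^ 2 + Y ^ 2) - 2 * r / X' =
      -(2 * r * (X * (X - X') + Y ^ 2)) / ((X ^ 2 + Y ^ 2) * X') := by
    field_simp
    ring
  rw [e, abs_div, abs_neg]
  have h1 : |2 * r * (X * (X - X') + Y ^ 2)| ≤ 6 * M * E := by
    rw [abs_mul, abs_of_nonneg (by linarith : 0 ≤ 2 * r)]
    have h2 : |X * (X - X') + Y ^ 2| ≤ 3 * M * E := by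
      calc |X * (X - X') + Y ^ 2| ≤ |X * (X - X')| + |Y ^ 2| := abs_add_le _ _
        _ ≤ M * E + E * (2 * M) := by
          rw [abs_mul, abs_of_nonneg (sq_nonneg Y)]
          exact add_le_add (mul_le_mul hM hd (abs_nonneg _) hM0) hY
        _ = 3 * M * E := by ring
    calc 2 * r * |X * (X - X') + Y ^ 2| ≤ 2 * |X * (X - X') + Y ^ 2| := by
          have := abs_nonneg (X * (X - X') + Y ^ 2)
          nlinarith
      _ ≤ 2 * (3 * M * E) := by linarith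
      _ = _ := by ring
  have h3 : q ^ 3 ≤ |(X ^ 2 + Y ^ 2) * X'| := by
    rw [abs_of_pos (by positivity)]
    have h4 : q ^ 2 ≤ X ^ 2 + Y ^ 2 := by nlinarith [sq_nonneg Y]
    calc q ^ 3 = q ^ 2 * q := by ring
      _ ≤ (X ^ 2 + Y ^ 2) * X' := mul_le_mul h4 hX' hq.le hS.le
  calc |2 * r * (X * (X - X') + Y ^ 2)| / |(X ^ 2 + Y ^ 2) * X'| ≤ (6 * M * E) / q ^ 3 :=
        div_le_div₀ (by positivity) h1 (by positivity) h3
    _ = _ := by ring

/-- all bounds for one parameter -/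
lemma single {a T : ℝ} (hT : 0 < T) (ha : 0 ≤ a) (ha1 : a < 1) (haT : a * Real.cosh (2 * T) < 1) :
    ∃ C : ℝ, 0 < C ∧
      (∀ σ t : ℝ, |σ| ≤ 1 → |t| ≤ T → ‖rd a (σ + t * Complex.I)‖ ≤ C) ∧
      (∀ σ t : ℝ, |σ| ≤ 1 → |t| ≤ T →
        |(rd a (σ + t * Complex.I)).re - (rd a (t * Complex.I)).re| ≤ C * |σ|) ∧
      (∀ σ t : ℝ, |σ| ≤ 1 → |t| ≤ T →
        |(rd a (σ + t * Complex.I)).re - (rd a σ).re| ≤ C * t ^ 2) ∧
      (∀ σ : ℝ, |σ| ≤ 1 → |(rd a σ).re - 2 / √(1 - a ^ 2)| ≤ C * σ ^ 2) ∧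
      (∀ t : ℝ, |t| ≤ T → 2 / √(1 - a ^ 2) ≤ (rd a (t * Complex.I)).re) ∧
      (∀ s : ℂ, |s.im| ≤ T → ContinuousAt (rd a) s) := by
  set r : ℝ := √(1 - a ^ 2) with hr
  set M : ℝ := Real.cosh (2 * T) ^ 2 with hM
  have hch : 1 ≤ Real.cosh (2 * T) := Real.one_le_cosh _
  have hM1 : 1 ≤ M := one_le_pow₀ hch
  set q : ℝ := 1 - a ^ 2 * M with hqd
  have hq : 0 < q := by
    have h1 : (a * Real.cosh (2 * T)) ^ 2 < 1 := by
      have h2 : 0 ≤ a * Real.cosh (2 * T) := by positivity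
      nlinarith
    rw [hqd, hM]
    nlinarith
  have ha2 : 0 < 1 - a ^ 2 := by nlinarith
  have hr0 : 0 < r := Real.sqrt_pos.2 ha2
  have hr1 : r ≤ 1 := by
    rw [hr, Real.sqrt_le_one]
    nlinarith [sq_nonneg a]
  have hr2 : r ^ 2 = 1 - a ^ 2 := Real.sq_sqrt ha2.le
  have hqa : q ≤ 1 - a ^ 2 := by
    rw [hqd]
    nlinarith [sq_nonneg a]
  have hq1 : q ≤ 1 := by nlinarith [sq_nonneg a]
  -- special values
  have hX0 : ∀ t : ℝ, XX a 0 t = 1 - a ^ 2 * Real.cosh (2 * t) ^ 2 := by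
    intro t; unfold XX; simp
  have hY0 : ∀ t : ℝ, YY' a 0 t = 0 := by intro t; unfold YY'; simp
  have hX1 : ∀ σ : ℝ, XX a σ 0 = 1 - a ^ 2 * Real.cos (2 * σ) ^ 2 := by
    intro σ; unfold XX; simp
  have hY1 : ∀ σ : ℝ, YY' a σ 0 = 0 := by intro σ; unfold YY'; simp
  have hlow : ∀ σ t : ℝ, |t| ≤ T → q ≤ XX a σ t := fun σ t ht => XX_lower σ t ha ht
  have hre0 : ∀ t : ℝ, |t| ≤ T → (rd a (t * Complex.I)).re = 2 * r / XX a 0 t := by
    intro t ht
    have h1 := rd_re a 0 t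
    rw [Complex.ofReal_zero, zero_add, hY0] at h1
    rw [h1, ← hr]
    have := hq.trans_le (hlow 0 t ht)
    field_simp
    ring
  have hre1 : ∀ σ : ℝ, (rd a σ).re = 2 * r / XX a σ 0 := by
    intro σ
    have h1 := rd_re a σ 0
    rw [Complex.ofReal_zero, zero_mul, add_zero, hY1] at h1
    rw [h1, ← hr]
    have := hq.trans_le (hlow σ 0 (by rw [abs_zero]; exact hT.le))
    field_simp
    ring
  have hcht : ∀ t : ℝ, |t| ≤ T → Real.cosh (2 * t) ^ 2 ≤ M := by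
    intro t ht
    have h1 : Real.cosh (2 * t) ≤ Real.cosh (2 * T) := by
      rw [Real.cosh_le_cosh, abs_mul, abs_mul, abs_of_nonneg hT.le]
      have := abs_nonneg (2 : ℝ)
      nlinarith
    exact pow_le_pow_left₀ (Real.cosh_pos _).le h1 2
  have hsht : ∀ t : ℝ, |t| ≤ T → Real.sinh (2 * t) ^ 2 ≤ M := by
    intro t ht
    have := Real.cosh_sq (2 * t)
    have := hcht t ht
    linarith
  have hsht2 : ∀ t : ℝ, |t| ≤ T → Real.sinh (2 * t) ^ 2 ≤ 4 * M * t ^ 2 := by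
    intro t ht
    have h1 := sinh_le ht
    have h2 : Real.sinh (2 * t) ^ 2 ≤ (2 * |t| * Real.cosh (2 * T)) ^ 2 := by
      rw [← sq_abs (Real.sinh (2 * t))]
      exact pow_le_pow_left₀ (abs_nonneg _) h1 2
    have h3 : (2 * |t| * Real.cosh (2 * T)) ^ 2 = 4 * M * t ^ 2 := by
      rw [mul_pow, mul_pow, sq_abs, hM]; ring
    linarith
  have ha4 : a ^ 2 ≤ 1 := by linarith
  have ha44 : a ^ 4 ≤ 1 := by
    have : a ^ 4 = (a ^ 2) ^ 2 := by ring
    rw [this]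
    exact pow_le_one₀ (sq_nonneg a) ha4
  have hYb : ∀ σ t : ℝ, |t| ≤ T → YY' a σ t ^ 2 ≤ 4 * Real.sin (2 * σ) ^ 2 *
      Real.sinh (2 * t) ^ 2 * M := by
    intro σ t ht
    unfold YY'
    have h1 : (2 * a ^ 2 * (Real.cos (2 * σ) * Real.sin (2 * σ) * Real.cosh (2 * t) *
        Real.sinh (2 * t))) ^ 2 = a ^ 4 * (Real.cos (2 * σ) ^ 2 * Real.cosh (2 * t) ^ 2) *
        (4 * Real.sin (2 * σ) ^ 2 * Real.sinh (2 * t) ^ 2) := by ring
    rw [h1]
    have h2 : a ^ 4 * (Real.cos (2 * σ) ^ 2 * Real.cosh (2 * t) ^ 2) ≤ M := by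
      have h3 : Real.cos (2 * σ) ^ 2 * Real.cosh (2 * t) ^ 2 ≤ 1 * M :=
        mul_le_mul (Real.cos_sq_le_one _) (hcht t ht) (sq_nonneg _) zero_le_one
      calc a ^ 4 * (Real.cos (2 * σ) ^ 2 * Real.cosh (2 * t) ^ 2) ≤ 1 * (1 * M) :=
            mul_le_mul ha44 h3 (by positivity) zero_le_one
        _ = M := by ring
    calc a ^ 4 * (Real.cos (2 * σ) ^ 2 * Real.cosh (2 * t) ^ 2) *
        (4 * Real.sin (2 * σ) ^ 2 * Real.sinh (2 * t) ^ 2) ≤
        M * (4 * Real.sin (2 * σ) ^ 2 * Real.sinh (2 * t) ^ 2) :=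
          mul_le_mul_of_nonneg_right h2 (by positivity)
      _ = _ := by ring
  have hMM : ∀ σ t : ℝ, |t| ≤ T → |XX a σ t| ≤ 3 * M := by
    intro σ t ht
    have := XX_abs σ t ha ha1 ht
    rw [← hM] at this
    linarith
  set C : ℝ := 2 / q + 6 * (3 * M) / q ^ 3 * (16 * M) + 8 / q ^ 2 with hC
  have hC1 : 2 / q ≤ C := by
    have h1 : 0 ≤ 6 * (3 * M) / q ^ 3 * (16 * M) := by positivity
    have h2 : 0 ≤ 8 / q ^ 2 := by positivity
    linarith
  have hC2 : 6 * (3 * M) / q ^ 3 * (16 * M) ≤ C := by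
    have h1 : 0 ≤ 2 / q := by positivity
    have h2 : 0 ≤ 8 / q ^ 2 := by positivity
    linarith
  have hC3 : 8 / q ^ 2 ≤ C := by
    have h1 : 0 ≤ 6 * (3 * M) / q ^ 3 * (16 * M) := by positivity
    have h2 : 0 ≤ 2 / q := by positivity
    linarith
  have hC0 : 0 < C := lt_of_lt_of_le (by positivity) hC1
  refine ⟨C, hC0, ?_, ?_, ?_, ?_, ?_, ?_⟩
  · intro σ t _ ht
    exact (rd_norm hq (hlow σ t ht)).trans hC1
  · intro σ t hσ ht
    rw [rd_re, hre0 t ht, ← hr]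
    have hs := sin_sq_le σ
    have hd : |XX a σ t - XX a 0 t| ≤ 16 * M * σ ^ 2 := by
      have e1 : XX a σ t - XX a 0 t = a ^ 2 * (Real.sin (2 * σ) ^ 2 *
          (Real.cosh (2 * t) ^ 2 + Real.sinh (2 * t) ^ 2)) := by
        rw [hX0]
        unfold XX
        have := Real.sin_sq_add_cos_sq (2 * σ)
        linear_combination (-a ^ 2 * Real.cosh (2 * t) ^ 2) * this
      rw [e1, abs_of_nonneg (by positivity)]
      have h2 : Real.cosh (2 * t) ^ 2 + Real.sinh (2 * t) ^ 2 ≤ 2 * M := by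
        linarith [hcht t ht, hsht t ht]
      have h3 : Real.sin (2 * σ) ^ 2 * (Real.cosh (2 * t) ^ 2 + Real.sinh (2 * t) ^ 2) ≤
          4 * σ ^ 2 * (2 * M) := mul_le_mul hs h2 (by positivity) (by positivity)
      calc a ^ 2 * (Real.sin (2 * σ) ^ 2 * (Real.cosh (2 * t) ^ 2 + Real.sinh (2 * t) ^ 2)) ≤
          1 * (4 * σ ^ 2 * (2 * M)) := mul_le_mul ha4 h3 (by positivity) zero_le_one
        _ ≤ 16 * M * σ ^ 2 := by nlinarith [sq_nonneg σ]
    have hY : YY' a σ t ^ 2 ≤ 16 * M * σ ^ 2 * (2 * (3 * M)) := by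
      refine (hYb σ t ht).trans ?_
      have h3 : Real.sin (2 * σ) ^ 2 * Real.sinh (2 * t) ^ 2 ≤ 4 * σ ^ 2 * M :=
        mul_le_mul hs (hsht t ht) (sq_nonneg _) (by positivity)
      have h4 : 4 * Real.sin (2 * σ) ^ 2 * Real.sinh (2 * t) ^ 2 * M ≤ 16 * σ ^ 2 * M * M := by
        have := mul_le_mul_of_nonneg_right h3 (by linarith : 0 ≤ 4 * M)
        linarith
      have h5 : 0 ≤ σ ^ 2 * M * M := by positivity
      linarith
    have h := frac_diff hq (hlow σ t ht) (hlow 0 t ht) (hMM σ t ht) hd hY hr0.le hr1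
    refine h.trans ?_
    have h6 : σ ^ 2 ≤ |σ| := by
      rw [← sq_abs]
      have := abs_nonneg σ
      nlinarith
    calc 6 * (3 * M) / q ^ 3 * (16 * M * σ ^ 2) = 6 * (3 * M) / q ^ 3 * (16 * M) * σ ^ 2 := by ring
      _ ≤ C * σ ^ 2 := mul_le_mul_of_nonneg_right hC2 (sq_nonneg _)
      _ ≤ C * |σ| := mul_le_mul_of_nonneg_left h6 hC0.le
  · intro σ t hσ ht
    rw [rd_re, hre1 σ, ← hr]
    have hs := hsht2 t ht
    have hd : |XX a σ t - XX a σ 0| ≤ 16 * M * t ^ 2 := by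
      have e1 : XX a σ t - XX a σ 0 = -(a ^ 2 * (Real.sinh (2 * t) ^ 2 *
          (Real.cos (2 * σ) ^ 2 - Real.sin (2 * σ) ^ 2))) := by
        rw [hX1]
        unfold XX
        have := Real.cosh_sq (2 * t)
        rw [this]
        ring
      rw [e1, abs_neg, abs_mul, abs_mul, abs_of_nonneg (sq_nonneg a),
        abs_of_nonneg (sq_nonneg (Real.sinh (2 * t)))]
      have h2 : |Real.cos (2 * σ) ^ 2 - Real.sin (2 * σ) ^ 2| ≤ 1 := by
        rw [abs_le]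
        have h3 := Real.cos_sq_le_one (2 * σ)
        have h4 := Real.sin_sq_le_one (2 * σ)
        have h5 := sq_nonneg (Real.cos (2 * σ))
        have h6 := sq_nonneg (Real.sin (2 * σ))
        constructor <;> linarith
      have h3 : Real.sinh (2 * t) ^ 2 * |Real.cos (2 * σ) ^ 2 - Real.sin (2 * σ) ^ 2| ≤
          4 * M * t ^ 2 * 1 := mul_le_mul hs h2 (abs_nonneg _) (by positivity)
      calc a ^ 2 * (Real.sinh (2 * t) ^ 2 * |Real.cos (2 * σ) ^ 2 - Real.sin (2 * σ) ^ 2|) ≤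
          1 * (4 * M * t ^ 2 * 1) := mul_le_mul ha4 h3 (by positivity) zero_le_one
        _ ≤ 16 * M * t ^ 2 := by nlinarith [sq_nonneg t]
    have hY : YY' a σ t ^ 2 ≤ 16 * M * t ^ 2 * (2 * (3 * M)) := by
      refine (hYb σ t ht).trans ?_
      have h3 : Real.sin (2 * σ) ^ 2 * Real.sinh (2 * t) ^ 2 ≤ 1 * (4 * M * t ^ 2) :=
        mul_le_mul (Real.sin_sq_le_one _) hs (sq_nonneg _) zero_le_one
      have h4 : 4 * Real.sin (2 * σ) ^ 2 * Real.sinh (2 * t) ^ 2 * M ≤ 16 * M * t ^ 2 * M := by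
        have := mul_le_mul_of_nonneg_right h3 (by linarith : 0 ≤ 4 * M)
        linarith
      have h5 : 0 ≤ M * t ^ 2 * M := by positivity
      linarith
    have h := frac_diff hq (hlow σ t ht) (hlow σ 0 (by rw [abs_zero]; exact hT.le))
      (hMM σ t ht) hd hY hr0.le hr1
    refine h.trans ?_
    calc 6 * (3 * M) / q ^ 3 * (16 * M * t ^ 2) = 6 * (3 * M) / q ^ 3 * (16 * M) * t ^ 2 := by ring
      _ ≤ C * t ^ 2 := mul_le_mul_of_nonneg_right hC2 (sq_nonneg _)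
  · intro σ _
    have hl := hlow σ 0 (by rw [abs_zero]; exact hT.le)
    rw [hre1 σ]
    have hXp : 0 < XX a σ 0 := hq.trans_le hl
    have e : 2 * r / XX a σ 0 - 2 / r =
        -(2 * r * (a ^ 2 * Real.sin (2 * σ) ^ 2)) / (XX a σ 0 * (1 - a ^ 2)) := by
      have e1 : XX a σ 0 = 1 - a ^ 2 + a ^ 2 * Real.sin (2 * σ) ^ 2 := by
        rw [hX1]
        have := Real.sin_sq_add_cos_sq (2 * σ)
        linear_combination (-a ^ 2) * this
      rw [← hr2] at e1 ⊢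
      have e2 : XX a σ 0 - r ^ 2 = a ^ 2 * Real.sin (2 * σ) ^ 2 := by rw [e1]; ring
      rw [← e2]
      field_simp
      ring
    rw [e, abs_div, abs_neg]
    have h1 : |2 * r * (a ^ 2 * Real.sin (2 * σ) ^ 2)| ≤ 8 * σ ^ 2 := by
      rw [abs_of_nonneg (by positivity)]
      have h2 : a ^ 2 * Real.sin (2 * σ) ^ 2 ≤ 1 * (4 * σ ^ 2) :=
        mul_le_mul ha4 (sin_sq_le σ) (sq_nonneg _) zero_le_one
      have h3 : 2 * r * (a ^ 2 * Real.sin (2 * σ) ^ 2) ≤ 2 * (1 * (4 * σ ^ 2)) :=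
        mul_le_mul (by linarith) h2 (by positivity) (by norm_num)
      linarith
    have h3 : q ^ 2 ≤ |XX a σ 0 * (1 - a ^ 2)| := by
      rw [abs_of_pos (by positivity), sq]
      exact mul_le_mul hl hqa hq.le hXp.le
    calc |2 * r * (a ^ 2 * Real.sin (2 * σ) ^ 2)| / |XX a σ 0 * (1 - a ^ 2)| ≤
        (8 * σ ^ 2) / q ^ 2 := div_le_div₀ (by positivity) h1 (by positivity) h3
      _ = 8 / q ^ 2 * σ ^ 2 := by ring
      _ ≤ C * σ ^ 2 := mul_le_mul_of_nonneg_right hC3 (sq_nonneg _)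
  · intro t ht
    rw [hre0 t ht]
    have hl := hlow 0 t ht
    have hXp : 0 < XX a 0 t := hq.trans_le hl
    have h1 : XX a 0 t ≤ r ^ 2 := by
      rw [hX0, hr2]
      have : 1 ≤ Real.cosh (2 * t) ^ 2 := one_le_pow₀ (Real.one_le_cosh _)
      nlinarith [sq_nonneg a]
    rw [div_le_div_iff₀ hr0 hXp]
    nlinarith
  · intro s hs
    have hne : 1 - (a : ℂ) ^ 2 * Complex.cos (2 * s) ^ 2 ≠ 0 := by
      have h1 := den_eq a s.re s.im
      rw [Complex.re_add_im] at h1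
      rw [h1]
      intro h2
      have h3 := congrArg Complex.re h2
      simp only [Complex.add_re, Complex.ofReal_re, Complex.mul_re, Complex.I_re, mul_zero,
        Complex.ofReal_im, Complex.I_im, mul_one, sub_self, add_zero, Complex.zero_re] at h3
      have := hq.trans_le (hlow s.re s.im hs)
      linarith
    unfold rd
    exact ContinuousAt.div (by fun_prop) (by fun_prop) hne

theorem pg (h : S_rr) : S_pg := by
  obtain ⟨h1, -, h3, h4, -⟩ := h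
  intro F T hT hF
  have hs := fun i => single hT (F.a_nn i) (F.a_lt i) (hF i)
  choose C hC0 g1 g2 g3 g4 g5 g8 using hs
  have hπ := Real.pi_pos
  have hπ4 : Real.pi < 4 := Real.pi_lt_four
  have hCs : 0 ≤ ∑ i, F.c i * C i :=
    Finset.sum_nonneg fun i _ => mul_nonneg (F.c_nn i) (hC0 i).le
  have hone : ∀ σ : ℝ, |σ| ≤ Real.pi / 16 → |σ| ≤ 1 := by
    intro σ hσ; linarith
  have hre : ∀ s : ℂ, (F.PD s).re = ∑ i, F.c i * (rd (F.a i) s).re := by
    intro s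
    unfold Fm.PD
    rw [Complex.re_sum]
    apply Finset.sum_congr rfl
    intro i _
    rw [Complex.re_ofReal_mul]
  have hbd : ∀ (f g : F.ι → ℝ) (e : ℝ), 0 ≤ e → (∀ i, |f i - g i| ≤ C i * e) →
      |∑ i, F.c i * f i - ∑ i, F.c i * g i| ≤ (∑ i, F.c i * C i + 1) * e := by
    intro f g e he hfg
    rw [← Finset.sum_sub_distrib]
    calc |∑ i, (F.c i * f i - F.c i * g i)| ≤ ∑ i, |F.c i * f i - F.c i * g i| :=
          Finset.abs_sum_le_sum_abs _ _
      _ ≤ ∑ i, F.c i * C i * e := by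
          apply Finset.sum_le_sum
          intro i _
          rw [← mul_sub, abs_mul, abs_of_nonneg (F.c_nn i), mul_assoc]
          exact mul_le_mul_of_nonneg_left (hfg i) (F.c_nn i)
      _ = (∑ i, F.c i * C i) * e := by rw [Finset.sum_mul]
      _ ≤ _ := by nlinarith
  have hcosh : ∀ (i : F.ι) (t : ℝ), |t| ≤ T → F.a i * Real.cosh (2 * t) < 1 := by
    intro i t ht
    have e1 : Real.cosh (2 * t) ≤ Real.cosh (2 * T) := by
      rw [Real.cosh_le_cosh, abs_mul, abs_mul, abs_of_nonneg hT.le]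
      have := abs_nonneg (2 : ℝ)
      nlinarith
    exact lt_of_le_of_lt (mul_le_mul_of_nonneg_left e1 (F.a_nn i)) (hF i)
  refine ⟨∑ i, F.c i * C i + 1, Real.pi / 16, by linarith, by positivity, le_refl _, ?_⟩
  constructor
  · intro σ t hσ ht
    have e : F.P = fun s => ∑ i, (F.c i : ℂ) * rr (F.a i) s := by
      funext s; rfl
    have e2 : F.PD (σ + t * Complex.I) = ∑ i, (F.c i : ℂ) * rd (F.a i) (σ + t * Complex.I) := rfl
    rw [e, e2]
    apply HasDerivAt.fun_sum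
    intro i _
    apply HasDerivAt.const_mul
    have hre' : ((σ : ℂ) + t * Complex.I).re = σ := by simp
    have him' : ((σ : ℂ) + t * Complex.I).im = t := by simp
    have := abs_le.1 hσ
    apply h1 (F.a i) _ (F.a_nn i) (F.a_lt i)
    · rw [hre']; linarith
    · rw [hre']; linarith
    · right
      rw [him']
      exact hcosh i t ht
  · intro σ t hσ ht
    unfold Fm.PD
    calc ‖∑ i, (F.c i : ℂ) * rd (F.a i) (σ + t * Complex.I)‖ ≤
        ∑ i, ‖(F.c i : ℂ) * rd (F.a i) (σ + t * Complex.I)‖ := norm_sum_le _ _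
      _ ≤ ∑ i, F.c i * C i := by
          apply Finset.sum_le_sum
          intro i _
          rw [norm_mul, Complex.norm_real, Real.norm_of_nonneg (F.c_nn i)]
          exact mul_le_mul_of_nonneg_left (g1 i σ t (hone σ hσ) ht) (F.c_nn i)
      _ ≤ _ := by linarith
  · intro σ t hσ ht
    rw [hre, hre]
    exact hbd _ _ _ (abs_nonneg σ) (fun i => g2 i σ t (hone σ hσ) ht)
  · intro σ t hσ ht
    rw [hre, hre]
    exact hbd _ _ _ (sq_nonneg t) (fun i => g3 i σ t (hone σ hσ) ht)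
  · intro σ hσ
    have e : F.S = ∑ i, F.c i * (2 / √(1 - F.a i ^ 2)) := by
      unfold Fm.S
      apply Finset.sum_congr rfl
      intro i _
      ring
    rw [hre, e]
    exact hbd _ _ _ (sq_nonneg σ) (fun i => g4 i σ (hone σ hσ))
  · intro t ht
    have e : F.S = ∑ i, F.c i * (2 / √(1 - F.a i ^ 2)) := by
      unfold Fm.S
      apply Finset.sum_congr rfl
      intro i _
      ring
    rw [hre, e]
    apply Finset.sum_le_sum
    intro i _
    exact mul_le_mul_of_nonneg_left (g5 i t ht) (F.c_nn i)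
  · intro t ht
    unfold Fm.P
    rw [Complex.re_sum]
    apply Finset.sum_eq_zero
    intro i _
    rw [Complex.re_ofReal_mul, h3 (F.a i) t (F.a_nn i) (hcosh i t ht), mul_zero]
  · intro σ hσ
    unfold Fm.P
    rw [Complex.im_sum]
    apply Finset.sum_eq_zero
    intro i _
    rw [Complex.im_ofReal_mul, h4 (F.a i) σ (F.a_nn i) (F.a_lt i) (by linarith), mul_zero]
  · intro s hs
    apply ContinuousAt.continuousWithinAt
    unfold Fm.PD
    apply tendsto_finsetSum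
    intro i _
    exact (continuousAt_const.mul (g8 i s hs.2))

end Pool.Agent.TH41.BL.PGAf
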