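import Mathlib
import Pool.Agent.TH41.BL.Stm2
import Pool.Agent.TH41.BL.KRA

/-!
Project BL2, piece PUNC: puncturing.
-/

set_option autoImplicit false

open MeasureTheory Filter Topology

namespace Pool.Agent.TH41.BL.PUNf

open Pool.Agent.TH41.BL

/-- the coefficients -/
theorem kr_coeff (n j w : ℕ) (hw : w ≤ n) :
    ((1 + Polynomial.X : Polynomial ℝ) ^ (n - w) * (1 - Polynomial.X) ^ w).coeff j =
      (kr n j w : ℝ) := by
  have h := KRAf.coeff_G (R := ℝ) n w j hw 1 1
  simp only [KRAf.G, Polynomial.C_1, one_mul, one_pow, mul_one] at h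
  exact h

/-- the polynomial identity, interior case -/
theorem pol_id (a b : ℕ) :
    ((a : Polynomial ℝ) + 1) * ((1 + Polynomial.X) ^ a * (1 - Polynomial.X) ^ (b + 1)) +
      ((b : Polynomial ℝ) + 1) * ((1 + Polynomial.X) ^ (a + 1) * (1 - Polynomial.X) ^ b) =
    ((a : Polynomial ℝ) + (b : Polynomial ℝ) + 2) * ((1 + Polynomial.X) ^ (a + 1) * (1 - Polynomial.X) ^ (b + 1)) -
      Polynomial.X * Polynomial.derivative
        ((1 + Polynomial.X : Polynomial ℝ) ^ (a + 1) * (1 - Polynomial.X) ^ (b + 1)) := by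
  simp only [Polynomial.derivative_mul, Polynomial.derivative_pow, Polynomial.derivative_add,
    Polynomial.derivative_sub, Polynomial.derivative_one, Polynomial.derivative_X]
  simp only [Nat.add_sub_cancel, Polynomial.C_eq_natCast]
  push_cast
  ring

theorem der_coeff (p : Polynomial ℝ) (j : ℕ) :
    (Polynomial.X * Polynomial.derivative p).coeff j = j * p.coeff j := by
  cases j with
  | zero => simp
  | succ j =>
    rw [Polynomial.coeff_X_mul, Polynomial.coeff_derivative]
    push_cast
    ring

/-- the identity for the Krawtchouk polynomials -/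
theorem kr_id (n j w : ℕ) (hw : w ≤ n + 1) :
    ((n : ℝ) + 1 - w) * (kr n j w : ℝ) + w * (kr n j (w - 1) : ℝ) =
      ((n : ℝ) + 1 - j) * (kr (n + 1) j w : ℝ) := by
  rcases Nat.eq_zero_or_pos w with h0 | h0
  · subst h0
    have h1 := kr_coeff n j 0 (Nat.zero_le _)
    have h2 := kr_coeff (n + 1) j 0 (Nat.zero_le _)
    have h3 : ((n : Polynomial ℝ) + 1) * (1 + Polynomial.X) ^ n =
        ((n : Polynomial ℝ) + 1) * (1 + Polynomial.X) ^ (n + 1) - Polynomial.X *
          Polynomial.derivative ((1 + Polynomial.X : Polynomial ℝ) ^ (n + 1)) := by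
      simp only [Polynomial.derivative_pow, Polynomial.derivative_add,
        Polynomial.derivative_one, Polynomial.derivative_X]
      simp only [Nat.add_sub_cancel, Polynomial.C_eq_natCast]
      push_cast
      ring
    have h4 := congrArg (fun p => Polynomial.coeff p j) h3
    have e1 : ((n : Polynomial ℝ) + 1) = Polynomial.C ((n : ℝ) + 1) := by
      simp
    simp only [Polynomial.coeff_sub, der_coeff, e1, Polynomial.coeff_C_mul] at h4
    simp only [Nat.sub_zero, pow_zero, mul_one] at h1 h2
    rw [h1, h2] at h4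
    push_cast
    linarith
  · rcases Nat.lt_or_ge n w with h1 | h1
    · have hwn : w = n + 1 := by omega
      subst hwn
      have h2 := kr_coeff n j n le_rfl
      have h3 := kr_coeff (n + 1) j (n + 1) le_rfl
      have h4 : ((n : Polynomial ℝ) + 1) * (1 - Polynomial.X) ^ n =
          ((n : Polynomial ℝ) + 1) * (1 - Polynomial.X) ^ (n + 1) - Polynomial.X *
            Polynomial.derivative ((1 - Polynomial.X : Polynomial ℝ) ^ (n + 1)) := by
        simp only [Polynomial.derivative_pow, Polynomial.derivative_sub,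
          Polynomial.derivative_one, Polynomial.derivative_X]
        simp only [Nat.add_sub_cancel, Polynomial.C_eq_natCast]
        push_cast
        ring
      have h5 := congrArg (fun p => Polynomial.coeff p j) h4
      have e1 : ((n : Polynomial ℝ) + 1) = Polynomial.C ((n : ℝ) + 1) := by
        simp
      simp only [Polynomial.coeff_sub, der_coeff, e1, Polynomial.coeff_C_mul] at h5
      simp only [Nat.sub_self, pow_zero, one_mul] at h2 h3
      rw [h2, h3] at h5
      push_cast
      linarith
    · obtain ⟨b, rfl⟩ : ∃ b, w = b + 1 := ⟨w - 1, by omega⟩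
      obtain ⟨a, rfl⟩ : ∃ a, n = a + (b + 1) := ⟨n - (b + 1), by omega⟩
      have h2 := kr_coeff (a + (b + 1)) j (b + 1) (by omega)
      have h3 := kr_coeff (a + (b + 1)) j b (by omega)
      have h4 := kr_coeff (a + (b + 1) + 1) j (b + 1) (by omega)
      have e2 : a + (b + 1) - (b + 1) = a := by omega
      have e3 : a + (b + 1) - b = a + 1 := by omega
      have e4 : a + (b + 1) + 1 - (b + 1) = a + 1 := by omega
      rw [e2] at h2
      rw [e3] at h3
      rw [e4] at h4
      have h5 := congrArg (fun p => Polynomial.coeff p j) (pol_id a b)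
      have e5 : ((a : Polynomial ℝ) + 1) = Polynomial.C ((a : ℝ) + 1) := by simp
      have e6 : ((b : Polynomial ℝ) + 1) = Polynomial.C ((b : ℝ) + 1) := by simp
      have e7 : ((a : Polynomial ℝ) + (b : Polynomial ℝ) + 2) = Polynomial.C ((a : ℝ) + b + 2) := by
        simp only [Polynomial.C_add, Polynomial.C_ofNat, Polynomial.C_eq_natCast]
      simp only [Polynomial.coeff_sub, Polynomial.coeff_add, der_coeff, e5, e6, e7,
        Polynomial.coeff_C_mul] at h5
      rw [h2, h3, h4] at h5
      rw [Nat.add_sub_cancel]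
      push_cast
      linarith

theorem punc : S_punc := by
  intro n d l hl hf
  have hn : (0 : ℝ) < (n : ℝ) + 1 := by positivity
  set l' : ℕ → ℝ := fun j => if j ≤ n then l j * (((n : ℝ) + 1 - j) / (n + 1)) else 0 with hl'
  have hsum : ∀ w : ℕ, w ≤ n + 1 → ∑ j ∈ Finset.range (n + 2), l' j * (kr (n + 1) j w : ℝ) =
      (((n : ℝ) + 1 - w) * (∑ j ∈ Finset.range (n + 1), l j * (kr n j w : ℝ)) +
        w * ∑ j ∈ Finset.range (n + 1), l j * (kr n j (w - 1) : ℝ)) / (n + 1) := by
    intro w hw
    rw [Finset.sum_range_succ]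
    have h1 : l' (n + 1) = 0 := if_neg (by omega)
    rw [h1, zero_mul, add_zero, eq_div_iff hn.ne', Finset.sum_mul, Finset.mul_sum,
      Finset.mul_sum, ← Finset.sum_add_distrib]
    refine Finset.sum_congr rfl fun j hj => ?_
    have hj' : j ≤ n := by
      have := Finset.mem_range.1 hj
      omega
    have h2 : l' j = l j * (((n : ℝ) + 1 - j) / (n + 1)) := if_pos hj'
    rw [h2]
    have h3 := kr_id n j w hw
    calc l j * (((n : ℝ) + 1 - j) / (n + 1)) * (kr (n + 1) j w : ℝ) * (n + 1)
        = l j * (((n : ℝ) + 1 - j) * (kr (n + 1) j w : ℝ)) := by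
          field_simp
      _ = l j * (((n : ℝ) + 1 - w) * (kr n j w : ℝ) + w * (kr n j (w - 1) : ℝ)) := by rw [h3]
      _ = _ := by ring
  refine ⟨l', fun j => ?_, ?_, fun w hw1 hw2 => ?_, ?_⟩
  · show 0 ≤ if j ≤ n then l j * (((n : ℝ) + 1 - j) / (n + 1)) else 0
    split_ifs with h
    · have h1 : (j : ℝ) ≤ n := by exact_mod_cast h
      have h2 : 0 ≤ (n : ℝ) + 1 - j := by linarith
      exact mul_nonneg (hl j) (div_nonneg h2 hn.le)
    · exact le_rfl
  · show (if 0 ≤ n then l 0 * (((n : ℝ) + 1 - (0 : ℕ)) / (n + 1)) else 0) = l 0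
    rw [if_pos (Nat.zero_le _), Nat.cast_zero, sub_zero, div_self hn.ne', mul_one]
  · rw [hsum w hw2]
    refine div_nonpos_of_nonpos_of_nonneg ?_ hn.le
    have h1 : ∑ j ∈ Finset.range (n + 1), l j * (kr n j (w - 1) : ℝ) ≤ 0 :=
      hf (w - 1) (by omega) (by omega)
    have h2 : (0 : ℝ) ≤ w := by positivity
    have h3 : ((n : ℝ) + 1 - w) * (∑ j ∈ Finset.range (n + 1), l j * (kr n j w : ℝ)) ≤ 0 := by
      rcases Nat.lt_or_ge n w with h | h
      · have hwn : w = n + 1 := by omega
        rw [hwn]
        push_cast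
        simp
      · have h4 : (w : ℝ) ≤ n := by exact_mod_cast h
        exact mul_nonpos_of_nonneg_of_nonpos (by linarith) (hf w (by omega) h)
    have h4 := mul_nonpos_of_nonneg_of_nonpos h2 h1
    linarith
  · rw [hsum 0 (Nat.zero_le _)]
    simp only [Nat.cast_zero, sub_zero, zero_mul, add_zero]
    field_simp

end Pool.Agent.TH41.BL.PUNf
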