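import Mathlib
import Pool.Agent.TH41.BL.Stm

/-!
BL-QB (moduli): bounds of the kernel near the imaginary axis (job 3121, written by helper368).
-/

set_option autoImplicit false

open MeasureTheory Filter Topology

namespace Pool.Agent.TH41.BL.QBAf

open Pool.Agent.TH41.BL

open Pool.Agent.TH41.LP (WW)

/-- linear differential equations of the first order on an interval around `0` -/
lemma ode (κ : ℝ) (hκ : 0 < κ) (f G : ℝ → ℂ) (hG : Continuous G)
    (hf : ∀ x : ℝ, |x| ≤ κ → HasDerivAt f (G x * f x) x) (σ : ℝ) (hσ : |σ| ≤ κ) :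
    f σ = f 0 * Complex.exp (∫ x in (0 : ℝ)..σ, G x) := by
  set F : ℝ → ℂ := fun x => ∫ u in (0 : ℝ)..x, G u with hF
  have hFd : ∀ x : ℝ, HasDerivAt F (G x) x := fun x =>
    intervalIntegral.integral_hasDerivAt_right (hG.intervalIntegrable _ _)
      (hG.stronglyMeasurableAtFilter _ _) hG.continuousAt
  set y : ℝ → ℂ := fun x => f x * Complex.exp (-F x) with hy
  have hyd : ∀ x : ℝ, |x| ≤ κ → HasDerivAt y 0 x := by
    intro x hx
    have h1 : HasDerivAt y
        (G x * f x * Complex.exp (-F x) + f x * (Complex.exp (-F x) * -G x)) x :=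
      (hf x hx).mul ((hFd x).neg.cexp)
    have e : G x * f x * Complex.exp (-F x) + f x * (Complex.exp (-F x) * -G x) = 0 := by ring
    rw [e] at h1
    exact h1
  have hc : ∀ x ∈ Set.Icc (-κ) κ, y x = y (-κ) := by
    refine constant_of_has_deriv_right_zero ?_ ?_
    · intro x hx
      exact (hyd x (abs_le.mpr hx)).continuousAt.continuousWithinAt
    · intro x hx
      exact (hyd x (abs_le.mpr ⟨hx.1, hx.2.le⟩)).hasDerivWithinAt
  have h0 : y σ = y 0 := by
    rw [hc σ (abs_le.mp hσ), hc 0 ⟨by linarith, hκ.le⟩]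
  have hF0 : F 0 = 0 := by simp [hF]
  have h2 : f σ * Complex.exp (-F σ) = f 0 := by
    have : y σ = f σ * Complex.exp (-F σ) := rfl
    rw [← this, h0]
    simp only [hy, hF0, neg_zero, Complex.exp_zero, mul_one]
  calc f σ = f σ * Complex.exp (-F σ) * Complex.exp (F σ) := by
        rw [mul_assoc, ← Complex.exp_add]; simp
    _ = f 0 * Complex.exp (F σ) := by rw [h2]

/-- the modulus of the kernel -/
lemma modulus (C κ : ℝ) (hκ : 0 < κ) (hκ' : κ ≤ Real.pi / 16) (hg : GDp C κ)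
    (hq : S_qq) (n w : ℕ) (hn : 0 < n) (hw : w ≤ n) (t : ℝ) :
    ∃ g : ℝ → ℝ, Continuous g ∧
      (∀ x : ℝ, |x| ≤ κ → g x = (GG ((w : ℝ) / n) (x + t * Complex.I)).re) ∧
      ∀ σ : ℝ, |σ| ≤ κ →
        ‖QQ n w (σ + t * Complex.I)‖ = Real.exp (n * ∫ x in (0 : ℝ)..σ, g x) := by
  obtain ⟨-, hq2, -, hq4, -, -⟩ := hq n w hw
  have hn' : (0 : ℝ) < n := by exact_mod_cast hn
  have hω0 : (0 : ℝ) ≤ (w : ℝ) / n := by positivity
  have hω1 : (w : ℝ) / n ≤ 1 := by
    rw [div_le_one hn']; exact_mod_cast hw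
  have hκle : -κ ≤ κ := by linarith
  -- the continuous extension
  have hcont : ContinuousOn (fun x : ℝ => GG ((w : ℝ) / n) (x + t * Complex.I))
      (Set.Icc (-κ) κ) := by
    intro x hx
    have hre : |((x : ℂ) + t * Complex.I).re| ≤ κ := by
      simpa using abs_le.mpr hx
    have h1 := ((hg.d1 _ hω0 hω1 _ hre).1).continuousAt
    have h2 : ContinuousAt (fun x : ℝ => ((x : ℂ) + t * Complex.I)) x := by fun_prop
    exact (ContinuousAt.comp (f := fun x : ℝ => ((x : ℂ) + t * Complex.I)) h1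
      h2).continuousWithinAt
  set G : ℝ → ℂ := Set.IccExtend hκle
    (fun x : Set.Icc (-κ) κ => GG ((w : ℝ) / n) ((x : ℝ) + t * Complex.I)) with hGdef
  have hGc : Continuous G := (continuousOn_iff_continuous_domRestrict.mp hcont).Icc_extend'
  have hGx : ∀ x : ℝ, |x| ≤ κ → G x = GG ((w : ℝ) / n) (x + t * Complex.I) := by
    intro x hx
    exact Set.IccExtend_of_mem hκle _ (abs_le.mp hx)
  refine ⟨fun x => (G x).re, Complex.continuous_re.comp hGc, fun x hx => by
    simp only [hGx x hx], ?_⟩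
  intro σ hσ
  have hπ := Real.pi_pos
  have key := ode κ hκ (fun x : ℝ => QQ n w (x + t * Complex.I)) (fun x => n * G x)
    (continuous_const.mul hGc) (by
      intro x hx
      have hre : |((x : ℂ) + t * Complex.I).re| < Real.pi / 8 := by
        have : ((x : ℂ) + t * Complex.I).re = x := by simp
        rw [this]; linarith
      have h1 := hq4 ((x : ℂ) + t * Complex.I) hn hre
      have h2 : HasDerivAt (fun x : ℝ => ((x : ℂ) + t * Complex.I)) 1 x := by
        simpa using (Complex.ofRealCLM.hasDerivAt (x := x)).add_const ((t : ℂ) * Complex.I)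
      have h3 := HasDerivAt.comp x h1 h2
      rw [mul_one] at h3
      show HasDerivAt (fun x : ℝ => QQ n w (x + t * Complex.I))
        (n * G x * QQ n w (x + t * Complex.I)) x
      rw [hGx x hx]
      exact h3) σ hσ
  have key' : QQ n w (σ + t * Complex.I) = QQ n w (t * Complex.I) *
      Complex.exp (∫ x in (0 : ℝ)..σ, (n : ℂ) * G x) := by
    simpa using key
  rw [key', norm_mul, hq2 t, one_mul, Complex.norm_exp]
  congr 1
  rw [intervalIntegral.integral_const_mul]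
  have h4 : ((n : ℂ) * ∫ x in (0 : ℝ)..σ, G x).re = n * (∫ x in (0 : ℝ)..σ, G x).re := by
    simp
  rw [h4]
  congr 1
  have h5 := Complex.reCLM.intervalIntegral_comp_comm (hGc.intervalIntegrable (μ := volume) 0 σ)
  simpa using h5.symm

lemma mem_abs {σ κ x : ℝ} (hσ : |σ| ≤ κ) (hx : x ∈ Set.uIoc 0 σ) : |x| ≤ |σ| ∧ |x| ≤ κ := by
  have : |x| ≤ |σ| := by
    rcases Set.mem_uIoc.mp hx with h | h
    · rw [abs_of_pos h.1, abs_of_pos (h.1.trans_le h.2)]; exact h.2
    · rw [abs_of_nonpos h.2, abs_of_neg (h.1.trans_le h.2)]; linarith [h.1]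
  exact ⟨this, this.trans hσ⟩

theorem qba (C κ : ℝ) (hC : 0 < C) (hκ : 0 < κ) (hκ' : κ ≤ Real.pi / 16) (hg : GDp C κ)
    (hi : S_gi) (hq : S_qq) (n w : ℕ) (hn : 0 < n) (hw : w ≤ n) :
    (∀ σ t : ℝ, |σ| ≤ κ → ‖QQ n w (σ + t * Complex.I)‖ ≤ Real.exp (C * n * |σ|)) ∧
    (∀ σ t : ℝ, |σ| ≤ κ →
      ‖QQ n w (σ + t * Complex.I)‖ ≤ ‖QQ n w σ‖ * Real.exp (C * n * |σ| * t ^ 2)) ∧
    (∀ σ t : ℝ, |σ| ≤ κ →
      ‖QQ n w σ‖ * Real.exp (-(C * n * |σ| * t ^ 2)) ≤ ‖QQ n w (σ + t * Complex.I)‖) ∧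
    (∀ σ t : ℝ, |σ| ≤ κ → σ ≤ 0 →
      ‖QQ n w (σ + t * Complex.I)‖ ≤
        Real.exp (n * (σ * (bb n w / Real.cosh (2 * t)) + C * σ ^ 2))) ∧
    (∀ σ : ℝ, |σ| ≤ κ → ‖QQ n w σ‖ ≤ Real.exp (n * (bb n w * σ + C * |σ| ^ 3))) := by
  have hn' : (0 : ℝ) < n := by exact_mod_cast hn
  have hω0 : (0 : ℝ) ≤ (w : ℝ) / n := by positivity
  have hω1 : (w : ℝ) / n ≤ 1 := by
    rw [div_le_one hn']; exact_mod_cast hw
  have hbb : bb n w = 1 - 2 * ((w : ℝ) / n) - 2 / Real.pi := by
    unfold bb; ring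
  -- the real case
  obtain ⟨g0, hg0c, hg0x, hg0⟩ := modulus C κ hκ hκ' hg hq n w hn hw 0
  have hg0' : ∀ σ : ℝ, |σ| ≤ κ → ‖QQ n w σ‖ = Real.exp (n * ∫ x in (0 : ℝ)..σ, g0 x) := by
    intro σ hσ
    have := hg0 σ hσ
    simpa using this
  have hg0x' : ∀ x : ℝ, |x| ≤ κ → g0 x = (GG ((w : ℝ) / n) x).re := by
    intro x hx
    have := hg0x x hx
    simpa using this
  -- the difference of the logarithms
  have hdiff : ∀ (t : ℝ) (g : ℝ → ℝ), Continuous g →
      (∀ x : ℝ, |x| ≤ κ → g x = (GG ((w : ℝ) / n) (x + t * Complex.I)).re) →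
      ∀ σ : ℝ, |σ| ≤ κ →
      |(∫ x in (0 : ℝ)..σ, g x) - ∫ x in (0 : ℝ)..σ, g0 x| ≤ C * t ^ 2 * |σ| := by
    intro t g hgc hgx σ hσ
    rw [← intervalIntegral.integral_sub (hgc.intervalIntegrable _ _)
      (hg0c.intervalIntegrable _ _)]
    have h := intervalIntegral.norm_integral_le_of_norm_le_const (a := (0 : ℝ)) (b := σ)
      (C := C * t ^ 2) (f := fun x => g x - g0 x) (by
        intro x hx
        obtain ⟨-, h2⟩ := mem_abs hσ hx
        rw [hgx x h2, hg0x' x h2, Real.norm_eq_abs]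
        exact hg.d3 _ hω0 hω1 x t h2)
    simpa [Real.norm_eq_abs] using h
  refine ⟨?_, ?_, ?_, ?_, ?_⟩
  · intro σ t hσ
    obtain ⟨g, hgc, hgx, hgn⟩ := modulus C κ hκ hκ' hg hq n w hn hw t
    rw [hgn σ hσ]
    apply Real.exp_le_exp.mpr
    have h := intervalIntegral.norm_integral_le_of_norm_le_const (a := (0 : ℝ)) (b := σ)
      (C := C) (f := g) (by
        intro x hx
        obtain ⟨-, h2⟩ := mem_abs hσ hx
        rw [hgx x h2, Real.norm_eq_abs]
        have hre : |((x : ℂ) + t * Complex.I).re| ≤ κ := by simpa using h2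
        exact (Complex.abs_re_le_norm _).trans (hg.d1 _ hω0 hω1 _ hre).2)
    rw [Real.norm_eq_abs, sub_zero] at h
    have h' := (le_abs_self _).trans h
    calc (n : ℝ) * ∫ x in (0 : ℝ)..σ, g x ≤ n * (C * |σ|) :=
          mul_le_mul_of_nonneg_left h' hn'.le
      _ = C * n * |σ| := by ring
  · intro σ t hσ
    obtain ⟨g, hgc, hgx, hgn⟩ := modulus C κ hκ hκ' hg hq n w hn hw t
    rw [hgn σ hσ, hg0' σ hσ, ← Real.exp_add]
    apply Real.exp_le_exp.mpr
    have h := (abs_le.mp (hdiff t g hgc hgx σ hσ)).2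
    have h' := mul_le_mul_of_nonneg_left h hn'.le
    nlinarith [h']
  · intro σ t hσ
    obtain ⟨g, hgc, hgx, hgn⟩ := modulus C κ hκ hκ' hg hq n w hn hw t
    rw [hgn σ hσ, hg0' σ hσ, ← Real.exp_add]
    apply Real.exp_le_exp.mpr
    have h := (abs_le.mp (hdiff t g hgc hgx σ hσ)).1
    have h' := mul_le_mul_of_nonneg_left h hn'.le
    nlinarith [h']
  · intro σ t hσ hσ0
    obtain ⟨g, hgc, hgx, hgn⟩ := modulus C κ hκ hκ' hg hq n w hn hw t
    rw [hgn σ hσ]
    apply Real.exp_le_exp.mpr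
    apply mul_le_mul_of_nonneg_left _ hn'.le
    rw [intervalIntegral.integral_symm]
    have hlow : (∫ _x in σ..(0 : ℝ), (bb n w / Real.cosh (2 * t) - C * |σ|)) ≤
        ∫ x in σ..(0 : ℝ), g x := by
      apply intervalIntegral.integral_mono_on hσ0 (by simp) (hgc.intervalIntegrable _ _)
      intro x hx
      have hxσ : |x| ≤ |σ| := by
        rw [abs_of_nonpos hx.2, abs_of_nonpos hσ0]; linarith [hx.1]
      have hx2 : |x| ≤ κ := hxσ.trans hσ
      rw [hgx x hx2]
      have h1 := (abs_le.mp (hg.d2 _ hω0 hω1 x t hx2)).1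
      have h2 := hi ((w : ℝ) / n) t
      rw [← hbb] at h2
      have h3 : C * |x| ≤ C * |σ| := mul_le_mul_of_nonneg_left hxσ hC.le
      linarith
    rw [intervalIntegral.integral_const, smul_eq_mul, abs_of_nonpos hσ0] at hlow
    nlinarith [hlow]
  · intro σ hσ
    rw [hg0' σ hσ]
    apply Real.exp_le_exp.mpr
    apply mul_le_mul_of_nonneg_left _ hn'.le
    have h := intervalIntegral.norm_integral_le_of_norm_le_const (a := (0 : ℝ)) (b := σ)
      (C := C * |σ| ^ 2) (f := fun x => g0 x - bb n w) (by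
        intro x hx
        obtain ⟨h1, h2⟩ := mem_abs hσ hx
        rw [hg0x' x h2, Real.norm_eq_abs, hbb]
        refine (hg.d4 _ hω0 hω1 x h2).trans ?_
        apply mul_le_mul_of_nonneg_left _ hC.le
        rw [← sq_abs x]
        exact pow_le_pow_left₀ (abs_nonneg x) h1 2)
    rw [intervalIntegral.integral_sub (hg0c.intervalIntegrable _ _) (by simp),
      intervalIntegral.integral_const, smul_eq_mul, Real.norm_eq_abs, sub_zero] at h
    have h' := (le_abs_self _).trans h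
    have e : C * |σ| ^ 2 * |σ| = C * |σ| ^ 3 := by ring
    rw [e] at h'
    linarith

end Pool.Agent.TH41.BL.QBAf
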