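import Mathlib
import Pool.Agent.TH41.BL.Stm

/-! Project BL (helper41), QB: the phase of the kernel. -/

set_option autoImplicit false

open MeasureTheory Filter Topology

namespace Pool.Agent.TH41.BL.QBBf

open Pool.Agent.TH41.BL

open Pool.Agent.TH41.LP (WW)

theorem hasDerivAt_line (σ t : ℝ) :
    HasDerivAt (fun t : ℝ => (σ : ℂ) + (t : ℂ) * Complex.I) Complex.I t := by
  have h1 : HasDerivAt (fun t : ℝ => (t : ℂ)) 1 t := Complex.ofRealCLM.hasDerivAt
  have h2 := (h1.mul_const Complex.I).const_add (σ : ℂ)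
  simpa using h2

theorem qbb (C κ : ℝ) (hC : 0 < C) (hκ : 0 < κ) (hκ' : κ ≤ Real.pi / 16) (hg : GDp C κ)
    (hq : S_qq) (n w : ℕ) (hn : 0 < n) (hw : w ≤ n) :
    ∀ σ t : ℝ, |σ| ≤ κ → ∃ θ : ℝ, |θ| ≤ C * n * |t| ^ 3 ∧
      QQ n w (σ + t * Complex.I) = (‖QQ n w (σ + t * Complex.I)‖ : ℂ) *
        Complex.exp (((n * (GG ((w : ℝ) / n) σ).re * t + θ : ℝ) : ℂ) * Complex.I) := by
  intro σ t hσ
  obtain ⟨-, -, -, hq4, hq5, -⟩ := hq n w hw
  set ω : ℝ := (w : ℝ) / n with hω
  have hn' : (0 : ℝ) < n := by exact_mod_cast hn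
  have hω0 : 0 ≤ ω := by positivity
  have hω1 : ω ≤ 1 := by
    rw [hω, div_le_one hn']
    exact_mod_cast hw
  have hre : ∀ u : ℝ, ((σ : ℂ) + (u : ℂ) * Complex.I).re = σ := by
    intro u
    simp
  set g : ℝ → ℂ := fun u => GG ω ((σ : ℂ) + (u : ℂ) * Complex.I) with hgdef
  have hgc : Continuous g := by
    rw [continuous_iff_continuousAt]
    intro u
    have h1 := (hg.d1 ω hω0 hω1 ((σ : ℂ) + (u : ℂ) * Complex.I) (by rw [hre]; exact hσ)).1
    exact ContinuousAt.comp (f := fun u : ℝ => (σ : ℂ) + (u : ℂ) * Complex.I)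
      h1.continuousAt (hasDerivAt_line σ u).continuousAt
  set G : ℝ → ℂ := fun t => ∫ u in (0 : ℝ)..t, g u with hGdef
  have hG : ∀ t, HasDerivAt G (g t) t := fun t => (hgc.integral_hasStrictDerivAt 0 t).hasDerivAt
  set F : ℝ → ℂ := fun t => QQ n w ((σ : ℂ) + (t : ℂ) * Complex.I) with hFdef
  have hpi : σ < Real.pi / 8 ∧ |σ| < Real.pi / 8 := by
    have := Real.pi_pos
    have h1 := le_abs_self σ
    constructor <;> linarith
  have hF : ∀ t, HasDerivAt F (n * g t * F t * Complex.I) t := by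
    intro t
    exact HasDerivAt.comp (h := fun t : ℝ => (σ : ℂ) + (t : ℂ) * Complex.I) t
      (hq4 ((σ : ℂ) + (t : ℂ) * Complex.I) hn (by rw [hre]; exact hpi.2)) (hasDerivAt_line σ t)
  set H : ℝ → ℂ := fun t => F t * Complex.exp (-(n * Complex.I * G t)) with hHdef
  have hH : ∀ t, HasDerivAt H 0 t := by
    intro t
    have h1 := ((hG t).const_mul ((n : ℂ) * Complex.I)).neg.cexp
    have h2 := (hF t).mul h1
    have h3 : HasDerivAt H (n * g t * F t * Complex.I * Complex.exp (-(n * Complex.I * G t)) +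
        F t * (Complex.exp (-(n * Complex.I * G t)) * -(n * Complex.I * g t))) t := h2
    have e : n * g t * F t * Complex.I * Complex.exp (-(n * Complex.I * G t)) +
        F t * (Complex.exp (-(n * Complex.I * G t)) * -(n * Complex.I * g t)) = 0 := by ring
    rw [e] at h3
    exact h3
  have hconst : H t = H 0 := by
    apply is_const_of_deriv_eq_zero (fun t => (hH t).differentiableAt) (fun t => (hH t).deriv)
  have hG0 : G 0 = 0 := by
    rw [hGdef]
    simp
  have hF0 : F 0 = QQ n w σ := by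
    rw [hFdef]
    simp
  obtain ⟨him, hpos⟩ := hq5 σ hpi.2
  set r : ℝ := (QQ n w σ).re with hr
  have hF0' : F 0 = (r : ℂ) := by
    rw [hF0]
    apply Complex.ext
    · simp [hr]
    · simp [him]
  have hmain : F t = (r : ℂ) * Complex.exp (n * Complex.I * G t) := by
    have h1 : F t * Complex.exp (-(n * Complex.I * G t)) = (r : ℂ) := by
      have h2 : H t = F t * Complex.exp (-(n * Complex.I * G t)) := rfl
      have h3 : H 0 = F 0 := by
        rw [hHdef]
        simp [hG0]
      rw [← h2, hconst, h3, hF0']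
    rw [← h1, mul_assoc, ← Complex.exp_add]
    simp
  have hexp : Complex.exp (n * Complex.I * G t) =
      (Real.exp (-(n * (G t).im)) : ℂ) * Complex.exp (((n * (G t).re : ℝ) : ℂ) * Complex.I) := by
    rw [Complex.ofReal_exp, ← Complex.exp_add]
    congr 1
    apply Complex.ext
    · simp
    · simp
  have hnorm : ‖F t‖ = r * Real.exp (-(n * (G t).im)) := by
    rw [hmain, hexp, norm_mul, norm_mul, Complex.norm_exp_ofReal_mul_I, mul_one,
      Complex.norm_real, Complex.norm_real, Real.norm_of_nonneg hpos.le,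
      Real.norm_of_nonneg (Real.exp_pos _).le]
  refine ⟨n * ((G t).re - (GG ω σ).re * t), ?_, ?_⟩
  · have h1 : (G t).re - (GG ω σ).re * t = ∫ u in (0 : ℝ)..t, ((g u).re - (GG ω σ).re) := by
      rw [intervalIntegral.integral_sub, intervalIntegral.integral_const, smul_eq_mul, sub_zero,
        mul_comm t]
      · congr 1
        exact (Complex.reCLM.intervalIntegral_comp_comm (hgc.intervalIntegrable 0 t)).symm
      · exact (Complex.continuous_re.comp hgc).intervalIntegrable 0 t
      · exact intervalIntegrable_const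
    have h2 : ‖∫ u in (0 : ℝ)..t, ((g u).re - (GG ω σ).re)‖ ≤ C * t ^ 2 * |t - 0| := by
      apply intervalIntegral.norm_integral_le_of_norm_le_const
      intro u hu
      have h3 := hg.d3 ω hω0 hω1 σ u hσ
      rw [Real.norm_eq_abs]
      refine h3.trans ?_
      apply mul_le_mul_of_nonneg_left _ hC.le
      apply sq_le_sq.2
      rw [Set.mem_uIoc] at hu
      rcases hu with hu | hu
      · rw [abs_of_pos hu.1, abs_of_pos (hu.1.trans_le hu.2)]
        exact hu.2
      · rw [abs_of_nonpos hu.2, abs_of_nonpos (hu.1.le.trans hu.2)]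
        linarith [hu.1]
    rw [h1, abs_mul, Nat.abs_cast, ← Real.norm_eq_abs (∫ u in (0 : ℝ)..t, ((g u).re - (GG ω σ).re))]
    have h4 : C * t ^ 2 * |t - 0| = C * |t| ^ 3 := by
      rw [sub_zero, ← sq_abs t]
      ring
    rw [h4] at h2
    calc (n : ℝ) * ‖∫ u in (0 : ℝ)..t, ((g u).re - (GG ω σ).re)‖ ≤ n * (C * |t| ^ 3) :=
          mul_le_mul_of_nonneg_left h2 hn'.le
      _ = C * n * |t| ^ 3 := by ring
  · have h5 : n * (GG ω σ).re * t + n * ((G t).re - (GG ω σ).re * t) = n * (G t).re := by ring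
    rw [h5]
    have h6 : QQ n w (σ + t * Complex.I) = F t := rfl
    rw [h6, hnorm, hmain, hexp]
    push_cast
    ring

end Pool.Agent.TH41.BL.QBBf
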