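import Mathlib
import Pool.Agent.TH41.BL.Stm2
import Pool.Agent.TH41.BL.QBA
import Pool.Agent.TH41.BL.QBB

/-!
Project BL2 (helper41), QBM: bounds of the kernel near the imaginary axis
(job 3237, written by helper914).
-/

set_option autoImplicit false

open MeasureTheory Filter Topology

namespace Pool.Agent.TH41.BL.QBMf

open Pool.Agent.TH41.BL

lemma gdp_mono {C κ κ' : ℝ} (h : GDp C κ) (hk : κ' ≤ κ) : GDp C κ' where
  d1 := fun ω h0 h1 s hs => h.d1 ω h0 h1 s (hs.trans hk)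
  d2 := fun ω h0 h1 σ t hs => h.d2 ω h0 h1 σ t (hs.trans hk)
  d3 := fun ω h0 h1 σ t hs => h.d3 ω h0 h1 σ t (hs.trans hk)
  d4 := fun ω h0 h1 σ hs => h.d4 ω h0 h1 σ (hs.trans hk)

lemma pgp_mono {F : Fm} {T C κ κ' : ℝ} (h : PGp F T C κ) (hk : κ' ≤ κ) : PGp F T C κ' where
  g0 := fun σ t hs ht => h.g0 σ t (hs.trans hk) ht
  g1 := fun σ t hs ht => h.g1 σ t (hs.trans hk) ht
  g2 := fun σ t hs ht => h.g2 σ t (hs.trans hk) ht
  g3 := fun σ t hs ht => h.g3 σ t (hs.trans hk) ht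
  g4 := fun σ hs => h.g4 σ (hs.trans hk)
  g5 := h.g5
  g6 := h.g6
  g7 := fun σ hs => h.g7 σ (hs.trans hk)
  g8 := h.g8.mono fun _ hs => ⟨hs.1.trans hk, hs.2⟩

section

variable {F : Fm} {T C κ : ℝ}

/-- horizontal derivative of the real part -/
lemma der_re (h : PGp F T C κ) {x t : ℝ} (hx : |x| ≤ κ) (ht : |t| ≤ T) :
    HasDerivAt (fun x : ℝ => (F.P (x + t * Complex.I)).re) (F.PD (x + t * Complex.I)).re x := by
  have h1 := h.g0 x t hx ht
  have h2 : HasDerivAt (fun x : ℝ => ((x : ℂ) + t * Complex.I)) 1 x := by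
    simpa using (Complex.ofRealCLM.hasDerivAt (x := x)).add_const ((t : ℂ) * Complex.I)
  have h3 := HasDerivAt.comp x h1 h2
  rw [mul_one] at h3
  exact Complex.reCLM.hasFDerivAt.comp_hasDerivAt x h3

/-- vertical derivative of the imaginary part -/
lemma der_im (h : PGp F T C κ) {σ t : ℝ} (hσ : |σ| ≤ κ) (ht : |t| ≤ T) :
    HasDerivAt (fun t : ℝ => (F.P (σ + t * Complex.I)).im) (F.PD (σ + t * Complex.I)).re t := by
  have h1 := h.g0 σ t hσ ht
  have h3 := HasDerivAt.comp t h1 (QBBf.hasDerivAt_line σ t)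
  have h4 := Complex.imCLM.hasFDerivAt.comp_hasDerivAt t h3
  have e : Complex.imCLM (F.PD (σ + t * Complex.I) * Complex.I) =
      (F.PD (σ + t * Complex.I)).re := by
    simp
  rw [e] at h4
  exact h4

/-- mean value inequality from `0` -/
lemma mvt {f f' : ℝ → ℝ} {B σ : ℝ} (hf : ∀ x : ℝ, |x| ≤ |σ| → HasDerivAt f (f' x) x)
    (hB : ∀ x : ℝ, |x| ≤ |σ| → |f' x| ≤ B) : |f σ - f 0| ≤ B * |σ| := by
  have h1 := Convex.norm_image_sub_le_of_norm_hasDerivWithin_le (f := f) (f' := f')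
    (s := Set.Icc (-|σ|) |σ|) (x := 0) (y := σ) (C := B)
    (fun x hx => (hf x (abs_le.2 hx)).hasDerivWithinAt)
    (fun x hx => by rw [Real.norm_eq_abs]; exact hB x (abs_le.2 hx))
    (convex_Icc _ _) ⟨by linarith [abs_nonneg σ], abs_nonneg σ⟩ (abs_le.1 le_rfl)
  rw [sub_zero, Real.norm_eq_abs, Real.norm_eq_abs] at h1
  exact h1

lemma p_zero (h : PGp F T C κ) {t : ℝ} (ht : |t| ≤ T) :
    (F.P (((0 : ℝ) : ℂ) + t * Complex.I)).re = 0 := by
  rw [Complex.ofReal_zero, zero_add]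
  exact h.g6 t ht

lemma p2 (h : PGp F T C κ) {σ t : ℝ} (hσ : |σ| ≤ κ) (ht : |t| ≤ T) :
    |(F.P (σ + t * Complex.I)).re| ≤ C * |σ| := by
  have h1 := mvt (f := fun x : ℝ => (F.P (x + t * Complex.I)).re)
    (f' := fun x : ℝ => (F.PD (x + t * Complex.I)).re) (B := C) (σ := σ)
    (fun x hx => der_re h (hx.trans hσ) ht)
    (fun x hx => (Complex.abs_re_le_norm _).trans (h.g1 x t (hx.trans hσ) ht))
  simp only [p_zero h ht, sub_zero] at h1
  exact h1

lemma p3 (h : PGp F T C κ) (hT : 0 < T) {σ t : ℝ} (hσ : |σ| ≤ κ) (ht : |t| ≤ T) :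
    |(F.P (σ + t * Complex.I)).re - (F.P σ).re| ≤ C * |σ| * t ^ 2 := by
  have h0 : |(0 : ℝ)| ≤ T := by rw [abs_zero]; exact hT.le
  have h1 := mvt
    (f := fun x : ℝ => (F.P (x + t * Complex.I)).re - (F.P (x + ((0 : ℝ) : ℂ) * Complex.I)).re)
    (f' := fun x : ℝ => (F.PD (x + t * Complex.I)).re -
      (F.PD (x + ((0 : ℝ) : ℂ) * Complex.I)).re) (B := C * t ^ 2) (σ := σ)
    (fun x hx => (der_re h (hx.trans hσ) ht).sub (der_re h (hx.trans hσ) h0))
    (fun x hx => by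
      have := h.g3 x t (hx.trans hσ) ht
      simpa using this)
  simp only [p_zero h ht, p_zero h h0, sub_zero] at h1
  rw [Complex.ofReal_zero, zero_mul, add_zero] at h1
  calc _ ≤ C * t ^ 2 * |σ| := h1
    _ = _ := by ring

lemma p5 (h : PGp F T C κ) (hC : 0 < C) {σ t : ℝ} (hσ : |σ| ≤ κ) (ht : |t| ≤ T) :
    |(F.P (σ + t * Complex.I)).im - (F.PD σ).re * t| ≤ C * |t| ^ 3 := by
  have h1 := mvt
    (f := fun u : ℝ => (F.P (σ + u * Complex.I)).im - (F.PD σ).re * u)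
    (f' := fun u : ℝ => (F.PD (σ + u * Complex.I)).re - (F.PD σ).re) (B := C * t ^ 2) (σ := t)
    (fun u hu => by
      have e := (der_im h hσ (hu.trans ht)).sub ((hasDerivAt_id u).const_mul (F.PD σ).re)
      rw [mul_one] at e
      exact e)
    (fun u hu => by
      refine (h.g3 σ u hσ (hu.trans ht)).trans ?_
      exact mul_le_mul_of_nonneg_left (sq_le_sq.2 hu) hC.le)
  simp only [Complex.ofReal_zero, zero_mul, add_zero, mul_zero, sub_zero, h.g7 σ hσ] at h1
  calc _ ≤ C * t ^ 2 * |t| := h1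
    _ = _ := by rw [← sq_abs t]; ring

lemma p6 (h : PGp F T C κ) (hC : 0 < C) {σ t : ℝ} (hσ : |σ| ≤ κ) (hσ0 : σ ≤ 0) (ht : |t| ≤ T)
    (hS : 0 ≤ F.S) :
    (F.P (σ + t * Complex.I)).re ≤ σ * (F.S / Real.cosh (2 * t)) + C * σ ^ 2 := by
  have habs : ∀ x ∈ Set.Icc σ 0, |x| ≤ |σ| := by
    intro x hx
    rw [abs_of_nonpos hx.2, abs_of_nonpos hσ0]; linarith [hx.1]
  have h1 := (convex_Icc σ 0).mul_sub_le_image_sub_of_le_deriv
    (f := fun x : ℝ => (F.P (x + t * Complex.I)).re) (C := F.S - C * |σ|)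
    (fun x hx => (der_re h ((habs x hx).trans hσ) ht).continuousAt.continuousWithinAt)
    (fun x hx => by
      rw [interior_Icc] at hx
      exact (der_re h ((habs x ⟨hx.1.le, hx.2.le⟩).trans hσ)
        ht).differentiableAt.differentiableWithinAt)
    (fun x hx => by
      rw [interior_Icc] at hx
      have hx' := habs x ⟨hx.1.le, hx.2.le⟩
      rw [(der_re h (hx'.trans hσ) ht).deriv]
      have e1 := (abs_le.mp (h.g2 x t (hx'.trans hσ) ht)).1
      have e2 := h.g5 t ht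
      have e3 : C * |x| ≤ C * |σ| := mul_le_mul_of_nonneg_left hx' hC.le
      linarith) σ ⟨le_rfl, hσ0⟩ 0 ⟨hσ0, le_rfl⟩ hσ0
  simp only [p_zero h ht] at h1
  rw [abs_of_nonpos hσ0] at h1
  have hc : 1 ≤ Real.cosh (2 * t) := Real.one_le_cosh _
  have h2 : F.S / Real.cosh (2 * t) ≤ F.S := div_le_self hS hc
  have h3 : σ * F.S ≤ σ * (F.S / Real.cosh (2 * t)) := mul_le_mul_of_nonpos_left h2 hσ0
  nlinarith

lemma p7 (h : PGp F T C κ) (hC : 0 < C) (hT : 0 < T) {σ : ℝ} (hσ : |σ| ≤ κ) :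
    |(F.P σ).re - F.S * σ| ≤ C * |σ| ^ 3 := by
  have h0 : |(0 : ℝ)| ≤ T := by rw [abs_zero]; exact hT.le
  have h1 := mvt
    (f := fun x : ℝ => (F.P (x + ((0 : ℝ) : ℂ) * Complex.I)).re - F.S * x)
    (f' := fun x : ℝ => (F.PD (x + ((0 : ℝ) : ℂ) * Complex.I)).re - F.S) (B := C * σ ^ 2) (σ := σ)
    (fun x hx => by
      have e := (der_re h (hx.trans hσ) h0).sub ((hasDerivAt_id x).const_mul F.S)
      rw [mul_one] at e
      exact e)
    (fun x hx => by
      have := h.g4 x (hx.trans hσ)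
      rw [Complex.ofReal_zero, zero_mul, add_zero]
      exact this.trans (mul_le_mul_of_nonneg_left (sq_le_sq.2 hx) hC.le))
  have e0 := p_zero h h0
  simp only [e0, mul_zero, sub_zero] at h1
  rw [Complex.ofReal_zero, zero_mul, add_zero] at h1
  calc _ ≤ C * σ ^ 2 * |σ| := h1
    _ = _ := by rw [← sq_abs σ]; ring

end

lemma S_nonneg (F : Fm) : 0 ≤ F.S := by
  unfold Fm.S
  apply Finset.sum_nonneg
  intro i _
  have := F.c_nn i
  positivity

lemma norm_QM (F : Fm) (n w : ℕ) (s : ℂ) :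
    ‖QM F n w s‖ = ‖QQ n w s‖ * Real.exp (n * (F.P s).re) := by
  unfold QM
  rw [norm_mul, Complex.norm_exp]
  congr 2
  simp

theorem qbm (hgd : S_gd) (hgi : S_gi) (hq : S_qq) (hp : S_pg) : S_qbm := by
  intro F T hT hF
  obtain ⟨C₁, κ₁, hC₁, hκ₁, hκ₁', hg₀⟩ := hgd
  obtain ⟨C₂, κ₂, hC₂, hκ₂, hκ₂', hp₀⟩ := hp F T hT hF
  set κ : ℝ := min κ₁ κ₂ with hκd
  have hκ : 0 < κ := lt_min hκ₁ hκ₂
  have hκ' : κ ≤ Real.pi / 16 := (min_le_left _ _).trans hκ₁'
  have hg : GDp C₁ κ := gdp_mono hg₀ (min_le_left _ _)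
  have hP : PGp F T C₂ κ := pgp_mono hp₀ (min_le_right _ _)
  have hS := S_nonneg F
  have hπ := Real.pi_pos
  refine ⟨C₁ + C₂, κ, by linarith, hκ, hκ', ?_⟩
  intro n w hn hw
  have hn' : (0 : ℝ) < n := by exact_mod_cast hn
  have hω0 : (0 : ℝ) ≤ (w : ℝ) / n := by positivity
  have hω1 : (w : ℝ) / n ≤ 1 := by
    rw [div_le_one hn']; exact_mod_cast hw
  have hbb : bb n w = 1 - 2 * ((w : ℝ) / n) - 2 / Real.pi := by
    unfold bb; ring
  obtain ⟨a2, a3, a4, a6, a7⟩ := QBAf.qba C₁ κ hC₁ hκ hκ' hg hgi hq n w hn hw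
  have a5 := QBBf.qbb C₁ κ hC₁ hκ hκ' hg hq n w hn hw
  obtain ⟨q1, q2, -, -, q5, -⟩ := hq n w hw
  constructor
  · -- m0
    intro t ht
    rw [norm_QM, q2 t, hP.g6 t ht, mul_zero, Real.exp_zero, mul_one]
  · -- m1
    intro σ hσ
    obtain ⟨h1, h2⟩ := q5 σ (by linarith)
    have e1 : QQ n w σ = (((QQ n w σ).re : ℝ) : ℂ) := by
      apply Complex.ext
      · simp
      · simp [h1]
    have e2 : F.P σ = (((F.P σ).re : ℝ) : ℂ) := by
      apply Complex.ext
      · simp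
      · simp [hP.g7 σ hσ]
    have e3 : QM F n w σ = (((QQ n w σ).re * Real.exp (n * (F.P σ).re) : ℝ) : ℂ) := by
      unfold QM
      rw [e1, e2]
      push_cast
      simp
    rw [e3, Complex.ofReal_im, Complex.ofReal_re]
    exact ⟨rfl, by positivity⟩
  · -- m2
    intro σ t hσ ht
    rw [norm_QM]
    have h1 := a2 σ t hσ
    have h2 : Real.exp (n * (F.P (σ + t * Complex.I)).re) ≤ Real.exp (C₂ * n * |σ|) := by
      apply Real.exp_le_exp.mpr
      have := (le_abs_self _).trans (p2 hP hσ ht)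
      calc (n : ℝ) * _ ≤ n * (C₂ * |σ|) := mul_le_mul_of_nonneg_left this hn'.le
        _ = _ := by ring
    calc _ ≤ Real.exp (C₁ * n * |σ|) * Real.exp (C₂ * n * |σ|) :=
          mul_le_mul h1 h2 (Real.exp_pos _).le (Real.exp_pos _).le
      _ = _ := by rw [← Real.exp_add]; congr 1; ring
  · -- m3
    intro σ t hσ ht
    rw [norm_QM, norm_QM]
    have h1 := a3 σ t hσ
    have h2 : Real.exp (n * (F.P (σ + t * Complex.I)).re) ≤
        Real.exp (n * (F.P σ).re) * Real.exp (C₂ * n * |σ| * t ^ 2) := by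
      rw [← Real.exp_add]
      apply Real.exp_le_exp.mpr
      have := (abs_le.mp (p3 hP hT hσ ht)).2
      have h3 := mul_le_mul_of_nonneg_left this hn'.le
      nlinarith [h3]
    calc _ ≤ (‖QQ n w σ‖ * Real.exp (C₁ * n * |σ| * t ^ 2)) *
          (Real.exp (n * (F.P σ).re) * Real.exp (C₂ * n * |σ| * t ^ 2)) :=
          mul_le_mul h1 h2 (Real.exp_pos _).le (by positivity)
      _ = ‖QQ n w σ‖ * Real.exp (n * (F.P σ).re) *
          (Real.exp (C₁ * n * |σ| * t ^ 2) * Real.exp (C₂ * n * |σ| * t ^ 2)) := by ring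
      _ = _ := by
        rw [← Real.exp_add]
        congr 2
        ring
  · -- m4
    intro σ t hσ ht
    rw [norm_QM, norm_QM]
    have h1 := a4 σ t hσ
    have h2 : Real.exp (n * (F.P σ).re) * Real.exp (-(C₂ * n * |σ| * t ^ 2)) ≤
        Real.exp (n * (F.P (σ + t * Complex.I)).re) := by
      rw [← Real.exp_add]
      apply Real.exp_le_exp.mpr
      have := (abs_le.mp (p3 hP hT hσ ht)).1
      have h3 := mul_le_mul_of_nonneg_left this hn'.le
      nlinarith [h3]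
    calc _ = (‖QQ n w σ‖ * Real.exp (-(C₁ * n * |σ| * t ^ 2))) *
          (Real.exp (n * (F.P σ).re) * Real.exp (-(C₂ * n * |σ| * t ^ 2))) := by
          have e : -((C₁ + C₂) * n * |σ| * t ^ 2) =
              -(C₁ * n * |σ| * t ^ 2) + -(C₂ * n * |σ| * t ^ 2) := by ring
          rw [e, Real.exp_add]
          ring
      _ ≤ _ := mul_le_mul h1 h2 (by positivity) (norm_nonneg _)
  · -- m5
    intro σ t hσ ht
    obtain ⟨θ, hθ, hθe⟩ := a5 σ t hσ
    refine ⟨θ + n * ((F.P (σ + t * Complex.I)).im - (F.PD σ).re * t), ?_, ?_⟩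
    · have h1 := p5 hP hC₂ hσ ht
      calc |θ + n * ((F.P (σ + t * Complex.I)).im - (F.PD σ).re * t)| ≤
          |θ| + |n * ((F.P (σ + t * Complex.I)).im - (F.PD σ).re * t)| := abs_add_le _ _
        _ ≤ C₁ * n * |t| ^ 3 + n * (C₂ * |t| ^ 3) := by
          rw [abs_mul, Nat.abs_cast]
          exact add_le_add hθ (mul_le_mul_of_nonneg_left h1 hn'.le)
        _ = _ := by ring
    · rw [norm_QM]
      have e1 : QM F n w (σ + t * Complex.I) =
          QQ n w (σ + t * Complex.I) * Complex.exp (n * F.P (σ + t * Complex.I)) := rfl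
      have e2 : Complex.exp (n * F.P (σ + t * Complex.I)) =
          (Real.exp (n * (F.P (σ + t * Complex.I)).re) : ℂ) *
            Complex.exp (((n * (F.P (σ + t * Complex.I)).im : ℝ) : ℂ) * Complex.I) := by
        rw [Complex.ofReal_exp, ← Complex.exp_add]
        congr 1
        apply Complex.ext
        · simp
        · simp
      rw [e1, e2]
      conv_lhs => rw [hθe]
      have e3 : (((n * (GM F ((w : ℝ) / n) σ).re * t +
          (θ + n * ((F.P (σ + t * Complex.I)).im - (F.PD σ).re * t)) : ℝ) : ℂ) * Complex.I) =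
          ((n * (GG ((w : ℝ) / n) σ).re * t + θ : ℝ) : ℂ) * Complex.I +
            ((n * (F.P (σ + t * Complex.I)).im : ℝ) : ℂ) * Complex.I := by
        unfold GM
        rw [Complex.add_re, ← add_mul, ← Complex.ofReal_add]
        congr 2
        ring
      rw [e3, Complex.exp_add]
      push_cast
      ring
  · -- m6
    intro σ t hσ hσ0 ht
    rw [norm_QM]
    have h1 := a6 σ t hσ hσ0
    have h2 : Real.exp (n * (F.P (σ + t * Complex.I)).re) ≤
        Real.exp (n * (σ * (F.S / Real.cosh (2 * t)) + C₂ * σ ^ 2)) := by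
      apply Real.exp_le_exp.mpr
      exact mul_le_mul_of_nonneg_left (p6 hP hC₂ hσ hσ0 ht hS) hn'.le
    calc _ ≤ Real.exp (n * (σ * (bb n w / Real.cosh (2 * t)) + C₁ * σ ^ 2)) *
          Real.exp (n * (σ * (F.S / Real.cosh (2 * t)) + C₂ * σ ^ 2)) :=
          mul_le_mul h1 h2 (Real.exp_pos _).le (Real.exp_pos _).le
      _ = _ := by
        rw [← Real.exp_add]
        congr 1
        unfold bM
        ring
  · -- m7
    intro σ hσ
    rw [norm_QM]
    have h1 := a7 σ hσ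
    have h2 : Real.exp (n * (F.P σ).re) ≤ Real.exp (n * (F.S * σ + C₂ * |σ| ^ 3)) := by
      apply Real.exp_le_exp.mpr
      apply mul_le_mul_of_nonneg_left _ hn'.le
      have := (abs_le.mp (p7 hP hC₂ hT hσ)).2
      linarith
    calc _ ≤ Real.exp (n * (bb n w * σ + C₁ * |σ| ^ 3)) *
          Real.exp (n * (F.S * σ + C₂ * |σ| ^ 3)) :=
          mul_le_mul h1 h2 (Real.exp_pos _).le (Real.exp_pos _).le
      _ = _ := by
        rw [← Real.exp_add]
        congr 1
        unfold bM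
        ring
  · -- m8
    intro σ hσ
    have h1 := hg.d4 ((w : ℝ) / n) hω0 hω1 σ hσ
    have h2 := hP.g4 σ hσ
    rw [← hbb] at h1
    unfold GM bM
    rw [Complex.add_re]
    have e : (GG ((w : ℝ) / n) σ).re + (F.PD σ).re - (bb n w + F.S) =
        ((GG ((w : ℝ) / n) σ).re - bb n w) + ((F.PD σ).re - F.S) := by ring
    rw [e]
    calc _ ≤ |(GG ((w : ℝ) / n) σ).re - bb n w| + |(F.PD σ).re - F.S| := abs_add_le _ _
      _ ≤ C₁ * σ ^ 2 + C₂ * σ ^ 2 := add_le_add h1 h2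
      _ = _ := by ring
  · -- m9
    intro σ hσ
    have hσ' : |σ| ≤ κ := abs_le.2 hσ
    have h1 : ContinuousAt (fun σ : ℝ => GG ((w : ℝ) / n) σ) σ := by
      have h2 := (hg.d1 ((w : ℝ) / n) hω0 hω1 (σ : ℂ) (by simpa using hσ')).1.continuousAt
      exact ContinuousAt.comp (f := fun σ : ℝ => (σ : ℂ)) h2
        Complex.continuous_ofReal.continuousAt
    have h3 : ContinuousWithinAt (fun σ : ℝ => F.PD σ) (Set.Icc (-κ) κ) σ := by
      have h4 := hP.g8 (σ : ℂ) ⟨by simpa using hσ', by simpa using hT.le⟩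
      refine ContinuousWithinAt.comp (g := F.PD) (f := fun σ : ℝ => (σ : ℂ)) h4
        Complex.continuous_ofReal.continuousWithinAt ?_
      intro x hx
      exact ⟨by simpa using abs_le.2 hx, by simpa using hT.le⟩
    have h5 : ContinuousWithinAt (fun σ : ℝ => GM F ((w : ℝ) / n) σ) (Set.Icc (-κ) κ) σ :=
      h1.continuousWithinAt.add h3
    exact Complex.continuous_re.continuousAt.comp_continuousWithinAt h5
  · -- m10
    intro s hs ht
    have h1 := abs_le.1 hs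
    have h2 : DifferentiableAt ℂ (QQ n w) s := q1 s (by linarith) (by linarith)
    have h3 := hP.g0 s.re s.im hs ht
    rw [Complex.re_add_im] at h3
    exact h2.mul ((h3.differentiableAt.const_mul (n : ℂ)).cexp)

end Pool.Agent.TH41.BL.QBMf
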