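import Mathlib
import Pool.Agent.TH41.BL.Stm

/-!
Project BL (helper41): basic properties of the kernel, by helper757.
-/

set_option autoImplicit false

open MeasureTheory Filter Topology

namespace Pool.Agent.TH41.BL.QQAf

open Pool.Agent.TH41.BL

open Pool.Agent.TH41.LP (WW)

theorem AA_eq (s : ℂ) : AA s = (((Real.cos s.re + Real.sin s.re) * Real.cosh s.im : ℝ) : ℂ) +
    (((Real.cos s.re - Real.sin s.re) * Real.sinh s.im : ℝ) : ℂ) * Complex.I := by
  unfold AA
  rw [Complex.cos_eq s, Complex.sin_eq s]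
  push_cast
  ring

theorem BB_eq (s : ℂ) : BB s = (((Real.cos s.re - Real.sin s.re) * Real.cosh s.im : ℝ) : ℂ) +
    ((-(Real.cos s.re + Real.sin s.re) * Real.sinh s.im : ℝ) : ℂ) * Complex.I := by
  unfold BB
  rw [Complex.cos_eq s, Complex.sin_eq s]
  push_cast
  ring

theorem normSq_AA (s : ℂ) :
    Complex.normSq (AA s) = Real.cosh (2 * s.im) + Real.sin (2 * s.re) := by
  rw [AA_eq, Complex.normSq_add_mul_I, Real.cosh_two_mul, Real.sin_two_mul]
  have h1 := Real.cosh_sq s.im
  have h2 := Real.sin_sq_add_cos_sq s.re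
  rw [h1]
  linear_combination (2 * Real.sinh s.im ^ 2 + 1) * h2 +
    (Real.cos s.re + Real.sin s.re) ^ 2 * h1

theorem normSq_BB (s : ℂ) :
    Complex.normSq (BB s) = Real.cosh (2 * s.im) - Real.sin (2 * s.re) := by
  rw [BB_eq, Complex.normSq_add_mul_I, Real.cosh_two_mul, Real.sin_two_mul]
  have h1 := Real.cosh_sq s.im
  have h2 := Real.sin_sq_add_cos_sq s.re
  rw [h1]
  linear_combination (2 * Real.sinh s.im ^ 2 + 1) * h2 +
    (Real.cos s.re - Real.sin s.re) ^ 2 * h1

theorem AA_deriv (s : ℂ) : HasDerivAt AA (BB s) s := by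
  have := (Complex.hasDerivAt_cos s).add (Complex.hasDerivAt_sin s)
  refine this.congr_deriv ?_
  unfold BB
  ring

theorem BB_deriv (s : ℂ) : HasDerivAt BB (-AA s) s := by
  have := (Complex.hasDerivAt_cos s).sub (Complex.hasDerivAt_sin s)
  refine this.congr_deriv ?_
  unfold AA
  ring

theorem two_sin_lt {x : ℝ} (h : |x| < Real.pi / 8) : |Real.sin (2 * x)| < 1 := by
  rw [abs_lt] at h
  have hpi := Real.pi_pos
  have h1 : Real.cos (2 * x) ≠ 0 := by
    apply ne_of_gt
    apply Real.cos_pos_of_mem_Ioo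
    constructor <;> linarith
  have h2 := Real.sin_sq_add_cos_sq (2 * x)
  have h3 : 0 < Real.cos (2 * x) ^ 2 := by positivity
  rw [← sq_lt_one_iff_abs_lt_one]
  linarith

theorem AA_ne {s : ℂ} (h : |s.re| < Real.pi / 8) : AA s ≠ 0 := by
  rw [← Complex.normSq_pos, normSq_AA]
  have h1 := abs_lt.1 (two_sin_lt h)
  have h2 := Real.one_le_cosh (2 * s.im)
  linarith

theorem BB_ne {s : ℂ} (h : |s.re| < Real.pi / 8) : BB s ≠ 0 := by
  rw [← Complex.normSq_pos, normSq_BB]
  have h1 := abs_lt.1 (two_sin_lt h)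
  have h2 := Real.one_le_cosh (2 * s.im)
  linarith

theorem norm_AA_le (s : ℂ) : ‖AA s‖ ≤ Real.sqrt (2 * Real.cosh (2 * s.im)) := by
  apply Real.le_sqrt_of_sq_le
  rw [← Complex.normSq_eq_norm_sq, normSq_AA]
  have h1 := Real.sin_le_one (2 * s.re)
  have h2 := Real.one_le_cosh (2 * s.im)
  linarith

theorem norm_BB_le (s : ℂ) : ‖BB s‖ ≤ Real.sqrt (2 * Real.cosh (2 * s.im)) := by
  apply Real.le_sqrt_of_sq_le
  rw [← Complex.normSq_eq_norm_sq, normSq_BB]
  have h1 := Real.neg_one_le_sin (2 * s.re)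
  have h2 := Real.one_le_cosh (2 * s.im)
  linarith

theorem norm_AA_I (t : ℝ) : ‖AA (t * Complex.I)‖ = Real.sqrt (Real.cosh (2 * t)) := by
  rw [← Real.sqrt_sq (norm_nonneg _), ← Complex.normSq_eq_norm_sq, normSq_AA]
  congr 1
  simp

theorem norm_BB_I (t : ℝ) : ‖BB (t * Complex.I)‖ = Real.sqrt (Real.cosh (2 * t)) := by
  rw [← Real.sqrt_sq (norm_nonneg _), ← Complex.normSq_eq_norm_sq, normSq_BB]
  congr 1
  simp

theorem exp_half_log {c : ℝ} (hc : 0 < c) (n : ℕ) :
    Real.sqrt c ^ n * Real.exp (n * (-(1 / 2) * Real.log c)) = 1 := by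
  have h1 : Real.sqrt c = Real.exp (1 / 2 * Real.log c) := by
    rw [Real.sqrt_eq_rpow, Real.rpow_def_of_pos hc]
    ring_nf
  rw [h1, ← Real.exp_nat_mul, ← Real.exp_add]
  rw [show (n : ℝ) * (1 / 2 * Real.log c) + n * (-(1 / 2) * Real.log c) = 0 by ring, Real.exp_zero]

theorem qq_deriv (h : S_lam) {n w : ℕ} (hwn : w ≤ n) (hn : 0 < n) {s : ℂ}
    (hs : |s.re| < Real.pi / 8) :
    HasDerivAt (QQ n w) (n * GG ((w : ℝ) / n) s * QQ n w s) s := by
  have hpi := Real.pi_pos
  have hs' := abs_lt.1 hs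
  have hL := h.1 s hs'.1 (by linarith)
  have h1 := (AA_deriv s).pow (n - w)
  have h2 := (BB_deriv s).pow w
  have h3 := (hL.const_mul (n : ℂ)).cexp
  have h4 := (h1.mul h2).mul h3
  refine h4.congr_deriv ?_
  have hA := AA_ne hs
  have hB := BB_ne hs
  have hn0 : (n : ℂ) ≠ 0 := by exact_mod_cast hn.ne'
  have e1 : (((n - w : ℕ) : ℂ)) * AA s ^ (n - w - 1) = (((n - w : ℕ) : ℂ)) * (AA s ^ (n - w) / AA s) := by
    rcases Nat.eq_zero_or_pos (n - w) with h0 | h0
    · rw [h0, Nat.cast_zero, zero_mul, zero_mul]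
    · congr 1
      rw [eq_div_iff hA, ← pow_succ, Nat.sub_add_cancel h0]
  have e2 : ((w : ℂ)) * BB s ^ (w - 1) = (w : ℂ) * (BB s ^ w / BB s) := by
    rcases Nat.eq_zero_or_pos w with h0 | h0
    · rw [h0, Nat.cast_zero, zero_mul, zero_mul]
    · congr 1
      rw [eq_div_iff hB, ← pow_succ, Nat.sub_add_cancel h0]
  have e3 : (((n - w : ℕ) : ℂ)) = n - w := by rw [Nat.cast_sub hwn]
  rw [e1, e2, e3]
  unfold QQ GG
  simp only [Pi.pow_apply, Pi.mul_apply]
  push_cast
  field_simp
  ring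

theorem qq (h2 : S_lz2) (h3 : S_lz3) (h : S_lam) : S_qq := by
  have hpi := Real.pi_pos
  intro n w hwn
  refine ⟨?_, ?_, ?_, ?_, ?_, ?_⟩
  · intro s hs1 hs2
    have hL := (h.1 s hs1 hs2).differentiableAt
    unfold QQ
    exact (((AA_deriv s).differentiableAt.pow (n - w)).mul
      ((BB_deriv s).differentiableAt.pow w)).mul (hL.const_mul (n : ℂ)).cexp
  · intro t
    unfold QQ
    rw [norm_mul, norm_mul, norm_pow, norm_pow, norm_AA_I, norm_BB_I, ← pow_add,
      Nat.sub_add_cancel hwn, Complex.norm_exp]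
    have e : ((n : ℂ) * Lam (t * Complex.I)).re = n * (-(1 / 2) * Real.log (Real.cosh (2 * t))) := by
      rw [← h.2.2.2.2 t]
      simp
    rw [e]
    exact exp_half_log (Real.cosh_pos _) n
  · unfold QQ AA BB
    rw [h.2.1]
    simp
  · intro s hn hs
    exact qq_deriv h hwn hn hs
  · intro σ hσ
    have hσ' := abs_lt.1 hσ
    have hcs : 0 < Real.cos σ - |Real.sin σ| := by
      have h1 : |Real.sin (2 * σ)| < 1 := two_sin_lt hσ
      have hc : 0 < Real.cos σ := by
        apply Real.cos_pos_of_mem_Ioo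
        constructor <;> linarith
      have h4 : |Real.sin σ| < Real.cos σ := by
        apply abs_lt_of_sq_lt_sq _ hc.le
        have h5 := Real.cos_two_mul σ
        have h6 : 0 < Real.cos (2 * σ) := by
          apply Real.cos_pos_of_mem_Ioo
          constructor <;> linarith
        have h7 := Real.sin_sq_add_cos_sq σ
        nlinarith
      linarith
    have hsin := abs_lt.1 (show |Real.sin σ| < Real.cos σ by linarith)
    have eA : AA σ = ((Real.cos σ + Real.sin σ : ℝ) : ℂ) := by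
      unfold AA
      push_cast
      rfl
    have eB : BB σ = ((Real.cos σ - Real.sin σ : ℝ) : ℂ) := by
      unfold BB
      push_cast
      rfl
    have hLam : Lam σ = ((Lam σ).re : ℂ) := by
      have h5 := h.2.2.1 σ
      rw [Complex.conj_ofReal] at h5
      exact (Complex.conj_eq_iff_re.1 h5.symm).symm
    have eE : Complex.exp (n * Lam σ) = ((Real.exp (n * (Lam σ).re) : ℝ) : ℂ) := by
      rw [hLam]
      push_cast
      simp
    have e : QQ n w σ = (((Real.cos σ + Real.sin σ) ^ (n - w) * (Real.cos σ - Real.sin σ) ^ w *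
        Real.exp (n * (Lam σ).re) : ℝ) : ℂ) := by
      unfold QQ
      rw [eA, eB, eE]
      push_cast
      ring
    rw [e]
    refine ⟨Complex.ofReal_im _, ?_⟩
    rw [Complex.ofReal_re]
    have h8 : 0 < Real.cos σ + Real.sin σ := by linarith
    have h9 : 0 < Real.cos σ - Real.sin σ := by linarith
    positivity
  · obtain ⟨C, hC0, hC⟩ := h3
    refine ⟨Real.sqrt 2 ^ n * Real.exp (n * C), fun s hs1 hs2 => ?_⟩
    have hpi4 : Real.pi < 4 := Real.pi_lt_four
    have hc : 0 < Real.cosh (2 * s.im) := Real.cosh_pos _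
    -- the real part of the primitive
    have hconv : Convex ℝ {z : ℂ | -(Real.pi / 10) ≤ z.re ∧ z.re ≤ Real.pi / 4} := by
      have := ((convex_Icc (-(Real.pi / 10)) (Real.pi / 4)).linear_preimage Complex.reLm)
      exact this
    have hre : |(Lam s).re - (Lam (s.im * Complex.I)).re| ≤ C := by
      have hb := hconv.norm_image_sub_le_of_norm_hasDerivWithin_le (f := Lam) (f' := Lz) (C := C)
        (x := s.im * Complex.I) (y := s)
        (fun z hz => (h.1 z (by linarith [hz.1]) (by linarith [hz.2])).hasDerivWithinAt)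
        (fun z hz => hC z hz.1 (by linarith [hz.2]))
        (by simp; constructor <;> linarith) ⟨hs1, hs2⟩
      have h5 : ‖s - s.im * Complex.I‖ ≤ 1 := by
        have e : s - s.im * Complex.I = ((s.re : ℝ) : ℂ) := by
          apply Complex.ext <;> simp
        rw [e, Complex.norm_real, Real.norm_eq_abs, abs_le]
        constructor <;> linarith
      have h6 : ‖Lam s - Lam (s.im * Complex.I)‖ ≤ C := hb.trans (by nlinarith)
      have h7 := (Complex.abs_re_le_norm (Lam s - Lam (s.im * Complex.I))).trans h6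
      rwa [Complex.sub_re] at h7
    have hre2 : (Lam s).re ≤ -(1 / 2) * Real.log (Real.cosh (2 * s.im)) + C := by
      rw [← h.2.2.2.2 s.im]
      linarith [(abs_le.1 hre).2]
    unfold QQ
    rw [norm_mul, norm_mul, norm_pow, norm_pow, Complex.norm_exp]
    have e : ((n : ℂ) * Lam s).re = n * (Lam s).re := by simp
    rw [e]
    calc ‖AA s‖ ^ (n - w) * ‖BB s‖ ^ w * Real.exp (n * (Lam s).re)
        ≤ Real.sqrt (2 * Real.cosh (2 * s.im)) ^ (n - w) *
          Real.sqrt (2 * Real.cosh (2 * s.im)) ^ w *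
          Real.exp (n * (-(1 / 2) * Real.log (Real.cosh (2 * s.im)) + C)) := by
          gcongr
          · exact norm_AA_le s
          · exact norm_BB_le s
      _ = Real.sqrt 2 ^ n * Real.exp (n * C) * (Real.sqrt (Real.cosh (2 * s.im)) ^ n *
          Real.exp (n * (-(1 / 2) * Real.log (Real.cosh (2 * s.im))))) := by
          rw [← pow_add, Nat.sub_add_cancel hwn, Real.sqrt_mul (by norm_num), mul_pow, mul_add,
            Real.exp_add]
          ring
      _ = Real.sqrt 2 ^ n * Real.exp (n * C) := by rw [exp_half_log hc, mul_one]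

end Pool.Agent.TH41.BL.QQAf
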