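import Mathlib
import Pool.Agent.TH41.BL.Stm2

set_option autoImplicit false

open MeasureTheory Filter Topology

namespace Pool.Agent.TH41.BL.RIMf

open Pool.Agent.TH41.BL

theorem kf_le (n : ℕ) (ε η c x : ℝ) (hε : 0 < ε) (hη : |η| ≤ 1) (hc : 0 < c) :
    ‖Kf n ε η ((c : ℂ) + (x : ℂ) * Complex.I)‖ ≤ Real.exp (n * (ε * c ^ 2 + c)) / c := by
  unfold Kf
  rw [norm_div, Complex.norm_exp]
  have hre : ((n : ℂ) * (ε : ℂ) * ((c : ℂ) + (x : ℂ) * Complex.I) ^ 2 -
      (n : ℂ) * (η : ℂ) * ((c : ℂ) + (x : ℂ) * Complex.I)).re =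
      n * (ε * (c ^ 2 - x ^ 2) - η * c) := by
    have e1 : ((c : ℂ) + (x : ℂ) * Complex.I) ^ 2 =
        ((c ^ 2 - x ^ 2 : ℝ) : ℂ) + ((2 * c * x : ℝ) : ℂ) * Complex.I := by
      push_cast
      linear_combination (x : ℂ) ^ 2 * Complex.I_sq
    rw [e1]
    have e2 : ((n : ℂ) * (ε : ℂ) * (((c ^ 2 - x ^ 2 : ℝ) : ℂ) + ((2 * c * x : ℝ) : ℂ) * Complex.I) -
      (n : ℂ) * (η : ℂ) * ((c : ℂ) + (x : ℂ) * Complex.I)) =
      ((n * (ε * (c ^ 2 - x ^ 2) - η * c) : ℝ) : ℂ) +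
      ((n * ε * (2 * c * x) - n * η * x : ℝ) : ℂ) * Complex.I := by
      push_cast
      ring
    rw [e2, Complex.add_re, Complex.ofReal_re, Complex.re_ofReal_mul, Complex.I_re, mul_zero,
      add_zero]
  rw [hre]
  have h1 : c ≤ ‖(c : ℂ) + (x : ℂ) * Complex.I‖ := by
    have h2 := Complex.abs_re_le_norm ((c : ℂ) + (x : ℂ) * Complex.I)
    rw [Complex.add_re, Complex.ofReal_re, Complex.re_ofReal_mul, Complex.I_re, mul_zero,
      add_zero, abs_of_pos hc] at h2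
    exact h2
  have h2 : Real.exp (n * (ε * (c ^ 2 - x ^ 2) - η * c)) ≤ Real.exp (n * (ε * c ^ 2 + c)) := by
    apply Real.exp_le_exp.2
    apply mul_le_mul_of_nonneg_left _ (Nat.cast_nonneg n)
    rw [abs_le] at hη
    nlinarith [mul_nonneg hε.le (sq_nonneg x), hη.1]
  exact div_le_div₀ (Real.exp_pos _).le h2 hc h1

theorem rightM (hb : S_qbm) : S_rightM := by
  intro F T hT ha ε ε₂ hε hε₂
  obtain ⟨C, κ, hC, hκ, -, hQ⟩ := hb F T hT ha
  have hD : 0 < C + ε + 1 := by positivity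
  refine ⟨min κ (min 1 (ε₂ / (2 * (C + ε + 1)))), by positivity, ?_⟩
  intro c hc hc0
  have hcκ : c ≤ κ := hc0.trans (min_le_left _ _)
  have hc1 : c ≤ 1 := hc0.trans ((min_le_right _ _).trans (min_le_left _ _))
  have hc2 : c ≤ ε₂ / (2 * (C + ε + 1)) := hc0.trans ((min_le_right _ _).trans (min_le_right _ _))
  have hc3 : C * c + ε * c ^ 2 + c ≤ ε₂ / 2 := by
    rw [le_div_iff₀ (by positivity)] at hc2
    nlinarith [mul_nonneg hε.le (mul_nonneg hc.le (sub_nonneg.2 hc1))]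
  obtain ⟨N, hN⟩ := exists_nat_ge (2 * T / (Real.pi * c * ε₂))
  refine ⟨N + 1, ?_⟩
  intro n w hn hw τ η hτ hη
  have hn0 : 0 < n := by omega
  have hnN : (2 * T / (Real.pi * c * ε₂)) ≤ (n : ℝ) := by
    refine hN.trans ?_
    exact_mod_cast (by omega : N ≤ n)
  have hq := hQ n w hn0 hw
  unfold vM
  rw [norm_div]
  have hpi := Real.pi_pos
  have h2pi : ‖(2 * (Real.pi : ℂ))‖ = 2 * Real.pi := by
    rw [norm_mul, Complex.norm_real, Real.norm_of_nonneg hpi.le]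
    norm_num
  rw [h2pi]
  have hbd : ∀ t ∈ Set.uIoc (-T) T, ‖QM F n w ((c : ℂ) + (t : ℂ) * Complex.I) *
      Kf n ε η ((c : ℂ) + ((t : ℂ) - (τ : ℂ)) * Complex.I)‖ ≤ Real.exp (n * (ε₂ / 2)) / c := by
    intro t ht
    rw [Set.uIoc_of_le (by linarith)] at ht
    have ht2 : |t| ≤ T := abs_le.2 ⟨ht.1.le, ht.2⟩
    rw [norm_mul]
    have h1 := hq.m2 c t (by rw [abs_of_pos hc]; exact hcκ) ht2
    rw [abs_of_pos hc] at h1
    have h2 := kf_le n ε η c (t - τ) hε hη hc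
    rw [Complex.ofReal_sub] at h2
    calc ‖QM F n w ((c : ℂ) + (t : ℂ) * Complex.I)‖ *
        ‖Kf n ε η ((c : ℂ) + ((t : ℂ) - (τ : ℂ)) * Complex.I)‖
        ≤ Real.exp (C * n * c) * (Real.exp (n * (ε * c ^ 2 + c)) / c) :=
          mul_le_mul h1 h2 (norm_nonneg _) (Real.exp_pos _).le
      _ = Real.exp (n * (C * c + ε * c ^ 2 + c)) / c := by
          rw [mul_div_assoc', ← Real.exp_add]
          congr 2
          ring
      _ ≤ Real.exp (n * (ε₂ / 2)) / c := by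
          apply div_le_div_of_nonneg_right _ hc.le
          apply Real.exp_le_exp.2
          exact mul_le_mul_of_nonneg_left hc3 (Nat.cast_nonneg n)
  have hint := intervalIntegral.norm_integral_le_of_norm_le_const hbd
  have habs : |T - -T| = 2 * T := by
    rw [abs_of_pos (by linarith)]
    ring
  rw [habs] at hint
  rw [div_le_iff₀ (by positivity)]
  refine hint.trans ?_
  have hexp : Real.exp (ε₂ * n) = Real.exp (n * (ε₂ / 2)) * Real.exp (n * (ε₂ / 2)) := by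
    rw [← Real.exp_add]
    congr 1
    ring
  rw [hexp]
  have h3 : T / (Real.pi * c) ≤ Real.exp (n * (ε₂ / 2)) := by
    have h4 : T / (Real.pi * c) ≤ n * (ε₂ / 2) := by
      rw [div_le_iff₀ (by positivity)] at hnN ⊢
      nlinarith
    have h5 := Real.add_one_le_exp ((n : ℝ) * (ε₂ / 2))
    linarith
  have h6 : Real.exp (n * (ε₂ / 2)) / c * (2 * T) =
      Real.exp (n * (ε₂ / 2)) * (T / (Real.pi * c)) * (2 * Real.pi) := by
    field_simp
  rw [h6]
  apply mul_le_mul_of_nonneg_right _ (by positivity)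
  exact mul_le_mul_of_nonneg_left h3 (Real.exp_pos _).le

end Pool.Agent.TH41.BL.RIMf
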