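import Mathlib
import Pool.Agent.TH41.BL.Stm2

/-!
Project BL2, job 3235: the arctangent factor.
-/

set_option autoImplicit false

open MeasureTheory Filter Topology

namespace Pool.Agent.TH41.BL.RRAf

open Pool.Agent.TH41.BL

/-- no zeros of `b cos u + κ i sin u` -/
theorem no_zero {a b κ : ℝ} {u : ℂ} (ha0 : 0 ≤ a) (hb : 0 < b) (hab : b ^ 2 = 1 - a ^ 2)
    (hu : |u.re| < Real.pi / 2) (hu2 : u.re ≠ 0 ∨ a * Real.cosh u.im < 1) (hκ : |κ| ≤ 1) :
    (b : ℂ) * Complex.cos u + κ * Complex.I * Complex.sin u ≠ 0 := by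
  intro h
  set p := u.re with hp
  set q := u.im with hq
  have hupq : u = (p : ℂ) + q * Complex.I := (Complex.re_add_im u).symm
  rw [hupq, Complex.cos_add_mul_I, Complex.sin_add_mul_I, ← Complex.ofReal_cos,
    ← Complex.ofReal_sin, ← Complex.ofReal_cosh, ← Complex.ofReal_sinh] at h
  have hre := congrArg Complex.re h
  have him := congrArg Complex.im h
  simp only [Complex.add_re, Complex.mul_re, Complex.sub_re, Complex.ofReal_re, Complex.ofReal_im,
    Complex.I_re, Complex.I_im, Complex.add_im, Complex.mul_im, Complex.sub_im, mul_zero, zero_mul,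
    sub_zero, add_zero, zero_add, mul_one, zero_sub, Complex.zero_re, Complex.zero_im] at hre him
  have hcp : 0 < Real.cos p := Real.cos_pos_of_mem_Ioo ⟨by linarith [(abs_lt.1 hu).1],
    (abs_lt.1 hu).2⟩
  have h1 : b * Real.cosh q = κ * Real.sinh q := by
    have h2 : Real.cos p * (b * Real.cosh q - κ * Real.sinh q) = 0 := by linarith
    rcases mul_eq_zero.1 h2 with h3 | h3
    · exact absurd h3 hcp.ne'
    · linarith
  have h2 : Real.sin p * (κ * Real.cosh q - b * Real.sinh q) = 0 := by linarith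
  have hcs := Real.cosh_sq q
  have hcq : 1 ≤ Real.cosh q := Real.one_le_cosh q
  rcases mul_eq_zero.1 h2 with h3 | h3
  · have hp0 : p = 0 := by
      have h4 := abs_lt.1 hu
      exact (Real.sin_eq_zero_iff_of_lt_of_lt (by linarith [Real.pi_pos, h4.1])
        (by linarith [Real.pi_pos, h4.2])).1 h3
    rcases hu2 with h4 | h4
    · exact h4 hp0
    · have hκ2 : κ ^ 2 ≤ 1 := by
        rw [← sq_abs]
        exact pow_le_one₀ (abs_nonneg κ) hκ
      have h5 : b ^ 2 * Real.cosh q ^ 2 = κ ^ 2 * Real.sinh q ^ 2 := by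
        rw [← mul_pow, h1, mul_pow]
      have h6 : κ ^ 2 * Real.sinh q ^ 2 ≤ Real.sinh q ^ 2 := by nlinarith [sq_nonneg (Real.sinh q)]
      have h7 : 1 ≤ a ^ 2 * Real.cosh q ^ 2 := by nlinarith
      have h8 : (a * Real.cosh q) ^ 2 < 1 := by
        have h9 : 0 ≤ a * Real.cosh q := by positivity
        exact pow_lt_one₀ h9 h4 (by norm_num)
      rw [mul_pow] at h8
      linarith
  · have h4 : b * (Real.cosh q ^ 2 - Real.sinh q ^ 2) = 0 := by
      have h5 : Real.cosh q * (b * Real.cosh q) = Real.cosh q * (κ * Real.sinh q) := by rw [h1]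
      have h6 : Real.sinh q * (κ * Real.cosh q - b * Real.sinh q) = 0 := by rw [h3, mul_zero]
      linarith
    have h5 : Real.cosh q ^ 2 - Real.sinh q ^ 2 = 1 := by linarith
    rw [h5, mul_one] at h4
    exact hb.ne' h4

theorem cos_ne {u : ℂ} (hu : |u.re| < Real.pi / 2) : Complex.cos u ≠ 0 := by
  intro h
  set p := u.re with hp
  set q := u.im with hq
  have hupq : u = (p : ℂ) + q * Complex.I := (Complex.re_add_im u).symm
  rw [hupq, Complex.cos_add_mul_I, ← Complex.ofReal_cos,
    ← Complex.ofReal_sin, ← Complex.ofReal_cosh, ← Complex.ofReal_sinh] at h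
  have hre := congrArg Complex.re h
  simp only [Complex.mul_re, Complex.sub_re, Complex.ofReal_re, Complex.ofReal_im,
    Complex.I_re, Complex.I_im, Complex.mul_im, mul_zero, zero_mul,
    sub_zero, add_zero, mul_one, Complex.zero_re] at hre
  have hcp : 0 < Real.cos p := Real.cos_pos_of_mem_Ioo ⟨by linarith [(abs_lt.1 hu).1],
    (abs_lt.1 hu).2⟩
  have h4 := mul_pos hcp (Real.cosh_pos q)
  linarith

theorem sqrt_facts {a : ℝ} (ha0 : 0 ≤ a) (ha : a < 1) :
    0 < √(1 - a ^ 2) ∧ √(1 - a ^ 2) ^ 2 = 1 - a ^ 2 := by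
  have h : 0 < 1 - a ^ 2 := by nlinarith
  exact ⟨Real.sqrt_pos.2 h, Real.sq_sqrt h.le⟩

theorem rr_deriv {a : ℝ} {s : ℂ} (ha0 : 0 ≤ a) (ha : a < 1) (h1 : -(Real.pi / 4) < s.re)
    (h2 : s.re < Real.pi / 4) (h3 : s.re ≠ 0 ∨ a * Real.cosh (2 * s.im) < 1) :
    HasDerivAt (rr a) (rd a s) s := by
  obtain ⟨hb, hb2⟩ := sqrt_facts ha0 ha
  set b := √(1 - a ^ 2) with hbdef
  have hure : (2 * s).re = 2 * s.re := by simp
  have huim : (2 * s).im = 2 * s.im := by simp
  have hu : |(2 * s).re| < Real.pi / 2 := by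
    rw [hure, abs_lt]
    constructor <;> linarith
  have hu2 : (2 * s).re ≠ 0 ∨ a * Real.cosh (2 * s).im < 1 := by
    rw [hure, huim]
    rcases h3 with h | h
    · left
      simpa using h
    · exact Or.inr h
  have hbC : (b : ℂ) ≠ 0 := by exact_mod_cast hb.ne'
  have hcos : Complex.cos (2 * s) ≠ 0 := cos_ne hu
  have hN : (b : ℂ) * Complex.cos (2 * s) + Complex.I * Complex.sin (2 * s) ≠ 0 := by
    have := no_zero (κ := 1) ha0 hb hb2 hu hu2 (by norm_num)
    simpa using this
  have hD : (b : ℂ) * Complex.cos (2 * s) - Complex.I * Complex.sin (2 * s) ≠ 0 := by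
    have := no_zero (κ := -1) ha0 hb hb2 hu hu2 (by norm_num)
    intro h
    apply this
    rw [← h]
    push_cast
    ring
  have htan : Complex.tan (2 * s) = Complex.sin (2 * s) / Complex.cos (2 * s) := rfl
  have hden : 1 - Complex.I * (Complex.tan (2 * s) / (b : ℂ)) ≠ 0 := by
    intro h
    apply hD
    rw [htan] at h
    field_simp at h
    linear_combination h
  have hnum : 1 + Complex.I * (Complex.tan (2 * s) / (b : ℂ)) ≠ 0 := by
    intro h
    apply hN
    rw [htan] at h
    field_simp at h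
    linear_combination h
  have hslit : (1 + Complex.I * (Complex.tan (2 * s) / (b : ℂ))) /
      (1 - Complex.I * (Complex.tan (2 * s) / (b : ℂ))) ∈ Complex.slitPlane := by
    by_contra hc
    set w := (1 + Complex.I * (Complex.tan (2 * s) / (b : ℂ))) /
      (1 - Complex.I * (Complex.tan (2 * s) / (b : ℂ))) with hw
    rw [Complex.mem_slitPlane_iff, not_or, not_lt, not_not] at hc
    obtain ⟨hc1, hc2⟩ := hc
    set r : ℝ := w.re with hr
    have hwr : w = (r : ℂ) := by
      apply Complex.ext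
      · simp [hr]
      · simp [hc2]
    have hr1 : (1 - r : ℝ) ≠ 0 := by
      have : 0 < 1 - r := by linarith
      exact this.ne'
    have hr1C : ((1 : ℂ) - r) ≠ 0 := by exact_mod_cast hr1
    have hκ : |(1 + r) / (1 - r)| ≤ 1 := by
      have h5 : 0 < 1 - r := by linarith
      rw [abs_div, abs_of_pos h5, div_le_one h5, abs_le]
      constructor <;> linarith
    have h6 := no_zero (κ := (1 + r) / (1 - r)) ha0 hb hb2 hu hu2 hκ
    apply h6
    have h7 : (1 + Complex.I * (Complex.tan (2 * s) / (b : ℂ))) =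
        r * (1 - Complex.I * (Complex.tan (2 * s) / (b : ℂ))) := by
      rw [← hwr, hw, div_mul_cancel₀ _ hden]
    rw [htan] at h7
    field_simp at h7
    push_cast
    field_simp
    linear_combination h7
  have h2s : HasDerivAt (fun z : ℂ => 2 * z) 2 s := by
    simpa using (hasDerivAt_id s).const_mul 2
  have ht : HasDerivAt (fun z : ℂ => Complex.tan (2 * z)) (1 / Complex.cos (2 * s) ^ 2 * 2) s :=
    (Complex.hasDerivAt_tan hcos).comp s h2s
  have hX := ht.div_const (b : ℂ)
  have e1 := (hX.const_mul Complex.I).const_add 1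
  have e2 := (hX.const_mul Complex.I).const_sub 1
  have e3 := (e1.div e2 hden).clog hslit
  have e4 := e3.const_mul (-(Complex.I / 2))
  have e5 : rd a s = -(Complex.I / 2) *
      (((Complex.I * (1 / Complex.cos (2 * s) ^ 2 * 2 / (b : ℂ))) *
        (1 - Complex.I * (Complex.tan (2 * s) / (b : ℂ))) -
        (1 + Complex.I * (Complex.tan (2 * s) / (b : ℂ))) *
        (-(Complex.I * (1 / Complex.cos (2 * s) ^ 2 * 2 / (b : ℂ))))) /
        (1 - Complex.I * (Complex.tan (2 * s) / (b : ℂ))) ^ 2 /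
        ((1 + Complex.I * (Complex.tan (2 * s) / (b : ℂ))) /
        (1 - Complex.I * (Complex.tan (2 * s) / (b : ℂ))))) := by
    have hb2C : (b : ℂ) ^ 2 = 1 - (a : ℂ) ^ 2 := by exact_mod_cast hb2
    have hsc := Complex.sin_sq_add_cos_sq (2 * s)
    have hND : (1 - (a : ℂ) ^ 2 * Complex.cos (2 * s) ^ 2) =
        ((b : ℂ) * Complex.cos (2 * s) + Complex.I * Complex.sin (2 * s)) *
        ((b : ℂ) * Complex.cos (2 * s) - Complex.I * Complex.sin (2 * s)) := by
      linear_combination (-Complex.cos (2 * s) ^ 2) * hb2C - hsc +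
        Complex.sin (2 * s) ^ 2 * Complex.I_sq
    have f1 : 1 + Complex.I * (Complex.tan (2 * s) / (b : ℂ)) =
        ((b : ℂ) * Complex.cos (2 * s) + Complex.I * Complex.sin (2 * s)) /
        ((b : ℂ) * Complex.cos (2 * s)) := by
      rw [htan]
      field_simp
    have f2 : 1 - Complex.I * (Complex.tan (2 * s) / (b : ℂ)) =
        ((b : ℂ) * Complex.cos (2 * s) - Complex.I * Complex.sin (2 * s)) /
        ((b : ℂ) * Complex.cos (2 * s)) := by
      rw [htan]
      field_simp
    unfold rd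
    rw [← hbdef, hND, f1, f2]
    field_simp
    linear_combination (2 * (b : ℂ) * Complex.cos (2 * s)) * Complex.I_sq
  rw [e5]
  exact e4

theorem re_half (z : ℂ) : (-(Complex.I / 2) * z).re = z.im / 2 := by
  simp
  ring

theorem im_half (z : ℂ) : (-(Complex.I / 2) * z).im = -z.re / 2 := by
  simp
  ring

theorem rrS : S_rr := by
  refine ⟨fun a s ha0 ha h1 h2 h3 => rr_deriv ha0 ha h1 h2 h3, ?_, ?_, ?_, ?_⟩
  · intro a s
    unfold rr
    rw [re_half, Complex.log_im, abs_div, abs_two]
    have := Complex.abs_arg_le_pi ((1 + Complex.I * (Complex.tan (2 * s) / (√(1 - a ^ 2) : ℝ))) /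
      (1 - Complex.I * (Complex.tan (2 * s) / (√(1 - a ^ 2) : ℝ))))
    linarith
  · intro a t ha0 hat
    have hc1 : 1 ≤ Real.cosh (2 * t) := Real.one_le_cosh _
    have ha : a < 1 := by nlinarith
    obtain ⟨hb, hb2⟩ := sqrt_facts ha0 ha
    unfold rr
    set b := √(1 - a ^ 2) with hbdef
    rw [re_half, Complex.log_im]
    have htan : Complex.tan (2 * (t * Complex.I)) = (Real.tanh (2 * t) : ℂ) * Complex.I := by
      rw [← mul_assoc, Complex.tan_mul_I]
      push_cast
      rfl
    have hy : |Real.tanh (2 * t) / b| < 1 := by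
      have hcp := Real.cosh_pos (2 * t)
      rw [abs_div, abs_of_pos hb, div_lt_one hb, Real.tanh_eq_sinh_div_cosh, abs_div,
        abs_of_pos hcp, div_lt_iff₀ hcp]
      apply lt_of_pow_lt_pow_left₀ 2 (by positivity)
      rw [sq_abs, mul_pow, hb2]
      have h5 := Real.cosh_sq (2 * t)
      have h6 : (a * Real.cosh (2 * t)) ^ 2 < 1 := by
        have h9 : 0 ≤ a * Real.cosh (2 * t) := by positivity
        exact pow_lt_one₀ h9 hat (by norm_num)
      nlinarith
    set y := Real.tanh (2 * t) / b with hydef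
    obtain ⟨hy1, hy2⟩ := abs_lt.1 hy
    have hX : Complex.I * (Complex.tan (2 * (t * Complex.I)) / (b : ℂ)) = ((-y : ℝ) : ℂ) := by
      rw [htan, hydef, Complex.ofReal_neg, Complex.ofReal_div]
      linear_combination ((Real.tanh (2 * t) : ℂ) / b) * Complex.I_sq
    rw [hX]
    have hw : (1 + ((-y : ℝ) : ℂ)) / (1 - ((-y : ℝ) : ℂ)) = (((1 - y) / (1 + y) : ℝ) : ℂ) := by
      push_cast
      ring
    rw [hw, Complex.arg_ofReal_of_nonneg]
    · simp
    · have h7 : 0 < 1 + y := by linarith
      have h8 : 0 < 1 - y := by linarith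
      positivity
  · intro a σ ha0 ha hσ
    obtain ⟨hb, hb2⟩ := sqrt_facts ha0 ha
    unfold rr
    set b := √(1 - a ^ 2) with hbdef
    rw [im_half, Complex.log_re]
    have htan : Complex.tan (2 * (σ : ℂ)) = (Real.tan (2 * σ) : ℂ) := by
      push_cast
      rfl
    set x := Real.tan (2 * σ) / b with hx
    have hX : Complex.tan (2 * (σ : ℂ)) / (b : ℂ) = (x : ℂ) := by
      rw [htan, hx]
      push_cast
      rfl
    rw [hX, norm_div]
    have hconj : (1 - Complex.I * (x : ℂ)) = (starRingEnd ℂ) (1 + Complex.I * (x : ℂ)) := by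
      simp [sub_eq_add_neg]
    rw [hconj, Complex.norm_conj, div_self, Real.log_one]
    · simp
    · intro h
      rw [norm_eq_zero] at h
      have := congrArg Complex.re h
      simp at this
  · intro a
    unfold rr
    simp

end Pool.Agent.TH41.BL.RRAf
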