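import Mathlib
import Pool.Agent.TH41.BL.Stm2
import Pool.Agent.TH41.LP.SHIFT

set_option autoImplicit false

open MeasureTheory Filter Topology

namespace Pool.Agent.TH41.BL.SEGf

open Pool.Agent.TH41.BL

/-- the integrand -/
noncomputable def gS (F : Fm) (n w : ℕ) (ε η τ : ℝ) (s : ℂ) : ℂ :=
  QM F n w s * Kf n ε η (s - τ * Complex.I)

theorem gS_eq (F : Fm) (n w : ℕ) (ε η τ x t : ℝ) :
    gS F n w ε η τ ((x : ℂ) + t * Complex.I) =
      QM F n w (x + t * Complex.I) * Kf n ε η (x + (t - τ) * Complex.I) := by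
  unfold gS
  have h : (x : ℂ) + t * Complex.I - τ * Complex.I = x + (t - τ) * Complex.I := by ring
  rw [h]

theorem re_sub_I (s : ℂ) (τ : ℝ) : (s - τ * Complex.I).re = s.re := by simp

theorem im_sub_I (s : ℂ) (τ : ℝ) : (s - τ * Complex.I).im = s.im - τ := by simp

theorem diff_P (hr : S_rr) (F : Fm) (s : ℂ) (h1 : 0 < s.re) (h2 : s.re < Real.pi / 4) :
    DifferentiableAt ℂ F.P s := by
  have hπ := Real.pi_pos
  have e : F.P = fun s : ℂ => ∑ i, (F.c i : ℂ) * rr (F.a i) s := rfl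
  rw [e]
  apply DifferentiableAt.fun_sum
  intro i _
  exact ((hr.1 (F.a i) s (F.a_nn i) (F.a_lt i) (by linarith) h2
    (Or.inl h1.ne')).differentiableAt).const_mul _

theorem diff_g (hq : S_qq) (hr : S_rr) (F : Fm) (n w : ℕ) (ε η τ : ℝ) (hw : w ≤ n)
    (s : ℂ) (h1 : 0 < s.re) (h2 : s.re < Real.pi / 4) :
    DifferentiableAt ℂ (gS F n w ε η τ) s := by
  have hπ := Real.pi_pos
  have hP := diff_P hr F s h1 h2
  have hQ := (hq n w hw).1 s (by linarith) (by linarith)
  have hz : s - τ * Complex.I ≠ 0 := by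
    intro h
    have h3 := congrArg Complex.re h
    rw [re_sub_I] at h3
    simp at h3
    linarith
  have hK : DifferentiableAt ℂ (fun s : ℂ => Kf n ε η (s - τ * Complex.I)) s := by
    unfold Kf
    exact DifferentiableAt.div (by fun_prop) (by fun_prop) hz
  have hM : DifferentiableAt ℂ (QM F n w) s := by
    have e : QM F n w = fun s : ℂ => QQ n w s * Complex.exp (n * F.P s) := rfl
    rw [e]
    exact hQ.mul ((hP.const_mul _).cexp)
  have e : gS F n w ε η τ = fun s : ℂ => QM F n w s * Kf n ε η (s - τ * Complex.I) := rfl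
  rw [e]
  exact hM.mul hK

theorem norm_P (hr : S_rr) (F : Fm) (n : ℕ) (s : ℂ) :
    ‖Complex.exp (n * F.P s)‖ ≤ Real.exp (n * (∑ i, F.c i * (Real.pi / 2))) := by
  rw [Complex.norm_exp]
  apply Real.exp_le_exp.mpr
  have e1 : ((n : ℂ) * F.P s).re = n * (F.P s).re := by
    have : (n : ℂ) = ((n : ℝ) : ℂ) := by push_cast; rfl
    rw [this, Complex.re_ofReal_mul]
  rw [e1]
  apply mul_le_mul_of_nonneg_left _ (Nat.cast_nonneg n)
  unfold Fm.P
  rw [Complex.re_sum]
  apply Finset.sum_le_sum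
  intro i _
  rw [Complex.re_ofReal_mul]
  exact mul_le_mul_of_nonneg_left ((le_abs_self _).trans (hr.2.1 (F.a i) s)) (F.c_nn i)

theorem norm_K {n : ℕ} {ε η τ c : ℝ} (hε : 0 < ε) (hc : 0 < c) (s : ℂ) (h1 : c ≤ s.re)
    (h2 : s.re ≤ 1) :
    ‖Kf n ε η (s - τ * Complex.I)‖ ≤
      Real.exp (n * ε + n * |η| + n * ε * τ ^ 2) / c * Real.exp (-(n * ε / 2) * s.im ^ 2) := by
  have hs0 : 0 < s.re := hc.trans_le h1
  unfold Kf
  rw [norm_div, Complex.norm_exp]
  have e1 : ((n : ℂ) * ε * (s - τ * Complex.I) ^ 2 - n * η * (s - τ * Complex.I)).re =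
      n * ε * (s.re ^ 2 - (s.im - τ) ^ 2) - n * η * s.re := by
    have a1 : (n : ℂ) * ε * (s - τ * Complex.I) ^ 2 =
        (((n : ℝ) * ε : ℝ) : ℂ) * (s - τ * Complex.I) ^ 2 := by push_cast; ring
    have a2 : (n : ℂ) * η * (s - τ * Complex.I) =
        (((n : ℝ) * η : ℝ) : ℂ) * (s - τ * Complex.I) := by push_cast; ring
    rw [a1, a2, Complex.sub_re, Complex.re_ofReal_mul, Complex.re_ofReal_mul, sq, Complex.mul_re,
      re_sub_I, im_sub_I]
    ring
  rw [e1]
  have hn : c ≤ ‖s - τ * Complex.I‖ := by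
    have := Complex.re_le_norm (s - τ * Complex.I)
    rw [re_sub_I] at this
    linarith
  rw [div_mul_eq_mul_div, ← Real.exp_add]
  apply div_le_div₀ (Real.exp_pos _).le _ hc hn
  apply Real.exp_le_exp.mpr
  have hn0 : (0 : ℝ) ≤ n := Nat.cast_nonneg n
  have b1 : s.re ^ 2 ≤ 1 := by nlinarith
  have b2 : -((n : ℝ) * η * s.re) ≤ n * |η| := by
    have : -(η * s.re) ≤ |η| := by
      have h3 : -η ≤ |η| := neg_le_abs η
      have h4 : 0 ≤ |η| := abs_nonneg η
      nlinarith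
    nlinarith
  have b3 : s.im ^ 2 / 2 - τ ^ 2 ≤ (s.im - τ) ^ 2 := by nlinarith [sq_nonneg (s.im - 2 * τ)]
  have b4 : 0 ≤ (n : ℝ) * ε := by positivity
  nlinarith

theorem seg (hq : S_qq) (h1 : S_lam) (hr : S_rr) : S_seg := by
  intro F T n w ε η c τ hn hw hε hT hc hc16
  have hπ := Real.pi_pos
  have hπ4 : Real.pi < 4 := Real.pi_lt_four
  obtain ⟨_, _, _, _, _, M, hM⟩ := hq n w hw
  have hM0 : 0 ≤ M := by
    refine le_trans (norm_nonneg _) (hM 0 ?_ ?_)
    · simp only [Complex.zero_re]; linarith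
    · simp only [Complex.zero_re]; linarith
  have hnε : 0 < (n : ℝ) * ε / 2 := by
    have : (0 : ℝ) < n := by exact_mod_cast hn
    positivity
  obtain ⟨B, hB⟩ : ∃ B : ℝ, B = M * Real.exp (n * (∑ i, F.c i * (Real.pi / 2))) *
      (Real.exp (n * ε + n * |η| + n * ε * τ ^ 2) / c) := ⟨_, rfl⟩
  have hcc : c ≤ Real.pi / 4 - c := by linarith
  have hd : ∀ s : ℂ, c ≤ s.re → s.re ≤ Real.pi / 4 - c →
      DifferentiableAt ℂ (gS F n w ε η τ) s := by
    intro s k1 k2
    exact diff_g hq hr F n w ε η τ hw s (by linarith) (by linarith)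
  have hb : ∀ s : ℂ, c ≤ s.re → s.re ≤ Real.pi / 4 - c →
      ‖gS F n w ε η τ s‖ ≤ B * Real.exp (-(n * ε / 2) * s.im ^ 2) := by
    intro s k1 k2
    have e1 := hM s (by linarith) (by linarith)
    have e2 := norm_P hr F n s
    have e3 := norm_K (n := n) (ε := ε) (η := η) (τ := τ) hε hc s k1 (by linarith)
    unfold gS QM
    rw [norm_mul, norm_mul, hB, mul_assoc (M * _) (_ / c) _]
    apply mul_le_mul _ e3 (norm_nonneg _) (by positivity)
    exact mul_le_mul e1 e2 (norm_nonneg _) hM0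
  have hstrip := Pool.Agent.TH41.LP.SHIFTf.strip (g := gS F n w ε η τ) (a := c)
    (b := Real.pi / 4 - c) (M := B) (ε := n * ε / 2) hcc hnε hd
    (fun s k1 k2 => by simpa only [neg_mul] using hb s k1 k2)
  have hi1 : Integrable (fun t : ℝ => gS F n w ε η τ (((Real.pi / 4 - c : ℝ) : ℂ) +
      t * Complex.I)) :=
    Pool.Agent.TH41.LP.SHIFTf.int_line (M := B) hnε (fun t => hd _ (by simpa using hcc) (by simp))
      (fun t => by
        simpa using hb (((Real.pi / 4 - c : ℝ) : ℂ) + t * Complex.I) (by simpa using hcc)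
          (by simp))
  have hi2 : Integrable (fun t : ℝ => gS F n w ε η τ ((c : ℂ) + t * Complex.I)) :=
    Pool.Agent.TH41.LP.SHIFTf.int_line (M := B) hnε (fun t => hd _ (by simp) (by simpa using hcc))
      (fun t => by simpa using hb ((c : ℂ) + t * Complex.I) (by simp) (by simpa using hcc))
  simp only [gS_eq] at hstrip hi1 hi2
  refine ⟨hi1, hi2, ?_⟩
  rw [← hstrip]
  have hset : {t : ℝ | t ≤ -T ∨ T < t} = (Set.Ioc (-T) T)ᶜ := by
    ext t
    simp only [Set.mem_ofPred_eq, Set.mem_compl_iff, Set.mem_Ioc, not_and_or, not_lt, not_le]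
  rw [hset, ← integral_add_compl (s := Set.Ioc (-T) T) measurableSet_Ioc hi2]
  unfold vM
  have hπc : (2 * (Real.pi : ℂ)) ≠ 0 := by
    have : (Real.pi : ℂ) ≠ 0 := by exact_mod_cast hπ.ne'
    exact mul_ne_zero two_ne_zero this
  rw [mul_div_cancel₀ _ hπc, intervalIntegral.integral_of_le (by linarith : -T ≤ T)]
  ring

end Pool.Agent.TH41.BL.SEGf
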