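import Mathlib
import Pool.Agent.TH41.BL.Stm2
import Pool.Agent.TH41.LP.VV2

/-!
Project BL2 (helper41, MP_0430e4_lc), piece TRANSM: the test function in the transition region.
-/

set_option autoImplicit false

open MeasureTheory Filter Topology

namespace Pool.Agent.TH41.BL.TRMf

open Pool.Agent.TH41.BL

open Pool.Agent.TH41.LP.VVf

/-- the integral over the segment -/
noncomputable def SW (Y : ℂ → ℂ) (T c ρ : ℝ) : ℂ :=
  ∫ t in (-T)..T, Y (c + t * Complex.I) / (c + t * Complex.I) *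
    Complex.exp (-(c + t * Complex.I) * ρ)

theorem pos_seg {Y : ℂ → ℂ} {σ ρ V y0 T : ℝ} (hσ : σ < 0)
    (hVσ : √V / 5 ≤ -σ) (hV : 0 < V) (hy0 : 0 < y0) (hT : 3 * √V ≤ T)
    (h1 : ∀ t : ℝ, |t| ≤ T → ‖Y (σ + t * Complex.I)‖ ≤
      101 / 100 * y0 * Real.exp (-(49 / 100) * t ^ 2 / V))
    (h2 : ∀ t : ℝ, |t| ≤ 3 * √V → ∃ m θ : ℝ, |θ| ≤ 1 / 1000 ∧
      99 / 100 * Real.exp (-(51 / 100) * t ^ 2 / V) ≤ m ∧
      Y (σ + t * Complex.I) = (y0 : ℂ) * (m : ℂ) *
        Complex.exp (((ρ * t + θ : ℝ) : ℂ) * Complex.I)) :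
    (SW Y T σ ρ).re ≤ 0 := by
  have hsV : 0 < √V := Real.sqrt_pos.2 hV
  set a := -σ with ha
  have ha0 : 0 < a := by linarith
  have hT0 : -T ≤ T := by linarith
  by_cases hint : IntervalIntegrable (fun t : ℝ => Y (σ + t * Complex.I) / (σ + t * Complex.I) *
      Complex.exp (-(σ + t * Complex.I) * ρ)) volume (-T) T
  swap
  · unfold SW
    rw [intervalIntegral.integral_undef hint]
    simp
  set w := min a √V with hw
  have hw0 : 0 < w := lt_min ha0 hsV
  have hwT : w < T := by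
    have := min_le_right a √V
    linarith
  set mx := max a (3 * √V) with hmx
  have hmx0 : 0 < mx := lt_of_lt_of_le ha0 (le_max_left _ _)
  set E := y0 * Real.exp (a * ρ) with hE
  have hE0 : 0 < E := by positivity
  -- the upper bound of the real part of the integrand
  have key : ∀ t : ℝ, |t| ≤ T → (Y (σ + t * Complex.I) / (σ + t * Complex.I) *
      Complex.exp (-(σ + t * Complex.I) * ρ)).re ≤
      E * (101 / 100 / mx * Real.exp (-(351 / 100)) * Real.exp (-(1 / 10 / V) * t ^ 2) -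
        (Set.Icc (-w) w).indicator (fun _ => 29 / 100 / a) t) := by
    intro t htT
    by_cases ht : |t| ≤ 3 * √V
    · obtain ⟨m, θ, hθ, hm, hYt⟩ := h2 t ht
      have hm0 : 0 ≤ m := le_trans (by positivity) hm
      have e1 : Y (σ + t * Complex.I) / (σ + t * Complex.I) *
          Complex.exp (-(σ + t * Complex.I) * ρ) =
          ((E * m / (a ^ 2 + t ^ 2) : ℝ) : ℂ) * (Complex.exp ((θ : ℂ) * Complex.I) *
            (-(a : ℂ) - t * Complex.I)) := by
        have h3 : (σ : ℂ) + t * Complex.I ≠ 0 := line_ne hσ.ne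
        have h4 : ((a ^ 2 + t ^ 2 : ℝ) : ℂ) = ((σ : ℂ) + t * Complex.I) *
            (-(a : ℂ) - t * Complex.I) := by
          rw [ha]
          push_cast
          linear_combination ((t : ℂ) ^ 2) * Complex.I_sq
        have h5 : ((a ^ 2 + t ^ 2 : ℝ) : ℂ) ≠ 0 := by
          have : 0 < a ^ 2 + t ^ 2 := by positivity
          exact_mod_cast this.ne'
        have h6 : Complex.exp (((ρ * t + θ : ℝ) : ℂ) * Complex.I) *
            Complex.exp (-(σ + t * Complex.I) * ρ) =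
            ((Real.exp (a * ρ) : ℝ) : ℂ) * Complex.exp ((θ : ℂ) * Complex.I) := by
          rw [Complex.ofReal_exp, ← Complex.exp_add, ← Complex.exp_add]
          congr 1
          rw [ha]
          push_cast
          ring
        rw [hYt]
        have h7 : ((y0 : ℂ) * (m : ℂ) * Complex.exp (((ρ * t + θ : ℝ) : ℂ) * Complex.I)) /
            (σ + t * Complex.I) * Complex.exp (-(σ + t * Complex.I) * ρ) =
            (y0 : ℂ) * m * (Complex.exp (((ρ * t + θ : ℝ) : ℂ) * Complex.I) *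
            Complex.exp (-(σ + t * Complex.I) * ρ)) / (σ + t * Complex.I) := by ring
        rw [h7, h6, hE]
        rw [div_eq_iff h3]
        rw [Complex.ofReal_div, div_mul_eq_mul_div, div_mul_eq_mul_div, eq_div_iff h5, h4]
        push_cast
        ring
      rw [e1, Complex.re_ofReal_mul]
      have e2 : (Complex.exp ((θ : ℂ) * Complex.I) * (-(a : ℂ) - t * Complex.I)).re =
          -(a * Real.cos θ - t * Real.sin θ) := by
        rw [Complex.exp_mul_I]
        simp only [Complex.mul_re, Complex.add_re, Complex.add_im, Complex.sub_re, Complex.sub_im,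
          Complex.neg_re, Complex.neg_im, Complex.ofReal_re, Complex.ofReal_im, Complex.I_re,
          Complex.I_im, Complex.mul_im, Complex.cos_ofReal_re, Complex.cos_ofReal_im,
          Complex.sin_ofReal_re, Complex.sin_ofReal_im]
        ring
      rw [e2]
      have hcos : 999 / 1000 ≤ Real.cos θ := by
        have := Real.one_sub_sq_div_two_le_cos (x := θ)
        have h8 : θ ^ 2 ≤ (1 / 1000) ^ 2 := by
          rw [← sq_abs]
          exact pow_le_pow_left₀ (abs_nonneg _) hθ 2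
        nlinarith
      have hsin : |Real.sin θ| ≤ 1 / 1000 := (Real.abs_sin_le_abs (x := θ)).trans hθ
      have h9 : t * Real.sin θ ≤ 15 / 1000 * a := by
        have h10 : t * Real.sin θ ≤ |t| * |Real.sin θ| := by
          rw [← abs_mul]
          exact le_abs_self _
        have h11 : |t| * |Real.sin θ| ≤ (3 * √V) * (1 / 1000) :=
          mul_le_mul ht hsin (abs_nonneg _) (by positivity)
        have h12 : √V ≤ 5 * a := by linarith
        nlinarith
      have h13 : 984 / 1000 * a ≤ a * Real.cos θ - t * Real.sin θ := by nlinarith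
      have hfac : 0 ≤ E * m / (a ^ 2 + t ^ 2) := by positivity
      have hterm : 0 ≤ E * (101 / 100 / mx * Real.exp (-(351 / 100)) *
          Real.exp (-(1 / 10 / V) * t ^ 2)) := by positivity
      by_cases hin : t ∈ Set.Icc (-w) w
      · rw [Set.indicator_of_mem hin]
        have ht1 : |t| ≤ w := abs_le.2 hin
        have hta : |t| ≤ a := ht1.trans (min_le_left _ _)
        have htV : |t| ≤ √V := ht1.trans (min_le_right _ _)
        have h14 : t ^ 2 ≤ a ^ 2 := by
          rw [← sq_abs]; exact pow_le_pow_left₀ (abs_nonneg _) hta 2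
        have h15 : t ^ 2 ≤ V := by
          have := pow_le_pow_left₀ (abs_nonneg _) htV 2
          rwa [sq_abs, Real.sq_sqrt hV.le] at this
        have hm1 : 59 / 100 ≤ m := by
          refine le_trans ?_ hm
          have h16 : -(51 / 100) ≤ -(51 / 100) * t ^ 2 / V := by
            rw [le_div_iff₀ hV]
            nlinarith
          have h17 : Real.exp (-(51 / 100)) ≤ Real.exp (-(51 / 100) * t ^ 2 / V) :=
            Real.exp_le_exp.2 h16
          have h18 : (60 / 100 : ℝ) ≤ Real.exp (-(51 / 100)) := by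
            rw [Real.exp_neg, le_inv_comm₀ (by norm_num) (Real.exp_pos _)]
            have h19 : Real.exp (51 / 100) ≤ 1666 / 1000 := by
              have := Real.exp_bound' (x := 51 / 100) (by norm_num) (by norm_num) (n := 5)
                (by norm_num)
              refine this.trans ?_
              norm_num [Finset.sum_range_succ, Nat.factorial]
            refine h19.trans ?_
            norm_num
          nlinarith
        have h20 : E * m / (a ^ 2 + t ^ 2) * (984 / 1000 * a) ≤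
            E * m / (a ^ 2 + t ^ 2) * (a * Real.cos θ - t * Real.sin θ) :=
          mul_le_mul_of_nonneg_left h13 hfac
        have h21 : E * (29 / 100 / a) ≤ E * m / (a ^ 2 + t ^ 2) * (984 / 1000 * a) := by
          have h22 : E * m / (a ^ 2 + t ^ 2) * (984 / 1000 * a) =
              E * (m * (984 / 1000) * a / (a ^ 2 + t ^ 2)) := by ring
          rw [h22]
          apply mul_le_mul_of_nonneg_left _ hE0.le
          rw [div_le_div_iff₀ ha0 (by positivity)]
          have h23 : a ^ 2 + t ^ 2 ≤ 2 * a ^ 2 := by linarith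
          nlinarith [mul_le_mul_of_nonneg_right hm1 (sq_nonneg a)]
        nlinarith
      · rw [Set.indicator_of_notMem hin]
        have : 0 ≤ E * m / (a ^ 2 + t ^ 2) * (a * Real.cos θ - t * Real.sin θ) :=
          mul_nonneg hfac (le_trans (by positivity) h13)
        rw [sub_zero]
        nlinarith
    · have ht' : 3 * √V < |t| := not_le.1 ht
      have hin : t ∉ Set.Icc (-w) w := by
        intro h
        have h3 : |t| ≤ w := abs_le.2 h
        have h4 : w ≤ √V := min_le_right _ _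
        linarith
      rw [Set.indicator_of_notMem hin, sub_zero]
      refine (Complex.re_le_norm _).trans ?_
      rw [norm_mul, norm_div, exp_norm]
      have hmxn : mx ≤ ‖(σ : ℂ) + t * Complex.I‖ := by
        apply max_le
        · have := line_norm σ t
          rwa [abs_of_neg hσ] at this
        · exact ht'.le.trans (line_norm' σ t)
      have h3 : ‖Y (σ + t * Complex.I)‖ / ‖(σ : ℂ) + t * Complex.I‖ ≤
          101 / 100 * y0 * Real.exp (-(49 / 100) * t ^ 2 / V) / mx :=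
        div_le_div₀ (by positivity) (h1 t htT) hmx0 hmxn
      have h4 : Real.exp (-(49 / 100) * t ^ 2 / V) ≤
          Real.exp (-(351 / 100)) * Real.exp (-(1 / 10 / V) * t ^ 2) := by
        rw [← Real.exp_add, Real.exp_le_exp]
        have h5 : 9 * V ≤ t ^ 2 := by
          have := pow_le_pow_left₀ (by positivity) ht'.le 2
          rw [sq_abs, mul_pow, Real.sq_sqrt hV.le] at this
          linarith
        have h6 : 9 ≤ t ^ 2 / V := by rwa [le_div_iff₀ hV]
        have h7 : -(49 / 100) * t ^ 2 / V = -(49 / 100) * (t ^ 2 / V) := by ring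
        have h8 : -(1 / 10 / V) * t ^ 2 = -(1 / 10) * (t ^ 2 / V) := by ring
        rw [h7, h8]
        linarith
      calc _ ≤ 101 / 100 * y0 * Real.exp (-(49 / 100) * t ^ 2 / V) / mx * Real.exp (-σ * ρ) :=
            mul_le_mul_of_nonneg_right h3 (Real.exp_pos _).le
        _ ≤ 101 / 100 * y0 * (Real.exp (-(351 / 100)) * Real.exp (-(1 / 10 / V) * t ^ 2)) / mx *
            Real.exp (-σ * ρ) := by gcongr
        _ = _ := by rw [hE, ha]; ring
  have hb : 0 < (1 / 10 : ℝ) / V := by positivity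
  have hgi : Integrable (fun t : ℝ => 101 / 100 / mx * Real.exp (-(351 / 100)) *
      Real.exp (-(1 / 10 / V) * t ^ 2)) := (integrable_exp_neg_mul_sq hb).const_mul _
  have hii : Integrable (fun t : ℝ => (Set.Icc (-w) w).indicator (fun _ => 29 / 100 / a) t) := by
    rw [integrable_indicator_iff measurableSet_Icc]
    exact integrableOn_const (by simp)
  unfold SW
  rw [intervalIntegral.integral_of_le hT0]
  have hint' := (intervalIntegrable_iff_integrableOn_Ioc_of_le hT0).1 hint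
  have hre : (∫ t in Set.Ioc (-T) T, Y (σ + t * Complex.I) / (σ + t * Complex.I) *
      Complex.exp (-(σ + t * Complex.I) * ρ)).re = ∫ t in Set.Ioc (-T) T,
      (Y (σ + t * Complex.I) / (σ + t * Complex.I) *
      Complex.exp (-(σ + t * Complex.I) * ρ)).re :=
    (integral_re hint').symm
  rw [hre]
  refine (setIntegral_mono_on hint'.re ((hgi.integrableOn.sub hii.integrableOn).const_mul E)
    measurableSet_Ioc (fun t ht => key t (abs_le.2 ⟨ht.1.le, ht.2⟩))).trans ?_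
  rw [integral_const_mul]
  apply mul_nonpos_of_nonneg_of_nonpos hE0.le
  have hsub := integral_sub (μ := volume.restrict (Set.Ioc (-T) T)) hgi.integrableOn
    hii.integrableOn
  simp only [Pi.sub_apply] at hsub ⊢
  rw [hsub, integral_const_mul]
  have hG : ∫ t in Set.Ioc (-T) T, Real.exp (-(1 / 10 / V) * t ^ 2) ≤
      √(Real.pi / (1 / 10 / V)) := by
    rw [← gauss_int]
    exact setIntegral_le_integral (integrable_exp_neg_mul_sq hb)
      (Eventually.of_forall fun t => (Real.exp_pos _).le)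
  have hI : ∫ t in Set.Ioc (-T) T, (Set.Icc (-w) w).indicator (fun _ => 29 / 100 / a) t =
      2 * w * (29 / 100 / a) := by
    rw [setIntegral_indicator measurableSet_Icc]
    have hinter : Set.Ioc (-T) T ∩ Set.Icc (-w) w = Set.Icc (-w) w := by
      apply Set.inter_eq_right.2
      intro t ht
      exact ⟨by linarith [ht.1], by linarith [ht.2]⟩
    rw [hinter, setIntegral_const, Real.volume_real_Icc_of_le (by linarith), smul_eq_mul]
    ring
  rw [hI]
  have hs := num_s hV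
  have he := num_e
  have hfin := num_fin ha0 hV hw hmx
  have h3 : 101 / 100 / mx * Real.exp (-(351 / 100)) *
      ∫ t in Set.Ioc (-T) T, Real.exp (-(1 / 10 / V) * t ^ 2) ≤
      101 / 100 / mx * (1 / 25) * (57 / 10 * √V) := by
    have h4 := hG.trans hs
    have h5 : 0 ≤ ∫ t in Set.Ioc (-T) T, Real.exp (-(1 / 10 / V) * t ^ 2) :=
      integral_nonneg fun t => (Real.exp_pos _).le
    gcongr
  linarith

theorem seg_bound {Y : ℂ → ℂ} {T c ρ V A : ℝ} (hT : 0 < T) (hc : c ≠ 0) (hV : 0 < V)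
    (hA : 0 ≤ A) (h : ∀ t : ℝ, |t| ≤ T → ‖Y (c + t * Complex.I)‖ ≤
      101 / 100 * A * Real.exp (-(49 / 100) * t ^ 2 / V)) :
    ‖SW Y T c ρ‖ ≤ 101 / 100 * A * Real.exp (-c * ρ) / |c| * √(Real.pi / ((49 / 100) / V)) := by
  have hb : 0 < (49 / 100 : ℝ) / V := by positivity
  have hc' : 0 < |c| := abs_pos.2 hc
  have hT0 : -T ≤ T := by linarith
  unfold SW
  rw [intervalIntegral.integral_of_le hT0]
  have h0 : ∫ t in Set.Ioc (-T) T, Real.exp (-((49 / 100) / V) * t ^ 2) ≤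
      √(Real.pi / ((49 / 100) / V)) := by
    rw [← gauss_int]
    exact setIntegral_le_integral (integrable_exp_neg_mul_sq hb)
      (Eventually.of_forall fun t => (Real.exp_pos _).le)
  refine le_trans ?_ (mul_le_mul_of_nonneg_left h0 (by positivity))
  rw [← integral_const_mul]
  refine norm_integral_le_of_norm_le
    ((integrable_exp_neg_mul_sq hb).integrableOn.const_mul _) ?_
  refine (ae_restrict_iff' measurableSet_Ioc).2 (Eventually.of_forall fun t ht => ?_)
  have htT : |t| ≤ T := abs_le.2 ⟨ht.1.le, ht.2⟩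
  rw [norm_mul, norm_div, exp_norm]
  have h1 : ‖Y (c + t * Complex.I)‖ / ‖(c : ℂ) + t * Complex.I‖ ≤
      101 / 100 * A * Real.exp (-(49 / 100) * t ^ 2 / V) / |c| :=
    div_le_div₀ (by positivity) (h t htT) hc' (line_norm c t)
  have e1 : -(49 / 100) * t ^ 2 / V = -((49 / 100) / V) * t ^ 2 := by ring
  rw [e1] at h1
  calc _ ≤ 101 / 100 * A * Real.exp (-((49 / 100) / V) * t ^ 2) / |c| * Real.exp (-c * ρ) :=
        mul_le_mul_of_nonneg_right h1 (Real.exp_pos _).le
    _ = _ := by ring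

/-- the kernel with the Gaussian factor -/
noncomputable def YM (F : Fm) (n w : ℕ) (ε : ℝ) (s : ℂ) : ℂ :=
  QM F n w s * Complex.exp (n * ε * s ^ 2)

/-- the modulus and the phase of `YM` -/
theorem YM_eq (F : Fm) (n w : ℕ) (ε σ t : ℝ) :
    YM F n w ε (σ + t * Complex.I) = QM F n w (σ + t * Complex.I) *
      ((Real.exp (n * ε * (σ ^ 2 - t ^ 2)) : ℝ) : ℂ) *
      Complex.exp (((2 * n * ε * σ * t : ℝ) : ℂ) * Complex.I) := by
  unfold YM
  conv_rhs => rw [mul_assoc, Complex.ofReal_exp, ← Complex.exp_add]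
  congr 2
  push_cast
  linear_combination ((n : ℂ) * ε * t ^ 2) * Complex.I_sq

theorem YM_norm (F : Fm) (n w : ℕ) (ε σ t : ℝ) :
    ‖YM F n w ε (σ + t * Complex.I)‖ = ‖QM F n w (σ + t * Complex.I)‖ *
      Real.exp (n * ε * (σ ^ 2 - t ^ 2)) := by
  rw [YM_eq, norm_mul, norm_mul, Complex.norm_exp_ofReal_mul_I, mul_one, Complex.norm_real,
    Real.norm_of_nonneg (Real.exp_pos _).le]

theorem YM_norm0 (F : Fm) (n w : ℕ) (ε σ : ℝ) :
    ‖YM F n w ε σ‖ = ‖QM F n w σ‖ * Real.exp (n * ε * σ ^ 2) := by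
  have := YM_norm F n w ε σ 0
  simpa using this

theorem QM_zero (F : Fm) (n w : ℕ) : QM F n w 0 = 1 := by
  unfold QM QQ AA BB Lam Fm.P rr
  simp

/-- the upper bound on vertical lines -/
theorem YM_upper {F : Fm} {T C κ ε : ℝ} {n w : ℕ} (hQ : QBM F T C κ n w) (hn : 0 < n)
    (hε : 0 < ε) {σ : ℝ} (hσ : |σ| ≤ κ) (hC : C * |σ| ≤ ε / 50) (t : ℝ) (htT : |t| ≤ T) :
    ‖YM F n w ε (σ + t * Complex.I)‖ ≤
      101 / 100 * ‖YM F n w ε σ‖ * Real.exp (-(49 / 100) * t ^ 2 / (1 / (2 * n * ε))) := by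
  have hn' : (0 : ℝ) < n := by exact_mod_cast hn
  rw [YM_norm, YM_norm0]
  have h3 := hQ.m3 σ t hσ htT
  have e1 : -(49 / 100) * t ^ 2 / (1 / (2 * n * ε)) = -(49 / 50) * (n * ε * t ^ 2) := by
    field_simp
    ring
  rw [e1]
  have h4 : Real.exp (C * n * |σ| * t ^ 2) * Real.exp (n * ε * (σ ^ 2 - t ^ 2)) ≤
      Real.exp (n * ε * σ ^ 2) * Real.exp (-(49 / 50) * (n * ε * t ^ 2)) := by
    rw [← Real.exp_add, ← Real.exp_add, Real.exp_le_exp]
    have h5 : C * n * |σ| * t ^ 2 ≤ ε / 50 * (n * t ^ 2) := by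
      calc C * n * |σ| * t ^ 2 = C * |σ| * (n * t ^ 2) := by ring
        _ ≤ _ := mul_le_mul_of_nonneg_right hC (by positivity)
    nlinarith
  calc ‖QM F n w (σ + t * Complex.I)‖ * Real.exp (n * ε * (σ ^ 2 - t ^ 2))
      ≤ ‖QM F n w σ‖ * Real.exp (C * n * |σ| * t ^ 2) * Real.exp (n * ε * (σ ^ 2 - t ^ 2)) :=
        mul_le_mul_of_nonneg_right h3 (Real.exp_pos _).le
    _ = ‖QM F n w σ‖ * (Real.exp (C * n * |σ| * t ^ 2) *
        Real.exp (n * ε * (σ ^ 2 - t ^ 2))) := by ring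
    _ ≤ ‖QM F n w σ‖ * (Real.exp (n * ε * σ ^ 2) * Real.exp (-(49 / 50) * (n * ε * t ^ 2))) :=
        mul_le_mul_of_nonneg_left h4 (norm_nonneg _)
    _ ≤ 101 / 100 * (‖QM F n w σ‖ * (Real.exp (n * ε * σ ^ 2) *
        Real.exp (-(49 / 50) * (n * ε * t ^ 2)))) := by
        have : 0 ≤ ‖QM F n w σ‖ * (Real.exp (n * ε * σ ^ 2) *
          Real.exp (-(49 / 50) * (n * ε * t ^ 2))) := by positivity
        linarith
    _ = _ := by ring

/-- the lower bound and the phase on vertical lines -/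
theorem YM_phase {F : Fm} {T C κ ε : ℝ} {n w : ℕ} (hQ : QBM F T C κ n w) (hn : 0 < n)
    (hε : 0 < ε) {σ : ℝ} (hσ : |σ| ≤ κ) (hC : C * |σ| ≤ ε / 50) (t : ℝ) (htT : |t| ≤ T)
    (hθ : C * n * |t| ^ 3 ≤ 1 / 1000) :
    ∃ m θ : ℝ, |θ| ≤ 1 / 1000 ∧
      99 / 100 * Real.exp (-(51 / 100) * t ^ 2 / (1 / (2 * n * ε))) ≤ m ∧
      YM F n w ε (σ + t * Complex.I) = (‖YM F n w ε σ‖ : ℂ) * (m : ℂ) *
        Complex.exp (((n * ((GM F ((w : ℝ) / n) σ).re + 2 * ε * σ) * t + θ : ℝ) : ℂ) *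
          Complex.I) := by
  have hn' : (0 : ℝ) < n := by exact_mod_cast hn
  obtain ⟨θ, h1, h2⟩ := hQ.m5 σ t hσ htT
  have hQ0 : 0 < ‖QM F n w σ‖ := by
    rw [norm_pos_iff]
    intro h0
    have := (hQ.m1 σ hσ).2
    rw [h0] at this
    simp at this
  refine ⟨‖QM F n w (σ + t * Complex.I)‖ * Real.exp (-(n * ε * t ^ 2)) / ‖QM F n w σ‖, θ,
    h1.trans hθ, ?_, ?_⟩
  · have e1 : -(51 / 100) * t ^ 2 / (1 / (2 * n * ε)) = -(51 / 50) * (n * ε * t ^ 2) := by
      field_simp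
      ring
    rw [e1, le_div_iff₀ hQ0]
    have h4 := hQ.m4 σ t hσ htT
    have h5 : Real.exp (-(51 / 50) * (n * ε * t ^ 2)) ≤
        Real.exp (-(C * n * |σ| * t ^ 2)) * Real.exp (-(n * ε * t ^ 2)) := by
      rw [← Real.exp_add, Real.exp_le_exp]
      have h6 : C * n * |σ| * t ^ 2 ≤ ε / 50 * (n * t ^ 2) := by
        calc C * n * |σ| * t ^ 2 = C * |σ| * (n * t ^ 2) := by ring
          _ ≤ _ := mul_le_mul_of_nonneg_right hC (by positivity)
      nlinarith
    calc 99 / 100 * Real.exp (-(51 / 50) * (n * ε * t ^ 2)) * ‖QM F n w σ‖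
        ≤ Real.exp (-(51 / 50) * (n * ε * t ^ 2)) * ‖QM F n w σ‖ := by
          have : 0 ≤ Real.exp (-(51 / 50) * (n * ε * t ^ 2)) * ‖QM F n w σ‖ := by positivity
          linarith
      _ ≤ Real.exp (-(C * n * |σ| * t ^ 2)) * Real.exp (-(n * ε * t ^ 2)) * ‖QM F n w σ‖ :=
          mul_le_mul_of_nonneg_right h5 hQ0.le
      _ = ‖QM F n w σ‖ * Real.exp (-(C * n * |σ| * t ^ 2)) *
          Real.exp (-(n * ε * t ^ 2)) := by ring
      _ ≤ _ := mul_le_mul_of_nonneg_right h4 (Real.exp_pos _).le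
  · rw [YM_eq, YM_norm0]
    have hQ0' : ((‖QM F n w σ‖ : ℝ) : ℂ) ≠ 0 := by exact_mod_cast hQ0.ne'
    have e2 : Complex.exp (((n * ((GM F ((w : ℝ) / n) σ).re + 2 * ε * σ) * t + θ : ℝ) : ℂ) *
        Complex.I) = Complex.exp (((n * (GM F ((w : ℝ) / n) σ).re * t + θ : ℝ) : ℂ) *
          Complex.I) *
        Complex.exp (((2 * n * ε * σ * t : ℝ) : ℂ) * Complex.I) := by
      rw [← Complex.exp_add]
      congr 1
      push_cast
      ring
    have e3 : Real.exp (n * ε * (σ ^ 2 - t ^ 2)) = Real.exp (n * ε * σ ^ 2) *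
        Real.exp (-(n * ε * t ^ 2)) := by
      rw [← Real.exp_add]
      congr 1
      ring
    rw [e2, e3]
    conv_lhs => rw [h2]
    push_cast
    field_simp

theorem re_div_two_pi (z : ℂ) : (z / (2 * Real.pi)).re = z.re / (2 * Real.pi) := by
  have : z / (2 * (Real.pi : ℂ)) = z / (((2 * Real.pi : ℝ)) : ℂ) := by push_cast; rfl
  rw [this, Complex.div_ofReal_re]

/-! ### The contour -/

/-- the integrand without the pole -/
noncomputable def ZM (F : Fm) (n w : ℕ) (ε η : ℝ) (s : ℂ) : ℂ :=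
  QM F n w s * Complex.exp (n * ε * s ^ 2 - n * η * s)

theorem vM_eq (F : Fm) (T : ℝ) (n w : ℕ) (ε η c : ℝ) :
    vM F T n w ε η c 0 = SW (YM F n w ε) T c (n * η) / (2 * Real.pi) := by
  unfold vM SW
  congr 1
  apply intervalIntegral.integral_congr
  intro t _
  simp only [Kf, YM, Complex.ofReal_zero, sub_zero]
  have e : Complex.exp (n * ε * ((c : ℂ) + t * Complex.I) ^ 2 -
      n * η * ((c : ℂ) + t * Complex.I)) =
      Complex.exp (n * ε * ((c : ℂ) + t * Complex.I) ^ 2) *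
      Complex.exp (-((c : ℂ) + t * Complex.I) * ((n * η : ℝ) : ℂ)) := by
    rw [← Complex.exp_add]
    congr 1
    push_cast
    ring
  rw [e]
  ring

theorem ZM_eq (F : Fm) (T : ℝ) (n w : ℕ) (ε η c : ℝ) :
    (∫ t in (-T)..T, ZM F n w ε η (c + t * Complex.I) /
      (c + (t - (0 : ℝ)) * Complex.I)) = SW (YM F n w ε) T c (n * η) := by
  unfold SW
  apply intervalIntegral.integral_congr
  intro t _
  simp only [ZM, YM, Complex.ofReal_zero, sub_zero]
  have e : Complex.exp (n * ε * ((c : ℂ) + t * Complex.I) ^ 2 -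
      n * η * ((c : ℂ) + t * Complex.I)) =
      Complex.exp (n * ε * ((c : ℂ) + t * Complex.I) ^ 2) *
      Complex.exp (-((c : ℂ) + t * Complex.I) * ((n * η : ℝ) : ℂ)) := by
    rw [← Complex.exp_add]
    congr 1
    push_cast
    ring
  rw [e]
  ring

theorem ZM_norm (F : Fm) (n w : ℕ) (ε η σ t : ℝ) :
    ‖ZM F n w ε η (σ + t * Complex.I)‖ = ‖QM F n w (σ + t * Complex.I)‖ *
      Real.exp (n * ε * (σ ^ 2 - t ^ 2) - n * η * σ) := by
  unfold ZM
  rw [norm_mul, Complex.norm_exp]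
  congr 2
  have e : (n : ℂ) * ε * ((σ : ℂ) + t * Complex.I) ^ 2 - n * η * ((σ : ℂ) + t * Complex.I) =
      ((n * ε * (σ ^ 2 - t ^ 2) - n * η * σ : ℝ) : ℂ) +
        ((2 * n * ε * σ * t - n * η * t : ℝ) : ℂ) * Complex.I := by
    push_cast
    linear_combination ((n : ℂ) * ε * t ^ 2) * Complex.I_sq
  rw [e, Complex.add_re, Complex.ofReal_re, Complex.mul_I_re, Complex.ofReal_im]
  ring

/-- the shifts of the segment -/
theorem shift {F : Fm} {T C κ ε η : ℝ} {n w : ℕ} (h : S_rect) (hT : 0 < T) (hC : 0 < C)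
    (hQ : QBM F T C κ n w) (hκ : 0 < κ) (hε : 0 < ε) (hη : |η| ≤ 1)
    (hsm : C * κ + ε * κ ^ 2 + κ ≤ ε * T ^ 2 / 4) :
    (∀ c c' : ℝ, 0 < c → c ≤ κ → 0 < c' → c' ≤ κ →
      ‖SW (YM F n w ε) T c (n * η) - SW (YM F n w ε) T c' (n * η)‖ ≤
        4 * κ * Real.exp (-(n * ε * T ^ 2 / 2)) / T) ∧
    (∀ c c' : ℝ, -κ ≤ c → c < 0 → 0 < c' → c' ≤ κ →
      ‖SW (YM F n w ε) T c' (n * η) - SW (YM F n w ε) T c (n * η) - 2 * Real.pi‖ ≤
        4 * κ * Real.exp (-(n * ε * T ^ 2 / 2)) / T) := by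
  have hn : (0 : ℝ) ≤ n := Nat.cast_nonneg n
  have hb : ∀ σ t : ℝ, -κ ≤ σ → σ ≤ κ → |t| = T →
      ‖ZM F n w ε η (σ + t * Complex.I)‖ ≤ Real.exp (-(n * ε * T ^ 2 / 2)) := by
    intro σ t h1 h2 ht
    have hσ : |σ| ≤ κ := abs_le.2 ⟨h1, h2⟩
    have h3 := hQ.m2 σ t hσ ht.le
    rw [ZM_norm]
    refine (mul_le_mul_of_nonneg_right h3 (Real.exp_pos _).le).trans ?_
    rw [← Real.exp_add, Real.exp_le_exp]
    have ht2 : t ^ 2 = T ^ 2 := by rw [← sq_abs, ht]
    have h4 : σ ^ 2 ≤ κ ^ 2 := by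
      rw [← sq_abs]; exact pow_le_pow_left₀ (abs_nonneg _) hσ 2
    have h5 : -(η * σ) ≤ κ := by
      have h6 : |η * σ| ≤ 1 * κ := by
        rw [abs_mul]
        exact mul_le_mul hη hσ (abs_nonneg _) (by norm_num)
      have := neg_abs_le (η * σ)
      linarith
    rw [ht2]
    have h7 : C * |σ| ≤ C * κ := mul_le_mul_of_nonneg_left hσ hC.le
    have h8 : ε * σ ^ 2 ≤ ε * κ ^ 2 := mul_le_mul_of_nonneg_left h4 hε.le
    have h9 : 0 ≤ ε * T ^ 2 := by positivity
    have h10 : n * (C * |σ| + ε * (σ ^ 2 - T ^ 2) - η * σ) ≤ n * (-(ε * T ^ 2 / 2)) := by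
      apply mul_le_mul_of_nonneg_left _ hn
      linarith
    calc C * n * |σ| + (n * ε * (σ ^ 2 - T ^ 2) - n * η * σ) =
        n * (C * |σ| + ε * (σ ^ 2 - T ^ 2) - η * σ) := by ring
      _ ≤ n * (-(ε * T ^ 2 / 2)) := h10
      _ = _ := by ring
  obtain ⟨h1, h2⟩ := h (ZM F n w ε η) (-κ) κ T 0 (Real.exp (-(n * ε * T ^ 2 / 2)))
    (by linarith) hκ (by simpa using hT)
    (by
      intro s h1 h2 h3
      unfold ZM
      exact (hQ.m10 s (abs_le.2 ⟨h1, h2⟩) h3).mul (by fun_prop))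
    (by
      intro σ h1 h2
      refine ⟨hb σ T h1 h2 (abs_of_pos hT), hb σ (-T) h1 h2 ?_⟩
      rw [abs_neg, abs_of_pos hT])
  have e1 : 2 * (κ - -κ) * Real.exp (-(n * ε * T ^ 2 / 2)) / (T - |(0 : ℝ)|) =
      4 * κ * Real.exp (-(n * ε * T ^ 2 / 2)) / T := by
    rw [abs_zero, sub_zero]
    ring
  have e2 : ZM F n w ε η ((0 : ℝ) * Complex.I) = 1 := by
    unfold ZM
    simp [QM_zero]
  constructor
  · intro c c' a1 a2 a3 a4
    have := h1 c c' a1 a2 a3 a4
    rw [ZM_eq, ZM_eq, e1] at this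
    exact this
  · intro c c' a1 a2 a3 a4
    have := h2 c c' a1 a2 a3 a4
    rw [ZM_eq, ZM_eq, e1, e2, mul_one] at this
    exact this

/-- the bound on the right -/
theorem caseB {F : Fm} {T C κ0 ε η : ℝ} {n w : ℕ} (hT : 0 < T) (hC : 0 < C)
    (hε : 0 < ε) (hn0 : 0 < n) (hQ : QBM F T C κ0 n w) {r : ℝ} (hr : 0 < r)
    (hrV : r ^ 2 = 1 / (2 * n * ε)) (hrκ : r ≤ κ0) (hrC : C * r ≤ ε / 50)
    (hr3 : r ≤ ε / (13500 * C))
    (hcase : n * ((GM F ((w : ℝ) / n) (-(r / 5) : ℝ)).re + 2 * ε * (-(r / 5))) < n * η) :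
    ‖SW (YM F n w ε) T (9 / 10 * r) (n * η)‖ ≤
      101 / 100 * (1823 / 1000) * (2533 / 1000) / (9 / 10) := by
  have hn' : (0 : ℝ) < n := by exact_mod_cast hn0
  have hV : (0 : ℝ) < 1 / (2 * n * ε) := by positivity
  have hsq : √(1 / (2 * n * ε)) = r := by rw [← hrV, Real.sqrt_sq hr.le]
  have hnr : n * ε * r ^ 2 = 1 / 2 := by
    rw [hrV]
    field_simp
  have hc0 : 0 < 9 / 10 * r := by positivity
  have hcabs : |9 / 10 * r| ≤ κ0 := by
    rw [abs_of_pos hc0]
    linarith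
  have hcC : C * |9 / 10 * r| ≤ ε / 50 := by
    rw [abs_of_pos hc0]
    nlinarith
  have h2 := seg_bound (Y := YM F n w ε) (c := 9 / 10 * r) (ρ := n * η) hT hc0.ne' hV
    (norm_nonneg (YM F n w ε (9 / 10 * r : ℝ)))
    (fun t ht => YM_upper hQ hn0 hε hcabs hcC t ht)
  rw [abs_of_pos hc0] at h2
  -- the size on the real axis
  have hq7 := hQ.m7 (9 / 10 * r) hcabs
  have hq8 := hQ.m8 (-(r / 5)) (by rw [abs_neg, abs_of_pos (by positivity)]; linarith)
  have hg : bM F n w - η ≤ 2 / 5 * ε * r + C * r ^ 2 / 25 := by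
    have h3 := (abs_le.mp hq8).1
    have h4 : (GM F ((w : ℝ) / n) (-(r / 5) : ℝ)).re + 2 * ε * (-(r / 5)) < η :=
      lt_of_mul_lt_mul_left hcase hn'.le
    nlinarith
  have hsmall : n * C * r ^ 3 ≤ 1 / 27000 := by
    have h3 : n * C * r ^ 3 = (n * ε * r ^ 2) * (C * r / ε) := by
      field_simp
    rw [h3, hnr]
    have h4 : C * r / ε ≤ 1 / 13500 := by
      rw [div_le_iff₀ hε]
      calc C * r ≤ C * (ε / (13500 * C)) := mul_le_mul_of_nonneg_left hr3 hC.le
        _ = 1 / 13500 * ε := by field_simp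
    linarith
  have h5 : ‖YM F n w ε (9 / 10 * r : ℝ)‖ * Real.exp (-(9 / 10 * r) * (n * η)) ≤
      Real.exp (3 / 5) := by
    rw [YM_norm0]
    calc ‖QM F n w (9 / 10 * r : ℝ)‖ * Real.exp (n * ε * (9 / 10 * r) ^ 2) *
          Real.exp (-(9 / 10 * r) * (n * η))
        ≤ Real.exp (n * (bM F n w * (9 / 10 * r) + C * |9 / 10 * r| ^ 3)) *
          Real.exp (n * ε * (9 / 10 * r) ^ 2) * Real.exp (-(9 / 10 * r) * (n * η)) := by
          gcongr
      _ ≤ Real.exp (3 / 5) := by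
          rw [← Real.exp_add, ← Real.exp_add, Real.exp_le_exp, abs_of_pos hc0]
          have h6 : n * (9 / 10 * r) * (bM F n w - η) ≤
              n * (9 / 10 * r) * (2 / 5 * ε * r + C * r ^ 2 / 25) :=
            mul_le_mul_of_nonneg_left hg (by positivity)
          have h7 : n * (9 / 10 * r) * (2 / 5 * ε * r + C * r ^ 2 / 25) =
              36 / 100 * (n * ε * r ^ 2) + 36 / 1000 * (n * C * r ^ 3) := by ring
          have h8 : n * (bM F n w * (9 / 10 * r) + C * (9 / 10 * r) ^ 3) +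
              n * ε * (9 / 10 * r) ^ 2 + -(9 / 10 * r) * (n * η) =
              n * (9 / 10 * r) * (bM F n w - η) + 729 / 1000 * (n * C * r ^ 3) +
              81 / 100 * (n * ε * r ^ 2) := by ring
          rw [h8]
          rw [h7, hnr] at h6
          rw [hnr]
          linarith
  have h6 := h5.trans num_exp
  have h7 := num_pi_sqrt hV
  rw [hsq] at h7
  refine h2.trans ?_
  calc 101 / 100 * ‖YM F n w ε (9 / 10 * r : ℝ)‖ * Real.exp (-(9 / 10 * r) * (n * η)) /
        (9 / 10 * r) * √(Real.pi / ((49 / 100) / (1 / (2 * n * ε))))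
      = 101 / 100 * (‖YM F n w ε (9 / 10 * r : ℝ)‖ * Real.exp (-(9 / 10 * r) * (n * η))) /
        (9 / 10 * r) * √(Real.pi / ((49 / 100) / (1 / (2 * n * ε)))) := by ring
    _ ≤ 101 / 100 * (1823 / 1000) / (9 / 10 * r) * (2533 / 1000 * r) := by gcongr
    _ = 101 / 100 * (1823 / 1000) * (2533 / 1000) / (9 / 10) := by field_simp

/-- the bound on the left -/
theorem caseA {F : Fm} {T C κ0 κ ε η : ℝ} {n w : ℕ} (hC : 0 < C)
    (hε : 0 < ε) (hn0 : 0 < n) (hQ : QBM F T C κ0 n w) (hκ : 0 < κ) (hκκ : κ ≤ κ0)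
    (hκC : C * κ ≤ ε / 50) {r : ℝ} (hr : 0 < r)
    (hrV : r ^ 2 = 1 / (2 * n * ε)) (hrκ : r ≤ κ) (hrT : 3 * r ≤ T)
    (hr3 : r ≤ ε / (13500 * C)) (hb : bM F n w ≤ η + ε * κ)
    (hcase : n * η ≤ n * ((GM F ((w : ℝ) / n) (-(r / 5) : ℝ)).re + 2 * ε * (-(r / 5)))) :
    ∃ σ : ℝ, -κ ≤ σ ∧ σ < 0 ∧ (SW (YM F n w ε) T σ (n * η)).re ≤ 0 := by
  have hn' : (0 : ℝ) < n := by exact_mod_cast hn0
  have hV : (0 : ℝ) < 1 / (2 * n * ε) := by positivity
  have hsq : √(1 / (2 * n * ε)) = r := by rw [← hrV, Real.sqrt_sq hr.le]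
  have hnr : n * ε * r ^ 2 = 1 / 2 := by
    rw [hrV]
    field_simp
  -- the intermediate value theorem
  have hcont : ContinuousOn (fun σ : ℝ => n * ((GM F ((w : ℝ) / n) σ).re + 2 * ε * σ))
      (Set.Icc (-κ) (-(r / 5))) := by
    have h9 : ContinuousOn (fun σ : ℝ => (GM F ((w : ℝ) / n) σ).re)
        (Set.Icc (-κ) (-(r / 5))) :=
      hQ.m9.mono (Set.Icc_subset_Icc (by linarith) (by linarith))
    exact continuousOn_const.mul (h9.add (by fun_prop))
  have hle : n * ((GM F ((w : ℝ) / n) (-κ : ℝ)).re + 2 * ε * (-κ)) ≤ n * η := by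
    refine mul_le_mul_of_nonneg_left ?_ hn'.le
    have hq8 := (abs_le.mp (hQ.m8 (-κ) (by rw [abs_neg, abs_of_pos hκ]; exact hκκ))).2
    have h3 : C * (-κ) ^ 2 ≤ ε / 50 * κ := by
      calc C * (-κ) ^ 2 = C * κ * κ := by ring
        _ ≤ _ := mul_le_mul_of_nonneg_right hκC hκ.le
    nlinarith [mul_pos hε hκ]
  obtain ⟨σ, hσ, hσρ⟩ := intermediate_value_Icc (by linarith) hcont ⟨hle, hcase⟩
  have hσneg : σ < 0 := by
    have := hσ.2
    linarith
  have hσabs : |σ| ≤ κ := by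
    rw [abs_of_neg hσneg]
    linarith [hσ.1]
  have hσC : C * |σ| ≤ ε / 50 := (mul_le_mul_of_nonneg_left hσabs hC.le).trans hκC
  have hy0 : 0 < ‖YM F n w ε σ‖ := by
    rw [YM_norm0]
    refine mul_pos ?_ (Real.exp_pos _)
    rw [norm_pos_iff]
    intro h0
    have := (hQ.m1 σ (hσabs.trans hκκ)).2
    rw [h0] at this
    simp at this
  refine ⟨σ, hσ.1, hσneg, ?_⟩
  refine pos_seg (V := 1 / (2 * n * ε)) (y0 := ‖YM F n w ε σ‖) hσneg ?_ hV hy0 ?_ ?_ ?_
  · rw [hsq]
    linarith [hσ.2]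
  · rw [hsq]
    exact hrT
  · exact fun t ht => YM_upper hQ hn0 hε (hσabs.trans hκκ) hσC t ht
  · intro t ht
    rw [hsq] at ht
    have hθ : C * n * |t| ^ 3 ≤ 1 / 1000 := by
      have h10 : |t| ^ 3 ≤ (3 * r) ^ 3 := pow_le_pow_left₀ (abs_nonneg _) ht 3
      have h11 : C * n * (3 * r) ^ 3 = 27 * (n * ε * r ^ 2) * (C * r / ε) := by
        field_simp
        ring
      have h4 : C * r / ε ≤ 1 / 13500 := by
        rw [div_le_iff₀ hε]
        calc C * r ≤ C * (ε / (13500 * C)) := mul_le_mul_of_nonneg_left hr3 hC.le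
          _ = 1 / 13500 * ε := by field_simp
      calc C * n * |t| ^ 3 ≤ C * n * (3 * r) ^ 3 :=
            mul_le_mul_of_nonneg_left h10 (by positivity)
        _ = 27 * (n * ε * r ^ 2) * (C * r / ε) := h11
        _ ≤ 27 * (1 / 2) * (1 / 13500) := by
            rw [hnr]
            linarith
        _ = 1 / 1000 := by norm_num
    obtain ⟨m, θ, h1, h2, h3⟩ := YM_phase hQ hn0 hε (hσabs.trans hκκ) hσC t (ht.trans hrT) hθ
    refine ⟨m, θ, h1, h2, ?_⟩
    rw [h3]
    simp only at hσρ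
    rw [hσρ]

theorem transM (h : S_rect) (hb : S_qbm) : S_transM := by
  intro F T hT hF ε η hε hε1 hη
  obtain ⟨C, κ0, hC, hκ0, hκ0', hQB⟩ := hb F T hT hF
  set κ := min (min κ0 (ε / (50 * C))) (min 1 (ε * T ^ 2 / (4 * (C + 2)))) with hκ
  have hκpos : 0 < κ := lt_min (lt_min hκ0 (by positivity)) (lt_min (by norm_num) (by positivity))
  have hκκ : κ ≤ κ0 := (min_le_left _ _).trans (min_le_left _ _)
  have hκC : C * κ ≤ ε / 50 := by
    calc C * κ ≤ C * (ε / (50 * C)) :=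
          mul_le_mul_of_nonneg_left ((min_le_left _ _).trans (min_le_right _ _)) hC.le
      _ = ε / 50 := by field_simp
  have hκ1 : κ ≤ 1 := (min_le_right _ _).trans (min_le_left _ _)
  have hsm : C * κ + ε * κ ^ 2 + κ ≤ ε * T ^ 2 / 4 := by
    have h1 : κ ≤ ε * T ^ 2 / (4 * (C + 2)) := (min_le_right _ _).trans (min_le_right _ _)
    rw [le_div_iff₀ (by positivity)] at h1
    have h2 : ε * κ ^ 2 ≤ κ := by
      have h3 : κ ^ 2 ≤ κ := by nlinarith
      have h4 : ε * κ ^ 2 ≤ 1 * κ := mul_le_mul hε1 h3 (by positivity) (by norm_num)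
      linarith
    linarith
  set r0 := min (min κ (ε / (13500 * C))) (T / 3) with hr0
  have hr0pos : 0 < r0 := lt_min (lt_min hκpos (by positivity)) (by positivity)
  refine ⟨ε * κ, by positivity, κ, hκpos, ?_⟩
  intro c hc hcκ
  refine ⟨ε * T ^ 2 / 4, by positivity, ⌈1 / (2 * ε * r0 ^ 2)⌉₊ + ⌈80 / (ε * T ^ 2)⌉₊ +
    ⌈16 * κ / (ε * T ^ 3)⌉₊ + 1, ?_⟩
  intro n w hn hw
  have hn0 : 0 < n := by omega
  have hn' : (0 : ℝ) < n := by exact_mod_cast hn0
  have hpi : (3.14 : ℝ) < Real.pi := Real.pi_gt_d2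
  have hpi0 : 0 < Real.pi := Real.pi_pos
  have hQ := hQB n w hn0 hw
  have hQκ : QBM F T C κ n w := by
    refine ⟨hQ.m0, ?_, ?_, ?_, ?_, ?_, ?_, ?_, ?_, ?_, ?_⟩
    · exact fun σ h1 => hQ.m1 σ (h1.trans hκκ)
    · exact fun σ t h1 h2 => hQ.m2 σ t (h1.trans hκκ) h2
    · exact fun σ t h1 h2 => hQ.m3 σ t (h1.trans hκκ) h2
    · exact fun σ t h1 h2 => hQ.m4 σ t (h1.trans hκκ) h2
    · exact fun σ t h1 h2 => hQ.m5 σ t (h1.trans hκκ) h2
    · exact fun σ t h1 h2 h3 => hQ.m6 σ t (h1.trans hκκ) h2 h3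
    · exact fun σ h1 => hQ.m7 σ (h1.trans hκκ)
    · exact fun σ h1 => hQ.m8 σ (h1.trans hκκ)
    · exact hQ.m9.mono (Set.Icc_subset_Icc (by linarith) hκκ)
    · exact fun s h1 h2 => hQ.m10 s (h1.trans hκκ) h2
  have hV : (0 : ℝ) < 1 / (2 * n * ε) := by positivity
  set r := √(1 / (2 * n * ε)) with hr
  have hrpos : 0 < r := Real.sqrt_pos.2 hV
  have hrV : r ^ 2 = 1 / (2 * n * ε) := Real.sq_sqrt hV.le
  have hrr : r ≤ r0 := by
    rw [hr, Real.sqrt_le_left hr0pos.le, div_le_iff₀ (by positivity)]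
    have h1 : 1 / (2 * ε * r0 ^ 2) ≤ n := by
      refine (Nat.le_ceil _).trans ?_
      exact_mod_cast (show _ ≤ n by omega)
    rw [div_le_iff₀ (by positivity)] at h1
    linarith
  have hrκ : r ≤ κ := hrr.trans ((min_le_left _ _).trans (min_le_left _ _))
  have hr3 : r ≤ ε / (13500 * C) := hrr.trans ((min_le_left _ _).trans (min_le_right _ _))
  have hrT : 3 * r ≤ T := by
    have := hrr.trans (min_le_right _ _)
    linarith
  have hrC : C * r ≤ ε / 50 := (mul_le_mul_of_nonneg_left hrκ hC.le).trans hκC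
  -- the error
  obtain ⟨q, hq⟩ : ∃ q : ℝ, q = n * ε * T ^ 2 / 4 := ⟨_, rfl⟩
  have hq20 : 20 ≤ q := by
    have h1 : 80 / (ε * T ^ 2) ≤ n := by
      refine (Nat.le_ceil _).trans ?_
      exact_mod_cast (show _ ≤ n by omega)
    rw [div_le_iff₀ (by positivity)] at h1
    rw [hq]
    linarith
  have hqκ : 4 * κ / T ≤ q := by
    have h1 : 16 * κ / (ε * T ^ 3) ≤ n := by
      refine (Nat.le_ceil _).trans ?_
      exact_mod_cast (show _ ≤ n by omega)
    rw [div_le_iff₀ (by positivity)] at h1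
    rw [hq, div_le_iff₀ hT]
    linarith
  have hexpq : q ≤ Real.exp q := by
    have := Real.add_one_le_exp q
    linarith
  have hE1 : 4 * κ * Real.exp (-(n * ε * T ^ 2 / 2)) / T ≤ Real.exp (-q) := by
    have e1 : -(n * ε * T ^ 2 / 2) = -q + -q := by rw [hq]; ring
    have e2 : 4 * κ * Real.exp (-(n * ε * T ^ 2 / 2)) / T =
        (4 * κ / T) * Real.exp (-q) * Real.exp (-q) := by
      rw [e1, Real.exp_add]
      ring
    rw [e2]
    have h1 : (4 * κ / T) * Real.exp (-q) ≤ 1 := by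
      rw [Real.exp_neg, ← div_eq_mul_inv, div_le_one (Real.exp_pos _)]
      linarith
    calc (4 * κ / T) * Real.exp (-q) * Real.exp (-q) ≤ 1 * Real.exp (-q) :=
          mul_le_mul_of_nonneg_right h1 (Real.exp_pos _).le
      _ = _ := one_mul _
  have hE2 : Real.exp (-q) ≤ 1 / 20 := by
    rw [Real.exp_neg, inv_le_comm₀ (Real.exp_pos _) (by norm_num)]
    norm_num
    linarith
  have hEq : Real.exp (-(ε * T ^ 2 / 4) * n) = Real.exp (-q) := by
    congr 1
    rw [hq]
    ring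
  obtain ⟨hs1, hs2⟩ := shift h hT hC hQκ hκpos hε hη hsm
  rw [vM_eq, re_div_two_pi, hEq]
  rcases le_or_gt (n * η)
    (n * ((GM F ((w : ℝ) / n) (-(r / 5) : ℝ)).re + 2 * ε * (-(r / 5)))) with hcase | hcase
  · refine ⟨fun hbb => ?_, fun hbb => ?_⟩
    · obtain ⟨σ, h1, h2, h3⟩ := caseA hC hε hn0 hQ hκpos hκκ hκC hrpos hrV hrκ hrT hr3 hbb hcase
      have h4 := hs2 σ c h1 h2 hc hcκ
      have h5 := (Complex.re_le_norm _).trans h4
      rw [Complex.sub_re, Complex.sub_re] at h5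
      have h6 : (2 * (Real.pi : ℂ)).re = 2 * Real.pi := by
        have : (2 * (Real.pi : ℂ)) = ((2 * Real.pi : ℝ) : ℂ) := by push_cast; rfl
        rw [this, Complex.ofReal_re]
      rw [h6] at h5
      rw [div_le_iff₀ (by positivity)]
      have h7 := Real.exp_pos (-q)
      nlinarith
    · exfalso
      have h1 : η ≤ (GM F ((w : ℝ) / n) (-(r / 5) : ℝ)).re + 2 * ε * (-(r / 5)) :=
        le_of_mul_le_mul_left hcase hn'
      have hq8 := (abs_le.mp (hQ.m8 (-(r / 5)) (by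
        rw [abs_neg, abs_of_pos (by positivity)]; linarith))).2
      have h2 : C * (-(r / 5)) ^ 2 ≤ ε / 50 * r / 25 := by
        calc C * (-(r / 5)) ^ 2 = C * r * r / 25 := by ring
          _ ≤ ε / 50 * r / 25 := by gcongr
      nlinarith [mul_pos hε hrpos]
  · have h1 := caseB hT hC hε hn0 hQ hrpos hrV (hrκ.trans hκκ) hrC hr3 hcase
    have h2 := hs1 c (9 / 10 * r) hc hcκ (by positivity) (by linarith)
    have h3 : (SW (YM F n w ε) T c (n * η)).re ≤ 5 / 6 * (2 * Real.pi) := by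
      have h4 : ‖SW (YM F n w ε) T c (n * η)‖ ≤
          ‖SW (YM F n w ε) T c (n * η) - SW (YM F n w ε) T (9 / 10 * r) (n * η)‖ +
          ‖SW (YM F n w ε) T (9 / 10 * r) (n * η)‖ := by
        have := norm_add_le (SW (YM F n w ε) T c (n * η) -
          SW (YM F n w ε) T (9 / 10 * r) (n * η)) (SW (YM F n w ε) T (9 / 10 * r) (n * η))
        simpa using this
      refine (Complex.re_le_norm _).trans (h4.trans ?_)
      have h5 : (101 / 100 * (1823 / 1000) * (2533 / 1000) / (9 / 10) : ℝ) + 1 / 20 ≤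
          5 / 6 * (2 * 3.14) := by norm_num
      linarith
    have h6 : (SW (YM F n w ε) T c (n * η)).re / (2 * Real.pi) ≤ 5 / 6 := by
      rw [div_le_iff₀ (by positivity)]
      exact h3
    refine ⟨fun _ => ?_, fun _ => h6⟩
    have := Real.exp_pos (-q)
    linarith

end Pool.Agent.TH41.BL.TRMf
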