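import Mathlib
import Pool.Agent.TH41.BL.Stm2
import Pool.Agent.TH41.BL.KRA
import Pool.Agent.TH41.BL.LZA
import Pool.Agent.TH41.BL.LZB
import Pool.Agent.TH41.BL.LZC
import Pool.Agent.TH41.BL.LMA
import Pool.Agent.TH41.BL.LMB
import Pool.Agent.TH41.BL.QQA
import Pool.Agent.TH41.BL.GDA
import Pool.Agent.TH41.BL.GIA
import Pool.Agent.TH41.BL.RRA
import Pool.Agent.TH41.BL.PGA
import Pool.Agent.TH41.BL.QBM
import Pool.Agent.TH41.BL.DBA
import Pool.Agent.TH41.BL.REC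
import Pool.Agent.TH41.BL.SEG
import Pool.Agent.TH41.BL.LEM
import Pool.Agent.TH41.BL.RIM
import Pool.Agent.TH41.BL.DUM
import Pool.Agent.TH41.BL.TRM
import Pool.Agent.TH41.BL.NEM
import Pool.Agent.TH41.BL.MAM
import Pool.Agent.TH41.BL.DIS
import Pool.Agent.TH41.BL.FIM
import Pool.Agent.TH41.BL.PUN

set_option autoImplicit false

namespace Pool.Agent.TH41.BL

theorem h_lam : S_lam := LMBf.lamB LZAf.lz1 LZBf.lz2 (LMAf.lamA LZAf.lz1)
theorem h_lz3 : S_lz3 := LZCf.lz3 LZAf.lz1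
theorem h_qq : S_qq := QQAf.qq LZBf.lz2 h_lz3 h_lam
theorem h_gd : S_gd := GDAf.gd LZAf.lz1 LZBf.lz2 h_lz3
theorem h_gi : S_gi := GIAf.gi LZBf.lz2
theorem h_pg : S_pg := PGAf.pg RRAf.rrS
theorem h_qbm : S_qbm := QBMf.qbm h_gd h_gi h_qq h_pg
theorem h_db : S_db := DBAf.db h_lam h_lz3 RRAf.rrS
theorem h_seg : S_seg := SEGf.seg h_qq h_lam RRAf.rrS
theorem h_leftM : S_leftM := LEMf.leftM RECf.rect h_qbm
theorem h_rightM : S_rightM := RIMf.rightM h_qbm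
theorem h_dualM : S_dualM := DUMf.dualM KRAf.kra h_seg h_db
theorem h_transM : S_transM := TRMf.transM RECf.rect h_qbm

end Pool.Agent.TH41.BL
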