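import Mathlib
import Pool.Agent.TH41.BL.Stm

/-!
Project BL: approximate extensions of the exponentials.
-/

set_option autoImplicit false

open MeasureTheory Filter Topology

namespace Pool.Agent.TH41.BL.FAMf

open Pool.Agent.TH41.BL

open Pool.Agent.TH41.LP (WW)

lemma large (ε₁ : ℝ) (h : 0 < ε₁) : ∃ n₀ : ℕ, ∀ n : ℕ, n₀ ≤ n →
    Real.exp (-ε₁ * n) ≤ 1 / (4 * ((n : ℝ) + 1)) := by
  refine ⟨⌈16 / ε₁ ^ 2⌉₊ + 1, fun n hn => ?_⟩
  have hn1 : (1 : ℝ) ≤ n := by exact_mod_cast (Nat.le_add_left 1 _).trans hn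
  have hn2 : 16 / ε₁ ^ 2 ≤ n := by
    refine (Nat.le_ceil _).trans ?_
    exact_mod_cast (Nat.le_succ _).trans hn
  have hn3 : 16 ≤ n * ε₁ ^ 2 := by
    rwa [div_le_iff₀ (by positivity)] at hn2
  have h1 : 1 + ε₁ * n + (ε₁ * n) ^ 2 / 2 ≤ Real.exp (ε₁ * n) :=
    Real.quadratic_le_exp_of_nonneg (by positivity)
  have h2 : 4 * ((n : ℝ) + 1) ≤ Real.exp (ε₁ * n) := by
    have h3 : 16 * (n : ℝ) ≤ (ε₁ * n) ^ 2 := by
      calc 16 * (n : ℝ) ≤ (n * ε₁ ^ 2) * n := by nlinarith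
        _ = (ε₁ * n) ^ 2 := by ring
    have h4 : 0 ≤ ε₁ * n := by positivity
    linarith
  have e1 : Real.exp (-ε₁ * n) = 1 / Real.exp (ε₁ * n) := by
    rw [neg_mul, Real.exp_neg, one_div]
  rw [e1]
  exact one_div_le_one_div_of_le (by positivity) h2

lemma NN_nonneg (n : ℕ) (f : ℕ → ℝ) : 0 ≤ NN n f :=
  Finset.sum_nonneg fun _ _ => mul_nonneg (Nat.cast_nonneg _) (abs_nonneg _)

lemma AA_I (τ : ℝ) : AA (τ * Complex.I) =
    ((Real.cosh τ : ℝ) : ℂ) + ((Real.sinh τ : ℝ) : ℂ) * Complex.I := by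
  unfold AA
  rw [Complex.cos_mul_I, Complex.sin_mul_I, Complex.ofReal_cosh, Complex.ofReal_sinh]

lemma BB_I (τ : ℝ) : BB (τ * Complex.I) =
    ((Real.cosh τ : ℝ) : ℂ) - ((Real.sinh τ : ℝ) : ℂ) * Complex.I := by
  unfold BB
  rw [Complex.cos_mul_I, Complex.sin_mul_I, Complex.ofReal_cosh, Complex.ofReal_sinh]

lemma exists_tau (θ : ℝ) (hθ : 0 < Real.cos θ) :
    ∃ τ : ℝ, Real.cosh (2 * τ) * Real.cos θ = 1 ∧
      Real.sinh (2 * τ) * Real.cos θ = -Real.sin θ := by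
  refine ⟨-(1 / 2) * Real.arsinh (Real.tan θ), ?_⟩
  have e : 2 * (-(1 / 2) * Real.arsinh (Real.tan θ)) = -Real.arsinh (Real.tan θ) := by ring
  rw [e, Real.cosh_neg, Real.sinh_neg, Real.sinh_arsinh]
  have ht : Real.tan θ * Real.cos θ = Real.sin θ := Real.tan_mul_cos hθ.ne'
  constructor
  · have h1 := Real.cosh_sq (Real.arsinh (Real.tan θ))
    rw [Real.sinh_arsinh] at h1
    have h2 : (Real.cosh (Real.arsinh (Real.tan θ)) * Real.cos θ) ^ 2 = 1 := by
      rw [mul_pow, h1, add_mul, ← mul_pow, ht, one_mul]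
      exact Real.sin_sq_add_cos_sq θ
    have h3 : 0 ≤ Real.cosh (Real.arsinh (Real.tan θ)) * Real.cos θ :=
      mul_nonneg (Real.cosh_pos _).le hθ.le
    nlinarith
  · rw [neg_mul, ht]

lemma BB_eq {θ τ : ℝ} (h1 : Real.cosh (2 * τ) * Real.cos θ = 1)
    (h2 : Real.sinh (2 * τ) * Real.cos θ = -Real.sin θ) :
    BB (τ * Complex.I) = Complex.exp (θ * Complex.I) * AA (τ * Complex.I) := by
  rw [AA_I, BB_I]
  obtain ⟨c, hc⟩ : ∃ c, c = Real.cosh τ := ⟨_, rfl⟩
  obtain ⟨s, hs⟩ : ∃ s, s = Real.sinh τ := ⟨_, rfl⟩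
  rw [Real.cosh_two_mul, ← hc, ← hs] at h1
  rw [Real.sinh_two_mul, ← hc, ← hs] at h2
  have h3 : c ^ 2 = s ^ 2 + 1 := by rw [hc, hs]; exact Real.cosh_sq τ
  rw [← hc, ← hs]
  have hc0 : 0 < c := by rw [hc]; exact Real.cosh_pos τ
  have e1 : c = c * Real.cos θ - s * Real.sin θ := by
    have : c * (c - (c * Real.cos θ - s * Real.sin θ)) = 0 := by
      have hsin : Real.sin θ = -(2 * s * c * Real.cos θ) := by linarith
      rw [hsin]
      have hcos : (2 * s ^ 2 + 1) * Real.cos θ = 1 := by rw [h3] at h1; linarith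
      have h4 : c * (c - (c * Real.cos θ - s * -(2 * s * c * Real.cos θ))) =
          c ^ 2 * (1 - (2 * s ^ 2 + 1) * Real.cos θ) := by ring
      rw [h4, hcos]
      ring
    rcases mul_eq_zero.1 this with h | h
    · exact absurd h hc0.ne'
    · linarith
  have e2 : -s = c * Real.sin θ + s * Real.cos θ := by
    have hsin : Real.sin θ = -(2 * s * c * Real.cos θ) := by linarith
    rw [hsin]
    have hcos : (2 * s ^ 2 + 1) * Real.cos θ = 1 := by rw [h3] at h1; linarith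
    have h4 : c * -(2 * s * c * Real.cos θ) + s * Real.cos θ =
        -s * (2 * c ^ 2 - 1) * Real.cos θ := by ring
    rw [h4, h3]
    have h5 : -s * (2 * (s ^ 2 + 1) - 1) * Real.cos θ = -s * ((2 * s ^ 2 + 1) * Real.cos θ) := by
      ring
    rw [h5, hcos, mul_one]
  have e3 : Complex.exp (θ * Complex.I) =
      ((Real.cos θ : ℝ) : ℂ) + ((Real.sin θ : ℝ) : ℂ) * Complex.I := by
    rw [Complex.exp_mul_I, Complex.ofReal_cos, Complex.ofReal_sin]
  rw [e3]
  have e1' : (c : ℂ) = c * (Real.cos θ : ℝ) - s * (Real.sin θ : ℝ) := by exact_mod_cast e1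
  have e2' : -(s : ℂ) = c * (Real.sin θ : ℝ) + s * (Real.cos θ : ℝ) := by exact_mod_cast e2
  linear_combination e1' + Complex.I * e2' -
    (s : ℂ) * ((Real.sin θ : ℝ) : ℂ) * Complex.I_sq

lemma QQ_eq {n w : ℕ} (hw : w ≤ n) {θ τ : ℝ} (h1 : Real.cosh (2 * τ) * Real.cos θ = 1)
    (h2 : Real.sinh (2 * τ) * Real.cos θ = -Real.sin θ) :
    QQ n w (τ * Complex.I) = QQ n 0 (τ * Complex.I) * Complex.exp ((θ * w : ℝ) * Complex.I) := by
  unfold QQ
  rw [BB_eq h1 h2, mul_pow, ← Complex.exp_nat_mul, pow_zero, mul_one, Nat.sub_zero]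
  have e : (w : ℂ) * (θ * Complex.I) = ((θ * w : ℝ) : ℂ) * Complex.I := by push_cast; ring
  rw [e]
  have e2 : AA (τ * Complex.I) ^ n = AA (τ * Complex.I) ^ (n - w) * AA (τ * Complex.I) ^ w := by
    rw [← pow_add, Nat.sub_add_cancel hw]
  rw [e2]
  ring

/-- the first case -/
lemma case1 (hq : S_qq) (h1 : S_left) (h2 : S_right) (h3 : S_dual) (η Δ ε₂ : ℝ) (hη : η ≤ 0)
    (hη1 : -1 ≤ η) (hΔ : 0 < Δ) (hε : 0 < ε₂) (t0 : ℝ) (ht0 : 0 < t0) (ht1 : t0 ≤ 1) :
    ∃ n₀ : ℕ, ∀ n : ℕ, n₀ ≤ n → ∀ θ : ℝ, t0 ≤ Real.cos θ → ∃ u : ℕ → ℂ,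
    (∀ w : ℕ, w ≤ n → η + Δ ≤ bb n w →
      ‖u w - Complex.exp ((θ * w : ℝ) * Complex.I)‖ ≤ 1 / (4 * ((n : ℝ) + 1))) ∧
    (∀ w : ℕ, w ≤ n → ‖u w‖ ≤ Real.exp (ε₂ * n)) ∧
    (∀ f : ℕ → ℝ, ‖∑ w ∈ Finset.range (n + 1), (n.choose w : ℂ) * u w * (f w : ℂ)‖ ≤
      Real.exp (ε₂ * n) * Real.exp (-(η * Real.pi / 4) * n) * NN n f) := by
  have hη' : |η| ≤ 1 := abs_le.2 ⟨hη1, by linarith⟩
  obtain ⟨ε₁, hε₁, n₁, hn₁⟩ := h1 ε₂ η (Δ * t0) hε hη' (by positivity)
  obtain ⟨n₂, hn₂⟩ := h2 ε₂ ε₂ hε hε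
  obtain ⟨n₃, hn₃⟩ := h3 ε₂ hε
  obtain ⟨n₄, hn₄⟩ := large ε₁ hε₁
  refine ⟨max (max n₁ n₂) (max n₃ n₄), fun n hn θ hθ => ?_⟩
  have k1 : n₁ ≤ n := ((le_max_left _ _).trans (le_max_left _ _)).trans hn
  have k2 : n₂ ≤ n := ((le_max_right _ _).trans (le_max_left _ _)).trans hn
  have k3 : n₃ ≤ n := ((le_max_left _ _).trans (le_max_right _ _)).trans hn
  have k4 : n₄ ≤ n := ((le_max_right _ _).trans (le_max_right _ _)).trans hn
  have hcos : 0 < Real.cos θ := ht0.trans_le hθ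
  obtain ⟨τ, hτ1, hτ2⟩ := exists_tau θ hcos
  obtain ⟨c, hc⟩ : ∃ c, c = QQ n 0 (τ * Complex.I) := ⟨_, rfl⟩
  have hcn : ‖c‖ = 1 := by rw [hc]; exact (hq n 0 (Nat.zero_le n)).2.1 τ
  have hc0 : c ≠ 0 := by
    intro h
    rw [h, norm_zero] at hcn
    exact zero_ne_one hcn
  have hci : ‖c⁻¹‖ = 1 := by rw [norm_inv, hcn, inv_one]
  refine ⟨fun w => c⁻¹ * vv n w ε₂ η τ, fun w hw hb => ?_, fun w hw => ?_, fun f => ?_⟩
  · have hcosh : bb n w / Real.cosh (2 * τ) = bb n w * Real.cos θ := by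
      rw [div_eq_iff (Real.cosh_pos _).ne', mul_assoc, mul_comm (Real.cos θ), hτ1, mul_one]
    have hb2 : η + Δ * t0 ≤ bb n w / Real.cosh (2 * τ) := by
      rw [hcosh]
      have hc1 := Real.cos_le_one θ
      rcases le_or_gt 0 (bb n w) with h | h
      · have h4 : bb n w * t0 ≤ bb n w * Real.cos θ := mul_le_mul_of_nonneg_left hθ h
        have h5 : (η + Δ) * t0 ≤ bb n w * t0 := mul_le_mul_of_nonneg_right hb ht0.le
        nlinarith
      · have h4 : bb n w ≤ bb n w * Real.cos θ := by nlinarith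
        nlinarith
    have h5 := hn₁ n w k1 hw τ hb2
    have h6 : c⁻¹ * vv n w ε₂ η τ - Complex.exp ((θ * w : ℝ) * Complex.I) =
        c⁻¹ * (vv n w ε₂ η τ - QQ n w (τ * Complex.I)) := by
      rw [QQ_eq hw hτ1 hτ2, ← hc, mul_sub, inv_mul_cancel_left₀ hc0]
    rw [h6, norm_mul, hci, one_mul]
    exact h5.trans (hn₄ n k4)
  · rw [norm_mul, hci, one_mul]
    exact hn₂ n w k2 hw τ η hη'
  · have h5 := hn₃ n k3 η τ f
    have h6 : ∑ w ∈ Finset.range (n + 1), (n.choose w : ℂ) * (c⁻¹ * vv n w ε₂ η τ) * (f w : ℂ) =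
        c⁻¹ * ∑ w ∈ Finset.range (n + 1), (n.choose w : ℂ) * vv n w ε₂ η τ * (f w : ℂ) := by
      rw [Finset.mul_sum]
      exact Finset.sum_congr rfl fun w _ => by ring
    rw [h6, norm_mul, hci, one_mul]
    refine h5.trans (mul_le_mul_of_nonneg_right ?_ (NN_nonneg n f))
    rw [← Real.exp_add, Real.exp_le_exp]
    have hπ : Real.pi ^ 2 ≤ 16 := by
      have := Real.pi_le_four
      have := Real.pi_pos
      nlinarith
    have hn0 : (0 : ℝ) ≤ n := Nat.cast_nonneg n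
    have h7 : (n : ℝ) * (ε₂ * Real.pi ^ 2 / 16) ≤ ε₂ * n := by
      have : (n : ℝ) * (ε₂ * Real.pi ^ 2 / 16) = (ε₂ * n) * (Real.pi ^ 2 / 16) := by ring
      rw [this]
      exact mul_le_of_le_one_right (by positivity) (by linarith)
    nlinarith

theorem fam (hk : S_kra) (hl : S_lam) (hq : S_qq) (h1 : S_left) (h2 : S_right) (h3 : S_dual) :
    S_fam := by
  intro η Δ ε₂ hη hη1 hΔ hε
  obtain ⟨t0, ht0⟩ : ∃ t0 : ℝ, t0 = min 1 ε₂ / 2 := ⟨_, rfl⟩
  have ht0' : 0 < t0 := by rw [ht0]; positivity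
  have ht1 : t0 ≤ 1 := by rw [ht0]; linarith [min_le_left 1 ε₂]
  have ht2 : t0 ≤ ε₂ := by rw [ht0]; linarith [min_le_right 1 ε₂]
  obtain ⟨n₀, hn₀⟩ := case1 hq h1 h2 h3 η Δ ε₂ hη hη1 hΔ hε t0 ht0' ht1
  refine ⟨n₀, fun n hn θ => ?_⟩
  rcases le_or_gt t0 (Real.cos θ) with hθ | hθ
  · exact hn₀ n hn θ hθ
  rcases le_or_gt (Real.cos θ) (-t0) with hθ' | hθ'
  · -- case 3
    obtain ⟨u, u1, u2, u3⟩ := hn₀ n hn (θ - Real.pi) (by rw [Real.cos_sub_pi]; linarith)
    have e1 : ∀ w : ℕ, Complex.exp ((θ * w : ℝ) * Complex.I) =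
        (-1) ^ w * Complex.exp (((θ - Real.pi) * w : ℝ) * Complex.I) := by
      intro w
      have h5 : ((θ * w : ℝ) : ℂ) * Complex.I =
          (w : ℂ) * ((Real.pi : ℂ) * Complex.I) + (((θ - Real.pi) * w : ℝ) : ℂ) * Complex.I := by
        push_cast; ring
      rw [h5, Complex.exp_add, Complex.exp_nat_mul, Complex.exp_pi_mul_I]
    have e2 : ∀ w : ℕ, ‖((-1 : ℂ)) ^ w‖ = 1 := fun w => by
      rw [norm_pow, norm_neg, norm_one, one_pow]
    refine ⟨fun w => (-1) ^ w * u w, fun w hw hb => ?_, fun w hw => ?_, fun f => ?_⟩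
    · rw [e1, ← mul_sub, norm_mul, e2, one_mul]
      exact u1 w hw hb
    · rw [norm_mul, e2, one_mul]
      exact u2 w hw
    · have h5 := u3 (fun w => (-1) ^ w * f w)
      rw [hk.2.2.2.2 n f] at h5
      refine le_trans (le_of_eq ?_) h5
      congr 1
      refine Finset.sum_congr rfl fun w _ => ?_
      push_cast
      ring
  · -- case 2
    have hcos : |Real.cos θ| ≤ t0 := abs_le.2 ⟨hθ'.le, hθ.le⟩
    have hn0 : (0 : ℝ) ≤ n := Nat.cast_nonneg n
    refine ⟨fun w => Complex.exp ((θ * w : ℝ) * Complex.I), fun w hw hb => ?_, fun w hw => ?_,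
      fun f => ?_⟩
    · rw [sub_self, norm_zero]; positivity
    · rw [Complex.norm_exp_ofReal_mul_I]
      exact Real.one_le_exp (by positivity)
    · have h5 := hk.1 n f 1 (Complex.exp (θ * Complex.I))
      have h6 : ∑ w ∈ Finset.range (n + 1),
          (n.choose w : ℂ) * (1 ^ (n - w) * Complex.exp (θ * Complex.I) ^ w) * (f w : ℂ) =
          ∑ w ∈ Finset.range (n + 1), (n.choose w : ℂ) *
            Complex.exp ((θ * w : ℝ) * Complex.I) * (f w : ℂ) := by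
        refine Finset.sum_congr rfl fun w _ => ?_
        rw [one_pow, one_mul, ← Complex.exp_nat_mul]
        have e : (w : ℂ) * (θ * Complex.I) = ((θ * w : ℝ) : ℂ) * Complex.I := by push_cast; ring
        rw [e]
      rw [h6] at h5
      rw [h5]
      -- the norms
      have key : ∀ (z : ℂ) (x : ℝ), ‖z‖ ^ 2 = 2 * (1 + x) → |x| ≤ t0 →
          ‖z / ((√2 : ℝ) : ℂ)‖ ≤ Real.exp (t0 / 2) := by
        intro z x hz hx
        rw [norm_div, Complex.norm_real, Real.norm_of_nonneg (Real.sqrt_nonneg 2)]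
        refine abs_le_of_sq_le_sq' ?_ (Real.exp_pos _).le |>.2
        rw [div_pow, Real.sq_sqrt (by norm_num), hz, ← Real.exp_nat_mul]
        have h7 : ((2 : ℕ) : ℝ) * (t0 / 2) = t0 := by push_cast; ring
        rw [h7]
        have h8 := Real.add_one_le_exp t0
        have h9 := (abs_le.1 hx).2
        linarith
      have hz1 : ‖1 + Complex.exp (θ * Complex.I)‖ ^ 2 = 2 * (1 + Real.cos θ) := by
        rw [← Complex.normSq_eq_norm_sq, Complex.normSq_apply]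
        simp only [Complex.add_re, Complex.one_re, Complex.add_im, Complex.one_im,
          Complex.exp_ofReal_mul_I_re, Complex.exp_ofReal_mul_I_im]
        have := Real.sin_sq_add_cos_sq θ
        nlinarith
      have hz2 : ‖1 - Complex.exp (θ * Complex.I)‖ ^ 2 = 2 * (1 + -Real.cos θ) := by
        rw [← Complex.normSq_eq_norm_sq, Complex.normSq_apply]
        simp only [Complex.sub_re, Complex.one_re, Complex.sub_im, Complex.one_im,
          Complex.exp_ofReal_mul_I_re, Complex.exp_ofReal_mul_I_im]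
        have := Real.sin_sq_add_cos_sq θ
        nlinarith
      have k1 := key _ _ hz1 hcos
      have k2 := key _ _ hz2 (by rw [abs_neg]; exact hcos)
      have hterm : ∀ j ∈ Finset.range (n + 1), ‖(n.choose j : ℂ) *
          (((1 + Complex.exp (θ * Complex.I)) / (√2 : ℝ)) ^ (n - j) *
            ((1 - Complex.exp (θ * Complex.I)) / (√2 : ℝ)) ^ j) * (tr n f j : ℂ)‖ ≤
          Real.exp (n * (t0 / 2)) * ((n.choose j : ℝ) * |tr n f j|) := by
        intro j hj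
        have hj' : j ≤ n := Nat.lt_succ_iff.1 (Finset.mem_range.1 hj)
        rw [norm_mul, norm_mul, norm_mul, norm_pow, norm_pow, Complex.norm_real,
          Complex.norm_natCast, Real.norm_eq_abs]
        have h7 : ‖(1 + Complex.exp (θ * Complex.I)) / ((√2 : ℝ) : ℂ)‖ ^ (n - j) *
            ‖(1 - Complex.exp (θ * Complex.I)) / ((√2 : ℝ) : ℂ)‖ ^ j ≤
            Real.exp (n * (t0 / 2)) := by
          calc _ ≤ Real.exp (t0 / 2) ^ (n - j) * Real.exp (t0 / 2) ^ j :=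
                mul_le_mul (pow_le_pow_left₀ (norm_nonneg _) k1 _)
                  (pow_le_pow_left₀ (norm_nonneg _) k2 _) (by positivity) (by positivity)
            _ = Real.exp (n * (t0 / 2)) := by
                rw [← pow_add, Nat.sub_add_cancel hj', ← Real.exp_nat_mul]
        calc (n.choose j : ℝ) * (‖(1 + Complex.exp (θ * Complex.I)) / ((√2 : ℝ) : ℂ)‖ ^ (n - j) *
            ‖(1 - Complex.exp (θ * Complex.I)) / ((√2 : ℝ) : ℂ)‖ ^ j) * |tr n f j|
            ≤ (n.choose j : ℝ) * Real.exp (n * (t0 / 2)) * |tr n f j| :=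
              mul_le_mul_of_nonneg_right (mul_le_mul_of_nonneg_left h7 (Nat.cast_nonneg _))
                (abs_nonneg _)
          _ = _ := by ring
      refine (norm_sum_le _ _).trans ((Finset.sum_le_sum hterm).trans ?_)
      rw [← Finset.mul_sum]
      refine mul_le_mul_of_nonneg_right ?_ (NN_nonneg n f)
      rw [← Real.exp_add, Real.exp_le_exp]
      have hπ := Real.pi_pos
      have h8 : 0 ≤ -(η * Real.pi / 4) * n := by
        have : 0 ≤ -η * Real.pi / 4 := by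
          have : 0 ≤ -η := by linarith
          positivity
        have h9 : -(η * Real.pi / 4) = -η * Real.pi / 4 := by ring
        rw [h9]
        positivity
      have h10 : (n : ℝ) * (t0 / 2) ≤ ε₂ * n := by nlinarith
      linarith

end Pool.Agent.TH41.BL.FAMf
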