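import Mathlib
import Pool.Agent.TH41.BL.Stm2
import Pool.Agent.TH41.BL.FAM

/-!
Project BL2: approximate extensions of the exponentials.
-/

set_option autoImplicit false

open MeasureTheory Filter Topology

namespace Pool.Agent.TH41.BL.FMMf

open Pool.Agent.TH41.BL Pool.Agent.TH41.BL.FAMf

lemma acosh_lt {F : Fm} {T a0 ε' : ℝ} (ha : 0 < a0) (hcosh : Real.cosh (2 * T) = 1 / a0)
    (hA : Adm F a0 ε') : ∀ i, F.a i * Real.cosh (2 * T) < 1 := by
  intro i
  rw [hcosh, mul_one_div, div_lt_one ha]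
  exact hA.h1 i

lemma QM_norm (hq : S_qq) (hr : S_rr) {F : Fm} {T : ℝ} (hF : ∀ i, F.a i * Real.cosh (2 * T) < 1)
    (n : ℕ) {τ : ℝ} (hτ : |τ| ≤ T) : ‖QM F n 0 (τ * Complex.I)‖ = 1 := by
  unfold QM
  rw [norm_mul, (hq n 0 (Nat.zero_le n)).2.1 τ, one_mul, Complex.norm_exp]
  have h1 : ((n : ℂ) * F.P (τ * Complex.I)).re = 0 := by
    have h2 : (F.P (τ * Complex.I)).re = 0 := by
      unfold Fm.P
      rw [Complex.re_sum]
      refine Finset.sum_eq_zero fun i _ => ?_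
      rw [Complex.re_ofReal_mul]
      have h3 : F.a i * Real.cosh (2 * τ) < 1 := by
        refine lt_of_le_of_lt ?_ (hF i)
        refine mul_le_mul_of_nonneg_left ?_ (F.a_nn i)
        rw [Real.cosh_le_cosh, abs_mul, abs_mul]
        refine mul_le_mul_of_nonneg_left (hτ.trans (le_abs_self _)) (abs_nonneg _)
      rw [hr.2.2.1 (F.a i) τ (F.a_nn i) h3, mul_zero]
    have h4 : ((n : ℂ) * F.P (τ * Complex.I)).re = (n : ℝ) * (F.P (τ * Complex.I)).re := by
      rw [← Complex.ofReal_natCast, Complex.re_ofReal_mul]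
    rw [h4, h2, mul_zero]
  rw [h1, Real.exp_zero]

lemma QM_eq (F : Fm) {n w : ℕ} (hw : w ≤ n) {θ τ : ℝ} (h1 : Real.cosh (2 * τ) * Real.cos θ = 1)
    (h2 : Real.sinh (2 * τ) * Real.cos θ = -Real.sin θ) :
    QM F n w (τ * Complex.I) =
      QM F n 0 (τ * Complex.I) * Complex.exp ((θ * w : ℝ) * Complex.I) := by
  unfold QM
  rw [QQ_eq hw h1 h2]
  ring

/-- the first case -/
lemma case1 (hq : S_qq) (hr : S_rr) (h1 : S_leftM) (h2 : S_rightM) (h3 : S_dualM)
    (F : Fm) (T a0 ε' : ℝ) (hT : 0 < T) (ha : 0 < a0) (ha1 : a0 < 1)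
    (hcosh : Real.cosh (2 * T) = 1 / a0) (hA : Adm F a0 ε') (hε' : 0 < ε')
    (Δ ε₂ ϑ : ℝ) (hΔ : 0 < Δ) (hε₂ : 0 < ε₂) (hϑ : 0 < ϑ) (hϑT : ϑ < T) :
    ∃ n₀ : ℕ, ∀ n : ℕ, n₀ ≤ n → ∀ θ : ℝ, 0 < Real.cos θ →
      1 ≤ Real.cosh (2 * (T - ϑ)) * Real.cos θ → ∃ u : ℕ → ℂ,
    (∀ w : ℕ, w ≤ n → Δ ≤ bM F n w →
      ‖u w - Complex.exp ((θ * w : ℝ) * Complex.I)‖ ≤ 1 / (4 * ((n : ℝ) + 1))) ∧
    (∀ w : ℕ, w ≤ n → ‖u w‖ ≤ Real.exp (ε₂ * n)) ∧
    (∀ f : ℕ → ℝ, ‖∑ w ∈ Finset.range (n + 1), (n.choose w : ℂ) * u w * (f w : ℂ)‖ ≤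
      Real.exp (n * (mu a0 + 6 * ε')) * NN n f) := by
  have hF := acosh_lt ha hcosh hA
  obtain ⟨c₁, hc₁, H1⟩ := h1 F T hT hF ε' 0 (Δ * a0) ϑ hε' (by norm_num) (by positivity) hϑ
  obtain ⟨c₂, hc₂, H2⟩ := h2 F T hT hF ε' ε₂ hε' hε₂
  obtain ⟨c₃, hc₃, H3⟩ := h3 F T a0 ε' ε' hT ha ha1 hcosh hA hε' le_rfl
  obtain ⟨c, hc⟩ : ∃ c, c = min c₁ (min c₂ c₃) := ⟨_, rfl⟩
  have hc0 : 0 < c := by rw [hc]; exact lt_min hc₁ (lt_min hc₂ hc₃)
  have hcc1 : c ≤ c₁ := by rw [hc]; exact min_le_left _ _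
  have hcc2 : c ≤ c₂ := by rw [hc]; exact (min_le_right _ _).trans (min_le_left _ _)
  have hcc3 : c ≤ c₃ := by rw [hc]; exact (min_le_right _ _).trans (min_le_right _ _)
  obtain ⟨ε₁, hε₁, n₁, hn₁⟩ := H1 c hc0 hcc1
  obtain ⟨n₂, hn₂⟩ := H2 c hc0 hcc2
  obtain ⟨n₃, hn₃⟩ := H3 c hc0 hcc3
  obtain ⟨n₄, hn₄⟩ := large ε₁ hε₁
  refine ⟨max (max n₁ n₂) (max n₃ n₄), fun n hn θ hcos hθ => ?_⟩
  have k1 : n₁ ≤ n := ((le_max_left _ _).trans (le_max_left _ _)).trans hn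
  have k2 : n₂ ≤ n := ((le_max_right _ _).trans (le_max_left _ _)).trans hn
  have k3 : n₃ ≤ n := ((le_max_left _ _).trans (le_max_right _ _)).trans hn
  have k4 : n₄ ≤ n := ((le_max_right _ _).trans (le_max_right _ _)).trans hn
  obtain ⟨τ, hτ1, hτ2⟩ := exists_tau θ hcos
  have hτc : Real.cosh (2 * τ) ≤ Real.cosh (2 * (T - ϑ)) := by
    by_contra hcon
    push Not at hcon
    have : Real.cosh (2 * (T - ϑ)) * Real.cos θ < Real.cosh (2 * τ) * Real.cos θ :=
      mul_lt_mul_of_pos_right hcon hcos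
    linarith
  have hτ : |τ| ≤ T - ϑ := by
    rw [Real.cosh_le_cosh, abs_mul, abs_mul, abs_of_nonneg (show (0 : ℝ) ≤ T - ϑ by linarith)]
      at hτc
    have : (0 : ℝ) < |2| := by norm_num
    exact le_of_mul_le_mul_left hτc this
  have hτT : |τ| ≤ T := by linarith
  have hτcT : Real.cosh (2 * τ) ≤ 1 / a0 := by
    rw [← hcosh, Real.cosh_le_cosh, abs_mul, abs_mul]
    exact mul_le_mul_of_nonneg_left (hτT.trans (le_abs_self _)) (abs_nonneg _)
  obtain ⟨q, hqd⟩ : ∃ q, q = QM F n 0 (τ * Complex.I) := ⟨_, rfl⟩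
  have hcn : ‖q‖ = 1 := by rw [hqd]; exact QM_norm hq hr hF n hτT
  have hq0 : q ≠ 0 := by
    intro h
    rw [h, norm_zero] at hcn
    exact zero_ne_one hcn
  have hqi : ‖q⁻¹‖ = 1 := by rw [norm_inv, hcn, inv_one]
  refine ⟨fun w => q⁻¹ * vM F T n w ε' 0 c τ, fun w hw hb => ?_, fun w hw => ?_, fun f => ?_⟩
  · have hb2 : 0 + Δ * a0 ≤ bM F n w / Real.cosh (2 * τ) := by
      rw [zero_add, le_div_iff₀ (Real.cosh_pos _)]
      have h5 : Δ * a0 * Real.cosh (2 * τ) ≤ Δ * a0 * (1 / a0) :=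
        mul_le_mul_of_nonneg_left hτcT (by positivity)
      have h6 : Δ * a0 * (1 / a0) = Δ := by field_simp
      linarith
    have h5 := hn₁ n w k1 hw τ hτ hb2
    have h6 : q⁻¹ * vM F T n w ε' 0 c τ - Complex.exp ((θ * w : ℝ) * Complex.I) =
        q⁻¹ * (vM F T n w ε' 0 c τ - QM F n w (τ * Complex.I)) := by
      rw [QM_eq F hw hτ1 hτ2, ← hqd, mul_sub, inv_mul_cancel_left₀ hq0]
    rw [h6, norm_mul, hqi, one_mul]
    exact h5.trans (hn₄ n k4)
  · rw [norm_mul, hqi, one_mul]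
    exact hn₂ n w k2 hw τ 0 hτT (by norm_num)
  · have h5 := hn₃ n k3 0 τ f le_rfl hτT
    have h6 : ∑ w ∈ Finset.range (n + 1),
        (n.choose w : ℂ) * (q⁻¹ * vM F T n w ε' 0 c τ) * (f w : ℂ) =
        q⁻¹ * ∑ w ∈ Finset.range (n + 1),
          (n.choose w : ℂ) * vM F T n w ε' 0 c τ * (f w : ℂ) := by
      rw [Finset.mul_sum]
      exact Finset.sum_congr rfl fun w _ => by ring
    rw [h6, norm_mul, hqi, one_mul]
    refine h5.trans (mul_le_mul_of_nonneg_right ?_ (NN_nonneg n f))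
    rw [Real.exp_le_exp]
    exact mul_le_mul_of_nonneg_left (by linarith) (Nat.cast_nonneg n)

theorem famM (hk : S_kra) (_hl : S_lam) (hq : S_qq) (hr : S_rr) (h1 : S_leftM) (h2 : S_rightM)
    (h3 : S_dualM) : S_famM := by
  intro F T a0 ε' hT ha ha1 hcosh hA hε' Δ ε₂ hΔ hε₂
  -- choice of `ϑ`
  obtain ⟨ϑ, hϑ, hϑT, hϑa⟩ : ∃ ϑ : ℝ, 0 < ϑ ∧ ϑ < T ∧
      1 / Real.cosh (2 * (T - ϑ)) < a0 + ε' := by
    have hcont : ContinuousAt (fun x : ℝ => 1 / Real.cosh (2 * (T - x))) 0 := by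
      refine ContinuousAt.div continuousAt_const ?_ (Real.cosh_pos _).ne'
      exact (Real.continuous_cosh.comp (by fun_prop)).continuousAt
    have h0 : (fun x : ℝ => 1 / Real.cosh (2 * (T - x))) 0 < a0 + ε' := by
      simp only [sub_zero]
      rw [hcosh, one_div_one_div]
      linarith
    have h5 : ∀ᶠ x in 𝓝 (0 : ℝ), 1 / Real.cosh (2 * (T - x)) < a0 + ε' :=
      hcont.eventually_lt continuousAt_const h0
    have h6 : ∀ᶠ x in 𝓝 (0 : ℝ), x < T := eventually_lt_nhds hT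
    have h7 := (h5.and h6).filter_mono (nhdsWithin_le_nhds (s := Set.Ioi (0 : ℝ)))
    have h8 : ∀ᶠ x in 𝓝[>] (0 : ℝ), 0 < x := eventually_mem_nhdsWithin
    obtain ⟨x, ⟨hx1, hx2⟩, hx3⟩ := (h7.and h8).exists
    exact ⟨x, hx3, hx2, hx1⟩
  obtain ⟨n₀, hn₀⟩ := case1 hq hr h1 h2 h3 F T a0 ε' hT ha ha1 hcosh hA hε' Δ ε₂ ϑ hΔ hε₂ hϑ hϑT
  refine ⟨n₀, fun n hn θ => ?_⟩
  obtain ⟨C, hC⟩ : ∃ C, C = Real.cosh (2 * (T - ϑ)) := ⟨_, rfl⟩
  have hC0 : 0 < C := by rw [hC]; exact Real.cosh_pos _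
  rw [← hC] at hn₀ hϑa
  rcases le_or_gt 1 (C * Real.cos θ) with hθ | hθ
  · refine hn₀ n hn θ ?_ hθ
    by_contra hcon
    push Not at hcon
    nlinarith
  rcases le_or_gt (C * Real.cos θ) (-1) with hθ' | hθ'
  · -- case 3
    obtain ⟨u, u1, u2, u3⟩ := hn₀ n hn (θ - Real.pi)
      (by
        rw [Real.cos_sub_pi]
        by_contra hcon
        push Not at hcon
        nlinarith)
      (by rw [Real.cos_sub_pi]; linarith)
    have e1 : ∀ w : ℕ, Complex.exp ((θ * w : ℝ) * Complex.I) =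
        (-1) ^ w * Complex.exp (((θ - Real.pi) * w : ℝ) * Complex.I) := by
      intro w
      have h5 : ((θ * w : ℝ) : ℂ) * Complex.I =
          (w : ℂ) * ((Real.pi : ℂ) * Complex.I) + (((θ - Real.pi) * w : ℝ) : ℂ) * Complex.I := by
        push_cast; ring
      rw [h5, Complex.exp_add, Complex.exp_nat_mul, Complex.exp_pi_mul_I]
    have e2 : ∀ w : ℕ, ‖((-1 : ℂ)) ^ w‖ = 1 := fun w => by
      rw [norm_pow, norm_neg, norm_one, one_pow]
    refine ⟨fun w => (-1) ^ w * u w, fun w hw hb => ?_, fun w hw => ?_, fun f => ?_⟩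
    · rw [e1, ← mul_sub, norm_mul, e2, one_mul]
      exact u1 w hw hb
    · rw [norm_mul, e2, one_mul]
      exact u2 w hw
    · have h5 := u3 (fun w => (-1) ^ w * f w)
      rw [hk.2.2.2.2 n f] at h5
      refine le_trans (le_of_eq ?_) h5
      congr 1
      refine Finset.sum_congr rfl fun w _ => ?_
      push_cast
      ring
  · -- case 2
    have hcos : |Real.cos θ| ≤ a0 + ε' := by
      have h5 : |Real.cos θ| ≤ 1 / C := by
        have h6 : |C * Real.cos θ| ≤ 1 := abs_le.2 ⟨hθ'.le, hθ.le⟩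
        rw [abs_mul, abs_of_pos hC0] at h6
        rw [le_div_iff₀ hC0, mul_comm]
        exact h6
      linarith
    have hn0 : (0 : ℝ) ≤ n := Nat.cast_nonneg n
    have hmu : 0 ≤ mu a0 := by
      unfold mu
      have := Real.log_nonneg (show (1 : ℝ) ≤ 1 + a0 by linarith)
      linarith
    refine ⟨fun w => Complex.exp ((θ * w : ℝ) * Complex.I), fun w hw hb => ?_, fun w hw => ?_,
      fun f => ?_⟩
    · rw [sub_self, norm_zero]; positivity
    · rw [Complex.norm_exp_ofReal_mul_I]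
      exact Real.one_le_exp (by positivity)
    · have h5 := hk.1 n f 1 (Complex.exp (θ * Complex.I))
      have h6 : ∑ w ∈ Finset.range (n + 1),
          (n.choose w : ℂ) * (1 ^ (n - w) * Complex.exp (θ * Complex.I) ^ w) * (f w : ℂ) =
          ∑ w ∈ Finset.range (n + 1), (n.choose w : ℂ) *
            Complex.exp ((θ * w : ℝ) * Complex.I) * (f w : ℂ) := by
        refine Finset.sum_congr rfl fun w _ => ?_
        rw [one_pow, one_mul, ← Complex.exp_nat_mul]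
        have e : (w : ℂ) * (θ * Complex.I) = ((θ * w : ℝ) : ℂ) * Complex.I := by push_cast; ring
        rw [e]
      rw [h6] at h5
      rw [h5]
      -- the norms
      have key : ∀ (z : ℂ) (x : ℝ), ‖z‖ ^ 2 = 2 * (1 + x) → |x| ≤ a0 + ε' →
          ‖z / ((√2 : ℝ) : ℂ)‖ ≤ Real.exp (mu a0 + ε') := by
        intro z x hz hx
        rw [norm_div, Complex.norm_real, Real.norm_of_nonneg (Real.sqrt_nonneg 2)]
        refine abs_le_of_sq_le_sq' ?_ (Real.exp_pos _).le |>.2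
        rw [div_pow, Real.sq_sqrt (by norm_num), hz, ← Real.exp_nat_mul]
        have h7 : ((2 : ℕ) : ℝ) * (mu a0 + ε') = Real.log (1 + a0) + 2 * ε' := by
          unfold mu; push_cast; ring
        rw [h7, Real.exp_add, Real.exp_log (by linarith)]
        have h8 := Real.add_one_le_exp (2 * ε')
        have h9 := (abs_le.1 hx).2
        have h10 : (1 + a0) * (2 * ε' + 1) ≤ (1 + a0) * Real.exp (2 * ε') :=
          mul_le_mul_of_nonneg_left h8 (by linarith)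
        have h11 : 0 ≤ a0 * ε' := by positivity
        nlinarith
      have hz1 : ‖1 + Complex.exp (θ * Complex.I)‖ ^ 2 = 2 * (1 + Real.cos θ) := by
        rw [← Complex.normSq_eq_norm_sq, Complex.normSq_apply]
        simp only [Complex.add_re, Complex.one_re, Complex.add_im, Complex.one_im,
          Complex.exp_ofReal_mul_I_re, Complex.exp_ofReal_mul_I_im]
        have := Real.sin_sq_add_cos_sq θ
        nlinarith
      have hz2 : ‖1 - Complex.exp (θ * Complex.I)‖ ^ 2 = 2 * (1 + -Real.cos θ) := by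
        rw [← Complex.normSq_eq_norm_sq, Complex.normSq_apply]
        simp only [Complex.sub_re, Complex.one_re, Complex.sub_im, Complex.one_im,
          Complex.exp_ofReal_mul_I_re, Complex.exp_ofReal_mul_I_im]
        have := Real.sin_sq_add_cos_sq θ
        nlinarith
      have k1 := key _ _ hz1 hcos
      have k2 := key _ _ hz2 (by rw [abs_neg]; exact hcos)
      have hterm : ∀ j ∈ Finset.range (n + 1), ‖(n.choose j : ℂ) *
          (((1 + Complex.exp (θ * Complex.I)) / (√2 : ℝ)) ^ (n - j) *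
            ((1 - Complex.exp (θ * Complex.I)) / (√2 : ℝ)) ^ j) * (tr n f j : ℂ)‖ ≤
          Real.exp (n * (mu a0 + ε')) * ((n.choose j : ℝ) * |tr n f j|) := by
        intro j hj
        have hj' : j ≤ n := Nat.lt_succ_iff.1 (Finset.mem_range.1 hj)
        rw [norm_mul, norm_mul, norm_mul, norm_pow, norm_pow, Complex.norm_real,
          Complex.norm_natCast, Real.norm_eq_abs]
        have h7 : ‖(1 + Complex.exp (θ * Complex.I)) / ((√2 : ℝ) : ℂ)‖ ^ (n - j) *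
            ‖(1 - Complex.exp (θ * Complex.I)) / ((√2 : ℝ) : ℂ)‖ ^ j ≤
            Real.exp (n * (mu a0 + ε')) := by
          calc _ ≤ Real.exp (mu a0 + ε') ^ (n - j) * Real.exp (mu a0 + ε') ^ j :=
                mul_le_mul (pow_le_pow_left₀ (norm_nonneg _) k1 _)
                  (pow_le_pow_left₀ (norm_nonneg _) k2 _) (by positivity) (by positivity)
            _ = Real.exp (n * (mu a0 + ε')) := by
                rw [← pow_add, Nat.sub_add_cancel hj', ← Real.exp_nat_mul]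
        calc (n.choose j : ℝ) * (‖(1 + Complex.exp (θ * Complex.I)) / ((√2 : ℝ) : ℂ)‖ ^ (n - j) *
            ‖(1 - Complex.exp (θ * Complex.I)) / ((√2 : ℝ) : ℂ)‖ ^ j) * |tr n f j|
            ≤ (n.choose j : ℝ) * Real.exp (n * (mu a0 + ε')) * |tr n f j| :=
              mul_le_mul_of_nonneg_right (mul_le_mul_of_nonneg_left h7 (Nat.cast_nonneg _))
                (abs_nonneg _)
          _ = _ := by ring
      refine (norm_sum_le _ _).trans ((Finset.sum_le_sum hterm).trans ?_)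
      rw [← Finset.mul_sum]
      refine mul_le_mul_of_nonneg_right ?_ (NN_nonneg n f)
      rw [Real.exp_le_exp]
      exact mul_le_mul_of_nonneg_left (by linarith) hn0

end Pool.Agent.TH41.BL.FMMf
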