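import Mathlib
import Pool.Agent.TH41.BL.Stm2

set_option autoImplicit false

open MeasureTheory Filter Topology

namespace Pool.Agent.TH41.BL.LOWf

open Pool.Agent.TH41.BL

theorem punc_iter (hp : S_punc) (n d : ℕ) (l : ℕ → ℝ) (hl : ∀ j, 0 ≤ l j)
    (hf : ∀ w : ℕ, d ≤ w → w ≤ n → ∑ j ∈ Finset.range (n + 1), l j * (kr n j w : ℝ) ≤ 0)
    (m : ℕ) : ∃ l' : ℕ → ℝ, (∀ j, 0 ≤ l' j) ∧ l' 0 = l 0 ∧
    (∀ w : ℕ, d + m ≤ w → w ≤ n + m →
      ∑ j ∈ Finset.range (n + m + 1), l' j * (kr (n + m) j w : ℝ) ≤ 0) ∧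
    ∑ j ∈ Finset.range (n + m + 1), l' j * (kr (n + m) j 0 : ℝ) =
      ∑ j ∈ Finset.range (n + 1), l j * (kr n j 0 : ℝ) := by
  induction m with
  | zero => exact ⟨l, hl, rfl, hf, rfl⟩
  | succ m ih =>
    obtain ⟨l', h1, h2, h3, h4⟩ := ih
    obtain ⟨l'', g1, g2, g3, g4⟩ := hp (n + m) (d + m) l' h1 h3
    exact ⟨l'', g1, g2.trans h2, g3, g4.trans h4⟩

theorem low (hs : S_fin) (hp : S_punc) (δ ε : ℝ) (hδ : δ ≤ 1 / 2 - 1 / Real.pi)
    (hε : 0 < ε) : ∃ n₀ : ℕ, ∀ n : ℕ, n₀ ≤ n → ∀ d : ℕ, (d : ℝ) ≤ δ * n → ∀ l : ℕ → ℝ,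
    (∀ j, 0 ≤ l j) →
    (∀ w : ℕ, d ≤ w → w ≤ n → ∑ j ∈ Finset.range (n + 1), l j * (kr n j w : ℝ) ≤ 0) →
    (2 : ℝ) ^ ((1 - δ) / (1 + 2 / Real.pi) * n) * Real.exp (-ε * n) * l 0 ≤
      ∑ j ∈ Finset.range (n + 1), l j * (kr n j 0 : ℝ) := by
  have hpi := Real.pi_pos
  have hpi3 := Real.pi_gt_three
  set δs := 1 / 2 - 1 / Real.pi with hδs
  have hδs1 : 1 - δs = (1 + 2 / Real.pi) / 2 := by rw [hδs]; field_simp; ring
  have hD : 0 < 1 - δs := by rw [hδs1]; positivity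
  have hδs0 : δs < 1 / 2 := by
    rw [hδs]
    have : 0 < 1 / Real.pi := by positivity
    linarith
  obtain ⟨N0, hN⟩ := hs δs (ε / 4) le_rfl hδs0 (by positivity)
  obtain ⟨n1, hn1⟩ := exists_nat_gt (2 * Real.log 2 / ε)
  refine ⟨max N0 n1, fun n hn d hd l hl hf => ?_⟩
  have hnN : N0 ≤ n := le_trans (le_max_left _ _) hn
  have hnn1 : n1 ≤ n := le_trans (le_max_right _ _) hn
  set x : ℝ := (δs * n - d) / (1 - δs) with hx
  have hn0 : (0 : ℝ) ≤ (n : ℝ) := Nat.cast_nonneg n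
  have hd1 : (d : ℝ) ≤ δs * n := hd.trans (mul_le_mul_of_nonneg_right hδ hn0)
  have hx0 : 0 ≤ x := div_nonneg (by linarith) hD.le
  set m := ⌊x⌋₊ with hm
  have hm1 : (m : ℝ) ≤ x := Nat.floor_le hx0
  have hm2 : x < (m : ℝ) + 1 := Nat.lt_floor_add_one x
  obtain ⟨l', h1, h2, h3, h4⟩ := punc_iter hp n d l hl hf m
  have hx' : x * (1 - δs) = δs * n - d := by rw [hx]; field_simp
  have hdm : ((d + m : ℕ) : ℝ) ≤ δs * ((n + m : ℕ) : ℝ) := by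
    push_cast
    have := mul_le_mul_of_nonneg_right hm1 hD.le
    rw [hx'] at this
    nlinarith
  have hmain := hN (n + m) (by omega) (d + m) hdm l' h1 h3
  rw [h2, h4] at hmain
  have e0 : (1 + (Real.pi * (1 - 2 * δs) / 2) ^ 2) = 2 := by
    rw [hδs]
    field_simp
    ring
  rw [e0] at hmain
  refine le_trans (mul_le_mul_of_nonneg_right ?_ (hl 0)) hmain
  rw [Real.rpow_def_of_pos (by norm_num), Real.rpow_def_of_pos (by norm_num), ← Real.exp_add,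
    ← Real.exp_add, Real.exp_le_exp]
  push_cast
  have hlog : 0 < Real.log 2 := Real.log_pos (by norm_num)
  have hd0 : (0 : ℝ) ≤ (d : ℝ) := Nat.cast_nonneg d
  -- n + m ≤ 2 n
  have hxn : x ≤ n := by
    rw [hx, div_le_iff₀ hD]
    nlinarith
  have hm3 : (m : ℝ) ≤ n := hm1.trans hxn
  -- n + x = (n - d) / (1 - δs)
  have hnx : (n : ℝ) + x = (n - d) / (1 - δs) := by
    rw [hx]
    field_simp
    ring
  have hfrac : (1 - δ) / (1 + 2 / Real.pi) * n ≤ (n + x) / 2 := by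
    rw [hnx]
    have e1 : (1 - δ) / (1 + 2 / Real.pi) * n = ((1 - δ) * n) / (1 - δs) / 2 := by
      rw [hδs1]
      field_simp
    rw [e1]
    apply div_le_div_of_nonneg_right _ (by norm_num)
    apply div_le_div_of_nonneg_right _ hD.le
    nlinarith
  have hnn2 : 2 * Real.log 2 / ε < n := lt_of_lt_of_le hn1 (by exact_mod_cast hnn1)
  have h5 : 2 * Real.log 2 < n * ε := by rwa [div_lt_iff₀ hε] at hnn2
  have h6 : Real.log 2 * ((1 - δ) / (1 + 2 / Real.pi) * n) ≤ Real.log 2 * ((n + x) / 2) :=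
    mul_le_mul_of_nonneg_left hfrac hlog.le
  have h7 : Real.log 2 * ((n + x) / 2) ≤ Real.log 2 * (((n + m) / 2) + 1 / 2) :=
    mul_le_mul_of_nonneg_left (by linarith) hlog.le
  nlinarith

end Pool.Agent.TH41.BL.LOWf
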