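import Mathlib
import Pool.Agent.TH41.BL.ASMA
import Pool.Agent.TH41.BL.FMM
import Pool.Agent.TH41.BL.LOW

set_option autoImplicit false

namespace Pool.Agent.TH41.BL

theorem h_famM : S_famM :=
  FMMf.famM KRAf.kra h_lam h_qq RRAf.rrS h_leftM h_rightM h_dualM
theorem h_nearM : S_nearM := NEMf.nearM h_famM
theorem h_mainM : S_mainM := MAMf.mainM KRAf.kra h_leftM h_transM h_dualM h_nearM
theorem h_fin : S_fin := FIMf.finM DISf.disc h_mainM
theorem h_punc : S_punc := PUNf.punc

end Pool.Agent.TH41.BL
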