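import Mathlib
import Pool.Agent.TH41.BL.Stm3

set_option autoImplicit false

open MeasureTheory Filter Topology

namespace Pool.Agent.TH41.BL.CO3f

open Pool.Agent.TH41.BL

/-- the middle part of the line `Re s = ρ` -/
theorem mid (F : ℂ → ℂ) (β ρ B B' : ℝ) (hβ : 0 < β) (hρ : 0 < ρ) (hB : 0 ≤ B)
    (hd : ∀ s : ℂ, 0 < s.re → |s.im| ≤ β → DifferentiableAt ℂ F s)
    (h1 : ∀ s : ℂ, ρ ≤ s.re → |s.im| ≤ β → ‖F s‖ ≤ B' * Real.exp (-s.re))
    (h2 : ∀ s : ℂ, ρ ≤ s.re → |s.im| = β → ‖F s‖ ≤ B * Real.exp (-s.re)) :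
    ‖∫ φ in (-β)..β, F (ρ + φ * Complex.I)‖ ≤ 2 * B := by
  have hR : ∀ R : ℝ, ρ ≤ R → ‖∫ φ in (-β)..β, F (ρ + φ * Complex.I)‖ ≤
      2 * B + 2 * β * (B' * Real.exp (-R)) := by
    intro R hR
    have hC := Complex.integral_boundary_rect_eq_zero_of_differentiableOn F
      ((ρ : ℂ) + ((-β : ℝ) : ℂ) * Complex.I) ((R : ℂ) + (β : ℂ) * Complex.I) (by
        intro s hs
        rw [Complex.mem_reProdIm] at hs
        obtain ⟨hs1, hs2⟩ := hs
        simp only [Complex.add_re, Complex.ofReal_re, Complex.mul_re, Complex.I_re, mul_zero,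
          Complex.ofReal_im, Complex.I_im, mul_one, sub_self, add_zero, Complex.add_im,
          Complex.mul_im, zero_add] at hs1 hs2
        rw [Set.uIcc_of_le hR] at hs1
        rw [Set.uIcc_of_le (by linarith)] at hs2
        refine (hd s (by linarith [hs1.1]) ?_).differentiableWithinAt
        rw [abs_le]
        exact hs2)
    simp only [Complex.add_re, Complex.ofReal_re, Complex.mul_re, Complex.I_re, mul_zero,
          Complex.ofReal_im, Complex.I_im, mul_one, sub_self, add_zero, Complex.add_im,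
          Complex.mul_im, zero_add] at hC
    have hexp : ∫ x in ρ..R, Real.exp (-x) = Real.exp (-ρ) - Real.exp (-R) := by
      simp
    have hle : Real.exp (-ρ) - Real.exp (-R) ≤ 1 := by
      have := Real.exp_le_one_iff.2 (by linarith : -ρ ≤ 0)
      have := Real.exp_pos (-R)
      linarith
    have hh : ∀ b : ℝ, |b| = β → ‖∫ x in ρ..R, F (x + b * Complex.I)‖ ≤ B := by
      intro b hb
      have h3 : ‖∫ x in ρ..R, F (x + b * Complex.I)‖ ≤ ∫ x in ρ..R, B * Real.exp (-x) := by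
        refine intervalIntegral.norm_integral_le_of_norm_le hR ?_ (by
          apply Continuous.intervalIntegrable
          fun_prop)
        refine ae_of_all _ fun x hx => ?_
        have := h2 (x + b * Complex.I) (by simpa using hx.1.le) (by simpa using hb)
        simpa using this
      rw [intervalIntegral.integral_const_mul, hexp] at h3
      calc _ ≤ _ := h3
        _ ≤ B * 1 := by gcongr
        _ = B := mul_one B
    have hv : ‖∫ y in (-β)..β, F (R + y * Complex.I)‖ ≤ 2 * β * (B' * Real.exp (-R)) := by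
      refine (intervalIntegral.norm_integral_le_of_norm_le_const
        (C := B' * Real.exp (-R)) ?_).trans ?_
      · intro y hy
        rw [Set.uIoc_of_le (by linarith)] at hy
        have := h1 (R + y * Complex.I) (by simpa using hR)
          (by simpa using abs_le.2 ⟨hy.1.le, hy.2⟩)
        simpa using this
      · rw [abs_of_nonneg (by linarith)]
        exact le_of_eq (by ring)
    have hm := hh (-β) (by rw [abs_neg, abs_of_pos hβ])
    have hp := hh β (abs_of_pos hβ)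
    have e1 : Complex.I • (∫ φ in (-β)..β, F (ρ + φ * Complex.I)) =
        (∫ x in ρ..R, F (x + ((-β : ℝ) : ℂ) * Complex.I)) - (∫ x in ρ..R, F (x + β * Complex.I)) +
          Complex.I • ∫ y in (-β)..β, F (R + y * Complex.I) := by
      rw [sub_eq_zero] at hC
      exact hC.symm
    have e2 : ‖∫ φ in (-β)..β, F (ρ + φ * Complex.I)‖ =
        ‖Complex.I • (∫ φ in (-β)..β, F (ρ + φ * Complex.I))‖ := by
      rw [norm_smul, Complex.norm_I, one_mul]
    rw [e2, e1]
    calc _ ≤ ‖(∫ x in ρ..R, F (x + ((-β : ℝ) : ℂ) * Complex.I)) -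
            (∫ x in ρ..R, F (x + β * Complex.I))‖ +
          ‖Complex.I • ∫ y in (-β)..β, F (R + y * Complex.I)‖ := norm_add_le _ _
      _ ≤ (‖(∫ x in ρ..R, F (x + ((-β : ℝ) : ℂ) * Complex.I))‖ +
            ‖(∫ x in ρ..R, F (x + β * Complex.I))‖) +
          ‖∫ y in (-β)..β, F (R + y * Complex.I)‖ := by
          gcongr
          · exact norm_sub_le _ _
          · rw [norm_smul, Complex.norm_I, one_mul]
      _ ≤ (B + B) + 2 * β * (B' * Real.exp (-R)) := by gcongr
      _ = _ := by ring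
  have hlim : Tendsto (fun R : ℝ => 2 * B + 2 * β * (B' * Real.exp (-R))) atTop
      (𝓝 (2 * B + 2 * β * (B' * 0))) := by
    refine tendsto_const_nhds.add (tendsto_const_nhds.mul (tendsto_const_nhds.mul ?_))
    exact Real.tendsto_exp_neg_atTop_nhds_zero
  have : ‖∫ φ in (-β)..β, F (ρ + φ * Complex.I)‖ ≤ 2 * B + 2 * β * (B' * 0) :=
    ge_of_tendsto hlim (by filter_upwards [eventually_ge_atTop ρ] with R h using hR R h)
  linarith

/-- the line `Re s = ρ` -/
theorem vert (F : ℂ → ℂ) (ϑ ρ B B' : ℝ) (hϑ : 0 < ϑ) (hϑ2 : ϑ < Real.pi / 2) (hρ : 0 < ρ)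
    (hB : 0 ≤ B)
    (hc : Continuous fun φ : ℝ => F (ρ + φ * Complex.I))
    (hd : ∀ s : ℂ, 0 < s.re → |s.im| < Real.pi / 2 → DifferentiableAt ℂ F s)
    (h1 : ∀ s : ℂ, ρ ≤ s.re → |s.im| ≤ Real.pi / 2 - ϑ → ‖F s‖ ≤ B' * Real.exp (-s.re))
    (h2 : ∀ s : ℂ, ρ ≤ s.re → |s.im| = Real.pi / 2 - ϑ → ‖F s‖ ≤ B * Real.exp (-s.re))
    (h3 : ∀ s : ℂ, s.re = ρ → Real.pi / 2 - ϑ ≤ |s.im| → |s.im| ≤ Real.pi / 2 → ‖F s‖ ≤ B) :
    ‖∫ φ in (-(Real.pi / 2))..(Real.pi / 2), F (ρ + φ * Complex.I)‖ ≤ 2 * ϑ * B + 2 * B := by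
  set β := Real.pi / 2 - ϑ with hβ
  have hβ0 : 0 < β := by rw [hβ]; linarith
  have hii : ∀ a b : ℝ, IntervalIntegrable (fun φ : ℝ => F (ρ + φ * Complex.I)) volume a b :=
    fun a b => hc.intervalIntegrable a b
  have hsplit : ∫ φ in (-(Real.pi / 2))..(Real.pi / 2), F (ρ + φ * Complex.I) =
      (∫ φ in (-(Real.pi / 2))..(-β), F (ρ + φ * Complex.I)) +
      (∫ φ in (-β)..β, F (ρ + φ * Complex.I)) +
      ∫ φ in β..(Real.pi / 2), F (ρ + φ * Complex.I) := by
    rw [intervalIntegral.integral_add_adjacent_intervals (hii _ _) (hii _ _),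
      intervalIntegral.integral_add_adjacent_intervals (hii _ _) (hii _ _)]
  have hm := mid F β ρ B B' hβ0 hρ hB (fun s hs hs2 => hd s hs (by linarith)) h1 h2
  have hl : ‖∫ φ in (-(Real.pi / 2))..(-β), F (ρ + φ * Complex.I)‖ ≤ ϑ * B := by
    refine (intervalIntegral.norm_integral_le_of_norm_le_const (C := B) ?_).trans ?_
    · intro φ hφ
      rw [Set.uIoc_of_le (by linarith)] at hφ
      refine h3 _ (by simp) ?_ ?_
      · have : |φ| = -φ := abs_of_neg (by linarith [hφ.2])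
        simp only [Complex.add_im, Complex.ofReal_im, Complex.mul_im, Complex.ofReal_re,
          Complex.I_im, mul_one, Complex.I_re, mul_zero, add_zero, zero_add, this]
        linarith [hφ.2]
      · have : |φ| = -φ := abs_of_neg (by linarith [hφ.2])
        simp only [Complex.add_im, Complex.ofReal_im, Complex.mul_im, Complex.ofReal_re,
          Complex.I_im, mul_one, Complex.I_re, mul_zero, add_zero, zero_add, this]
        linarith [hφ.1]
    · rw [abs_of_nonneg (by linarith), mul_comm]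
      refine mul_le_mul_of_nonneg_right ?_ hB
      rw [hβ]
      linarith
  have hr : ‖∫ φ in β..(Real.pi / 2), F (ρ + φ * Complex.I)‖ ≤ ϑ * B := by
    refine (intervalIntegral.norm_integral_le_of_norm_le_const (C := B) ?_).trans ?_
    · intro φ hφ
      rw [Set.uIoc_of_le (by linarith)] at hφ
      refine h3 _ (by simp) ?_ ?_
      · have : |φ| = φ := abs_of_pos (by linarith [hφ.1])
        simp only [Complex.add_im, Complex.ofReal_im, Complex.mul_im, Complex.ofReal_re,
          Complex.I_im, mul_one, Complex.I_re, mul_zero, add_zero, zero_add, this]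
        linarith [hφ.1]
      · have : |φ| = φ := abs_of_pos (by linarith [hφ.1])
        simp only [Complex.add_im, Complex.ofReal_im, Complex.mul_im, Complex.ofReal_re,
          Complex.I_im, mul_one, Complex.I_re, mul_zero, add_zero, zero_add, this]
        linarith [hφ.2]
    · rw [abs_of_nonneg (by linarith), mul_comm]
      refine mul_le_mul_of_nonneg_right ?_ hB
      rw [hβ]
      linarith
  rw [hsplit]
  calc _ ≤ ‖(∫ φ in (-(Real.pi / 2))..(-β), F (ρ + φ * Complex.I)) +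
        (∫ φ in (-β)..β, F (ρ + φ * Complex.I))‖ +
        ‖∫ φ in β..(Real.pi / 2), F (ρ + φ * Complex.I)‖ := norm_add_le _ _
    _ ≤ (‖∫ φ in (-(Real.pi / 2))..(-β), F (ρ + φ * Complex.I)‖ +
        ‖∫ φ in (-β)..β, F (ρ + φ * Complex.I)‖) +
        ‖∫ φ in β..(Real.pi / 2), F (ρ + φ * Complex.I)‖ := by
        gcongr
        exact norm_add_le _ _
    _ ≤ (ϑ * B + 2 * B) + ϑ * B := by gcongr
    _ = _ := by ring

theorem sinh_sq_le {x ρ : ℝ} (h0 : 0 ≤ x) (h : x ≤ ρ) : Real.sinh x ^ 2 ≤ Real.sinh ρ ^ 2 := by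
  have h1 : 0 ≤ Real.sinh x := Real.sinh_nonneg_iff.2 h0
  have h2 : Real.sinh x ≤ Real.sinh ρ := Real.sinh_le_sinh.2 h
  gcongr

/-- the rectangle between `Re s = c` and `Re s = ρ` -/
theorem rect (F : ℂ → ℂ) (c ρ : ℝ) (hc : 0 < c) (hcρ : c ≤ ρ)
    (hd : ∀ s : ℂ, 0 < s.re → s.re ≤ ρ → DifferentiableAt ℂ F s) :
    Complex.I * (∫ φ in (-(Real.pi / 2))..(Real.pi / 2), F (c + φ * Complex.I)) =
      (∫ x in c..ρ, F (x + ((-(Real.pi / 2) : ℝ) : ℂ) * Complex.I)) -
      (∫ x in c..ρ, F (x + ((Real.pi / 2 : ℝ) : ℂ) * Complex.I)) +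
      Complex.I * (∫ φ in (-(Real.pi / 2))..(Real.pi / 2), F (ρ + φ * Complex.I)) := by
  have hC := Complex.integral_boundary_rect_eq_zero_of_differentiableOn F
    ((c : ℂ) + ((-(Real.pi / 2) : ℝ) : ℂ) * Complex.I)
    ((ρ : ℂ) + ((Real.pi / 2 : ℝ) : ℂ) * Complex.I) (by
      intro s hs
      rw [Complex.mem_reProdIm] at hs
      obtain ⟨hs1, hs2⟩ := hs
      simp only [Complex.add_re, Complex.ofReal_re, Complex.mul_re, Complex.I_re, mul_zero,
        Complex.ofReal_im, Complex.I_im, mul_one, sub_self, add_zero] at hs1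
      rw [Set.uIcc_of_le hcρ] at hs1
      exact (hd s (by linarith [hs1.1]) hs1.2).differentiableWithinAt)
  simp only [Complex.add_re, Complex.ofReal_re, Complex.mul_re, Complex.I_re, mul_zero,
        Complex.ofReal_im, Complex.I_im, mul_one, sub_self, add_zero, Complex.add_im,
        Complex.mul_im, zero_add, smul_eq_mul] at hC
  rw [sub_eq_zero] at hC
  exact hC.symm

theorem cont : S3_cont := by
  intro E K m ϑ ρ B B' hm hϑ hϑ2 hρ hmρ hE hEp hK hKp h1 h2 h3 c hc hcρ
  have hpi := Real.pi_pos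
  have hdom : ∀ x : ℝ, 0 ≤ x → x ≤ ρ → m * Real.sinh x ^ 2 < 1 := by
    intro x hx0 hx
    have := sinh_sq_le hx0 hx
    nlinarith
  have hB : 0 ≤ B := by
    have := (h3 (ρ + (Real.pi / 2 : ℝ) * Complex.I) (by simp) (by
      simp only [Complex.add_im, Complex.ofReal_im, Complex.mul_im, Complex.ofReal_re,
          Complex.I_im, mul_one, Complex.I_re, mul_zero, add_zero, zero_add]
      rw [abs_of_pos (by positivity)]
      linarith) (by
      simp only [Complex.add_im, Complex.ofReal_im, Complex.mul_im, Complex.ofReal_re,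
          Complex.I_im, mul_one, Complex.I_re, mul_zero, add_zero, zero_add]
      rw [abs_of_pos (by positivity)])).1
    exact (norm_nonneg _).trans this
  set F1 : ℂ → ℂ := fun s => E s * K s with hF1
  set F2 : ℂ → ℂ := fun s => E s * K (s + Real.pi * Complex.I) with hF2
  have hKs : ∀ s : ℂ, 0 < s.re → DifferentiableAt ℂ (fun s => K (s + Real.pi * Complex.I)) s := by
    intro s hs
    have h := hK (s + Real.pi * Complex.I) (by simpa using hs)
    exact DifferentiableAt.comp s h (by fun_prop)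
  have hd1 : ∀ s : ℂ, 0 < s.re → s ∈ DN m → DifferentiableAt ℂ F1 s := fun s hs hs2 =>
    (hE s hs2).mul (hK s hs)
  have hd2 : ∀ s : ℂ, 0 < s.re → s ∈ DN m → DifferentiableAt ℂ F2 s := fun s hs hs2 =>
    (hE s hs2).mul (hKs s hs)
  have hmem1 : ∀ s : ℂ, 0 < s.re → s.re ≤ ρ → s ∈ DN m := fun s hs hs2 =>
    Or.inr (hdom s.re hs.le hs2)
  have hline : ∀ (F : ℂ → ℂ), (∀ s : ℂ, 0 < s.re → s ∈ DN m → DifferentiableAt ℂ F s) →
      ∀ x : ℝ, 0 < x → x ≤ ρ → Continuous fun φ : ℝ => F (x + φ * Complex.I) := by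
    intro F hF x hx0 hx
    rw [continuous_iff_continuousAt]
    intro φ
    have h := (hF (x + φ * Complex.I) (by simpa using hx0)
      (hmem1 _ (by simpa using hx0) (by simpa using hx))).continuousAt
    exact ContinuousAt.comp (f := fun φ : ℝ => (x : ℂ) + φ * Complex.I) h (by fun_prop)
  -- step 1
  have hper : Function.Periodic (fun φ : ℝ => F1 (c + φ * Complex.I)) (2 * Real.pi) := by
    intro φ
    simp only [hF1]
    have e1 : (c : ℂ) + ((φ + 2 * Real.pi : ℝ) : ℂ) * Complex.I =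
        (c + φ * Complex.I) + 2 * Real.pi * Complex.I := by push_cast; ring
    have e2 : (c : ℂ) + ((φ + 2 * Real.pi : ℝ) : ℂ) * Complex.I =
        ((c + φ * Complex.I) + Real.pi * Complex.I) + Real.pi * Complex.I := by push_cast; ring
    have e3 : E ((c : ℂ) + ((φ + 2 * Real.pi : ℝ) : ℂ) * Complex.I) = E (c + φ * Complex.I) := by
      rw [e2, hEp _ (by simpa using hdom c hc.le hcρ), hEp _ (by simpa using hdom c hc.le hcρ)]
    rw [e3, e1, hKp]
  have hstep1 : ∫ φ in (-Real.pi)..Real.pi, F1 (c + φ * Complex.I) =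
      (∫ φ in (-(Real.pi / 2))..(Real.pi / 2), F1 (c + φ * Complex.I)) +
      ∫ φ in (-(Real.pi / 2))..(Real.pi / 2), F2 (c + φ * Complex.I) := by
    have hcont := hline F1 hd1 c hc hcρ
    have g1 := hper.intervalIntegral_add_eq (-Real.pi) (-(Real.pi / 2))
    have a1 : -Real.pi + 2 * Real.pi = Real.pi := by ring
    have a2 : -(Real.pi / 2) + 2 * Real.pi = Real.pi / 2 + Real.pi := by ring
    rw [a1, a2] at g1
    rw [g1, ← intervalIntegral.integral_add_adjacent_intervals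
      (hcont.intervalIntegrable (-(Real.pi / 2)) (Real.pi / 2)) (hcont.intervalIntegrable _ _)]
    congr 1
    have g2 := intervalIntegral.integral_comp_add_right (a := -(Real.pi / 2)) (b := Real.pi / 2)
      (fun φ : ℝ => F1 (c + φ * Complex.I)) Real.pi
    have a3 : -(Real.pi / 2) + Real.pi = Real.pi / 2 := by ring
    rw [a3] at g2
    rw [← g2]
    refine intervalIntegral.integral_congr fun φ _ => ?_
    simp only [hF1, hF2]
    have e1 : (c : ℂ) + ((φ + Real.pi : ℝ) : ℂ) * Complex.I =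
        (c + φ * Complex.I) + Real.pi * Complex.I := by push_cast; ring
    rw [e1, hEp _ (by simpa using hdom c hc.le hcρ)]
  -- step 2
  have r1 := rect F1 c ρ hc hcρ (fun s hs hs2 => hd1 s hs (hmem1 s hs hs2))
  have r2 := rect F2 c ρ hc hcρ (fun s hs hs2 => hd2 s hs (hmem1 s hs hs2))
  have x1 : ∫ x in c..ρ, F2 (x + ((-(Real.pi / 2) : ℝ) : ℂ) * Complex.I) =
      ∫ x in c..ρ, F1 (x + ((Real.pi / 2 : ℝ) : ℂ) * Complex.I) := by
    refine intervalIntegral.integral_congr fun x hx => ?_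
    rw [Set.uIcc_of_le hcρ] at hx
    simp only [hF1, hF2]
    have e1 : (x : ℂ) + ((-(Real.pi / 2) : ℝ) : ℂ) * Complex.I + Real.pi * Complex.I =
        x + ((Real.pi / 2 : ℝ) : ℂ) * Complex.I := by push_cast; ring
    have e2 := hEp (x + ((-(Real.pi / 2) : ℝ) : ℂ) * Complex.I)
      (by simpa using hdom x (by linarith [hx.1]) hx.2)
    rw [e1] at e2 ⊢
    rw [e2]
  have x2 : ∫ x in c..ρ, F2 (x + ((Real.pi / 2 : ℝ) : ℂ) * Complex.I) =
      ∫ x in c..ρ, F1 (x + ((-(Real.pi / 2) : ℝ) : ℂ) * Complex.I) := by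
    refine intervalIntegral.integral_congr fun x hx => ?_
    rw [Set.uIcc_of_le hcρ] at hx
    simp only [hF1, hF2]
    have e1 : (x : ℂ) + ((-(Real.pi / 2) : ℝ) : ℂ) * Complex.I + Real.pi * Complex.I =
        x + ((Real.pi / 2 : ℝ) : ℂ) * Complex.I := by push_cast; ring
    have e2 := hEp (x + ((-(Real.pi / 2) : ℝ) : ℂ) * Complex.I)
      (by simpa using hdom x (by linarith [hx.1]) hx.2)
    have e3 : (x : ℂ) + ((Real.pi / 2 : ℝ) : ℂ) * Complex.I + Real.pi * Complex.I =
        (x + ((-(Real.pi / 2) : ℝ) : ℂ) * Complex.I) + 2 * Real.pi * Complex.I := by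
      push_cast; ring
    rw [e1] at e2
    rw [e2, e3, hKp]
  have hstep2 : (∫ φ in (-(Real.pi / 2))..(Real.pi / 2), F1 (c + φ * Complex.I)) +
      (∫ φ in (-(Real.pi / 2))..(Real.pi / 2), F2 (c + φ * Complex.I)) =
      (∫ φ in (-(Real.pi / 2))..(Real.pi / 2), F1 (ρ + φ * Complex.I)) +
      ∫ φ in (-(Real.pi / 2))..(Real.pi / 2), F2 (ρ + φ * Complex.I) := by
    rw [x1, x2] at r2
    apply mul_left_cancel₀ Complex.I_ne_zero
    rw [mul_add, mul_add, r1, r2]
    ring
  -- step 3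
  have v1 := vert F1 ϑ ρ B B' hϑ hϑ2 hρ hB (hline F1 hd1 ρ hρ le_rfl)
    (fun s hs hs2 => hd1 s hs (Or.inl hs2)) (fun s a b => (h1 s a b).1)
    (fun s a b => (h2 s a b).1) (fun s a b c => (h3 s a b c).1)
  have v2 := vert F2 ϑ ρ B B' hϑ hϑ2 hρ hB (hline F2 hd2 ρ hρ le_rfl)
    (fun s hs hs2 => hd2 s hs (Or.inl hs2)) (fun s a b => (h1 s a b).2)
    (fun s a b => (h2 s a b).2) (fun s a b c => (h3 s a b c).2)
  have : ‖∫ φ in (-Real.pi)..Real.pi, F1 (c + φ * Complex.I)‖ ≤ 16 * B := by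
    rw [hstep1, hstep2]
    have hpi4 : Real.pi ≤ 4 := Real.pi_le_four
    calc _ ≤ _ := norm_add_le _ _
      _ ≤ (2 * ϑ * B + 2 * B) + (2 * ϑ * B + 2 * B) := add_le_add v1 v2
      _ ≤ 16 * B := by nlinarith
  exact this

end Pool.Agent.TH41.BL.CO3f
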