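import Mathlib
import Pool.Agent.TH41.BL.Stm3

set_option autoImplicit false

open MeasureTheory Filter Topology

namespace Pool.Agent.TH41.BL.DB3f

open Pool.Agent.TH41.BL

/-! ### the principal square root -/

lemma sq_inv (z : ℂ) : 1 / sq z = Complex.exp (-(Complex.log z / 2)) := by
  unfold sq
  rw [Complex.exp_neg, one_div]

lemma inv_sq_re_nonneg (z : ℂ) : 0 ≤ (1 / sq z).re := by
  rw [sq_inv, Complex.exp_re]
  apply mul_nonneg (Real.exp_pos _).le
  have h1 : (-(Complex.log z / 2)).im = -(Complex.arg z / 2) := by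
    rw [Complex.neg_im, Complex.div_ofNat_im, Complex.log_im]
  rw [h1, Real.cos_neg]
  have h2 := Complex.neg_pi_lt_arg z
  have h3 := Complex.arg_le_pi z
  apply Real.cos_nonneg_of_neg_pi_div_two_le_of_le <;> linarith

lemma sq_re_nonneg (z : ℂ) : 0 ≤ (sq z).re := by
  unfold sq
  rw [Complex.exp_re]
  apply mul_nonneg (Real.exp_pos _).le
  have h1 : ((Complex.log z / 2)).im = (Complex.arg z / 2) := by
    rw [Complex.div_ofNat_im, Complex.log_im]
  rw [h1]
  have h2 := Complex.neg_pi_lt_arg z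
  have h3 := Complex.arg_le_pi z
  apply Real.cos_nonneg_of_neg_pi_div_two_le_of_le <;> linarith

lemma sq_pow_two {z : ℂ} (hz : z ≠ 0) : sq z ^ 2 = z := by
  unfold sq
  rw [← Complex.exp_nat_mul]
  have : ((2 : ℕ) : ℂ) * (Complex.log z / 2) = Complex.log z := by
    push_cast; ring
  rw [this, Complex.exp_log hz]

lemma inv_sq_close {η δ r : ℝ} {z : ℂ} (hη : 0 < η) (hr : η ≤ r) (hδ : δ ≤ η / 2)
    (hz : ‖z - (r : ℂ)‖ ≤ δ) : 1 / √r - 2 * δ / (η * √η) ≤ (1 / sq z).re := by
  have hr0 : 0 < r := lt_of_lt_of_le hη hr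
  have hq : 0 < √r := Real.sqrt_pos.2 hr0
  have hδ0 : 0 ≤ δ := (norm_nonneg _).trans hz
  have hnz : η / 2 ≤ ‖z‖ := by
    have h1 : ‖(r : ℂ)‖ ≤ ‖z‖ + ‖z - r‖ := by
      have := norm_sub_le z (z - r)
      simpa using this
    rw [Complex.norm_real, Real.norm_of_nonneg hr0.le] at h1
    linarith
  have hz0 : z ≠ 0 := by
    rintro rfl
    rw [norm_zero] at hnz
    linarith
  set w := sq z with hw
  set q : ℝ := √r with hqd
  have hw2 : w ^ 2 = z := sq_pow_two hz0
  have hq2 : (q : ℂ) ^ 2 = r := by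
    rw [← Complex.ofReal_pow, hqd, Real.sq_sqrt hr0.le]
  have hprod : (w - q) * (w + q) = z - r := by
    rw [← hw2, ← hq2]; ring
  have hwre : 0 ≤ w.re := sq_re_nonneg z
  have hplus : q ≤ ‖w + q‖ := by
    have h1 : (w + q).re ≤ ‖w + q‖ := Complex.re_le_norm _
    rw [Complex.add_re, Complex.ofReal_re] at h1
    linarith
  have hdiff : ‖w - q‖ * q ≤ δ := by
    calc ‖w - q‖ * q ≤ ‖w - q‖ * ‖w + q‖ := mul_le_mul_of_nonneg_left hplus (norm_nonneg _)
      _ = ‖z - r‖ := by rw [← norm_mul, hprod]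
      _ ≤ δ := hz
  have hsη : 0 < √η := Real.sqrt_pos.2 hη
  have hwn : √η / 2 ≤ ‖w‖ := by
    have h1 : ‖w‖ ^ 2 = ‖z‖ := by rw [← norm_pow, hw2]
    have h2 : (√η / 2) ^ 2 ≤ ‖w‖ ^ 2 := by
      rw [h1, div_pow, Real.sq_sqrt hη.le]
      linarith
    exact (sq_le_sq₀ (by positivity) (norm_nonneg _)).1 h2
  have hw0 : w ≠ 0 := by
    intro h
    rw [h, norm_zero] at hwn
    linarith
  have hq0 : (q : ℂ) ≠ 0 := by exact_mod_cast hq.ne'
  have hmain : ‖1 / (q : ℂ) - 1 / w‖ ≤ 2 * δ / (η * √η) := by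
    have h1 : 1 / (q : ℂ) - 1 / w = (w - q) / (q * w) := by
      field_simp
    rw [h1, norm_div, norm_mul, Complex.norm_real, Real.norm_of_nonneg hq.le]
    have hwpos : 0 < ‖w‖ := norm_pos_iff.2 hw0
    rw [div_le_div_iff₀ (mul_pos hq hwpos) (mul_pos hη hsη)]
    -- ‖w - q‖ * (η * √η) ≤ 2 * δ * (q * ‖w‖)
    have h2 : η ≤ q * q := by
      rw [hqd, Real.mul_self_sqrt hr0.le]; exact hr
    have h3 : √η ≤ 2 * ‖w‖ := by linarith
    calc ‖w - q‖ * (η * √η) ≤ ‖w - q‖ * ((q * q) * (2 * ‖w‖)) := by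
          apply mul_le_mul_of_nonneg_left _ (norm_nonneg _)
          exact mul_le_mul h2 h3 hsη.le (mul_self_nonneg q)
      _ = (‖w - q‖ * q) * (2 * (q * ‖w‖)) := by ring
      _ ≤ δ * (2 * (q * ‖w‖)) := by
          apply mul_le_mul_of_nonneg_right hdiff
          positivity
      _ = 2 * δ * (q * ‖w‖) := by ring
  have h4 : (1 / (q : ℂ) - 1 / w).re ≤ 2 * δ / (η * √η) := (Complex.re_le_norm _).trans hmain
  have h5 : (1 / (q : ℂ)).re = 1 / q := by
    rw [← Complex.ofReal_one, ← Complex.ofReal_div, Complex.ofReal_re]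
  rw [Complex.sub_re, h5] at h4
  linarith

/-! ### the square of `cosh` near the cut -/

lemma cosh_line (u β : ℝ) : Complex.cosh (u + β * Complex.I) =
    ((Real.cosh u * Real.cos β : ℝ) : ℂ) + ((Real.sinh u * Real.sin β : ℝ) : ℂ) * Complex.I := by
  rw [Complex.cosh_add, Complex.cosh_mul_I, Complex.sinh_mul_I]
  push_cast
  ring

lemma cosh_sq_line (u β : ℝ) : Complex.cosh (u + β * Complex.I) ^ 2 + ((Real.sinh u ^ 2 : ℝ) : ℂ) =
    ((Real.cos β * ((Real.cosh u ^ 2 + Real.sinh u ^ 2) * Real.cos β) : ℝ) : ℂ) +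
      ((Real.cos β * (2 * Real.cosh u * Real.sinh u * Real.sin β) : ℝ) : ℂ) * Complex.I := by
  rw [cosh_line]
  have h1 : (Real.sin β : ℂ) ^ 2 + (Real.cos β : ℂ) ^ 2 = 1 := by
    exact_mod_cast Real.sin_sq_add_cos_sq β
  simp only [Complex.ofReal_mul, Complex.ofReal_add, Complex.ofReal_pow, Complex.ofReal_ofNat]
  linear_combination ((Real.sinh u : ℂ) ^ 2 * (Real.sin β : ℂ) ^ 2) * Complex.I_sq -
    (Real.sinh u : ℂ) ^ 2 * h1

lemma cosh_sq_close {u β : ℝ} (hu : 0 ≤ u) (hc : 0 ≤ Real.cos β) :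
    ‖Complex.cosh (u + β * Complex.I) ^ 2 + ((Real.sinh u ^ 2 : ℝ) : ℂ)‖ ≤
      Real.cos β * Real.exp (2 * u) := by
  rw [cosh_sq_line]
  have hs : 0 ≤ Real.sinh u := Real.sinh_nonneg_iff.2 hu
  have hch : 0 < Real.cosh u := Real.cosh_pos u
  have he : Real.exp (2 * u) = Real.cosh u ^ 2 + Real.sinh u ^ 2 +
      2 * Real.cosh u * Real.sinh u := by
    have : Real.exp (2 * u) = (Real.cosh u + Real.sinh u) ^ 2 := by
      rw [Real.cosh_add_sinh, ← Real.exp_nat_mul]; norm_num
    rw [this]; ring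
  calc _ ≤ ‖((Real.cos β * ((Real.cosh u ^ 2 + Real.sinh u ^ 2) * Real.cos β) : ℝ) : ℂ)‖ +
        ‖((Real.cos β * (2 * Real.cosh u * Real.sinh u * Real.sin β) : ℝ) : ℂ) * Complex.I‖ :=
        norm_add_le _ _
    _ = Real.cos β * ((Real.cosh u ^ 2 + Real.sinh u ^ 2) * Real.cos β) +
        Real.cos β * (2 * Real.cosh u * Real.sinh u * |Real.sin β|) := by
        rw [norm_mul, Complex.norm_I, mul_one, Complex.norm_real, Complex.norm_real,
          Real.norm_of_nonneg (by positivity), Real.norm_eq_abs]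
        congr 1
        rw [abs_mul, abs_mul, abs_mul, abs_mul, abs_of_nonneg hc, abs_of_pos hch, abs_of_nonneg hs,
          abs_of_pos (by norm_num : (0 : ℝ) < 2)]
    _ ≤ Real.cos β * (Real.cosh u ^ 2 + Real.sinh u ^ 2) +
        Real.cos β * (2 * Real.cosh u * Real.sinh u) := by
        apply add_le_add
        · apply mul_le_mul_of_nonneg_left _ hc
          exact mul_le_of_le_one_right (by positivity) (Real.cos_le_one β)
        · apply mul_le_mul_of_nonneg_left _ hc
          exact mul_le_of_le_one_right (by positivity) (Real.abs_sin_le_one β)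
    _ = _ := by rw [he]; ring

/-! ### lower bound of `Re Nf` near the cut -/

/-- the comparison function -/
lemma weight_tail {S η : ℝ} (hw : S3_w) (hS : 0 < S) (hη : 0 < η) (hη1 : η < 1) :
    IntervalIntegrable (fun y => WN y / √(1 - y * S)) volume 0 (1 / S) ∧
    1 / 2 * (1 - √(S / (1 + S))) - √η / (4 * S) ≤
      ∫ y in (0 : ℝ)..((1 - η) / S), WN y / √(1 - y * S) := by
  obtain ⟨-, hw2, hw3⟩ := hw
  have hval := hw3 S hS
  have hpos : 0 < 1 / 2 * (1 - √(S / (1 + S))) := by
    have : √(S / (1 + S)) < 1 := by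
      rw [Real.sqrt_lt' one_pos, one_pow, div_lt_one (by linarith)]
      linarith
    linarith
  have hint : IntervalIntegrable (fun y => WN y / √(1 - y * S)) volume 0 (1 / S) := by
    by_contra hcon
    rw [intervalIntegral.integral_undef hcon] at hval
    linarith
  refine ⟨hint, ?_⟩
  set a := (1 - η) / S with ha
  have ha0 : 0 ≤ a := div_nonneg (by linarith) hS.le
  have ha1 : a ≤ 1 / S := div_le_div_of_nonneg_right (by linarith) hS.le
  have hi1 : IntervalIntegrable (fun y => WN y / √(1 - y * S)) volume 0 a :=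
    hint.mono_set (by
      rw [Set.uIcc_of_le ha0, Set.uIcc_of_le (ha0.trans ha1)]
      exact Set.Icc_subset_Icc_right ha1)
  have hi2 : IntervalIntegrable (fun y => WN y / √(1 - y * S)) volume a (1 / S) :=
    hint.mono_set (by
      rw [Set.uIcc_of_le ha1, Set.uIcc_of_le (ha0.trans ha1)]
      exact Set.Icc_subset_Icc_left ha0)
  have hsplit := intervalIntegral.integral_add_adjacent_intervals hi1 hi2
  -- the explicit primitive
  have hder : ∀ y ∈ Set.Ioo a (1 / S),
      HasDerivAt (fun y => -(1 / (4 * S)) * √(1 - y * S)) (1 / 8 / √(1 - y * S)) y := by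
    intro y hy
    have hy1 : 0 < 1 - y * S := by
      have := (lt_div_iff₀ hS).1 hy.2
      linarith
    have h1 : HasDerivAt (fun y : ℝ => 1 - y * S) (-S) y := by
      simpa using ((hasDerivAt_id y).mul_const S).const_sub 1
    have h2 := (h1.sqrt hy1.ne').const_mul (-(1 / (4 * S)))
    have h3 : √(1 - y * S) ≠ 0 := (Real.sqrt_pos.2 hy1).ne'
    have h4 : 1 / 8 / √(1 - y * S) = -(1 / (4 * S)) * (-S / (2 * √(1 - y * S))) := by
      field_simp
      norm_num
    rw [h4]
    exact h2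
  have hcont : ContinuousOn (fun y => -(1 / (4 * S)) * √(1 - y * S)) (Set.Icc a (1 / S)) := by
    apply Continuous.continuousOn
    fun_prop
  have hI : IntervalIntegrable (fun y => 1 / 8 / √(1 - y * S)) volume a (1 / S) := by
    apply intervalIntegral.intervalIntegrable_deriv_of_nonneg
      (g := fun y => -(1 / (4 * S)) * √(1 - y * S))
    · rw [Set.uIcc_of_le ha1]; exact hcont
    · rw [min_eq_left ha1, max_eq_right ha1]; exact hder
    · intro y _
      positivity
  have hval2 := intervalIntegral.integral_eq_sub_of_hasDerivAt_of_le ha1 hcont hder hI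
  have hle : ∫ y in a..(1 / S), WN y / √(1 - y * S) ≤ ∫ y in a..(1 / S), 1 / 8 / √(1 - y * S) := by
    apply intervalIntegral.integral_mono_on ha1 hi2 hI
    intro y hy
    apply div_le_div_of_nonneg_right _ (Real.sqrt_nonneg _)
    exact (hw2 y (ha0.trans hy.1)).2
  have e1 : 1 - (1 / S) * S = 0 := by field_simp; ring
  have e2 : 1 - a * S = η := by rw [ha]; field_simp; ring
  rw [hval2, e1, e2, Real.sqrt_zero] at hle
  have e3 : -(1 / (4 * S)) * 0 - -(1 / (4 * S)) * √η = √η / (4 * S) := by ring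
  rw [e3] at hle
  linarith

lemma tanh_form {u : ℝ} (hu : 0 ≤ u) :
    1 / 2 * (1 - √(Real.sinh u ^ 2 / (1 + Real.sinh u ^ 2))) =
      Real.exp (-2 * u) / (1 + Real.exp (-2 * u)) := by
  have hch : 0 < Real.cosh u := Real.cosh_pos u
  have h1 : 1 + Real.sinh u ^ 2 = Real.cosh u ^ 2 := by
    rw [Real.cosh_sq]; ring
  rw [h1, ← div_pow, Real.sqrt_sq (div_nonneg (Real.sinh_nonneg_iff.2 hu) hch.le)]
  have h2 : Real.exp (-2 * u) = Real.exp (-u) * Real.exp (-u) := by
    rw [← Real.exp_add]; ring_nf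
  have h3 : Real.exp u * Real.exp (-u) = 1 := by
    rw [← Real.exp_add]; simp
  rw [Real.sinh_eq, Real.cosh_eq, h2]
  have h4 := Real.exp_pos u
  have h5 := Real.exp_pos (-u)
  field_simp
  nlinarith [h3, h4, h5]

lemma Nf_lower {m : ℝ} (hw : S3_w) (hm : 0 < m) {u β η δ X : ℝ} (hu : 0 < u)
    (hS : 1 ≤ m * Real.sinh u ^ 2) (hη : 0 < η) (hη1 : η < 1) (hδ : δ ≤ η / 2)
    (hβ0 : 0 < β) (hβ1 : β < Real.pi / 2) (hX : u ≤ X)
    (hδ2 : m * (Real.cos β * Real.exp (2 * X)) ≤ δ) :
    Real.exp (-2 * u) / (1 + Real.exp (-2 * u)) - m * √η / 4 - m * (2 * δ / (η * √η)) / 8 ≤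
      (Nf m (u + β * Complex.I)).re := by
  have hcos : 0 < Real.cos β := Real.cos_pos_of_mem_Ioo ⟨by linarith, hβ1⟩
  have hsin : 0 < Real.sin β := Real.sin_pos_of_pos_of_lt_pi hβ0 (by linarith [Real.pi_pos])
  have hsh : 0 < Real.sinh u := Real.sinh_pos_iff.2 hu
  set S := Real.sinh u ^ 2 with hSd
  have hSpos : 0 < S := by positivity
  have hSm : 1 / S ≤ m := by
    rw [div_le_iff₀ hSpos]; exact hS
  set c : ℂ := Complex.cosh (u + β * Complex.I) ^ 2 with hc
  have hcS : ‖c + (S : ℂ)‖ ≤ Real.cos β * Real.exp (2 * u) := cosh_sq_close hu.le hcos.le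
  have hcim : c.im = Real.cos β * (2 * Real.cosh u * Real.sinh u * Real.sin β) := by
    have h1 := cosh_sq_line u β
    have h2 := congrArg Complex.im h1
    rw [Complex.add_im, Complex.ofReal_im, add_zero] at h2
    rw [hc, h2]
    simp only [Complex.add_im, Complex.ofReal_im, Complex.mul_im, Complex.I_im, Complex.I_re,
      Complex.ofReal_re, mul_one, mul_zero, zero_add, add_zero]
  have hcim0 : 0 < c.im := by
    rw [hcim]
    have := Real.cosh_pos u
    positivity
  -- slit plane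
  have hslit : ∀ y : ℝ, 0 ≤ y → (1 + (y : ℂ) * c) ∈ Complex.slitPlane := by
    intro y hy
    rcases hy.eq_or_lt with rfl | hy
    · simp
    · right
      simp only [Complex.add_im, Complex.one_im, Complex.mul_im, Complex.ofReal_re,
        Complex.ofReal_im, zero_mul, add_zero, zero_add]
      exact (mul_pos hy hcim0).ne'
  obtain ⟨hw1, hw2, hw3⟩ := hw
  have hcontN : ContinuousOn (fun y : ℝ => (WN y : ℂ) / sq (1 + y * c)) (Set.Icc 0 m) := by
    apply ContinuousOn.div
    · exact Complex.continuous_ofReal.comp_continuousOn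
        (hw1.mono fun y hy => hy.1)
    · unfold sq
      apply Complex.continuous_exp.comp_continuousOn
      apply ContinuousOn.div_const
      apply ContinuousOn.clog
      · apply Continuous.continuousOn
        fun_prop
      · intro y hy
        exact hslit y hy.1
    · intro y _
      unfold sq
      exact Complex.exp_ne_zero _
  have hintN : IntervalIntegrable (fun y : ℝ => (WN y : ℂ) / sq (1 + y * c)) volume 0 m :=
    ContinuousOn.intervalIntegrable (by rwa [Set.uIcc_of_le hm.le])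
  have hre : (Nf m (u + β * Complex.I)).re =
      ∫ y in (0 : ℝ)..m, WN y * (1 / sq (1 + y * c)).re := by
    unfold Nf
    rw [← hc]
    have h1 := Complex.reCLM.intervalIntegral_comp_comm hintN
    simp only [Complex.reCLM_apply] at h1
    rw [← h1]
    apply intervalIntegral.integral_congr
    intro y _
    simp only
    rw [div_eq_mul_one_div, Complex.re_ofReal_mul]
  have hcontR : ContinuousOn (fun y : ℝ => WN y * (1 / sq (1 + y * c)).re) (Set.Icc 0 m) := by
    have := Complex.continuous_re.comp_continuousOn hcontN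
    refine this.congr fun y _ => ?_
    simp only [Function.comp]
    rw [div_eq_mul_one_div (WN y : ℂ), Complex.re_ofReal_mul]
  set a := (1 - η) / S with ha
  have ha0 : 0 ≤ a := div_nonneg (by linarith) hSpos.le
  have ha1 : a ≤ 1 / S := div_le_div_of_nonneg_right (by linarith) hSpos.le
  have ham : a ≤ m := ha1.trans hSm
  have hi1 : IntervalIntegrable (fun y : ℝ => WN y * (1 / sq (1 + y * c)).re) volume 0 a :=
    ContinuousOn.intervalIntegrable (by
      rw [Set.uIcc_of_le ha0]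
      exact hcontR.mono (Set.Icc_subset_Icc_right ham))
  have hi2 : IntervalIntegrable (fun y : ℝ => WN y * (1 / sq (1 + y * c)).re) volume a m :=
    ContinuousOn.intervalIntegrable (by
      rw [Set.uIcc_of_le ham]
      exact hcontR.mono (Set.Icc_subset_Icc_left ha0))
  have hsplit := intervalIntegral.integral_add_adjacent_intervals hi1 hi2
  have hpos2 : 0 ≤ ∫ y in a..m, WN y * (1 / sq (1 + y * c)).re := by
    apply intervalIntegral.integral_nonneg ham
    intro y hy
    exact mul_nonneg (hw2 y (ha0.trans hy.1)).1.le (inv_sq_re_nonneg _)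
  obtain ⟨hint0, htail⟩ := weight_tail ⟨hw1, hw2, hw3⟩ hSpos hη hη1
  have hint1 : IntervalIntegrable (fun y => WN y / √(1 - y * S)) volume 0 a :=
    hint0.mono_set (by
      rw [Set.uIcc_of_le ha0, Set.uIcc_of_le (ha0.trans ha1)]
      exact Set.Icc_subset_Icc_right ha1)
  set Kδ := 2 * δ / (η * √η) with hK
  have hδ0 : 0 ≤ δ := le_trans (by positivity) hδ2
  have hK0 : 0 ≤ Kδ := by positivity
  have hmono : ∫ y in (0 : ℝ)..a, (WN y / √(1 - y * S) - Kδ / 8) ≤
      ∫ y in (0 : ℝ)..a, WN y * (1 / sq (1 + y * c)).re := by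
    apply intervalIntegral.integral_mono_on ha0 (hint1.sub (by simp)) hi1
    intro y hy
    have hyS : y * S ≤ 1 - η := by
      have := hy.2
      rw [ha, le_div_iff₀ hSpos] at this
      exact this
    have hclose : ‖(1 + (y : ℂ) * c) - ((1 - y * S : ℝ) : ℂ)‖ ≤ δ := by
      have h1 : (1 + (y : ℂ) * c) - ((1 - y * S : ℝ) : ℂ) = (y : ℂ) * (c + S) := by
        push_cast; ring
      rw [h1, norm_mul, Complex.norm_real, Real.norm_of_nonneg hy.1]
      calc y * ‖c + S‖ ≤ m * (Real.cos β * Real.exp (2 * X)) := by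
            apply mul_le_mul (hy.2.trans ham) _ (norm_nonneg _) hm.le
            refine hcS.trans (mul_le_mul_of_nonneg_left ?_ hcos.le)
            exact Real.exp_le_exp.2 (by linarith)
        _ ≤ δ := hδ2
    have h2 := inv_sq_close hη (show η ≤ 1 - y * S by linarith) hδ hclose
    have h3 := hw2 y hy.1
    have h4 : WN y * (1 / √(1 - y * S) - Kδ) ≤ WN y * (1 / sq (1 + y * c)).re :=
      mul_le_mul_of_nonneg_left h2 h3.1.le
    have h5 : WN y * Kδ ≤ 1 / 8 * Kδ := mul_le_mul_of_nonneg_right h3.2 hK0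
    calc WN y / √(1 - y * S) - Kδ / 8 ≤ WN y * (1 / √(1 - y * S) - Kδ) := by
          rw [mul_sub, mul_one_div]; linarith
      _ ≤ _ := h4
  rw [intervalIntegral.integral_sub hint1 (by simp), intervalIntegral.integral_const,
    sub_zero, smul_eq_mul] at hmono
  have h6 : a * (Kδ / 8) ≤ m * (Kδ / 8) := mul_le_mul_of_nonneg_right ham (by positivity)
  have h7 : √η / (4 * S) ≤ m * √η / 4 := by
    have : √η / (4 * S) = (1 / S) * (√η / 4) := by field_simp
    rw [this]
    have h8 : 1 / S * (√η / 4) ≤ m * (√η / 4) :=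
      mul_le_mul_of_nonneg_right hSm (by positivity)
    linarith
  rw [tanh_form hu.le] at htail
  rw [hre, ← hsplit]
  linarith

/-! ### the size of the transform -/

lemma exp_re_nonneg {s : ℂ} (h : |s.im| ≤ Real.pi / 2) : 0 ≤ (Complex.exp (-s)).re := by
  rw [Complex.exp_re, Complex.neg_im, Real.cos_neg]
  apply mul_nonneg (Real.exp_pos _).le
  rw [abs_le] at h
  exact Real.cos_nonneg_of_neg_pi_div_two_le_of_le (by linarith [h.1]) h.2

lemma one_le_norm {z : ℂ} (h : 0 ≤ z.re) : 1 ≤ ‖1 + z‖ := by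
  have h1 : (1 + z).re ≤ ‖1 + z‖ := Complex.re_le_norm _
  rw [Complex.add_re, Complex.one_re] at h1
  linarith

lemma norm_sub_le_norm_add {z : ℂ} (h : 0 ≤ z.re) : ‖1 - z‖ ≤ ‖1 + z‖ := by
  rw [← sq_le_sq₀ (norm_nonneg _) (norm_nonneg _), ← Complex.normSq_eq_norm_sq,
    ← Complex.normSq_eq_norm_sq, Complex.normSq_apply, Complex.normSq_apply]
  simp only [Complex.sub_re, Complex.one_re, Complex.sub_im, Complex.one_im, Complex.add_re,
    Complex.add_im]
  nlinarith

lemma Dsn_le {m ε : ℝ} {n j : ℕ} {s : ℂ} (hj : j ≤ n) (hs : |s.im| ≤ Real.pi / 2)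
    (hM : (Ph m s).re + Real.log ‖1 + Complex.exp (-s)‖ ≤ I3 m + ε) :
    Dsn m n j s ≤ Real.exp (n * (mu3 m + ε)) := by
  unfold Dsn mu3
  set z := Complex.exp (-s) with hz
  have hre : 0 ≤ z.re := exp_re_nonneg hs
  have h1 : 1 ≤ ‖1 + z‖ := one_le_norm hre
  have h2 : ‖1 - z‖ ≤ ‖1 + z‖ := norm_sub_le_norm_add hre
  have hs2 : 0 < √(2 : ℝ) := by positivity
  have hns : ‖((√2 : ℝ) : ℂ)‖ = √2 := by
    rw [Complex.norm_real, Real.norm_of_nonneg hs2.le]
  rw [norm_mul, norm_mul, norm_pow, norm_pow, norm_div, norm_div, hns, Complex.norm_exp]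
  have h3 : (((n : ℂ)) * Ph m s).re = n * (Ph m s).re := by
    rw [← Complex.ofReal_natCast, Complex.re_ofReal_mul]
  rw [h3]
  set A := ‖1 + z‖ / √2 with hA
  have hA0 : 0 < A := by positivity
  have h4 : ‖1 - z‖ / √2 ≤ A := div_le_div_of_nonneg_right h2 hs2.le
  have h5 : (‖1 - z‖ / √2) ^ j ≤ A ^ j := pow_le_pow_left₀ (by positivity) h4 j
  have h6 : A ^ (n - j) * A ^ j = A ^ n := by rw [← pow_add, Nat.sub_add_cancel hj]
  have h7 : A ^ n = Real.exp (n * Real.log A) := by
    rw [← Real.log_pow, Real.exp_log (pow_pos hA0 n)]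
  have h8 : Real.log A = Real.log ‖1 + z‖ - 1 / 2 * Real.log 2 := by
    rw [hA, Real.log_div (by positivity) hs2.ne', Real.log_sqrt (by norm_num)]
    ring
  calc A ^ (n - j) * (‖1 - z‖ / √2) ^ j * Real.exp (n * (Ph m s).re)
      ≤ A ^ (n - j) * A ^ j * Real.exp (n * (Ph m s).re) := by
        apply mul_le_mul_of_nonneg_right _ (Real.exp_pos _).le
        exact mul_le_mul_of_nonneg_left h5 (by positivity)
    _ = Real.exp (n * (Real.log A + (Ph m s).re)) := by
        rw [h6, h7, ← Real.exp_add, mul_add]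
    _ ≤ _ := by
        apply Real.exp_le_exp.2
        apply mul_le_mul_of_nonneg_left _ (Nat.cast_nonneg n)
        rw [h8]
        linarith

lemma Dsn_conj {m : ℝ} (hm : 0 < m) (hp : S3_ph) {n j : ℕ} {s : ℂ} (hs : s ∈ DN m) :
    Dsn m n j ((starRingEnd ℂ) s) = Dsn m n j s := by
  obtain ⟨-, -, h3, -⟩ := hp m hm
  unfold Dsn
  rw [h3 s hs, ← Complex.norm_conj]
  congr 1
  have e1 : (starRingEnd ℂ) (Complex.exp (-(starRingEnd ℂ) s)) = Complex.exp (-s) := by
    rw [← Complex.exp_conj, map_neg, Complex.conj_conj]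
  have e2 : (starRingEnd ℂ) (Complex.exp (n * (starRingEnd ℂ) (Ph m s))) =
      Complex.exp (n * Ph m s) := by
    rw [← Complex.exp_conj, map_mul, Complex.conj_conj, Complex.conj_natCast]
  simp only [map_mul, map_pow, map_div₀, map_add, map_sub, map_one, e1, e2, Complex.conj_ofReal]

/-! ### the primitive in the half strip -/

lemma mem_DN {m : ℝ} {s : ℂ} (h : |s.im| < Real.pi / 2) : s ∈ DN m := Or.inl h

lemma line_im (x β : ℝ) : ((x : ℂ) + β * Complex.I).im = β := by simp

lemma line_re (x β : ℝ) : ((x : ℂ) + β * Complex.I).re = x := by simp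

lemma hasDeriv_line {m : ℝ} (hm : 0 < m) (hp : S3_ph) {β : ℝ} (hβ : |β| < Real.pi / 2) (x : ℝ) :
    HasDerivAt (fun x : ℝ => (Ph m (x + β * Complex.I)).re) (Nf m (x + β * Complex.I)).re x := by
  obtain ⟨h1, -, -, -⟩ := hp m hm
  have h2 := h1 (x + β * Complex.I) (mem_DN (by rw [line_im]; exact hβ))
  have h3 : HasDerivAt (fun z : ℂ => Ph m (z + β * Complex.I)) (Nf m (x + β * Complex.I)) (x : ℂ) :=
    HasDerivAt.comp_add_const (x : ℂ) (β * Complex.I) h2
  exact h3.real_of_complex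

lemma Ph_real_le {m : ℝ} (hm : 0 < m) (ha : S3_na) (hb : S3_nb) (hc : S3_nc) (hp : S3_ph) {x : ℝ}
    (hx : 0 ≤ x) : (Ph m x).re ≤ I3 m := by
  obtain ⟨C, hC, -, hC2⟩ := hc m hm
  obtain ⟨-, -, hbr, -, -⟩ := hb m hm
  obtain ⟨-, hp0, -, -⟩ := hp m hm
  have hpi : (0 : ℝ) < Real.pi / 2 := by linarith [Real.pi_pos]
  have hcont : Continuous (fun x : ℝ => NR m x) := by
    rw [continuous_iff_continuousAt]
    intro y
    have h1 : (fun x : ℝ => NR m x) = fun x : ℝ => (Nf m x).re := by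
      funext x
      rw [hbr x, Complex.ofReal_re]
    rw [h1]
    have h2 : ContinuousAt (Nf m) (y : ℂ) :=
      (ha m hm y (mem_DN (by simpa using hpi))).continuousAt
    exact Complex.continuous_re.continuousAt.comp
      (ContinuousAt.comp (f := fun x : ℝ => (x : ℂ)) h2 Complex.continuous_ofReal.continuousAt)
  have hder : ∀ y : ℝ, HasDerivAt (fun x : ℝ => (Ph m x).re) (NR m y) y := by
    intro y
    have h1 := hasDeriv_line hm hp (β := 0) (by simpa using hpi) y
    simp only [Complex.ofReal_zero, zero_mul, add_zero] at h1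
    rw [hbr y, Complex.ofReal_re] at h1
    exact h1
  have hint : ∫ y in (0 : ℝ)..x, NR m y = (Ph m x).re - (Ph m ((0 : ℝ) : ℂ)).re :=
    intervalIntegral.integral_eq_sub_of_hasDerivAt (fun y _ => hder y)
      (hcont.intervalIntegrable _ _)
  rw [Complex.ofReal_zero, hp0, Complex.zero_re, sub_zero] at hint
  rw [← hint, intervalIntegral.integral_of_le hx]
  unfold I3
  apply setIntegral_mono_set
  · have hexp : IntegrableOn (fun x : ℝ => C * Real.exp (-x)) (Set.Ioi 0) :=
      (integrableOn_exp_neg_Ioi 0).const_mul C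
    refine Integrable.mono' hexp hcont.aestronglyMeasurable ?_
    filter_upwards [ae_restrict_mem measurableSet_Ioi] with y hy
    have := hC2 y (le_of_lt hy)
    rw [Real.norm_of_nonneg this.1]
    exact this.2
  · filter_upwards [ae_restrict_mem measurableSet_Ioi] with y hy
    exact (hC2 y (le_of_lt hy)).1
  · exact Filter.Eventually.of_forall fun y hy => hy.1

lemma vertical {m : ℝ} (hm : 0 < m) (hp : S3_ph) {x β₁ β₂ K : ℝ} (h12 : β₁ ≤ β₂)
    (hD : ∀ t : ℝ, β₁ ≤ t → t ≤ β₂ → ((x : ℂ) + t * Complex.I) ∈ DN m ∧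
      ‖Nf m (x + t * Complex.I)‖ ≤ K) :
    ‖Ph m (x + β₂ * Complex.I) - Ph m (x + β₁ * Complex.I)‖ ≤ K * (β₂ - β₁) := by
  obtain ⟨h1, -, -, -⟩ := hp m hm
  set p : ℂ := (x : ℂ) + β₁ * Complex.I
  set q : ℂ := (x : ℂ) + β₂ * Complex.I
  have hmem : ∀ z ∈ {z : ℂ | z.re = x ∧ β₁ ≤ z.im ∧ z.im ≤ β₂}, z ∈ DN m ∧ ‖Nf m z‖ ≤ K := by
    rintro z ⟨hz1, hz2, hz3⟩
    have : z = (x : ℂ) + (z.im : ℝ) * Complex.I := by
      apply Complex.ext <;> simp [hz1]
    rw [this]
    exact hD z.im hz2 hz3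
  have hconv : Convex ℝ {z : ℂ | z.re = x ∧ β₁ ≤ z.im ∧ z.im ≤ β₂} := by
    intro z hz w hw a b ha hb hab
    simp only [Set.mem_ofPred_eq, Complex.add_re, Complex.add_im, Complex.real_smul,
      Complex.re_ofReal_mul, Complex.im_ofReal_mul] at *
    obtain ⟨hz1, hz2, hz3⟩ := hz
    obtain ⟨hw1, hw2, hw3⟩ := hw
    refine ⟨?_, ?_, ?_⟩
    · rw [hz1, hw1, ← add_mul, hab, one_mul]
    · calc β₁ = a * β₁ + b * β₁ := by rw [← add_mul, hab, one_mul]
        _ ≤ _ := add_le_add (mul_le_mul_of_nonneg_left hz2 ha) (mul_le_mul_of_nonneg_left hw2 hb)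
    · calc _ ≤ a * β₂ + b * β₂ :=
            add_le_add (mul_le_mul_of_nonneg_left hz3 ha) (mul_le_mul_of_nonneg_left hw3 hb)
        _ = β₂ := by rw [← add_mul, hab, one_mul]
  have h2 := Convex.norm_image_sub_le_of_norm_hasDerivWithin_le
    (f := Ph m) (f' := Nf m) (s := {z : ℂ | z.re = x ∧ β₁ ≤ z.im ∧ z.im ≤ β₂}) (C := K)
    (x := p) (y := q)
    (fun z hz => (h1 z (hmem z hz).1).hasDerivWithinAt) (fun z hz => (hmem z hz).2) hconv
    (by simp [p, h12]) (by simp [q, h12])
  refine h2.trans (le_of_eq ?_)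
  have h3 : q - p = ((β₂ - β₁ : ℝ) : ℂ) * Complex.I := by
    simp only [p, q]; push_cast; ring
  rw [h3, norm_mul, Complex.norm_I, mul_one, Complex.norm_real,
    Real.norm_of_nonneg (by linarith)]

lemma log_norm_le {x β : ℝ} (hx : 0 ≤ x) (hβ : 0 ≤ Real.cos β) :
    Real.log ‖1 + Complex.exp (-((x : ℂ) + β * Complex.I))‖ ≤
      1 / 2 * Real.log (1 + Real.exp (-2 * x)) + Real.cos β := by
  have h1 : ‖1 + Complex.exp (-((x : ℂ) + β * Complex.I))‖ ^ 2 =
      1 + 2 * (Real.exp (-x) * Real.cos β) + Real.exp (-2 * x) := by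
    rw [← Complex.normSq_eq_norm_sq, Complex.normSq_apply]
    have e1 : (Complex.exp (-((x : ℂ) + β * Complex.I))).re = Real.exp (-x) * Real.cos β := by
      rw [Complex.exp_re, Complex.neg_re, Complex.neg_im, line_re, line_im, Real.cos_neg]
    have e2 : (Complex.exp (-((x : ℂ) + β * Complex.I))).im = -(Real.exp (-x) * Real.sin β) := by
      rw [Complex.exp_im, Complex.neg_re, Complex.neg_im, line_re, line_im, Real.sin_neg]
      ring
    rw [Complex.add_re, Complex.add_im, Complex.one_re, Complex.one_im, e1, e2]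
    have h2 : Real.exp (-2 * x) = Real.exp (-x) * Real.exp (-x) := by
      rw [← Real.exp_add]; ring_nf
    rw [h2]
    have h3 := Real.sin_sq_add_cos_sq β
    linear_combination Real.exp (-x) * Real.exp (-x) * h3
  have hnn : 0 ≤ ‖1 + Complex.exp (-((x : ℂ) + β * Complex.I))‖ := norm_nonneg _
  have hE : 0 < Real.exp (-2 * x) := Real.exp_pos _
  have hA : (1 : ℝ) ≤ 1 + Real.exp (-2 * x) := by linarith
  have he1 : Real.exp (-x) ≤ 1 := Real.exp_le_one_iff.2 (by linarith)
  have h4 : ‖1 + Complex.exp (-((x : ℂ) + β * Complex.I))‖ ^ 2 ≤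
      (1 + Real.exp (-2 * x)) * (1 + 2 * Real.cos β) := by
    rw [h1]
    have h5 : Real.exp (-x) * Real.cos β ≤ 1 * Real.cos β := mul_le_mul_of_nonneg_right he1 hβ
    nlinarith [mul_nonneg hE.le hβ]
  have hpos : 0 < ‖1 + Complex.exp (-((x : ℂ) + β * Complex.I))‖ ^ 2 := by
    rw [h1]
    have := mul_nonneg (Real.exp_pos (-x)).le hβ
    linarith
  have h6 := Real.log_le_log hpos h4
  rw [Real.log_pow, Real.log_mul (by positivity) (by positivity)] at h6
  have h7 : Real.log (1 + 2 * Real.cos β) ≤ 2 * Real.cos β := by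
    have := Real.log_le_sub_one_of_pos (show 0 < 1 + 2 * Real.cos β by linarith)
    linarith
  push_cast at h6
  linarith

theorem db3 (hw : S3_w) (ha : S3_na) (hb : S3_nb) (hc : S3_nc) (hp : S3_ph) : S3_db := by
  intro m ε hm hε
  obtain ⟨C, hC, hC1, hC2⟩ := hc m hm
  have hpi := Real.pi_gt_three
  have hpi4 := Real.pi_le_four
  -- the critical abscissa
  set ρ₀ : ℝ := Real.arsinh (1 / √m) with hρ₀
  have hsm : 0 < √m := Real.sqrt_pos.2 hm
  have hsρ : Real.sinh ρ₀ = 1 / √m := Real.sinh_arsinh _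
  have hρ₀pos : 0 < ρ₀ := by
    rw [← Real.sinh_pos_iff, hsρ]; positivity
  have hmρ : m * Real.sinh ρ₀ ^ 2 = 1 := by
    rw [hsρ, div_pow, one_pow, Real.sq_sqrt hm.le]
    field_simp
  -- the cut-off
  set X : ℝ := max ρ₀ (8 * (2 * C + 1) / ε) with hX
  have hXρ : ρ₀ ≤ X := le_max_left _ _
  have hX0 : 0 < X := lt_of_lt_of_le hρ₀pos hXρ
  have hX2 : 8 * (2 * C + 1) / ε ≤ X := le_max_right _ _
  have hXtail : (2 * C + 1) * Real.exp (-X) ≤ ε / 8 := by
    have h1 : Real.exp (-X) ≤ 1 / X := by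
      rw [Real.exp_neg, ← one_div]
      apply one_div_le_one_div_of_le hX0
      have := Real.add_one_le_exp X
      linarith
    have h2 : 1 / X ≤ ε / (8 * (2 * C + 1)) := by
      rw [div_le_div_iff₀ hX0 (by positivity)]
      rw [div_le_iff₀ hε] at hX2
      linarith
    calc (2 * C + 1) * Real.exp (-X) ≤ (2 * C + 1) * (ε / (8 * (2 * C + 1))) :=
          mul_le_mul_of_nonneg_left (h1.trans h2) (by positivity)
      _ = ε / 8 := by field_simp
  set ε' : ℝ := ε / (8 * X) with hε'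
  have hε'0 : 0 < ε' := by positivity
  have hε'X : ε' * X = ε / 8 := by rw [hε']; field_simp
  set η : ℝ := min (1 / 2) ((2 * ε' / m) ^ 2) with hη
  have hη0 : 0 < η := lt_min (by norm_num) (by positivity)
  have hη1 : η < 1 := (min_le_left _ _).trans_lt (by norm_num)
  have hηs : m * √η / 4 ≤ ε' / 2 := by
    have h1 : √η ≤ 2 * ε' / m := by
      rw [Real.sqrt_le_left (by positivity)]
      exact min_le_right _ _
    have h2 : m * √η ≤ m * (2 * ε' / m) := mul_le_mul_of_nonneg_left h1 hm.le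
    have h3 : m * (2 * ε' / m) = 2 * ε' := by field_simp
    linarith
  have hsη : 0 < √η := Real.sqrt_pos.2 hη0
  set δ : ℝ := min (η / 2) (2 * ε' * (η * √η) / m) with hδ
  have hδ0 : 0 < δ := lt_min (by positivity) (by positivity)
  have hδη : δ ≤ η / 2 := min_le_left _ _
  have hδe : m * (2 * δ / (η * √η)) / 8 ≤ ε' / 2 := by
    have h1 : δ ≤ 2 * ε' * (η * √η) / m := min_le_right _ _
    have h2 : m * (2 * δ / (η * √η)) / 8 ≤
        m * (2 * (2 * ε' * (η * √η) / m) / (η * √η)) / 8 := by gcongr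
    have h3 : m * (2 * (2 * ε' * (η * √η) / m) / (η * √η)) / 8 = ε' / 2 := by
      field_simp
      norm_num
    linarith
  set ϑ : ℝ := min 1 (min (δ / (m * Real.exp (2 * X))) (ε / (8 * (C + 1)))) with hϑ
  have hϑ0 : 0 < ϑ := lt_min one_pos (lt_min (by positivity) (by positivity))
  have hϑ1 : ϑ ≤ 1 := min_le_left _ _
  have hϑδ : ϑ ≤ δ / (m * Real.exp (2 * X)) := (min_le_right _ _).trans (min_le_left _ _)
  have hϑε : ϑ ≤ ε / (8 * (C + 1)) := (min_le_right _ _).trans (min_le_right _ _)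
  have hϑε1 : (C + 1) * ϑ ≤ ε / 8 := by
    calc (C + 1) * ϑ ≤ (C + 1) * (ε / (8 * (C + 1))) :=
          mul_le_mul_of_nonneg_left hϑε (by positivity)
      _ = ε / 8 := by field_simp
  set β : ℝ := Real.pi / 2 - ϑ with hβ
  have hβ0 : 0 < β := by rw [hβ]; linarith
  have hβ1 : β < Real.pi / 2 := by rw [hβ]; linarith
  have hβabs : |β| < Real.pi / 2 := by rw [abs_of_pos hβ0]; exact hβ1
  have hcosβ : Real.cos β = Real.sin ϑ := by rw [hβ, Real.cos_pi_div_two_sub]
  have hcosle : Real.cos β ≤ ϑ := by rw [hcosβ]; exact Real.sin_le hϑ0.le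
  have hcos0 : 0 ≤ Real.cos β :=
    (Real.cos_pos_of_mem_Ioo ⟨by linarith, hβ1⟩).le
  have hδ2 : m * (Real.cos β * Real.exp (2 * X)) ≤ δ := by
    have h1 : Real.cos β * (m * Real.exp (2 * X)) ≤ δ := by
      rw [← le_div_iff₀ (by positivity)]
      exact hcosle.trans hϑδ
    calc _ = Real.cos β * (m * Real.exp (2 * X)) := by ring
      _ ≤ δ := h1
  -- bounds of the primitive on the line
  have hder := hasDeriv_line hm hp hβabs
  have P1 : ∀ x : ℝ, X ≤ x → (Ph m (x + β * Complex.I)).re ≤ I3 m + 2 * C * Real.exp (-X) := by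
    intro x hx
    have hx0 : 0 ≤ x := hX0.le.trans hx
    have h1 := vertical (x := x) (β₁ := 0) (β₂ := β) (K := C * Real.exp (-x)) hm hp hβ0.le
      (fun t ht1 ht2 => by
        have h2 : |((x : ℂ) + t * Complex.I).im| < Real.pi / 2 := by
          rw [line_im, abs_of_nonneg ht1]; linarith
        refine ⟨mem_DN h2, ?_⟩
        have h3 := hC1 _ h2 (by rw [line_re]; exact hx0)
        rwa [line_re] at h3)
    simp only [Complex.ofReal_zero, zero_mul, add_zero, sub_zero] at h1
    have h2 := Ph_real_le hm ha hb hc hp hx0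
    have h3 : (Ph m (x + β * Complex.I) - Ph m x).re ≤ C * Real.exp (-x) * β :=
      (Complex.re_le_norm _).trans h1
    rw [Complex.sub_re] at h3
    have h4 : C * Real.exp (-x) * β ≤ C * Real.exp (-X) * 2 := by
      have h5 : Real.exp (-x) ≤ Real.exp (-X) := Real.exp_le_exp.2 (by linarith)
      have h6 : β ≤ 2 := by linarith
      gcongr
    linarith
  have hk : MonotoneOn (fun x : ℝ => (Ph m (x + β * Complex.I)).re +
      1 / 2 * Real.log (1 + Real.exp (-2 * x)) + ε' * x) (Set.Icc ρ₀ X) := by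
    have hd : ∀ x : ℝ, HasDerivAt (fun x : ℝ => (Ph m (x + β * Complex.I)).re +
        1 / 2 * Real.log (1 + Real.exp (-2 * x)) + ε' * x)
        ((Nf m (x + β * Complex.I)).re -
          Real.exp (-2 * x) / (1 + Real.exp (-2 * x)) + ε') x := by
      intro x
      have h1 : HasDerivAt (fun x : ℝ => Real.exp (-2 * x)) (Real.exp (-2 * x) * (-2)) x := by
        have := ((hasDerivAt_id x).const_mul (-2)).exp
        simpa using this
      have hE : 0 < 1 + Real.exp (-2 * x) := by have := Real.exp_pos (-2 * x); linarith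
      have h2 := ((h1.const_add 1).log hE.ne').const_mul (1 / 2)
      have h3 := ((hder x).add h2).add ((hasDerivAt_id x).const_mul ε')
      refine h3.congr_deriv ?_
      have := hE.ne'
      field_simp
      ring
    apply monotoneOn_of_deriv_nonneg (convex_Icc _ _)
    · exact fun x _ => (hd x).continuousAt.continuousWithinAt
    · exact fun x _ => (hd x).differentiableAt.differentiableWithinAt
    · intro x hx
      rw [interior_Icc] at hx
      rw [(hd x).deriv]
      have hx0 : 0 < x := hρ₀pos.trans hx.1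
      have hS : 1 ≤ m * Real.sinh x ^ 2 := by
        rw [← hmρ]
        apply mul_le_mul_of_nonneg_left _ hm.le
        apply pow_le_pow_left₀ (Real.sinh_nonneg_iff.2 hρ₀pos.le)
        exact Real.sinh_le_sinh.2 hx.1.le
      have h1 := Nf_lower hw hm hx0 hS hη0 hη1 hδη hβ0 hβ1 hx.2.le hδ2
      linarith
  have hmono : Monotone (fun x : ℝ => (Ph m (x + β * Complex.I)).re) := by
    apply monotone_of_deriv_nonneg
    · exact fun x => (hder x).differentiableAt
    · intro x
      rw [(hder x).deriv]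
      obtain ⟨-, -, -, -, hb5⟩ := hb m hm
      exact hb5 _ (by rw [line_im]; exact hβabs)
  have hexp2 : Real.exp (-2 * X) ≤ Real.exp (-X) := Real.exp_le_exp.2 (by linarith)
  have hlogX : 1 / 2 * Real.log (1 + Real.exp (-2 * X)) ≤ Real.exp (-X) := by
    have h1 := Real.log_le_sub_one_of_pos
      (show 0 < 1 + Real.exp (-2 * X) by have := Real.exp_pos (-2 * X); linarith)
    have h2 := Real.exp_pos (-2 * X)
    linarith
  have P2 : ∀ x : ℝ, ρ₀ ≤ x → x ≤ X → (Ph m (x + β * Complex.I)).re +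
      1 / 2 * Real.log (1 + Real.exp (-2 * x)) + Real.cos β ≤ I3 m + 3 * ε / 8 := by
    intro x hx1 hx2
    have h1 := hk ⟨hx1, hx2⟩ ⟨hXρ, le_rfl⟩ hx2
    simp only at h1
    have h2 := P1 X le_rfl
    have h3 : 0 ≤ ε' * x := by
      have : 0 ≤ x := hρ₀pos.le.trans hx1
      positivity
    have h4 : Real.cos β ≤ ε / 8 := by
      have : 0 ≤ C * ϑ := by positivity
      linarith
    linarith
  -- the left end
  set ρ : ℝ := max (ρ₀ / 2) (ρ₀ - ε / 8) with hρ
  have hρ0 : 0 < ρ := lt_of_lt_of_le (by linarith) (le_max_left _ _)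
  have hρ1 : ρ < ρ₀ := max_lt (by linarith) (by linarith)
  have hρ2 : ρ₀ - ρ ≤ ε / 8 := by
    have := le_max_right (ρ₀ / 2) (ρ₀ - ε / 8)
    linarith
  have hmρ1 : m * Real.sinh ρ ^ 2 < 1 := by
    rw [← hmρ]
    apply mul_lt_mul_of_pos_left _ hm
    apply pow_lt_pow_left₀ (Real.sinh_lt_sinh.2 hρ1) (Real.sinh_nonneg_iff.2 hρ0.le)
    norm_num
  have P3 : ∀ x : ℝ, ρ ≤ x → x ≤ X → (Ph m (x + β * Complex.I)).re +
      1 / 2 * Real.log (1 + Real.exp (-2 * x)) + Real.cos β ≤ I3 m + ε / 2 := by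
    intro x hx1 hx2
    rcases le_total ρ₀ x with h | h
    · have := P2 x h hx2
      linarith
    · have h1 := P2 ρ₀ le_rfl hXρ
      have h2 := hmono h
      simp only at h2
      have h3 : 1 / 2 * Real.log (1 + Real.exp (-2 * x)) ≤
          (ρ₀ - x) + 1 / 2 * Real.log (1 + Real.exp (-2 * ρ₀)) := by
        have h4 : 1 + Real.exp (-2 * x) ≤
            Real.exp (2 * (ρ₀ - x)) * (1 + Real.exp (-2 * ρ₀)) := by
          have h5 : Real.exp (2 * (ρ₀ - x)) * Real.exp (-2 * ρ₀) = Real.exp (-2 * x) := by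
            rw [← Real.exp_add]; ring_nf
          have h6 : 1 ≤ Real.exp (2 * (ρ₀ - x)) := Real.one_le_exp (by linarith)
          rw [mul_add, h5, mul_one]
          linarith
        have h5 := Real.log_le_log
          (show 0 < 1 + Real.exp (-2 * x) by have := Real.exp_pos (-2 * x); linarith) h4
        rw [Real.log_mul (Real.exp_pos _).ne'
          (by have := Real.exp_pos (-2 * ρ₀); positivity), Real.log_exp] at h5
        linarith
      linarith
  -- the horizontal line
  have H : ∀ x : ℝ, ρ ≤ x → (Ph m (x + β * Complex.I)).re +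
      Real.log ‖1 + Complex.exp (-((x : ℂ) + β * Complex.I))‖ ≤ I3 m + ε := by
    intro x hx
    have hx0 : 0 ≤ x := hρ0.le.trans hx
    rcases le_total x X with h | h
    · have h1 := P3 x hx h
      have h2 := log_norm_le hx0 hcos0
      linarith
    · have h1 := P1 x h
      have h2 : Real.log ‖1 + Complex.exp (-((x : ℂ) + β * Complex.I))‖ ≤ Real.exp (-X) := by
        have h3 : ‖1 + Complex.exp (-((x : ℂ) + β * Complex.I))‖ ≤ 1 + Real.exp (-x) := by
          refine (norm_add_le _ _).trans ?_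
          rw [norm_one, Complex.norm_exp, Complex.neg_re, line_re]
        have h4 : 0 < ‖1 + Complex.exp (-((x : ℂ) + β * Complex.I))‖ := by
          have := one_le_norm (z := Complex.exp (-((x : ℂ) + β * Complex.I)))
            (exp_re_nonneg (by rw [line_im]; exact hβabs.le))
          linarith
        have h5 := Real.log_le_sub_one_of_pos h4
        have h6 : Real.exp (-x) ≤ Real.exp (-X) := Real.exp_le_exp.2 (by linarith)
        linarith
      have h7 : 0 ≤ C * Real.exp (-X) := by positivity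
      linarith
  have hconj : ∀ x φ : ℝ, (x : ℂ) + (-φ : ℝ) * Complex.I =
      (starRingEnd ℂ) ((x : ℂ) + φ * Complex.I) := by
    intro x φ
    simp
  refine ⟨ϑ, ρ, hϑ0, by linarith, hρ0, hmρ1, ?_, ?_⟩
  · intro n j x hj hx
    have h1 : Dsn m n j (x + (β : ℝ) * Complex.I) ≤ Real.exp (n * (mu3 m + ε)) :=
      Dsn_le hj (by rw [line_im]; exact hβabs.le) (H x hx)
    refine ⟨h1, ?_⟩
    rw [hconj, Dsn_conj hm hp (mem_DN (by rw [line_im]; exact hβabs))]
    exact h1
  · -- the vertical piece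
    have hV : ∀ (n j : ℕ) (φ : ℝ), j ≤ n → β ≤ φ → φ ≤ Real.pi / 2 →
        Dsn m n j (ρ + φ * Complex.I) ≤ Real.exp (n * (mu3 m + ε)) := by
      intro n j φ hj h1 h2
      have hDN : ∀ t : ℝ, ((ρ : ℂ) + t * Complex.I) ∈ DN m := by
        intro t
        right
        rw [line_re]; exact hmρ1
      have hbd : ∀ t : ℝ, 0 ≤ t → t < Real.pi / 2 → ‖Nf m (ρ + t * Complex.I)‖ ≤ C := by
        intro t ht1 ht2
        have h3 := hC1 ((ρ : ℂ) + t * Complex.I) (by rw [line_im, abs_of_nonneg ht1]; exact ht2)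
          (by rw [line_re]; exact hρ0.le)
        rw [line_re] at h3
        have h4 : Real.exp (-ρ) ≤ 1 := Real.exp_le_one_iff.2 (by linarith)
        have h5 : C * Real.exp (-ρ) ≤ C * 1 := mul_le_mul_of_nonneg_left h4 hC.le
        linarith
      have hbd2 : ‖Nf m (ρ + (Real.pi / 2 : ℝ) * Complex.I)‖ ≤ C := by
        have hcont : ContinuousAt (fun t : ℝ => ‖Nf m (ρ + t * Complex.I)‖) (Real.pi / 2) := by
          apply ContinuousAt.norm
          have h5 : ContinuousAt (Nf m) ((ρ : ℂ) + (Real.pi / 2 : ℝ) * Complex.I) :=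
            (ha m hm _ (hDN _)).continuousAt
          have h6 : ContinuousAt (fun t : ℝ => (ρ : ℂ) + t * Complex.I) (Real.pi / 2) := by
            apply Continuous.continuousAt
            fun_prop
          exact ContinuousAt.comp (f := fun t : ℝ => (ρ : ℂ) + t * Complex.I) h5 h6
        have h7 : Tendsto (fun t : ℝ => ‖Nf m (ρ + t * Complex.I)‖) (𝓝[<] (Real.pi / 2))
            (𝓝 ‖Nf m (ρ + (Real.pi / 2 : ℝ) * Complex.I)‖) :=
          hcont.tendsto.mono_left nhdsWithin_le_nhds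
        refine le_of_tendsto h7 ?_
        filter_upwards [Ioo_mem_nhdsLT (show (0 : ℝ) < Real.pi / 2 by linarith)] with t ht
        exact hbd t ht.1.le ht.2
      have h3 := vertical (x := ρ) (β₁ := β) (β₂ := φ) (K := C) hm hp h1
        (fun t ht1 ht2 => ⟨hDN t, by
          rcases (ht2.trans h2).lt_or_eq with h | h
          · exact hbd t (hβ0.le.trans ht1) h
          · rw [h]; exact hbd2⟩)
      have h4 : (Ph m (ρ + φ * Complex.I) - Ph m (ρ + β * Complex.I)).re ≤ C * (φ - β) :=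
        (Complex.re_le_norm _).trans h3
      rw [Complex.sub_re] at h4
      have hcosφ : 0 ≤ Real.cos φ :=
        Real.cos_nonneg_of_neg_pi_div_two_le_of_le (by linarith) h2
      have hcosφ2 : Real.cos φ ≤ Real.cos β :=
        Real.cos_le_cos_of_nonneg_of_le_pi hβ0.le (by linarith) h1
      have h5 := log_norm_le hρ0.le hcosφ
      have h6 := P3 ρ le_rfl (hρ1.le.trans hXρ)
      have h7 : C * (φ - β) ≤ C * ϑ := by
        apply mul_le_mul_of_nonneg_left _ hC.le
        rw [hβ]; linarith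
      apply Dsn_le hj
      · rw [line_im, abs_of_nonneg (hβ0.le.trans h1)]; exact h2
      · linarith
    intro n j φ hj h1 h2
    rcases le_total 0 φ with h | h
    · rw [abs_of_nonneg h] at h1 h2
      exact hV n j φ hj h1 h2
    · rw [abs_of_nonpos h] at h1 h2
      have h3 := hV n j (-φ) hj h1 h2
      have h4 : (ρ : ℂ) + φ * Complex.I = (starRingEnd ℂ) ((ρ : ℂ) + (-φ : ℝ) * Complex.I) := by
        simp
      rw [h4, Dsn_conj hm hp (by right; rw [line_re]; exact hmρ1)]
      exact h3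

end Pool.Agent.TH41.BL.DB3f
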