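import Mathlib
import Pool.Agent.TH41.BL.Stm3
import Pool.Agent.TH41.BL.Stm2

set_option autoImplicit false

open MeasureTheory Filter Topology

namespace Pool.Agent.TH41.BL.FI3f

open Pool.Agent.TH41.BL

/-- iterated puncturing -/
theorem punc_it (hp : S_punc) (n d : ℕ) (l : ℕ → ℝ) (hl : ∀ j, 0 ≤ l j)
    (hf : ∀ w : ℕ, d ≤ w → w ≤ n → ∑ j ∈ Finset.range (n + 1), l j * (kr n j w : ℝ) ≤ 0)
    (r : ℕ) :
    ∃ l' : ℕ → ℝ, (∀ j, 0 ≤ l' j) ∧ l' 0 = l 0 ∧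
      (∀ w : ℕ, d + r ≤ w → w ≤ n + r →
        ∑ j ∈ Finset.range (n + r + 1), l' j * (kr (n + r) j w : ℝ) ≤ 0) ∧
      ∑ j ∈ Finset.range (n + r + 1), l' j * (kr (n + r) j 0 : ℝ) =
        ∑ j ∈ Finset.range (n + 1), l j * (kr n j 0 : ℝ) := by
  induction r with
  | zero => exact ⟨l, hl, rfl, fun w h1 h2 => hf w h1 h2, rfl⟩
  | succ r ih =>
    obtain ⟨l1, h1, h2, h3, h4⟩ := ih
    obtain ⟨l2, g1, g2, g3, g4⟩ := hp (n + r) (d + r) l1 h1 h3
    refine ⟨l2, g1, g2.trans h2, ?_, ?_⟩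
    · intro w hw1 hw2
      exact g3 w (by omega) (by omega)
    · exact g4.trans h4

/-- a parameter below `m` with rational mean -/
theorem quant (hq : S3_quant) (m η : ℝ) (hm : 0 < m) (hη : 0 < η) :
    ∃ m' : ℝ, 0 < m' ∧ m' ≤ m ∧ m - m' < η ∧ ∃ q : ℕ, 0 < q ∧ ∀ t : ℕ, Qz m' (q * t) := by
  obtain ⟨hc, hs, -, -⟩ := hq
  set m1 : ℝ := max (m - η / 2) (m / 2) with hm1
  have h1 : 0 < m1 := lt_of_lt_of_le (by linarith) (le_max_right _ _)
  have h2 : m1 < m := max_lt (by linarith) (by linarith)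
  have h3 : m - η / 2 ≤ m1 := le_max_left _ _
  have hlt : Nbar m1 < Nbar m := hs h1 hm h2
  obtain ⟨r, hr1, hr2⟩ := exists_rat_btwn (show Nbar m1 / 2 < Nbar m / 2 by linarith)
  have hcc : ContinuousOn Nbar (Set.Icc m1 m) :=
    hc.mono (fun x hx => lt_of_lt_of_le h1 hx.1)
  have hiv := intermediate_value_Icc h2.le hcc
  obtain ⟨m', hm', hN⟩ := hiv ⟨show Nbar m1 ≤ 2 * (r : ℝ) by linarith,
    show 2 * (r : ℝ) ≤ Nbar m by linarith⟩
  refine ⟨m', lt_of_lt_of_le h1 hm'.1, hm'.2, by linarith [hm'.1], r.den, r.den_pos, ?_⟩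
  intro t
  refine ⟨r.num * t, ?_⟩
  have hd : (r.den : ℝ) ≠ 0 := by exact_mod_cast r.den_nz
  have hr : (r : ℝ) * (r.den : ℝ) = (r.num : ℝ) := by
    have := Rat.mul_den_eq_num r
    exact_mod_cast congrArg (fun x : ℚ => (x : ℝ)) this
  rw [hN]
  push_cast
  linear_combination (2 * (t : ℝ)) * hr

theorem fin3 (hp : S_punc) (hq : S3_quant) (hm : S3_main) : S3_fin := by
  intro m δ ε hm0 hδ hε
  by_cases hδ0 : δ < 0
  · refine ⟨1, fun n hn d hd => ?_⟩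
    exfalso
    have h1 : (1 : ℝ) ≤ n := by exact_mod_cast hn
    have h2 : (0 : ℝ) ≤ d := Nat.cast_nonneg d
    nlinarith
  push Not at hδ0
  -- the smaller parameter
  obtain ⟨δ', hδ1, hδ2⟩ := exists_between hδ
  have hcont : ContinuousAt (fun y => NR y 0) m :=
    (hq.2.2.1 0).continuousAt (Ioi_mem_nhds hm0)
  have hev : ∀ᶠ y in 𝓝 m, δ' < NR y 0 := hcont.eventually_const_lt hδ2
  obtain ⟨η, hη, hball⟩ := Metric.eventually_nhds_iff.1 hev
  obtain ⟨m', hm'0, hm'm, hm'η, q, hq0, hQ⟩ := quant hq m η hm0 hη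
  have hNR : δ' < NR m' 0 := hball (by
    rw [Real.dist_eq, abs_sub_comm, abs_of_nonneg (by linarith)]
    exact hm'η)
  have hI : I3 m' ≤ I3 m := hq.2.2.2 hm'0 hm0 hm'm
  obtain ⟨N0, hN0⟩ := hm m' δ' (ε / 2) hm'0 hNR (by linarith)
  have hq0' : (0 : ℝ) < q := by exact_mod_cast hq0
  have hdd : 0 < δ' - δ := by linarith
  obtain ⟨N1, hN1⟩ := exists_nat_ge ((q : ℝ) / (δ' - δ))
  obtain ⟨N2, hN2⟩ := exists_nat_ge (2 * q * |Real.log 2 - I3 m - ε / 2| / ε)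
  refine ⟨max N0 (max N1 N2), ?_⟩
  intro n hn d hd l hl hf
  have hn0 : N0 ≤ n := (le_max_left _ _).trans hn
  have hn1 : N1 ≤ n := ((le_max_left _ _).trans (le_max_right _ _)).trans hn
  have hn2 : N2 ≤ n := ((le_max_right _ _).trans (le_max_right _ _)).trans hn
  -- the multiple
  have hdm := Nat.div_add_mod n q
  have hmod := Nat.mod_lt n hq0
  set t : ℕ := n / q + 1 with ht
  obtain ⟨r, hr⟩ : ∃ r : ℕ, n + r = q * t :=
    ⟨q * t - n, by
      have : n ≤ q * t := by rw [ht, mul_add, mul_one]; omega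
      omega⟩
  have hrq : r ≤ q := by
    rw [ht, mul_add, mul_one] at hr
    omega
  have hrq' : (r : ℝ) ≤ q := by exact_mod_cast hrq
  have hr0 : (0 : ℝ) ≤ r := Nat.cast_nonneg r
  obtain ⟨l', k1, k2, k3, k4⟩ := punc_it hp n d l hl hf r
  have hQ' : Qz m' (n + r) := by rw [hr]; exact hQ t
  have hn1' : (q : ℝ) / (δ' - δ) ≤ n := hN1.trans (by exact_mod_cast hn1)
  have hn1'' : (q : ℝ) ≤ (δ' - δ) * n := by
    rw [div_le_iff₀ hdd] at hn1'
    linarith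
  have hdb : ((d + r : ℕ) : ℝ) ≤ δ' * ((n + r : ℕ) : ℝ) := by
    push_cast
    have hδ'0 : 0 ≤ δ' := by linarith
    nlinarith [mul_nonneg hδ'0 hr0]
  have key := hN0 (n + r) (by omega) hQ' (d + r) hdb l' k1 k3
  rw [k2, k4] at key
  refine le_trans ?_ key
  refine mul_le_mul_of_nonneg_right (Real.exp_le_exp.2 ?_) (hl 0)
  push_cast
  have hn2' : 2 * q * |Real.log 2 - I3 m - ε / 2| / ε ≤ n := hN2.trans (by exact_mod_cast hn2)
  rw [div_le_iff₀ hε] at hn2'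
  have ha := neg_abs_le (Real.log 2 - I3 m - ε / 2)
  have hb := abs_nonneg (Real.log 2 - I3 m - ε / 2)
  have e1 : -((q : ℝ) * |Real.log 2 - I3 m - ε / 2|) ≤ r * (Real.log 2 - I3 m - ε / 2) := by
    nlinarith [mul_le_mul_of_nonneg_right hrq' hb, mul_le_mul_of_nonneg_left ha hr0]
  have e2 : ((n : ℝ) + r) * (I3 m - I3 m') ≥ 0 := by
    have : (0 : ℝ) ≤ n := Nat.cast_nonneg n
    exact mul_nonneg (by linarith) (by linarith)
  nlinarith

end Pool.Agent.TH41.BL.FI3f
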