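import Mathlib
import Pool.Agent.TH41.BL.Stm3

set_option autoImplicit false

open MeasureTheory Filter Topology

namespace Pool.Agent.TH41.BL.LE3f

open Pool.Agent.TH41.BL

/-- the size of the mollifier on the left line -/
lemma norm_gN (n : ℕ) (ε κ t : ℝ) (hε : 0 < ε) (hκ : 0 < κ) (hκ1 : κ ≤ 1) :
    ‖gN n ε (((-κ : ℝ) : ℂ) + t * Complex.I)‖ ≤ Real.exp (n * (ε * (κ + κ ^ 2))) := by
  unfold gN
  rw [Complex.norm_exp]
  apply Real.exp_le_exp.2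
  have e1 : ((n : ℂ) * ε * (Complex.exp (-(((-κ : ℝ) : ℂ) + t * Complex.I)) - 1)) =
      ((n * ε : ℝ) : ℂ) * (Complex.exp (((κ : ℝ) : ℂ) + ((-t : ℝ) : ℂ) * Complex.I) - 1) := by
    push_cast
    congr 3
    ring
  rw [e1, Complex.re_ofReal_mul, Complex.sub_re, Complex.exp_re, Complex.one_re]
  have e2 : (((κ : ℝ) : ℂ) + ((-t : ℝ) : ℂ) * Complex.I).re = κ := by simp
  rw [e2]
  have h1 : Real.exp κ * Real.cos ((((κ : ℝ) : ℂ) + ((-t : ℝ) : ℂ) * Complex.I).im) ≤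
      Real.exp κ := by
    have := mul_le_mul_of_nonneg_left
      (Real.cos_le_one ((((κ : ℝ) : ℂ) + ((-t : ℝ) : ℂ) * Complex.I).im)) (Real.exp_pos κ).le
    rw [mul_one] at this
    exact this
  have h2 : Real.exp κ - 1 - κ ≤ κ ^ 2 := by
    have h3 := Real.abs_exp_sub_one_sub_id_le (x := κ) (by rw [abs_of_pos hκ]; exact hκ1)
    exact (le_abs_self _).trans h3
  have h4 : Real.exp κ * Real.cos ((((κ : ℝ) : ℂ) + ((-t : ℝ) : ℂ) * Complex.I).im) - 1 ≤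
      κ + κ ^ 2 := by linarith
  have h5 : (0 : ℝ) ≤ n * ε := by positivity
  calc (n : ℝ) * ε * (Real.exp κ *
        Real.cos ((((κ : ℝ) : ℂ) + ((-t : ℝ) : ℂ) * Complex.I).im) - 1)
      ≤ n * ε * (κ + κ ^ 2) := mul_le_mul_of_nonneg_left h4 h5
    _ = n * (ε * (κ + κ ^ 2)) := by ring

/-- the denominator on the left line -/
lemma norm_den (κ t : ℝ) :
    1 - Real.exp (-κ) ≤ ‖Complex.exp (((-κ : ℝ) : ℂ) + t * Complex.I) - 1‖ := by
  have h1 := norm_sub_norm_le (1 : ℂ) (Complex.exp (((-κ : ℝ) : ℂ) + t * Complex.I))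
  rw [norm_one, Complex.norm_exp] at h1
  have h2 : (((-κ : ℝ) : ℂ) + t * Complex.I).re = -κ := by simp
  rw [h2, norm_sub_rev] at h1
  exact h1

theorem left3 (h : S3_sh) (hb : S3_pb) : S3_left := by
  intro m ε Δ hm hε hΔ
  obtain ⟨C, κ₀, hC, hκ₀, hκ₀1, hPB⟩ := hb m hm
  refine ⟨κ₀, hκ₀, fun c hc hcκ => ?_⟩
  have hD : 0 < C + ε := by positivity
  obtain ⟨κ, hκ, hκ1, hκ2⟩ : ∃ κ : ℝ, 0 < κ ∧ κ ≤ κ₀ ∧ κ * (C + ε) ≤ Δ / 2 := by
    refine ⟨min κ₀ (Δ / 2 / (C + ε)), by positivity, min_le_left _ _, ?_⟩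
    rw [← le_div_iff₀ hD]
    exact min_le_right _ _
  have hexp : 0 < 1 - Real.exp (-κ) := by
    have : Real.exp (-κ) < 1 := by rw [Real.exp_lt_one_iff]; linarith
    linarith
  set ε₁ : ℝ := κ * Δ / 4 with hε₁
  have hε₁0 : 0 < ε₁ := by positivity
  obtain ⟨n₁, hn₁⟩ := exists_nat_ge ((1 - Real.exp (-κ))⁻¹ / ε₁)
  refine ⟨ε₁, hε₁0, n₁, ?_⟩
  intro n w hn hQ hw θ
  have hsh := (h m C κ₀ n w ε θ hm hκ₀ hPB hQ).2 (-κ) c (by linarith) (by linarith) hc hcκ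
  have e0 : vN m n w ε c θ - Complex.exp (n * Ph m (θ * Complex.I) - w * (θ * Complex.I)) =
      vN m n w ε (-κ) θ := by
    rw [← hsh]; ring
  rw [e0]
  -- the bound of the integral
  have hn0 : (0 : ℝ) ≤ n := Nat.cast_nonneg n
  have hint : ‖∫ φ in (-Real.pi)..Real.pi,
      Complex.exp (n * Ph m (((-κ : ℝ) : ℂ) + φ * Complex.I)) *
      (Complex.exp (-(w * (((-κ : ℝ) : ℂ) + φ * Complex.I))) *
        (gN n ε (((-κ : ℝ) : ℂ) + (φ - θ) * Complex.I) /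
        (Complex.exp (((-κ : ℝ) : ℂ) + (φ - θ) * Complex.I) - 1)))‖ ≤
      (1 - Real.exp (-κ))⁻¹ * Real.exp (-(n * (κ * Δ / 2))) * |Real.pi - -Real.pi| := by
    apply intervalIntegral.norm_integral_le_of_norm_le_const
    intro φ _
    have e1 : (((-κ : ℝ) : ℂ) + ((φ : ℂ) - (θ : ℂ)) * Complex.I) =
        ((-κ : ℝ) : ℂ) + ((φ - θ : ℝ) : ℂ) * Complex.I := by push_cast; ring
    rw [e1, norm_mul, norm_mul, norm_div, Complex.norm_exp, Complex.norm_exp]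
    have h1 : ((n : ℂ) * Ph m (((-κ : ℝ) : ℂ) + φ * Complex.I)).re ≤
        n * (-κ * NR m 0 + C * κ ^ 2) := by
      have e2 : ((n : ℂ) * Ph m (((-κ : ℝ) : ℂ) + φ * Complex.I)).re =
          n * (Ph m (((-κ : ℝ) : ℂ) + φ * Complex.I)).re := by
        rw [← Complex.ofReal_natCast, Complex.re_ofReal_mul]
      rw [e2]
      apply mul_le_mul_of_nonneg_left _ hn0
      have h2 := hPB.p6 (-κ) φ (by rw [abs_neg, abs_of_pos hκ]; exact hκ1) (by linarith)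
      have e3 : (-κ) ^ 2 = κ ^ 2 := by ring
      rw [e3] at h2
      exact h2
    have h3 : (-((w : ℂ) * (((-κ : ℝ) : ℂ) + φ * Complex.I))).re = w * κ := by
      have e2 : ((w : ℂ) * (((-κ : ℝ) : ℂ) + φ * Complex.I)).re =
          w * (((-κ : ℝ) : ℂ) + φ * Complex.I).re := by
        rw [← Complex.ofReal_natCast, Complex.re_ofReal_mul]
      rw [Complex.neg_re, e2]
      simp
    have h4 := norm_gN n ε κ (φ - θ) hε hκ (hκ1.trans hκ₀1)
    have h5 := norm_den κ (φ - θ)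
    have h6 : ‖gN n ε (((-κ : ℝ) : ℂ) + ((φ - θ : ℝ) : ℂ) * Complex.I)‖ /
        ‖Complex.exp (((-κ : ℝ) : ℂ) + ((φ - θ : ℝ) : ℂ) * Complex.I) - 1‖ ≤
        (1 - Real.exp (-κ))⁻¹ * Real.exp (n * (ε * (κ + κ ^ 2))) := by
      rw [div_eq_inv_mul]
      exact mul_le_mul (inv_anti₀ hexp h5) h4 (norm_nonneg _) (by positivity)
    rw [h3]
    have h7 : Real.exp (((n : ℂ) * Ph m (((-κ : ℝ) : ℂ) + φ * Complex.I)).re) ≤
        Real.exp (n * (-κ * NR m 0 + C * κ ^ 2)) := Real.exp_le_exp.2 h1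
    calc Real.exp (((n : ℂ) * Ph m (((-κ : ℝ) : ℂ) + φ * Complex.I)).re) *
          (Real.exp (w * κ) * (‖gN n ε (((-κ : ℝ) : ℂ) + ((φ - θ : ℝ) : ℂ) * Complex.I)‖ /
          ‖Complex.exp (((-κ : ℝ) : ℂ) + ((φ - θ : ℝ) : ℂ) * Complex.I) - 1‖))
        ≤ Real.exp (n * (-κ * NR m 0 + C * κ ^ 2)) * (Real.exp (w * κ) *
          ((1 - Real.exp (-κ))⁻¹ * Real.exp (n * (ε * (κ + κ ^ 2))))) := by
          refine mul_le_mul h7 (mul_le_mul_of_nonneg_left h6 (Real.exp_pos _).le) ?_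
            (Real.exp_pos _).le
          positivity
      _ = (1 - Real.exp (-κ))⁻¹ * Real.exp (n * (-κ * NR m 0 + C * κ ^ 2) + w * κ +
          n * (ε * (κ + κ ^ 2))) := by
          rw [Real.exp_add, Real.exp_add]; ring
      _ ≤ (1 - Real.exp (-κ))⁻¹ * Real.exp (-(n * (κ * Δ / 2))) := by
          refine mul_le_mul_of_nonneg_left (Real.exp_le_exp.2 ?_) (by positivity)
          have h8 : (w : ℝ) * κ ≤ (NR m 0 - ε - Δ) * n * κ :=
            mul_le_mul_of_nonneg_right hw hκ.le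
          have h9 : κ * (C + ε) * (n * κ) ≤ Δ / 2 * (n * κ) :=
            mul_le_mul_of_nonneg_right hκ2 (by positivity)
          nlinarith
  have hpi : 0 < 2 * Real.pi := by positivity
  have h10 : |Real.pi - -Real.pi| = 2 * Real.pi := by
    rw [sub_neg_eq_add, ← two_mul, abs_of_pos hpi]
  rw [h10] at hint
  have hv : ‖vN m n w ε (-κ) θ‖ ≤ (1 - Real.exp (-κ))⁻¹ * Real.exp (-(n * (κ * Δ / 2))) := by
    unfold vN
    rw [norm_div]
    have h11 : ‖(2 * Real.pi : ℂ)‖ = 2 * Real.pi := by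
      rw [norm_mul, Complex.norm_ofNat, Complex.norm_real, Real.norm_eq_abs,
        abs_of_pos Real.pi_pos]
    rw [h11, div_le_iff₀ hpi]
    exact hint
  have hKe : (1 - Real.exp (-κ))⁻¹ ≤ Real.exp (ε₁ * n) := by
    have h3 : (1 - Real.exp (-κ))⁻¹ / ε₁ ≤ n := hn₁.trans (by exact_mod_cast hn)
    rw [div_le_iff₀ hε₁0] at h3
    have h4 := Real.add_one_le_exp (ε₁ * n)
    nlinarith
  calc ‖vN m n w ε (-κ) θ‖ ≤ (1 - Real.exp (-κ))⁻¹ * Real.exp (-(n * (κ * Δ / 2))) := hv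
    _ ≤ Real.exp (ε₁ * n) * Real.exp (-(n * (κ * Δ / 2))) :=
        mul_le_mul_of_nonneg_right hKe (Real.exp_pos _).le
    _ = Real.exp (-ε₁ * n) := by
      rw [← Real.exp_add]
      congr 1
      rw [hε₁]; ring

end Pool.Agent.TH41.BL.LE3f
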