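import Mathlib
import Pool.Agent.TH41.BL.Stm3

set_option autoImplicit false

open MeasureTheory Filter Topology

namespace Pool.Agent.TH41.BL.MA3f

open Pool.Agent.TH41.BL

/-- the comparison of the sums -/
lemma compare (m : ℕ) (C v f : ℕ → ℝ) (A B x : ℝ) (hC : ∀ w, 0 ≤ C w) (hAB : A < B)
    (h1 : ∀ w ∈ Finset.range m, (w : ℝ) ≤ A → |1 - v w| ≤ x)
    (h2 : ∀ w ∈ Finset.range m, A ≤ (w : ℝ) → v w ≤ 1 + x)
    (h3 : ∀ w ∈ Finset.range m, B ≤ (w : ℝ) → v w ≤ 5 / 6)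
    (hf : ∀ w ∈ Finset.range m, A < (w : ℝ) → f w ≤ 0) :
    ∑ w ∈ Finset.range m, C w * (1 - v w) * f w ≤
      x * ∑ w ∈ (Finset.range m).filter (fun w : ℕ => (w : ℝ) < B), C w * |f w| -
        1 / 6 * ∑ w ∈ (Finset.range m).filter (fun w : ℕ => B ≤ (w : ℝ)), C w * |f w| := by
  classical
  rw [Finset.sum_filter, Finset.sum_filter, Finset.mul_sum, Finset.mul_sum,
    ← Finset.sum_sub_distrib]
  refine Finset.sum_le_sum fun w hw => ?_
  have hCw := hC w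
  have hab := abs_nonneg (f w)
  have hCf : 0 ≤ C w * |f w| := mul_nonneg hCw hab
  rcases le_or_gt B (w : ℝ) with hb | hb
  · rw [if_neg (not_lt.2 hb), if_pos hb]
    have hfw := hf w hw (by linarith)
    have hv := h3 w hw hb
    rw [abs_of_nonpos hfw]
    have e1 : 0 ≤ (1 - v w - 1 / 6) * (C w * (-f w)) :=
      mul_nonneg (by linarith) (mul_nonneg hCw (by linarith))
    nlinarith
  · rw [if_pos hb, if_neg (not_le.2 hb)]
    rcases lt_or_ge A (w : ℝ) with hb2 | hb2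
    · have hfw := hf w hw hb2
      have hv := h2 w hw hb2.le
      rw [abs_of_nonpos hfw]
      have e1 : 0 ≤ (1 - v w + x) * (C w * (-f w)) :=
        mul_nonneg (by linarith) (mul_nonneg hCw (by linarith))
      nlinarith
    · have hv := h1 w hw hb2
      have e1 : C w * (1 - v w) * f w ≤ |C w * (1 - v w) * f w| := le_abs_self _
      rw [abs_mul, abs_mul, abs_of_nonneg hCw] at e1
      have e2 : |1 - v w| * (C w * |f w|) ≤ x * (C w * |f w|) :=
        mul_le_mul_of_nonneg_right hv hCf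
      nlinarith

theorem main3 (hk : S_kra) (hpb : S3_pb) (hp : S3_ph) (hl : S3_left) (ht : S3_trans) (hd : S3_dual) (hn : S3_near) : S3_main := by
  obtain ⟨-, hk2, hk3, -, -⟩ := hk
  intro m δ ε' hm hδ hε'
  have hPh0 : Ph m 0 = 0 := (hp m hm).2.1
  obtain ⟨γ, hγ⟩ : ∃ γ : ℝ, γ = NR m 0 - δ := ⟨_, rfl⟩
  have hγ0 : 0 < γ := by rw [hγ]; linarith
  obtain ⟨ε, hε⟩ : ∃ ε : ℝ, ε = min (γ / 2) (1 / 4) := ⟨_, rfl⟩
  have hε0 : 0 < ε := by
    rw [hε]
    exact lt_min (by linarith) (by norm_num)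
  have hε4 : ε ≤ 1 / 4 := by
    rw [hε]
    exact min_le_right _ _
  have hεγ : ε ≤ γ / 2 := by
    rw [hε]
    exact min_le_left _ _
  obtain ⟨D0, hD0, ct, hct0, hct⟩ := ht m ε hm hε0 (by linarith)
  obtain ⟨Δ, hΔ⟩ : ∃ Δ : ℝ, Δ = min D0 ε := ⟨_, rfl⟩
  have hΔ0 : 0 < Δ := by
    rw [hΔ]
    exact lt_min hD0 hε0
  have hΔD : Δ ≤ D0 := by
    rw [hΔ]
    exact min_le_left _ _
  have hΔε : Δ ≤ ε := by
    rw [hΔ]
    exact min_le_right _ _
  obtain ⟨cl, hcl0, hcl⟩ := hl m ε Δ hm hε0 hΔ0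
  obtain ⟨cd, hcd0, hcd⟩ := hd m ε (ε' / 4) hm hε0 (by linarith)
  obtain ⟨c, hc⟩ : ∃ c : ℝ, c = min ct (min cl cd) := ⟨_, rfl⟩
  have hc0 : 0 < c := by
    rw [hc]
    exact lt_min hct0 (lt_min hcl0 hcd0)
  obtain ⟨εt, hεt, n1, h1⟩ := hct c hc0 (by rw [hc]; exact min_le_left _ _)
  obtain ⟨εl, hεl, n2, h2⟩ := hcl c hc0
    (by rw [hc]; exact (min_le_right _ _).trans (min_le_left _ _))
  obtain ⟨n4, h4⟩ := hcd c hc0
    (by rw [hc]; exact (min_le_right _ _).trans (min_le_right _ _))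
  obtain ⟨ε1, hε1e⟩ : ∃ ε1 : ℝ, ε1 = min εt εl := ⟨_, rfl⟩
  have hε1 : 0 < ε1 := by
    rw [hε1e]
    exact lt_min hεt hεl
  have hε1t : ε1 ≤ εt := by
    rw [hε1e]
    exact min_le_left _ _
  have hε1l : ε1 ≤ εl := by
    rw [hε1e]
    exact min_le_right _ _
  obtain ⟨n3, h3⟩ := hn m ε (ε1 / 2) (ε' / 4) hm hε0 (by linarith) (by linarith)
  obtain ⟨n5, h5⟩ := exists_nat_ge (10 / ε1)
  obtain ⟨n6, h6⟩ := exists_nat_ge (2 / ε')
  refine ⟨n1 + n2 + n3 + n4 + n5 + n6 + 1, ?_⟩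
  intro n hnn hQz d hdn l hl0 hfe
  have hn1 : (1 : ℝ) ≤ n := by
    have : 1 ≤ n := by omega
    exact_mod_cast this
  have hnpos : (0 : ℝ) < n := by linarith
  -- the function
  obtain ⟨f, hf⟩ : ∃ f : ℕ → ℝ, f = fun w => ∑ i ∈ Finset.range (n + 1), l i * (kr n i w : ℝ) :=
    ⟨_, rfl⟩
  have htr : ∀ j, j ≤ n → tr n f j = √2 ^ n * l j := by
    intro j hj
    rw [hf]
    exact hk2 n l j hj
  have hs2 : (0 : ℝ) < √2 ^ n := by positivity
  have hs22 : (√2 : ℝ) ^ n * √2 ^ n = 2 ^ n := by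
    rw [← mul_pow, Real.mul_self_sqrt (by norm_num)]
  have hs2e : (√2 : ℝ) ^ n = Real.exp (n * (1 / 2 * Real.log 2)) := by
    have e1 : (√2 : ℝ) = Real.exp (1 / 2 * Real.log 2) := by
      rw [Real.sqrt_eq_rpow, Real.rpow_def_of_pos (by norm_num)]
      congr 1
      ring
    rw [e1, ← Real.exp_nat_mul]
  obtain ⟨Sg, hSg⟩ : ∃ Sg : ℝ, Sg = ∑ j ∈ Finset.range (n + 1), l j * (kr n j 0 : ℝ) := ⟨_, rfl⟩
  have hSg0 : 0 ≤ Sg := by
    rw [hSg]
    refine Finset.sum_nonneg fun j _ => mul_nonneg (hl0 j) ?_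
    rw [hk3]
    positivity
  have hNN : NN n f = √2 ^ n * Sg := by
    unfold NN
    rw [hSg, Finset.mul_sum]
    refine Finset.sum_congr rfl fun j hj => ?_
    have hj' : j ≤ n := by
      have := Finset.mem_range.1 hj
      omega
    rw [htr j hj', abs_of_nonneg (mul_nonneg hs2.le (hl0 j)), hk3]
    push_cast
    ring
  have hsum : ∑ w ∈ Finset.range (n + 1), (n.choose w : ℝ) * f w = 2 ^ n * l 0 := by
    have e1 := htr 0 (Nat.zero_le n)
    unfold tr at e1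
    have e2 : ∑ w ∈ Finset.range (n + 1), f w * (kr n w 0 : ℝ) = √2 ^ n * (√2 ^ n * l 0) := by
      rw [← e1, ← mul_assoc, mul_inv_cancel₀ hs2.ne', one_mul]
    rw [← mul_assoc, hs22] at e2
    rw [← e2]
    refine Finset.sum_congr rfl fun w _ => ?_
    rw [hk3]
    push_cast
    ring
  -- the weights
  obtain ⟨v, hv⟩ : ∃ v : ℕ → ℝ, ∀ w, v w = (vN m n w ε c 0).re := ⟨_, fun _ => rfl⟩
  have hre : (∑ w ∈ Finset.range (n + 1), (n.choose w : ℂ) * vN m n w ε c 0 * (f w : ℂ)).re =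
      ∑ w ∈ Finset.range (n + 1), (n.choose w : ℝ) * v w * f w := by
    rw [Complex.re_sum]
    refine Finset.sum_congr rfl fun w _ => ?_
    rw [Complex.re_mul_ofReal, ← Complex.ofReal_natCast, Complex.re_ofReal_mul, hv]
  have hdual := h4 n (by omega) hQz 0 f
  have hNN0 : 0 ≤ NN n f := by
    unfold NN
    exact Finset.sum_nonneg fun j _ => mul_nonneg (Nat.cast_nonneg _) (abs_nonneg _)
  obtain ⟨E7, hE7⟩ : ∃ E7 : ℝ, E7 = Real.exp (n * (mu3 m + ε' / 4)) := ⟨_, rfl⟩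
  have hE70 : 0 < E7 := by
    rw [hE7]
    exact Real.exp_pos _
  have hdual2 : |∑ w ∈ Finset.range (n + 1), (n.choose w : ℝ) * v w * f w| ≤
      E7 * NN n f := by
    rw [← hre, hE7]
    exact (Complex.abs_re_le_norm _).trans hdual
  -- the position of the small weights
  have hsmall : ∀ w : ℕ, w < d → (w : ℝ) ≤ (NR m 0 - ε - Δ) * n := by
    intro w hw
    have e1 : (w : ℝ) ≤ δ * n := by
      have : (w : ℝ) ≤ d := by exact_mod_cast hw.le
      linarith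
    have e2 : δ ≤ NR m 0 - ε - Δ := by linarith
    exact e1.trans (mul_le_mul_of_nonneg_right e2 hnpos.le)
  have hwn : ∀ w ∈ Finset.range (n + 1), w ≤ n := fun w hw => by
    have := Finset.mem_range.1 hw
    omega
  have hexpt : Real.exp (-εt * n) ≤ Real.exp (-ε1 * n) :=
    Real.exp_le_exp.2 (mul_le_mul_of_nonneg_right (neg_le_neg hε1t) hnpos.le)
  have hexpl : Real.exp (-εl * n) ≤ Real.exp (-ε1 * n) :=
    Real.exp_le_exp.2 (mul_le_mul_of_nonneg_right (neg_le_neg hε1l) hnpos.le)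
  have hres : ∀ w : ℕ, Complex.exp (n * Ph m (((0 : ℝ) : ℂ) * Complex.I) -
      w * (((0 : ℝ) : ℂ) * Complex.I)) = 1 := by
    intro w
    rw [Complex.ofReal_zero, zero_mul, hPh0]
    simp
  have hAB : (NR m 0 - ε - Δ) * n < (NR m 0 - ε) * n :=
    mul_lt_mul_of_pos_right (by linarith) hnpos
  have hDD : NR m 0 - ε - D0 ≤ NR m 0 - ε - Δ := by linarith
  have a1 : ∀ w ∈ Finset.range (n + 1), (w : ℝ) ≤ (NR m 0 - ε - Δ) * n →
      |1 - v w| ≤ Real.exp (-ε1 * n) := by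
    intro w hw hb
    have e1 := h2 n w (by omega) hQz hb 0
    rw [hres] at e1
    have e2 := (Complex.abs_re_le_norm _).trans e1
    rw [Complex.sub_re, Complex.one_re, ← hv, abs_sub_comm] at e2
    exact e2.trans hexpl
  have a2 : ∀ w ∈ Finset.range (n + 1), (NR m 0 - ε - Δ) * n ≤ (w : ℝ) →
      v w ≤ 1 + Real.exp (-ε1 * n) := by
    intro w hw hb
    have e0 : (NR m 0 - ε - D0) * n ≤ (w : ℝ) :=
      (mul_le_mul_of_nonneg_right hDD hnpos.le).trans hb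
    have e1 := (h1 n w (by omega) (hwn w hw) hQz).1 e0
    rw [hv]
    exact e1.trans (by linarith)
  have a3 : ∀ w ∈ Finset.range (n + 1), (NR m 0 - ε) * n ≤ (w : ℝ) → v w ≤ 5 / 6 := by
    intro w hw hb
    have e1 := (h1 n w (by omega) (hwn w hw) hQz).2 hb
    rw [hv]
    exact e1
  have a4 : ∀ w ∈ Finset.range (n + 1), (NR m 0 - ε - Δ) * n < (w : ℝ) → f w ≤ 0 := by
    intro w hw hb
    have hdw : d ≤ w := by
      by_contra hcon
      have := hsmall w (by omega)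
      exact absurd hb (not_lt.2 this)
    have := hfe w hdw (hwn w hw)
    rw [hf]
    exact this
  have hcmp := compare (n + 1) (fun w => (n.choose w : ℝ)) v f ((NR m 0 - ε - Δ) * n)
    ((NR m 0 - ε) * n) (Real.exp (-ε1 * n)) (fun w => Nat.cast_nonneg _) hAB a1 a2 a3 a4
  have hnear := h3 n (by omega) hQz f
  obtain ⟨Ne, hNe⟩ : ∃ Ne : ℝ, Ne = ∑ w ∈ (Finset.range (n + 1)).filter
    (fun w : ℕ => (w : ℝ) < (NR m 0 - ε) * n), (n.choose w : ℝ) * |f w| := ⟨_, rfl⟩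
  obtain ⟨Fa, hFa⟩ : ∃ Fa : ℝ, Fa = ∑ w ∈ (Finset.range (n + 1)).filter
    (fun w : ℕ => (NR m 0 - ε) * n ≤ (w : ℝ)), (n.choose w : ℝ) * |f w| := ⟨_, rfl⟩
  have hFa0 : 0 ≤ Fa := by
    rw [hFa]
    exact Finset.sum_nonneg fun j _ => mul_nonneg (Nat.cast_nonneg _) (abs_nonneg _)
  rw [← hNe, ← hFa, ← hE7] at hnear
  rw [← hNe, ← hFa] at hcmp
  -- the exponential factors
  have hx6 : Real.exp (-(ε1 / 2) * n) ≤ 1 / 6 := by
    have e1 : 5 ≤ ε1 / 2 * n := by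
      have e2 : (n5 : ℝ) ≤ n := by
        have : n5 ≤ n := by omega
        exact_mod_cast this
      have e3 : 10 / ε1 ≤ n := h5.trans e2
      rw [div_le_iff₀ hε1] at e3
      linarith
    have e2 := Real.add_one_le_exp (ε1 / 2 * n)
    have e3 : 6 ≤ Real.exp (ε1 / 2 * n) := by linarith
    rw [neg_mul, Real.exp_neg, one_div]
    exact inv_anti₀ (by norm_num) e3
  have hxx : Real.exp (-ε1 * n) * Real.exp (ε1 / 2 * n) = Real.exp (-(ε1 / 2) * n) := by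
    rw [← Real.exp_add]
    congr 1
    ring
  have hx1 : Real.exp (-ε1 * n) ≤ 1 := by
    rw [Real.exp_le_one_iff, neg_mul]
    exact neg_nonpos.2 (mul_nonneg hε1.le hnpos.le)
  have hE := mul_nonneg hE70.le hNN0
  have hS : ∑ w ∈ Finset.range (n + 1), (n.choose w : ℝ) * (1 - v w) * f w ≤
      E7 * NN n f := by
    refine hcmp.trans ?_
    have e1 : Real.exp (-ε1 * n) * Ne ≤ Real.exp (-(ε1 / 2) * n) * Fa +
        Real.exp (-ε1 * n) * (E7 * NN n f) := by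
      rw [← hxx, mul_assoc, ← mul_add]
      exact mul_le_mul_of_nonneg_left hnear (Real.exp_pos _).le
    have e2 : Real.exp (-(ε1 / 2) * n) * Fa ≤ 1 / 6 * Fa :=
      mul_le_mul_of_nonneg_right hx6 hFa0
    have e3 : Real.exp (-ε1 * n) * (E7 * NN n f) ≤ 1 * (E7 * NN n f) :=
      mul_le_mul_of_nonneg_right hx1 hE
    linarith
  have hsplit : ∑ w ∈ Finset.range (n + 1), (n.choose w : ℝ) * (1 - v w) * f w =
      2 ^ n * l 0 - ∑ w ∈ Finset.range (n + 1), (n.choose w : ℝ) * v w * f w := by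
    rw [← hsum, ← Finset.sum_sub_distrib]
    refine Finset.sum_congr rfl fun w _ => ?_
    ring
  have hfin : 2 ^ n * l 0 ≤ 2 * (E7 * NN n f) := by
    have e1 := le_abs_self (∑ w ∈ Finset.range (n + 1), (n.choose w : ℝ) * v w * f w)
    rw [hsplit] at hS
    linarith
  rw [← hSg]
  rw [hNN, ← hs22] at hfin
  have e1 : √2 ^ n * (√2 ^ n * l 0) ≤ √2 ^ n * (2 * E7 * Sg) := by
    calc √2 ^ n * (√2 ^ n * l 0) = √2 ^ n * √2 ^ n * l 0 := by ring
      _ ≤ 2 * (E7 * (√2 ^ n * Sg)) := hfin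
      _ = √2 ^ n * (2 * E7 * Sg) := by ring
  have e2 := le_of_mul_le_mul_left e1 hs2
  have e3 : Real.exp (-(n * (mu3 m + ε'))) * E7 = Real.exp (-(3 / 4 * (n * ε'))) := by
    rw [hE7, ← Real.exp_add]
    congr 1
    ring
  have e4 : Real.exp (-(3 / 4 * (n * ε'))) * 2 ≤ 1 := by
    have f1 : 2 ≤ n * ε' := by
      have f2 : (n6 : ℝ) ≤ n := by
        have : n6 ≤ n := by omega
        exact_mod_cast this
      have f3 : 2 / ε' ≤ n := h6.trans f2
      rw [div_le_iff₀ hε'] at f3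
      exact f3
    have f4 := Real.add_one_le_exp (3 / 4 * (n * ε'))
    have f5 : 2 ≤ Real.exp (3 / 4 * (n * ε')) := by linarith
    rw [Real.exp_neg, inv_mul_le_iff₀ (Real.exp_pos _), mul_one]
    exact f5
  have e5 : Real.exp (n * (Real.log 2 - I3 m - ε')) =
      Real.exp (-(n * (mu3 m + ε'))) * √2 ^ n := by
    rw [hs2e, ← Real.exp_add]
    congr 1
    unfold mu3
    ring
  calc Real.exp (n * (Real.log 2 - I3 m - ε')) * l 0
      = Real.exp (-(n * (mu3 m + ε'))) * (√2 ^ n * l 0) := by rw [e5]; ring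
    _ ≤ Real.exp (-(n * (mu3 m + ε'))) * (2 * E7 * Sg) :=
        mul_le_mul_of_nonneg_left e2 (Real.exp_pos _).le
    _ = Real.exp (-(3 / 4 * (n * ε'))) * 2 * Sg := by rw [← e3]; ring
    _ ≤ 1 * Sg := mul_le_mul_of_nonneg_right e4 hSg0
    _ = Sg := one_mul _

end Pool.Agent.TH41.BL.MA3f
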