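import Mathlib
import Pool.Agent.TH41.BL.Stm3

set_option autoImplicit false

open MeasureTheory Filter Topology

namespace Pool.Agent.TH41.BL.N3Af

open Pool.Agent.TH41.BL

/-- the values of the hyperbolic cosine -/
lemma cosh_parts (s : ℂ) : (Complex.cosh s).re = Real.cosh s.re * Real.cos s.im ∧
    (Complex.cosh s).im = Real.sinh s.re * Real.sin s.im := by
  have h : Complex.cosh s = ((Real.cosh s.re * Real.cos s.im : ℝ) : ℂ) +
      ((Real.sinh s.re * Real.sin s.im : ℝ) : ℂ) * Complex.I := by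
    conv_lhs => rw [← Complex.re_add_im s]
    rw [Complex.cosh_add, Complex.cosh_mul_I, Complex.sinh_mul_I]
    push_cast
    ring
  rw [h]
  constructor
  · rw [Complex.add_re, Complex.re_ofReal_mul, Complex.I_re, Complex.ofReal_re]
    ring
  · rw [Complex.add_im, Complex.im_ofReal_mul, Complex.I_im, Complex.ofReal_im]
    ring

/-- the quantity under the square root avoids the cut -/
lemma slit {m y : ℝ} {s : ℂ} (hy0 : 0 ≤ y) (hym : y ≤ m) (hs : s ∈ DN m) :
    1 + (y : ℂ) * Complex.cosh s ^ 2 ∈ Complex.slitPlane := by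
  obtain ⟨hre, him⟩ := cosh_parts s
  have h1 : (1 + (y : ℂ) * Complex.cosh s ^ 2).re =
      1 + y * ((Real.cosh s.re * Real.cos s.im) ^ 2 - (Real.sinh s.re * Real.sin s.im) ^ 2) := by
    rw [← hre, ← him, Complex.add_re, Complex.re_ofReal_mul, pow_two, Complex.mul_re,
      Complex.one_re]
    ring
  have h2 : (1 + (y : ℂ) * Complex.cosh s ^ 2).im =
      y * (2 * (Real.cosh s.re * Real.cos s.im) * (Real.sinh s.re * Real.sin s.im)) := by
    rw [← hre, ← him, Complex.add_im, Complex.im_ofReal_mul, pow_two, Complex.mul_im,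
      Complex.one_im]
    ring
  rw [Complex.mem_slitPlane_iff]
  by_cases hi : (1 + (y : ℂ) * Complex.cosh s ^ 2).im = 0
  swap
  · exact Or.inr hi
  left
  rw [h2] at hi
  rw [h1]
  rcases mul_eq_zero.1 hi with h3 | h3
  · rw [h3]; norm_num
  rcases mul_eq_zero.1 h3 with h4 | h4
  · rcases mul_eq_zero.1 h4 with h5 | h5
    · norm_num at h5
    · rcases mul_eq_zero.1 h5 with h6 | h6
      · exact absurd h6 (Real.cosh_pos _).ne'
      · -- the cosine vanishes
        rcases hs with h7 | h7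
        · have h8 := abs_lt.1 h7
          have := Real.cos_pos_of_mem_Ioo (show s.im ∈ Set.Ioo (-(Real.pi / 2)) (Real.pi / 2) from
            ⟨by linarith [h8.1], h8.2⟩)
          exact absurd h6 this.ne'
        · rw [h6]
          have h9 : Real.sin s.im ^ 2 ≤ 1 := Real.sin_sq_le_one _
          have h10 : y * (Real.sinh s.re ^ 2 * Real.sin s.im ^ 2) ≤
              y * (Real.sinh s.re ^ 2 * 1) := by gcongr
          have h11 : y * (Real.sinh s.re ^ 2 * 1) ≤ m * (Real.sinh s.re ^ 2 * 1) := by gcongr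
          nlinarith
  · rw [h4]
    have : 0 ≤ y * (Real.cosh s.re * Real.cos s.im) ^ 2 := by positivity
    nlinarith

lemma isOpen_DN (m : ℝ) : IsOpen (DN m) := by
  have h1 : IsOpen {s : ℂ | |s.im| < Real.pi / 2} :=
    isOpen_lt (Complex.continuous_im.abs) continuous_const
  have h2 : IsOpen {s : ℂ | m * Real.sinh s.re ^ 2 < 1} :=
    isOpen_lt (continuous_const.mul ((Real.continuous_sinh.comp Complex.continuous_re).pow 2))
      continuous_const
  exact h1.union h2

lemma sq_ne (z : ℂ) : sq z ≠ 0 := Complex.exp_ne_zero _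

lemma sq_hasDerivAt {z : ℂ} (hz : z ∈ Complex.slitPlane) :
    HasDerivAt sq (sq z * (z⁻¹ / 2)) z := by
  unfold sq
  exact ((Complex.hasDerivAt_log hz).div_const 2).cexp

lemma sq_continuousOn : ContinuousOn sq Complex.slitPlane := fun _ hz =>
  (sq_hasDerivAt hz).continuousAt.continuousWithinAt

/-- differentiation under the integral sign -/
lemma param {F F' : ℂ → ℝ → ℂ} {s₀ : ℂ} {r m : ℝ} (hm : 0 < m) (hr : 0 < r)
    (hF : ContinuousOn (fun p : ℂ × ℝ => F p.1 p.2) (Metric.closedBall s₀ r ×ˢ Set.Icc 0 m))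
    (hF' : ContinuousOn (fun p : ℂ × ℝ => F' p.1 p.2) (Metric.closedBall s₀ r ×ˢ Set.Icc 0 m))
    (hd : ∀ s ∈ Metric.closedBall s₀ r, ∀ y ∈ Set.Icc 0 m,
      HasDerivAt (fun s => F s y) (F' s y) s) :
    HasDerivAt (fun s => ∫ y in (0 : ℝ)..m, F s y) (∫ y in (0 : ℝ)..m, F' s₀ y) s₀ := by
  obtain ⟨K, hK⟩ := ((isCompact_closedBall s₀ r).prod
    (isCompact_Icc (a := (0 : ℝ)) (b := m))).exists_bound_of_continuousOn hF'
  have hsec : ∀ s ∈ Metric.closedBall s₀ r, ContinuousOn (fun y => F s y) (Set.Icc 0 m) :=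
    fun s hs => hF.comp (continuousOn_const.prodMk continuousOn_id) fun y hy => ⟨hs, hy⟩
  have hsec' : ∀ s ∈ Metric.closedBall s₀ r, ContinuousOn (fun y => F' s y)
      (Set.Icc 0 m) :=
    fun s hs => hF'.comp (continuousOn_const.prodMk continuousOn_id) fun y hy => ⟨hs, hy⟩
  have huI : Set.uIoc 0 m ⊆ Set.Icc 0 m := by
    rw [Set.uIoc_of_le hm.le]
    exact Set.Ioc_subset_Icc_self
  have hs₀b : s₀ ∈ Metric.closedBall s₀ r := Metric.mem_closedBall_self hr.le
  have key := intervalIntegral.hasDerivAt_integral_of_dominated_loc_of_deriv_le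
    (μ := volume) (a := (0 : ℝ)) (b := m) (F := F) (F' := F') (x₀ := s₀)
    (s := Metric.closedBall s₀ r) (bound := fun _ => K)
    (Metric.closedBall_mem_nhds s₀ hr)
    (by
      filter_upwards [Metric.closedBall_mem_nhds s₀ hr] with s hs
      exact ((hsec s hs).mono huI).aestronglyMeasurable measurableSet_uIoc)
    (by
      apply ContinuousOn.intervalIntegrable
      rw [Set.uIcc_of_le hm.le]
      exact hsec s₀ hs₀b)
    (((hsec' s₀ hs₀b).mono huI).aestronglyMeasurable measurableSet_uIoc)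
    (Eventually.of_forall fun y hy s hs => hK (s, y) ⟨hs, huI hy⟩)
    intervalIntegrable_const
    (Eventually.of_forall fun y hy s hs => hd s hs y (huI hy))
  exact key.2

/-- the derivative of the inverse of the square root -/
lemma inv_hasDerivAt {g : ℂ → ℂ} {g' w s : ℂ} (hg : HasDerivAt g g' s)
    (h : g s ∈ Complex.slitPlane) :
    HasDerivAt (fun s => w / sq (g s)) (-(w * ((g s)⁻¹ / 2 * g')) / sq (g s)) s := by
  have h2 : HasDerivAt (fun s => sq (g s)) (sq (g s) * ((g s)⁻¹ / 2) * g') s :=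
    (sq_hasDerivAt h).comp s hg
  have h3 := (hasDerivAt_const s w).div h2 (sq_ne _)
  have hz := sq_ne (g s)
  have hz2 := Complex.slitPlane_ne_zero h
  have e : -(w * ((g s)⁻¹ / 2 * g')) / sq (g s) =
      (0 * sq (g s) - w * (sq (g s) * ((g s)⁻¹ / 2) * g')) / sq (g s) ^ 2 := by
    field_simp
    ring
  rw [e]
  exact h3

lemma g_hasDerivAt (y s : ℂ) : HasDerivAt (fun s : ℂ => 1 + y * Complex.cosh s ^ 2)
    (y * (2 * Complex.cosh s * Complex.sinh s)) s := by
  have h1 := (((Complex.hasDerivAt_cosh s).pow 2).const_mul y).const_add 1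
  have e : y * (2 * Complex.cosh s * Complex.sinh s) =
      y * (((2 : ℕ) : ℂ) * Complex.cosh s ^ (2 - 1) * Complex.sinh s) := by
    norm_num
  rw [e]
  exact h1

theorem na (hw : S3_w) : S3_na := by
  intro m hm s₀ hs₀
  obtain ⟨ε, hε, hball⟩ := Metric.isOpen_iff.1 (isOpen_DN m) s₀ hs₀
  have hε2 : 0 < ε / 2 := by linarith
  have hcb : Metric.closedBall s₀ (ε / 2) ⊆ DN m := fun x hx => hball
    (Metric.mem_ball.2 (lt_of_le_of_lt (Metric.mem_closedBall.1 hx) (by linarith)))
  have hWc : ContinuousOn WN (Set.Icc 0 m) := hw.1.mono fun x hx => hx.1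
  -- joint continuity
  have hgc : ContinuousOn (fun p : ℂ × ℝ => 1 + (p.2 : ℂ) * Complex.cosh p.1 ^ 2)
      (Metric.closedBall s₀ (ε / 2) ×ˢ Set.Icc 0 m) :=
    (continuous_const.add ((Complex.continuous_ofReal.comp continuous_snd).mul
      ((Complex.continuous_cosh.comp continuous_fst).pow 2))).continuousOn
  have hmaps : Set.MapsTo (fun p : ℂ × ℝ => 1 + (p.2 : ℂ) * Complex.cosh p.1 ^ 2)
      (Metric.closedBall s₀ (ε / 2) ×ˢ Set.Icc 0 m) Complex.slitPlane := fun p hp =>
    slit hp.2.1 hp.2.2 (hcb hp.1)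
  have hsqc : ContinuousOn (fun p : ℂ × ℝ => sq (1 + (p.2 : ℂ) * Complex.cosh p.1 ^ 2))
      (Metric.closedBall s₀ (ε / 2) ×ˢ Set.Icc 0 m) := sq_continuousOn.comp hgc hmaps
  have hWc2 : ContinuousOn (fun p : ℂ × ℝ => (WN p.2 : ℂ))
      (Metric.closedBall s₀ (ε / 2) ×ˢ Set.Icc 0 m) :=
    Complex.continuous_ofReal.comp_continuousOn
      (hWc.comp continuous_snd.continuousOn fun p hp => hp.2)
  have hd' : ContinuousOn (fun p : ℂ × ℝ => (p.2 : ℂ) * (2 * Complex.cosh p.1 *
      Complex.sinh p.1)) (Metric.closedBall s₀ (ε / 2) ×ˢ Set.Icc 0 m) :=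
    ((Complex.continuous_ofReal.comp continuous_snd).mul
      ((continuous_const.mul (Complex.continuous_cosh.comp continuous_fst)).mul
        (Complex.continuous_sinh.comp continuous_fst))).continuousOn
  have key := param (F := fun s y => (WN y : ℂ) / sq (1 + (y : ℂ) * Complex.cosh s ^ 2))
    (F' := fun s y => -((WN y : ℂ) * ((1 + (y : ℂ) * Complex.cosh s ^ 2)⁻¹ / 2 *
      ((y : ℂ) * (2 * Complex.cosh s * Complex.sinh s)))) / sq (1 + (y : ℂ) * Complex.cosh s ^ 2))
    (s₀ := s₀) hm hε2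
    (hWc2.div hsqc fun p _ => sq_ne _)
    ((hWc2.mul (((hgc.inv₀ fun p hp => Complex.slitPlane_ne_zero (hmaps hp)).div_const
      2).mul hd')).neg.div hsqc fun p _ => sq_ne _)
    (fun s hs y hy => inv_hasDerivAt (g_hasDerivAt y s) (slit hy.1 hy.2 (hcb hs)))
  exact key.differentiableAt

end Pool.Agent.TH41.BL.N3Af
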