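import Mathlib
import Pool.Agent.TH41.BL.Stm3

/-!
Symmetries and values of the function `Nf`.
-/

set_option autoImplicit false

open MeasureTheory Filter Topology

namespace Pool.Agent.TH41.BL.N3Bf

open Pool.Agent.TH41.BL

/-- `1 + y cosh² s` lies in the slit plane. -/
theorem mem_slit (m : ℝ) (s : ℂ) (hs : s ∈ DN m) (y : ℝ) (hy0 : 0 ≤ y) (hym : y ≤ m) :
    (1 + (y : ℂ) * Complex.cosh s ^ 2) ∈ Complex.slitPlane := by
  set x : ℝ := s.re with hx
  set φ : ℝ := s.im with hφ
  have hse : s = (x : ℂ) + (φ : ℂ) * Complex.I := (Complex.re_add_im s).symm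
  have hc : Complex.cosh s
      = ((Real.cosh x * Real.cos φ : ℝ) : ℂ) + ((Real.sinh x * Real.sin φ : ℝ) : ℂ) * Complex.I := by
    rw [hse, Complex.cosh_add, Complex.cosh_mul_I, Complex.sinh_mul_I]
    push_cast
    ring
  have hre : (1 + (y : ℂ) * Complex.cosh s ^ 2).re
      = 1 + y * ((Real.cosh x * Real.cos φ) ^ 2 - (Real.sinh x * Real.sin φ) ^ 2) := by
    rw [hc]
    simp only [pow_two, Complex.add_re, Complex.one_re, Complex.mul_re, Complex.ofReal_re,
      Complex.ofReal_im, Complex.add_im, Complex.mul_im, Complex.I_re, Complex.I_im]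
    ring
  have him : (1 + (y : ℂ) * Complex.cosh s ^ 2).im
      = y * (2 * (Real.cosh x * Real.cos φ) * (Real.sinh x * Real.sin φ)) := by
    rw [hc]
    simp only [pow_two, Complex.add_re, Complex.one_im, Complex.mul_re, Complex.ofReal_re,
      Complex.ofReal_im, Complex.add_im, Complex.mul_im, Complex.I_re, Complex.I_im]
    ring
  rw [Complex.mem_slitPlane_iff]
  by_contra hcon
  push Not at hcon
  obtain ⟨h1, h2⟩ := hcon
  rw [hre] at h1
  rw [him] at h2
  have hsc := Real.sin_sq_add_cos_sq φ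
  have hch : 0 < Real.cosh x := Real.cosh_pos x
  have hprod : y = 0 ∨ Real.cos φ = 0 ∨ Real.sinh x = 0 ∨ Real.sin φ = 0 := by
    rcases mul_eq_zero.1 h2 with h | h
    · exact Or.inl h
    · rcases mul_eq_zero.1 h with h | h
      · rcases mul_eq_zero.1 h with h | h
        · norm_num at h
        · rcases mul_eq_zero.1 h with h | h
          · exact absurd h hch.ne'
          · exact Or.inr (Or.inl h)
      · rcases mul_eq_zero.1 h with h | h
        · exact Or.inr (Or.inr (Or.inl h))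
        · exact Or.inr (Or.inr (Or.inr h))
  rcases hprod with h | h | h | h
  · rw [h, zero_mul, add_zero] at h1
    norm_num at h1
  · -- cos φ = 0
    rcases hs with hs | hs
    · have h3 : 0 < Real.cos φ := Real.cos_pos_of_mem_Ioo (abs_lt.1 hs)
      exact absurd h h3.ne'
    · rw [h] at h1 hsc
      have h4 : Real.sin φ ^ 2 = 1 := by nlinarith
      have h5 : (Real.sinh x * Real.sin φ) ^ 2 = Real.sinh x ^ 2 := by
        rw [mul_pow, h4, mul_one]
      rw [h5] at h1
      have h6 : y * Real.sinh x ^ 2 ≤ m * Real.sinh x ^ 2 :=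
        mul_le_mul_of_nonneg_right hym (sq_nonneg _)
      nlinarith
  · rw [h] at h1
    have : 0 ≤ y * (Real.cosh x * Real.cos φ) ^ 2 := mul_nonneg hy0 (sq_nonneg _)
    nlinarith
  · rw [h] at h1
    have : 0 ≤ y * (Real.cosh x * Real.cos φ) ^ 2 := mul_nonneg hy0 (sq_nonneg _)
    nlinarith

theorem sq_conj (z : ℂ) (hz : z ∈ Complex.slitPlane) :
    sq ((starRingEnd ℂ) z) = (starRingEnd ℂ) (sq z) := by
  unfold sq
  rw [Complex.log_conj z (Complex.mem_slitPlane_iff_arg.1 hz).1, ← Complex.exp_conj, map_div₀]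
  congr 2
  exact (Complex.conj_ofReal 2).symm

theorem sq_real (r : ℝ) (hr : 0 < r) : sq (r : ℂ) = ((√r : ℝ) : ℂ) := by
  unfold sq
  rw [← Complex.ofReal_log hr.le]
  have h1 : ((Real.log r : ℝ) : ℂ) / 2 = ((Real.log r / 2 : ℝ) : ℂ) := by push_cast; ring
  rw [h1, ← Complex.ofReal_exp]
  congr 1
  symm
  rw [Real.sqrt_eq_iff_mul_self_eq hr.le (Real.exp_pos _).le, ← Real.exp_add]
  rw [add_halves, Real.exp_log hr]

theorem inv_sq_re (z : ℂ) : 0 ≤ (1 / sq z).re := by
  unfold sq
  rw [one_div, ← Complex.exp_neg, Complex.exp_re]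
  refine mul_nonneg (Real.exp_pos _).le ?_
  have h1 : (-(Complex.log z / 2)).im = -(z.arg / 2) := by
    rw [Complex.neg_im]
    congr 1
    have : Complex.log z / 2 = Complex.log z / ((2 : ℝ) : ℂ) := by push_cast; rfl
    rw [this, Complex.div_ofReal_im, Complex.log_im]
  rw [h1, Real.cos_neg]
  have h2 := Complex.neg_pi_lt_arg z
  have h3 := Complex.arg_le_pi z
  exact Real.cos_nonneg_of_neg_pi_div_two_le_of_le (by linarith) (by linarith)

/-- The integral for a real value of `cosh²`. -/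
theorem Nf_real (m : ℝ) (hm : 0 < m) (s : ℂ) (c : ℝ) (hc : 0 ≤ c)
    (hs : Complex.cosh s ^ 2 = (c : ℂ)) :
    Nf m s = ((∫ y in (0 : ℝ)..m, WN y / √(1 + y * c) : ℝ) : ℂ) := by
  unfold Nf
  rw [← intervalIntegral.integral_ofReal]
  refine intervalIntegral.integral_congr fun y hy => ?_
  rw [Set.uIcc_of_le hm.le] at hy
  have h1 : (1 : ℂ) + (y : ℂ) * Complex.cosh s ^ 2 = ((1 + y * c : ℝ) : ℂ) := by
    rw [hs]; push_cast; ring
  have h2 : 0 < 1 + y * c := by
    have := mul_nonneg hy.1 hc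
    linarith
  rw [h1, sq_real _ h2]
  push_cast
  ring

theorem int_real (hw : S3_w) (m : ℝ) (hm : 0 < m) (c : ℝ) (hc : 0 ≤ c) :
    IntervalIntegrable (fun y => WN y / √(1 + y * c)) volume 0 m := by
  refine ContinuousOn.intervalIntegrable ?_
  rw [Set.uIcc_of_le hm.le]
  refine ContinuousOn.div (hw.1.mono (fun y hy => hy.1)) ?_ ?_
  · fun_prop
  · intro y hy
    have h2 : 0 < 1 + y * c := by
      have := mul_nonneg hy.1 hc
      linarith
    exact (Real.sqrt_pos.2 h2).ne'

theorem nb (hw : S3_w) : S3_nb := by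
  intro m hm
  refine ⟨?_, ?_, ?_, ?_, ?_⟩
  · intro s
    unfold Nf
    rw [Complex.cosh_add_pi_mul_I, neg_sq]
  · intro s hs
    unfold Nf
    rw [← intervalIntegral.intervalIntegral_conj]
    refine intervalIntegral.integral_congr fun y hy => ?_
    rw [Set.uIcc_of_le hm.le] at hy
    have h1 := mem_slit m s hs y hy.1 hy.2
    have h2 : (1 : ℂ) + (y : ℂ) * Complex.cosh ((starRingEnd ℂ) s) ^ 2
        = (starRingEnd ℂ) (1 + (y : ℂ) * Complex.cosh s ^ 2) := by
      rw [Complex.cosh_conj, map_add, map_mul, map_pow, map_one, Complex.conj_ofReal]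
    rw [h2, sq_conj _ h1, map_div₀, Complex.conj_ofReal]
  · intro x
    rw [Nf_real m hm (x : ℂ) (Real.cosh x ^ 2) (sq_nonneg _) (by push_cast; rfl)]
    rfl
  · intro φ
    have h1 := Nf_real m hm ((φ : ℂ) * Complex.I) (Real.cos φ ^ 2) (sq_nonneg _)
      (by rw [Complex.cosh_mul_I]; push_cast; rfl)
    rw [h1]
    refine ⟨Complex.ofReal_im _, ?_⟩
    rw [Complex.ofReal_re]
    unfold NR
    refine intervalIntegral.integral_mono_on hm.le (int_real hw m hm _ (sq_nonneg _))
      (int_real hw m hm _ (sq_nonneg _)) fun y hy => ?_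
    have h2 : 0 < 1 + y * Real.cos φ ^ 2 := by
      have := mul_nonneg hy.1 (sq_nonneg (Real.cos φ))
      linarith
    have h3 : 1 + y * Real.cos φ ^ 2 ≤ 1 + y * Real.cosh 0 ^ 2 := by
      rw [Real.cosh_zero]
      have h4 : Real.cos φ ^ 2 ≤ 1 := Real.cos_sq_le_one φ
      have := mul_le_mul_of_nonneg_left h4 hy.1
      nlinarith
    exact div_le_div_of_nonneg_left (hw.2.1 y hy.1).1.le (Real.sqrt_pos.2 h2)
      (Real.sqrt_le_sqrt h3)
  · intro s _
    unfold Nf
    by_cases hI : IntervalIntegrable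
        (fun y : ℝ => (WN y : ℂ) / sq (1 + (y : ℂ) * Complex.cosh s ^ 2)) volume 0 m
    · have h1 := Complex.reCLM.intervalIntegral_comp_comm hI
      simp only [Complex.reCLM_apply] at h1
      rw [← h1]
      refine intervalIntegral.integral_nonneg hm.le fun y hy => ?_
      have h2 : (WN y : ℂ) / sq (1 + (y : ℂ) * Complex.cosh s ^ 2)
          = (WN y : ℂ) * (1 / sq (1 + (y : ℂ) * Complex.cosh s ^ 2)) := by ring
      rw [h2, Complex.re_ofReal_mul]
      exact mul_nonneg (hw.2.1 y hy.1).1.le (inv_sq_re _)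
    · rw [intervalIntegral.integral_undef hI]
      simp

end Pool.Agent.TH41.BL.N3Bf
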