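import Mathlib
import Pool.Agent.TH41.BL.Stm3

set_option autoImplicit false

open MeasureTheory Filter Topology

namespace Pool.Agent.TH41.BL.N3Cf

open Pool.Agent.TH41.BL

/-- left of the singularity -/
lemma left_part (r b : ℝ) (hr : 0 < r) (hb : 0 ≤ b) (hbr : b * r ≤ 1) :
    IntervalIntegrable (fun y : ℝ => 1 / √|1 - y * r|) volume 0 b ∧
    ∫ y in (0 : ℝ)..b, 1 / √|1 - y * r| = 2 / r * (1 - √(1 - b * r)) := by
  have hcont : ContinuousOn (fun y : ℝ => -(2 / r) * √(1 - y * r)) (Set.uIcc 0 b) := by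
    fun_prop
  have hder : ∀ x ∈ Set.Ioo (min 0 b) (max 0 b),
      HasDerivAt (fun y : ℝ => -(2 / r) * √(1 - y * r)) (1 / √|1 - x * r|) x := by
    intro x hx
    rw [min_eq_left hb, max_eq_right hb] at hx
    have h1 : 0 < 1 - x * r := by nlinarith [hx.2]
    have h2 : HasDerivAt (fun y : ℝ => 1 - y * r) (-r) x := by
      have := ((hasDerivAt_id x).mul_const r).const_sub 1
      simpa using this
    have h3 := (h2.sqrt h1.ne').const_mul (-(2 / r))
    have h4 : √(1 - x * r) ≠ 0 := (Real.sqrt_pos.2 h1).ne'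
    have h5 : 1 / √|1 - x * r| = -(2 / r) * (-r / (2 * √(1 - x * r))) := by
      rw [abs_of_pos h1]
      field_simp
    rw [h5]
    exact h3
  have hint : IntervalIntegrable (fun y : ℝ => 1 / √|1 - y * r|) volume 0 b :=
    intervalIntegral.intervalIntegrable_deriv_of_nonneg hcont hder (fun x _ => by positivity)
  refine ⟨hint, ?_⟩
  have h5 := intervalIntegral.integral_eq_sub_of_hasDerivAt_of_le hb
    (by rw [Set.uIcc_of_le hb] at hcont; exact hcont)
    (fun x hx => hder x (by rw [min_eq_left hb, max_eq_right hb]; exact hx)) hint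
  rw [h5]
  simp only [zero_mul, sub_zero, Real.sqrt_one]
  ring

/-- right of the singularity -/
lemma right_part (r b : ℝ) (hr : 0 < r) (hbr : 1 ≤ b * r) :
    IntervalIntegrable (fun y : ℝ => 1 / √|1 - y * r|) volume (1 / r) b ∧
    ∫ y in (1 / r)..b, 1 / √|1 - y * r| = 2 / r * √(b * r - 1) := by
  have hb : 1 / r ≤ b := by
    rw [div_le_iff₀ hr]; exact hbr
  have hcont : ContinuousOn (fun y : ℝ => (2 / r) * √(y * r - 1)) (Set.uIcc (1 / r) b) := by
    fun_prop
  have hder : ∀ x ∈ Set.Ioo (min (1 / r) b) (max (1 / r) b),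
      HasDerivAt (fun y : ℝ => (2 / r) * √(y * r - 1)) (1 / √|1 - x * r|) x := by
    intro x hx
    rw [min_eq_left hb, max_eq_right hb] at hx
    have h1 : 0 < x * r - 1 := by
      have := (div_lt_iff₀ hr).1 hx.1
      linarith
    have h2 : HasDerivAt (fun y : ℝ => y * r - 1) r x := by
      have := ((hasDerivAt_id x).mul_const r).sub_const 1
      simpa using this
    have h3 := (h2.sqrt h1.ne').const_mul (2 / r)
    have h4 : √(x * r - 1) ≠ 0 := (Real.sqrt_pos.2 h1).ne'
    have h5 : 1 / √|1 - x * r| = 2 / r * (r / (2 * √(x * r - 1))) := by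
      rw [abs_of_neg (by linarith), neg_sub]
      field_simp
    rw [h5]
    exact h3
  have hint : IntervalIntegrable (fun y : ℝ => 1 / √|1 - y * r|) volume (1 / r) b :=
    intervalIntegral.intervalIntegrable_deriv_of_nonneg hcont hder (fun x _ => by positivity)
  refine ⟨hint, ?_⟩
  have h5 := intervalIntegral.integral_eq_sub_of_hasDerivAt_of_le hb
    (by rw [Set.uIcc_of_le hb] at hcont; exact hcont)
    (fun x hx => hder x (by rw [min_eq_left hb, max_eq_right hb]; exact hx)) hint
  rw [h5]
  have h6 : 1 / r * r - 1 = 0 := by field_simp; ring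
  rw [h6, Real.sqrt_zero, mul_zero, sub_zero]

/-- the main integral -/
lemma main_int (r m : ℝ) (hr : 0 < r) (hm : 0 < m) :
    IntervalIntegrable (fun y : ℝ => 1 / √|1 - y * r|) volume 0 m ∧
    ∫ y in (0 : ℝ)..m, 1 / √|1 - y * r| ≤ 4 * √m / √r ∧
    ∫ y in (0 : ℝ)..m, 1 / √|1 - y * r| ≤ 4 * m := by
  have hsr : 0 < √r := Real.sqrt_pos.2 hr
  have hsm : 0 < √m := Real.sqrt_pos.2 hm
  have hrr : √r * √r = r := Real.mul_self_sqrt hr.le
  have hmm : √m * √m = m := Real.mul_self_sqrt hm.le
  by_cases h : m * r ≤ 1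
  · obtain ⟨h1, h2⟩ := left_part r m hr hm.le h
    refine ⟨h1, ?_, ?_⟩
    · rw [h2]
      have h3 : 1 - m * r ≤ √(1 - m * r) := by
        have h4 : 0 ≤ 1 - m * r := by linarith
        have h5 : 0 < m * r := by positivity
        apply Real.le_sqrt_of_sq_le
        nlinarith
      have h6 : 2 / r * (1 - √(1 - m * r)) ≤ 2 / r * (m * r) := by
        apply mul_le_mul_of_nonneg_left _ (by positivity)
        linarith
      have h7 : 2 / r * (m * r) = 2 * m := by field_simp
      have h8 : 2 * m ≤ 4 * √m / √r := by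
        rw [le_div_iff₀ hsr]
        have h9 : √m * √r ≤ 1 := by
          rw [← Real.sqrt_mul hm.le]
          exact Real.sqrt_le_one.2 h
        nlinarith
      linarith
    · rw [h2]
      have h3 : 1 - m * r ≤ √(1 - m * r) := by
        have h4 : 0 ≤ 1 - m * r := by linarith
        have h5 : 0 < m * r := by positivity
        apply Real.le_sqrt_of_sq_le
        nlinarith
      have h6 : 2 / r * (1 - √(1 - m * r)) ≤ 2 / r * (m * r) := by
        apply mul_le_mul_of_nonneg_left _ (by positivity)
        linarith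
      have h7 : 2 / r * (m * r) = 2 * m := by field_simp
      linarith
  · push Not at h
    have h0 : 1 / r * r ≤ 1 := by field_simp; rfl
    obtain ⟨h1, h2⟩ := left_part r (1 / r) hr (by positivity) h0
    obtain ⟨h3, h4⟩ := right_part r m hr h.le
    have h5 : ∫ y in (0 : ℝ)..m, 1 / √|1 - y * r| = 2 / r + 2 / r * √(m * r - 1) := by
      rw [← intervalIntegral.integral_add_adjacent_intervals h1 h3, h2, h4]
      have h6 : 1 - 1 / r * r = 0 := by field_simp; ring
      rw [h6, Real.sqrt_zero]
      ring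
    have h7 : √(m * r - 1) ≤ √m * √r := by
      rw [← Real.sqrt_mul hm.le]
      apply Real.sqrt_le_sqrt
      linarith
    have h8 : 1 ≤ √m * √r := by
      rw [← Real.sqrt_mul hm.le]
      exact Real.one_le_sqrt.2 h.le
    have h9 : 2 / r + 2 / r * √(m * r - 1) ≤ 4 * √m / √r := by
      have h10 : 2 / r + 2 / r * √(m * r - 1) ≤ 2 / r * (2 * (√m * √r)) := by
        have h11 : 2 / r + 2 / r * √(m * r - 1) = 2 / r * (1 + √(m * r - 1)) := by ring
        rw [h11]
        apply mul_le_mul_of_nonneg_left _ (by positivity)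
        linarith
      have h12 : 2 / r * (2 * (√m * √r)) = 4 * √m / √r := by
        rw [eq_div_iff hsr.ne']
        have h13 : 2 / r * (2 * (√m * √r)) * √r = 2 / r * (2 * √m * (√r * √r)) := by ring
        rw [h13, hrr]
        field_simp
        ring
      linarith
    refine ⟨h1.trans h3, by rw [h5]; exact h9, ?_⟩
    rw [h5]
    refine h9.trans ?_
    rw [div_le_iff₀ hsr]
    nlinarith

/-- the weighted integral -/
lemma weighted (hw : S3_w) (m : ℝ) (hm : 0 < m) (r : ℝ) (hr : 0 < r) {E : Type*} [NormedAddCommGroup E]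
    [NormedSpace ℝ E] (F : ℝ → E)
    (hF : ∀ y : ℝ, 0 < y → y ≠ 1 / r → ‖F y‖ ≤ WN y * (1 / √|1 - y * r|)) :
    ‖∫ y in (0 : ℝ)..m, F y‖ ≤ √m / (2 * √r) ∧ ‖∫ y in (0 : ℝ)..m, F y‖ ≤ m / 2 := by
  obtain ⟨h1, h2, h3⟩ := main_int r m hr hm
  have h4 : ‖∫ y in (0 : ℝ)..m, F y‖ ≤ ∫ y in (0 : ℝ)..m, 1 / 8 * (1 / √|1 - y * r|) := by
    apply intervalIntegral.norm_integral_le_of_norm_le hm.le _ (h1.const_mul _)
    have hne : ∀ᵐ y : ℝ ∂volume, y ≠ 1 / r := by
      have : ({1 / r} : Set ℝ)ᶜ ∈ ae (volume : Measure ℝ) := compl_mem_ae_iff.2 (measure_singleton _)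
      exact this
    filter_upwards [hne] with y hy hy2
    refine (hF y hy2.1 hy).trans ?_
    apply mul_le_mul_of_nonneg_right _ (by positivity)
    exact (hw.2.1 y hy2.1.le).2
  rw [intervalIntegral.integral_const_mul] at h4
  have hsr : 0 < √r := Real.sqrt_pos.2 hr
  constructor
  · calc _ ≤ _ := h4
      _ ≤ 1 / 8 * (4 * √m / √r) := by
        apply mul_le_mul_of_nonneg_left h2 (by norm_num)
      _ = √m / (2 * √r) := by
        field_simp
        norm_num
  · linarith

lemma norm_sq {z : ℂ} (hz : z ≠ 0) : ‖sq z‖ = √‖z‖ := by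
  unfold sq
  rw [Complex.norm_exp]
  have h1 : (Complex.log z / 2).re = Real.log ‖z‖ / 2 := by
    rw [Complex.div_ofNat_re, Complex.log_re]
  rw [h1, Real.sqrt_eq_rpow, Real.rpow_def_of_pos (norm_pos_iff.2 hz)]
  congr 1
  ring

lemma norm_cosh_sq (s : ℂ) : ‖Complex.cosh s‖ ^ 2 = Real.sinh s.re ^ 2 + Real.cos s.im ^ 2 := by
  have h1 : Complex.cosh s = (Real.cosh s.re * Real.cos s.im : ℝ) + (Real.sinh s.re * Real.sin s.im : ℝ) * Complex.I := by
    conv_lhs => rw [← Complex.re_add_im s, Complex.cosh_add, Complex.cosh_mul_I, Complex.sinh_mul_I]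
    push_cast
    ring
  rw [h1, Complex.sq_norm, Complex.normSq_add_mul_I]
  have h2 := Real.cosh_sq s.re
  have h3 := Real.sin_sq_add_cos_sq s.im
  rw [mul_pow, mul_pow, h2]
  nlinarith

theorem nc (hw : S3_w) : S3_nc := by
  intro m hm
  have hsm : 0 < √m := Real.sqrt_pos.2 hm
  refine ⟨2 * √m + 2 * m, by positivity, ?_, ?_⟩
  · intro s hs hx
    obtain ⟨x, hxdef⟩ : ∃ x, x = s.re := ⟨_, rfl⟩
    have hcos : 0 < Real.cos s.im := by
      apply Real.cos_pos_of_mem_Ioo
      rw [abs_lt] at hs
      exact ⟨by linarith [hs.1], hs.2⟩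
    have hc0 : 0 < ‖Complex.cosh s‖ := by
      have h1 := norm_cosh_sq s
      have h2 : 0 < ‖Complex.cosh s‖ ^ 2 := by
        rw [h1]; positivity
      by_contra h3
      have h4 : ‖Complex.cosh s‖ = 0 := le_antisymm (not_lt.1 h3) (norm_nonneg _)
      rw [h4] at h2
      norm_num at h2
    have hr : 0 < ‖Complex.cosh s‖ ^ 2 := by positivity
    have hF := weighted hw m hm (‖Complex.cosh s‖ ^ 2) hr
      (fun y : ℝ => (WN y : ℂ) / sq (1 + y * Complex.cosh s ^ 2)) (by
        intro y hy hy2
        have h1 : |1 - y * ‖Complex.cosh s‖ ^ 2| ≤ ‖1 + (y : ℂ) * Complex.cosh s ^ 2‖ := by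
          have h2 := abs_norm_sub_norm_le (1 : ℂ) (-((y : ℂ) * Complex.cosh s ^ 2))
          rw [norm_neg, norm_one, norm_mul, norm_pow, Complex.norm_real, Real.norm_of_nonneg hy.le,
            sub_neg_eq_add] at h2
          exact h2
        have h3 : 0 < |1 - y * ‖Complex.cosh s‖ ^ 2| := by
          rw [abs_pos]
          intro h4
          apply hy2
          rw [eq_div_iff hr.ne']
          linarith
        have h5 : (1 + (y : ℂ) * Complex.cosh s ^ 2) ≠ 0 := by
          rw [← norm_pos_iff]
          linarith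
        show ‖(WN y : ℂ) / sq (1 + y * Complex.cosh s ^ 2)‖ ≤ _
        rw [norm_div, norm_sq h5, Complex.norm_real, Real.norm_of_nonneg (hw.2.1 y hy.le).1.le,
          div_eq_mul_one_div]
        apply mul_le_mul_of_nonneg_left _ (hw.2.1 y hy.le).1.le
        apply one_div_le_one_div_of_le (Real.sqrt_pos.2 h3)
        exact Real.sqrt_le_sqrt h1)
    have hN : Nf m s = ∫ y in (0 : ℝ)..m, (WN y : ℂ) / sq (1 + y * Complex.cosh s ^ 2) := rfl
    rw [← hN, Real.sqrt_sq hc0.le] at hF
    obtain ⟨hF1, hF2⟩ := hF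
    rw [← hxdef] at hx ⊢
    by_cases h1 : x ≤ 1
    · refine hF2.trans ?_
      have h2 : Real.exp (-1) ≤ Real.exp (-x) := Real.exp_le_exp.2 (by linarith)
      have h3 : 1 / 4 ≤ Real.exp (-1) := by
        rw [Real.exp_neg]
        rw [le_inv_comm₀ (by norm_num) (Real.exp_pos 1)]
        have := Real.exp_one_lt_d9
        norm_num
        linarith
      have h4 : 1 / 4 ≤ Real.exp (-x) := h3.trans h2
      nlinarith [mul_nonneg hsm.le (Real.exp_pos (-x)).le]
    · push Not at h1
      have h2 : Real.exp x / 4 ≤ ‖Complex.cosh s‖ := by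
        have h3 : Real.sinh x ≤ ‖Complex.cosh s‖ := by
          apply (pow_le_pow_iff_left₀ (Real.sinh_nonneg_iff.2 hx) hc0.le two_ne_zero).1
          rw [norm_cosh_sq, ← hxdef]
          have := sq_nonneg (Real.cos s.im)
          linarith
        refine le_trans ?_ h3
        rw [Real.sinh_eq]
        have h4 : Real.exp (-x) ≤ 1 := Real.exp_le_one_iff.2 (by linarith)
        have h5 : 2 ≤ Real.exp x := by
          have := Real.add_one_le_exp x
          linarith
        linarith
      refine hF1.trans ?_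
      rw [div_le_iff₀ (by positivity)]
      have h3 : Real.exp (-x) * Real.exp x = 1 := by
        rw [← Real.exp_add, neg_add_cancel, Real.exp_zero]
      have h4 : √m ≤ 2 * √m * Real.exp (-x) * (2 * ‖Complex.cosh s‖) := by
        have h5 : 2 * √m * Real.exp (-x) * (2 * (Real.exp x / 4)) ≤
            2 * √m * Real.exp (-x) * (2 * ‖Complex.cosh s‖) := by
          apply mul_le_mul_of_nonneg_left _ (by positivity)
          linarith
        have h6 : 2 * √m * Real.exp (-x) * (2 * (Real.exp x / 4)) = √m * (Real.exp (-x) * Real.exp x) := by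
          ring
        rw [h6, h3, mul_one] at h5
        exact h5
      have h7 : 0 ≤ 2 * m * Real.exp (-x) * (2 * ‖Complex.cosh s‖) := by positivity
      linarith
  · intro x hx
    constructor
    · unfold NR
      apply intervalIntegral.integral_nonneg hm.le
      intro y hy
      exact div_nonneg (hw.2.1 y hy.1).1.le (Real.sqrt_nonneg _)
    · have hc : 0 < Real.cosh x := Real.cosh_pos x
      have hr : 0 < Real.cosh x ^ 2 := by positivity
      have hF := (weighted hw m hm (Real.cosh x ^ 2) hr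
        (fun y : ℝ => WN y / √(1 + y * Real.cosh x ^ 2)) (by
          intro y hy hy2
          have h1 : |1 - y * Real.cosh x ^ 2| ≤ 1 + y * Real.cosh x ^ 2 := by
            have : 0 < y * Real.cosh x ^ 2 := by positivity
            rw [abs_le]
            constructor <;> linarith
          have h3 : 0 < |1 - y * Real.cosh x ^ 2| := by
            rw [abs_pos]
            intro h4
            apply hy2
            rw [eq_div_iff hr.ne']
            linarith
          show ‖WN y / √(1 + y * Real.cosh x ^ 2)‖ ≤ _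
          rw [Real.norm_of_nonneg (div_nonneg (hw.2.1 y hy.le).1.le (Real.sqrt_nonneg _)), div_eq_mul_one_div]
          apply mul_le_mul_of_nonneg_left _ (hw.2.1 y hy.le).1.le
          apply one_div_le_one_div_of_le (Real.sqrt_pos.2 h3)
          exact Real.sqrt_le_sqrt h1)).1
      have hN : NR m x = ∫ y in (0 : ℝ)..m, WN y / √(1 + y * Real.cosh x ^ 2) := rfl
      rw [← hN, Real.sqrt_sq hc.le] at hF
      refine (Real.le_norm_self _).trans (hF.trans ?_)
      rw [div_le_iff₀ (by positivity)]
      have h2 : Real.exp x / 2 ≤ Real.cosh x := by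
        rw [Real.cosh_eq]
        have := Real.exp_pos (-x)
        linarith
      have h3 : Real.exp (-x) * Real.exp x = 1 := by
        rw [← Real.exp_add, neg_add_cancel, Real.exp_zero]
      have h5 : 2 * √m * Real.exp (-x) * (2 * (Real.exp x / 2)) ≤
          2 * √m * Real.exp (-x) * (2 * Real.cosh x) := by
        apply mul_le_mul_of_nonneg_left _ (by positivity)
        linarith
      have h6 : 2 * √m * Real.exp (-x) * (2 * (Real.exp x / 2)) = 2 * √m * (Real.exp (-x) * Real.exp x) := by
        ring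
      rw [h6, h3, mul_one] at h5
      have h7 : 0 ≤ 2 * m * Real.exp (-x) * (2 * Real.cosh x) := by positivity
      linarith

end Pool.Agent.TH41.BL.N3Cf
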