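import Mathlib
import Pool.Agent.TH41.BL.Stm3
import Pool.Agent.TH41.BL.NEA

set_option autoImplicit false

open MeasureTheory Filter Topology

namespace Pool.Agent.TH41.BL.NE3f

open Pool.Agent.TH41.BL

open Pool.Agent.TH41.BL.NEAf (zt th exp_th norm_zt co norm_co sum_co large)

/-- the discrete Fourier transform of the signs: for one `n` -/
lemma core (n : ℕ) (p : ℕ → Prop) [DecidablePred p] (u : ℕ → ℕ → ℂ) (E R : ℝ) (hE : 0 ≤ E)
    (f : ℕ → ℝ)
    (h1 : ∀ k w : ℕ, w ≤ n → p w →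
      ‖u k w - Complex.exp ((th (n + 1) k * w : ℝ) * Complex.I)‖ ≤ 1 / (4 * ((n : ℝ) + 1)))
    (h2 : ∀ k w : ℕ, w ≤ n → ‖u k w‖ ≤ E)
    (h3 : ∀ k : ℕ, ‖∑ w ∈ Finset.range (n + 1), (n.choose w : ℂ) * u k w * (f w : ℂ)‖ ≤ R) :
    ∑ w ∈ (Finset.range (n + 1)).filter (fun w => p w), (n.choose w : ℝ) * |f w| ≤
      2 * ((n : ℝ) + 1) * E *
        ∑ w ∈ (Finset.range (n + 1)).filter (fun w => ¬ p w), (n.choose w : ℝ) * |f w| +
      2 * ((n : ℝ) + 1) * R := by
  set N : ℕ := n + 1 with hNdef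
  have hN : N ≠ 0 := Nat.succ_ne_zero n
  have hNr : (N : ℝ) = (n : ℝ) + 1 := by rw [hNdef]; push_cast; ring
  have hN0 : (0 : ℝ) < N := by rw [hNr]; positivity
  let s : ℕ → ℝ := fun w => if p w then Real.sign (f w) else 0
  have hs : ∀ w, |s w| ≤ 1 := by
    intro w
    simp only [s]
    split_ifs
    · rcases Real.sign_apply_eq (f w) with h | h | h <;> rw [h] <;> norm_num
    · simp
  let a : ℕ → ℂ := co N s
  have ha : ∀ k, ‖a k‖ ≤ 1 := fun k => norm_co hN s hs k
  let x : ℕ → ℂ := fun w => ∑ k ∈ Finset.range N, a k * u k w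
  -- the three properties of `x`
  have hx1 : ∀ w, w ≤ n → p w → ‖x w - s w‖ ≤ 1 / 4 := by
    intro w hw hnear
    have hw' : w < N := Nat.lt_succ_of_le hw
    rw [← sum_co hN s hw']
    simp only [x, a]
    rw [← Finset.sum_sub_distrib]
    calc _ ≤ ∑ k ∈ Finset.range N,
          ‖co N s k * u k w - co N s k * (zt N ^ w) ^ k‖ := norm_sum_le _ _
      _ ≤ ∑ k ∈ Finset.range N, 1 / (4 * ((n : ℝ) + 1)) := by
          refine Finset.sum_le_sum (fun k _ => ?_)
          rw [← mul_sub, norm_mul, ← exp_th]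
          have h4 := h1 k w hw hnear
          calc _ ≤ 1 * (1 / (4 * ((n : ℝ) + 1))) :=
                mul_le_mul (ha k) h4 (norm_nonneg _) zero_le_one
            _ = _ := one_mul _
      _ = 1 / 4 := by
          rw [Finset.sum_const, Finset.card_range, nsmul_eq_mul, hNr]
          field_simp
  have hx2 : ∀ w, w ≤ n → ‖x w‖ ≤ N * E := by
    intro w hw
    calc _ ≤ ∑ k ∈ Finset.range N, ‖a k * u k w‖ := norm_sum_le _ _
      _ ≤ ∑ k ∈ Finset.range N, E := by
          refine Finset.sum_le_sum (fun k _ => ?_)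
          rw [norm_mul]
          calc _ ≤ 1 * E := mul_le_mul (ha k) (h2 k w hw) (norm_nonneg _) zero_le_one
            _ = E := one_mul _
      _ = N * E := by rw [Finset.sum_const, Finset.card_range, nsmul_eq_mul]
  have hR0 : 0 ≤ R := (norm_nonneg _).trans (h3 0)
  have hx3 : ‖∑ w ∈ Finset.range (n + 1), (n.choose w : ℂ) * x w * (f w : ℂ)‖ ≤ N * R := by
    have h4 : ∑ w ∈ Finset.range (n + 1), (n.choose w : ℂ) * x w * (f w : ℂ) =
        ∑ k ∈ Finset.range N, a k *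
          ∑ w ∈ Finset.range (n + 1), (n.choose w : ℂ) * u k w * (f w : ℂ) := by
      simp only [x, Finset.mul_sum, Finset.sum_mul]
      rw [Finset.sum_comm]
      refine Finset.sum_congr rfl (fun k _ => Finset.sum_congr rfl (fun w _ => ?_))
      ring
    rw [h4]
    calc _ ≤ ∑ k ∈ Finset.range N, ‖a k *
          ∑ w ∈ Finset.range (n + 1), (n.choose w : ℂ) * u k w * (f w : ℂ)‖ :=
          norm_sum_le _ _
      _ ≤ ∑ k ∈ Finset.range N, R := by
          refine Finset.sum_le_sum (fun k _ => ?_)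
          rw [norm_mul]
          calc _ ≤ 1 * R := mul_le_mul (ha k) (h3 k) (norm_nonneg _) zero_le_one
            _ = R := one_mul _
      _ = N * R := by rw [Finset.sum_const, Finset.card_range, nsmul_eq_mul]
  -- splitting
  set near := (Finset.range (n + 1)).filter (fun w => p w) with hnear
  set far := (Finset.range (n + 1)).filter (fun w => ¬ p w) with hfar
  have hsplit : ∑ w ∈ Finset.range (n + 1), (n.choose w : ℂ) * x w * (f w : ℂ) =
      ∑ w ∈ near, (n.choose w : ℂ) * x w * (f w : ℂ) +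
        ∑ w ∈ far, (n.choose w : ℂ) * x w * (f w : ℂ) := by
    rw [hfar, hnear, Finset.sum_filter_add_sum_filter_not]
  have hA : (1 / 2) * ∑ w ∈ near, (n.choose w : ℝ) * |f w| ≤
      (∑ w ∈ near, (n.choose w : ℂ) * x w * (f w : ℂ)).re := by
    rw [Complex.re_sum, Finset.mul_sum]
    refine Finset.sum_le_sum (fun w hw => ?_)
    obtain ⟨hw1, hw2⟩ := Finset.mem_filter.1 hw
    have hwn : w ≤ n := Nat.lt_succ_iff.1 (Finset.mem_range.1 hw1)
    have h3 := hx1 w hwn hw2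
    have h4 : |(x w).re - s w| ≤ 1 / 4 := by
      have := (Complex.abs_re_le_norm (x w - s w)).trans h3
      simpa using this
    have h5 : ((n.choose w : ℂ) * x w * (f w : ℂ)).re = (n.choose w : ℝ) * ((x w).re * f w) := by
      have : (n.choose w : ℂ) * x w * (f w : ℂ) = (((n.choose w : ℝ) * f w : ℝ) : ℂ) * x w := by
        push_cast; ring
      rw [this, Complex.re_ofReal_mul]
      ring
    rw [h5, ← mul_assoc, mul_comm (1 / 2 : ℝ), mul_assoc]
    refine mul_le_mul_of_nonneg_left ?_ (Nat.cast_nonneg _)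
    have h6 : s w = Real.sign (f w) := if_pos hw2
    rw [h6] at h4
    obtain ⟨h7, h8⟩ := abs_le.1 h4
    rcases lt_trichotomy (f w) 0 with hf | hf | hf
    · rw [Real.sign_of_neg hf] at h7 h8
      rw [abs_of_neg hf]
      nlinarith
    · rw [hf]; simp
    · rw [Real.sign_of_pos hf] at h7 h8
      rw [abs_of_pos hf]
      nlinarith
  have hB : ‖∑ w ∈ far, (n.choose w : ℂ) * x w * (f w : ℂ)‖ ≤
      N * E * ∑ w ∈ far, (n.choose w : ℝ) * |f w| := by
    calc _ ≤ ∑ w ∈ far, ‖(n.choose w : ℂ) * x w * (f w : ℂ)‖ := norm_sum_le _ _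
      _ ≤ ∑ w ∈ far, (N * E) * ((n.choose w : ℝ) * |f w|) := by
          refine Finset.sum_le_sum (fun w hw => ?_)
          obtain ⟨hw1, -⟩ := Finset.mem_filter.1 hw
          have hwn : w ≤ n := Nat.lt_succ_iff.1 (Finset.mem_range.1 hw1)
          rw [norm_mul, norm_mul, Complex.norm_real, Complex.norm_natCast, Real.norm_eq_abs]
          calc (n.choose w : ℝ) * ‖x w‖ * |f w| = ‖x w‖ * ((n.choose w : ℝ) * |f w|) := by ring
            _ ≤ (N * E) * ((n.choose w : ℝ) * |f w|) :=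
                mul_le_mul_of_nonneg_right (hx2 w hwn) (by positivity)
      _ = _ := by rw [← Finset.mul_sum]
  have hC : (∑ w ∈ near, (n.choose w : ℂ) * x w * (f w : ℂ)).re ≤
      N * R + N * E * ∑ w ∈ far, (n.choose w : ℝ) * |f w| := by
    have h3 : ∑ w ∈ near, (n.choose w : ℂ) * x w * (f w : ℂ) =
        ∑ w ∈ Finset.range (n + 1), (n.choose w : ℂ) * x w * (f w : ℂ) -
          ∑ w ∈ far, (n.choose w : ℂ) * x w * (f w : ℂ) := by
      rw [hsplit]; ring
    calc _ ≤ ‖∑ w ∈ near, (n.choose w : ℂ) * x w * (f w : ℂ)‖ :=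
          (le_abs_self _).trans (Complex.abs_re_le_norm _)
      _ ≤ _ := by
          rw [h3]
          exact (norm_sub_le _ _).trans (add_le_add hx3 hB)
  have h9 := hA.trans hC
  rw [← hNr]
  linarith

lemma two_exp (n : ℕ) (e t : ℝ) (h : 2 * ((n : ℝ) + 1) ≤ Real.exp (e * n)) :
    2 * ((n : ℝ) + 1) * Real.exp (t * n) ≤ Real.exp ((e + t) * n) := by
  rw [add_mul, Real.exp_add]
  exact mul_le_mul_of_nonneg_right h (Real.exp_pos _).le

theorem near3 (hpb : S3_pb) (hl : S3_left) (hr : S3_right) (hd : S3_dual) : S3_near := by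
  intro m ε ε₂ ε₃ hm hε hε₂ hε₃
  obtain ⟨C, κ, hC, hκ, hκ1, hPB⟩ := hpb m hm
  obtain ⟨c1, hc1, h1⟩ := hl m (ε / 2) (ε / 2) hm (by linarith) (by linarith)
  obtain ⟨c2, hc2, h2⟩ := hr m (ε / 2) (ε₂ / 2) hm (by linarith) (by linarith)
  obtain ⟨c3, hc3, h3⟩ := hd m (ε / 2) (ε₃ / 2) hm (by linarith) (by linarith)
  set c : ℝ := min c1 (min c2 c3) with hc
  have hc0 : 0 < c := lt_min hc1 (lt_min hc2 hc3)
  obtain ⟨ε₁, hε₁, n1, h1⟩ := h1 c hc0 (min_le_left _ _)
  obtain ⟨n2, h2⟩ := h2 c hc0 ((min_le_right _ _).trans (min_le_left _ _))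
  obtain ⟨n3, h3⟩ := h3 c hc0 ((min_le_right _ _).trans (min_le_right _ _))
  obtain ⟨n4, h4⟩ := large (ε₁ / 2) (by linarith)
  obtain ⟨n5, h5⟩ := large (ε₂ / 2) (by linarith)
  obtain ⟨n6, h6⟩ := large (ε₃ / 2) (by linarith)
  refine ⟨n1 + n2 + n3 + n4 + n5 + n6, fun n hn hQ f => ?_⟩
  have h1 := h1 n
  have h4 := h4 n (by omega)
  have h5 := h5 n (by omega)
  have h6 := h6 n (by omega)
  have hP : ∀ t : ℝ, ‖Complex.exp (n * Ph m (t * Complex.I))‖ = 1 := by
    intro t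
    rw [Complex.norm_exp, ← Complex.ofReal_natCast, Complex.re_ofReal_mul, hPB.p9 t, mul_zero,
      Real.exp_zero]
  have hP' : ∀ t : ℝ, ‖Complex.exp (-(n * Ph m (t * Complex.I)))‖ = 1 := by
    intro t
    rw [Complex.exp_neg, norm_inv, hP t, inv_one]
  let u : ℕ → ℕ → ℂ := fun k w =>
    Complex.exp (-(n * Ph m ((-(th (n + 1) k) : ℝ) * Complex.I))) *
      vN m n w (ε / 2) c (-(th (n + 1) k))
  have hu1 : ∀ k w : ℕ, w ≤ n → (w : ℝ) < (NR m 0 - ε) * n →
      ‖u k w - Complex.exp ((th (n + 1) k * w : ℝ) * Complex.I)‖ ≤ 1 / (4 * ((n : ℝ) + 1)) := by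
    intro k w hw hnear
    have h7 := h1 w (by omega) hQ (by
      have : NR m 0 - ε / 2 - ε / 2 = NR m 0 - ε := by ring
      rw [this]
      exact hnear.le) (-(th (n + 1) k))
    set τ : ℝ := -(th (n + 1) k) with hτ
    have h8 : u k w - Complex.exp ((th (n + 1) k * w : ℝ) * Complex.I) =
        Complex.exp (-(n * Ph m (τ * Complex.I))) * (vN m n w (ε / 2) c τ -
          Complex.exp (n * Ph m (τ * Complex.I) - w * (τ * Complex.I))) := by
      rw [mul_sub, ← Complex.exp_add]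
      have h9 : -(n * Ph m (τ * Complex.I)) +
          (n * Ph m (τ * Complex.I) - w * (τ * Complex.I)) =
          (th (n + 1) k * w : ℝ) * Complex.I := by
        rw [hτ]
        push_cast
        ring
      rw [h9]
    rw [h8, norm_mul, hP', one_mul]
    refine h7.trans ?_
    have h10 : (2 * ((n : ℝ) + 1)) * (2 * ((n : ℝ) + 1)) ≤ Real.exp (ε₁ * n) := by
      have h11 : Real.exp (ε₁ * n) = Real.exp (ε₁ / 2 * n) * Real.exp (ε₁ / 2 * n) := by
        rw [← Real.exp_add]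
        congr 1
        ring
      rw [h11]
      exact mul_le_mul h4 h4 (by positivity) (Real.exp_pos _).le
    have hn0 : (0 : ℝ) ≤ n := Nat.cast_nonneg n
    have h12 : 4 * ((n : ℝ) + 1) ≤ Real.exp (ε₁ * n) := by nlinarith
    have h13 : Real.exp (-ε₁ * n) = 1 / Real.exp (ε₁ * n) := by
      rw [neg_mul, Real.exp_neg, one_div]
    rw [h13]
    exact one_div_le_one_div_of_le (by positivity) h12
  have hu2 : ∀ k w : ℕ, w ≤ n → ‖u k w‖ ≤ Real.exp (ε₂ / 2 * n) := by
    intro k w hw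
    have h7 := h2 n w (by omega) hw (-(th (n + 1) k))
    simp only [u]
    rw [norm_mul, hP', one_mul]
    exact h7
  have hu3 : ∀ k : ℕ, ‖∑ w ∈ Finset.range (n + 1), (n.choose w : ℂ) * u k w * (f w : ℂ)‖ ≤
      Real.exp (n * (mu3 m + ε₃ / 2)) * NN n f := by
    intro k
    have h7 := h3 n (by omega) hQ (-(th (n + 1) k)) f
    have h8 : ∑ w ∈ Finset.range (n + 1), (n.choose w : ℂ) * u k w * (f w : ℂ) =
        Complex.exp (-(n * Ph m ((-(th (n + 1) k) : ℝ) * Complex.I))) *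
          ∑ w ∈ Finset.range (n + 1), (n.choose w : ℂ) *
            vN m n w (ε / 2) c (-(th (n + 1) k)) * (f w : ℂ) := by
      rw [Finset.mul_sum]
      refine Finset.sum_congr rfl (fun w _ => ?_)
      simp only [u]
      ring
    rw [h8, norm_mul, hP', one_mul]
    exact h7
  classical
  have hcore := core n (fun w : ℕ => (w : ℝ) < (NR m 0 - ε) * n) u (Real.exp (ε₂ / 2 * n))
    (Real.exp (n * (mu3 m + ε₃ / 2)) * NN n f) (Real.exp_pos _).le f hu1 hu2 hu3
  have hfar : (Finset.range (n + 1)).filter (fun w : ℕ => ¬ (w : ℝ) < (NR m 0 - ε) * n) =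
      (Finset.range (n + 1)).filter (fun w : ℕ => (NR m 0 - ε) * n ≤ (w : ℝ)) := by
    refine Finset.filter_congr (fun w _ => ?_)
    exact not_lt
  rw [hfar] at hcore
  have hNN : 0 ≤ NN n f := Finset.sum_nonneg (fun j _ => by positivity)
  have hS : 0 ≤ ∑ w ∈ (Finset.range (n + 1)).filter (fun w : ℕ => (NR m 0 - ε) * n ≤ (w : ℝ)),
      (n.choose w : ℝ) * |f w| := Finset.sum_nonneg (fun w _ => by positivity)
  have e1 : 2 * ((n : ℝ) + 1) * Real.exp (ε₂ / 2 * n) ≤ Real.exp (ε₂ * n) := by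
    have h7 := two_exp n (ε₂ / 2) (ε₂ / 2) h5
    rwa [add_halves] at h7
  have e2 : 2 * ((n : ℝ) + 1) * Real.exp (n * (mu3 m + ε₃ / 2)) ≤
      Real.exp (n * (mu3 m + ε₃)) := by
    have h7 := two_exp n (ε₃ / 2) (mu3 m + ε₃ / 2) h6
    have e3 : (mu3 m + ε₃ / 2) * (n : ℝ) = n * (mu3 m + ε₃ / 2) := mul_comm _ _
    have e4 : (ε₃ / 2 + (mu3 m + ε₃ / 2)) * (n : ℝ) = n * (mu3 m + ε₃) := by ring
    rwa [e3, e4] at h7
  refine hcore.trans (add_le_add (mul_le_mul_of_nonneg_right e1 hS) ?_)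
  rw [← mul_assoc]
  exact mul_le_mul_of_nonneg_right e2 hNN

end Pool.Agent.TH41.BL.NE3f
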