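import Mathlib
import Pool.Agent.TH41.BL.Stm3

/-!
# Bounds near the imaginary axis (job BL3-PB, helper416 for helper41)
-/

set_option autoImplicit false

open MeasureTheory Filter Topology

namespace Pool.Agent.TH41.BL.PB3f

open Pool.Agent.TH41.BL

lemma sinh_sq_le {x y : ℝ} (h : |x| ≤ y) : Real.sinh x ^ 2 ≤ Real.sinh y ^ 2 := by
  have h1 : Real.sinh x ^ 2 = Real.sinh |x| ^ 2 := by rw [← Real.abs_sinh, sq_abs]
  rw [h1]
  have h2 : Real.sinh |x| ≤ Real.sinh y := Real.sinh_le_sinh.2 h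
  have h3 : 0 ≤ Real.sinh |x| := Real.sinh_nonneg_iff.2 (abs_nonneg x)
  exact pow_le_pow_left₀ h3 h2 2

lemma exists_r (m : ℝ) : ∃ r : ℝ, 0 < r ∧ r ≤ 1 ∧ m * Real.sinh (4 * r) ^ 2 < 1 := by
  have hc : Continuous fun x : ℝ => m * Real.sinh (4 * x) ^ 2 :=
    continuous_const.mul ((Real.continuous_sinh.comp (continuous_const.mul continuous_id)).pow 2)
  have h : ∀ᶠ x in 𝓝 (0 : ℝ), m * Real.sinh (4 * x) ^ 2 < 1 :=
    hc.continuousAt.eventually_lt continuousAt_const (by simp)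
  obtain ⟨δ, hδ, hδ'⟩ := Metric.eventually_nhds_iff.1 h
  refine ⟨min (δ / 2) 1, by positivity, min_le_right _ _, ?_⟩
  apply hδ'
  rw [Real.dist_eq, sub_zero, abs_of_pos (by positivity)]
  exact (min_le_left _ _).trans_lt (by linarith)

lemma strip_convex (r : ℝ) : Convex ℝ {z : ℂ | |z.re| ≤ r} := by
  have h : {z : ℂ | |z.re| ≤ r} = Complex.reLm ⁻¹' (Set.Icc (-r) r) := by
    ext z
    simp only [Set.mem_ofPred_eq, Set.mem_preimage, Set.mem_Icc, Complex.reLm_coe, abs_le]
  rw [h]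
  exact (convex_Icc (-r) r).linear_preimage Complex.reLm

/-- the mean value inequality -/
lemma mvt {f f' : ℂ → ℂ} {S : Set ℂ} {A : ℝ} (hS : Convex ℝ S)
    (hd : ∀ s ∈ S, HasDerivAt f (f' s) s) (hb : ∀ s ∈ S, ‖f' s‖ ≤ A) {x y : ℂ} (hx : x ∈ S)
    (hy : y ∈ S) : ‖f y - f x‖ ≤ A * ‖y - x‖ :=
  hS.norm_image_sub_le_of_norm_hasDerivWithin_le (fun s hs => (hd s hs).hasDerivWithinAt) hb hx hy

/-- the expansion of order one -/
lemma taylor1 {f f' : ℂ → ℂ} {r A : ℝ} (hd : ∀ s : ℂ, |s.re| ≤ r → HasDerivAt f (f' s) s)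
    (hl : ∀ s s' : ℂ, |s.re| ≤ r → |s'.re| ≤ r → ‖f' s - f' s'‖ ≤ A * ‖s - s'‖) (hA : 0 ≤ A)
    {s h : ℂ} (hs : |s.re| ≤ r) (hh : |(s + h).re| ≤ r) :
    ‖f (s + h) - f s - h * f' s‖ ≤ A * ‖h‖ ^ 2 := by
  have hS : Convex ℝ ({z : ℂ | |z.re| ≤ r} ∩ Metric.closedBall s ‖h‖) :=
    (strip_convex r).inter (convex_closedBall s ‖h‖)
  have h1 := mvt (f := fun z => f z - z * f' s) (f' := fun z => f' z - f' s) (A := A * ‖h‖) hS
    (fun z hz => by
      have h2 : HasDerivAt (fun z => f z - z * f' s) (f' z - 1 * f' s) z :=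
        (hd z hz.1).sub ((hasDerivAt_id' z).mul_const (f' s))
      rwa [one_mul] at h2)
    (fun z hz => by
      refine (hl z s hz.1 hs).trans ?_
      have h3 : ‖z - s‖ ≤ ‖h‖ := by
        have := hz.2
        rwa [Metric.mem_closedBall, dist_eq_norm] at this
      exact mul_le_mul_of_nonneg_left h3 hA)
    (x := s) (y := s + h) ⟨hs, Metric.mem_closedBall_self (norm_nonneg _)⟩
    ⟨hh, by rw [Metric.mem_closedBall, dist_eq_norm, add_sub_cancel_left]⟩
  have h4 : f (s + h) - (s + h) * f' s - (f s - s * f' s) = f (s + h) - f s - h * f' s := by ring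
  rw [h4, add_sub_cancel_left] at h1
  calc _ ≤ _ := h1
    _ = A * ‖h‖ ^ 2 := by ring

/-- second differences -/
lemma second {f f' : ℂ → ℂ} {r A : ℝ} (hd : ∀ s : ℂ, |s.re| ≤ r → HasDerivAt f (f' s) s)
    (hl : ∀ s s' : ℂ, |s.re| ≤ r → |s'.re| ≤ r → ‖f' s - f' s'‖ ≤ A * ‖s - s'‖) (hA : 0 ≤ A)
    {s h : ℂ} (hs : |s.re| ≤ r) (hh : |(s + h).re| ≤ r) (hh' : |(s - h).re| ≤ r) :
    ‖f (s + h) + f (s - h) - 2 * f s‖ ≤ 2 * A * ‖h‖ ^ 2 := by
  have h1 := taylor1 hd hl hA hs hh
  have h2 := taylor1 (h := -h) hd hl hA hs (by rwa [← sub_eq_add_neg])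
  rw [← sub_eq_add_neg, norm_neg] at h2
  have h3 : f (s + h) + f (s - h) - 2 * f s =
      (f (s + h) - f s - h * f' s) + (f (s - h) - f s - -h * f' s) := by ring
  rw [h3]
  refine (norm_add_le _ _).trans ?_
  linarith

/-- Cauchy estimate in a strip -/
lemma cauchy {f : ℂ → ℂ} {U : Set ℂ} {ρ r M : ℝ} (hr : 0 < r) (hf : DifferentiableOn ℂ f U)
    (hU : ∀ s : ℂ, |s.re| ≤ ρ + r → s ∈ U) (hb : ∀ s : ℂ, |s.re| ≤ ρ + r → ‖f s‖ ≤ M) (s : ℂ)
    (hs : |s.re| ≤ ρ) : ‖deriv f s‖ ≤ M / r := by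
  have h0 : ∀ z ∈ Metric.closedBall s r, |z.re| ≤ ρ + r := by
    intro z hz
    rw [Metric.mem_closedBall, dist_eq_norm] at hz
    have h1 : z.re = s.re + (z - s).re := by simp
    rw [h1]
    refine (abs_add_le _ _).trans ?_
    exact add_le_add hs ((Complex.abs_re_le_norm _).trans hz)
  exact Complex.norm_deriv_le_of_forall_mem_sphere_norm_le hr
    (hf.diffContOnCl_ball (fun z hz => hU z (h0 z hz)))
    (fun z hz => hb z (h0 z (Metric.sphere_subset_closedBall hz)))

/-- bounded in a closed strip -/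
lemma bdd_strip {f : ℂ → ℂ} {ρ : ℝ} (hper : ∀ s : ℂ, f (s + Real.pi * Complex.I) = f s)
    (hf : ∀ s : ℂ, |s.re| ≤ ρ → ContinuousAt f s) :
    ∃ M : ℝ, 0 < M ∧ ∀ s : ℂ, |s.re| ≤ ρ → ‖f s‖ ≤ M := by
  have hK : IsCompact (Set.Icc (-ρ) ρ ×ℂ Set.Icc 0 Real.pi) :=
    isCompact_Icc.reProdIm isCompact_Icc
  obtain ⟨M, hM⟩ := hK.exists_bound_of_continuousOn (f := f) (fun z hz => by
    rw [Complex.mem_reProdIm] at hz
    exact (hf z (abs_le.2 hz.1)).continuousWithinAt)
  refine ⟨max M 1, by positivity, fun s hs => ?_⟩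
  have hp : Function.Periodic f (Real.pi * Complex.I) := hper
  set n : ℤ := ⌊s.im / Real.pi⌋ with hn
  have h1 : f (s - n * (Real.pi * Complex.I)) = f s := (hp.int_mul n).sub_eq s
  rw [← h1]
  refine le_trans (hM _ ?_) (le_max_left _ _)
  rw [Complex.mem_reProdIm]
  have hre : (s - n * (Real.pi * Complex.I)).re = s.re := by simp
  have him : (s - n * (Real.pi * Complex.I)).im = s.im - n * Real.pi := by simp
  rw [hre, him]
  exact ⟨abs_le.1 hs, Int.sub_floor_div_mul_nonneg _ Real.pi_pos,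
    (Int.sub_floor_div_mul_lt _ Real.pi_pos).le⟩

theorem pb (hw : S3_w) (ha : S3_na) (hb : S3_nb) (hp : S3_ph) : S3_pb := by
  intro m hm
  obtain ⟨r, hr0, hr1, hr⟩ := exists_r m
  obtain ⟨hper, hconj, hreal, himag, hpos⟩ := hb m hm
  obtain ⟨hPd, hP0, hPc, hPp⟩ := hp m hm
  have hDN : ∀ s : ℂ, |s.re| ≤ 4 * r → s ∈ DN m := fun s hs =>
    Or.inr ((mul_le_mul_of_nonneg_left (sinh_sq_le hs) hm.le).trans_lt hr)
  set U : Set ℂ := {s : ℂ | |s.re| < 4 * r} with hU
  have hUo : IsOpen U := isOpen_lt (continuous_abs.comp Complex.continuous_re) continuous_const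
  have hN : DifferentiableOn ℂ (Nf m) U := fun s hs =>
    (ha m hm s (hDN s (le_of_lt hs))).differentiableWithinAt
  have hN' : DifferentiableOn ℂ (deriv (Nf m)) U := hN.deriv hUo
  obtain ⟨M, hM0, hM⟩ := bdd_strip (ρ := 3 * r) hper (fun s hs =>
    (ha m hm s (hDN s (by linarith))).continuousAt)
  have hA : ∀ s : ℂ, |s.re| ≤ 2 * r → ‖deriv (Nf m) s‖ ≤ M / r :=
    cauchy hr0 hN (fun s hs => by change |s.re| < 4 * r; linarith)
      (fun s hs => hM s (by linarith))
  have hB : ∀ s : ℂ, |s.re| ≤ r → ‖deriv (deriv (Nf m)) s‖ ≤ M / r / r :=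
    cauchy hr0 hN' (fun s hs => by change |s.re| < 4 * r; linarith)
      (fun s hs => hA s (by linarith))
  set A : ℝ := M / r with hAdef
  set B : ℝ := M / r / r with hBdef
  have hA0 : 0 < A := by positivity
  have hB0 : 0 < B := by positivity
  have hin : ∀ s : ℂ, |s.re| ≤ r → s ∈ U := fun s hs => by change |s.re| < 4 * r; linarith
  have hd1 : ∀ s : ℂ, |s.re| ≤ r → HasDerivAt (Nf m) (deriv (Nf m) s) s := fun s hs =>
    (hN.differentiableAt (hUo.mem_nhds (hin s hs))).hasDerivAt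
  have hd2 : ∀ s : ℂ, |s.re| ≤ r → HasDerivAt (deriv (Nf m)) (deriv (deriv (Nf m)) s) s :=
    fun s hs => (hN'.differentiableAt (hUo.mem_nhds (hin s hs))).hasDerivAt
  have hd0 : ∀ s : ℂ, |s.re| ≤ r → HasDerivAt (Ph m) (Nf m s) s := fun s hs =>
    hPd s (hDN s (by linarith))
  have hMr : ∀ s : ℂ, |s.re| ≤ r → ‖Nf m s‖ ≤ M := fun s hs => hM s (by linarith)
  have hl1 : ∀ s s' : ℂ, |s.re| ≤ r → |s'.re| ≤ r → ‖Nf m s - Nf m s'‖ ≤ A * ‖s - s'‖ :=
    fun s s' hs hs' => mvt (strip_convex r) hd1 (fun z hz => hA z (by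
      have : |z.re| ≤ r := hz
      linarith)) hs' hs
  have hl2 : ∀ s s' : ℂ, |s.re| ≤ r → |s'.re| ≤ r →
      ‖deriv (Nf m) s - deriv (Nf m) s'‖ ≤ B * ‖s - s'‖ :=
    fun s s' hs hs' => mvt (strip_convex r) hd2 (fun z hz => hB z hz) hs' hs
  have hsec : ∀ s h : ℂ, |s.re| ≤ r → |(s + h).re| ≤ r → |(s - h).re| ≤ r →
      ‖Nf m (s + h) + Nf m (s - h) - 2 * Nf m s‖ ≤ 2 * B * ‖h‖ ^ 2 := fun s h hs h1 h2 =>
    second hd1 hl2 hB0.le hs h1 h2
  -- the values of the real part on the imaginary axis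
  have h9 : ∀ t : ℝ, (Ph m (t * Complex.I)).re = 0 := by
    have hder : ∀ t : ℝ, HasDerivAt (fun x : ℝ => (Ph m (x * Complex.I)).re) 0 t := by
      intro t
      have h1 : HasDerivAt (fun z : ℂ => Ph m (z * Complex.I))
          (Nf m (t * Complex.I) * Complex.I) (t : ℂ) := by
        have h2 : HasDerivAt (fun z : ℂ => z * Complex.I) Complex.I (t : ℂ) := by
          simpa using (hasDerivAt_id (t : ℂ)).mul_const Complex.I
        have h3 : HasDerivAt (Ph m) (Nf m (t * Complex.I)) ((fun z : ℂ => z * Complex.I) t) :=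
          hd0 (t * Complex.I) (by simp [hr0.le])
        exact h3.comp (t : ℂ) h2
      have h2 := h1.real_of_complex
      have h3 : (Nf m (t * Complex.I) * Complex.I).re = 0 := by
        rw [Complex.mul_I_re, (himag t).1, neg_zero]
      rw [h3] at h2
      exact h2
    intro t
    have h1 := is_const_of_deriv_eq_zero (f := fun x : ℝ => (Ph m (x * Complex.I)).re)
      (fun t => (hder t).differentiableAt) (fun t => (hder t).deriv) t 0
    simp only [Complex.ofReal_zero, zero_mul, hP0, Complex.zero_re] at h1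
    exact h1
  -- real points
  have hre : ∀ (σ t : ℝ), ((σ : ℂ) + t * Complex.I).re = σ := by intro σ t; simp
  have hre' : ∀ (σ t : ℝ), ((σ : ℂ) - t * Complex.I).re = σ := by intro σ t; simp
  have hco : ∀ (σ t : ℝ), (starRingEnd ℂ) ((σ : ℂ) + t * Complex.I) = σ - t * Complex.I := by
    intro σ t
    simp [sub_eq_add_neg]
  have hNc : ∀ σ t : ℝ, |σ| ≤ r → Nf m (σ - t * Complex.I) =
      (starRingEnd ℂ) (Nf m (σ + t * Complex.I)) := by
    intro σ t hσ
    rw [← hco, hconj _ (hDN _ (by rw [hre]; linarith))]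
  have hPco : ∀ σ t : ℝ, |σ| ≤ r → Ph m (σ - t * Complex.I) =
      (starRingEnd ℂ) (Ph m (σ + t * Complex.I)) := by
    intro σ t hσ
    rw [← hco, hPc _ (hDN _ (by rw [hre]; linarith))]
  have hPim : ∀ σ : ℝ, |σ| ≤ r → (Ph m σ).im = 0 := by
    intro σ hσ
    have h1 := hPco σ 0 hσ
    simp only [Complex.ofReal_zero, zero_mul, sub_zero, add_zero] at h1
    have h2 := congrArg Complex.im h1
    rw [Complex.conj_im] at h2
    linarith
  have hNim : ∀ σ : ℝ, (Nf m σ).im = 0 := fun σ => by rw [hreal σ, Complex.ofReal_im]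
  have hN0 : Nf m 0 = ((NR m 0 : ℝ) : ℂ) := by
    have := hreal 0
    rwa [Complex.ofReal_zero] at this
  have heven : ∀ σ : ℝ, NR m (-σ) = NR m σ := by
    intro σ
    unfold NR
    rw [Real.cosh_neg]
  -- p8
  have h8 : ∀ σ : ℝ, |σ| ≤ r → ‖Nf m σ - Nf m 0‖ ≤ B * σ ^ 2 := by
    intro σ hσ
    have h1 := hsec 0 σ (by simp [hr0.le]) (by simpa using hσ) (by simpa using hσ)
    rw [zero_add, zero_sub] at h1
    have h2 : Nf m (-(σ : ℂ)) = Nf m σ := by
      rw [← Complex.ofReal_neg, hreal, hreal, heven]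
    rw [h2] at h1
    have h3 : Nf m σ + Nf m σ - 2 * Nf m 0 = 2 * (Nf m σ - Nf m 0) := by ring
    rw [h3, norm_mul, Complex.norm_real, Real.norm_eq_abs, sq_abs] at h1
    have h4 : ‖(2 : ℂ)‖ = 2 := by simp
    rw [h4] at h1
    linarith
  have hCM : M ≤ M + A + 2 * B := by linarith
  have hCA : A ≤ M + A + 2 * B := by linarith
  have hCB : B ≤ M + A + 2 * B := by linarith
  refine ⟨M + A + 2 * B, r, by positivity, hr0, hr1, ?_⟩
  refine ⟨?_, hd0, fun s hs => (hMr s hs).trans hCM, ?_, ?_, ?_, ?_, ?_, ?_, h9, ?_⟩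
  · exact (mul_le_mul_of_nonneg_left (sinh_sq_le (by
      rw [abs_of_pos hr0]; linarith)) hm.le).trans_lt hr
  · -- p3
    intro σ t hσ
    have h1 := mvt (strip_convex r) hd0 hMr (x := t * Complex.I) (y := σ + t * Complex.I)
      (by change |(t * Complex.I).re| ≤ r; simp [hr0.le]) (by change |_| ≤ r; rwa [hre])
    rw [add_sub_cancel_right, Complex.norm_real, Real.norm_eq_abs] at h1
    have h2 := (Complex.abs_re_le_norm _).trans h1
    rw [Complex.sub_re, h9, sub_zero] at h2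
    exact h2.trans (mul_le_mul_of_nonneg_right hCM (abs_nonneg _))
  · -- p4
    intro σ t hσ
    have h1 := mvt (f := fun z => Ph m (z + t * Complex.I) + Ph m (z - t * Complex.I) -
        2 * Ph m z) (f' := fun z => Nf m (z + t * Complex.I) + Nf m (z - t * Complex.I) -
        2 * Nf m z) (A := 2 * B * t ^ 2) (strip_convex r)
      (fun z hz => by
        have hz' : |z.re| ≤ r := hz
        have e1 := (hd0 (z + t * Complex.I) (by simpa using hz')).comp_add_const z
          (t * Complex.I)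
        have e2 := (hd0 (z - t * Complex.I) (by simpa using hz')).comp_sub_const z
          (t * Complex.I)
        exact (e1.add e2).sub ((hd0 z hz').const_mul 2))
      (fun z hz => by
        have hz' : |z.re| ≤ r := hz
        have e1 := hsec z (t * Complex.I) hz' (by simpa using hz') (by simpa using hz')
        have e2 : ‖(t : ℂ) * Complex.I‖ ^ 2 = t ^ 2 := by simp
        rwa [e2] at e1)
      (x := 0) (y := (σ : ℂ)) (by change |_| ≤ r; simp [hr0.le]) (by change |_| ≤ r; simpa using hσ)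
    simp only [sub_zero, Complex.norm_real, Real.norm_eq_abs] at h1
    have h2 := (Complex.abs_re_le_norm _).trans h1
    have e0 : Ph m (0 - t * Complex.I) = (starRingEnd ℂ) (Ph m (0 + t * Complex.I)) := by
      have := hPco 0 t (by simp [hr0.le])
      rwa [Complex.ofReal_zero] at this
    rw [hPco σ t hσ, e0, zero_add, hP0] at h2
    simp only [Complex.sub_re, Complex.add_re, Complex.conj_re, Complex.mul_re, Complex.re_ofNat,
      Complex.im_ofNat, zero_mul, sub_zero, h9, mul_zero, add_zero] at h2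
    have h3 : (Ph m (σ + t * Complex.I)).re + (Ph m (σ + t * Complex.I)).re -
        2 * (Ph m σ).re = 2 * ((Ph m (σ + t * Complex.I)).re - (Ph m σ).re) := by ring
    rw [h3, abs_mul, abs_of_pos (by norm_num : (0 : ℝ) < 2)] at h2
    have h4 : |(Ph m (σ + t * Complex.I)).re - (Ph m σ).re| ≤ B * (|σ| * t ^ 2) := by linarith
    have h5 : B * (|σ| * t ^ 2) ≤ (M + A + 2 * B) * (|σ| * t ^ 2) :=
      mul_le_mul_of_nonneg_right hCB (by positivity)
    linarith
  · -- p5
    intro σ t hσ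
    have hSc : Convex ℝ {z : ℂ | |z.re| ≤ 0 ∧ |z.im| ≤ |t|} := by
      have h : {z : ℂ | |z.re| ≤ 0 ∧ |z.im| ≤ |t|} =
          (Complex.reLm ⁻¹' (Set.Icc (-0) 0)) ∩ (Complex.imLm ⁻¹' (Set.Icc (-|t|) |t|)) := by
        ext z
        simp only [Set.mem_ofPred_eq, Set.mem_inter_iff, Set.mem_preimage, Set.mem_Icc,
          Complex.reLm_coe, Complex.imLm_coe, abs_le]
      rw [h]
      exact ((convex_Icc _ _).linear_preimage Complex.reLm).inter
        ((convex_Icc _ _).linear_preimage Complex.imLm)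
    have hz0 : ∀ z : ℂ, z ∈ {z : ℂ | |z.re| ≤ 0 ∧ |z.im| ≤ |t|} → z.re = 0 ∧ ‖z‖ ≤ |t| := by
      rintro z ⟨h1, h2⟩
      have h3 : z.re = 0 := abs_eq_zero.1 (le_antisymm h1 (abs_nonneg _))
      refine ⟨h3, ?_⟩
      refine (Complex.norm_le_abs_re_add_abs_im z).trans ?_
      rw [h3, abs_zero, zero_add]
      exact h2
    have h1 := mvt (f := fun z => Ph m (σ + z) - Ph m (σ - z) - 2 * (z * Nf m σ))
      (f' := fun z => Nf m (σ + z) + Nf m (σ - z) - 2 * Nf m σ)
      (A := 2 * B * t ^ 2) hSc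
      (fun z hz => by
        obtain ⟨hz1, hz2⟩ := hz0 z hz
        have e1 := (hd0 (σ + z) (by simpa [hz1] using hσ)).comp_const_add (σ : ℂ) z
        have e2 := (hd0 (σ - z) (by simpa [hz1] using hσ)).comp_const_sub (σ : ℂ) z
        have e4 : HasDerivAt (fun z => Ph m (σ + z) - Ph m (σ - z) - 2 * (z * Nf m σ))
            (Nf m (σ + z) - -Nf m (σ - z) - 2 * (1 * Nf m σ)) z :=
          (e1.sub e2).sub (((hasDerivAt_id' z).mul_const (Nf m σ)).const_mul 2)
        rwa [sub_neg_eq_add, one_mul] at e4)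
      (fun z hz => by
        obtain ⟨hz1, hz2⟩ := hz0 z hz
        have e1 := hsec σ z (by simpa using hσ) (by simpa [hz1] using hσ)
          (by simpa [hz1] using hσ)
        refine e1.trans ?_
        have e2 : ‖z‖ ^ 2 ≤ t ^ 2 := by
          rw [← sq_abs t]
          exact pow_le_pow_left₀ (norm_nonneg _) hz2 2
        exact mul_le_mul_of_nonneg_left e2 (by positivity))
      (x := 0) (y := t * Complex.I) (by simp) (by simp)
    simp only [add_zero, sub_self, zero_mul, mul_zero, sub_zero] at h1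
    have e0 : ‖(t : ℂ) * Complex.I‖ = |t| := by simp
    rw [hPco σ t hσ, e0] at h1
    have h2 := (Complex.abs_im_le_norm _).trans h1
    have h3 : (Ph m (σ + t * Complex.I) - (starRingEnd ℂ) (Ph m (σ + t * Complex.I)) -
        2 * (t * Complex.I * Nf m σ)).im =
        2 * ((Ph m (σ + t * Complex.I)).im - (Nf m σ).re * t) := by
      simp only [Complex.sub_im, Complex.conj_im, Complex.mul_im, Complex.mul_re,
        Complex.ofReal_re, Complex.ofReal_im, Complex.I_re, Complex.I_im, Complex.re_ofNat,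
        Complex.im_ofNat]
      ring
    rw [h3, abs_mul, abs_of_pos (by norm_num : (0 : ℝ) < 2)] at h2
    have h4 : |(Ph m (σ + t * Complex.I)).im - (Nf m σ).re * t| ≤ B * |t| ^ 3 := by
      have : 2 * B * t ^ 2 * |t| = 2 * (B * |t| ^ 3) := by
        rw [← sq_abs t]
        ring
      linarith
    exact h4.trans (mul_le_mul_of_nonneg_right hCB (by positivity))
  · -- p6
    intro σ t hσ hσ0
    have h1 := taylor1 hd0 hl1 hA0.le (s := t * Complex.I) (h := σ) (by simp [hr0.le])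
      (by simpa using hσ)
    rw [Complex.norm_real, Real.norm_eq_abs, sq_abs] at h1
    have h2 := (abs_le.1 ((Complex.abs_re_le_norm _).trans h1)).2
    simp only [Complex.sub_re, Complex.mul_re, Complex.ofReal_re, Complex.ofReal_im, zero_mul,
      sub_zero] at h2
    rw [show (Ph m (t * Complex.I)).re = 0 from h9 t, sub_zero, add_comm] at h2
    have h3 : σ * (Nf m (t * Complex.I)).re ≤ σ * NR m 0 :=
      mul_le_mul_of_nonpos_left (himag t).2 hσ0
    have h4 : A * σ ^ 2 ≤ (M + A + 2 * B) * σ ^ 2 :=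
      mul_le_mul_of_nonneg_right hCA (sq_nonneg σ)
    linarith
  · -- p7
    intro σ hσ
    refine ⟨hPim σ hσ, ?_⟩
    have hSc : Convex ℝ {z : ℂ | |z.re| ≤ |σ| ∧ |z.im| ≤ 0} := by
      have h : {z : ℂ | |z.re| ≤ |σ| ∧ |z.im| ≤ 0} =
          (Complex.reLm ⁻¹' (Set.Icc (-|σ|) |σ|)) ∩ (Complex.imLm ⁻¹' (Set.Icc (-0) 0)) := by
        ext z
        simp only [Set.mem_ofPred_eq, Set.mem_inter_iff, Set.mem_preimage, Set.mem_Icc,
          Complex.reLm_coe, Complex.imLm_coe, abs_le]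
      rw [h]
      exact ((convex_Icc _ _).linear_preimage Complex.reLm).inter
        ((convex_Icc _ _).linear_preimage Complex.imLm)
    have h1 := mvt (f := fun z => Ph m z - z * Nf m 0) (f' := fun z => Nf m z - Nf m 0)
      (A := B * σ ^ 2) hSc
      (fun z hz => by
        have e1 := hd0 z (hz.1.trans hσ)
        have e4 : HasDerivAt (fun z => Ph m z - z * Nf m 0) (Nf m z - 1 * Nf m 0) z :=
          e1.sub ((hasDerivAt_id' z).mul_const (Nf m 0))
        rwa [one_mul] at e4)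
      (fun z hz => by
        have hz1 : z = ((z.re : ℝ) : ℂ) := by
          apply Complex.ext
          · simp
          · simpa using abs_eq_zero.1 (le_antisymm hz.2 (abs_nonneg _))
        rw [hz1]
        refine (h8 z.re (hz.1.trans hσ)).trans ?_
        refine mul_le_mul_of_nonneg_left ?_ hB0.le
        exact sq_le_sq.2 hz.1)
      (x := 0) (y := (σ : ℂ)) (by simp) (by simp)
    simp only [zero_mul, sub_zero, hP0, Complex.norm_real, Real.norm_eq_abs] at h1
    have h2 := (Complex.abs_re_le_norm _).trans h1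
    have h3 : (Ph m σ - σ * Nf m 0).re = (Ph m σ).re - NR m 0 * σ := by
      rw [hN0]
      simp only [Complex.sub_re, Complex.mul_re, Complex.ofReal_re, Complex.ofReal_im]
      ring
    rw [h3] at h2
    refine h2.trans ?_
    have h4 : B * σ ^ 2 * |σ| = B * |σ| ^ 3 := by
      rw [← sq_abs σ]
      ring
    rw [h4]
    exact mul_le_mul_of_nonneg_right hCB (by positivity)
  · -- p8
    intro σ hσ
    have h1 := h8 σ hσ
    rw [hN0] at h1
    have h2 := (Complex.abs_re_le_norm _).trans h1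
    rw [Complex.sub_re, Complex.ofReal_re] at h2
    exact h2.trans (mul_le_mul_of_nonneg_right hCB (sq_nonneg σ))
  · -- p10
    intro σ hσ
    have h1 : ContinuousAt (Nf m) (σ : ℂ) :=
      (hd1 (σ : ℂ) (by simpa using abs_le.2 hσ)).continuousAt
    have h2 : ContinuousAt (fun σ : ℝ => (Nf m σ).re) σ :=
      Complex.continuous_re.continuousAt.comp
        (ContinuousAt.comp (f := fun x : ℝ => (x : ℂ)) h1 Complex.continuous_ofReal.continuousAt)
    exact h2.continuousWithinAt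

end Pool.Agent.TH41.BL.PB3f
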