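import Mathlib
import Pool.Agent.TH41.BL.Stm3
import Pool.Agent.TH41.BL.LMA
import Pool.Agent.TH41.BL.LMB

/-! Project BL3: the primitive (helper626). -/

set_option autoImplicit false

open MeasureTheory Filter Topology

namespace Pool.Agent.TH41.BL.PH3f

open Pool.Agent.TH41.BL

theorem sinh_sq_le {x y : ℝ} (h : |x| ≤ |y|) : Real.sinh x ^ 2 ≤ Real.sinh y ^ 2 := by
  rw [sq_le_sq, Real.abs_sinh, Real.abs_sinh]
  exact Real.sinh_le_sinh.2 h

/-- the strip -/
def Uu (m : ℝ) : Set ℂ := {s : ℂ | m * Real.sinh s.re ^ 2 < 1}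

theorem Uu_open (m : ℝ) : IsOpen (Uu m) := by
  refine isOpen_lt ?_ continuous_const
  exact continuous_const.mul ((Real.continuous_sinh.comp Complex.continuous_re).pow 2)

theorem Uu_convex {m : ℝ} (hm : 0 < m) : Convex ℝ (Uu m) := by
  have h1 : Convex ℝ {x : ℝ | m * Real.sinh x ^ 2 < 1} := by
    apply Set.OrdConnected.convex
    refine ⟨fun x hx y hy z hz => ?_⟩
    rw [Set.mem_ofPred_eq] at hx hy ⊢
    have h2 : |z| ≤ max |x| |y| := by
      rw [abs_le]
      have a1 := neg_abs_le x
      have a2 := le_abs_self y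
      have a3 := le_max_left |x| |y|
      have a4 := le_max_right |x| |y|
      constructor
      · linarith [hz.1]
      · linarith [hz.2]
    rcases le_total |x| |y| with h3 | h3
    · rw [max_eq_right h3] at h2
      have := mul_le_mul_of_nonneg_left (sinh_sq_le h2) hm.le
      linarith
    · rw [max_eq_left h3] at h2
      have := mul_le_mul_of_nonneg_left (sinh_sq_le h2) hm.le
      linarith
  exact h1.linear_preimage Complex.reLm

theorem DN_open (m : ℝ) : IsOpen (DN m) := by
  have h1 : IsOpen {s : ℂ | |s.im| < Real.pi / 2} :=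
    isOpen_lt (continuous_abs.comp Complex.continuous_im) continuous_const
  have h2 : DN m = {s : ℂ | |s.im| < Real.pi / 2} ∪ Uu m := by
    ext s
    exact Iff.rfl
  rw [h2]
  exact h1.union (Uu_open m)

theorem DN_star {m : ℝ} (hm : 0 < m) : ∀ s ∈ DN m, ∀ u : ℝ, u ∈ Set.Icc (0 : ℝ) 1 →
    (u : ℂ) * s ∈ DN m := by
  rintro s hs u ⟨hu0, hu1⟩
  have hre : ((u : ℂ) * s).re = u * s.re := by simp
  have him : ((u : ℂ) * s).im = u * s.im := by simp
  rcases hs with hs | hs
  · left
    rw [him, abs_mul, abs_of_nonneg hu0]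
    have := mul_le_mul_of_nonneg_right hu1 (abs_nonneg s.im)
    linarith
  · right
    rw [hre]
    have h1 : |u * s.re| ≤ |s.re| := by
      rw [abs_mul, abs_of_nonneg hu0]
      have := mul_le_mul_of_nonneg_right hu1 (abs_nonneg s.re)
      linarith
    have := mul_le_mul_of_nonneg_left (sinh_sq_le h1) hm.le
    linarith

theorem ph (hw : S3_w) (ha : S3_na) (hb : S3_nb) : S3_ph := by
  have _hw := hw
  intro m hm
  obtain ⟨hb1, hb2, _, hb4, _⟩ := hb m hm
  have hder : ∀ s ∈ DN m, HasDerivAt (Ph m) (Nf m s) s := fun s hs =>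
    Pool.Agent.TH41.BL.LMAf.prim (DN_open m) (DN_star hm)
      (fun z hz => (ha m hm z hz).differentiableWithinAt) hs
  have h0 : Ph m 0 = 0 := by simp [Ph]
  refine ⟨hder, h0, ?_, ?_⟩
  · intro s hs
    unfold Ph
    rw [← intervalIntegral.intervalIntegral_conj]
    refine intervalIntegral.integral_congr fun u hu => ?_
    rw [Set.uIcc_of_le zero_le_one] at hu
    have h1 := hb2 _ (DN_star hm s hs u hu)
    rw [map_mul, Complex.conj_ofReal] at h1
    show (starRingEnd ℂ) s * Nf m (u * (starRingEnd ℂ) s) = (starRingEnd ℂ) (s * Nf m (u * s))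
    rw [h1, map_mul]
  · intro s hs
    have hre : ∀ w : ℂ, (w + Real.pi * Complex.I).re = w.re := fun w => by simp
    have hmem : ∀ w ∈ Uu m, w + Real.pi * Complex.I ∈ Uu m := by
      intro w hw
      show m * Real.sinh (w + Real.pi * Complex.I).re ^ 2 < 1
      rw [hre]
      exact hw
    have hsub : ∀ w ∈ Uu m, w ∈ DN m := fun w hw => Or.inr hw
    have hD : ∀ w ∈ Uu m, HasDerivAt (fun w => Ph m (w + Real.pi * Complex.I) - Ph m w) 0 w := by
      intro w hw
      have e1 := hder _ (hsub _ (hmem w hw))
      have e2 : HasDerivAt (fun w : ℂ => w + Real.pi * Complex.I) 1 w :=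
        (hasDerivAt_id w).add_const _
      have e3 := e1.comp w e2
      have e4 := e3.sub (hder w (hsub w hw))
      rw [hb1 w] at e4
      exact e4.congr_deriv (by ring)
    have hz : (0 : ℂ) ∈ Uu m := by
      show m * Real.sinh (0 : ℂ).re ^ 2 < 1
      simp
    have hconst := (Uu_open m).is_const_of_deriv_eq_zero (Uu_convex hm).isPreconnected
        (fun w hw => (hD w hw).differentiableAt.differentiableWithinAt)
        (fun w hw => (hD w hw).deriv) (show s ∈ Uu m from hs) hz
    simp only [zero_add, h0, sub_zero] at hconst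
    have hval : Ph m (Real.pi * Complex.I) = Real.pi * Nbar m * Complex.I := by
      have hpi := Real.pi_pos
      have h1 : Ph m (Real.pi * Complex.I) = ∫ u in (0 : ℝ)..1, (Real.pi * Complex.I) *
          (((Nf m (((u * Real.pi : ℝ) : ℂ) * Complex.I)).re : ℝ) : ℂ) := by
        unfold Ph
        refine intervalIntegral.integral_congr fun u _ => ?_
        have h2 : (u : ℂ) * (Real.pi * Complex.I) = ((u * Real.pi : ℝ) : ℂ) * Complex.I := by
          push_cast
          ring
        show (Real.pi * Complex.I) * Nf m (u * (Real.pi * Complex.I)) = _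
        rw [h2]
        congr 1
        apply Complex.ext
        · simp
        · rw [(hb4 (u * Real.pi)).1]
          simp
      rw [h1, intervalIntegral.integral_const_mul, intervalIntegral.integral_ofReal]
      have h3 : ∫ u in (0 : ℝ)..1, (Nf m (((u * Real.pi : ℝ) : ℂ) * Complex.I)).re = Nbar m := by
        have h4 := intervalIntegral.integral_comp_mul_right (a := 0) (b := 1)
          (fun φ : ℝ => (Nf m ((φ : ℂ) * Complex.I)).re) hpi.ne'
        rw [h4, zero_mul, one_mul, smul_eq_mul]
        unfold Nbar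
        rw [one_div]
      rw [h3]
      ring
    rw [← hval, ← hconst]
    ring

end Pool.Agent.TH41.BL.PH3f
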