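import Mathlib
import Pool.Agent.TH41.BL.Stm3

set_option autoImplicit false

open MeasureTheory Filter Topology

namespace Pool.Agent.TH41.BL.QU3f

open Pool.Agent.TH41.BL

/-- the extended weight -/
noncomputable def We (y : ℝ) : ℝ := WN (max y 0)

theorem We_cont (hw : S3_w) : Continuous We := by
  have h1 : Continuous fun y : ℝ => max y 0 := by fun_prop
  exact hw.1.comp_continuous h1 (fun y => le_max_right y 0)

theorem We_eq {y : ℝ} (hy : 0 ≤ y) : We y = WN y := by
  unfold We; rw [max_eq_left hy]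

theorem We_pos (hw : S3_w) (y : ℝ) : 0 < We y := (hw.2.1 _ (le_max_right y 0)).1

theorem We_le (hw : S3_w) (y : ℝ) : We y ≤ 1 / 8 := (hw.2.1 _ (le_max_right y 0)).2

/-- the integrand -/
noncomputable def hh (c y : ℝ) : ℝ := We y / √(1 + max y 0 * c)

theorem den_ge {c : ℝ} (hc : 0 ≤ c) (y : ℝ) : 1 ≤ √(1 + max y 0 * c) := by
  rw [Real.one_le_sqrt]
  have := mul_nonneg (le_max_right y 0) hc
  linarith

theorem hh_cont (hw : S3_w) (g : ℝ → ℝ) (hg : Continuous g) (hg0 : ∀ x, 0 ≤ g x) :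
    Continuous (fun p : ℝ × ℝ => hh (g p.1) p.2) := by
  unfold hh
  have h1 : Continuous (fun p : ℝ × ℝ => We p.2) := (We_cont hw).comp continuous_snd
  have h2 : Continuous (fun p : ℝ × ℝ => √(1 + max p.2 0 * g p.1)) := by fun_prop
  exact h1.div h2 (fun p => by have := den_ge (hg0 p.1) p.2; linarith)

theorem hh_pos (hw : S3_w) {c : ℝ} (hc : 0 ≤ c) (y : ℝ) : 0 < hh c y :=
  div_pos (We_pos hw y) (by have := den_ge hc y; linarith)

theorem hh_le (hw : S3_w) {c : ℝ} (hc : 0 ≤ c) (y : ℝ) : hh c y ≤ 1 / 8 := by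
  unfold hh
  have h1 := den_ge hc y
  have h2 := We_le hw y
  have h3 := We_pos hw y
  rw [div_le_iff₀ (by linarith)]
  nlinarith

/-- the common primitive -/
noncomputable def MM (c m : ℝ) : ℝ := ∫ y in (0 : ℝ)..m, hh c y

theorem hh_cont1 (hw : S3_w) {c : ℝ} (hc : 0 ≤ c) : Continuous (fun y => hh c y) := by
  unfold hh
  have h2 : Continuous (fun y : ℝ => √(1 + max y 0 * c)) := by fun_prop
  exact (We_cont hw).div h2 (fun y => by have := den_ge hc y; linarith)

theorem hh_int (hw : S3_w) {c : ℝ} (hc : 0 ≤ c) (a b : ℝ) :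
    IntervalIntegrable (hh c) volume a b := (hh_cont1 hw hc).intervalIntegrable a b

theorem MM_cont_m (hw : S3_w) {c : ℝ} (hc : 0 ≤ c) : Continuous (fun m => MM c m) := by
  have h1 : ∀ a b : ℝ, IntervalIntegrable (hh c) volume a b := hh_int hw hc
  have h := intervalIntegral.continuous_primitive (f := hh c) (μ := volume) h1 0
  exact h

theorem MM_cont_x (hw : S3_w) (g : ℝ → ℝ) (hg : Continuous g) (hg0 : ∀ x, 0 ≤ g x) (m : ℝ) :
    Continuous (fun x => MM (g x) m) := by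
  unfold MM
  exact intervalIntegral.continuous_parametric_intervalIntegral_of_continuous'
    (hh_cont hw g hg hg0) 0 m

theorem MM_sub (hw : S3_w) {c : ℝ} (hc : 0 ≤ c) (m m' : ℝ) :
    MM c m' - MM c m = ∫ y in m..m', hh c y :=
  intervalIntegral.integral_interval_sub_left (hh_int hw hc 0 m') (hh_int hw hc 0 m)

theorem MM_lt (hw : S3_w) {c : ℝ} (hc : 0 ≤ c) {m m' : ℝ} (h : m < m') : MM c m < MM c m' := by
  have h1 := MM_sub hw hc m m'
  have h2 : 0 < ∫ y in m..m', hh c y :=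
    intervalIntegral.intervalIntegral_pos_of_pos (hh_int hw hc m m') (hh_pos hw hc) h
  linarith

theorem MM_le (hw : S3_w) {c : ℝ} (hc : 0 ≤ c) {m m' : ℝ} (h : m ≤ m') :
    MM c m' - MM c m ≤ (m' - m) / 8 := by
  rw [MM_sub hw hc m m']
  have h1 : ∫ y in m..m', hh c y ≤ ∫ y in m..m', (1 / 8 : ℝ) :=
    intervalIntegral.integral_mono_on h (hh_int hw hc m m') intervalIntegrable_const
      (fun y _ => hh_le hw hc y)
  rw [intervalIntegral.integral_const, smul_eq_mul] at h1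
  linarith

theorem NR_eq {m : ℝ} (hm : 0 < m) (x : ℝ) : NR m x = MM (Real.cosh x ^ 2) m := by
  unfold NR MM
  apply intervalIntegral.integral_congr
  intro y hy
  rw [Set.uIcc_of_le hm.le] at hy
  simp only [hh]
  rw [We_eq hy.1, max_eq_left hy.1]

theorem sq_real {x : ℝ} (hx : 0 < x) : sq (x : ℂ) = ((√x : ℝ) : ℂ) := by
  unfold sq
  rw [← Complex.ofReal_log hx.le]
  rw [show (((Real.log x : ℝ) : ℂ) / 2) = ((Real.log x / 2 : ℝ) : ℂ) by push_cast; ring]
  rw [← Complex.ofReal_exp]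
  congr 1
  rw [Real.sqrt_eq_rpow, Real.rpow_def_of_pos hx]
  congr 1
  ring

theorem Nf_eq {m : ℝ} (hm : 0 < m) (φ : ℝ) :
    (Nf m (φ * Complex.I)).re = MM (Real.cos φ ^ 2) m := by
  have h : Nf m (φ * Complex.I) = ((MM (Real.cos φ ^ 2) m : ℝ) : ℂ) := by
    unfold Nf MM
    rw [← intervalIntegral.integral_ofReal]
    apply intervalIntegral.integral_congr
    intro y hy
    rw [Set.uIcc_of_le hm.le] at hy
    have h0 : (0 : ℝ) < 1 + y * Real.cos φ ^ 2 := by
      have := mul_nonneg hy.1 (sq_nonneg (Real.cos φ)); linarith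
    simp only [hh]
    rw [We_eq hy.1, max_eq_left hy.1, Complex.cosh_mul_I]
    have h1 : (1 + (y : ℂ) * Complex.cos φ ^ 2) = ((1 + y * Real.cos φ ^ 2 : ℝ) : ℂ) := by
      push_cast; ring
    rw [h1, sq_real h0]
    push_cast
    ring
  rw [h, Complex.ofReal_re]

theorem Nbar_eq {m : ℝ} (hm : 0 < m) :
    Nbar m = 1 / Real.pi * ∫ φ in (0 : ℝ)..Real.pi, MM (Real.cos φ ^ 2) m := by
  unfold Nbar
  congr 1
  apply intervalIntegral.integral_congr
  intro φ _
  exact Nf_eq hm φ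

theorem cosq_cont : Continuous fun φ : ℝ => Real.cos φ ^ 2 := by fun_prop

theorem chsq_cont : Continuous fun x : ℝ => Real.cosh x ^ 2 := by fun_prop

theorem outer_int (hw : S3_w) (m : ℝ) :
    IntervalIntegrable (fun φ => MM (Real.cos φ ^ 2) m) volume 0 Real.pi :=
  (MM_cont_x hw _ cosq_cont (fun _ => sq_nonneg _) m).intervalIntegrable _ _

theorem Nbar_lt (hw : S3_w) {m m' : ℝ} (hm : 0 < m) (h : m < m') : Nbar m < Nbar m' := by
  rw [Nbar_eq hm, Nbar_eq (hm.trans h)]
  apply mul_lt_mul_of_pos_left _ (by positivity)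
  apply intervalIntegral.integral_lt_integral_of_continuousOn_of_le_of_exists_lt Real.pi_pos
  · exact (MM_cont_x hw _ cosq_cont (fun _ => sq_nonneg _) m).continuousOn
  · exact (MM_cont_x hw _ cosq_cont (fun _ => sq_nonneg _) m').continuousOn
  · intro φ _
    exact (MM_lt hw (sq_nonneg _) h).le
  · exact ⟨0, ⟨le_rfl, Real.pi_pos.le⟩, MM_lt hw (sq_nonneg _) h⟩

theorem Nbar_lip (hw : S3_w) {m m' : ℝ} (hm : 0 < m) (h : m ≤ m') :
    Nbar m' - Nbar m ≤ (m' - m) / 8 := by
  rw [Nbar_eq hm, Nbar_eq (hm.trans_le h), ← mul_sub,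
    ← intervalIntegral.integral_sub (outer_int hw m') (outer_int hw m)]
  have h1 : ∫ φ in (0 : ℝ)..Real.pi, (MM (Real.cos φ ^ 2) m' - MM (Real.cos φ ^ 2) m) ≤
      ∫ φ in (0 : ℝ)..Real.pi, (m' - m) / 8 :=
    intervalIntegral.integral_mono_on Real.pi_pos.le ((outer_int hw m').sub (outer_int hw m))
      intervalIntegrable_const (fun φ _ => MM_le hw (sq_nonneg _) h)
  rw [intervalIntegral.integral_const, smul_eq_mul, sub_zero] at h1
  calc 1 / Real.pi * ∫ φ in (0 : ℝ)..Real.pi, (MM (Real.cos φ ^ 2) m' - MM (Real.cos φ ^ 2) m)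
      ≤ 1 / Real.pi * (Real.pi * ((m' - m) / 8)) :=
        mul_le_mul_of_nonneg_left h1 (by positivity)
    _ = (m' - m) / 8 := by
        have := Real.pi_pos.ne'
        field_simp

theorem Nbar_mono (hw : S3_w) : StrictMonoOn Nbar (Set.Ioi 0) :=
  fun _ hm _ _ h => Nbar_lt hw hm h

theorem Nbar_cont (hw : S3_w) : ContinuousOn Nbar (Set.Ioi 0) := by
  have hl : LipschitzOnWith (1 / 8 : NNReal) Nbar (Set.Ioi 0) := by
    apply LipschitzOnWith.of_le_add_mul
    intro m hm m' hm'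
    rw [Real.dist_eq]
    have e : ((1 / 8 : NNReal) : ℝ) = 1 / 8 := by norm_num
    rw [e]
    rcases le_total m m' with h | h
    · have h1 : Nbar m ≤ Nbar m' := (Nbar_mono hw).monotoneOn hm hm' h
      have h2 := abs_nonneg (m - m')
      linarith
    · have h1 := Nbar_lip hw hm' h
      have h2 := le_abs_self (m - m')
      linarith
  exact hl.continuousOn

theorem NR_cont (hw : S3_w) (x : ℝ) : ContinuousOn (fun m => NR m x) (Set.Ioi 0) := by
  have h1 : ContinuousOn (fun m => MM (Real.cosh x ^ 2) m) (Set.Ioi 0) :=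
    (MM_cont_m hw (sq_nonneg _)).continuousOn
  have h2 : Set.EqOn (fun m => NR m x) (fun m => MM (Real.cosh x ^ 2) m) (Set.Ioi 0) :=
    fun m hm => NR_eq hm x
  exact h1.congr h2

theorem NR_int (hw : S3_w) (hc : S3_nc) {μ : ℝ} (hμ : 0 < μ) :
    IntegrableOn (fun x => NR μ x) (Set.Ioi 0) := by
  obtain ⟨C, hC, -, h2⟩ := hc μ hμ
  have hmeas : Continuous (fun x => NR μ x) := by
    have h3 : (fun x => NR μ x) = fun x => MM (Real.cosh x ^ 2) μ := by
      funext x
      exact NR_eq hμ x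
    rw [h3]
    exact MM_cont_x hw _ chsq_cont (fun _ => sq_nonneg _) μ
  have hdom : IntegrableOn (fun x : ℝ => C * Real.exp (-x)) (Set.Ioi 0) :=
    (integrableOn_exp_neg_Ioi 0).const_mul C
  have hae : ∀ᵐ x ∂(volume.restrict (Set.Ioi (0 : ℝ))), ‖NR μ x‖ ≤ C * Real.exp (-x) := by
    rw [ae_restrict_iff' measurableSet_Ioi]
    apply Filter.Eventually.of_forall
    intro x hx
    obtain ⟨a1, a2⟩ := h2 x (le_of_lt hx)
    rw [Real.norm_eq_abs, abs_of_nonneg a1]
    exact a2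
  exact Integrable.mono' hdom hmeas.aestronglyMeasurable hae

theorem I3_mono (hw : S3_w) (hc : S3_nc) : MonotoneOn I3 (Set.Ioi 0) := by
  intro m hm m' hm' h
  unfold I3
  apply setIntegral_mono_on (NR_int hw hc hm) (NR_int hw hc hm') measurableSet_Ioi
  intro x _
  rw [NR_eq hm, NR_eq hm']
  rcases eq_or_lt_of_le h with rfl | h
  · exact le_rfl
  · exact (MM_lt hw (sq_nonneg _) h).le

theorem quant (hw : S3_w) (hb : S3_nb) (hc : S3_nc) : S3_quant :=
  ⟨Nbar_cont hw, Nbar_mono hw, NR_cont hw, I3_mono hw hc⟩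

end Pool.Agent.TH41.BL.QU3f
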