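import Mathlib
import Pool.Agent.TH41.BL.Stm3

set_option autoImplicit false

open MeasureTheory Filter Topology

namespace Pool.Agent.TH41.BL.RI3f

open Pool.Agent.TH41.BL

lemma re_add_mul_I (c x : ℝ) : ((c : ℂ) + x * Complex.I).re = c := by simp

lemma norm_gN (n : ℕ) (ε : ℝ) (hε : 0 < ε) (c x : ℝ) (hc : 0 < c) :
    ‖gN n ε (c + x * Complex.I)‖ ≤ 1 := by
  unfold gN
  rw [Complex.norm_exp, ← Real.exp_zero]
  apply Real.exp_le_exp.2
  have h1 : ((n : ℂ) * (ε : ℂ) * (Complex.exp (-((c : ℂ) + x * Complex.I)) - 1)).re =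
      (n : ℝ) * ε * ((Complex.exp (-((c : ℂ) + x * Complex.I))).re - 1) := by
    have e : (n : ℂ) * (ε : ℂ) = ((n * ε : ℝ) : ℂ) := by push_cast; ring
    rw [e, Complex.re_ofReal_mul, Complex.sub_re, Complex.one_re]
  rw [h1]
  have h2 : (Complex.exp (-((c : ℂ) + x * Complex.I))).re ≤ 1 := by
    refine (Complex.re_le_norm _).trans ?_
    rw [Complex.norm_exp, Complex.neg_re, re_add_mul_I]
    exact Real.exp_le_one_iff.2 (by linarith)
  have h3 : 0 ≤ (n : ℝ) * ε := by positivity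
  nlinarith

lemma norm_exp_sub (c x : ℝ) : c ≤ ‖Complex.exp ((c : ℂ) + x * Complex.I) - 1‖ := by
  have h1 := norm_sub_norm_le (Complex.exp ((c : ℂ) + x * Complex.I)) 1
  rw [Complex.norm_exp, re_add_mul_I, norm_one] at h1
  have h2 := Real.add_one_le_exp c
  linarith

/-- the bound of the integrand -/
lemma integrand_le {m C κ : ℝ} (hC : 0 < C) (hP : PB m C κ) (n w : ℕ) (ε : ℝ) (hε : 0 < ε) (c φ θ : ℝ)
    (hc : 0 < c) (hcκ : c ≤ κ) :
    ‖Complex.exp (n * Ph m (c + φ * Complex.I)) *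
    (Complex.exp (-(w * (c + φ * Complex.I))) * (gN n ε (c + (φ - θ) * Complex.I) /
      (Complex.exp (c + (φ - θ) * Complex.I) - 1)))‖ ≤ Real.exp (n * (C * c)) / c := by
  have e1 : ((φ : ℂ) - θ) = ((φ - θ : ℝ) : ℂ) := by push_cast; ring
  rw [norm_mul, norm_mul, norm_div, e1]
  have h1 : ‖Complex.exp (n * Ph m (c + φ * Complex.I))‖ ≤ Real.exp (n * (C * c)) := by
    rw [Complex.norm_exp]
    apply Real.exp_le_exp.2
    have e2 : ((n : ℂ) * Ph m (c + φ * Complex.I)).re = n * (Ph m (c + φ * Complex.I)).re := by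
      have e : (n : ℂ) = ((n : ℝ) : ℂ) := by push_cast; rfl
      rw [e, Complex.re_ofReal_mul]
    rw [e2]
    have h2 := hP.p3 c φ (by rw [abs_of_pos hc]; exact hcκ)
    rw [abs_of_pos hc] at h2
    exact mul_le_mul_of_nonneg_left ((le_abs_self _).trans h2) (Nat.cast_nonneg n)
  have h2 : ‖Complex.exp (-(w * ((c : ℂ) + φ * Complex.I)))‖ ≤ 1 := by
    rw [Complex.norm_exp]
    apply Real.exp_le_one_iff.2
    have e : (w : ℂ) = ((w : ℝ) : ℂ) := by push_cast; rfl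
    rw [Complex.neg_re, e, Complex.re_ofReal_mul, re_add_mul_I]
    have : 0 ≤ (w : ℝ) * c := by positivity
    linarith
  have h3 := norm_gN n ε hε c (φ - θ) hc
  have h4 := norm_exp_sub c (φ - θ)
  have h5 : ‖gN n ε (c + ((φ - θ : ℝ) : ℂ) * Complex.I)‖ /
      ‖Complex.exp (c + ((φ - θ : ℝ) : ℂ) * Complex.I) - 1‖ ≤ 1 / c :=
    div_le_div₀ zero_le_one h3 hc h4
  have h6 : 0 ≤ ‖gN n ε (c + ((φ - θ : ℝ) : ℂ) * Complex.I)‖ /
      ‖Complex.exp (c + ((φ - θ : ℝ) : ℂ) * Complex.I) - 1‖ := by positivity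
  have h7 : ‖Complex.exp (-(w * ((c : ℂ) + φ * Complex.I)))‖ *
      (‖gN n ε (c + ((φ - θ : ℝ) : ℂ) * Complex.I)‖ /
      ‖Complex.exp (c + ((φ - θ : ℝ) : ℂ) * Complex.I) - 1‖) ≤ 1 * (1 / c) :=
    mul_le_mul h2 h5 h6 zero_le_one
  calc _ ≤ Real.exp (n * (C * c)) * (1 * (1 / c)) :=
        mul_le_mul h1 h7 (mul_nonneg (norm_nonneg _) h6) (Real.exp_pos _).le
    _ = _ := by rw [one_mul, mul_one_div]

theorem right3 (hb : S3_pb) : S3_right := by
  intro m ε ε₂ hm hε hε₂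
  obtain ⟨C, κ, hC, hκ, -, hP⟩ := hb m hm
  refine ⟨min κ (ε₂ / (2 * C)), lt_min hκ (by positivity), fun c hc hc0 => ?_⟩
  have hcκ : c ≤ κ := hc0.trans (min_le_left _ _)
  have hcC : C * c ≤ ε₂ / 2 := by
    have h1 : c ≤ ε₂ / (2 * C) := hc0.trans (min_le_right _ _)
    rw [le_div_iff₀ (by positivity)] at h1
    linarith
  refine ⟨⌈2 / (ε₂ * c)⌉₊, fun n w hn _ θ => ?_⟩
  have h1 : ‖∫ φ in (-Real.pi)..Real.pi, Complex.exp (n * Ph m (c + φ * Complex.I)) *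
    (Complex.exp (-(w * (c + φ * Complex.I))) * (gN n ε (c + (φ - θ) * Complex.I) /
      (Complex.exp (c + (φ - θ) * Complex.I) - 1)))‖ ≤
      Real.exp (n * (C * c)) / c * |Real.pi - -Real.pi| :=
    intervalIntegral.norm_integral_le_of_norm_le_const fun φ _ =>
      integrand_le hC hP n w ε hε c φ θ hc hcκ
  have hpi := Real.pi_pos
  have h2 : |Real.pi - -Real.pi| = 2 * Real.pi := by
    rw [abs_of_pos (by linarith)]
    ring
  rw [h2] at h1
  unfold vN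
  rw [norm_div]
  have h3 : ‖(2 * (Real.pi : ℂ))‖ = 2 * Real.pi := by
    have e : (2 * (Real.pi : ℂ)) = ((2 * Real.pi : ℝ) : ℂ) := by push_cast; rfl
    rw [e, Complex.norm_real, Real.norm_eq_abs, abs_of_pos (by linarith)]
  rw [h3, div_le_iff₀ (by linarith)]
  refine h1.trans (mul_le_mul_of_nonneg_right ?_ (by linarith))
  rw [div_le_iff₀ hc]
  have hn1 : 2 / (ε₂ * c) ≤ (n : ℝ) := (Nat.le_ceil _).trans (by exact_mod_cast hn)
  rw [div_le_iff₀ (by positivity)] at hn1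
  -- `1 ≤ exp (n ε₂ / 2) c`
  have h4 : 1 ≤ Real.exp (n * (ε₂ / 2)) * c := by
    have h5 := Real.add_one_le_exp ((n : ℝ) * (ε₂ / 2))
    have h6 : (n : ℝ) * (ε₂ / 2) * c ≤ Real.exp (n * (ε₂ / 2)) * c :=
      mul_le_mul_of_nonneg_right (by linarith) hc.le
    nlinarith
  have h5 : Real.exp (ε₂ * n) = Real.exp (n * (ε₂ / 2)) * Real.exp (n * (ε₂ / 2)) := by
    rw [← Real.exp_add]
    congr 1
    ring
  have h6 : Real.exp (n * (C * c)) ≤ Real.exp (n * (ε₂ / 2)) :=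
    Real.exp_le_exp.2 (mul_le_mul_of_nonneg_left hcC (Nat.cast_nonneg n))
  rw [h5]
  have h7 := Real.exp_pos ((n : ℝ) * (ε₂ / 2))
  nlinarith

end Pool.Agent.TH41.BL.RI3f
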