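import Mathlib
import Pool.Agent.TH41.BL.Stm2

/-!
Project BL2, job 3239: shift of a vertical segment.
-/

set_option autoImplicit false

open MeasureTheory Filter Topology

namespace Pool.Agent.TH41.BL.RECf

open Pool.Agent.TH41.BL

/-- the boundary integral of a rectangle -/
noncomputable def bd (f : ℂ → ℂ) (c c' T : ℝ) : ℂ :=
  (∫ x in c..c', f (x + (-T : ℝ) * Complex.I)) - (∫ x in c..c', f (x + T * Complex.I)) +
    Complex.I * (∫ y in (-T)..T, f (c' + y * Complex.I)) -
    Complex.I * (∫ y in (-T)..T, f (c + y * Complex.I))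

theorem bd_zero {f : ℂ → ℂ} {c c' T : ℝ} (hT : 0 < T)
    (hf : ∀ s : ℂ, s.re ∈ Set.uIcc c c' → |s.im| ≤ T → DifferentiableAt ℂ f s) :
    bd f c c' T = 0 := by
  have h := Complex.integral_boundary_rect_eq_zero_of_differentiableOn f
    (⟨c, -T⟩ : ℂ) (⟨c', T⟩ : ℂ) (by
      intro s hs
      rw [Complex.mem_reProdIm] at hs
      refine (hf s hs.1 ?_).differentiableWithinAt
      have h2 := hs.2
      rw [Set.uIcc_of_le (by simp only; linarith)] at h2
      exact abs_le.2 h2)
  simp only [smul_eq_mul] at h
  exact h

theorem sides {Y : ℂ → ℂ} {T τ M x : ℝ} {e : ℝ} (he : e = T ∨ e = -T) (hτ : |τ| < T)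
    (hM : ‖Y (x + e * Complex.I)‖ ≤ M) :
    ‖Y (x + e * Complex.I) / (x + e * Complex.I - τ * Complex.I)‖ ≤ M / (T - |τ|) := by
  rw [norm_div]
  have h1 : T - |τ| ≤ ‖(x + e * Complex.I - τ * Complex.I : ℂ)‖ := by
    refine le_trans ?_ (Complex.abs_im_le_norm _)
    have h2 : (x + e * Complex.I - τ * Complex.I : ℂ).im = e - τ := by simp
    rw [h2]
    rcases he with rfl | rfl
    · have := le_abs_self τ
      exact le_trans (by linarith) (le_abs_self _)
    · have := neg_abs_le τ
      exact le_trans (by linarith) (neg_le_abs _)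
  have h3 : 0 < T - |τ| := by linarith
  have h4 : 0 ≤ M := (norm_nonneg _).trans hM
  exact div_le_div₀ h4 hM h3 h1

theorem log_horiz (a b k : ℝ) (hk : k ≠ 0) :
    ∫ x in a..b, (1 / ((x : ℂ) + k * Complex.I)) =
      Complex.log (b + k * Complex.I) - Complex.log (a + k * Complex.I) := by
  have hsl : ∀ x : ℝ, (x : ℂ) + k * Complex.I ∈ Complex.slitPlane := by
    intro x
    rw [Complex.mem_slitPlane_iff]
    right
    simpa using hk
  have hne : ∀ x : ℝ, (x : ℂ) + k * Complex.I ≠ 0 := fun x => Complex.slitPlane_ne_zero (hsl x)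
  apply intervalIntegral.integral_eq_sub_of_hasDerivAt
  · intro x _
    have h1 : HasDerivAt (fun x : ℝ => (x : ℂ) + k * Complex.I) 1 x :=
      (Complex.ofRealCLM.hasDerivAt).add_const _
    exact h1.clog_real (hsl x)
  · apply Continuous.intervalIntegrable
    exact continuous_const.div (by fun_prop) hne

theorem log_vert (c τ T : ℝ) (hc : 0 < c) :
    Complex.I * ∫ y in (-T)..T, (1 / ((c : ℂ) + (y - τ) * Complex.I)) =
      Complex.log (c + (T - τ) * Complex.I) - Complex.log (c + (-T - τ) * Complex.I) := by
  have hsl : ∀ y : ℝ, (c : ℂ) + (y - τ) * Complex.I ∈ Complex.slitPlane := by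
    intro y
    rw [Complex.mem_slitPlane_iff]
    left
    simpa using hc
  have hne : ∀ y : ℝ, (c : ℂ) + (y - τ) * Complex.I ≠ 0 :=
    fun y => Complex.slitPlane_ne_zero (hsl y)
  rw [← intervalIntegral.integral_const_mul]
  have h := intervalIntegral.integral_eq_sub_of_hasDerivAt (a := -T) (b := T)
    (f := fun y : ℝ => Complex.log ((c : ℂ) + (y - τ) * Complex.I))
    (f' := fun y : ℝ => Complex.I * (1 / ((c : ℂ) + (y - τ) * Complex.I))) ?_ ?_
  · rw [h]
    push_cast
    rfl
  · intro y _
    have h1 : HasDerivAt (fun y : ℝ => (c : ℂ) + (y - τ) * Complex.I) Complex.I y := by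
      have h2 : HasDerivAt (fun y : ℝ => (y : ℂ)) 1 y := Complex.ofRealCLM.hasDerivAt
      have h3 := ((h2.sub_const (τ : ℂ)).mul_const Complex.I).const_add (c : ℂ)
      simpa using h3
    have h4 := h1.clog_real (hsl y)
    rw [mul_one_div]
    exact h4
  · apply Continuous.intervalIntegrable
    exact continuous_const.mul (continuous_const.div (by fun_prop) hne)

/-- the same, to the left of the pole -/
theorem log_vert_neg (c τ T : ℝ) (hc : c < 0) :
    Complex.I * ∫ y in (-T)..T, (1 / ((c : ℂ) + (y - τ) * Complex.I)) =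
      Complex.log (-(c + (T - τ) * Complex.I)) - Complex.log (-(c + (-T - τ) * Complex.I)) := by
  have hsl : ∀ y : ℝ, -((c : ℂ) + (y - τ) * Complex.I) ∈ Complex.slitPlane := by
    intro y
    rw [Complex.mem_slitPlane_iff]
    left
    simpa using hc
  have hne : ∀ y : ℝ, (c : ℂ) + (y - τ) * Complex.I ≠ 0 :=
    fun y => neg_ne_zero.1 (Complex.slitPlane_ne_zero (hsl y))
  rw [← intervalIntegral.integral_const_mul]
  have h := intervalIntegral.integral_eq_sub_of_hasDerivAt (a := -T) (b := T)
    (f := fun y : ℝ => Complex.log (-((c : ℂ) + (y - τ) * Complex.I)))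
    (f' := fun y : ℝ => Complex.I * (1 / ((c : ℂ) + (y - τ) * Complex.I))) ?_ ?_
  · rw [h]
    push_cast
    rfl
  · intro y _
    have h1 : HasDerivAt (fun y : ℝ => -((c : ℂ) + (y - τ) * Complex.I)) (-Complex.I) y := by
      have h2 : HasDerivAt (fun y : ℝ => (y : ℂ)) 1 y := Complex.ofRealCLM.hasDerivAt
      have h3 := (((h2.sub_const (τ : ℂ)).mul_const Complex.I).const_add (c : ℂ)).neg
      rw [one_mul] at h3
      exact h3
    have h4 := h1.clog_real (hsl y)
    rw [mul_one_div, ← neg_div_neg_eq]
    exact h4
  · apply Continuous.intervalIntegrable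
    exact continuous_const.mul (continuous_const.div (by fun_prop) hne)

theorem bd_pole {c c' T τ : ℝ} (hc : c < 0) (hc' : 0 < c') (hτ : |τ| < T) :
    bd (fun s => 1 / (s - τ * Complex.I)) c c' T = 2 * Real.pi * Complex.I := by
  obtain ⟨ht1, ht2⟩ := abs_lt.1 hτ
  unfold bd
  have e1 : (∫ x in c..c', (fun s : ℂ => 1 / (s - τ * Complex.I)) (x + (-T : ℝ) * Complex.I)) =
      Complex.log (c' + (-T - τ) * Complex.I) - Complex.log (c + (-T - τ) * Complex.I) := by
    have h := log_horiz c c' (-T - τ) (by linarith)
    push_cast at h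
    rw [← h]
    congr 1
    ext x
    push_cast
    ring_nf
  have e2 : (∫ x in c..c', (fun s : ℂ => 1 / (s - τ * Complex.I)) (x + T * Complex.I)) =
      Complex.log (c' + (T - τ) * Complex.I) - Complex.log (c + (T - τ) * Complex.I) := by
    have h := log_horiz c c' (T - τ) (by linarith)
    push_cast at h
    rw [← h]
    congr 1
    ext x
    ring_nf
  have e3 : Complex.I * (∫ y in (-T)..T,
      (fun s : ℂ => 1 / (s - τ * Complex.I)) (c' + y * Complex.I)) =
      Complex.log (c' + (T - τ) * Complex.I) - Complex.log (c' + (-T - τ) * Complex.I) := by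
    rw [← log_vert c' τ T hc']
    congr 2
    ext x
    ring_nf
  have e4 : Complex.I * (∫ y in (-T)..T,
      (fun s : ℂ => 1 / (s - τ * Complex.I)) (c + y * Complex.I)) =
      Complex.log (-(c + (T - τ) * Complex.I)) - Complex.log (-(c + (-T - τ) * Complex.I)) := by
    rw [← log_vert_neg c τ T hc]
    congr 2
    ext x
    ring_nf
  rw [e1, e2, e3, e4]
  have h5 : Complex.log (-(c + (T - τ) * Complex.I)) =
      Complex.log (c + (T - τ) * Complex.I) - Real.pi * Complex.I := by
    have him : (0 : ℝ) < (c + (T - τ) * Complex.I : ℂ).im := by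
      simp
      linarith
    rw [Complex.log, Complex.log, norm_neg, Complex.arg_neg_eq_arg_sub_pi_of_im_pos him]
    push_cast
    ring
  have h6 : Complex.log (-(c + (-T - τ) * Complex.I)) =
      Complex.log (c + (-T - τ) * Complex.I) + Real.pi * Complex.I := by
    have him : (c + (-T - τ) * Complex.I : ℂ).im < 0 := by
      simp
      linarith
    rw [Complex.log, Complex.log, norm_neg, Complex.arg_neg_eq_arg_add_pi_of_im_neg him]
    push_cast
    ring
  rw [h5, h6]
  ring

theorem horiz {Y : ℂ → ℂ} {α β T τ M : ℝ} (hτ : |τ| < T)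
    (hM : ∀ σ : ℝ, α ≤ σ → σ ≤ β →
      ‖Y (σ + T * Complex.I)‖ ≤ M ∧ ‖Y (σ + (-T : ℝ) * Complex.I)‖ ≤ M)
    {c c' : ℝ} (h1 : α ≤ c) (h2 : c ≤ β) (h1' : α ≤ c') (h2' : c' ≤ β) :
    ‖(∫ x in c..c', (fun s => Y s / (s - τ * Complex.I)) (x + (-T : ℝ) * Complex.I)) -
      (∫ x in c..c', (fun s => Y s / (s - τ * Complex.I)) (x + T * Complex.I))‖ ≤
      2 * (β - α) * M / (T - |τ|) := by
  have h3 : 0 < T - |τ| := by linarith
  have h4 : 0 ≤ M := (norm_nonneg _).trans (hM c h1 h2).1
  have hmem : ∀ x ∈ Set.uIoc c c', α ≤ x ∧ x ≤ β := by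
    intro x hx
    rw [Set.mem_uIoc] at hx
    rcases hx with hx | hx
    · exact ⟨by linarith [hx.1], by linarith [hx.2]⟩
    · exact ⟨by linarith [hx.1], by linarith [hx.2]⟩
  have hA := intervalIntegral.norm_integral_le_of_norm_le_const (a := c) (b := c')
    (f := fun x : ℝ => (fun s => Y s / (s - τ * Complex.I)) (x + (-T : ℝ) * Complex.I))
    (C := M / (T - |τ|)) (by
      intro x hx
      obtain ⟨hx1, hx2⟩ := hmem x hx
      exact sides (e := -T) (Or.inr rfl) hτ (hM x hx1 hx2).2)
  have hB := intervalIntegral.norm_integral_le_of_norm_le_const (a := c) (b := c')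
    (f := fun x : ℝ => (fun s => Y s / (s - τ * Complex.I)) (x + T * Complex.I))
    (C := M / (T - |τ|)) (by
      intro x hx
      obtain ⟨hx1, hx2⟩ := hmem x hx
      exact sides (e := T) (Or.inl rfl) hτ (hM x hx1 hx2).1)
  have h5 : |c' - c| ≤ β - α := by
    rw [abs_le]
    constructor <;> linarith
  have h6 : M / (T - |τ|) * |c' - c| ≤ M / (T - |τ|) * (β - α) :=
    mul_le_mul_of_nonneg_left h5 (by positivity)
  refine (norm_sub_le _ _).trans ?_
  calc _ ≤ M / (T - |τ|) * |c' - c| + M / (T - |τ|) * |c' - c| := add_le_add hA hB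
    _ ≤ M / (T - |τ|) * (β - α) + M / (T - |τ|) * (β - α) := add_le_add h6 h6
    _ = 2 * (β - α) * M / (T - |τ|) := by ring

theorem vert_eq (Y : ℂ → ℂ) (c τ T : ℝ) :
    (∫ t in (-T)..T, Y (c + t * Complex.I) / (c + (t - τ) * Complex.I)) =
      ∫ y in (-T)..T, (fun s => Y s / (s - τ * Complex.I)) (c + y * Complex.I) := by
  congr 1
  ext t
  congr 1
  ring

theorem rect : S_rect := by
  intro Y α β T τ M hα hβ hτ hY hM
  have hT : 0 < T := (abs_nonneg τ).trans_lt hτ
  obtain ⟨ht1, ht2⟩ := abs_lt.1 hτ
  constructor
  · intro c c' hc hcb hc' hcb'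
    rw [vert_eq, vert_eq]
    have h0 : bd (fun s => Y s / (s - τ * Complex.I)) c' c T = 0 := by
      apply bd_zero hT
      intro s hs1 hs2
      have hs3 : 0 < s.re ∧ s.re ≤ β := by
        rw [Set.mem_uIcc] at hs1
        rcases hs1 with h | h
        · exact ⟨by linarith [h.1], by linarith [h.2]⟩
        · exact ⟨by linarith [h.1], by linarith [h.2]⟩
      refine (hY s (by linarith [hs3.1]) hs3.2 hs2).div (by fun_prop) ?_
      intro h
      have h1 := congrArg Complex.re h
      simp at h1
      linarith [hs3.1]
    have h1 := horiz hτ hM (c := c') (c' := c) (by linarith) hcb' (by linarith) hcb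
    unfold bd at h0
    set A := (∫ x in c'..c, (fun s => Y s / (s - τ * Complex.I)) (x + (-T : ℝ) * Complex.I))
    set B := (∫ x in c'..c, (fun s => Y s / (s - τ * Complex.I)) (x + T * Complex.I))
    set U := ∫ y in (-T)..T, (fun s => Y s / (s - τ * Complex.I)) (c + y * Complex.I)
    set V := ∫ y in (-T)..T, (fun s => Y s / (s - τ * Complex.I)) (c' + y * Complex.I)
    have h2 : U - V = Complex.I * (A - B) := by
      linear_combination (-Complex.I) * h0 + (U - V) * Complex.I_mul_I
    rw [h2, norm_mul, Complex.norm_I, one_mul]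
    exact h1
  · intro c c' hc1 hc hc' hcb'
    rw [vert_eq, vert_eq]
    set p : ℂ := τ * Complex.I with hp
    have hpre : p.re = 0 := by simp [hp]
    have hpim : p.im = τ := by simp [hp]
    have hcc : c ≤ c' := by linarith
    set S : Set ℂ := Set.Icc c c' ×ℂ Set.Icc (-T) T with hS
    have hSn : S ∈ 𝓝 p := by
      rw [hS, Complex.reProdIm]
      apply Filter.inter_mem
      · apply Complex.continuous_re.continuousAt.preimage_mem_nhds
        rw [hpre]
        exact Icc_mem_nhds hc hc'
      · apply Complex.continuous_im.continuousAt.preimage_mem_nhds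
        rw [hpim]
        exact Icc_mem_nhds ht1 ht2
    have hYS : ∀ s ∈ S, DifferentiableAt ℂ Y s := by
      intro s hs
      rw [hS, Complex.mem_reProdIm] at hs
      exact hY s (by linarith [hs.1.1]) (by linarith [hs.1.2]) (abs_le.2 hs.2)
    have hG : DifferentiableOn ℂ (dslope Y p) S :=
      (Complex.differentiableOn_dslope hSn).2 fun s hs => (hYS s hs).differentiableWithinAt
    have hG0 : bd (dslope Y p) c c' T = 0 := by
      have h := Complex.integral_boundary_rect_eq_zero_of_differentiableOn (dslope Y p)
        (⟨c, -T⟩ : ℂ) (⟨c', T⟩ : ℂ) (by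
          simp only
          rw [Set.uIcc_of_le hcc, Set.uIcc_of_le (by linarith : -T ≤ T)]
          exact hG)
      simp only [smul_eq_mul] at h
      exact h
    have hP := bd_pole (c := c) (c' := c') (T := T) (τ := τ) hc hc' hτ
    have hdec : ∀ s : ℂ, s ≠ p → Y s / (s - τ * Complex.I) =
        dslope Y p s + Y p * (1 / (s - τ * Complex.I)) := by
      intro s hs
      have h1 : s - p ≠ 0 := sub_ne_zero.2 hs
      rw [dslope_of_ne _ hs, slope_def_field, ← hp]
      field_simp
      ring
    have hGc : ContinuousOn (dslope Y p) S := hG.continuousOn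
    have hsplit : bd (fun s => Y s / (s - τ * Complex.I)) c c' T =
        bd (dslope Y p) c c' T + Y p * bd (fun s => 1 / (s - τ * Complex.I)) c c' T := by
      unfold bd
      have hh : ∀ e : ℝ, e ≠ τ → -T ≤ e → e ≤ T →
          (∫ x in c..c', (fun s => Y s / (s - τ * Complex.I)) (x + e * Complex.I)) =
          (∫ x in c..c', dslope Y p (x + e * Complex.I)) +
            Y p * ∫ x in c..c', (fun s : ℂ => 1 / (s - τ * Complex.I)) (x + e * Complex.I) := by
        intro e he1 he2 he3
        have hne : ∀ x : ℝ, (x : ℂ) + e * Complex.I ≠ p := by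
          intro x h
          have := congrArg Complex.im h
          rw [hpim] at this
          simp at this
          exact he1 this
        rw [← intervalIntegral.integral_const_mul, ← intervalIntegral.integral_add]
        · congr 1
          ext x
          exact hdec _ (hne x)
        · apply ContinuousOn.intervalIntegrable
          rw [Set.uIcc_of_le hcc]
          apply hGc.comp (by fun_prop)
          intro x hx
          rw [hS, Complex.mem_reProdIm]
          simp only [Complex.add_re, Complex.ofReal_re, Complex.mul_re, Complex.I_re,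
            Complex.ofReal_im, Complex.I_im, Complex.add_im, Complex.mul_im]
          constructor
          · simpa using hx
          · constructor <;> linarith
        · apply Continuous.intervalIntegrable
          refine continuous_const.mul (continuous_const.div (by fun_prop) fun x => ?_)
          exact sub_ne_zero.2 (hne x)
      have hv : ∀ e : ℝ, e ≠ 0 → c ≤ e → e ≤ c' →
          (∫ y in (-T)..T, (fun s => Y s / (s - τ * Complex.I)) (e + y * Complex.I)) =
          (∫ y in (-T)..T, dslope Y p (e + y * Complex.I)) +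
            Y p * ∫ y in (-T)..T, (fun s : ℂ => 1 / (s - τ * Complex.I)) (e + y * Complex.I) := by
        intro e he1 he2 he3
        have hne : ∀ x : ℝ, (e : ℂ) + x * Complex.I ≠ p := by
          intro x h
          have := congrArg Complex.re h
          rw [hpre] at this
          simp at this
          exact he1 this
        rw [← intervalIntegral.integral_const_mul, ← intervalIntegral.integral_add]
        · congr 1
          ext x
          exact hdec _ (hne x)
        · apply ContinuousOn.intervalIntegrable
          rw [Set.uIcc_of_le (by linarith : -T ≤ T)]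
          apply hGc.comp (by fun_prop)
          intro x hx
          rw [hS, Complex.mem_reProdIm]
          simp only [Complex.add_re, Complex.ofReal_re, Complex.mul_re, Complex.I_re,
            Complex.ofReal_im, Complex.I_im, Complex.add_im, Complex.mul_im]
          constructor
          · constructor <;> linarith
          · simpa using hx
        · apply Continuous.intervalIntegrable
          refine continuous_const.mul (continuous_const.div (by fun_prop) fun x => ?_)
          exact sub_ne_zero.2 (hne x)
      rw [hh (-T) (by linarith) le_rfl (by linarith), hh T (by linarith) (by linarith) le_rfl,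
        hv c' (by linarith) hcc le_rfl, hv c (by linarith) le_rfl hcc]
      ring
    rw [hG0, hP, zero_add] at hsplit
    have h1 := horiz hτ hM (c := c) (c' := c') hc1 (by linarith) (by linarith) hcb'
    unfold bd at hsplit
    set A := (∫ x in c..c', (fun s => Y s / (s - τ * Complex.I)) (x + (-T : ℝ) * Complex.I))
    set B := (∫ x in c..c', (fun s => Y s / (s - τ * Complex.I)) (x + T * Complex.I))
    set U := ∫ y in (-T)..T, (fun s => Y s / (s - τ * Complex.I)) (c' + y * Complex.I)
    set V := ∫ y in (-T)..T, (fun s => Y s / (s - τ * Complex.I)) (c + y * Complex.I)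
    have h2 : U - V - 2 * Real.pi * Y p = Complex.I * (A - B) := by
      linear_combination (-Complex.I) * hsplit +
        (U - V - 2 * Real.pi * Y p) * Complex.I_mul_I
    rw [h2, norm_mul, Complex.norm_I, one_mul]
    exact h1

end Pool.Agent.TH41.BL.RECf
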