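import Mathlib
import Pool.Agent.TH41.BL.Stm3
import Pool.Agent.TH41.BL.REC

/-!
Project BL3, job 3403: shift of the line.
-/

set_option autoImplicit false

open MeasureTheory Filter Topology

namespace Pool.Agent.TH41.BL.SH3f

open Pool.Agent.TH41.BL

/-- exact shift of a vertical segment across a simple pole, with equal horizontal sides -/
theorem pole {Y : ℂ → ℂ} {c c' T τ : ℝ} (hτ : |τ| < T) (hc : c < 0) (hc' : 0 < c')
    (hY : ∀ s : ℂ, c ≤ s.re → s.re ≤ c' → |s.im| ≤ T → DifferentiableAt ℂ Y s)
    (hper : ∀ x : ℝ, c ≤ x → x ≤ c' →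
      (fun s => Y s / (s - τ * Complex.I)) (x + (-T : ℝ) * Complex.I) =
      (fun s => Y s / (s - τ * Complex.I)) (x + T * Complex.I)) :
    (∫ y in (-T)..T, (fun s => Y s / (s - τ * Complex.I)) (c' + y * Complex.I)) -
      (∫ y in (-T)..T, (fun s => Y s / (s - τ * Complex.I)) (c + y * Complex.I)) =
      2 * Real.pi * Y (τ * Complex.I) := by
  have hT : 0 < T := (abs_nonneg τ).trans_lt hτ
  obtain ⟨ht1, ht2⟩ := abs_lt.1 hτ
  set p : ℂ := τ * Complex.I with hp
  have hpre : p.re = 0 := by simp [hp]
  have hpim : p.im = τ := by simp [hp]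
  have hcc : c ≤ c' := by linarith
  set S : Set ℂ := Set.Icc c c' ×ℂ Set.Icc (-T) T with hS
  have hSn : S ∈ 𝓝 p := by
    rw [hS, Complex.reProdIm]
    apply Filter.inter_mem
    · apply Complex.continuous_re.continuousAt.preimage_mem_nhds
      rw [hpre]
      exact Icc_mem_nhds hc hc'
    · apply Complex.continuous_im.continuousAt.preimage_mem_nhds
      rw [hpim]
      exact Icc_mem_nhds ht1 ht2
  have hYS : ∀ s ∈ S, DifferentiableAt ℂ Y s := by
    intro s hs
    rw [hS, Complex.mem_reProdIm] at hs
    exact hY s hs.1.1 hs.1.2 (abs_le.2 hs.2)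
  have hG : DifferentiableOn ℂ (dslope Y p) S :=
    (Complex.differentiableOn_dslope hSn).2 fun s hs => (hYS s hs).differentiableWithinAt
  have hG0 : RECf.bd (dslope Y p) c c' T = 0 := by
    have h := Complex.integral_boundary_rect_eq_zero_of_differentiableOn (dslope Y p)
      (⟨c, -T⟩ : ℂ) (⟨c', T⟩ : ℂ) (by
        simp only
        rw [Set.uIcc_of_le hcc, Set.uIcc_of_le (by linarith : -T ≤ T)]
        exact hG)
    simp only [smul_eq_mul] at h
    exact h
  have hP := RECf.bd_pole (c := c) (c' := c') (T := T) (τ := τ) hc hc' hτ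
  have hdec : ∀ s : ℂ, s ≠ p → Y s / (s - p) =
      dslope Y p s + Y p * (1 / (s - p)) := by
    intro s hs
    have h1 : s - p ≠ 0 := sub_ne_zero.2 hs
    rw [dslope_of_ne _ hs, slope_def_field]
    field_simp
    ring
  have hGc : ContinuousOn (dslope Y p) S := hG.continuousOn
  have hsplit : RECf.bd (fun s => Y s / (s - p)) c c' T =
      RECf.bd (dslope Y p) c c' T + Y p * RECf.bd (fun s => 1 / (s - p)) c c' T := by
    unfold RECf.bd
    have hh : ∀ e : ℝ, e ≠ τ → -T ≤ e → e ≤ T →
        (∫ x in c..c', (fun s => Y s / (s - p)) (x + e * Complex.I)) =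
        (∫ x in c..c', dslope Y p (x + e * Complex.I)) +
          Y p * ∫ x in c..c', (fun s : ℂ => 1 / (s - p)) (x + e * Complex.I) := by
      intro e he1 he2 he3
      have hne : ∀ x : ℝ, (x : ℂ) + e * Complex.I ≠ p := by
        intro x h
        have := congrArg Complex.im h
        rw [hpim] at this
        simp at this
        exact he1 this
      rw [← intervalIntegral.integral_const_mul, ← intervalIntegral.integral_add]
      · congr 1
        ext x
        exact hdec _ (hne x)
      · apply ContinuousOn.intervalIntegrable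
        rw [Set.uIcc_of_le hcc]
        apply hGc.comp (by fun_prop)
        intro x hx
        rw [hS, Complex.mem_reProdIm]
        simp only [Complex.add_re, Complex.ofReal_re, Complex.mul_re, Complex.I_re,
          Complex.ofReal_im, Complex.I_im, Complex.add_im, Complex.mul_im]
        constructor
        · simpa using hx
        · constructor <;> linarith
      · apply Continuous.intervalIntegrable
        refine continuous_const.mul (continuous_const.div (by fun_prop) fun x => ?_)
        exact sub_ne_zero.2 (hne x)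
    have hv : ∀ e : ℝ, e ≠ 0 → c ≤ e → e ≤ c' →
        (∫ y in (-T)..T, (fun s => Y s / (s - p)) (e + y * Complex.I)) =
        (∫ y in (-T)..T, dslope Y p (e + y * Complex.I)) +
          Y p * ∫ y in (-T)..T, (fun s : ℂ => 1 / (s - p)) (e + y * Complex.I) := by
      intro e he1 he2 he3
      have hne : ∀ x : ℝ, (e : ℂ) + x * Complex.I ≠ p := by
        intro x h
        have := congrArg Complex.re h
        rw [hpre] at this
        simp at this
        exact he1 this
      rw [← intervalIntegral.integral_const_mul, ← intervalIntegral.integral_add]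
      · congr 1
        ext x
        exact hdec _ (hne x)
      · apply ContinuousOn.intervalIntegrable
        rw [Set.uIcc_of_le (by linarith : -T ≤ T)]
        apply hGc.comp (by fun_prop)
        intro x hx
        rw [hS, Complex.mem_reProdIm]
        simp only [Complex.add_re, Complex.ofReal_re, Complex.mul_re, Complex.I_re,
          Complex.ofReal_im, Complex.I_im, Complex.add_im, Complex.mul_im]
        constructor
        · constructor <;> linarith
        · simpa using hx
      · apply Continuous.intervalIntegrable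
        refine continuous_const.mul (continuous_const.div (by fun_prop) fun x => ?_)
        exact sub_ne_zero.2 (hne x)
    rw [hh (-T) (by linarith) le_rfl (by linarith), hh T (by linarith) (by linarith) le_rfl,
      hv c' (by linarith) hcc le_rfl, hv c (by linarith) le_rfl hcc]
    ring
  rw [hG0, hP, zero_add] at hsplit
  have hAB : (∫ x in c..c', (fun s => Y s / (s - p)) (x + (-T : ℝ) * Complex.I)) =
      ∫ x in c..c', (fun s => Y s / (s - p)) (x + T * Complex.I) := by
    apply intervalIntegral.integral_congr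
    intro x hx
    rw [Set.uIcc_of_le hcc] at hx
    exact hper x hx.1 hx.2
  unfold RECf.bd at hsplit
  rw [hAB] at hsplit
  set U := ∫ y in (-T)..T, (fun s => Y s / (s - p)) (c' + y * Complex.I)
  set V := ∫ y in (-T)..T, (fun s => Y s / (s - p)) (c + y * Complex.I)
  linear_combination (-Complex.I) * hsplit + (U - V - 2 * Real.pi * Y p) * Complex.I_mul_I

/-- no pole -/
theorem nopole {f : ℂ → ℂ} {c c' T : ℝ} (hT : 0 < T)
    (hf : ∀ s : ℂ, s.re ∈ Set.uIcc c c' → |s.im| ≤ T → DifferentiableAt ℂ f s)
    (hper : ∀ x : ℝ, x ∈ Set.uIcc c c' →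
      f (x + (-T : ℝ) * Complex.I) = f (x + T * Complex.I)) :
    (∫ y in (-T)..T, f (c' + y * Complex.I)) = ∫ y in (-T)..T, f (c + y * Complex.I) := by
  have h0 := RECf.bd_zero hT hf
  unfold RECf.bd at h0
  have hAB : (∫ x in c..c', f (x + (-T : ℝ) * Complex.I)) =
      ∫ x in c..c', f (x + T * Complex.I) := by
    apply intervalIntegral.integral_congr
    intro x hx
    exact hper x hx
  rw [hAB] at h0
  set U := ∫ y in (-T)..T, f (c' + y * Complex.I)
  set V := ∫ y in (-T)..T, f (c + y * Complex.I)
  have h1 : Complex.I * (U - V) = 0 := by linear_combination h0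
  have h2 : U - V = 0 := by
    rcases mul_eq_zero.1 h1 with h | h
    · exact absurd h Complex.I_ne_zero
    · exact h
  exact sub_eq_zero.1 h2

/-- the entire function `(exp s - 1) / s` -/
noncomputable def E0 (s : ℂ) : ℂ := dslope Complex.exp 0 s

theorem E0_diff (s : ℂ) : DifferentiableAt ℂ E0 s := by
  have h : DifferentiableOn ℂ (dslope Complex.exp 0) Set.univ :=
    (Complex.differentiableOn_dslope Filter.univ_mem).2 Complex.differentiable_exp.differentiableOn
  exact (h s (Set.mem_univ s)).differentiableAt Filter.univ_mem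

theorem E0_zero : E0 0 = 1 := by
  unfold E0
  rw [dslope_same, Complex.deriv_exp, Complex.exp_zero]

theorem E0_mul (s : ℂ) : s * E0 s = Complex.exp s - 1 := by
  unfold E0
  rcases eq_or_ne s 0 with h | h
  · rw [h]; simp
  · rw [dslope_of_ne _ h, slope_def_field, Complex.exp_zero, sub_zero]
    field_simp

theorem E0_ne (s : ℂ) (h : |s.im| ≤ Real.pi) : E0 s ≠ 0 := by
  intro h0
  rcases eq_or_ne s 0 with h1 | h1
  · rw [h1, E0_zero] at h0
    exact one_ne_zero h0
  · have h2 := E0_mul s
    rw [h0, mul_zero] at h2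
    have h3 : Complex.exp s = 1 := by linear_combination -h2
    obtain ⟨k, hk⟩ := Complex.exp_eq_one_iff.1 h3
    have h4 : s.im = k * (2 * Real.pi) := by
      rw [hk]
      simp
    rw [h4, abs_mul, abs_of_pos Real.two_pi_pos] at h
    have h5 : |(k : ℝ)| < 1 := by
      by_contra hcon
      push Not at hcon
      have := mul_le_mul_of_nonneg_right hcon Real.two_pi_pos.le
      linarith [Real.pi_pos]
    have h6 : |k| < 1 := by exact_mod_cast h5
    have h7 : k = 0 := Int.abs_lt_one_iff.1 h6
    apply h1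
    rw [hk, h7]
    simp

/-- the integrand -/
noncomputable def FF (m : ℝ) (n w : ℕ) (ε θ : ℝ) (s : ℂ) : ℂ :=
  Complex.exp (n * Ph m s) * (Complex.exp (-(w * s)) *
    (gN n ε (s - θ * Complex.I) / (Complex.exp (s - θ * Complex.I) - 1)))

theorem vN_eq (m : ℝ) (n w : ℕ) (ε c θ : ℝ) :
    vN m n w ε c θ = (∫ φ in (-Real.pi)..Real.pi, FF m n w ε θ (c + φ * Complex.I)) /
      (2 * Real.pi) := by
  unfold vN FF
  congr 2
  ext φ
  have e : ((c : ℂ) + φ * Complex.I - θ * Complex.I) = c + (φ - θ) * Complex.I := by ring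
  rw [e]

theorem sinh_lt {m κ x : ℝ} (hm : 0 < m) (h0 : m * Real.sinh κ ^ 2 < 1) (hx : |x| ≤ κ) :
    m * Real.sinh x ^ 2 < 1 := by
  refine lt_of_le_of_lt ?_ h0
  apply mul_le_mul_of_nonneg_left _ hm.le
  rw [← sq_abs (Real.sinh x), Real.abs_sinh]
  apply pow_le_pow_left₀
  · exact Real.sinh_nonneg_iff.2 (abs_nonneg x)
  · exact Real.sinh_le_sinh.2 hx

theorem Ph_per (hp : S3_ph) {m κ : ℝ} (hm : 0 < m) (h0 : m * Real.sinh κ ^ 2 < 1) (s : ℂ)
    (hs : |s.re| ≤ κ) :
    Ph m (s + 2 * Real.pi * Complex.I) = Ph m s + 2 * Real.pi * Nbar m * Complex.I := by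
  have h := (hp m hm).2.2.2
  have h1 := h s (sinh_lt hm h0 hs)
  have h2 := h (s + Real.pi * Complex.I) (by
    have : (s + Real.pi * Complex.I).re = s.re := by simp
    rw [this]
    exact sinh_lt hm h0 hs)
  have e : s + 2 * Real.pi * Complex.I = s + Real.pi * Complex.I + Real.pi * Complex.I := by ring
  rw [e, h2, h1]
  ring

theorem FF_per (hp : S3_ph) {m κ : ℝ} {n w : ℕ} {ε θ : ℝ} (hm : 0 < m)
    (h0 : m * Real.sinh κ ^ 2 < 1) (hQ : Qz m n) (s : ℂ) (hs : |s.re| ≤ κ) :
    FF m n w ε θ (s + 2 * Real.pi * Complex.I) = FF m n w ε θ s := by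
  obtain ⟨k, hk⟩ := hQ
  unfold FF gN
  have e1 : Complex.exp (n * Ph m (s + 2 * Real.pi * Complex.I)) = Complex.exp (n * Ph m s) := by
    rw [Ph_per hp hm h0 s hs]
    have hk' : ((n : ℂ) * Nbar m) = 2 * k := by exact_mod_cast congrArg (fun x : ℝ => (x : ℂ)) hk
    have e : (n : ℂ) * (Ph m s + 2 * Real.pi * Nbar m * Complex.I) =
        n * Ph m s + ((2 * k : ℤ) : ℂ) * (2 * Real.pi * Complex.I) := by
      push_cast
      linear_combination (2 * Real.pi * Complex.I) * hk'
    rw [e, Complex.exp_add, Complex.exp_int_mul_two_pi_mul_I, mul_one]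
  have e2 : Complex.exp (-(w * (s + 2 * Real.pi * Complex.I))) = Complex.exp (-(w * s)) := by
    have e : -((w : ℂ) * (s + 2 * Real.pi * Complex.I)) =
        -(w * s) + ((-w : ℤ) : ℂ) * (2 * Real.pi * Complex.I) := by
      push_cast
      ring
    rw [e, Complex.exp_add, Complex.exp_int_mul_two_pi_mul_I, mul_one]
  have e3 : s + 2 * Real.pi * Complex.I - θ * Complex.I =
      (s - θ * Complex.I) + 2 * Real.pi * Complex.I := by ring
  have e4 : Complex.exp (s - θ * Complex.I + 2 * Real.pi * Complex.I) =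
      Complex.exp (s - θ * Complex.I) := by
    rw [Complex.exp_add, Complex.exp_two_pi_mul_I, mul_one]
  have e5 : Complex.exp (-(s - θ * Complex.I + 2 * Real.pi * Complex.I)) =
      Complex.exp (-(s - θ * Complex.I)) := by
    rw [Complex.exp_neg, e4, ← Complex.exp_neg]
  rw [e1, e2, e3, e4, e5]

/-- centred at the pole -/
theorem int_shift (hp : S3_ph) {m κ c : ℝ} {n w : ℕ} {ε θ : ℝ} (hm : 0 < m)
    (h0 : m * Real.sinh κ ^ 2 < 1) (hQ : Qz m n) (hc : |c| ≤ κ) :
    (∫ φ in (-Real.pi)..Real.pi, FF m n w ε θ (c + φ * Complex.I)) =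
      ∫ y in (-Real.pi)..Real.pi, FF m n w ε θ (c + y * Complex.I + θ * Complex.I) := by
  have hP : Function.Periodic (fun φ : ℝ => FF m n w ε θ (c + φ * Complex.I)) (2 * Real.pi) := by
    intro φ
    have e : (c : ℂ) + ((φ + 2 * Real.pi : ℝ) : ℂ) * Complex.I =
        (c + φ * Complex.I) + 2 * Real.pi * Complex.I := by
      push_cast
      ring
    simp only
    rw [e]
    apply FF_per hp hm h0 hQ
    simpa using hc
  have h1 := hP.intervalIntegral_add_eq (-Real.pi) (-Real.pi + θ)
  have h2 := intervalIntegral.integral_comp_add_right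
    (fun φ : ℝ => FF m n w ε θ (c + φ * Complex.I)) (a := -Real.pi) (b := Real.pi) θ
  have e1 : -Real.pi + 2 * Real.pi = Real.pi := by ring
  have e2 : -Real.pi + θ + 2 * Real.pi = Real.pi + θ := by ring
  rw [e1, e2] at h1
  rw [h1, ← h2]
  apply intervalIntegral.integral_congr
  intro y _
  simp only
  congr 1
  push_cast
  ring

/-- the numerator -/
noncomputable def YY (m : ℝ) (n w : ℕ) (ε θ : ℝ) (s : ℂ) : ℂ :=
  Complex.exp (n * Ph m (s + θ * Complex.I)) * (Complex.exp (-(w * (s + θ * Complex.I))) *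
    (gN n ε s / E0 s))

theorem FF_YY (m : ℝ) (n w : ℕ) (ε θ : ℝ) (s : ℂ) (_hs : s ≠ 0) :
    FF m n w ε θ (s + θ * Complex.I) = YY m n w ε θ s / (s - (0 : ℝ) * Complex.I) := by
  unfold FF YY
  have e : s + θ * Complex.I - θ * Complex.I = s := by ring
  have e2 : s - (0 : ℝ) * Complex.I = s := by simp
  rw [e, e2, ← E0_mul s]
  rw [mul_comm s (E0 s), ← div_div, ← mul_div_assoc, ← mul_div_assoc]

theorem YY_diff (m C κ : ℝ) (n w : ℕ) (ε θ : ℝ) (hPB : PB m C κ) (s : ℂ) (hs : |s.re| ≤ κ)
    (hi : |s.im| ≤ Real.pi) : DifferentiableAt ℂ (YY m n w ε θ) s := by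
  have h1 : DifferentiableAt ℂ (fun s : ℂ => Ph m (s + θ * Complex.I)) s := by
    have h := (hPB.p1 (s + θ * Complex.I) (by simpa using hs)).differentiableAt
    exact DifferentiableAt.comp (g := Ph m) (f := fun s : ℂ => s + θ * Complex.I) s h
      (by fun_prop)
  have h2 := E0_diff s
  have h3 := E0_ne s hi
  unfold YY gN
  fun_prop (disch := assumption)

theorem sh3 (hp : S3_ph) : S3_sh := by
  intro m C κ n w ε θ hm hκ hPB hQ
  have h0 := hPB.p0
  have hπ := Real.pi_pos
  constructor
  · intro c c' hc hcκ hc' hcκ'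
    rw [vN_eq, vN_eq, int_shift hp hm h0 hQ (by rw [abs_of_pos hc]; exact hcκ),
      int_shift hp hm h0 hQ (by rw [abs_of_pos hc']; exact hcκ')]
    congr 1
    have hmem : ∀ x : ℝ, x ∈ Set.uIcc c' c → 0 < x ∧ x ≤ κ := by
      intro x hx
      rw [Set.mem_uIcc] at hx
      rcases hx with h | h
      · exact ⟨by linarith [h.1], by linarith [h.2]⟩
      · exact ⟨by linarith [h.1], by linarith [h.2]⟩
    have hne : ∀ s : ℂ, 0 < s.re → s ≠ 0 := by
      intro s hs h
      rw [h] at hs
      simp at hs
    refine nopole (f := fun s => FF m n w ε θ (s + θ * Complex.I)) (c := c') (c' := c) hπ ?_ ?_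
    · intro s hs hsi
      obtain ⟨hs1, hs2⟩ := hmem _ hs
      have h1 := YY_diff m C κ n w ε θ hPB s (by rw [abs_of_pos hs1]; exact hs2) hsi
      have h2 : DifferentiableAt ℂ
          (fun s => YY m n w ε θ s / (s - (0 : ℝ) * Complex.I)) s := by
        refine h1.div (by fun_prop) ?_
        simpa using hne s hs1
      refine h2.congr_of_eventuallyEq ?_
      have h3 : ∀ᶠ z : ℂ in 𝓝 s, z ≠ 0 := isOpen_ne.mem_nhds (hne s hs1)
      filter_upwards [h3] with z hz
      exact FF_YY m n w ε θ z hz
    · intro x hx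
      obtain ⟨hx1, hx2⟩ := hmem _ hx
      have h1 := FF_per (w := w) (ε := ε) (θ := θ) hp hm h0 hQ
        ((x : ℂ) + (-Real.pi : ℝ) * Complex.I + θ * Complex.I) (by
          simpa [abs_of_pos hx1] using hx2)
      have e : (x : ℂ) + (-Real.pi : ℝ) * Complex.I + θ * Complex.I + 2 * Real.pi * Complex.I =
          x + Real.pi * Complex.I + θ * Complex.I := by
        push_cast
        ring
      rw [e] at h1
      exact h1.symm
  · intro c c' hcκ hc hc' hcκ'
    rw [vN_eq, vN_eq,
      int_shift hp hm h0 hQ (by rw [abs_of_neg hc]; linarith : |c| ≤ κ),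
      int_shift hp hm h0 hQ (by rw [abs_of_pos hc']; exact hcκ' : |c'| ≤ κ)]
    have hab : ∀ x : ℝ, c ≤ x → x ≤ c' → |x| ≤ κ := by
      intro x h1 h2
      rw [abs_le]
      constructor <;> linarith
    have hk := pole (Y := YY m n w ε θ) (c := c) (c' := c') (T := Real.pi) (τ := 0)
      (by simpa using hπ) hc hc'
      (fun s h1 h2 h3 => YY_diff m C κ n w ε θ hPB s (hab _ h1 h2) h3) (by
        intro x h1 h2
        have hne : ∀ e : ℝ, e ≠ 0 → (x : ℂ) + e * Complex.I ≠ 0 := by
          intro e he h
          have := congrArg Complex.im h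
          simp at this
          exact he this
        simp only
        rw [← FF_YY m n w ε θ _ (hne (-Real.pi) (by linarith)),
          ← FF_YY m n w ε θ _ (hne Real.pi (by linarith))]
        have h3 := FF_per (w := w) (ε := ε) (θ := θ) hp hm h0 hQ
          ((x : ℂ) + (-Real.pi : ℝ) * Complex.I + θ * Complex.I) (by
            simpa using hab x h1 h2)
        have e : (x : ℂ) + (-Real.pi : ℝ) * Complex.I + θ * Complex.I +
            2 * Real.pi * Complex.I = x + Real.pi * Complex.I + θ * Complex.I := by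
          push_cast
          ring
        rw [e] at h3
        exact h3.symm)
    have hv : ∀ e : ℝ, e ≠ 0 →
        (∫ y in (-Real.pi)..Real.pi, FF m n w ε θ (e + y * Complex.I + θ * Complex.I)) =
        ∫ y in (-Real.pi)..Real.pi,
          (fun s => YY m n w ε θ s / (s - (0 : ℝ) * Complex.I)) (e + y * Complex.I) := by
      intro e he
      apply intervalIntegral.integral_congr
      intro y _
      have hne : (e : ℂ) + y * Complex.I ≠ 0 := by
        intro h
        have := congrArg Complex.re h
        simp at this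
        exact he this
      exact FF_YY m n w ε θ _ hne
    rw [hv c (by linarith), hv c' (by linarith), ← sub_div, hk]
    have h2π : (2 * Real.pi : ℂ) ≠ 0 := by
      have : (Real.pi : ℂ) ≠ 0 := by exact_mod_cast hπ.ne'
      simp
    rw [mul_div_cancel_left₀ _ h2π]
    unfold YY gN
    have e1 : ((0 : ℝ) : ℂ) * Complex.I = 0 := by simp
    rw [e1, E0_zero]
    simp only [zero_add, neg_zero, Complex.exp_zero, sub_self, mul_zero, div_one, mul_one]
    rw [← Complex.exp_add]
    congr 1

end Pool.Agent.TH41.BL.SH3f
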