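import Mathlib
import Pool.Agent.TH41.BL.Stm3
import Pool.Agent.TH41.BL.TRM
import Pool.Agent.TH41.BL.REC

set_option autoImplicit false

open MeasureTheory Filter Topology

namespace Pool.Agent.TH41.BL.TR3f

open Pool.Agent.TH41.BL

open Pool.Agent.TH41.LP.VVf

open Pool.Agent.TH41.BL.TRMf (SW pos_seg seg_bound re_div_two_pi)

/-! ### The factor `s / (exp s - 1)` -/

/-- `s / (exp s - 1)` with the singularity removed -/
noncomputable def Hf (s : ℂ) : ℂ := (dslope Complex.exp 0 s)⁻¹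

theorem D_bound {s : ℂ} (hs : ‖s‖ ≤ 1) : ‖dslope Complex.exp 0 s - 1‖ ≤ ‖s‖ := by
  by_cases h0 : s = 0
  · subst h0
    simp [dslope_same]
  · rw [dslope_of_ne _ h0, slope_def_field, Complex.exp_zero, sub_zero]
    have e : (Complex.exp s - 1) / s - 1 = (Complex.exp s - 1 - s) / s := by
      field_simp
    rw [e, norm_div]
    have h1 := Complex.norm_exp_sub_one_sub_id_le hs
    have h2 : 0 < ‖s‖ := norm_pos_iff.2 h0
    rw [div_le_iff₀ h2]
    nlinarith

theorem D_ne {s : ℂ} (hs : ‖s‖ < 1) : dslope Complex.exp 0 s ≠ 0 := by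
  intro h
  have h1 := D_bound hs.le
  rw [h, zero_sub, norm_neg, norm_one] at h1
  linarith

theorem D_diff : Differentiable ℂ (dslope Complex.exp 0) := by
  have h := (Complex.differentiableOn_dslope (f := Complex.exp) (c := 0) (s := Set.univ)
    Filter.univ_mem).2 Complex.differentiable_exp.differentiableOn
  exact differentiableOn_univ.1 h

theorem Hf_diff {s : ℂ} (hs : ‖s‖ < 1) : DifferentiableAt ℂ Hf s :=
  (D_diff s).inv (D_ne hs)

theorem Hf_zero : Hf 0 = 1 := by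
  simp [Hf, dslope_same]

theorem Hf_of_ne {s : ℂ} (h0 : s ≠ 0) : Hf s = s / (Complex.exp s - 1) := by
  unfold Hf
  rw [dslope_of_ne _ h0, slope_def_field, Complex.exp_zero, sub_zero, inv_div]

theorem D_norm {s : ℂ} (hs : ‖s‖ ≤ 1 / 500) :
    499 / 500 ≤ ‖dslope Complex.exp 0 s‖ ∧ ‖dslope Complex.exp 0 s‖ ≤ 501 / 500 := by
  have h1 := D_bound (s := s) (by linarith)
  have h2 : ‖dslope Complex.exp 0 s‖ ≤ ‖dslope Complex.exp 0 s - 1‖ + ‖(1 : ℂ)‖ := by
    have := norm_add_le (dslope Complex.exp 0 s - 1) 1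
    simpa using this
  have h3 : ‖(1 : ℂ)‖ - ‖dslope Complex.exp 0 s‖ ≤ ‖dslope Complex.exp 0 s - 1‖ := by
    rw [← norm_neg (dslope Complex.exp 0 s - 1), neg_sub]
    exact norm_sub_norm_le _ _
  rw [norm_one] at h2 h3
  constructor <;> linarith

theorem Hf_norm {s : ℂ} (hs : ‖s‖ ≤ 1 / 500) : 997 / 1000 ≤ ‖Hf s‖ ∧ ‖Hf s‖ ≤ 1003 / 1000 := by
  obtain ⟨h1, h2⟩ := D_norm hs
  unfold Hf
  rw [norm_inv]
  have h3 : 0 < ‖dslope Complex.exp 0 s‖ := by linarith
  constructor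
  · rw [le_inv_comm₀ (by norm_num) h3]
    refine h2.trans (by norm_num)
  · rw [inv_le_comm₀ h3 (by norm_num)]
    refine le_trans (by norm_num) h1

theorem Hf_real {x : ℝ} (hx : 0 < x) : ‖Hf x‖ ≤ 1 := by
  have h0 : (x : ℂ) ≠ 0 := by exact_mod_cast hx.ne'
  rw [Hf_of_ne h0]
  have h1 := Real.add_one_le_exp x
  have e : (x : ℂ) / (Complex.exp x - 1) = ((x / (Real.exp x - 1) : ℝ) : ℂ) := by
    push_cast
    rfl
  have h2 : 0 < Real.exp x - 1 := by linarith
  rw [e, Complex.norm_real, Real.norm_of_nonneg (by positivity), div_le_one h2]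
  linarith

theorem arg_bound {z : ℂ} (hz : ‖z - 1‖ ≤ 1 / 5000) : |z.arg| ≤ 4 / 10000 := by
  have hre : 1 - 1 / 5000 ≤ z.re := by
    have h1 := (abs_le.1 ((Complex.abs_re_le_norm (z - 1)).trans hz)).1
    rw [Complex.sub_re, Complex.one_re] at h1
    linarith
  have him : |z.im| ≤ 1 / 5000 := by
    have h1 := (Complex.abs_im_le_norm (z - 1)).trans hz
    rwa [Complex.sub_im, Complex.one_im, sub_zero] at h1
  have hn : 1 - 1 / 5000 ≤ ‖z‖ := hre.trans (Complex.re_le_norm z)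
  have hn0 : 0 < ‖z‖ := by linarith
  have ha : |z.arg| ≤ Real.pi / 2 := Complex.abs_arg_le_pi_div_two_iff.2 (by linarith)
  have h1 := Real.mul_abs_le_abs_sin ha
  rw [Complex.sin_arg, abs_div, abs_of_pos hn0] at h1
  have h2 : |z.im| / ‖z‖ ≤ 1 / 4999 := by
    rw [div_le_iff₀ hn0]
    linarith
  have h3 : 2 / Real.pi * |z.arg| ≤ 1 / 4999 := h1.trans h2
  have hpi : Real.pi < 3.15 := Real.pi_lt_d2
  have hpi0 := Real.pi_pos
  rw [div_mul_eq_mul_div, div_le_iff₀ hpi0] at h3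
  linarith

theorem Hf_arg {s : ℂ} (hs : ‖s‖ ≤ 1 / 5000) : |(Hf s).arg| ≤ 4 / 10000 := by
  have h1 := D_bound (s := s) (by linarith)
  have h2 := arg_bound (h1.trans hs)
  have h3 : (dslope Complex.exp 0 s).arg ≠ Real.pi := by
    intro h
    rw [h, abs_of_pos Real.pi_pos] at h2
    have := Real.pi_gt_three
    linarith
  unfold Hf
  rw [Complex.arg_inv, if_neg h3, abs_neg]
  exact h2

/-! ### The integrand -/

/-- the integrand without the pole -/
noncomputable def Y3 (m : ℝ) (n : ℕ) (ε : ℝ) (s : ℂ) : ℂ :=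
  Complex.exp (n * Ph m s) * gN n ε s * Hf s

theorem exp_line (σ t : ℝ) : Complex.exp (-(σ + t * Complex.I)) =
    ((Real.exp (-σ) * Real.cos t : ℝ) : ℂ) - ((Real.exp (-σ) * Real.sin t : ℝ) : ℂ) *
      Complex.I := by
  have e : -((σ : ℂ) + t * Complex.I) = ((-σ : ℝ) : ℂ) + ((-t : ℝ) : ℂ) * Complex.I := by
    push_cast
    ring
  rw [e, Complex.exp_add, Complex.exp_mul_I, ← Complex.ofReal_exp, ← Complex.ofReal_cos,
    ← Complex.ofReal_sin, Real.cos_neg, Real.sin_neg]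
  push_cast
  ring

theorem gN_eq (n : ℕ) (ε σ t : ℝ) : gN n ε (σ + t * Complex.I) =
    ((Real.exp (n * ε * (Real.exp (-σ) * Real.cos t - 1)) : ℝ) : ℂ) *
      Complex.exp (((-(n * ε * (Real.exp (-σ) * Real.sin t)) : ℝ) : ℂ) * Complex.I) := by
  unfold gN
  rw [exp_line, Complex.ofReal_exp, ← Complex.exp_add]
  congr 1
  push_cast
  ring

theorem gN_norm (n : ℕ) (ε σ t : ℝ) : ‖gN n ε (σ + t * Complex.I)‖ =
    Real.exp (n * ε * (Real.exp (-σ) * Real.cos t - 1)) := by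
  rw [gN_eq, norm_mul, Complex.norm_exp_ofReal_mul_I, mul_one, Complex.norm_real,
    Real.norm_of_nonneg (Real.exp_pos _).le]

theorem P_eq (m : ℝ) (n : ℕ) (s : ℂ) : Complex.exp (n * Ph m s) =
    ((Real.exp (n * (Ph m s).re) : ℝ) : ℂ) *
      Complex.exp (((n * (Ph m s).im : ℝ) : ℂ) * Complex.I) := by
  rw [Complex.ofReal_exp, ← Complex.exp_add]
  congr 1
  conv_lhs => rw [← Complex.re_add_im (Ph m s)]
  push_cast
  ring

theorem P_norm (m : ℝ) (n : ℕ) (s : ℂ) : ‖Complex.exp (n * Ph m s)‖ =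
    Real.exp (n * (Ph m s).re) := by
  rw [P_eq, norm_mul, Complex.norm_exp_ofReal_mul_I, mul_one, Complex.norm_real,
    Real.norm_of_nonneg (Real.exp_pos _).le]

theorem Y3_norm (m : ℝ) (n : ℕ) (ε σ t : ℝ) : ‖Y3 m n ε (σ + t * Complex.I)‖ =
    Real.exp (n * (Ph m (σ + t * Complex.I)).re + n * ε * (Real.exp (-σ) * Real.cos t - 1)) *
      ‖Hf (σ + t * Complex.I)‖ := by
  unfold Y3
  rw [norm_mul, norm_mul, P_norm, gN_norm, ← Real.exp_add]

theorem Y3_norm0 (m : ℝ) (n : ℕ) (ε σ : ℝ) : ‖Y3 m n ε σ‖ =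
    Real.exp (n * (Ph m σ).re + n * ε * (Real.exp (-σ) - 1)) * ‖Hf σ‖ := by
  have := Y3_norm m n ε σ 0
  simpa using this

theorem s_norm {σ t a b : ℝ} (h1 : |σ| ≤ a) (h2 : |t| ≤ b) :
    ‖((σ : ℂ) + t * Complex.I)‖ ≤ a + b := by
  refine (norm_add_le _ _).trans ?_
  rw [norm_mul, Complex.norm_I, mul_one, Complex.norm_real, Complex.norm_real,
    Real.norm_eq_abs, Real.norm_eq_abs]
  linarith

/-- conditions on the constants -/
structure Cn (m C κ ε : ℝ) : Prop where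
  c1 : 0 < C
  c2 : 0 < κ
  c3 : κ ≤ 1 / 10000
  c4 : C * κ ≤ ε / 1000
  c5 : 0 < ε
  c6 : ε ≤ 1
  pb : PB m C κ

theorem exp_neg_bounds {σ κ : ℝ} (h1 : |σ| ≤ κ) (h2 : κ ≤ 1 / 10000) :
    9999 / 10000 ≤ Real.exp (-σ) ∧ Real.exp (-σ) ≤ 1 + 2 / 10000 := by
  obtain ⟨h3, h4⟩ := abs_le.1 (h1.trans h2)
  constructor
  · have := Real.add_one_le_exp (-σ)
    linarith
  · have h5 := Real.abs_exp_sub_one_sub_id_le (x := -σ) (by rw [abs_neg]; linarith)
    have h6 := (abs_le.1 h5).2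
    nlinarith

theorem cos_low {t : ℝ} (ht : |t| ≤ 1 / 1000) : 4999 / 10000 * t ^ 2 ≤ 1 - Real.cos t := by
  have h1 := Real.cos_bound (x := t) (by linarith)
  have h2 := (abs_le.1 h1).2
  have h3 : |t| ^ 4 ≤ 1 / 1000000 * t ^ 2 := by
    have h4 : |t| ^ 2 ≤ (1 / 1000) ^ 2 := pow_le_pow_left₀ (abs_nonneg _) ht 2
    have h5 : |t| ^ 4 = |t| ^ 2 * |t| ^ 2 := by ring
    rw [h5, sq_abs]
    rw [sq_abs] at h4
    nlinarith [sq_nonneg t]
  nlinarith [sq_nonneg t]

theorem Y3_upper {m C κ ε : ℝ} (hc : Cn m C κ ε) (n : ℕ) {σ : ℝ} (hσ : |σ| ≤ κ)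
    (t : ℝ) (ht : |t| ≤ 1 / 1000) (hn : 0 < n) :
    ‖Y3 m n ε (σ + t * Complex.I)‖ ≤
      101 / 100 * ‖Y3 m n ε σ‖ * Real.exp (-(49 / 100) * t ^ 2 / (1 / (n * ε))) := by
  have hn' : (0 : ℝ) < n := by exact_mod_cast hn
  have hε := hc.c5
  rw [Y3_norm, Y3_norm0]
  have e1 : -(49 / 100) * t ^ 2 / (1 / (n * ε)) = -(49 / 100) * (n * (ε * t ^ 2)) := by
    field_simp
  rw [e1]
  have h4 := (abs_le.1 (hc.pb.p4 σ t hσ)).2
  obtain ⟨h5, h6⟩ := exp_neg_bounds hσ hc.c3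
  have h7 := cos_low ht
  have h8 : C * |σ| * t ^ 2 ≤ ε / 1000 * t ^ 2 := by
    apply mul_le_mul_of_nonneg_right _ (sq_nonneg t)
    exact (mul_le_mul_of_nonneg_left hσ hc.c1.le).trans hc.c4
  have h9 : 9999 / 10000 * (4999 / 10000 * t ^ 2) ≤ Real.exp (-σ) * (1 - Real.cos t) :=
    mul_le_mul h5 h7 (by positivity) (Real.exp_pos _).le
  have hs1 := (Hf_norm (s := (σ : ℂ) + t * Complex.I)
    ((s_norm (hσ.trans hc.c3) ht).trans (by norm_num))).2
  have hs2 := (Hf_norm (s := (σ : ℂ)) (by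
    rw [Complex.norm_real, Real.norm_eq_abs]
    exact (hσ.trans hc.c3).trans (by norm_num))).1
  have h10 : ‖Hf (σ + t * Complex.I)‖ ≤ 101 / 100 * ‖Hf σ‖ := by linarith
  have h11 : Real.exp (n * (Ph m (σ + t * Complex.I)).re +
      n * ε * (Real.exp (-σ) * Real.cos t - 1)) ≤
      Real.exp (n * (Ph m σ).re + n * ε * (Real.exp (-σ) - 1)) *
        Real.exp (-(49 / 100) * (n * (ε * t ^ 2))) := by
    rw [← Real.exp_add, Real.exp_le_exp]
    have h12 : (Ph m (σ + t * Complex.I)).re + ε * (Real.exp (-σ) * Real.cos t - 1) ≤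
        (Ph m σ).re + ε * (Real.exp (-σ) - 1) + -(49 / 100) * (ε * t ^ 2) := by
      have h13 := mul_le_mul_of_nonneg_left h9 hε.le
      have h14 : 0 ≤ ε * t ^ 2 := by positivity
      nlinarith
    have h15 := mul_le_mul_of_nonneg_left h12 hn'.le
    linarith
  calc _ ≤ (Real.exp (n * (Ph m σ).re + n * ε * (Real.exp (-σ) - 1)) *
        Real.exp (-(49 / 100) * (n * (ε * t ^ 2)))) * (101 / 100 * ‖Hf σ‖) :=
        mul_le_mul h11 h10 (norm_nonneg _) (by positivity)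
    _ = _ := by ring

theorem Y3_phase {m C κ ε : ℝ} (hc : Cn m C κ ε) (n : ℕ) {σ : ℝ} (hσ : |σ| ≤ κ)
    (t : ℝ) (ht : |t| ≤ 1 / 10000) (hn : 0 < n) (h1t : n * C * |t| ^ 3 ≤ 3 / 10000)
    (h2t : n * ε * |t| ^ 3 ≤ 5 / 10000) :
    ∃ M θ : ℝ, |θ| ≤ 1 / 1000 ∧
      99 / 100 * Real.exp (-(51 / 100) * t ^ 2 / (1 / (n * ε))) ≤ M ∧
      Y3 m n ε (σ + t * Complex.I) = (‖Y3 m n ε σ‖ : ℂ) * (M : ℂ) *
        Complex.exp (((n * ((Nf m σ).re - ε * Real.exp (-σ)) * t + θ : ℝ) : ℂ) *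
          Complex.I) := by
  have hn' : (0 : ℝ) < n := by exact_mod_cast hn
  have hε := hc.c5
  obtain ⟨h5, h6⟩ := exp_neg_bounds hσ hc.c3
  have hsn : ‖((σ : ℂ) + t * Complex.I)‖ ≤ 1 / 5000 :=
    (s_norm (hσ.trans hc.c3) ht).trans (by norm_num)
  have hY0 : 0 < ‖Y3 m n ε σ‖ := by
    rw [Y3_norm0]
    have hs2 := (Hf_norm (s := (σ : ℂ)) (by
      rw [Complex.norm_real, Real.norm_eq_abs]
      exact (hσ.trans hc.c3).trans (by norm_num))).1
    have : 0 < ‖Hf (σ : ℂ)‖ := by linarith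
    positivity
  refine ⟨‖Y3 m n ε (σ + t * Complex.I)‖ / ‖Y3 m n ε σ‖,
    n * (Ph m (σ + t * Complex.I)).im - n * ε * (Real.exp (-σ) * Real.sin t) +
      (Hf (σ + t * Complex.I)).arg - n * ((Nf m σ).re - ε * Real.exp (-σ)) * t, ?_, ?_, ?_⟩
  · have h7 := hc.pb.p5 σ t hσ
    have h8 := Hf_arg hsn
    have h9 : |t - Real.sin t| ≤ 1 / 5 * |t| ^ 3 := by
      have h10 := Real.sin_bound (x := t) (by linarith)
      have h11 : |t| ^ 5 ≤ 1 * |t| ^ 3 := by
        have e5 : |t| ^ 5 = |t| ^ 2 * |t| ^ 3 := by ring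
        rw [e5]
        apply mul_le_mul_of_nonneg_right _ (by positivity)
        have := pow_le_pow_left₀ (abs_nonneg t) (show |t| ≤ 1 by linarith) 2
        linarith
      have h12 : t - Real.sin t = t ^ 3 / 6 - (Real.sin t - (t - t ^ 3 / 6)) := by ring
      have h14 : |t ^ 3 / 6| = |t| ^ 3 / 6 := by
        rw [abs_div, abs_pow, abs_of_pos (by norm_num : (0 : ℝ) < 6)]
      have h15 := norm_sub_le (t ^ 3 / 6) (Real.sin t - (t - t ^ 3 / 6))
      rw [← h12, Real.norm_eq_abs, Real.norm_eq_abs, Real.norm_eq_abs, h14] at h15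
      have : 0 ≤ |t| ^ 3 := by positivity
      linarith
    have e : n * (Ph m (σ + t * Complex.I)).im - n * ε * (Real.exp (-σ) * Real.sin t) +
        (Hf (σ + t * Complex.I)).arg - n * ((Nf m σ).re - ε * Real.exp (-σ)) * t =
        n * ((Ph m (σ + t * Complex.I)).im - (Nf m σ).re * t) +
        n * ε * (Real.exp (-σ) * (t - Real.sin t)) + (Hf (σ + t * Complex.I)).arg := by ring
    rw [e]
    have h10 : |(n : ℝ) * ((Ph m (σ + t * Complex.I)).im - (Nf m σ).re * t)| ≤ 3 / 10000 := by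
      rw [abs_mul, abs_of_pos hn']
      calc (n : ℝ) * |(Ph m (σ + t * Complex.I)).im - (Nf m σ).re * t| ≤
          n * (C * |t| ^ 3) := mul_le_mul_of_nonneg_left h7 hn'.le
        _ = n * C * |t| ^ 3 := by ring
        _ ≤ _ := h1t
    have h11 : |(n : ℝ) * ε * (Real.exp (-σ) * (t - Real.sin t))| ≤ 2 / 10000 := by
      rw [abs_mul, abs_mul, abs_mul, abs_of_pos hn', abs_of_pos hε,
        abs_of_pos (Real.exp_pos _)]
      have h12 : Real.exp (-σ) * |t - Real.sin t| ≤ (1 + 2 / 10000) * (1 / 5 * |t| ^ 3) :=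
        mul_le_mul h6 h9 (abs_nonneg _) (by norm_num)
      calc (n : ℝ) * ε * (Real.exp (-σ) * |t - Real.sin t|) ≤
          n * ε * ((1 + 2 / 10000) * (1 / 5 * |t| ^ 3)) :=
            mul_le_mul_of_nonneg_left h12 (by positivity)
        _ = (1 + 2 / 10000) * (1 / 5) * (n * ε * |t| ^ 3) := by ring
        _ ≤ (1 + 2 / 10000) * (1 / 5) * (5 / 10000) :=
            mul_le_mul_of_nonneg_left h2t (by norm_num)
        _ ≤ _ := by norm_num
    have h12 := abs_add_three ((n : ℝ) * ((Ph m (σ + t * Complex.I)).im - (Nf m σ).re * t))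
      (n * ε * (Real.exp (-σ) * (t - Real.sin t))) (Hf (σ + t * Complex.I)).arg
    linarith
  · rw [le_div_iff₀ hY0, Y3_norm, Y3_norm0]
    have e1 : -(51 / 100) * t ^ 2 / (1 / (n * ε)) = -(51 / 100) * (n * (ε * t ^ 2)) := by
      field_simp
    rw [e1]
    have h4 := (abs_le.1 (hc.pb.p4 σ t hσ)).1
    have h7 : 1 - Real.cos t ≤ t ^ 2 / 2 := by
      have := Real.one_sub_sq_div_two_le_cos (x := t)
      linarith
    have h7' : 0 ≤ 1 - Real.cos t := by
      have := Real.cos_le_one t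
      linarith
    have h8 : C * |σ| * t ^ 2 ≤ ε / 1000 * t ^ 2 := by
      apply mul_le_mul_of_nonneg_right _ (sq_nonneg t)
      exact (mul_le_mul_of_nonneg_left hσ hc.c1.le).trans hc.c4
    have h9 : Real.exp (-σ) * (1 - Real.cos t) ≤ (1 + 2 / 10000) * (t ^ 2 / 2) :=
      mul_le_mul h6 h7 h7' (by norm_num)
    have hs1 := (Hf_norm (hsn.trans (by norm_num))).1
    have hs2 := (Hf_norm (s := (σ : ℂ)) (by
      rw [Complex.norm_real, Real.norm_eq_abs]
      exact (hσ.trans hc.c3).trans (by norm_num))).2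
    have h10 : 99 / 100 * ‖Hf σ‖ ≤ ‖Hf (σ + t * Complex.I)‖ := by linarith
    have h11 : Real.exp (-(51 / 100) * (n * (ε * t ^ 2))) *
        Real.exp (n * (Ph m σ).re + n * ε * (Real.exp (-σ) - 1)) ≤
        Real.exp (n * (Ph m (σ + t * Complex.I)).re +
          n * ε * (Real.exp (-σ) * Real.cos t - 1)) := by
      rw [← Real.exp_add, Real.exp_le_exp]
      have h12 : -(51 / 100) * (ε * t ^ 2) + ((Ph m σ).re + ε * (Real.exp (-σ) - 1)) ≤
          (Ph m (σ + t * Complex.I)).re + ε * (Real.exp (-σ) * Real.cos t - 1) := by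
        have h13 := mul_le_mul_of_nonneg_left h9 hε.le
        have h14 : 0 ≤ ε * t ^ 2 := by positivity
        nlinarith
      have h15 := mul_le_mul_of_nonneg_left h12 hn'.le
      linarith
    calc 99 / 100 * Real.exp (-(51 / 100) * (n * (ε * t ^ 2))) *
        (Real.exp (n * (Ph m σ).re + n * ε * (Real.exp (-σ) - 1)) * ‖Hf σ‖) =
        (Real.exp (-(51 / 100) * (n * (ε * t ^ 2))) *
        Real.exp (n * (Ph m σ).re + n * ε * (Real.exp (-σ) - 1))) * (99 / 100 * ‖Hf σ‖) := by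
          ring
      _ ≤ _ := mul_le_mul h11 h10 (by positivity) (Real.exp_pos _).le
  · have hY0' : ((‖Y3 m n ε σ‖ : ℝ) : ℂ) ≠ 0 := by exact_mod_cast hY0.ne'
    rw [Complex.ofReal_div, mul_div_cancel₀ _ hY0']
    have hH := Complex.norm_mul_exp_arg_mul_I (Hf (σ + t * Complex.I))
    have e2 : Complex.exp (((n * ((Nf m σ).re - ε * Real.exp (-σ)) * t +
        (n * (Ph m (σ + t * Complex.I)).im - n * ε * (Real.exp (-σ) * Real.sin t) +
      (Hf (σ + t * Complex.I)).arg - n * ((Nf m σ).re - ε * Real.exp (-σ)) * t) : ℝ) : ℂ) *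
        Complex.I) = Complex.exp (((n * (Ph m (σ + t * Complex.I)).im : ℝ) : ℂ) * Complex.I) *
        Complex.exp (((-(n * ε * (Real.exp (-σ) * Real.sin t)) : ℝ) : ℂ) * Complex.I) *
        Complex.exp (((Hf (σ + t * Complex.I)).arg : ℂ) * Complex.I) := by
      rw [← Complex.exp_add, ← Complex.exp_add]
      congr 1
      push_cast
      ring
    rw [e2, Y3_norm]
    conv_lhs => rw [Y3, P_eq, gN_eq, ← hH]
    rw [Real.exp_add]
    push_cast
    ring

/-! ### The contour -/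

/-- the integrand with the exponential factor -/
noncomputable def Z3 (m : ℝ) (n w : ℕ) (ε : ℝ) (s : ℂ) : ℂ :=
  Y3 m n ε s * Complex.exp (-(w * s))

theorem Z3_eq (m T : ℝ) (n w : ℕ) (ε c : ℝ) :
    (∫ t in (-T)..T, Z3 m n w ε (c + t * Complex.I) /
      (c + (t - (0 : ℝ)) * Complex.I)) = SW (Y3 m n ε) T c (w : ℝ) := by
  unfold SW
  apply intervalIntegral.integral_congr
  intro t _
  simp only [Z3, Complex.ofReal_zero, sub_zero, Complex.ofReal_natCast]
  have e : Complex.exp (-((w : ℂ) * ((c : ℂ) + t * Complex.I))) =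
      Complex.exp (-((c : ℂ) + t * Complex.I) * (w : ℂ)) := by
    congr 1
    ring
  rw [e]
  ring

theorem Z3_norm (m : ℝ) (n w : ℕ) (ε σ t : ℝ) : ‖Z3 m n w ε (σ + t * Complex.I)‖ =
    Real.exp (n * (Ph m (σ + t * Complex.I)).re + n * ε * (Real.exp (-σ) * Real.cos t - 1)) *
      ‖Hf (σ + t * Complex.I)‖ * Real.exp (-(w * σ)) := by
  unfold Z3
  rw [norm_mul, Y3_norm, Complex.norm_exp]
  congr 2
  simp

theorem Ph_zero (m : ℝ) : Ph m 0 = 0 := by
  unfold Ph
  simp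

/-- the distance -/
theorem d_pos : 0 < 1 - Real.cos (1 / 1000) := by
  have := cos_low (t := 1 / 1000) (by rw [abs_of_pos] <;> norm_num)
  have h : (0 : ℝ) < 4999 / 10000 * (1 / 1000) ^ 2 := by norm_num
  linarith

theorem cosT_pos : 0 ≤ Real.cos (1 / 1000) := by
  apply Real.cos_nonneg_of_mem_Icc
  have := Real.pi_gt_three
  constructor <;> linarith

theorem exp_le_two {κ : ℝ} (h0 : 0 ≤ κ) (h1 : κ ≤ 1 / 10000) : Real.exp κ ≤ 1 + 2 * κ := by
  have h5 := Real.abs_exp_sub_one_sub_id_le (x := κ) (by rw [abs_of_nonneg h0]; linarith)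
  have h6 := (abs_le.1 h5).2
  nlinarith

/-- the shifts of the segment -/
theorem shift {m C κ ε : ℝ} {n w : ℕ} (hc : Cn m C κ ε) (hw : w ≤ n)
    (hsm : (C + 3) * κ ≤ ε * (1 - Real.cos (1 / 1000)) / 2) :
    (∀ c c' : ℝ, 0 < c → c ≤ κ → 0 < c' → c' ≤ κ →
      ‖SW (Y3 m n ε) (1 / 1000) c (w : ℝ) - SW (Y3 m n ε) (1 / 1000) c' (w : ℝ)‖ ≤
        Real.exp (-(n * ε * (1 - Real.cos (1 / 1000)) / 2))) ∧
    (∀ c c' : ℝ, -κ ≤ c → c < 0 → 0 < c' → c' ≤ κ →
      ‖SW (Y3 m n ε) (1 / 1000) c' (w : ℝ) - SW (Y3 m n ε) (1 / 1000) c (w : ℝ) -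
        2 * Real.pi‖ ≤ Real.exp (-(n * ε * (1 - Real.cos (1 / 1000)) / 2))) := by
  have hκ := hc.c2
  have hκ1 := hc.c3
  have hε := hc.c5
  have hC := hc.c1
  have hn : (0 : ℝ) ≤ n := Nat.cast_nonneg n
  have hw' : (w : ℝ) ≤ n := by exact_mod_cast hw
  have hw0 : (0 : ℝ) ≤ w := Nat.cast_nonneg w
  set d := 1 - Real.cos (1 / 1000) with hd
  have hdpos : 0 < d := d_pos
  have hcT : Real.cos (1 / 1000) = 1 - d := by rw [hd]; ring
  have hcT0 : 0 ≤ Real.cos (1 / 1000) := cosT_pos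
  have hb : ∀ σ t : ℝ, -κ ≤ σ → σ ≤ κ → |t| = 1 / 1000 →
      ‖Z3 m n w ε (σ + t * Complex.I)‖ ≤ 2 * Real.exp (-(n * ε * d / 2)) := by
    intro σ t h1 h2 ht
    have hσ : |σ| ≤ κ := abs_le.2 ⟨h1, h2⟩
    have h3 := (abs_le.1 (hc.pb.p3 σ t hσ)).2
    have h4 : C * |σ| ≤ C * κ := mul_le_mul_of_nonneg_left hσ hC.le
    have hcos : Real.cos t = 1 - d := by
      rw [← Real.cos_abs, ht, hcT]
    have h5 : Real.exp (-σ) ≤ 1 + 2 * κ :=
      (Real.exp_le_exp.2 (by linarith : -σ ≤ κ)).trans (exp_le_two hκ.le hκ1)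
    have h6 : Real.exp (-σ) * (1 - d) - 1 ≤ 2 * κ - d := by
      have h7 : Real.exp (-σ) * (1 - d) ≤ (1 + 2 * κ) * (1 - d) :=
        mul_le_mul_of_nonneg_right h5 (by rw [← hcT]; exact hcT0)
      nlinarith
    have h7 : ‖Hf (σ + t * Complex.I)‖ ≤ 2 := by
      refine (Hf_norm ((s_norm (hσ.trans hκ1) ht.le).trans (by norm_num))).2.trans (by norm_num)
    rw [Z3_norm, hcos]
    calc Real.exp (n * (Ph m (σ + t * Complex.I)).re + n * ε * (Real.exp (-σ) * (1 - d) - 1)) *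
          ‖Hf (σ + t * Complex.I)‖ * Real.exp (-(w * σ)) ≤
          Real.exp (n * (C * κ) + n * ε * (2 * κ - d)) * 2 * Real.exp (n * κ) := by
          have h8 : -((w : ℝ) * σ) ≤ n * κ := by
            have h9 : |(w : ℝ) * σ| ≤ n * κ := by
              rw [abs_mul, abs_of_nonneg hw0]
              exact mul_le_mul hw' hσ (abs_nonneg _) hn
            have := neg_abs_le ((w : ℝ) * σ)
            linarith
          have h9 : (n : ℝ) * (Ph m (σ + t * Complex.I)).re ≤ n * (C * κ) :=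
            mul_le_mul_of_nonneg_left (h3.trans h4) hn
          have h10 : (n : ℝ) * ε * (Real.exp (-σ) * (1 - d) - 1) ≤ n * ε * (2 * κ - d) :=
            mul_le_mul_of_nonneg_left h6 (by positivity)
          have h11 : Real.exp (n * (Ph m (σ + t * Complex.I)).re +
              n * ε * (Real.exp (-σ) * (1 - d) - 1)) ≤
              Real.exp (n * (C * κ) + n * ε * (2 * κ - d)) := Real.exp_le_exp.2 (by linarith)
          have h12 : Real.exp (-((w : ℝ) * σ)) ≤ Real.exp (n * κ) := Real.exp_le_exp.2 h8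
          gcongr
      _ = 2 * Real.exp (n * (C * κ) + n * ε * (2 * κ - d) + n * κ) := by
          rw [Real.exp_add (n * (C * κ) + n * ε * (2 * κ - d))]
          ring
      _ ≤ 2 * Real.exp (-(n * ε * d / 2)) := by
          apply mul_le_mul_of_nonneg_left _ (by norm_num)
          rw [Real.exp_le_exp]
          have h8 : ε * κ ≤ κ := by nlinarith [hc.c6]
          have h9 : C * κ + ε * (2 * κ - d) + κ ≤ -(ε * d / 2) := by nlinarith
          have h10 := mul_le_mul_of_nonneg_left h9 hn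
          linarith
  obtain ⟨h1, h2⟩ := RECf.rect (Z3 m n w ε) (-κ) κ (1 / 1000) 0
    (2 * Real.exp (-(n * ε * d / 2)))
    (by linarith) hκ (by norm_num)
    (by
      intro s h1 h2 h3
      have hs : |s.re| ≤ κ := abs_le.2 ⟨h1, h2⟩
      have hsn : ‖s‖ < 1 := by
        refine (Complex.norm_le_abs_re_add_abs_im s).trans_lt ?_
        linarith
      have hp := (hc.pb.p1 s hs).differentiableAt
      unfold Z3 Y3 gN
      have hh := Hf_diff hsn
      have e1 : DifferentiableAt ℂ (fun s => Complex.exp (n * Ph m s)) s :=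
        (hp.const_mul (n : ℂ)).cexp
      exact ((e1.mul (by fun_prop)).mul hh).mul (by fun_prop))
    (by
      intro σ h1 h2
      refine ⟨hb σ (1 / 1000) h1 h2 (abs_of_pos (by norm_num)), hb σ (-(1 / 1000)) h1 h2 ?_⟩
      rw [abs_neg, abs_of_pos (by norm_num)])
  have e1 : 2 * (κ - -κ) * (2 * Real.exp (-(n * ε * d / 2))) / (1 / 1000 - |(0 : ℝ)|) ≤
      Real.exp (-(n * ε * d / 2)) := by
    rw [abs_zero, sub_zero]
    have h3 := Real.exp_pos (-(n * ε * d / 2))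
    have h4 : 2 * (κ - -κ) * (2 * Real.exp (-(n * ε * d / 2))) / (1 / 1000) =
        8000 * κ * Real.exp (-(n * ε * d / 2)) := by ring
    rw [h4]
    have h5 : 8000 * κ ≤ 1 := by linarith
    nlinarith
  have e2 : Z3 m n w ε ((0 : ℝ) * Complex.I) = 1 := by
    unfold Z3 Y3 gN
    simp [Ph_zero, Hf_zero]
  constructor
  · intro c c' a1 a2 a3 a4
    have := h1 c c' a1 a2 a3 a4
    rw [Z3_eq, Z3_eq] at this
    exact this.trans e1
  · intro c c' a1 a2 a3 a4
    have := h2 c c' a1 a2 a3 a4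
    rw [Z3_eq, Z3_eq, e2, mul_one] at this
    exact this.trans e1

/-! ### The rest of the circle -/

/-- the integrand of the test function -/
noncomputable def J3 (m : ℝ) (n w : ℕ) (ε c φ : ℝ) : ℂ :=
  Complex.exp (n * Ph m (c + φ * Complex.I)) *
    (Complex.exp (-(w * (c + φ * Complex.I))) * (gN n ε (c + φ * Complex.I) /
      (Complex.exp (c + φ * Complex.I) - 1)))

theorem vN_J (m : ℝ) (n w : ℕ) (ε c : ℝ) :
    vN m n w ε c 0 = (∫ φ in (-Real.pi)..Real.pi, J3 m n w ε c φ) / (2 * Real.pi) := by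
  unfold vN J3
  simp only [Complex.ofReal_zero, sub_zero]

theorem exp_sub_one_norm {c φ : ℝ} (hc : 0 ≤ c) (hφ : Real.cos φ ≤ Real.cos (1 / 1000)) :
    1 - Real.cos (1 / 1000) ≤ ‖Complex.exp (c + φ * Complex.I) - 1‖ := by
  have e : Complex.exp ((c : ℂ) + φ * Complex.I) - 1 = Complex.exp ((c : ℂ) + φ * Complex.I) *
      (1 - Complex.exp (-((c : ℂ) + φ * Complex.I))) := by
    rw [mul_sub, mul_one, ← Complex.exp_add, add_neg_cancel, Complex.exp_zero]
  rw [e, norm_mul]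
  have h1 : 1 ≤ ‖Complex.exp ((c : ℂ) + φ * Complex.I)‖ := by
    rw [Complex.norm_exp]
    simpa using hc
  have h2 : 1 - Real.cos (1 / 1000) ≤ ‖1 - Complex.exp (-((c : ℂ) + φ * Complex.I))‖ := by
    refine le_trans ?_ (Complex.re_le_norm _)
    rw [exp_line]
    have h3 : (1 - (((Real.exp (-c) * Real.cos φ : ℝ) : ℂ) -
        ((Real.exp (-c) * Real.sin φ : ℝ) : ℂ) * Complex.I)).re =
        1 - Real.exp (-c) * Real.cos φ := by
      rw [Complex.sub_re, Complex.sub_re, Complex.one_re, Complex.ofReal_re, Complex.mul_I_re,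
        Complex.ofReal_im]
      ring
    rw [h3]
    have h4 : Real.exp (-c) ≤ 1 := Real.exp_le_one_iff.2 (by linarith)
    have h5 := Real.exp_pos (-c)
    have h6 : Real.exp (-c) * Real.cos φ ≤ Real.exp (-c) * Real.cos (1 / 1000) :=
      mul_le_mul_of_nonneg_left hφ h5.le
    have h7 : Real.exp (-c) * Real.cos (1 / 1000) ≤ 1 * Real.cos (1 / 1000) :=
      mul_le_mul_of_nonneg_right h4 cosT_pos
    linarith
  have h3 := d_pos
  calc 1 - Real.cos (1 / 1000) = 1 * (1 - Real.cos (1 / 1000)) := (one_mul _).symm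
    _ ≤ _ := mul_le_mul h1 h2 h3.le (norm_nonneg _)

theorem J3_outer {m C κ ε : ℝ} {n w : ℕ} (hc : Cn m C κ ε) {c φ : ℝ} (h0 : 0 < c)
    (h1 : c ≤ κ) (h2 : C * c ≤ ε * (1 - Real.cos (1 / 1000)) / 2)
    (hφ : Real.cos φ ≤ Real.cos (1 / 1000)) :
    ‖J3 m n w ε c φ‖ ≤
      Real.exp (-(n * ε * (1 - Real.cos (1 / 1000)) / 2)) / (1 - Real.cos (1 / 1000)) := by
  have hε := hc.c5
  have hn : (0 : ℝ) ≤ n := Nat.cast_nonneg n
  have hw0 : (0 : ℝ) ≤ w := Nat.cast_nonneg w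
  have h3 := exp_sub_one_norm h0.le hφ
  have h4 := d_pos
  have hcabs : |c| ≤ κ := by rwa [abs_of_pos h0]
  have h5 := (abs_le.1 (hc.pb.p3 c φ hcabs)).2
  rw [abs_of_pos h0] at h5
  unfold J3
  rw [norm_mul, norm_mul, norm_div, P_norm, gN_norm, Complex.norm_exp (-((w : ℂ) * _))]
  have e1 : (-((w : ℂ) * ((c : ℂ) + φ * Complex.I))).re = -(w * c) := by simp
  rw [e1, ← mul_div_assoc, ← mul_div_assoc]
  refine div_le_div₀ (Real.exp_pos _).le ?_ h4 h3
  rw [← Real.exp_add, ← Real.exp_add, Real.exp_le_exp]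
  have h6 : Real.exp (-c) ≤ 1 := Real.exp_le_one_iff.2 (by linarith)
  have h7 := Real.exp_pos (-c)
  have h8 : Real.exp (-c) * Real.cos φ ≤ Real.exp (-c) * Real.cos (1 / 1000) :=
    mul_le_mul_of_nonneg_left hφ h7.le
  have h9 : Real.exp (-c) * Real.cos (1 / 1000) ≤ 1 * Real.cos (1 / 1000) :=
    mul_le_mul_of_nonneg_right h6 cosT_pos
  have h10 : 0 ≤ (w : ℝ) * c := by positivity
  have h11 : (n : ℝ) * (Ph m (c + φ * Complex.I)).re ≤
      n * (ε * (1 - Real.cos (1 / 1000)) / 2) :=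
    mul_le_mul_of_nonneg_left (h5.trans h2) hn
  have h12 : (n : ℝ) * ε * (Real.exp (-c) * Real.cos φ - 1) ≤
      n * ε * (Real.cos (1 / 1000) - 1) :=
    mul_le_mul_of_nonneg_left (by linarith) (by positivity)
  linarith

theorem J3_cont {m C κ ε : ℝ} {n w : ℕ} (hc : Cn m C κ ε) {c : ℝ} (h0 : 0 < c)
    (h1 : c ≤ κ) : Continuous (J3 m n w ε c) := by
  have hcabs : |c| ≤ κ := by rwa [abs_of_pos h0]
  have hline : Continuous (fun φ : ℝ => (c : ℂ) + φ * Complex.I) := by fun_prop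
  have hP : Continuous (fun φ : ℝ => Ph m (c + φ * Complex.I)) := by
    rw [continuous_iff_continuousAt]
    intro φ
    have h2 : ContinuousAt (Ph m) ((c : ℂ) + φ * Complex.I) := by
      apply (hc.pb.p1 _ _).continuousAt
      simpa using hcabs
    exact ContinuousAt.comp (f := fun φ : ℝ => (c : ℂ) + φ * Complex.I) h2
      hline.continuousAt
  unfold J3 gN
  refine (hP.const_mul _ |>.cexp).mul ((by fun_prop : Continuous _).mul
    ((by fun_prop : Continuous _).div (by fun_prop) ?_))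
  intro φ h
  have h2 : ‖Complex.exp ((c : ℂ) + φ * Complex.I)‖ = 1 := by
    rw [sub_eq_zero.1 h, norm_one]
  rw [Complex.norm_exp] at h2
  have h3 : ((c : ℂ) + φ * Complex.I).re = c := by simp
  rw [h3, Real.exp_eq_one_iff] at h2
  linarith

theorem J3_mid {m C κ ε : ℝ} {n w : ℕ} (hc : Cn m C κ ε) {c : ℝ} (h0 : 0 < c) :
    (∫ φ in (-(1 / 1000 : ℝ))..(1 / 1000), J3 m n w ε c φ) =
      SW (Y3 m n ε) (1 / 1000) c (w : ℝ) := by
  unfold SW
  apply intervalIntegral.integral_congr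
  intro t _
  have hs : (c : ℂ) + t * Complex.I ≠ 0 := line_ne h0.ne'
  simp only [J3, Y3, Complex.ofReal_natCast]
  rw [Hf_of_ne hs]
  have e : Complex.exp (-((w : ℂ) * ((c : ℂ) + t * Complex.I))) =
      Complex.exp (-((c : ℂ) + t * Complex.I) * (w : ℂ)) := by
    congr 1
    ring
  rw [e]
  have h1 : Complex.exp ((c : ℂ) + t * Complex.I) - 1 ≠ 0 := by
    intro h
    have h2 : ‖Complex.exp ((c : ℂ) + t * Complex.I)‖ = 1 := by
      rw [sub_eq_zero.1 h, norm_one]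
    rw [Complex.norm_exp] at h2
    have h3 : ((c : ℂ) + t * Complex.I).re = c := by simp
    rw [h3, Real.exp_eq_one_iff] at h2
    linarith
  field_simp

theorem vN_SW {m C κ ε : ℝ} {n w : ℕ} (hc : Cn m C κ ε) {c : ℝ} (h0 : 0 < c)
    (h1 : c ≤ κ) (h2 : C * c ≤ ε * (1 - Real.cos (1 / 1000)) / 2) :
    (vN m n w ε c 0).re ≤ ((SW (Y3 m n ε) (1 / 1000) c (w : ℝ)).re +
      7 / (1 - Real.cos (1 / 1000)) * Real.exp (-(n * ε * (1 - Real.cos (1 / 1000)) / 2))) /
      (2 * Real.pi) := by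
  have hpi3 := Real.pi_gt_three
  have hpi : Real.pi < 3.15 := Real.pi_lt_d2
  have hd := d_pos
  set E := Real.exp (-(n * ε * (1 - Real.cos (1 / 1000)) / 2)) / (1 - Real.cos (1 / 1000))
    with hE
  have hE0 : 0 ≤ E := by positivity
  have hcont := J3_cont (n := n) (w := w) hc h0 h1
  have hsplit : (∫ φ in (-Real.pi)..Real.pi, J3 m n w ε c φ) =
      (∫ φ in (-Real.pi)..(-(1 / 1000 : ℝ)), J3 m n w ε c φ) +
      (∫ φ in (-(1 / 1000 : ℝ))..(1 / 1000), J3 m n w ε c φ) +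
      ∫ φ in (1 / 1000 : ℝ)..Real.pi, J3 m n w ε c φ := by
    rw [intervalIntegral.integral_add_adjacent_intervals (hcont.intervalIntegrable _ _)
      (hcont.intervalIntegrable _ _), intervalIntegral.integral_add_adjacent_intervals
      (hcont.intervalIntegrable _ _) (hcont.intervalIntegrable _ _)]
  have hA : ‖∫ φ in (-Real.pi)..(-(1 / 1000 : ℝ)), J3 m n w ε c φ‖ ≤ E * Real.pi := by
    have h3 := intervalIntegral.norm_integral_le_of_norm_le_const (a := -Real.pi)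
      (b := -(1 / 1000 : ℝ)) (f := J3 m n w ε c) (C := E) (by
        intro φ hφ
        rw [Set.uIoc_of_le (by linarith)] at hφ
        apply J3_outer hc h0 h1 h2
        rw [← Real.cos_neg φ]
        exact Real.cos_le_cos_of_nonneg_of_le_pi (by norm_num) (by linarith [hφ.1])
          (by linarith [hφ.2]))
    refine h3.trans (mul_le_mul_of_nonneg_left ?_ hE0)
    rw [abs_of_nonneg (by linarith)]
    linarith
  have hB : ‖∫ φ in (1 / 1000 : ℝ)..Real.pi, J3 m n w ε c φ‖ ≤ E * Real.pi := by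
    have h3 := intervalIntegral.norm_integral_le_of_norm_le_const (a := (1 / 1000 : ℝ))
      (b := Real.pi) (f := J3 m n w ε c) (C := E) (by
        intro φ hφ
        rw [Set.uIoc_of_le (by linarith)] at hφ
        apply J3_outer hc h0 h1 h2
        exact Real.cos_le_cos_of_nonneg_of_le_pi (by norm_num) hφ.2 hφ.1.le)
    refine h3.trans (mul_le_mul_of_nonneg_left ?_ hE0)
    rw [abs_of_nonneg (by linarith)]
    linarith
  rw [vN_J, re_div_two_pi, hsplit, J3_mid hc h0, Complex.add_re, Complex.add_re]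
  apply div_le_div_of_nonneg_right _ (by positivity)
  have h3 := (Complex.re_le_norm _).trans hA
  have h4 := (Complex.re_le_norm _).trans hB
  have h5 : E * Real.pi ≤ E * 3.15 := mul_le_mul_of_nonneg_left hpi.le hE0
  have h6 : 7 / (1 - Real.cos (1 / 1000)) *
      Real.exp (-(n * ε * (1 - Real.cos (1 / 1000)) / 2)) = 7 * E := by
    rw [hE]
    ring
  rw [h6]
  linarith

/-! ### The two cases -/

theorem exp_neg_upper {x : ℝ} (h0 : 0 ≤ x) (h1 : x ≤ 1) :
    Real.exp (-x) ≤ 1 - x + x ^ 2 / 2 + 2 / 9 * x ^ 3 := by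
  have h := Real.exp_bound (x := -x) (by rw [abs_neg, abs_of_nonneg h0]; exact h1) (n := 3)
    (by norm_num)
  have h2 := (abs_le.1 h).2
  rw [abs_neg, abs_of_nonneg h0] at h2
  simp only [Finset.sum_range_succ, Finset.sum_range_zero, Nat.factorial] at h2
  norm_num at h2
  linarith

/-- the bound on the right -/
theorem caseB {m C κ ε : ℝ} {n w : ℕ} (hc : Cn m C κ ε) (hn0 : 0 < n) {r : ℝ} (hr : 0 < r)
    (hrV : r ^ 2 = 1 / (n * ε)) (hrκ : r ≤ κ) (hr1 : r ≤ 1 / 60000)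
    (hr3 : r ≤ ε / (108000 * C))
    (hcase : n * ((Nf m (-(r / 5) : ℝ)).re - ε * Real.exp (-(-(r / 5)))) < w) :
    ‖SW (Y3 m n ε) (1 / 1000) (9 / 10 * r) (w : ℝ)‖ ≤
      101 / 100 * (1823 / 1000) * (2533 / 1000) / (9 / 10) := by
  have hε := hc.c5
  have hC := hc.c1
  have hn' : (0 : ℝ) < n := by exact_mod_cast hn0
  have hV : (0 : ℝ) < 1 / (n * ε) := by positivity
  have hsq : √(1 / (n * ε)) = r := by rw [← hrV, Real.sqrt_sq hr.le]
  have hnr : n * ε * r ^ 2 = 1 := by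
    rw [hrV]
    field_simp
  have hc0 : 0 < 9 / 10 * r := by positivity
  have hcabs : |9 / 10 * r| ≤ κ := by
    rw [abs_of_pos hc0]
    linarith
  have h2 := seg_bound (Y := Y3 m n ε) (c := 9 / 10 * r) (ρ := (w : ℝ)) (T := 1 / 1000)
    (by norm_num) hc0.ne' hV (norm_nonneg (Y3 m n ε (9 / 10 * r : ℝ)))
    (fun t ht => Y3_upper hc n hcabs t ht hn0)
  rw [abs_of_pos hc0] at h2
  -- the size on the real axis
  have hq7 := (abs_le.1 (hc.pb.p7 (9 / 10 * r) hcabs).2).2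
  rw [abs_of_pos hc0] at hq7
  have hq8 := (abs_le.1 (hc.pb.p8 (-(r / 5)) (by
    rw [abs_neg, abs_of_pos (by positivity)]; linarith))).1
  have hsmall : n * C * r ^ 3 ≤ 1 / 108000 := by
    have h3 : n * C * r ^ 3 = (n * ε * r ^ 2) * (C * r / ε) := by
      field_simp
    rw [h3, hnr]
    have h4 : C * r / ε ≤ 1 / 108000 := by
      rw [div_le_iff₀ hε]
      calc C * r ≤ C * (ε / (108000 * C)) := mul_le_mul_of_nonneg_left hr3 hC.le
        _ = 1 / 108000 * ε := by field_simp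
    linarith
  have he1 : Real.exp (-(-(r / 5))) ≤ 1 + r / 5 + r ^ 2 / 25 := by
    rw [neg_neg]
    have h5 := Real.abs_exp_sub_one_sub_id_le (x := r / 5) (by
      rw [abs_of_pos (by positivity)]; linarith)
    have h6 := (abs_le.1 h5).2
    nlinarith
  have he2 := exp_neg_upper (x := 9 / 10 * r) hc0.le (by linarith)
  have hg : n * (NR m 0) - w ≤ n * (C * r ^ 2 / 25) + n * ε * (1 + r / 5 + r ^ 2 / 25) := by
    have h3 : NR m 0 - C * r ^ 2 / 25 ≤ (Nf m (-(r / 5) : ℝ)).re := by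
      have e : C * (-(r / 5)) ^ 2 = C * r ^ 2 / 25 := by ring
      rw [e] at hq8
      linarith
    have h4 : ε * Real.exp (-(-(r / 5))) ≤ ε * (1 + r / 5 + r ^ 2 / 25) :=
      mul_le_mul_of_nonneg_left he1 hε.le
    have h5 : n * (NR m 0 - C * r ^ 2 / 25 - ε * (1 + r / 5 + r ^ 2 / 25)) ≤
        n * ((Nf m (-(r / 5) : ℝ)).re - ε * Real.exp (-(-(r / 5)))) :=
      mul_le_mul_of_nonneg_left (by linarith) hn'.le
    linarith
  have h5 : ‖Y3 m n ε (9 / 10 * r : ℝ)‖ * Real.exp (-(9 / 10 * r) * (w : ℝ)) ≤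
      Real.exp (3 / 5) := by
    rw [Y3_norm0]
    have hH := Hf_real hc0
    calc Real.exp (n * (Ph m (9 / 10 * r : ℝ)).re +
          n * ε * (Real.exp (-(9 / 10 * r)) - 1)) * ‖Hf (9 / 10 * r : ℝ)‖ *
          Real.exp (-(9 / 10 * r) * (w : ℝ))
        ≤ Real.exp (n * (Ph m (9 / 10 * r : ℝ)).re +
          n * ε * (Real.exp (-(9 / 10 * r)) - 1)) * 1 *
          Real.exp (-(9 / 10 * r) * (w : ℝ)) := by gcongr
      _ ≤ Real.exp (3 / 5) := by
          rw [mul_one, ← Real.exp_add, Real.exp_le_exp]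
          have h6 : (9 / 10 * r) * (n * (NR m 0) - w) ≤
              (9 / 10 * r) * (n * (C * r ^ 2 / 25) + n * ε * (1 + r / 5 + r ^ 2 / 25)) :=
            mul_le_mul_of_nonneg_left hg (by positivity)
          have h7 : (9 / 10 * r) * (n * (C * r ^ 2 / 25) + n * ε * (1 + r / 5 + r ^ 2 / 25)) =
              36 / 1000 * (n * C * r ^ 3) + n * ε * (9 / 10 * r) + 18 / 100 * (n * ε * r ^ 2) +
              36 / 1000 * (n * ε * r ^ 2) * r := by ring
          rw [h7, hnr] at h6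
          have h8 : (n : ℝ) * (Ph m (9 / 10 * r : ℝ)).re ≤
              n * (NR m 0 * (9 / 10 * r) + C * (9 / 10 * r) ^ 3) :=
            mul_le_mul_of_nonneg_left (by linarith) hn'.le
          have h9 : (n : ℝ) * ε * (Real.exp (-(9 / 10 * r)) - 1) ≤
              n * ε * (-(9 / 10 * r) + (9 / 10 * r) ^ 2 / 2 + 2 / 9 * (9 / 10 * r) ^ 3) :=
            mul_le_mul_of_nonneg_left (by linarith) (by positivity)
          have h10 : (n : ℝ) * ε * (-(9 / 10 * r) + (9 / 10 * r) ^ 2 / 2 +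
              2 / 9 * (9 / 10 * r) ^ 3) = -(n * ε * (9 / 10 * r)) +
              405 / 1000 * (n * ε * r ^ 2) + 162 / 1000 * (n * ε * r ^ 2) * r := by ring
          rw [h10, hnr] at h9
          have h11 : (n : ℝ) * (NR m 0 * (9 / 10 * r) + C * (9 / 10 * r) ^ 3) =
              (9 / 10 * r) * (n * NR m 0) + 729 / 1000 * (n * C * r ^ 3) := by ring
          rw [h11] at h8
          nlinarith
  have h6 := h5.trans num_exp
  have h7 := num_pi_sqrt hV
  rw [hsq] at h7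
  refine h2.trans ?_
  calc 101 / 100 * ‖Y3 m n ε (9 / 10 * r : ℝ)‖ * Real.exp (-(9 / 10 * r) * (w : ℝ)) /
        (9 / 10 * r) * √(Real.pi / ((49 / 100) / (1 / (n * ε))))
      = 101 / 100 * (‖Y3 m n ε (9 / 10 * r : ℝ)‖ * Real.exp (-(9 / 10 * r) * (w : ℝ))) /
        (9 / 10 * r) * √(Real.pi / ((49 / 100) / (1 / (n * ε)))) := by ring
    _ ≤ 101 / 100 * (1823 / 1000) / (9 / 10 * r) * (2533 / 1000 * r) := by gcongr
    _ = 101 / 100 * (1823 / 1000) * (2533 / 1000) / (9 / 10) := by field_simp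

/-- the bound on the left -/
theorem caseA {m C κ ε : ℝ} {n w : ℕ} (hc : Cn m C κ ε) (hn0 : 0 < n) {r : ℝ} (hr : 0 < r)
    (hrV : r ^ 2 = 1 / (n * ε)) (hrκ : r ≤ κ) (hr1 : r ≤ 1 / 60000)
    (hr3 : r ≤ ε / (108000 * C)) (hb : (NR m 0 - ε - ε * κ / 2) * n ≤ w)
    (hcase : (w : ℝ) ≤ n * ((Nf m (-(r / 5) : ℝ)).re - ε * Real.exp (-(-(r / 5))))) :
    ∃ σ : ℝ, -κ ≤ σ ∧ σ < 0 ∧ (SW (Y3 m n ε) (1 / 1000) σ (w : ℝ)).re ≤ 0 := by
  have hε := hc.c5
  have hC := hc.c1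
  have hκ := hc.c2
  have hn' : (0 : ℝ) < n := by exact_mod_cast hn0
  have hV : (0 : ℝ) < 1 / (n * ε) := by positivity
  have hsq : √(1 / (n * ε)) = r := by rw [← hrV, Real.sqrt_sq hr.le]
  have hnr : n * ε * r ^ 2 = 1 := by
    rw [hrV]
    field_simp
  -- the intermediate value theorem
  have hcont : ContinuousOn (fun σ : ℝ => n * ((Nf m σ).re - ε * Real.exp (-σ)))
      (Set.Icc (-κ) (-(r / 5))) := by
    have h9 : ContinuousOn (fun σ : ℝ => (Nf m σ).re) (Set.Icc (-κ) (-(r / 5))) :=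
      hc.pb.p10.mono (Set.Icc_subset_Icc (by linarith) (by linarith))
    exact continuousOn_const.mul (h9.sub (by fun_prop))
  have hle : n * ((Nf m (-κ : ℝ)).re - ε * Real.exp (-(-κ))) ≤ w := by
    have hq8 := (abs_le.mp (hc.pb.p8 (-κ) (by rw [abs_neg, abs_of_pos hκ]))).2
    have h3 : C * (-κ) ^ 2 ≤ ε / 1000 * κ := by
      calc C * (-κ) ^ 2 = C * κ * κ := by ring
        _ ≤ _ := mul_le_mul_of_nonneg_right hc.c4 hκ.le
    have h4 : ε * (1 + κ) ≤ ε * Real.exp (-(-κ)) := by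
      apply mul_le_mul_of_nonneg_left _ hε.le
      rw [neg_neg]
      have := Real.add_one_le_exp κ
      linarith
    have h5 : (Nf m (-κ : ℝ)).re - ε * Real.exp (-(-κ)) ≤ NR m 0 - ε - ε * κ / 2 := by
      nlinarith [mul_pos hε hκ]
    have h6 := mul_le_mul_of_nonneg_left h5 hn'.le
    linarith
  obtain ⟨σ, hσ, hσρ⟩ := intermediate_value_Icc (by linarith) hcont ⟨hle, hcase⟩
  have hσneg : σ < 0 := by
    have := hσ.2
    linarith
  have hσabs : |σ| ≤ κ := by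
    rw [abs_of_neg hσneg]
    linarith [hσ.1]
  have hy0 : 0 < ‖Y3 m n ε σ‖ := by
    rw [Y3_norm0]
    have hs2 := (Hf_norm (s := (σ : ℂ)) (by
      rw [Complex.norm_real, Real.norm_eq_abs]
      exact (hσabs.trans hc.c3).trans (by norm_num))).1
    have : 0 < ‖Hf (σ : ℂ)‖ := by linarith
    positivity
  refine ⟨σ, hσ.1, hσneg, ?_⟩
  refine pos_seg (V := 1 / (n * ε)) (y0 := ‖Y3 m n ε σ‖) hσneg ?_ hV hy0 ?_ ?_ ?_
  · rw [hsq]
    linarith [hσ.2]
  · rw [hsq]
    linarith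
  · exact fun t ht => Y3_upper hc n hσabs t ht hn0
  · intro t ht
    rw [hsq] at ht
    have h10 : |t| ^ 3 ≤ (3 * r) ^ 3 := pow_le_pow_left₀ (abs_nonneg _) ht 3
    have hθ1 : n * C * |t| ^ 3 ≤ 3 / 10000 := by
      have h11 : n * C * (3 * r) ^ 3 = 27 * (n * ε * r ^ 2) * (C * r / ε) := by
        field_simp
        ring
      have h4 : C * r / ε ≤ 1 / 108000 := by
        rw [div_le_iff₀ hε]
        calc C * r ≤ C * (ε / (108000 * C)) := mul_le_mul_of_nonneg_left hr3 hC.le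
          _ = 1 / 108000 * ε := by field_simp
      calc n * C * |t| ^ 3 ≤ n * C * (3 * r) ^ 3 :=
            mul_le_mul_of_nonneg_left h10 (by positivity)
        _ = 27 * (n * ε * r ^ 2) * (C * r / ε) := h11
        _ ≤ 27 * 1 * (1 / 108000) := by
            rw [hnr]
            linarith
        _ ≤ 3 / 10000 := by norm_num
    have hθ2 : n * ε * |t| ^ 3 ≤ 5 / 10000 := by
      have h11 : n * ε * (3 * r) ^ 3 = 27 * (n * ε * r ^ 2) * r := by ring
      calc n * ε * |t| ^ 3 ≤ n * ε * (3 * r) ^ 3 :=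
            mul_le_mul_of_nonneg_left h10 (by positivity)
        _ = 27 * (n * ε * r ^ 2) * r := h11
        _ ≤ 27 * 1 * (1 / 60000) := by
            rw [hnr]
            linarith
        _ ≤ 5 / 10000 := by norm_num
    obtain ⟨M, θ, h1, h2, h3⟩ := Y3_phase hc n hσabs t (by linarith) hn0 hθ1 hθ2
    refine ⟨M, θ, h1, h2, ?_⟩
    rw [h3]
    simp only at hσρ
    rw [hσρ]

theorem PB_mono {m C κ κ0 : ℝ} (hm : 0 < m) (hκ : 0 < κ) (hκκ : κ ≤ κ0) (h : PB m C κ0) :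
    PB m C κ := by
  refine ⟨?_, ?_, ?_, ?_, ?_, ?_, ?_, ?_, ?_, h.p9, ?_⟩
  · refine lt_of_le_of_lt ?_ h.p0
    apply mul_le_mul_of_nonneg_left _ hm.le
    exact pow_le_pow_left₀ (Real.sinh_nonneg_iff.2 hκ.le) (Real.sinh_le_sinh.2 hκκ) 2
  · exact fun s h1 => h.p1 s (h1.trans hκκ)
  · exact fun s h1 => h.p2 s (h1.trans hκκ)
  · exact fun σ t h1 => h.p3 σ t (h1.trans hκκ)
  · exact fun σ t h1 => h.p4 σ t (h1.trans hκκ)
  · exact fun σ t h1 => h.p5 σ t (h1.trans hκκ)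
  · exact fun σ t h1 h2 => h.p6 σ t (h1.trans hκκ) h2
  · exact fun σ h1 => h.p7 σ (h1.trans hκκ)
  · exact fun σ h1 => h.p8 σ (h1.trans hκκ)
  · exact h.p10.mono (Set.Icc_subset_Icc (by linarith) hκκ)

theorem trans3 (hb : S3_pb) : S3_trans := by
  intro m ε hm hε hε1
  obtain ⟨C, κ0, hC, hκ0, hκ0', hPB⟩ := hb m hm
  obtain ⟨d, hd⟩ : ∃ d : ℝ, d = 1 - Real.cos (1 / 1000) := ⟨_, rfl⟩
  have hdpos : 0 < d := by rw [hd]; exact d_pos
  set κ := min (min κ0 (1 / 10000)) (min (ε / (1000 * C)) (ε * d / (2 * (C + 3)))) with hκ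
  have hκpos : 0 < κ := lt_min (lt_min hκ0 (by norm_num)) (lt_min (by positivity) (by positivity))
  have hκκ : κ ≤ κ0 := (min_le_left _ _).trans (min_le_left _ _)
  have hκ1 : κ ≤ 1 / 10000 := (min_le_left _ _).trans (min_le_right _ _)
  have hκC : C * κ ≤ ε / 1000 := by
    calc C * κ ≤ C * (ε / (1000 * C)) :=
          mul_le_mul_of_nonneg_left ((min_le_right _ _).trans (min_le_left _ _)) hC.le
      _ = ε / 1000 := by field_simp
  have hsm : (C + 3) * κ ≤ ε * (1 - Real.cos (1 / 1000)) / 2 := by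
    have h1 : κ ≤ ε * d / (2 * (C + 3)) := (min_le_right _ _).trans (min_le_right _ _)
    rw [le_div_iff₀ (by positivity)] at h1
    rw [← hd]
    linarith
  have hcn : Cn m C κ ε := ⟨hC, hκpos, hκ1, hκC, hε, hε1, PB_mono hm hκpos hκκ hPB⟩
  set r0 := min κ (min (1 / 60000) (ε / (108000 * C))) with hr0
  have hr0pos : 0 < r0 := lt_min hκpos (lt_min (by norm_num) (by positivity))
  obtain ⟨K, hK⟩ : ∃ K : ℝ, K = 7 / d + 1 := ⟨_, rfl⟩
  have hKpos : 0 < K := by rw [hK]; positivity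
  refine ⟨ε * κ / 2, by positivity, κ, hκpos, ?_⟩
  intro c hc hcκ
  refine ⟨ε * d / 4, by positivity, ⌈1 / (ε * r0 ^ 2)⌉₊ + ⌈80 * K / (ε * d)⌉₊ + 1, ?_⟩
  intro n w hn hw _
  have hn0 : 0 < n := by omega
  have hn' : (0 : ℝ) < n := by exact_mod_cast hn0
  have hpi : (3.14 : ℝ) < Real.pi := Real.pi_gt_d2
  have hpi0 : 0 < Real.pi := Real.pi_pos
  have hV : (0 : ℝ) < 1 / (n * ε) := by positivity
  set r := √(1 / (n * ε)) with hr
  have hrpos : 0 < r := Real.sqrt_pos.2 hV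
  have hrV : r ^ 2 = 1 / (n * ε) := Real.sq_sqrt hV.le
  have hrr : r ≤ r0 := by
    rw [hr, Real.sqrt_le_left hr0pos.le, div_le_iff₀ (by positivity)]
    have h1 : 1 / (ε * r0 ^ 2) ≤ n := by
      refine (Nat.le_ceil _).trans ?_
      exact_mod_cast (show _ ≤ n by omega)
    rw [div_le_iff₀ (by positivity)] at h1
    linarith
  have hrκ : r ≤ κ := hrr.trans (min_le_left _ _)
  have hr1 : r ≤ 1 / 60000 := hrr.trans ((min_le_right _ _).trans (min_le_left _ _))
  have hr3 : r ≤ ε / (108000 * C) := hrr.trans ((min_le_right _ _).trans (min_le_right _ _))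
  -- the error
  obtain ⟨q, hq⟩ : ∃ q : ℝ, q = n * ε * d / 4 := ⟨_, rfl⟩
  have hqK : 20 * K ≤ q := by
    have h1 : 80 * K / (ε * d) ≤ n := by
      refine (Nat.le_ceil _).trans ?_
      exact_mod_cast (show _ ≤ n by omega)
    rw [div_le_iff₀ (by positivity)] at h1
    rw [hq]
    linarith
  have hexpq : q ≤ Real.exp q := by
    have := Real.add_one_le_exp q
    linarith
  have hE0 := Real.exp_pos (-q)
  have hE1 : K * Real.exp (-q) ≤ 1 / 20 := by
    rw [Real.exp_neg, ← div_eq_mul_inv, div_le_iff₀ (Real.exp_pos _)]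
    linarith
  have hE2 : Real.exp (-q) ≤ 1 := by
    rw [Real.exp_le_one_iff]
    have : 0 ≤ 20 * K := by positivity
    linarith
  have hE : (7 / d + 1) * Real.exp (-(n * ε * d / 2)) ≤ 1 / 20 * Real.exp (-q) := by
    have e1 : -(n * ε * d / 2) = -q + -q := by rw [hq]; ring
    rw [e1, Real.exp_add, ← hK]
    calc K * (Real.exp (-q) * Real.exp (-q)) = K * Real.exp (-q) * Real.exp (-q) := by ring
      _ ≤ _ := mul_le_mul_of_nonneg_right hE1 hE0.le
  have hEq : Real.exp (-(ε * d / 4) * n) = Real.exp (-q) := by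
    congr 1
    rw [hq]
    ring
  obtain ⟨hs1, hs2⟩ := shift (n := n) (w := w) hcn hw hsm
  have hCc : C * c ≤ ε * (1 - Real.cos (1 / 1000)) / 2 := by nlinarith
  have hv := vN_SW (n := n) (w := w) hcn hc hcκ hCc
  rw [← hd] at hv hs1 hs2
  rw [hEq]
  rcases le_or_gt (w : ℝ)
    (n * ((Nf m (-(r / 5) : ℝ)).re - ε * Real.exp (-(-(r / 5))))) with hcase | hcase
  · refine ⟨fun hbb => ?_, fun hbb => ?_⟩
    · obtain ⟨σ, h1, h2, h3⟩ := caseA hcn hn0 hrpos hrV hrκ hr1 hr3 hbb hcase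
      have h4 := hs2 σ c h1 h2 hc hcκ
      have h5 := (Complex.re_le_norm _).trans h4
      rw [Complex.sub_re, Complex.sub_re] at h5
      have h6 : (2 * (Real.pi : ℂ)).re = 2 * Real.pi := by
        have : (2 * (Real.pi : ℂ)) = ((2 * Real.pi : ℝ) : ℂ) := by push_cast; rfl
        rw [this, Complex.ofReal_re]
      rw [h6] at h5
      refine hv.trans ?_
      rw [div_le_iff₀ (by positivity)]
      nlinarith
    · exfalso
      have hq8 := (abs_le.mp (hcn.pb.p8 (-(r / 5)) (by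
        rw [abs_neg, abs_of_pos (by positivity)]; linarith))).2
      have h2 : C * (-(r / 5)) ^ 2 ≤ ε / 1000 * r / 25 := by
        calc C * (-(r / 5)) ^ 2 = C * r * r / 25 := by ring
          _ ≤ ε / 1000 * r / 25 := by
            have : C * r ≤ ε / 1000 := (mul_le_mul_of_nonneg_left hrκ hC.le).trans hκC
            gcongr
      have h4 : ε * (1 + r / 5) ≤ ε * Real.exp (-(-(r / 5))) := by
        apply mul_le_mul_of_nonneg_left _ hε.le
        rw [neg_neg]
        have := Real.add_one_le_exp (r / 5)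
        linarith
      have h5 : (Nf m (-(r / 5) : ℝ)).re - ε * Real.exp (-(-(r / 5))) < NR m 0 - ε := by
        nlinarith [mul_pos hε hrpos]
      have h6 := mul_lt_mul_of_pos_left h5 hn'
      linarith
  · have h1 := caseB hcn hn0 hrpos hrV hrκ hr1 hr3 hcase
    have h2 := hs1 c (9 / 10 * r) hc hcκ (by positivity) (by linarith)
    have h4 : ‖SW (Y3 m n ε) (1 / 1000) c (w : ℝ)‖ ≤
        ‖SW (Y3 m n ε) (1 / 1000) c (w : ℝ) - SW (Y3 m n ε) (1 / 1000) (9 / 10 * r) (w : ℝ)‖ +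
        ‖SW (Y3 m n ε) (1 / 1000) (9 / 10 * r) (w : ℝ)‖ := by
      have := norm_add_le (SW (Y3 m n ε) (1 / 1000) c (w : ℝ) -
        SW (Y3 m n ε) (1 / 1000) (9 / 10 * r) (w : ℝ))
        (SW (Y3 m n ε) (1 / 1000) (9 / 10 * r) (w : ℝ))
      simpa using this
    have h3 := (Complex.re_le_norm _).trans h4
    have h6 : (vN m n w ε c 0).re ≤ 5 / 6 := by
      refine hv.trans ?_
      rw [div_le_iff₀ (by positivity)]
      have h5 : (101 / 100 * (1823 / 1000) * (2533 / 1000) / (9 / 10) : ℝ) + 1 / 20 ≤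
          5 / 6 * (2 * 3.14) := by norm_num
      linarith
    refine ⟨fun _ => ?_, fun _ => h6⟩
    linarith

end Pool.Agent.TH41.BL.TR3f
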