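import Mathlib
import Pool.Agent.TH41.BL.Stm3

/-!
# The weight (BL3-W)
-/

set_option autoImplicit false

open MeasureTheory Filter Topology

namespace Pool.Agent.TH41.BL.W3Af

open Pool.Agent.TH41.BL

/-- the integrand -/
noncomputable def g (y φ : ℝ) : ℝ := Real.cos φ ^ 2 / (√(1 + y * Real.cos φ ^ 2)) ^ 3

/-- the integrand, continuous everywhere -/
noncomputable def g0 (y φ : ℝ) : ℝ := Real.cos φ ^ 2 / (√(1 + max y 0 * Real.cos φ ^ 2)) ^ 3

lemma den_ge (y φ : ℝ) : 1 ≤ √(1 + max y 0 * Real.cos φ ^ 2) := by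
  rw [Real.one_le_sqrt]
  have : 0 ≤ max y 0 * Real.cos φ ^ 2 := mul_nonneg (le_max_right _ _) (sq_nonneg _)
  linarith

lemma g0_cont : Continuous (fun p : ℝ × ℝ => g0 p.1 p.2) := by
  unfold g0
  refine Continuous.div (by fun_prop) (by fun_prop) fun p => ?_
  have := den_ge p.1 p.2
  positivity

lemma g0_eq {y : ℝ} (hy : 0 ≤ y) (φ : ℝ) : g0 y φ = g y φ := by
  unfold g0 g
  rw [max_eq_left hy]

lemma g0_nonneg (y φ : ℝ) : 0 ≤ g0 y φ := by
  unfold g0
  positivity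

lemma g0_le (y φ : ℝ) : g0 y φ ≤ Real.cos φ ^ 2 := by
  unfold g0
  have h1 := den_ge y φ
  have h2 : 1 ≤ (√(1 + max y 0 * Real.cos φ ^ 2)) ^ 3 := one_le_pow₀ h1
  exact div_le_self (sq_nonneg _) h2

lemma g0_le_one (y φ : ℝ) : g0 y φ ≤ 1 := (g0_le y φ).trans (Real.cos_sq_le_one φ)

lemma WN_eq {y : ℝ} (hy : 0 ≤ y) :
    WN y = 1 / (2 * Real.pi) * ∫ φ in (0 : ℝ)..(Real.pi / 2), g0 y φ := by
  unfold WN
  congr 1
  apply intervalIntegral.integral_congr
  intro φ _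
  exact (g0_eq hy φ).symm

lemma W_cont : Continuous (fun y : ℝ => 1 / (2 * Real.pi) *
    ∫ φ in (0 : ℝ)..(Real.pi / 2), g0 y φ) := by
  refine continuous_const.mul ?_
  exact intervalIntegral.continuous_parametric_intervalIntegral_of_continuous' (f := g0)
    (by exact g0_cont) 0 (Real.pi / 2)

lemma g0_cont1 (y : ℝ) : Continuous (fun φ : ℝ => g0 y φ) := by
  unfold g0
  refine Continuous.div (by fun_prop) (by fun_prop) fun φ => ?_
  have := den_ge y φ
  positivity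

lemma g0_cont2 (φ : ℝ) : Continuous (fun y : ℝ => g0 y φ) := by
  unfold g0
  refine Continuous.div (by fun_prop) (by fun_prop) fun y => ?_
  have := den_ge y φ
  positivity

lemma g0_int (y : ℝ) : IntervalIntegrable (fun φ : ℝ => g0 y φ) volume 0 (Real.pi / 2) :=
  (g0_cont1 y).intervalIntegrable _ _

lemma W_pos {y : ℝ} (hy : 0 ≤ y) : 0 < WN y := by
  rw [WN_eq hy]
  have hpi := Real.pi_pos
  have h1 : ∀ φ ∈ Set.Ioo (0 : ℝ) (Real.pi / 2), 0 < g0 y φ := by
    intro φ hφ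
    have hc : 0 < Real.cos φ := Real.cos_pos_of_mem_Ioo ⟨by linarith [hφ.1], hφ.2⟩
    unfold g0
    have h1 := den_ge y φ
    positivity
  have h2 : 0 < ∫ φ in (0 : ℝ)..(Real.pi / 2), g0 y φ :=
    intervalIntegral.intervalIntegral_pos_of_pos_on (g0_int y) h1 (by positivity)
  have h3 : 0 < 1 / (2 * Real.pi) := by positivity
  exact mul_pos h3 h2

lemma int_cos_sq : ∫ φ in (0 : ℝ)..(Real.pi / 2), Real.cos φ ^ 2 = Real.pi / 4 := by
  rw [integral_cos_sq]
  simp
  ring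

lemma W_le {y : ℝ} (hy : 0 ≤ y) : WN y ≤ 1 / 8 := by
  rw [WN_eq hy]
  have hpi := Real.pi_pos
  have h1 : ∫ φ in (0 : ℝ)..(Real.pi / 2), g0 y φ ≤ Real.pi / 4 := by
    rw [← int_cos_sq]
    refine intervalIntegral.integral_mono_on (by positivity) (g0_int y) ?_ fun φ _ => g0_le y φ
    exact Continuous.intervalIntegrable (by fun_prop) _ _
  calc 1 / (2 * Real.pi) * ∫ φ in (0 : ℝ)..(Real.pi / 2), g0 y φ
      ≤ 1 / (2 * Real.pi) * (Real.pi / 4) := mul_le_mul_of_nonneg_left h1 (by positivity)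
    _ = 1 / 8 := by field_simp; norm_num

/-- the integral of `1 / (S + cos²)` -/
lemma int_J {S : ℝ} (hS : 0 < S) :
    ∫ φ in (0 : ℝ)..(Real.pi / 2), 1 / (S + Real.cos φ ^ 2) =
      Real.pi / 2 / (√(S / (1 + S)) * (1 + S)) := by
  obtain ⟨k, hk⟩ : ∃ k : ℝ, k = √(S / (1 + S)) := ⟨_, rfl⟩
  have hk0 : 0 < k := by rw [hk]; positivity
  have hk2 : k ^ 2 = S / (1 + S) := by rw [hk, Real.sq_sqrt (by positivity)]
  have hk2' : k ^ 2 * (1 + S) = S := by rw [hk2]; field_simp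
  rw [← hk]
  obtain ⟨B, hB⟩ : ∃ B : ℝ → ℝ, B = fun φ => (φ - Real.arctan ((1 - k) * (Real.sin φ * Real.cos φ) /
      (Real.cos φ ^ 2 + k * Real.sin φ ^ 2))) / (k * (1 + S)) := ⟨_, rfl⟩
  have hD : ∀ φ : ℝ, 0 < Real.cos φ ^ 2 + k * Real.sin φ ^ 2 := by
    intro φ
    have h1 := Real.sin_sq_add_cos_sq φ
    rcases eq_or_ne (Real.cos φ) 0 with h | h
    · rw [h] at h1 ⊢
      have : Real.sin φ ^ 2 = 1 := by linarith
      rw [this]
      linarith
    · have : 0 < Real.cos φ ^ 2 := by positivity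
      have h2 : 0 ≤ k * Real.sin φ ^ 2 := by positivity
      linarith
  have hder : ∀ φ : ℝ, HasDerivAt B (1 / (S + Real.cos φ ^ 2)) φ := by
    intro φ
    have hDφ := hD φ
    have h1 : HasDerivAt (fun φ => (1 - k) * (Real.sin φ * Real.cos φ))
        ((1 - k) * (Real.cos φ * Real.cos φ + Real.sin φ * (-Real.sin φ))) φ :=
      ((Real.hasDerivAt_sin φ).mul (Real.hasDerivAt_cos φ)).const_mul _
    have h2 : HasDerivAt (fun φ => Real.cos φ ^ 2 + k * Real.sin φ ^ 2)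
        (((2 : ℕ) : ℝ) * Real.cos φ ^ (2 - 1) * (-Real.sin φ) +
          k * (((2 : ℕ) : ℝ) * Real.sin φ ^ (2 - 1) * Real.cos φ)) φ :=
      ((Real.hasDerivAt_cos φ).pow 2).add (((Real.hasDerivAt_sin φ).pow 2).const_mul _)
    have h3 := ((hasDerivAt_id φ).sub (h1.div h2 hDφ.ne').arctan).div_const (k * (1 + S))
    rw [hB]
    refine h3.congr_deriv ?_
    simp only [Pi.div_apply]
    have hsc := Real.sin_sq_add_cos_sq φ
    obtain ⟨s, hs⟩ : ∃ s, s = Real.sin φ := ⟨_, rfl⟩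
    obtain ⟨c, hc⟩ : ∃ c, c = Real.cos φ := ⟨_, rfl⟩
    rw [← hs, ← hc] at hsc hDφ
    rw [← hs, ← hc]
    obtain ⟨D, hDd⟩ : ∃ D, D = c ^ 2 + k * s ^ 2 := ⟨_, rfl⟩
    obtain ⟨E, hE⟩ : ∃ E, E = c ^ 2 + k ^ 2 * s ^ 2 := ⟨_, rfl⟩
    have hX : (1 - k) * (c * c + s * -s) * (c ^ 2 + k * s ^ 2) - (1 - k) * (s * c) *
        (((2 : ℕ) : ℝ) * c ^ (2 - 1) * (-s) + k * (((2 : ℕ) : ℝ) * s ^ (2 - 1) * c)) =
        (1 - k) * (c ^ 2 - k * s ^ 2) := by
      push_cast
      simp only [pow_one]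
      linear_combination (1 - k) * (c ^ 2 - k * s ^ 2) * hsc
    have hDN : D ^ 2 + ((1 - k) * (s * c)) ^ 2 = E := by
      rw [hDd, hE]
      linear_combination (c ^ 2 + k ^ 2 * s ^ 2) * hsc
    have hES : (1 + S) * E = S + c ^ 2 := by
      rw [hE]
      linear_combination s ^ 2 * hk2' + S * hsc
    have hE0 : 0 < E := by
      have h4 : 0 < S + c ^ 2 := by positivity
      rw [← hES] at h4
      exact pos_of_mul_pos_right h4 (by positivity)
    rw [hX, ← hDd, ← hES]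
    rw [← hDd] at hDφ
    have h5 : 1 / (1 + ((1 - k) * (s * c) / D) ^ 2) * ((1 - k) * (c ^ 2 - k * s ^ 2) / D ^ 2) =
        (1 - k) * (c ^ 2 - k * s ^ 2) / E := by
      rw [← hDN]
      have h6 : D ^ 2 + ((1 - k) * (s * c)) ^ 2 ≠ 0 := by rw [hDN]; exact hE0.ne'
      have h7 : 1 + ((1 - k) * (s * c) / D) ^ 2 = (D ^ 2 + ((1 - k) * (s * c)) ^ 2) / D ^ 2 := by
        field_simp
      rw [h7]
      field_simp
    rw [h5]
    have h8 : 1 - (1 - k) * (c ^ 2 - k * s ^ 2) / E = k / E := by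
      rw [eq_div_iff hE0.ne', sub_mul, div_mul_cancel₀ _ hE0.ne', hE]
      linear_combination k * hsc
    rw [h8]
    field_simp
  have hcont : Continuous fun φ : ℝ => 1 / (S + Real.cos φ ^ 2) := by
    refine Continuous.div (by fun_prop) (by fun_prop) fun φ => ?_
    positivity
  rw [intervalIntegral.integral_eq_sub_of_hasDerivAt (fun φ _ => hder φ)
    (hcont.intervalIntegrable _ _), hB]
  simp

lemma h_int {S : ℝ} (hS : 0 < S) :
    IntervalIntegrable (fun y => 1 / √(1 - y * S)) volume 0 (1 / S) := by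
  have h0 : (0 : ℝ) ≤ 1 / S := by positivity
  refine intervalIntegral.intervalIntegrable_deriv_of_nonneg
    (g := fun y => -(2 / S) * √(1 - y * S)) (by fun_prop) ?_ ?_
  · intro y hy
    rw [min_eq_left h0, max_eq_right h0] at hy
    have hy1 : y * S < 1 := by
      have := hy.2
      rwa [lt_div_iff₀ hS] at this
    have hy2 : 0 < 1 - y * S := by linarith
    have h1 : HasDerivAt (fun y : ℝ => 1 - y * S) (-(1 * S)) y :=
      ((hasDerivAt_id y).mul_const S).const_sub 1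
    have h2 := (h1.sqrt hy2.ne').const_mul (-(2 / S))
    refine h2.congr_deriv ?_
    have h3 : 0 < √(1 - y * S) := Real.sqrt_pos.mpr hy2
    field_simp
  · intro y _
    positivity

/-- the inner integral -/
lemma int_inner {S : ℝ} (hS : 0 < S) (φ : ℝ) :
    ∫ y in (0 : ℝ)..(1 / S), g0 y φ / √(1 - y * S) = 2 * Real.cos φ ^ 2 / (S + Real.cos φ ^ 2) := by
  have h0 : (0 : ℝ) ≤ 1 / S := by positivity
  obtain ⟨c, hc⟩ : ∃ c, c = Real.cos φ := ⟨_, rfl⟩
  obtain ⟨A, hA⟩ : ∃ A : ℝ → ℝ, A = fun y => -(2 * c ^ 2 / (S + c ^ 2)) *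
    (√(1 - y * S) / √(1 + y * c ^ 2)) := ⟨_, rfl⟩
  have hint : IntervalIntegrable (fun y => g0 y φ / √(1 - y * S)) volume 0 (1 / S) := by
    have h1 := (h_int hS).continuousOn_mul (g := fun y => g0 y φ)
      (g0_cont2 φ).continuousOn
    refine h1.congr ?_
    intro y _
    simp only
    ring
  have hpos : ∀ y : ℝ, 0 ≤ y → 0 < 1 + y * c ^ 2 := by
    intro y hy
    positivity
  rw [intervalIntegral.integral_eq_sub_of_hasDerivAt_of_le h0 (f := A) ?_ ?_ hint]
  · rw [hA, hc]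
    have e1 : 1 - 1 / S * S = 0 := by field_simp; norm_num
    simp only [e1, Real.sqrt_zero, zero_div, mul_zero, zero_mul, sub_zero, add_zero,
      Real.sqrt_one, div_one, mul_one]
    ring
  · rw [hA]
    refine continuousOn_const.mul (ContinuousOn.div (by fun_prop) (by fun_prop) fun y hy => ?_)
    exact (Real.sqrt_pos.mpr (hpos y hy.1)).ne'
  · intro y hy
    have hy1 : y * S < 1 := by
      have := hy.2
      rwa [lt_div_iff₀ hS] at this
    have hy2 : 0 < 1 - y * S := by linarith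
    have hy3 : 0 < 1 + y * c ^ 2 := hpos y hy.1.le
    have h1 : HasDerivAt (fun y : ℝ => 1 - y * S) (-(1 * S)) y :=
      ((hasDerivAt_id y).mul_const S).const_sub 1
    have h2 : HasDerivAt (fun y : ℝ => 1 + y * c ^ 2) (1 * c ^ 2) y :=
      ((hasDerivAt_id y).mul_const (c ^ 2)).const_add 1
    obtain ⟨u, hu⟩ : ∃ u, u = √(1 - y * S) := ⟨_, rfl⟩
    obtain ⟨v, hv⟩ : ∃ v, v = √(1 + y * c ^ 2) := ⟨_, rfl⟩
    have hu0 : 0 < u := by rw [hu]; exact Real.sqrt_pos.mpr hy2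
    have hv0 : 0 < v := by rw [hv]; exact Real.sqrt_pos.mpr hy3
    have hu2 : u ^ 2 = 1 - y * S := by rw [hu, Real.sq_sqrt hy2.le]
    have hv2 : v ^ 2 = 1 + y * c ^ 2 := by rw [hv, Real.sq_sqrt hy3.le]
    have h3 := ((h1.sqrt hy2.ne').div (h2.sqrt hy3.ne') (by rw [← hv]; exact hv0.ne')).const_mul
      (-(2 * c ^ 2 / (S + c ^ 2)))
    rw [hA]
    refine h3.congr_deriv ?_
    rw [g0_eq hy.1.le]
    unfold g
    rw [← hc, ← hu, ← hv]
    have hSc : 0 < S + c ^ 2 := by positivity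
    have h4 : (-(1 * S) / (2 * u) * v - u * (1 * c ^ 2 / (2 * v))) / v ^ 2 =
        -(S * v ^ 2 + c ^ 2 * u ^ 2) / (2 * u * v ^ 3) := by
      field_simp
      ring
    have h5 : S * v ^ 2 + c ^ 2 * u ^ 2 = S + c ^ 2 := by
      rw [hu2, hv2]
      ring
    rw [h4, h5]
    field_simp

theorem abel {S : ℝ} (hS : 0 < S) : ∫ y in (0 : ℝ)..(1 / S), WN y / √(1 - y * S) =
    1 / 2 * (1 - √(S / (1 + S))) := by
  have h0 : (0 : ℝ) ≤ 1 / S := by positivity
  have hpi := Real.pi_pos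
  have hpi2 : (0 : ℝ) ≤ Real.pi / 2 := by positivity
  have h1 : ∫ y in (0 : ℝ)..(1 / S), WN y / √(1 - y * S) =
      1 / (2 * Real.pi) * ∫ y in (0 : ℝ)..(1 / S), ∫ φ in (0 : ℝ)..(Real.pi / 2),
        g0 y φ / √(1 - y * S) := by
    rw [← intervalIntegral.integral_const_mul]
    apply intervalIntegral.integral_congr
    intro y hy
    rw [Set.uIcc_of_le h0] at hy
    simp only
    rw [WN_eq hy.1, intervalIntegral.integral_div]
    ring
  have h2 : ∫ y in (0 : ℝ)..(1 / S), ∫ φ in (0 : ℝ)..(Real.pi / 2), g0 y φ / √(1 - y * S) =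
      ∫ φ in (0 : ℝ)..(Real.pi / 2), ∫ y in (0 : ℝ)..(1 / S), g0 y φ / √(1 - y * S) := by
    simp only [intervalIntegral.integral_of_le h0, intervalIntegral.integral_of_le hpi2]
    apply MeasureTheory.integral_integral_swap
    have e1 : Integrable (fun y => 1 / √(1 - y * S)) (volume.restrict (Set.Ioc 0 (1 / S))) :=
      (intervalIntegrable_iff_integrableOn_Ioc_of_le h0).mp (h_int hS)
    have e2 := e1.comp_fst (volume.restrict (Set.Ioc (0 : ℝ) (Real.pi / 2)))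
    have e3 := e2.bdd_mul (f := fun p : ℝ × ℝ => g0 p.1 p.2) (c := 1)
      g0_cont.aestronglyMeasurable (by
        refine Filter.Eventually.of_forall fun p => ?_
        rw [Real.norm_eq_abs, abs_of_nonneg (g0_nonneg _ _)]
        exact g0_le_one _ _)
    refine e3.congr (Filter.Eventually.of_forall fun p => ?_)
    show g0 p.1 p.2 * (1 / √(1 - p.1 * S)) = g0 p.1 p.2 / √(1 - p.1 * S)
    ring
  have h3 : ∫ φ in (0 : ℝ)..(Real.pi / 2), ∫ y in (0 : ℝ)..(1 / S), g0 y φ / √(1 - y * S) =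
      ∫ φ in (0 : ℝ)..(Real.pi / 2), (2 - (2 * S) * (1 / (S + Real.cos φ ^ 2))) := by
    apply intervalIntegral.integral_congr
    intro φ _
    simp only
    rw [int_inner hS φ]
    have : 0 < S + Real.cos φ ^ 2 := by positivity
    field_simp
    ring
  have hcont : Continuous fun φ : ℝ => 1 / (S + Real.cos φ ^ 2) := by
    refine Continuous.div (by fun_prop) (by fun_prop) fun φ => ?_
    positivity
  have h4 : ∫ φ in (0 : ℝ)..(Real.pi / 2), (2 - (2 * S) * (1 / (S + Real.cos φ ^ 2))) =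
      2 * (Real.pi / 2) - (2 * S) * (Real.pi / 2 / (√(S / (1 + S)) * (1 + S))) := by
    rw [intervalIntegral.integral_sub intervalIntegrable_const
      ((hcont.const_mul _).intervalIntegrable _ _), intervalIntegral.integral_const_mul, int_J hS,
      intervalIntegral.integral_const]
    simp
    ring
  rw [h1, h2, h3, h4]
  obtain ⟨k, hk⟩ : ∃ k : ℝ, k = √(S / (1 + S)) := ⟨_, rfl⟩
  have hk0 : 0 < k := by rw [hk]; positivity
  have hk2 : k ^ 2 = S / (1 + S) := by rw [hk, Real.sq_sqrt (by positivity)]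
  have hk2' : k ^ 2 * (1 + S) = S := by rw [hk2]; field_simp
  rw [← hk]
  have h5 : (2 * S) * (Real.pi / 2 / (k * (1 + S))) = Real.pi * k := by
    have h6 : S / (k * (1 + S)) = k := by
      rw [div_eq_iff (by positivity)]
      linarith
    have h7 : (2 * S) * (Real.pi / 2 / (k * (1 + S))) = Real.pi * (S / (k * (1 + S))) := by ring
    rw [h7, h6]
  rw [h5]
  field_simp

theorem w3 : S3_w := by
  refine ⟨?_, fun y hy => ⟨W_pos hy, W_le hy⟩, fun S hS => abel hS⟩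
  exact W_cont.continuousOn.congr fun y hy => WN_eq hy

end Pool.Agent.TH41.BL.W3Af
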