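import Mathlib
import Pool.Agent.TH41.BL.Stm3
import Pool.Agent.TH41.BL.KRA
import Pool.Agent.TH41.BL.PUN
import Pool.Agent.TH41.BL.W3A
import Pool.Agent.TH41.BL.N3A
import Pool.Agent.TH41.BL.N3B
import Pool.Agent.TH41.BL.N3C
import Pool.Agent.TH41.BL.PH3
import Pool.Agent.TH41.BL.PB3
import Pool.Agent.TH41.BL.DB3
import Pool.Agent.TH41.BL.CO3
import Pool.Agent.TH41.BL.SH3
import Pool.Agent.TH41.BL.LE3
import Pool.Agent.TH41.BL.RI3
import Pool.Agent.TH41.BL.DU3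
import Pool.Agent.TH41.BL.TR3
import Pool.Agent.TH41.BL.NE3
import Pool.Agent.TH41.BL.MA3
import Pool.Agent.TH41.BL.QU3
import Pool.Agent.TH41.BL.FI3

set_option autoImplicit false

namespace Pool.Agent.TH41.BL

theorem k3_w : S3_w := W3Af.w3
theorem k3_na : S3_na := N3Af.na k3_w
theorem k3_nb : S3_nb := N3Bf.nb k3_w
theorem k3_nc : S3_nc := N3Cf.nc k3_w
theorem k3_ph : S3_ph := PH3f.ph k3_w k3_na k3_nb
theorem k3_pb : S3_pb := PB3f.pb k3_w k3_na k3_nb k3_ph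
theorem k3_db : S3_db := DB3f.db3 k3_w k3_na k3_nb k3_nc k3_ph
theorem k3_sh : S3_sh := SH3f.sh3 k3_ph
theorem k3_left : S3_left := LE3f.left3 k3_sh k3_pb
theorem k3_right : S3_right := RI3f.right3 k3_pb
theorem k3_trans : S3_trans := TR3f.trans3 k3_pb
theorem k3_quant : S3_quant := QU3f.quant k3_w k3_nb k3_nc

end Pool.Agent.TH41.BL
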