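import Mathlib
import Pool.Agent.TH41.BL.ASMC

set_option autoImplicit false

namespace Pool.Agent.TH41.BL

theorem k3_cont : S3_cont := CO3f.cont
theorem k3_dual : S3_dual := DU3f.dual3 KRAf.kra k3_ph k3_pb k3_nc k3_db k3_cont
theorem k3_near : S3_near := NE3f.near3 k3_pb k3_left k3_right k3_dual
theorem k3_main : S3_main :=
  MA3f.main3 KRAf.kra k3_pb k3_ph k3_left k3_trans k3_dual k3_near
theorem k3_fin : S3_fin := FI3f.fin3 PUNf.punc k3_quant k3_main

end Pool.Agent.TH41.BL
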