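import Mathlib
import Pool.Agent.TH41.BL.Stm4

/-! Project BL4, part DB4: the kernel on the dual line. -/

set_option autoImplicit false

open MeasureTheory Filter Topology

namespace Pool.Agent.TH41.BL.DB4f

open Pool.Agent.TH41.BL

theorem lz_im (h2 : S_lz2) (t : ℝ) :
    (Lz ((Real.pi / 4 : ℝ) + t * Complex.I)).im = Real.tanh (2 * t) := by
  obtain ⟨z1, -, z3⟩ := h2
  have e : ((Real.pi / 4 : ℝ) : ℂ) + t * Complex.I =
      (Real.pi : ℂ) / 4 - ((-t : ℝ) : ℂ) * Complex.I := by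
    push_cast; ring
  rw [e, z1]
  by_cases ht : t = 0
  · subst ht
    have h0 : Lz (((-(0 : ℝ) : ℝ) : ℂ) * Complex.I) = ((-(2 / Real.pi) : ℝ) : ℂ) := by
      simp [Lz]
    rw [h0]
    simp
  · rw [z3 (-t) (neg_ne_zero.2 ht)]
    have e2 : -(((Real.tanh (2 * -t) : ℝ) : ℂ) * Complex.I -
        ((8 * -t / Real.pi / Real.sinh (4 * -t) : ℝ) : ℂ)) =
        ((8 * -t / Real.pi / Real.sinh (4 * -t) : ℝ) : ℂ) +
          ((Real.tanh (2 * t) : ℝ) : ℂ) * Complex.I := by
      rw [show 2 * -t = -(2 * t) by ring, Real.tanh_neg]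
      push_cast; ring
    rw [e2]
    simp only [Complex.add_im, Complex.mul_im, Complex.ofReal_im, Complex.ofReal_re,
      Complex.I_re, Complex.I_im]
    ring

theorem pj_quarter (hj : S4_ja) {m : ℝ} (hm : 0 < m) :
    (PJ m ((Real.pi / 4 : ℝ) : ℂ)).re = mu4 m := by
  obtain ⟨-, -, -, -, -, j6⟩ := hj m hm
  have e : PJ m ((Real.pi / 4 : ℝ) : ℂ) =
      ((∫ u in (0 : ℝ)..1, Real.pi / 4 * (JJ m ((u * (Real.pi / 4) : ℝ) : ℂ)).re : ℝ) : ℂ) := by
    rw [PJ, ← intervalIntegral.integral_ofReal]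
    refine intervalIntegral.integral_congr fun u _ => ?_
    have h1 : JJ m ((u : ℂ) * ((Real.pi / 4 : ℝ) : ℂ)) =
        (((JJ m ((u * (Real.pi / 4) : ℝ) : ℂ)).re : ℝ) : ℂ) := by
      have h2 : (u : ℂ) * ((Real.pi / 4 : ℝ) : ℂ) = ((u * (Real.pi / 4) : ℝ) : ℂ) := by
        push_cast; ring
      rw [h2]
      apply Complex.ext
      · simp
      · rw [j6, Complex.ofReal_im]
    change ((Real.pi / 4 : ℝ) : ℂ) * JJ m ((u : ℂ) * ((Real.pi / 4 : ℝ) : ℂ)) =
      ((Real.pi / 4 * (JJ m ((u * (Real.pi / 4) : ℝ) : ℂ)).re : ℝ) : ℂ)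
    rw [h1]
    exact (Complex.ofReal_mul _ _).symm
  rw [e, Complex.ofReal_re, intervalIntegral.integral_const_mul]
  have h3 := intervalIntegral.integral_comp_mul_right (a := 0) (b := 1)
    (fun x : ℝ => (JJ m (x : ℂ)).re) (show (Real.pi / 4 : ℝ) ≠ 0 by positivity)
  rw [h3, zero_mul, one_mul, smul_eq_mul, mul_inv_cancel_left₀ (by positivity)]
  rfl

theorem db4 (hl : S_lam) (h2 : S_lz2) (hj : S4_ja) (hp : S4_ph) : S4_db := by
  intro m t hm
  obtain ⟨l1, l2, -, l4, -⟩ := hl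
  obtain ⟨j1, -, -, j4, -, -⟩ := hj m hm
  obtain ⟨p1, -, -, -, -, -⟩ := hp m hm
  have hpi := Real.pi_pos
  set F : ℝ → ℝ := fun t =>
    (Lam ((Real.pi / 4 : ℝ) + t * Complex.I) + PJ m ((Real.pi / 4 : ℝ) + t * Complex.I)).re +
      1 / 2 * Real.log (Real.cosh (2 * t)) with hF
  have hd : ∀ t : ℝ, HasDerivAt F 0 t := by
    intro t
    have hre : (((Real.pi / 4 : ℝ) : ℂ) + t * Complex.I).re = Real.pi / 4 := by simp
    have hs1 : -(Real.pi / 8) < (((Real.pi / 4 : ℝ) : ℂ) + t * Complex.I).re := by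
      rw [hre]; linarith
    have hs2 : (((Real.pi / 4 : ℝ) : ℂ) + t * Complex.I).re < 3 * Real.pi / 8 := by
      rw [hre]; linarith
    have hs3 : (((Real.pi / 4 : ℝ) : ℂ) + t * Complex.I) ∈ DJ m := by
      refine ⟨?_, Or.inl ?_⟩
      · rw [hre, abs_of_pos (by linarith)]; linarith
      · rw [hre]; positivity
    have hg : HasDerivAt (fun u : ℝ => ((Real.pi / 4 : ℝ) : ℂ) + u * Complex.I) Complex.I t := by
      have := ((Complex.ofRealCLM.hasDerivAt (x := t)).mul_const Complex.I).const_add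
        ((Real.pi / 4 : ℝ) : ℂ)
      simpa using this
    have h3 := ((l1 _ hs1 hs2).add (p1 _ hs3)).scomp t hg
    have h4 := (Complex.reCLM.hasFDerivAt.comp_hasDerivAt t h3)
    have h5 : HasDerivAt (fun u : ℝ => 1 / 2 * Real.log (Real.cosh (2 * u)))
        (Real.tanh (2 * t)) t := by
      have a1 : HasDerivAt (fun u : ℝ => 2 * u) 2 t := by
        simpa using (hasDerivAt_id t).const_mul (2 : ℝ)
      have a2 := ((a1.cosh).log (Real.cosh_pos _).ne').const_mul (1 / 2 : ℝ)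
      refine a2.congr_deriv ?_
      rw [Real.tanh_eq_sinh_div_cosh]
      ring
    have h6 := h4.add h5
    have e1 : (Lz (((Real.pi / 4 : ℝ) : ℂ) + t * Complex.I)).im = Real.tanh (2 * t) := lz_im h2 t
    have e2 := j4 t
    refine h6.congr_deriv ?_
    simp only [Complex.reCLM_apply, smul_eq_mul, Complex.mul_re, Complex.I_re, Complex.I_im,
      Complex.add_im, zero_mul, one_mul, zero_sub]
    rw [e1, e2]
    ring
  have hconst : F t = F 0 :=
    is_const_of_deriv_eq_zero (fun x => (hd x).differentiableAt) (fun x => (hd x).deriv) t 0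
  have h0 : F 0 = mu4 m := by
    have hL : Lam ((Real.pi / 4 : ℝ) : ℂ) = 0 := by
      have := l4 0 (by simp; positivity) (by simp; positivity)
      rw [sub_zero, l2] at this
      rw [← this]
      push_cast; rfl
    simp only [hF, Complex.ofReal_zero, zero_mul, add_zero, mul_zero, Real.cosh_zero,
      Real.log_one, Complex.add_re, hL, Complex.zero_re, zero_add]
    exact pj_quarter hj hm
  rw [h0] at hconst
  simp only [hF] at hconst
  linarith

end Pool.Agent.TH41.BL.DB4f
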