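import Mathlib
import Pool.Agent.TH41.BL.Stm4

/-!
# BL4-DUAL: the transform of the test function is bounded (job 3980, helper858)
-/

set_option autoImplicit false

open MeasureTheory Filter Topology

namespace Pool.Agent.TH41.BL.DU4f

open Pool.Agent.TH41.BL

theorem NN_nonneg (n : ℕ) (f : ℕ → ℝ) : 0 ≤ NN n f := by
  unfold NN
  exact Finset.sum_nonneg fun j _ => by positivity

lemma cos_pt (t : ℝ) : Complex.cos ((Real.pi / 4 : ℝ) + t * Complex.I) =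
    ((√2 / 2 * Real.cosh t : ℝ) : ℂ) - ((√2 / 2 * Real.sinh t : ℝ) : ℂ) * Complex.I := by
  rw [Complex.cos_add, Complex.cos_mul_I, Complex.sin_mul_I, ← Complex.ofReal_cos,
    ← Complex.ofReal_sin, Real.cos_pi_div_four, Real.sin_pi_div_four]
  push_cast
  ring

lemma sin_pt (t : ℝ) : Complex.sin ((Real.pi / 4 : ℝ) + t * Complex.I) =
    ((√2 / 2 * Real.cosh t : ℝ) : ℂ) + ((√2 / 2 * Real.sinh t : ℝ) : ℂ) * Complex.I := by
  rw [Complex.sin_add, Complex.cos_mul_I, Complex.sin_mul_I, ← Complex.ofReal_cos,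
    ← Complex.ofReal_sin, Real.cos_pi_div_four, Real.sin_pi_div_four]
  push_cast
  ring

lemma sq2 : √2 * √2 = (2 : ℝ) := Real.mul_self_sqrt (by norm_num)

lemma norm_add_sub (t : ℝ) (z : ℂ) (a b : ℝ) (ha : a = √2 / 2 * Real.cosh t)
    (hb : b = √2 / 2 * Real.sinh t ∨ b = -(√2 / 2 * Real.sinh t))
    (hz : z = (a : ℂ) + (b : ℂ) * Complex.I) : ‖2 * z / (√2 : ℝ)‖ = √(Real.cosh (2 * t)) := by
  have h2 : (0 : ℝ) ≤ ‖2 * z / (√2 : ℝ)‖ := norm_nonneg _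
  rw [← Real.sqrt_sq h2]
  congr 1
  have h3 : ‖z‖ ^ 2 = a ^ 2 + b ^ 2 := by
    rw [hz, ← Complex.normSq_eq_norm_sq, Complex.normSq_add_mul_I]
  have h4 : ‖(2 : ℂ) * z / (√2 : ℝ)‖ ^ 2 = 2 * ‖z‖ ^ 2 := by
    rw [norm_div, norm_mul, div_pow, mul_pow]
    have e1 : ‖((√2 : ℝ) : ℂ)‖ ^ 2 = 2 := by
      rw [Complex.norm_real, Real.norm_of_nonneg (Real.sqrt_nonneg 2)]
      exact Real.sq_sqrt (by norm_num)
    have e2 : ‖(2 : ℂ)‖ = 2 := by simp
    rw [e1, e2]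
    ring
  rw [h4, h3, ha]
  have hb2 : b ^ 2 = (√2 / 2 * Real.sinh t) ^ 2 := by
    rcases hb with h | h <;> rw [h]
    ring
  rw [hb2, Real.cosh_two_mul]
  have := sq2
  nlinarith [this]

theorem norm_plus (t : ℝ) :
    ‖(AA ((Real.pi / 4 : ℝ) + t * Complex.I) + BB ((Real.pi / 4 : ℝ) + t * Complex.I)) /
      (√2 : ℝ)‖ = √(Real.cosh (2 * t)) := by
  obtain ⟨s, hs⟩ : ∃ s : ℂ, s = (Real.pi / 4 : ℝ) + t * Complex.I := ⟨_, rfl⟩
  rw [← hs]
  have hc : Complex.cos s = ((√2 / 2 * Real.cosh t : ℝ) : ℂ) +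
      ((-(√2 / 2 * Real.sinh t) : ℝ) : ℂ) * Complex.I := by
    rw [hs, cos_pt]
    push_cast
    ring
  have e1 : AA s + BB s = 2 * Complex.cos s := by
    unfold AA BB
    ring
  rw [e1]
  exact norm_add_sub t _ _ _ rfl (Or.inr rfl) hc

theorem norm_minus (t : ℝ) :
    ‖(AA ((Real.pi / 4 : ℝ) + t * Complex.I) - BB ((Real.pi / 4 : ℝ) + t * Complex.I)) /
      (√2 : ℝ)‖ = √(Real.cosh (2 * t)) := by
  obtain ⟨s, hs⟩ : ∃ s : ℂ, s = (Real.pi / 4 : ℝ) + t * Complex.I := ⟨_, rfl⟩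
  rw [← hs]
  have hsn : Complex.sin s = ((√2 / 2 * Real.cosh t : ℝ) : ℂ) +
      ((√2 / 2 * Real.sinh t : ℝ) : ℂ) * Complex.I := by
    rw [hs, sin_pt]
  have e2 : AA s - BB s = 2 * Complex.sin s := by
    unfold AA BB
    ring
  rw [e2]
  exact norm_add_sub t _ _ _ rfl (Or.inl rfl) hsn

/-- the bound of the generating function -/
theorem gen_bound (hk : S_kra) (n : ℕ) (f : ℕ → ℝ) (a b E : ℂ) (q M : ℝ)
    (h1 : ‖(a + b) / (√2 : ℝ)‖ = q) (h2 : ‖(a - b) / (√2 : ℝ)‖ = q) (h3 : q ^ n * ‖E‖ = M) :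
    ‖∑ w ∈ Finset.range (n + 1), (n.choose w : ℂ) * (f w : ℂ) * (a ^ (n - w) * b ^ w * E)‖ ≤
      M * NN n f := by
  have h4 : ∑ w ∈ Finset.range (n + 1), (n.choose w : ℂ) * (f w : ℂ) * (a ^ (n - w) * b ^ w * E) =
      ∑ j ∈ Finset.range (n + 1), (n.choose j : ℂ) * (tr n f j : ℂ) *
        (((a + b) / (√2 : ℝ)) ^ (n - j) * ((a - b) / (√2 : ℝ)) ^ j * E) := by
    have h5 : ∑ w ∈ Finset.range (n + 1), (n.choose w : ℂ) * (f w : ℂ) * (a ^ (n - w) * b ^ w * E) =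
        (∑ w ∈ Finset.range (n + 1), (n.choose w : ℂ) * (a ^ (n - w) * b ^ w) * (f w : ℂ)) * E := by
      rw [Finset.sum_mul]
      refine Finset.sum_congr rfl fun w _ => ?_
      ring
    rw [h5, hk.1 n f a b, Finset.sum_mul]
    refine Finset.sum_congr rfl fun j _ => ?_
    ring
  rw [h4]
  refine (norm_sum_le _ _).trans ?_
  unfold NN
  rw [Finset.mul_sum]
  refine Finset.sum_le_sum fun j hj => ?_
  have hj' : j ≤ n := by
    have := Finset.mem_range.1 hj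
    omega
  rw [norm_mul, norm_mul, norm_mul, norm_mul, norm_pow, norm_pow, h1, h2, Complex.norm_real,
    Real.norm_eq_abs, ← pow_add, Nat.sub_add_cancel hj', h3]
  have h6 : ‖(n.choose j : ℂ)‖ = (n.choose j : ℝ) := by simp
  rw [h6]
  exact le_of_eq (by ring)

theorem norm_E (hdb : S4_db) (m : ℝ) (hm : 0 < m) (n : ℕ) (t : ℝ) :
    √(Real.cosh (2 * t)) ^ n *
      ‖Complex.exp (n * Lam ((Real.pi / 4 : ℝ) + t * Complex.I)) *
        Complex.exp (n * PJ m ((Real.pi / 4 : ℝ) + t * Complex.I))‖ = Real.exp (n * mu4 m) := by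
  have hcp : 0 < Real.cosh (2 * t) := Real.cosh_pos _
  have h9 : √(Real.cosh (2 * t)) = Real.exp ((1 / 2) * Real.log (Real.cosh (2 * t))) := by
    rw [Real.sqrt_eq_rpow, Real.rpow_def_of_pos hcp]
    congr 1
    ring
  have h1 := hdb m t hm
  rw [← Complex.exp_add, ← mul_add, Complex.norm_exp, h9, ← Real.exp_nat_mul, ← Real.exp_add]
  congr 1
  rw [show (n : ℂ) * (Lam ((Real.pi / 4 : ℝ) + t * Complex.I) +
      PJ m ((Real.pi / 4 : ℝ) + t * Complex.I)) =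
      ((n : ℝ) : ℂ) * (Lam ((Real.pi / 4 : ℝ) + t * Complex.I) +
      PJ m ((Real.pi / 4 : ℝ) + t * Complex.I)) by norm_cast, Complex.re_ofReal_mul, h1]
  ring

theorem sum1 (hk : S_kra) (hdb : S4_db) (m : ℝ) (hm : 0 < m) (n : ℕ) (f : ℕ → ℝ) (t : ℝ) :
    ‖∑ w ∈ Finset.range (n + 1), (n.choose w : ℂ) * (f w : ℂ) *
      QJ m n w ((Real.pi / 4 : ℝ) + t * Complex.I)‖ ≤ Real.exp (n * mu4 m) * NN n f := by
  refine le_trans (le_of_eq ?_) (gen_bound hk n f (AA ((Real.pi / 4 : ℝ) + t * Complex.I))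
    (BB ((Real.pi / 4 : ℝ) + t * Complex.I)) _ _ _ (norm_plus t) (norm_minus t)
    (norm_E hdb m hm n t))
  congr 1
  refine Finset.sum_congr rfl fun w _ => ?_
  unfold QJ QQ
  ring

theorem sum2 (hk : S_kra) (hdb : S4_db) (m : ℝ) (hm : 0 < m) (n : ℕ) (f : ℕ → ℝ) (t : ℝ) :
    ‖∑ w ∈ Finset.range (n + 1), (n.choose w : ℂ) * (f w : ℂ) *
      QJ m n (n - w) ((Real.pi / 4 : ℝ) + t * Complex.I)‖ ≤ Real.exp (n * mu4 m) * NN n f := by
  refine le_trans (le_of_eq ?_) (gen_bound hk n f (BB ((Real.pi / 4 : ℝ) + t * Complex.I))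
    (AA ((Real.pi / 4 : ℝ) + t * Complex.I)) _ _ _ ?_ ?_
    (norm_E hdb m hm n t))
  · congr 1
    refine Finset.sum_congr rfl fun w hw => ?_
    have hw' : w ≤ n := by
      have := Finset.mem_range.1 hw
      omega
    unfold QJ QQ
    rw [Nat.sub_sub_self hw']
    ring
  · rw [add_comm]
    exact norm_plus t
  · rw [← norm_neg, ← neg_div, neg_sub]
    exact norm_minus t

theorem norm_Kf (n : ℕ) (ε η t τ : ℝ) :
    ‖Kf n ε η (((Real.pi / 4 : ℝ) : ℂ) + ((t : ℂ) - (τ : ℂ)) * Complex.I)‖ ≤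
      4 / Real.pi * Real.exp (n * ε * (Real.pi ^ 2 / 16) + n * |η| * (Real.pi / 4)) *
        Real.exp (-(n * ε) * (t - τ) ^ 2) := by
  have hpi := Real.pi_pos
  obtain ⟨x, hx⟩ : ∃ x : ℝ, x = Real.pi / 4 := ⟨_, rfl⟩
  obtain ⟨u, hu⟩ : ∃ u : ℝ, u = t - τ := ⟨_, rfl⟩
  have hs : (x : ℂ) + ((t : ℂ) - (τ : ℂ)) * Complex.I = (x : ℂ) + (u : ℂ) * Complex.I := by
    rw [hu]
    push_cast
    ring
  have hx0 : 0 < x := by rw [hx]; positivity
  rw [← hx, hs, ← hu, Kf, norm_div, Complex.norm_exp]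
  have h1 : (n : ℂ) * ε * ((x : ℂ) + (u : ℂ) * Complex.I) ^ 2 -
      n * η * ((x : ℂ) + (u : ℂ) * Complex.I) =
      ((n * ε * (x ^ 2 - u ^ 2) - n * η * x : ℝ) : ℂ) +
        ((n * ε * (2 * x * u) - n * η * u : ℝ) : ℂ) * Complex.I := by
    push_cast
    ring_nf
    rw [Complex.I_sq]
    ring
  rw [h1, Complex.add_re, Complex.ofReal_re, Complex.re_ofReal_mul, Complex.I_re, mul_zero,
    add_zero]
  have h2 : x ≤ ‖(x : ℂ) + (u : ℂ) * Complex.I‖ := by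
    have h := Complex.abs_re_le_norm ((x : ℂ) + (u : ℂ) * Complex.I)
    have h3 : ((x : ℂ) + (u : ℂ) * Complex.I).re = x := by simp
    rw [h3, abs_of_pos hx0] at h
    exact h
  have h4 : Real.exp (n * ε * (x ^ 2 - u ^ 2) - n * η * x) ≤
      Real.exp (n * ε * (Real.pi ^ 2 / 16) + n * |η| * x) *
        Real.exp (-(n * ε) * u ^ 2) := by
    rw [← Real.exp_add]
    apply Real.exp_le_exp.2
    have h5 : -(n * |η| * x) ≤ n * η * x := by
      have h6 : -|η| ≤ η := neg_abs_le η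
      have h7 : (0 : ℝ) ≤ n * x := by positivity
      nlinarith
    have h8 : n * ε * (x ^ 2 - u ^ 2) = n * ε * (Real.pi ^ 2 / 16) + -(n * ε) * u ^ 2 := by
      rw [hx]
      ring
    rw [h8]
    linarith
  calc Real.exp (n * ε * (x ^ 2 - u ^ 2) - n * η * x) / ‖(x : ℂ) + (u : ℂ) * Complex.I‖
      ≤ (Real.exp (n * ε * (Real.pi ^ 2 / 16) + n * |η| * x) *
        Real.exp (-(n * ε) * u ^ 2)) / x :=
        div_le_div₀ (by positivity) h4 hx0 h2
    _ = _ := by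
        rw [hx]
        field_simp

theorem gauss_int {b : ℝ} (hb : 0 < b) (τ : ℝ) :
    Integrable (fun t : ℝ => Real.exp (-b * (t - τ) ^ 2)) :=
  (integrable_exp_neg_mul_sq hb).comp_sub_right τ

theorem gauss_val {b : ℝ} (τ : ℝ) :
    ∫ t : ℝ, Real.exp (-b * (t - τ) ^ 2) = √(Real.pi / b) := by
  rw [integral_sub_right_eq_self (fun t : ℝ => Real.exp (-b * t ^ 2)) τ, integral_gaussian]

/-- one line -/
theorem line_bound (n : ℕ) (f : ℕ → ℝ) (ε η τ M : ℝ) (Qk : ℕ → ℝ → ℂ)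
    (hn : 0 < (n : ℝ) * ε) (hM0 : 0 ≤ M)
    (hM : ∀ t : ℝ, ‖∑ w ∈ Finset.range (n + 1), (n.choose w : ℂ) * (f w : ℂ) * Qk w t‖ ≤ M)
    (hint : ∀ w : ℕ, w ≤ n → Integrable (fun t : ℝ => Qk w t *
      Kf n ε η (((Real.pi / 4 : ℝ) : ℂ) + ((t : ℂ) - (τ : ℂ)) * Complex.I))) :
    ‖∑ w ∈ Finset.range (n + 1), (n.choose w : ℂ) * (f w : ℂ) *
      ∫ t : ℝ, Qk w t *
        Kf n ε η (((Real.pi / 4 : ℝ) : ℂ) + ((t : ℂ) - (τ : ℂ)) * Complex.I)‖ ≤
      M * (4 / Real.pi * Real.exp (n * ε * (Real.pi ^ 2 / 16) + n * |η| * (Real.pi / 4))) *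
        √(Real.pi / (n * ε)) := by
  have hpi := Real.pi_pos
  have h1 : ∑ w ∈ Finset.range (n + 1), (n.choose w : ℂ) * (f w : ℂ) *
      ∫ t : ℝ, Qk w t * Kf n ε η (((Real.pi / 4 : ℝ) : ℂ) + ((t : ℂ) - (τ : ℂ)) * Complex.I) =
      ∫ t : ℝ, ∑ w ∈ Finset.range (n + 1), (n.choose w : ℂ) * (f w : ℂ) *
        (Qk w t * Kf n ε η (((Real.pi / 4 : ℝ) : ℂ) + ((t : ℂ) - (τ : ℂ)) * Complex.I)) := by
    rw [integral_finsetSum]
    · refine Finset.sum_congr rfl fun w _ => ?_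
      rw [integral_const_mul]
    · intro w hw
      have hw' : w ≤ n := by
        have := Finset.mem_range.1 hw
        omega
      exact (hint w hw').const_mul _
  rw [h1]
  have h2 : ∀ t : ℝ, ‖∑ w ∈ Finset.range (n + 1), (n.choose w : ℂ) * (f w : ℂ) *
        (Qk w t * Kf n ε η (((Real.pi / 4 : ℝ) : ℂ) + ((t : ℂ) - (τ : ℂ)) * Complex.I))‖ ≤
      M * (4 / Real.pi * Real.exp (n * ε * (Real.pi ^ 2 / 16) + n * |η| * (Real.pi / 4))) *
        Real.exp (-(n * ε) * (t - τ) ^ 2) := by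
    intro t
    have h3 : ∑ w ∈ Finset.range (n + 1), (n.choose w : ℂ) * (f w : ℂ) *
        (Qk w t * Kf n ε η (((Real.pi / 4 : ℝ) : ℂ) + ((t : ℂ) - (τ : ℂ)) * Complex.I)) =
        (∑ w ∈ Finset.range (n + 1), (n.choose w : ℂ) * (f w : ℂ) * Qk w t) *
          Kf n ε η (((Real.pi / 4 : ℝ) : ℂ) + ((t : ℂ) - (τ : ℂ)) * Complex.I) := by
      rw [Finset.sum_mul]
      refine Finset.sum_congr rfl fun w _ => ?_
      ring
    rw [h3, norm_mul]
    calc _ ≤ M * (4 / Real.pi *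
          Real.exp (n * ε * (Real.pi ^ 2 / 16) + n * |η| * (Real.pi / 4)) *
          Real.exp (-(n * ε) * (t - τ) ^ 2)) :=
          mul_le_mul (hM t) (norm_Kf n ε η t τ) (norm_nonneg _) hM0
      _ = _ := by ring
  have hg : Integrable (fun t : ℝ =>
      M * (4 / Real.pi * Real.exp (n * ε * (Real.pi ^ 2 / 16) + n * |η| * (Real.pi / 4))) *
      Real.exp (-(n * ε) * (t - τ) ^ 2)) := (gauss_int hn τ).const_mul _
  have h3 := norm_integral_le_of_norm_le hg (Eventually.of_forall h2)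
  refine h3.trans ?_
  rw [integral_const_mul, gauss_val]

theorem alg_id (c σ X Y F : ℂ) :
    c * (X / (2 * Real.pi) + σ * (Y / (2 * Real.pi))) * F * (2 * Real.pi) =
      c * F * X + σ * (c * F * Y) := by
  have hp : (Real.pi : ℂ) ≠ 0 := by exact_mod_cast Real.pi_pos.ne'
  field_simp

theorem dual4 (hk : S_kra) (hdb : S4_db) (hli : S4_line) : S4_dual := by
  intro m ε hm hε
  have hpi := Real.pi_pos
  refine ⟨⌈Real.pi / ε⌉₊ + 1, fun n hn σ η τ f hσ => ?_⟩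
  have hn0 : 0 < n := by omega
  have hn1 : Real.pi / ε ≤ n := (Nat.le_ceil _).trans (by exact_mod_cast (by omega))
  have hnε : Real.pi ≤ n * ε := by rwa [div_le_iff₀ hε] at hn1
  have hnε0 : 0 < n * ε := by linarith
  have hNN : 0 ≤ NN n f := NN_nonneg n f
  have hc0 : (0 : ℝ) < Real.pi / 4 := by positivity
  obtain ⟨M, hMdef⟩ : ∃ M, M = Real.exp (n * mu4 m) * NN n f := ⟨_, rfl⟩
  have hM0 : 0 ≤ M := by rw [hMdef]; positivity
  -- the two lines
  have hl1 := line_bound n f ε η τ M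
    (fun w t => QJ m n w ((Real.pi / 4 : ℝ) + t * Complex.I)) hnε0 hM0
    (fun t => by rw [hMdef]; exact sum1 hk hdb m hm n f t)
    (fun w hw => (hli m n w ε η τ hm hn0 hw hε).1 (Real.pi / 4) hc0 le_rfl)
  have hl2 := line_bound n f ε (-η) (-τ) M
    (fun w t => QJ m n (n - w) ((Real.pi / 4 : ℝ) + t * Complex.I)) hnε0 hM0
    (fun t => by rw [hMdef]; exact sum2 hk hdb m hm n f t)
    (fun w hw => (hli m n (n - w) ε (-η) (-τ) hm hn0 (Nat.sub_le n w) hε).1 (Real.pi / 4) hc0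
      le_rfl)
  rw [abs_neg] at hl2
  have key : (∑ w ∈ Finset.range (n + 1), (n.choose w : ℂ) * v4 m n w σ ε η τ * (f w : ℂ)) *
      (2 * Real.pi) =
      (∑ w ∈ Finset.range (n + 1), (n.choose w : ℂ) * (f w : ℂ) *
        ∫ t : ℝ, QJ m n w ((Real.pi / 4 : ℝ) + t * Complex.I) *
          Kf n ε η (((Real.pi / 4 : ℝ) : ℂ) + ((t : ℂ) - (τ : ℂ)) * Complex.I)) +
      σ * ∑ w ∈ Finset.range (n + 1), (n.choose w : ℂ) * (f w : ℂ) *
        ∫ t : ℝ, QJ m n (n - w) ((Real.pi / 4 : ℝ) + t * Complex.I) *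
          Kf n ε (-η) (((Real.pi / 4 : ℝ) : ℂ) + ((t : ℂ) - ((-τ : ℝ) : ℂ)) * Complex.I) := by
    rw [Finset.sum_mul, Finset.mul_sum, ← Finset.sum_add_distrib]
    refine Finset.sum_congr rfl fun w _ => ?_
    exact alg_id _ _ _ _ _
  have hpiC : ‖(2 * Real.pi : ℂ)‖ = 2 * Real.pi := by
    rw [norm_mul, Complex.norm_real, Real.norm_eq_abs, abs_of_pos hpi]
    simp
  have h5 : √(Real.pi / (n * ε)) ≤ 1 := by
    rw [Real.sqrt_le_one]
    rwa [div_le_one hnε0]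
  have h7 : M * (4 / Real.pi * Real.exp (n * ε * (Real.pi ^ 2 / 16) + n * |η| * (Real.pi / 4))) *
        √(Real.pi / (n * ε)) ≤
      2 * (Real.exp (n * (mu4 m + ε + |η|)) * NN n f) := by
    have hpi4 := Real.pi_lt_four
    have hpi3 := Real.pi_gt_three
    have h8 : Real.exp (n * ε * (Real.pi ^ 2 / 16) + n * |η| * (Real.pi / 4)) ≤
        Real.exp (n * (ε + |η|)) := by
      apply Real.exp_le_exp.2
      have h9 : n * ε * (Real.pi ^ 2 / 16) ≤ n * ε * 1 := by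
        apply mul_le_mul_of_nonneg_left _ hnε0.le
        nlinarith
      have h10 : n * |η| * (Real.pi / 4) ≤ n * |η| * 1 := by
        apply mul_le_mul_of_nonneg_left _ (by positivity)
        linarith
      linarith
    have h11 : 4 / Real.pi ≤ 2 := by
      rw [div_le_iff₀ hpi]
      linarith
    calc M * (4 / Real.pi * Real.exp (n * ε * (Real.pi ^ 2 / 16) + n * |η| * (Real.pi / 4))) *
        √(Real.pi / (n * ε))
        ≤ M * (2 * Real.exp (n * (ε + |η|))) * 1 := by gcongr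
      _ = 2 * (Real.exp (n * (mu4 m + ε + |η|)) * NN n f) := by
        have h10 : Real.exp (n * (mu4 m + ε + |η|)) =
            Real.exp (n * mu4 m) * Real.exp (n * (ε + |η|)) := by
          rw [← Real.exp_add]
          congr 1
          ring
        rw [h10, hMdef]
        ring
  have h8 : ‖∑ w ∈ Finset.range (n + 1), (n.choose w : ℂ) * v4 m n w σ ε η τ * (f w : ℂ)‖ *
      (2 * Real.pi) ≤ 4 * (Real.exp (n * (mu4 m + ε + |η|)) * NN n f) := by
    rw [← hpiC, ← norm_mul, key]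
    refine (norm_add_le _ _).trans ?_
    rw [norm_mul, Complex.norm_real, Real.norm_eq_abs]
    have h12 := hl1.trans h7
    have h13 := hl2.trans h7
    have h14 : |σ| * ‖∑ w ∈ Finset.range (n + 1), (n.choose w : ℂ) * (f w : ℂ) *
        ∫ t : ℝ, QJ m n (n - w) ((Real.pi / 4 : ℝ) + t * Complex.I) *
          Kf n ε (-η) (((Real.pi / 4 : ℝ) : ℂ) + ((t : ℂ) - ((-τ : ℝ) : ℂ)) * Complex.I)‖ ≤
        1 * (2 * (Real.exp (n * (mu4 m + ε + |η|)) * NN n f)) :=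
      mul_le_mul hσ h13 (norm_nonneg _) zero_le_one
    linarith
  have h9 : 0 ≤ Real.exp (n * (mu4 m + ε + |η|)) * NN n f := by positivity
  have h10 := Real.pi_gt_three
  have h11 := norm_nonneg
    (∑ w ∈ Finset.range (n + 1), (n.choose w : ℂ) * v4 m n w σ ε η τ * (f w : ℂ))
  nlinarith

end Pool.Agent.TH41.BL.DU4f
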