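import Mathlib
import Pool.Agent.TH41.BL.Stm4

/-! EL1: derivatives of the complete elliptic integrals. -/

set_option autoImplicit false

open MeasureTheory Filter Topology

namespace Pool.Agent.TH41.BL.EL1f

open Pool.Agent.TH41.BL

lemma par {F F' : ℝ → ℝ → ℝ} {k0 r C : ℝ} (hr : |k0| < r)
    (hFc : ∀ k, |k| < r → Continuous (F k)) (hFc' : Continuous (F' k0))
    (hb : ∀ k, |k| < r → ∀ φ, |F' k φ| ≤ C)
    (hd : ∀ k, |k| < r → ∀ φ, HasDerivAt (fun k => F k φ) (F' k φ) k) :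
    HasDerivAt (fun k => ∫ φ in (0 : ℝ)..(Real.pi / 2), F k φ)
      (∫ φ in (0 : ℝ)..(Real.pi / 2), F' k0 φ) k0 := by
  have hs : {k : ℝ | |k| < r} ∈ 𝓝 k0 :=
    (isOpen_lt continuous_abs continuous_const).mem_nhds hr
  refine (intervalIntegral.hasDerivAt_integral_of_dominated_loc_of_deriv_le (bound := fun _ => C)
    hs ?_ ?_ ?_ ?_ ?_ ?_).2
  · filter_upwards [hs] with k hk
    exact (hFc k hk).aestronglyMeasurable
  · exact (hFc k0 hr).intervalIntegrable _ _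
  · exact hFc'.aestronglyMeasurable
  · exact Eventually.of_forall fun φ _ k hk => hb k hk φ
  · exact intervalIntegrable_const
  · exact Eventually.of_forall fun φ _ k hk => hd k hk φ

lemma ge_r {k r : ℝ} (hk : |k| < r) (φ : ℝ) : 1 - r ^ 2 ≤ 1 - k ^ 2 * Real.sin φ ^ 2 := by
  have h1 : Real.sin φ ^ 2 ≤ 1 := Real.sin_sq_le_one φ
  have h2 : k ^ 2 ≤ r ^ 2 := by
    rw [← sq_abs k]
    exact pow_le_pow_left₀ (abs_nonneg k) hk.le 2
  nlinarith [sq_nonneg k, sq_nonneg (Real.sin φ)]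

lemma pos_of {k : ℝ} (hk : |k| < 1) (φ : ℝ) : 0 < 1 - k ^ 2 * Real.sin φ ^ 2 := by
  have h1 : Real.sin φ ^ 2 ≤ 1 := Real.sin_sq_le_one φ
  have h2 : k ^ 2 < 1 := by
    rw [← sq_abs k]
    nlinarith [abs_nonneg k]
  nlinarith [sq_nonneg k, sq_nonneg (Real.sin φ)]

lemma cont_D (k : ℝ) : Continuous (fun φ : ℝ => √(1 - k ^ 2 * Real.sin φ ^ 2)) := by
  fun_prop

lemma D_ne {k : ℝ} (hk : |k| < 1) (φ : ℝ) : √(1 - k ^ 2 * Real.sin φ ^ 2) ≠ 0 :=
  (Real.sqrt_pos.2 (pos_of hk φ)).ne'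

lemma der_D {k : ℝ} (hk : |k| < 1) (φ : ℝ) :
    HasDerivAt (fun k : ℝ => √(1 - k ^ 2 * Real.sin φ ^ 2))
      (-(k * Real.sin φ ^ 2) / √(1 - k ^ 2 * Real.sin φ ^ 2)) k := by
  have h1 : HasDerivAt (fun k : ℝ => 1 - k ^ 2 * Real.sin φ ^ 2)
      (-(2 * k * Real.sin φ ^ 2)) k := by
    have := ((hasDerivAt_pow 2 k).mul_const (Real.sin φ ^ 2)).const_sub 1
    refine this.congr_deriv ?_
    push_cast
    ring
  have h2 := h1.sqrt (pos_of hk φ).ne'
  refine h2.congr_deriv ?_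
  have := D_ne hk φ
  field_simp

lemma dE {k0 : ℝ} (hk0 : |k0| < 1) :
    HasDerivAt Ec (∫ φ in (0 : ℝ)..(Real.pi / 2),
      -(k0 * Real.sin φ ^ 2) / √(1 - k0 ^ 2 * Real.sin φ ^ 2)) k0 := by
  obtain ⟨r, hr1, hr2⟩ := exists_between hk0
  have hr0 : 0 ≤ r := (abs_nonneg k0).trans hr1.le
  have hr3 : 0 < 1 - r ^ 2 := by nlinarith
  refine par (F := fun k φ => √(1 - k ^ 2 * Real.sin φ ^ 2))
    (F' := fun k φ => -(k * Real.sin φ ^ 2) / √(1 - k ^ 2 * Real.sin φ ^ 2))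
    (C := 1 / √(1 - r ^ 2)) hr1 (fun k _ => cont_D k) ?_ ?_ ?_
  · exact (by fun_prop : Continuous fun φ : ℝ => -(k0 * Real.sin φ ^ 2)).div (cont_D k0)
      (D_ne hk0)
  · intro k hk φ
    have hk1 : |k| < 1 := hk.trans hr2
    rw [abs_div, abs_neg, abs_of_pos (Real.sqrt_pos.2 (pos_of hk1 φ))]
    apply div_le_div₀ zero_le_one _ (Real.sqrt_pos.2 hr3) (Real.sqrt_le_sqrt (ge_r hk φ))
    rw [abs_mul, abs_of_nonneg (sq_nonneg (Real.sin φ))]
    exact mul_le_one₀ hk1.le (sq_nonneg _) (Real.sin_sq_le_one φ)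
  · intro k hk φ
    exact der_D (hk.trans hr2) φ

lemma dK {k0 : ℝ} (hk0 : |k0| < 1) :
    HasDerivAt Kc (∫ φ in (0 : ℝ)..(Real.pi / 2),
      (k0 * Real.sin φ ^ 2) / √(1 - k0 ^ 2 * Real.sin φ ^ 2) ^ 3) k0 := by
  obtain ⟨r, hr1, hr2⟩ := exists_between hk0
  have hr0 : 0 ≤ r := (abs_nonneg k0).trans hr1.le
  have hr3 : 0 < 1 - r ^ 2 := by nlinarith
  refine par (F := fun k φ => 1 / √(1 - k ^ 2 * Real.sin φ ^ 2))
    (F' := fun k φ => (k * Real.sin φ ^ 2) / √(1 - k ^ 2 * Real.sin φ ^ 2) ^ 3)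
    (C := 1 / √(1 - r ^ 2) ^ 3) hr1 (fun k hk => continuous_const.div (cont_D k)
      (D_ne (hk.trans hr2))) ?_ ?_ ?_
  · exact (by fun_prop : Continuous fun φ : ℝ => (k0 * Real.sin φ ^ 2)).div ((cont_D k0).pow 3)
      (fun φ => pow_ne_zero 3 (D_ne hk0 φ))
  · intro k hk φ
    have hk1 : |k| < 1 := hk.trans hr2
    rw [abs_div, abs_of_pos (pow_pos (Real.sqrt_pos.2 (pos_of hk1 φ)) 3)]
    apply div_le_div₀ zero_le_one _ (pow_pos (Real.sqrt_pos.2 hr3) 3)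
      (pow_le_pow_left₀ (Real.sqrt_nonneg _) (Real.sqrt_le_sqrt (ge_r hk φ)) 3)
    rw [abs_mul, abs_of_nonneg (sq_nonneg (Real.sin φ))]
    exact mul_le_one₀ hk1.le (sq_nonneg _) (Real.sin_sq_le_one φ)
  · intro k hk φ
    have hk1 := hk.trans hr2
    have h1 := (der_D hk1 φ).inv (D_ne hk1 φ)
    have h2 : (fun k : ℝ => 1 / √(1 - k ^ 2 * Real.sin φ ^ 2)) =
        (fun k : ℝ => √(1 - k ^ 2 * Real.sin φ ^ 2))⁻¹ := by
      funext k
      rw [Pi.inv_apply, one_div]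
    rw [h2]
    refine h1.congr_deriv ?_
    have := D_ne hk1 φ
    field_simp

/-- the total derivative -/
lemma der_G {k : ℝ} (hk : |k| < 1) (φ : ℝ) :
    HasDerivAt (fun φ : ℝ => k ^ 2 * (Real.sin φ * Real.cos φ) / √(1 - k ^ 2 * Real.sin φ ^ 2))
      (√(1 - k ^ 2 * Real.sin φ ^ 2) - (1 - k ^ 2) * (1 / √(1 - k ^ 2 * Real.sin φ ^ 2) ^ 3)) φ := by
  have h0 := D_ne hk φ
  have h1 : HasDerivAt (fun φ : ℝ => 1 - k ^ 2 * Real.sin φ ^ 2)
      (-(k ^ 2 * (2 * Real.sin φ * Real.cos φ))) φ := by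
    have := (((Real.hasDerivAt_sin φ).pow 2).const_mul (k ^ 2)).const_sub 1
    refine HasDerivAt.congr_deriv this ?_
    push_cast
    ring
  have h2 := h1.sqrt (pos_of hk φ).ne'
  have h3 : HasDerivAt (fun φ : ℝ => k ^ 2 * (Real.sin φ * Real.cos φ))
      (k ^ 2 * (Real.cos φ * Real.cos φ + Real.sin φ * -Real.sin φ)) φ :=
    ((Real.hasDerivAt_sin φ).mul (Real.hasDerivAt_cos φ)).const_mul _
  have h4 := h3.div h2 h0
  refine HasDerivAt.congr_deriv h4 ?_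
  have hsq : √(1 - k ^ 2 * Real.sin φ ^ 2) ^ 2 = 1 - k ^ 2 * Real.sin φ ^ 2 :=
    Real.sq_sqrt (pos_of hk φ).le
  have hc : Real.cos φ ^ 2 = 1 - Real.sin φ ^ 2 := Real.cos_sq' φ
  generalize √(1 - k ^ 2 * Real.sin φ ^ 2) = D at *
  generalize Real.sin φ = s at *
  generalize Real.cos φ = c at *
  have e2 : D ^ 4 = (1 - k ^ 2 * s ^ 2) ^ 2 := by rw [← hsq]; ring
  field_simp
  ring_nf
  linear_combination (k ^ 2 * (c ^ 2 - s ^ 2)) * hsq +
    (k ^ 2 * (1 - k ^ 2 * s ^ 2) + k ^ 4 * s ^ 2) * hc - e2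

lemma int_D (k : ℝ) : IntervalIntegrable (fun φ : ℝ => √(1 - k ^ 2 * Real.sin φ ^ 2)) volume 0
    (Real.pi / 2) := (cont_D k).intervalIntegrable _ _

lemma cont_inv {k : ℝ} (hk : |k| < 1) :
    Continuous (fun φ : ℝ => 1 / √(1 - k ^ 2 * Real.sin φ ^ 2)) :=
  continuous_const.div (cont_D k) (D_ne hk)

lemma cont_inv3 {k : ℝ} (hk : |k| < 1) :
    Continuous (fun φ : ℝ => 1 / √(1 - k ^ 2 * Real.sin φ ^ 2) ^ 3) :=
  continuous_const.div ((cont_D k).pow 3) (fun φ => pow_ne_zero 3 (D_ne hk φ))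

/-- the integral of the inverse cube -/
lemma int3 {k : ℝ} (hk : |k| < 1) :
    Ec k = (1 - k ^ 2) * ∫ φ in (0 : ℝ)..(Real.pi / 2), 1 / √(1 - k ^ 2 * Real.sin φ ^ 2) ^ 3 := by
  have h1 := intervalIntegral.integral_eq_sub_of_hasDerivAt (a := 0) (b := Real.pi / 2)
    (f := fun φ : ℝ => k ^ 2 * (Real.sin φ * Real.cos φ) / √(1 - k ^ 2 * Real.sin φ ^ 2))
    (f' := fun φ : ℝ => √(1 - k ^ 2 * Real.sin φ ^ 2) -
      (1 - k ^ 2) * (1 / √(1 - k ^ 2 * Real.sin φ ^ 2) ^ 3))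
    (fun φ _ => der_G hk φ)
    (((cont_D k).sub (continuous_const.mul (cont_inv3 hk))).intervalIntegrable _ _)
  have hi : IntervalIntegrable (fun φ : ℝ => (1 - k ^ 2) *
      (1 / √(1 - k ^ 2 * Real.sin φ ^ 2) ^ 3)) volume 0 (Real.pi / 2) :=
    (continuous_const.mul (cont_inv3 hk)).intervalIntegrable _ _
  rw [intervalIntegral.integral_sub (int_D k) hi, intervalIntegral.integral_const_mul] at h1
  simp only [Real.cos_pi_div_two, Real.sin_zero, mul_zero, zero_mul, zero_div, sub_self] at h1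
  unfold Ec
  linarith

theorem kd : S5_kd := by
  refine ⟨fun k hk0 hk1 => ?_, ?_, ?_, ?_, ?_⟩
  · have hk : |k| < 1 := by rw [abs_of_pos hk0]; exact hk1
    have h1 : 0 < 1 - k ^ 2 := by nlinarith
    constructor
    · refine (dE hk).congr_deriv ?_
      rw [eq_div_iff hk0.ne', ← intervalIntegral.integral_mul_const]
      unfold Ec Kc
      rw [← intervalIntegral.integral_sub (int_D k) ((cont_inv hk).intervalIntegrable _ _)]
      refine intervalIntegral.integral_congr fun φ _ => ?_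
      have h2 := D_ne hk φ
      have hsq : √(1 - k ^ 2 * Real.sin φ ^ 2) ^ 2 = 1 - k ^ 2 * Real.sin φ ^ 2 :=
        Real.sq_sqrt (pos_of hk φ).le
      generalize √(1 - k ^ 2 * Real.sin φ ^ 2) = D at *
      field_simp
      linear_combination -hsq
    · refine (dK hk).congr_deriv ?_
      have h3 := int3 hk
      have h4 : (∫ φ in (0 : ℝ)..(Real.pi / 2),
          (k * Real.sin φ ^ 2) / √(1 - k ^ 2 * Real.sin φ ^ 2) ^ 3) * k =
          (∫ φ in (0 : ℝ)..(Real.pi / 2), 1 / √(1 - k ^ 2 * Real.sin φ ^ 2) ^ 3) - Kc k := by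
        rw [← intervalIntegral.integral_mul_const]
        unfold Kc
        rw [← intervalIntegral.integral_sub ((cont_inv3 hk).intervalIntegrable _ _)
          ((cont_inv hk).intervalIntegrable _ _)]
        refine intervalIntegral.integral_congr fun φ _ => ?_
        have h2 := D_ne hk φ
        have hsq : √(1 - k ^ 2 * Real.sin φ ^ 2) ^ 2 = 1 - k ^ 2 * Real.sin φ ^ 2 :=
          Real.sq_sqrt (pos_of hk φ).le
        generalize √(1 - k ^ 2 * Real.sin φ ^ 2) = D at *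
        field_simp
        linear_combination hsq
      rw [eq_div_iff (mul_ne_zero hk0.ne' h1.ne'), ← mul_assoc, h4, h3]
      ring
  · intro k hk
    exact (dE (by rw [abs_of_nonneg hk.1]; exact hk.2)).continuousAt.continuousWithinAt
  · intro k hk
    exact (dK (by rw [abs_of_nonneg hk.1]; exact hk.2)).continuousAt.continuousWithinAt
  · unfold Ec
    simp
  · unfold Kc
    simp

end Pool.Agent.TH41.BL.EL1f
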