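import Mathlib
import Pool.Agent.TH41.BL.Stm4

/-!
# The two elementary integrals (BL4-EL3)
-/

set_option autoImplicit false

open MeasureTheory Filter Topology

namespace Pool.Agent.TH41.BL.EL3f

open Pool.Agent.TH41.BL

/-- the parameter -/
noncomputable def mk (k : ℝ) : ℝ := k ^ 2 / (1 - k ^ 2)

lemma one_sub_pos {k : ℝ} (h0 : 0 ≤ k) (h1 : k < 1) : 0 < 1 - k ^ 2 := by nlinarith

lemma mk_nonneg {k : ℝ} (h0 : 0 ≤ k) (h1 : k < 1) : 0 ≤ mk k :=
  div_nonneg (sq_nonneg k) (one_sub_pos h0 h1).le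

lemma mk_pos {k : ℝ} (h0 : 0 < k) (h1 : k < 1) : 0 < mk k :=
  div_pos (by positivity) (one_sub_pos h0.le h1)

lemma mk_deriv {k : ℝ} (h0 : 0 ≤ k) (h1 : k < 1) :
    HasDerivAt mk (2 * k / (1 - k ^ 2) ^ 2) k := by
  have hp := one_sub_pos h0 h1
  have h2 : HasDerivAt (fun x : ℝ => x ^ 2) (2 * k) k := by
    simpa using hasDerivAt_pow 2 k
  have h3 : HasDerivAt (fun x : ℝ => 1 - x ^ 2) (-(2 * k)) k := by
    simpa using h2.const_sub 1
  refine (h2.div h3 hp.ne').congr_deriv ?_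
  field_simp
  ring

lemma mk_mono {x k : ℝ} (hx : 0 ≤ x) (hxk : x ≤ k) (h1 : k < 1) : mk x ≤ mk k := by
  have hp := one_sub_pos hx (hxk.trans_lt h1)
  have hp' := one_sub_pos (hx.trans hxk) h1
  unfold mk
  rw [div_le_div_iff₀ hp hp']
  nlinarith [mul_self_le_mul_self hx hxk]

/-- The comparison. -/
lemma main {f G : ℝ → ℝ} (h1 : ∀ M : ℝ, 0 < M → IntervalIntegrable f volume 0 M)
    (h2 : ContinuousOn f (Set.Ioi 0)) (h3 : ContinuousOn G (Set.Ico 0 1)) (h4 : G 0 = 0)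
    (h5 : ∀ k : ℝ, 0 < k → k < 1 → HasDerivAt G (f (mk k) * (2 * k / (1 - k ^ 2) ^ 2)) k)
    {k : ℝ} (hk0 : 0 < k) (hk1 : k < 1) : ∫ y in (0 : ℝ)..(mk k), f y = G k := by
  obtain ⟨D, hD⟩ : ∃ D : ℝ → ℝ, D = fun x => (∫ y in (0 : ℝ)..(mk x), f y) - G x := ⟨_, rfl⟩
  have hmk := mk_pos hk0 hk1
  have hc1 : ContinuousOn (fun M => ∫ y in (0 : ℝ)..M, f y) (Set.uIcc 0 (mk k)) :=
    intervalIntegral.continuousOn_primitive_interval
      ((intervalIntegrable_iff_integrableOn_Icc_of_le hmk.le).1 (h1 _ hmk) |>.congr_set_ae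
        (by rw [Set.uIcc_of_le hmk.le]))
  have hc : ContinuousOn D (Set.Icc 0 k) := by
    rw [hD]
    refine ContinuousOn.sub ?_ (h3.mono fun x hx => ⟨hx.1, hx.2.trans_lt hk1⟩)
    refine hc1.comp (t := Set.uIcc 0 (mk k)) ?_ ?_
    · intro x hx
      exact (mk_deriv hx.1 (hx.2.trans_lt hk1)).continuousAt.continuousWithinAt
    · intro x hx
      rw [Set.uIcc_of_le hmk.le]
      exact ⟨mk_nonneg hx.1 (hx.2.trans_lt hk1), mk_mono hx.1 hx.2 hk1⟩
  have hd : ∀ x ∈ Set.Ioo 0 k, HasDerivAt D 0 x := by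
    intro x hx
    have hx1 : x < 1 := hx.2.trans hk1
    have hmx := mk_pos hx.1 hx1
    have e1 : HasDerivAt (fun M => ∫ y in (0 : ℝ)..M, f y) (f (mk x)) (mk x) :=
      intervalIntegral.integral_hasDerivAt_right (h1 _ hmx)
        (h2.stronglyMeasurableAtFilter isOpen_Ioi (mk x) hmx)
        (h2.continuousAt (Ioi_mem_nhds hmx))
    have e2 := e1.comp x (mk_deriv hx.1.le hx1)
    have e3 := e2.sub (h5 x hx.1 hx1)
    rw [hD]
    refine e3.congr_deriv ?_
    ring
  obtain ⟨c, -, hc'⟩ := exists_hasDerivAt_eq_slope D (fun _ => 0) hk0 hc hd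
  have h0 : D 0 = 0 := by
    rw [hD]
    simp [mk, h4]
  rw [h0, sub_zero, sub_zero] at hc'
  have h6 : D k = 0 := by
    rcases div_eq_zero_iff.1 hc'.symm with h | h
    · exact h
    · exact absurd h hk0.ne'
  rw [hD] at h6
  simp only at h6
  linarith

lemma one_add_mk {k : ℝ} (h0 : 0 ≤ k) (h1 : k < 1) : 1 + mk k = 1 / (1 - k ^ 2) := by
  have hp := one_sub_pos h0 h1
  unfold mk
  field_simp
  ring

theorem ela (hw : S3_w) (hd : S5_kd) (hn : S5_wn) : S5_a := by
  intro k hk0 hk1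
  obtain ⟨w1, w2, -⟩ := hw
  obtain ⟨d1, d2, d3, d4, d5⟩ := hd
  have hpi := Real.pi_pos
  have hcont : ContinuousOn (fun y : ℝ => WN y / √(1 + y * Real.cosh 0 ^ 2)) (Set.Ici 0) := by
    refine w1.div (Continuous.continuousOn (by fun_prop)) fun y hy => ?_
    have hy' : (0 : ℝ) ≤ y := hy
    rw [Real.cosh_zero, one_pow, mul_one]
    positivity
  have key := main (f := fun y => WN y / √(1 + y * Real.cosh 0 ^ 2))
    (G := fun x => 1 / 2 - Ec x / Real.pi) ?_ (hcont.mono Set.Ioi_subset_Ici_self) ?_ ?_ ?_ hk0 hk1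
  · exact key
  · intro M hM
    exact ContinuousOn.intervalIntegrable_of_Icc hM.le
      (hcont.mono fun y hy => hy.1)
  · exact continuousOn_const.sub (d2.div_const _)
  · simp only [d4]
    field_simp
    norm_num
  · intro x hx0 hx1
    have hp := one_sub_pos hx0.le hx1
    have h1 := ((d1 x hx0 hx1).1.div_const Real.pi).const_sub (1 / 2)
    refine h1.congr_deriv ?_
    rw [Real.cosh_zero, one_pow, mul_one, one_add_mk hx0.le hx1]
    have h2 : WN (mk x) = 1 / (2 * Real.pi) * √(1 - x ^ 2) ^ 3 * (Kc x - Ec x) / x ^ 2 :=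
      hn x hx0 hx1
    rw [h2]
    obtain ⟨r, hr⟩ : ∃ r, r = √(1 - x ^ 2) := ⟨_, rfl⟩
    have hr0 : 0 < r := by rw [hr]; exact Real.sqrt_pos.2 hp
    have hr2 : 1 - x ^ 2 = r ^ 2 := by rw [hr, Real.sq_sqrt hp.le]
    rw [Real.sqrt_div zero_le_one, Real.sqrt_one, ← hr, hr2]
    field_simp
    ring

theorem elb (hw : S3_w) (hd : S5_kd) (hn : S5_wn) : S5_b := by
  intro k hk0 hk1
  obtain ⟨w1, w2, -⟩ := hw
  obtain ⟨d1, d2, d3, d4, d5⟩ := hd
  have hpi := Real.pi_pos
  -- the numerator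
  obtain ⟨N, hN⟩ : ∃ N : ℝ → ℝ, N = fun x => Ec x - (1 - x ^ 2) * Kc x := ⟨_, rfl⟩
  have hNd : ∀ x : ℝ, 0 < x → x < 1 → HasDerivAt N (x * Kc x) x := by
    intro x hx0 hx1
    have hp := one_sub_pos hx0.le hx1
    have h2 : HasDerivAt (fun x : ℝ => x ^ 2) (2 * x) x := by
      simpa using hasDerivAt_pow 2 x
    have h3 : HasDerivAt (fun x : ℝ => 1 - x ^ 2) (-(2 * x)) x := by
      simpa using h2.const_sub 1
    rw [hN]
    refine ((d1 x hx0 hx1).1.sub (h3.mul (d1 x hx0 hx1).2)).congr_deriv ?_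
    field_simp
    ring
  have hNc : ContinuousOn N (Set.Ico 0 1) := by
    rw [hN]
    exact d2.sub ((Continuous.continuousOn (by fun_prop)).mul d3)
  have hN0 : N 0 = 0 := by
    rw [hN]
    simp [d4, d5]
  have hbd : ∀ x : ℝ, 0 < x → x < 1 → ∃ c : ℝ, 0 < c ∧ c < x ∧ N x = x * (c * Kc c) := by
    intro x hx0 hx1
    obtain ⟨c, hc1, hc2⟩ := exists_hasDerivAt_eq_slope N (fun y => y * Kc y) hx0
      (hNc.mono fun y hy => ⟨hy.1, hy.2.trans_lt hx1⟩)
      (fun y hy => hNd y hy.1 (hy.2.trans hx1))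
    refine ⟨c, hc1.1, hc1.2, ?_⟩
    rw [hN0, sub_zero, sub_zero, eq_div_iff hx0.ne'] at hc2
    linarith
  have key := main (f := fun y => WN y / √y)
    (G := fun x => N x / (Real.pi * x)) ?_ ?_ ?_ ?_ ?_ hk0 hk1
  · unfold THR
    rw [← mul_assoc, ← intervalIntegral.integral_const_mul]
    rw [hN] at key
    simp only at key
    rw [← key]
    refine intervalIntegral.integral_congr fun y _ => ?_
    simp only [add_zero, Real.sqrt_one, sub_zero]
    ring
  · intro M hM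
    have h1 : IntervalIntegrable (fun y : ℝ => y ^ (-(1 / 2) : ℝ)) volume 0 M :=
      intervalIntegral.intervalIntegrable_rpow' (by norm_num)
    rw [intervalIntegrable_iff_integrableOn_Ioc_of_le hM.le] at h1 ⊢
    refine Integrable.mono' (h1.const_mul (1 / 8)) ?_ ?_
    · refine ContinuousOn.aestronglyMeasurable ?_ measurableSet_Ioc
      refine (w1.mono fun y hy => hy.1.le).div (Continuous.continuousOn (by fun_prop)) fun y hy => ?_
      exact (Real.sqrt_pos.2 hy.1).ne'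
    · rw [ae_restrict_iff' measurableSet_Ioc]
      refine Eventually.of_forall fun y hy => ?_
      have h2 := w2 y hy.1.le
      have h3 : y ^ (-(1 / 2) : ℝ) = (√y)⁻¹ := by
        rw [Real.rpow_neg hy.1.le, Real.sqrt_eq_rpow]
      rw [h3, Real.norm_eq_abs, abs_of_nonneg (div_nonneg h2.1.le (Real.sqrt_nonneg y)),
        div_eq_mul_inv]
      exact mul_le_mul_of_nonneg_right h2.2 (inv_nonneg.2 (Real.sqrt_nonneg y))
  · refine (w1.mono Set.Ioi_subset_Ici_self).div
      (Continuous.continuousOn Real.continuous_sqrt) fun y hy => ?_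
    exact (Real.sqrt_pos.2 hy).ne'
  · intro x hx
    rcases eq_or_lt_of_le hx.1 with h | h
    · subst h
      -- continuity at zero
      have hK : ∃ B : ℝ, ∀ c ∈ Set.Icc (0 : ℝ) (1 / 2), ‖Kc c‖ ≤ B :=
        isCompact_Icc.exists_bound_of_continuousOn
          (d3.mono fun y hy => ⟨hy.1, hy.2.trans_lt (by norm_num)⟩)
      obtain ⟨B, hB⟩ := hK
      have hB0 : 0 ≤ B := (norm_nonneg _).trans (hB 0 ⟨le_rfl, by norm_num⟩)
      have h1 : ∀ x : ℝ, 0 ≤ x → x < 1 / 2 → ‖N x / (Real.pi * x)‖ ≤ x * B := by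
        intro x hx0 hx1
        rcases eq_or_lt_of_le hx0 with h | h
        · rw [← h]; simp
        · obtain ⟨c, hc0, hcx, hc⟩ := hbd x h (by linarith)
          rw [hc]
          have h2 : x * (c * Kc c) / (Real.pi * x) = c * Kc c / Real.pi := by
            field_simp
          rw [h2, norm_div, norm_mul, Real.norm_of_nonneg hc0.le, Real.norm_of_nonneg hpi.le]
          have h3 := hB c ⟨hc0.le, by linarith⟩
          have h4 : (1 : ℝ) ≤ Real.pi := by linarith [Real.pi_gt_three]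
          calc c * ‖Kc c‖ / Real.pi ≤ c * ‖Kc c‖ := div_le_self (by positivity) h4
            _ ≤ x * B := mul_le_mul hcx.le h3 (norm_nonneg _) hx0
      have h0 : N 0 / (Real.pi * 0) = 0 := by simp
      rw [ContinuousWithinAt, h0]
      refine squeeze_zero_norm' (a := fun x => x * B) ?_ ?_
      · have h2 : Set.Iio (1 / 2 : ℝ) ∈ 𝓝[Set.Ico 0 1] (0 : ℝ) :=
          mem_nhdsWithin_of_mem_nhds (Iio_mem_nhds (by norm_num))
        filter_upwards [h2, self_mem_nhdsWithin] with x hx1 hx2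
        exact h1 x hx2.1 hx1
      · have h2 : Tendsto (fun x : ℝ => x * B) (𝓝 0) (𝓝 (0 * B)) :=
          (continuous_id.mul continuous_const).tendsto 0
        rw [zero_mul] at h2
        exact h2.mono_left nhdsWithin_le_nhds
    · exact (((hNd x h hx.2).continuousAt).div (by fun_prop)
        (by positivity)).continuousWithinAt
  · simp
  · intro x hx0 hx1
    have hp := one_sub_pos hx0.le hx1
    have h1 : HasDerivAt (fun x : ℝ => Real.pi * x) Real.pi x := by
      simpa using (hasDerivAt_id x).const_mul Real.pi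
    refine ((hNd x hx0 hx1).div h1 (by positivity)).congr_deriv ?_
    have h2 : WN (mk x) = 1 / (2 * Real.pi) * √(1 - x ^ 2) ^ 3 * (Kc x - Ec x) / x ^ 2 :=
      hn x hx0 hx1
    rw [h2]
    obtain ⟨r, hr⟩ : ∃ r, r = √(1 - x ^ 2) := ⟨_, rfl⟩
    have hr0 : 0 < r := by rw [hr]; exact Real.sqrt_pos.2 hp
    have hr2 : 1 - x ^ 2 = r ^ 2 := by rw [hr, Real.sq_sqrt hp.le]
    have hm : √(mk x) = x / r := by
      unfold mk
      rw [Real.sqrt_div (sq_nonneg x), Real.sqrt_sq hx0.le, ← hr]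
    rw [hm, ← hr, hr2, hN]
    simp only
    rw [hr2]
    have hx2 : x ^ 2 = 1 - r ^ 2 := by linarith
    field_simp
    rw [hx2]
    ring

end Pool.Agent.TH41.BL.EL3f
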