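import Mathlib
import Pool.Agent.TH41.BL.Stm4

/-!
Project BL4 (helper41, MP_0430e4_lc), piece EL5: the exponent in closed form.
-/

set_option autoImplicit false

open MeasureTheory Filter Topology

namespace Pool.Agent.TH41.BL.EL5f

open Pool.Agent.TH41.BL

/-- the inner integral in the variable `θ`, `sinh x = tan θ` -/
theorem inner_theta (y : ℝ) (hy : 0 < y) :
    ∫⁻ x in Set.Ioi (0 : ℝ), ENNReal.ofReal (1 / √(1 + y * Real.cosh x ^ 2)) =
      ∫⁻ θ in Set.Ioo (0 : ℝ) (Real.pi / 2), ENNReal.ofReal (1 / √(y + Real.cos θ ^ 2)) := by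
  have himg : (fun θ => Real.arsinh (Real.tan θ)) '' Set.Ioo (0 : ℝ) (Real.pi / 2) =
      Set.Ioi 0 := by
    ext x
    constructor
    · rintro ⟨θ, hθ, rfl⟩
      exact Real.arsinh_pos_iff.2 (Real.tan_pos_of_pos_of_lt_pi_div_two hθ.1 hθ.2)
    · intro hx
      have hs : 0 < Real.sinh x := Real.sinh_pos_iff.2 hx
      refine ⟨Real.arctan (Real.sinh x), ⟨Real.arctan_pos.2 hs, Real.arctan_lt_pi_div_two _⟩, ?_⟩
      simp only
      rw [Real.tan_arctan, Real.arsinh_sinh]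
  have hcos : ∀ θ ∈ Set.Ioo (0 : ℝ) (Real.pi / 2), 0 < Real.cos θ := fun θ hθ =>
    Real.cos_pos_of_mem_Ioo ⟨by linarith [hθ.1, Real.pi_pos], hθ.2⟩
  have hinj : Set.InjOn (fun θ => Real.arsinh (Real.tan θ)) (Set.Ioo (0 : ℝ) (Real.pi / 2)) := by
    intro a ha b hb hab
    have h1 : Real.tan a = Real.tan b := Real.arsinh_injective hab
    exact Real.injOn_tan ⟨by linarith [ha.1, Real.pi_pos], ha.2⟩
      ⟨by linarith [hb.1, Real.pi_pos], hb.2⟩ h1
  have hder : ∀ θ ∈ Set.Ioo (0 : ℝ) (Real.pi / 2),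
      HasDerivWithinAt (fun θ => Real.arsinh (Real.tan θ)) (1 / Real.cos θ)
        (Set.Ioo (0 : ℝ) (Real.pi / 2)) θ := by
    intro θ hθ
    have hc := hcos θ hθ
    have h1 := Real.hasDerivAt_tan hc.ne'
    have h2 := (Real.hasDerivAt_arsinh (Real.tan θ)).comp θ h1
    refine (h2.congr_deriv ?_).hasDerivWithinAt
    have h3 : √(1 + Real.tan θ ^ 2) = 1 / Real.cos θ := by
      rw [Real.sqrt_eq_iff_mul_self_eq (by positivity) (by positivity), Real.tan_eq_sin_div_cos]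
      have := Real.sin_sq_add_cos_sq θ
      field_simp
      linarith
    rw [h3]
    field_simp
  rw [← himg, lintegral_image_eq_lintegral_abs_deriv_mul measurableSet_Ioo hder hinj]
  refine setLIntegral_congr_fun measurableSet_Ioo fun θ hθ => ?_
  have hc := hcos θ hθ
  rw [← ENNReal.ofReal_mul (abs_nonneg _)]
  congr 1
  rw [abs_of_pos (by positivity), Real.cosh_arsinh, Real.sq_sqrt (by positivity)]
  have h3 : 1 + y * (1 + Real.tan θ ^ 2) = (y + Real.cos θ ^ 2) / Real.cos θ ^ 2 := by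
    rw [Real.tan_eq_sin_div_cos]
    have := Real.sin_sq_add_cos_sq θ
    field_simp
    linear_combination y * this
  rw [h3, Real.sqrt_div (by positivity), Real.sqrt_sq hc.le]
  have h4 : 0 < √(y + Real.cos θ ^ 2) := Real.sqrt_pos.2 (by positivity)
  field_simp

/-- the inner integral -/
theorem inner (t : ℝ) (h0 : 0 < t) (h1 : t < 1) :
    ∫⁻ x in Set.Ioi (0 : ℝ), ENNReal.ofReal (1 / √(1 + t ^ 2 / (1 - t ^ 2) * Real.cosh x ^ 2)) =
      ENNReal.ofReal (√(1 - t ^ 2) * Kc (√(1 - t ^ 2))) := by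
  have ht : 0 < 1 - t ^ 2 := by nlinarith
  have hy : 0 < t ^ 2 / (1 - t ^ 2) := by positivity
  rw [inner_theta _ hy]
  have hpos : ∀ θ : ℝ, 0 < 1 - (1 - t ^ 2) * Real.sin θ ^ 2 := by
    intro θ
    nlinarith [Real.sin_sq_add_cos_sq θ, sq_nonneg (Real.cos θ), sq_nonneg (Real.sin θ),
      mul_pos h0 h0, mul_nonneg ht.le (sq_nonneg (Real.cos θ))]
  have hcont : Continuous fun θ : ℝ =>
      √(1 - t ^ 2) * (1 / √(1 - √(1 - t ^ 2) ^ 2 * Real.sin θ ^ 2)) := by
    refine continuous_const.mul (continuous_const.div ?_ ?_)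
    · fun_prop
    · intro θ
      rw [Real.sq_sqrt ht.le]
      exact (Real.sqrt_pos.2 (hpos θ)).ne'
  have hK : √(1 - t ^ 2) * Kc (√(1 - t ^ 2)) = ∫ θ in Set.Ioo (0 : ℝ) (Real.pi / 2),
      √(1 - t ^ 2) * (1 / √(1 - √(1 - t ^ 2) ^ 2 * Real.sin θ ^ 2)) := by
    unfold Kc
    rw [← intervalIntegral.integral_const_mul,
      intervalIntegral.integral_of_le (by positivity), integral_Ioc_eq_integral_Ioo]
  rw [hK, ofReal_integral_eq_lintegral_ofReal]
  · refine setLIntegral_congr_fun measurableSet_Ioo fun θ hθ => ?_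
    congr 1
    rw [Real.sq_sqrt ht.le]
    have h3 : t ^ 2 / (1 - t ^ 2) + Real.cos θ ^ 2 =
        (1 - (1 - t ^ 2) * Real.sin θ ^ 2) / (1 - t ^ 2) := by
      have := Real.sin_sq_add_cos_sq θ
      field_simp
      linear_combination (1 - t ^ 2) * this
    rw [h3, Real.sqrt_div (hpos θ).le]
    have h4 : 0 < √(1 - t ^ 2) := Real.sqrt_pos.2 ht
    have h5 : 0 < √(1 - (1 - t ^ 2) * Real.sin θ ^ 2) := Real.sqrt_pos.2 (hpos θ)
    field_simp
  · exact (hcont.integrableOn_Icc (a := 0) (b := Real.pi / 2)).mono_set Set.Ioo_subset_Icc_self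
  · exact Filter.Eventually.of_forall fun θ => by positivity

theorem elc (hw : S3_w) (hd : S5_kd) (hn : S5_wn) : S5_c := by
  obtain ⟨hWc, hWb, -⟩ := hw
  obtain ⟨-, hEc, hKc, -, -⟩ := hd
  intro k hk0 hk1
  have hk2 : 0 < 1 - k ^ 2 := by nlinarith
  set m : ℝ := k ^ 2 / (1 - k ^ 2) with hm
  have hm0 : 0 < m := by positivity
  have hW0 : ∀ y : ℝ, 0 ≤ y → 0 ≤ WN y := fun y hy => (hWb y hy).1.le
  -- the function under the double integral
  set F : ℝ → ℝ → ENNReal := fun x y => ENNReal.ofReal (WN y / √(1 + y * Real.cosh x ^ 2)) with hF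
  have hpos : ∀ x y : ℝ, 0 ≤ y → 0 < 1 + y * Real.cosh x ^ 2 := fun x y hy => by positivity
  have hcontF : ContinuousOn (fun p : ℝ × ℝ => WN p.2 / √(1 + p.2 * Real.cosh p.1 ^ 2))
      (Set.Ioi 0 ×ˢ Set.Ioc 0 m) := by
    refine ContinuousOn.div ?_ ?_ ?_
    · exact hWc.comp continuousOn_snd fun p hp => hp.2.1.le
    · fun_prop
    · intro p hp
      exact (Real.sqrt_pos.2 (hpos p.1 p.2 hp.2.1.le)).ne'
  have hNR : ∀ x : ℝ, NR m x = (∫⁻ y in Set.Ioc 0 m, F x y).toReal := by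
    intro x
    unfold NR
    rw [intervalIntegral.integral_of_le hm0.le, integral_eq_lintegral_of_nonneg_ae]
    · refine (ae_restrict_iff' measurableSet_Ioc).2 (Filter.Eventually.of_forall fun y hy => ?_)
      exact div_nonneg (hW0 y hy.1.le) (Real.sqrt_nonneg _)
    · refine ContinuousOn.aestronglyMeasurable ?_ measurableSet_Ioc
      refine ContinuousOn.div (hWc.mono fun y hy => hy.1.le) (by fun_prop) fun y hy => ?_
      exact (Real.sqrt_pos.2 (hpos x y hy.1.le)).ne'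
  have hfin : ∀ x : ℝ, ∫⁻ y in Set.Ioc 0 m, F x y < ⊤ := by
    intro x
    calc ∫⁻ y in Set.Ioc 0 m, F x y ≤ ∫⁻ _y in Set.Ioc 0 m, ENNReal.ofReal (1 / 8) := by
          refine setLIntegral_mono' measurableSet_Ioc fun y hy => ?_
          refine ENNReal.ofReal_le_ofReal ?_
          have h1 : 1 ≤ √(1 + y * Real.cosh x ^ 2) := by
            rw [Real.one_le_sqrt]
            have : 0 ≤ y * Real.cosh x ^ 2 := mul_nonneg hy.1.le (sq_nonneg _)
            linarith
          exact (div_le_self (hW0 y hy.1.le) h1).trans (hWb y hy.1.le).2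
      _ < ⊤ := by
          rw [setLIntegral_const]
          refine ENNReal.mul_lt_top ENNReal.ofReal_lt_top ?_
          rw [Real.volume_Ioc]
          exact ENNReal.ofReal_lt_top
  have hmeas : AEMeasurable (Function.uncurry F)
      ((volume.restrict (Set.Ioi (0 : ℝ))).prod (volume.restrict (Set.Ioc 0 m))) := by
    rw [Measure.prod_restrict]
    exact (hcontF.aemeasurable (measurableSet_Ioi.prod measurableSet_Ioc)).ennreal_ofReal
  have hI : I3 m = (∫⁻ x in Set.Ioi (0 : ℝ), ∫⁻ y in Set.Ioc 0 m, F x y).toReal := by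
    unfold I3
    rw [← integral_toReal]
    · exact integral_congr_ae (Filter.Eventually.of_forall fun x => hNR x)
    · exact hmeas.lintegral_prod_right'
    · exact Filter.Eventually.of_forall hfin
  rw [hI, lintegral_lintegral_swap hmeas, restrict_Ioo_eq_restrict_Ioc.symm]
  -- change of variables
  have himg : (fun t : ℝ => t ^ 2 / (1 - t ^ 2)) '' Set.Ioo 0 k = Set.Ioo 0 m := by
    ext y
    constructor
    · rintro ⟨t, ht, rfl⟩
      have h1 : 0 < 1 - t ^ 2 := by nlinarith [ht.1, ht.2]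
      have h2 : 0 < t := ht.1
      refine ⟨by simp only; positivity, ?_⟩
      simp only
      rw [hm, div_lt_div_iff₀ h1 hk2]
      nlinarith [ht.1, ht.2]
    · intro hy
      have hy0 : 0 < y := hy.1
      have h1 : 0 < y / (1 + y) := by positivity
      refine ⟨√(y / (1 + y)), ⟨Real.sqrt_pos.2 h1, ?_⟩, ?_⟩
      · rw [Real.sqrt_lt' hk0, div_lt_iff₀ (by positivity)]
        have h2 := hy.2
        rw [hm, lt_div_iff₀ hk2] at h2
        nlinarith
      · simp only
        rw [Real.sq_sqrt h1.le]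
        field_simp
        ring
  have hinj : Set.InjOn (fun t : ℝ => t ^ 2 / (1 - t ^ 2)) (Set.Ioo 0 k) := by
    intro a ha b hb hab
    simp only at hab
    have h1 : 0 < 1 - a ^ 2 := by nlinarith [ha.1, ha.2]
    have h2 : 0 < 1 - b ^ 2 := by nlinarith [hb.1, hb.2]
    rw [div_eq_div_iff h1.ne' h2.ne'] at hab
    have h3 : a ^ 2 = b ^ 2 := by linarith
    exact (pow_left_inj₀ ha.1.le hb.1.le two_ne_zero).1 h3
  have hder : ∀ t ∈ Set.Ioo 0 k, HasDerivWithinAt (fun t : ℝ => t ^ 2 / (1 - t ^ 2))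
      (2 * t / (1 - t ^ 2) ^ 2) (Set.Ioo 0 k) t := by
    intro t ht
    have h1 : 0 < 1 - t ^ 2 := by nlinarith [ht.1, ht.2]
    have ha : HasDerivAt (fun t : ℝ => t ^ 2) (2 * t) t := by simpa using hasDerivAt_pow 2 t
    have h2 := ha.div (ha.const_sub 1) h1.ne'
    refine (h2.congr_deriv ?_).hasDerivWithinAt
    congr 1
    ring
  rw [← himg, lintegral_image_eq_lintegral_abs_deriv_mul measurableSet_Ioo hder hinj]
  -- the integrand
  have hpt : ∀ t ∈ Set.Ioo 0 k, ENNReal.ofReal |2 * t / (1 - t ^ 2) ^ 2| *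
      ∫⁻ x in Set.Ioi (0 : ℝ), F x (t ^ 2 / (1 - t ^ 2)) =
      ENNReal.ofReal (1 / Real.pi * ((Kc t - Ec t) * Kc (√(1 - t ^ 2)) / t)) := by
    intro t ht
    have ht0 : 0 < t := ht.1
    have ht1 : t < 1 := ht.2.trans hk1
    have h1 : 0 < 1 - t ^ 2 := by nlinarith
    have hy : 0 < t ^ 2 / (1 - t ^ 2) := by positivity
    have h2 : ∫⁻ x in Set.Ioi (0 : ℝ), F x (t ^ 2 / (1 - t ^ 2)) =
        ENNReal.ofReal (WN (t ^ 2 / (1 - t ^ 2))) *
          ENNReal.ofReal (√(1 - t ^ 2) * Kc (√(1 - t ^ 2))) := by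
      rw [← inner t ht0 ht1, ← lintegral_const_mul' _ _ ENNReal.ofReal_ne_top]
      refine lintegral_congr fun x => ?_
      rw [hF, ← ENNReal.ofReal_mul (hW0 _ hy.le)]
      simp only
      congr 1
      ring
    rw [h2, ← ENNReal.ofReal_mul (hW0 _ hy.le), ← ENNReal.ofReal_mul (abs_nonneg _)]
    congr 1
    rw [abs_of_pos (by positivity), hn t ht0 ht1]
    have h3 : √(1 - t ^ 2) ^ 2 = 1 - t ^ 2 := Real.sq_sqrt h1.le
    have h4 : √(1 - t ^ 2) ^ 3 * √(1 - t ^ 2) = (1 - t ^ 2) ^ 2 := by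
      calc √(1 - t ^ 2) ^ 3 * √(1 - t ^ 2) = (√(1 - t ^ 2) ^ 2) ^ 2 := by ring
        _ = _ := by rw [h3]
    have h5 : 2 * t / (1 - t ^ 2) ^ 2 * (1 / (2 * Real.pi) * √(1 - t ^ 2) ^ 3 * (Kc t - Ec t) / t ^ 2 *
        (√(1 - t ^ 2) * Kc (√(1 - t ^ 2)))) = 2 * t / (1 - t ^ 2) ^ 2 * (1 / (2 * Real.pi)) *
        (√(1 - t ^ 2) ^ 3 * √(1 - t ^ 2)) * ((Kc t - Ec t) / t ^ 2 * Kc (√(1 - t ^ 2))) := by
      ring
    rw [h5, h4]
    have hpi := Real.pi_pos
    field_simp
  rw [setLIntegral_congr_fun measurableSet_Ioo hpt]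
  -- the right side
  have hKpos : ∀ x : ℝ, 0 ≤ Kc x := by
    intro x
    unfold Kc
    exact intervalIntegral.integral_nonneg (by positivity) fun φ _ => by positivity
  have hdiff : ∀ t ∈ Set.Ioo 0 k, 0 ≤ Kc t - Ec t := by
    intro t ht
    have ht0 : 0 < t := ht.1
    have ht1 : t < 1 := ht.2.trans hk1
    have h1 : 0 < 1 - t ^ 2 := by nlinarith
    have hy : 0 < t ^ 2 / (1 - t ^ 2) := by positivity
    have h2 := (hWb _ hy.le).1
    rw [hn t ht0 ht1] at h2
    have h4 : 0 < √(1 - t ^ 2) := Real.sqrt_pos.2 h1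
    have hpi := Real.pi_pos
    by_contra h5
    push Not at h5
    have h6 : 1 / (2 * Real.pi) * √(1 - t ^ 2) ^ 3 * (Kc t - Ec t) / t ^ 2 ≤ 0 := by
      refine div_nonpos_of_nonpos_of_nonneg ?_ (by positivity)
      exact mul_nonpos_of_nonneg_of_nonpos (by positivity) h5.le
    linarith
  unfold Ic
  rw [← intervalIntegral.integral_const_mul, intervalIntegral.integral_of_le hk0.le,
    integral_Ioc_eq_integral_Ioo, integral_eq_lintegral_of_nonneg_ae]
  · refine (ae_restrict_iff' measurableSet_Ioo).2 (Filter.Eventually.of_forall fun t ht => ?_)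
    have ht0 : 0 < t := ht.1
    have hpi := Real.pi_pos
    exact mul_nonneg (by positivity) (div_nonneg (mul_nonneg (hdiff t ht) (hKpos _)) ht0.le)
  · refine ContinuousOn.aestronglyMeasurable ?_ measurableSet_Ioo
    have h1 : Set.Ioo 0 k ⊆ Set.Ico 0 1 := fun t ht => ⟨ht.1.le, ht.2.trans hk1⟩
    refine continuousOn_const.mul (ContinuousOn.div (ContinuousOn.mul
      ((hKc.mono h1).sub (hEc.mono h1)) ?_) continuousOn_id fun t ht => ht.1.ne')
    refine hKc.comp (by fun_prop) fun t ht => ⟨Real.sqrt_nonneg _, ?_⟩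
    have ht0 : 0 < t := ht.1
    rw [Real.sqrt_lt' one_pos]
    nlinarith

end Pool.Agent.TH41.BL.EL5f
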