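import Mathlib
import Pool.Agent.TH41.BL.Stm4
import Pool.Agent.TH41.BL.FMM

/-!
Project BL4: approximate extensions of all the exponentials, from those of one kernel.
-/

set_option autoImplicit false

open MeasureTheory Filter Topology

namespace Pool.Agent.TH41.BL.FA4f

open Pool.Agent.TH41.BL

/-- an approximate extension of one exponential -/
def Ext (n : ℕ) (T : ℕ → Prop) (θ ε₂ μ : ℝ) : Prop := ∃ u : ℕ → ℂ,
    (∀ w : ℕ, w ≤ n → T w →
      ‖u w - Complex.exp ((θ * w : ℝ) * Complex.I)‖ ≤ 1 / (4 * ((n : ℝ) + 1))) ∧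
    (∀ w : ℕ, w ≤ n → ‖u w‖ ≤ Real.exp (ε₂ * n)) ∧
    (∀ f : ℕ → ℝ, ‖∑ w ∈ Finset.range (n + 1), (n.choose w : ℂ) * u w * (f w : ℂ)‖ ≤
      Real.exp (n * μ) * NN n f)

lemma Ext.mono {n : ℕ} {T T' : ℕ → Prop} {θ ε₂ μ μ' : ℝ} (h : Ext n T' θ ε₂ μ')
    (hT : ∀ w, T w → T' w) (hμ : μ' ≤ μ) : Ext n T θ ε₂ μ := by
  obtain ⟨u, u1, u2, u3⟩ := h
  refine ⟨u, fun w hw ht => u1 w hw (hT w ht), u2, fun f => (u3 f).trans ?_⟩
  refine mul_le_mul_of_nonneg_right ?_ (FAMf.NN_nonneg n f)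
  rw [Real.exp_le_exp]
  exact mul_le_mul_of_nonneg_left hμ (Nat.cast_nonneg n)

/-- negative cosine -/
lemma Ext.neg (hk : S_kra) {n : ℕ} {T : ℕ → Prop} {θ ε₂ μ : ℝ}
    (h : Ext n T (θ - Real.pi) ε₂ μ) : Ext n T θ ε₂ μ := by
  obtain ⟨u, u1, u2, u3⟩ := h
  have e1 : ∀ w : ℕ, Complex.exp ((θ * w : ℝ) * Complex.I) =
      (-1) ^ w * Complex.exp (((θ - Real.pi) * w : ℝ) * Complex.I) := by
    intro w
    have h5 : ((θ * w : ℝ) : ℂ) * Complex.I =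
        (w : ℂ) * ((Real.pi : ℂ) * Complex.I) + (((θ - Real.pi) * w : ℝ) : ℂ) * Complex.I := by
      push_cast; ring
    rw [h5, Complex.exp_add, Complex.exp_nat_mul, Complex.exp_pi_mul_I]
  have e2 : ∀ w : ℕ, ‖((-1 : ℂ)) ^ w‖ = 1 := fun w => by
    rw [norm_pow, norm_neg, norm_one, one_pow]
  refine ⟨fun w => (-1) ^ w * u w, fun w hw hb => ?_, fun w hw => ?_, fun f => ?_⟩
  · rw [e1, ← mul_sub, norm_mul, e2, one_mul]
    exact u1 w hw hb
  · rw [norm_mul, e2, one_mul]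
    exact u2 w hw
  · have h5 := u3 (fun w => (-1) ^ w * f w)
    rw [hk.2.2.2.2 n f] at h5
    refine le_trans (le_of_eq ?_) h5
    congr 1
    refine Finset.sum_congr rfl fun w _ => ?_
    push_cast
    ring

/-- small cosine -/
lemma Ext.direct (hk : S_kra) {n : ℕ} {T : ℕ → Prop} {θ ε₂ μ a : ℝ} (ha : 0 ≤ a)
    (hcos : |Real.cos θ| ≤ a) (hε₂ : 0 < ε₂) (hμ : 1 / 2 * Real.log (1 + a) ≤ μ) :
    Ext n T θ ε₂ μ := by
  have hn0 : (0 : ℝ) ≤ n := Nat.cast_nonneg n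
  refine ⟨fun w => Complex.exp ((θ * w : ℝ) * Complex.I), fun w hw hb => ?_, fun w hw => ?_,
    fun f => ?_⟩
  · rw [sub_self, norm_zero]; positivity
  · rw [Complex.norm_exp_ofReal_mul_I]
    exact Real.one_le_exp (by positivity)
  · have h5 := hk.1 n f 1 (Complex.exp (θ * Complex.I))
    have h6 : ∑ w ∈ Finset.range (n + 1),
        (n.choose w : ℂ) * (1 ^ (n - w) * Complex.exp (θ * Complex.I) ^ w) * (f w : ℂ) =
        ∑ w ∈ Finset.range (n + 1), (n.choose w : ℂ) *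
          Complex.exp ((θ * w : ℝ) * Complex.I) * (f w : ℂ) := by
      refine Finset.sum_congr rfl fun w _ => ?_
      rw [one_pow, one_mul, ← Complex.exp_nat_mul]
      have e : (w : ℂ) * (θ * Complex.I) = ((θ * w : ℝ) : ℂ) * Complex.I := by push_cast; ring
      rw [e]
    rw [h6] at h5
    rw [h5]
    -- the norms
    have key : ∀ (z : ℂ) (x : ℝ), ‖z‖ ^ 2 = 2 * (1 + x) → |x| ≤ a →
        ‖z / ((√2 : ℝ) : ℂ)‖ ≤ Real.exp μ := by
      intro z x hz hx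
      rw [norm_div, Complex.norm_real, Real.norm_of_nonneg (Real.sqrt_nonneg 2)]
      refine abs_le_of_sq_le_sq' ?_ (Real.exp_pos _).le |>.2
      rw [div_pow, Real.sq_sqrt (by norm_num), hz, ← Real.exp_nat_mul]
      have h7 : Real.log (1 + a) ≤ ((2 : ℕ) : ℝ) * μ := by push_cast; linarith
      have h8 : 1 + a ≤ Real.exp (((2 : ℕ) : ℝ) * μ) := by
        rwa [← Real.log_le_iff_le_exp (by linarith)]
      have h9 := (abs_le.1 hx).2
      have h10 : 2 * (1 + x) / 2 ≤ 1 + a := by linarith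
      exact h10.trans h8
    have hz1 : ‖1 + Complex.exp (θ * Complex.I)‖ ^ 2 = 2 * (1 + Real.cos θ) := by
      rw [← Complex.normSq_eq_norm_sq, Complex.normSq_apply]
      simp only [Complex.add_re, Complex.one_re, Complex.add_im, Complex.one_im,
        Complex.exp_ofReal_mul_I_re, Complex.exp_ofReal_mul_I_im]
      have := Real.sin_sq_add_cos_sq θ
      nlinarith
    have hz2 : ‖1 - Complex.exp (θ * Complex.I)‖ ^ 2 = 2 * (1 + -Real.cos θ) := by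
      rw [← Complex.normSq_eq_norm_sq, Complex.normSq_apply]
      simp only [Complex.sub_re, Complex.one_re, Complex.sub_im, Complex.one_im,
        Complex.exp_ofReal_mul_I_re, Complex.exp_ofReal_mul_I_im]
      have := Real.sin_sq_add_cos_sq θ
      nlinarith
    have k1 := key _ _ hz1 hcos
    have k2 := key _ _ hz2 (by rw [abs_neg]; exact hcos)
    have hterm : ∀ j ∈ Finset.range (n + 1), ‖(n.choose j : ℂ) *
        (((1 + Complex.exp (θ * Complex.I)) / (√2 : ℝ)) ^ (n - j) *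
          ((1 - Complex.exp (θ * Complex.I)) / (√2 : ℝ)) ^ j) * (tr n f j : ℂ)‖ ≤
        Real.exp (n * μ) * ((n.choose j : ℝ) * |tr n f j|) := by
      intro j hj
      have hj' : j ≤ n := Nat.lt_succ_iff.1 (Finset.mem_range.1 hj)
      rw [norm_mul, norm_mul, norm_mul, norm_pow, norm_pow, Complex.norm_real,
        Complex.norm_natCast, Real.norm_eq_abs]
      have h7 : ‖(1 + Complex.exp (θ * Complex.I)) / ((√2 : ℝ) : ℂ)‖ ^ (n - j) *
          ‖(1 - Complex.exp (θ * Complex.I)) / ((√2 : ℝ) : ℂ)‖ ^ j ≤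
          Real.exp (n * μ) := by
        calc _ ≤ Real.exp μ ^ (n - j) * Real.exp μ ^ j :=
              mul_le_mul (pow_le_pow_left₀ (norm_nonneg _) k1 _)
                (pow_le_pow_left₀ (norm_nonneg _) k2 _) (by positivity) (by positivity)
          _ = Real.exp (n * μ) := by
              rw [← pow_add, Nat.sub_add_cancel hj', ← Real.exp_nat_mul]
      calc (n.choose j : ℝ) * (‖(1 + Complex.exp (θ * Complex.I)) / ((√2 : ℝ) : ℂ)‖ ^ (n - j) *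
          ‖(1 - Complex.exp (θ * Complex.I)) / ((√2 : ℝ) : ℂ)‖ ^ j) * |tr n f j|
          ≤ (n.choose j : ℝ) * Real.exp (n * μ) * |tr n f j| :=
            mul_le_mul_of_nonneg_right (mul_le_mul_of_nonneg_left h7 (Nat.cast_nonneg _))
              (abs_nonneg _)
        _ = _ := by ring
    refine (norm_sum_le _ _).trans ((Finset.sum_le_sum hterm).trans ?_)
    rw [← Finset.mul_sum]
    exact le_of_eq rfl

/-- the quantisation -/
lemma qz {M : ℝ} {N n : ℕ} (h : ∃ p : ℤ, Nbar M * N = p) (hn : N ∣ n) :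
    ∃ σ : ℝ, Qz4 M n σ := by
  obtain ⟨p, hp⟩ := h
  obtain ⟨l, rfl⟩ := hn
  have h1 : Real.pi * ((N * l : ℕ) : ℝ) * Nbar M = Real.pi * ((p * l : ℤ) : ℝ) := by
    push_cast
    rw [← hp]
    ring
  rcases Int.even_or_odd' (p * l) with ⟨k, hk | hk⟩
  · refine ⟨1, Or.inl rfl, ?_⟩
    rw [h1, hk]
    have e : ((Real.pi * ((2 * k : ℤ) : ℝ) : ℝ) : ℂ) * Complex.I =
        (k : ℂ) * (2 * Real.pi * Complex.I) := by push_cast; ring
    rw [e, Complex.exp_int_mul_two_pi_mul_I, Complex.ofReal_one]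
  · refine ⟨-1, Or.inr rfl, ?_⟩
    rw [h1, hk]
    have e : ((Real.pi * ((2 * k + 1 : ℤ) : ℝ) : ℝ) : ℂ) * Complex.I =
        (k : ℂ) * (2 * Real.pi * Complex.I) + Real.pi * Complex.I := by push_cast; ring
    rw [e, Complex.exp_add, Complex.exp_int_mul_two_pi_mul_I, Complex.exp_pi_mul_I]
    push_cast
    ring

/-- a point of an interval, with rational value of the density -/
lemma exists_M (hq : S3_quant) {a b : ℝ} (ha : 0 < a) (hab : a < b) :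
    ∃ R : ℕ, ∀ N : ℕ, R ≤ N → ∃ M : ℝ, a ≤ M ∧ M ≤ b ∧ ∃ p : ℤ, Nbar M * N = p := by
  have hg : 0 < Nbar b - Nbar a := sub_pos.2 (hq.2.1 ha (ha.trans hab) hab)
  refine ⟨⌈1 / (Nbar b - Nbar a)⌉₊ + 1, fun N hN => ?_⟩
  have hN1 : 1 / (Nbar b - Nbar a) ≤ N := by
    refine (Nat.le_ceil _).trans ?_
    exact_mod_cast (Nat.le_succ _).trans hN
  have hN0 : (0 : ℝ) < N := by
    have : 1 ≤ N := (Nat.le_add_left 1 _).trans hN
    exact_mod_cast this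
  rw [div_le_iff₀ hg] at hN1
  have h1 : Nbar a * N ≤ ⌈Nbar a * N⌉ := Int.le_ceil _
  have h2 : (⌈Nbar a * N⌉ : ℝ) < Nbar a * N + 1 := Int.ceil_lt_add_one _
  have hcont : ContinuousOn Nbar (Set.Icc a b) :=
    hq.1.mono fun x hx => lt_of_lt_of_le ha hx.1
  have hmem : (⌈Nbar a * N⌉ : ℝ) / N ∈ Set.Icc (Nbar a) (Nbar b) := by
    constructor
    · rw [le_div_iff₀ hN0]
      exact h1
    · rw [div_le_iff₀ hN0]
      nlinarith
  obtain ⟨M, hM, hM2⟩ := intermediate_value_Icc hab.le hcont hmem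
  refine ⟨M, hM.1, hM.2, ⌈Nbar a * N⌉, ?_⟩
  rw [hM2]
  field_simp

lemma tan_sq_lt {θ P : ℝ} (hP : 0 ≤ P) (h : 1 / √(1 + P) < Real.cos θ) :
    Real.tan θ ^ 2 < P := by
  have h0 : (0 : ℝ) < √(1 + P) := Real.sqrt_pos.2 (by linarith)
  have h1 : 0 < 1 / √(1 + P) := by positivity
  have hc : 0 < Real.cos θ := h1.trans h
  have h2 : (1 / √(1 + P)) ^ 2 < Real.cos θ ^ 2 := by
    exact pow_lt_pow_left₀ h h1.le (by norm_num)
  rw [div_pow, Real.sq_sqrt (by linarith), one_pow] at h2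
  have h3 : Real.tan θ ^ 2 * Real.cos θ ^ 2 = Real.sin θ ^ 2 := by
    rw [← mul_pow, Real.tan_mul_cos hc.ne']
  have h4 := Real.sin_sq_add_cos_sq θ
  have h5 : 1 < Real.cos θ ^ 2 * (1 + P) := by
    rwa [div_lt_iff₀ (by linarith)] at h2
  by_contra hcon
  push Not at hcon
  have h6 : 0 < Real.cos θ ^ 2 := by positivity
  nlinarith

/-- the case of positive cosine -/
lemma pos_case (hq : S3_quant) (ht : S4_thr) (hm : S4_mu) (hf : S4_famp) (m : ℝ) (q : ℕ)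
    (hm0 : 0 < m) (hq0 : 0 < q) (hp : ∃ p : ℤ, Nbar m * q = p) (Δ ε₂ ε₃ Pm : ℝ) (hΔ : 0 < Δ)
    (hε₂ : 0 < ε₂) (hε₃ : 0 < ε₃) (hPm : m ≤ Pm) : ∃ r : ℕ, Odd r ∧ ∃ n₀ : ℕ,
    ∀ n : ℕ, n₀ ≤ n → q * r ∣ n → ∀ θ : ℝ, 0 < Real.cos θ → Real.tan θ ^ 2 < Pm →
      Ext n (fun w => Δ ≤ 1 - 2 * (w : ℝ) / n - THR 0 m) θ ε₂ (mu4 m + ε₃) := by
  have hP1 : 0 < 1 + Pm := by linarith
  obtain ⟨h, hh0, hh1, hh2⟩ : ∃ h : ℝ, 0 < h ∧ h < m ∧ (1 + Pm) * (3 * h) ≤ Δ ^ 2 := by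
    refine ⟨min (m / 4) (Δ ^ 2 / (3 * (1 + Pm))), lt_min (by positivity) (by positivity),
      (min_le_left _ _).trans_lt (by linarith), ?_⟩
    have h1 : min (m / 4) (Δ ^ 2 / (3 * (1 + Pm))) ≤ Δ ^ 2 / (3 * (1 + Pm)) := min_le_right _ _
    have h3 : (1 + Pm) * (3 * min (m / 4) (Δ ^ 2 / (3 * (1 + Pm)))) ≤
        (1 + Pm) * (3 * (Δ ^ 2 / (3 * (1 + Pm)))) := by gcongr
    refine h3.trans (le_of_eq ?_)
    field_simp
  -- the points
  have hR : ∀ j : ℕ, ∃ R : ℕ, ∀ N : ℕ, R ≤ N → ∃ M : ℝ, m + (j + 1) * h ≤ M ∧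
      M ≤ m + (j + 1) * h + h / 10 ∧ ∃ p : ℤ, Nbar M * N = p := fun j =>
    exists_M hq (by positivity) (by linarith)
  choose R hR using hR
  obtain ⟨K, hK⟩ : ∃ K : ℕ, K = ⌈(Pm - m) / h⌉₊ := ⟨_, rfl⟩
  obtain ⟨R₀, hR₀⟩ : ∃ R₀ : ℕ, R₀ = (Finset.range (K + 1)).sup R := ⟨_, rfl⟩
  refine ⟨2 * R₀ + 1, ⟨R₀, rfl⟩, ?_⟩
  obtain ⟨r, hr⟩ : ∃ r, r = 2 * R₀ + 1 := ⟨_, rfl⟩
  rw [← hr]
  have hqr : R₀ ≤ q * r := by
    have : 1 * r ≤ q * r := Nat.mul_le_mul_right r hq0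
    omega
  -- the families of the points
  have hN : ∀ j : ℕ, ∃ n₁ : ℕ, j ≤ K → ∀ n : ℕ, n₁ ≤ n → q * r ∣ n → ∀ θ : ℝ,
      0 < Real.cos θ → Real.tan θ ^ 2 < Pm → Real.tan θ ^ 2 ≤ m + j * h →
      m + (j - 1) * h ≤ Real.tan θ ^ 2 →
      Ext n (fun w => Δ ≤ 1 - 2 * (w : ℝ) / n - THR 0 m) θ ε₂ (mu4 m + ε₃) := by
    intro j
    by_cases hj : j ≤ K
    swap
    · exact ⟨0, fun h => absurd h hj⟩
    have hjR : R j ≤ q * r := by
      refine le_trans ?_ hqr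
      rw [hR₀]
      exact Finset.le_sup (f := R) (Finset.mem_range.2 (Nat.lt_succ_iff.2 hj))
    obtain ⟨M, hM1, hM2, hM3⟩ := hR j (q * r) hjR
    have hjh : 0 ≤ (j : ℝ) * h := by positivity
    have hMm : m ≤ M := by linarith
    have hPM : m + j * h < M := by linarith
    obtain ⟨n₁, hn₁⟩ := hf M (m + j * h) (Δ / 2) ε₂ ε₃ (by linarith) (by positivity) hPM
      (by positivity) hε₂ hε₃
    refine ⟨n₁, fun _ n hn hd θ hc hT1 hT2 hT3 => ?_⟩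
    obtain ⟨σ, hσ⟩ := qz hM3 hd
    have hE : Ext n (fun w => Δ / 2 ≤ 1 - 2 * (w : ℝ) / n - THR (Real.tan θ ^ 2) M) θ ε₂
      (mu4 M + ε₃) := hn₁ n hn σ hσ θ hc hT2
    refine hE.mono (fun w hw => ?_) ?_
    · have h1 := ht.2.2.2.1 (Real.tan θ ^ 2) M (sq_nonneg _) (by linarith)
      have h2 := (ht.2.2.1 0 m le_rfl hm0).1
      have h3 : √(1 + Real.tan θ ^ 2) * √(M - Real.tan θ ^ 2) ≤ Δ := by
        rw [← Real.sqrt_mul (by positivity)]
        rw [show Δ = √(Δ ^ 2) from (Real.sqrt_sq hΔ.le).symm]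
        apply Real.sqrt_le_sqrt
        refine le_trans ?_ hh2
        have h4 : M - Real.tan θ ^ 2 ≤ 3 * h := by linarith
        have h5 : 0 ≤ Real.tan θ ^ 2 := sq_nonneg _
        have h6 : 0 ≤ M - Real.tan θ ^ 2 := by linarith
        exact mul_le_mul (by linarith) h4 h6 hP1.le
      linarith
    · have := hm.1 (Set.mem_Ioi.2 hm0) (Set.mem_Ioi.2 (hm0.trans_le hMm)) hMm
      linarith
  choose n₁ hn₁ using hN
  obtain ⟨n₂, hn₂⟩ := hf m (m - h) Δ ε₂ ε₃ hm0 (by linarith) (by linarith) hΔ hε₂ hε₃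
  refine ⟨max n₂ ((Finset.range (K + 1)).sup n₁), fun n hn hd θ hc hT => ?_⟩
  have hn2 : n₂ ≤ n := (le_max_left _ _).trans hn
  have hn3 : (Finset.range (K + 1)).sup n₁ ≤ n := (le_max_right _ _).trans hn
  rcases le_or_gt (Real.tan θ ^ 2) (m - h) with h1 | h1
  · obtain ⟨p, hp⟩ := hp
    have hp' : ∃ p : ℤ, Nbar m * (q * r : ℕ) = p := ⟨p * r, by push_cast; rw [← hp]; ring⟩
    obtain ⟨σ, hσ⟩ := qz hp' hd
    have hE : Ext n (fun w => Δ ≤ 1 - 2 * (w : ℝ) / n - THR (Real.tan θ ^ 2) m) θ ε₂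
      (mu4 m + ε₃) := hn₂ n hn2 σ hσ θ hc h1
    refine hE.mono (fun w hw => ?_) le_rfl
    have h2 := (ht.2.2.1 (Real.tan θ ^ 2) m (sq_nonneg _) (by linarith)).2
    linarith
  · obtain ⟨j, hj⟩ : ∃ j : ℕ, j = ⌈(Real.tan θ ^ 2 - m) / h⌉₊ := ⟨_, rfl⟩
    have h2 : (Real.tan θ ^ 2 - m) / h ≤ j := by rw [hj]; exact Nat.le_ceil _
    have h3 : (j : ℝ) < (Real.tan θ ^ 2 - m) / h + 1 := by
      rcases le_or_gt ((Real.tan θ ^ 2 - m) / h) 0 with h4 | h4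
      · have h5 : j = 0 := by rw [hj]; exact Nat.ceil_eq_zero.2 h4
        rw [h5, Nat.cast_zero]
        have h6 : -1 < (Real.tan θ ^ 2 - m) / h := by
          rw [lt_div_iff₀ hh0]
          linarith
        linarith
      · rw [hj]
        exact Nat.ceil_lt_add_one h4.le
    have hjK : j ≤ K := by
      rw [hj, hK]
      exact Nat.ceil_le_ceil (div_le_div_of_nonneg_right (by linarith) hh0.le)
    rw [div_le_iff₀ hh0] at h2
    have h3' : ((j : ℝ) - 1) * h ≤ Real.tan θ ^ 2 - m := by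
      rw [← le_div_iff₀ hh0]
      linarith
    refine hn₁ j hjK n (le_trans ?_ hn3) hd θ hc hT (by linarith) (by linarith)
    exact Finset.le_sup (f := n₁) (Finset.mem_range.2 (Nat.lt_succ_iff.2 hjK))

theorem fam4 (hk : S_kra) (hq : S3_quant) (ht : S4_thr) (hm : S4_mu) (hf : S4_famp) :
    S4_fam := by
  intro m q hm0 hq0 hp Δ ε₂ ε₃ hΔ hε₂ hε₃
  have hmu : 0 < mu4 m := hm.2.1 m hm0
  obtain ⟨Pm, hPm⟩ : ∃ Pm : ℝ, Pm = m + 1 / mu4 m ^ 2 := ⟨_, rfl⟩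
  have hPm1 : m ≤ Pm := by
    rw [hPm]
    have : 0 < 1 / mu4 m ^ 2 := by positivity
    linarith
  have hPm0 : 0 ≤ Pm := by linarith
  have hs : 1 / mu4 m ≤ √(1 + Pm) := by
    rw [show 1 / mu4 m = √((1 / mu4 m) ^ 2) from (Real.sqrt_sq (by positivity)).symm]
    apply Real.sqrt_le_sqrt
    rw [div_pow, one_pow, hPm]
    linarith
  have hs0 : 0 < √(1 + Pm) := Real.sqrt_pos.2 (by linarith)
  have hs1 : 1 / √(1 + Pm) ≤ mu4 m := by
    rw [div_le_iff₀ hs0]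
    rw [div_le_iff₀ hmu] at hs
    linarith
  obtain ⟨a, ha⟩ : ∃ a, a = 1 / √(1 + Pm) := ⟨_, rfl⟩
  have ha0 : 0 < a := by rw [ha]; positivity
  have hcost : 1 / 2 * Real.log (1 + a) ≤ mu4 m + ε₃ := by
    have h1 := Real.log_le_sub_one_of_pos (show 0 < 1 + a by linarith)
    rw [← ha] at hs1
    linarith
  obtain ⟨r, hr, n₀, hn₀⟩ := pos_case hq ht hm hf m q hm0 hq0 hp Δ ε₂ ε₃ Pm hΔ hε₂ hε₃ hPm1
  refine ⟨r, hr, n₀, fun n hn hd θ => ?_⟩
  change Ext n (fun w => Δ ≤ 1 - 2 * (w : ℝ) / n - THR 0 m) θ ε₂ (mu4 m + ε₃)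
  rcases le_or_gt (|Real.cos θ|) a with h1 | h1
  · exact Ext.direct hk ha0.le h1 hε₂ hcost
  rcases lt_abs.1 h1 with h2 | h2
  · exact hn₀ n hn hd θ (ha0.trans h2) (tan_sq_lt hPm0 (by rw [← ha]; exact h2))
  · refine Ext.neg hk (hn₀ n hn hd (θ - Real.pi) ?_ (tan_sq_lt hPm0 ?_))
    · rw [Real.cos_sub_pi]
      exact ha0.trans h2
    · rw [Real.cos_sub_pi, ← ha]
      exact h2

end Pool.Agent.TH41.BL.FA4f
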