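import Mathlib
import Pool.Agent.TH41.BL.Stm4
import Pool.Agent.TH41.BL.LOW

set_option autoImplicit false

open MeasureTheory Filter Topology

namespace Pool.Agent.TH41.BL.FI4f

open Pool.Agent.TH41.BL

/-- fractions with odd numerator are dense -/
theorem odd_between (A B : ℝ) (h : A < B) : ∃ (p : ℤ) (q : ℕ), 0 < q ∧ Odd p ∧
    A < (p : ℝ) / q ∧ (p : ℝ) / q < B := by
  obtain ⟨q, hq⟩ := exists_nat_gt (2 / (B - A))
  have hBA : 0 < B - A := by linarith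
  have hq0' : (0 : ℝ) < q := lt_trans (by positivity) hq
  have hq0 : 0 < q := by exact_mod_cast hq0'
  have h2 : 2 < (B - A) * q := by
    rw [div_lt_iff₀ hBA] at hq
    linarith
  have h3 := Int.floor_le ((A * q + 1) / 2)
  have h4 := Int.lt_floor_add_one ((A * q + 1) / 2)
  refine ⟨2 * ⌊(A * q + 1) / 2⌋ + 1, q, hq0, ⟨_, rfl⟩, ?_, ?_⟩
  · rw [lt_div_iff₀ hq0']
    push_cast
    linarith
  · rw [div_lt_iff₀ hq0']
    push_cast
    linarith

/-- a parameter above `m` with a mean with odd numerator -/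
theorem quant4 (hq : S3_quant) (m η : ℝ) (hm : 0 < m) (hη : 0 < η) :
    ∃ m' : ℝ, 0 < m' ∧ m ≤ m' ∧ m' - m < η ∧ ∃ q : ℕ, 0 < q ∧
      ∃ p : ℤ, Odd p ∧ Nbar m' * q = p := by
  obtain ⟨hc, hs, -, -⟩ := hq
  have h1 : 0 < m + η / 2 := by linarith
  have hlt : Nbar m < Nbar (m + η / 2) := hs hm h1 (by linarith)
  obtain ⟨p, q, hq0, hp, hr1, hr2⟩ := odd_between _ _ hlt
  have hcc : ContinuousOn Nbar (Set.Icc m (m + η / 2)) :=
    hc.mono (fun x hx => lt_of_lt_of_le hm hx.1)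
  have hiv := intermediate_value_Icc (show m ≤ m + η / 2 by linarith) hcc
  obtain ⟨m', hm', hN⟩ := hiv ⟨hr1.le, hr2.le⟩
  refine ⟨m', lt_of_lt_of_le hm hm'.1, hm'.1, by linarith [hm'.2], q, hq0, p, hp, ?_⟩
  rw [hN]
  have : (q : ℝ) ≠ 0 := by exact_mod_cast hq0.ne'
  field_simp

theorem fin4 (hp : S_punc) (hq : S3_quant) (ht : S4_thr) (hmu : S4_mu) (hm : S4_main) :
    S4_fin := by
  intro m δ ε hm0 hδ hε
  by_cases hδ0 : δ < 0
  · refine ⟨1, fun n hn d hd => ?_⟩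
    exfalso
    have h1 : (1 : ℝ) ≤ n := by exact_mod_cast hn
    have h2 : (0 : ℝ) ≤ d := Nat.cast_nonneg d
    nlinarith
  push Not at hδ0
  -- the larger parameter
  obtain ⟨δ', hδ1, hδ2⟩ := exists_between hδ
  have hcont : ContinuousAt (fun y => 1 / 2 - 1 / 2 * THR 0 y) m :=
    ContinuousAt.sub continuousAt_const
      (ContinuousAt.mul continuousAt_const (ht.2.2.2.2.continuousAt (Ioi_mem_nhds hm0)))
  have hev : ∀ᶠ y in 𝓝 m, δ' < 1 / 2 - 1 / 2 * THR 0 y := hcont.eventually_const_lt hδ2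
  obtain ⟨η, hη, hball⟩ := Metric.eventually_nhds_iff.1 hev
  obtain ⟨m', hm'0, hm'm, hm'η, q, hq0, hQ⟩ := quant4 hq m η hm0 hη
  have hNR : δ' < 1 / 2 - 1 / 2 * THR 0 m' := hball (by
    rw [Real.dist_eq, abs_of_nonneg (by linarith)]
    exact hm'η)
  have hI : mu4 m' ≤ mu4 m := hmu.1 hm0 hm'0 hm'm
  obtain ⟨r, hr, N0, hN0⟩ := hm m' δ' (ε / 2) q hm'0 hNR (by linarith) hq0 hQ
  have hr0 : 0 < r := hr.pos
  obtain ⟨K, hK⟩ : ∃ K : ℕ, K = q * r := ⟨_, rfl⟩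
  have hKpos : 0 < K := by rw [hK]; exact Nat.mul_pos hq0 hr0
  have hdd : 0 < δ' - δ := by linarith
  obtain ⟨N1, hN1⟩ := exists_nat_ge ((3 * K : ℝ) / (δ' - δ))
  obtain ⟨N2, hN2⟩ := exists_nat_ge
    (2 * (3 * K) * |1 / 2 * Real.log 2 - mu4 m - ε / 2| / ε)
  refine ⟨max N0 (max N1 N2), ?_⟩
  intro n hn d hd l hl hf
  have hn0 : N0 ≤ n := (le_max_left _ _).trans hn
  have hn1 : N1 ≤ n := ((le_max_left _ _).trans (le_max_right _ _)).trans hn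
  have hn2 : N2 ≤ n := ((le_max_right _ _).trans (le_max_right _ _)).trans hn
  -- the multiple
  have hdm := Nat.div_add_mod n (2 * K)
  have hmod := Nat.mod_lt n (show 0 < 2 * K by omega)
  obtain ⟨t, ht'⟩ : ∃ t : ℕ, t = n / (2 * K) := ⟨_, rfl⟩
  rw [← ht'] at hdm
  have hKt : K * (2 * t + 3) = 2 * K * t + 3 * K := by ring
  obtain ⟨s, hs⟩ : ∃ s : ℕ, n + s = K * (2 * t + 3) := ⟨K * (2 * t + 3) - n, by omega⟩
  have hsK : s ≤ 3 * K := by omega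
  have hsK' : (s : ℝ) ≤ 3 * K := by exact_mod_cast hsK
  have hs0 : (0 : ℝ) ≤ s := Nat.cast_nonneg s
  obtain ⟨l', k1, k2, k3, k4⟩ := LOWf.punc_iter hp n d l hl hf s
  have hQ' : ∃ j : ℕ, Odd j ∧ n + s = q * r * j := by
    refine ⟨2 * t + 3, ⟨t + 1, by ring⟩, ?_⟩
    rw [hs, hK]
  have hn1' : (3 * K : ℝ) / (δ' - δ) ≤ n := hN1.trans (by exact_mod_cast hn1)
  have hn1'' : (3 * K : ℝ) ≤ (δ' - δ) * n := by
    rw [div_le_iff₀ hdd] at hn1'
    linarith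
  have hdb : ((d + s : ℕ) : ℝ) ≤ δ' * ((n + s : ℕ) : ℝ) := by
    push_cast
    have hδ'0 : 0 ≤ δ' := by linarith
    nlinarith [mul_nonneg hδ'0 hs0]
  have key := hN0 (n + s) (by omega) hQ' (d + s) hdb l' k1 k3
  rw [k2, k4] at key
  refine le_trans ?_ key
  refine mul_le_mul_of_nonneg_right (Real.exp_le_exp.2 ?_) (hl 0)
  push_cast
  have hn2' : 2 * (3 * K) * |1 / 2 * Real.log 2 - mu4 m - ε / 2| / ε ≤ n :=
    hN2.trans (by exact_mod_cast hn2)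
  rw [div_le_iff₀ hε] at hn2'
  have ha := neg_abs_le (1 / 2 * Real.log 2 - mu4 m - ε / 2)
  have hb := abs_nonneg (1 / 2 * Real.log 2 - mu4 m - ε / 2)
  have e1 : -((3 * K : ℝ) * |1 / 2 * Real.log 2 - mu4 m - ε / 2|) ≤
      s * (1 / 2 * Real.log 2 - mu4 m - ε / 2) := by
    nlinarith [mul_le_mul_of_nonneg_right hsK' hb, mul_le_mul_of_nonneg_left ha hs0]
  have e2 : ((n : ℝ) + s) * (mu4 m - mu4 m') ≥ 0 := by
    have : (0 : ℝ) ≤ n := Nat.cast_nonneg n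
    exact mul_nonneg (by linarith) (by linarith)
  nlinarith

end Pool.Agent.TH41.BL.FI4f
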