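import Mathlib
import Pool.Agent.TH41.BL.Stm4
import Pool.Agent.TH41.BL.FAM

/-!
Project BL4: exponentials, one kernel (`S4_famp`).
-/

set_option autoImplicit false

open MeasureTheory Filter Topology

namespace Pool.Agent.TH41.BL.FP4f

open Pool.Agent.TH41.BL

lemma QJ_norm (hqq : S_qq) (hp : S4_ph) {m : ℝ} (hm : 0 < m) (n : ℕ) {τ : ℝ}
    (hτ : Real.sinh (2 * τ) ^ 2 < m) : ‖QJ m n 0 (τ * Complex.I)‖ = 1 := by
  unfold QJ
  rw [norm_mul, (hqq n 0 (Nat.zero_le n)).2.1 τ, one_mul, Complex.norm_exp]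
  have h2 : (PJ m (τ * Complex.I)).re = 0 := (hp m hm).2.2.2.2.1 τ hτ
  have h4 : ((n : ℂ) * PJ m (τ * Complex.I)).re = (n : ℝ) * (PJ m (τ * Complex.I)).re := by
    rw [← Complex.ofReal_natCast, Complex.re_ofReal_mul]
  rw [h4, h2, mul_zero, Real.exp_zero]

lemma QJ_eq (m : ℝ) {n w : ℕ} (hw : w ≤ n) {θ τ : ℝ} (h1 : Real.cosh (2 * τ) * Real.cos θ = 1)
    (h2 : Real.sinh (2 * τ) * Real.cos θ = -Real.sin θ) :
    QJ m n w (τ * Complex.I) =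
      QJ m n 0 (τ * Complex.I) * Complex.exp ((θ * w : ℝ) * Complex.I) := by
  unfold QJ
  rw [FAMf.QQ_eq hw h1 h2]
  ring

theorem famp (hqq : S_qq) (hp : S4_ph) (hvl : S4_vl) (hvr : S4_vr) (hd : S4_dual) : S4_famp := by
  intro M P Δ ε₂ ε₃ hM hP hPM hΔ hε₂ hε₃
  obtain ⟨T, hTd⟩ : ∃ T : ℝ, T = Real.arsinh (√M) / 2 := ⟨_, rfl⟩
  obtain ⟨S, hSd⟩ : ∃ S : ℝ, S = Real.arsinh (√P) / 2 := ⟨_, rfl⟩
  have hT : 0 < T := by
    rw [hTd]
    have : 0 < Real.arsinh (√M) := Real.arsinh_pos_iff.2 (Real.sqrt_pos.2 hM)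
    linarith
  have hST : S < T := by
    rw [hSd, hTd]
    have : Real.arsinh (√P) < Real.arsinh (√M) :=
      Real.arsinh_lt_arsinh.2 (Real.sqrt_lt_sqrt hP hPM)
    linarith
  have hsinh : Real.sinh (2 * T) ^ 2 = M := by
    rw [hTd, mul_div_cancel₀ _ (by norm_num : (2 : ℝ) ≠ 0), Real.sinh_arsinh, Real.sq_sqrt hM.le]
  have hϑ : 0 < T - S := by linarith
  have hTS : T - (T - S) = S := by ring
  have hP1 : 0 < √(1 + P) := Real.sqrt_pos.2 (by linarith)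
  obtain ⟨ε₁, hε₁, n₁, hn₁⟩ := hvl M T hM hT hsinh (ε₃ / 2) 0 (Δ / √(1 + P)) (T - S) (by linarith)
    le_rfl zero_le_one (by positivity) hϑ
  obtain ⟨n₂, hn₂⟩ := hvr M T hM hT hsinh (ε₃ / 2) ε₂ (T - S) (by linarith) hε₂ hϑ
  obtain ⟨n₃, hn₃⟩ := hd M (ε₃ / 2) hM (by linarith)
  obtain ⟨n₄, hn₄⟩ := FAMf.large ε₁ hε₁
  rw [hTS] at hn₁ hn₂
  refine ⟨max (max n₁ n₂) (max n₃ n₄), fun n hn σ hσ θ hcos htan => ?_⟩
  have k1 : n₁ ≤ n := ((le_max_left _ _).trans (le_max_left _ _)).trans hn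
  have k2 : n₂ ≤ n := ((le_max_right _ _).trans (le_max_left _ _)).trans hn
  have k3 : n₃ ≤ n := ((le_max_left _ _).trans (le_max_right _ _)).trans hn
  have k4 : n₄ ≤ n := ((le_max_right _ _).trans (le_max_right _ _)).trans hn
  obtain ⟨τ, hτ1, hτ2⟩ := FAMf.exists_tau θ hcos
  have hst : Real.sinh (2 * τ) ^ 2 = Real.tan θ ^ 2 := by
    rw [Real.tan_eq_sin_div_cos, div_pow, eq_div_iff (by positivity), ← mul_pow, hτ2, neg_sq]
  have hsP : Real.sinh (2 * τ) ^ 2 ≤ P := by rw [hst]; exact htan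
  have hτS : |τ| ≤ S := by
    have h1 : Real.sinh |2 * τ| ≤ √P := by
      apply Real.le_sqrt_of_sq_le
      have h2 : Real.sinh |2 * τ| ^ 2 = Real.sinh (2 * τ) ^ 2 := by
        rcases abs_choice (2 * τ) with h | h
        · rw [h]
        · rw [h, Real.sinh_neg, neg_sq]
      rw [h2]
      exact hsP
    have h3 : |2 * τ| ≤ Real.arsinh (√P) := by
      rw [← Real.arsinh_sinh |2 * τ|]
      exact Real.arsinh_le_arsinh.2 h1
    rw [abs_mul, abs_of_pos (by norm_num : (0 : ℝ) < 2)] at h3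
    rw [hSd]
    linarith
  have hcosh : Real.cosh (2 * τ) ≤ √(1 + P) := by
    apply Real.le_sqrt_of_sq_le
    rw [Real.cosh_sq]
    linarith
  obtain ⟨q, hqd⟩ : ∃ q, q = QJ M n 0 (τ * Complex.I) := ⟨_, rfl⟩
  have hcn : ‖q‖ = 1 := by rw [hqd]; exact QJ_norm hqq hp hM n (lt_of_le_of_lt hsP hPM)
  have hq0 : q ≠ 0 := by
    intro h
    rw [h, norm_zero] at hcn
    exact zero_ne_one hcn
  have hqi : ‖q⁻¹‖ = 1 := by rw [norm_inv, hcn, inv_one]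
  refine ⟨fun w => q⁻¹ * v4 M n w σ (ε₃ / 2) 0 τ, fun w hw hb => ?_, fun w hw => ?_, fun f => ?_⟩
  · have hb2 : (0 + Δ / √(1 + P)) * Real.cosh (2 * τ) ≤
        1 - 2 * (w : ℝ) / n - THR (Real.sinh (2 * τ) ^ 2) M := by
      rw [hst, zero_add]
      refine le_trans ?_ hb
      rw [div_mul_eq_mul_div, div_le_iff₀ hP1]
      exact mul_le_mul_of_nonneg_left hcosh hΔ.le
    have h5 := hn₁ n k1 σ hσ w hw τ hτS hb2
    have h6 : q⁻¹ * v4 M n w σ (ε₃ / 2) 0 τ - Complex.exp ((θ * w : ℝ) * Complex.I) =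
        q⁻¹ * (v4 M n w σ (ε₃ / 2) 0 τ - QJ M n w (τ * Complex.I)) := by
      rw [QJ_eq M hw hτ1 hτ2, ← hqd, mul_sub, inv_mul_cancel_left₀ hq0]
    rw [h6, norm_mul, hqi, one_mul]
    exact h5.trans (hn₄ n k4)
  · rw [norm_mul, hqi, one_mul]
    exact hn₂ n k2 σ hσ w hw 0 τ (by norm_num) hτS
  · have hσ1 : |σ| ≤ 1 := by
      rcases hσ.1 with h | h <;> rw [h] <;> norm_num
    have h5 := hn₃ n k3 σ 0 τ f hσ1
    have h6 : ∑ w ∈ Finset.range (n + 1),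
        (n.choose w : ℂ) * (q⁻¹ * v4 M n w σ (ε₃ / 2) 0 τ) * (f w : ℂ) =
        q⁻¹ * ∑ w ∈ Finset.range (n + 1),
          (n.choose w : ℂ) * v4 M n w σ (ε₃ / 2) 0 τ * (f w : ℂ) := by
      rw [Finset.mul_sum]
      exact Finset.sum_congr rfl fun w _ => by ring
    rw [h6, norm_mul, hqi, one_mul]
    refine h5.trans (mul_le_mul_of_nonneg_right ?_ (FAMf.NN_nonneg n f))
    rw [Real.exp_le_exp]
    refine mul_le_mul_of_nonneg_left ?_ (Nat.cast_nonneg n)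
    rw [abs_zero]
    linarith

end Pool.Agent.TH41.BL.FP4f
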