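import Mathlib
import Pool.Agent.TH41.BL.Stm4
import Pool.Agent.TH41.BL.N3A
import Pool.Agent.TH41.BL.N3B

set_option autoImplicit false

/-!
Analyticity and symmetries of the additional factor.
-/

open MeasureTheory Filter Topology

namespace Pool.Agent.TH41.BL.JA4f

open Pool.Agent.TH41.BL
open Pool.Agent.TH41.BL.N3Af (sq_ne sq_hasDerivAt sq_continuousOn inv_hasDerivAt)
open Pool.Agent.TH41.BL.N3Bf (sq_conj sq_real)

/-- the values of the sine -/
lemma sin_parts (s : ℂ) : (Complex.sin (2 * s)).re = Real.sin (2 * s.re) * Real.cosh (2 * s.im) ∧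
    (Complex.sin (2 * s)).im = Real.cos (2 * s.re) * Real.sinh (2 * s.im) := by
  have h : Complex.sin (2 * s) = ((Real.sin (2 * s.re) * Real.cosh (2 * s.im) : ℝ) : ℂ) +
      ((Real.cos (2 * s.re) * Real.sinh (2 * s.im) : ℝ) : ℂ) * Complex.I := by
    conv_lhs => rw [← Complex.re_add_im s]
    rw [mul_add, Complex.sin_add, ← mul_assoc, Complex.cos_mul_I, Complex.sin_mul_I]
    push_cast
    ring
  rw [h]
  constructor
  · rw [Complex.add_re, Complex.re_ofReal_mul, Complex.I_re, Complex.ofReal_re]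
    ring
  · rw [Complex.add_im, Complex.im_ofReal_mul, Complex.I_im, Complex.ofReal_im]
    ring

/-- the quantity under the square root avoids the cut -/
lemma slit {m y : ℝ} {s : ℂ} (hm : 0 < m) (hym : m ≤ y) (hs : s ∈ DJ m) :
    (y : ℂ) + Complex.sin (2 * s) ^ 2 ∈ Complex.slitPlane := by
  obtain ⟨hre, him⟩ := sin_parts s
  have h1 : ((y : ℂ) + Complex.sin (2 * s) ^ 2).re =
      y + ((Real.sin (2 * s.re) * Real.cosh (2 * s.im)) ^ 2 -
        (Real.cos (2 * s.re) * Real.sinh (2 * s.im)) ^ 2) := by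
    rw [← hre, ← him, Complex.add_re, Complex.ofReal_re, pow_two, Complex.mul_re]
    ring
  have h2 : ((y : ℂ) + Complex.sin (2 * s) ^ 2).im =
      2 * (Real.sin (2 * s.re) * Real.cosh (2 * s.im)) *
        (Real.cos (2 * s.re) * Real.sinh (2 * s.im)) := by
    rw [← hre, ← him, Complex.add_im, Complex.ofReal_im, pow_two, Complex.mul_im]
    ring
  have hy : 0 < y := lt_of_lt_of_le hm hym
  rw [Complex.mem_slitPlane_iff]
  by_cases hi : ((y : ℂ) + Complex.sin (2 * s) ^ 2).im = 0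
  swap
  · exact Or.inr hi
  left
  rw [h2] at hi
  rw [h1]
  rcases mul_eq_zero.1 hi with h3 | h3
  · rcases mul_eq_zero.1 h3 with h4 | h4
    · norm_num at h4
    · rcases mul_eq_zero.1 h4 with h5 | h5
      · -- the sine vanishes
        obtain ⟨h6, h7⟩ := hs
        obtain ⟨h8, h9⟩ := abs_lt.1 h6
        have h10 : 2 * s.re = 0 :=
          (Real.sin_eq_zero_iff_of_lt_of_lt (by linarith) (by linarith)).1 h5
        have h11 : s.re = 0 := by linarith
        rcases h7 with h7 | h7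
        · exact absurd h11 h7
        · rw [h5, h10, Real.cos_zero]
          nlinarith
      · exact absurd h5 (Real.cosh_pos _).ne'
  · rcases mul_eq_zero.1 h3 with h4 | h4
    · rw [h4]
      have : 0 ≤ (Real.sin (2 * s.re) * Real.cosh (2 * s.im)) ^ 2 := sq_nonneg _
      nlinarith
    · rw [h4]
      have : 0 ≤ (Real.sin (2 * s.re) * Real.cosh (2 * s.im)) ^ 2 := sq_nonneg _
      nlinarith

lemma isOpen_DJ (m : ℝ) : IsOpen (DJ m) := by
  have h1 : IsOpen {s : ℂ | |s.re| < Real.pi / 2} :=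
    isOpen_lt (Complex.continuous_re.abs) continuous_const
  have h2 : IsOpen {s : ℂ | s.re ≠ 0} := isOpen_ne_fun Complex.continuous_re continuous_const
  have h3 : IsOpen {s : ℂ | Real.sinh (2 * s.im) ^ 2 < m} :=
    isOpen_lt ((Real.continuous_sinh.comp (continuous_const.mul Complex.continuous_im)).pow 2)
      continuous_const
  exact h1.inter (h2.union h3)

lemma norm_sq (z : ℂ) (hz : z ≠ 0) : ‖sq z‖ = √‖z‖ := by
  unfold sq
  rw [Complex.norm_exp]
  have h1 : (Complex.log z / 2).re = Real.log ‖z‖ / 2 := by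
    have : Complex.log z / 2 = Complex.log z / ((2 : ℝ) : ℂ) := by push_cast; rfl
    rw [this, Complex.div_ofReal_re, Complex.log_re]
  have hn : 0 < ‖z‖ := norm_pos_iff.2 hz
  rw [h1]
  symm
  rw [Real.sqrt_eq_iff_mul_self_eq hn.le (Real.exp_pos _).le, ← Real.exp_add]
  rw [add_halves, Real.exp_log hn]

lemma sin_cont : Continuous fun s : ℂ => Complex.sin (2 * s) ^ 2 := by fun_prop

/-- the radicand is bounded below -/
lemma low {m r : ℝ} {s₀ : ℂ} (hm : 0 < m) (hr : 0 ≤ r) (hball : Metric.closedBall s₀ r ⊆ DJ m) :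
    ∃ δ : ℝ, 0 < δ ∧ ∀ s ∈ Metric.closedBall s₀ r, ∀ y : ℝ, m ≤ y →
      δ ≤ ‖(y : ℂ) + Complex.sin (2 * s) ^ 2‖ := by
  obtain ⟨Z, hZ⟩ := (isCompact_closedBall s₀ r).exists_bound_of_continuousOn sin_cont.continuousOn
  have hZ0 : 0 ≤ Z := (norm_nonneg _).trans (hZ s₀ (Metric.mem_closedBall_self hr))
  have hK : IsCompact (Metric.closedBall s₀ r ×ˢ Set.Icc m (m + Z + 1)) :=
    (isCompact_closedBall s₀ r).prod isCompact_Icc
  have hne : (Metric.closedBall s₀ r ×ˢ Set.Icc m (m + Z + 1)).Nonempty :=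
    ⟨(s₀, m), Metric.mem_closedBall_self hr, le_rfl, by linarith⟩
  have hc : Continuous fun p : ℂ × ℝ => ‖(p.2 : ℂ) + Complex.sin (2 * p.1) ^ 2‖ := by fun_prop
  obtain ⟨p, hp, hmin⟩ := hK.exists_isMinOn hne hc.continuousOn
  have hp0 : 0 < ‖(p.2 : ℂ) + Complex.sin (2 * p.1) ^ 2‖ :=
    norm_pos_iff.2 (Complex.slitPlane_ne_zero (slit hm hp.2.1 (hball hp.1)))
  refine ⟨min ‖(p.2 : ℂ) + Complex.sin (2 * p.1) ^ 2‖ 1, lt_min hp0 one_pos, fun s hs y hy => ?_⟩
  rcases le_or_gt y (m + Z + 1) with h | h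
  · exact (min_le_left _ _).trans (hmin (show (s, y) ∈ _ from ⟨hs, hy, h⟩))
  · refine (min_le_right _ _).trans ?_
    have h1 := hZ s hs
    have h2 : ‖(y : ℂ)‖ = y := by
      rw [Complex.norm_real, Real.norm_of_nonneg (by linarith)]
    have h3 := norm_sub_le_norm_add (y : ℂ) (Complex.sin (2 * s) ^ 2)
    linarith

lemma g_hasDerivAt (y s : ℂ) : HasDerivAt (fun s : ℂ => y + Complex.sin (2 * s) ^ 2)
    (4 * Complex.sin (2 * s) * Complex.cos (2 * s)) s := by
  have h0 : HasDerivAt (fun s : ℂ => 2 * s) 2 s := by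
    simpa using (hasDerivAt_id s).const_mul (2 : ℂ)
  have h1 := ((h0.csin).pow 2).const_add y
  refine h1.congr_deriv ?_
  push_cast
  ring

theorem diff (hi : S4_w) (hw : S3_w) (m : ℝ) (hm : 0 < m) (s₀ : ℂ) (hs₀ : s₀ ∈ DJ m) :
    DifferentiableAt ℂ (JJ m) s₀ := by
  obtain ⟨ε, hε, hball⟩ := Metric.isOpen_iff.1 (isOpen_DJ m) s₀ hs₀
  have hε2 : 0 < ε / 2 := by linarith
  have hcb : Metric.closedBall s₀ (ε / 2) ⊆ DJ m := fun x hx => hball
    (Metric.mem_ball.2 (lt_of_le_of_lt (Metric.mem_closedBall.1 hx) (by linarith)))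
  obtain ⟨δ, hδ, hlow⟩ := low hm hε2.le hcb
  have hgc : Continuous fun s : ℂ => 4 * Complex.sin (2 * s) * Complex.cos (2 * s) := by fun_prop
  obtain ⟨G, hG⟩ := (isCompact_closedBall s₀ (ε / 2)).exists_bound_of_continuousOn hgc.continuousOn
  have hsub : Set.Ioi m ⊆ Set.Ioi (0:ℝ) := Set.Ioi_subset_Ioi hm.le
  have hWi : IntegrableOn WN (Set.Ioi m) := hi.1.1.mono_set hsub
  have hWc : ContinuousOn (fun y : ℝ => (2 * WN y : ℂ)) (Set.Ioi m) := by
    refine continuousOn_const.mul (Complex.continuous_ofReal.comp_continuousOn ?_)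
    exact hw.1.mono fun x hx => (lt_trans hm hx).le
  have hF : ∀ s ∈ DJ m, AEStronglyMeasurable
      (fun y : ℝ => (2 * WN y : ℂ) / sq (y + Complex.sin (2 * s) ^ 2))
      (volume.restrict (Set.Ioi m)) := by
    intro s _
    exact ((hi.2 (Complex.sin (2 * s) ^ 2)).1.mono_set hsub).aestronglyMeasurable
  have hrad : ContinuousOn (fun y : ℝ => (y : ℂ) + Complex.sin (2 * s₀) ^ 2) (Set.Ioi m) := by
    fun_prop
  have hmaps : Set.MapsTo (fun y : ℝ => (y : ℂ) + Complex.sin (2 * s₀) ^ 2) (Set.Ioi m)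
      Complex.slitPlane := fun y hy => slit hm (le_of_lt hy) hs₀
  have key := hasDerivAt_integral_of_dominated_loc_of_deriv_le
    (μ := volume.restrict (Set.Ioi m))
    (F := fun (s : ℂ) (y : ℝ) => (2 * WN y : ℂ) / sq (y + Complex.sin (2 * s) ^ 2))
    (F' := fun (s : ℂ) (y : ℝ) => -((2 * WN y : ℂ) * (((y : ℂ) + Complex.sin (2 * s) ^ 2)⁻¹ / 2 *
      (4 * Complex.sin (2 * s) * Complex.cos (2 * s)))) / sq (y + Complex.sin (2 * s) ^ 2))
    (x₀ := s₀) (s := Metric.closedBall s₀ (ε / 2))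
    (bound := fun y => (δ⁻¹ * G / √δ) * WN y)
    (Metric.closedBall_mem_nhds s₀ hε2)
    (by
      filter_upwards [Metric.closedBall_mem_nhds s₀ hε2] with s hs
      exact hF s (hcb hs))
    ((hi.2 (Complex.sin (2 * s₀) ^ 2)).1.mono_set hsub)
    (by
      refine ContinuousOn.aestronglyMeasurable ?_ measurableSet_Ioi
      refine ContinuousOn.div ?_ (sq_continuousOn.comp hrad hmaps) fun y _ => sq_ne _
      refine (hWc.mul (ContinuousOn.mul ?_ continuousOn_const)).neg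
      exact (hrad.inv₀ fun y hy => Complex.slitPlane_ne_zero (hmaps hy)).div_const 2)
    (by
      rw [ae_restrict_iff' measurableSet_Ioi]
      refine Eventually.of_forall fun y hy s hs => ?_
      have hy' : m ≤ y := le_of_lt hy
      have h1 := hlow s hs y hy'
      have hW := (hw.2.1 y (by linarith)).1
      have hz := Complex.slitPlane_ne_zero (slit hm hy' (hcb hs))
      set z := (y : ℂ) + Complex.sin (2 * s) ^ 2 with hzd
      have hg := hG s hs
      have e2 : ‖(2 : ℂ)‖ = 2 := by norm_num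
      have e3 : ‖(2 * WN y : ℂ)‖ = 2 * WN y := by
        rw [norm_mul, e2, Complex.norm_real, Real.norm_of_nonneg hW.le]
      have e4 : ‖z⁻¹ / 2 * (4 * Complex.sin (2 * s) * Complex.cos (2 * s))‖ =
          ‖z‖⁻¹ / 2 * ‖4 * Complex.sin (2 * s) * Complex.cos (2 * s)‖ := by
        rw [norm_mul, norm_div, norm_inv, e2]
      rw [norm_div, norm_neg, norm_mul, e3, e4, norm_sq z hz]
      have h2 : √δ ≤ √‖z‖ := Real.sqrt_le_sqrt h1
      have h3 : 0 < √δ := Real.sqrt_pos.2 hδ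
      have h4 : ‖z‖⁻¹ ≤ δ⁻¹ := inv_anti₀ hδ h1
      have hG0 : 0 ≤ G := (norm_nonneg _).trans hg
      calc 2 * WN y * (‖z‖⁻¹ / 2 * ‖4 * Complex.sin (2 * s) * Complex.cos (2 * s)‖) / √‖z‖
          ≤ 2 * WN y * (δ⁻¹ / 2 * G) / √δ := by gcongr
        _ = (δ⁻¹ * G / √δ) * WN y := by ring)
    (hWi.const_mul _)
    (by
      rw [ae_restrict_iff' measurableSet_Ioi]
      refine Eventually.of_forall fun y hy s hs => ?_
      exact inv_hasDerivAt (g_hasDerivAt y s) (slit hm (le_of_lt hy) (hcb hs)))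
  exact key.2.differentiableAt

theorem bound (hi : S4_w) (m : ℝ) (hm : 0 < m) (s : ℂ) : ‖JJ m s‖ ≤ 4 := by
  have hsub : Set.Ioi m ⊆ Set.Ioi (0:ℝ) := Set.Ioi_subset_Ioi hm.le
  obtain ⟨h1, h2⟩ := hi.2 (Complex.sin (2 * s) ^ 2)
  unfold JJ
  refine (norm_integral_le_integral_norm _).trans (le_trans ?_ h2)
  exact setIntegral_mono_set h1.norm (Eventually.of_forall fun _ => norm_nonneg _)
    (Eventually.of_forall hsub)

theorem symm (m : ℝ) (hm : 0 < m) (s : ℂ) (hs : s ∈ DJ m) :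
    JJ m ((starRingEnd ℂ) s) = (starRingEnd ℂ) (JJ m s) := by
  unfold JJ
  rw [← integral_conj]
  refine setIntegral_congr_fun measurableSet_Ioi fun y hy => ?_
  have h1 := slit hm (le_of_lt hy) hs
  have h2 : (y : ℂ) + Complex.sin (2 * (starRingEnd ℂ) s) ^ 2 =
      (starRingEnd ℂ) ((y : ℂ) + Complex.sin (2 * s) ^ 2) := by
    rw [map_add, map_pow, ← Complex.sin_conj, map_mul, Complex.conj_ofReal, map_ofNat]
  rw [h2, sq_conj _ h1, map_div₀, map_mul, Complex.conj_ofReal, map_ofNat]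

/-- real values -/
theorem real_val (m c : ℝ) (s : ℂ) (hs : Complex.sin (2 * s) ^ 2 = (c : ℂ))
    (hc : ∀ y : ℝ, m < y → 0 < y + c) :
    JJ m s = ((∫ y in Set.Ioi m, 2 * WN y / √(y + c) : ℝ) : ℂ) := by
  unfold JJ
  rw [← integral_complex_ofReal]
  refine setIntegral_congr_fun measurableSet_Ioi fun y hy => ?_
  rw [hs, ← Complex.ofReal_add, sq_real _ (hc y hy)]
  push_cast
  rfl

theorem real_int (hi : S4_w) (m c : ℝ) (hm : 0 < m) (hc : ∀ y : ℝ, m < y → 0 < y + c) :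
    IntegrableOn (fun y : ℝ => 2 * WN y / √(y + c)) (Set.Ioi m) := by
  have hsub : Set.Ioi m ⊆ Set.Ioi (0:ℝ) := Set.Ioi_subset_Ioi hm.le
  have h1 : IntegrableOn (fun y : ℝ => ((2 * WN y : ℂ) / sq ((y : ℂ) + (c : ℂ))).re) (Set.Ioi m) :=
    ((hi.2 (c : ℂ)).1.mono_set hsub).re
  refine h1.congr_fun (fun y hy => ?_) measurableSet_Ioi
  have e : (2 * WN y : ℂ) / sq ((y : ℂ) + (c : ℂ)) = ((2 * WN y / √(y + c) : ℝ) : ℂ) := by
    rw [← Complex.ofReal_add, sq_real _ (hc y hy)]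
    push_cast
    rfl
  simp only
  rw [e]
  exact Complex.ofReal_re _

theorem ja (hi : S4_w) (hw : S3_w) : S4_ja := by
  intro m hm
  refine ⟨fun s hs => diff hi hw m hm s hs, fun s => bound hi m hm s,
    fun s hs => symm m hm s hs, fun t => ?_, fun t ht => ?_, fun x => ?_⟩
  · have h1 : Complex.sin (2 * ((Real.pi / 4 : ℝ) + t * Complex.I)) ^ 2 =
        ((Real.cosh (2 * t) ^ 2 : ℝ) : ℂ) := by
      have : 2 * (((Real.pi / 4 : ℝ) : ℂ) + t * Complex.I) =
          (2 * t : ℂ) * Complex.I + Real.pi / 2 := by push_cast; ring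
      rw [this, Complex.sin_add_pi_div_two, Complex.cos_mul_I]
      push_cast
      rfl
    rw [real_val m _ _ h1 (fun y hy => add_pos (by linarith) (by positivity)), Complex.ofReal_im]
  · have h1 : Complex.sin (2 * (t * Complex.I)) ^ 2 = ((-(Real.sinh (2 * t) ^ 2) : ℝ) : ℂ) := by
      have : 2 * ((t : ℂ) * Complex.I) = (2 * t : ℂ) * Complex.I := by ring
      rw [this, Complex.sin_mul_I, mul_pow, Complex.I_sq]
      push_cast
      ring
    have h2 : Complex.sin (2 * 0) ^ 2 = ((0 : ℝ) : ℂ) := by simp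
    have hc1 : ∀ y : ℝ, m < y → 0 < y + -(Real.sinh (2 * t) ^ 2) := fun y hy => by linarith
    have hc2 : ∀ y : ℝ, m < y → 0 < y + 0 := fun y hy => by linarith
    rw [real_val m _ _ h1 hc1, real_val m _ _ h2 hc2, Complex.ofReal_im, Complex.ofReal_re,
      Complex.ofReal_re]
    refine ⟨rfl, ?_⟩
    refine setIntegral_mono_on (real_int hi m _ hm hc2) (real_int hi m _ hm hc1)
      measurableSet_Ioi fun y hy => ?_
    have hy' : m < y := hy
    have hW := (hw.2.1 y (by linarith)).1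
    have h3 : √(y + -(Real.sinh (2 * t) ^ 2)) ≤ √(y + 0) :=
      Real.sqrt_le_sqrt (by nlinarith [sq_nonneg (Real.sinh (2 * t))])
    have h4 : 0 < √(y + -(Real.sinh (2 * t) ^ 2)) := Real.sqrt_pos.2 (hc1 y hy')
    gcongr
  · have h1 : Complex.sin (2 * (x : ℂ)) ^ 2 = ((Real.sin (2 * x) ^ 2 : ℝ) : ℂ) := by
      push_cast
      rfl
    rw [real_val m _ _ h1 (fun y hy => by
      have := sq_nonneg (Real.sin (2 * x))
      linarith), Complex.ofReal_im]

end Pool.Agent.TH41.BL.JA4f
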