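import Mathlib
import Pool.Agent.TH41.BL.Stm4
import Pool.Agent.TH41.BL.JA4
import Pool.Agent.TH41.BL.LMA
import Pool.Agent.TH41.BL.LZC
import Pool.Agent.TH41.BL.N3A

/-! Project BL4: the continuation through the cut (helper999). -/

set_option autoImplicit false

open MeasureTheory Filter Topology

namespace Pool.Agent.TH41.BL.GL4f

open Pool.Agent.TH41.BL

/-! ### The square root -/

lemma sq_pow {z : ℂ} (hz : z ≠ 0) : sq z ^ 2 = z := by
  unfold sq
  rw [← Complex.exp_nat_mul]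
  have h : ((2 : ℕ) : ℂ) * (Complex.log z / 2) = Complex.log z := by push_cast; ring
  rw [h, Complex.exp_log hz]

lemma half_im (z : ℂ) : (Complex.log z / 2).im = z.arg / 2 := by
  have h : Complex.log z / 2 = Complex.log z / ((2 : ℝ) : ℂ) := by push_cast; rfl
  rw [h, Complex.div_ofReal_im, Complex.log_im]

lemma sq_re_nonneg (z : ℂ) : 0 ≤ (sq z).re := by
  unfold sq
  rw [Complex.exp_re, half_im]
  have h2 := Complex.neg_pi_lt_arg z
  have h3 := Complex.arg_le_pi z
  exact mul_nonneg (Real.exp_pos _).le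
    (Real.cos_nonneg_of_neg_pi_div_two_le_of_le (by linarith) (by linarith))

lemma sq_re_pos {z : ℂ} (hz : z ∈ Complex.slitPlane) : 0 < (sq z).re := by
  unfold sq
  rw [Complex.exp_re, half_im]
  have h2 := Complex.neg_pi_lt_arg z
  have h3 := lt_of_le_of_ne (Complex.arg_le_pi z) (Complex.mem_slitPlane_iff_arg.1 hz).1
  exact mul_pos (Real.exp_pos _)
    (Real.cos_pos_of_mem_Ioo ⟨by linarith, by linarith⟩)

lemma sq_of_pow {z p : ℂ} (hz : z ≠ 0) (hp : 0 < p.re) (h : p ^ 2 = z) : sq z = p := by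
  have h1 : sq z ^ 2 = p ^ 2 := by rw [sq_pow hz, h]
  rcases sq_eq_sq_iff_eq_or_eq_neg.1 h1 with h2 | h2
  · exact h2
  · exfalso
    have h3 := sq_re_nonneg z
    rw [h2, Complex.neg_re] at h3
    linarith

/-- the square root of a sum -/
lemma sq_add {a : ℂ} {y : ℝ} (ha : 0 < a.re) (ha' : a.im ≠ 0)
    (hs : 1 + (y : ℂ) * (1 / a ^ 2) ∈ Complex.slitPlane) :
    sq ((y : ℂ) + a ^ 2) = a * sq (1 + (y : ℂ) * (1 / a ^ 2)) := by
  have ha0 : a ≠ 0 := by
    rintro rfl
    simp at ha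
  have hq := sq_re_pos hs
  have hq2 := sq_pow (Complex.slitPlane_ne_zero hs)
  set q := sq (1 + (y : ℂ) * (1 / a ^ 2)) with hqd
  have hp2 : (a * q) ^ 2 = (y : ℂ) + a ^ 2 := by
    rw [mul_pow, hq2]
    field_simp
    ring
  have hne : (y : ℂ) + a ^ 2 ≠ 0 := by
    rw [← hp2]
    refine pow_ne_zero 2 (mul_ne_zero ha0 ?_)
    intro h
    rw [h] at hq
    simp at hq
  refine sq_of_pow hne ?_ hp2
  -- the real part
  set p := a * q with hpd
  have h1 : 2 * (p.re * p.im) = 2 * (a.re * a.im) := by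
    have := congrArg Complex.im hp2
    simp only [pow_two, Complex.mul_im, Complex.add_im, Complex.ofReal_im] at this
    linarith
  have h2 : q.re * (a.re ^ 2 + a.im ^ 2) = p.re * a.re + p.im * a.im := by
    rw [hpd, Complex.mul_re, Complex.mul_im]
    ring
  by_contra hcon
  push Not at hcon
  have hpre : p.re ≠ 0 := by
    intro h
    rw [h] at h1
    have : a.re * a.im ≠ 0 := mul_ne_zero ha.ne' ha'
    apply this
    linarith
  have hpneg : p.re < 0 := lt_of_le_of_ne hcon hpre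
  have h3 : 0 < a.im ^ 2 := by positivity
  have h4 : p.re * (p.im * a.im) = a.re * a.im ^ 2 := by
    have : p.re * p.im = a.re * a.im := by linarith
    calc p.re * (p.im * a.im) = (p.re * p.im) * a.im := by ring
      _ = a.re * a.im ^ 2 := by rw [this]; ring
  have h5 : p.im * a.im < 0 := by
    by_contra h
    push Not at h
    have : 0 < a.re * a.im ^ 2 := mul_pos ha h3
    nlinarith
  have h6 : 0 < q.re * (a.re ^ 2 + a.im ^ 2) := by positivity
  nlinarith

/-! ### The region -/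

/-- the region above and below the cut -/
def VV (m : ℝ) : Set ℂ := {s : ℂ | |s.re| < Real.pi / 8 ∧ m < Real.sinh (2 * s.im) ^ 2}

/-- the domain of the transform -/
def OO (m : ℝ) : Set ℂ := {z : ℂ | z.im ≠ 0 ∨ -1 < m * z.re}

lemma isOpen_OO (m : ℝ) : IsOpen (OO m) := by
  have h1 : IsOpen {z : ℂ | z.im ≠ 0} := isOpen_ne_fun Complex.continuous_im continuous_const
  have h2 : IsOpen {z : ℂ | -1 < m * z.re} :=
    isOpen_lt continuous_const (continuous_const.mul Complex.continuous_re)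
  exact h1.union h2

lemma slit_OO {m y : ℝ} {z : ℂ} (hy0 : 0 ≤ y) (hym : y ≤ m) (hz : z ∈ OO m) :
    1 + (y : ℂ) * z ∈ Complex.slitPlane := by
  have hre : (1 + (y : ℂ) * z).re = 1 + y * z.re := by simp
  have him : (1 + (y : ℂ) * z).im = y * z.im := by simp
  rw [Complex.mem_slitPlane_iff, hre, him]
  rcases eq_or_lt_of_le hy0 with h0 | h0
  · left
    rw [← h0]
    norm_num
  · rcases hz with h | h
    · right
      exact mul_ne_zero h0.ne' h
    · left
      rcases le_or_gt 0 z.re with h1 | h1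
      · have := mul_nonneg hy0 h1
        linarith
      · nlinarith

lemma VV_im {m : ℝ} (hm : 0 < m) {s : ℂ} (hs : s ∈ VV m) : (Complex.sin (2 * s)).im ≠ 0 := by
  rw [(JA4f.sin_parts s).2]
  obtain ⟨h1, h2⟩ := hs
  obtain ⟨h3, h4⟩ := abs_lt.1 h1
  have hpi := Real.pi_pos
  have h5 : 0 < Real.cos (2 * s.re) :=
    Real.cos_pos_of_mem_Ioo ⟨by linarith, by linarith⟩
  refine mul_ne_zero h5.ne' ?_
  intro h
  rw [h] at h2
  norm_num at h2
  linarith

lemma VV_sin {m : ℝ} (hm : 0 < m) {s : ℂ} (hs : s ∈ VV m) : Complex.sin (2 * s) ≠ 0 := by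
  intro h
  apply VV_im hm hs
  rw [h]
  rfl

lemma VV_cos {m : ℝ} {s : ℂ} (hs : s ∈ VV m) : Complex.cos s ≠ 0 := by
  intro h
  obtain ⟨h1, h2⟩ := abs_lt.1 hs.1
  have hpi := Real.pi_pos
  obtain ⟨k, hk⟩ := Complex.cos_eq_zero_iff.1 h
  have hre : s.re = (2 * k + 1) * Real.pi / 2 := by
    have := congrArg Complex.re hk
    have e : ((2 * (k : ℂ) + 1) * (Real.pi : ℂ) / 2) =
        (((2 * (k : ℝ) + 1) * Real.pi / 2 : ℝ) : ℂ) := by push_cast; ring
    rw [e, Complex.ofReal_re] at this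
    exact this
  have h3 : (2 * (k : ℝ) + 1) < 1 := by
    by_contra hc
    push Not at hc
    nlinarith
  have h4 : -1 < (2 * (k : ℝ) + 1) := by
    by_contra hc
    push Not at hc
    nlinarith
  have h5 : (k : ℝ) < 0 := by linarith
  have h6 : -1 < (k : ℝ) := by linarith
  have h5' : k < 0 := by exact_mod_cast h5
  have h6' : -1 < k := by exact_mod_cast h6
  omega

lemma VV_OO {m : ℝ} (hm : 0 < m) {s : ℂ} (hs : s ∈ VV m) :
    1 / Complex.sin (2 * s) ^ 2 ∈ OO m := by
  have h0 := VV_sin hm hs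
  have him := VV_im hm hs
  obtain ⟨p1, p2⟩ := JA4f.sin_parts s
  by_cases hre : (Complex.sin (2 * s)).re = 0
  · right
    -- the real part vanishes
    rw [p1] at hre
    have h3 : Real.sin (2 * s.re) = 0 := by
      rcases mul_eq_zero.1 hre with h | h
      · exact h
      · exact absurd h (Real.cosh_pos _).ne'
    obtain ⟨h1, h2⟩ := abs_lt.1 hs.1
    have hpi := Real.pi_pos
    have h4 : 2 * s.re = 0 :=
      (Real.sin_eq_zero_iff_of_lt_of_lt (by linarith) (by linarith)).1 h3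
    have h5 : Complex.sin (2 * s) = ((Real.sinh (2 * s.im) : ℝ) : ℂ) * Complex.I := by
      apply Complex.ext
      · rw [p1, h3, Complex.re_ofReal_mul, Complex.I_re]
        ring
      · rw [p2, h4, Real.cos_zero, Complex.im_ofReal_mul, Complex.I_im]
        ring
    have h6 : 1 / Complex.sin (2 * s) ^ 2 = ((-(1 / Real.sinh (2 * s.im) ^ 2) : ℝ) : ℂ) := by
      rw [h5, mul_pow, Complex.I_sq]
      push_cast
      rw [mul_neg_one, div_neg]
    rw [h6, Complex.ofReal_re]
    have h7 := hs.2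
    have h8 : 0 < Real.sinh (2 * s.im) ^ 2 := lt_trans hm h7
    have h9 : m * (1 / Real.sinh (2 * s.im) ^ 2) < 1 := by
      rw [mul_one_div, div_lt_one h8]
      exact h7
    linarith
  · left
    intro h
    have h1 : (Complex.sin (2 * s) ^ 2).im = 0 := by
      rw [one_div, Complex.inv_im] at h
      rcases div_eq_zero_iff.1 h with h2 | h2
      · linarith
      · exfalso
        have := Complex.normSq_eq_zero.1 h2
        exact pow_ne_zero 2 h0 this
    rw [pow_two, Complex.mul_im] at h1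
    have h2 : (Complex.sin (2 * s)).re * (Complex.sin (2 * s)).im = 0 := by linarith
    rcases mul_eq_zero.1 h2 with h3 | h3
    · exact hre h3
    · exact him h3

lemma VV_neg {m : ℝ} {s : ℂ} (hs : s ∈ VV m) : -s ∈ VV m := by
  obtain ⟨h1, h2⟩ := hs
  refine ⟨?_, ?_⟩
  · rw [Complex.neg_re, abs_neg]
    exact h1
  · rw [Complex.neg_im, mul_neg, Real.sinh_neg, neg_sq]
    exact h2

/-! ### The continued derivative -/

/-- the transform of the weight -/
noncomputable def HH (m : ℝ) (z : ℂ) : ℂ := ∫ y in (0 : ℝ)..m, (2 * WN y : ℂ) / sq (1 + y * z)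

/-- the continued derivative -/
noncomputable def LL (m : ℝ) (s : ℂ) : ℂ :=
  Complex.tan s - (1 / Complex.sin (2 * s)) * HH m (1 / Complex.sin (2 * s) ^ 2)

lemma HH_diff (hw : S3_w) {m : ℝ} (hm : 0 < m) {z₀ : ℂ} (hz₀ : z₀ ∈ OO m) :
    DifferentiableAt ℂ (HH m) z₀ := by
  obtain ⟨ε, hε, hball⟩ := Metric.isOpen_iff.1 (isOpen_OO m) z₀ hz₀
  have hε2 : 0 < ε / 2 := by linarith
  have hcb : Metric.closedBall z₀ (ε / 2) ⊆ OO m := fun x hx => hball
    (Metric.mem_ball.2 (lt_of_le_of_lt (Metric.mem_closedBall.1 hx) (by linarith)))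
  have hWc : ContinuousOn WN (Set.Icc 0 m) := hw.1.mono fun x hx => hx.1
  have hgc : ContinuousOn (fun p : ℂ × ℝ => 1 + (p.2 : ℂ) * p.1)
      (Metric.closedBall z₀ (ε / 2) ×ˢ Set.Icc 0 m) :=
    (continuous_const.add ((Complex.continuous_ofReal.comp continuous_snd).mul
      continuous_fst)).continuousOn
  have hmaps : Set.MapsTo (fun p : ℂ × ℝ => 1 + (p.2 : ℂ) * p.1)
      (Metric.closedBall z₀ (ε / 2) ×ˢ Set.Icc 0 m) Complex.slitPlane := fun p hp =>
    slit_OO hp.2.1 hp.2.2 (hcb hp.1)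
  have hsqc : ContinuousOn (fun p : ℂ × ℝ => sq (1 + (p.2 : ℂ) * p.1))
      (Metric.closedBall z₀ (ε / 2) ×ˢ Set.Icc 0 m) := N3Af.sq_continuousOn.comp hgc hmaps
  have hWc2 : ContinuousOn (fun p : ℂ × ℝ => (2 * WN p.2 : ℂ))
      (Metric.closedBall z₀ (ε / 2) ×ˢ Set.Icc 0 m) :=
    continuousOn_const.mul (Complex.continuous_ofReal.comp_continuousOn
      (hWc.comp continuous_snd.continuousOn fun p hp => hp.2))
  have hyc : ContinuousOn (fun p : ℂ × ℝ => (p.2 : ℂ))
      (Metric.closedBall z₀ (ε / 2) ×ˢ Set.Icc 0 m) :=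
    (Complex.continuous_ofReal.comp continuous_snd).continuousOn
  have hg : ∀ (y z : ℂ), HasDerivAt (fun z : ℂ => 1 + y * z) y z := by
    intro y z
    simpa using ((hasDerivAt_id z).const_mul y).const_add 1
  have key := N3Af.param (F := fun z y => (2 * WN y : ℂ) / sq (1 + (y : ℂ) * z))
    (F' := fun z y => -((2 * WN y : ℂ) * ((1 + (y : ℂ) * z)⁻¹ / 2 * (y : ℂ))) /
      sq (1 + (y : ℂ) * z))
    (s₀ := z₀) hm hε2
    (hWc2.div hsqc fun p _ => N3Af.sq_ne _)
    ((hWc2.mul (((hgc.inv₀ fun p hp => Complex.slitPlane_ne_zero (hmaps hp)).div_const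
      2).mul hyc)).neg.div hsqc fun p _ => N3Af.sq_ne _)
    (fun z hz y hy => N3Af.inv_hasDerivAt (hg y z) (slit_OO hy.1 hy.2 (hcb hz)))
  exact key.differentiableAt

lemma LL_diff (hw : S3_w) {m : ℝ} (hm : 0 < m) {s : ℂ} (hs : s ∈ VV m) :
    DifferentiableAt ℂ (LL m) s := by
  have h0 := VV_sin hm hs
  have h2s : DifferentiableAt ℂ (fun s : ℂ => Complex.sin (2 * s)) s := by fun_prop
  have h1 : DifferentiableAt ℂ Complex.tan s := Complex.differentiableAt_tan.2 (VV_cos hs)
  have h2 : DifferentiableAt ℂ (fun s : ℂ => 1 / Complex.sin (2 * s)) s :=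
    (differentiableAt_const _).div h2s h0
  have h3 : DifferentiableAt ℂ (fun s : ℂ => 1 / Complex.sin (2 * s) ^ 2) s :=
    (differentiableAt_const _).div (h2s.pow 2) (pow_ne_zero 2 h0)
  have h4 : DifferentiableAt ℂ (fun s : ℂ => HH m (1 / Complex.sin (2 * s) ^ 2)) s :=
    DifferentiableAt.comp (g := HH m) (f := fun s : ℂ => 1 / Complex.sin (2 * s) ^ 2) s
      (HH_diff hw hm (VV_OO hm hs)) h3
  exact h1.sub (h2.mul h4)

lemma LL_neg (m : ℝ) (s : ℂ) : LL m (-s) = -LL m s := by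
  unfold LL
  rw [mul_neg, Complex.sin_neg, Complex.tan_neg, neg_sq]
  ring

/-- the continued derivative on the right -/
lemma LL_right (hi : S4_w) (hid : S4_id) {m : ℝ} (hm : 0 < m) {s : ℂ} (hs : s ∈ VV m)
    (hre : 0 < s.re) : LL m s = Lz s + JJ m s := by
  have hpi := Real.pi_pos
  obtain ⟨h1, h2⟩ := abs_lt.1 hs.1
  have e1 := hid s hre (by linarith)
  have hint := (hi.2 (Complex.sin (2 * s) ^ 2)).1
  have e2 := intervalIntegral.integral_interval_add_Ioi hint
    (hint.mono_set (Set.Ioi_subset_Ioi hm.le))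
  have ha : 0 < (Complex.sin (2 * s)).re := by
    rw [(JA4f.sin_parts s).1]
    exact mul_pos (Real.sin_pos_of_pos_of_lt_pi (by linarith) (by linarith)) (Real.cosh_pos _)
  have e3 : ∫ y in (0 : ℝ)..m, (2 * WN y : ℂ) / sq (y + Complex.sin (2 * s) ^ 2) =
      (1 / Complex.sin (2 * s)) * HH m (1 / Complex.sin (2 * s) ^ 2) := by
    unfold HH
    rw [← intervalIntegral.integral_const_mul]
    refine intervalIntegral.integral_congr fun y hy => ?_
    rw [Set.uIcc_of_le hm.le] at hy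
    have h3 := sq_add ha (VV_im hm hs) (slit_OO hy.1 hy.2 (VV_OO hm hs))
    show (2 * WN y : ℂ) / sq (y + Complex.sin (2 * s) ^ 2) =
      1 / Complex.sin (2 * s) * ((2 * WN y : ℂ) / sq (1 + y * (1 / Complex.sin (2 * s) ^ 2)))
    rw [h3, div_mul_div_comm, one_mul]
  have e4 : JJ m s = ∫ y in Set.Ioi m, (2 * WN y : ℂ) / sq (y + Complex.sin (2 * s) ^ 2) := rfl
  unfold LL
  rw [← e3, e4]
  rw [← e2] at e1
  linear_combination -e1

/-! ### The primitive -/

/-- the function on the right -/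
noncomputable def Fi (m : ℝ) (s : ℂ) : ℂ := Lam s + PJ m s

lemma Fi_has (hp : S4_ph) (hl : S_lam) {m : ℝ} (hm : 0 < m) {s : ℂ}
    (h1 : -(Real.pi / 8) < s.re) (h2 : s.re < 3 * Real.pi / 8)
    (h3 : s.re ≠ 0 ∨ Real.sinh (2 * s.im) ^ 2 < m) :
    HasDerivAt (Fi m) (Lz s + JJ m s) s := by
  have hpi := Real.pi_pos
  refine (hl.1 s h1 h2).add ((hp m hm).1 s ⟨?_, h3⟩)
  rw [abs_lt]
  constructor <;> linarith

/-- the half strip -/
def UU (T : ℝ) : Set ℂ := {s : ℂ | (-(Real.pi / 8) < s.re ∧ s.re < Real.pi / 8) ∧ T < s.im}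

lemma UU_open (T : ℝ) : IsOpen (UU T) := by
  have h1 : IsOpen {s : ℂ | -(Real.pi / 8) < s.re} :=
    isOpen_lt continuous_const Complex.continuous_re
  have h2 : IsOpen {s : ℂ | s.re < Real.pi / 8} := isOpen_lt Complex.continuous_re continuous_const
  have h3 : IsOpen {s : ℂ | T < s.im} := isOpen_lt continuous_const Complex.continuous_im
  exact (h1.inter h2).inter h3

lemma UU_convex (T : ℝ) : Convex ℝ (UU T) := by
  have h1 : Convex ℝ {s : ℂ | -(Real.pi / 8) < s.re} := convex_halfSpace_re_gt _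
  have h2 : Convex ℝ {s : ℂ | s.re < Real.pi / 8} := convex_halfSpace_re_lt _
  have h3 : Convex ℝ {s : ℂ | T < s.im} := convex_halfSpace_im_gt _
  exact (h1.inter h2).inter h3

/-- a primitive of a holomorphic function on a convex open set -/
lemma prim_convex {U : Set ℂ} (hU : IsOpen U) (hc : Convex ℝ U) {f : ℂ → ℂ}
    (hf : ∀ s ∈ U, DifferentiableAt ℂ f s) {s₀ : ℂ} (hs₀ : s₀ ∈ U) (c : ℂ) :
    ∃ F : ℂ → ℂ, F s₀ = c ∧ ∀ s ∈ U, HasDerivAt F (f s) s := by
  set S : Set ℂ := {z : ℂ | s₀ + z ∈ U} with hSd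
  have hS : IsOpen S := hU.preimage (continuous_const.add continuous_id)
  have hstar : ∀ s ∈ S, ∀ u : ℝ, u ∈ Set.Icc (0 : ℝ) 1 → (u : ℂ) * s ∈ S := by
    intro s hs u hu
    show s₀ + (u : ℂ) * s ∈ U
    have h1 := hc hs₀ (show s₀ + s ∈ U from hs) (show (0 : ℝ) ≤ 1 - u by linarith [hu.2]) hu.1
      (by ring)
    have h2 : (1 - u) • s₀ + u • (s₀ + s) = s₀ + (u : ℂ) * s := by
      rw [Complex.real_smul, Complex.real_smul]
      push_cast
      ring
    rw [h2] at h1
    exact h1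
  have hd : DifferentiableOn ℂ (fun z => f (s₀ + z)) S := by
    intro z hz
    have h1 : DifferentiableAt ℂ f (s₀ + z) := hf _ hz
    have h2 : DifferentiableAt ℂ (fun z : ℂ => s₀ + z) z := by fun_prop
    exact (DifferentiableAt.comp (g := f) (f := fun z : ℂ => s₀ + z) z h1
      h2).differentiableWithinAt
  refine ⟨fun s => c + ∫ u in (0 : ℝ)..1, (s - s₀) * f (s₀ + u * (s - s₀)), ?_, ?_⟩
  · simp
  · intro s hs
    have hmem : s - s₀ ∈ S := by
      show s₀ + (s - s₀) ∈ U
      rw [add_sub_cancel]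
      exact hs
    have h1 := LMAf.prim hS hstar hd hmem
    have h2 : HasDerivAt (fun s : ℂ => s - s₀) 1 s := (hasDerivAt_id s).sub_const s₀
    have h3 := (HasDerivAt.comp (h₂ := fun s : ℂ => ∫ u in (0 : ℝ)..1, s * f (s₀ + u * s))
      (h := fun s : ℂ => s - s₀) s h1 h2).const_add c
    refine h3.congr_deriv ?_
    show f (s₀ + (s - s₀)) * 1 = f s
    rw [add_sub_cancel, mul_one]

/-- the height of the cut -/
noncomputable def T0 (m : ℝ) : ℝ := Real.arsinh (√m) / 2

lemma T0_pos {m : ℝ} (hm : 0 < m) : 0 < T0 m := by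
  unfold T0
  have := Real.arsinh_pos_iff.2 (Real.sqrt_pos.2 hm)
  linarith

lemma above {m : ℝ} (hm : 0 < m) {t : ℝ} (h : T0 m < t) : m < Real.sinh (2 * t) ^ 2 := by
  have h1 : Real.arsinh (√m) < 2 * t := by
    unfold T0 at h
    linarith
  have h2 : √m < Real.sinh (2 * t) := by
    have := Real.sinh_lt_sinh.2 h1
    rwa [Real.sinh_arsinh] at this
  have h3 := Real.sqrt_nonneg m
  have h4 := Real.sq_sqrt hm.le
  nlinarith

lemma above' {m : ℝ} {t : ℝ} (h0 : 0 < t) (h : m < Real.sinh (2 * t) ^ 2) :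
    T0 m < t := by
  have h2 : √m < Real.sinh (2 * t) := by
    rw [Real.sqrt_lt' (Real.sinh_pos_iff.2 (by linarith))]
    exact h
  have h1 : Real.arsinh (√m) < 2 * t := by
    have := Real.arsinh_lt_arsinh.2 h2
    rwa [Real.arsinh_sinh] at this
  unfold T0
  linarith

lemma below {m : ℝ} (hm : 0 < m) {t : ℝ} (h0 : 0 ≤ t) (h : t < T0 m) :
    Real.sinh (2 * t) ^ 2 < m := by
  have h1 : 2 * t < Real.arsinh (√m) := by
    unfold T0 at h
    linarith
  have h2 : Real.sinh (2 * t) < √m := by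
    have := Real.sinh_lt_sinh.2 h1
    rwa [Real.sinh_arsinh] at this
  have h3 : 0 ≤ Real.sinh (2 * t) := Real.sinh_nonneg_iff.2 (by linarith)
  have h4 := Real.sq_sqrt hm.le
  nlinarith

lemma UU_VV {m : ℝ} (hm : 0 < m) {s : ℂ} (hs : s ∈ UU (T0 m)) : s ∈ VV m :=
  ⟨abs_lt.2 hs.1, above hm hs.2⟩

/-- the continuation, up to the constant -/
lemma exists_prim (hw : S3_w) (hi : S4_w) (hid : S4_id) (hp : S4_ph) (hl : S_lam) {m : ℝ}
    (hm : 0 < m) : ∃ (F : ℂ → ℂ) (k : ℂ),
      (∀ s ∈ UU (T0 m), DifferentiableAt ℂ F s) ∧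
      (∀ s ∈ UU (T0 m), 0 < s.re → F s = Fi m s) ∧
      (∀ s ∈ UU (T0 m), s.re < 0 → F s = Fi m (-s) + k) := by
  have hpi := Real.pi_pos
  set U := UU (T0 m) with hU
  set Up : Set ℂ := U ∩ {s : ℂ | 0 < s.re} with hUp
  set Un : Set ℂ := U ∩ {s : ℂ | s.re < 0} with hUn
  have hUpo : IsOpen Up := (UU_open _).inter (isOpen_lt continuous_const Complex.continuous_re)
  have hUno : IsOpen Un := (UU_open _).inter (isOpen_lt Complex.continuous_re continuous_const)
  have hUpc : Convex ℝ Up := (UU_convex _).inter (convex_halfSpace_re_gt _)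
  have hUnc : Convex ℝ Un := (UU_convex _).inter (convex_halfSpace_re_lt _)
  -- the base points
  have hb : ∀ x : ℝ, -(Real.pi / 8) < x → x < Real.pi / 8 → (⟨x, T0 m + 1⟩ : ℂ) ∈ U := by
    intro x h1 h2
    refine ⟨⟨h1, h2⟩, ?_⟩
    show T0 m < T0 m + 1
    linarith
  set p : ℂ := ⟨Real.pi / 16, T0 m + 1⟩ with hpd
  set q : ℂ := ⟨-(Real.pi / 16), T0 m + 1⟩ with hqd
  have hpU : p ∈ Up := ⟨hb _ (by linarith) (by linarith), by
    show 0 < Real.pi / 16
    linarith⟩
  have hqU : q ∈ Un := ⟨hb _ (by linarith) (by linarith), by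
    show -(Real.pi / 16) < 0
    linarith⟩
  obtain ⟨F, hF0, hF⟩ := prim_convex (UU_open (T0 m)) (UU_convex (T0 m)) (f := LL m)
    (fun s hs => LL_diff hw hm (UU_VV hm hs)) hpU.1 (Fi m p)
  have hFi : ∀ s ∈ Up, HasDerivAt (Fi m) (Lz s + JJ m s) s := by
    intro s hs
    have h0 : 0 < s.re := hs.2
    refine Fi_has hp hl hm (by linarith) (by linarith [hs.1.1.2]) (Or.inl h0.ne')
  have hFn : ∀ s ∈ Un, HasDerivAt (fun s => Fi m (-s)) (LL m s) s := by
    intro s hs
    have h0 : s.re < 0 := hs.2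
    have h00 : 0 < (-s).re := by
      rw [Complex.neg_re]
      linarith
    have h1 : HasDerivAt (Fi m) (Lz (-s) + JJ m (-s)) (-s) := by
      refine Fi_has hp hl hm (by linarith) ?_ (Or.inl h00.ne')
      rw [Complex.neg_re]
      linarith [hs.1.1.1]
    have h2 : HasDerivAt (fun s : ℂ => -s) (-1) s := (hasDerivAt_id s).neg
    have h3 := HasDerivAt.comp (h₂ := Fi m) (h := fun s : ℂ => -s) s h1 h2
    refine h3.congr_deriv ?_
    rw [← LL_right hi hid hm (VV_neg (UU_VV hm hs.1)) h00, LL_neg]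
    ring
  refine ⟨F, F q - Fi m (-q), fun s hs => (hF s hs).differentiableAt, ?_, ?_⟩
  · intro s hs h0
    have key := hUpo.eqOn_of_deriv_eq hUpc.isPreconnected (f := F) (g := Fi m)
      (fun z hz => (hF z hz.1).differentiableAt.differentiableWithinAt)
      (fun z hz => (hFi z hz).differentiableAt.differentiableWithinAt)
      (fun z hz => by
        rw [(hF z hz.1).deriv, (hFi z hz).deriv, LL_right hi hid hm (UU_VV hm hz.1) hz.2])
      hpU hF0
    exact key ⟨hs, h0⟩
  · intro s hs h0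
    have key := hUno.eqOn_of_deriv_eq hUnc.isPreconnected (f := F)
      (g := fun s => Fi m (-s) + (F q - Fi m (-q)))
      (fun z hz => (hF z hz.1).differentiableAt.differentiableWithinAt)
      (fun z hz => ((hFn z hz).add_const _).differentiableAt.differentiableWithinAt)
      (fun z hz => by
        rw [(hF z hz.1).deriv, ((hFn z hz).add_const _).deriv])
      hqU (by ring)
    exact key ⟨hs, h0⟩

/-! ### The constant -/

/-- the integrand of the phase -/
noncomputable def ee (m u : ℝ) : ℝ := THR (Real.sinh (2 * u) ^ 2) m / Real.cosh (2 * u)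

lemma ee_eq (ht : S4_thr) {m : ℝ} (hm : 0 < m) {u : ℝ} (hu0 : 0 ≤ u) (hu : u < T0 m) :
    (Lz (u * Complex.I) + JJ m (u * Complex.I)).re = -ee m u := by
  have h1 := ht.1 m u hm (below hm hu0 hu)
  have h2 := Real.cosh_pos (2 * u)
  unfold ee
  rw [← neg_div, eq_div_iff h2.ne']
  exact h1

lemma ee_bd (ht : S4_thr) {m : ℝ} (hm : 0 < m) {u : ℝ} (hu0 : 0 ≤ u) (hu : u < T0 m) :
    0 ≤ ee m u ∧ ee m u ≤ THR 0 m := by
  obtain ⟨h1, h2⟩ := ht.2.2.1 (Real.sinh (2 * u) ^ 2) m (sq_nonneg _) (below hm hu0 hu)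
  have h3 := Real.one_le_cosh (2 * u)
  unfold ee
  refine ⟨div_nonneg h1 (by linarith), ?_⟩
  rw [div_le_iff₀ (by linarith)]
  nlinarith

lemma Fi_axis (hp : S4_ph) (hl : S_lam) {m : ℝ} (hm : 0 < m) {u : ℝ} (hu0 : 0 ≤ u)
    (hu : u < T0 m) : HasDerivAt (fun u : ℝ => (Fi m (u * Complex.I)).im)
      (Lz (u * Complex.I) + JJ m (u * Complex.I)).re u := by
  have hpi := Real.pi_pos
  have h1 : HasDerivAt (Fi m) (Lz (u * Complex.I) + JJ m (u * Complex.I)) (u * Complex.I) := by
    refine Fi_has hp hl hm ?_ ?_ ?_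
    · simp
      linarith
    · simp
      linarith
    · right
      simpa using below hm hu0 hu
  have h2 : HasDerivAt (fun u : ℝ => (u : ℂ) * Complex.I) Complex.I u := by
    simpa using (Complex.ofRealCLM.hasDerivAt (x := u)).mul_const Complex.I
  have h3 : HasDerivAt (fun u : ℝ => Fi m (u * Complex.I))
      ((Lz (u * Complex.I) + JJ m (u * Complex.I)) * Complex.I) u :=
    HasDerivAt.comp (h₂ := Fi m) (h := fun u : ℝ => (u : ℂ) * Complex.I) u h1 h2
  have h4 := (Complex.imCLM.hasFDerivAt (x := Fi m (u * Complex.I))).comp_hasDerivAt u h3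
  refine h4.congr_deriv ?_
  simp

lemma cont_axis (hj : S4_ja) (h1 : S_lz1) {m : ℝ} (hm : 0 < m) {u : ℝ} (hu0 : 0 ≤ u)
    (hu : u < T0 m) :
    ContinuousAt (fun u : ℝ => (Lz (u * Complex.I) + JJ m (u * Complex.I)).re) u := by
  have hpi := Real.pi_pos
  have hc : ContinuousAt (fun u : ℝ => (u : ℂ) * Complex.I) u := by fun_prop
  have h2 : ContinuousAt Lz (u * Complex.I) := by
    refine (h1 _ ?_ ?_).continuousAt
    · simp
      linarith
    · simp
      linarith
  have h3 : ContinuousAt (JJ m) (u * Complex.I) := by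
    refine ((hj m hm).1 _ ⟨?_, ?_⟩).continuousAt
    · simp
      linarith
    · right
      simpa using below hm hu0 hu
  have h4 : ContinuousAt (fun s : ℂ => Lz s + JJ m s) (u * Complex.I) := h2.add h3
  exact Complex.continuous_re.continuousAt.comp
    (ContinuousAt.comp (g := fun s : ℂ => Lz s + JJ m s) (f := fun u : ℝ => (u : ℂ) * Complex.I)
      h4 hc)

lemma im_eq (hj : S4_ja) (hp : S4_ph) (ht : S4_thr) (hl : S_lam) (h1 : S_lz1) {m : ℝ}
    (hm : 0 < m) {t : ℝ} (ht0 : 0 ≤ t) (ht1 : t < T0 m) :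
    (Fi m (t * Complex.I)).im = -∫ u in (0 : ℝ)..t, ee m u := by
  have hmem : ∀ u ∈ Set.uIcc (0 : ℝ) t, 0 ≤ u ∧ u < T0 m := by
    intro u hu
    rw [Set.uIcc_of_le ht0] at hu
    exact ⟨hu.1, lt_of_le_of_lt hu.2 ht1⟩
  have h2 := intervalIntegral.integral_eq_sub_of_hasDerivAt (a := (0 : ℝ)) (b := t)
    (f := fun u : ℝ => (Fi m (u * Complex.I)).im)
    (f' := fun u : ℝ => (Lz (u * Complex.I) + JJ m (u * Complex.I)).re)
    (fun u hu => Fi_axis hp hl hm (hmem u hu).1 (hmem u hu).2)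
    (ContinuousOn.intervalIntegrable fun u hu =>
      (cont_axis hj h1 hm (hmem u hu).1 (hmem u hu).2).continuousWithinAt)
  have h3 : ∫ u in (0 : ℝ)..t, (Lz (u * Complex.I) + JJ m (u * Complex.I)).re =
      ∫ u in (0 : ℝ)..t, -ee m u :=
    intervalIntegral.integral_congr fun u hu => ee_eq ht hm (hmem u hu).1 (hmem u hu).2
  rw [h3, intervalIntegral.integral_neg] at h2
  have h4 : (Fi m (((0 : ℝ) : ℂ) * Complex.I)).im = 0 := by
    unfold Fi
    rw [Complex.ofReal_zero, zero_mul, hl.2.1, (hp m hm).2.1]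
    simp
  rw [h4] at h2
  linarith

lemma ee_int (hj : S4_ja) (ht : S4_thr) (h1 : S_lz1) {m : ℝ} (hm : 0 < m) :
    IntervalIntegrable (ee m) volume 0 (T0 m) := by
  rw [intervalIntegrable_iff_integrableOn_Ioo_of_le (T0_pos hm).le]
  have hc : ContinuousOn (ee m) (Set.Ioo 0 (T0 m)) := by
    have h2 : ContinuousOn (fun u : ℝ => -(Lz (u * Complex.I) + JJ m (u * Complex.I)).re)
        (Set.Ioo 0 (T0 m)) := fun u hu =>
      (cont_axis hj h1 hm hu.1.le hu.2).continuousWithinAt.neg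
    refine h2.congr fun u hu => ?_
    show ee m u = -(Lz (u * Complex.I) + JJ m (u * Complex.I)).re
    rw [ee_eq ht hm hu.1.le hu.2, neg_neg]
  have hcon : IntegrableOn (fun _ : ℝ => THR 0 m) (Set.Ioo 0 (T0 m)) :=
    integrableOn_const (by simp)
  refine hcon.mono' (hc.aestronglyMeasurable measurableSet_Ioo) ?_
  rw [ae_restrict_iff' measurableSet_Ioo]
  refine Eventually.of_forall fun u hu => ?_
  obtain ⟨h3, h4⟩ := ee_bd ht hm hu.1.le hu.2
  rw [Real.norm_of_nonneg h3]
  exact h4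

/-- the Lipschitz bound up to the axis -/
lemma lip (hj : S4_ja) (hp : S4_ph) (hl : S_lam) {m C : ℝ} (hm : 0 < m)
    (hC : ∀ s : ℂ, -(Real.pi / 10) ≤ s.re → s.re ≤ 7 * Real.pi / 20 → ‖Lz s‖ ≤ C)
    {z w : ℂ} (hz : 0 < z.re) (hz' : z.re < Real.pi / 8) (hw : 0 < w.re)
    (hw' : w.re < Real.pi / 8) : ‖Fi m z - Fi m w‖ ≤ (C + 4) * ‖z - w‖ := by
  have hpi := Real.pi_pos
  set S : Set ℂ := {s : ℂ | 0 < s.re} ∩ {s : ℂ | s.re < Real.pi / 8} with hS
  have hSc : Convex ℝ S := (convex_halfSpace_re_gt _).inter (convex_halfSpace_re_lt _)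
  have key := hSc.norm_image_sub_le_of_norm_hasDerivWithin_le (f := Fi m)
    (f' := fun s => Lz s + JJ m s) (C := C + 4) (x := w) (y := z)
    (fun s hs => by
      have h1 : 0 < s.re := hs.1
      have h2 : s.re < Real.pi / 8 := hs.2
      exact (Fi_has hp hl hm (by linarith) (by linarith) (Or.inl h1.ne')).hasDerivWithinAt)
    (fun s hs => by
      have h1 : 0 < s.re := hs.1
      have h2 : s.re < Real.pi / 8 := hs.2
      exact (norm_add_le _ _).trans (add_le_add (hC s (by linarith) (by linarith))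
        ((hj m hm).2.1 s)))
    ⟨hw, hw'⟩ ⟨hz, hz'⟩
  exact key

/-- the value of the constant -/
lemma const_eq (hj : S4_ja) (hp : S4_ph) (ht : S4_thr) (hl : S_lam) (h1 : S_lz1) {m : ℝ}
    (hm : 0 < m) {F : ℂ → ℂ} {k : ℂ} (hF : ∀ s ∈ UU (T0 m), DifferentiableAt ℂ F s)
    (hFp : ∀ s ∈ UU (T0 m), 0 < s.re → F s = Fi m s)
    (hFn : ∀ s ∈ UU (T0 m), s.re < 0 → F s = Fi m (-s) + k) :
    k = -(2 * chi4 m * Complex.I) := by
  have hpi := Real.pi_pos
  obtain ⟨C, hC0, hC⟩ := LZCf.lz3 h1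
  have hT := T0_pos hm
  have hmemU : ∀ x t : ℝ, |x| < Real.pi / 8 → T0 m < t → (x + t * Complex.I : ℂ) ∈ UU (T0 m) := by
    intro x t hx hxt
    refine ⟨?_, ?_⟩
    · rw [← abs_lt]
      simpa using hx
    · simpa using hxt
  have hpos : ∀ᶠ x : ℝ in 𝓝[>] 0, 0 < x := eventually_mem_nhdsWithin
  have hsmall : ∀ᶠ x : ℝ in 𝓝[>] (0 : ℝ), x < Real.pi / 8 :=
    mem_nhdsWithin_of_mem_nhds (Iio_mem_nhds (by linarith))
  -- the two limits
  have hlim1 : ∀ t : ℝ, T0 m < t →
      Tendsto (fun x : ℝ => Fi m (x + t * Complex.I)) (𝓝[>] 0) (𝓝 (F (t * Complex.I))) := by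
    intro t ht0
    have hcF : ContinuousAt F (((0 : ℝ) : ℂ) + t * Complex.I) :=
      (hF _ (hmemU 0 t (by simp; linarith) ht0)).continuousAt
    have hc : ContinuousAt (fun x : ℝ => (x : ℂ) + t * Complex.I) 0 := by fun_prop
    have h2 : Tendsto (fun x : ℝ => F (x + t * Complex.I)) (𝓝 0)
        (𝓝 (F (((0 : ℝ) : ℂ) + t * Complex.I))) :=
      ContinuousAt.comp (g := F) (f := fun x : ℝ => (x : ℂ) + t * Complex.I) hcF hc
    have h3 := h2.mono_left (nhdsWithin_le_nhds (s := Set.Ioi (0 : ℝ)))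
    rw [Complex.ofReal_zero, zero_add] at h3
    refine h3.congr' ?_
    filter_upwards [hpos, hsmall] with x hx hx'
    exact hFp _ (hmemU x t (by rwa [abs_of_pos hx]) ht0) (by simpa using hx)
  have hlim2 : ∀ t : ℝ, T0 m < t →
      Tendsto (fun x : ℝ => (starRingEnd ℂ) (Fi m (x + t * Complex.I)) + k) (𝓝[>] 0)
        (𝓝 (F (t * Complex.I))) := by
    intro t ht0
    have hcF : ContinuousAt F (-((0 : ℝ) : ℂ) + t * Complex.I) := by
      have := (hF _ (hmemU 0 t (by simp; linarith) ht0)).continuousAt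
      simpa using this
    have hc : ContinuousAt (fun x : ℝ => -(x : ℂ) + t * Complex.I) 0 := by fun_prop
    have h2 : Tendsto (fun x : ℝ => F (-x + t * Complex.I)) (𝓝 0)
        (𝓝 (F (-((0 : ℝ) : ℂ) + t * Complex.I))) :=
      ContinuousAt.comp (g := F) (f := fun x : ℝ => -(x : ℂ) + t * Complex.I) hcF hc
    have h3 := h2.mono_left (nhdsWithin_le_nhds (s := Set.Ioi (0 : ℝ)))
    rw [Complex.ofReal_zero, neg_zero, zero_add] at h3
    refine h3.congr' ?_
    filter_upwards [hpos, hsmall] with x hx hx'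
    have h4 := hFn (-x + t * Complex.I) (by
      have := hmemU (-x) t (by rwa [abs_neg, abs_of_pos hx]) ht0
      push_cast at this
      exact this) (by simpa using hx)
    rw [h4]
    congr 1
    have h5 : -(-(x : ℂ) + t * Complex.I) = (starRingEnd ℂ) (x + t * Complex.I) := by
      rw [map_add, map_mul, Complex.conj_ofReal, Complex.conj_ofReal, Complex.conj_I]
      ring
    rw [h5]
    unfold Fi
    rw [hl.2.2.1, (hp m hm).2.2.1 _ ⟨?_, Or.inl ?_⟩, map_add]
    · simp
      rw [abs_of_pos hx]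
      linarith
    · simpa using hx.ne'
  have hk : ∀ t : ℝ, T0 m < t → F (t * Complex.I) = (starRingEnd ℂ) (F (t * Complex.I)) + k := by
    intro t ht0
    have h2 : Tendsto (fun x : ℝ => (starRingEnd ℂ) (Fi m (x + t * Complex.I)) + k) (𝓝[>] 0)
        (𝓝 ((starRingEnd ℂ) (F (t * Complex.I)) + k)) :=
      ((Complex.continuous_conj.tendsto _).comp (hlim1 t ht0)).add_const k
    exact tendsto_nhds_unique (hlim2 t ht0) h2
  have hk' : ∀ t : ℝ, T0 m < t → k = 2 * (F (t * Complex.I)).im * Complex.I := by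
    intro t ht0
    have h2 := hk t ht0
    have h3 := Complex.sub_conj (F (t * Complex.I))
    push_cast at h3
    linear_combination h3 - h2
  -- the comparison
  have hcmp : ∀ t t' : ℝ, T0 m < t → 0 < t' → t' < T0 m →
      ‖F (t * Complex.I) - Fi m (t' * Complex.I)‖ ≤ (C + 4) * (t - t') := by
    intro t t' h2 h3 h4
    have hc1 : ContinuousAt (Fi m) (((0 : ℝ) : ℂ) + t' * Complex.I) := by
      refine (Fi_has hp hl hm ?_ ?_ (Or.inr ?_)).continuousAt
      · simp
        linarith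
      · simp
        linarith
      · simpa using below hm h3.le h4
    have hc : ContinuousAt (fun x : ℝ => (x : ℂ) + t' * Complex.I) 0 := by fun_prop
    have h5 : Tendsto (fun x : ℝ => Fi m (x + t' * Complex.I)) (𝓝 0)
        (𝓝 (Fi m (((0 : ℝ) : ℂ) + t' * Complex.I))) :=
      ContinuousAt.comp (g := Fi m) (f := fun x : ℝ => (x : ℂ) + t' * Complex.I) hc1 hc
    have h6 := h5.mono_left (nhdsWithin_le_nhds (s := Set.Ioi (0 : ℝ)))
    rw [Complex.ofReal_zero, zero_add] at h6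
    have h7 := ((hlim1 t h2).sub h6).norm
    refine le_of_tendsto h7 ?_
    filter_upwards [hpos, hsmall] with x hx hx'
    have h8 := lip hj hp hl hm hC (z := x + t * Complex.I) (w := x + t' * Complex.I)
      (by simpa using hx) (by simpa using hx') (by simpa using hx) (by simpa using hx')
    refine h8.trans (le_of_eq ?_)
    congr 1
    have h9 : (x + t * Complex.I : ℂ) - (x + t' * Complex.I) = ((t - t' : ℝ) : ℂ) * Complex.I := by
      push_cast
      ring
    rw [h9, norm_mul, Complex.norm_I, mul_one, Complex.norm_real, Real.norm_of_nonneg]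
    linarith
  -- the integral of the phase
  have hint := ee_int hj ht h1 hm
  have hchi : chi4 m = ∫ u in (0 : ℝ)..(T0 m), ee m u := rfl
  have hB0 : 0 ≤ THR 0 m := (ht.2.2.1 0 m le_rfl hm).1
  have hdiff : ∀ t' : ℝ, 0 < t' → t' < T0 m →
      |chi4 m - ∫ u in (0 : ℝ)..t', ee m u| ≤ THR 0 m * (T0 m - t') := by
    intro t' h2 h3
    have hsub1 : IntervalIntegrable (ee m) volume 0 t' :=
      hint.mono_set (by
        rw [Set.uIcc_of_le h2.le, Set.uIcc_of_le hT.le]
        exact Set.Icc_subset_Icc_right h3.le)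
    have hsub2 : IntervalIntegrable (ee m) volume t' (T0 m) :=
      hint.mono_set (by
        rw [Set.uIcc_of_le h3.le, Set.uIcc_of_le hT.le]
        exact Set.Icc_subset_Icc_left h2.le)
    have h4 := intervalIntegral.integral_add_adjacent_intervals hsub1 hsub2
    rw [hchi, ← h4, add_sub_cancel_left]
    have h5 := intervalIntegral.norm_integral_le_of_norm_le_const_ae (a := t') (b := T0 m)
      (f := ee m) (C := THR 0 m) (by
        have hne : ∀ᵐ u : ℝ, u ≠ T0 m := by
          simp [ae_iff, measure_singleton]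
        filter_upwards [hne] with u hu hu'
        rw [Set.uIoc_of_le h3.le] at hu'
        obtain ⟨h6, h7⟩ := ee_bd ht hm (u := u) (by linarith [hu'.1])
          (lt_of_le_of_ne hu'.2 hu)
        rw [Real.norm_of_nonneg h6]
        exact h7)
    rw [Real.norm_eq_abs, abs_of_nonneg (show (0 : ℝ) ≤ T0 m - t' by linarith)] at h5
    exact h5
  -- the constant
  have hX : ∀ t : ℝ, T0 m < t → (F (t * Complex.I)).im = -chi4 m := by
    intro t₁ ht₁
    have hconst : ∀ t : ℝ, T0 m < t → (F (t * Complex.I)).im = (F (t₁ * Complex.I)).im := by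
      intro t ht0
      have h2 := hk' t ht0
      have h3 := hk' t₁ ht₁
      have h4 := congrArg Complex.im (h2.symm.trans h3)
      simpa using h4
    have hle : ∀ ε : ℝ, 0 < ε → |(F (t₁ * Complex.I)).im + chi4 m| ≤
        (2 * (C + 4) + THR 0 m) * ε := by
      intro ε hε
      set δ := min ε (T0 m / 2) with hδ
      have hδ0 : 0 < δ := lt_min hε (by linarith)
      have hδ1 : δ ≤ ε := min_le_left _ _
      have hδ2 : δ ≤ T0 m / 2 := min_le_right _ _
      have h2 := hcmp (T0 m + δ) (T0 m - δ) (by linarith) (by linarith) (by linarith)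
      have h3 := hdiff (T0 m - δ) (by linarith) (by linarith)
      have h4 := im_eq hj hp ht hl h1 hm (t := T0 m - δ) (by linarith) (by linarith)
      have h5 := (Complex.abs_im_le_norm (F ((T0 m + δ : ℝ) * Complex.I) -
        Fi m ((T0 m - δ : ℝ) * Complex.I))).trans h2
      rw [Complex.sub_im, h4, hconst (T0 m + δ) (by linarith)] at h5
      have h6 : (F (t₁ * Complex.I)).im + chi4 m =
          ((F (t₁ * Complex.I)).im - -∫ u in (0 : ℝ)..(T0 m - δ), ee m u) +
            (chi4 m - ∫ u in (0 : ℝ)..(T0 m - δ), ee m u) := by ring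
      rw [h6]
      refine (abs_add_le _ _).trans ?_
      nlinarith
    have h7 : |(F (t₁ * Complex.I)).im + chi4 m| ≤ 0 := by
      refine le_of_forall_pos_le_add fun ε hε => ?_
      have hpos' : 0 < 2 * (C + 4) + THR 0 m := by linarith
      have := hle (ε / (2 * (C + 4) + THR 0 m)) (by positivity)
      rw [mul_div_cancel₀ _ hpos'.ne'] at this
      linarith
    have h8 := abs_nonpos_iff.1 h7
    linarith
  have h2 := hk' (T0 m + 1) (by linarith)
  rw [hX (T0 m + 1) (by linarith)] at h2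
  rw [h2]
  push_cast
  ring

theorem glue (hw : S3_w) (hi : S4_w) (hid : S4_id) (hj : S4_ja) (hp : S4_ph) (ht : S4_thr)
    (hl : S_lam) (h1 : S_lz1) (h2 : S_lz2) : S4_glue := by
  have _h2 := h2
  intro m hm
  obtain ⟨F, k, hF, hFp, hFn⟩ := exists_prim hw hi hid hp hl hm
  have hk := const_eq hj hp ht hl h1 hm hF hFp hFn
  refine ⟨F, fun s hs1 hs2 hs3 => ?_⟩
  have hmem : s ∈ UU (T0 m) := ⟨abs_lt.1 hs1, above' hs2 hs3⟩
  refine ⟨hF s hmem, fun h => hFp s hmem h, fun h => ?_⟩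
  rw [hFn s hmem h, hk]
  unfold Fi
  ring

end Pool.Agent.TH41.BL.GL4f
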