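import Mathlib
import Pool.Agent.TH41.BL.Stm4

/-! Project BL4, part GY4: the continuation of the kernel through the cuts. -/

set_option autoImplicit false

open MeasureTheory Filter Topology

namespace Pool.Agent.TH41.BL.GY4f

open Pool.Agent.TH41.BL

theorem AA_neg (s : ℂ) : AA (-s) = BB s := by
  simp [AA, BB, Complex.cos_neg, Complex.sin_neg, sub_eq_add_neg]

theorem BB_neg (s : ℂ) : BB (-s) = AA s := by
  simp [AA, BB, Complex.cos_neg, Complex.sin_neg]

theorem AA_conj (s : ℂ) : AA ((starRingEnd ℂ) s) = (starRingEnd ℂ) (AA s) := by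
  simp [AA, Complex.cos_conj, Complex.sin_conj]

theorem BB_conj (s : ℂ) : BB ((starRingEnd ℂ) s) = (starRingEnd ℂ) (BB s) := by
  simp [BB, Complex.cos_conj, Complex.sin_conj]

theorem AA_diff (s : ℂ) : DifferentiableAt ℂ AA s :=
  Complex.differentiable_cos.differentiableAt.add Complex.differentiable_sin.differentiableAt

theorem BB_diff (s : ℂ) : DifferentiableAt ℂ BB s :=
  Complex.differentiable_cos.differentiableAt.sub Complex.differentiable_sin.differentiableAt

theorem QJ_conj (hp : S4_ph) (hl : S_lam) {m : ℝ} (hm : 0 < m) (n w : ℕ) {s : ℂ} (hs : s ∈ DJ m) :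
    QJ m n w ((starRingEnd ℂ) s) = (starRingEnd ℂ) (QJ m n w s) := by
  obtain ⟨-, -, h1, -⟩ := hp m hm
  obtain ⟨-, -, h2, -⟩ := hl
  rw [QJ, QJ, QQ, QQ, AA_conj, BB_conj, h2, h1 s hs]
  simp only [map_mul, map_pow, ← Complex.exp_conj, map_natCast]

theorem QJ_eq (m : ℝ) (n w : ℕ) (s : ℂ) :
    QJ m n w s = AA s ^ (n - w) * BB s ^ w * Complex.exp (n * (Lam s + PJ m s)) := by
  rw [QJ, QQ, mul_add, Complex.exp_add]
  ring

theorem gy (hg : S4_glue) (hc : S4_chi) (hj : S4_ja) (hp : S4_ph) (hl : S_lam) : S4_gy := by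
  intro m σ n w hm hw hq
  obtain ⟨Ψ, hΨ⟩ := hg m hm
  obtain ⟨hσ, hexp⟩ := hq
  set Yp : ℂ → ℂ := fun s => AA s ^ (n - w) * BB s ^ w * Complex.exp (n * Ψ s) with hYp
  have hσσ : (σ : ℂ) * σ = 1 := by
    rcases hσ with h | h <;> rw [h] <;> push_cast <;> ring
  have hpi : Real.pi / 8 < Real.pi / 2 := by linarith [Real.pi_pos]
  -- the statement in the upper half plane
  have up : ∀ s : ℂ, |s.re| < Real.pi / 8 → 0 < s.im → m < Real.sinh (2 * s.im) ^ 2 →
      DifferentiableAt ℂ Yp s ∧ (0 < s.re → Yp s = QJ m n w s) ∧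
      (s.re < 0 → Yp s = σ * QJ m n (n - w) (-s)) := by
    intro s h1 h2 h3
    obtain ⟨d, hp1, hn1⟩ := hΨ s h1 h2 h3
    refine ⟨?_, fun h => ?_, fun h => ?_⟩
    · exact (((AA_diff s).pow _).mul ((BB_diff s).pow _)).mul
        (((differentiableAt_const _).mul d).cexp)
    · rw [QJ_eq, ← hp1 h]
    · have e : Yp s = AA s ^ (n - w) * BB s ^ w * Complex.exp (n * Ψ s) := rfl
      rw [e, QJ_eq, hn1 h, AA_neg, BB_neg, Nat.sub_sub_self hw, hc m hm]
      have e1 : (n : ℂ) * (Lam (-s) + PJ m (-s) -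
          2 * ((Real.pi / 2 * Nbar m : ℝ) : ℂ) * Complex.I) =
          n * (Lam (-s) + PJ m (-s)) + -(((Real.pi * n * Nbar m : ℝ) : ℂ) * Complex.I) := by
        push_cast; ring
      rw [e1, Complex.exp_add, Complex.exp_neg, hexp]
      have e2 : ((σ : ℂ))⁻¹ = σ := by
        rw [inv_eq_iff_eq_inv]
        exact eq_inv_of_mul_eq_one_left hσσ
      rw [e2]; ring
  refine ⟨fun s => if 0 < s.im then Yp s else (starRingEnd ℂ) (Yp ((starRingEnd ℂ) s)),
    fun s h1 h3 => ?_⟩
  have him : s.im ≠ 0 := by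
    intro h
    rw [h] at h3
    simp at h3
    linarith
  rcases lt_or_gt_of_ne him with h2 | h2
  · -- lower half plane
    have h1' : |((starRingEnd ℂ) s).re| < Real.pi / 8 := by simpa using h1
    have h2' : 0 < ((starRingEnd ℂ) s).im := by simpa using h2
    have h3' : m < Real.sinh (2 * ((starRingEnd ℂ) s).im) ^ 2 := by
      simpa [Real.sinh_neg] using h3
    obtain ⟨d, hp1, hn1⟩ := up _ h1' h2' h3'
    have hne : ¬ 0 < s.im := not_lt.2 h2.le
    refine ⟨?_, fun h => ?_, fun h => ?_⟩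
    · have d' := d.conj_conj
      rw [Complex.conj_conj] at d'
      refine d'.congr_of_eventuallyEq ?_
      filter_upwards [(isOpen_lt Complex.continuous_im continuous_const).mem_nhds h2] with z hz
      have hz' : ¬ 0 < z.im := not_lt.2 (le_of_lt hz)
      simp only [if_neg hz', Function.comp]
    · simp only [if_neg hne]
      rw [hp1 (by simpa using h)]
      have hmem : s ∈ DJ m := ⟨h1.trans hpi, Or.inl h.ne'⟩
      rw [QJ_conj hp hl hm n w hmem, Complex.conj_conj]
    · simp only [if_neg hne]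
      rw [hn1 (by simpa using h)]
      have hmem : -s ∈ DJ m := by
        refine ⟨by simpa using h1.trans hpi, Or.inl ?_⟩
        simpa using h.ne
      rw [← map_neg, QJ_conj hp hl hm n (n - w) hmem, map_mul, Complex.conj_conj,
        Complex.conj_ofReal]
  · -- upper half plane
    obtain ⟨d, hp1, hn1⟩ := up s h1 h2 h3
    refine ⟨?_, fun h => ?_, fun h => ?_⟩
    · refine d.congr_of_eventuallyEq ?_
      filter_upwards [(isOpen_lt continuous_const Complex.continuous_im).mem_nhds h2] with z hz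
      have hz' : 0 < z.im := hz
      simp only [if_pos hz']
    · simp only [if_pos h2]
      exact hp1 h
    · simp only [if_pos h2]
      exact hn1 h

end Pool.Agent.TH41.BL.GY4f
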