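import Mathlib
import Pool.Agent.TH41.BL.Stm4
import Pool.Agent.TH41.BL.W3A

set_option autoImplicit false

open MeasureTheory Filter Topology

namespace Pool.Agent.TH41.BL.ID4f

open Pool.Agent.TH41.BL

lemma cos_re' (s : ℂ) : (Complex.cos s).re = Real.cos s.re * Real.cosh s.im := by
  have hse : s = (s.re : ℂ) + (s.im : ℂ) * Complex.I := (Complex.re_add_im s).symm
  have h : Complex.cos s = ((Real.cos s.re * Real.cosh s.im : ℝ) : ℂ) -
      ((Real.sin s.re * Real.sinh s.im : ℝ) : ℂ) * Complex.I := by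
    conv_lhs => rw [hse]
    rw [Complex.cos_add, Complex.cos_mul_I, Complex.sin_mul_I]
    push_cast
    ring
  rw [h, Complex.sub_re, Complex.ofReal_re, Complex.re_ofReal_mul, Complex.I_re]
  ring

lemma den_re {b : ℂ} (hb : |b.re| < Real.pi / 2) {φ : ℝ} (h0 : 0 ≤ φ) (h1 : φ ≤ Real.pi / 2) :
    1 ≤ (1 + Complex.cos b * Complex.cos φ).re := by
  have e : (1 + Complex.cos b * Complex.cos φ).re = 1 + (Complex.cos b).re * Real.cos φ := by
    rw [← Complex.ofReal_cos, Complex.add_re, Complex.one_re, Complex.re_mul_ofReal]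
  rw [e, cos_re']
  have h2 : 0 < Real.cos b.re := Real.cos_pos_of_mem_Ioo (abs_lt.1 hb)
  have h3 : 0 ≤ Real.cos φ := Real.cos_nonneg_of_mem_Icc ⟨by linarith [Real.pi_pos], h1⟩
  have h4 := Real.cosh_pos b.im
  have : 0 ≤ Real.cos b.re * Real.cosh b.im * Real.cos φ := by positivity
  linarith

lemma den_ne {b : ℂ} (hb : |b.re| < Real.pi / 2) {φ : ℝ} (h0 : 0 ≤ φ) (h1 : φ ≤ Real.pi / 2) :
    1 + Complex.cos b * Complex.cos φ ≠ 0 := by
  intro h
  have := den_re hb h0 h1
  rw [h] at this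
  simp at this
  linarith

lemma int_b {b : ℂ} (hb : |b.re| < Real.pi / 2) :
    ∫ φ in (0 : ℝ)..(Real.pi / 2), Complex.sin b / (1 + Complex.cos b * Complex.cos φ) = b := by
  have hpi := Real.pi_pos
  have hpi2 : (0 : ℝ) ≤ Real.pi / 2 := by positivity
  have hbt : ∀ t : ℝ, t ∈ Set.Icc (0 : ℝ) 1 → |((t : ℂ) * b).re| < Real.pi / 2 := by
    intro t ht
    have : ((t : ℂ) * b).re = t * b.re := by simp
    rw [this, abs_mul, abs_of_nonneg ht.1]
    calc t * |b.re| ≤ 1 * |b.re| := mul_le_mul_of_nonneg_right ht.2 (abs_nonneg _)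
      _ < _ := by linarith
  -- the two inner integrals
  have e1 : ∀ φ ∈ Set.Icc (0 : ℝ) (Real.pi / 2),
      ∫ t in (0 : ℝ)..1, b * (Complex.cos (t * b) + Complex.cos φ) /
        (1 + Complex.cos (t * b) * Complex.cos φ) ^ 2 =
      Complex.sin b / (1 + Complex.cos b * Complex.cos φ) := by
    intro φ hφ
    have := intervalIntegral.integral_eq_sub_of_hasDerivAt (a := (0 : ℝ)) (b := 1)
      (f := fun t : ℝ => Complex.sin (t * b) / (1 + Complex.cos (t * b) * Complex.cos φ))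
      (f' := fun t : ℝ => b * (Complex.cos (t * b) + Complex.cos φ) /
        (1 + Complex.cos (t * b) * Complex.cos φ) ^ 2) ?_ ?_
    · rw [this]
      simp
    · intro t ht
      rw [Set.uIcc_of_le zero_le_one] at ht
      have hne := den_ne (hbt t ht) hφ.1 hφ.2
      have h1 : HasDerivAt (fun t : ℝ => (t : ℂ) * b) b t := by
        simpa using (Complex.ofRealCLM.hasDerivAt (x := t)).mul_const b
      have h2 : HasDerivAt (fun t : ℝ => Complex.sin ((t : ℂ) * b)) (Complex.cos (t * b) * b) t :=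
        (Complex.hasDerivAt_sin _).comp t h1
      have h3 : HasDerivAt (fun t : ℝ => 1 + Complex.cos ((t : ℂ) * b) * Complex.cos φ)
          (-Complex.sin (t * b) * b * Complex.cos φ) t :=
        (((Complex.hasDerivAt_cos _).comp t h1).mul_const _).const_add 1
      have h4 := h2.div h3 hne
      have e : b * (Complex.cos (t * b) + Complex.cos φ) /
        (1 + Complex.cos (t * b) * Complex.cos φ) ^ 2 = (Complex.cos (t * b) * b *
          (1 + Complex.cos (t * b) * Complex.cos φ) -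
          Complex.sin (t * b) * (-Complex.sin (t * b) * b * Complex.cos φ)) /
        (1 + Complex.cos (t * b) * Complex.cos φ) ^ 2 := by
        congr 1
        linear_combination (-b * Complex.cos φ) * Complex.sin_sq_add_cos_sq (t * b)
      rw [e]
      exact h4
    · apply ContinuousOn.intervalIntegrable
      rw [Set.uIcc_of_le zero_le_one]
      refine ContinuousOn.div (by fun_prop) (by fun_prop) fun t ht => ?_
      exact pow_ne_zero 2 (den_ne (hbt t ht) hφ.1 hφ.2)
  have e2 : ∀ t ∈ Set.Icc (0 : ℝ) 1,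
      ∫ φ in (0 : ℝ)..(Real.pi / 2), b * (Complex.cos (t * b) + Complex.cos φ) /
        (1 + Complex.cos (t * b) * Complex.cos φ) ^ 2 = b := by
    intro t ht
    have := intervalIntegral.integral_eq_sub_of_hasDerivAt (a := (0 : ℝ)) (b := Real.pi / 2)
      (f := fun φ : ℝ => b * (Complex.sin φ / (1 + Complex.cos (t * b) * Complex.cos φ)))
      (f' := fun φ : ℝ => b * (Complex.cos (t * b) + Complex.cos φ) /
        (1 + Complex.cos (t * b) * Complex.cos φ) ^ 2) ?_ ?_
    · rw [this]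
      simp
    · intro φ hφ
      rw [Set.uIcc_of_le hpi2] at hφ
      have hne := den_ne (hbt t ht) hφ.1 hφ.2
      have h1 : HasDerivAt (fun φ : ℝ => (φ : ℂ)) 1 φ := Complex.ofRealCLM.hasDerivAt (x := φ)
      have h2 : HasDerivAt (fun φ : ℝ => Complex.sin (φ : ℂ)) (Complex.cos φ * 1) φ :=
        (Complex.hasDerivAt_sin _).comp φ h1
      have h3 : HasDerivAt (fun φ : ℝ => 1 + Complex.cos (t * b) * Complex.cos φ)
          (Complex.cos (t * b) * (-Complex.sin φ * 1)) φ :=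
        (((Complex.hasDerivAt_cos _).comp φ h1).const_mul _).const_add 1
      have h4 := (h2.div h3 hne).const_mul b
      have e : b * (Complex.cos (t * b) + Complex.cos φ) /
        (1 + Complex.cos (t * b) * Complex.cos φ) ^ 2 = b * ((Complex.cos φ * 1 *
          (1 + Complex.cos (t * b) * Complex.cos φ) -
          Complex.sin φ * (Complex.cos (t * b) * (-Complex.sin φ * 1))) /
        (1 + Complex.cos (t * b) * Complex.cos φ) ^ 2) := by
        rw [← mul_div_assoc]
        congr 1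
        linear_combination (-b * Complex.cos (t * b)) * Complex.sin_sq_add_cos_sq (φ : ℂ)
      rw [e]
      exact h4
    · apply ContinuousOn.intervalIntegrable
      rw [Set.uIcc_of_le hpi2]
      refine ContinuousOn.div (by fun_prop) (by fun_prop) fun φ hφ => ?_
      exact pow_ne_zero 2 (den_ne (hbt t ht) hφ.1 hφ.2)
  have e3 : ∫ φ in (0 : ℝ)..(Real.pi / 2), ∫ t in (0 : ℝ)..1,
      b * (Complex.cos (t * b) + Complex.cos φ) /
        (1 + Complex.cos (t * b) * Complex.cos φ) ^ 2 =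
      ∫ t in (0 : ℝ)..1, ∫ φ in (0 : ℝ)..(Real.pi / 2),
      b * (Complex.cos (t * b) + Complex.cos φ) /
        (1 + Complex.cos (t * b) * Complex.cos φ) ^ 2 := by
    simp only [intervalIntegral.integral_of_le hpi2,
      intervalIntegral.integral_of_le (zero_le_one (α := ℝ))]
    apply MeasureTheory.integral_integral_swap
    rw [Measure.prod_restrict]
    have : ContinuousOn (fun p : ℝ × ℝ => b * (Complex.cos (p.2 * b) + Complex.cos p.1) /
        (1 + Complex.cos (p.2 * b) * Complex.cos p.1) ^ 2)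
        (Set.Icc (0 : ℝ) (Real.pi / 2) ×ˢ Set.Icc (0 : ℝ) 1) := by
      refine ContinuousOn.div (by fun_prop) (by fun_prop) fun p hp => ?_
      exact pow_ne_zero 2 (den_ne (hbt p.2 hp.2) hp.1.1 hp.1.2)
    refine (this.integrableOn_compact (isCompact_Icc.prod isCompact_Icc)).mono_set ?_
    exact Set.prod_mono Set.Ioc_subset_Icc_self Set.Ioc_subset_Icc_self
  have e4 : ∫ φ in (0 : ℝ)..(Real.pi / 2),
      Complex.sin b / (1 + Complex.cos b * Complex.cos φ) =
      ∫ φ in (0 : ℝ)..(Real.pi / 2), ∫ t in (0 : ℝ)..1,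
      b * (Complex.cos (t * b) + Complex.cos φ) /
        (1 + Complex.cos (t * b) * Complex.cos φ) ^ 2 := by
    apply intervalIntegral.integral_congr
    intro φ hφ
    rw [Set.uIcc_of_le hpi2] at hφ
    exact (e1 φ hφ).symm
  rw [e4, e3]
  have e5 : ∫ t in (0 : ℝ)..1, ∫ φ in (0 : ℝ)..(Real.pi / 2),
      b * (Complex.cos (t * b) + Complex.cos φ) /
        (1 + Complex.cos (t * b) * Complex.cos φ) ^ 2 = ∫ t in (0 : ℝ)..1, b := by
    apply intervalIntegral.integral_congr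
    intro t ht
    rw [Set.uIcc_of_le zero_le_one] at ht
    exact e2 t ht
  rw [e5]
  simp



/-! ### closed form -/

lemma int_closed {s : ℂ} (h0 : 0 < s.re) (h1 : s.re < 3 * Real.pi / 8) :
    Complex.sin (2 * s) * Complex.cos (2 * s) *
      ∫ φ in (0 : ℝ)..(Real.pi / 2), Complex.cos φ / (1 + Complex.sin (2 * s) * Complex.cos φ) =
    Complex.cos (2 * s) * (Real.pi / 2) - (Real.pi / 2 - 2 * s) := by
  have hpi := Real.pi_pos
  have hpi2 : (0 : ℝ) ≤ Real.pi / 2 := by positivity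
  set b : ℂ := (Real.pi : ℂ) / 2 - 2 * s with hbdef
  have hre : b.re = Real.pi / 2 - 2 * s.re := by
    have : b = ((Real.pi / 2 : ℝ) : ℂ) - ((2 : ℝ) : ℂ) * s := by rw [hbdef]; push_cast; ring
    rw [this, Complex.sub_re, Complex.ofReal_re, Complex.re_ofReal_mul]
  have hb : |b.re| < Real.pi / 2 := by
    rw [hre, abs_lt]
    constructor <;> linarith
  have hcb : Complex.cos b = Complex.sin (2 * s) := Complex.cos_pi_div_two_sub _
  have hsb : Complex.sin b = Complex.cos (2 * s) := Complex.sin_pi_div_two_sub _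
  have hib := int_b hb
  rw [hcb, hsb] at hib
  have hcont : ContinuousOn (fun φ : ℝ => Complex.cos φ /
      (1 + Complex.sin (2 * s) * Complex.cos φ)) (Set.Icc 0 (Real.pi / 2)) := by
    refine ContinuousOn.div (by fun_prop) (by fun_prop) fun φ hφ => ?_
    rw [← hcb]
    exact den_ne hb hφ.1 hφ.2
  have e1 : ∫ φ in (0 : ℝ)..(Real.pi / 2),
      Complex.cos (2 * s) / (1 + Complex.sin (2 * s) * Complex.cos φ) =
      ∫ φ in (0 : ℝ)..(Real.pi / 2), (Complex.cos (2 * s) -
        Complex.sin (2 * s) * Complex.cos (2 * s) *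
          (Complex.cos φ / (1 + Complex.sin (2 * s) * Complex.cos φ))) := by
    apply intervalIntegral.integral_congr
    intro φ hφ
    rw [Set.uIcc_of_le hpi2] at hφ
    have hne := den_ne hb hφ.1 hφ.2
    rw [hcb] at hne
    simp only
    field_simp
    ring
  have e2 : ∫ φ in (0 : ℝ)..(Real.pi / 2), (Complex.cos (2 * s) -
        Complex.sin (2 * s) * Complex.cos (2 * s) *
          (Complex.cos φ / (1 + Complex.sin (2 * s) * Complex.cos φ))) =
      Complex.cos (2 * s) * (Real.pi / 2) - Complex.sin (2 * s) * Complex.cos (2 * s) *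
        ∫ φ in (0 : ℝ)..(Real.pi / 2),
          Complex.cos φ / (1 + Complex.sin (2 * s) * Complex.cos φ) := by
    have hii : IntervalIntegrable (fun φ : ℝ => Complex.cos φ /
      (1 + Complex.sin (2 * s) * Complex.cos φ)) volume 0 (Real.pi / 2) := by
      apply ContinuousOn.intervalIntegrable
      rw [Set.uIcc_of_le hpi2]
      exact hcont
    rw [intervalIntegral.integral_sub intervalIntegrable_const (hii.const_mul _),
      intervalIntegral.integral_const_mul, intervalIntegral.integral_const]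
    congr 1
    rw [sub_zero, Complex.real_smul]
    push_cast
    ring
  rw [e1, e2] at hib
  linear_combination -hib

lemma int_closed' {s : ℂ} (h0 : 0 < s.re) (h1 : s.re < 3 * Real.pi / 8) :
    2 / (Real.pi : ℂ) *
      ∫ φ in (0 : ℝ)..(Real.pi / 2), Complex.cos φ / (1 + Complex.sin (2 * s) * Complex.cos φ) =
    Complex.tan s - Lz s := by
  have hpi := Real.pi_pos
  have hpi2 : (0 : ℝ) ≤ Real.pi / 2 := by positivity
  have hpic : (Real.pi : ℂ) ≠ 0 := by exact_mod_cast hpi.ne'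
  have hs0 : s ≠ 0 := by
    rintro rfl
    simp at h0
  by_cases hs : s = (Real.pi : ℂ) / 4
  · have hL : Lz s = 2 / (Real.pi : ℂ) := by
      unfold Lz
      rw [if_neg hs0, if_pos hs]
    have ht : Complex.tan s = 1 := by
      rw [hs]
      have : (Real.pi : ℂ) / 4 = ((Real.pi / 4 : ℝ) : ℂ) := by push_cast; ring
      rw [this, ← Complex.ofReal_tan, Real.tan_pi_div_four]
      simp
    have hsin : Complex.sin (2 * s) = 1 := by
      rw [hs]
      have : 2 * ((Real.pi : ℂ) / 4) = (Real.pi : ℂ) / 2 := by ring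
      rw [this, Complex.sin_pi_div_two]
    rw [hL, ht, hsin]
    have hne : ∀ φ ∈ Set.Icc (0 : ℝ) (Real.pi / 2), 1 + 1 * Complex.cos φ ≠ 0 := by
      intro φ hφ
      have := den_ne (b := 0) (by simpa using by positivity) hφ.1 hφ.2
      rwa [Complex.cos_zero] at this
    have key := intervalIntegral.integral_eq_sub_of_hasDerivAt (a := (0 : ℝ)) (b := Real.pi / 2)
      (f := fun φ : ℝ => (φ : ℂ) - Complex.sin φ / (1 + 1 * Complex.cos φ))
      (f' := fun φ : ℝ => Complex.cos φ / (1 + 1 * Complex.cos φ)) ?_ ?_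
    · rw [key]
      simp only [Complex.ofReal_zero, Complex.sin_zero, zero_div, sub_zero]
      have e : (((Real.pi / 2 : ℝ)) : ℂ) = (Real.pi : ℂ) / 2 := by push_cast; ring
      rw [e, Complex.sin_pi_div_two, Complex.cos_pi_div_two]
      field_simp
      ring
    · intro φ hφ
      rw [Set.uIcc_of_le hpi2] at hφ
      have hn := hne φ hφ
      have h1 : HasDerivAt (fun φ : ℝ => (φ : ℂ)) 1 φ := Complex.ofRealCLM.hasDerivAt (x := φ)
      have h2 : HasDerivAt (fun φ : ℝ => Complex.sin (φ : ℂ)) (Complex.cos φ * 1) φ :=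
        (Complex.hasDerivAt_sin _).comp φ h1
      have h3 : HasDerivAt (fun φ : ℝ => 1 + 1 * Complex.cos φ)
          (1 * (-Complex.sin φ * 1)) φ :=
        (((Complex.hasDerivAt_cos _).comp φ h1).const_mul _).const_add 1
      have h4 := h1.sub (h2.div h3 hn)
      have e : Complex.cos φ / (1 + 1 * Complex.cos φ) = 1 - (Complex.cos φ * 1 *
          (1 + 1 * Complex.cos φ) - Complex.sin φ * (1 * (-Complex.sin φ * 1))) /
        (1 + 1 * Complex.cos φ) ^ 2 := by
        have hx : Complex.cos φ * 1 *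
          (1 + 1 * Complex.cos φ) - Complex.sin φ * (1 * (-Complex.sin φ * 1)) =
          1 + 1 * Complex.cos φ := by
          linear_combination Complex.sin_sq_add_cos_sq (φ : ℂ)
        rw [hx, pow_two, ← div_div, div_self hn, eq_sub_iff_add_eq, ← add_div,
          div_eq_one_iff_eq hn]
        ring
      rw [e]
      exact h4
    · apply ContinuousOn.intervalIntegrable
      rw [Set.uIcc_of_le hpi2]
      refine ContinuousOn.div (by fun_prop) (by fun_prop) fun φ hφ => ?_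
      exact hne φ hφ
  · have hL : Lz s = (1 - Complex.cos (4 * s) - 8 * s / Real.pi) / Complex.sin (4 * s) := by
      unfold Lz
      rw [if_neg hs0, if_neg hs]
    -- non-vanishing
    have hc2 : Complex.cos (2 * s) ≠ 0 := by
      intro h
      rw [Complex.cos_eq_zero_iff] at h
      obtain ⟨k, hk⟩ := h
      have hk' : s = (((2 * k + 1) * Real.pi / 4 : ℝ) : ℂ) := by
        push_cast
        linear_combination hk / 2
      have hre : s.re = (2 * k + 1) * Real.pi / 4 := by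
        rw [hk', Complex.ofReal_re]
      have h2 : (0 : ℝ) < (2 * k + 1) := by
        by_contra hcon
        push Not at hcon
        nlinarith
      have h3 : ((2 * k + 1 : ℝ)) < 2 := by
        by_contra hcon
        push Not at hcon
        nlinarith
      have h4 : (0 : ℤ) < 2 * k + 1 := by exact_mod_cast h2
      have h5 : (2 * k + 1 : ℤ) < 2 := by exact_mod_cast h3
      have h6 : k = 0 := by omega
      apply hs
      rw [hk', h6]
      push_cast
      ring
    have hs2 : Complex.sin (2 * s) ≠ 0 := by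
      intro h
      rw [Complex.sin_eq_zero_iff] at h
      obtain ⟨k, hk⟩ := h
      have hk' : s = ((k * Real.pi / 2 : ℝ) : ℂ) := by
        push_cast
        linear_combination hk / 2
      have hre : s.re = k * Real.pi / 2 := by
        rw [hk', Complex.ofReal_re]
      have h2 : (0 : ℝ) < k := by
        by_contra hcon
        push Not at hcon
        nlinarith
      have h3 : (k : ℝ) < 1 := by
        by_contra hcon
        push Not at hcon
        nlinarith
      have h4 : (0 : ℤ) < k := by exact_mod_cast h2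
      have h5 : (k : ℤ) < 1 := by exact_mod_cast h3
      omega
    have hs4 : Complex.sin (4 * s) = 2 * Complex.sin (2 * s) * Complex.cos (2 * s) := by
      have : 4 * s = 2 * (2 * s) := by ring
      rw [this, Complex.sin_two_mul]
    have hc4 : Complex.cos (4 * s) = 2 * Complex.cos (2 * s) ^ 2 - 1 := by
      have : 4 * s = 2 * (2 * s) := by ring
      rw [this, Complex.cos_two_mul]
    have hs2' : Complex.sin (2 * s) = 2 * Complex.sin s * Complex.cos s := Complex.sin_two_mul s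
    have hc2' : Complex.cos (2 * s) = 2 * Complex.cos s ^ 2 - 1 := Complex.cos_two_mul s
    have hcs : Complex.cos s ≠ 0 := by
      intro h
      apply hs2
      rw [hs2', h]
      ring
    have key := int_closed h0 h1
    set J := ∫ φ in (0 : ℝ)..(Real.pi / 2),
      Complex.cos φ / (1 + Complex.sin (2 * s) * Complex.cos φ) with hJ
    have hJ' : J = (Complex.cos (2 * s) * (Real.pi / 2) - (Real.pi / 2 - 2 * s)) /
        (Complex.sin (2 * s) * Complex.cos (2 * s)) := by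
      rw [eq_div_iff (mul_ne_zero hs2 hc2)]
      linear_combination key
    have htan : Complex.tan s = (1 - Complex.cos (2 * s)) / Complex.sin (2 * s) := by
      rw [Complex.tan_eq_sin_div_cos, div_eq_div_iff hcs hs2, hs2', hc2']
      linear_combination (2 * Complex.cos s) * Complex.sin_sq_add_cos_sq s
    rw [hJ', hL, hs4, hc4, htan]
    field_simp
    ring

/-! ### the square root -/

lemma sq_pow {z : ℂ} (hz : z ≠ 0) : sq z * sq z = z := by
  unfold sq
  rw [← Complex.exp_add, add_halves, Complex.exp_log hz]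

lemma sq_ne (z : ℂ) : sq z ≠ 0 := Complex.exp_ne_zero _

lemma sq_re (z : ℂ) : 0 ≤ (sq z).re := by
  unfold sq
  rw [Complex.exp_re]
  have h : (Complex.log z / 2).im = Complex.arg z / 2 := by
    have : Complex.log z / 2 = ((1 / 2 : ℝ) : ℂ) * Complex.log z := by push_cast; ring
    rw [this, Complex.im_ofReal_mul, Complex.log_im]
    ring
  rw [h]
  have h1 := Complex.neg_pi_lt_arg z
  have h2 := Complex.arg_le_pi z
  exact mul_nonneg (Real.exp_pos _).le
    (Real.cos_nonneg_of_mem_Icc ⟨by linarith, by linarith⟩)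

lemma sq_sq {x : ℂ} (hx : 0 < x.re) : sq (x ^ 2) = x := by
  have hx0 : x ≠ 0 := by
    rintro rfl
    simp at hx
  have h1 : sq (x ^ 2) * sq (x ^ 2) = x ^ 2 := sq_pow (pow_ne_zero 2 hx0)
  have h2 : (sq (x ^ 2) - x) * (sq (x ^ 2) + x) = 0 := by linear_combination h1
  rcases mul_eq_zero.1 h2 with h | h
  · exact sub_eq_zero.1 h
  · exfalso
    have h3 := congrArg Complex.re h
    rw [Complex.add_re, Complex.zero_re] at h3
    have := sq_re (x ^ 2)
    linarith

lemma slit {x : ℂ} (hx : 0 < x.re) {y : ℝ} (hy : 0 ≤ y) : (y : ℂ) + x ^ 2 ∈ Complex.slitPlane := by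
  rw [Complex.mem_slitPlane_iff]
  by_cases h : x.im = 0
  · left
    have e : x ^ 2 = ((x.re ^ 2 - x.im ^ 2 : ℝ) : ℂ) + ((2 * x.re * x.im : ℝ) : ℂ) * Complex.I := by
      conv_lhs => rw [← Complex.re_add_im x]
      push_cast
      linear_combination ((x.im : ℂ) ^ 2) * Complex.I_sq
    have : ((y : ℂ) + x ^ 2).re = y + (x.re ^ 2 - x.im ^ 2) := by
      rw [e, Complex.add_re, Complex.add_re, Complex.ofReal_re, Complex.ofReal_re,
        Complex.re_ofReal_mul, Complex.I_re]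
      ring
    rw [this, h]
    have := pow_pos hx 2
    linarith
  · right
    have e : x ^ 2 = ((x.re ^ 2 - x.im ^ 2 : ℝ) : ℂ) + ((2 * x.re * x.im : ℝ) : ℂ) * Complex.I := by
      conv_lhs => rw [← Complex.re_add_im x]
      push_cast
      linear_combination ((x.im : ℂ) ^ 2) * Complex.I_sq
    have : ((y : ℂ) + x ^ 2).im = 2 * x.re * x.im := by
      rw [e, Complex.add_im, Complex.add_im, Complex.ofReal_im, Complex.ofReal_im,
        Complex.im_ofReal_mul, Complex.I_im]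
      ring
    rw [this]
    exact mul_ne_zero (mul_ne_zero two_ne_zero hx.ne') h

lemma sq_lower {x : ℂ} (hx : 0 < x.re) {y : ℝ} (hy : 0 ≤ y) : x.re ≤ ‖sq (y + x ^ 2)‖ := by
  have h1 := sq_pow (Complex.slitPlane_ne_zero (slit hx hy))
  have h2 : ‖sq (y + x ^ 2)‖ * ‖sq (y + x ^ 2)‖ = ‖(y : ℂ) + x ^ 2‖ := by
    rw [← norm_mul, h1]
  have h3 : (y : ℂ) + x ^ 2 = (x + (√y : ℝ) * Complex.I) * (x - (√y : ℝ) * Complex.I) := by
    have : ((√y : ℝ) : ℂ) * ((√y : ℝ) : ℂ) = (y : ℂ) := by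
      rw [← Complex.ofReal_mul, Real.mul_self_sqrt hy]
    linear_combination (-1 : ℂ) * this + ((√y : ℝ) : ℂ) * ((√y : ℝ) : ℂ) * Complex.I_sq
  have h4 : x.re ≤ ‖x + (√y : ℝ) * Complex.I‖ := by
    have : (x + (√y : ℝ) * Complex.I).re = x.re := by
      rw [Complex.add_re, Complex.re_ofReal_mul, Complex.I_re]
      ring
    calc x.re = (x + (√y : ℝ) * Complex.I).re := this.symm
      _ ≤ _ := Complex.re_le_norm _
  have h5 : x.re ≤ ‖x - (√y : ℝ) * Complex.I‖ := by
    have : (x - (√y : ℝ) * Complex.I).re = x.re := by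
      rw [Complex.sub_re, Complex.re_ofReal_mul, Complex.I_re]
      ring
    calc x.re = (x - (√y : ℝ) * Complex.I).re := this.symm
      _ ≤ _ := Complex.re_le_norm _
  have h6 : x.re * x.re ≤ ‖sq (y + x ^ 2)‖ * ‖sq (y + x ^ 2)‖ := by
    rw [h2, h3, norm_mul]
    exact mul_le_mul h4 h5 hx.le (norm_nonneg _)
  exact abs_le_of_sq_le_sq' (by nlinarith) (norm_nonneg _) |>.2

lemma sq_measurable : Measurable sq := by
  unfold sq
  exact Complex.measurable_exp.comp (Complex.measurable_log.div_const 2)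

lemma sq_deriv {x : ℂ} (hx : 0 < x.re) {y : ℝ} (hy : 0 ≤ y) :
    HasDerivAt (fun y : ℝ => sq (y + x ^ 2)) (1 / (2 * sq (y + x ^ 2))) y := by
  have h1 : HasDerivAt (fun y : ℝ => (y : ℂ) + x ^ 2) 1 y :=
    (Complex.ofRealCLM.hasDerivAt (x := y)).add_const _
  have h2 : HasDerivAt sq (sq (y + x ^ 2) * (((y : ℂ) + x ^ 2)⁻¹ / 2)) ((y : ℂ) + x ^ 2) := by
    unfold sq
    exact ((Complex.hasDerivAt_log (slit hx hy)).div_const 2).cexp
  have h3 := h2.comp y h1
  have e : 1 / (2 * sq (y + x ^ 2)) = sq (y + x ^ 2) * (((y : ℂ) + x ^ 2)⁻¹ / 2) * 1 := by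
    have h4 := sq_pow (Complex.slitPlane_ne_zero (slit hx hy))
    have h5 := sq_ne ((y : ℂ) + x ^ 2)
    have h6 := Complex.slitPlane_ne_zero (slit hx hy)
    rw [mul_one, ← mul_div_assoc, div_eq_div_iff (mul_ne_zero two_ne_zero h5) two_ne_zero]
    have h7 : sq (y + x ^ 2) * ((y : ℂ) + x ^ 2)⁻¹ * (2 * sq (y + x ^ 2)) =
        2 * ((sq (y + x ^ 2) * sq (y + x ^ 2)) * ((y : ℂ) + x ^ 2)⁻¹) := by ring
    rw [h7, h4, mul_inv_cancel₀ h6]
    ring
  rw [e]
  exact h3

/-! ### the inner integral -/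

open Pool.Agent.TH41.BL.W3Af (g0 g0_cont g0_nonneg WN_eq den_ge g0_int g0_cont2)

lemma a_deriv {c y : ℝ} (hy : 0 ≤ y) :
    HasDerivAt (fun y : ℝ => ((√(1 + y * c ^ 2) : ℝ) : ℂ))
      ((c : ℂ) ^ 2 / (2 * ((√(1 + y * c ^ 2) : ℝ) : ℂ))) y := by
  have h0 : 0 < 1 + y * c ^ 2 := by positivity
  have h1 : HasDerivAt (fun y : ℝ => 1 + y * c ^ 2) (c ^ 2) y := by
    simpa using ((hasDerivAt_id y).mul_const (c ^ 2)).const_add 1
  have h2 := h1.sqrt h0.ne'
  have h3 := h2.ofReal_comp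
  have e : (c : ℂ) ^ 2 / (2 * ((√(1 + y * c ^ 2) : ℝ) : ℂ)) =
      ((c ^ 2 / (2 * √(1 + y * c ^ 2)) : ℝ) : ℂ) := by push_cast; ring
  rw [e]
  exact h3

/-- the antiderivative -/
noncomputable def H (c : ℝ) (x : ℂ) (y : ℝ) : ℂ :=
  -(2 * c) / (((√(1 + y * c ^ 2) : ℝ) : ℂ) *
    (c * sq (y + x ^ 2) + ((√(1 + y * c ^ 2) : ℝ) : ℂ)))

lemma sum_re {c : ℝ} (hc : 0 ≤ c) (x : ℂ) (y : ℝ) :
    √(1 + y * c ^ 2) ≤ ‖(c : ℂ) * sq (y + x ^ 2) + ((√(1 + y * c ^ 2) : ℝ) : ℂ)‖ := by
  have h : ((c : ℂ) * sq (y + x ^ 2) + ((√(1 + y * c ^ 2) : ℝ) : ℂ)).re =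
      c * (sq (y + x ^ 2)).re + √(1 + y * c ^ 2) := by
    rw [Complex.add_re, Complex.re_ofReal_mul, Complex.ofReal_re]
  have h1 := sq_re (y + x ^ 2)
  have h2 := Complex.re_le_norm ((c : ℂ) * sq (y + x ^ 2) + ((√(1 + y * c ^ 2) : ℝ) : ℂ))
  rw [h] at h2
  nlinarith [mul_nonneg hc h1]

lemma H_deriv {c : ℝ} (hc : 0 < c) {x : ℂ} (hx : 0 < x.re) {y : ℝ} (hy : 0 ≤ y) :
    HasDerivAt (H c x) ((c : ℂ) ^ 2 / (((√(1 + y * c ^ 2) : ℝ) : ℂ) ^ 3 * sq (y + x ^ 2))) y := by
  have ha0 : 0 < √(1 + y * c ^ 2) := Real.sqrt_pos.2 (by positivity)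
  have hs0 : (c : ℂ) * sq (y + x ^ 2) + ((√(1 + y * c ^ 2) : ℝ) : ℂ) ≠ 0 := by
    rw [← norm_pos_iff]
    exact lt_of_lt_of_le ha0 (sum_re hc.le x y)
  have ha := a_deriv (c := c) hy
  have hb := sq_deriv hx hy
  have hb0 := sq_ne ((y : ℂ) + x ^ 2)
  have hac : ((√(1 + y * c ^ 2) : ℝ) : ℂ) ≠ 0 := by exact_mod_cast ha0.ne'
  have h1 := (ha.mul ((hb.const_mul (c : ℂ)).add ha))
  have h2 := (hasDerivAt_const y (-(2 * (c : ℂ)))).div h1 (mul_ne_zero hac hs0)
  have e : (c : ℂ) ^ 2 / (((√(1 + y * c ^ 2) : ℝ) : ℂ) ^ 3 * sq (y + x ^ 2)) =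
      (0 * (((√(1 + y * c ^ 2) : ℝ) : ℂ) * (c * sq (y + x ^ 2) + ((√(1 + y * c ^ 2) : ℝ) : ℂ))) -
        (-(2 * (c : ℂ))) * (((c : ℂ) ^ 2 / (2 * ((√(1 + y * c ^ 2) : ℝ) : ℂ))) *
            (c * sq (y + x ^ 2) + ((√(1 + y * c ^ 2) : ℝ) : ℂ)) +
          ((√(1 + y * c ^ 2) : ℝ) : ℂ) * (c * (1 / (2 * sq (y + x ^ 2))) +
            (c : ℂ) ^ 2 / (2 * ((√(1 + y * c ^ 2) : ℝ) : ℂ))))) /
      (((√(1 + y * c ^ 2) : ℝ) : ℂ) * (c * sq (y + x ^ 2) + ((√(1 + y * c ^ 2) : ℝ) : ℂ))) ^ 2 := by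
    generalize ((√(1 + y * c ^ 2) : ℝ) : ℂ) = A at *
    generalize sq ((y : ℂ) + x ^ 2) = B at *
    rw [div_eq_div_iff (mul_ne_zero (pow_ne_zero 3 hac) hb0)
      (pow_ne_zero 2 (mul_ne_zero hac hs0))]
    field_simp
    ring
  rw [e]
  exact h2

lemma H_tendsto {c : ℝ} (hc : 0 < c) (x : ℂ) : Tendsto (H c x) atTop (𝓝 0) := by
  rw [tendsto_zero_iff_norm_tendsto_zero]
  have hlim : Tendsto (fun y : ℝ => 2 * c / (1 + y * c ^ 2)) atTop (𝓝 0) := by
    apply Tendsto.div_atTop tendsto_const_nhds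
    apply tendsto_atTop_add_const_left
    exact tendsto_id.atTop_mul_const (by positivity)
  refine tendsto_of_tendsto_of_tendsto_of_le_of_le' tendsto_const_nhds hlim
    (Eventually.of_forall fun y => norm_nonneg _) ?_
  filter_upwards [eventually_ge_atTop 0] with y hy
  have h0 : 0 < 1 + y * c ^ 2 := by positivity
  have ha0 : 0 < √(1 + y * c ^ 2) := Real.sqrt_pos.2 h0
  have hs := sum_re hc.le x y
  have h1 : ‖-(2 * (c : ℂ))‖ = 2 * c := by
    rw [norm_neg, norm_mul, Complex.norm_real, Real.norm_of_nonneg hc.le]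
    simp
  unfold H
  rw [norm_div, h1, norm_mul, Complex.norm_real, Real.norm_of_nonneg ha0.le]
  apply div_le_div_of_nonneg_left (by positivity) h0
  calc 1 + y * c ^ 2 = √(1 + y * c ^ 2) * √(1 + y * c ^ 2) := (Real.mul_self_sqrt h0.le).symm
    _ ≤ _ := mul_le_mul_of_nonneg_left hs ha0.le

lemma g0_val {y : ℝ} (hy : 0 ≤ y) (φ : ℝ) (x : ℂ) :
    (g0 y φ : ℂ) / sq (y + x ^ 2) = ((Real.cos φ : ℝ) : ℂ) ^ 2 /
      (((√(1 + y * Real.cos φ ^ 2) : ℝ) : ℂ) ^ 3 * sq (y + x ^ 2)) := by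
  unfold g0
  rw [max_eq_left hy]
  push_cast
  rw [div_div]

/-- the weight, for fixed `φ` -/
lemma g0_intOn {φ : ℝ} (hc : 0 < Real.cos φ) :
    IntegrableOn (fun y : ℝ => g0 y φ) (Set.Ioi 0) ∧ ∫ y in Set.Ioi (0 : ℝ), g0 y φ = 2 := by
  set c := Real.cos φ with hcdef
  have hd : ∀ y ∈ Set.Ici (0 : ℝ), HasDerivAt (fun y : ℝ => -(2 / √(1 + y * c ^ 2))) (g0 y φ) y := by
    intro y hy
    have hy' : (0 : ℝ) ≤ y := hy
    have h0 : 0 < 1 + y * c ^ 2 := by positivity
    have ha0 : 0 < √(1 + y * c ^ 2) := Real.sqrt_pos.2 h0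
    have h1 : HasDerivAt (fun y : ℝ => 1 + y * c ^ 2) (c ^ 2) y := by
      simpa using ((hasDerivAt_id y).mul_const (c ^ 2)).const_add 1
    have h2 := ((hasDerivAt_const y (2 : ℝ)).div (h1.sqrt h0.ne') ha0.ne').neg
    have e : g0 y φ = -((0 * √(1 + y * c ^ 2) - 2 * (c ^ 2 / (2 * √(1 + y * c ^ 2)))) /
        √(1 + y * c ^ 2) ^ 2) := by
      unfold g0
      rw [max_eq_left hy', ← hcdef]
      field_simp
      ring
    rw [e]
    exact h2
  have hlim : Tendsto (fun y : ℝ => -(2 / √(1 + y * c ^ 2))) atTop (𝓝 0) := by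
    have : Tendsto (fun y : ℝ => 2 / √(1 + y * c ^ 2)) atTop (𝓝 0) := by
      apply Tendsto.div_atTop tendsto_const_nhds
      apply Real.tendsto_sqrt_atTop.comp
      apply tendsto_atTop_add_const_left
      exact tendsto_id.atTop_mul_const (by positivity)
    simpa using this.neg
  have h1 := integrableOn_Ioi_deriv_of_nonneg (a := (0 : ℝ))
    (hd 0 (Set.mem_Ici.2 le_rfl)).continuousAt.continuousWithinAt
    (fun y hy => hd y (Set.mem_Ici.2 (le_of_lt hy))) (fun y _ => g0_nonneg y φ) hlim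
  refine ⟨h1, ?_⟩
  rw [integral_Ioi_of_hasDerivAt_of_tendsto (a := (0 : ℝ))
    (hd 0 (Set.mem_Ici.2 le_rfl)).continuousAt.continuousWithinAt
    (fun y hy => hd y (Set.mem_Ici.2 (le_of_lt hy))) h1 hlim]
  simp

lemma q_meas (x : ℂ) : Measurable (fun y : ℝ => 1 / sq ((y : ℂ) + x ^ 2)) := by
  have h : Measurable (fun y : ℝ => sq ((y : ℂ) + x ^ 2)) :=
    sq_measurable.comp (Complex.measurable_ofReal.add_const _)
  exact measurable_const.div h

lemma q_bd {x : ℂ} (hx : 0 < x.re) {y : ℝ} (hy : 0 ≤ y) :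
    ‖1 / sq ((y : ℂ) + x ^ 2)‖ ≤ 1 / x.re := by
  rw [norm_div, norm_one]
  exact one_div_le_one_div_of_le hx (sq_lower hx hy)

lemma inner_int {x : ℂ} (hx : 0 < x.re) {φ : ℝ} (hc : 0 < Real.cos φ) :
    ∫ y in Set.Ioi (0 : ℝ), (g0 y φ : ℂ) / sq (y + x ^ 2) =
      2 * (Complex.cos φ / (1 + x * Complex.cos φ)) := by
  have hint : IntegrableOn (fun y : ℝ => (g0 y φ : ℂ) / sq (y + x ^ 2)) (Set.Ioi 0) := by
    have h1 : IntegrableOn (fun y : ℝ => ((g0 y φ : ℝ) : ℂ)) (Set.Ioi 0) := (g0_intOn hc).1.ofReal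
    have h2 := h1.bdd_mul (f := fun y : ℝ => 1 / sq ((y : ℂ) + x ^ 2)) (c := 1 / x.re)
      (q_meas x).aestronglyMeasurable ((ae_restrict_iff' measurableSet_Ioi).2
        (Eventually.of_forall fun y hy => q_bd hx (le_of_lt hy)))
    refine h2.congr (Eventually.of_forall fun y => ?_)
    show 1 / sq ((y : ℂ) + x ^ 2) * (g0 y φ : ℂ) = _
    ring
  have hd : ∀ y ∈ Set.Ici (0 : ℝ), HasDerivAt (H (Real.cos φ) x)
      ((g0 y φ : ℂ) / sq (y + x ^ 2)) y := by
    intro y hy
    rw [g0_val hy]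
    exact H_deriv hc hx hy
  rw [integral_Ioi_of_hasDerivAt_of_tendsto (a := (0 : ℝ)) (f := H (Real.cos φ) x)
    (hd 0 (Set.mem_Ici.2 le_rfl)).continuousAt.continuousWithinAt
    (fun y hy => hd y (Set.mem_Ici.2 (le_of_lt hy))) hint (H_tendsto hc x)]
  unfold H
  have e1 : √(1 + (0 : ℝ) * Real.cos φ ^ 2) = 1 := by simp
  rw [e1, Complex.ofReal_zero, zero_add, sq_sq hx, Complex.ofReal_one, Complex.ofReal_cos]
  rw [zero_sub, neg_div, neg_neg, one_mul, mul_div_assoc, mul_comm (Complex.cos φ) x,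
    add_comm (x * Complex.cos φ) 1]

/-! ### Fubini -/

lemma outer {x : ℂ} (hx : 0 < x.re) :
    ∫ y in Set.Ioi (0 : ℝ), (2 * WN y : ℂ) / sq (y + x ^ 2) =
      2 / (Real.pi : ℂ) * ∫ φ in (0 : ℝ)..(Real.pi / 2),
        Complex.cos φ / (1 + x * Complex.cos φ) := by
  have hpi := Real.pi_pos
  have hpi2 : (0 : ℝ) ≤ Real.pi / 2 := by positivity
  have hpic : (Real.pi : ℂ) ≠ 0 := by exact_mod_cast hpi.ne'
  have h1 : ∫ y in Set.Ioi (0 : ℝ), (2 * WN y : ℂ) / sq (y + x ^ 2) =
      1 / (Real.pi : ℂ) * ∫ y in Set.Ioi (0 : ℝ), ∫ φ in Set.Ioo (0 : ℝ) (Real.pi / 2),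
        (g0 y φ : ℂ) / sq (y + x ^ 2) := by
    rw [← integral_const_mul]
    apply setIntegral_congr_fun measurableSet_Ioi
    intro y hy
    simp only
    have hy' : (0 : ℝ) ≤ y := le_of_lt hy
    have e : ∫ a in Set.Ioo (0 : ℝ) (Real.pi / 2), ((g0 y a : ℝ) : ℂ) =
        ((∫ a in (0 : ℝ)..(Real.pi / 2), g0 y a : ℝ) : ℂ) := by
      rw [integral_complex_ofReal, ← integral_Ioc_eq_integral_Ioo,
        ← intervalIntegral.integral_of_le hpi2]
    rw [WN_eq hy', integral_div, e]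
    generalize (∫ a in (0 : ℝ)..(Real.pi / 2), g0 y a) = W
    push_cast
    field_simp
  have hprod : Integrable (fun p : ℝ × ℝ => (g0 p.1 p.2 : ℂ) / sq (p.1 + x ^ 2))
      ((volume.restrict (Set.Ioi (0 : ℝ))).prod
        (volume.restrict (Set.Ioo (0 : ℝ) (Real.pi / 2)))) := by
    have hr : Integrable (fun p : ℝ × ℝ => g0 p.1 p.2)
        ((volume.restrict (Set.Ioi (0 : ℝ))).prod
          (volume.restrict (Set.Ioo (0 : ℝ) (Real.pi / 2)))) := by
      rw [integrable_prod_iff' g0_cont.aestronglyMeasurable]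
      have hcp : ∀ φ ∈ Set.Ioo (0 : ℝ) (Real.pi / 2), 0 < Real.cos φ := fun φ hφ =>
        Real.cos_pos_of_mem_Ioo ⟨by linarith [hφ.1], hφ.2⟩
      refine ⟨(ae_restrict_iff' measurableSet_Ioo).2
        (Eventually.of_forall fun φ hφ => (g0_intOn (hcp φ hφ)).1), ?_⟩
      have : Integrable (fun _ : ℝ => (2 : ℝ)) (volume.restrict (Set.Ioo (0 : ℝ) (Real.pi / 2))) :=
        integrable_const _
      refine this.congr ((ae_restrict_iff' measurableSet_Ioo).2
        (Eventually.of_forall fun φ hφ => ?_))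
      have e : ∀ y : ℝ, ‖g0 y φ‖ = g0 y φ := fun y => Real.norm_of_nonneg (g0_nonneg y φ)
      simp only [e]
      exact (g0_intOn (hcp φ hφ)).2.symm
    have hrc : Integrable (fun p : ℝ × ℝ => ((g0 p.1 p.2 : ℝ) : ℂ))
        ((volume.restrict (Set.Ioi (0 : ℝ))).prod
          (volume.restrict (Set.Ioo (0 : ℝ) (Real.pi / 2)))) := hr.ofReal
    have h2 := hrc.bdd_mul (f := fun p : ℝ × ℝ => 1 / sq ((p.1 : ℂ) + x ^ 2)) (c := 1 / x.re)
      ((q_meas x).comp measurable_fst).aestronglyMeasurable (by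
        rw [Measure.prod_restrict]
        exact (ae_restrict_iff' (measurableSet_Ioi.prod measurableSet_Ioo)).2
          (Eventually.of_forall fun p hp => q_bd hx (le_of_lt hp.1)))
    refine h2.congr (Eventually.of_forall fun p => ?_)
    show 1 / sq ((p.1 : ℂ) + x ^ 2) * (g0 p.1 p.2 : ℂ) = _
    ring
  rw [h1, integral_integral_swap hprod]
  have h3 : ∫ φ in Set.Ioo (0 : ℝ) (Real.pi / 2), ∫ y in Set.Ioi (0 : ℝ),
      (g0 y φ : ℂ) / sq (y + x ^ 2) = ∫ φ in Set.Ioo (0 : ℝ) (Real.pi / 2),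
        2 * (Complex.cos φ / (1 + x * Complex.cos φ)) := by
    apply setIntegral_congr_fun measurableSet_Ioo
    intro φ hφ
    exact inner_int hx (Real.cos_pos_of_mem_Ioo ⟨by linarith [hφ.1], hφ.2⟩)
  rw [h3, integral_const_mul, ← integral_Ioc_eq_integral_Ioo,
    ← intervalIntegral.integral_of_le hpi2]
  ring

theorem id4 (hw : S3_w) (hi : S4_w) (h1 : S_lz1) (h2 : S_lz2) : S4_id := by
  intro s hs0 hs1
  have hpi := Real.pi_pos
  have hx : 0 < (Complex.sin (2 * s)).re := by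
    have e : Complex.sin (2 * s) = Complex.cos ((Real.pi : ℂ) / 2 - 2 * s) :=
      (Complex.cos_pi_div_two_sub _).symm
    have hre : ((Real.pi : ℂ) / 2 - 2 * s).re = Real.pi / 2 - 2 * s.re := by
      have : (Real.pi : ℂ) / 2 - 2 * s = ((Real.pi / 2 : ℝ) : ℂ) - ((2 : ℝ) : ℂ) * s := by
        push_cast; ring
      rw [this, Complex.sub_re, Complex.ofReal_re, Complex.re_ofReal_mul]
    rw [e, cos_re', hre]
    have h3 : 0 < Real.cos (Real.pi / 2 - 2 * s.re) :=
      Real.cos_pos_of_mem_Ioo ⟨by linarith, by linarith⟩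
    have h4 := Real.cosh_pos ((Real.pi : ℂ) / 2 - 2 * s).im
    positivity
  rw [outer hx]
  exact int_closed' hs0 hs1

end Pool.Agent.TH41.BL.ID4f
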