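import Mathlib
import Pool.Agent.TH41.BL.Stm4
import Pool.Agent.TH41.BL.LEM

set_option autoImplicit false

open MeasureTheory Filter Topology

namespace Pool.Agent.TH41.BL.LE4f

open Pool.Agent.TH41.BL

/-- the quadratic estimate -/
lemma quad {C ε κ x : ℝ} (hε : 0 < ε) :
    κ * (C * |x|) - ε * x ^ 2 ≤ C ^ 2 * κ ^ 2 / ε := by
  have h10 : 0 ≤ (2 * ε * |x| - C * κ) ^ 2 / (4 * ε) := by positivity
  have h11 : (2 * ε * |x| - C * κ) ^ 2 / (4 * ε) =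
      ε * x ^ 2 + C ^ 2 * κ ^ 2 / (4 * ε) - κ * (C * |x|) := by
    rw [← sq_abs x]
    field_simp
    ring
  have h12 : C ^ 2 * κ ^ 2 / (4 * ε) ≤ C ^ 2 * κ ^ 2 / ε :=
    div_le_div_of_nonneg_left (by positivity) hε (by linarith)
  linarith

/-- the exponent on the left line -/
lemma expoL {C ε η Δ κ τ t gt gτ : ℝ} (hε : 0 < ε) (hκ : 0 < κ)
    (hk : κ * (C + ε + C ^ 2 / ε) ≤ Δ / 2) (hg : |gt - gτ| ≤ C * |t - τ|) (h : η + Δ ≤ gτ) :
    -κ * gt + C * (-κ) ^ 2 + (ε * (κ ^ 2 - (t - τ) ^ 2) + κ * η) ≤ -(κ * Δ / 2) := by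
  have h1 := quad (C := C) (κ := κ) (x := t - τ) hε
  have h2 := (abs_le.1 hg).1
  have h3 : κ * (gτ - C * |t - τ|) ≤ κ * gt := mul_le_mul_of_nonneg_left (by linarith) hκ.le
  have h4 : κ * (η + Δ) ≤ κ * gτ := mul_le_mul_of_nonneg_left h hκ.le
  have h12 : κ * (κ * (C + ε + C ^ 2 / ε)) ≤ κ * (Δ / 2) := mul_le_mul_of_nonneg_left hk hκ.le
  have h13 : κ * (κ * (C + ε + C ^ 2 / ε)) = C * κ ^ 2 + ε * κ ^ 2 + C ^ 2 * κ ^ 2 / ε := by ring
  nlinarith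

/-- the exponent on the right line -/
lemma expoR {C ε η Δ κ τ t gt gτ : ℝ} (hε : 0 < ε) (hκ : 0 < κ)
    (hk : κ * (C + ε + C ^ 2 / ε) ≤ Δ / 2) (hg : |gt - gτ| ≤ C * |t - τ|) (h : gτ ≤ η - Δ) :
    κ * gt + C * κ ^ 2 + (ε * (κ ^ 2 - (t - τ) ^ 2) - κ * η) ≤ -(κ * Δ / 2) := by
  have h1 := quad (C := C) (κ := κ) (x := t - τ) hε
  have h2 := (abs_le.1 hg).2
  have h3 : κ * gt ≤ κ * (gτ + C * |t - τ|) := mul_le_mul_of_nonneg_left (by linarith) hκ.le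
  have h4 : κ * gτ ≤ κ * (η - Δ) := mul_le_mul_of_nonneg_left h hκ.le
  have h12 : κ * (κ * (C + ε + C ^ 2 / ε)) ≤ κ * (Δ / 2) := mul_le_mul_of_nonneg_left hk hκ.le
  have h13 : κ * (κ * (C + ε + C ^ 2 / ε)) = C * κ ^ 2 + ε * κ ^ 2 + C ^ 2 * κ ^ 2 / ε := by ring
  nlinarith

/-- the function under the integral, without the pole -/
noncomputable def Yg (Q : ℂ → ℂ) (n : ℕ) (ε η τ : ℝ) (s : ℂ) : ℂ :=
  Q s * Complex.exp (n * ε * (s - τ * Complex.I) ^ 2 - n * η * (s - τ * Complex.I))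

lemma norm_Yg (Q : ℂ → ℂ) (n : ℕ) (ε η τ σ t : ℝ) :
    ‖Yg Q n ε η τ (σ + t * Complex.I)‖ = ‖Q (σ + t * Complex.I)‖ *
      Real.exp (n * (ε * (σ ^ 2 - (t - τ) ^ 2) - η * σ)) := by
  unfold Yg
  rw [norm_mul, Complex.norm_exp]
  congr 2
  have e1 : ((σ : ℂ) + t * Complex.I) - τ * Complex.I = (σ : ℂ) + ((t - τ : ℝ) : ℂ) * Complex.I := by
    push_cast
    ring
  rw [e1]
  set u : ℂ := (σ : ℂ) + ((t - τ : ℝ) : ℂ) * Complex.I with hu
  have hre : u.re = σ := by simp [hu]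
  have him : u.im = t - τ := by simp [hu]
  have e2 : ((n : ℂ) * ε * u ^ 2 - n * η * u) =
      ((n * ε : ℝ) : ℂ) * u ^ 2 - ((n * η : ℝ) : ℂ) * u := by
    push_cast
    ring
  rw [e2, Complex.sub_re, Complex.re_ofReal_mul, Complex.re_ofReal_mul, pow_two, Complex.mul_re,
    hre, him]
  ring

lemma Yg_pole (Q : ℂ → ℂ) (n : ℕ) (ε η τ : ℝ) :
    Yg Q n ε η τ (τ * Complex.I) = Q (τ * Complex.I) := by
  unfold Yg
  rw [sub_self]
  simp

theorem left4 (h : S_rect) : S4_left := by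
  intro T C κ₀ hT hC hκ₀ hκπ ε η Δ ϑ hε hη hΔ hϑ
  have hD : 0 < C + ε + C ^ 2 / ε := by positivity
  have hE : 0 < C + ε + 1 := by positivity
  obtain ⟨κ, hκ, hκ1, hκ2, hκ3, hκ4⟩ : ∃ κ : ℝ, 0 < κ ∧ κ ≤ κ₀ ∧
      κ * (C + ε + C ^ 2 / ε) ≤ Δ / 2 ∧ κ * (C + ε + 1) ≤ ε * ϑ ^ 2 / 2 ∧ κ ≤ 1 := by
    refine ⟨min (min κ₀ 1) (min (Δ / 2 / (C + ε + C ^ 2 / ε)) (ε * ϑ ^ 2 / 2 / (C + ε + 1))),
      by positivity, ?_, ?_, ?_, ?_⟩
    · exact (min_le_left _ _).trans (min_le_left _ _)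
    · rw [← le_div_iff₀ hD]
      exact (min_le_right _ _).trans (min_le_left _ _)
    · rw [← le_div_iff₀ hE]
      exact (min_le_right _ _).trans (min_le_right _ _)
    · exact (min_le_left _ _).trans (min_le_right _ _)
  refine ⟨κ, hκ, ?_⟩
  intro c hc hcκ
  set ε₁ : ℝ := min (κ * Δ / 2) (ε * ϑ ^ 2 / 2) / 2 with hε₁
  have hε₁0 : 0 < ε₁ := by positivity
  have hε₁a : 2 * ε₁ ≤ κ * Δ / 2 := by
    have := min_le_left (κ * Δ / 2) (ε * ϑ ^ 2 / 2)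
    linarith
  have hε₁b : 2 * ε₁ ≤ ε * ϑ ^ 2 / 2 := by
    have := min_le_right (κ * Δ / 2) (ε * ϑ ^ 2 / 2)
    linarith
  set K : ℝ := 2 * T / κ + 4 * κ / ϑ with hK
  have hK0 : 0 < K := by positivity
  obtain ⟨n₁, hn₁⟩ := exists_nat_ge (K / ε₁)
  refine ⟨ε₁, hε₁0, n₁ + 1, ?_⟩
  intro n hn Q g γ b hq τ hτ
  have hn0 : 0 < n := by omega
  have hn' : (1 : ℝ) ≤ n := by exact_mod_cast hn0
  have hτT : |τ| < T := by linarith
  -- differentiability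
  have hdiff : ∀ s : ℂ, -κ ≤ s.re → s.re ≤ κ → |s.im| ≤ T →
      DifferentiableAt ℂ (Yg Q n ε η τ) s := by
    intro s h1 h2 h3
    have h4 : DifferentiableAt ℂ Q s :=
      hq.m10 s ((abs_le.2 ⟨h1, h2⟩).trans hκ1) h3
    unfold Yg
    refine h4.mul (DifferentiableAt.cexp ?_)
    fun_prop
  -- horizontal sides
  have hhor0 : ∀ σ t : ℝ, -κ ≤ σ → σ ≤ κ → |t| ≤ T → ϑ ^ 2 ≤ (t - τ) ^ 2 →
      ‖Yg Q n ε η τ (σ + t * Complex.I)‖ ≤ Real.exp (-(n * (ε * ϑ ^ 2 / 2))) := by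
    intro σ t h1 h2 h3 h4
    have hσ : |σ| ≤ κ := abs_le.2 ⟨h1, h2⟩
    rw [norm_Yg]
    have h5 := hq.m2 σ t (hσ.trans hκ1) h3
    refine (mul_le_mul_of_nonneg_right h5 (Real.exp_pos _).le).trans ?_
    rw [← Real.exp_add]
    apply Real.exp_le_exp.2
    have h6 : -(η * σ) ≤ κ := by
      have h7 : |η * σ| ≤ 1 * κ := by
        rw [abs_mul]
        exact mul_le_mul hη hσ (abs_nonneg _) zero_le_one
      have := (abs_le.1 h7).1
      linarith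
    have h8 : σ ^ 2 ≤ κ := by
      have h9 : σ ^ 2 ≤ κ ^ 2 := by
        rw [← sq_abs σ]
        exact pow_le_pow_left₀ (abs_nonneg _) hσ 2
      nlinarith
    have h10 : C * |σ| ≤ C * κ := mul_le_mul_of_nonneg_left hσ hC.le
    have h11 : ε * (σ ^ 2 - (t - τ) ^ 2) ≤ ε * (κ - ϑ ^ 2) :=
      mul_le_mul_of_nonneg_left (by linarith) hε.le
    have h12 : C * |σ| + (ε * (σ ^ 2 - (t - τ) ^ 2) - η * σ) ≤ -(ε * ϑ ^ 2 / 2) := by
      have : C * κ + ε * (κ - ϑ ^ 2) + κ = κ * (C + ε + 1) - ε * ϑ ^ 2 := by ring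
      linarith
    have h13 := mul_le_mul_of_nonneg_left h12 (by linarith : (0 : ℝ) ≤ n)
    linarith
  have hsq : ∀ t : ℝ, |t| = T → ϑ ^ 2 ≤ (t - τ) ^ 2 := by
    intro t ht
    rw [← sq_abs (t - τ)]
    apply pow_le_pow_left₀ hϑ.le
    have := abs_sub_abs_le_abs_sub t τ
    linarith
  have hhor : ∀ σ : ℝ, -κ ≤ σ → σ ≤ κ →
      ‖Yg Q n ε η τ (σ + T * Complex.I)‖ ≤ Real.exp (-(n * (ε * ϑ ^ 2 / 2))) ∧
      ‖Yg Q n ε η τ (σ + (-T : ℝ) * Complex.I)‖ ≤ Real.exp (-(n * (ε * ϑ ^ 2 / 2))) := by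
    intro σ h1 h2
    refine ⟨hhor0 σ T h1 h2 (abs_of_pos hT).le (hsq T (abs_of_pos hT)), ?_⟩
    exact hhor0 σ (-T) h1 h2 (by rw [abs_neg, abs_of_pos hT])
      (hsq (-T) (by rw [abs_neg, abs_of_pos hT]))
  have hR := h (Yg Q n ε η τ) (-κ) κ T τ (Real.exp (-(n * (ε * ϑ ^ 2 / 2)))) (by linarith) hκ
    hτT hdiff hhor
  have hτmem : |τ| ≤ T := hτT.le
  -- a vertical line with a small integrand
  have hline : ∀ σ : ℝ, |σ| = κ → (∀ t : ℝ, |t| ≤ T →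
      ‖Yg Q n ε η τ (σ + t * Complex.I)‖ ≤ Real.exp (-(n * (κ * Δ / 2)))) →
      ‖∫ t in (-T)..T, Yg Q n ε η τ ((σ : ℂ) + t * Complex.I) /
        ((σ : ℂ) + (t - τ) * Complex.I)‖ ≤ 2 * T / κ * Real.exp (-(2 * ε₁ * n)) := by
    intro σ hσ hb
    have h0 : ‖∫ t in (-T)..T, Yg Q n ε η τ ((σ : ℂ) + t * Complex.I) /
        ((σ : ℂ) + (t - τ) * Complex.I)‖ ≤ κ⁻¹ * Real.exp (-(n * (κ * Δ / 2))) * |T - -T| := by
      apply intervalIntegral.norm_integral_le_of_norm_le_const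
      intro t ht
      rw [Set.uIoc_of_le (by linarith)] at ht
      have htT : |t| ≤ T := abs_le.2 ⟨ht.1.le, ht.2⟩
      have h2 : κ ≤ ‖(σ : ℂ) + (t - τ) * Complex.I‖ := by
        have h3 := Complex.abs_re_le_norm ((σ : ℂ) + (t - τ) * Complex.I)
        have h4 : ((σ : ℂ) + (t - τ) * Complex.I).re = σ := by simp
        rw [h4, hσ] at h3
        exact h3
      rw [norm_div, div_eq_inv_mul]
      exact mul_le_mul (inv_anti₀ hκ h2) (hb t htT) (norm_nonneg _) (by positivity)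
    refine h0.trans ?_
    have h5 : Real.exp (-(n * (κ * Δ / 2))) ≤ Real.exp (-(2 * ε₁ * n)) := by
      apply Real.exp_le_exp.2
      nlinarith
    have h6 : |T - -T| = 2 * T := by
      rw [sub_neg_eq_add, ← two_mul, abs_of_pos (by linarith)]
    rw [h6]
    calc κ⁻¹ * Real.exp (-(n * (κ * Δ / 2))) * (2 * T)
        ≤ κ⁻¹ * Real.exp (-(2 * ε₁ * n)) * (2 * T) := by gcongr
      _ = 2 * T / κ * Real.exp (-(2 * ε₁ * n)) := by field_simp
  have hside : 2 * (κ - -κ) * Real.exp (-(n * (ε * ϑ ^ 2 / 2))) / (T - |τ|) ≤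
      4 * κ / ϑ * Real.exp (-(2 * ε₁ * n)) := by
    have h2 : Real.exp (-(n * (ε * ϑ ^ 2 / 2))) ≤ Real.exp (-(2 * ε₁ * n)) := by
      apply Real.exp_le_exp.2
      nlinarith
    have h3 : ϑ ≤ T - |τ| := by linarith
    rw [div_le_iff₀ (by linarith)]
    calc 2 * (κ - -κ) * Real.exp (-(n * (ε * ϑ ^ 2 / 2)))
        ≤ 4 * κ * Real.exp (-(2 * ε₁ * n)) := by
          have : 2 * (κ - -κ) = 4 * κ := by ring
          rw [this]
          exact mul_le_mul_of_nonneg_left h2 (by positivity)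
      _ = 4 * κ / ϑ * Real.exp (-(2 * ε₁ * n)) * ϑ := by field_simp
      _ ≤ 4 * κ / ϑ * Real.exp (-(2 * ε₁ * n)) * (T - |τ|) :=
          mul_le_mul_of_nonneg_left h3 (by positivity)
  -- the test function
  have hvM : 2 * Real.pi * vS Q T n ε η c τ =
      ∫ t in (-T)..T, Yg Q n ε η τ ((c : ℂ) + t * Complex.I) /
        ((c : ℂ) + (t - τ) * Complex.I) := by
    unfold vS
    have hpi : (2 * Real.pi : ℂ) ≠ 0 := by
      have := Real.pi_ne_zero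
      exact mul_ne_zero two_ne_zero (by exact_mod_cast this)
    rw [mul_div_cancel₀ _ hpi]
    apply intervalIntegral.integral_congr
    intro t _
    simp only [Yg, Kf]
    rw [mul_div_assoc]
    congr 3
    have e1 : (c : ℂ) + t * Complex.I - τ * Complex.I = (c : ℂ) + (t - τ) * Complex.I := by ring
    rw [e1]
  have hpi : 1 ≤ 2 * Real.pi := by linarith [Real.pi_gt_three]
  have hKe : K ≤ Real.exp (ε₁ * n) := by
    have h3 : K / ε₁ ≤ n := hn₁.trans (by exact_mod_cast (by omega : n₁ ≤ n))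
    rw [div_le_iff₀ hε₁0] at h3
    have h4 := Real.add_one_le_exp (ε₁ * n)
    nlinarith
  -- the end
  have hend : ∀ z : ℂ, ‖(2 * Real.pi : ℂ) * z‖ ≤ K * Real.exp (-(2 * ε₁ * n)) →
      ‖z‖ ≤ Real.exp (-ε₁ * n) := by
    intro z hfin
    rw [norm_mul] at hfin
    have h5 : ‖(2 * Real.pi : ℂ)‖ = 2 * Real.pi := by
      rw [norm_mul, Complex.norm_ofNat, Complex.norm_real, Real.norm_eq_abs,
        abs_of_pos Real.pi_pos]
    rw [h5] at hfin
    calc ‖z‖ ≤ 2 * Real.pi * ‖z‖ := le_mul_of_one_le_left (norm_nonneg _) hpi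
      _ ≤ K * Real.exp (-(2 * ε₁ * n)) := hfin
      _ ≤ Real.exp (ε₁ * n) * Real.exp (-(2 * ε₁ * n)) := by gcongr
      _ = Real.exp (-ε₁ * n) := by
        rw [← Real.exp_add]
        congr 1
        ring
  constructor
  · intro hbτ
    apply hend
    have hrect := hR.2 (-κ) c le_rfl (by linarith) hc hcκ
    rw [Yg_pole] at hrect
    have hleft := hline (-κ) (by rw [abs_neg, abs_of_pos hκ]) (by
      intro t ht
      rw [norm_Yg]
      have h1 := hq.m6 (-κ) t (by rw [abs_neg, abs_of_pos hκ]; exact hκ1) ht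
      refine (mul_le_mul_of_nonneg_right h1 (Real.exp_pos _).le).trans ?_
      rw [← Real.exp_add]
      apply Real.exp_le_exp.2
      have h5 := mul_le_mul_of_nonneg_left
        (expoL (C := C) (t := t) hε hκ hκ2 (hq.m11 t τ ht hτmem) hbτ) (by linarith : (0 : ℝ) ≤ n)
      nlinarith)
    rw [mul_sub, hvM]
    have e1 : (∫ t in (-T)..T, Yg Q n ε η τ ((c : ℂ) + t * Complex.I) /
        ((c : ℂ) + (t - τ) * Complex.I)) - 2 * Real.pi * Q (τ * Complex.I) =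
        ((∫ t in (-T)..T, Yg Q n ε η τ ((c : ℂ) + t * Complex.I) /
          ((c : ℂ) + (t - τ) * Complex.I)) -
        (∫ t in (-T)..T, Yg Q n ε η τ (((-κ : ℝ) : ℂ) + t * Complex.I) /
          (((-κ : ℝ) : ℂ) + (t - τ) * Complex.I)) - 2 * Real.pi * Q (τ * Complex.I)) +
        (∫ t in (-T)..T, Yg Q n ε η τ (((-κ : ℝ) : ℂ) + t * Complex.I) /
          (((-κ : ℝ) : ℂ) + (t - τ) * Complex.I)) := by ring
    rw [e1]
    refine (norm_add_le _ _).trans ?_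
    have h7 := hrect.trans hside
    rw [hK, add_mul]
    linarith
  · intro hbτ
    apply hend
    have hrect := hR.1 c κ hc hcκ hκ le_rfl
    have hright := hline κ (abs_of_pos hκ) (by
      intro t ht
      rw [norm_Yg]
      have h1 := hq.m6 κ t (by rw [abs_of_pos hκ]; exact hκ1) ht
      refine (mul_le_mul_of_nonneg_right h1 (Real.exp_pos _).le).trans ?_
      rw [← Real.exp_add]
      apply Real.exp_le_exp.2
      have h5 := mul_le_mul_of_nonneg_left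
        (expoR (C := C) (t := t) hε hκ hκ2 (hq.m11 t τ ht hτmem) hbτ) (by linarith : (0 : ℝ) ≤ n)
      nlinarith)
    rw [hvM]
    have e1 : (∫ t in (-T)..T, Yg Q n ε η τ ((c : ℂ) + t * Complex.I) /
        ((c : ℂ) + (t - τ) * Complex.I)) =
        ((∫ t in (-T)..T, Yg Q n ε η τ ((c : ℂ) + t * Complex.I) /
          ((c : ℂ) + (t - τ) * Complex.I)) -
        (∫ t in (-T)..T, Yg Q n ε η τ ((κ : ℂ) + t * Complex.I) /
          ((κ : ℂ) + (t - τ) * Complex.I))) +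
        (∫ t in (-T)..T, Yg Q n ε η τ ((κ : ℂ) + t * Complex.I) /
          ((κ : ℂ) + (t - τ) * Complex.I)) := by ring
    rw [e1]
    refine (norm_add_le _ _).trans ?_
    have h7 := hrect.trans hside
    rw [hK, add_mul]
    linarith

end Pool.Agent.TH41.BL.LE4f
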