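import Mathlib
import Pool.Agent.TH41.BL.Stm4
import Pool.Agent.TH41.BL.SEG

set_option autoImplicit false

open MeasureTheory Filter Topology

namespace Pool.Agent.TH41.BL.LI4f

open Pool.Agent.TH41.BL

/-- the integrand -/
noncomputable def gL (m : ℝ) (n w : ℕ) (ε η τ : ℝ) (s : ℂ) : ℂ :=
  QJ m n w s * Kf n ε η (s - τ * Complex.I)

theorem gL_eq (m : ℝ) (n w : ℕ) (ε η τ x t : ℝ) :
    gL m n w ε η τ ((x : ℂ) + t * Complex.I) =
      QJ m n w (x + t * Complex.I) * Kf n ε η (x + (t - τ) * Complex.I) := by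
  unfold gL
  have h : (x : ℂ) + t * Complex.I - τ * Complex.I = x + (t - τ) * Complex.I := by ring
  rw [h]

theorem diff_gL (hq : S_qq) (hp : S4_ph) {m : ℝ} (hm : 0 < m) (n w : ℕ) (ε η τ : ℝ)
    (hw : w ≤ n) (s : ℂ) (h1 : 0 < s.re) (h2 : s.re ≤ Real.pi / 4) :
    DifferentiableAt ℂ (gL m n w ε η τ) s := by
  have hπ := Real.pi_pos
  have hP : DifferentiableAt ℂ (PJ m) s := by
    refine ((hp m hm).1 s ⟨?_, Or.inl h1.ne'⟩).differentiableAt
    rw [abs_of_pos h1]
    linarith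
  have hQ := (hq n w hw).1 s (by linarith) (by linarith)
  have hz : s - τ * Complex.I ≠ 0 := by
    intro h
    have h3 := congrArg Complex.re h
    rw [SEGf.re_sub_I] at h3
    simp at h3
    linarith
  have hK : DifferentiableAt ℂ (fun s : ℂ => Kf n ε η (s - τ * Complex.I)) s := by
    unfold Kf
    exact DifferentiableAt.div (by fun_prop) (by fun_prop) hz
  have hM : DifferentiableAt ℂ (QJ m n w) s := by
    have e : QJ m n w = fun s : ℂ => QQ n w s * Complex.exp (n * PJ m s) := rfl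
    rw [e]
    exact hQ.mul ((hP.const_mul _).cexp)
  have e : gL m n w ε η τ = fun s : ℂ => QJ m n w s * Kf n ε η (s - τ * Complex.I) := rfl
  rw [e]
  exact hM.mul hK

theorem norm_PJ (hp : S4_ph) {m : ℝ} (hm : 0 < m) (n : ℕ) (s : ℂ) (h1 : 0 < s.re)
    (h2 : s.re ≤ 1) :
    ‖Complex.exp (n * PJ m s)‖ ≤ Real.exp (4 * n * (1 + |s.im|)) := by
  rw [Complex.norm_exp]
  apply Real.exp_le_exp.mpr
  have e1 : ((n : ℂ) * PJ m s).re = n * (PJ m s).re := by
    have : (n : ℂ) = ((n : ℝ) : ℂ) := by push_cast; rfl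
    rw [this, Complex.re_ofReal_mul]
  rw [e1]
  have h3 : (PJ m s).re ≤ 4 * ‖s‖ := (Complex.re_le_norm _).trans ((hp m hm).2.2.2.1 s)
  have h4 : ‖s‖ ≤ 1 + |s.im| := by
    have h5 := Complex.norm_le_abs_re_add_abs_im s
    rw [abs_of_pos h1] at h5
    linarith
  have hn : (0 : ℝ) ≤ n := Nat.cast_nonneg n
  calc (n : ℝ) * (PJ m s).re ≤ n * (4 * (1 + |s.im|)) :=
        mul_le_mul_of_nonneg_left (by linarith) hn
    _ = 4 * n * (1 + |s.im|) := by ring

theorem line (hl : S_lam) (hqq : S_qq) (hj : S4_ja) (hp : S4_ph) : S4_line := by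
  intro m n w ε η τ hm hn hw hε
  have hπ := Real.pi_pos
  have hπ4 : Real.pi < 4 := Real.pi_lt_four
  obtain ⟨_, _, _, _, _, M, hM⟩ := hqq n w hw
  have hM0 : 0 ≤ M := by
    refine le_trans (norm_nonneg _) (hM 0 ?_ ?_)
    · simp only [Complex.zero_re]; linarith
    · simp only [Complex.zero_re]; linarith
  have hn0 : (0 : ℝ) < n := by exact_mod_cast hn
  have hnε : 0 < (n : ℝ) * ε / 4 := by positivity
  have hd : ∀ s : ℂ, 0 < s.re → s.re ≤ Real.pi / 4 → DifferentiableAt ℂ (gL m n w ε η τ) s :=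
    fun s k1 k2 => diff_gL hqq hp hm n w ε η τ hw s k1 k2
  have hb : ∀ c : ℝ, 0 < c → ∀ s : ℂ, c ≤ s.re → s.re ≤ Real.pi / 4 →
      ‖gL m n w ε η τ s‖ ≤ (M * Real.exp (4 * n + 16 * n / ε) *
        (Real.exp (n * ε + n * |η| + n * ε * τ ^ 2) / c)) *
        Real.exp (-(n * ε / 4) * s.im ^ 2) := by
    intro c hc s k1 k2
    have hs0 : 0 < s.re := hc.trans_le k1
    have e1 := hM s (by linarith) (by linarith)
    have e2 := norm_PJ hp hm n s hs0 (by linarith)
    have e3 := SEGf.norm_K (n := n) (ε := ε) (η := η) (τ := τ) hε hc s k1 (by linarith)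
    have e4 : 4 * n * (1 + |s.im|) ≤ (4 * n + 16 * n / ε) + n * ε / 4 * s.im ^ 2 := by
      have h5 : 4 * |s.im| ≤ 16 / ε + ε / 4 * s.im ^ 2 := by
        have h6 : 0 ≤ (ε * |s.im| - 8) ^ 2 / (4 * ε) := by positivity
        have h7 : (ε * |s.im| - 8) ^ 2 / (4 * ε) = 16 / ε + ε / 4 * s.im ^ 2 - 4 * |s.im| := by
          have h8 : |s.im| ^ 2 = s.im ^ 2 := sq_abs _
          rw [← h8]
          field_simp
          ring
        linarith
      have h9 := mul_le_mul_of_nonneg_left h5 hn0.le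
      have h10 : (n : ℝ) * (16 / ε + ε / 4 * s.im ^ 2) = 16 * n / ε + n * ε / 4 * s.im ^ 2 := by
        ring
      linarith
    have e5 : ‖Complex.exp (n * PJ m s)‖ ≤ Real.exp (4 * n + 16 * n / ε) *
        Real.exp (n * ε / 4 * s.im ^ 2) := by
      rw [← Real.exp_add]
      exact e2.trans (Real.exp_le_exp.mpr e4)
    unfold gL QJ
    rw [norm_mul, norm_mul]
    have e6 : ‖QQ n w s‖ * ‖Complex.exp (n * PJ m s)‖ ≤
        M * (Real.exp (4 * n + 16 * n / ε) * Real.exp (n * ε / 4 * s.im ^ 2)) :=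
      mul_le_mul e1 e5 (norm_nonneg _) hM0
    have e7 := mul_le_mul e6 e3 (norm_nonneg _) (by positivity)
    refine e7.trans (le_of_eq ?_)
    have e8 : Real.exp (n * ε / 4 * s.im ^ 2) * Real.exp (-(n * ε / 2) * s.im ^ 2) =
        Real.exp (-(n * ε / 4) * s.im ^ 2) := by
      rw [← Real.exp_add]
      congr 1
      ring
    rw [← e8]
    ring
  have hi : ∀ c : ℝ, 0 < c → c ≤ Real.pi / 4 →
      Integrable (fun t : ℝ => gL m n w ε η τ ((c : ℂ) + t * Complex.I)) := by
    intro c hc hc4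
    exact Pool.Agent.TH41.LP.SHIFTf.int_line (M := M * Real.exp (4 * n + 16 * n / ε) *
        (Real.exp (n * ε + n * |η| + n * ε * τ ^ 2) / c)) hnε
      (fun t => hd _ (by simpa using hc) (by simpa using hc4))
      (fun t => by simpa using hb c hc ((c : ℂ) + t * Complex.I) (by simp) (by simpa using hc4))
  refine ⟨fun c hc hc4 => ?_, fun c hc hc4 => ?_⟩
  · have := hi c hc hc4
    simp only [gL_eq] at this
    exact this
  · have hstrip := Pool.Agent.TH41.LP.SHIFTf.strip (g := gL m n w ε η τ) (a := c)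
      (b := Real.pi / 4) (M := M * Real.exp (4 * n + 16 * n / ε) *
        (Real.exp (n * ε + n * |η| + n * ε * τ ^ 2) / c)) (ε := n * ε / 4) hc4 hnε
      (fun s k1 k2 => hd s (by linarith) k2)
      (fun s k1 k2 => by simpa only [neg_mul] using hb c hc s k1 k2)
    simp only [gL_eq] at hstrip
    unfold vF
    rw [hstrip]

end Pool.Agent.TH41.BL.LI4f
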