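import Mathlib
import Pool.Agent.TH41.BL.Stm4

set_option autoImplicit false

open MeasureTheory Filter Topology

namespace Pool.Agent.TH41.BL.MU4f

open Pool.Agent.TH41.BL

theorem sq_real {r : ℝ} (hr : 0 < r) : sq (r : ℂ) = ((√r : ℝ) : ℂ) := by
  unfold sq
  rw [← Complex.ofReal_log hr.le]
  have h : Real.exp (Real.log r / 2) = √r := by
    rw [Real.sqrt_eq_rpow, Real.rpow_def_of_pos hr]
    congr 1
    ring
  rw [← h]
  push_cast
  rfl

/-- the integrand -/
noncomputable def hh (x y : ℝ) : ℝ := 2 * WN y / √(y + Real.sin (2 * x) ^ 2)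

theorem hh_cast {x y : ℝ} (hy : 0 < y) :
    (2 * WN y : ℂ) / sq (y + Complex.sin (2 * (x : ℂ)) ^ 2) = ((hh x y : ℝ) : ℂ) := by
  have e : ((y : ℂ) + Complex.sin (2 * (x : ℂ)) ^ 2) = ((y + Real.sin (2 * x) ^ 2 : ℝ) : ℂ) := by
    push_cast
    rfl
  rw [e, sq_real (by positivity)]
  unfold hh
  push_cast
  rfl

theorem hh_int (hi : S4_w) (x : ℝ) : IntegrableOn (hh x) (Set.Ioi 0) := by
  have h := (hi.2 (Complex.sin (2 * (x : ℂ)) ^ 2)).1
  have h2 := h.re
  refine h2.congr ?_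
  filter_upwards [ae_restrict_mem measurableSet_Ioi] with y hy
  rw [hh_cast hy]
  simp

theorem JJ_eq {m : ℝ} (hm : 0 < m) (x : ℝ) :
    (JJ m (x : ℂ)).re = ∫ y in Set.Ioi m, hh x y := by
  unfold JJ
  have h : ∫ y in Set.Ioi m, (2 * WN y : ℂ) / sq (y + Complex.sin (2 * (x : ℂ)) ^ 2) =
      ∫ y in Set.Ioi m, ((hh x y : ℝ) : ℂ) :=
    setIntegral_congr_fun measurableSet_Ioi fun y hy => hh_cast (hm.trans hy)
  rw [h, integral_complex_ofReal]
  simp

theorem hh_pos (hw : S3_w) {x y : ℝ} (hy : 0 < y) : 0 < hh x y := by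
  unfold hh
  have := (hw.2.1 y hy.le).1
  positivity

theorem hh_le (hw : S3_w) {x y a : ℝ} (ha : 0 < a) (hy : a ≤ y) : hh x y ≤ 1 / (4 * √a) := by
  unfold hh
  have h1 := (hw.2.1 y (ha.le.trans hy)).2
  have h2 : √a ≤ √(y + Real.sin (2 * x) ^ 2) :=
    Real.sqrt_le_sqrt (by nlinarith [sq_nonneg (Real.sin (2 * x))])
  have h3 : 0 < √a := Real.sqrt_pos.2 ha
  have h4 : (1 : ℝ) / (4 * √a) = (1 / 4) / √a := by field_simp
  rw [h4]
  exact div_le_div₀ (by norm_num) (by linarith) h3 h2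

theorem JJ_cont (hj : S4_ja) {m : ℝ} (hm : 0 < m) :
    ContinuousOn (fun x : ℝ => (JJ m (x : ℂ)).re) (Set.Icc 0 (Real.pi / 4)) := by
  intro x hx
  have hs : ((x : ℝ) : ℂ) ∈ DJ m := by
    refine ⟨?_, Or.inr ?_⟩
    · rw [Complex.ofReal_re, abs_of_nonneg hx.1]
      have := Real.pi_pos
      have := hx.2
      linarith
    · simp [hm]
  have h1 : ContinuousAt (JJ m) (x : ℂ) := ((hj m hm).1 _ hs).continuousAt
  have h2 : ContinuousAt (fun x : ℝ => JJ m (x : ℂ)) x :=
    ContinuousAt.comp (f := fun x : ℝ => (x : ℂ)) h1 Complex.continuous_ofReal.continuousAt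
  exact (Complex.continuous_re.continuousAt.comp h2).continuousWithinAt

theorem JJ_intv (hj : S4_ja) {m : ℝ} (hm : 0 < m) :
    IntervalIntegrable (fun x : ℝ => (JJ m (x : ℂ)).re) volume 0 (Real.pi / 4) := by
  apply ContinuousOn.intervalIntegrable
  rw [Set.uIcc_of_le (by positivity)]
  exact JJ_cont hj hm

theorem JJ_anti (hw : S3_w) (hi : S4_w) {m m' : ℝ} (hm : 0 < m) (hmm : m ≤ m') (x : ℝ) :
    (JJ m' (x : ℂ)).re ≤ (JJ m (x : ℂ)).re := by
  rw [JJ_eq hm, JJ_eq (hm.trans_le hmm)]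
  apply setIntegral_mono_set ((hh_int hi x).mono_set (Set.Ioi_subset_Ioi hm.le))
  · filter_upwards [ae_restrict_mem measurableSet_Ioi] with y hy
    exact (hh_pos hw (hm.trans hy)).le
  · exact (Set.Ioi_subset_Ioi hmm).eventuallyLE

theorem JJ_diff (hw : S3_w) (hi : S4_w) {m m' : ℝ} (hm : 0 < m) (hmm : m ≤ m') (x : ℝ) :
    (JJ m (x : ℂ)).re - (JJ m' (x : ℂ)).re ≤ 1 / (4 * √m) * (m' - m) := by
  have hm' := hm.trans_le hmm
  rw [JJ_eq hm, JJ_eq hm']
  have hI : IntegrableOn (hh x) (Set.Ioi m) := (hh_int hi x).mono_set (Set.Ioi_subset_Ioi hm.le)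
  have e : Set.Ioi m = Set.Ioc m m' ∪ Set.Ioi m' := (Set.Ioc_union_Ioi_eq_Ioi hmm).symm
  have h1 : ∫ y in Set.Ioi m, hh x y = (∫ y in Set.Ioc m m', hh x y) + ∫ y in Set.Ioi m', hh x y := by
    rw [e]
    exact setIntegral_union Set.Ioc_disjoint_Ioi_same measurableSet_Ioi
      (hI.mono_set Set.Ioc_subset_Ioi_self) (hI.mono_set (Set.Ioi_subset_Ioi hmm))
  rw [h1, add_sub_cancel_right]
  have h2 : ∫ y in Set.Ioc m m', hh x y ≤ ∫ _ in Set.Ioc m m', 1 / (4 * √m) := by
    apply setIntegral_mono_on (hI.mono_set Set.Ioc_subset_Ioi_self)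
    · exact continuous_const.integrableOn_Ioc
    · exact measurableSet_Ioc
    · intro y hy
      exact hh_le hw hm hy.1.le
  refine h2.trans (le_of_eq ?_)
  rw [setIntegral_const, smul_eq_mul, Real.volume_real_Ioc_of_le hmm]
  ring

theorem JJ_pos (hw : S3_w) (hi : S4_w) {m : ℝ} (hm : 0 < m) (x : ℝ) : 0 < (JJ m (x : ℂ)).re := by
  rw [JJ_eq hm]
  have hI : IntegrableOn (hh x) (Set.Ioi m) := (hh_int hi x).mono_set (Set.Ioi_subset_Ioi hm.le)
  have h0 : 0 ≤ᵐ[volume.restrict (Set.Ioi m)] hh x := by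
    filter_upwards [ae_restrict_mem measurableSet_Ioi] with y hy
    exact (hh_pos hw (hm.trans hy)).le
  rw [setIntegral_pos_iff_support_of_nonneg_ae h0 hI]
  have : Function.support (hh x) ∩ Set.Ioi m = Set.Ioi m := by
    apply Set.inter_eq_right.2
    intro y hy
    exact (hh_pos hw (hm.trans hy)).ne'
  rw [this, Real.volume_Ioi]
  exact ENNReal.zero_lt_top

theorem mu (hw : S3_w) (hi : S4_w) (hj : S4_ja) : S4_mu := by
  have hpi : (0 : ℝ) < Real.pi / 4 := by positivity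
  have hanti : AntitoneOn mu4 (Set.Ioi 0) := by
    intro m hm m' hm' hmm
    unfold mu4
    exact intervalIntegral.integral_mono_on hpi.le (JJ_intv hj hm') (JJ_intv hj hm)
      fun x _ => JJ_anti hw hi hm hmm x
  have hdiff : ∀ m m' : ℝ, 0 < m → m ≤ m' → mu4 m - mu4 m' ≤
      Real.pi / 4 * (1 / (4 * √m) * (m' - m)) := by
    intro m m' hm hmm
    have hm' := hm.trans_le hmm
    unfold mu4
    rw [← intervalIntegral.integral_sub (JJ_intv hj hm) (JJ_intv hj hm')]
    have h := intervalIntegral.integral_mono_on hpi.le ((JJ_intv hj hm).sub (JJ_intv hj hm'))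
      (g := fun _ => 1 / (4 * √m) * (m' - m)) (by simp)
      fun x _ => JJ_diff hw hi hm hmm x
    refine h.trans (le_of_eq ?_)
    rw [intervalIntegral.integral_const, smul_eq_mul, sub_zero]
  refine ⟨hanti, ?_, ?_⟩
  · intro m hm
    unfold mu4
    exact intervalIntegral.intervalIntegral_pos_of_pos_on (JJ_intv hj hm)
      (fun x _ => JJ_pos hw hi hm x) hpi
  · intro m0 hm0
    have ha : 0 < m0 / 2 := half_pos hm0
    set K : ℝ := Real.pi / 4 * (1 / (4 * √(m0 / 2))) with hK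
    have hK0 : 0 ≤ K := by positivity
    have key : ∀ m m' : ℝ, m0 / 2 ≤ m → m ≤ m' → |mu4 m - mu4 m'| ≤ K * |m - m'| := by
      intro m m' hm hmm
      have hm1 : 0 < m := ha.trans_le hm
      have h1 := hanti (Set.mem_Ioi.2 hm1) (Set.mem_Ioi.2 (hm1.trans_le hmm)) hmm
      rw [abs_of_nonneg (by linarith), abs_of_nonpos (by linarith)]
      refine (hdiff m m' hm1 hmm).trans ?_
      have h2 : 1 / (4 * √m) ≤ 1 / (4 * √(m0 / 2)) := by
        have h3 : √(m0 / 2) ≤ √m := Real.sqrt_le_sqrt hm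
        have h4 : 0 < √(m0 / 2) := Real.sqrt_pos.2 ha
        exact div_le_div_of_nonneg_left (by norm_num) (by positivity) (by linarith)
      have h5 : 1 / (4 * √m) * (m' - m) ≤ 1 / (4 * √(m0 / 2)) * (m' - m) :=
        mul_le_mul_of_nonneg_right h2 (by linarith)
      calc Real.pi / 4 * (1 / (4 * √m) * (m' - m))
          ≤ Real.pi / 4 * (1 / (4 * √(m0 / 2)) * (m' - m)) :=
            mul_le_mul_of_nonneg_left h5 hpi.le
        _ = K * -(m - m') := by rw [hK]; ring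
    have hL : LipschitzOnWith ⟨K, hK0⟩ mu4 (Set.Ici (m0 / 2)) := by
      apply LipschitzOnWith.of_dist_le_mul
      intro m hm m' hm'
      rw [Real.dist_eq, Real.dist_eq]
      rcases le_total m m' with h | h
      · exact key m m' hm h
      · rw [abs_sub_comm, abs_sub_comm m m']
        exact key m' m hm' h
    have hc := hL.continuousOn.continuousAt (Ici_mem_nhds (by
      have : 0 < m0 := hm0
      linarith : m0 / 2 < m0))
    exact hc.continuousWithinAt

end Pool.Agent.TH41.BL.MU4f
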