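import Mathlib
import Pool.Agent.TH41.BL.Stm4
import Pool.Agent.TH41.BL.QBM

/-!
Project BL4 (helper41), NB4: the size of the kernel near the imaginary axis
(job 3974, written by helper293).
-/

set_option autoImplicit false
set_option linter.unusedVariables false

open MeasureTheory Filter Topology

namespace Pool.Agent.TH41.BL.NB4f

open Pool.Agent.TH41.BL

lemma sinh_lt {t T : ℝ} (h : |t| < T) : Real.sinh (2 * t) ^ 2 < Real.sinh (2 * T) ^ 2 := by
  have hT : 0 < T := (abs_nonneg t).trans_lt h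
  have h1 : |Real.sinh (2 * t)| < |Real.sinh (2 * T)| := by
    rw [Real.abs_sinh, Real.abs_sinh, Real.sinh_lt_sinh, abs_mul, abs_mul, abs_of_pos hT]
    exact mul_lt_mul_of_pos_left h (by norm_num)
  exact sq_lt_sq.2 h1

/-- horizontal estimate -/
lemma pj_hor (hj : S4_ja) (hp : S4_ph) {m T : ℝ} (hm : 0 < m)
    (hmT : Real.sinh (2 * T) ^ 2 = m) {σ t : ℝ} (hσ : 0 < σ) (hσ' : σ < Real.pi / 2)
    (ht : |t| < T) : (PJ m (σ + t * Complex.I)).re ≤ 4 * σ := by
  obtain ⟨-, j2, -⟩ := hj m hm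
  obtain ⟨p1, -, -, -, p5, -⟩ := hp m hm
  have hlt : Real.sinh (2 * t) ^ 2 < m := hmT ▸ sinh_lt ht
  have h1 := Convex.norm_image_sub_le_of_norm_hasDerivWithin_le
    (f := fun x : ℝ => PJ m (x + t * Complex.I)) (f' := fun x : ℝ => JJ m (x + t * Complex.I))
    (s := Set.Icc 0 σ) (x := 0) (y := σ) (C := 4)
    (fun x hx => by
      have hmem : (x : ℂ) + t * Complex.I ∈ DJ m := by
        refine ⟨?_, Or.inr ?_⟩
        · have : ((x : ℂ) + t * Complex.I).re = x := by simp
          rw [this, abs_of_nonneg hx.1]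
          exact hx.2.trans_lt hσ'
        · have : ((x : ℂ) + t * Complex.I).im = t := by simp
          rw [this]
          exact hlt
      have h2 : HasDerivAt (fun x : ℝ => ((x : ℂ) + t * Complex.I)) 1 x := by
        simpa using (Complex.ofRealCLM.hasDerivAt (x := x)).add_const ((t : ℂ) * Complex.I)
      have h3 := HasDerivAt.comp x (p1 _ hmem) h2
      rw [mul_one] at h3
      exact h3.hasDerivWithinAt)
    (fun x _ => j2 _)
    (convex_Icc _ _) ⟨le_rfl, hσ.le⟩ ⟨hσ.le, le_rfl⟩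
  rw [sub_zero, Real.norm_eq_abs, abs_of_pos hσ] at h1
  have h2 := (Complex.re_le_norm _).trans h1
  rw [Complex.sub_re, Complex.ofReal_zero, zero_add, p5 t hlt, sub_zero] at h2
  exact h2

/-- vertical estimate -/
lemma pj_ver (hj : S4_ja) (hp : S4_ph) {m : ℝ} (hm : 0 < m) {σ : ℝ} (hσ : 0 < σ)
    (hσ' : σ < Real.pi / 2) (t t' : ℝ) :
    (PJ m (σ + t * Complex.I)).re ≤ (PJ m (σ + t' * Complex.I)).re + 4 * |t - t'| := by
  obtain ⟨-, j2, -⟩ := hj m hm
  obtain ⟨p1, -⟩ := hp m hm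
  have h1 := Convex.norm_image_sub_le_of_norm_hasDerivWithin_le
    (f := fun x : ℝ => PJ m (σ + x * Complex.I))
    (f' := fun x : ℝ => JJ m (σ + x * Complex.I) * Complex.I)
    (s := Set.univ) (x := t') (y := t) (C := 4)
    (fun x _ => by
      have hmem : (σ : ℂ) + x * Complex.I ∈ DJ m := by
        have : ((σ : ℂ) + x * Complex.I).re = σ := by simp
        refine ⟨?_, Or.inl ?_⟩
        · rw [this, abs_of_pos hσ]
          exact hσ'
        · rw [this]
          exact hσ.ne'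
      exact (HasDerivAt.comp x (p1 _ hmem) (QBBf.hasDerivAt_line σ x)).hasDerivWithinAt)
    (fun x _ => by
      rw [norm_mul, Complex.norm_I, mul_one]
      exact j2 _)
    convex_univ (Set.mem_univ _) (Set.mem_univ _)
  rw [Real.norm_eq_abs] at h1
  have h2 := (Complex.re_le_norm _).trans h1
  rw [Complex.sub_re] at h2
  linarith

lemma pj_bound (hj : S4_ja) (hp : S4_ph) {m T : ℝ} (hm : 0 < m) (hT : 0 < T)
    (hmT : Real.sinh (2 * T) ^ 2 = m) {σ t : ℝ} (hσ : 0 < σ) (hσ' : σ < Real.pi / 2) :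
    (PJ m (σ + t * Complex.I)).re ≤ 4 * (σ + max 0 (|t| - T)) := by
  by_cases ht : |t| < T
  · have h1 := pj_hor hj hp hm hmT hσ hσ' ht
    have h2 : 0 ≤ max 0 (|t| - T) := le_max_left _ _
    linarith
  · have ht' := not_lt.1 ht
    apply le_of_forall_pos_le_add
    intro ε hε
    have h0 : |t| - T ≤ max 0 (|t| - T) := le_max_right _ _
    set u : ℝ := max 0 (T - ε / 4) with hu
    have hu0 : 0 ≤ u := le_max_left _ _
    have hu1 : T - ε / 4 ≤ u := le_max_right _ _
    have hu2 : u < T := max_lt hT (by linarith)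
    rcases le_abs.1 ht' with h | h
    · have h1 := pj_hor (t := u) hj hp hm hmT hσ hσ' (by rw [abs_of_nonneg hu0]; exact hu2)
      have h2 := pj_ver hj hp hm hσ hσ' t u
      have h3 : |t - u| = t - u := abs_of_nonneg (by linarith)
      have h4 : |t| = t := abs_of_nonneg (by linarith)
      rw [h3] at h2
      rw [h4] at h0 ⊢
      linarith
    · have h1 := pj_hor (t := -u) hj hp hm hmT hσ hσ' (by rw [abs_neg, abs_of_nonneg hu0]; exact hu2)
      have h2 := pj_ver hj hp hm hσ hσ' t (-u)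
      have h3 : |t - -u| = -t - u := by
        rw [abs_of_nonpos (by linarith)]
        ring
      have h4 : |t| = -t := abs_of_nonpos (by linarith)
      rw [h3] at h2
      rw [h4] at h0 ⊢
      linarith

lemma qq_bound {C κ : ℝ} (hC : 0 < C) (hκ : 0 < κ) (hκ' : κ ≤ Real.pi / 16) (hg : GDp C κ)
    (hq : S_qq) {n w : ℕ} (hn : 0 < n) (hw : w ≤ n) {σ t : ℝ} (hσ : |σ| ≤ κ) :
    ‖QQ n w (σ + t * Complex.I)‖ ≤ Real.exp (C * n * |σ|) := by
  have hn' : (0 : ℝ) < n := by exact_mod_cast hn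
  have hω0 : (0 : ℝ) ≤ (w : ℝ) / n := by positivity
  have hω1 : (w : ℝ) / n ≤ 1 := by
    rw [div_le_one hn']; exact_mod_cast hw
  obtain ⟨g, hgc, hgx, hgi⟩ := QBAf.modulus C κ hκ hκ' hg hq n w hn hw t
  rw [hgi σ hσ]
  apply Real.exp_le_exp.2
  have h1 : ‖∫ x in (0 : ℝ)..σ, g x‖ ≤ C * |σ - 0| := by
    apply intervalIntegral.norm_integral_le_of_norm_le_const
    intro x hx
    have hx' := (QBAf.mem_abs hσ hx).2
    rw [hgx x hx', Real.norm_eq_abs]
    have hre : |((x : ℂ) + t * Complex.I).re| ≤ κ := by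
      simpa using hx'
    exact (Complex.abs_re_le_norm _).trans (hg.d1 _ hω0 hω1 _ hre).2
  rw [sub_zero, Real.norm_eq_abs] at h1
  have h2 := (le_abs_self _).trans h1
  calc (n : ℝ) * ∫ x in (0 : ℝ)..σ, g x ≤ n * (C * |σ|) := mul_le_mul_of_nonneg_left h2 hn'.le
    _ = _ := by ring

theorem nb4 (hgd : S_gd) (hl : S_lam) (hqq : S_qq) (hj : S4_ja) (hp : S4_ph) : S4_nb := by
  intro m T hm hT hmT
  obtain ⟨C, κ, hC, hκ, hκ', hg⟩ := hgd
  refine ⟨C + 4, κ, by linarith, hκ, hκ', ?_⟩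
  intro n w hw σ t hσ hσκ
  have hπ := Real.pi_pos
  have hmax : 0 ≤ max 0 (|t| - T) := le_max_left _ _
  have hnorm : ‖QJ m n w (σ + t * Complex.I)‖ =
      ‖QQ n w (σ + t * Complex.I)‖ * Real.exp (n * (PJ m (σ + t * Complex.I)).re) := by
    unfold QJ
    rw [norm_mul, Complex.norm_exp]
    congr 2
    simp
  rw [hnorm]
  have hP := pj_bound (t := t) hj hp hm hT hmT hσ (by linarith)
  rcases Nat.eq_zero_or_pos n with rfl | hn
  · have hw0 : w = 0 := by omega
    subst hw0
    simp [QQ]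
  · have hn' : (0 : ℝ) < n := by exact_mod_cast hn
    have h1 := qq_bound (t := t) hC hκ hκ' hg hqq hn hw (σ := σ) (by rw [abs_of_pos hσ]; exact hσκ)
    rw [abs_of_pos hσ] at h1
    have h2 : Real.exp (n * (PJ m (σ + t * Complex.I)).re) ≤
        Real.exp (n * (4 * (σ + max 0 (|t| - T)))) :=
      Real.exp_le_exp.2 (mul_le_mul_of_nonneg_left hP hn'.le)
    calc _ ≤ Real.exp (C * n * σ) * Real.exp (n * (4 * (σ + max 0 (|t| - T)))) :=
          mul_le_mul h1 h2 (Real.exp_pos _).le (Real.exp_pos _).le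
      _ = Real.exp (C * n * σ + n * (4 * (σ + max 0 (|t| - T)))) := by rw [← Real.exp_add]
      _ ≤ _ := by
        apply Real.exp_le_exp.2
        have h3 : 0 ≤ C * n * max 0 (|t| - T) := by positivity
        nlinarith

end Pool.Agent.TH41.BL.NB4f
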