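import Mathlib
import Pool.Agent.TH41.BL.Stm4
import Pool.Agent.TH41.BL.NEM

set_option autoImplicit false

open MeasureTheory Filter Topology

namespace Pool.Agent.TH41.BL.NE4f

open Pool.Agent.TH41.BL

open Pool.Agent.TH41.BL.NEAf (zt th exp_th co norm_co sum_co large)

theorem near4 (h : S4_fam) : S4_near := by
  intro m q hm hq hp Δ ε₂ ε₃ hΔ hε hε'
  obtain ⟨r, hr, n₁, h1⟩ := h m q hm hq hp Δ (ε₂ / 2) (ε₃ / 2) hΔ (by linarith) (by linarith)
  obtain ⟨n₂, h2⟩ := large (ε₂ / 2) (by linarith)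
  obtain ⟨n₃, h3'⟩ := large (ε₃ / 2) (by linarith)
  refine ⟨r, hr, max n₁ (max n₂ n₃), fun n hn hdvd f => ?_⟩
  have hn1 : n₁ ≤ n := (le_max_left _ _).trans hn
  have hn2 := h2 n (((le_max_left _ _).trans (le_max_right _ _)).trans hn)
  have hn3 := h3' n (((le_max_right _ _).trans (le_max_right _ _)).trans hn)
  choose u hu1 hu2 hu3 using h1 n hn1 hdvd
  classical
  set N : ℕ := n + 1 with hNdef
  have hN : N ≠ 0 := Nat.succ_ne_zero n
  have hNr : (N : ℝ) = (n : ℝ) + 1 := by rw [hNdef]; push_cast; ring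
  have hN0 : (0 : ℝ) < N := by rw [hNr]; positivity
  let s : ℕ → ℝ := fun w => if Δ ≤ 1 - 2 * (w : ℝ) / n - THR 0 m then Real.sign (f w) else 0
  have hs : ∀ w, |s w| ≤ 1 := by
    intro w
    simp only [s]
    split_ifs
    · rcases Real.sign_apply_eq (f w) with h | h | h <;> rw [h] <;> norm_num
    · simp
  let a : ℕ → ℂ := co N s
  have ha : ∀ k, ‖a k‖ ≤ 1 := fun k => norm_co hN s hs k
  let x : ℕ → ℂ := fun w => ∑ k ∈ Finset.range N, a k * u (th N k) w
  set E : ℝ := Real.exp (ε₂ / 2 * n) with hE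
  have hE0 : 0 < E := Real.exp_pos _
  have hNN : 0 ≤ NN n f := Finset.sum_nonneg (fun j _ => by positivity)
  set R : ℝ := Real.exp (n * (mu4 m + ε₃ / 2)) * NN n f with hR
  have hR0 : 0 ≤ R := by positivity
  -- the three properties of `x`
  have hx1 : ∀ w, w ≤ n → Δ ≤ 1 - 2 * (w : ℝ) / n - THR 0 m → ‖x w - s w‖ ≤ 1 / 4 := by
    intro w hw hnear
    have hw' : w < N := Nat.lt_succ_of_le hw
    rw [← sum_co hN s hw']
    simp only [x, a]
    rw [← Finset.sum_sub_distrib]
    calc _ ≤ ∑ k ∈ Finset.range N,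
          ‖co N s k * u (th N k) w - co N s k * (zt N ^ w) ^ k‖ := norm_sum_le _ _
      _ ≤ ∑ k ∈ Finset.range N, 1 / (4 * ((n : ℝ) + 1)) := by
          refine Finset.sum_le_sum (fun k _ => ?_)
          rw [← mul_sub, norm_mul, ← exp_th]
          have h3 := hu1 (th N k) w hw hnear
          calc _ ≤ 1 * (1 / (4 * ((n : ℝ) + 1))) :=
                mul_le_mul (ha k) h3 (norm_nonneg _) zero_le_one
            _ = _ := one_mul _
      _ = 1 / 4 := by
          rw [Finset.sum_const, Finset.card_range, nsmul_eq_mul, hNr]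
          field_simp
  have hx2 : ∀ w, w ≤ n → ‖x w‖ ≤ N * E := by
    intro w hw
    calc _ ≤ ∑ k ∈ Finset.range N, ‖a k * u (th N k) w‖ := norm_sum_le _ _
      _ ≤ ∑ k ∈ Finset.range N, E := by
          refine Finset.sum_le_sum (fun k _ => ?_)
          rw [norm_mul]
          calc _ ≤ 1 * E := mul_le_mul (ha k) (hu2 (th N k) w hw) (norm_nonneg _) zero_le_one
            _ = E := one_mul _
      _ = N * E := by rw [Finset.sum_const, Finset.card_range, nsmul_eq_mul]
  have hx3 : ‖∑ w ∈ Finset.range (n + 1), (n.choose w : ℂ) * x w * (f w : ℂ)‖ ≤ N * R := by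
    have h3 : ∑ w ∈ Finset.range (n + 1), (n.choose w : ℂ) * x w * (f w : ℂ) =
        ∑ k ∈ Finset.range N, a k *
          ∑ w ∈ Finset.range (n + 1), (n.choose w : ℂ) * u (th N k) w * (f w : ℂ) := by
      simp only [x, Finset.mul_sum, Finset.sum_mul]
      rw [Finset.sum_comm]
      refine Finset.sum_congr rfl (fun k _ => Finset.sum_congr rfl (fun w _ => ?_))
      ring
    rw [h3]
    calc _ ≤ ∑ k ∈ Finset.range N, ‖a k *
          ∑ w ∈ Finset.range (n + 1), (n.choose w : ℂ) * u (th N k) w * (f w : ℂ)‖ :=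
          norm_sum_le _ _
      _ ≤ ∑ k ∈ Finset.range N, R := by
          refine Finset.sum_le_sum (fun k _ => ?_)
          rw [norm_mul]
          calc _ ≤ 1 * R := mul_le_mul (ha k) (hu3 (th N k) f) (norm_nonneg _) zero_le_one
            _ = R := one_mul _
      _ = N * R := by rw [Finset.sum_const, Finset.card_range, nsmul_eq_mul]
  -- splitting
  set near := (Finset.range (n + 1)).filter (fun w : ℕ => Δ ≤ 1 - 2 * (w : ℝ) / n - THR 0 m) with hnear
  set far := (Finset.range (n + 1)).filter (fun w : ℕ => 1 - 2 * (w : ℝ) / n - THR 0 m < Δ) with hfar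
  have hfar' : far = (Finset.range (n + 1)).filter (fun w : ℕ => ¬ Δ ≤ 1 - 2 * (w : ℝ) / n - THR 0 m) := by
    rw [hfar]
    refine Finset.filter_congr (fun w _ => ?_)
    exact not_le.symm
  have hsplit : ∑ w ∈ Finset.range (n + 1), (n.choose w : ℂ) * x w * (f w : ℂ) =
      ∑ w ∈ near, (n.choose w : ℂ) * x w * (f w : ℂ) +
        ∑ w ∈ far, (n.choose w : ℂ) * x w * (f w : ℂ) := by
    rw [hfar', hnear, Finset.sum_filter_add_sum_filter_not]
  have hA : (1 / 2) * ∑ w ∈ near, (n.choose w : ℝ) * |f w| ≤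
      (∑ w ∈ near, (n.choose w : ℂ) * x w * (f w : ℂ)).re := by
    rw [Complex.re_sum, Finset.mul_sum]
    refine Finset.sum_le_sum (fun w hw => ?_)
    obtain ⟨hw1, hw2⟩ := Finset.mem_filter.1 hw
    have hwn : w ≤ n := Nat.lt_succ_iff.1 (Finset.mem_range.1 hw1)
    have h3 := hx1 w hwn hw2
    have h4 : |(x w).re - s w| ≤ 1 / 4 := by
      have := (Complex.abs_re_le_norm (x w - s w)).trans h3
      simpa using this
    have h5 : ((n.choose w : ℂ) * x w * (f w : ℂ)).re = (n.choose w : ℝ) * ((x w).re * f w) := by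
      have : (n.choose w : ℂ) * x w * (f w : ℂ) = (((n.choose w : ℝ) * f w : ℝ) : ℂ) * x w := by
        push_cast; ring
      rw [this, Complex.re_ofReal_mul]
      ring
    rw [h5, ← mul_assoc, mul_comm (1 / 2 : ℝ), mul_assoc]
    refine mul_le_mul_of_nonneg_left ?_ (Nat.cast_nonneg _)
    have h6 : s w = Real.sign (f w) := if_pos hw2
    rw [h6] at h4
    obtain ⟨h7, h8⟩ := abs_le.1 h4
    rcases lt_trichotomy (f w) 0 with hf | hf | hf
    · rw [Real.sign_of_neg hf] at h7 h8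
      rw [abs_of_neg hf]
      nlinarith
    · rw [hf]; simp
    · rw [Real.sign_of_pos hf] at h7 h8
      rw [abs_of_pos hf]
      nlinarith
  have hB : ‖∑ w ∈ far, (n.choose w : ℂ) * x w * (f w : ℂ)‖ ≤
      N * (E * ∑ w ∈ far, (n.choose w : ℝ) * |f w|) := by
    calc _ ≤ ∑ w ∈ far, ‖(n.choose w : ℂ) * x w * (f w : ℂ)‖ := norm_sum_le _ _
      _ ≤ ∑ w ∈ far, (N * E) * ((n.choose w : ℝ) * |f w|) := by
          refine Finset.sum_le_sum (fun w hw => ?_)
          obtain ⟨hw1, -⟩ := Finset.mem_filter.1 hw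
          have hwn : w ≤ n := Nat.lt_succ_iff.1 (Finset.mem_range.1 hw1)
          rw [norm_mul, norm_mul, Complex.norm_real, Complex.norm_natCast, Real.norm_eq_abs]
          calc (n.choose w : ℝ) * ‖x w‖ * |f w| = ‖x w‖ * ((n.choose w : ℝ) * |f w|) := by ring
            _ ≤ (N * E) * ((n.choose w : ℝ) * |f w|) :=
                mul_le_mul_of_nonneg_right (hx2 w hwn) (by positivity)
      _ = _ := by rw [← Finset.mul_sum]; ring
  have hC : (∑ w ∈ near, (n.choose w : ℂ) * x w * (f w : ℂ)).re ≤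
      N * R + N * (E * ∑ w ∈ far, (n.choose w : ℝ) * |f w|) := by
    have h3 : ∑ w ∈ near, (n.choose w : ℂ) * x w * (f w : ℂ) =
        ∑ w ∈ Finset.range (n + 1), (n.choose w : ℂ) * x w * (f w : ℂ) -
          ∑ w ∈ far, (n.choose w : ℂ) * x w * (f w : ℂ) := by
      rw [hsplit]; ring
    calc _ ≤ ‖∑ w ∈ near, (n.choose w : ℂ) * x w * (f w : ℂ)‖ :=
          (le_abs_self _).trans (Complex.abs_re_le_norm _)
      _ ≤ _ := by
          rw [h3]
          exact (norm_sub_le _ _).trans (add_le_add hx3 hB)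
  have hfar0 : 0 ≤ ∑ w ∈ far, (n.choose w : ℝ) * |f w| :=
    Finset.sum_nonneg (fun w _ => by positivity)
  have hE2 : Real.exp (ε₂ * n) = E * E := by
    rw [hE, ← Real.exp_add]; congr 1; ring
  have hE3 : Real.exp (n * (mu4 m + ε₃)) * NN n f = Real.exp (ε₃ / 2 * n) * R := by
    rw [hR, ← mul_assoc, ← Real.exp_add]
    congr 2
    ring
  rw [hE2, hE3]
  set S := ∑ w ∈ far, (n.choose w : ℝ) * |f w| with hS
  set T' := ∑ w ∈ near, (n.choose w : ℝ) * |f w| with hT'
  have hfin : T' ≤ (2 * N) * (E * S) + (2 * N) * R := by nlinarith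
  have h9 : 2 * (N : ℝ) ≤ E := by rw [hNr]; exact hn2
  have h10 : 2 * (N : ℝ) ≤ Real.exp (ε₃ / 2 * n) := by rw [hNr]; exact hn3
  calc T' ≤ (2 * N) * (E * S) + (2 * N) * R := hfin
    _ ≤ E * (E * S) + Real.exp (ε₃ / 2 * n) * R := by
        exact add_le_add (mul_le_mul_of_nonneg_right h9 (by positivity))
          (mul_le_mul_of_nonneg_right h10 hR0)
    _ = E * E * S + Real.exp (ε₃ / 2 * n) * R := by ring

end Pool.Agent.TH41.BL.NE4f
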