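import Mathlib
import Pool.Agent.TH41.BL.Stm4

set_option autoImplicit false

open MeasureTheory Filter Topology

namespace Pool.Agent.TH41.BL.OU4f

open Pool.Agent.TH41.BL

lemma sinh_lt {T t : ℝ} (hT : 0 < T) (ht : T < |t|) :
    Real.sinh (2 * T) ^ 2 < Real.sinh (2 * t) ^ 2 := by
  have h1 : Real.sinh (2 * T) < Real.sinh (2 * |t|) := Real.sinh_strictMono (by linarith)
  have h0 : 0 < Real.sinh (2 * T) := Real.sinh_pos_iff.2 (by linarith)
  have h2 : Real.sinh (2 * t) ^ 2 = Real.sinh (2 * |t|) ^ 2 := by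
    rcases abs_choice t with h | h
    · rw [h]
    · rw [h, mul_neg, Real.sinh_neg, neg_sq]
  rw [h2]
  exact pow_lt_pow_left₀ h1 h0.le two_ne_zero

lemma Kf_neg (n : ℕ) (ε η : ℝ) (z : ℂ) : Kf n ε (-η) (-z) = -Kf n ε η z := by
  unfold Kf
  have h : (n : ℂ) * ε * (-z) ^ 2 - n * ((-η : ℝ) : ℂ) * (-z) = n * ε * z ^ 2 - n * η * z := by
    push_cast
    ring
  rw [h, div_neg]

lemma Kf_diff {n : ℕ} {ε η : ℝ} {s : ℂ} (hs : s ≠ 0) : DifferentiableAt ℂ (Kf n ε η) s := by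
  have h : Kf n ε η = fun s : ℂ => Complex.exp (n * ε * s ^ 2 - n * η * s) / s := rfl
  rw [h]
  exact DifferentiableAt.div (by fun_prop) differentiableAt_id hs

lemma Kf_norm {n : ℕ} {ε η c u v : ℝ} {s : ℂ} (hε : 0 < ε) (hη : |η| ≤ 1) (hs : |s.re| ≤ c)
    (hu0 : 0 ≤ u) (hu : u ≤ |s.im|) (hv0 : 0 < v) (hv : v ≤ |s.im|) :
    ‖Kf n ε η s‖ ≤ Real.exp (n * (ε * (c ^ 2 - u ^ 2) + c)) / v := by
  unfold Kf
  rw [norm_div, Complex.norm_exp]
  have h1 : ((n : ℂ) * ε * s ^ 2 - n * η * s).re =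
      n * (ε * (s.re ^ 2 - s.im ^ 2) - η * s.re) := by
    simp [pow_two, Complex.mul_re, Complex.mul_im]
    ring
  rw [h1]
  refine div_le_div₀ (Real.exp_pos _).le (Real.exp_le_exp.2 ?_) hv0
    (hv.trans (Complex.abs_im_le_norm s))
  refine mul_le_mul_of_nonneg_left ?_ (Nat.cast_nonneg n)
  have h2 : s.re ^ 2 ≤ c ^ 2 := by
    rw [← sq_abs s.re]
    exact pow_le_pow_left₀ (abs_nonneg _) hs 2
  have h3 : u ^ 2 ≤ s.im ^ 2 := by
    rw [← sq_abs s.im]
    exact pow_le_pow_left₀ hu0 hu 2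
  have h4 : -(η * s.re) ≤ c := by
    have h5 : |η * s.re| ≤ 1 * c := by
      rw [abs_mul]
      exact mul_le_mul hη hs (abs_nonneg _) zero_le_one
    have h6 := neg_abs_le (η * s.re)
    linarith
  have h5 : ε * (s.re ^ 2 - s.im ^ 2) ≤ ε * (c ^ 2 - u ^ 2) :=
    mul_le_mul_of_nonneg_left (by linarith) hε.le
  linarith

/-- Cauchy's theorem in a thin rectangle -/
lemma strip (H : ℂ → ℂ) {c y1 y2 B1 B2 : ℝ} (hc : 0 < c) (hy : y1 ≤ y2)
    (hd : ∀ s : ℂ, |s.re| ≤ c → y1 ≤ s.im → s.im ≤ y2 → DifferentiableAt ℂ H s)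
    (h1 : ∀ x : ℝ, x ≠ 0 → |x| ≤ c → ‖H (x + y1 * Complex.I)‖ ≤ B1)
    (h2 : ∀ x : ℝ, x ≠ 0 → |x| ≤ c → ‖H (x + y2 * Complex.I)‖ ≤ B2) :
    ‖∫ y in y1..y2, (H (c + y * Complex.I) - H (((-c : ℝ) : ℂ) + y * Complex.I))‖ ≤
      2 * c * (B1 + B2) := by
  have hcc : -c ≤ c := by linarith
  have hd' : DifferentiableOn ℂ H (Set.uIcc (-c) c ×ℂ Set.uIcc y1 y2) := by
    intro s hs
    rw [Complex.mem_reProdIm, Set.uIcc_of_le hcc, Set.uIcc_of_le hy] at hs
    exact (hd s (abs_le.2 hs.1) hs.2.1 hs.2.2).differentiableWithinAt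
  have e := Complex.integral_boundary_rect_eq_zero_of_differentiableOn H ⟨-c, y1⟩ ⟨c, y2⟩ hd'
  simp only at e
  have hint : ∀ x : ℝ, |x| ≤ c →
      IntervalIntegrable (fun y : ℝ => H (x + y * Complex.I)) volume y1 y2 := by
    intro x hx
    apply ContinuousOn.intervalIntegrable
    intro y hy'
    rw [Set.uIcc_of_le hy] at hy'
    have h3 : DifferentiableAt ℂ H (x + y * Complex.I) := by
      refine hd _ ?_ ?_ ?_
      · simpa using hx
      · simpa using hy'.1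
      · simpa using hy'.2
    have h4 : ContinuousAt (fun y : ℝ => H (x + y * Complex.I)) y := by
      have h5 : ContinuousAt (fun y : ℝ => (x : ℂ) + y * Complex.I) y := by fun_prop
      exact ContinuousAt.comp (f := fun y : ℝ => (x : ℂ) + y * Complex.I) h3.continuousAt h5
    exact h4.continuousWithinAt
  have i1 := hint c (by rw [abs_of_pos hc])
  have i2 := hint (-c) (by rw [abs_neg, abs_of_pos hc])
  rw [intervalIntegral.integral_sub i1 i2]
  have hb : ∀ (y B : ℝ), (∀ x : ℝ, x ≠ 0 → |x| ≤ c → ‖H (x + y * Complex.I)‖ ≤ B) →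
      ‖∫ x in (-c)..c, H (x + y * Complex.I)‖ ≤ B * (2 * c) := by
    intro y B hB
    have h3 : ‖∫ x in (-c)..c, H (x + y * Complex.I)‖ ≤ B * |c - (-c)| := by
      apply intervalIntegral.norm_integral_le_of_norm_le_const_ae
      have h4 : ∀ᵐ x : ℝ, x ∉ ({0} : Set ℝ) :=
        (Set.countable_singleton (0 : ℝ)).ae_notMem volume
      filter_upwards [h4] with x hx hx'
      rw [Set.uIoc_of_le hcc] at hx'
      exact hB x (fun h => hx (by simp [h])) (abs_le.2 ⟨hx'.1.le, hx'.2⟩)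
    rw [show c - -c = 2 * c by ring, abs_of_pos (by linarith : (0 : ℝ) < 2 * c)] at h3
    exact h3
  have b1 := hb y1 B1 h1
  have b2 := hb y2 B2 h2
  have e2 : (∫ y in y1..y2, H (c + y * Complex.I)) -
      (∫ y in y1..y2, H (((-c : ℝ) : ℂ) + y * Complex.I)) =
      Complex.I * ((∫ x in (-c)..c, H (x + y1 * Complex.I)) -
        (∫ x in (-c)..c, H (x + y2 * Complex.I))) := by
    simp only [smul_eq_mul] at e
    have h3 : Complex.I * Complex.I = -1 := Complex.I_mul_I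
    linear_combination (-Complex.I) * e + ((∫ y in y1..y2, H (c + y * Complex.I)) -
      (∫ y in y1..y2, H (((-c : ℝ) : ℂ) + y * Complex.I))) * h3
  rw [e2, norm_mul, Complex.norm_I, one_mul]
  calc _ ≤ ‖∫ x in (-c)..c, H (x + y1 * Complex.I)‖ + ‖∫ x in (-c)..c, H (x + y2 * Complex.I)‖ :=
        norm_sub_le _ _
    _ ≤ B1 * (2 * c) + B2 * (2 * c) := add_le_add b1 b2
    _ = 2 * c * (B1 + B2) := by ring

lemma tend (C ε a τ c' ϑ : ℝ) (n : ℕ) (hn : 0 < n) (hε : 0 < ε) :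
    Tendsto (fun R : ℝ => c' * (Real.exp (n * (a + C * R - ε * (R - τ) ^ 2)) / ϑ)) atTop
      (𝓝 0) := by
  have h1 : Tendsto (fun R : ℝ => R * (C - ε * (R - 2 * τ))) atTop atBot := by
    apply Tendsto.atTop_mul_atBot₀ tendsto_id
    apply tendsto_atBot_add_const_left
    apply tendsto_neg_atTop_atBot.comp
    apply Tendsto.const_mul_atTop hε
    exact tendsto_atTop_add_const_right _ _ tendsto_id
  have h2 : Tendsto (fun R : ℝ => (n : ℝ) * ((a - ε * τ ^ 2) + R * (C - ε * (R - 2 * τ)))) atTop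
      atBot := by
    apply Tendsto.const_mul_atBot (by exact_mod_cast hn)
    exact tendsto_atBot_add_const_left _ _ h1
  have h3 := (Real.tendsto_exp_atBot.comp h2).div_const ϑ
  have h4 := h3.const_mul c'
  rw [zero_div, mul_zero] at h4
  refine h4.congr fun R => ?_
  simp only [Function.comp]
  rw [show (a - ε * τ ^ 2) + R * (C - ε * (R - 2 * τ)) = a + C * R - ε * (R - τ) ^ 2 by ring]

theorem out4 (hgy : S4_gy) (hn : S4_nb) (hl : S4_line) : S4_out := by
  intro m T hm hT hmT ε ϑ hε hϑ hϑT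
  obtain ⟨C, κ, hC, hκ, hκ16, hnb⟩ := hn m T hm hT hmT
  have hπ := Real.pi_pos
  obtain ⟨d, hd0, hd1, hd2, hd3⟩ : ∃ d : ℝ, 0 < d ∧ d ≤ ϑ / 16 ∧ d ≤ T / 2 ∧
      C * d ≤ ε * ϑ ^ 2 / 8 := by
    refine ⟨min (ϑ / 16) (min (T / 2) (ε * ϑ ^ 2 / 8 / C)), by positivity, min_le_left _ _,
      (min_le_right _ _).trans (min_le_left _ _), ?_⟩
    have h1 : min (ϑ / 16) (min (T / 2) (ε * ϑ ^ 2 / 8 / C)) ≤ ε * ϑ ^ 2 / 8 / C :=
      (min_le_right _ _).trans (min_le_right _ _)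
    calc C * _ ≤ C * (ε * ϑ ^ 2 / 8 / C) := mul_le_mul_of_nonneg_left h1 hC.le
      _ = ε * ϑ ^ 2 / 8 := by field_simp
  obtain ⟨c₀, hc0, hc1, hc2, hc3, hc4, hc5⟩ : ∃ c₀ : ℝ, 0 < c₀ ∧ c₀ ≤ ϑ / 16 ∧ c₀ ≤ κ ∧
      c₀ ≤ Real.pi / 16 ∧ c₀ ≤ 1 ∧ (C + ε + 1) * c₀ ≤ ε * ϑ ^ 2 / 8 := by
    have hpos : 0 < C + ε + 1 := by linarith
    refine ⟨min (ϑ / 16) (min κ (min (Real.pi / 16) (min 1 (ε * ϑ ^ 2 / 8 / (C + ε + 1))))),
      by positivity, min_le_left _ _, (min_le_right _ _).trans (min_le_left _ _),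
      (min_le_right _ _).trans ((min_le_right _ _).trans (min_le_left _ _)),
      (min_le_right _ _).trans ((min_le_right _ _).trans ((min_le_right _ _).trans
        (min_le_left _ _))), ?_⟩
    have h1 : min (ϑ / 16) (min κ (min (Real.pi / 16) (min 1 (ε * ϑ ^ 2 / 8 / (C + ε + 1))))) ≤
        ε * ϑ ^ 2 / 8 / (C + ε + 1) :=
      (min_le_right _ _).trans ((min_le_right _ _).trans ((min_le_right _ _).trans
        (min_le_right _ _)))
    calc (C + ε + 1) * _ ≤ (C + ε + 1) * (ε * ϑ ^ 2 / 8 / (C + ε + 1)) :=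
          mul_le_mul_of_nonneg_left h1 hpos.le
      _ = ε * ϑ ^ 2 / 8 := by field_simp
  refine ⟨T - d, by linarith, by linarith, by linarith, c₀, hc0, ?_⟩
  intro c hcpos hcc
  refine ⟨ε * ϑ ^ 2 / 2, by positivity, 1, ?_⟩
  intro n hn1 σ hσ w hw η τ hη hτ
  have hn0 : 0 < n := by omega
  obtain ⟨Y, hY⟩ := hgy m σ n w hm hw hσ
  have hσ1 : ‖(σ : ℂ)‖ = 1 := by
    rcases hσ.1 with h | h
    · rw [h]; simp
    · rw [h]; simp
  have hc16 : c ≤ Real.pi / 16 := hcc.trans hc3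
  have hcκ : c ≤ κ := hcc.trans hc2
  have hc4' : c ≤ Real.pi / 4 := by linarith
  have hw' : n - w ≤ n := Nat.sub_le _ _
  obtain ⟨hl1, hl2⟩ := hl m n w ε η τ hm hn0 hw hε
  obtain ⟨hl3, hl4⟩ := hl m n (n - w) ε (-η) (-τ) hm hn0 hw' hε
  have hη' : |(-η)| ≤ 1 := by rw [abs_neg]; exact hη
  -- the integrands
  obtain ⟨F1, hF1⟩ : ∃ F1 : ℝ → ℂ, F1 = fun t : ℝ =>
    QJ m n w (c + t * Complex.I) * Kf n ε η (c + (t - τ) * Complex.I) := ⟨_, rfl⟩
  obtain ⟨F2, hF2⟩ : ∃ F2 : ℝ → ℂ, F2 = fun t : ℝ =>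
    QJ m n (n - w) (c + t * Complex.I) *
      Kf n ε (-η) (c + (t - ((-τ : ℝ) : ℂ)) * Complex.I) := ⟨_, rfl⟩
  have hi1 : Integrable F1 := by
    rw [hF1]
    exact hl1 c hcpos hc4'
  have hi2 : Integrable F2 := by
    rw [hF2]
    exact hl3 c hcpos hc4'
  obtain ⟨S, hS⟩ : ∃ S : ℝ → ℂ, S = fun t => F1 t + σ * F2 (-t) := ⟨_, rfl⟩
  have hi3 : Integrable (fun t => (σ : ℂ) * F2 (-t)) := (hi2.comp_neg).const_mul _
  have hiS : Integrable S := by
    rw [hS]
    exact hi1.add hi3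
  have hD : v4 m n w σ ε η τ - (vS (QJ m n w) (T - d) n ε η c τ +
      σ * vS (QJ m n (n - w)) (T - d) n ε (-η) c (-τ)) =
      ((∫ t, S t) - ∫ t in (-(T - d))..(T - d), S t) / (2 * Real.pi) := by
    unfold v4
    rw [← hl2 c hcpos hc4', ← hl4 c hcpos hc4']
    have e1 : ∫ t, S t = (∫ t, F1 t) + σ * ∫ t, F2 t := by
      rw [hS, integral_add hi1 hi3, integral_const_mul, integral_neg_eq_self F2 volume]
    have e2 : ∫ t in (-(T - d))..(T - d), S t = (∫ t in (-(T - d))..(T - d), F1 t) +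
        σ * ∫ t in (-(T - d))..(T - d), F2 t := by
      rw [hS, intervalIntegral.integral_add hi1.intervalIntegrable hi3.intervalIntegrable,
        intervalIntegral.integral_const_mul, intervalIntegral.integral_comp_neg, neg_neg]
    rw [e1, e2]
    have e3 : vF m n w ε η c τ = (∫ t, F1 t) / (2 * Real.pi) := by
      rw [hF1]
      rfl
    have e4 : vF m n (n - w) ε (-η) c (-τ) = (∫ t, F2 t) / (2 * Real.pi) := by
      rw [hF2]
      rfl
    have e5 : vS (QJ m n w) (T - d) n ε η c τ =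
        (∫ t in (-(T - d))..(T - d), F1 t) / (2 * Real.pi) := by
      rw [hF1]
      rfl
    have e6 : vS (QJ m n (n - w)) (T - d) n ε (-η) c (-τ) =
        (∫ t in (-(T - d))..(T - d), F2 t) / (2 * Real.pi) := by
      rw [hF2]
      rfl
    rw [e3, e4, e5, e6]
    ring
  -- exponents
  obtain ⟨E, hE⟩ : ∃ E : ℝ, E = C * (c + d) + (ε * (c ^ 2 - ϑ ^ 2) + c) := ⟨_, rfl⟩
  obtain ⟨EE, hEE⟩ : ∃ EE : ℝ, EE = Real.exp (n * E) / ϑ := ⟨_, rfl⟩
  have hEE0 : 0 < EE := by rw [hEE]; positivity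
  have habs : ∀ t : ℝ, T - d ≤ |t| → ϑ ≤ |t - τ| := by
    intro t ht
    have h1 := abs_sub_abs_le_abs_sub t τ
    linarith
  -- bounds of the integrands in the middle part
  have hb1 : ∀ t : ℝ, T - d ≤ |t| → |t| ≤ T + d → ‖F1 t‖ ≤ EE := by
    intro t ht1 ht2
    rw [hF1]
    simp only
    rw [norm_mul]
    have h1 : ‖QJ m n w (c + t * Complex.I)‖ ≤ Real.exp (C * n * (c + d)) := by
      refine (hnb n w hw c t hcpos hcκ).trans (Real.exp_le_exp.2 ?_)
      refine mul_le_mul_of_nonneg_left ?_ (by positivity)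
      have : max 0 (|t| - T) ≤ d := max_le hd0.le (by linarith)
      linarith
    have h2 : ‖Kf n ε η (c + (t - τ) * Complex.I)‖ ≤
        Real.exp (n * (ε * (c ^ 2 - ϑ ^ 2) + c)) / ϑ := by
      refine Kf_norm hε hη ?_ hϑ.le ?_ hϑ ?_
      · simp [abs_of_pos hcpos]
      · simpa using habs t ht1
      · simpa using habs t ht1
    calc _ ≤ Real.exp (C * n * (c + d)) * (Real.exp (n * (ε * (c ^ 2 - ϑ ^ 2) + c)) / ϑ) :=
          mul_le_mul h1 h2 (norm_nonneg _) (Real.exp_pos _).le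
      _ = EE := by
          rw [hEE, hE, ← mul_div_assoc, ← Real.exp_add]
          congr 2
          ring
  have hb2 : ∀ t : ℝ, T - d ≤ |t| → |t| ≤ T + d → ‖F2 (-t)‖ ≤ EE := by
    intro t ht1 ht2
    rw [hF2]
    simp only
    rw [norm_mul]
    have h1 : ‖QJ m n (n - w) (c + ((-t : ℝ) : ℂ) * Complex.I)‖ ≤
        Real.exp (C * n * (c + d)) := by
      refine (hnb n (n - w) hw' c (-t) hcpos hcκ).trans (Real.exp_le_exp.2 ?_)
      refine mul_le_mul_of_nonneg_left ?_ (by positivity)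
      have : max 0 (|-t| - T) ≤ d := max_le hd0.le (by rw [abs_neg]; linarith)
      linarith
    have h3 : ϑ ≤ |(-t) - (-τ)| := by
      rw [show -t - -τ = -(t - τ) by ring, abs_neg]
      exact habs t ht1
    have h2 : ‖Kf n ε (-η) (c + (((-t : ℝ) : ℂ) - ((-τ : ℝ) : ℂ)) * Complex.I)‖ ≤
        Real.exp (n * (ε * (c ^ 2 - ϑ ^ 2) + c)) / ϑ := by
      have h4 : ((c : ℂ) + (((-t : ℝ) : ℂ) - ((-τ : ℝ) : ℂ)) * Complex.I).im =
          (-t) - (-τ) := by
        rw [← Complex.ofReal_sub]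
        simp
      refine Kf_norm hε hη' ?_ hϑ.le ?_ hϑ ?_
      · rw [← Complex.ofReal_sub]
        simp [abs_of_pos hcpos]
      · rw [h4]
        exact h3
      · rw [h4]
        exact h3
    calc _ ≤ Real.exp (C * n * (c + d)) * (Real.exp (n * (ε * (c ^ 2 - ϑ ^ 2) + c)) / ϑ) :=
          mul_le_mul h1 h2 (norm_nonneg _) (Real.exp_pos _).le
      _ = EE := by
          rw [hEE, hE, ← mul_div_assoc, ← Real.exp_add]
          congr 2
          ring
  have hbS : ∀ t : ℝ, T - d ≤ |t| → |t| ≤ T + d → ‖S t‖ ≤ 2 * EE := by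
    intro t ht1 ht2
    rw [hS]
    simp only
    refine (norm_add_le _ _).trans ?_
    rw [norm_mul, hσ1, one_mul]
    have := hb1 t ht1 ht2
    have := hb2 t ht1 ht2
    linarith
  -- the outer parts
  obtain ⟨H, hH⟩ : ∃ H : ℂ → ℂ, H = fun s => Y s * Kf n ε η (s - τ * Complex.I) := ⟨_, rfl⟩
  have hSH : ∀ t : ℝ, T < |t| →
      S t = H (c + t * Complex.I) - H (((-c : ℝ) : ℂ) + t * Complex.I) := by
    intro t ht
    have hsh : m < Real.sinh (2 * t) ^ 2 := by
      rw [← hmT]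
      exact sinh_lt hT ht
    have y1 := hY (c + t * Complex.I) (by simp [abs_of_pos hcpos]; linarith) (by simpa using hsh)
    have y2 := hY (((-c : ℝ) : ℂ) + t * Complex.I) (by simp [abs_of_pos hcpos]; linarith)
      (by simpa using hsh)
    have z1 := y1.2.1 (by simpa using hcpos)
    have z2 := y2.2.2 (by simpa using hcpos)
    rw [hS, hH, hF1, hF2]
    simp only
    rw [z1, z2]
    have k1 : (c : ℂ) + t * Complex.I - τ * Complex.I = c + (t - τ) * Complex.I := by ring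
    have k2 : ((-c : ℝ) : ℂ) + t * Complex.I - τ * Complex.I =
        -(c + (((-t : ℝ) : ℂ) - ((-τ : ℝ) : ℂ)) * Complex.I) := by
      push_cast
      ring
    have k3 : -(((-c : ℝ) : ℂ) + t * Complex.I) = c + ((-t : ℝ) : ℂ) * Complex.I := by
      push_cast
      ring
    have k4 := Kf_neg n ε (-η) (c + (((-t : ℝ) : ℂ) - ((-τ : ℝ) : ℂ)) * Complex.I)
    rw [neg_neg] at k4
    rw [k1, k2, k3, k4]
    ring
  have hHd : ∀ s : ℂ, |s.re| ≤ c → T < |s.im| → DifferentiableAt ℂ H s := by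
    intro s hs1 hs2
    have hsh : m < Real.sinh (2 * s.im) ^ 2 := by
      rw [← hmT]
      exact sinh_lt hT hs2
    have y1 := hY s (by linarith) hsh
    rw [hH]
    refine DifferentiableAt.mul y1.1 ?_
    have h1 : s - τ * Complex.I ≠ 0 := by
      intro h
      have h2 := congrArg Complex.im h
      simp at h2
      have h3 : |s.im| = |τ| := by rw [show s.im = τ by linarith]
      linarith
    exact DifferentiableAt.comp s (Kf_diff h1) (by fun_prop)
  have hHb : ∀ (x y u : ℝ), x ≠ 0 → |x| ≤ c → T + d ≤ |y| → 0 ≤ u → u ≤ |y| - |τ| →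
      ‖H (x + y * Complex.I)‖ ≤
        Real.exp (C * n * (c + (|y| - T)) + n * (ε * (c ^ 2 - u ^ 2) + c)) / ϑ := by
    intro x y u hx0 hx hy hu0 hu
    have hTy : T < |y| := by linarith
    have hsh : m < Real.sinh (2 * y) ^ 2 := by
      rw [← hmT]
      exact sinh_lt hT hTy
    have y1 := hY (x + y * Complex.I) (by simp; linarith) (by simpa using hsh)
    have hYb : ‖Y (x + y * Complex.I)‖ ≤ Real.exp (C * n * (c + (|y| - T))) := by
      have hmax : max 0 (|y| - T) = |y| - T := max_eq_right (by linarith)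
      rcases lt_or_gt_of_ne hx0 with hx1 | hx1
      · rw [y1.2.2 (by simpa using hx1), norm_mul, hσ1, one_mul]
        have k3 : -((x : ℂ) + y * Complex.I) = ((-x : ℝ) : ℂ) + ((-y : ℝ) : ℂ) * Complex.I := by
          push_cast
          ring
        rw [k3]
        have h1 : -x ≤ c := by
          have := (abs_le.1 hx).1
          linarith
        refine (hnb n (n - w) hw' (-x) (-y) (by linarith) (h1.trans hcκ)).trans
          (Real.exp_le_exp.2 ?_)
        rw [abs_neg, hmax]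
        exact mul_le_mul_of_nonneg_left (by linarith) (by positivity)
      · rw [y1.2.1 (by simpa using hx1)]
        have h1 : x ≤ c := (abs_le.1 hx).2
        refine (hnb n w hw x y hx1 (h1.trans hcκ)).trans (Real.exp_le_exp.2 ?_)
        rw [hmax]
        exact mul_le_mul_of_nonneg_left (by linarith) (by positivity)
    have h3 : |y| - |τ| ≤ |y - τ| := abs_sub_abs_le_abs_sub y τ
    have hKb : ‖Kf n ε η ((x : ℂ) + y * Complex.I - τ * Complex.I)‖ ≤
        Real.exp (n * (ε * (c ^ 2 - u ^ 2) + c)) / ϑ := by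
      refine Kf_norm hε hη ?_ hu0 ?_ hϑ ?_
      · simpa using hx
      · have : ((x : ℂ) + y * Complex.I - τ * Complex.I).im = y - τ := by simp
        rw [this]
        linarith
      · have : ((x : ℂ) + y * Complex.I - τ * Complex.I).im = y - τ := by simp
        rw [this]
        linarith
    rw [hH]
    simp only
    rw [norm_mul, Real.exp_add, mul_div_assoc]
    exact mul_le_mul hYb hKb (norm_nonneg _) (Real.exp_pos _).le
  have hB1 : ∀ (x y : ℝ), |y| = T + d → x ≠ 0 → |x| ≤ c → ‖H (x + y * Complex.I)‖ ≤ EE := by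
    intro x y hy hx0 hx
    have h1 := hHb x y ϑ hx0 hx hy.ge hϑ.le (by rw [hy]; linarith)
    refine h1.trans (le_of_eq ?_)
    rw [hEE, hE, hy]
    congr 2
    ring
  obtain ⟨BR, hBR⟩ : ∃ BR : ℝ → ℝ, BR = fun R => Real.exp (n * ((C * (c - T) + ε * c ^ 2 + c) +
    C * R - ε * (R - |τ|) ^ 2)) / ϑ := ⟨_, rfl⟩
  have hB2 : ∀ (x y R : ℝ), |y| = R → T + d ≤ R → x ≠ 0 → |x| ≤ c →
      ‖H (x + y * Complex.I)‖ ≤ BR R := by
    intro x y R hy hR hx0 hx
    have h1 := hHb x y (R - |τ|) hx0 hx (by rw [hy]; exact hR) (by linarith) (by rw [hy])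
    refine h1.trans (le_of_eq ?_)
    rw [hBR, hy]
    simp only
    congr 2
    ring
  have hO2 : ∀ R : ℝ, T + d ≤ R → ‖∫ t in (T + d)..R, S t‖ ≤ 2 * c * (EE + BR R) := by
    intro R hR
    have h1 : ∫ t in (T + d)..R, S t = ∫ t in (T + d)..R,
        (H (c + t * Complex.I) - H (((-c : ℝ) : ℂ) + t * Complex.I)) := by
      refine intervalIntegral.integral_congr fun t ht => ?_
      rw [Set.uIcc_of_le hR] at ht
      exact hSH t (lt_of_lt_of_le (by linarith [ht.1]) (le_abs_self t))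
    rw [h1]
    refine strip H hcpos hR ?_ ?_ ?_
    · intro s hs1 hs2 _
      exact hHd s hs1 (lt_of_lt_of_le (by linarith) (le_abs_self _))
    · intro x hx0 hx
      exact hB1 x (T + d) (abs_of_pos (by linarith)) hx0 hx
    · intro x hx0 hx
      exact hB2 x R R (abs_of_pos (by linarith)) hR hx0 hx
  have hO1 : ∀ R : ℝ, T + d ≤ R → ‖∫ t in (-R)..(-(T + d)), S t‖ ≤ 2 * c * (BR R + EE) := by
    intro R hR
    have hR' : -R ≤ -(T + d) := by linarith
    have h1 : ∫ t in (-R)..(-(T + d)), S t = ∫ t in (-R)..(-(T + d)),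
        (H (c + t * Complex.I) - H (((-c : ℝ) : ℂ) + t * Complex.I)) := by
      refine intervalIntegral.integral_congr fun t ht => ?_
      rw [Set.uIcc_of_le hR'] at ht
      exact hSH t (lt_of_lt_of_le (by linarith [ht.2]) (neg_le_abs t))
    rw [h1]
    refine strip H hcpos hR' ?_ ?_ ?_
    · intro s hs1 _ hs3
      exact hHd s hs1 (lt_of_lt_of_le (by linarith) (neg_le_abs _))
    · intro x hx0 hx
      exact hB2 x (-R) R (by rw [abs_neg]; exact abs_of_pos (by linarith)) hR hx0 hx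
    · intro x hx0 hx
      exact hB1 x (-(T + d)) (by rw [abs_neg]; exact abs_of_pos (by linarith)) hx0 hx
  have hM : ∀ a b : ℝ, a ≤ b → b - a = 2 * d →
      (∀ t, a ≤ t → t ≤ b → T - d ≤ |t| ∧ |t| ≤ T + d) →
      ‖∫ t in a..b, S t‖ ≤ 2 * EE * (2 * d) := by
    intro a b hab hba h
    have h1 : ‖∫ t in a..b, S t‖ ≤ 2 * EE * |b - a| := by
      apply intervalIntegral.norm_integral_le_of_norm_le_const
      intro t ht
      rw [Set.uIoc_of_le hab] at ht
      obtain ⟨h2, h3⟩ := h t ht.1.le ht.2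
      exact hbS t h2 h3
    rw [hba, abs_of_pos (by linarith : (0 : ℝ) < 2 * d)] at h1
    exact h1
  have hM2 : ‖∫ t in (T - d)..(T + d), S t‖ ≤ 2 * EE * (2 * d) := by
    refine hM _ _ (by linarith) (by ring) ?_
    intro t ht1 ht2
    rw [abs_of_pos (by linarith : 0 < t)]
    exact ⟨ht1, ht2⟩
  have hM1 : ‖∫ t in (-(T + d))..(-(T - d)), S t‖ ≤ 2 * EE * (2 * d) := by
    refine hM _ _ (by linarith) (by ring) ?_
    intro t ht1 ht2
    rw [abs_of_neg (by linarith : t < 0)]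
    exact ⟨by linarith, by linarith⟩
  have hii : ∀ a b : ℝ, IntervalIntegrable S volume a b := fun a b => hiS.intervalIntegrable
  have hR : ∀ R : ℝ, T + d ≤ R →
      ‖(∫ t in (-R)..R, S t) - ∫ t in (-(T - d))..(T - d), S t‖ ≤
        (8 * d + 4 * c) * EE + 4 * c * BR R := by
    intro R hR
    have e1 : ∫ t in (-R)..R, S t = (∫ t in (-R)..(-(T + d)), S t) +
        (∫ t in (-(T + d))..(-(T - d)), S t) + (∫ t in (-(T - d))..(T - d), S t) +
        (∫ t in (T - d)..(T + d), S t) + ∫ t in (T + d)..R, S t := by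
      rw [intervalIntegral.integral_add_adjacent_intervals (hii _ _) (hii _ _),
        intervalIntegral.integral_add_adjacent_intervals (hii _ _) (hii _ _),
        intervalIntegral.integral_add_adjacent_intervals (hii _ _) (hii _ _),
        intervalIntegral.integral_add_adjacent_intervals (hii _ _) (hii _ _)]
    have e2 : (∫ t in (-R)..R, S t) - ∫ t in (-(T - d))..(T - d), S t =
        ((∫ t in (-R)..(-(T + d)), S t) + (∫ t in (-(T + d))..(-(T - d)), S t)) +
        ((∫ t in (T - d)..(T + d), S t) + ∫ t in (T + d)..R, S t) := by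
      rw [e1]
      ring
    rw [e2]
    refine (norm_add_le _ _).trans ?_
    have a1 := norm_add_le (∫ t in (-R)..(-(T + d)), S t) (∫ t in (-(T + d))..(-(T - d)), S t)
    have a2 := norm_add_le (∫ t in (T - d)..(T + d), S t) (∫ t in (T + d)..R, S t)
    have a3 := hO1 R hR
    have a4 := hO2 R hR
    linarith
  have hlim : ‖(∫ t, S t) - ∫ t in (-(T - d))..(T - d), S t‖ ≤ (8 * d + 4 * c) * EE := by
    have t1 : Tendsto (fun R : ℝ => ∫ t in (-R)..R, S t) atTop (𝓝 (∫ t, S t)) :=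
      intervalIntegral_tendsto_integral hiS tendsto_neg_atTop_atBot tendsto_id
    have t2 : Tendsto (fun R : ℝ => ‖(∫ t in (-R)..R, S t) -
        ∫ t in (-(T - d))..(T - d), S t‖) atTop
        (𝓝 ‖(∫ t, S t) - ∫ t in (-(T - d))..(T - d), S t‖) :=
      (t1.sub_const _).norm
    have t3 : Tendsto (fun R : ℝ => (8 * d + 4 * c) * EE + 4 * c * BR R) atTop
        (𝓝 ((8 * d + 4 * c) * EE + 0)) := by
      refine Tendsto.const_add _ ?_
      rw [hBR]
      exact tend C ε (C * (c - T) + ε * c ^ 2 + c) |τ| (4 * c) ϑ n hn0 hε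
    rw [add_zero] at t3
    refine le_of_tendsto_of_tendsto t2 t3 ?_
    filter_upwards [eventually_ge_atTop (T + d)] with R hR'
    exact hR R hR'
  rw [hD, norm_div]
  have hnorm : ‖(2 * Real.pi : ℂ)‖ = 2 * Real.pi := by
    rw [norm_mul, Complex.norm_real, Real.norm_of_nonneg hπ.le]
    simp
  rw [hnorm]
  have h2π : 1 ≤ 2 * Real.pi := by linarith [Real.pi_gt_three]
  have h1 : (8 * d + 4 * c) * EE ≤ Real.exp (n * E) := by
    rw [hEE]
    have h2 : 8 * d + 4 * c ≤ ϑ := by linarith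
    calc (8 * d + 4 * c) * (Real.exp (n * E) / ϑ) ≤ ϑ * (Real.exp (n * E) / ϑ) :=
          mul_le_mul_of_nonneg_right h2 (by positivity)
      _ = Real.exp (n * E) := by field_simp
  have hEle : E ≤ -(ε * ϑ ^ 2 / 2) := by
    rw [hE]
    have h3 : c ^ 2 ≤ c := by
      have : c ≤ 1 := hcc.trans hc4
      nlinarith
    have h4 : (C + ε + 1) * c ≤ ε * ϑ ^ 2 / 8 :=
      (mul_le_mul_of_nonneg_left hcc (by linarith)).trans hc5
    have h5 : ε * c ^ 2 ≤ ε * c := mul_le_mul_of_nonneg_left h3 hε.le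
    have h6 : 0 < ε * ϑ ^ 2 := by positivity
    nlinarith
  calc ‖(∫ t, S t) - ∫ t in (-(T - d))..(T - d), S t‖ / (2 * Real.pi) ≤
        ‖(∫ t, S t) - ∫ t in (-(T - d))..(T - d), S t‖ := div_le_self (norm_nonneg _) h2π
    _ ≤ (8 * d + 4 * c) * EE := hlim
    _ ≤ Real.exp (n * E) := h1
    _ ≤ Real.exp (-(ε * ϑ ^ 2 / 2) * n) := by
        refine Real.exp_le_exp.2 ?_
        have : (n : ℝ) * E ≤ n * (-(ε * ϑ ^ 2 / 2)) :=
          mul_le_mul_of_nonneg_left hEle (Nat.cast_nonneg n)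
        linarith

end Pool.Agent.TH41.BL.OU4f
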