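import Mathlib
import Pool.Agent.TH41.BL.Stm4

/-!
# Bounds near the imaginary axis (job BL4-PG, helper511 for helper41)

The auxiliary lemmas follow `PB3.lean` (helper416), with rectangles in place of strips.
-/

set_option autoImplicit false

open MeasureTheory Filter Topology

namespace Pool.Agent.TH41.BL.PG4f

open Pool.Agent.TH41.BL

lemma sinh_sq_le {x y : ℝ} (h : |x| ≤ y) : Real.sinh x ^ 2 ≤ Real.sinh y ^ 2 := by
  have h1 : Real.sinh x ^ 2 = Real.sinh |x| ^ 2 := by rw [← Real.abs_sinh, sq_abs]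
  rw [h1]
  have h2 : Real.sinh |x| ≤ Real.sinh y := Real.sinh_le_sinh.2 h
  have h3 : 0 ≤ Real.sinh |x| := Real.sinh_nonneg_iff.2 (abs_nonneg x)
  exact pow_le_pow_left₀ h3 h2 2

lemma exists_r {m T : ℝ} (h : Real.sinh (2 * T) ^ 2 < m) :
    ∃ r : ℝ, 0 < r ∧ 4 * r ≤ Real.pi / 16 ∧ Real.sinh (2 * (T + 4 * r)) ^ 2 < m := by
  have hc : Continuous fun x : ℝ => Real.sinh (2 * (T + 4 * x)) ^ 2 := by fun_prop
  have h : ∀ᶠ x in 𝓝 (0 : ℝ), Real.sinh (2 * (T + 4 * x)) ^ 2 < m :=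
    hc.continuousAt.eventually_lt continuousAt_const (by simpa using h)
  obtain ⟨δ, hδ, hδ'⟩ := Metric.eventually_nhds_iff.1 h
  have hpi := Real.pi_pos
  refine ⟨min (δ / 2) (Real.pi / 64), by positivity, ?_, ?_⟩
  · have := min_le_right (δ / 2) (Real.pi / 64)
    linarith
  · apply hδ'
    rw [Real.dist_eq, sub_zero, abs_of_pos (by positivity)]
    exact (min_le_left _ _).trans_lt (by linarith)

/-- rectangles -/
def Rc (a b : ℝ) : Set ℂ := {z : ℂ | |z.re| ≤ a ∧ |z.im| ≤ b}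

lemma rc_convex (a b : ℝ) : Convex ℝ (Rc a b) := by
  have h : Rc a b = (Complex.reLm ⁻¹' (Set.Icc (-a) a)) ∩ (Complex.imLm ⁻¹' (Set.Icc (-b) b)) := by
    ext z
    simp only [Rc, Set.mem_ofPred_eq, Set.mem_inter_iff, Set.mem_preimage, Set.mem_Icc,
      Complex.reLm_coe, Complex.imLm_coe, abs_le]
  rw [h]
  exact ((convex_Icc _ _).linear_preimage Complex.reLm).inter
    ((convex_Icc _ _).linear_preimage Complex.imLm)

/-- the mean value inequality -/
lemma mvt {f f' : ℂ → ℂ} {S : Set ℂ} {A : ℝ} (hS : Convex ℝ S)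
    (hd : ∀ s ∈ S, HasDerivAt f (f' s) s) (hb : ∀ s ∈ S, ‖f' s‖ ≤ A) {x y : ℂ} (hx : x ∈ S)
    (hy : y ∈ S) : ‖f y - f x‖ ≤ A * ‖y - x‖ :=
  hS.norm_image_sub_le_of_norm_hasDerivWithin_le (fun s hs => (hd s hs).hasDerivWithinAt) hb hx hy

/-- the expansion of order one -/
lemma taylor1 {f f' : ℂ → ℂ} {S : Set ℂ} {A : ℝ} (hS : Convex ℝ S)
    (hd : ∀ s ∈ S, HasDerivAt f (f' s) s)
    (hl : ∀ s ∈ S, ∀ s' ∈ S, ‖f' s - f' s'‖ ≤ A * ‖s - s'‖) (hA : 0 ≤ A)
    {s h : ℂ} (hs : s ∈ S) (hh : s + h ∈ S) :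
    ‖f (s + h) - f s - h * f' s‖ ≤ A * ‖h‖ ^ 2 := by
  have hS' : Convex ℝ (S ∩ Metric.closedBall s ‖h‖) := hS.inter (convex_closedBall s ‖h‖)
  have h1 := mvt (f := fun z => f z - z * f' s) (f' := fun z => f' z - f' s) (A := A * ‖h‖) hS'
    (fun z hz => by
      have h2 : HasDerivAt (fun z => f z - z * f' s) (f' z - 1 * f' s) z :=
        (hd z hz.1).sub ((hasDerivAt_id' z).mul_const (f' s))
      rwa [one_mul] at h2)
    (fun z hz => by
      refine (hl z hz.1 s hs).trans ?_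
      have h3 : ‖z - s‖ ≤ ‖h‖ := by
        have := hz.2
        rwa [Metric.mem_closedBall, dist_eq_norm] at this
      exact mul_le_mul_of_nonneg_left h3 hA)
    (x := s) (y := s + h) ⟨hs, Metric.mem_closedBall_self (norm_nonneg _)⟩
    ⟨hh, by rw [Metric.mem_closedBall, dist_eq_norm, add_sub_cancel_left]⟩
  have h4 : f (s + h) - (s + h) * f' s - (f s - s * f' s) = f (s + h) - f s - h * f' s := by ring
  rw [h4, add_sub_cancel_left] at h1
  calc _ ≤ _ := h1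
    _ = A * ‖h‖ ^ 2 := by ring

/-- second differences -/
lemma second {f f' : ℂ → ℂ} {S : Set ℂ} {A : ℝ} (hS : Convex ℝ S)
    (hd : ∀ s ∈ S, HasDerivAt f (f' s) s)
    (hl : ∀ s ∈ S, ∀ s' ∈ S, ‖f' s - f' s'‖ ≤ A * ‖s - s'‖) (hA : 0 ≤ A)
    {s h : ℂ} (hs : s ∈ S) (hh : s + h ∈ S) (hh' : s - h ∈ S) :
    ‖f (s + h) + f (s - h) - 2 * f s‖ ≤ 2 * A * ‖h‖ ^ 2 := by
  have h1 := taylor1 hS hd hl hA hs hh
  have h2 := taylor1 (h := -h) hS hd hl hA hs (by rwa [← sub_eq_add_neg])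
  rw [← sub_eq_add_neg, norm_neg] at h2
  have h3 : f (s + h) + f (s - h) - 2 * f s =
      (f (s + h) - f s - h * f' s) + (f (s - h) - f s - -h * f' s) := by ring
  rw [h3]
  refine (norm_add_le _ _).trans ?_
  linarith

/-- Cauchy estimate -/
lemma cauchy {f : ℂ → ℂ} {U : Set ℂ} {a b r M : ℝ} (hr : 0 < r) (hf : DifferentiableOn ℂ f U)
    (hU : Rc (a + r) (b + r) ⊆ U) (hb : ∀ s ∈ Rc (a + r) (b + r), ‖f s‖ ≤ M) :
    ∀ s ∈ Rc a b, ‖deriv f s‖ ≤ M / r := by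
  intro s hs
  have h0 : ∀ z ∈ Metric.closedBall s r, z ∈ Rc (a + r) (b + r) := by
    intro z hz
    rw [Metric.mem_closedBall, dist_eq_norm] at hz
    have h1 : z.re = s.re + (z - s).re := by simp
    have h2 : z.im = s.im + (z - s).im := by simp
    refine ⟨?_, ?_⟩
    · rw [h1]
      refine (abs_add_le _ _).trans ?_
      exact add_le_add hs.1 ((Complex.abs_re_le_norm _).trans hz)
    · rw [h2]
      refine (abs_add_le _ _).trans ?_
      exact add_le_add hs.2 ((Complex.abs_im_le_norm _).trans hz)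
  exact Complex.norm_deriv_le_of_forall_mem_sphere_norm_le hr
    (hf.diffContOnCl_ball (fun z hz => hU (h0 z hz)))
    (fun z hz => hb z (h0 z (Metric.sphere_subset_closedBall hz)))

/-- `JJ` is even -/
lemma JJ_neg (m : ℝ) (s : ℂ) : JJ m (-s) = JJ m s := by
  unfold JJ
  have h : Complex.sin (2 * -s) ^ 2 = Complex.sin (2 * s) ^ 2 := by
    rw [mul_neg, Complex.sin_neg, neg_sq]
  rw [h]

theorem pg (hj : S4_ja) (hp : S4_ph) : S4_pg := by
  intro m T hm hT hmT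
  obtain ⟨r, hr0, hr1, hr⟩ := exists_r hmT
  obtain ⟨hJd, hJb, hJc, -, -, -⟩ := hj m hm
  obtain ⟨hPd, hP0, -, -, hPre, hPim⟩ := hp m hm
  have hpi := Real.pi_pos
  set U : Set ℂ := {s : ℂ | |s.re| < 4 * r ∧ |s.im| < T + 4 * r} with hU
  have hUo : IsOpen U := (isOpen_lt (continuous_abs.comp Complex.continuous_re)
    continuous_const).inter (isOpen_lt (continuous_abs.comp Complex.continuous_im)
    continuous_const)
  have hUD : ∀ s ∈ U, s ∈ DJ m := by
    rintro s ⟨h1, h2⟩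
    refine ⟨by linarith, Or.inr ?_⟩
    refine (sinh_sq_le ?_).trans_lt hr
    rw [abs_mul, abs_of_pos (by norm_num : (0 : ℝ) < 2)]
    linarith
  have hRU : ∀ {a b : ℝ}, a < 4 * r → b < T + 4 * r → Rc a b ⊆ U := fun ha hb s hs =>
    ⟨lt_of_le_of_lt hs.1 ha, lt_of_le_of_lt hs.2 hb⟩
  have hN : DifferentiableOn ℂ (JJ m) U := fun s hs =>
    (hJd s (hUD s hs)).differentiableWithinAt
  have hN' : DifferentiableOn ℂ (deriv (JJ m)) U := hN.deriv hUo
  have hA : ∀ s ∈ Rc (2 * r) (T + 2 * r), ‖deriv (JJ m) s‖ ≤ 4 / r :=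
    cauchy hr0 hN (hRU (by linarith) (by linarith)) (fun s _ => hJb s)
  have hsub : Rc (r + r) (T + r + r) ⊆ Rc (2 * r) (T + 2 * r) := fun s hs =>
    ⟨hs.1.trans (by linarith), hs.2.trans (by linarith)⟩
  have hB : ∀ s ∈ Rc r (T + r), ‖deriv (deriv (JJ m)) s‖ ≤ 4 / r / r :=
    cauchy hr0 hN' (hRU (by linarith) (by linarith)) (fun s hs => hA s (hsub hs))
  set A : ℝ := 4 / r with hAdef
  set B : ℝ := 4 / r / r with hBdef
  have hA0 : 0 < A := by positivity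
  have hB0 : 0 < B := by positivity
  have hK : Rc r T ⊆ U := hRU (by linarith) (by linarith)
  have hd1 : ∀ s ∈ Rc r T, HasDerivAt (JJ m) (deriv (JJ m) s) s := fun s hs =>
    (hN.differentiableAt (hUo.mem_nhds (hK hs))).hasDerivAt
  have hd2 : ∀ s ∈ Rc r T, HasDerivAt (deriv (JJ m)) (deriv (deriv (JJ m)) s) s :=
    fun s hs => (hN'.differentiableAt (hUo.mem_nhds (hK hs))).hasDerivAt
  have hl1 : ∀ s ∈ Rc r T, ∀ s' ∈ Rc r T, ‖JJ m s - JJ m s'‖ ≤ A * ‖s - s'‖ :=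
    fun s hs s' hs' => mvt (rc_convex r T) hd1 (fun z hz => hA z
      ⟨hz.1.trans (by linarith), hz.2.trans (by linarith)⟩) hs' hs
  have hl2 : ∀ s ∈ Rc r T, ∀ s' ∈ Rc r T,
      ‖deriv (JJ m) s - deriv (JJ m) s'‖ ≤ B * ‖s - s'‖ :=
    fun s hs s' hs' => mvt (rc_convex r T) hd2 (fun z hz => hB z
      ⟨hz.1, hz.2.trans (by linarith)⟩) hs' hs
  have hsec : ∀ s h : ℂ, s ∈ Rc r T → s + h ∈ Rc r T → s - h ∈ Rc r T →
      ‖JJ m (s + h) + JJ m (s - h) - 2 * JJ m s‖ ≤ 2 * B * ‖h‖ ^ 2 := fun s h hs h1 h2 =>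
    second (rc_convex r T) hd1 hl2 hB0.le hs h1 h2
  have hmem : ∀ σ t : ℝ, |σ| ≤ r → |t| ≤ T → ((σ : ℂ) + t * Complex.I) ∈ Rc r T := by
    intro σ t hσ ht
    exact ⟨by simpa using hσ, by simpa using ht⟩
  have hmem' : ∀ σ t : ℝ, |σ| ≤ r → |t| ≤ T → ((σ : ℂ) - t * Complex.I) ∈ Rc r T := by
    intro σ t hσ ht
    exact ⟨by simpa using hσ, by simpa using ht⟩
  have hmemr : ∀ σ : ℝ, |σ| ≤ r → (σ : ℂ) ∈ Rc r T := by
    intro σ hσ
    exact ⟨by simpa using hσ, by simpa using hT.le⟩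
  have hmemi : ∀ t : ℝ, |t| ≤ T → (t * Complex.I : ℂ) ∈ Rc r T := by
    intro t ht
    exact ⟨by simpa using hr0.le, by simpa using ht⟩
  have hmem0 : (0 : ℂ) ∈ Rc r T := ⟨by simpa using hr0.le, by simpa using hT.le⟩
  have hco : ∀ (σ t : ℝ), (starRingEnd ℂ) ((σ : ℂ) + t * Complex.I) = σ - t * Complex.I := by
    intro σ t
    simp [sub_eq_add_neg]
  have hsT : ∀ t : ℝ, |t| ≤ T → Real.sinh (2 * t) ^ 2 < m := by
    intro t ht
    refine (sinh_sq_le ?_).trans_lt hmT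
    rw [abs_mul, abs_of_pos (by norm_num : (0 : ℝ) < 2)]
    linarith
  have hC4 : (4 : ℝ) ≤ 4 + A + 2 * B := by linarith
  have hCA : A ≤ 4 + A + 2 * B := by linarith
  have hCB : B ≤ 4 + A + 2 * B := by linarith
  refine ⟨4 + A + 2 * B, r, by positivity, hr0, by linarith, ?_⟩
  refine ⟨?_, ?_, ?_, ?_, ?_, ?_, ?_, ?_, ?_, hP0⟩
  · -- g0
    intro σ t hσ ht
    exact hPd _ (hUD _ (hK (hmem σ t hσ ht)))
  · -- g1
    intro σ t _ _
    exact (hJb _).trans hC4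
  · -- g2
    intro σ t hσ ht
    have h1 := hl1 _ (hmem σ t hσ ht) _ (hmemi t ht)
    rw [add_sub_cancel_right, Complex.norm_real, Real.norm_eq_abs] at h1
    have h2 := (Complex.abs_re_le_norm _).trans h1
    rw [Complex.sub_re] at h2
    exact h2.trans (mul_le_mul_of_nonneg_right hCA (abs_nonneg _))
  · -- g3
    intro σ t hσ ht
    have h1 := hsec σ (t * Complex.I) (hmemr σ hσ) (hmem σ t hσ ht) (hmem' σ t hσ ht)
    have h2 : JJ m (σ - t * Complex.I) = (starRingEnd ℂ) (JJ m (σ + t * Complex.I)) := by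
      rw [← hco, hJc _ (hUD _ (hK (hmem σ t hσ ht)))]
    have h3 : ‖(t * Complex.I : ℂ)‖ ^ 2 = t ^ 2 := by
      rw [norm_mul, Complex.norm_I, mul_one, Complex.norm_real, Real.norm_eq_abs, sq_abs]
    rw [h2, h3] at h1
    have h4 := (Complex.abs_re_le_norm _).trans h1
    have h5 : (JJ m (σ + t * Complex.I) + (starRingEnd ℂ) (JJ m (σ + t * Complex.I)) -
        2 * JJ m σ).re = 2 * ((JJ m (σ + t * Complex.I)).re - (JJ m σ).re) := by
      simp only [Complex.sub_re, Complex.add_re, Complex.conj_re, Complex.mul_re,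
        Complex.re_ofNat, Complex.im_ofNat, zero_mul, sub_zero]
      ring
    rw [h5, abs_mul, abs_of_pos (by norm_num : (0 : ℝ) < 2)] at h4
    have h6 : |(JJ m (σ + t * Complex.I)).re - (JJ m σ).re| ≤ B * t ^ 2 := by linarith
    exact h6.trans (mul_le_mul_of_nonneg_right hCB (sq_nonneg _))
  · -- g4
    intro σ hσ
    have h1 := hsec 0 σ hmem0 (by rw [zero_add]; exact hmemr σ hσ)
      (by
        have := hmemr (-σ) (by rwa [abs_neg])
        rw [zero_sub]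
        simpa using this)
    rw [zero_add, zero_sub, JJ_neg, Complex.norm_real, Real.norm_eq_abs, sq_abs] at h1
    have h4 := (Complex.abs_re_le_norm _).trans h1
    have h5 : (JJ m σ + JJ m σ - 2 * JJ m 0).re = 2 * ((JJ m σ).re - (JJ m 0).re) := by
      simp only [Complex.sub_re, Complex.add_re, Complex.mul_re,
        Complex.re_ofNat, Complex.im_ofNat, zero_mul, sub_zero]
      ring
    rw [h5, abs_mul, abs_of_pos (by norm_num : (0 : ℝ) < 2)] at h4
    have h6 : |(JJ m σ).re - (JJ m 0).re| ≤ B * σ ^ 2 := by linarith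
    exact h6.trans (mul_le_mul_of_nonneg_right hCB (sq_nonneg _))
  · -- g5
    intro t t' ht ht'
    have h1 := hl1 _ (hmemi t ht) _ (hmemi t' ht')
    have h3 : (t * Complex.I : ℂ) - t' * Complex.I = ((t - t' : ℝ) : ℂ) * Complex.I := by
      push_cast
      ring
    rw [h3, norm_mul, Complex.norm_I, mul_one, Complex.norm_real, Real.norm_eq_abs] at h1
    have h2 := (Complex.abs_re_le_norm _).trans h1
    rw [Complex.sub_re] at h2
    exact h2.trans (mul_le_mul_of_nonneg_right hCA (abs_nonneg _))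
  · -- g6
    intro t ht
    exact hPre t (hsT t ht)
  · -- g7
    intro σ _
    exact hPim σ
  · -- g8
    intro s hs
    exact (hd1 s hs).continuousAt.continuousWithinAt

end Pool.Agent.TH41.BL.PG4f
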