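import Mathlib
import Pool.Agent.TH41.BL.Stm4
import Pool.Agent.TH41.BL.LMA

/-! Project BL4: the primitive of the additional factor (helper811). -/

set_option autoImplicit false

open MeasureTheory Filter Topology

namespace Pool.Agent.TH41.BL.PH4f

open Pool.Agent.TH41.BL

theorem sinh_sq_le {x y : ℝ} (h : |x| ≤ |y|) : Real.sinh x ^ 2 ≤ Real.sinh y ^ 2 := by
  rw [sq_le_sq, Real.abs_sinh, Real.abs_sinh]
  exact Real.sinh_le_sinh.2 h

theorem DJ_open (m : ℝ) : IsOpen (DJ m) := by
  have h1 : IsOpen {s : ℂ | |s.re| < Real.pi / 2} :=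
    isOpen_lt (continuous_abs.comp Complex.continuous_re) continuous_const
  have h2 : IsOpen {s : ℂ | s.re ≠ 0} :=
    isOpen_ne_fun Complex.continuous_re continuous_const
  have h3 : IsOpen {s : ℂ | Real.sinh (2 * s.im) ^ 2 < m} := by
    refine isOpen_lt ?_ continuous_const
    exact (Real.continuous_sinh.comp (continuous_const.mul Complex.continuous_im)).pow 2
  exact h1.inter (h2.union h3)

theorem DJ_star {m : ℝ} (hm : 0 < m) : ∀ s ∈ DJ m, ∀ u : ℝ, u ∈ Set.Icc (0 : ℝ) 1 →
    (u : ℂ) * s ∈ DJ m := by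
  rintro s ⟨hs1, hs⟩ u ⟨hu0, hu1⟩
  have hre : ((u : ℂ) * s).re = u * s.re := by simp
  have him : ((u : ℂ) * s).im = u * s.im := by simp
  refine ⟨?_, ?_⟩
  · rw [hre, abs_mul, abs_of_nonneg hu0]
    have := mul_le_mul_of_nonneg_right hu1 (abs_nonneg s.re)
    linarith
  · rw [hre, him]
    rcases eq_or_lt_of_le hu0 with h0 | h0
    · right
      rw [← h0]
      simpa using hm
    · rcases hs with hs | hs
      · left
        exact mul_ne_zero h0.ne' hs
      · right
        have h1 : |2 * (u * s.im)| ≤ |2 * s.im| := by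
          rw [abs_mul, abs_mul 2 s.im, abs_mul, abs_of_nonneg hu0]
          have := mul_le_mul_of_nonneg_right hu1 (abs_nonneg s.im)
          have h2 : (0 : ℝ) ≤ |2| := abs_nonneg _
          nlinarith
        exact lt_of_le_of_lt (sinh_sq_le h1) hs

theorem ph (hi : S4_w) (hj : S4_ja) : S4_ph := by
  have _hi := hi
  intro m hm
  obtain ⟨j1, j2, j3, _, j5, j6⟩ := hj m hm
  refine ⟨?_, ?_, ?_, ?_, ?_, ?_⟩
  · intro s hs
    exact Pool.Agent.TH41.BL.LMAf.prim (DJ_open m) (DJ_star hm)
      (fun z hz => (j1 z hz).differentiableWithinAt) hs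
  · simp [PJ]
  · intro s hs
    unfold PJ
    rw [← intervalIntegral.intervalIntegral_conj]
    refine intervalIntegral.integral_congr fun u hu => ?_
    rw [Set.uIcc_of_le zero_le_one] at hu
    have h1 := j3 _ (DJ_star hm s hs u hu)
    rw [map_mul, Complex.conj_ofReal] at h1
    show (starRingEnd ℂ) s * JJ m (u * (starRingEnd ℂ) s) = (starRingEnd ℂ) (s * JJ m (u * s))
    rw [h1, map_mul]
  · intro s
    unfold PJ
    have h1 := intervalIntegral.norm_integral_le_of_norm_le_const (a := 0) (b := 1)
      (f := fun u : ℝ => s * JJ m (u * s)) (C := 4 * ‖s‖) (fun u _ => by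
        rw [norm_mul, mul_comm]
        exact mul_le_mul_of_nonneg_right (j2 _) (norm_nonneg s))
    simpa using h1
  · intro t ht
    have h1 : PJ m (t * Complex.I) = ∫ u in (0 : ℝ)..1, (t * Complex.I) *
        (((JJ m (((u * t : ℝ) : ℂ) * Complex.I)).re : ℝ) : ℂ) := by
      unfold PJ
      refine intervalIntegral.integral_congr fun u hu => ?_
      rw [Set.uIcc_of_le zero_le_one] at hu
      have h2 : (u : ℂ) * (t * Complex.I) = ((u * t : ℝ) : ℂ) * Complex.I := by
        push_cast
        ring
      show (t * Complex.I) * JJ m (u * (t * Complex.I)) = _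
      rw [h2]
      congr 1
      apply Complex.ext
      · simp
      · have h3 : Real.sinh (2 * (u * t)) ^ 2 < m := by
          refine lt_of_le_of_lt (sinh_sq_le ?_) ht
          rw [abs_mul, abs_mul 2 t, abs_mul, abs_of_nonneg hu.1]
          have := mul_le_mul_of_nonneg_right hu.2 (abs_nonneg t)
          have h2 : (0 : ℝ) ≤ |2| := abs_nonneg _
          nlinarith
        rw [(j5 (u * t) h3).1]
        simp
    rw [h1, intervalIntegral.integral_const_mul, intervalIntegral.integral_ofReal]
    simp
  · intro x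
    have h1 : PJ m x = ∫ u in (0 : ℝ)..1, (x : ℂ) * (((JJ m ((u * x : ℝ) : ℂ)).re : ℝ) : ℂ) := by
      unfold PJ
      refine intervalIntegral.integral_congr fun u hu => ?_
      show (x : ℂ) * JJ m (u * x) = _
      have h2 : (u : ℂ) * (x : ℂ) = ((u * x : ℝ) : ℂ) := by
        push_cast
        ring
      rw [h2]
      congr 1
      apply Complex.ext
      · simp
      · rw [j6 (u * x)]
        simp
    rw [h1, intervalIntegral.integral_const_mul, intervalIntegral.integral_ofReal]
    simp

end Pool.Agent.TH41.BL.PH4f
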