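import Mathlib
import Pool.Agent.TH41.BL.Stm4
import Pool.Agent.TH41.BL.RIM

set_option autoImplicit false

open MeasureTheory Filter Topology

namespace Pool.Agent.TH41.BL.RI4f

open Pool.Agent.TH41.BL

theorem right4 : S4_right := by
  intro T C κ hT hC hκ _ ε ε₂ hε hε₂
  have hD : 0 < C + ε + 1 := by positivity
  refine ⟨min κ (min 1 (ε₂ / (2 * (C + ε + 1)))), by positivity, ?_⟩
  intro c hc hc0
  have hcκ : c ≤ κ := hc0.trans (min_le_left _ _)
  have hc1 : c ≤ 1 := hc0.trans ((min_le_right _ _).trans (min_le_left _ _))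
  have hc2 : c ≤ ε₂ / (2 * (C + ε + 1)) := hc0.trans ((min_le_right _ _).trans (min_le_right _ _))
  have hc3 : C * c + ε * c ^ 2 + c ≤ ε₂ / 2 := by
    rw [le_div_iff₀ (by positivity)] at hc2
    nlinarith [mul_nonneg hε.le (mul_nonneg hc.le (sub_nonneg.2 hc1))]
  obtain ⟨N, hN⟩ := exists_nat_ge (2 * T / (Real.pi * c * ε₂))
  refine ⟨N + 1, ?_⟩
  intro n hn Q g γ b hq τ η hτ hη
  have hn0 : 0 < n := by omega
  have hnN : (2 * T / (Real.pi * c * ε₂)) ≤ (n : ℝ) := by
    refine hN.trans ?_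
    exact_mod_cast (by omega : N ≤ n)
  unfold vS
  rw [norm_div]
  have hpi := Real.pi_pos
  have h2pi : ‖(2 * (Real.pi : ℂ))‖ = 2 * Real.pi := by
    rw [norm_mul, Complex.norm_real, Real.norm_of_nonneg hpi.le]
    norm_num
  rw [h2pi]
  have hbd : ∀ t ∈ Set.uIoc (-T) T, ‖Q ((c : ℂ) + (t : ℂ) * Complex.I) *
      Kf n ε η ((c : ℂ) + ((t : ℂ) - (τ : ℂ)) * Complex.I)‖ ≤ Real.exp (n * (ε₂ / 2)) / c := by
    intro t ht
    rw [Set.uIoc_of_le (by linarith)] at ht
    have ht2 : |t| ≤ T := abs_le.2 ⟨ht.1.le, ht.2⟩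
    rw [norm_mul]
    have h1 := hq.m2 c t (by rw [abs_of_pos hc]; exact hcκ) ht2
    rw [abs_of_pos hc] at h1
    have h2 := RIMf.kf_le n ε η c (t - τ) hε hη hc
    rw [Complex.ofReal_sub] at h2
    calc ‖Q ((c : ℂ) + (t : ℂ) * Complex.I)‖ *
        ‖Kf n ε η ((c : ℂ) + ((t : ℂ) - (τ : ℂ)) * Complex.I)‖
        ≤ Real.exp (C * n * c) * (Real.exp (n * (ε * c ^ 2 + c)) / c) :=
          mul_le_mul h1 h2 (norm_nonneg _) (Real.exp_pos _).le
      _ = Real.exp (n * (C * c + ε * c ^ 2 + c)) / c := by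
          rw [mul_div_assoc', ← Real.exp_add]
          congr 2
          ring
      _ ≤ Real.exp (n * (ε₂ / 2)) / c := by
          apply div_le_div_of_nonneg_right _ hc.le
          apply Real.exp_le_exp.2
          exact mul_le_mul_of_nonneg_left hc3 (Nat.cast_nonneg n)
  have hint := intervalIntegral.norm_integral_le_of_norm_le_const hbd
  have habs : |T - -T| = 2 * T := by
    rw [abs_of_pos (by linarith)]
    ring
  rw [habs] at hint
  rw [div_le_iff₀ (by positivity)]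
  refine hint.trans ?_
  have hexp : Real.exp (ε₂ * n) = Real.exp (n * (ε₂ / 2)) * Real.exp (n * (ε₂ / 2)) := by
    rw [← Real.exp_add]
    congr 1
    ring
  rw [hexp]
  have h3 : T / (Real.pi * c) ≤ Real.exp (n * (ε₂ / 2)) := by
    have h4 : T / (Real.pi * c) ≤ n * (ε₂ / 2) := by
      rw [div_le_iff₀ (by positivity)] at hnN ⊢
      nlinarith
    have h5 := Real.add_one_le_exp ((n : ℝ) * (ε₂ / 2))
    linarith
  have h6 : Real.exp (n * (ε₂ / 2)) / c * (2 * T) =
      Real.exp (n * (ε₂ / 2)) * (T / (Real.pi * c)) * (2 * Real.pi) := by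
    field_simp
  rw [h6]
  apply mul_le_mul_of_nonneg_right _ (by positivity)
  exact mul_le_mul_of_nonneg_left h3 (Real.exp_pos _).le

end Pool.Agent.TH41.BL.RI4f
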