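import Mathlib
import Pool.Agent.TH41.BL.Stm4
import Pool.Agent.TH41.BL.GIA

/-!
Project BL4 (helper41, MP_0430e4_lc), piece THR4: the threshold.
-/

set_option autoImplicit false

open MeasureTheory Filter Topology

namespace Pool.Agent.TH41.BL.TH4f

open Pool.Agent.TH41.BL

lemma sq_ofReal {x : ℝ} (hx : 0 < x) : sq (x : ℂ) = ((√x : ℝ) : ℂ) := by
  unfold sq
  rw [← Complex.ofReal_log hx.le]
  rw [show ((Real.log x : ℝ) : ℂ) / 2 = ((Real.log x / 2 : ℝ) : ℂ) by push_cast; rfl]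
  rw [← Complex.ofReal_exp]
  congr 1
  rw [Real.sqrt_eq_rpow, Real.rpow_def_of_pos hx]
  congr 1
  ring

/-- the real integrand -/
noncomputable def fr (P y : ℝ) : ℝ := 2 * WN y / √(y - P)

lemma sin_sq (t : ℝ) : Complex.sin (2 * (t * Complex.I)) ^ 2 =
    ((-(Real.sinh (2 * t) ^ 2) : ℝ) : ℂ) := by
  rw [show (2 : ℂ) * (t * Complex.I) = ((2 * t : ℝ) : ℂ) * Complex.I by push_cast; ring,
    Complex.sin_mul_I, mul_pow, Complex.I_sq, ← Complex.ofReal_sinh]
  push_cast
  ring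

lemma integrand_eq {P y : ℝ} (hy : P < y) :
    (2 * WN y : ℂ) / sq (y + ((-P : ℝ) : ℂ)) = ((fr P y : ℝ) : ℂ) := by
  rw [show (y : ℂ) + ((-P : ℝ) : ℂ) = ((y - P : ℝ) : ℂ) by push_cast; ring,
    sq_ofReal (by linarith)]
  unfold fr
  push_cast
  rfl

lemma fr_integrable (hi : S4_w) {P : ℝ} (hP : 0 ≤ P) :
    IntegrableOn (fr P) (Set.Ioi P) := by
  have h1 := (hi.2 ((-P : ℝ) : ℂ)).1
  have h2 : IntegrableOn (fun y : ℝ => (2 * WN y : ℂ) / sq (y + ((-P : ℝ) : ℂ))) (Set.Ioi P) :=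
    h1.mono_set (Set.Ioi_subset_Ioi hP)
  have h3 : IntegrableOn (fun y : ℝ => ((fr P y : ℝ) : ℂ)) (Set.Ioi P) := by
    refine h2.congr_fun (fun y hy => integrand_eq hy) measurableSet_Ioi
  have h4 := h3.re
  exact h4

lemma JJ_re {m t : ℝ} (h : Real.sinh (2 * t) ^ 2 < m) :
    JJ m (t * Complex.I) =
      ((∫ y in Set.Ioi m, fr (Real.sinh (2 * t) ^ 2) y : ℝ) : ℂ) := by
  unfold JJ
  rw [sin_sq, ← integral_complex_ofReal]
  apply setIntegral_congr_fun measurableSet_Ioi
  intro y hy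
  exact integrand_eq (lt_trans h hy)

lemma fr_nonneg (hw : S3_w) {P y : ℝ} (hy : 0 ≤ y) : 0 ≤ fr P y := by
  have := (hw.2.1 y hy).1
  unfold fr
  positivity

lemma split (hi : S4_w) {P m : ℝ} (hP : 0 ≤ P) (hm : P < m) :
    ∫ y in Set.Ioi P, fr P y = (∫ y in P..m, fr P y) + ∫ y in Set.Ioi m, fr P y := by
  have h := fr_integrable hi hP
  rw [intervalIntegral.integral_of_le hm.le, ← setIntegral_union (Set.Ioc_disjoint_Ioi le_rfl)
    measurableSet_Ioi (h.mono_set (fun x hx => hx.1)) (h.mono_set (Set.Ioi_subset_Ioi hm.le)),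
    Set.Ioc_union_Ioi_eq_Ioi hm.le]

/-- the value of the total integral -/
lemma total (hab : S4_ab) (h2 : S_lz2) (t : ℝ) :
    ∫ y in Set.Ioi (Real.sinh (2 * t) ^ 2), fr (Real.sinh (2 * t) ^ 2) y =
      -(Lz (t * Complex.I)).re := by
  by_cases ht : t = 0
  · subst ht
    have hL : (Lz (((0 : ℝ) : ℂ) * Complex.I)).re = -(2 / Real.pi) := by
      have : Lz (((0 : ℝ) : ℂ) * Complex.I) = ((-(2 / Real.pi) : ℝ) : ℂ) := by
        unfold Lz
        simp
      rw [this, Complex.ofReal_re]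
    rw [hL, neg_neg]
    have h1 := hab.1
    rw [← h1]
    simp [fr]
  · have hL : (Lz (t * Complex.I)).re = -(8 * t / Real.pi / Real.sinh (4 * t)) := by
      rw [h2.2.2 t ht, Complex.sub_re, Complex.re_ofReal_mul, Complex.ofReal_re]
      simp
    rw [hL, neg_neg]
    rcases lt_or_gt_of_ne ht with h | h
    · have h1 := hab.2 (-t) (by linarith)
      have e1 : 2 * -t = -(2 * t) := by ring
      have e2 : 4 * -t = -(4 * t) := by ring
      rw [e1, e2, Real.sinh_neg, Real.sinh_neg, neg_sq] at h1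
      unfold fr
      rw [h1]
      have hs : Real.sinh (4 * t) ≠ 0 := by
        rw [Ne, Real.sinh_eq_zero]
        intro h0
        exact ht (by linarith)
      have hpi := Real.pi_ne_zero
      field_simp
    · have h1 := hab.2 t h
      unfold fr
      rw [h1]
      rw [div_div]

lemma cosh_eq (t : ℝ) : √(1 + Real.sinh (2 * t) ^ 2) = Real.cosh (2 * t) := by
  rw [show 1 + Real.sinh (2 * t) ^ 2 = Real.cosh (2 * t) ^ 2 by rw [Real.cosh_sq]; ring]
  exact Real.sqrt_sq (Real.cosh_pos _).le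

lemma part1 (hi : S4_w) (hab : S4_ab) (h2 : S_lz2) {m t : ℝ}
    (h : Real.sinh (2 * t) ^ 2 < m) :
    (Lz (t * Complex.I) + JJ m (t * Complex.I)).re * Real.cosh (2 * t) =
      -THR (Real.sinh (2 * t) ^ 2) m := by
  have h3 := total hab h2 t
  have h4 := split hi (sq_nonneg (Real.sinh (2 * t))) h
  rw [h3] at h4
  rw [Complex.add_re, JJ_re h, Complex.ofReal_re]
  unfold THR
  rw [cosh_eq]
  have e : (Lz (t * Complex.I)).re + ∫ y in Set.Ioi m, fr (Real.sinh (2 * t) ^ 2) y =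
      -∫ y in Real.sinh (2 * t) ^ 2..m, fr (Real.sinh (2 * t) ^ 2) y := by linarith
  rw [e]
  unfold fr
  ring

lemma part2 (hi : S4_w) (hab : S4_ab) (h2 : S_lz2) {ω m t : ℝ}
    (h : Real.sinh (2 * t) ^ 2 < m) :
    (GG ω (t * Complex.I) + JJ m (t * Complex.I)).re =
      (1 - 2 * ω - THR (Real.sinh (2 * t) ^ 2) m) / Real.cosh (2 * t) := by
  have h1 := part1 hi hab h2 h
  obtain ⟨hq1, hq2⟩ := GIAf.re_quot t
  have hc : (0 : ℝ) < Real.cosh (2 * t) := Real.cosh_pos _
  have hG : (GG ω (t * Complex.I)).re =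
      (1 - ω) * (1 / Real.cosh (2 * t)) - ω * (1 / Real.cosh (2 * t)) +
        (Lz (t * Complex.I)).re := by
    unfold GG
    rw [Complex.add_re, Complex.sub_re]
    have a1 : ((1 - (ω : ℂ)) * (BB (t * Complex.I) / AA (t * Complex.I))).re =
        (1 - ω) * (1 / Real.cosh (2 * t)) := by
      rw [← hq1, show (1 - (ω : ℂ)) = ((1 - ω : ℝ) : ℂ) by push_cast; rfl,
        Complex.re_ofReal_mul]
    have a2 : ((ω : ℂ) * (AA (t * Complex.I) / BB (t * Complex.I))).re =
        ω * (1 / Real.cosh (2 * t)) := by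
      rw [← hq2, Complex.re_ofReal_mul]
    rw [a1, a2]
  rw [Complex.add_re] at h1 ⊢
  rw [hG, eq_div_iff hc.ne']
  have e : (1 / Real.cosh (2 * t)) * Real.cosh (2 * t) = 1 := by field_simp
  linear_combination h1 + (1 - 2 * ω) * e

lemma THR_nonneg (hw : S3_w) {P m : ℝ} (hP : 0 ≤ P) (hm : P < m) : 0 ≤ THR P m := by
  unfold THR
  apply mul_nonneg (Real.sqrt_nonneg _)
  apply intervalIntegral.integral_nonneg hm.le
  intro y hy
  exact fr_nonneg (P := P) hw (hP.trans hy.1)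

lemma THR_le (hw : S3_w) (hi : S4_w) (hab : S4_ab) (hj : S4_ja) (h2 : S_lz2) {P m : ℝ}
    (hP : 0 ≤ P) (hm : P < m) : THR P m ≤ THR 0 m := by
  have hm0 : 0 < m := hP.trans_lt hm
  obtain ⟨t, ht0, ht⟩ : ∃ t : ℝ, 0 ≤ t ∧ Real.sinh (2 * t) ^ 2 = P := by
    refine ⟨Real.arsinh (√P) / 2, ?_, ?_⟩
    · have : 0 ≤ Real.arsinh (√P) := Real.arsinh_nonneg_iff.2 (Real.sqrt_nonneg _)
      linarith
    · rw [show 2 * (Real.arsinh (√P) / 2) = Real.arsinh (√P) by ring, Real.sinh_arsinh,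
        Real.sq_sqrt hP]
  have ht' : Real.sinh (2 * t) ^ 2 < m := by rw [ht]; exact hm
  have h1 := part1 hi hab h2 ht'
  have h0' : Real.sinh (2 * (0 : ℝ)) ^ 2 < m := by simpa using hm0
  have h0 := part1 hi hab h2 h0'
  have hz : Real.sinh (2 * (0 : ℝ)) ^ 2 = 0 := by simp
  rw [hz] at h0
  rw [ht] at h1
  have hc0 : Real.cosh (2 * (0 : ℝ)) = 1 := by simp
  rw [hc0, mul_one] at h0
  have hj5 := ((hj m hm0).2.2.2.2.1 t ht').2
  have hJ0 : 0 ≤ (JJ m (t * Complex.I)).re := by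
    rw [JJ_re ht', Complex.ofReal_re]
    apply setIntegral_nonneg measurableSet_Ioi
    intro y hy
    exact fr_nonneg hw (hm0.le.trans (le_of_lt hy))
  have hcosh : 1 ≤ Real.cosh (2 * t) := Real.one_le_cosh _
  -- the `Lz` part
  have hL0 : (Lz (((0 : ℝ) : ℂ) * Complex.I)).re = -(2 / Real.pi) := by
    have : Lz (((0 : ℝ) : ℂ) * Complex.I) = ((-(2 / Real.pi) : ℝ) : ℂ) := by
      unfold Lz
      simp
    rw [this, Complex.ofReal_re]
  have hLt : -(2 / Real.pi) ≤ (Lz (t * Complex.I)).re * Real.cosh (2 * t) := by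
    rcases eq_or_lt_of_le ht0 with h | h
    · rw [← h, hL0]
      simp
    · have hL : (Lz (t * Complex.I)).re = -(8 * t / Real.pi / Real.sinh (4 * t)) := by
        rw [h2.2.2 t h.ne', Complex.sub_re, Complex.re_ofReal_mul, Complex.ofReal_re]
        simp
      rw [hL]
      have hk := GIAf.key t h.ne'
      have hpi := Real.pi_pos
      have e1 : 8 * t / Real.pi / Real.sinh (4 * t) =
          (2 / Real.pi) * (4 * t / Real.sinh (4 * t)) := by
        field_simp
        ring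
      rw [e1]
      have hc : (0 : ℝ) < Real.cosh (2 * t) := Real.cosh_pos _
      have h5 : (4 * t / Real.sinh (4 * t)) * Real.cosh (2 * t) ≤ 1 := by
        calc (4 * t / Real.sinh (4 * t)) * Real.cosh (2 * t)
            ≤ (1 / Real.cosh (2 * t)) * Real.cosh (2 * t) :=
              mul_le_mul_of_nonneg_right hk hc.le
          _ = 1 := by field_simp
      have h6 : (2 / Real.pi) * ((4 * t / Real.sinh (4 * t)) * Real.cosh (2 * t)) ≤
          (2 / Real.pi) * 1 := mul_le_mul_of_nonneg_left h5 (by positivity)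
      linarith
  rw [Complex.add_re] at h1 h0
  rw [hL0] at h0
  have hJz : (JJ m (((0 : ℝ) : ℂ) * Complex.I)).re = (JJ m 0).re := by simp
  rw [hJz] at h0
  have h7 : (JJ m (t * Complex.I)).re ≤ (JJ m (t * Complex.I)).re * Real.cosh (2 * t) := by
    nlinarith
  nlinarith

lemma THR_bound (hw : S3_w) (hi : S4_w) {P M : ℝ} (hP : 0 ≤ P) (hM : P < M) :
    THR P M ≤ √(1 + P) * √(M - P) / 2 := by
  have h1 : ∫ y in P..M, 2 * WN y / √(y - P) ≤ ∫ y in P..M, 1 / 4 * (y - P) ^ (-(1 / 2) : ℝ) := by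
    apply intervalIntegral.integral_mono_on hM.le
    · have h := (fr_integrable hi hP).mono_set (fun x (hx : x ∈ Set.Ioc P M) => hx.1)
      rw [intervalIntegrable_iff_integrableOn_Ioc_of_le hM.le]
      exact h
    · have h := ((intervalIntegral.intervalIntegrable_rpow' (a := 0) (b := M - P)
        (r := -(1 / 2)) (by norm_num)).comp_sub_right P).const_mul (1 / 4)
      simpa using h
    · intro y hy
      rcases eq_or_lt_of_le hy.1 with h | h
      · rw [← h]
        simp [Real.zero_rpow]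
      · have hy0 : 0 < y - P := by linarith
        have hW := (hw.2.1 y (hP.trans hy.1)).2
        rw [Real.rpow_neg hy0.le, ← Real.sqrt_eq_rpow, div_eq_mul_inv]
        apply mul_le_mul_of_nonneg_right _ (by positivity)
        linarith
  have h2 : ∫ y in P..M, 1 / 4 * (y - P) ^ (-(1 / 2) : ℝ) = √(M - P) / 2 := by
    rw [intervalIntegral.integral_const_mul,
      intervalIntegral.integral_comp_sub_right (fun x : ℝ => x ^ (-(1 / 2) : ℝ)) P,
      sub_self, integral_rpow (Or.inl (by norm_num)), Real.sqrt_eq_rpow,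
      Real.zero_rpow (by norm_num)]
    norm_num
    ring
  unfold THR
  calc √(1 + P) * ∫ y in P..M, 2 * WN y / √(y - P) ≤ √(1 + P) * (√(M - P) / 2) :=
        mul_le_mul_of_nonneg_left (h1.trans h2.le) (Real.sqrt_nonneg _)
    _ = _ := by ring

lemma THR_cont (hi : S4_w) : ContinuousOn (fun m => THR 0 m) (Set.Ioi 0) := by
  have h1 := fr_integrable hi le_rfl
  have h2 : Integrable (fr 0) := by
    have e : fr 0 = Set.indicator (Set.Ioi 0) (fr 0) := by
      funext y
      by_cases hy : 0 < y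
      · rw [Set.indicator_of_mem (show y ∈ Set.Ioi (0 : ℝ) from hy)]
      · rw [Set.indicator_of_notMem (show y ∉ Set.Ioi (0 : ℝ) from hy)]
        unfold fr
        rw [Real.sqrt_eq_zero_of_nonpos (by linarith [not_lt.1 hy]), div_zero]
    rw [e, integrable_indicator_iff measurableSet_Ioi]
    exact h1
  have h3 : Continuous fun m : ℝ => ∫ y in (0 : ℝ)..m, fr 0 y :=
    intervalIntegral.continuous_primitive (fun a b => h2.intervalIntegrable) 0
  have h4 : (fun m => THR 0 m) = fun m : ℝ => √(1 + 0) * ∫ y in (0 : ℝ)..m, fr 0 y := rfl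
  rw [h4]
  exact (continuous_const.mul h3).continuousOn

theorem thr (hw : S3_w) (hi : S4_w) (hab : S4_ab) (hj : S4_ja) (h2 : S_lz2) : S4_thr := by
  refine ⟨fun m t _ h => part1 hi hab h2 h, fun ω m t _ h => part2 hi hab h2 h,
    fun P m hP hm => ⟨THR_nonneg hw hP hm, THR_le hw hi hab hj h2 hP hm⟩,
    fun P M hP hM => THR_bound hw hi hP hM, THR_cont hi⟩

end Pool.Agent.TH41.BL.TH4f
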