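import Mathlib
import Pool.Agent.TH41.BL.Stm4
import Pool.Agent.TH41.BL.TRM

/-!
Project BL4 (helper41, MP_0430e4_lc), piece TRANS: a segment test function in the transition region.
-/

set_option autoImplicit false

open MeasureTheory Filter Topology

namespace Pool.Agent.TH41.BL.TR4f

open Pool.Agent.TH41.BL

open Pool.Agent.TH41.LP.VVf

open Pool.Agent.TH41.BL.TRMf (SW pos_seg seg_bound re_div_two_pi)

/-- the kernel with the Gaussian factor -/
noncomputable def YG (Q : ℂ → ℂ) (n : ℕ) (ε : ℝ) (s : ℂ) : ℂ :=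
  Q s * Complex.exp (n * ε * s ^ 2)

/-- the modulus and the phase of `YG` -/
theorem YG_eq (Q : ℂ → ℂ) (n : ℕ) (ε σ t : ℝ) :
    YG Q n ε (σ + t * Complex.I) = Q (σ + t * Complex.I) *
      ((Real.exp (n * ε * (σ ^ 2 - t ^ 2)) : ℝ) : ℂ) *
      Complex.exp (((2 * n * ε * σ * t : ℝ) : ℂ) * Complex.I) := by
  unfold YG
  conv_rhs => rw [mul_assoc, Complex.ofReal_exp, ← Complex.exp_add]
  congr 2
  push_cast
  linear_combination ((n : ℂ) * ε * t ^ 2) * Complex.I_sq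

theorem YG_norm (Q : ℂ → ℂ) (n : ℕ) (ε σ t : ℝ) :
    ‖YG Q n ε (σ + t * Complex.I)‖ = ‖Q (σ + t * Complex.I)‖ *
      Real.exp (n * ε * (σ ^ 2 - t ^ 2)) := by
  rw [YG_eq, norm_mul, norm_mul, Complex.norm_exp_ofReal_mul_I, mul_one, Complex.norm_real,
    Real.norm_of_nonneg (Real.exp_pos _).le]

theorem YG_norm0 (Q : ℂ → ℂ) (n : ℕ) (ε σ : ℝ) :
    ‖YG Q n ε σ‖ = ‖Q σ‖ * Real.exp (n * ε * σ ^ 2) := by
  have := YG_norm Q n ε σ 0
  simpa using this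

/-- the upper bound on vertical lines -/
theorem YG_upper {Q : ℂ → ℂ} {g γ : ℝ → ℝ} {b T C κ ε : ℝ} {n : ℕ} (hQ : QBG Q g γ b T C κ n) (hn : 0 < n)
    (hε : 0 < ε) {σ : ℝ} (hσ : |σ| ≤ κ) (hC : C * |σ| ≤ ε / 50) (t : ℝ) (htT : |t| ≤ T) :
    ‖YG Q n ε (σ + t * Complex.I)‖ ≤
      101 / 100 * ‖YG Q n ε σ‖ * Real.exp (-(49 / 100) * t ^ 2 / (1 / (2 * n * ε))) := by
  have hn' : (0 : ℝ) < n := by exact_mod_cast hn
  rw [YG_norm, YG_norm0]
  have h3 := hQ.m3 σ t hσ htT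
  have e1 : -(49 / 100) * t ^ 2 / (1 / (2 * n * ε)) = -(49 / 50) * (n * ε * t ^ 2) := by
    field_simp
    ring
  rw [e1]
  have h4 : Real.exp (C * n * |σ| * t ^ 2) * Real.exp (n * ε * (σ ^ 2 - t ^ 2)) ≤
      Real.exp (n * ε * σ ^ 2) * Real.exp (-(49 / 50) * (n * ε * t ^ 2)) := by
    rw [← Real.exp_add, ← Real.exp_add, Real.exp_le_exp]
    have h5 : C * n * |σ| * t ^ 2 ≤ ε / 50 * (n * t ^ 2) := by
      calc C * n * |σ| * t ^ 2 = C * |σ| * (n * t ^ 2) := by ring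
        _ ≤ _ := mul_le_mul_of_nonneg_right hC (by positivity)
    nlinarith
  calc ‖Q (σ + t * Complex.I)‖ * Real.exp (n * ε * (σ ^ 2 - t ^ 2))
      ≤ ‖Q σ‖ * Real.exp (C * n * |σ| * t ^ 2) * Real.exp (n * ε * (σ ^ 2 - t ^ 2)) :=
        mul_le_mul_of_nonneg_right h3 (Real.exp_pos _).le
    _ = ‖Q σ‖ * (Real.exp (C * n * |σ| * t ^ 2) *
        Real.exp (n * ε * (σ ^ 2 - t ^ 2))) := by ring
    _ ≤ ‖Q σ‖ * (Real.exp (n * ε * σ ^ 2) * Real.exp (-(49 / 50) * (n * ε * t ^ 2))) :=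
        mul_le_mul_of_nonneg_left h4 (norm_nonneg _)
    _ ≤ 101 / 100 * (‖Q σ‖ * (Real.exp (n * ε * σ ^ 2) *
        Real.exp (-(49 / 50) * (n * ε * t ^ 2)))) := by
        have : 0 ≤ ‖Q σ‖ * (Real.exp (n * ε * σ ^ 2) *
          Real.exp (-(49 / 50) * (n * ε * t ^ 2))) := by positivity
        linarith
    _ = _ := by ring

/-- the lower bound and the phase on vertical lines -/
theorem YG_phase {Q : ℂ → ℂ} {g γ : ℝ → ℝ} {b T C κ ε : ℝ} {n : ℕ} (hQ : QBG Q g γ b T C κ n) (hn : 0 < n)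
    (hε : 0 < ε) {σ : ℝ} (hσ : |σ| ≤ κ) (hC : C * |σ| ≤ ε / 50) (t : ℝ) (htT : |t| ≤ T)
    (hθ : C * n * |t| ^ 3 ≤ 1 / 1000) :
    ∃ m θ : ℝ, |θ| ≤ 1 / 1000 ∧
      99 / 100 * Real.exp (-(51 / 100) * t ^ 2 / (1 / (2 * n * ε))) ≤ m ∧
      YG Q n ε (σ + t * Complex.I) = (‖YG Q n ε σ‖ : ℂ) * (m : ℂ) *
        Complex.exp (((n * (g σ + 2 * ε * σ) * t + θ : ℝ) : ℂ) *
          Complex.I) := by
  have hn' : (0 : ℝ) < n := by exact_mod_cast hn
  obtain ⟨θ, h1, h2⟩ := hQ.m5 σ t hσ htT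
  have hQ0 : 0 < ‖Q σ‖ := by
    rw [norm_pos_iff]
    intro h0
    have := (hQ.m1 σ hσ).2
    rw [h0] at this
    simp at this
  refine ⟨‖Q (σ + t * Complex.I)‖ * Real.exp (-(n * ε * t ^ 2)) / ‖Q σ‖, θ,
    h1.trans hθ, ?_, ?_⟩
  · have e1 : -(51 / 100) * t ^ 2 / (1 / (2 * n * ε)) = -(51 / 50) * (n * ε * t ^ 2) := by
      field_simp
      ring
    rw [e1, le_div_iff₀ hQ0]
    have h4 := hQ.m4 σ t hσ htT
    have h5 : Real.exp (-(51 / 50) * (n * ε * t ^ 2)) ≤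
        Real.exp (-(C * n * |σ| * t ^ 2)) * Real.exp (-(n * ε * t ^ 2)) := by
      rw [← Real.exp_add, Real.exp_le_exp]
      have h6 : C * n * |σ| * t ^ 2 ≤ ε / 50 * (n * t ^ 2) := by
        calc C * n * |σ| * t ^ 2 = C * |σ| * (n * t ^ 2) := by ring
          _ ≤ _ := mul_le_mul_of_nonneg_right hC (by positivity)
      nlinarith
    calc 99 / 100 * Real.exp (-(51 / 50) * (n * ε * t ^ 2)) * ‖Q σ‖
        ≤ Real.exp (-(51 / 50) * (n * ε * t ^ 2)) * ‖Q σ‖ := by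
          have : 0 ≤ Real.exp (-(51 / 50) * (n * ε * t ^ 2)) * ‖Q σ‖ := by positivity
          linarith
      _ ≤ Real.exp (-(C * n * |σ| * t ^ 2)) * Real.exp (-(n * ε * t ^ 2)) * ‖Q σ‖ :=
          mul_le_mul_of_nonneg_right h5 hQ0.le
      _ = ‖Q σ‖ * Real.exp (-(C * n * |σ| * t ^ 2)) *
          Real.exp (-(n * ε * t ^ 2)) := by ring
      _ ≤ _ := mul_le_mul_of_nonneg_right h4 (Real.exp_pos _).le
  · rw [YG_eq, YG_norm0]
    have hQ0' : ((‖Q σ‖ : ℝ) : ℂ) ≠ 0 := by exact_mod_cast hQ0.ne'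
    have e2 : Complex.exp (((n * (g σ + 2 * ε * σ) * t + θ : ℝ) : ℂ) *
        Complex.I) = Complex.exp (((n * g σ * t + θ : ℝ) : ℂ) *
          Complex.I) *
        Complex.exp (((2 * n * ε * σ * t : ℝ) : ℂ) * Complex.I) := by
      rw [← Complex.exp_add]
      congr 1
      push_cast
      ring
    have e3 : Real.exp (n * ε * (σ ^ 2 - t ^ 2)) = Real.exp (n * ε * σ ^ 2) *
        Real.exp (-(n * ε * t ^ 2)) := by
      rw [← Real.exp_add]
      congr 1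
      ring
    rw [e2, e3]
    conv_lhs => rw [h2]
    push_cast
    field_simp

/-! ### The contour -/

/-- the integrand without the pole -/
noncomputable def ZG (Q : ℂ → ℂ) (n : ℕ) (ε η : ℝ) (s : ℂ) : ℂ :=
  Q s * Complex.exp (n * ε * s ^ 2 - n * η * s)

theorem vS_eq (Q : ℂ → ℂ) (T : ℝ) (n : ℕ) (ε η c : ℝ) :
    vS Q T n ε η c 0 = SW (YG Q n ε) T c (n * η) / (2 * Real.pi) := by
  unfold vS SW
  congr 1
  apply intervalIntegral.integral_congr
  intro t _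
  simp only [Kf, YG, Complex.ofReal_zero, sub_zero]
  have e : Complex.exp (n * ε * ((c : ℂ) + t * Complex.I) ^ 2 -
      n * η * ((c : ℂ) + t * Complex.I)) =
      Complex.exp (n * ε * ((c : ℂ) + t * Complex.I) ^ 2) *
      Complex.exp (-((c : ℂ) + t * Complex.I) * ((n * η : ℝ) : ℂ)) := by
    rw [← Complex.exp_add]
    congr 1
    push_cast
    ring
  rw [e]
  ring

theorem ZG_eq (Q : ℂ → ℂ) (T : ℝ) (n : ℕ) (ε η c : ℝ) :
    (∫ t in (-T)..T, ZG Q n ε η (c + t * Complex.I) /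
      (c + (t - (0 : ℝ)) * Complex.I)) = SW (YG Q n ε) T c (n * η) := by
  unfold SW
  apply intervalIntegral.integral_congr
  intro t _
  simp only [ZG, YG, Complex.ofReal_zero, sub_zero]
  have e : Complex.exp (n * ε * ((c : ℂ) + t * Complex.I) ^ 2 -
      n * η * ((c : ℂ) + t * Complex.I)) =
      Complex.exp (n * ε * ((c : ℂ) + t * Complex.I) ^ 2) *
      Complex.exp (-((c : ℂ) + t * Complex.I) * ((n * η : ℝ) : ℂ)) := by
    rw [← Complex.exp_add]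
    congr 1
    push_cast
    ring
  rw [e]
  ring

theorem ZG_norm (Q : ℂ → ℂ) (n : ℕ) (ε η σ t : ℝ) :
    ‖ZG Q n ε η (σ + t * Complex.I)‖ = ‖Q (σ + t * Complex.I)‖ *
      Real.exp (n * ε * (σ ^ 2 - t ^ 2) - n * η * σ) := by
  unfold ZG
  rw [norm_mul, Complex.norm_exp]
  congr 2
  have e : (n : ℂ) * ε * ((σ : ℂ) + t * Complex.I) ^ 2 - n * η * ((σ : ℂ) + t * Complex.I) =
      ((n * ε * (σ ^ 2 - t ^ 2) - n * η * σ : ℝ) : ℂ) +
        ((2 * n * ε * σ * t - n * η * t : ℝ) : ℂ) * Complex.I := by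
    push_cast
    linear_combination ((n : ℂ) * ε * t ^ 2) * Complex.I_sq
  rw [e, Complex.add_re, Complex.ofReal_re, Complex.mul_I_re, Complex.ofReal_im]
  ring

/-- the shifts of the segment -/
theorem shift {Q : ℂ → ℂ} {g γ : ℝ → ℝ} {b T C κ ε η : ℝ} {n : ℕ} (h : S_rect) (hT : 0 < T) (hC : 0 < C)
    (hQ : QBG Q g γ b T C κ n) (hκ : 0 < κ) (hε : 0 < ε) (hη : |η| ≤ 1)
    (hsm : C * κ + ε * κ ^ 2 + κ ≤ ε * T ^ 2 / 4) :
    (∀ c c' : ℝ, 0 < c → c ≤ κ → 0 < c' → c' ≤ κ →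
      ‖SW (YG Q n ε) T c (n * η) - SW (YG Q n ε) T c' (n * η)‖ ≤
        4 * κ * Real.exp (-(n * ε * T ^ 2 / 2)) / T) ∧
    (∀ c c' : ℝ, -κ ≤ c → c < 0 → 0 < c' → c' ≤ κ →
      ‖SW (YG Q n ε) T c' (n * η) - SW (YG Q n ε) T c (n * η) - 2 * Real.pi‖ ≤
        4 * κ * Real.exp (-(n * ε * T ^ 2 / 2)) / T) := by
  have hn : (0 : ℝ) ≤ n := Nat.cast_nonneg n
  have hb : ∀ σ t : ℝ, -κ ≤ σ → σ ≤ κ → |t| = T →
      ‖ZG Q n ε η (σ + t * Complex.I)‖ ≤ Real.exp (-(n * ε * T ^ 2 / 2)) := by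
    intro σ t h1 h2 ht
    have hσ : |σ| ≤ κ := abs_le.2 ⟨h1, h2⟩
    have h3 := hQ.m2 σ t hσ ht.le
    rw [ZG_norm]
    refine (mul_le_mul_of_nonneg_right h3 (Real.exp_pos _).le).trans ?_
    rw [← Real.exp_add, Real.exp_le_exp]
    have ht2 : t ^ 2 = T ^ 2 := by rw [← sq_abs, ht]
    have h4 : σ ^ 2 ≤ κ ^ 2 := by
      rw [← sq_abs]; exact pow_le_pow_left₀ (abs_nonneg _) hσ 2
    have h5 : -(η * σ) ≤ κ := by
      have h6 : |η * σ| ≤ 1 * κ := by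
        rw [abs_mul]
        exact mul_le_mul hη hσ (abs_nonneg _) (by norm_num)
      have := neg_abs_le (η * σ)
      linarith
    rw [ht2]
    have h7 : C * |σ| ≤ C * κ := mul_le_mul_of_nonneg_left hσ hC.le
    have h8 : ε * σ ^ 2 ≤ ε * κ ^ 2 := mul_le_mul_of_nonneg_left h4 hε.le
    have h9 : 0 ≤ ε * T ^ 2 := by positivity
    have h10 : n * (C * |σ| + ε * (σ ^ 2 - T ^ 2) - η * σ) ≤ n * (-(ε * T ^ 2 / 2)) := by
      apply mul_le_mul_of_nonneg_left _ hn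
      linarith
    calc C * n * |σ| + (n * ε * (σ ^ 2 - T ^ 2) - n * η * σ) =
        n * (C * |σ| + ε * (σ ^ 2 - T ^ 2) - η * σ) := by ring
      _ ≤ n * (-(ε * T ^ 2 / 2)) := h10
      _ = _ := by ring
  obtain ⟨h1, h2⟩ := h (ZG Q n ε η) (-κ) κ T 0 (Real.exp (-(n * ε * T ^ 2 / 2)))
    (by linarith) hκ (by simpa using hT)
    (by
      intro s h1 h2 h3
      unfold ZG
      exact (hQ.m10 s (abs_le.2 ⟨h1, h2⟩) h3).mul (by fun_prop))
    (by
      intro σ h1 h2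
      refine ⟨hb σ T h1 h2 (abs_of_pos hT), hb σ (-T) h1 h2 ?_⟩
      rw [abs_neg, abs_of_pos hT])
  have e1 : 2 * (κ - -κ) * Real.exp (-(n * ε * T ^ 2 / 2)) / (T - |(0 : ℝ)|) =
      4 * κ * Real.exp (-(n * ε * T ^ 2 / 2)) / T := by
    rw [abs_zero, sub_zero]
    ring
  have e2 : ZG Q n ε η ((0 : ℝ) * Complex.I) = 1 := by
    unfold ZG
    simp [hQ.mz]
  constructor
  · intro c c' a1 a2 a3 a4
    have := h1 c c' a1 a2 a3 a4
    rw [ZG_eq, ZG_eq, e1] at this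
    exact this
  · intro c c' a1 a2 a3 a4
    have := h2 c c' a1 a2 a3 a4
    rw [ZG_eq, ZG_eq, e1, e2, mul_one] at this
    exact this

/-- the bound on the right -/
theorem caseB {Q : ℂ → ℂ} {g γ : ℝ → ℝ} {b T C κ0 ε η : ℝ} {n : ℕ} (hT : 0 < T) (hC : 0 < C)
    (hε : 0 < ε) (hn0 : 0 < n) (hQ : QBG Q g γ b T C κ0 n) {r : ℝ} (hr : 0 < r)
    (hrV : r ^ 2 = 1 / (2 * n * ε)) (hrκ : r ≤ κ0) (hrC : C * r ≤ ε / 50)
    (hr3 : r ≤ ε / (13500 * C))
    (hcase : n * (g (-(r / 5)) + 2 * ε * (-(r / 5))) < n * η) :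
    ‖SW (YG Q n ε) T (9 / 10 * r) (n * η)‖ ≤
      101 / 100 * (1823 / 1000) * (2533 / 1000) / (9 / 10) := by
  have hn' : (0 : ℝ) < n := by exact_mod_cast hn0
  have hV : (0 : ℝ) < 1 / (2 * n * ε) := by positivity
  have hsq : √(1 / (2 * n * ε)) = r := by rw [← hrV, Real.sqrt_sq hr.le]
  have hnr : n * ε * r ^ 2 = 1 / 2 := by
    rw [hrV]
    field_simp
  have hc0 : 0 < 9 / 10 * r := by positivity
  have hcabs : |9 / 10 * r| ≤ κ0 := by
    rw [abs_of_pos hc0]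
    linarith
  have hcC : C * |9 / 10 * r| ≤ ε / 50 := by
    rw [abs_of_pos hc0]
    nlinarith
  have h2 := seg_bound (Y := YG Q n ε) (c := 9 / 10 * r) (ρ := n * η) hT hc0.ne' hV
    (norm_nonneg (YG Q n ε (9 / 10 * r : ℝ)))
    (fun t ht => YG_upper hQ hn0 hε hcabs hcC t ht)
  rw [abs_of_pos hc0] at h2
  -- the size on the real axis
  have hq7 := hQ.m7 (9 / 10 * r) hcabs
  have hq8 := hQ.m8 (-(r / 5)) (by rw [abs_neg, abs_of_pos (by positivity)]; linarith)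
  have hg : b - η ≤ 2 / 5 * ε * r + C * r ^ 2 / 25 := by
    have h3 := (abs_le.mp hq8).1
    have h4 : g (-(r / 5)) + 2 * ε * (-(r / 5)) < η :=
      lt_of_mul_lt_mul_left hcase hn'.le
    nlinarith
  have hsmall : n * C * r ^ 3 ≤ 1 / 27000 := by
    have h3 : n * C * r ^ 3 = (n * ε * r ^ 2) * (C * r / ε) := by
      field_simp
    rw [h3, hnr]
    have h4 : C * r / ε ≤ 1 / 13500 := by
      rw [div_le_iff₀ hε]
      calc C * r ≤ C * (ε / (13500 * C)) := mul_le_mul_of_nonneg_left hr3 hC.le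
        _ = 1 / 13500 * ε := by field_simp
    linarith
  have h5 : ‖YG Q n ε (9 / 10 * r : ℝ)‖ * Real.exp (-(9 / 10 * r) * (n * η)) ≤
      Real.exp (3 / 5) := by
    rw [YG_norm0]
    calc ‖Q (9 / 10 * r : ℝ)‖ * Real.exp (n * ε * (9 / 10 * r) ^ 2) *
          Real.exp (-(9 / 10 * r) * (n * η))
        ≤ Real.exp (n * (b * (9 / 10 * r) + C * |9 / 10 * r| ^ 3)) *
          Real.exp (n * ε * (9 / 10 * r) ^ 2) * Real.exp (-(9 / 10 * r) * (n * η)) := by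
          gcongr
      _ ≤ Real.exp (3 / 5) := by
          rw [← Real.exp_add, ← Real.exp_add, Real.exp_le_exp, abs_of_pos hc0]
          have h6 : n * (9 / 10 * r) * (b - η) ≤
              n * (9 / 10 * r) * (2 / 5 * ε * r + C * r ^ 2 / 25) :=
            mul_le_mul_of_nonneg_left hg (by positivity)
          have h7 : n * (9 / 10 * r) * (2 / 5 * ε * r + C * r ^ 2 / 25) =
              36 / 100 * (n * ε * r ^ 2) + 36 / 1000 * (n * C * r ^ 3) := by ring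
          have h8 : n * (b * (9 / 10 * r) + C * (9 / 10 * r) ^ 3) +
              n * ε * (9 / 10 * r) ^ 2 + -(9 / 10 * r) * (n * η) =
              n * (9 / 10 * r) * (b - η) + 729 / 1000 * (n * C * r ^ 3) +
              81 / 100 * (n * ε * r ^ 2) := by ring
          rw [h8]
          rw [h7, hnr] at h6
          rw [hnr]
          linarith
  have h6 := h5.trans num_exp
  have h7 := num_pi_sqrt hV
  rw [hsq] at h7
  refine h2.trans ?_
  calc 101 / 100 * ‖YG Q n ε (9 / 10 * r : ℝ)‖ * Real.exp (-(9 / 10 * r) * (n * η)) /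
        (9 / 10 * r) * √(Real.pi / ((49 / 100) / (1 / (2 * n * ε))))
      = 101 / 100 * (‖YG Q n ε (9 / 10 * r : ℝ)‖ * Real.exp (-(9 / 10 * r) * (n * η))) /
        (9 / 10 * r) * √(Real.pi / ((49 / 100) / (1 / (2 * n * ε)))) := by ring
    _ ≤ 101 / 100 * (1823 / 1000) / (9 / 10 * r) * (2533 / 1000 * r) := by gcongr
    _ = 101 / 100 * (1823 / 1000) * (2533 / 1000) / (9 / 10) := by field_simp

/-- the bound on the left -/
theorem caseA {Q : ℂ → ℂ} {g γ : ℝ → ℝ} {b T C κ0 κ ε η : ℝ} {n : ℕ} (hC : 0 < C)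
    (hε : 0 < ε) (hn0 : 0 < n) (hQ : QBG Q g γ b T C κ0 n) (hκ : 0 < κ) (hκκ : κ ≤ κ0)
    (hκC : C * κ ≤ ε / 50) {r : ℝ} (hr : 0 < r)
    (hrV : r ^ 2 = 1 / (2 * n * ε)) (hrκ : r ≤ κ) (hrT : 3 * r ≤ T)
    (hr3 : r ≤ ε / (13500 * C)) (hb : b ≤ η + ε * κ)
    (hcase : n * η ≤ n * (g (-(r / 5)) + 2 * ε * (-(r / 5)))) :
    ∃ σ : ℝ, -κ ≤ σ ∧ σ < 0 ∧ (SW (YG Q n ε) T σ (n * η)).re ≤ 0 := by
  have hn' : (0 : ℝ) < n := by exact_mod_cast hn0
  have hV : (0 : ℝ) < 1 / (2 * n * ε) := by positivity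
  have hsq : √(1 / (2 * n * ε)) = r := by rw [← hrV, Real.sqrt_sq hr.le]
  have hnr : n * ε * r ^ 2 = 1 / 2 := by
    rw [hrV]
    field_simp
  -- the intermediate value theorem
  have hcont : ContinuousOn (fun σ : ℝ => n * (g σ + 2 * ε * σ))
      (Set.Icc (-κ) (-(r / 5))) := by
    have h9 : ContinuousOn (fun σ : ℝ => g σ)
        (Set.Icc (-κ) (-(r / 5))) :=
      hQ.m9.mono (Set.Icc_subset_Icc (by linarith) (by linarith))
    exact continuousOn_const.mul (h9.add (by fun_prop))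
  have hle : n * (g (-κ) + 2 * ε * (-κ)) ≤ n * η := by
    refine mul_le_mul_of_nonneg_left ?_ hn'.le
    have hq8 := (abs_le.mp (hQ.m8 (-κ) (by rw [abs_neg, abs_of_pos hκ]; exact hκκ))).2
    have h3 : C * (-κ) ^ 2 ≤ ε / 50 * κ := by
      calc C * (-κ) ^ 2 = C * κ * κ := by ring
        _ ≤ _ := mul_le_mul_of_nonneg_right hκC hκ.le
    nlinarith [mul_pos hε hκ]
  obtain ⟨σ, hσ, hσρ⟩ := intermediate_value_Icc (by linarith) hcont ⟨hle, hcase⟩
  have hσneg : σ < 0 := by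
    have := hσ.2
    linarith
  have hσabs : |σ| ≤ κ := by
    rw [abs_of_neg hσneg]
    linarith [hσ.1]
  have hσC : C * |σ| ≤ ε / 50 := (mul_le_mul_of_nonneg_left hσabs hC.le).trans hκC
  have hy0 : 0 < ‖YG Q n ε σ‖ := by
    rw [YG_norm0]
    refine mul_pos ?_ (Real.exp_pos _)
    rw [norm_pos_iff]
    intro h0
    have := (hQ.m1 σ (hσabs.trans hκκ)).2
    rw [h0] at this
    simp at this
  refine ⟨σ, hσ.1, hσneg, ?_⟩
  refine pos_seg (V := 1 / (2 * n * ε)) (y0 := ‖YG Q n ε σ‖) hσneg ?_ hV hy0 ?_ ?_ ?_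
  · rw [hsq]
    linarith [hσ.2]
  · rw [hsq]
    exact hrT
  · exact fun t ht => YG_upper hQ hn0 hε (hσabs.trans hκκ) hσC t ht
  · intro t ht
    rw [hsq] at ht
    have hθ : C * n * |t| ^ 3 ≤ 1 / 1000 := by
      have h10 : |t| ^ 3 ≤ (3 * r) ^ 3 := pow_le_pow_left₀ (abs_nonneg _) ht 3
      have h11 : C * n * (3 * r) ^ 3 = 27 * (n * ε * r ^ 2) * (C * r / ε) := by
        field_simp
        ring
      have h4 : C * r / ε ≤ 1 / 13500 := by
        rw [div_le_iff₀ hε]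
        calc C * r ≤ C * (ε / (13500 * C)) := mul_le_mul_of_nonneg_left hr3 hC.le
          _ = 1 / 13500 * ε := by field_simp
      calc C * n * |t| ^ 3 ≤ C * n * (3 * r) ^ 3 :=
            mul_le_mul_of_nonneg_left h10 (by positivity)
        _ = 27 * (n * ε * r ^ 2) * (C * r / ε) := h11
        _ ≤ 27 * (1 / 2) * (1 / 13500) := by
            rw [hnr]
            linarith
        _ = 1 / 1000 := by norm_num
    obtain ⟨m, θ, h1, h2, h3⟩ := YG_phase hQ hn0 hε (hσabs.trans hκκ) hσC t (ht.trans hrT) hθ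
    refine ⟨m, θ, h1, h2, ?_⟩
    rw [h3]
    simp only at hσρ
    rw [hσρ]

/-- the first two claims -/
theorem claims (h : S_rect) {T C κ0 : ℝ} (hT : 0 < T) (hC : 0 < C) (hκ0 : 0 < κ0) {ε : ℝ}
    (hε : 0 < ε) (hε1 : ε ≤ 1) : ∃ κ : ℝ, 0 < κ ∧ ∃ n₀ : ℕ, ∀ n : ℕ, n₀ ≤ n →
    20 ≤ n * ε * T ^ 2 / 4 ∧ ∀ (η : ℝ) (Q : ℂ → ℂ) (g γ : ℝ → ℝ) (b : ℝ), |η| ≤ 1 →
    QBG Q g γ b T C κ0 n → ∀ c : ℝ, 0 < c → c ≤ κ →
    (b ≤ η + ε * κ → (vS Q T n ε η c 0).re ≤ 1 + Real.exp (-(n * ε * T ^ 2 / 4))) ∧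
    (b ≤ η → (vS Q T n ε η c 0).re ≤ 5 / 6) ∧
    ‖SW (YG Q n ε) T c (n * η) - SW (YG Q n ε) T (-c) (n * η) - 2 * Real.pi‖ ≤
      Real.exp (-(n * ε * T ^ 2 / 4)) := by
  set κ := min (min κ0 (ε / (50 * C))) (min 1 (ε * T ^ 2 / (4 * (C + 2)))) with hκ
  have hκpos : 0 < κ := lt_min (lt_min hκ0 (by positivity)) (lt_min (by norm_num) (by positivity))
  have hκκ : κ ≤ κ0 := (min_le_left _ _).trans (min_le_left _ _)
  have hκC : C * κ ≤ ε / 50 := by
    calc C * κ ≤ C * (ε / (50 * C)) :=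
          mul_le_mul_of_nonneg_left ((min_le_left _ _).trans (min_le_right _ _)) hC.le
      _ = ε / 50 := by field_simp
  have hκ1 : κ ≤ 1 := (min_le_right _ _).trans (min_le_left _ _)
  have hsm : C * κ + ε * κ ^ 2 + κ ≤ ε * T ^ 2 / 4 := by
    have h1 : κ ≤ ε * T ^ 2 / (4 * (C + 2)) := (min_le_right _ _).trans (min_le_right _ _)
    rw [le_div_iff₀ (by positivity)] at h1
    have h2 : ε * κ ^ 2 ≤ κ := by
      have h3 : κ ^ 2 ≤ κ := by nlinarith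
      have h4 : ε * κ ^ 2 ≤ 1 * κ := mul_le_mul hε1 h3 (by positivity) (by norm_num)
      linarith
    linarith
  set r0 := min (min κ (ε / (13500 * C))) (T / 3) with hr0
  have hr0pos : 0 < r0 := lt_min (lt_min hκpos (by positivity)) (by positivity)
  refine ⟨κ, hκpos, ⌈1 / (2 * ε * r0 ^ 2)⌉₊ + ⌈80 / (ε * T ^ 2)⌉₊ +
    ⌈16 * κ / (ε * T ^ 3)⌉₊ + 1, ?_⟩
  intro n hn
  have hn0 : 0 < n := by omega
  have hn' : (0 : ℝ) < n := by exact_mod_cast hn0
  have hpi : (3.14 : ℝ) < Real.pi := Real.pi_gt_d2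
  have hpi0 : 0 < Real.pi := Real.pi_pos
  have hV : (0 : ℝ) < 1 / (2 * n * ε) := by positivity
  set r := √(1 / (2 * n * ε)) with hr
  have hrpos : 0 < r := Real.sqrt_pos.2 hV
  have hrV : r ^ 2 = 1 / (2 * n * ε) := Real.sq_sqrt hV.le
  have hrr : r ≤ r0 := by
    rw [hr, Real.sqrt_le_left hr0pos.le, div_le_iff₀ (by positivity)]
    have h1 : 1 / (2 * ε * r0 ^ 2) ≤ n := by
      refine (Nat.le_ceil _).trans ?_
      exact_mod_cast (show _ ≤ n by omega)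
    rw [div_le_iff₀ (by positivity)] at h1
    linarith
  have hrκ : r ≤ κ := hrr.trans ((min_le_left _ _).trans (min_le_left _ _))
  have hr3 : r ≤ ε / (13500 * C) := hrr.trans ((min_le_left _ _).trans (min_le_right _ _))
  have hrT : 3 * r ≤ T := by
    have := hrr.trans (min_le_right _ _)
    linarith
  have hrC : C * r ≤ ε / 50 := (mul_le_mul_of_nonneg_left hrκ hC.le).trans hκC
  -- the error
  obtain ⟨q, hq⟩ : ∃ q : ℝ, q = n * ε * T ^ 2 / 4 := ⟨_, rfl⟩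
  have hq20 : 20 ≤ q := by
    have h1 : 80 / (ε * T ^ 2) ≤ n := by
      refine (Nat.le_ceil _).trans ?_
      exact_mod_cast (show _ ≤ n by omega)
    rw [div_le_iff₀ (by positivity)] at h1
    rw [hq]
    linarith
  have hqκ : 4 * κ / T ≤ q := by
    have h1 : 16 * κ / (ε * T ^ 3) ≤ n := by
      refine (Nat.le_ceil _).trans ?_
      exact_mod_cast (show _ ≤ n by omega)
    rw [div_le_iff₀ (by positivity)] at h1
    rw [hq, div_le_iff₀ hT]
    linarith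
  have hexpq : q ≤ Real.exp q := by
    have := Real.add_one_le_exp q
    linarith
  have hE1 : 4 * κ * Real.exp (-(n * ε * T ^ 2 / 2)) / T ≤ Real.exp (-q) := by
    have e1 : -(n * ε * T ^ 2 / 2) = -q + -q := by rw [hq]; ring
    have e2 : 4 * κ * Real.exp (-(n * ε * T ^ 2 / 2)) / T =
        (4 * κ / T) * Real.exp (-q) * Real.exp (-q) := by
      rw [e1, Real.exp_add]
      ring
    rw [e2]
    have h1 : (4 * κ / T) * Real.exp (-q) ≤ 1 := by
      rw [Real.exp_neg, ← div_eq_mul_inv, div_le_one (Real.exp_pos _)]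
      linarith
    calc (4 * κ / T) * Real.exp (-q) * Real.exp (-q) ≤ 1 * Real.exp (-q) :=
          mul_le_mul_of_nonneg_right h1 (Real.exp_pos _).le
      _ = _ := one_mul _
  have hE2 : Real.exp (-q) ≤ 1 / 20 := by
    rw [Real.exp_neg, inv_le_comm₀ (Real.exp_pos _) (by norm_num)]
    norm_num
    linarith
  rw [← hq]
  refine ⟨hq20, ?_⟩
  intro η Q g γ b hη hQ c hc hcκ
  have hQκ : QBG Q g γ b T C κ n := by
    refine ⟨hQ.mz, hQ.m0, ?_, ?_, ?_, ?_, ?_, ?_, ?_, ?_, ?_, ?_, hQ.m11, hQ.m12⟩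
    · exact fun σ h1 => hQ.m1 σ (h1.trans hκκ)
    · exact fun σ t h1 h2 => hQ.m2 σ t (h1.trans hκκ) h2
    · exact fun σ t h1 h2 => hQ.m3 σ t (h1.trans hκκ) h2
    · exact fun σ t h1 h2 => hQ.m4 σ t (h1.trans hκκ) h2
    · exact fun σ t h1 h2 => hQ.m5 σ t (h1.trans hκκ) h2
    · exact fun σ t h1 h2 => hQ.m6 σ t (h1.trans hκκ) h2
    · exact fun σ h1 => hQ.m7 σ (h1.trans hκκ)
    · exact fun σ h1 => hQ.m8 σ (h1.trans hκκ)
    · exact hQ.m9.mono (Set.Icc_subset_Icc (by linarith) hκκ)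
    · exact fun s h1 h2 => hQ.m10 s (h1.trans hκκ) h2
  obtain ⟨hs1, hs2⟩ := shift h hT hC hQκ hκpos hε hη hsm
  rw [vS_eq, re_div_two_pi, ← and_assoc]
  refine ⟨?_, (hs2 (-c) c (by linarith) (by linarith) hc hcκ).trans hE1⟩
  rcases le_or_gt (n * η)
    (n * (g (-(r / 5)) + 2 * ε * (-(r / 5)))) with hcase | hcase
  · refine ⟨fun hbb => ?_, fun hbb => ?_⟩
    · obtain ⟨σ, h1, h2, h3⟩ := caseA hC hε hn0 hQ hκpos hκκ hκC hrpos hrV hrκ hrT hr3 hbb hcase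
      have h4 := hs2 σ c h1 h2 hc hcκ
      have h5 := (Complex.re_le_norm _).trans h4
      rw [Complex.sub_re, Complex.sub_re] at h5
      have h6 : (2 * (Real.pi : ℂ)).re = 2 * Real.pi := by
        have : (2 * (Real.pi : ℂ)) = ((2 * Real.pi : ℝ) : ℂ) := by push_cast; rfl
        rw [this, Complex.ofReal_re]
      rw [h6] at h5
      rw [div_le_iff₀ (by positivity)]
      have h7 := Real.exp_pos (-q)
      nlinarith
    · exfalso
      have h1 : η ≤ g (-(r / 5)) + 2 * ε * (-(r / 5)) :=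
        le_of_mul_le_mul_left hcase hn'
      have hq8 := (abs_le.mp (hQ.m8 (-(r / 5)) (by
        rw [abs_neg, abs_of_pos (by positivity)]; linarith))).2
      have h2 : C * (-(r / 5)) ^ 2 ≤ ε / 50 * r / 25 := by
        calc C * (-(r / 5)) ^ 2 = C * r * r / 25 := by ring
          _ ≤ ε / 50 * r / 25 := by gcongr
      nlinarith [mul_pos hε hrpos]
  · have h1 := caseB hT hC hε hn0 hQ hrpos hrV (hrκ.trans hκκ) hrC hr3 hcase
    have h2 := hs1 c (9 / 10 * r) hc hcκ (by positivity) (by linarith)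
    have h3 : (SW (YG Q n ε) T c (n * η)).re ≤ 5 / 6 * (2 * Real.pi) := by
      have h4 : ‖SW (YG Q n ε) T c (n * η)‖ ≤
          ‖SW (YG Q n ε) T c (n * η) - SW (YG Q n ε) T (9 / 10 * r) (n * η)‖ +
          ‖SW (YG Q n ε) T (9 / 10 * r) (n * η)‖ := by
        have := norm_add_le (SW (YG Q n ε) T c (n * η) -
          SW (YG Q n ε) T (9 / 10 * r) (n * η)) (SW (YG Q n ε) T (9 / 10 * r) (n * η))
        simpa using this
      refine (Complex.re_le_norm _).trans (h4.trans ?_)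
      have h5 : (101 / 100 * (1823 / 1000) * (2533 / 1000) / (9 / 10) : ℝ) + 1 / 20 ≤
          5 / 6 * (2 * 3.14) := by norm_num
      linarith
    have h6 : (SW (YG Q n ε) T c (n * η)).re / (2 * Real.pi) ≤ 5 / 6 := by
      rw [div_le_iff₀ (by positivity)]
      exact h3
    refine ⟨fun _ => ?_, fun _ => h6⟩
    have := Real.exp_pos (-q)
    linarith

/-! ### The reflection -/

theorem refl {Q : ℂ → ℂ} {g γ : ℝ → ℝ} {b T C κ : ℝ} {n : ℕ} (hQ : QBG Q g γ b T C κ n) :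
    QBG (fun s => Q (-s)) (fun x => -g (-x)) (fun t => -γ (-t)) (-b) T C κ n := by
  have e0 : ∀ σ : ℝ, (-(σ : ℂ)) = ((-σ : ℝ) : ℂ) := fun σ => by push_cast; rfl
  have e1 : ∀ σ t : ℝ, -((σ : ℂ) + t * Complex.I) = ((-σ : ℝ) : ℂ) + ((-t : ℝ) : ℂ) * Complex.I := by
    intro σ t
    push_cast
    ring
  have e2 : ∀ t : ℝ, -((t : ℂ) * Complex.I) = ((-t : ℝ) : ℂ) * Complex.I := by
    intro t
    push_cast
    ring
  constructor
  · simpa using hQ.mz
  · intro t ht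
    rw [e2]
    exact hQ.m0 (-t) (by rwa [abs_neg])
  · intro σ hσ
    rw [e0]
    exact hQ.m1 (-σ) (by rwa [abs_neg])
  · intro σ t hσ ht
    rw [e1]
    have := hQ.m2 (-σ) (-t) (by rwa [abs_neg]) (by rwa [abs_neg])
    rwa [abs_neg] at this
  · intro σ t hσ ht
    rw [e1, e0]
    have := hQ.m3 (-σ) (-t) (by rwa [abs_neg]) (by rwa [abs_neg])
    rwa [abs_neg, neg_sq] at this
  · intro σ t hσ ht
    rw [e1, e0]
    have := hQ.m4 (-σ) (-t) (by rwa [abs_neg]) (by rwa [abs_neg])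
    rwa [abs_neg, neg_sq] at this
  · intro σ t hσ ht
    rw [e1]
    obtain ⟨θ, h1, h2⟩ := hQ.m5 (-σ) (-t) (by rwa [abs_neg]) (by rwa [abs_neg])
    refine ⟨θ, by rwa [abs_neg] at h1, ?_⟩
    have e3 : (n * -g (-σ) * t + θ : ℝ) = n * g (-σ) * -t + θ := by ring
    rw [e3]
    exact h2
  · intro σ t hσ ht
    rw [e1]
    have := hQ.m6 (-σ) (-t) (by rwa [abs_neg]) (by rwa [abs_neg])
    have e3 : (n * (σ * -γ (-t) + C * σ ^ 2) : ℝ) = n * (-σ * γ (-t) + C * (-σ) ^ 2) := by ring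
    rw [e3]
    exact this
  · intro σ hσ
    rw [e0]
    have := hQ.m7 (-σ) (by rwa [abs_neg])
    rw [abs_neg] at this
    have e3 : (n * (-b * σ + C * |σ| ^ 3) : ℝ) = n * (b * -σ + C * |σ| ^ 3) := by ring
    rw [e3]
    exact this
  · intro σ hσ
    have := hQ.m8 (-σ) (by rwa [abs_neg])
    rw [neg_sq] at this
    have e3 : -g (-σ) - -b = -(g (-σ) - b) := by ring
    rw [e3, abs_neg]
    exact this
  · refine (hQ.m9.comp (f := fun x : ℝ => -x) continuous_neg.continuousOn ?_).neg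
    intro x hx
    exact ⟨by linarith [hx.2], by linarith [hx.1]⟩
  · intro s h1 h2
    have h3 := hQ.m10 (-s) (by rwa [Complex.neg_re, abs_neg]) (by rwa [Complex.neg_im, abs_neg])
    exact h3.comp s differentiableAt_id.neg
  · intro t t' ht ht'
    have := hQ.m11 (-t) (-t') (by rwa [abs_neg]) (by rwa [abs_neg])
    have e3 : -γ (-t) - -γ (-t') = -(γ (-t) - γ (-t')) := by ring
    have e4 : -t - -t' = -(t - t') := by ring
    rw [e4, abs_neg] at this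
    rw [e3, abs_neg]
    exact this
  · rw [neg_zero, hQ.m12]

theorem SW_refl (Q : ℂ → ℂ) (n : ℕ) (ε T c η : ℝ) :
    SW (YG Q n ε) T (-c) (n * η) = -SW (YG (fun s => Q (-s)) n ε) T c (n * -η) := by
  unfold SW
  rw [← intervalIntegral.integral_neg]
  have h1 := intervalIntegral.integral_comp_neg (a := -T) (b := T) (fun t : ℝ =>
    YG Q n ε (((-c : ℝ) : ℂ) + t * Complex.I) / (((-c : ℝ) : ℂ) + t * Complex.I) *
    Complex.exp (-(((-c : ℝ) : ℂ) + t * Complex.I) * ((n * η : ℝ) : ℂ)))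
  rw [neg_neg] at h1
  rw [← h1]
  apply intervalIntegral.integral_congr
  intro t _
  dsimp only
  have e1 : ((-c : ℝ) : ℂ) + ((-t : ℝ) : ℂ) * Complex.I = -((c : ℂ) + t * Complex.I) := by
    push_cast
    ring
  rw [e1]
  unfold YG
  rw [neg_sq, div_neg, neg_neg]
  have e2 : ((n * -η : ℝ) : ℂ) = -((n * η : ℝ) : ℂ) := by push_cast; ring
  rw [e2, neg_mul_neg]
  ring

theorem trans4 (h : S_rect) : S4_trans := by
  intro T C κ hT hC hκ _ ε η hε hε1 hη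
  obtain ⟨κ', hκ', n₀, hn⟩ := claims h hT hC hκ hε hε1
  refine ⟨ε * κ', by positivity, κ', hκ', fun c hc hcκ => ⟨ε * T ^ 2 / 8, by positivity, n₀,
    fun n hn0 Q g γ b hQ => ?_⟩⟩
  obtain ⟨hq20, hcl⟩ := hn n hn0
  obtain ⟨a1, a2, a3⟩ := hcl η Q g γ b hη hQ c hc hcκ
  obtain ⟨b1, -, -⟩ := hcl (-η) _ _ _ _ (by rwa [abs_neg]) (refl hQ) c hc hcκ
  obtain ⟨q, hq⟩ : ∃ q : ℝ, q = n * ε * T ^ 2 / 4 := ⟨_, rfl⟩
  rw [← hq] at hq20 a1 a3 b1
  have hEq : Real.exp (-(ε * T ^ 2 / 8) * n) = Real.exp (-(q / 2)) := by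
    congr 1
    rw [hq]
    ring
  rw [hEq]
  have hsm : 2 * Real.exp (-q) ≤ Real.exp (-(q / 2)) := by
    have e1 : Real.exp (-q) = Real.exp (-(q / 2)) * Real.exp (-(q / 2)) := by
      rw [← Real.exp_add]
      congr 1
      ring
    have e2 : Real.exp (-(q / 2)) ≤ 1 / 2 := by
      rw [Real.exp_neg, inv_le_comm₀ (Real.exp_pos _) (by norm_num)]
      have := Real.add_one_le_exp (q / 2)
      norm_num
      linarith
    rw [e1]
    have := Real.exp_pos (-(q / 2))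
    nlinarith
  have hpos := Real.exp_pos (-q)
  have hpi : (3.14 : ℝ) < Real.pi := Real.pi_gt_d2
  refine ⟨fun hb => (a1 hb).trans (by linarith), a2, fun hb => ?_⟩
  have h1 := b1 (by linarith)
  rw [vS_eq, re_div_two_pi] at h1 ⊢
  rw [SW_refl, sub_neg_eq_add] at a3
  set A := SW (YG Q n ε) T c (n * η) with hA
  set B := SW (YG (fun s => Q (-s)) n ε) T c (n * -η) with hB
  have h2 := (Complex.abs_re_le_norm _).trans a3
  have h6 : (2 * (Real.pi : ℂ)).re = 2 * Real.pi := by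
    have : (2 * (Real.pi : ℂ)) = ((2 * Real.pi : ℝ) : ℂ) := by push_cast; rfl
    rw [this, Complex.ofReal_re]
  rw [Complex.sub_re, Complex.add_re, h6] at h2
  have h3 := (abs_le.1 h2).1
  rw [div_le_iff₀ (by positivity)] at h1
  rw [le_div_iff₀ (by positivity)]
  nlinarith

end Pool.Agent.TH41.BL.TR4f
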