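import Mathlib
import Pool.Agent.TH41.BL.Stm4

set_option autoImplicit false

open MeasureTheory Filter Topology

namespace Pool.Agent.TH41.BL.VT4f

open Pool.Agent.TH41.BL

/-- four positive numbers have a positive lower bound -/
lemma ex4 (a b c d : ℝ) (ha : 0 < a) (hb : 0 < b) (hc : 0 < c) (hd : 0 < d) :
    ∃ e : ℝ, 0 < e ∧ e ≤ a ∧ e ≤ b ∧ e ≤ c ∧ e ≤ d :=
  ⟨min (min a b) (min c d), lt_min (lt_min ha hb) (lt_min hc hd),
    (min_le_left _ _).trans (min_le_left _ _), (min_le_left _ _).trans (min_le_right _ _),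
    (min_le_right _ _).trans (min_le_left _ _), (min_le_right _ _).trans (min_le_right _ _)⟩

theorem vt (hpg : S4_pg) (hqb : S4_qb) (hl : S4_left) (htr : S4_trans) (ho : S4_out) (ht : S4_thr) : S4_vt := by
  intro m hm ε η hε hε1 hη0 hη1
  obtain ⟨T, hT0, hTm⟩ : ∃ T : ℝ, 0 < T ∧ Real.sinh (2 * T) ^ 2 = m := by
    refine ⟨Real.arsinh (√m) / 2, ?_, ?_⟩
    · have : 0 < Real.arsinh (√m) := Real.arsinh_pos_iff.mpr (Real.sqrt_pos.mpr hm)
      linarith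
    · rw [show 2 * (Real.arsinh (√m) / 2) = Real.arsinh (√m) by ring, Real.sinh_arsinh,
        Real.sq_sqrt hm.le]
  have hηa : |η| ≤ 1 := by rw [abs_of_nonneg hη0]; exact hη1
  have hηn : |-η| ≤ 1 := by rw [abs_neg]; exact hηa
  obtain ⟨T', hT1, hT'0, hT'T, c1, hc1, h1⟩ :=
    ho m T hm hT0 hTm ε (T / 4) hε (by linarith) (by linarith)
  have hsm : Real.sinh (2 * T') ^ 2 < m := by
    rw [← hTm]
    have h2 : 0 < Real.sinh (2 * T') := Real.sinh_pos_iff.mpr (by linarith)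
    have h3 : Real.sinh (2 * T') < Real.sinh (2 * T) := Real.sinh_lt_sinh.mpr (by linarith)
    nlinarith
  obtain ⟨C₀, κ₀, hC₀, hκ₀, hκ₀', hP⟩ := hpg m T' hm hT'0 hsm
  obtain ⟨C, κ, hC, hκ, hκ', hQ⟩ := hqb (PJ m) (JJ m) T' C₀ κ₀ hT'0 hC₀ hκ₀ hκ₀' hP
  obtain ⟨Δ₁, hΔ₁, c2, hc2, h2⟩ := htr T' C κ hT'0 hC hκ hκ' ε η hε hε1 hηa
  obtain ⟨Δ₂, hΔ₂, c3, hc3, h3⟩ := htr T' C κ hT'0 hC hκ hκ' ε (-η) hε hε1 hηn
  obtain ⟨c4, hc4, h4⟩ := hl T' C κ hT'0 hC hκ hκ' ε (-η) Δ₂ T' hε hηn hΔ₂ hT'0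
  obtain ⟨c, hc, hcc1, hcc2, hcc3, hcc4⟩ := ex4 c1 c2 c3 c4 hc1 hc2 hc3 hc4
  obtain ⟨e1, he1, n1, h1'⟩ := h1 c hc hcc1
  obtain ⟨e2, he2, n2, h2'⟩ := h2 c hc hcc2
  obtain ⟨e3, he3, n3, h3'⟩ := h3 c hc hcc3
  obtain ⟨e4, he4, n4, h4'⟩ := h4 c hc hcc4
  obtain ⟨e, he, k1, k2, k3, k4⟩ := ex4 e1 e2 e3 e4 he1 he2 he3 he4
  obtain ⟨N, hN⟩ := exists_nat_ge (100 / e)
  refine ⟨Δ₁, hΔ₁, e / 2, by linarith, n1 + n2 + n3 + n4 + N + 1, ?_⟩
  intro n hn hQz w hw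
  have hn0 : 0 < n := by omega
  have hnR : (0 : ℝ) ≤ n := Nat.cast_nonneg n
  have hN' : 100 ≤ e * n := by
    have h5 : (N : ℝ) ≤ n := by exact_mod_cast (by omega : N ≤ n)
    have h6 : 100 / e ≤ n := hN.trans h5
    rw [div_le_iff₀ he] at h6
    linarith
  -- the errors
  obtain ⟨y, hy⟩ : ∃ y, y = Real.exp (-(e / 2) * n) := ⟨_, rfl⟩
  have hy0 : 0 < y := by rw [hy]; exact Real.exp_pos _
  have hy1 : y ≤ 1 / 50 := by
    rw [hy, neg_mul, Real.exp_neg, ← one_div]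
    refine one_div_le_one_div_of_le (by norm_num) ?_
    have := Real.add_one_le_exp (e / 2 * n)
    linarith
  have hx : Real.exp (-e * n) = y ^ 2 := by
    rw [hy, ← Real.exp_nat_mul]
    congr 1
    push_cast
    ring
  have herr : ∀ e' : ℝ, e ≤ e' → Real.exp (-e' * n) ≤ y ^ 2 := by
    intro e' he'
    rw [← hx]
    exact Real.exp_le_exp.mpr (by nlinarith)
  -- the exponent
  have hb : ∀ w : ℕ, w ≤ n → bb n w + (JJ m 0).re = 1 - 2 * (w : ℝ) / n - THR 0 m := by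
    intro w hw
    have h5 := (hQ n w hn0 hw).m12
    have h6 := ht.2.1 ((w : ℝ) / n) m 0 hm (by simpa using hm)
    beta_reduce at h5
    rw [← h5, h6]
    simp only [mul_zero, Real.sinh_zero, Real.cosh_zero, div_one]
    rw [show (0 : ℝ) ^ 2 = 0 by norm_num]
    ring
  obtain ⟨A, hA⟩ : ∃ A, A = vS (QJ m n w) T' n ε η c 0 := ⟨_, rfl⟩
  obtain ⟨B, hB⟩ : ∃ B, B = vS (QJ m n (n - w)) T' n ε (-η) c 0 := ⟨_, rfl⟩
  have hQw := hQ n w hn0 hw
  have hQw' := hQ n (n - w) hn0 (Nat.sub_le n w)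
  have hout := h1' n (by omega) (-1) hQz w hw η 0 hηa (by rw [abs_zero]; linarith)
  rw [neg_zero, ← hA, ← hB] at hout
  have hout' : (v4 m n w (-1) ε η 0).re - (A.re - B.re) ≤ y ^ 2 := by
    have h5 := (Complex.re_le_norm _).trans (hout.trans (herr e1 k1))
    have h6 : (v4 m n w (-1) ε η 0 - (A + ((-1 : ℝ) : ℂ) * B)).re =
        (v4 m n w (-1) ε η 0).re - (A.re - B.re) := by
      simp [sub_eq_add_neg]
    rw [h6] at h5
    exact h5
  have hBre : -(y ^ 2) ≤ B.re := by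
    by_cases h5 : -η - Δ₂ ≤ bb n (n - w) + (JJ m 0).re
    · have h6 := (h3' n (by omega) (QJ m n (n - w)) _ _ _ hQw').2.2 h5
      rw [← hB] at h6
      have h7 := herr e3 k3
      linarith
    · have h6 := (h4' n (by omega) (QJ m n (n - w)) _ _ _ hQw' 0 (by
        rw [abs_zero, sub_self])).2 (by
          rw [hQw'.m12]
          linarith)
      rw [← hB] at h6
      have h7 := herr e4 k4
      have h8 := neg_le_of_abs_le (Complex.abs_re_le_norm B)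
      linarith
  have hA1 := h2' n (by omega) (QJ m n w) _ _ _ hQw
  rw [← hA, hb w hw] at hA1
  have hyy : y ^ 2 ≤ 1 / 50 * y := by
    rw [pow_two]
    exact mul_le_mul_of_nonneg_right hy1 hy0.le
  constructor
  · intro h5
    have h6 := hA1.1 h5
    have h7 := herr e2 k2
    rw [← hy]
    linarith
  · intro h5
    have h6 := hA1.2.1 h5
    linarith

end Pool.Agent.TH41.BL.VT4f
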