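import Mathlib
import Pool.Agent.TH41.BL.Stm4

/-! Project BL4: the test function, near the left end and rough bound (job 3981, helper921). -/

set_option autoImplicit false

open MeasureTheory Filter Topology

namespace Pool.Agent.TH41.BL.VV4f

open Pool.Agent.TH41.BL

lemma sinh_lt {m T t : ℝ} (hTm : Real.sinh (2 * T) ^ 2 = m) (ht : |t| < T) :
    Real.sinh (2 * t) ^ 2 < m := by
  have h0 : 0 ≤ |t| := abs_nonneg t
  rw [← hTm, sq_lt_sq, Real.abs_sinh, Real.abs_sinh, Real.sinh_lt_sinh, abs_mul, abs_mul,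
    abs_of_pos (by norm_num : (0 : ℝ) < 2), abs_of_pos (by linarith : 0 < T)]
  linarith

lemma sinh_lt' {m T T' : ℝ} (hTm : Real.sinh (2 * T) ^ 2 = m) (h0 : 0 < T') (ht : T' < T) :
    Real.sinh (2 * T') ^ 2 < m :=
  sinh_lt hTm (by rwa [abs_of_pos h0])

/-- `3 exp (-e n) ≤ exp (-(e / 2) n)` for large `n` -/
lemma three_le {e : ℝ} (he : 0 < e) {n : ℕ} (hn : ⌈4 / e⌉₊ ≤ n) : 3 ≤ Real.exp (e / 2 * n) := by
  have h1 : 4 / e ≤ n := (Nat.le_ceil _).trans (by exact_mod_cast hn)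
  rw [div_le_iff₀ he] at h1
  have h2 := Real.add_one_le_exp (e / 2 * n)
  linarith

lemma three_exp {e : ℝ} (he : 0 < e) {n : ℕ} (hn : ⌈4 / e⌉₊ ≤ n) :
    3 * Real.exp (-e * n) ≤ Real.exp (-(e / 2) * n) := by
  have h1 := three_le he hn
  have h2 : Real.exp (-(e / 2) * n) = Real.exp (e / 2 * n) * Real.exp (-e * n) := by
    rw [← Real.exp_add]
    congr 1
    ring
  rw [h2]
  exact mul_le_mul_of_nonneg_right h1 (Real.exp_pos _).le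

lemma norm_sigma {m : ℝ} {n : ℕ} {σ : ℝ} (h : Qz4 m n σ) : ‖(σ : ℂ)‖ = 1 := by
  rcases h.1 with h | h <;> rw [h] <;> simp

/-- the bounds of the kernel -/
lemma kernels (hpg : S4_pg) (hqb : S4_qb) {m T' : ℝ} (hm : 0 < m) (hT' : 0 < T')
    (hlt : Real.sinh (2 * T') ^ 2 < m) :
    ∃ C κ : ℝ, 0 < C ∧ 0 < κ ∧ κ ≤ Real.pi / 16 ∧ ∀ n w : ℕ, 0 < n → w ≤ n →
      QBG (QJ m n w)
        (fun σ => (GG ((w : ℝ) / n) σ + JJ m σ).re)
        (fun t => (GG ((w : ℝ) / n) (t * Complex.I) + JJ m (t * Complex.I)).re)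
        (bb n w + (JJ m 0).re) T' C κ n := by
  obtain ⟨C0, κ0, h1, h2, h3, h4⟩ := hpg m T' hm hT' hlt
  exact hqb (PJ m) (JJ m) T' C0 κ0 hT' h1 h2 h3 h4

lemma cast_sub_div {n w : ℕ} (hn : 0 < n) (hw : w ≤ n) :
    1 - 2 * (((n - w : ℕ) : ℝ) / n) = -(1 - 2 * ((w : ℝ) / n)) := by
  have hn' : (n : ℝ) ≠ 0 := by exact_mod_cast hn.ne'
  rw [Nat.cast_sub hw]
  field_simp
  ring

theorem vl (hpg : S4_pg) (hqb : S4_qb) (hl : S4_left) (ho : S4_out) (ht : S4_thr) : S4_vl := by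
  intro m T hm hT hTm ε η Δ ϑ hε hη hη1 hΔ hϑ
  by_cases hTϑ : T - ϑ < 0
  · refine ⟨1, one_pos, 0, fun n _ σ _ w _ τ hτ => ?_⟩
    have := abs_nonneg τ
    linarith
  push Not at hTϑ
  have hϑ1 : 0 < ϑ / 2 := by positivity
  obtain ⟨T', hT1, hT0, hT2, c1, hc1, ho1⟩ :=
    ho m T hm hT hTm ε (ϑ / 2) hε hϑ1 (by linarith)
  have hlt := sinh_lt' hTm hT0 hT2
  obtain ⟨C, κ, hC, hκ, hκ', hQ⟩ := kernels hpg hqb hm hT0 hlt
  have hηa : |η| ≤ 1 := by rw [abs_of_nonneg hη]; exact hη1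
  have hηb : |-η| ≤ 1 := by rw [abs_neg]; exact hηa
  obtain ⟨c2, hc2, hl1⟩ := hl T' C κ hT0 hC hκ hκ' ε η Δ (ϑ / 2) hε hηa hΔ hϑ1
  obtain ⟨c3, hc3, hl2⟩ := hl T' C κ hT0 hC hκ hκ' ε (-η) Δ (ϑ / 2) hε hηb hΔ hϑ1
  obtain ⟨c, hc⟩ : ∃ c, c = min c1 (min c2 c3) := ⟨_, rfl⟩
  have hc0 : 0 < c := by rw [hc]; exact lt_min hc1 (lt_min hc2 hc3)
  have hcc1 : c ≤ c1 := by rw [hc]; exact min_le_left _ _
  have hcc2 : c ≤ c2 := by rw [hc]; exact (min_le_right _ _).trans (min_le_left _ _)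
  have hcc3 : c ≤ c3 := by rw [hc]; exact (min_le_right _ _).trans (min_le_right _ _)
  obtain ⟨e1, he1, n1, h1⟩ := ho1 c hc0 hcc1
  obtain ⟨e2, he2, n2, h2⟩ := hl1 c hc0 hcc2
  obtain ⟨e3, he3, n3, h3⟩ := hl2 c hc0 hcc3
  obtain ⟨e, he⟩ : ∃ e, e = min e1 (min e2 e3) := ⟨_, rfl⟩
  have he0 : 0 < e := by rw [he]; exact lt_min he1 (lt_min he2 he3)
  have hee1 : e ≤ e1 := by rw [he]; exact min_le_left _ _
  have hee2 : e ≤ e2 := by rw [he]; exact (min_le_right _ _).trans (min_le_left _ _)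
  have hee3 : e ≤ e3 := by rw [he]; exact (min_le_right _ _).trans (min_le_right _ _)
  refine ⟨e / 2, by positivity, n1 + n2 + n3 + ⌈4 / e⌉₊ + 1, fun n hn σ hσ w hw τ hτ hyp => ?_⟩
  have hn0 : 0 < n := by omega
  have hτ1 : |τ| ≤ T - 2 * (ϑ / 2) := by linarith
  have hτ2 : |τ| ≤ T' - ϑ / 2 := by linarith
  have hτT : |τ| < T := by linarith
  have hsτ := sinh_lt hTm hτT
  have hcosh : 0 < Real.cosh (2 * τ) := Real.cosh_pos _
  have hTHR := (ht.2.2.1 (Real.sinh (2 * τ) ^ 2) m (sq_nonneg _) hsτ).1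
  have hexp : ∀ a : ℝ, e ≤ a → Real.exp (-a * n) ≤ Real.exp (-e * n) := by
    intro a ha
    apply Real.exp_le_exp.2
    have : (0 : ℝ) ≤ n := Nat.cast_nonneg n
    nlinarith
  -- the three terms
  have t1 := (h1 n (by omega) σ hσ w hw η τ hηa hτ1).trans (hexp e1 hee1)
  have t2 : ‖vS (QJ m n w) T' n ε η c τ - QJ m n w (τ * Complex.I)‖ ≤ Real.exp (-e * n) := by
    refine ((h2 n (by omega) _ _ _ _ (hQ n w hn0 hw) τ hτ2).1 ?_).trans (hexp e2 hee2)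
    show η + Δ ≤ (GG ((w : ℝ) / n) (τ * Complex.I) + JJ m (τ * Complex.I)).re
    rw [ht.2.1 ((w : ℝ) / n) m τ hm hsτ, le_div_iff₀ hcosh]
    rw [mul_div_assoc] at hyp
    exact hyp
  have t3 : ‖vS (QJ m n (n - w)) T' n ε (-η) c (-τ)‖ ≤ Real.exp (-e * n) := by
    refine ((h3 n (by omega) _ _ _ _ (hQ n (n - w) hn0 (Nat.sub_le _ _)) (-τ)
      (by rw [abs_neg]; exact hτ2)).2 ?_).trans (hexp e3 hee3)
    show (GG (((n - w : ℕ) : ℝ) / n) ((-τ : ℝ) * Complex.I) + JJ m ((-τ : ℝ) * Complex.I)).re ≤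
      -η - Δ
    have hs' : Real.sinh (2 * -τ) ^ 2 = Real.sinh (2 * τ) ^ 2 := by
      rw [mul_neg, Real.sinh_neg, neg_sq]
    have hc' : Real.cosh (2 * -τ) = Real.cosh (2 * τ) := by
      rw [mul_neg, Real.cosh_neg]
    rw [ht.2.1 (((n - w : ℕ) : ℝ) / n) m (-τ) hm (by rw [hs']; exact hsτ), hs', hc',
      div_le_iff₀ hcosh, cast_sub_div hn0 hw]
    rw [mul_div_assoc] at hyp
    nlinarith
  have hσ1 := norm_sigma hσ
  have key : v4 m n w σ ε η τ - QJ m n w (τ * Complex.I) =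
      (v4 m n w σ ε η τ - (vS (QJ m n w) T' n ε η c τ +
        σ * vS (QJ m n (n - w)) T' n ε (-η) c (-τ))) +
      (vS (QJ m n w) T' n ε η c τ - QJ m n w (τ * Complex.I)) +
      σ * vS (QJ m n (n - w)) T' n ε (-η) c (-τ) := by ring
  rw [key]
  refine (norm_add₃_le).trans ?_
  rw [norm_mul, hσ1, one_mul]
  refine le_trans ?_ (three_exp he0 (n := n) (by omega))
  linarith

theorem vr (hpg : S4_pg) (hqb : S4_qb) (hr : S4_right) (ho : S4_out) : S4_vr := by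
  intro m T hm hT hTm ε ε₂ ϑ hε hε₂ hϑ
  by_cases hTϑ : T - ϑ < 0
  · refine ⟨0, fun n _ σ _ w _ η τ _ hτ => ?_⟩
    have := abs_nonneg τ
    linarith
  push Not at hTϑ
  have hϑ1 : 0 < ϑ / 2 := by positivity
  obtain ⟨T', hT1, hT0, hT2, c1, hc1, ho1⟩ :=
    ho m T hm hT hTm ε (ϑ / 2) hε hϑ1 (by linarith)
  have hlt := sinh_lt' hTm hT0 hT2
  obtain ⟨C, κ, hC, hκ, hκ', hQ⟩ := kernels hpg hqb hm hT0 hlt
  obtain ⟨c2, hc2, hr1⟩ := hr T' C κ hT0 hC hκ hκ' ε (ε₂ / 2) hε (by positivity)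
  obtain ⟨c, hc⟩ : ∃ c, c = min c1 c2 := ⟨_, rfl⟩
  have hc0 : 0 < c := by rw [hc]; exact lt_min hc1 hc2
  have hcc1 : c ≤ c1 := by rw [hc]; exact min_le_left _ _
  have hcc2 : c ≤ c2 := by rw [hc]; exact min_le_right _ _
  obtain ⟨e1, he1, n1, h1⟩ := ho1 c hc0 hcc1
  obtain ⟨n2, h2⟩ := hr1 c hc0 hcc2
  refine ⟨n1 + n2 + ⌈4 / ε₂⌉₊ + 1, fun n hn σ hσ w hw η τ hη hτ => ?_⟩
  have hn0 : 0 < n := by omega
  have hnR : (0 : ℝ) ≤ n := Nat.cast_nonneg n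
  have hτ1 : |τ| ≤ T - 2 * (ϑ / 2) := by linarith
  have hτ2 : |τ| ≤ T' := by linarith
  have t1 : ‖v4 m n w σ ε η τ - (vS (QJ m n w) T' n ε η c τ +
      σ * vS (QJ m n (n - w)) T' n ε (-η) c (-τ))‖ ≤ Real.exp (ε₂ / 2 * n) := by
    refine (h1 n (by omega) σ hσ w hw η τ hη hτ1).trans (Real.exp_le_exp.2 ?_)
    nlinarith
  have t2 := h2 n (by omega) _ _ _ _ (hQ n w hn0 hw) τ η hτ2 hη
  have t3 := h2 n (by omega) _ _ _ _ (hQ n (n - w) hn0 (Nat.sub_le _ _)) (-τ) (-η)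
    (by rw [abs_neg]; exact hτ2) (by rw [abs_neg]; exact hη)
  have hσ1 := norm_sigma hσ
  have key : v4 m n w σ ε η τ =
      (v4 m n w σ ε η τ - (vS (QJ m n w) T' n ε η c τ +
        σ * vS (QJ m n (n - w)) T' n ε (-η) c (-τ))) +
      vS (QJ m n w) T' n ε η c τ +
      σ * vS (QJ m n (n - w)) T' n ε (-η) c (-τ) := by ring
  rw [key]
  refine (norm_add₃_le).trans ?_
  rw [norm_mul, hσ1, one_mul]
  have h3 := three_le hε₂ (n := n) (by omega)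
  have h4 : Real.exp (ε₂ * n) = Real.exp (ε₂ / 2 * n) * Real.exp (ε₂ / 2 * n) := by
    rw [← Real.exp_add]
    congr 1
    ring
  have h5 := mul_le_mul_of_nonneg_right h3 (Real.exp_pos (ε₂ / 2 * n)).le
  rw [h4]
  linarith

end Pool.Agent.TH41.BL.VV4f
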