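import Mathlib
import Pool.Agent.TH41.BL.Stm4

/-!
# Integrability of the weight (BL4-W, helper147)
-/

set_option autoImplicit false

open MeasureTheory Filter Topology

namespace Pool.Agent.TH41.BL.W4Af

open Pool.Agent.TH41.BL

/-- the integral over a finite interval -/
lemma int_le (hw : S3_w) {N : ℝ} (hN : 0 < N) : ∫ y in (0 : ℝ)..N, WN y ≤ 1 / 2 := by
  obtain ⟨hc, hb, hI⟩ := hw
  have hS : 0 < 1 / N := by positivity
  have h1 := hI (1 / N) hS
  rw [one_div_one_div] at h1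
  have hpos : (0 : ℝ) < 1 / 2 * (1 - √((1 / N) / (1 + 1 / N))) := by
    have h2 : √((1 / N) / (1 + 1 / N)) < 1 := by
      rw [Real.sqrt_lt' one_pos, one_pow, div_lt_one (by positivity)]
      linarith
    linarith
  have hint : IntervalIntegrable (fun y => WN y / √(1 - y * (1 / N))) volume 0 N := by
    by_contra hcon
    rw [intervalIntegral.integral_undef hcon] at h1
    linarith
  have hW : IntervalIntegrable WN volume 0 N := by
    apply ContinuousOn.intervalIntegrable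
    rw [Set.uIcc_of_le hN.le]
    exact hc.mono fun x hx => hx.1
  calc ∫ y in (0 : ℝ)..N, WN y ≤ ∫ y in (0 : ℝ)..N, WN y / √(1 - y * (1 / N)) := by
        refine intervalIntegral.integral_mono_on_of_le_Ioo hN.le hW hint fun y hy => ?_
        have hy1 : y * (1 / N) < 1 := by
          rw [mul_one_div, div_lt_one hN]
          exact hy.2
        have hy0 : 0 ≤ y * (1 / N) := mul_nonneg hy.1.le hS.le
        have h3 : √(1 - y * (1 / N)) ≤ 1 := Real.sqrt_le_one.2 (by linarith)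
        have h4 : 0 < √(1 - y * (1 / N)) := Real.sqrt_pos.2 (by linarith)
        rw [le_div_iff₀ h4]
        have := (hb y hy.1.le).1
        nlinarith
    _ = 1 / 2 * (1 - √((1 / N) / (1 + 1 / N))) := h1
    _ ≤ 1 / 2 := by
        have := Real.sqrt_nonneg ((1 / N) / (1 + 1 / N))
        linarith

lemma W_int (hw : S3_w) : IntegrableOn WN (Set.Ioi 0) := by
  refine integrableOn_Ioi_of_intervalIntegral_norm_bounded (1 / 2) 0
    (b := fun n : ℕ => (n : ℝ) + 1) (l := atTop) ?_ ?_ ?_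
  · intro n
    have h1 : IntegrableOn WN (Set.Icc 0 ((n : ℝ) + 1)) :=
      (hw.1.mono fun x hx => hx.1).integrableOn_Icc
    exact h1.mono_set Set.Ioc_subset_Icc_self
  · exact tendsto_atTop_add_const_right _ _ tendsto_natCast_atTop_atTop
  · refine Eventually.of_forall fun n => ?_
    have hn : (0 : ℝ) < (n : ℝ) + 1 := by positivity
    refine le_trans (le_of_eq ?_) (int_le hw hn)
    apply intervalIntegral.integral_congr
    intro y hy
    rw [Set.uIcc_of_le hn.le] at hy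
    simp only [Real.norm_eq_abs]
    exact abs_of_pos (hw.2.1 y hy.1).1

lemma W_half (hw : S3_w) : ∫ y in Set.Ioi (0 : ℝ), WN y ≤ 1 / 2 := by
  have h := intervalIntegral_tendsto_integral_Ioi (0 : ℝ) (W_int hw)
    (tendsto_atTop_add_const_right atTop (1 : ℝ) tendsto_natCast_atTop_atTop)
  exact le_of_tendsto h (Eventually.of_forall fun n => int_le hw (by positivity))

/-- the singular weight -/
noncomputable def Fw (x : ℝ) : ℝ := if x ≤ 1 then x ^ (-(1 / 2) : ℝ) else 0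

lemma Fw_nonneg {x : ℝ} (hx : 0 ≤ x) : 0 ≤ Fw x := by
  unfold Fw
  split_ifs
  · exact Real.rpow_nonneg hx _
  · exact le_rfl

lemma int_Fw : ∫ x : ℝ, Fw |x| = 4 := by
  rw [integral_comp_abs]
  have h1 : ∫ x in Set.Ioi (0 : ℝ), Fw x = ∫ x in Set.Ioc (0 : ℝ) 1, x ^ (-(1 / 2) : ℝ) := by
    rw [← integral_indicator measurableSet_Ioi, ← integral_indicator measurableSet_Ioc]
    congr 1
    funext x
    unfold Fw
    by_cases hx0 : 0 < x
    · by_cases hx1 : x ≤ 1
      · rw [Set.indicator_of_mem (Set.mem_Ioi.2 hx0), Set.indicator_of_mem (Set.mem_Ioc.2 ⟨hx0, hx1⟩),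
          if_pos hx1]
      · rw [Set.indicator_of_mem (Set.mem_Ioi.2 hx0),
          Set.indicator_of_notMem (fun h => hx1 h.2), if_neg hx1]
    · rw [Set.indicator_of_notMem (s := Set.Ioi (0 : ℝ)) (fun h => hx0 h),
        Set.indicator_of_notMem (s := Set.Ioc (0 : ℝ) 1) (fun h => hx0 h.1)]
  rw [h1, ← intervalIntegral.integral_of_le zero_le_one, integral_rpow (Or.inl (by norm_num))]
  norm_num

lemma integrable_Fw : Integrable (fun x : ℝ => Fw |x|) := by
  by_contra h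
  have := integral_undef h
  rw [int_Fw] at this
  norm_num at this

lemma norm_sq {w : ℂ} (hw : w ≠ 0) : ‖sq w‖ = ‖w‖ ^ (1 / 2 : ℝ) := by
  unfold sq
  rw [Complex.norm_exp, Real.rpow_def_of_pos (norm_pos_iff.2 hw)]
  congr 1
  have : (Complex.log w / 2).re = (Complex.log w).re / 2 := by
    have h2 : (2 : ℂ) = ((2 : ℝ) : ℂ) := by norm_num
    rw [h2, Complex.div_ofReal_re]
  rw [this, Complex.log_re]
  ring

lemma meas_sq : Measurable sq := by
  unfold sq
  exact Complex.measurable_exp.comp (Complex.measurable_log.div_const 2)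

/-- the pointwise bound -/
lemma ptw (hw : S3_w) (z : ℂ) {y : ℝ} (hy : 0 < y) (hyz : y ≠ -z.re) :
    ‖(2 * WN y : ℂ) / sq (y + z)‖ ≤ 2 * WN y + 1 / 4 * Fw |y - (-z.re)| := by
  have hW := hw.2.1 y hy.le
  have h0 : 0 < |y - (-z.re)| := abs_pos.2 (sub_ne_zero.2 hyz)
  have h1 : |y - (-z.re)| ≤ ‖(y : ℂ) + z‖ := by
    have := Complex.abs_re_le_norm ((y : ℂ) + z)
    rw [Complex.add_re, Complex.ofReal_re] at this
    rwa [sub_neg_eq_add]
  have hne : (y : ℂ) + z ≠ 0 := by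
    intro h
    rw [h, norm_zero] at h1
    linarith
  rw [norm_div, norm_sq hne]
  have h2 : ‖(2 * WN y : ℂ)‖ = 2 * WN y := by
    rw [norm_mul, Complex.norm_real, Real.norm_eq_abs, abs_of_pos hW.1]
    norm_num
  rw [h2]
  have h3 : |y - (-z.re)| ^ (1 / 2 : ℝ) ≤ ‖(y : ℂ) + z‖ ^ (1 / 2 : ℝ) :=
    Real.rpow_le_rpow h0.le h1 (by norm_num)
  have h4 : 0 < |y - (-z.re)| ^ (1 / 2 : ℝ) := Real.rpow_pos_of_pos h0 _
  have h5 : 2 * WN y / ‖(y : ℂ) + z‖ ^ (1 / 2 : ℝ) ≤ 2 * WN y / |y - (-z.re)| ^ (1 / 2 : ℝ) :=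
    div_le_div_of_nonneg_left (by linarith [hW.1]) h4 h3
  refine h5.trans ?_
  by_cases h6 : |y - (-z.re)| ≤ 1
  · have h7 : Fw |y - (-z.re)| = (|y - (-z.re)| ^ (1 / 2 : ℝ))⁻¹ := by
      unfold Fw
      rw [if_pos h6, Real.rpow_neg h0.le]
    rw [h7, div_eq_mul_inv]
    have h8 : 0 < (|y - (-z.re)| ^ (1 / 2 : ℝ))⁻¹ := by positivity
    nlinarith [hW.1, hW.2]
  · have h7 : 1 ≤ |y - (-z.re)| ^ (1 / 2 : ℝ) :=
      Real.one_le_rpow (not_le.1 h6).le (by norm_num)
    have h8 := Fw_nonneg h0.le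
    have h9 : 2 * WN y / |y - (-z.re)| ^ (1 / 2 : ℝ) ≤ 2 * WN y :=
      div_le_self (by linarith [hW.1]) h7
    linarith

theorem w4 (hw : S3_w) : S4_w := by
  refine ⟨⟨W_int hw, W_half hw⟩, fun z => ?_⟩
  have hF1 : Integrable (fun y : ℝ => Fw |y - (-z.re)|) := integrable_Fw.comp_sub_right (-z.re)
  have hF2 : ∫ y : ℝ, Fw |y - (-z.re)| = 4 := by
    rw [← int_Fw]
    exact integral_sub_right_eq_self (fun x => Fw |x|) (-z.re)
  have hH : IntegrableOn (fun y : ℝ => 2 * WN y + 1 / 4 * Fw |y - (-z.re)|) (Set.Ioi 0) :=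
    ((W_int hw).const_mul 2).add (hF1.integrableOn.const_mul (1 / 4))
  have hae : ∀ᵐ y ∂(volume.restrict (Set.Ioi (0 : ℝ))),
      ‖(2 * WN y : ℂ) / sq (y + z)‖ ≤ 2 * WN y + 1 / 4 * Fw |y - (-z.re)| := by
    have h1 : ∀ᵐ y ∂(volume.restrict (Set.Ioi (0 : ℝ))), y ≠ -z.re :=
      ae_restrict_of_ae (Measure.ae_ne volume (-z.re))
    filter_upwards [h1, ae_restrict_mem measurableSet_Ioi] with y h2 h3
    exact ptw hw z h3 h2
  have hWm : AEMeasurable WN (volume.restrict (Set.Ioi (0 : ℝ))) :=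
    (W_int hw).aestronglyMeasurable.aemeasurable
  have hm : AEStronglyMeasurable (fun y : ℝ => (2 * WN y : ℂ) / sq (y + z))
      (volume.restrict (Set.Ioi (0 : ℝ))) := by
    apply AEMeasurable.aestronglyMeasurable
    refine AEMeasurable.div ?_ ?_
    · exact (Complex.measurable_ofReal.comp_aemeasurable hWm).const_mul 2
    · exact (meas_sq.comp ((Complex.measurable_ofReal).add_const z)).aemeasurable
  have hint : IntegrableOn (fun y : ℝ => (2 * WN y : ℂ) / sq (y + z)) (Set.Ioi 0) :=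
    Integrable.mono' hH hm hae
  refine ⟨hint, ?_⟩
  calc ∫ y in Set.Ioi (0 : ℝ), ‖(2 * WN y : ℂ) / sq (y + z)‖
      ≤ ∫ y in Set.Ioi (0 : ℝ), (2 * WN y + 1 / 4 * Fw |y - (-z.re)|) :=
        integral_mono_ae hint.norm hH hae
    _ = 2 * (∫ y in Set.Ioi (0 : ℝ), WN y) + 1 / 4 * ∫ y in Set.Ioi (0 : ℝ), Fw |y - (-z.re)| := by
        rw [integral_add ((W_int hw).const_mul 2) (hF1.integrableOn.const_mul (1 / 4)),
          integral_const_mul, integral_const_mul]
    _ ≤ 2 * (1 / 2) + 1 / 4 * 4 := by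
        have h1 := W_half hw
        have h2 : ∫ y in Set.Ioi (0 : ℝ), Fw |y - (-z.re)| ≤ 4 := by
          rw [← hF2]
          exact setIntegral_le_integral hF1 (Eventually.of_forall fun y => Fw_nonneg (abs_nonneg _))
        linarith
    _ ≤ 4 := by norm_num

end Pool.Agent.TH41.BL.W4Af
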