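import Mathlib
import Pool.Agent.TH41.BL.ASMB
import Pool.Agent.TH41.BL.ASMD
import Pool.Agent.TH41.BL.Stm4
import Pool.Agent.TH41.BL.W4A
import Pool.Agent.TH41.BL.ID4
import Pool.Agent.TH41.BL.JA4
import Pool.Agent.TH41.BL.PH4
import Pool.Agent.TH41.BL.PG4
import Pool.Agent.TH41.BL.TH4
import Pool.Agent.TH41.BL.LE4
import Pool.Agent.TH41.BL.RI4
import Pool.Agent.TH41.BL.TR4
import Pool.Agent.TH41.BL.LI4
import Pool.Agent.TH41.BL.NB4
import Pool.Agent.TH41.BL.CH4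
import Pool.Agent.TH41.BL.GL4
import Pool.Agent.TH41.BL.GY4
import Pool.Agent.TH41.BL.OU4
import Pool.Agent.TH41.BL.DB4
import Pool.Agent.TH41.BL.DU4
import Pool.Agent.TH41.BL.VV4
import Pool.Agent.TH41.BL.VT4
import Pool.Agent.TH41.BL.MU4
import Pool.Agent.TH41.BL.FP4
import Pool.Agent.TH41.BL.FA4
import Pool.Agent.TH41.BL.NE4
import Pool.Agent.TH41.BL.MA4
import Pool.Agent.TH41.BL.FI4
import Pool.Agent.TH41.BL.EL1
import Pool.Agent.TH41.BL.EL2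
import Pool.Agent.TH41.BL.EL3
import Pool.Agent.TH41.BL.EL5

set_option autoImplicit false

namespace Pool.Agent.TH41.BL

theorem k4_w : S4_w := W4Af.w4 k3_w
theorem k4_id : S4_id := ID4f.id4 k3_w k4_w LZAf.lz1 LZBf.lz2
theorem k4_ja : S4_ja := JA4f.ja k4_w k3_w
theorem k4_ph : S4_ph := PH4f.ph k4_w k4_ja
theorem k4_pg : S4_pg := PG4f.pg k4_ja k4_ph
theorem k4_left : S4_left := LE4f.left4 RECf.rect
theorem k4_right : S4_right := RI4f.right4
theorem k4_trans : S4_trans := TR4f.trans4 RECf.rect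
theorem k4_line : S4_line := LI4f.line h_lam h_qq k4_ja k4_ph
theorem k4_nb : S4_nb := NB4f.nb4 h_gd h_lam h_qq k4_ja k4_ph
theorem k4_chi : S4_chi := CH4f.chi k3_w k3_nb
theorem k4_db : S4_db := DB4f.db4 h_lam LZBf.lz2 k4_ja k4_ph
theorem k4_dual : S4_dual := DU4f.dual4 KRAf.kra k4_db k4_line
theorem k4_mu : S4_mu := MU4f.mu k3_w k4_w k4_ja
theorem k5_kd : S5_kd := EL1f.kd
theorem k5_wn : S5_wn := EL2f.wn
theorem k5_a : S5_a := EL3f.ela k3_w k5_kd k5_wn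
theorem k5_b : S5_b := EL3f.elb k3_w k5_kd k5_wn
theorem k5_c : S5_c := EL5f.elc k3_w k5_kd k5_wn

end Pool.Agent.TH41.BL
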