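import Mathlib
import Pool.Agent.TH41.BL.Stm4
import Pool.Agent.TH41.BL.QBM

/-!
Project BL4 (helper41), QB4: bounds of the general kernels near the imaginary axis
(job 3969, written by helper570 after job 3237 of helper914).
-/

set_option autoImplicit false

open MeasureTheory Filter Topology

namespace Pool.Agent.TH41.BL.QB4f

open Pool.Agent.TH41.BL

open Pool.Agent.TH41.BL.QBMf (mvt gdp_mono)

/-- monotonicity in the constant -/
lemma gdp_monoC {C C' κ : ℝ} (h : GDp C κ) (hC : C ≤ C') : GDp C' κ where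
  d1 := fun ω h0 h1 s hs => ⟨(h.d1 ω h0 h1 s hs).1, (h.d1 ω h0 h1 s hs).2.trans hC⟩
  d2 := fun ω h0 h1 σ t hs => (h.d2 ω h0 h1 σ t hs).trans
    (mul_le_mul_of_nonneg_right hC (abs_nonneg σ))
  d3 := fun ω h0 h1 σ t hs => (h.d3 ω h0 h1 σ t hs).trans
    (mul_le_mul_of_nonneg_right hC (sq_nonneg t))
  d4 := fun ω h0 h1 σ hs => (h.d4 ω h0 h1 σ hs).trans
    (mul_le_mul_of_nonneg_right hC (sq_nonneg σ))

lemma pgg_mono {P PD : ℂ → ℂ} {T C κ κ' : ℝ} (h : PGG P PD T C κ) (hk : κ' ≤ κ) :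
    PGG P PD T C κ' where
  g0 := fun σ t hs ht => h.g0 σ t (hs.trans hk) ht
  g1 := fun σ t hs ht => h.g1 σ t (hs.trans hk) ht
  g2 := fun σ t hs ht => h.g2 σ t (hs.trans hk) ht
  g3 := fun σ t hs ht => h.g3 σ t (hs.trans hk) ht
  g4 := fun σ hs => h.g4 σ (hs.trans hk)
  g5 := h.g5
  g6 := h.g6
  g7 := fun σ hs => h.g7 σ (hs.trans hk)
  g8 := h.g8.mono fun _ hs => ⟨hs.1.trans hk, hs.2⟩
  g9 := h.g9

section

variable {P PD : ℂ → ℂ} {T C κ : ℝ}

/-- horizontal derivative of the real part -/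
lemma der_re (h : PGG P PD T C κ) {x t : ℝ} (hx : |x| ≤ κ) (ht : |t| ≤ T) :
    HasDerivAt (fun x : ℝ => (P (x + t * Complex.I)).re) (PD (x + t * Complex.I)).re x := by
  have h1 := h.g0 x t hx ht
  have h2 : HasDerivAt (fun x : ℝ => ((x : ℂ) + t * Complex.I)) 1 x := by
    simpa using (Complex.ofRealCLM.hasDerivAt (x := x)).add_const ((t : ℂ) * Complex.I)
  have h3 := HasDerivAt.comp x h1 h2
  rw [mul_one] at h3
  exact Complex.reCLM.hasFDerivAt.comp_hasDerivAt x h3

/-- vertical derivative of the imaginary part -/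
lemma der_im (h : PGG P PD T C κ) {σ t : ℝ} (hσ : |σ| ≤ κ) (ht : |t| ≤ T) :
    HasDerivAt (fun t : ℝ => (P (σ + t * Complex.I)).im) (PD (σ + t * Complex.I)).re t := by
  have h1 := h.g0 σ t hσ ht
  have h3 := HasDerivAt.comp t h1 (QBBf.hasDerivAt_line σ t)
  have h4 := Complex.imCLM.hasFDerivAt.comp_hasDerivAt t h3
  have e : Complex.imCLM (PD (σ + t * Complex.I) * Complex.I) =
      (PD (σ + t * Complex.I)).re := by
    simp
  rw [e] at h4
  exact h4

lemma p_zero (h : PGG P PD T C κ) {t : ℝ} (ht : |t| ≤ T) :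
    (P (((0 : ℝ) : ℂ) + t * Complex.I)).re = 0 := by
  rw [Complex.ofReal_zero, zero_add]
  exact h.g6 t ht

lemma p2 (h : PGG P PD T C κ) {σ t : ℝ} (hσ : |σ| ≤ κ) (ht : |t| ≤ T) :
    |(P (σ + t * Complex.I)).re| ≤ C * |σ| := by
  have h1 := mvt (f := fun x : ℝ => (P (x + t * Complex.I)).re)
    (f' := fun x : ℝ => (PD (x + t * Complex.I)).re) (B := C) (σ := σ)
    (fun x hx => der_re h (hx.trans hσ) ht)
    (fun x hx => (Complex.abs_re_le_norm _).trans (h.g1 x t (hx.trans hσ) ht))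
  simp only [p_zero h ht, sub_zero] at h1
  exact h1

lemma p3 (h : PGG P PD T C κ) (hT : 0 < T) {σ t : ℝ} (hσ : |σ| ≤ κ) (ht : |t| ≤ T) :
    |(P (σ + t * Complex.I)).re - (P σ).re| ≤ C * |σ| * t ^ 2 := by
  have h0 : |(0 : ℝ)| ≤ T := by rw [abs_zero]; exact hT.le
  have h1 := mvt
    (f := fun x : ℝ => (P (x + t * Complex.I)).re - (P (x + ((0 : ℝ) : ℂ) * Complex.I)).re)
    (f' := fun x : ℝ => (PD (x + t * Complex.I)).re -
      (PD (x + ((0 : ℝ) : ℂ) * Complex.I)).re) (B := C * t ^ 2) (σ := σ)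
    (fun x hx => (der_re h (hx.trans hσ) ht).sub (der_re h (hx.trans hσ) h0))
    (fun x hx => by
      have := h.g3 x t (hx.trans hσ) ht
      simpa using this)
  simp only [p_zero h ht, p_zero h h0, sub_zero] at h1
  rw [Complex.ofReal_zero, zero_mul, add_zero] at h1
  calc _ ≤ C * t ^ 2 * |σ| := h1
    _ = _ := by ring

lemma p5 (h : PGG P PD T C κ) (hC : 0 < C) {σ t : ℝ} (hσ : |σ| ≤ κ) (ht : |t| ≤ T) :
    |(P (σ + t * Complex.I)).im - (PD σ).re * t| ≤ C * |t| ^ 3 := by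
  have h1 := mvt
    (f := fun u : ℝ => (P (σ + u * Complex.I)).im - (PD σ).re * u)
    (f' := fun u : ℝ => (PD (σ + u * Complex.I)).re - (PD σ).re) (B := C * t ^ 2) (σ := t)
    (fun u hu => by
      have e := (der_im h hσ (hu.trans ht)).sub ((hasDerivAt_id u).const_mul (PD σ).re)
      rw [mul_one] at e
      exact e)
    (fun u hu => by
      refine (h.g3 σ u hσ (hu.trans ht)).trans ?_
      exact mul_le_mul_of_nonneg_left (sq_le_sq.2 hu) hC.le)
  simp only [Complex.ofReal_zero, zero_mul, add_zero, mul_zero, sub_zero, h.g7 σ hσ] at h1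
  calc _ ≤ C * t ^ 2 * |t| := h1
    _ = _ := by rw [← sq_abs t]; ring

lemma p6 (h : PGG P PD T C κ) (hC : 0 < C) {σ t : ℝ} (hσ : |σ| ≤ κ) (ht : |t| ≤ T) :
    |(P (σ + t * Complex.I)).re - (PD (t * Complex.I)).re * σ| ≤ C * σ ^ 2 := by
  have h1 := mvt
    (f := fun x : ℝ => (P (x + t * Complex.I)).re - (PD (t * Complex.I)).re * x)
    (f' := fun x : ℝ => (PD (x + t * Complex.I)).re - (PD (t * Complex.I)).re)
    (B := C * |σ|) (σ := σ)
    (fun x hx => by
      have e := (der_re h (hx.trans hσ) ht).sub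
        ((hasDerivAt_id x).const_mul (PD (t * Complex.I)).re)
      rw [mul_one] at e
      exact e)
    (fun x hx => by
      refine (h.g2 x t (hx.trans hσ) ht).trans ?_
      exact mul_le_mul_of_nonneg_left hx hC.le)
  simp only [p_zero h ht, mul_zero, sub_zero] at h1
  calc _ ≤ C * |σ| * |σ| := h1
    _ = _ := by rw [← sq_abs σ]; ring

lemma p7 (h : PGG P PD T C κ) (hC : 0 < C) (hT : 0 < T) {σ : ℝ} (hσ : |σ| ≤ κ) :
    |(P σ).re - (PD 0).re * σ| ≤ C * |σ| ^ 3 := by
  have h0 : |(0 : ℝ)| ≤ T := by rw [abs_zero]; exact hT.le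
  have h1 := mvt
    (f := fun x : ℝ => (P (x + ((0 : ℝ) : ℂ) * Complex.I)).re - (PD 0).re * x)
    (f' := fun x : ℝ => (PD (x + ((0 : ℝ) : ℂ) * Complex.I)).re - (PD 0).re)
    (B := C * σ ^ 2) (σ := σ)
    (fun x hx => by
      have e := (der_re h (hx.trans hσ) h0).sub ((hasDerivAt_id x).const_mul (PD 0).re)
      rw [mul_one] at e
      exact e)
    (fun x hx => by
      have := h.g4 x (hx.trans hσ)
      rw [Complex.ofReal_zero, zero_mul, add_zero]
      exact this.trans (mul_le_mul_of_nonneg_left (sq_le_sq.2 hx) hC.le))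
  have e0 := p_zero h h0
  simp only [e0, mul_zero, sub_zero] at h1
  rw [Complex.ofReal_zero, zero_mul, add_zero] at h1
  calc _ ≤ C * σ ^ 2 * |σ| := h1
    _ = _ := by rw [← sq_abs σ]; ring

end

/-- the modulus of the kernel on horizontal lines -/
lemma qq6 (C κ : ℝ) (hC : 0 < C) (hκ : 0 < κ) (hκ' : κ ≤ Real.pi / 16) (hg : GDp C κ)
    (hq : S_qq) (n w : ℕ) (hn : 0 < n) (hw : w ≤ n) (σ t : ℝ) (hσ : |σ| ≤ κ) :
    ‖QQ n w (σ + t * Complex.I)‖ ≤
      Real.exp (n * (σ * (GG ((w : ℝ) / n) (t * Complex.I)).re + C * σ ^ 2)) := by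
  have hn' : (0 : ℝ) < n := by exact_mod_cast hn
  have hω0 : (0 : ℝ) ≤ (w : ℝ) / n := by positivity
  have hω1 : (w : ℝ) / n ≤ 1 := by
    rw [div_le_one hn']; exact_mod_cast hw
  obtain ⟨g, hgc, hgx, hgn⟩ := QBAf.modulus C κ hκ hκ' hg hq n w hn hw t
  rw [hgn σ hσ]
  apply Real.exp_le_exp.mpr
  apply mul_le_mul_of_nonneg_left _ hn'.le
  have h := intervalIntegral.norm_integral_le_of_norm_le_const (a := (0 : ℝ)) (b := σ)
    (C := C * |σ|) (f := fun x => g x - (GG ((w : ℝ) / n) (t * Complex.I)).re) (by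
      intro x hx
      obtain ⟨h1, h2⟩ := QBAf.mem_abs hσ hx
      rw [hgx x h2, Real.norm_eq_abs]
      refine (hg.d2 _ hω0 hω1 x t h2).trans ?_
      exact mul_le_mul_of_nonneg_left h1 hC.le)
  rw [intervalIntegral.integral_sub (hgc.intervalIntegrable _ _) (by simp),
    intervalIntegral.integral_const, smul_eq_mul, Real.norm_eq_abs, sub_zero] at h
  have h' := (le_abs_self _).trans h
  have e : C * |σ| * |σ| = C * σ ^ 2 := by rw [← sq_abs σ]; ring
  rw [e] at h'
  linarith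

/-- the Cauchy estimate on the imaginary axis -/
lemma gg_lip (C κ : ℝ) (hκ : 0 < κ) (hg : GDp C κ) (ω : ℝ) (h0 : 0 ≤ ω) (h1 : ω ≤ 1)
    (t t' : ℝ) :
    |(GG ω (t * Complex.I)).re - (GG ω (t' * Complex.I)).re| ≤ C / κ * |t - t'| := by
  have hball : ∀ (u : ℝ) (z : ℂ), z ∈ Metric.closedBall ((u : ℂ) * Complex.I) κ →
      |z.re| ≤ κ := by
    intro u z hz
    have h2 : ‖z - (u : ℂ) * Complex.I‖ ≤ κ := by
      rw [← dist_eq_norm]; exact hz
    have h3 := (Complex.abs_re_le_norm (z - (u : ℂ) * Complex.I)).trans h2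
    simpa using h3
  have hder : ∀ u : ℝ, ‖deriv (GG ω) ((u : ℂ) * Complex.I)‖ ≤ C / κ := by
    intro u
    refine Complex.norm_deriv_le_of_forall_mem_sphere_norm_le hκ ?_ ?_
    · apply DifferentiableOn.diffContOnCl
      rw [closure_ball _ hκ.ne']
      intro z hz
      exact (hg.d1 ω h0 h1 z (hball u z hz)).1.differentiableWithinAt
    · intro z hz
      exact (hg.d1 ω h0 h1 z (hball u z (Metric.sphere_subset_closedBall hz))).2
  have hline : ∀ u : ℝ, HasDerivAt (fun u : ℝ => (GG ω ((u : ℂ) * Complex.I)).re)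
      (deriv (GG ω) ((u : ℂ) * Complex.I) * Complex.I).re u := by
    intro u
    have h2 : DifferentiableAt ℂ (GG ω) ((u : ℂ) * Complex.I) :=
      (hg.d1 ω h0 h1 _ (by simpa using hκ.le)).1
    have h3 : HasDerivAt (fun u : ℝ => (u : ℂ) * Complex.I) Complex.I u := by
      have h4 : HasDerivAt (fun u : ℝ => (u : ℂ)) 1 u := Complex.ofRealCLM.hasDerivAt
      simpa using h4.mul_const Complex.I
    have h5 := HasDerivAt.comp u h2.hasDerivAt h3
    exact Complex.reCLM.hasFDerivAt.comp_hasDerivAt u h5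
  have key := Convex.norm_image_sub_le_of_norm_hasDerivWithin_le
    (f := fun u : ℝ => (GG ω ((u : ℂ) * Complex.I)).re)
    (f' := fun u : ℝ => (deriv (GG ω) ((u : ℂ) * Complex.I) * Complex.I).re)
    (s := Set.univ) (x := t') (y := t) (C := C / κ)
    (fun u _ => (hline u).hasDerivWithinAt)
    (fun u _ => by
      rw [Real.norm_eq_abs]
      refine (Complex.abs_re_le_norm _).trans ?_
      rw [norm_mul, Complex.norm_I, mul_one]
      exact hder u)
    convex_univ (Set.mem_univ _) (Set.mem_univ _)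
  rw [Real.norm_eq_abs, Real.norm_eq_abs] at key
  exact key

lemma norm_Q (P : ℂ → ℂ) (n w : ℕ) (s : ℂ) :
    ‖QQ n w s * Complex.exp (n * P s)‖ = ‖QQ n w s‖ * Real.exp (n * (P s).re) := by
  rw [norm_mul, Complex.norm_exp]
  congr 2
  simp

theorem qb (hgd : S_gd) (hgi : S_gi) (hqq : S_qq) : S4_qb := by
  intro P PD T C₀ κ₀ hT hC₀ hκ₀ hκ₀' hp₀
  obtain ⟨C₁, κ₁, hC₁, hκ₁, hκ₁', hg₀⟩ := hgd
  set κ : ℝ := min κ₁ κ₀ with hκd
  have hκ : 0 < κ := lt_min hκ₁ hκ₀
  have hκ' : κ ≤ Real.pi / 16 := (min_le_left _ _).trans hκ₁'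
  have hg₁ : GDp C₁ κ := gdp_mono hg₀ (min_le_left _ _)
  have hP : PGG P PD T C₀ κ := pgg_mono hp₀ (min_le_right _ _)
  set C₂ : ℝ := C₁ + C₁ / κ with hC₂d
  have hq1 : 0 < C₁ / κ := div_pos hC₁ hκ
  have hC₂ : 0 < C₂ := by linarith
  have hg : GDp C₂ κ := gdp_monoC hg₁ (by linarith)
  have hπ := Real.pi_pos
  refine ⟨C₂ + C₀, κ, by linarith, hκ, hκ', ?_⟩
  intro n w hn hw
  have hn' : (0 : ℝ) < n := by exact_mod_cast hn
  have hω0 : (0 : ℝ) ≤ (w : ℝ) / n := by positivity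
  have hω1 : (w : ℝ) / n ≤ 1 := by
    rw [div_le_one hn']; exact_mod_cast hw
  have hbb : bb n w = 1 - 2 * ((w : ℝ) / n) - 2 / Real.pi := by
    unfold bb; ring
  obtain ⟨a2, a3, a4, -, a7⟩ := QBAf.qba C₂ κ hC₂ hκ hκ' hg hgi hqq n w hn hw
  have a5 := QBBf.qbb C₂ κ hC₂ hκ hκ' hg hqq n w hn hw
  obtain ⟨q1, q2, q0, -, q5, -⟩ := hqq n w hw
  constructor
  · -- mz
    show QQ n w 0 * Complex.exp (n * P 0) = 1
    rw [q0, hP.g9, mul_zero, Complex.exp_zero, mul_one]
  · -- m0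
    intro t ht
    show ‖QQ n w (t * Complex.I) * Complex.exp (n * P (t * Complex.I))‖ = 1
    rw [norm_Q, q2 t, hP.g6 t ht, mul_zero, Real.exp_zero, mul_one]
  · -- m1
    intro σ hσ
    obtain ⟨h1, h2⟩ := q5 σ (by linarith)
    have e1 : QQ n w σ = (((QQ n w σ).re : ℝ) : ℂ) := by
      apply Complex.ext
      · simp
      · simp [h1]
    have e2 : P σ = (((P σ).re : ℝ) : ℂ) := by
      apply Complex.ext
      · simp
      · simp [hP.g7 σ hσ]
    have e3 : QQ n w σ * Complex.exp (n * P σ) =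
        (((QQ n w σ).re * Real.exp (n * (P σ).re) : ℝ) : ℂ) := by
      rw [e1, e2]
      push_cast
      simp
    show (QQ n w σ * Complex.exp (n * P σ)).im = 0 ∧ 0 < (QQ n w σ * Complex.exp (n * P σ)).re
    rw [e3, Complex.ofReal_im, Complex.ofReal_re]
    exact ⟨rfl, by positivity⟩
  · -- m2
    intro σ t hσ ht
    show ‖QQ n w (σ + t * Complex.I) * Complex.exp (n * P (σ + t * Complex.I))‖ ≤ _
    rw [norm_Q]
    have h1 := a2 σ t hσ
    have h2 : Real.exp (n * (P (σ + t * Complex.I)).re) ≤ Real.exp (C₀ * n * |σ|) := by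
      apply Real.exp_le_exp.mpr
      have := (le_abs_self _).trans (p2 hP hσ ht)
      calc (n : ℝ) * _ ≤ n * (C₀ * |σ|) := mul_le_mul_of_nonneg_left this hn'.le
        _ = _ := by ring
    calc _ ≤ Real.exp (C₂ * n * |σ|) * Real.exp (C₀ * n * |σ|) :=
          mul_le_mul h1 h2 (Real.exp_pos _).le (Real.exp_pos _).le
      _ = _ := by rw [← Real.exp_add]; congr 1; ring
  · -- m3
    intro σ t hσ ht
    show ‖QQ n w (σ + t * Complex.I) * Complex.exp (n * P (σ + t * Complex.I))‖ ≤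
      ‖QQ n w σ * Complex.exp (n * P σ)‖ * _
    rw [norm_Q, norm_Q]
    have h1 := a3 σ t hσ
    have h2 : Real.exp (n * (P (σ + t * Complex.I)).re) ≤
        Real.exp (n * (P σ).re) * Real.exp (C₀ * n * |σ| * t ^ 2) := by
      rw [← Real.exp_add]
      apply Real.exp_le_exp.mpr
      have := (abs_le.mp (p3 hP hT hσ ht)).2
      have h3 := mul_le_mul_of_nonneg_left this hn'.le
      nlinarith [h3]
    calc _ ≤ (‖QQ n w σ‖ * Real.exp (C₂ * n * |σ| * t ^ 2)) *
          (Real.exp (n * (P σ).re) * Real.exp (C₀ * n * |σ| * t ^ 2)) :=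
          mul_le_mul h1 h2 (Real.exp_pos _).le (by positivity)
      _ = ‖QQ n w σ‖ * Real.exp (n * (P σ).re) *
          (Real.exp (C₂ * n * |σ| * t ^ 2) * Real.exp (C₀ * n * |σ| * t ^ 2)) := by ring
      _ = _ := by
        rw [← Real.exp_add]
        congr 2
        ring
  · -- m4
    intro σ t hσ ht
    show ‖QQ n w σ * Complex.exp (n * P σ)‖ * _ ≤
      ‖QQ n w (σ + t * Complex.I) * Complex.exp (n * P (σ + t * Complex.I))‖
    rw [norm_Q, norm_Q]
    have h1 := a4 σ t hσ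
    have h2 : Real.exp (n * (P σ).re) * Real.exp (-(C₀ * n * |σ| * t ^ 2)) ≤
        Real.exp (n * (P (σ + t * Complex.I)).re) := by
      rw [← Real.exp_add]
      apply Real.exp_le_exp.mpr
      have := (abs_le.mp (p3 hP hT hσ ht)).1
      have h3 := mul_le_mul_of_nonneg_left this hn'.le
      nlinarith [h3]
    calc _ = (‖QQ n w σ‖ * Real.exp (-(C₂ * n * |σ| * t ^ 2))) *
          (Real.exp (n * (P σ).re) * Real.exp (-(C₀ * n * |σ| * t ^ 2))) := by
          have e : -((C₂ + C₀) * n * |σ| * t ^ 2) =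
              -(C₂ * n * |σ| * t ^ 2) + -(C₀ * n * |σ| * t ^ 2) := by ring
          rw [e, Real.exp_add]
          ring
      _ ≤ _ := mul_le_mul h1 h2 (by positivity) (norm_nonneg _)
  · -- m5
    intro σ t hσ ht
    obtain ⟨θ, hθ, hθe⟩ := a5 σ t hσ
    refine ⟨θ + n * ((P (σ + t * Complex.I)).im - (PD σ).re * t), ?_, ?_⟩
    · have h1 := p5 hP hC₀ hσ ht
      calc |θ + n * ((P (σ + t * Complex.I)).im - (PD σ).re * t)| ≤
          |θ| + |n * ((P (σ + t * Complex.I)).im - (PD σ).re * t)| := abs_add_le _ _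
        _ ≤ C₂ * n * |t| ^ 3 + n * (C₀ * |t| ^ 3) := by
          rw [abs_mul, Nat.abs_cast]
          exact add_le_add hθ (mul_le_mul_of_nonneg_left h1 hn'.le)
        _ = _ := by ring
    · show QQ n w (σ + t * Complex.I) * Complex.exp (n * P (σ + t * Complex.I)) =
        (‖QQ n w (σ + t * Complex.I) * Complex.exp (n * P (σ + t * Complex.I))‖ : ℂ) *
          Complex.exp (((n * (GG ((w : ℝ) / n) σ + PD σ).re * t +
            (θ + n * ((P (σ + t * Complex.I)).im - (PD σ).re * t)) : ℝ) : ℂ) * Complex.I)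
      rw [norm_Q]
      have e2 : Complex.exp (n * P (σ + t * Complex.I)) =
          (Real.exp (n * (P (σ + t * Complex.I)).re) : ℂ) *
            Complex.exp (((n * (P (σ + t * Complex.I)).im : ℝ) : ℂ) * Complex.I) := by
        rw [Complex.ofReal_exp, ← Complex.exp_add]
        congr 1
        apply Complex.ext
        · simp
        · simp
      rw [e2]
      conv_lhs => rw [hθe]
      have e3 : (((n * (GG ((w : ℝ) / n) σ + PD σ).re * t +
          (θ + n * ((P (σ + t * Complex.I)).im - (PD σ).re * t)) : ℝ) : ℂ) * Complex.I) =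
          ((n * (GG ((w : ℝ) / n) σ).re * t + θ : ℝ) : ℂ) * Complex.I +
            ((n * (P (σ + t * Complex.I)).im : ℝ) : ℂ) * Complex.I := by
        rw [Complex.add_re, ← add_mul, ← Complex.ofReal_add]
        congr 2
        ring
      rw [e3, Complex.exp_add]
      push_cast
      ring
  · -- m6
    intro σ t hσ ht
    show ‖QQ n w (σ + t * Complex.I) * Complex.exp (n * P (σ + t * Complex.I))‖ ≤
      Real.exp (n * (σ * (GG ((w : ℝ) / n) (t * Complex.I) + PD (t * Complex.I)).re +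
        (C₂ + C₀) * σ ^ 2))
    rw [norm_Q, Complex.add_re]
    have h1 := qq6 C₂ κ hC₂ hκ hκ' hg hqq n w hn hw σ t hσ
    have h2 : Real.exp (n * (P (σ + t * Complex.I)).re) ≤
        Real.exp (n * (σ * (PD (t * Complex.I)).re + C₀ * σ ^ 2)) := by
      apply Real.exp_le_exp.mpr
      apply mul_le_mul_of_nonneg_left _ hn'.le
      have := (abs_le.mp (p6 hP hC₀ hσ ht)).2
      linarith
    calc _ ≤ Real.exp (n * (σ * (GG ((w : ℝ) / n) (t * Complex.I)).re + C₂ * σ ^ 2)) *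
          Real.exp (n * (σ * (PD (t * Complex.I)).re + C₀ * σ ^ 2)) :=
          mul_le_mul h1 h2 (Real.exp_pos _).le (Real.exp_pos _).le
      _ = _ := by
        rw [← Real.exp_add]
        congr 1
        ring
  · -- m7
    intro σ hσ
    show ‖QQ n w σ * Complex.exp (n * P σ)‖ ≤ _
    rw [norm_Q]
    have h1 := a7 σ hσ
    have h2 : Real.exp (n * (P σ).re) ≤ Real.exp (n * ((PD 0).re * σ + C₀ * |σ| ^ 3)) := by
      apply Real.exp_le_exp.mpr
      apply mul_le_mul_of_nonneg_left _ hn'.le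
      have := (abs_le.mp (p7 hP hC₀ hT hσ)).2
      linarith
    calc _ ≤ Real.exp (n * (bb n w * σ + C₂ * |σ| ^ 3)) *
          Real.exp (n * ((PD 0).re * σ + C₀ * |σ| ^ 3)) :=
          mul_le_mul h1 h2 (Real.exp_pos _).le (Real.exp_pos _).le
      _ = _ := by
        rw [← Real.exp_add]
        congr 1
        ring
  · -- m8
    intro σ hσ
    have h1 := hg.d4 ((w : ℝ) / n) hω0 hω1 σ hσ
    have h2 := hP.g4 σ hσ
    rw [← hbb] at h1
    show |(GG ((w : ℝ) / n) σ + PD σ).re - (bb n w + (PD 0).re)| ≤ (C₂ + C₀) * σ ^ 2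
    rw [Complex.add_re]
    have e : (GG ((w : ℝ) / n) σ).re + (PD σ).re - (bb n w + (PD 0).re) =
        ((GG ((w : ℝ) / n) σ).re - bb n w) + ((PD σ).re - (PD 0).re) := by ring
    rw [e]
    calc _ ≤ |(GG ((w : ℝ) / n) σ).re - bb n w| + |(PD σ).re - (PD 0).re| := abs_add_le _ _
      _ ≤ C₂ * σ ^ 2 + C₀ * σ ^ 2 := add_le_add h1 h2
      _ = _ := by ring
  · -- m9
    intro σ hσ
    have hσ' : |σ| ≤ κ := abs_le.2 hσ
    have h1 : ContinuousAt (fun σ : ℝ => GG ((w : ℝ) / n) σ) σ := by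
      have h2 := (hg.d1 ((w : ℝ) / n) hω0 hω1 (σ : ℂ) (by simpa using hσ')).1.continuousAt
      exact ContinuousAt.comp (f := fun σ : ℝ => (σ : ℂ)) h2
        Complex.continuous_ofReal.continuousAt
    have h3 : ContinuousWithinAt (fun σ : ℝ => PD σ) (Set.Icc (-κ) κ) σ := by
      have h4 := hP.g8 (σ : ℂ) ⟨by simpa using hσ', by simpa using hT.le⟩
      refine ContinuousWithinAt.comp (g := PD) (f := fun σ : ℝ => (σ : ℂ)) h4
        Complex.continuous_ofReal.continuousWithinAt ?_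
      intro x hx
      exact ⟨by simpa using abs_le.2 hx, by simpa using hT.le⟩
    have h5 : ContinuousWithinAt (fun σ : ℝ => GG ((w : ℝ) / n) σ + PD σ) (Set.Icc (-κ) κ) σ :=
      h1.continuousWithinAt.add h3
    exact Complex.continuous_re.continuousAt.comp_continuousWithinAt h5
  · -- m10
    intro s hs ht
    have h1 := abs_le.1 hs
    have h2 : DifferentiableAt ℂ (QQ n w) s := q1 s (by linarith) (by linarith)
    have h3 := hP.g0 s.re s.im hs ht
    rw [Complex.re_add_im] at h3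
    exact h2.mul ((h3.differentiableAt.const_mul (n : ℂ)).cexp)
  · -- m11
    intro t t' ht ht'
    show |(GG ((w : ℝ) / n) (t * Complex.I) + PD (t * Complex.I)).re -
      (GG ((w : ℝ) / n) (t' * Complex.I) + PD (t' * Complex.I)).re| ≤ (C₂ + C₀) * |t - t'|
    rw [Complex.add_re, Complex.add_re]
    have h1 := gg_lip C₁ κ hκ hg₁ ((w : ℝ) / n) hω0 hω1 t t'
    have h2 := hP.g5 t t' ht ht'
    have h3 : C₁ / κ * |t - t'| ≤ C₂ * |t - t'| :=
      mul_le_mul_of_nonneg_right (by linarith) (abs_nonneg _)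
    have e : (GG ((w : ℝ) / n) (t * Complex.I)).re + (PD (t * Complex.I)).re -
        ((GG ((w : ℝ) / n) (t' * Complex.I)).re + (PD (t' * Complex.I)).re) =
        ((GG ((w : ℝ) / n) (t * Complex.I)).re - (GG ((w : ℝ) / n) (t' * Complex.I)).re) +
        ((PD (t * Complex.I)).re - (PD (t' * Complex.I)).re) := by ring
    rw [e]
    refine (abs_add_le _ _).trans ?_
    linarith
  · -- m12
    show (GG ((w : ℝ) / n) (((0 : ℝ) : ℂ) * Complex.I) + PD (((0 : ℝ) : ℂ) * Complex.I)).re =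
      bb n w + (PD 0).re
    rw [Complex.ofReal_zero, zero_mul, Complex.add_re]
    have h1 := hg.d4 ((w : ℝ) / n) hω0 hω1 0 (by rw [abs_zero]; exact hκ.le)
    rw [← hbb, Complex.ofReal_zero] at h1
    have h2 : (GG ((w : ℝ) / n) 0).re - bb n w = 0 := by
      apply abs_nonpos_iff.mp
      refine h1.trans ?_
      simp
    linarith

end Pool.Agent.TH41.BL.QB4f
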