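import Mathlib
import Pool.Agent.TH41.BL.Stm4

/-! BL4-VAL: the value of the dual exponent. -/

set_option autoImplicit false

open MeasureTheory Filter Topology

namespace Pool.Agent.TH41.BL.VA4f

open Pool.Agent.TH41.BL

/-- the real integrand -/
noncomputable def hh (x y : ℝ) : ℝ := 2 * WN y / √(y + Real.sin (2 * x) ^ 2)

/-- the change of variables -/
noncomputable def ff (v : ℝ) : ℝ := Real.pi / 4 - Real.arctan (Real.sinh v) / 2

theorem sq_pos (r : ℝ) (hr : 0 < r) : sq (r : ℂ) = ((√r : ℝ) : ℂ) := by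
  unfold sq
  rw [← Complex.ofReal_log hr.le]
  have h2 : ((2 : ℝ) : ℂ) = 2 := by norm_num
  rw [← h2, ← Complex.ofReal_div, ← Complex.ofReal_exp, Real.exp_half, Real.exp_log hr]

theorem int_eq (x : ℝ) {y : ℝ} (hy : 0 < y) :
    (2 * WN y : ℂ) / sq (y + Complex.sin (2 * (x : ℂ)) ^ 2) = ((hh x y : ℝ) : ℂ) := by
  have h1 : ((y : ℂ) + Complex.sin (2 * (x : ℂ)) ^ 2) = ((y + Real.sin (2 * x) ^ 2 : ℝ) : ℂ) := by
    push_cast
    ring
  rw [h1, sq_pos _ (by positivity)]
  unfold hh
  push_cast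
  ring

theorem JJ_eq {m : ℝ} (hm : 0 < m) (x : ℝ) :
    JJ m x = ((∫ y in Set.Ioi m, hh x y : ℝ) : ℂ) := by
  unfold JJ
  rw [← integral_complex_ofReal]
  apply setIntegral_congr_fun measurableSet_Ioi
  intro y hy
  exact int_eq x (lt_trans hm hy)

theorem hh_int (hw : S4_w) (x : ℝ) : IntegrableOn (hh x) (Set.Ioi 0) := by
  have h1 := ((hw.2 (Complex.sin (2 * (x : ℂ)) ^ 2)).1).re
  refine h1.congr ?_
  filter_upwards [ae_restrict_mem measurableSet_Ioi] with y hy
  have := int_eq x hy
  rw [this]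
  simp

theorem key (hw : S4_w) (hid : S4_id) {m : ℝ} (hm : 0 < m) {x : ℝ} (h0 : 0 < x)
    (h1 : x < 3 * Real.pi / 8) :
    (JJ m x).re = Real.tan x - (Lz x).re - ∫ y in Set.Ioc 0 m, hh x y := by
  have h2 := hid x (by simpa using h0) (by simpa using h1)
  have h3 : ∫ y in Set.Ioi (0 : ℝ), (2 * WN y : ℂ) / sq (y + Complex.sin (2 * (x : ℂ)) ^ 2) =
      ((∫ y in Set.Ioi (0 : ℝ), hh x y : ℝ) : ℂ) := by
    rw [← integral_complex_ofReal]
    apply setIntegral_congr_fun measurableSet_Ioi
    intro y hy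
    exact int_eq x hy
  rw [h3] at h2
  have h4 := congrArg Complex.re h2
  rw [Complex.ofReal_re, Complex.sub_re, ← Complex.ofReal_tan, Complex.ofReal_re] at h4
  have h5 : ∫ y in Set.Ioi (0 : ℝ), hh x y =
      (∫ y in Set.Ioc 0 m, hh x y) + ∫ y in Set.Ioi m, hh x y := by
    rw [← setIntegral_union (Set.Ioc_disjoint_Ioi le_rfl) measurableSet_Ioi
      ((hh_int hw x).mono_set Set.Ioc_subset_Ioi_self)
      ((hh_int hw x).mono_set (Set.Ioi_subset_Ioi hm.le))]
    rw [Set.Ioc_union_Ioi_eq_Ioi hm.le]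
  rw [JJ_eq hm, Complex.ofReal_re]
  linarith

theorem sin_ff (v : ℝ) : Real.sin (2 * ff v) = 1 / Real.cosh v := by
  unfold ff
  have h1 : 2 * (Real.pi / 4 - Real.arctan (Real.sinh v) / 2) =
      Real.pi / 2 - Real.arctan (Real.sinh v) := by ring
  rw [h1, Real.sin_pi_div_two_sub, Real.cos_arctan]
  congr 1
  rw [show 1 + Real.sinh v ^ 2 = Real.cosh v ^ 2 by rw [Real.cosh_sq]; ring]
  exact Real.sqrt_sq (Real.cosh_pos v).le

theorem ff_deriv (v : ℝ) : HasDerivAt ff (-(1 / (2 * Real.cosh v))) v := by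
  unfold ff
  have h1 := ((Real.hasDerivAt_sinh v).arctan.div_const 2).const_sub (Real.pi / 4)
  refine h1.congr_deriv ?_
  have hc : Real.cosh v ≠ 0 := (Real.cosh_pos v).ne'
  rw [show 1 + Real.sinh v ^ 2 = Real.cosh v ^ 2 by rw [Real.cosh_sq]; ring]
  field_simp

theorem ff_image : ff '' Set.Ioi 0 = Set.Ioo 0 (Real.pi / 4) := by
  ext x
  constructor
  · rintro ⟨v, hv, rfl⟩
    have hv' : 0 < v := hv
    have h1 : 0 < Real.arctan (Real.sinh v) := by
      rw [← Real.arctan_zero]
      exact Real.arctan_strictMono (Real.sinh_pos_iff.2 hv')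
    have h2 := Real.arctan_lt_pi_div_two (Real.sinh v)
    unfold ff
    constructor <;> linarith
  · rintro ⟨h1, h2⟩
    refine ⟨Real.arsinh (Real.tan (2 * (Real.pi / 4 - x))), ?_, ?_⟩
    · rw [Set.mem_Ioi, Real.arsinh_pos_iff]
      apply Real.tan_pos_of_pos_of_lt_pi_div_two <;> linarith
    · unfold ff
      rw [Real.sinh_arsinh, Real.arctan_tan (by linarith) (by linarith)]
      ring

theorem ff_inj : Set.InjOn ff (Set.Ioi 0) := by
  intro a _ b _ h
  unfold ff at h
  have h1 : Real.arctan (Real.sinh a) = Real.arctan (Real.sinh b) := by linarith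
  exact Real.sinh_injective (Real.arctan_injective h1)

theorem NR_eq {m : ℝ} (hm : 0 < m) (v : ℝ) :
    NR m v = |-(1 / (2 * Real.cosh v))| • ∫ y in Set.Ioc 0 m, hh (ff v) y := by
  have hc : 0 < Real.cosh v := Real.cosh_pos v
  rw [abs_neg, abs_of_pos (by positivity), smul_eq_mul, ← integral_const_mul]
  unfold NR
  rw [intervalIntegral.integral_of_le hm.le]
  apply setIntegral_congr_fun measurableSet_Ioc
  intro y hy
  have hy0 : 0 < y := hy.1
  simp only [hh, sin_ff]
  have h1 : 1 + y * Real.cosh v ^ 2 = (y + (1 / Real.cosh v) ^ 2) * Real.cosh v ^ 2 := by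
    field_simp
    ring
  rw [h1, Real.sqrt_mul (by positivity), Real.sqrt_sq hc.le]
  have h2 : 0 < √(y + (1 / Real.cosh v) ^ 2) := Real.sqrt_pos.2 (by positivity)
  field_simp

theorem cov {m : ℝ} (hm : 0 < m) :
    ∫ x in Set.Ioo 0 (Real.pi / 4), (∫ y in Set.Ioc 0 m, hh x y) = I3 m := by
  rw [← ff_image, integral_image_eq_integral_abs_deriv_smul measurableSet_Ioi
    (fun v _ => (ff_deriv v).hasDerivWithinAt) ff_inj]
  unfold I3
  apply setIntegral_congr_fun measurableSet_Ioi
  intro v _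
  exact (NR_eq hm v).symm

theorem tan_int : ∫ x in (0 : ℝ)..(Real.pi / 4), Real.tan x = 1 / 2 * Real.log 2 := by
  have hcos : ∀ x ∈ Set.uIcc (0 : ℝ) (Real.pi / 4), 0 < Real.cos x := by
    intro x hx
    rw [Set.uIcc_of_le (by positivity)] at hx
    apply Real.cos_pos_of_mem_Ioo
    have := Real.pi_pos
    constructor <;> linarith [hx.1, hx.2]
  have h1 : ∀ x ∈ Set.uIcc (0 : ℝ) (Real.pi / 4),
      HasDerivAt (fun x => -Real.log (Real.cos x)) (Real.tan x) x := by
    intro x hx
    have h2 := ((Real.hasDerivAt_cos x).log (hcos x hx).ne').neg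
    refine h2.congr_deriv ?_
    rw [Real.tan_eq_sin_div_cos]
    ring
  have h3 : IntervalIntegrable Real.tan volume 0 (Real.pi / 4) := by
    apply ContinuousOn.intervalIntegrable
    intro x hx
    exact (Real.continuousAt_tan.2 (hcos x hx).ne').continuousWithinAt
  rw [intervalIntegral.integral_eq_sub_of_hasDerivAt h1 h3]
  simp only [Real.cos_pi_div_four, Real.cos_zero, Real.log_one]
  rw [Real.log_div (by positivity) (by norm_num), Real.log_sqrt (by norm_num)]
  ring

theorem tan_ii : IntervalIntegrable Real.tan volume 0 (Real.pi / 4) := by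
  apply ContinuousOn.intervalIntegrable
  intro x hx
  rw [Set.uIcc_of_le (by positivity)] at hx
  have : 0 < Real.cos x := by
    apply Real.cos_pos_of_mem_Ioo
    have := Real.pi_pos
    constructor <;> linarith [hx.1, hx.2]
  exact (Real.continuousAt_tan.2 this.ne').continuousWithinAt

theorem lz_ii (h1 : S_lz1) :
    IntervalIntegrable (fun x : ℝ => (Lz x).re) volume 0 (Real.pi / 4) := by
  apply ContinuousOn.intervalIntegrable
  intro x hx
  rw [Set.uIcc_of_le (by positivity)] at hx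
  have hp := Real.pi_pos
  have h2 : DifferentiableAt ℂ Lz (x : ℂ) := h1 x (by simp; linarith [hx.1]) (by simp; linarith [hx.2])
  have h3 : ContinuousAt (fun x : ℝ => Lz (x : ℂ)) x :=
    ContinuousAt.comp (f := fun x : ℝ => (x : ℂ)) h2.continuousAt Complex.continuous_ofReal.continuousAt
  exact (Complex.continuous_re.continuousAt.comp h3).continuousWithinAt

theorem lz_int (h2 : S_lz2) : ∫ x in (0 : ℝ)..(Real.pi / 4), (Lz x).re = 0 := by
  have h3 := intervalIntegral.integral_comp_sub_left (fun x : ℝ => (Lz x).re) (Real.pi / 4)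
    (a := 0) (b := Real.pi / 4)
  rw [sub_self, sub_zero] at h3
  have h4 : ∀ x : ℝ, (Lz ((Real.pi / 4 - x : ℝ) : ℂ)).re = -(Lz x).re := by
    intro x
    have := h2.1 (x : ℂ)
    have e : (((Real.pi / 4 - x : ℝ)) : ℂ) = (Real.pi : ℂ) / 4 - x := by push_cast; ring
    rw [e, this, Complex.neg_re]
  simp only [h4] at h3
  rw [intervalIntegral.integral_neg] at h3
  linarith

theorem jj_ii (hj : S4_ja) {m : ℝ} (hm : 0 < m) :
    IntervalIntegrable (fun x : ℝ => (JJ m x).re) volume 0 (Real.pi / 4) := by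
  obtain ⟨hd, hb, -⟩ := hj m hm
  have hp := Real.pi_pos
  rw [intervalIntegrable_iff_integrableOn_Ioc_of_le (by positivity)]
  have hcont : ContinuousOn (fun x : ℝ => (JJ m x).re) (Set.Ioc 0 (Real.pi / 4)) := by
    intro x hx
    have h2 : DifferentiableAt ℂ (JJ m) (x : ℂ) := by
      apply hd
      refine ⟨?_, Or.inl ?_⟩
      · rw [Complex.ofReal_re, abs_of_pos hx.1]
        linarith [hx.2]
      · rw [Complex.ofReal_re]; exact hx.1.ne'
    have h3 : ContinuousAt (fun x : ℝ => JJ m (x : ℂ)) x :=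
      ContinuousAt.comp (f := fun x : ℝ => (x : ℂ)) h2.continuousAt
        Complex.continuous_ofReal.continuousAt
    exact (Complex.continuous_re.continuousAt.comp h3).continuousWithinAt
  refine IntegrableOn.of_bound (C := 4) (by simp) (hcont.aestronglyMeasurable measurableSet_Ioc) ?_
  exact Eventually.of_forall fun x => by
    rw [Real.norm_eq_abs]
    exact (Complex.abs_re_le_norm _).trans (hb _)

theorem val (hw : S3_w) (hi : S4_w) (hid : S4_id) (h1 : S_lz1) (h2 : S_lz2) (hj : S4_ja) :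
    S4_val := by
  intro m hm
  have _ := hw
  have hp := Real.pi_pos
  have h3 : ∫ x in (0 : ℝ)..(Real.pi / 4),
      (Real.tan x - (Lz x).re - (JJ m x).re) = I3 m := by
    rw [intervalIntegral.integral_of_le (by positivity), integral_Ioc_eq_integral_Ioo, ← cov hm]
    apply setIntegral_congr_fun measurableSet_Ioo
    intro x hx
    have := key hi hid hm hx.1 (by linarith [hx.2])
    simp only
    linarith
  rw [intervalIntegral.integral_sub (tan_ii.sub (lz_ii h1)) (jj_ii hj hm),
    intervalIntegral.integral_sub tan_ii (lz_ii h1), tan_int, lz_int h2] at h3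
  unfold mu4
  linarith

end Pool.Agent.TH41.BL.VA4f
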