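import Mathlib
import Pool.Agent.TH41.BL.ASME
import Pool.Agent.TH41.BL.AB4
import Pool.Agent.TH41.BL.QB4
import Pool.Agent.TH41.BL.VA4

set_option autoImplicit false

namespace Pool.Agent.TH41.BL

theorem k4_ab : S4_ab := AB4f.ab k3_w k4_w
theorem k4_thr : S4_thr := TH4f.thr k3_w k4_w k4_ab k4_ja LZBf.lz2
theorem k4_qb : S4_qb := QB4f.qb h_gd h_gi h_qq
theorem k4_glue : S4_glue :=
  GL4f.glue k3_w k4_w k4_id k4_ja k4_ph k4_thr h_lam LZAf.lz1 LZBf.lz2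
theorem k4_gy : S4_gy := GY4f.gy k4_glue k4_chi k4_ja k4_ph h_lam
theorem k4_out : S4_out := OU4f.out4 k4_gy k4_nb k4_line
theorem k4_vl : S4_vl := VV4f.vl k4_pg k4_qb k4_left k4_out k4_thr
theorem k4_vr : S4_vr := VV4f.vr k4_pg k4_qb k4_right k4_out
theorem k4_vt : S4_vt := VT4f.vt k4_pg k4_qb k4_left k4_trans k4_out k4_thr
theorem k4_famp : S4_famp := FP4f.famp h_qq k4_ph k4_vl k4_vr k4_dual
theorem k4_fam : S4_fam := FA4f.fam4 KRAf.kra k3_quant k4_thr k4_mu k4_famp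
theorem k4_near : S4_near := NE4f.near4 k4_fam
theorem k4_main : S4_main := MA4f.main4 KRAf.kra h_qq k4_ph k4_vl k4_vt k4_dual k4_near
theorem k4_fin : S4_fin := FI4f.fin4 PUNf.punc k3_quant k4_thr k4_mu k4_main
theorem k4_val : S4_val := VA4f.val k3_w k4_w k4_id LZAf.lz1 LZBf.lz2 k4_ja

end Pool.Agent.TH41.BL
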