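import Mathlib
import Pool.Agent.TH41.BL.Stm5

set_option autoImplicit false

open MeasureTheory Filter Topology

namespace Pool.Agent.TH41.BL.BV5f

open Pool.Agent.TH41.BL

/-- the value at `e + i π / 2` -/
theorem bv_zero (e : ℝ) : Fs e ((e : ℂ) + ((Real.pi / 2 : ℝ) : ℂ) * Complex.I) = 0 := by
  unfold Fs
  have hterm : ∀ j : ℤ, 1 / Complex.cosh ((e : ℂ) + ((Real.pi / 2 : ℝ) : ℂ) * Complex.I - 2 * ((1 - j : ℤ) : ℂ) * e)
      = -(1 / Complex.cosh ((e : ℂ) + ((Real.pi / 2 : ℝ) : ℂ) * Complex.I - 2 * (j : ℂ) * e)) := by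
    intro j
    have h1 : Complex.cosh ((e : ℂ) + ((Real.pi / 2 : ℝ) : ℂ) * Complex.I - 2 * ((1 - j : ℤ) : ℂ) * e)
        = - Complex.cosh ((e : ℂ) + ((Real.pi / 2 : ℝ) : ℂ) * Complex.I - 2 * (j : ℂ) * e) := by
      have e1 : (e : ℂ) + ((Real.pi / 2 : ℝ) : ℂ) * Complex.I - 2 * ((1 - j : ℤ) : ℂ) * e
          = Real.pi * Complex.I - ((e : ℂ) + ((Real.pi / 2 : ℝ) : ℂ) * Complex.I - 2 * (j : ℂ) * e) := by
        push_cast
        ring
      rw [e1, Complex.cosh_sub, Complex.cosh_mul_I, Complex.sinh_mul_I, Complex.cos_pi,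
        Complex.sin_pi]
      ring
    rw [h1, one_div, one_div, inv_neg]
  have hre : (∑' j : ℤ, 1 / Complex.cosh ((e : ℂ) + ((Real.pi / 2 : ℝ) : ℂ) * Complex.I - 2 * (j : ℂ) * e))
      = ∑' j : ℤ, 1 / Complex.cosh ((e : ℂ) + ((Real.pi / 2 : ℝ) : ℂ) * Complex.I - 2 * ((1 - j : ℤ) : ℂ) * e) :=
    ((Equiv.subLeft (1 : ℤ)).tsum_eq
      (fun j : ℤ => 1 / Complex.cosh ((e : ℂ) + ((Real.pi / 2 : ℝ) : ℂ) * Complex.I - 2 * (j : ℂ) * e))).symm
  have h2 : (∑' j : ℤ, 1 / Complex.cosh ((e : ℂ) + ((Real.pi / 2 : ℝ) : ℂ) * Complex.I - 2 * (j : ℂ) * e))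
      = -(∑' j : ℤ, 1 / Complex.cosh ((e : ℂ) + ((Real.pi / 2 : ℝ) : ℂ) * Complex.I - 2 * (j : ℂ) * e)) := by
    conv_lhs => rw [hre]
    rw [← tsum_neg]
    exact tsum_congr hterm
  exact self_eq_neg.mp h2

theorem bv (hs : S6_sm) (hy : S6_sy) : S6_bv := by
  intro e b he hb hbA hO
  obtain ⟨hper, hev, hconj, -, hFe, -, hGe, -, hreg, -⟩ := hy e he
  have hU : ∀ y : ℝ, ((e : ℂ) + (y : ℂ) * Complex.I) ∈ Us e := fun y =>
    hreg e y he (by linarith)
  -- the function is real on the line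
  have hreal : ∀ y : ℝ, (Fs e ((e : ℂ) + (y : ℂ) * Complex.I)).im = 0 := by
    intro y
    have h1 : (starRingEnd ℂ) ((e : ℂ) + (y : ℂ) * Complex.I) = -((e : ℂ) + (y : ℂ) * Complex.I) + 2 * e := by
      simp only [map_add, map_mul, Complex.conj_ofReal, Complex.conj_I]
      ring
    have h2 := hconj ((e : ℂ) + (y : ℂ) * Complex.I)
    rw [h1, hper, hev] at h2
    exact Complex.conj_eq_iff_im.mp h2.symm
  have hder : ∀ y : ℝ, HasDerivAt (fun t : ℝ => Fs e ((e : ℂ) + (t : ℂ) * Complex.I))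
      (Gs e ((e : ℂ) + (y : ℂ) * Complex.I) * Complex.I) y := by
    intro y
    have h1 : HasDerivAt (Fs e) (Gs e ((e : ℂ) + (y : ℂ) * Complex.I)) ((e : ℂ) + (y : ℂ) * Complex.I) :=
      ((hs e he).1 _ (hU y)).2.2.2.2.1
    have h2 : HasDerivAt (fun t : ℝ => (e : ℂ) + (t : ℂ) * Complex.I) Complex.I y := by
      have h3 := ((Complex.ofRealCLM.hasDerivAt (x := y)).mul_const Complex.I).const_add (e : ℂ)
      simpa using h3
    exact HasDerivAt.comp y h1 h2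
  have hGre : ∀ y : ℝ, (Gs e ((e : ℂ) + (y : ℂ) * Complex.I)).re = 0 := by
    intro y
    have h1 : HasDerivAt (fun t : ℝ => (Fs e ((e : ℂ) + (t : ℂ) * Complex.I)).im)
        (Gs e ((e : ℂ) + (y : ℂ) * Complex.I) * Complex.I).im y :=
      (Complex.imCLM.hasFDerivAt.comp_hasDerivAt y (hder y))
    have h2 : (fun t : ℝ => (Fs e ((e : ℂ) + (t : ℂ) * Complex.I)).im) = fun _ => 0 := by
      funext t
      exact hreal t
    rw [h2] at h1
    have h3 := h1.unique (hasDerivAt_const y (0 : ℝ))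
    simpa using h3
  have hcont : Continuous (fun t : ℝ => (Fs e ((e : ℂ) + (t : ℂ) * Complex.I)).re ^ 2) := by
    have h1 : Continuous (fun t : ℝ => Fs e ((e : ℂ) + (t : ℂ) * Complex.I)) :=
      continuous_iff_continuousAt.mpr fun y => (hder y).continuousAt
    exact (Complex.continuous_re.comp h1).pow 2
  have hFr : ∀ y : ℝ, Fs e ((e : ℂ) + (y : ℂ) * Complex.I) =
      (((Fs e ((e : ℂ) + (y : ℂ) * Complex.I)).re : ℝ) : ℂ) := by
    intro y
    apply Complex.ext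
    · simp
    · simpa using hreal y
  -- the sign condition
  have hsign : ∀ y : ℝ, 0 ≤ y → y ≤ Real.pi / 2 →
      (As e ^ 2 - (Fs e ((e : ℂ) + (y : ℂ) * Complex.I)).re ^ 2) *
        ((Fs e ((e : ℂ) + (y : ℂ) * Complex.I)).re ^ 2 - b) ≤ 0 := by
    intro y h0 h1
    have him : |((e : ℂ) + (y : ℂ) * Complex.I).im| ≤ Real.pi / 2 := by
      simp only [Complex.add_im, Complex.ofReal_im, Complex.mul_im, Complex.ofReal_re,
        Complex.I_im, Complex.I_re, mul_one, mul_zero, add_zero, zero_add]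
      rwa [abs_of_nonneg h0]
    have h2 := hO.1 _ (hU y) him
    rw [hFr y] at h2
    have hG : Gs e ((e : ℂ) + (y : ℂ) * Complex.I) =
        (((Gs e ((e : ℂ) + (y : ℂ) * Complex.I)).im : ℝ) : ℂ) * Complex.I := by
      apply Complex.ext
      · simpa using hGre y
      · simp
    rw [hG, mul_pow, Complex.I_sq] at h2
    have h3 : (-(Gs e ((e : ℂ) + (y : ℂ) * Complex.I)).im ^ 2 : ℝ) =
      (As e ^ 2 - (Fs e ((e : ℂ) + (y : ℂ) * Complex.I)).re ^ 2) *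
        ((Fs e ((e : ℂ) + (y : ℂ) * Complex.I)).re ^ 2 - b) := by
      have : ((-(Gs e ((e : ℂ) + (y : ℂ) * Complex.I)).im ^ 2 : ℝ) : ℂ) =
        (((As e ^ 2 - (Fs e ((e : ℂ) + (y : ℂ) * Complex.I)).re ^ 2) *
        ((Fs e ((e : ℂ) + (y : ℂ) * Complex.I)).re ^ 2 - b) : ℝ) : ℂ) := by
        push_cast
        rw [← h2]
        ring
      exact_mod_cast this
    rw [← h3]
    nlinarith [sq_nonneg (Gs e ((e : ℂ) + (y : ℂ) * Complex.I)).im]
  have hr0 : (Fs e ((e : ℂ) + ((0 : ℝ) : ℂ) * Complex.I)).re = Bs e := by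
    have : (e : ℂ) + ((0 : ℝ) : ℂ) * Complex.I = e := by simp
    rw [this, hFe, Complex.ofReal_re]
  have hr1 : (Fs e ((e : ℂ) + ((Real.pi / 2 : ℝ) : ℂ) * Complex.I)).re = 0 := by
    rw [bv_zero]
    simp
  -- the equation at `e`
  have hUe : (e : ℂ) ∈ Us e := by
    have := hU 0
    simpa using this
  have heq : (As e ^ 2 - Bs e ^ 2) * (Bs e ^ 2 - b) = 0 := by
    have h2 := hO.1 _ hUe (by simp; positivity)
    rw [hGe, hFe] at h2
    have h3 : (((As e ^ 2 - Bs e ^ 2) * (Bs e ^ 2 - b) : ℝ) : ℂ) = 0 := by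
      push_cast
      rw [← h2]
      ring
    exact_mod_cast h3
  rcases mul_eq_zero.mp heq with h | h
  · exfalso
    have hB : Bs e ^ 2 = As e ^ 2 := by linarith
    have hiv := intermediate_value_Icc' (f := fun t : ℝ => (Fs e ((e : ℂ) + (t : ℂ) * Complex.I)).re ^ 2)
      (a := 0) (b := Real.pi / 2) (by positivity) hcont.continuousOn
    have hmem : (As e ^ 2 + b) / 2 ∈ Set.Icc
        ((fun t : ℝ => (Fs e ((e : ℂ) + (t : ℂ) * Complex.I)).re ^ 2) (Real.pi / 2))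
        ((fun t : ℝ => (Fs e ((e : ℂ) + (t : ℂ) * Complex.I)).re ^ 2) 0) := by
      constructor
      · show (Fs e ((e : ℂ) + ((Real.pi / 2 : ℝ) : ℂ) * Complex.I)).re ^ 2 ≤ _
        rw [hr1]
        nlinarith [sq_nonneg (As e)]
      · show _ ≤ (Fs e ((e : ℂ) + ((0 : ℝ) : ℂ) * Complex.I)).re ^ 2
        rw [hr0, hB]
        linarith
    obtain ⟨y, ⟨hy0, hy1⟩, hyv⟩ := hiv hmem
    have h4 := hsign y hy0 hy1
    have h5 : (Fs e ((e : ℂ) + (y : ℂ) * Complex.I)).re ^ 2 = (As e ^ 2 + b) / 2 := hyv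
    rw [h5] at h4
    have h6 : 0 < (As e ^ 2 - (As e ^ 2 + b) / 2) * ((As e ^ 2 + b) / 2 - b) := by
      apply mul_pos <;> linarith
    linarith
  · linarith

end Pool.Agent.TH41.BL.BV5f
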