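import Mathlib
import Pool.Agent.TH41.BL.Stm5

set_option autoImplicit false

open MeasureTheory Filter Topology

namespace Pool.Agent.TH41.BL.CL5f

open Pool.Agent.TH41.BL

/-- the point `x + i π / 2` -/
noncomputable def up (x : ℝ) : ℂ := (x : ℂ) + ((Real.pi / 2 : ℝ) : ℂ) * Complex.I

noncomputable def Cx (e x : ℝ) : ℝ := ∑' j : ℤ, 1 / Real.sinh (x - 2 * j * e)

noncomputable def Dx (e x : ℝ) : ℝ :=
  -∑' j : ℤ, Real.cosh (x - 2 * j * e) / Real.sinh (x - 2 * j * e) ^ 2

theorem up_sub (x e : ℝ) (j : ℤ) :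
    up x - 2 * j * e = ((x - 2 * j * e : ℝ) : ℂ) + ((Real.pi / 2 : ℝ) : ℂ) * Complex.I := by
  unfold up
  push_cast
  ring

theorem cosh_up (x e : ℝ) (j : ℤ) :
    Complex.cosh (up x - 2 * j * e) = Complex.I * (Real.sinh (x - 2 * j * e) : ℂ) := by
  rw [up_sub, Complex.cosh_add, Complex.cosh_mul_I, Complex.sinh_mul_I, ← Complex.ofReal_cos,
    ← Complex.ofReal_sin, Real.cos_pi_div_two, Real.sin_pi_div_two, Complex.ofReal_sinh]
  simp only [Complex.ofReal_zero, Complex.ofReal_one]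
  ring

theorem sinh_up (x e : ℝ) (j : ℤ) :
    Complex.sinh (up x - 2 * j * e) = Complex.I * (Real.cosh (x - 2 * j * e) : ℂ) := by
  rw [up_sub, Complex.sinh_add, Complex.cosh_mul_I, Complex.sinh_mul_I, ← Complex.ofReal_cos,
    ← Complex.ofReal_sin, Real.cos_pi_div_two, Real.sin_pi_div_two, Complex.ofReal_cosh]
  simp only [Complex.ofReal_zero, Complex.ofReal_one]
  ring

theorem Fs_up (e x : ℝ) : Fs e (up x) = -Complex.I * (Cx e x : ℂ) := by
  unfold Fs Cx
  rw [Complex.ofReal_tsum, ← tsum_mul_left]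
  congr 1
  funext j
  rw [cosh_up, one_div, mul_inv, Complex.inv_I]
  push_cast
  ring

theorem Gs_up (e x : ℝ) : Gs e (up x) = -Complex.I * (Dx e x : ℂ) := by
  unfold Gs Dx
  rw [Complex.ofReal_neg, Complex.ofReal_tsum, mul_neg, ← tsum_mul_left]
  congr 2
  funext j
  rw [cosh_up, sinh_up, mul_pow, Complex.I_sq, neg_one_mul, div_neg]
  push_cast
  ring

theorem up_mem (hy : S6_sy) {e x : ℝ} (he : 0 < e) (h0 : 0 < x) (h1 : x < 2 * e) :
    up x ∈ Us e := by
  obtain ⟨_, _, _, _, _, _, _, _, h, _⟩ := hy e he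
  have := h x (Real.pi / 2) h0 h1
  unfold up
  exact this

theorem hasDeriv_C (hs : S6_sm) (hy : S6_sy) {e x : ℝ} (he : 0 < e) (h0 : 0 < x)
    (h1 : x < 2 * e) : HasDerivAt (Cx e) (Dx e x) x := by
  obtain ⟨_, _, _, _, hF, _⟩ := (hs e he).1 (up x) (up_mem hy he h0 h1)
  have h2 : HasDerivAt (fun z : ℂ => Fs e (z + ((Real.pi / 2 : ℝ) : ℂ) * Complex.I))
      (Gs e (up x)) (x : ℂ) := HasDerivAt.comp_add_const (x : ℂ) _ hF
  have h3 := (h2.const_mul Complex.I).real_of_complex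
  have e1 : (fun y : ℝ => (Complex.I * Fs e ((y : ℂ) + ((Real.pi / 2 : ℝ) : ℂ) *
      Complex.I)).re) = Cx e := by
    funext y
    have : Fs e ((y : ℂ) + ((Real.pi / 2 : ℝ) : ℂ) * Complex.I) = -Complex.I * (Cx e y : ℂ) :=
      Fs_up e y
    rw [this]
    simp
  have e2 : (Complex.I * Gs e (up x)).re = Dx e x := by
    rw [Gs_up]
    simp
  rw [e1, e2] at h3
  exact h3

theorem summ_C (hs : S6_sm) (hy : S6_sy) {e x : ℝ} (he : 0 < e) (h0 : 0 < x)
    (h1 : x < 2 * e) : Summable (fun j : ℤ => 1 / Real.sinh (x - 2 * j * e)) := by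
  obtain ⟨h, _⟩ := (hs e he).1 (up x) (up_mem hy he h0 h1)
  apply Summable.of_norm
  refine h.congr fun j => ?_
  rw [cosh_up]
  simp only [norm_div, norm_mul, norm_one, Complex.norm_I, one_mul, Complex.norm_real]

theorem summ_D (hs : S6_sm) (hy : S6_sy) {e x : ℝ} (he : 0 < e) (h0 : 0 < x)
    (h1 : x < 2 * e) :
    Summable (fun j : ℤ => Real.cosh (x - 2 * j * e) / Real.sinh (x - 2 * j * e) ^ 2) := by
  obtain ⟨_, _, _, h, _⟩ := (hs e he).1 (up x) (up_mem hy he h0 h1)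
  apply Summable.of_norm
  refine h.congr fun j => ?_
  rw [cosh_up, sinh_up]
  simp only [norm_div, norm_mul, norm_pow, Complex.norm_I, one_mul, Complex.norm_real]

theorem D_neg (hs : S6_sm) (hy : S6_sy) {e x : ℝ} (he : 0 < e) (h0 : 0 < x)
    (h1 : x < 2 * e) : Dx e x < 0 := by
  unfold Dx
  rw [neg_lt_zero]
  apply (summ_D hs hy he h0 h1).tsum_pos (fun j => ?_) 0
  · have h2 : 0 < Real.sinh (x - 2 * ((0 : ℤ) : ℝ) * e) := by
      rw [Real.sinh_pos_iff]; simpa using h0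
    have h3 := Real.cosh_pos (x - 2 * ((0 : ℤ) : ℝ) * e)
    positivity
  · have h3 := Real.cosh_pos (x - 2 * (j : ℝ) * e)
    positivity

theorem ode (hy : S6_sy) {e b x : ℝ} (he : 0 < e) (hO : OD e b) (h0 : 0 < x)
    (h1 : x < 2 * e) : Dx e x ^ 2 = (As e ^ 2 + Cx e x ^ 2) * (Cx e x ^ 2 + b) := by
  have hp := Real.pi_pos
  have h2 := hO.1 (up x) (up_mem hy he h0 h1) (by
    unfold up
    simp only [Complex.add_im, Complex.ofReal_im, Complex.mul_im, Complex.ofReal_re,
      Complex.I_im, mul_one, Complex.I_re, mul_zero, add_zero, zero_add]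
    rw [abs_of_pos (by positivity)])
  rw [Fs_up, Gs_up, mul_pow, mul_pow, neg_sq, Complex.I_sq] at h2
  have h3 : ((Dx e x ^ 2 : ℝ) : ℂ) = (((As e ^ 2 + Cx e x ^ 2) * (Cx e x ^ 2 + b) : ℝ) : ℂ) := by
    push_cast
    linear_combination -h2
  exact_mod_cast h3

theorem C_e (e : ℝ) : Cx e e = 0 := by
  have h : Cx e e = -Cx e e := by
    conv_lhs => unfold Cx
    unfold Cx
    rw [← tsum_neg, ← (Equiv.subLeft (1 : ℤ)).tsum_eq]
    congr 1
    funext j
    have : e - 2 * (((Equiv.subLeft (1 : ℤ)) j : ℤ) : ℝ) * e = -(e - 2 * (j : ℝ) * e) := by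
      simp only [Equiv.subLeft_apply]
      push_cast
      ring
    rw [this, Real.sinh_neg]
    rw [one_div, one_div, inv_neg]
  linarith

theorem C_lower (hs : S6_sm) (hy : S6_sy) {e x : ℝ} (he : 0 < e) (h0 : 0 < x)
    (h1 : x ≤ e) :
    1 / Real.sinh x - ∑' j : ℤ, |1 / Real.sinh (e - 2 * j * e)| ≤ Cx e x := by
  have s1 := summ_C hs hy he h0 (by linarith)
  have s2 := (summ_C hs hy he he (by linarith)).abs
  have s3 := s1.add s2
  have h2 := s3.le_tsum 0 (fun j hj => ?_)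
  · rw [s1.tsum_add s2] at h2
    simp only [Int.cast_zero, mul_zero, zero_mul, sub_zero] at h2
    have h3 : 0 ≤ |1 / Real.sinh e| := abs_nonneg _
    unfold Cx
    linarith
  · rcases lt_or_gt_of_ne hj with h | h
    · have h3 : (j : ℝ) < 0 := by exact_mod_cast h
      have h4 : 0 < x - 2 * j * e := by nlinarith
      have h5 : 0 < Real.sinh (x - 2 * j * e) := by rwa [Real.sinh_pos_iff]
      have h6 : 0 ≤ |1 / Real.sinh (e - 2 * j * e)| := abs_nonneg _
      have h7 : 0 < 1 / Real.sinh (x - 2 * j * e) := by positivity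
      linarith
    · have h3 : (1 : ℝ) ≤ j := by exact_mod_cast h
      have h4 : e - 2 * j * e < 0 := by nlinarith
      have h5 : x - 2 * j * e ≤ e - 2 * j * e := by linarith
      have h6 : Real.sinh (e - 2 * j * e) < 0 := by rwa [Real.sinh_neg_iff]
      have h7 : Real.sinh (x - 2 * j * e) ≤ Real.sinh (e - 2 * j * e) := by
        rwa [Real.sinh_le_sinh]
      rw [abs_of_neg (one_div_neg.mpr h6)]
      have h8 : 1 / Real.sinh (e - 2 * j * e) ≤ 1 / Real.sinh (x - 2 * j * e) :=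
        one_div_le_one_div_of_neg_of_le h6 h7
      linarith

theorem C_top (hs : S6_sm) (hy : S6_sy) {e : ℝ} (he : 0 < e) :
    Tendsto (Cx e) (𝓝[>] 0) atTop := by
  have h1 : Tendsto (fun x : ℝ => 1 / Real.sinh x) (𝓝[>] 0) atTop := by
    simp only [one_div]
    apply tendsto_inv_nhdsGT_zero.comp
    rw [tendsto_nhdsWithin_iff]
    constructor
    · have := (Real.continuous_sinh.tendsto 0)
      rw [Real.sinh_zero] at this
      exact this.mono_left nhdsWithin_le_nhds
    · filter_upwards [self_mem_nhdsWithin] with x hx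
      exact Real.sinh_pos_iff.mpr hx
  have h2 : Tendsto (fun x : ℝ => 1 / Real.sinh x - ∑' j : ℤ, |1 / Real.sinh (e - 2 * j * e)|)
      (𝓝[>] 0) atTop := by
    simp only [sub_eq_add_neg]
    exact tendsto_atTop_add_const_right _ _ h1
  apply tendsto_atTop_mono' _ _ h2
  have h3 : Set.Ioc 0 e ∈ 𝓝[>] (0 : ℝ) := Ioc_mem_nhdsGT he
  filter_upwards [h3] with x hx
  exact C_lower hs hy he hx.1 hx.2

/-- the integrand -/
noncomputable def gg (A b x : ℝ) : ℝ := 1 / (√(A ^ 2 + x ^ 2) * √(x ^ 2 + b))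

theorem gg_cont {A b : ℝ} (hA : 0 < A) (hb : 0 < b) : Continuous (gg A b) := by
  unfold gg
  apply Continuous.div continuous_const (by fun_prop)
  intro x
  positivity

theorem gg_int {A b : ℝ} (hA : 0 < A) (hb : 0 < b) : IntegrableOn (gg A b) (Set.Ioi 0) := by
  apply Integrable.integrableOn
  set m : ℝ := min 1 (min (A ^ 2) b) with hm
  have hm0 : 0 < m := by
    rw [hm]
    exact lt_min one_pos (lt_min (by positivity) hb)
  have hm1 : m ≤ 1 := min_le_left _ _
  have hm2 : m ≤ A ^ 2 := (min_le_right _ _).trans (min_le_left _ _)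
  have hm3 : m ≤ b := (min_le_right _ _).trans (min_le_right _ _)
  apply (integrable_inv_one_add_sq.const_mul (1 / m)).mono' (gg_cont hA hb).aestronglyMeasurable
  refine ae_of_all _ fun x => ?_
  have h1 : m * (1 + x ^ 2) ≤ A ^ 2 + x ^ 2 := by nlinarith [sq_nonneg x]
  have h2 : m * (1 + x ^ 2) ≤ x ^ 2 + b := by nlinarith [sq_nonneg x]
  have h0 : 0 < m * (1 + x ^ 2) := by positivity
  have h3 : m * (1 + x ^ 2) ≤ √(A ^ 2 + x ^ 2) * √(x ^ 2 + b) := by
    rw [← Real.sqrt_mul (by positivity)]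
    apply Real.le_sqrt_of_sq_le
    rw [pow_two]
    exact mul_le_mul h1 h2 h0.le (by positivity)
  unfold gg
  rw [Real.norm_eq_abs, abs_of_nonneg (by positivity)]
  calc 1 / (√(A ^ 2 + x ^ 2) * √(x ^ 2 + b)) ≤ 1 / (m * (1 + x ^ 2)) :=
        one_div_le_one_div_of_le h0 h3
    _ = 1 / m * (1 + x ^ 2)⁻¹ := by
        have : 1 + x ^ 2 ≠ 0 := by positivity
        field_simp

theorem cl (hs : S6_sm) (hy : S6_sy) : S6_cl := by
  intro e b he hO
  have hA : 0 < As e := by
    obtain ⟨_, _, _, _, _, _, _, _, _, _, _, h, _⟩ := hy e he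
    exact h
  have hb : 0 < b := by
    have h1 := ode hy he hO he (by linarith)
    have h2 := D_neg hs hy he he (by linarith)
    rw [C_e] at h1
    have h3 : 0 < Dx e e ^ 2 := by
      rw [pow_two]
      exact mul_pos_of_neg_of_neg h2 h2
    rw [h1] at h3
    have h4 : 0 < As e ^ 2 := by positivity
    nlinarith
  refine ⟨hb, ?_⟩
  have hg := gg_cont hA hb
  set Φ : ℝ → ℝ := fun y => ∫ s in (0 : ℝ)..y, gg (As e) b s with hΦ
  have hΦd : ∀ y, HasDerivAt Φ (gg (As e) b y) y := fun y =>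
    (hg.integral_hasStrictDerivAt 0 y).hasDerivAt
  have hd : ∀ x, 0 < x → x < 2 * e → HasDerivAt (fun x => Φ (Cx e x) + x) 0 x := by
    intro x h0 h1
    have h2 := (hΦd (Cx e x)).comp x (hasDeriv_C hs hy he h0 h1)
    have h3 := h2.add (hasDerivAt_id x)
    have h4 := ode hy he hO h0 h1
    have h5 := D_neg hs hy he h0 h1
    have h6 : Dx e x = -(√(As e ^ 2 + Cx e x ^ 2) * √(Cx e x ^ 2 + b)) := by
      rw [← Real.sqrt_mul (by positivity), ← h4, Real.sqrt_sq_eq_abs, abs_of_neg h5]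
      ring
    have h7 : gg (As e) b (Cx e x) * Dx e x + 1 = 0 := by
      unfold gg
      rw [h6]
      have : 0 < √(As e ^ 2 + Cx e x ^ 2) * √(Cx e x ^ 2 + b) := by positivity
      field_simp
      ring
    rw [h7] at h3
    exact h3
  have hconst : ∀ x, 0 < x → x ≤ e → Φ (Cx e x) = e - x := by
    intro x h0 h1
    have h2 := constant_of_has_deriv_right_zero (f := fun x => Φ (Cx e x) + x) (a := x) (b := e)
      (fun y hy' => (hd y (h0.trans_le hy'.1) (by linarith [hy'.2])).continuousAt.continuousWithinAt)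
      (fun y hy' => (hd y (h0.trans_le hy'.1) (by linarith [hy'.2])).hasDerivWithinAt) e
      ⟨h1, le_refl _⟩
    simp only [C_e] at h2
    have h3 : Φ 0 = 0 := by simp [hΦ]
    rw [h3] at h2
    linarith
  have hl1 : Tendsto (fun x => Φ (Cx e x)) (𝓝[>] 0) (𝓝 (∫ x in Set.Ioi (0 : ℝ), gg (As e) b x)) :=
    intervalIntegral_tendsto_integral_Ioi 0 (gg_int hA hb) (C_top hs hy he)
  have hl2 : Tendsto (fun x => Φ (Cx e x)) (𝓝[>] 0) (𝓝 e) := by
    have h1 : Tendsto (fun x : ℝ => e - x) (𝓝[>] 0) (𝓝 e) := by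
      have : Tendsto (fun x : ℝ => e - x) (𝓝 0) (𝓝 (e - 0)) := by
        apply Continuous.tendsto; fun_prop
      rw [sub_zero] at this
      exact this.mono_left nhdsWithin_le_nhds
    apply h1.congr'
    filter_upwards [Ioc_mem_nhdsGT he] with x hx
    exact (hconst x hx.1 hx.2).symm
  exact tendsto_nhds_unique hl2 hl1

end Pool.Agent.TH41.BL.CL5f
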