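import Mathlib
import Pool.Agent.TH41.BL.Stm5

/-!
Project BL5 (helper41, MP_0430e4_lc), piece CU: the cube.
-/

set_option autoImplicit false

open MeasureTheory Filter Topology

namespace Pool.Agent.TH41.BL.CU5f

open Pool.Agent.TH41.BL

/-- the shear of the lattice -/
def shear : ℤ × ℤ ≃ ℤ × ℤ where
  toFun p := (p.2 - p.1, p.2)
  invFun p := (p.2 - p.1, p.2)
  left_inv p := by ext <;> simp
  right_inv p := by ext <;> simp

/-- the addition formula -/
lemma ident {x y δ : ℂ} (hx : Complex.cosh x ≠ 0) (hy : Complex.cosh y ≠ 0)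
    (hδ : Complex.sinh δ ≠ 0) (h : x = y + δ) :
    1 / Complex.cosh x * (1 / Complex.cosh y ^ 2) =
      (Complex.cosh δ * (1 / Complex.cosh y) - 1 / Complex.cosh x) / Complex.sinh δ ^ 2 -
        Complex.sinh y / Complex.cosh y ^ 2 / Complex.sinh δ := by
  have e1 : Complex.cosh x = Complex.cosh y * Complex.cosh δ + Complex.sinh y * Complex.sinh δ := by
    rw [h, Complex.cosh_add]
  have e2 := Complex.cosh_sq y
  have e3 := Complex.cosh_sq δ
  field_simp
  rw [e1]
  linear_combination (-(Complex.sinh δ) ^ 2) * e2 - (Complex.cosh y ^ 2) * e3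

lemma double {θ : ℂ} (h1 : Complex.sinh θ ≠ 0) (h2 : Complex.cosh θ ≠ 0) (f : ℂ) :
    (Complex.cosh (2 * θ) * f - f) / Complex.sinh (2 * θ) ^ 2 =
      1 / 2 * (1 / Complex.cosh θ ^ 2) * f := by
  rw [Complex.cosh_two_mul, Complex.sinh_two_mul]
  have e := Complex.cosh_sq θ
  field_simp
  linear_combination f * e

theorem cu (hs : S6_sm) : S6_cu := by
  intro e he
  obtain ⟨hs1, -, hs3⟩ := hs e he
  refine ⟨1 / 2 * ∑' d : ℤ, if d = 0 then 0 else 1 / Real.cosh (d * e) ^ 2, fun u hu => ?_⟩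
  obtain ⟨sF, sP, sT, sS, -, -⟩ := hs1 u hu
  set a : ℤ → ℂ := fun j => 1 / Complex.cosh (u - 2 * j * e) with ha
  set b : ℤ → ℂ := fun j => 1 / Complex.cosh (u - 2 * j * e) ^ 2 with hb
  set t : ℤ → ℂ := fun j => Complex.sinh (u - 2 * j * e) / Complex.cosh (u - 2 * j * e) ^ 2 with ht
  have hF : Fs e u = ∑' j, a j := rfl
  have hP : Ps e u = ∑' j, b j := rfl
  have hT : Ts e u = ∑' j : ℤ, 1 / Complex.cosh (u - 2 * j * e) ^ 3 := rfl
  have prod : (∑' j, a j) * ∑' j, b j = ∑' z : ℤ × ℤ, a z.1 * b z.2 :=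
    tsum_mul_tsum_of_summable_norm sF sP
  have sprod : Summable (fun z : ℤ × ℤ => a z.1 * b z.2) := summable_mul_of_summable_norm sF sP
  have s2 : Summable (fun z : ℤ × ℤ => a (shear z).1 * b (shear z).2) :=
    (shear.summable_iff (f := fun z : ℤ × ℤ => a z.1 * b z.2)).2 sprod
  have r2 : ∑' z : ℤ × ℤ, a (shear z).1 * b (shear z).2 = ∑' z : ℤ × ℤ, a z.1 * b z.2 :=
    shear.tsum_eq (fun z : ℤ × ℤ => a z.1 * b z.2)
  have r3 : ∑' z : ℤ × ℤ, a (shear z).1 * b (shear z).2 =
      ∑' d : ℤ, ∑' l : ℤ, a (l - d) * b l := s2.tsum_prod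
  have s4 : Summable (fun d : ℤ => ∑' l : ℤ, a (l - d) * b l) := s2.prod
  set S : ℂ := ∑' j, t j with hS
  set q : ℤ → ℂ := fun d => S / Complex.sinh (2 * d * e) with hq
  set p : ℤ → ℂ := fun d => if d = 0 then Ts e u else 0 with hp
  set r : ℤ → ℝ := fun d => if d = 0 then 0 else 1 / Real.cosh (d * e) ^ 2 with hr
  have key : ∀ d : ℤ, ∑' l : ℤ, a (l - d) * b l = p d + (r d : ℂ) * (1 / 2 * Fs e u) - q d := by
    intro d
    by_cases hd : d = 0
    · subst hd
      simp only [hp, hr, hq, if_true, sub_zero, Int.cast_zero, mul_zero, zero_mul,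
        Complex.sinh_zero, div_zero, Complex.ofReal_zero, add_zero]
      rw [hT]
      refine tsum_congr fun l => ?_
      simp only [ha, hb]
      rw [one_div_mul_one_div]
      congr 1
      ring
    · have hd' : (d : ℝ) * e ≠ 0 := mul_ne_zero (by exact_mod_cast hd) he.ne'
      have h1 : Complex.sinh ((d : ℂ) * e) ≠ 0 := by
        have : Real.sinh (d * e) ≠ 0 := by
          rw [Ne, Real.sinh_eq_zero]; exact hd'
        have h2 : ((Real.sinh (d * e) : ℝ) : ℂ) ≠ 0 := by exact_mod_cast this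
        rwa [Complex.ofReal_sinh, Complex.ofReal_mul, Complex.ofReal_intCast] at h2
      have h2 : Complex.cosh ((d : ℂ) * e) ≠ 0 := by
        have : Real.cosh (d * e) ≠ 0 := (Real.cosh_pos _).ne'
        have h2 : ((Real.cosh (d * e) : ℝ) : ℂ) ≠ 0 := by exact_mod_cast this
        rwa [Complex.ofReal_cosh, Complex.ofReal_mul, Complex.ofReal_intCast] at h2
      have h3 : Complex.sinh (2 * d * e) ≠ 0 := by
        rw [show (2 * d * e : ℂ) = 2 * (d * e) by ring, Complex.sinh_two_mul]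
        exact mul_ne_zero (mul_ne_zero two_ne_zero h1) h2
      have hA : HasSum a (Fs e u) := hF ▸ sF.of_norm.hasSum
      have hAd : HasSum (fun l => a (l - d)) (Fs e u) :=
        ((Equiv.subRight d).hasSum_iff (f := a)).2 hA
      have hSs : HasSum t S := sS.of_norm.hasSum
      have hall : HasSum (fun l : ℤ => (Complex.cosh (2 * d * e) * a l - a (l - d)) /
          Complex.sinh (2 * d * e) ^ 2 - t l / Complex.sinh (2 * d * e))
          ((Complex.cosh (2 * d * e) * Fs e u - Fs e u) /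
          Complex.sinh (2 * d * e) ^ 2 - S / Complex.sinh (2 * d * e)) :=
        (((hA.mul_left _).sub hAd).div_const _).sub (hSs.div_const _)
      have hcong : ∀ l : ℤ, a (l - d) * b l = (Complex.cosh (2 * d * e) * a l - a (l - d)) /
          Complex.sinh (2 * d * e) ^ 2 - t l / Complex.sinh (2 * d * e) := by
        intro l
        have := ident (x := u - 2 * ((l - d : ℤ) : ℂ) * e) (y := u - 2 * l * e)
          (δ := 2 * d * e) (hu (l - d)) (hu l) h3 (by push_cast; ring)
        exact this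
      rw [tsum_congr hcong, hall.tsum_eq]
      simp only [hp, hr, hq, if_neg hd, zero_add]
      congr 1
      rw [show (2 * d * e : ℂ) = 2 * (d * e) by ring, double h1 h2]
      push_cast
      ring
  have hpS : HasSum p (Ts e u) := by
    have := hasSum_ite_eq (0 : ℤ) (Ts e u)
    exact this
  have hrS : HasSum (fun d => (r d : ℂ)) ((∑' d, r d : ℝ) : ℂ) :=
    Complex.ofRealCLM.hasSum hs3.hasSum
  have hpr : HasSum (fun d => p d + (r d : ℂ) * (1 / 2 * Fs e u))
      (Ts e u + ((∑' d, r d : ℝ) : ℂ) * (1 / 2 * Fs e u)) := hpS.add (hrS.mul_right _)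
  have hqS : Summable q := by
    have h5 := hpr.summable.sub s4
    refine h5.congr fun d => ?_
    rw [key d]
    ring
  have hq0 : ∑' d, q d = 0 := by
    have h6 : ∑' d, q (-d) = ∑' d, q d := (Equiv.neg ℤ).tsum_eq q
    have h7 : ∀ d, q (-d) = -q d := by
      intro d
      simp only [hq]
      rw [show (2 * ((-d : ℤ) : ℂ) * e : ℂ) = -(2 * d * e) by push_cast; ring, Complex.sinh_neg,
        div_neg]
    rw [tsum_congr h7, tsum_neg] at h6
    exact CharZero.eq_neg_self_iff.1 h6.symm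
  have hqH : HasSum q 0 := hq0 ▸ hqS.hasSum
  rw [hF, hP, prod, ← r2, r3, tsum_congr key, (hpr.sub hqH).tsum_eq, ← hF]
  push_cast
  ring

end Pool.Agent.TH41.BL.CU5f
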