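import Mathlib
import Pool.Agent.TH41.BL.Stm5

/-!
BL5-CZ: the constant `c0`, by integration along the imaginary axis.
-/

set_option autoImplicit false

open MeasureTheory Filter Topology

namespace Pool.Agent.TH41.BL.CZ5f

open Pool.Agent.TH41.BL

lemma arg_eq (y e : ℝ) (j : ℤ) :
    ((y : ℂ) * Complex.I - 2 * j * e) = (y : ℂ) * Complex.I - ((2 * j * e : ℝ) : ℂ) := by
  push_cast
  ring

lemma cosh_eq (y a : ℝ) : Complex.cosh ((y : ℂ) * Complex.I - (a : ℂ)) =
    ((Real.cos y * Real.cosh a : ℝ) : ℂ) - ((Real.sin y * Real.sinh a : ℝ) : ℂ) * Complex.I := by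
  rw [Complex.cosh_sub, Complex.cosh_mul_I, Complex.sinh_mul_I]
  push_cast
  ring

lemma sinh_eq (y a : ℝ) : Complex.sinh ((y : ℂ) * Complex.I - (a : ℂ)) =
    ((Real.sin y * Real.cosh a : ℝ) : ℂ) * Complex.I - ((Real.cos y * Real.sinh a : ℝ) : ℂ) := by
  rw [Complex.sinh_sub, Complex.cosh_mul_I, Complex.sinh_mul_I]
  push_cast
  ring

lemma norm_cosh (y a : ℝ) : |Real.sinh a| ≤ ‖Complex.cosh ((y : ℂ) * Complex.I - (a : ℂ))‖ := by
  have h : ‖Complex.cosh ((y : ℂ) * Complex.I - (a : ℂ))‖ ^ 2 =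
      Real.cos y ^ 2 + Real.sinh a ^ 2 := by
    rw [cosh_eq, Complex.sq_norm, Complex.normSq_apply]
    simp only [Complex.sub_re, Complex.sub_im, Complex.mul_re, Complex.mul_im, Complex.ofReal_re,
      Complex.ofReal_im, Complex.I_re, Complex.I_im]
    have h1 := Real.sin_sq_add_cos_sq y
    have h2 := Real.cosh_sq a
    nlinarith
  refine abs_le_of_sq_le_sq ?_ (norm_nonneg _)
  rw [h]
  nlinarith [sq_nonneg (Real.cos y)]

lemma sinh_ne {e : ℝ} (he : 0 < e) {j : ℤ} (hj : j ≠ 0) : Real.sinh (2 * j * e) ≠ 0 := by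
  rw [Ne, Real.sinh_eq_zero]
  have : (j : ℝ) ≠ 0 := by exact_mod_cast hj
  positivity

/-- the bounds -/
noncomputable def bd (e : ℝ) (j : ℤ) : ℝ := if j = 0 then 0 else 1 / |Real.sinh (2 * j * e)|

lemma bd_nonneg (e : ℝ) (j : ℤ) : 0 ≤ bd e j := by
  unfold bd
  split_ifs
  · exact le_rfl
  · positivity

lemma bd_summable {e : ℝ} (he : 0 < e)
    (h : Summable (fun d : ℤ => if d = 0 then 0 else 2 * (d : ℝ) / Real.sinh (2 * d * e))) :
    Summable (bd e) := by
  refine Summable.of_nonneg_of_le (bd_nonneg e) (fun j => ?_) h.norm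
  unfold bd
  split_ifs with hj
  · simp
  · rw [norm_div, Real.norm_eq_abs, Real.norm_eq_abs]
    have h1 : 0 < |Real.sinh (2 * j * e)| := abs_pos.mpr (sinh_ne he hj)
    have h2 : (1 : ℝ) ≤ |(j : ℝ)| := by
      have : (1 : ℤ) ≤ |j| := Int.one_le_abs hj
      exact_mod_cast this
    rw [abs_mul, abs_two]
    gcongr
    linarith

lemma bd2_summable {e : ℝ} (h : Summable (bd e)) : Summable (fun j => bd e j ^ 2) := by
  have h1 := h.mul_of_nonneg h (bd_nonneg e) (bd_nonneg e)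
  have h2 := h1.comp_injective (i := fun j : ℤ => (j, j)) (fun a b hab => (Prod.ext_iff.mp hab).1)
  refine h2.congr fun j => ?_
  show bd e j * bd e j = bd e j ^ 2
  ring

/-- the terms -/
noncomputable def rj (e : ℝ) (j : ℤ) (y : ℝ) : ℂ :=
  if j = 0 then 0 else 1 / Complex.cosh ((y : ℂ) * Complex.I - 2 * j * e)

noncomputable def qj (e : ℝ) (j : ℤ) (y : ℝ) : ℂ :=
  if j = 0 then 0 else 1 / Complex.cosh ((y : ℂ) * Complex.I - 2 * j * e) ^ 2

noncomputable def Rj (e : ℝ) (j : ℤ) (y : ℝ) : ℂ :=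
  if j = 0 then 0 else -Complex.I *
    (Complex.sinh ((y : ℂ) * Complex.I - 2 * j * e) / Complex.cosh ((y : ℂ) * Complex.I - 2 * j * e)
      + Complex.sinh (2 * j * e) / Complex.cosh (2 * j * e))

lemma cosh_ne {e : ℝ} (he : 0 < e) {j : ℤ} (hj : j ≠ 0) (y : ℝ) :
    Complex.cosh ((y : ℂ) * Complex.I - 2 * j * e) ≠ 0 := by
  rw [arg_eq]
  intro h
  have h1 := norm_cosh y (2 * j * e)
  rw [h, norm_zero] at h1
  exact sinh_ne he hj (abs_eq_zero.mp (le_antisymm h1 (abs_nonneg _)))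

lemma rj_le {e : ℝ} (he : 0 < e) (j : ℤ) (y : ℝ) : ‖rj e j y‖ ≤ bd e j := by
  unfold rj bd
  split_ifs with hj
  · simp
  · rw [norm_div, norm_one, arg_eq]
    have h1 : 0 < |Real.sinh (2 * j * e)| := abs_pos.mpr (sinh_ne he hj)
    exact one_div_le_one_div_of_le h1 (norm_cosh y _)

lemma qj_le {e : ℝ} (he : 0 < e) (j : ℤ) (y : ℝ) : ‖qj e j y‖ ≤ bd e j ^ 2 := by
  have h : ‖qj e j y‖ = ‖rj e j y‖ ^ 2 := by
    unfold qj rj
    split_ifs with hj
    · simp
    · rw [norm_div, norm_div, norm_pow, norm_one, div_pow, one_pow]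
  rw [h]
  exact pow_le_pow_left₀ (norm_nonneg _) (rj_le he j y) 2

lemma rj_cont {e : ℝ} (he : 0 < e) (j : ℤ) : Continuous (rj e j) := by
  unfold rj
  by_cases hj : j = 0
  · simp only [hj, if_true]
    exact continuous_const
  · simp only [hj, if_false]
    refine Continuous.div continuous_const ?_ (fun y => cosh_ne he hj y)
    fun_prop

/-- the regular part of `F` -/
noncomputable def rS (e : ℝ) (y : ℝ) : ℂ := ∑' j, rj e j y

noncomputable def qS (e : ℝ) (y : ℝ) : ℂ := ∑' j, qj e j y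

noncomputable def RS (e : ℝ) (y : ℝ) : ℂ := ∑' j, Rj e j y

lemma rS_cont {e : ℝ} (he : 0 < e) (hb : Summable (bd e)) : Continuous (rS e) :=
  continuous_tsum (rj_cont he) hb (fun j y => rj_le he j y)

lemma Rj_deriv {e : ℝ} (he : 0 < e) (j : ℤ) (y : ℝ) : HasDerivAt (Rj e j) (qj e j y) y := by
  unfold Rj qj
  by_cases hj : j = 0
  · simp only [hj, if_true]
    exact hasDerivAt_const _ _
  · simp only [hj, if_false]
    have h1 : HasDerivAt (fun y : ℝ => (y : ℂ) * Complex.I - 2 * j * e) (1 * Complex.I) y :=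
      ((hasDerivAt_id y).ofReal_comp.mul_const Complex.I).sub_const _
    have hne := cosh_ne he hj y
    have h2 : HasDerivAt (fun z : ℂ => Complex.sinh z / Complex.cosh z)
        ((Complex.cosh ((y : ℂ) * Complex.I - 2 * j * e) *
          Complex.cosh ((y : ℂ) * Complex.I - 2 * j * e) -
          Complex.sinh ((y : ℂ) * Complex.I - 2 * j * e) *
          Complex.sinh ((y : ℂ) * Complex.I - 2 * j * e)) /
          Complex.cosh ((y : ℂ) * Complex.I - 2 * j * e) ^ 2) ((y : ℂ) * Complex.I - 2 * j * e) :=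
      (Complex.hasDerivAt_sinh _).div (Complex.hasDerivAt_cosh _) hne
    have h3 := ((h2.comp y h1).add_const (Complex.sinh (2 * j * e) /
      Complex.cosh (2 * j * e))).const_mul (-Complex.I)
    refine h3.congr_deriv ?_
    have h4 := Complex.cosh_sq_sub_sinh_sq ((y : ℂ) * Complex.I - 2 * j * e)
    have h5 : Complex.cosh ((y : ℂ) * Complex.I - 2 * j * e) *
          Complex.cosh ((y : ℂ) * Complex.I - 2 * j * e) -
          Complex.sinh ((y : ℂ) * Complex.I - 2 * j * e) *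
          Complex.sinh ((y : ℂ) * Complex.I - 2 * j * e) = 1 := by
      rw [← h4]
      ring
    rw [h5]
    have h6 : Complex.I * Complex.I = -1 := Complex.I_mul_I
    linear_combination (-(1 / Complex.cosh ((y : ℂ) * Complex.I - 2 * j * e) ^ 2)) * h6

lemma Rj_zero (e : ℝ) (j : ℤ) : Rj e j 0 = 0 := by
  unfold Rj
  split_ifs with hj
  · rfl
  · have h : ((0 : ℝ) : ℂ) * Complex.I - 2 * j * e = -(2 * j * e) := by
      push_cast
      ring
    rw [h, Complex.sinh_neg, Complex.cosh_neg]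
    ring

lemma RS_zero (e : ℝ) : RS e 0 = 0 := by
  unfold RS
  simp only [Rj_zero, tsum_zero]

lemma RS_deriv {e : ℝ} (he : 0 < e) (hb : Summable (bd e)) (y : ℝ) :
    HasDerivAt (RS e) (qS e y) y := by
  refine hasDerivAt_tsum (bd2_summable hb) (fun j y => Rj_deriv he j y)
    (fun j y => qj_le he j y) (y₀ := 0) ?_ y
  simp only [Rj_zero]
  exact summable_zero

lemma odd_tsum (f : ℤ → ℂ) (h : ∀ j, f (-j) = -f j) : ∑' j, f j = 0 := by
  have h1 := (Equiv.neg ℤ).tsum_eq f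
  have h2 : ∑' j, f ((Equiv.neg ℤ) j) = -∑' j, f j := by
    rw [← tsum_neg]
    refine tsum_congr fun j => ?_
    exact h j
  rw [h2] at h1
  have h3 : (2 : ℂ) * ∑' j, f j = 0 := by linear_combination -h1
  exact (mul_eq_zero.mp h3).resolve_left two_ne_zero

lemma rS_half {e : ℝ} : rS e (Real.pi / 2) = 0 := by
  refine odd_tsum _ fun j => ?_
  unfold rj
  by_cases hj : j = 0
  · simp [hj]
  · rw [if_neg (neg_ne_zero.mpr hj), if_neg hj, arg_eq, arg_eq, cosh_eq, cosh_eq]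
    simp only [Real.cos_pi_div_two, Real.sin_pi_div_two]
    have h1 : (2 * ((-j : ℤ) : ℝ) * e) = -(2 * j * e) := by push_cast; ring
    rw [h1, Real.sinh_neg]
    push_cast
    rw [show ((0 : ℂ) * Complex.cosh (-(2 * j * e)) - 1 * -Complex.sinh (2 * j * e) * Complex.I) =
      -((0 : ℂ) * Complex.cosh (2 * j * e) - 1 * Complex.sinh (2 * j * e) * Complex.I) by ring,
      div_neg]

lemma RS_half {e : ℝ} : RS e (Real.pi / 2) = 0 := by
  refine odd_tsum _ fun j => ?_
  unfold Rj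
  by_cases hj : j = 0
  · simp [hj]
  · rw [if_neg (neg_ne_zero.mpr hj), if_neg hj, arg_eq, arg_eq, cosh_eq, cosh_eq, sinh_eq, sinh_eq]
    simp only [Real.cos_pi_div_two, Real.sin_pi_div_two]
    have h1 : (2 * ((-j : ℤ) : ℝ) * e) = -(2 * j * e) := by push_cast; ring
    have h2 : (2 * ((-j : ℤ) : ℂ) * e) = -(2 * j * e) := by push_cast; ring
    rw [h1, h2, Real.sinh_neg, Real.cosh_neg, Complex.sinh_neg, Complex.cosh_neg]
    push_cast
    rw [show ((0 : ℂ) * Complex.cosh (2 * j * e) - 1 * -Complex.sinh (2 * j * e) * Complex.I) =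
      -((0 : ℂ) * Complex.cosh (2 * j * e) - 1 * Complex.sinh (2 * j * e) * Complex.I) by ring,
      div_neg]
    ring

/-! ### The function on the imaginary axis -/

lemma memU {e : ℝ} (he : 0 < e) (hy : S6_sy) {y : ℝ} (h : |y| < Real.pi / 2) :
    ((y : ℂ) * Complex.I) ∈ Us e := by
  refine (hy e he).2.2.2.2.2.2.2.1 _ ?_
  simpa using h

/-- splitting off the term `j = 0` -/
lemma Fs_split {e : ℝ} (he : 0 < e) (hs : S6_sm) (hy : S6_sy) {y : ℝ} (h : |y| < Real.pi / 2) :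
    Fs e ((y : ℂ) * Complex.I) = ((1 / Real.cos y : ℝ) : ℂ) + rS e y := by
  have h1 := ((hs e he).1 _ (memU he hy h)).1.of_norm
  unfold Fs rS
  rw [h1.tsum_eq_add_tsum_ite 0]
  congr 1
  push_cast
  rw [mul_zero, zero_mul, sub_zero, Complex.cosh_mul_I]

lemma Ps_split {e : ℝ} (he : 0 < e) (hs : S6_sm) (hy : S6_sy) {y : ℝ} (h : |y| < Real.pi / 2) :
    Ps e ((y : ℂ) * Complex.I) = ((1 / Real.cos y ^ 2 : ℝ) : ℂ) + qS e y := by
  have h1 := ((hs e he).1 _ (memU he hy h)).2.1.of_norm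
  unfold Ps qS
  rw [h1.tsum_eq_add_tsum_ite 0]
  congr 1
  push_cast
  rw [mul_zero, zero_mul, sub_zero, Complex.cosh_mul_I]

/-- the restriction to the imaginary axis -/
noncomputable def g (e y : ℝ) : ℝ := (Fs e ((y : ℂ) * Complex.I)).re

/-- its derivative -/
noncomputable def g1 (e y : ℝ) : ℝ := (Gs e ((y : ℂ) * Complex.I) * Complex.I).re

lemma F_real {e : ℝ} (he : 0 < e) (hy : S6_sy) (y : ℝ) :
    Fs e ((y : ℂ) * Complex.I) = (g e y : ℂ) := by
  have h1 := (hy e he).2.2.1 ((y : ℂ) * Complex.I)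
  have h2 := (hy e he).2.1 ((y : ℂ) * Complex.I)
  have h3 : (starRingEnd ℂ) ((y : ℂ) * Complex.I) = -((y : ℂ) * Complex.I) := by
    rw [map_mul, Complex.conj_ofReal, Complex.conj_I]
    ring
  rw [h3, h2] at h1
  exact (Complex.conj_eq_iff_re.mp h1.symm).symm

lemma F_deriv {e : ℝ} (he : 0 < e) (hs : S6_sm) (hy : S6_sy) {y : ℝ} (h : |y| < Real.pi / 2) :
    HasDerivAt (fun y : ℝ => Fs e ((y : ℂ) * Complex.I)) (Gs e ((y : ℂ) * Complex.I) * Complex.I)
      y := by
  have h1 : HasDerivAt (fun y : ℝ => (y : ℂ) * Complex.I) (1 * Complex.I) y :=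
    (hasDerivAt_id y).ofReal_comp.mul_const Complex.I
  have h2 := ((hs e he).1 _ (memU he hy h)).2.2.2.2.1
  refine (h2.comp y h1).congr_deriv ?_
  rw [one_mul]

lemma g_deriv {e : ℝ} (he : 0 < e) (hs : S6_sm) (hy : S6_sy) {y : ℝ} (h : |y| < Real.pi / 2) :
    HasDerivAt (g e) (g1 e y) y :=
  Complex.reCLM.hasFDerivAt.comp_hasDerivAt y (F_deriv he hs hy h)

lemma G_real {e : ℝ} (he : 0 < e) (hs : S6_sm) (hy : S6_sy) {y : ℝ} (h : |y| < Real.pi / 2) :
    Gs e ((y : ℂ) * Complex.I) * Complex.I = (g1 e y : ℂ) := by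
  have h1 : HasDerivAt (fun y : ℝ => (Fs e ((y : ℂ) * Complex.I)).im)
      (Gs e ((y : ℂ) * Complex.I) * Complex.I).im y :=
    Complex.imCLM.hasFDerivAt.comp_hasDerivAt y (F_deriv he hs hy h)
  have h2 : (fun y : ℝ => (Fs e ((y : ℂ) * Complex.I)).im) = fun _ => (0 : ℝ) := by
    funext y
    rw [F_real he hy y, Complex.ofReal_im]
  rw [h2] at h1
  have h3 := h1.unique (hasDerivAt_const y (0 : ℝ))
  exact Complex.ext rfl (by rw [h3, Complex.ofReal_im])

lemma g1_sq {e b : ℝ} (he : 0 < e) (hs : S6_sm) (hy : S6_sy) (ho : OD e b) {y : ℝ}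
    (h : |y| < Real.pi / 2) :
    g1 e y ^ 2 = (g e y ^ 2 - As e ^ 2) * (g e y ^ 2 - b) := by
  have h1 := ho.1 _ (memU he hy h) (by
    have : ((y : ℂ) * Complex.I).im = y := by simp
    rw [this]
    exact h.le)
  rw [F_real he hy y] at h1
  have h2 := G_real he hs hy h
  have h3 : (g1 e y : ℂ) ^ 2 = ((g e y : ℂ) ^ 2 - (As e : ℂ) ^ 2) * ((g e y : ℂ) ^ 2 - b) := by
    rw [← h2, mul_pow, Complex.I_sq, h1]
    ring
  exact_mod_cast h3

lemma g1_deriv {e b : ℝ} (he : 0 < e) (hs : S6_sm) (hy : S6_sy) (ho : OD e b) {y : ℝ}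
    (h : |y| < Real.pi / 2) :
    HasDerivAt (g1 e) (2 * g e y ^ 3 - (As e ^ 2 + b) * g e y) y := by
  have h1 : HasDerivAt (fun y : ℝ => (y : ℂ) * Complex.I) (1 * Complex.I) y :=
    (hasDerivAt_id y).ofReal_comp.mul_const Complex.I
  have h2 := ((hs e he).1 _ (memU he hy h)).2.2.2.2.2
  have h3 := Complex.reCLM.hasFDerivAt.comp_hasDerivAt y ((h2.comp y h1).mul_const Complex.I)
  refine h3.congr_deriv ?_
  rw [ho.2 _ (memU he hy h), F_real he hy y, Complex.reCLM_apply]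
  have h4 : (((As e : ℂ) ^ 2 + b) * (g e y : ℂ) - 2 * (g e y : ℂ) ^ 3) * (1 * Complex.I) *
      Complex.I = ((2 * g e y ^ 3 - (As e ^ 2 + b) * g e y : ℝ) : ℂ) := by
    push_cast
    linear_combination (((As e : ℂ) ^ 2 + b) * (g e y : ℂ) - 2 * (g e y : ℂ) ^ 3) *
      Complex.I_mul_I
  rw [h4, Complex.ofReal_re]

lemma g_zero {e : ℝ} (he : 0 < e) (hy : S6_sy) : g e 0 = As e := by
  unfold g
  rw [Complex.ofReal_zero, zero_mul, (hy e he).2.2.2.1, Complex.ofReal_re]

lemma g1_zero {e : ℝ} (he : 0 < e) (hy : S6_sy) : g1 e 0 = 0 := by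
  unfold g1
  rw [Complex.ofReal_zero, zero_mul, (hy e he).2.2.2.2.2.1, zero_mul, Complex.zero_re]

lemma absI {y : ℝ} (h0 : 0 ≤ y) (h1 : y < Real.pi / 2) : |y| < Real.pi / 2 := by
  rwa [abs_of_nonneg h0]

lemma g_ge {e b k : ℝ} (he : 0 < e) (hs : S6_sm) (hy : S6_sy) (ho : OD e b) (hk : 0 < k)
    (hk1 : k < 1) (hbk : b = (k * As e) ^ 2) {y : ℝ} (h0 : 0 ≤ y) (h1 : y < Real.pi / 2) :
    As e ≤ g e y := by
  by_contra hlt
  push Not at hlt
  have hA : 0 < As e := (hy e he).2.2.2.2.2.2.2.2.2.2.2.1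
  have hkA : k * As e < As e := by nlinarith
  obtain ⟨v, hv⟩ : ∃ v, v = max (g e y) ((k * As e + As e) / 2) := ⟨_, rfl⟩
  have hv1 : g e y ≤ v := by
    rw [hv]
    exact le_max_left _ _
  have hv2 : v < As e := by
    rw [hv]
    exact max_lt hlt (by linarith)
  have hv3 : k * As e < v := by
    rw [hv]
    refine lt_of_lt_of_le ?_ (le_max_right _ _)
    linarith
  have hcont : ContinuousOn (g e) (Set.Icc 0 y) := fun x hx =>
    (g_deriv he hs hy (absI hx.1 (lt_of_le_of_lt hx.2 h1))).continuousAt.continuousWithinAt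
  obtain ⟨x, hx, hxv⟩ := intermediate_value_Icc' h0 hcont
    (show v ∈ Set.Icc (g e y) (g e 0) from ⟨hv1, by rw [g_zero he hy]; exact hv2.le⟩)
  have h3 := g1_sq he hs hy ho (absI hx.1 (lt_of_le_of_lt hx.2 h1))
  rw [hxv, hbk] at h3
  have hkA0 : 0 < k * As e := mul_pos hk hA
  have h4 : v ^ 2 - As e ^ 2 < 0 := by nlinarith
  have h5 : 0 < v ^ 2 - (k * As e) ^ 2 := by nlinarith
  have h6 := mul_neg_of_neg_of_pos h4 h5
  nlinarith [sq_nonneg (g1 e x)]

lemma g1_pos {e b k : ℝ} (he : 0 < e) (hs : S6_sm) (hy : S6_sy) (ho : OD e b) (hk : 0 < k)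
    (hk1 : k < 1) (hbk : b = (k * As e) ^ 2) {y : ℝ} (h0 : 0 < y) (h1 : y < Real.pi / 2) :
    0 < g1 e y := by
  have hA : 0 < As e := (hy e he).2.2.2.2.2.2.2.2.2.2.2.1
  have hcont : ContinuousOn (g1 e) (Set.Icc 0 y) := fun x hx =>
    (g1_deriv he hs hy ho (absI hx.1 (lt_of_le_of_lt hx.2 h1))).continuousAt.continuousWithinAt
  have hmono : StrictMonoOn (g1 e) (Set.Icc 0 y) := by
    refine strictMonoOn_of_deriv_pos (convex_Icc 0 y) hcont ?_
    intro x hx
    rw [interior_Icc] at hx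
    have hx1 := lt_trans hx.2 h1
    rw [(g1_deriv he hs hy ho (absI hx.1.le hx1)).deriv]
    have h2 := g_ge he hs hy ho hk hk1 hbk hx.1.le hx1
    have hkA : k * As e < As e := by nlinarith
    have hkA0 : 0 < k * As e := mul_pos hk hA
    have h3 : b < As e ^ 2 := by
      rw [hbk]
      nlinarith
    have h4 : As e ^ 2 ≤ g e x ^ 2 := by nlinarith
    have h5 : 0 < g e x := lt_of_lt_of_le hA h2
    have h6 : 0 < 2 * g e x ^ 2 - (As e ^ 2 + b) := by linarith
    have h7 := mul_pos h5 h6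
    nlinarith
  have := hmono (Set.left_mem_Icc.mpr h0.le) (Set.right_mem_Icc.mpr h0.le) h0
  rwa [g1_zero he hy] at this

/-- the integrand of `K - E` -/
noncomputable def dd (k x : ℝ) : ℝ :=
  1 / √(1 - k ^ 2 * Real.sin x ^ 2) - √(1 - k ^ 2 * Real.sin x ^ 2)

lemma pos_del {k : ℝ} (hk : 0 < k) (hk1 : k < 1) (x : ℝ) : 0 < 1 - k ^ 2 * Real.sin x ^ 2 := by
  have h1 : Real.sin x ^ 2 ≤ 1 := Real.sin_sq_le_one x
  have h2 : k ^ 2 < 1 := by nlinarith
  nlinarith [sq_nonneg (Real.sin x), sq_nonneg k]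

lemma cont_del (k : ℝ) : Continuous (fun x : ℝ => √(1 - k ^ 2 * Real.sin x ^ 2)) := by
  fun_prop

lemma cont_inv {k : ℝ} (hk : 0 < k) (hk1 : k < 1) :
    Continuous (fun x : ℝ => 1 / √(1 - k ^ 2 * Real.sin x ^ 2)) :=
  continuous_const.div (cont_del k) (fun x => (Real.sqrt_pos.mpr (pos_del hk hk1 x)).ne')

lemma cont_dd {k : ℝ} (hk : 0 < k) (hk1 : k < 1) : Continuous (dd k) :=
  (cont_inv hk hk1).sub (cont_del k)

/-- the primitive -/
noncomputable def DD (k x : ℝ) : ℝ := ∫ t in (0 : ℝ)..x, dd k t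

lemma DD_deriv {k : ℝ} (hk : 0 < k) (hk1 : k < 1) (x : ℝ) : HasDerivAt (DD k) (dd k x) x :=
  ((cont_dd hk hk1).integral_hasStrictDerivAt 0 x).hasDerivAt

lemma DD_half {k : ℝ} (hk : 0 < k) (hk1 : k < 1) : DD k (Real.pi / 2) = Kc k - Ec k := by
  unfold DD dd Kc Ec
  exact intervalIntegral.integral_sub ((cont_inv hk hk1).intervalIntegrable _ _)
    ((cont_del k).intervalIntegrable _ _)

lemma DD_zero (k : ℝ) : DD k 0 = 0 := by
  unfold DD
  exact intervalIntegral.integral_same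

/-- the conserved quantity -/
noncomputable def ZZ (e k y : ℝ) : ℝ :=
  Real.tan y - g1 e y / g e y + ((RS e y).re + c0s e * y) +
    As e * DD k (Real.arcsin (As e / g e y))

lemma ZZ_deriv {e b k : ℝ} (he : 0 < e) (hs : S6_sm) (hq : S6_sq) (hy : S6_sy) (ho : OD e b)
    (hk : 0 < k) (hk1 : k < 1) (hbk : b = (k * As e) ^ 2) (hb : Summable (bd e)) {y : ℝ}
    (h0 : 0 < y) (h1 : y < Real.pi / 2) : HasDerivAt (ZZ e k) 0 y := by
  have hA : 0 < As e := (hy e he).2.2.2.2.2.2.2.2.2.2.2.1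
  have hab := absI h0.le h1
  have hg := g_ge he hs hy ho hk hk1 hbk h0.le h1
  have hg1 := g1_pos he hs hy ho hk hk1 hbk h0 h1
  have hsq := g1_sq he hs hy ho hab
  have hdg := g_deriv he hs hy hab
  have hdg1 := g1_deriv he hs hy ho hab
  have hcos : 0 < Real.cos y := Real.cos_pos_of_mem_Ioo ⟨by linarith, h1⟩
  have hg0 : 0 < g e y := lt_of_lt_of_le hA hg
  have hkA0 : 0 < k * As e := mul_pos hk hA
  have hkA : k * As e < As e := by nlinarith
  have hgA : As e < g e y := by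
    rcases hg.lt_or_eq with h | h
    · exact h
    · rw [← h] at hsq
      have : g1 e y ^ 2 = 0 := by rw [hsq]; ring
      have := pow_eq_zero_iff (two_ne_zero) |>.mp this
      linarith
  obtain ⟨t, ht⟩ : ∃ t, t = As e / g e y := ⟨_, rfl⟩
  have ht0 : 0 < t := by
    rw [ht]
    positivity
  have ht1 : t < 1 := by
    rw [ht, div_lt_one hg0]
    exact hgA
  have hF := hq e he _ (memU he hy hab)
  rw [Ps_split he hs hy hab, F_real he hy y] at hF
  have hF' : g e y ^ 2 = 1 / Real.cos y ^ 2 + (qS e y).re + c0s e := by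
    have := congrArg Complex.re hF
    rw [Complex.add_re, Complex.add_re, Complex.ofReal_re, Complex.ofReal_re] at this
    rw [← this]
    norm_cast
  have hR : HasDerivAt (fun y => (RS e y).re) (qS e y).re y :=
    Complex.reCLM.hasFDerivAt.comp_hasDerivAt y (RS_deriv he hb y)
  have htan := Real.hasDerivAt_tan hcos.ne'
  have hdt : HasDerivAt (fun y => As e / g e y) ((0 * g e y - As e * g1 e y) / g e y ^ 2) y :=
    (hasDerivAt_const y (As e)).div hdg hg0.ne'
  have harc : HasDerivAt Real.arcsin (1 / √(1 - t ^ 2)) (As e / g e y) := by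
    rw [← ht]
    exact Real.hasDerivAt_arcsin (by linarith) ht1.ne
  have hD : HasDerivAt (fun y => DD k (Real.arcsin (As e / g e y)))
      (dd k (Real.arcsin (As e / g e y)) * (1 / √(1 - t ^ 2) *
        ((0 * g e y - As e * g1 e y) / g e y ^ 2))) y := by
    have harc2 : HasDerivAt (fun y => Real.arcsin (As e / g e y)) (1 / √(1 - t ^ 2) *
        ((0 * g e y - As e * g1 e y) / g e y ^ 2)) y :=
      HasDerivAt.comp (h₂ := Real.arcsin) (h := fun y => As e / g e y) y harc hdt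
    exact HasDerivAt.comp (h₂ := DD k) (h := fun y => Real.arcsin (As e / g e y)) y
      (DD_deriv hk hk1 _) harc2
  have hlin : HasDerivAt (fun y : ℝ => c0s e * y) (c0s e) y := by
    simpa using (hasDerivAt_id y).const_mul (c0s e)
  have hall := ((htan.sub (hdg1.div hdg hg0.ne')).add (hR.add hlin)).add (hD.const_mul (As e))
  refine hall.congr_deriv ?_
  have hsin : Real.sin (Real.arcsin (As e / g e y)) = t := by
    rw [← ht]
    exact Real.sin_arcsin (by linarith) ht1.le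
  unfold dd
  rw [hsin]
  obtain ⟨p, hp⟩ : ∃ p, p = √(1 - t ^ 2) := ⟨_, rfl⟩
  obtain ⟨s, hs'⟩ : ∃ s, s = √(1 - k ^ 2 * t ^ 2) := ⟨_, rfl⟩
  have hpp : 0 < 1 - t ^ 2 := by nlinarith
  have hss : 0 < 1 - k ^ 2 * t ^ 2 := by
    have h2 : k * t < 1 := by nlinarith
    have h3 : 0 < k * t := mul_pos hk ht0
    nlinarith
  have hp0 : 0 < p := by
    rw [hp]
    exact Real.sqrt_pos.mpr hpp
  have hs0 : 0 < s := by
    rw [hs']
    exact Real.sqrt_pos.mpr hss
  have hp2 : p ^ 2 = 1 - t ^ 2 := by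
    rw [hp]
    exact Real.sq_sqrt hpp.le
  have hs2 : s ^ 2 = 1 - k ^ 2 * t ^ 2 := by
    rw [hs']
    exact Real.sq_sqrt hss.le
  have htg : t * g e y = As e := by
    rw [ht]
    field_simp
  have hgps : g1 e y = g e y ^ 2 * p * s := by
    have h2 : g1 e y ^ 2 = (g e y ^ 2 * p * s) ^ 2 := by
      have h3 : (g e y ^ 2 * p * s) ^ 2 = g e y ^ 4 * p ^ 2 * s ^ 2 := by ring
      rw [h3, hsq, hbk, hp2, hs2, ← htg]
      ring
    exact (sq_eq_sq₀ hg1.le (by positivity)).mp h2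
  rw [← hp, ← hs']
  have h5 : (1 / s - s) * (1 / p * ((0 * g e y - As e * g1 e y) / g e y ^ 2)) =
      -(As e * (1 - s ^ 2)) := by
    rw [hgps]
    field_simp
    ring
  have h6 : ((2 * g e y ^ 3 - (As e ^ 2 + b) * g e y) * g e y - g1 e y * g1 e y) / g e y ^ 2 =
      g e y ^ 2 - As e ^ 2 * k ^ 2 * t ^ 2 := by
    have h7 : g1 e y * g1 e y = (g e y ^ 2 - As e ^ 2) * (g e y ^ 2 - b) := by
      rw [← hsq]
      ring
    rw [h7, div_eq_iff (by positivity), hbk, ← htg]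
    ring
  rw [h5, h6, hs2]
  rw [hF']
  ring

lemma ZZ_cont {e b k : ℝ} (he : 0 < e) (hs : S6_sm) (hy : S6_sy) (ho : OD e b)
    (hk : 0 < k) (hk1 : k < 1) (hbk : b = (k * As e) ^ 2) (hb : Summable (bd e)) {y : ℝ}
    (h0 : 0 ≤ y) (h1 : y < Real.pi / 2) : ContinuousAt (ZZ e k) y := by
  have hA : 0 < As e := (hy e he).2.2.2.2.2.2.2.2.2.2.2.1
  have hab := absI h0 h1
  have hg := g_ge he hs hy ho hk hk1 hbk h0 h1
  have hg0 : 0 < g e y := lt_of_lt_of_le hA hg
  have hcos : 0 < Real.cos y := Real.cos_pos_of_mem_Ioo ⟨by linarith [Real.pi_pos], h1⟩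
  have c1 := (Real.hasDerivAt_tan hcos.ne').continuousAt
  have c2 := (g_deriv he hs hy hab).continuousAt
  have c3 := (g1_deriv he hs hy ho hab).continuousAt
  have c4 : ContinuousAt (fun y => (RS e y).re) y :=
    Complex.continuous_re.continuousAt.comp (RS_deriv he hb y).continuousAt
  have c5 : ContinuousAt (fun y => DD k (Real.arcsin (As e / g e y))) y :=
    ((DD_deriv hk hk1 _).continuousAt).comp
      ((Real.continuous_arcsin.continuousAt).comp (continuousAt_const.div c2 hg0.ne'))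
  have c6 : ContinuousAt (fun y : ℝ => c0s e * y) y := by fun_prop
  exact ((c1.sub (c3.div c2 hg0.ne')).add (c4.add c6)).add (c5.const_mul (As e))

lemma ZZ_zero {e k : ℝ} (he : 0 < e) (hy : S6_sy) (hk : 0 < k) (hk1 : k < 1) :
    ZZ e k 0 = As e * (Kc k - Ec k) := by
  have hA : 0 < As e := (hy e he).2.2.2.2.2.2.2.2.2.2.2.1
  unfold ZZ
  rw [Real.tan_zero, g1_zero he hy, g_zero he hy, RS_zero, div_self hA.ne', Real.arcsin_one,
    DD_half hk hk1]
  simp

lemma ZZ_const {e b k : ℝ} (he : 0 < e) (hs : S6_sm) (hq : S6_sq) (hy : S6_sy) (ho : OD e b)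
    (hk : 0 < k) (hk1 : k < 1) (hbk : b = (k * As e) ^ 2) (hb : Summable (bd e)) {y : ℝ}
    (h0 : 0 < y) (h1 : y < Real.pi / 2) : ZZ e k y = As e * (Kc k - Ec k) := by
  rw [← ZZ_zero he hy hk hk1]
  obtain ⟨x, _, hx⟩ := exists_hasDerivAt_eq_slope (ZZ e k) (fun _ => 0) h0
    (fun x hx => (ZZ_cont he hs hy ho hk hk1 hbk hb hx.1
      (lt_of_le_of_lt hx.2 h1)).continuousWithinAt)
    (fun x hx => ZZ_deriv he hs hq hy ho hk hk1 hbk hb hx.1 (lt_trans hx.2 h1))
  have h2 : (ZZ e k y - ZZ e k 0) = 0 := by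
    have h3 : y - 0 ≠ 0 := by linarith
    rw [eq_div_iff h3, zero_mul] at hx
    exact hx.symm
  linarith

lemma ZZ_lim {e b k : ℝ} (he : 0 < e) (hs : S6_sm) (hy : S6_sy) (ho : OD e b)
    (hk : 0 < k) (hk1 : k < 1) (hbk : b = (k * As e) ^ 2) (hb : Summable (bd e)) :
    Tendsto (ZZ e k) (𝓝[<] (Real.pi / 2)) (𝓝 (c0s e * (Real.pi / 2))) := by
  have hA : 0 < As e := (hy e he).2.2.2.2.2.2.2.2.2.2.2.1
  have hb0 : 0 < b := by
    rw [hbk]
    positivity
  have hev : ∀ᶠ y in 𝓝[<] (Real.pi / 2), 0 < y ∧ y < Real.pi / 2 := by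
    have h1 : ∀ᶠ y in 𝓝[<] (Real.pi / 2), y < Real.pi / 2 := eventually_mem_nhdsWithin
    have h2 : ∀ᶠ y in 𝓝[<] (Real.pi / 2), 0 < y :=
      eventually_nhdsWithin_of_eventually_nhds (eventually_gt_nhds (by positivity))
    filter_upwards [h1, h2] with y h3 h4
    exact ⟨h4, h3⟩
  have hle : 𝓝[<] (Real.pi / 2) ≤ 𝓝 (Real.pi / 2) := nhdsWithin_le_nhds
  -- the regular part
  have hr : Tendsto (fun y => (rS e y).re) (𝓝[<] (Real.pi / 2)) (𝓝 0) := by
    have h1 := (Complex.continuous_re.comp (rS_cont he hb)).tendsto (Real.pi / 2)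
    have h2 : (Complex.re ∘ rS e) (Real.pi / 2) = 0 := by
      show (rS e (Real.pi / 2)).re = 0
      rw [rS_half, Complex.zero_re]
    rw [h2] at h1
    exact h1.mono_left hle
  have hR : Tendsto (fun y => (RS e y).re) (𝓝[<] (Real.pi / 2)) (𝓝 0) := by
    have h1 := (Complex.continuous_re.continuousAt.comp
      (RS_deriv he hb (Real.pi / 2)).continuousAt).tendsto
    have h2 : (Complex.re ∘ RS e) (Real.pi / 2) = 0 := by
      show (RS e (Real.pi / 2)).re = 0
      rw [RS_half, Complex.zero_re]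
    rw [h2] at h1
    exact h1.mono_left hle
  have hgeq : ∀ y, |y| < Real.pi / 2 → g e y = 1 / Real.cos y + (rS e y).re := by
    intro y hy'
    unfold g
    rw [Fs_split he hs hy hy', Complex.add_re, Complex.ofReal_re]
  have hcos : Tendsto (fun y => 1 / Real.cos y) (𝓝[<] (Real.pi / 2)) atTop := by
    simp only [one_div]
    exact tendsto_inv_nhdsGT_zero.comp Real.tendsto_cos_pi_div_two
  have hginf : Tendsto (g e) (𝓝[<] (Real.pi / 2)) atTop := by
    have h1 := hcos.atTop_add hr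
    refine h1.congr' ?_
    filter_upwards [hev] with y hy'
    rw [hgeq y (absI hy'.1.le hy'.2)]
  -- first term
  have h1 : Tendsto (fun y => (g e y ^ 2 - g1 e y) / g e y) (𝓝[<] (Real.pi / 2)) (𝓝 0) := by
    have h2 : Tendsto (fun y => (As e ^ 2 + b) / g e y) (𝓝[<] (Real.pi / 2)) (𝓝 0) :=
      hginf.const_div_atTop _
    refine tendsto_of_tendsto_of_tendsto_of_le_of_le' tendsto_const_nhds h2 ?_ ?_
    · filter_upwards [hev] with y hy'
      have hg := g_ge he hs hy ho hk hk1 hbk hy'.1.le hy'.2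
      have hg1 := g1_pos he hs hy ho hk hk1 hbk hy'.1 hy'.2
      have hsq := g1_sq he hs hy ho (absI hy'.1.le hy'.2)
      have hg0 : 0 < g e y := lt_of_lt_of_le hA hg
      have h3 : g1 e y ≤ g e y ^ 2 := by
        refine abs_le_of_sq_le_sq' ?_ (by positivity) |>.2
        rw [hsq]
        have h4 : As e ^ 2 ≤ g e y ^ 2 := by nlinarith
        nlinarith [mul_nonneg hb0.le (sub_nonneg.mpr h4), mul_pos (pow_pos hA 2) (pow_pos hg0 2)]
      exact div_nonneg (by linarith) hg0.le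
    · filter_upwards [hev] with y hy'
      have hg := g_ge he hs hy ho hk hk1 hbk hy'.1.le hy'.2
      have hg1 := g1_pos he hs hy ho hk hk1 hbk hy'.1 hy'.2
      have hsq := g1_sq he hs hy ho (absI hy'.1.le hy'.2)
      have hg0 : 0 < g e y := lt_of_lt_of_le hA hg
      have h3 : g e y ^ 2 - g1 e y ≤ As e ^ 2 + b := by
        by_contra hcon
        push Not at hcon
        have h4 : (g e y ^ 2 - g1 e y) * (g e y ^ 2 + g1 e y) =
            (As e ^ 2 + b) * g e y ^ 2 - As e ^ 2 * b := by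
          have : (g e y ^ 2 - g1 e y) * (g e y ^ 2 + g1 e y) = g e y ^ 4 - g1 e y ^ 2 := by ring
          rw [this, hsq]
          ring
        have h5 : 0 < g e y ^ 2 + g1 e y := by positivity
        have h6 := mul_lt_mul_of_pos_right hcon h5
        have h7 : 0 < (As e ^ 2 + b) * g1 e y := by positivity
        have h8 : 0 < As e ^ 2 * b := by positivity
        nlinarith
      exact (div_le_div_iff_of_pos_right hg0).mpr h3
  have h2 : Tendsto (fun y => Real.tan y - 1 / Real.cos y) (𝓝[<] (Real.pi / 2)) (𝓝 0) := by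
    have h3 : Tendsto (fun y => -Real.cos y / (1 + Real.sin y)) (𝓝[<] (Real.pi / 2)) (𝓝 0) := by
      have h4 : ContinuousAt (fun y => -Real.cos y / (1 + Real.sin y)) (Real.pi / 2) := by
        refine ContinuousAt.div (by fun_prop) (by fun_prop) ?_
        rw [Real.sin_pi_div_two]
        norm_num
      have h5 := h4.tendsto
      rw [Real.cos_pi_div_two, neg_zero, zero_div] at h5
      exact h5.mono_left hle
    refine h3.congr' ?_
    filter_upwards [hev] with y hy'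
    have hc : 0 < Real.cos y := Real.cos_pos_of_mem_Ioo ⟨by linarith [Real.pi_pos, hy'.1], hy'.2⟩
    have hsn : 0 < Real.sin y := Real.sin_pos_of_pos_of_lt_pi hy'.1 (by linarith [hy'.2])
    rw [Real.tan_eq_sin_div_cos]
    field_simp
    nlinarith [Real.sin_sq_add_cos_sq y]
  have h3 : Tendsto (fun y => Real.tan y - g1 e y / g e y) (𝓝[<] (Real.pi / 2)) (𝓝 0) := by
    have h4 := (h2.sub hr).add h1
    rw [sub_zero, add_zero] at h4
    refine h4.congr' ?_
    filter_upwards [hev] with y hy'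
    have hg := g_ge he hs hy ho hk hk1 hbk hy'.1.le hy'.2
    have hg0 : 0 < g e y := lt_of_lt_of_le hA hg
    have h5 := hgeq y (absI hy'.1.le hy'.2)
    have h6 : (g e y ^ 2 - g1 e y) / g e y = g e y - g1 e y / g e y := by
      field_simp
    rw [h6]
    linarith
  have h4 : Tendsto (fun y : ℝ => c0s e * y) (𝓝[<] (Real.pi / 2)) (𝓝 (c0s e * (Real.pi / 2))) :=
    ((continuous_const.mul continuous_id).tendsto (Real.pi / 2)).mono_left hle
  have h5 : Tendsto (fun y => DD k (Real.arcsin (As e / g e y))) (𝓝[<] (Real.pi / 2)) (𝓝 0) := by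
    have h6 : Tendsto (fun y => As e / g e y) (𝓝[<] (Real.pi / 2)) (𝓝 0) :=
      hginf.const_div_atTop _
    have h7 := (Real.continuous_arcsin.tendsto 0).comp h6
    rw [Real.arcsin_zero] at h7
    have h8 := ((DD_deriv hk hk1 0).continuousAt.tendsto).comp h7
    rw [DD_zero] at h8
    exact h8
  have h6 := (h3.add (hR.add h4)).add (h5.const_mul (As e))
  rw [zero_add, zero_add, mul_zero, add_zero] at h6
  exact h6

theorem cz (hs : S6_sm) (hq : S6_sq) (hy : S6_sy) : S6_cz := by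
  intro e b k he hb0 ho hk hk1 hbk _
  have hb := bd_summable he (hs e he).2.1
  have h1 := ZZ_lim he hs hy ho hk hk1 hbk hb
  have h2 : Tendsto (ZZ e k) (𝓝[<] (Real.pi / 2)) (𝓝 (As e * (Kc k - Ec k))) := by
    refine tendsto_const_nhds.congr' ?_
    have h3 : ∀ᶠ y in 𝓝[<] (Real.pi / 2), y < Real.pi / 2 := eventually_mem_nhdsWithin
    have h4 : ∀ᶠ y in 𝓝[<] (Real.pi / 2), 0 < y :=
      eventually_nhdsWithin_of_eventually_nhds (eventually_gt_nhds (by positivity))
    filter_upwards [h3, h4] with y h5 h6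
    exact (ZZ_const he hs hq hy ho hk hk1 hbk hb h6 h5).symm
  have h3 := tendsto_nhds_unique h1 h2
  have hpi := Real.pi_pos
  field_simp
  linarith

end Pool.Agent.TH41.BL.CZ5f
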