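import Mathlib
import Pool.Agent.TH41.BL.Stm5

set_option autoImplicit false

open MeasureTheory Filter Topology

namespace Pool.Agent.TH41.BL.FO5f

open Pool.Agent.TH41.BL

/-- a function with derivative zero along a segment -/
lemma seg {Φ : ℂ → ℂ} {p q : ℂ} (h : ∀ t : ℝ, 0 ≤ t → t ≤ 1 → HasDerivAt Φ 0 (p + t * q)) :
    Φ (p + q) = Φ p := by
  have hd : ∀ t : ℝ, 0 ≤ t → t ≤ 1 → HasDerivAt (fun t : ℝ => Φ (p + t * q)) 0 t := by
    intro t h0 h1
    have h2 : HasDerivAt (fun z : ℂ => p + z * q) q (t : ℂ) := by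
      simpa using ((hasDerivAt_id (t : ℂ)).mul_const q).const_add p
    have h3 := (h t h0 h1).comp (t : ℂ) h2
    rw [zero_mul] at h3
    exact h3.comp_ofReal
  have h1 := constant_of_has_deriv_right_zero (f := fun t : ℝ => Φ (p + t * q)) (a := 0) (b := 1)
    (fun t ht => (hd t ht.1 ht.2).continuousAt.continuousWithinAt)
    (fun t ht => (hd t ht.1 ht.2.le).hasDerivWithinAt) 1 ⟨zero_le_one, le_rfl⟩
  simpa using h1

theorem fo (hs : S6_sm) (hq : S6_sq) (hc : S6_cu) (hy : S6_sy) : S6_fo := by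
  intro e he
  obtain ⟨c, hc⟩ := hc e he
  obtain ⟨hs, -, -⟩ := hs e he
  have hq := hq e he
  obtain ⟨-, -, -, hF0, -, hG0, -, hU, -, -⟩ := hy e he
  set a : ℝ := 1 + 2 * c0s e + 2 * c with ha
  have h2 : ∀ u ∈ Us e, Fs e u - 2 * Ts e u = (a : ℂ) * Fs e u - 2 * Fs e u ^ 3 := by
    intro u hu
    have e1 := hc u hu
    have e2 := hq u hu
    rw [ha]
    push_cast
    linear_combination 2 * e1 + (2 * Fs e u) * e2
  refine ⟨a - As e ^ 2, ?_, ?_⟩
  · intro u hu hui
    set Φ : ℂ → ℂ := fun u => Gs e u ^ 2 - a * Fs e u ^ 2 + Fs e u ^ 4 with hΦ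
    have hd : ∀ w ∈ Us e, HasDerivAt Φ 0 w := by
      intro w hw
      obtain ⟨-, -, -, -, hF, hG⟩ := hs w hw
      rw [h2 w hw] at hG
      refine (((hG.pow 2).sub ((hF.pow 2).const_mul (a : ℂ))).add (hF.pow 4)).congr_deriv ?_
      simp only [Nat.cast_ofNat, Nat.add_one_sub_one, pow_one]
      ring
    have e1 : Φ (0 + (u.re : ℂ)) = Φ 0 := by
      refine seg fun t _ _ => hd _ (hU _ ?_)
      have : (0 + (t : ℂ) * (u.re : ℂ)).im = 0 := by simp
      rw [this, abs_zero]
      positivity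
    have e2 : Φ ((u.re : ℂ) + u.im * Complex.I) = Φ (u.re : ℂ) := by
      refine seg fun t ht0 ht1 => hd _ ?_
      rcases eq_or_lt_of_le ht1 with rfl | ht
      · have h3 : (u.re : ℂ) + ((1 : ℝ) : ℂ) * (u.im * Complex.I) = u := by
          rw [Complex.ofReal_one, one_mul]
          exact Complex.re_add_im u
        rw [h3]
        exact hu
      · refine hU _ ?_
        have h3 : ((u.re : ℂ) + (t : ℂ) * (u.im * Complex.I)).im = t * u.im := by simp
        rw [h3, abs_mul, abs_of_nonneg ht0]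
        have hpi := Real.pi_pos
        rcases eq_or_lt_of_le (abs_nonneg u.im) with h4 | h4
        · rw [← h4, mul_zero]
          positivity
        · nlinarith
    rw [Complex.re_add_im] at e2
    rw [zero_add] at e1
    have e3 : Φ u = Φ 0 := e2.trans e1
    simp only [hΦ] at e3
    rw [hF0, hG0] at e3
    push_cast
    linear_combination e3
  · intro u hu
    rw [h2 u hu]
    push_cast
    ring

end Pool.Agent.TH41.BL.FO5f
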