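import Mathlib
import Pool.Agent.TH41.BL.Stm5

/-!
# BL5-IM: the imaginary axis
-/

set_option autoImplicit false

open MeasureTheory Filter Topology

namespace Pool.Agent.TH41.BL.IM5f

open Pool.Agent.TH41.BL

/-- `F(iy)` -/
noncomputable def gg (e y : ℝ) : ℝ := (Fs e (y * Complex.I)).re

/-- its derivative -/
noncomputable def g1 (e y : ℝ) : ℝ := (Gs e (y * Complex.I) * Complex.I).re

lemma mem_Us (hy : S6_sy) {e : ℝ} (he : 0 < e) {y : ℝ} (h : |y| < Real.pi / 2) :
    ((y : ℂ) * Complex.I) ∈ Us e := by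
  apply (hy e he).2.2.2.2.2.2.2.1
  simpa using h

lemma gg_eq (hy : S6_sy) {e : ℝ} (he : 0 < e) (y : ℝ) :
    Fs e (y * Complex.I) = (gg e y : ℂ) := by
  obtain ⟨-, h2, h3, -⟩ := hy e he
  have h4 := h3 (y * Complex.I)
  have h5 : (starRingEnd ℂ) (y * Complex.I) = -(y * Complex.I) := by simp
  rw [h5, h2] at h4
  exact (Complex.conj_eq_iff_re.mp h4.symm).symm

lemma gg_deriv (hs : S6_sm) (hy : S6_sy) {e : ℝ} (he : 0 < e) {y : ℝ} (h : |y| < Real.pi / 2) :
    HasDerivAt (gg e) (g1 e y) y := by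
  have h1 := ((hs e he).1 _ (mem_Us hy he h)).2.2.2.2.1
  have h2 : HasDerivAt (fun z : ℂ => z * Complex.I) Complex.I (y : ℂ) := by
    simpa using (hasDerivAt_id (y : ℂ)).mul_const Complex.I
  have h3 : HasDerivAt (fun z : ℂ => Fs e (z * Complex.I))
      (Gs e (y * Complex.I) * Complex.I) (y : ℂ) := by
    have h := HasDerivAt.comp_of_eq (y : ℂ) h1 h2 rfl
    exact h
  exact h3.real_of_complex

lemma g1_eq (hs : S6_sm) (hy : S6_sy) {e : ℝ} (he : 0 < e) {y : ℝ} (h : |y| < Real.pi / 2) :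
    Gs e (y * Complex.I) * Complex.I = (g1 e y : ℂ) := by
  have h1 := ((hs e he).1 _ (mem_Us hy he h)).2.2.2.2.1
  have h2 : HasDerivAt (fun z : ℂ => z * Complex.I) Complex.I (y : ℂ) := by
    simpa using (hasDerivAt_id (y : ℂ)).mul_const Complex.I
  have h3 : HasDerivAt (fun z : ℂ => Fs e (z * Complex.I))
      (Gs e (y * Complex.I) * Complex.I) (y : ℂ) := by
    have h := HasDerivAt.comp_of_eq (y : ℂ) h1 h2 rfl
    exact h
  have h4 := h3.comp_ofReal
  have h5 := (gg_deriv hs hy he h).ofReal_comp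
  have h6 : (fun y : ℝ => Fs e (y * Complex.I)) = fun y : ℝ => ((gg e y : ℝ) : ℂ) := by
    ext y
    exact gg_eq hy he y
  rw [h6] at h4
  exact h4.unique h5

lemma g1_deriv (hs : S6_sm) (hy : S6_sy) {e b : ℝ} (he : 0 < e) (hod : OD e b) {y : ℝ}
    (h : |y| < Real.pi / 2) :
    HasDerivAt (g1 e) (gg e y * (2 * gg e y ^ 2 - As e ^ 2 - b)) y := by
  have hU := mem_Us hy he h
  have h1 := ((hs e he).1 _ hU).2.2.2.2.2
  have h2 : HasDerivAt (fun z : ℂ => z * Complex.I) Complex.I (y : ℂ) := by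
    simpa using (hasDerivAt_id (y : ℂ)).mul_const Complex.I
  have h3 : HasDerivAt (fun z : ℂ => Gs e (z * Complex.I) * Complex.I)
      ((Fs e (y * Complex.I) - 2 * Ts e (y * Complex.I)) * Complex.I * Complex.I) (y : ℂ) := by
    have h := (HasDerivAt.comp_of_eq (y : ℂ) h1 h2 rfl).mul_const Complex.I
    exact h
  have h4 := h3.real_of_complex
  have h5 := hod.2 _ hU
  rw [h5, gg_eq hy he] at h4
  have h6 : ((((As e : ℂ) ^ 2 + b) * (gg e y : ℂ) - 2 * (gg e y : ℂ) ^ 3) * Complex.I *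
      Complex.I) = ((gg e y * (2 * gg e y ^ 2 - As e ^ 2 - b) : ℝ) : ℂ) := by
    push_cast
    linear_combination (((As e : ℂ) ^ 2 + b) * (gg e y : ℂ) - 2 * (gg e y : ℂ) ^ 3) *
      Complex.I_mul_I
  rw [h6, Complex.ofReal_re] at h4
  exact h4

lemma g1_sq (hs : S6_sm) (hy : S6_sy) {e b : ℝ} (he : 0 < e) (hod : OD e b) {y : ℝ}
    (h : |y| < Real.pi / 2) :
    g1 e y ^ 2 = (gg e y ^ 2 - As e ^ 2) * (gg e y ^ 2 - b) := by
  have h1 := hod.1 _ (mem_Us hy he h) (by simpa using h.le)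
  have h2 := g1_eq hs hy he h
  rw [gg_eq hy he] at h1
  have h3 : ((g1 e y : ℝ) : ℂ) ^ 2 = -(Gs e (y * Complex.I) ^ 2) := by
    rw [← h2, mul_pow, Complex.I_sq]; ring
  rw [h1] at h3
  have h4 : ((g1 e y ^ 2 : ℝ) : ℂ) =
      (((gg e y ^ 2 - As e ^ 2) * (gg e y ^ 2 - b) : ℝ) : ℂ) := by
    push_cast
    rw [h3]; ring
  exact_mod_cast h4

lemma gg_zero (hy : S6_sy) {e : ℝ} (he : 0 < e) : gg e 0 = As e := by
  unfold gg
  have := (hy e he).2.2.2.1
  simp [this]

lemma g1_zero (hy : S6_sy) {e : ℝ} (he : 0 < e) : g1 e 0 = 0 := by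
  unfold g1
  have := (hy e he).2.2.2.2.2.1
  simp [this]

lemma gg_lower (hs : S6_sm) (hy : S6_sy) {e : ℝ} (he : 0 < e) {y : ℝ} (h : |y| < Real.pi / 2) :
    1 / Real.cos y - c0s e ≤ gg e y := by
  obtain ⟨hS, hc, -⟩ := hs e he
  have hsum := (hS _ (mem_Us hy he h)).1
  have hsum' : Summable (fun j : ℤ => 1 / Complex.cosh (y * Complex.I - 2 * j * e)) :=
    hsum.of_norm
  have hre := Complex.hasSum_re hsum'.hasSum
  have hcos : 0 < Real.cos y := by
    apply Real.cos_pos_of_mem_Ioo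
    rw [abs_lt] at h
    exact ⟨by linarith [h.1], h.2⟩
  -- the comparison series
  have h0 : HasSum (fun j : ℤ => if j = 0 then 1 / Real.cos y else 0) (1 / Real.cos y) := by
    have := hasSum_ite_eq (0 : ℤ) (1 / Real.cos y)
    exact this
  have hlow := h0.sub hc.hasSum
  refine hasSum_le ?_ hlow hre
  intro j
  by_cases hj : j = 0
  · subst hj
    simp only [if_true, Int.cast_zero, mul_zero, zero_mul, sub_zero]
    rw [Complex.cosh_mul_I, ← Complex.ofReal_cos, ← Complex.ofReal_one, ← Complex.ofReal_div,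
      Complex.ofReal_re]
  · simp only [if_neg hj]
    set x : ℝ := -(2 * j * e) with hx
    have hxe : (y * Complex.I - 2 * j * e : ℂ) = (x : ℂ) + y * Complex.I := by
      rw [hx]; push_cast; ring
    rw [hxe]
    have hcosh : Complex.cosh ((x : ℂ) + y * Complex.I) =
        ((Real.cosh x * Real.cos y : ℝ) : ℂ) + ((Real.sinh x * Real.sin y : ℝ) : ℂ) * Complex.I := by
      rw [Complex.cosh_add, Complex.cosh_mul_I, Complex.sinh_mul_I]
      push_cast
      ring
    have hnorm : |Real.sinh x| ≤ ‖Complex.cosh ((x : ℂ) + y * Complex.I)‖ := by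
      rw [hcosh, Complex.norm_add_mul_I]
      apply Real.le_sqrt_of_sq_le
      rw [sq_abs]
      have e1 := Real.cosh_sq x
      have e2 := Real.sin_sq_add_cos_sq y
      nlinarith [sq_nonneg (Real.cos y)]
    have hjR : (j : ℝ) ≠ 0 := by exact_mod_cast hj
    have hsx : Real.sinh x ≠ 0 := by
      rw [ne_eq, Real.sinh_eq_zero, hx, neg_eq_zero]
      positivity
    have hpos : 0 < |Real.sinh x| := abs_pos.mpr hsx
    have hb1 : ‖1 / Complex.cosh ((x : ℂ) + y * Complex.I)‖ ≤ 1 / |Real.sinh x| := by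
      rw [norm_div, norm_one]
      exact one_div_le_one_div_of_le hpos hnorm
    have hb2 : 1 / |Real.sinh x| ≤ 2 * (j : ℝ) / Real.sinh (2 * j * e) := by
      have e1 : Real.sinh x = -Real.sinh (2 * j * e) := by rw [hx, Real.sinh_neg]
      rw [e1, abs_neg]
      have hq : 0 < 2 * (j : ℝ) / Real.sinh (2 * j * e) := by
        rcases lt_or_gt_of_ne hjR with hneg | hpos'
        · apply div_pos_of_neg_of_neg (by linarith)
          rw [Real.sinh_neg_iff]
          nlinarith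
        · apply div_pos (by linarith)
          rw [Real.sinh_pos_iff]
          positivity
      have h1j : 1 ≤ |2 * (j : ℝ)| := by
        have : (1 : ℝ) ≤ |(j : ℝ)| := by exact_mod_cast Int.one_le_abs hj
        rw [abs_mul, abs_two]
        linarith
      rw [← abs_of_pos hq, abs_div]
      exact div_le_div_of_nonneg_right h1j (abs_nonneg _)
    have hre' : -‖1 / Complex.cosh ((x : ℂ) + y * Complex.I)‖ ≤
        (1 / Complex.cosh ((x : ℂ) + y * Complex.I)).re :=
      (abs_le.mp (Complex.abs_re_le_norm _)).1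
    linarith

lemma gg_tendsto (hs : S6_sm) (hy : S6_sy) {e : ℝ} (he : 0 < e) :
    Tendsto (gg e) (𝓝[<] (Real.pi / 2)) atTop := by
  have h1 : Tendsto (fun y => 1 / Real.cos y - c0s e) (𝓝[<] (Real.pi / 2)) atTop := by
    have h2 : Tendsto (fun y => 1 / Real.cos y) (𝓝[<] (Real.pi / 2)) atTop := by
      have := tendsto_inv_nhdsGT_zero.comp Real.tendsto_cos_pi_div_two
      simpa [Function.comp_def, one_div] using this
    exact tendsto_atTop_add_const_right _ _ h2
  apply tendsto_atTop_mono' _ _ h1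
  have hpi := Real.pi_pos
  have hmem : Set.Ioo (0 : ℝ) (Real.pi / 2) ∈ 𝓝[<] (Real.pi / 2) :=
    Ioo_mem_nhdsLT (by linarith)
  filter_upwards [hmem] with y hy'
  exact gg_lower hs hy he (by rw [abs_of_pos hy'.1]; exact hy'.2)

lemma gg_reach (hs : S6_sm) (hy : S6_sy) {e : ℝ} (he : 0 < e) (M : ℝ) :
    ∃ y, 0 < y ∧ y < Real.pi / 2 ∧ M ≤ gg e y := by
  have hpi := Real.pi_pos
  have hmem : Set.Ioo (0 : ℝ) (Real.pi / 2) ∈ 𝓝[<] (Real.pi / 2) :=
    Ioo_mem_nhdsLT (by linarith)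
  have h1 := (gg_tendsto hs hy he).eventually_ge_atTop M
  obtain ⟨y, h2, h3⟩ := (h1.and hmem).exists
  exact ⟨y, h3.1, h3.2, h2⟩

lemma abs_lt' {y : ℝ} (h0 : 0 ≤ y) (h1 : y < Real.pi / 2) : |y| < Real.pi / 2 := by
  rwa [abs_of_nonneg h0]

lemma gg_contOn (hs : S6_sm) (hy : S6_sy) {e : ℝ} (he : 0 < e) {y : ℝ}
    (h1 : y < Real.pi / 2) : ContinuousOn (gg e) (Set.Icc 0 y) := by
  intro x hx
  exact (gg_deriv hs hy he (abs_lt' hx.1 (hx.2.trans_lt h1))).continuousAt.continuousWithinAt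

/-- no value strictly between -/
lemma no_between (hs : S6_sm) (hy : S6_sy) {e b : ℝ} (he : 0 < e) (hod : OD e b) {y : ℝ}
    (h0 : 0 ≤ y) (h1 : y < Real.pi / 2)
    (h2 : gg e y ^ 2 = (As e ^ 2 + b) / 2) : As e ^ 2 = b := by
  have h3 := g1_sq hs hy he hod (abs_lt' h0 h1)
  rw [h2] at h3
  have h4 := sq_nonneg (g1 e y)
  nlinarith [sq_nonneg (As e ^ 2 - b)]

lemma b_lt (hs : S6_sm) (hy : S6_sy) {e b : ℝ} (he : 0 < e) (hod : OD e b) :
    b < As e ^ 2 := by
  have hA : 0 < As e := (hy e he).2.2.2.2.2.2.2.2.2.2.2.1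
  by_contra hb
  rw [not_lt] at hb
  rcases hb.lt_or_eq with hlt | heq
  · set c : ℝ := √((As e ^ 2 + b) / 2) with hc
    have hc2 : c ^ 2 = (As e ^ 2 + b) / 2 := Real.sq_sqrt (by nlinarith)
    have hc0 : 0 ≤ c := Real.sqrt_nonneg _
    have hAc : As e < c := by
      apply lt_of_pow_lt_pow_left₀ 2 hc0
      rw [hc2]; linarith
    obtain ⟨y1, h1, h2, h3⟩ := gg_reach hs hy he c
    have := intermediate_value_Icc h1.le (gg_contOn hs hy he h2)
    obtain ⟨y, hyI, hgy⟩ := this ⟨by rw [gg_zero hy he]; exact hAc.le, h3⟩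
    have h4 := no_between hs hy he hod hyI.1 (hyI.2.trans_lt h2) (by rw [hgy, hc2])
    linarith
  · obtain ⟨y1, h1, h2, h3⟩ := gg_reach hs hy he (As e + 1)
    have hcont := gg_contOn hs hy he h2
    obtain ⟨K, hK⟩ := isCompact_Icc.exists_bound_of_continuousOn
      (hcont.add (continuousOn_const (c := As e)))
    have hgr := norm_le_gronwallBound_of_norm_deriv_right_le (f := fun y => gg e y - As e)
      (f' := g1 e) (δ := 0) (K := K) (ε := 0) (a := 0) (b := y1)
      (hcont.sub continuousOn_const)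
      (fun x hx => ((gg_deriv hs hy he (abs_lt' hx.1 (hx.2.trans h2))).sub_const _).hasDerivWithinAt)
      (by rw [gg_zero hy he]; simp)
      (by
        intro x hx
        have h4 := g1_sq hs hy he hod (abs_lt' hx.1 (hx.2.trans h2))
        rw [← heq, ← pow_two] at h4
        have h5 : |g1 e x| = |gg e x ^ 2 - As e ^ 2| := (sq_eq_sq_iff_abs_eq_abs _ _).mp h4
        have h6 : gg e x ^ 2 - As e ^ 2 = (gg e x + As e) * (gg e x - As e) := by ring
        rw [Real.norm_eq_abs, h5, h6, abs_mul, add_zero, Real.norm_eq_abs]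
        apply mul_le_mul_of_nonneg_right _ (abs_nonneg _)
        exact hK x ⟨hx.1, hx.2.le⟩)
      y1 ⟨h1.le, le_refl _⟩
    rw [gronwallBound_ε0_δ0] at hgr
    have h7 : gg e y1 - As e = 0 := by
      rw [← norm_le_zero_iff]; exact hgr
    linarith

lemma gg_ge (hs : S6_sm) (hy : S6_sy) {e b : ℝ} (he : 0 < e) (hb0 : 0 < b) (hod : OD e b) {y : ℝ}
    (h0 : 0 ≤ y) (h1 : y < Real.pi / 2) : As e ≤ gg e y := by
  have hA : 0 < As e := (hy e he).2.2.2.2.2.2.2.2.2.2.2.1
  have hb := b_lt hs hy he hod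
  by_contra hlt
  rw [not_le] at hlt
  set c : ℝ := √((As e ^ 2 + b) / 2) with hc
  have hc2 : c ^ 2 = (As e ^ 2 + b) / 2 := Real.sq_sqrt (by nlinarith)
  have hc0 : 0 ≤ c := Real.sqrt_nonneg _
  have hAc : c < As e := by
    apply lt_of_pow_lt_pow_left₀ 2 hA.le
    rw [hc2]; linarith
  have hgc : gg e y ≤ c := by
    by_contra hgc
    rw [not_le] at hgc
    have h3 := g1_sq hs hy he hod (abs_lt' h0 h1)
    have h4 := sq_nonneg (g1 e y)
    have h5 : gg e y ^ 2 < As e ^ 2 := by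
      apply pow_lt_pow_left₀ hlt (by linarith) (by norm_num)
    have h6 : c ^ 2 < gg e y ^ 2 := pow_lt_pow_left₀ hgc hc0 (by norm_num)
    nlinarith
  have := intermediate_value_Icc' h0 (gg_contOn hs hy he h1)
  obtain ⟨x, hxI, hgx⟩ := this ⟨hgc, by rw [gg_zero hy he]; exact hAc.le⟩
  have h4 := no_between hs hy he hod hxI.1 (hxI.2.trans_lt h1) (by rw [hgx, hc2])
  linarith

lemma g1_pos (hs : S6_sm) (hy : S6_sy) {e b : ℝ} (he : 0 < e) (hb0 : 0 < b) (hod : OD e b) {y : ℝ}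
    (h0 : 0 < y) (h1 : y < Real.pi / 2) : 0 < g1 e y := by
  have hA : 0 < As e := (hy e he).2.2.2.2.2.2.2.2.2.2.2.1
  have hb := b_lt hs hy he hod
  obtain ⟨c, hc, hc2⟩ := exists_hasDerivAt_eq_slope (g1 e)
    (fun y => gg e y * (2 * gg e y ^ 2 - As e ^ 2 - b)) h0
    (fun x hx => (g1_deriv hs hy he hod
      (abs_lt' hx.1 (hx.2.trans_lt h1))).continuousAt.continuousWithinAt)
    (fun x hx => g1_deriv hs hy he hod (abs_lt' hx.1.le (hx.2.trans h1)))
  have h2 := gg_ge hs hy he hb0 hod hc.1.le (hc.2.trans h1)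
  have h3 : 0 < gg e c * (2 * gg e c ^ 2 - As e ^ 2 - b) := by
    apply mul_pos (by linarith)
    nlinarith
  rw [g1_zero hy he, sub_zero, sub_zero] at hc2
  rw [hc2] at h3
  have := mul_pos h3 h0
  rwa [div_mul_cancel₀ _ h0.ne'] at this

lemma gg_gt (hs : S6_sm) (hy : S6_sy) {e b : ℝ} (he : 0 < e) (hb0 : 0 < b) (hod : OD e b) {y : ℝ}
    (h0 : 0 < y) (h1 : y < Real.pi / 2) : As e < gg e y := by
  obtain ⟨c, hc, hc2⟩ := exists_hasDerivAt_eq_slope (gg e) (g1 e) h0
    (gg_contOn hs hy he h1)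
    (fun x hx => gg_deriv hs hy he (abs_lt' hx.1.le (hx.2.trans h1)))
  have h3 := g1_pos hs hy he hb0 hod hc.1 (hc.2.trans h1)
  rw [gg_zero hy he, sub_zero] at hc2
  rw [hc2] at h3
  have := mul_pos h3 h0
  rw [div_mul_cancel₀ _ h0.ne'] at this
  linarith

theorem im (hs : S6_sm) (hy : S6_sy) : S6_im := by
  intro e b he hb0 hod
  have hA : 0 < As e := (hy e he).2.2.2.2.2.2.2.2.2.2.2.1
  have hb := b_lt hs hy he hod
  have hpi := Real.pi_pos
  set A : ℝ := As e with hAdef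
  set k : ℝ := √b / A with hk
  have hsb : 0 < √b := Real.sqrt_pos.mpr hb0
  have hk0 : 0 < k := div_pos hsb hA
  have hsbA : √b < A := by
    rw [Real.sqrt_lt' hA]; exact hb
  have hk1 : k < 1 := by rw [hk, div_lt_one hA]; exact hsbA
  have hkA : k * A = √b := div_mul_cancel₀ _ hA.ne'
  have hbk : b = (k * A) ^ 2 := by rw [hkA, Real.sq_sqrt hb0.le]
  refine ⟨k, hk0, hk1, hbk, ?_⟩
  -- the integrand
  set f : ℝ → ℝ := fun t => 1 / √(1 - k ^ 2 * Real.sin t ^ 2) with hf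
  have hpos : ∀ t : ℝ, 0 < 1 - k ^ 2 * Real.sin t ^ 2 := by
    intro t
    have h1 : Real.sin t ^ 2 ≤ 1 := Real.sin_sq_le_one t
    have h2 : k ^ 2 < 1 := by nlinarith
    nlinarith [sq_nonneg (Real.sin t), sq_nonneg k]
  have hfc : Continuous f := by
    apply Continuous.div continuous_const (by fun_prop)
    intro t
    exact (Real.sqrt_pos.mpr (hpos t)).ne'
  set J : ℝ → ℝ := fun x => ∫ t in (0 : ℝ)..x, f t with hJ
  have hJd : ∀ x, HasDerivAt J (f x) x := fun x => (hfc.integral_hasStrictDerivAt 0 x).hasDerivAt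
  have hJc : Continuous J := continuous_iff_continuousAt.mpr fun x => (hJd x).continuousAt
  set φ : ℝ → ℝ := fun y => Real.arcsin (A / gg e y) with hφ
  set Ψ : ℝ → ℝ := fun y => J (φ y) + A * y with hΨ
  have hgpos : ∀ y, 0 ≤ y → y < Real.pi / 2 → 0 < gg e y := fun y h0 h1 =>
    hA.trans_le (gg_ge hs hy he hb0 hod h0 h1)
  have hΨc : ∀ y, 0 ≤ y → y < Real.pi / 2 → ContinuousAt Ψ y := by
    intro y h0 h1
    have hg := (gg_deriv hs hy he (abs_lt' h0 h1)).continuousAt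
    have : ContinuousAt φ y :=
      (Real.continuous_arcsin.continuousAt).comp
        (continuousAt_const.div hg (hgpos y h0 h1).ne')
    exact (hJc.continuousAt.comp this).add (continuousAt_const.mul continuousAt_id)
  have hΨd : ∀ y, 0 < y → y < Real.pi / 2 → HasDerivAt Ψ 0 y := by
    intro y h0 h1
    have hg := gg_deriv hs hy he (abs_lt' h0.le h1)
    have hgA := gg_gt hs hy he hb0 hod h0 h1
    have hg1 := g1_pos hs hy he hb0 hod h0 h1
    have hsq := g1_sq hs hy he hod (abs_lt' h0.le h1)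
    set g : ℝ := gg e y with hgdef
    set g' : ℝ := g1 e y with hg'def
    have hg0 : 0 < g := hA.trans hgA
    have hAg : A / g < 1 := by rw [div_lt_one hg0]; exact hgA
    have hAg0 : 0 < A / g := div_pos hA hg0
    have hd1 : HasDerivAt (fun y => A / gg e y) (-(A * g') / g ^ 2) y := by
      have := (hasDerivAt_const y A).div hg hg0.ne'
      have e0 : (0 * gg e y - A * g1 e y) / gg e y ^ 2 = -(A * g') / g ^ 2 := by
        rw [zero_mul, zero_sub]
      rw [e0] at this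
      exact this
    have hd2 : HasDerivAt φ (1 / √(1 - (A / g) ^ 2) * (-(A * g') / g ^ 2)) y := by
      have := HasDerivAt.comp_of_eq y (Real.hasDerivAt_arcsin (x := A / g)
        (by intro h; linarith) hAg.ne) hd1 rfl
      exact this
    have hd3 := ((hJd (φ y)).comp y hd2).add ((hasDerivAt_id y).const_mul A)
    have hsin : Real.sin (φ y) = A / g := Real.sin_arcsin (by linarith) hAg.le
    have e1 : 1 - (A / g) ^ 2 = (g ^ 2 - A ^ 2) / g ^ 2 := by field_simp
    have e2 : 1 - k ^ 2 * (A / g) ^ 2 = (g ^ 2 - b) / g ^ 2 := by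
      rw [hbk]; field_simp
    have p1 : 0 < g ^ 2 - A ^ 2 := by nlinarith
    have p2 : 0 < g ^ 2 - b := by nlinarith
    have s1 : √(1 - (A / g) ^ 2) = √(g ^ 2 - A ^ 2) / g := by
      rw [e1, Real.sqrt_div p1.le, Real.sqrt_sq hg0.le]
    have s2 : √(1 - k ^ 2 * (A / g) ^ 2) = √(g ^ 2 - b) / g := by
      rw [e2, Real.sqrt_div p2.le, Real.sqrt_sq hg0.le]
    have s3 : g' = √(g ^ 2 - A ^ 2) * √(g ^ 2 - b) := by
      rw [← Real.sqrt_mul p1.le, ← hsq, Real.sqrt_sq hg1.le]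
    have q1 : 0 < √(g ^ 2 - A ^ 2) := Real.sqrt_pos.mpr p1
    have q2 : 0 < √(g ^ 2 - b) := Real.sqrt_pos.mpr p2
    have key : f (φ y) * (1 / √(1 - (A / g) ^ 2) * (-(A * g') / g ^ 2)) + A * 1 = 0 := by
      simp only [hf]
      rw [hsin, s1, s2, s3]
      field_simp
      ring
    rw [key] at hd3
    exact hd3
  have hΨeq : ∀ y, 0 < y → y < Real.pi / 2 → Ψ y = Kc k := by
    intro y h0 h1
    obtain ⟨c, hc, hc2⟩ := exists_hasDerivAt_eq_slope Ψ (fun _ => 0) h0
      (fun x hx => (hΨc x hx.1 (hx.2.trans_lt h1)).continuousWithinAt)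
      (fun x hx => hΨd x hx.1 (hx.2.trans h1))
    have h2 : Ψ y = Ψ 0 := by
      have h3 : (Ψ y - Ψ 0) / (y - 0) * y = 0 := by rw [← hc2]; ring
      rw [sub_zero, div_mul_cancel₀ _ h0.ne'] at h3
      linarith
    rw [h2]
    have h4 : φ 0 = Real.pi / 2 := by
      simp only [hφ]
      rw [gg_zero hy he, ← hAdef, div_self hA.ne', Real.arcsin_one]
    simp only [hΨ]
    rw [h4, mul_zero, add_zero]
    rfl
  have hlim1 : Tendsto Ψ (𝓝[<] (Real.pi / 2)) (𝓝 (0 + A * (Real.pi / 2))) := by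
    have h1 : Tendsto (fun y => A / gg e y) (𝓝[<] (Real.pi / 2)) (𝓝 0) :=
      (gg_tendsto hs hy he).const_div_atTop A
    have h2 : Tendsto φ (𝓝[<] (Real.pi / 2)) (𝓝 0) := by
      have := (Real.continuous_arcsin.tendsto 0).comp h1
      rw [Real.arcsin_zero] at this
      exact this
    have h3 : Tendsto (fun y => J (φ y)) (𝓝[<] (Real.pi / 2)) (𝓝 0) := by
      have := (hJc.tendsto 0).comp h2
      have hJ0 : J 0 = 0 := intervalIntegral.integral_same
      rw [hJ0] at this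
      exact this
    have h4 : Tendsto (fun y : ℝ => A * y) (𝓝[<] (Real.pi / 2)) (𝓝 (A * (Real.pi / 2))) :=
      ((continuous_const.mul continuous_id).tendsto _).mono_left nhdsWithin_le_nhds
    exact h3.add h4
  have hlim2 : Tendsto Ψ (𝓝[<] (Real.pi / 2)) (𝓝 (Kc k)) := by
    apply tendsto_const_nhds.congr'
    have hmem : Set.Ioo (0 : ℝ) (Real.pi / 2) ∈ 𝓝[<] (Real.pi / 2) :=
      Ioo_mem_nhdsLT (by linarith)
    filter_upwards [hmem] with y hy'
    exact (hΨeq y hy'.1 hy'.2).symm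
  have hfin := tendsto_nhds_unique hlim1 hlim2
  rw [← hfin]
  field_simp
  ring

end Pool.Agent.TH41.BL.IM5f
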