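import Mathlib
import Pool.Agent.TH41.BL.Stm5

/-! Project BL5: the modulus (helper986, job 4067). -/

set_option autoImplicit false

open MeasureTheory Filter Topology

namespace Pool.Agent.TH41.BL.KE5f

open Pool.Agent.TH41.BL

lemma image_tan {c : ℝ} (hc : 0 < c) :
    (fun ψ : ℝ => c * Real.tan ψ) '' Set.Ioo 0 (Real.pi / 2) = Set.Ioi 0 := by
  ext x
  constructor
  · rintro ⟨ψ, hψ, rfl⟩
    exact mul_pos hc (Real.tan_pos_of_pos_of_lt_pi_div_two hψ.1 hψ.2)
  · intro hx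
    refine ⟨Real.arctan (x / c), ⟨?_, Real.arctan_lt_pi_div_two _⟩, ?_⟩
    · exact Real.arctan_pos.2 (div_pos hx hc)
    · show c * Real.tan (Real.arctan (x / c)) = x
      rw [Real.tan_arctan]
      field_simp

lemma subst {A k : ℝ} (hA : 0 < A) (hk : 0 < k) (hk1 : k < 1) :
    ∫ x in Set.Ioi (0 : ℝ), 1 / (√(A ^ 2 + x ^ 2) * √(x ^ 2 + (k * A) ^ 2)) =
      1 / A * Kc (√(1 - k ^ 2)) := by
  have hkA : 0 < k * A := mul_pos hk hA
  rw [← image_tan hkA]
  rw [integral_image_eq_integral_abs_deriv_smul measurableSet_Ioo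
    (f' := fun ψ => k * A * (1 / Real.cos ψ ^ 2))]
  · unfold Kc
    rw [intervalIntegral.integral_of_le (by positivity), integral_Ioc_eq_integral_Ioo,
      ← integral_const_mul]
    refine setIntegral_congr_fun measurableSet_Ioo fun ψ hψ => ?_
    have hc : 0 < Real.cos ψ := Real.cos_pos_of_mem_Ioo ⟨by linarith [hψ.1, Real.pi_pos], hψ.2⟩
    have h2 : (0 : ℝ) ≤ 1 - k ^ 2 := by nlinarith
    have h3 : √(1 - k ^ 2) ^ 2 = 1 - k ^ 2 := Real.sq_sqrt h2
    have hsc := Real.sin_sq_add_cos_sq ψ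
    have h4 : 0 < 1 - (1 - k ^ 2) * Real.sin ψ ^ 2 := by
      have : Real.sin ψ ^ 2 = 1 - Real.cos ψ ^ 2 := by linarith
      rw [this]
      have h5 : 0 < Real.cos ψ ^ 2 := by positivity
      have h6 : 0 < k ^ 2 := by positivity
      nlinarith
    have e1 : (k * A * Real.tan ψ) ^ 2 + (k * A) ^ 2 = (k * A / Real.cos ψ) ^ 2 := by
      rw [Real.tan_eq_sin_div_cos]
      field_simp
      linear_combination hsc
    have e2 : A ^ 2 + (k * A * Real.tan ψ) ^ 2 =
        (A / Real.cos ψ * √(1 - (1 - k ^ 2) * Real.sin ψ ^ 2)) ^ 2 := by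
      rw [mul_pow (A / Real.cos ψ), Real.sq_sqrt h4.le, Real.tan_eq_sin_div_cos]
      field_simp
      linear_combination hsc
    have e3 : √((k * A * Real.tan ψ) ^ 2 + (k * A) ^ 2) = k * A / Real.cos ψ := by
      rw [e1, Real.sqrt_sq (by positivity)]
    have e4 : √(A ^ 2 + (k * A * Real.tan ψ) ^ 2) =
        A / Real.cos ψ * √(1 - (1 - k ^ 2) * Real.sin ψ ^ 2) := by
      rw [e2, Real.sqrt_sq (by positivity)]
    show |k * A * (1 / Real.cos ψ ^ 2)| •
      (1 / (√(A ^ 2 + (k * A * Real.tan ψ) ^ 2) * √((k * A * Real.tan ψ) ^ 2 + (k * A) ^ 2))) = _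
    rw [e3, e4, abs_of_pos (by positivity), h3, smul_eq_mul]
    have h7 : 0 < √(1 - (1 - k ^ 2) * Real.sin ψ ^ 2) := Real.sqrt_pos.2 h4
    field_simp
  · intro ψ hψ
    have hc : 0 < Real.cos ψ := Real.cos_pos_of_mem_Ioo ⟨by linarith [hψ.1, Real.pi_pos], hψ.2⟩
    exact ((Real.hasDerivAt_tan hc.ne').const_mul (k * A)).hasDerivWithinAt
  · intro x hx y hy hxy
    have h1 : Real.tan x = Real.tan y := mul_left_cancel₀ hkA.ne' hxy
    have h2 := congrArg Real.arctan h1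
    rwa [Real.arctan_tan (by linarith [hx.1, Real.pi_pos]) hx.2,
      Real.arctan_tan (by linarith [hy.1, Real.pi_pos]) hy.2] at h2

theorem ke (hq : S6_sq) (hy : S6_sy) (hf : S6_fo) (hc : S6_cl) (hi : S6_im) (hz : S6_cz)
    (hb : S6_bv) : S6_ke := by
  intro e he
  obtain ⟨b, hOD⟩ := hf e he
  obtain ⟨hb0, heq⟩ := hc e b he hOD
  obtain ⟨k, hk0, hk1, hbk, hA⟩ := hi e b he hb0 hOD
  obtain ⟨_, _, _, hF0, hFe, _, _, hU, _, hP0, hPe, hA0, hB0⟩ := hy e he
  have hcz := hz e b k he hb0 hOD hk0 hk1 hbk hA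
  have hpi := Real.pi_pos
  have hbA : b < As e ^ 2 := by
    rw [hbk, mul_pow]
    have h1 : k ^ 2 < 1 := by nlinarith
    have h2 : 0 < As e ^ 2 := by positivity
    nlinarith
  have hBb := hb e b he hb0 hbA hOD
  have hB : Bs e = k * As e := by
    have h1 : Bs e ^ 2 = (k * As e) ^ 2 := by rw [hBb, hbk]
    exact (pow_left_inj₀ hB0.le (by positivity) (by norm_num)).1 h1
  have h0 : As e ^ 2 = A2s e + c0s e := by
    have h1 := hq e he 0 (hU 0 (by simp; positivity))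
    rw [hF0, hP0] at h1
    exact_mod_cast h1
  have h1 : Bs e ^ 2 = B2s e + c0s e := by
    have h1 := hq e he e (hU e (by simp; positivity))
    rw [hFe, hPe] at h1
    exact_mod_cast h1
  have hA2 : A2s e = As e ^ 2 - 2 / Real.pi * As e * (Kc k - Ec k) := by
    rw [← hcz]; linarith
  have hB2 : B2s e = (k * As e) ^ 2 - 2 / Real.pi * As e * (Kc k - Ec k) := by
    rw [← hcz, ← hB]; linarith
  have hK : Kc k = Real.pi / 2 * As e := by
    rw [hA]
    field_simp
  refine ⟨k, hk0, hk1, hA, hB, ?_, ?_, ?_, ?_⟩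
  · have h2 : e = 1 / As e * Kc (√(1 - k ^ 2)) := by
      rw [← subst hA0 hk0 hk1, ← hbk]
      exact heq
    calc e * As e = (1 / As e * Kc (√(1 - k ^ 2))) * As e := by rw [← h2]
      _ = Kc (√(1 - k ^ 2)) := by field_simp
  · rw [hA2, hK]
    field_simp
    ring
  · rw [hB2, hB, hK]
    field_simp
    ring
  · rw [hA2, hB2, hK]
    field_simp
    ring

end Pool.Agent.TH41.BL.KE5f
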