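import Mathlib
import Pool.Agent.TH41.BL.Stm5

/-!
Project BL5: the derivative of the exponent (helper347).
-/

set_option autoImplicit false

open MeasureTheory Filter Topology

namespace Pool.Agent.TH41.BL.SD5f

open Pool.Agent.TH41.BL

lemma Hb_eq (p : ℝ) : Hb p = Real.binEntropy p / Real.log 2 := by
  unfold Hb ηb Real.binEntropy Real.logb
  rw [Real.log_inv, Real.log_inv]
  ring

lemma exp_two (x : ℝ) : Real.exp (2 * x) = Real.exp x ^ 2 := by
  rw [← Real.exp_nat_mul]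
  norm_num

lemma hb_eq {x : ℝ} (hx : 0 < x) :
    hb (1 / Real.cosh x ^ 2) = Real.binEntropy (1 + Real.exp (2 * x))⁻¹ / Real.log 2 := by
  have hc : 0 < Real.cosh x := Real.cosh_pos x
  have h1 : 1 - 1 / Real.cosh x ^ 2 = (Real.sinh x / Real.cosh x) ^ 2 := by
    have h2 := Real.cosh_sq x
    rw [div_pow]
    field_simp
    linarith
  have h3 : 0 ≤ Real.sinh x / Real.cosh x := div_nonneg (Real.sinh_nonneg_iff.2 hx.le) hc.le
  have h4 : 1 / 2 - 1 / 2 * (Real.sinh x / Real.cosh x) = (1 + Real.exp (2 * x))⁻¹ := by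
    have hE : 0 < Real.exp x := Real.exp_pos x
    rw [exp_two, Real.sinh_eq, Real.cosh_eq, Real.exp_neg]
    field_simp
    ring
  unfold hb
  rw [h1, Real.sqrt_sq h3, h4, Hb_eq]

lemma deriv_ent (x : ℝ) : HasDerivAt (fun x => Real.binEntropy (1 + Real.exp (2 * x))⁻¹)
    (-x / Real.cosh x ^ 2) x := by
  have hE : 0 < Real.exp (2 * x) := Real.exp_pos _
  have hE1 : 0 < 1 + Real.exp (2 * x) := by linarith
  have h1 : HasDerivAt (fun x : ℝ => 1 + Real.exp (2 * x)) (Real.exp (2 * x) * 2) x := by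
    have h2 : HasDerivAt (fun x : ℝ => 2 * x) 2 x := by
      simpa using (hasDerivAt_id x).const_mul (2 : ℝ)
    exact h2.exp.const_add 1
  have h2 : HasDerivAt (fun x : ℝ => (1 + Real.exp (2 * x))⁻¹)
      (-(Real.exp (2 * x) * 2) / (1 + Real.exp (2 * x)) ^ 2) x := h1.fun_inv hE1.ne'
  have hp0 : (1 + Real.exp (2 * x))⁻¹ ≠ 0 := inv_ne_zero hE1.ne'
  have hp1 : (1 + Real.exp (2 * x))⁻¹ ≠ 1 := by
    intro h
    have h5 : 1 + Real.exp (2 * x) = 1 := by
      rw [← inv_inv (1 + Real.exp (2 * x)), h, inv_one]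
    linarith
  have h3 := (Real.hasDerivAt_binEntropy hp0 hp1).comp x h2
  have h4 : Real.log (1 - (1 + Real.exp (2 * x))⁻¹) - Real.log (1 + Real.exp (2 * x))⁻¹ =
      2 * x := by
    have e : 1 - (1 + Real.exp (2 * x))⁻¹ = Real.exp (2 * x) * (1 + Real.exp (2 * x))⁻¹ := by
      field_simp
      ring
    rw [e, Real.log_mul hE.ne' hp0, Real.log_exp]
    ring
  rw [h4] at h3
  have h5 : 2 * x * (-(Real.exp (2 * x) * 2) / (1 + Real.exp (2 * x)) ^ 2) =
      -x / Real.cosh x ^ 2 := by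
    have hE' : 0 < Real.exp x := Real.exp_pos x
    rw [exp_two, Real.cosh_eq, Real.exp_neg]
    field_simp
    ring
  rw [h5] at h3
  exact h3

lemma ent_le {x : ℝ} (hx : 0 ≤ x) :
    Real.binEntropy (1 + Real.exp (2 * x))⁻¹ ≤ 2 * Real.exp (-x) := by
  have hE : 0 < Real.exp (2 * x) := Real.exp_pos _
  have hE1 : 0 < 1 + Real.exp (2 * x) := by linarith
  have hp0 : 0 < (1 + Real.exp (2 * x))⁻¹ := inv_pos.2 hE1
  set p := (1 + Real.exp (2 * x))⁻¹ with hp
  have hpe : p ≤ Real.exp (-(2 * x)) := by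
    rw [Real.exp_neg, hp]
    exact inv_anti₀ hE (by linarith)
  have hp1 : p < 1 := by
    rw [hp, inv_lt_one₀ hE1]
    linarith
  have h1 : Real.log p⁻¹ ≤ Real.log 2 + 2 * x := by
    rw [hp, inv_inv, ← Real.log_exp (2 * x), ← Real.log_mul (by norm_num) hE.ne', Real.log_exp]
    apply Real.log_le_log hE1
    have : 1 ≤ Real.exp (2 * x) := Real.one_le_exp (by linarith)
    linarith
  have h2 : (1 - p) * Real.log (1 - p)⁻¹ ≤ p := by
    have hq : 0 < 1 - p := by linarith
    have h3 : Real.log (1 - p)⁻¹ ≤ (1 - p)⁻¹ - 1 := Real.log_le_sub_one_of_pos (inv_pos.2 hq)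
    calc (1 - p) * Real.log (1 - p)⁻¹ ≤ (1 - p) * ((1 - p)⁻¹ - 1) :=
          mul_le_mul_of_nonneg_left h3 hq.le
      _ = p := by
          field_simp
          ring
  have h3 : Real.log 2 ≤ 1 := by
    have := Real.log_two_lt_d9
    linarith
  have h4 : 1 + x ≤ Real.exp x := by
    have := Real.add_one_le_exp x
    linarith
  calc Real.binEntropy p = p * Real.log p⁻¹ + (1 - p) * Real.log (1 - p)⁻¹ := rfl
    _ ≤ p * (Real.log 2 + 2 * x) + p := add_le_add (mul_le_mul_of_nonneg_left h1 hp0.le) h2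
    _ = p * (Real.log 2 + 2 * x + 1) := by ring
    _ ≤ p * (2 * (1 + x)) := mul_le_mul_of_nonneg_left (by linarith) hp0.le
    _ ≤ Real.exp (-(2 * x)) * (2 * Real.exp x) :=
        mul_le_mul hpe (by linarith) (by linarith) (Real.exp_pos _).le
    _ = 2 * Real.exp (-x) := by
        have e : Real.exp (-x) = Real.exp (-(2 * x)) * Real.exp x := by
          rw [← Real.exp_add]
          congr 1
          ring
        rw [e]
        ring

lemma term_bound {e : ℝ} (he : 0 < e) (n : ℕ) :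
    ‖(-1) ^ n * hb (1 / Real.cosh (((n : ℝ) + 1) * e) ^ 2)‖ ≤
      2 / Real.log 2 * Real.exp (-e) * Real.exp (-e) ^ n := by
  have hl : 0 < Real.log 2 := Real.log_pos (by norm_num)
  have hx : 0 < ((n : ℝ) + 1) * e := by positivity
  have hE : 0 < Real.exp (2 * (((n : ℝ) + 1) * e)) := Real.exp_pos _
  have hE1 : 0 < 1 + Real.exp (2 * (((n : ℝ) + 1) * e)) := by linarith
  rw [norm_mul, norm_pow, norm_neg, norm_one, one_pow, one_mul, hb_eq hx, Real.norm_eq_abs,
    abs_of_nonneg (div_nonneg (Real.binEntropy_nonneg (inv_pos.2 hE1).le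
      (inv_le_one_of_one_le₀ (by linarith))) hl.le)]
  calc Real.binEntropy (1 + Real.exp (2 * (((n : ℝ) + 1) * e)))⁻¹ / Real.log 2
      ≤ 2 * Real.exp (-(((n : ℝ) + 1) * e)) / Real.log 2 :=
        div_le_div_of_nonneg_right (ent_le hx.le) hl.le
    _ = 2 / Real.log 2 * Real.exp (-e) * Real.exp (-e) ^ n := by
        have e1 : Real.exp (-(((n : ℝ) + 1) * e)) = Real.exp (-e) * Real.exp (-e) ^ n := by
          rw [← Real.exp_nat_mul, ← Real.exp_add]
          congr 1
          ring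
        rw [e1]
        ring

lemma exp_lt {e : ℝ} (he : 0 < e) : Real.exp (-e) < 1 := by
  rw [← Real.exp_zero]
  exact Real.exp_lt_exp.2 (by linarith)

lemma bound_sum {e : ℝ} (he : 0 < e) :
    HasSum (fun n : ℕ => 2 / Real.log 2 * Real.exp (-e) * Real.exp (-e) ^ n)
      (2 / Real.log 2 * Real.exp (-e) * (1 - Real.exp (-e))⁻¹) :=
  (hasSum_geometric_of_lt_one (Real.exp_pos _).le
    (exp_lt he)).mul_left _

theorem sd : S6_sd := by
  have hl : 0 < Real.log 2 := Real.log_pos (by norm_num)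
  refine ⟨fun e he => ?_, ?_⟩
  · have hgeo : Summable (fun n : ℕ => ((n : ℝ) + 1) ^ 2 * Real.exp (-e) ^ (n + 1)) := by
      have h1 : Summable (fun n : ℕ => (n : ℝ) ^ 2 * Real.exp (-e) ^ n) :=
        summable_pow_mul_geometric_of_norm_lt_one 2 (by
          rw [Real.norm_eq_abs, abs_of_pos (Real.exp_pos _)]
          exact exp_lt he)
      have h2 := (summable_nat_add_iff 1).2 h1
      refine h2.congr fun n => ?_
      push_cast
      rfl
    have hder : ∀ (n : ℕ) (y : ℝ), y ∈ Set.Ioo (e / 2) (2 * e) →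
        HasDerivAt (fun z => (-1 : ℝ) ^ n * hb (1 / Real.cosh (((n : ℝ) + 1) * z) ^ 2))
          (-(y / Real.log 2) * ((-1) ^ n * ((n : ℝ) + 1) ^ 2 /
            Real.cosh (((n : ℝ) + 1) * y) ^ 2)) y := by
      intro n y hy
      have hy0 : 0 < y := by linarith [hy.1]
      have h1 : HasDerivAt (fun z : ℝ => ((n : ℝ) + 1) * z) ((n : ℝ) + 1) y := by
        simpa using (hasDerivAt_id y).const_mul ((n : ℝ) + 1)
      have h2 := (deriv_ent (((n : ℝ) + 1) * y)).comp y h1
      have h3 : HasDerivAt (fun z : ℝ => (-1 : ℝ) ^ n *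
          (Real.binEntropy (1 + Real.exp (2 * (((n : ℝ) + 1) * z)))⁻¹ / Real.log 2))
          ((-1) ^ n * ((-(((n : ℝ) + 1) * y) / Real.cosh (((n : ℝ) + 1) * y) ^ 2 *
            ((n : ℝ) + 1)) / Real.log 2)) y := (h2.div_const _).const_mul _
      have h4 : (-1 : ℝ) ^ n * ((-(((n : ℝ) + 1) * y) / Real.cosh (((n : ℝ) + 1) * y) ^ 2 *
            ((n : ℝ) + 1)) / Real.log 2) = -(y / Real.log 2) * ((-1) ^ n * ((n : ℝ) + 1) ^ 2 /
            Real.cosh (((n : ℝ) + 1) * y) ^ 2) := by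
        ring
      rw [h4] at h3
      refine h3.congr_of_eventuallyEq ?_
      filter_upwards [lt_mem_nhds hy0] with z hz
      rw [hb_eq (by positivity)]
    have hbd : ∀ (n : ℕ) (y : ℝ), y ∈ Set.Ioo (e / 2) (2 * e) →
        ‖-(y / Real.log 2) * ((-1) ^ n * ((n : ℝ) + 1) ^ 2 /
            Real.cosh (((n : ℝ) + 1) * y) ^ 2)‖ ≤
          8 * e / Real.log 2 * (((n : ℝ) + 1) ^ 2 * Real.exp (-e) ^ (n + 1)) := by
      intro n y hy
      have hy0 : 0 < y := by linarith [hy.1]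
      have hn : (0 : ℝ) ≤ n := Nat.cast_nonneg n
      have hc : 0 < Real.cosh (((n : ℝ) + 1) * y) := Real.cosh_pos _
      have e0 : ‖-(y / Real.log 2) * ((-1) ^ n * ((n : ℝ) + 1) ^ 2 /
            Real.cosh (((n : ℝ) + 1) * y) ^ 2)‖ =
          y / Real.log 2 * (((n : ℝ) + 1) ^ 2 / Real.cosh (((n : ℝ) + 1) * y) ^ 2) := by
        have e1 : ‖(-1 : ℝ) ^ n‖ = 1 := by rw [norm_pow, norm_neg, norm_one, one_pow]
        have e2 : ‖y / Real.log 2‖ = y / Real.log 2 :=
          Real.norm_of_nonneg (div_nonneg hy0.le hl.le)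
        have e3 : ‖((n : ℝ) + 1) ^ 2‖ = ((n : ℝ) + 1) ^ 2 := Real.norm_of_nonneg (by positivity)
        have e4 : ‖Real.cosh (((n : ℝ) + 1) * y) ^ 2‖ = Real.cosh (((n : ℝ) + 1) * y) ^ 2 :=
          Real.norm_of_nonneg (by positivity)
        rw [norm_mul, norm_neg, e2, norm_div ((-1 : ℝ) ^ n * ((n : ℝ) + 1) ^ 2), norm_mul, e1, e3,
          e4, one_mul]
      rw [e0]
      have h1 : Real.exp (((n : ℝ) + 1) * y) / 2 ≤ Real.cosh (((n : ℝ) + 1) * y) := by
        rw [Real.cosh_eq]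
        have := Real.exp_pos (-(((n : ℝ) + 1) * y))
        linarith
      have h2 : (Real.exp (((n : ℝ) + 1) * y) / 2) ^ 2 ≤ Real.cosh (((n : ℝ) + 1) * y) ^ 2 :=
        pow_le_pow_left₀ (by positivity) h1 2
      have h3 : Real.exp (((n : ℝ) + 1) * e) ≤ Real.exp (((n : ℝ) + 1) * y) ^ 2 := by
        rw [← Real.exp_nat_mul]
        apply Real.exp_le_exp.2
        push_cast
        nlinarith [hy.1]
      have h4 : Real.exp (-e) ^ (n + 1) = (Real.exp (((n : ℝ) + 1) * e))⁻¹ := by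
        rw [← Real.exp_nat_mul, ← Real.exp_neg]
        congr 1
        push_cast
        ring
      have h5 : 1 / Real.cosh (((n : ℝ) + 1) * y) ^ 2 ≤ 4 * Real.exp (-e) ^ (n + 1) := by
        rw [h4, div_le_iff₀ (by positivity)]
        have hpos : 0 < Real.exp (((n : ℝ) + 1) * e) := Real.exp_pos _
        have h6 : Real.exp (((n : ℝ) + 1) * e) ≤ 4 * Real.cosh (((n : ℝ) + 1) * y) ^ 2 := by
          nlinarith
        calc (1 : ℝ) = (Real.exp (((n : ℝ) + 1) * e))⁻¹ * Real.exp (((n : ℝ) + 1) * e) := by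
              rw [inv_mul_cancel₀ hpos.ne']
          _ ≤ (Real.exp (((n : ℝ) + 1) * e))⁻¹ * (4 * Real.cosh (((n : ℝ) + 1) * y) ^ 2) :=
              mul_le_mul_of_nonneg_left h6 (inv_nonneg.2 hpos.le)
          _ = _ := by ring
      calc y / Real.log 2 * (((n : ℝ) + 1) ^ 2 / Real.cosh (((n : ℝ) + 1) * y) ^ 2)
          = y / Real.log 2 * ((n : ℝ) + 1) ^ 2 * (1 / Real.cosh (((n : ℝ) + 1) * y) ^ 2) := by ring
        _ ≤ 2 * e / Real.log 2 * ((n : ℝ) + 1) ^ 2 * (4 * Real.exp (-e) ^ (n + 1)) := by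
            apply mul_le_mul _ h5 (by positivity) (by positivity)
            apply mul_le_mul_of_nonneg_right _ (by positivity)
            exact div_le_div_of_nonneg_right hy.2.le hl.le
        _ = _ := by ring
    have hmem : e ∈ Set.Ioo (e / 2) (2 * e) := ⟨by linarith, by linarith⟩
    have key := hasDerivAt_tsum_of_isPreconnected (hgeo.mul_left (8 * e / Real.log 2)) isOpen_Ioo
      isPreconnected_Ioo hder hbd hmem
      (Summable.of_norm_bounded (bound_sum he).summable fun n => term_bound he n) hmem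
    rw [tsum_mul_left] at key
    have h6 : -(e / Real.log 2) * (∑' n : ℕ, (-1) ^ n * ((n : ℝ) + 1) ^ 2 /
            Real.cosh (((n : ℝ) + 1) * e) ^ 2) = -(e * Zs e) / Real.log 2 := by
      unfold Zs
      ring
    rw [h6] at key
    exact key
  · have hlim : Tendsto (fun e : ℝ => 2 / Real.log 2 * Real.exp (-e) * (1 - Real.exp (-e))⁻¹)
        atTop (𝓝 (2 / Real.log 2 * 0 * (1 - 0)⁻¹)) := by
      have h1 : Tendsto (fun e : ℝ => Real.exp (-e)) atTop (𝓝 0) :=
        Real.tendsto_exp_neg_atTop_nhds_zero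
      exact (tendsto_const_nhds.mul h1).mul ((tendsto_const_nhds.sub h1).inv₀ (by norm_num))
    rw [mul_zero, zero_mul] at hlim
    refine squeeze_zero_norm' ?_ hlim
    filter_upwards [eventually_gt_atTop (0 : ℝ)] with e he
    exact tsum_of_norm_bounded (bound_sum he) fun n => term_bound he n

end Pool.Agent.TH41.BL.SD5f
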