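import Mathlib
import Pool.Agent.TH41.BL.Stm5

/-!
Project BL5, piece SM: summability and termwise differentiation of the lattice sums of
hyperbolic secants.
-/

set_option autoImplicit false

open MeasureTheory Filter Topology

namespace Pool.Agent.TH41.BL.SM5f

open Pool.Agent.TH41.BL

theorem cosh_lower (w : ℂ) (h : 1 ≤ |w.re|) : 1 / 4 * Real.exp |w.re| ≤ ‖Complex.cosh w‖ := by
  have h1 : ‖Complex.cosh w‖ = ‖Complex.exp w + Complex.exp (-w)‖ / 2 := by
    rw [Complex.cosh, norm_div]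
    norm_num
  have he : (2 : ℝ) ≤ Real.exp 1 := by
    have := Real.add_one_le_exp (1 : ℝ)
    linarith
  have key : ∀ a b : ℂ, ‖a‖ = Real.exp |w.re| → ‖b‖ = Real.exp (-|w.re|) →
      1 / 4 * Real.exp |w.re| ≤ ‖a + b‖ / 2 := by
    intro a b ha hb
    have h2 : ‖a‖ - ‖b‖ ≤ ‖a + b‖ := by
      have := norm_sub_le (a + b) b
      simp only [add_sub_cancel_right] at this
      linarith
    have h3 : Real.exp (-|w.re|) ≤ 1 := by
      apply Real.exp_le_one_iff.mpr
      linarith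
    have h4 : Real.exp 1 ≤ Real.exp |w.re| := Real.exp_le_exp.mpr h
    rw [ha, hb] at h2
    linarith
  rw [h1]
  rcases le_total 0 w.re with h0 | h0
  · refine key _ _ ?_ ?_
    · rw [Complex.norm_exp, abs_of_nonneg h0]
    · rw [Complex.norm_exp, abs_of_nonneg h0, Complex.neg_re]
  · rw [add_comm]
    refine key _ _ ?_ ?_
    · rw [Complex.norm_exp, abs_of_nonpos h0, Complex.neg_re]
    · rw [Complex.norm_exp, abs_of_nonpos h0, neg_neg]

theorem sinh_upper (w : ℂ) : ‖Complex.sinh w‖ ≤ Real.exp |w.re| := by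
  have h1 : ‖Complex.sinh w‖ = ‖Complex.exp w - Complex.exp (-w)‖ / 2 := by
    rw [Complex.sinh, norm_div]
    norm_num
  have h2 := norm_sub_le (Complex.exp w) (Complex.exp (-w))
  rw [Complex.norm_exp, Complex.norm_exp, Complex.neg_re] at h2
  have h3 : Real.exp w.re ≤ Real.exp |w.re| := Real.exp_le_exp.mpr (le_abs_self _)
  have h4 : Real.exp (-w.re) ≤ Real.exp |w.re| := Real.exp_le_exp.mpr (neg_le_abs _)
  rw [h1]
  linarith

theorem re_shift (w : ℂ) (j : ℤ) (e : ℝ) : (w - 2 * j * e).re = w.re - 2 * j * e := by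
  simp

theorem fin_loc {e : ℝ} {u : ℂ} (hu : u ∈ Us e) (S : Finset ℤ) :
    ∃ c : ℝ, 0 < c ∧ ∀ᶠ w in 𝓝 u, ∀ j ∈ S,
      c * Real.exp (2 * |(j : ℝ)| * e) ≤ ‖Complex.cosh (w - 2 * j * e)‖ := by
  induction S using Finset.induction_on with
  | empty => exact ⟨1, one_pos, Eventually.of_forall (by simp)⟩
  | insert a S ha ih =>
    obtain ⟨c, hc, hw⟩ := ih
    have h0 : 0 < ‖Complex.cosh (u - 2 * a * e)‖ := norm_pos_iff.mpr (hu a)
    have hE : 0 < Real.exp (2 * |(a : ℝ)| * e) := Real.exp_pos _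
    refine ⟨min c (‖Complex.cosh (u - 2 * a * e)‖ / 2 / Real.exp (2 * |(a : ℝ)| * e)),
      lt_min hc (by positivity), ?_⟩
    have hcont : ContinuousAt (fun w : ℂ => ‖Complex.cosh (w - 2 * a * e)‖) u := by
      have : Continuous (fun w : ℂ => ‖Complex.cosh (w - 2 * a * e)‖) :=
        (Complex.continuous_cosh.comp (continuous_id.sub continuous_const)).norm
      exact this.continuousAt
    have hev : ∀ᶠ w in 𝓝 u, ‖Complex.cosh (u - 2 * a * e)‖ / 2 < ‖Complex.cosh (w - 2 * a * e)‖ :=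
      hcont.eventually (lt_mem_nhds (by linarith))
    filter_upwards [hw, hev] with w h1 h2 j hj
    rcases Finset.mem_insert.mp hj with rfl | hj
    · have h3 := min_le_right c
        (‖Complex.cosh (u - 2 * j * e)‖ / 2 / Real.exp (2 * |(j : ℝ)| * e))
      calc _ ≤ (‖Complex.cosh (u - 2 * j * e)‖ / 2 / Real.exp (2 * |(j : ℝ)| * e))
            * Real.exp (2 * |(j : ℝ)| * e) := mul_le_mul_of_nonneg_right h3 hE.le
        _ = ‖Complex.cosh (u - 2 * j * e)‖ / 2 := div_mul_cancel₀ _ hE.ne'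
        _ ≤ _ := h2.le
    · exact le_trans (mul_le_mul_of_nonneg_right (min_le_left _ _) (Real.exp_pos _).le) (h1 j hj)

theorem loc {e : ℝ} (he : 0 < e) {u : ℂ} (hu : u ∈ Us e) :
    ∃ c : ℝ, 0 < c ∧ ∃ r : ℝ, 0 < r ∧ r ≤ 1 ∧ ∀ w ∈ Metric.ball u r, ∀ j : ℤ,
      c * Real.exp (2 * |(j : ℝ)| * e) ≤ ‖Complex.cosh (w - 2 * j * e)‖ := by
  obtain ⟨J, hJ⟩ : ∃ J : ℤ, (|u.re| + 2) / (2 * e) ≤ J := ⟨⌈(|u.re| + 2) / (2 * e)⌉, Int.le_ceil _⟩
  have hJ' : |u.re| + 2 ≤ 2 * J * e := by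
    rw [div_le_iff₀ (by positivity)] at hJ
    linarith
  obtain ⟨c, hc, hev⟩ := fin_loc hu (Finset.Icc (-J) J)
  obtain ⟨r, hr, hrw⟩ := Metric.eventually_nhds_iff_ball.mp hev
  refine ⟨min c (1 / 4 * Real.exp (-(|u.re| + 1))), lt_min hc (by positivity),
    min r 1, lt_min hr one_pos, min_le_right _ _, ?_⟩
  intro w hw j
  have hw1 : w ∈ Metric.ball u r := Metric.ball_subset_ball (min_le_left _ _) hw
  have hw2 : ‖w - u‖ < 1 := by
    have := Metric.mem_ball.mp (Metric.ball_subset_ball (min_le_right r 1) hw)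
    rwa [dist_eq_norm] at this
  have hre : |w.re - u.re| < 1 := by
    have := Complex.abs_re_le_norm (w - u)
    rw [Complex.sub_re] at this
    linarith
  by_cases hj : j ∈ Finset.Icc (-J) J
  · exact le_trans (mul_le_mul_of_nonneg_right (min_le_left _ _) (Real.exp_pos _).le) (hrw w hw1 j hj)
  · have hj' : (J : ℝ) ≤ |(j : ℝ)| := by
      have : J < |j| := by
        by_contra hcon
        push Not at hcon
        exact hj (Finset.mem_Icc.mpr (abs_le.mp hcon))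
      have h2 : (J : ℝ) < ((|j| : ℤ) : ℝ) := by exact_mod_cast this
      rw [Int.cast_abs] at h2
      exact h2.le
    have h3 : 2 * |(j : ℝ)| * e - (|u.re| + 1) ≤ |(w - 2 * j * e).re| := by
      rw [re_shift]
      have h5 : |2 * (j : ℝ) * e| = 2 * |(j : ℝ)| * e := by
        rw [abs_mul, abs_mul, abs_of_pos he]
        norm_num
      have h6 : |2 * (j : ℝ) * e| ≤ |w.re - 2 * j * e| + |w.re| := by
        have := abs_sub_abs_le_abs_sub (2 * (j : ℝ) * e) w.re
        rw [abs_sub_comm w.re]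
        linarith
      have h7 : |w.re| ≤ |u.re| + 1 := by
        have := abs_sub_abs_le_abs_sub w.re u.re
        linarith
      linarith
    have h4 : 2 * (J : ℝ) * e ≤ 2 * |(j : ℝ)| * e := by nlinarith
    have h5 : 1 ≤ |(w - 2 * j * e).re| := by linarith
    have h6 := cosh_lower _ h5
    have h7 : Real.exp (2 * |(j : ℝ)| * e - (|u.re| + 1)) ≤ Real.exp |(w - 2 * j * e).re| :=
      Real.exp_le_exp.mpr h3
    have h8 : Real.exp (2 * |(j : ℝ)| * e - (|u.re| + 1))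
        = Real.exp (-(|u.re| + 1)) * Real.exp (2 * |(j : ℝ)| * e) := by
      rw [← Real.exp_add]
      ring_nf
    calc _ ≤ 1 / 4 * Real.exp (-(|u.re| + 1)) * Real.exp (2 * |(j : ℝ)| * e) :=
          mul_le_mul_of_nonneg_right (min_le_right _ _) (Real.exp_pos _).le
      _ = 1 / 4 * Real.exp (2 * |(j : ℝ)| * e - (|u.re| + 1)) := by rw [h8]; ring
      _ ≤ 1 / 4 * Real.exp |(w - 2 * j * e).re| := by linarith
      _ ≤ _ := h6

theorem summ_exp {e : ℝ} (he : 0 < e) : Summable (fun j : ℤ => Real.exp (-(2 * |(j : ℝ)| * e))) := by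
  have h1 : Summable (fun n : ℕ => Real.exp (-(2 * e)) ^ n) :=
    summable_geometric_of_lt_one (Real.exp_pos _).le (by
      rw [Real.exp_lt_one_iff]
      linarith)
  have h2 : ∀ n : ℕ, Real.exp (-(2 * |((n : ℤ) : ℝ)| * e)) = Real.exp (-(2 * e)) ^ n := by
    intro n
    rw [← Real.exp_nat_mul]
    congr 1
    have : |((n : ℤ) : ℝ)| = (n : ℝ) := by
      rw [Int.cast_natCast]
      exact abs_of_nonneg (Nat.cast_nonneg n)
    rw [this]
    ring
  refine Summable.of_nat_of_neg ?_ ?_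
  · exact h1.congr (fun n => (h2 n).symm)
  · refine h1.congr (fun n => ?_)
    rw [← h2 n]
    congr 3
    push_cast
    rw [abs_neg]

theorem cosh_ne {e : ℝ} {c : ℝ} (hc : 0 < c) {w : ℂ} {j : ℤ}
    (h : c * Real.exp (2 * |(j : ℝ)| * e) ≤ ‖Complex.cosh (w - 2 * j * e)‖) :
    Complex.cosh (w - 2 * j * e) ≠ 0 := by
  intro h0
  rw [h0, norm_zero] at h
  have := mul_pos hc (Real.exp_pos (2 * |(j : ℝ)| * e))
  linarith

/-- the bound for powers -/
theorem bd_pow {e : ℝ} (he : 0 < e) {c : ℝ} (hc : 0 < c) {w : ℂ} {j : ℤ}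
    (h : c * Real.exp (2 * |(j : ℝ)| * e) ≤ ‖Complex.cosh (w - 2 * j * e)‖) (p : ℕ) (hp : 1 ≤ p) :
    ‖1 / Complex.cosh (w - 2 * j * e) ^ p‖ ≤ (c ^ p)⁻¹ * Real.exp (-(2 * |(j : ℝ)| * e)) := by
  have hE : 0 < Real.exp (2 * |(j : ℝ)| * e) := Real.exp_pos _
  have hE1 : 1 ≤ Real.exp (2 * |(j : ℝ)| * e) := Real.one_le_exp (by positivity)
  have h1 : c ^ p * Real.exp (2 * |(j : ℝ)| * e) ≤ ‖Complex.cosh (w - 2 * j * e)‖ ^ p := by
    calc c ^ p * Real.exp (2 * |(j : ℝ)| * e) ≤ c ^ p * Real.exp (2 * |(j : ℝ)| * e) ^ p := by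
          apply mul_le_mul_of_nonneg_left _ (by positivity)
          exact le_self_pow₀ hE1 (by omega)
      _ = (c * Real.exp (2 * |(j : ℝ)| * e)) ^ p := (mul_pow _ _ _).symm
      _ ≤ _ := pow_le_pow_left₀ (by positivity) h p
  rw [norm_div, norm_one, norm_pow, one_div, Real.exp_neg, ← mul_inv]
  exact inv_anti₀ (by positivity) h1

theorem bd_sinh {e : ℝ} {c : ℝ} (he : 0 < e) (hc : 0 < c) {w u : ℂ} {j : ℤ}
    (hw : ‖w - u‖ < 1)
    (h : c * Real.exp (2 * |(j : ℝ)| * e) ≤ ‖Complex.cosh (w - 2 * j * e)‖) :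
    ‖Complex.sinh (w - 2 * j * e) / Complex.cosh (w - 2 * j * e) ^ 2‖
      ≤ Real.exp (|u.re| + 1) * (c ^ 2)⁻¹ * Real.exp (-(2 * |(j : ℝ)| * e)) := by
  have hE : 0 < Real.exp (2 * |(j : ℝ)| * e) := Real.exp_pos _
  have h1 : c ^ 2 * Real.exp (2 * |(j : ℝ)| * e) ^ 2 ≤ ‖Complex.cosh (w - 2 * j * e)‖ ^ 2 := by
    rw [← mul_pow]
    exact pow_le_pow_left₀ (by positivity) h 2
  have h2 := sinh_upper (w - 2 * j * e)
  have hre : |w.re - u.re| < 1 := by
    have := Complex.abs_re_le_norm (w - u)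
    rw [Complex.sub_re] at this
    linarith
  have h3 : |(w - 2 * j * e).re| ≤ (|u.re| + 1) + 2 * |(j : ℝ)| * e := by
    rw [re_shift]
    have h5 : |2 * (j : ℝ) * e| = 2 * |(j : ℝ)| * e := by
      rw [abs_mul, abs_mul, abs_of_pos he]
      norm_num
    have h6 := abs_sub w.re (2 * (j : ℝ) * e)
    have h7 : |w.re| ≤ |u.re| + 1 := by
      have := abs_sub_abs_le_abs_sub w.re u.re
      linarith
    linarith
  have h4 : ‖Complex.sinh (w - 2 * j * e)‖
      ≤ Real.exp (|u.re| + 1) * Real.exp (2 * |(j : ℝ)| * e) := by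
    refine h2.trans ?_
    rw [← Real.exp_add]
    exact Real.exp_le_exp.mpr h3
  rw [norm_div, norm_pow]
  have h5 : (0 : ℝ) < c ^ 2 * Real.exp (2 * |(j : ℝ)| * e) ^ 2 := by positivity
  calc ‖Complex.sinh (w - 2 * j * e)‖ / ‖Complex.cosh (w - 2 * j * e)‖ ^ 2
      ≤ (Real.exp (|u.re| + 1) * Real.exp (2 * |(j : ℝ)| * e)) /
        (c ^ 2 * Real.exp (2 * |(j : ℝ)| * e) ^ 2) :=
        div_le_div₀ (by positivity) h4 h5 h1
    _ = _ := by
        rw [Real.exp_neg]
        field_simp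

theorem ball_Us {e : ℝ} {c r : ℝ} {u : ℂ} (hc : 0 < c)
    (h : ∀ w ∈ Metric.ball u r, ∀ j : ℤ,
      c * Real.exp (2 * |(j : ℝ)| * e) ≤ ‖Complex.cosh (w - 2 * j * e)‖) :
    ∀ w ∈ Metric.ball u r, ∀ j : ℤ, Complex.cosh (w - 2 * j * e) ≠ 0 :=
  fun w hw j => cosh_ne hc (h w hw j)

theorem hd_sech {w a : ℂ} (h : Complex.cosh (w - a) ≠ 0) :
    HasDerivAt (fun z : ℂ => 1 / Complex.cosh (z - a))
      (-(Complex.sinh (w - a) / Complex.cosh (w - a) ^ 2)) w := by
  have h1 : HasDerivAt (fun z : ℂ => z - a) 1 w := (hasDerivAt_id w).sub_const a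
  have h2 : HasDerivAt (fun z : ℂ => Complex.cosh (z - a)) (Complex.sinh (w - a) * 1) w :=
    h1.ccosh
  have h3 := h2.inv h
  have h4 : (fun z : ℂ => 1 / Complex.cosh (z - a)) = (fun z : ℂ => Complex.cosh (z - a))⁻¹ := by
    funext z
    simp
  rw [h4]
  have h5 : -(Complex.sinh (w - a) * 1) / Complex.cosh (w - a) ^ 2
      = -(Complex.sinh (w - a) / Complex.cosh (w - a) ^ 2) := by
    rw [mul_one, neg_div]
  rw [h5] at h3
  exact h3

theorem hd_sc {w a : ℂ} (h : Complex.cosh (w - a) ≠ 0) :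
    HasDerivAt (fun z : ℂ => Complex.sinh (z - a) / Complex.cosh (z - a) ^ 2)
      (-(1 / Complex.cosh (w - a)) + 2 * (1 / Complex.cosh (w - a) ^ 3)) w := by
  have h1 : HasDerivAt (fun z : ℂ => z - a) 1 w := (hasDerivAt_id w).sub_const a
  have h2 : HasDerivAt (fun z : ℂ => Complex.cosh (z - a)) (Complex.sinh (w - a) * 1) w :=
    h1.ccosh
  have h3 : HasDerivAt (fun z : ℂ => Complex.sinh (z - a)) (Complex.cosh (w - a) * 1) w :=
    h1.csinh
  have h4 := h3.div (h2.pow 2) (pow_ne_zero 2 h)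
  have h5 : HasDerivAt (fun z : ℂ => Complex.sinh (z - a) / Complex.cosh (z - a) ^ 2) _ w := h4
  convert h5 using 1
  have h6 := Complex.cosh_sq (w - a)
  have h7 : Complex.sinh (w - a) ^ 2 = Complex.cosh (w - a) ^ 2 - 1 := by rw [h6]; ring
  simp only [Nat.cast_ofNat, Pi.pow_apply]
  field_simp
  rw [show (2 - 1 : ℕ) = 1 from rfl]
  linear_combination (2 * Complex.cosh (w - a)) * h7

theorem main {e : ℝ} (he : 0 < e) {u : ℂ} (hu : u ∈ Us e) :
    Summable (fun j : ℤ => ‖1 / Complex.cosh (u - 2 * j * e)‖) ∧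
    Summable (fun j : ℤ => ‖1 / Complex.cosh (u - 2 * j * e) ^ 2‖) ∧
    Summable (fun j : ℤ => ‖1 / Complex.cosh (u - 2 * j * e) ^ 3‖) ∧
    Summable (fun j : ℤ => ‖Complex.sinh (u - 2 * j * e) / Complex.cosh (u - 2 * j * e) ^ 2‖) ∧
    HasDerivAt (Fs e) (Gs e u) u ∧
    HasDerivAt (Gs e) (Fs e u - 2 * Ts e u) u := by
  obtain ⟨c, hc, r, hr, hr1, hb⟩ := loc he hu
  have huB : u ∈ Metric.ball u r := Metric.mem_ball_self hr
  have hS := summ_exp he
  have hne := ball_Us hc hb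
  have hnorm : ∀ w ∈ Metric.ball u r, ‖w - u‖ < 1 := by
    intro w hw
    have := Metric.mem_ball.mp hw
    rw [dist_eq_norm] at this
    linarith
  have s1 : Summable (fun j : ℤ => ‖1 / Complex.cosh (u - 2 * j * e)‖) := by
    refine Summable.of_nonneg_of_le (fun j => norm_nonneg _) (fun j => ?_) (hS.mul_left (c ^ 1)⁻¹)
    have := bd_pow he hc (hb u huB j) 1 le_rfl
    rwa [pow_one] at this
  have s2 : Summable (fun j : ℤ => ‖1 / Complex.cosh (u - 2 * j * e) ^ 2‖) :=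
    Summable.of_nonneg_of_le (fun j => norm_nonneg _)
      (fun j => bd_pow he hc (hb u huB j) 2 (by norm_num)) (hS.mul_left (c ^ 2)⁻¹)
  have s3 : Summable (fun j : ℤ => ‖1 / Complex.cosh (u - 2 * j * e) ^ 3‖) :=
    Summable.of_nonneg_of_le (fun j => norm_nonneg _)
      (fun j => bd_pow he hc (hb u huB j) 3 (by norm_num)) (hS.mul_left (c ^ 3)⁻¹)
  have s4 : Summable (fun j : ℤ =>
      ‖Complex.sinh (u - 2 * j * e) / Complex.cosh (u - 2 * j * e) ^ 2‖) :=
    Summable.of_nonneg_of_le (fun j => norm_nonneg _)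
      (fun j => bd_sinh he hc (hnorm u huB) (hb u huB j))
      (hS.mul_left (Real.exp (|u.re| + 1) * (c ^ 2)⁻¹))
  refine ⟨s1, s2, s3, s4, ?_, ?_⟩
  · have hf : ∀ j : ℤ, DifferentiableOn ℂ (fun w : ℂ => 1 / Complex.cosh (w - 2 * j * e))
        (Metric.ball u r) := fun j w hw =>
      (hd_sech (hne w hw j)).differentiableAt.differentiableWithinAt
    have hle : ∀ (j : ℤ) (w : ℂ), w ∈ Metric.ball u r →
        ‖1 / Complex.cosh (w - 2 * j * e)‖ ≤ (c ^ 1)⁻¹ * Real.exp (-(2 * |(j : ℝ)| * e)) := by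
      intro j w hw
      have := bd_pow he hc (hb w hw j) 1 le_rfl
      rwa [pow_one] at this
    have h1 := Complex.hasSum_deriv_of_summable_norm (hS.mul_left (c ^ 1)⁻¹) hf
      Metric.isOpen_ball hle huB
    have h2 := Complex.differentiableOn_tsum_of_summable_norm (hS.mul_left (c ^ 1)⁻¹) hf
      Metric.isOpen_ball hle
    have h3 : HasDerivAt (fun w : ℂ => ∑' j : ℤ, 1 / Complex.cosh (w - 2 * j * e))
        (deriv (fun w : ℂ => ∑' j : ℤ, 1 / Complex.cosh (w - 2 * j * e)) u) u :=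
      ((h2 u huB).differentiableAt (Metric.isOpen_ball.mem_nhds huB)).hasDerivAt
    have h4 : deriv (fun w : ℂ => ∑' j : ℤ, 1 / Complex.cosh (w - 2 * j * e)) u = Gs e u := by
      rw [← h1.tsum_eq, Gs, ← tsum_neg]
      exact tsum_congr fun j => (hd_sech (hne u huB j)).deriv
    rw [h4] at h3
    exact h3
  · have hf : ∀ j : ℤ, DifferentiableOn ℂ
        (fun w : ℂ => Complex.sinh (w - 2 * j * e) / Complex.cosh (w - 2 * j * e) ^ 2)
        (Metric.ball u r) := fun j w hw =>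
      (hd_sc (hne w hw j)).differentiableAt.differentiableWithinAt
    have hle : ∀ (j : ℤ) (w : ℂ), w ∈ Metric.ball u r →
        ‖Complex.sinh (w - 2 * j * e) / Complex.cosh (w - 2 * j * e) ^ 2‖ ≤
          Real.exp (|u.re| + 1) * (c ^ 2)⁻¹ * Real.exp (-(2 * |(j : ℝ)| * e)) :=
      fun j w hw => bd_sinh he hc (hnorm w hw) (hb w hw j)
    have h1 := Complex.hasSum_deriv_of_summable_norm
      (hS.mul_left (Real.exp (|u.re| + 1) * (c ^ 2)⁻¹)) hf Metric.isOpen_ball hle huB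
    have h2 := Complex.differentiableOn_tsum_of_summable_norm
      (hS.mul_left (Real.exp (|u.re| + 1) * (c ^ 2)⁻¹)) hf Metric.isOpen_ball hle
    have h3 : HasDerivAt
        (fun w : ℂ => ∑' j : ℤ, Complex.sinh (w - 2 * j * e) / Complex.cosh (w - 2 * j * e) ^ 2)
        (deriv (fun w : ℂ =>
          ∑' j : ℤ, Complex.sinh (w - 2 * j * e) / Complex.cosh (w - 2 * j * e) ^ 2) u) u :=
      ((h2 u huB).differentiableAt (Metric.isOpen_ball.mem_nhds huB)).hasDerivAt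
    have h4 : deriv (fun w : ℂ =>
          ∑' j : ℤ, Complex.sinh (w - 2 * j * e) / Complex.cosh (w - 2 * j * e) ^ 2) u
        = -(Fs e u - 2 * Ts e u) := by
      rw [← h1.tsum_eq]
      have h5 : ∀ j : ℤ, deriv (fun w : ℂ =>
          Complex.sinh (w - 2 * j * e) / Complex.cosh (w - 2 * j * e) ^ 2) u
          = -(1 / Complex.cosh (u - 2 * j * e)) + 2 * (1 / Complex.cosh (u - 2 * j * e) ^ 3) :=
        fun j => (hd_sc (hne u huB j)).deriv
      rw [tsum_congr h5, (s1.of_norm.neg).tsum_add (s3.of_norm.mul_left 2), tsum_neg,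
        tsum_mul_left, Fs, Ts]
      ring
    rw [h4] at h3
    have h6 := h3.neg
    rw [neg_neg] at h6
    exact h6

theorem sinh_cube {x : ℝ} (hx : 0 ≤ x) : x ^ 3 / 16 ≤ Real.sinh x := by
  rw [Real.sinh_eq]
  have h1 : Real.exp (-x) ≤ 1 := Real.exp_le_one_iff.mpr (by linarith)
  have h2 := Real.quadratic_le_exp_of_nonneg (x := x / 2) (by linarith)
  have h3 : Real.exp x = Real.exp (x / 2) ^ 2 := by
    rw [← Real.exp_nat_mul]
    congr 1
    push_cast
    ring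
  have h4 : (1 + x / 2 + (x / 2) ^ 2 / 2) ^ 2 ≤ Real.exp (x / 2) ^ 2 :=
    pow_le_pow_left₀ (by positivity) h2 2
  have h5 : 1 + x ^ 3 / 8 ≤ (1 + x / 2 + (x / 2) ^ 2 / 2) ^ 2 := by
    nlinarith [pow_nonneg hx 3, pow_nonneg hx 4, pow_nonneg hx 2]
  linarith

theorem real_sums {e : ℝ} (he : 0 < e) :
    Summable (fun d : ℤ => if d = 0 then 0 else 2 * (d : ℝ) / Real.sinh (2 * d * e)) ∧
    Summable (fun d : ℤ => if d = 0 then 0 else 1 / Real.cosh (d * e) ^ 2) := by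
  have hZ : Summable (fun d : ℤ => 1 / (d : ℝ) ^ 2) :=
    Real.summable_one_div_int_pow.mpr (by norm_num)
  constructor
  · refine Summable.of_norm_bounded (hZ.mul_left (4 / e ^ 3)) (fun d => ?_)
    by_cases hd : d = 0
    · simp [hd]
    rw [if_neg hd, Real.norm_eq_abs, abs_div, Real.abs_sinh]
    have hdp : 0 < |(d : ℝ)| := abs_pos.mpr (by exact_mod_cast hd)
    have h5 : |2 * (d : ℝ) * e| = 2 * |(d : ℝ)| * e := by
      rw [abs_mul, abs_mul, abs_of_pos he]
      norm_num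
    have h6 : |2 * (d : ℝ)| = 2 * |(d : ℝ)| := by
      rw [abs_mul]
      norm_num
    rw [h5, h6]
    have h7 := sinh_cube (x := 2 * |(d : ℝ)| * e) (by positivity)
    have h8 : 0 < (2 * |(d : ℝ)| * e) ^ 3 / 16 := by positivity
    calc 2 * |(d : ℝ)| / Real.sinh (2 * |(d : ℝ)| * e)
        ≤ 2 * |(d : ℝ)| / ((2 * |(d : ℝ)| * e) ^ 3 / 16) :=
          div_le_div_of_nonneg_left (by positivity) h8 h7
      _ = 4 / e ^ 3 * (1 / |(d : ℝ)| ^ 2) := by
          field_simp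
          ring
      _ = _ := by rw [sq_abs]
  · refine Summable.of_norm_bounded (hZ.mul_left (1 / e ^ 2)) (fun d => ?_)
    by_cases hd : d = 0
    · simp [hd]
    rw [if_neg hd, Real.norm_eq_abs, abs_of_nonneg (by positivity)]
    have hdp : (d : ℝ) ≠ 0 := by exact_mod_cast hd
    have h1 : (d * e) ^ 2 ≤ Real.cosh (d * e) ^ 2 := by
      have h2 := Real.cosh_sq (d * e)
      have h3 : (d * e) ^ 2 ≤ Real.sinh (d * e) ^ 2 := by
        apply sq_le_sq.mpr
        rw [Real.abs_sinh]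
        exact Real.self_le_sinh_iff.mpr (abs_nonneg _)
      linarith
    have h4 : (0 : ℝ) < (d * e) ^ 2 := by positivity
    calc 1 / Real.cosh (d * e) ^ 2 ≤ 1 / (d * e) ^ 2 := one_div_le_one_div_of_le h4 h1
      _ = 1 / e ^ 2 * (1 / (d : ℝ) ^ 2) := by
          field_simp

theorem sm : S6_sm := by
  intro e he
  exact ⟨fun u hu => main he hu, (real_sums he).1, (real_sums he).2⟩

end Pool.Agent.TH41.BL.SM5f
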