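import Mathlib
import Pool.Agent.TH41.BL.Stm5

/-!
Project BL5: the square of the sum of hyperbolic secants over a lattice.
-/

set_option autoImplicit false

open MeasureTheory Filter Topology

namespace Pool.Agent.TH41.BL.SQ5f

open Pool.Agent.TH41.BL

/-- the hyperbolic tangent at `u - 2 j e` -/
noncomputable def Th (e : ℝ) (u : ℂ) (j : ℤ) : ℂ :=
  Complex.sinh (u - 2 * j * e) / Complex.cosh (u - 2 * j * e)

theorem sinh_ne {e : ℝ} (he : 0 < e) {d : ℤ} (hd : d ≠ 0) :
    Complex.sinh (2 * d * e) ≠ 0 := by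
  have h1 : (2 * d * e : ℂ) = ((2 * d * e : ℝ) : ℂ) := by push_cast; ring
  rw [h1, ← Complex.ofReal_sinh]
  intro h
  have h2 : Real.sinh (2 * d * e) = 0 := by exact_mod_cast h
  rw [Real.sinh_eq_zero] at h2
  have h3 : (d : ℝ) ≠ 0 := by exact_mod_cast hd
  have h4 : (2 * d * e : ℝ) ≠ 0 := mul_ne_zero (mul_ne_zero two_ne_zero h3) he.ne'
  exact h4 h2

theorem prod_eq {e : ℝ} {u : ℂ} (hu : u ∈ Us e) (j d : ℤ) :
    Complex.sinh (2 * d * e) * (1 / Complex.cosh (u - 2 * j * e) *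
      (1 / Complex.cosh (u - 2 * (j + d : ℤ) * e))) = Th e u j - Th e u (j + d) := by
  have h1 := hu j
  have h2 := hu (j + d)
  have h3 : (2 * d * e : ℂ) = (u - 2 * j * e) - (u - 2 * (j + d : ℤ) * e) := by
    push_cast
    ring
  unfold Th
  rw [h3, Complex.sinh_sub]
  generalize u - 2 * (j : ℂ) * e = v at h1 ⊢
  generalize u - 2 * ((j + d : ℤ) : ℂ) * e = w at h2 ⊢
  field_simp

/-- the square of an absolutely convergent sum over the integers -/
theorem sq_sum {a : ℤ → ℂ} (h : Summable (fun j => ‖a j‖)) :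
    Summable (fun p : ℤ × ℤ => a p.2 * a (p.2 + p.1)) ∧
      (∑' j, a j) ^ 2 = ∑' d : ℤ, ∑' j : ℤ, a j * a (j + d) := by
  have hprod : Summable (fun p : ℤ × ℤ => a p.1 * a p.2) := summable_mul_of_summable_norm h h
  let E : ℤ × ℤ ≃ ℤ × ℤ :=
    { toFun := fun p => (p.2, p.2 + p.1)
      invFun := fun p => (p.2 - p.1, p.1)
      left_inv := fun p => by simp
      right_inv := fun p => by simp }
  have hE : Summable (fun p : ℤ × ℤ => a p.2 * a (p.2 + p.1)) := E.summable_iff.2 hprod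
  refine ⟨hE, ?_⟩
  rw [pow_two, tsum_mul_tsum_of_summable_norm h h, ← E.tsum_eq, ← hE.tsum_prod]
  rfl

theorem Th_top {e : ℝ} (he : 0 < e) {u : ℂ} (hu : u ∈ Us e)
    (hs : Summable (fun j : ℤ => ‖1 / Complex.cosh (u - 2 * j * e)‖)) :
    Tendsto (fun n : ℕ => Th e u (n : ℤ)) atTop (𝓝 (-1)) := by
  have h0 : Tendsto (fun n : ℕ => ‖1 / Complex.cosh (u - 2 * (n : ℤ) * e)‖) atTop (𝓝 0) := by
    have := (hs.comp_injective (Nat.cast_injective (R := ℤ))).tendsto_atTop_zero
    exact this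
  have h1 : ∀ n : ℕ, ‖Th e u (n : ℤ) - (-1)‖ ≤
      Real.exp u.re * ‖1 / Complex.cosh (u - 2 * (n : ℤ) * e)‖ := by
    intro n
    have h2 : Th e u (n : ℤ) - (-1) =
        Complex.exp (u - 2 * (n : ℤ) * e) * (1 / Complex.cosh (u - 2 * (n : ℤ) * e)) := by
      unfold Th
      have := hu n
      rw [← Complex.sinh_add_cosh]
      field_simp
      ring
    rw [h2, norm_mul]
    apply mul_le_mul_of_nonneg_right _ (norm_nonneg _)
    rw [Complex.norm_exp, Real.exp_le_exp]
    have h3 : (u - 2 * (n : ℤ) * e : ℂ).re = u.re - 2 * n * e := by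
      simp
    rw [h3]
    have : 0 ≤ 2 * (n : ℝ) * e := by positivity
    linarith
  rw [tendsto_iff_norm_sub_tendsto_zero]
  have h4 := h0.const_mul (Real.exp u.re)
  rw [mul_zero] at h4
  exact squeeze_zero (fun n => norm_nonneg _) h1 h4

theorem Th_bot {e : ℝ} (he : 0 < e) {u : ℂ} (hu : u ∈ Us e)
    (hs : Summable (fun j : ℤ => ‖1 / Complex.cosh (u - 2 * j * e)‖)) :
    Tendsto (fun n : ℕ => Th e u (-(n : ℤ))) atTop (𝓝 1) := by
  have h0 : Tendsto (fun n : ℕ => ‖1 / Complex.cosh (u - 2 * (-(n : ℤ) : ℤ) * e)‖)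
      atTop (𝓝 0) := by
    have hinj : Function.Injective (fun n : ℕ => (-(n : ℤ))) := by
      intro a b h
      simpa using h
    have := (hs.comp_injective hinj).tendsto_atTop_zero
    exact this
  have h1 : ∀ n : ℕ, ‖Th e u (-(n : ℤ)) - 1‖ ≤
      Real.exp (-u.re) * ‖1 / Complex.cosh (u - 2 * (-(n : ℤ) : ℤ) * e)‖ := by
    intro n
    have h2 : Th e u (-(n : ℤ)) - 1 =
        -Complex.exp (-(u - 2 * (-(n : ℤ) : ℤ) * e)) *
          (1 / Complex.cosh (u - 2 * (-(n : ℤ) : ℤ) * e)) := by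
      unfold Th
      have := hu (-n)
      rw [← Complex.cosh_sub_sinh]
      field_simp
      ring
    rw [h2, norm_mul, norm_neg]
    apply mul_le_mul_of_nonneg_right _ (norm_nonneg _)
    rw [Complex.norm_exp, Real.exp_le_exp]
    have h3 : (-(u - 2 * (-(n : ℤ) : ℤ) * e) : ℂ).re = -u.re - 2 * n * e := by
      simp
      ring
    rw [h3]
    have : 0 ≤ 2 * (n : ℝ) * e := by positivity
    linarith
  rw [tendsto_iff_norm_sub_tendsto_zero]
  have h4 := h0.const_mul (Real.exp (-u.re))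
  rw [mul_zero] at h4
  exact squeeze_zero (fun n => norm_nonneg _) h1 h4

theorem tel_one {e : ℝ} (he : 0 < e) {u : ℂ} (hu : u ∈ Us e)
    (hs : Summable (fun j : ℤ => ‖1 / Complex.cosh (u - 2 * j * e)‖))
    (hf : Summable (fun j : ℤ => Th e u j - Th e u (j + 1))) :
    HasSum (fun j : ℤ => Th e u j - Th e u (j + 1)) 2 := by
  have h1 : HasSum (fun n : ℕ => Th e u (n : ℤ) - Th e u ((n : ℤ) + 1)) (Th e u 0 - (-1)) := by
    have hsn : Summable (fun n : ℕ => Th e u (n : ℤ) - Th e u ((n : ℤ) + 1)) :=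
      hf.comp_injective (Nat.cast_injective (R := ℤ))
    rw [hsn.hasSum_iff_tendsto_nat]
    have h2 : ∀ N : ℕ, ∑ n ∈ Finset.range N, (Th e u (n : ℤ) - Th e u ((n : ℤ) + 1)) =
        Th e u 0 - Th e u (N : ℤ) := by
      intro N
      have := Finset.sum_range_sub' (fun n : ℕ => Th e u (n : ℤ)) N
      simpa using this
    simp only [h2]
    exact tendsto_const_nhds.sub (Th_top he hu hs)
  have h3 : HasSum (fun n : ℕ => Th e u (-((n : ℤ) + 1)) - Th e u (-((n : ℤ) + 1) + 1))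
      (1 - Th e u 0) := by
    have hinj : Function.Injective (fun n : ℕ => (-((n : ℤ) + 1))) := by
      intro a b h
      simpa using h
    have hsn : Summable (fun n : ℕ => Th e u (-((n : ℤ) + 1)) - Th e u (-((n : ℤ) + 1) + 1)) :=
      hf.comp_injective hinj
    rw [hsn.hasSum_iff_tendsto_nat]
    have h2 : ∀ N : ℕ, ∑ n ∈ Finset.range N,
        (Th e u (-((n : ℤ) + 1)) - Th e u (-((n : ℤ) + 1) + 1)) =
        Th e u (-(N : ℤ)) - Th e u 0 := by
      intro N
      have := Finset.sum_range_sub (fun n : ℕ => Th e u (-(n : ℤ))) N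
      simp only [Nat.cast_add, Nat.cast_one, Nat.cast_zero, neg_zero] at this
      rw [← this]
      apply Finset.sum_congr rfl
      intro n _
      congr 2
      ring
    simp only [h2]
    exact (Th_bot he hu hs).sub tendsto_const_nhds
  have h4 := HasSum.of_nat_of_neg_add_one (f := fun j : ℤ => Th e u j - Th e u (j + 1)) h1 h3
  have h5 : Th e u 0 - (-1) + (1 - Th e u 0) = 2 := by ring
  rw [h5] at h4
  exact h4

theorem tel {e : ℝ} {u : ℂ} (h1 : HasSum (fun j : ℤ => Th e u j - Th e u (j + 1)) 2) (d : ℤ) :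
    HasSum (fun j : ℤ => Th e u j - Th e u (j + d)) (2 * d) := by
  have hsh : ∀ k : ℤ, HasSum (fun j : ℤ => Th e u (j + k) - Th e u (j + k + 1)) 2 := by
    intro k
    exact (Equiv.addRight k).hasSum_iff.2 h1
  induction d using Int.induction_on with
  | zero => simp
  | succ i ih =>
    have h2 := ih.add (hsh i)
    have h3 : (fun j : ℤ => Th e u j - Th e u (j + i) + (Th e u (j + i) - Th e u (j + i + 1))) =
        fun j : ℤ => Th e u j - Th e u (j + (i + 1)) := by
      funext j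
      rw [← add_assoc]
      ring
    rw [h3] at h2
    convert h2 using 1
    push_cast
    ring
  | pred i ih =>
    have h2 := ih.sub (hsh (-i - 1))
    have h3 : (fun j : ℤ => Th e u j - Th e u (j + -i) -
        (Th e u (j + (-i - 1)) - Th e u (j + (-i - 1) + 1))) =
        fun j : ℤ => Th e u j - Th e u (j + (-i - 1)) := by
      funext j
      have h4 : j + (-(i : ℤ) - 1) + 1 = j + -i := by ring
      rw [h4]
      ring
    rw [h3] at h2
    have h5 : (2 * ((-(i : ℤ) : ℤ) : ℂ) - 2) = 2 * ((-(i : ℤ) - 1 : ℤ) : ℂ) := by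
      push_cast
      ring
    rw [h5] at h2
    exact h2

theorem sq5 (hs : S6_sm) : S6_sq := by
  intro e he u hu
  obtain ⟨hu', hc, -⟩ := hs e he
  obtain ⟨h1, h2, -⟩ := hu' u hu
  obtain ⟨hE, hF⟩ := sq_sum h1
  have hone : HasSum (fun j : ℤ => Th e u j - Th e u (j + 1)) 2 := by
    apply tel_one he hu h1
    have h3 := (hE.prod_factor 1).mul_left (Complex.sinh (2 * (1 : ℤ) * e))
    refine h3.congr fun j => ?_
    exact prod_eq hu j 1
  have hd : ∀ d : ℤ, d ≠ 0 → ∑' j : ℤ, 1 / Complex.cosh (u - 2 * j * e) *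
      (1 / Complex.cosh (u - 2 * (j + d : ℤ) * e)) = 2 * d / Complex.sinh (2 * d * e) := by
    intro d hd0
    have h3 := (tel hone d).tsum_eq
    have h4 : ∀ j : ℤ, Th e u j - Th e u (j + d) = Complex.sinh (2 * d * e) *
        (1 / Complex.cosh (u - 2 * j * e) * (1 / Complex.cosh (u - 2 * (j + d : ℤ) * e))) :=
      fun j => (prod_eq hu j d).symm
    simp only [h4] at h3
    rw [tsum_mul_left] at h3
    rw [eq_div_iff (sinh_ne he hd0), mul_comm]
    exact h3
  have h0 : ∑' j : ℤ, 1 / Complex.cosh (u - 2 * j * e) *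
      (1 / Complex.cosh (u - 2 * (j + 0 : ℤ) * e)) = Ps e u := by
    unfold Ps
    apply tsum_congr
    intro j
    rw [add_zero, one_div_mul_one_div, pow_two]
  have hcs : Summable (fun d : ℤ => (((if d = 0 then 0 else 2 * (d : ℝ) / Real.sinh (2 * d * e) :
      ℝ)) : ℂ)) := Complex.ofRealCLM.summable hc
  have hc0 : (c0s e : ℂ) = ∑' d : ℤ, (((if d = 0 then 0 else 2 * (d : ℝ) /
      Real.sinh (2 * d * e) : ℝ)) : ℂ) := by
    unfold c0s
    rw [Complex.ofReal_tsum]
  have hF' : Fs e u ^ 2 = ∑' d : ℤ, ∑' j : ℤ, 1 / Complex.cosh (u - 2 * j * e) *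
      (1 / Complex.cosh (u - 2 * (j + d : ℤ) * e)) := hF
  have h5 : ∀ d : ℤ, ∑' j : ℤ, 1 / Complex.cosh (u - 2 * j * e) *
      (1 / Complex.cosh (u - 2 * (j + d : ℤ) * e)) = (if d = 0 then Ps e u else 0) +
        (((if d = 0 then 0 else 2 * (d : ℝ) / Real.sinh (2 * d * e) : ℝ)) : ℂ) := by
    intro d
    by_cases h : d = 0
    · rw [h, h0]
      simp
    · rw [hd d h, if_neg h, if_neg h]
      push_cast
      ring
  rw [hF', hc0, tsum_congr h5]
  have hs1 : Summable (fun d : ℤ => if d = 0 then Ps e u else 0) :=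
    (hasSum_ite_eq (0 : ℤ) (Ps e u)).summable
  rw [hs1.tsum_add hcs, tsum_ite_eq]

end Pool.Agent.TH41.BL.SQ5f
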