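import Mathlib
import Pool.Agent.TH41.BL.Stm5

/-!
Project BL5 (helper41), SY: symmetries and values of the lattice sums
(job 4061, written by helper293).
-/

set_option autoImplicit false

open MeasureTheory Filter Topology

namespace Pool.Agent.TH41.BL.SY5f

open Pool.Agent.TH41.BL

lemma cosh_ne {z : ℂ} (h : z.re ≠ 0 ∨ Real.cos z.im ≠ 0) : Complex.cosh z ≠ 0 := by
  intro h0
  have e1 : Complex.cosh z = ((Real.cosh z.re * Real.cos z.im : ℝ) : ℂ) +
      ((Real.sinh z.re * Real.sin z.im : ℝ) : ℂ) * Complex.I := by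
    conv_lhs => rw [← Complex.re_add_im z]
    rw [Complex.cosh_add, Complex.cosh_mul_I, Complex.sinh_mul_I]
    push_cast
    ring
  rw [e1] at h0
  have h1 := congrArg Complex.re h0
  have h2 := congrArg Complex.im h0
  rw [Complex.add_re, Complex.ofReal_re, Complex.re_ofReal_mul, Complex.I_re, mul_zero, add_zero,
    Complex.zero_re] at h1
  rw [Complex.add_im, Complex.ofReal_im, Complex.im_ofReal_mul, Complex.I_im, mul_one, zero_add,
    Complex.zero_im] at h2
  have hc : Real.cos z.im = 0 := (mul_eq_zero.1 h1).resolve_left (Real.cosh_pos _).ne'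
  have hs : Real.sin z.im ≠ 0 := by
    intro hs
    have := Real.sin_sq_add_cos_sq z.im
    rw [hs, hc] at this
    norm_num at this
  have ha : z.re = 0 := Real.sinh_eq_zero.1 ((mul_eq_zero.1 h2).resolve_right hs)
  rcases h with h | h
  · exact h ha
  · exact h hc

lemma re_arg (e : ℝ) (u : ℂ) (j : ℤ) : (u - 2 * j * e).re = u.re - 2 * j * e := by
  have : (2 * (j : ℂ) * e) = ((2 * j * e : ℝ) : ℂ) := by push_cast; ring
  rw [this, Complex.sub_re, Complex.ofReal_re]

lemma im_arg (e : ℝ) (u : ℂ) (j : ℤ) : (u - 2 * j * e).im = u.im := by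
  have : (2 * (j : ℂ) * e) = ((2 * j * e : ℝ) : ℂ) := by push_cast; ring
  rw [this, Complex.sub_im, Complex.ofReal_im, sub_zero]

lemma mem_strip (e : ℝ) {u : ℂ} (h : |u.im| < Real.pi / 2) : u ∈ Us e := by
  intro j
  apply cosh_ne
  right
  rw [im_arg]
  have := abs_lt.1 h
  exact (Real.cos_pos_of_mem_Ioo ⟨this.1, this.2⟩).ne'

lemma mem_line {e x : ℝ} (hx : 0 < x) (hx' : x < 2 * e) (y : ℝ) :
    (x + y * Complex.I : ℂ) ∈ Us e := by
  intro j
  apply cosh_ne
  left
  rw [re_arg]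
  have e1 : (x + y * Complex.I : ℂ).re = x := by simp
  rw [e1]
  intro h
  have he : 0 < e := by linarith
  have h1 : 0 < (j : ℝ) := by
    by_contra hj
    have : (j : ℝ) * e ≤ 0 := mul_nonpos_of_nonpos_of_nonneg (not_lt.1 hj) he.le
    linarith
  have h2 : (j : ℝ) < 1 := by
    by_contra hj
    have : 1 * e ≤ (j : ℝ) * e := mul_le_mul_of_nonneg_right (not_lt.1 hj) he.le
    linarith
  have h3 : (0 : ℤ) < j := by exact_mod_cast h1
  have h4 : j < (1 : ℤ) := by exact_mod_cast h2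
  omega

/-- an odd series -/
lemma tsum_odd (σ : ℤ ≃ ℤ) (f : ℤ → ℂ) (h : ∀ j, f (σ j) = -f j) : ∑' j, f j = 0 := by
  have h1 := σ.tsum_eq f
  simp only [h] at h1
  rw [tsum_neg] at h1
  have h2 : (2 : ℂ) * ∑' j, f j = 0 := by linear_combination -h1
  exact (mul_eq_zero.1 h2).resolve_left two_ne_zero

lemma arg0 (e : ℝ) (j : ℤ) : ((0 : ℂ) - 2 * j * e) = ((-(2 * j * e) : ℝ) : ℂ) := by
  push_cast; ring

lemma arg1 (e : ℝ) (j : ℤ) : ((e : ℂ) - 2 * ((j + 1 : ℤ) : ℂ) * e) =
    ((-((2 * j + 1) * e) : ℝ) : ℂ) := by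
  push_cast; ring

lemma val0 (e : ℝ) (n : ℕ) : ∑' j : ℤ, 1 / Complex.cosh ((0 : ℂ) - 2 * j * e) ^ n =
    ((∑' j : ℤ, 1 / Real.cosh (2 * j * e) ^ n : ℝ) : ℂ) := by
  rw [Complex.ofReal_tsum]
  apply tsum_congr
  intro j
  rw [arg0, ← Complex.ofReal_cosh, Real.cosh_neg]
  push_cast
  rfl

lemma val1 (e : ℝ) (n : ℕ) : ∑' j : ℤ, 1 / Complex.cosh ((e : ℂ) - 2 * j * e) ^ n =
    ((∑' j : ℤ, 1 / Real.cosh ((2 * j + 1) * e) ^ n : ℝ) : ℂ) := by
  rw [Complex.ofReal_tsum, ← (Equiv.addRight (1 : ℤ)).tsum_eq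
    (fun j : ℤ => 1 / Complex.cosh ((e : ℂ) - 2 * j * e) ^ n)]
  apply tsum_congr
  intro j
  rw [Equiv.coe_addRight, arg1, ← Complex.ofReal_cosh, Real.cosh_neg]
  push_cast
  rfl

theorem sy (hs : S6_sm) : S6_sy := by
  intro e he
  obtain ⟨hsu, -, -⟩ := hs e he
  have hπ := Real.pi_pos
  refine ⟨?_, ?_, ?_, ?_, ?_, ?_, ?_, fun u hu => mem_strip e hu, fun x y hx hx' =>
    mem_line hx hx' y, ?_, ?_, ?_, ?_⟩
  · -- period
    intro u
    unfold Fs
    rw [← (Equiv.subRight (1 : ℤ)).tsum_eq (fun j : ℤ => 1 / Complex.cosh (u - 2 * j * e))]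
    apply tsum_congr
    intro j
    rw [Equiv.subRight_apply]
    have : u + 2 * (e : ℂ) - 2 * j * e = u - 2 * ((j - 1 : ℤ) : ℂ) * e := by push_cast; ring
    rw [this]
  · -- even
    intro u
    unfold Fs
    rw [← (Equiv.neg ℤ).tsum_eq (fun j : ℤ => 1 / Complex.cosh (u - 2 * j * e))]
    apply tsum_congr
    intro j
    rw [Equiv.neg_apply]
    have : -u - 2 * (j : ℂ) * e = -(u - 2 * ((-j : ℤ) : ℂ) * e) := by push_cast; ring
    rw [this, Complex.cosh_neg]
  · -- conjugation
    intro u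
    unfold Fs
    rw [Complex.conj_tsum]
    apply tsum_congr
    intro j
    rw [map_div₀, map_one, ← Complex.cosh_conj]
    have : (starRingEnd ℂ) (u - 2 * j * e) = (starRingEnd ℂ) u - 2 * j * e := by
      rw [map_sub, map_mul, map_mul, Complex.conj_ofReal, map_ofNat, map_intCast]
    rw [this]
  · have := val0 e 1
    simp only [pow_one] at this
    exact this
  · have := val1 e 1
    simp only [pow_one] at this
    exact this
  · unfold Gs
    rw [neg_eq_zero]
    apply tsum_odd (Equiv.neg ℤ)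
    intro j
    rw [Equiv.neg_apply]
    have : (0 : ℂ) - 2 * ((-j : ℤ) : ℂ) * e = -(0 - 2 * (j : ℂ) * e) := by push_cast; ring
    rw [this, Complex.cosh_neg, Complex.sinh_neg, neg_div]
  · unfold Gs
    rw [neg_eq_zero]
    apply tsum_odd (Equiv.subLeft (1 : ℤ))
    intro j
    rw [Equiv.subLeft_apply]
    have : (e : ℂ) - 2 * ((1 - j : ℤ) : ℂ) * e = -(e - 2 * (j : ℂ) * e) := by push_cast; ring
    rw [this, Complex.cosh_neg, Complex.sinh_neg, neg_div]
  · exact val0 e 2
  · exact val1 e 2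
  · have h1 := (hsu 0 (mem_strip e (by simpa using by positivity))).1
    have h2 : Summable (fun j : ℤ => 1 / Real.cosh (2 * j * e)) := by
      refine h1.congr fun j => ?_
      rw [arg0, ← Complex.ofReal_cosh, Real.cosh_neg, ← Complex.ofReal_one, ← Complex.ofReal_div,
        Complex.norm_real, Real.norm_eq_abs, abs_of_pos (by have := Real.cosh_pos (2 * j * e); positivity)]
    exact h2.tsum_pos (fun j => by have := Real.cosh_pos (2 * j * e); positivity) 0
      (by have := Real.cosh_pos (2 * (0 : ℤ) * e); positivity)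
  · have h1 := (hsu e (mem_strip e (by simpa using by positivity))).1
    have h2 : Summable (fun j : ℤ => 1 / Real.cosh ((2 * j + 1) * e)) := by
      rw [← (Equiv.addRight (1 : ℤ)).summable_iff] at h1
      refine h1.congr fun j => ?_
      rw [Function.comp_apply, Equiv.coe_addRight, arg1, ← Complex.ofReal_cosh, Real.cosh_neg,
        ← Complex.ofReal_one, ← Complex.ofReal_div,
        Complex.norm_real, Real.norm_eq_abs, abs_of_pos (by have := Real.cosh_pos ((2 * j + 1) * e); positivity)]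
    exact h2.tsum_pos (fun j => by have := Real.cosh_pos ((2 * j + 1) * e); positivity) 0
      (by have := Real.cosh_pos ((2 * (0 : ℤ) + 1) * e); positivity)

end Pool.Agent.TH41.BL.SY5f
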