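import Mathlib
import Pool.Agent.TH41.BL.Stm5

/-!
Project BL5 (helper41, MP_0430e4_lc), part ZD: the derivative of the difference of the sums.
-/

set_option autoImplicit false

open MeasureTheory Filter Topology

namespace Pool.Agent.TH41.BL.ZD5f

open Pool.Agent.TH41.BL

theorem exp_neg_two (y : ℝ) : Real.exp (-(2 * y)) = (Real.exp y ^ 2)⁻¹ := by
  rw [Real.exp_neg, two_mul, Real.exp_add, ← pow_two]

theorem alg0 {E : ℝ} (hE : 0 < E) : 1 - -(E ^ 2)⁻¹ = (E ^ 2 + 1) / E ^ 2 := by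
  field_simp
  ring

theorem alg1 {E : ℝ} (hE : 0 < E) : (E + E⁻¹) / 2 = (E ^ 2 + 1) / (2 * E) := by
  field_simp

theorem alg2 {E : ℝ} (hE : 0 < E) : (E - E⁻¹) / 2 = (E ^ 2 - 1) / (2 * E) := by
  field_simp

theorem alg3 {E : ℝ} (hE : 0 < E) :
    4 * (E ^ 2)⁻¹ * (1 / (1 - -(E ^ 2)⁻¹) ^ 2) = 1 / ((E + E⁻¹) / 2) ^ 2 := by
  have h1 : E ^ 2 + 1 ≠ 0 := by positivity
  have h2 : E ≠ 0 := hE.ne'
  rw [alg0 hE, alg1 hE, div_pow, div_pow, one_div_div, one_div_div]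
  field_simp
  ring

theorem alg4 {E : ℝ} (hE : 0 < E) :
    4 * (E ^ 2)⁻¹ * (2 * (1 / (1 - -(E ^ 2)⁻¹) ^ 3) - 1 / (1 - -(E ^ 2)⁻¹) ^ 2) =
      (E - E⁻¹) / 2 / ((E + E⁻¹) / 2) ^ 3 := by
  have h1 : E ^ 2 + 1 ≠ 0 := by positivity
  have h2 : E ≠ 0 := hE.ne'
  rw [alg0 hE, alg1 hE, alg2 hE, div_pow, div_pow, div_pow, one_div_div, one_div_div]
  field_simp
  ring

theorem inv_cosh_sq_le (y : ℝ) : 1 / Real.cosh y ^ 2 ≤ 4 * Real.exp (-(2 * y)) := by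
  have h1 : Real.exp y / 2 ≤ Real.cosh y := by
    rw [Real.cosh_eq]
    have := Real.exp_pos (-y)
    linarith
  have h2 : 0 < Real.exp y := Real.exp_pos y
  have h3 : (Real.exp y / 2) ^ 2 ≤ Real.cosh y ^ 2 := pow_le_pow_left₀ (by positivity) h1 2
  have h4 : 1 / Real.cosh y ^ 2 ≤ 1 / (Real.exp y / 2) ^ 2 :=
    one_div_le_one_div_of_le (by positivity) h3
  refine h4.trans (le_of_eq ?_)
  rw [exp_neg_two]
  field_simp
  norm_num

theorem pow_exp (y : ℝ) (m : ℕ) :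
    Real.exp (-(2 * y)) ^ (m + 1) = Real.exp (-(2 * ((m : ℝ) + 1) * y)) := by
  rw [← Real.exp_nat_mul]
  congr 1
  push_cast
  ring

theorem t_lt {y : ℝ} (hy : 0 < y) : ‖-Real.exp (-(2 * y))‖ < 1 := by
  rw [norm_neg, Real.norm_eq_abs, Real.abs_exp, Real.exp_lt_one_iff]
  linarith

theorem hasSum1 {y : ℝ} (hy : 0 < y) :
    HasSum (fun m : ℕ => 4 * ((-1 : ℝ) ^ m * ((m : ℝ) + 1) * Real.exp (-(2 * ((m : ℝ) + 1) * y))))
      (1 / Real.cosh y ^ 2) := by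
  have h1 := (hasSum_choose_mul_geometric_of_norm_lt_one 1 (t_lt hy)).mul_left
    (4 * Real.exp (-(2 * y)))
  have h2 : 4 * Real.exp (-(2 * y)) * (1 / (1 - -Real.exp (-(2 * y))) ^ 2) =
      1 / Real.cosh y ^ 2 := by
    have h3 : 0 < Real.exp y := Real.exp_pos y
    rw [Real.cosh_eq, exp_neg_two, Real.exp_neg]
    exact alg3 h3
  rw [h2] at h1
  refine h1.congr_fun ?_
  intro m
  rw [← pow_exp, Nat.choose_one_right, neg_pow, pow_succ]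
  push_cast
  ring

theorem hasSum2 {y : ℝ} (hy : 0 < y) :
    HasSum (fun m : ℕ => 4 * ((-1 : ℝ) ^ m * ((m : ℝ) + 1) ^ 2 *
      Real.exp (-(2 * ((m : ℝ) + 1) * y))))
      (Real.sinh y / Real.cosh y ^ 3) := by
  have h1 := (((hasSum_choose_mul_geometric_of_norm_lt_one 2 (t_lt hy)).mul_left 2).sub
    (hasSum_choose_mul_geometric_of_norm_lt_one 1 (t_lt hy))).mul_left
    (4 * Real.exp (-(2 * y)))
  have h2 : 4 * Real.exp (-(2 * y)) * (2 * (1 / (1 - -Real.exp (-(2 * y))) ^ 3) -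
      1 / (1 - -Real.exp (-(2 * y))) ^ 2) = Real.sinh y / Real.cosh y ^ 3 := by
    have h3 : 0 < Real.exp y := Real.exp_pos y
    rw [Real.cosh_eq, Real.sinh_eq, exp_neg_two, Real.exp_neg]
    exact alg4 h3
  rw [h2] at h1
  refine h1.congr_fun ?_
  intro m
  rw [← pow_exp, Nat.choose_one_right, Nat.cast_choose_two, neg_pow, pow_succ]
  push_cast
  ring

/-! the double series -/

/-- the terms -/
noncomputable def aa (e : ℝ) (n m : ℕ) : ℝ :=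
  4 * ((-1 : ℝ) ^ (n + m) * ((n : ℝ) + 1) ^ 2 * ((m : ℝ) + 1) *
    Real.exp (-(2 * ((m : ℝ) + 1) * (((n : ℝ) + 1) * e))))

theorem aa_row {e : ℝ} (he : 0 < e) (n : ℕ) :
    HasSum (fun m => aa e n m) ((-1) ^ n * ((n : ℝ) + 1) ^ 2 / Real.cosh (((n : ℝ) + 1) * e) ^ 2) := by
  have h1 := (hasSum1 (y := ((n : ℝ) + 1) * e) (by positivity)).mul_left
    ((-1 : ℝ) ^ n * ((n : ℝ) + 1) ^ 2)
  rw [mul_one_div] at h1
  refine h1.congr_fun ?_
  intro m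
  rw [aa, pow_add]
  ring

theorem aa_col {e : ℝ} (he : 0 < e) (m : ℕ) :
    HasSum (fun n => aa e n m) ((-1) ^ m * ((m : ℝ) + 1) *
      (Real.sinh (((m : ℝ) + 1) * e) / Real.cosh (((m : ℝ) + 1) * e) ^ 3)) := by
  have h1 := (hasSum2 (y := ((m : ℝ) + 1) * e) (by positivity)).mul_left
    ((-1 : ℝ) ^ m * ((m : ℝ) + 1))
  refine h1.congr_fun ?_
  intro n
  have h2 : 2 * ((m : ℝ) + 1) * (((n : ℝ) + 1) * e) = 2 * ((n : ℝ) + 1) * (((m : ℝ) + 1) * e) := by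
    ring
  rw [aa, pow_add, h2]
  ring

theorem summ_pow {c : ℝ} (hc : 0 < c) (k : ℕ) :
    Summable (fun n : ℕ => ((n : ℝ) + 1) ^ k * Real.exp (-(c * ((n : ℝ) + 1)))) := by
  have h1 := (summable_nat_add_iff 1).2 (Real.summable_pow_mul_exp_neg_nat_mul k hc)
  refine h1.congr ?_
  intro n
  push_cast
  rw [neg_mul]

theorem aa_summable {e : ℝ} (he : 0 < e) : Summable (Function.uncurry (aa e)) := by
  have h1 := (summ_pow he 2).mul_of_nonneg (summ_pow he 1) (fun n => by positivity)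
    (fun n => by positivity)
  refine Summable.of_norm_bounded (h1.mul_left 4) ?_
  rintro ⟨n, m⟩
  show ‖aa e n m‖ ≤ 4 * (((n : ℝ) + 1) ^ 2 * Real.exp (-(e * ((n : ℝ) + 1))) *
    (((m : ℝ) + 1) ^ 1 * Real.exp (-(e * ((m : ℝ) + 1)))))
  have h2 : Real.exp (-(2 * ((m : ℝ) + 1) * (((n : ℝ) + 1) * e))) ≤
      Real.exp (-(e * ((n : ℝ) + 1))) * Real.exp (-(e * ((m : ℝ) + 1))) := by
    rw [← Real.exp_add, Real.exp_le_exp]
    have h3 : ((n : ℝ) + 1) ≤ ((m : ℝ) + 1) * ((n : ℝ) + 1) := by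
      have : (0 : ℝ) ≤ (m : ℝ) * ((n : ℝ) + 1) := by positivity
      linarith
    have h4 : ((m : ℝ) + 1) ≤ ((m : ℝ) + 1) * ((n : ℝ) + 1) := by
      have : (0 : ℝ) ≤ ((m : ℝ) + 1) * (n : ℝ) := by positivity
      linarith
    have h5 : e * (((n : ℝ) + 1) + ((m : ℝ) + 1)) ≤ e * (2 * (((m : ℝ) + 1) * ((n : ℝ) + 1))) :=
      mul_le_mul_of_nonneg_left (by linarith) he.le
    linarith
  rw [aa, norm_mul, norm_mul, norm_mul, norm_mul, norm_pow, norm_neg, norm_one, one_pow, one_mul,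
    Real.norm_of_nonneg (by norm_num : (0 : ℝ) ≤ 4),
    Real.norm_of_nonneg (by positivity : (0 : ℝ) ≤ ((n : ℝ) + 1) ^ 2),
    Real.norm_of_nonneg (by positivity : (0 : ℝ) ≤ (m : ℝ) + 1),
    Real.norm_of_nonneg (Real.exp_pos _).le]
  have h6 : ((n : ℝ) + 1) ^ 2 * ((m : ℝ) + 1) *
      Real.exp (-(2 * ((m : ℝ) + 1) * (((n : ℝ) + 1) * e))) ≤
      ((n : ℝ) + 1) ^ 2 * ((m : ℝ) + 1) *
      (Real.exp (-(e * ((n : ℝ) + 1))) * Real.exp (-(e * ((m : ℝ) + 1)))) :=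
    mul_le_mul_of_nonneg_left h2 (by positivity)
  calc 4 * (((n : ℝ) + 1) ^ 2 * ((m : ℝ) + 1) *
      Real.exp (-(2 * ((m : ℝ) + 1) * (((n : ℝ) + 1) * e)))) ≤ 4 * (((n : ℝ) + 1) ^ 2 *
      ((m : ℝ) + 1) * (Real.exp (-(e * ((n : ℝ) + 1))) * Real.exp (-(e * ((m : ℝ) + 1))))) := by
        linarith
    _ = _ := by ring

theorem Zs_eq {e : ℝ} (he : 0 < e) :
    Zs e = ∑' n : ℕ, (-1) ^ n * ((n : ℝ) + 1) *
      (Real.sinh (((n : ℝ) + 1) * e) / Real.cosh (((n : ℝ) + 1) * e) ^ 3) := by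
  have h1 := (aa_summable he).tsum_comm
  rw [Zs]
  calc ∑' n : ℕ, (-1) ^ n * ((n : ℝ) + 1) ^ 2 / Real.cosh (((n : ℝ) + 1) * e) ^ 2
      = ∑' n : ℕ, ∑' m : ℕ, aa e n m := tsum_congr fun n => ((aa_row he n).tsum_eq).symm
    _ = ∑' m : ℕ, ∑' n : ℕ, aa e n m := h1.symm
    _ = _ := tsum_congr fun m => (aa_col he m).tsum_eq

/-! the single series -/

/-- the terms -/
noncomputable def ff (n : ℕ) (x : ℝ) : ℝ := 1 / Real.cosh (((n : ℝ) + 1) * x) ^ 2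

theorem ff_summable {x : ℝ} (hx : 0 < x) : Summable (fun n => ff n x) := by
  have h1 := (summ_pow (c := 2 * x) (by positivity) 0).mul_left 4
  refine Summable.of_nonneg_of_le (fun n => by unfold ff; positivity) (fun n => ?_) h1
  refine (inv_cosh_sq_le _).trans (le_of_eq ?_)
  rw [pow_zero, one_mul]
  congr 2
  ring

theorem diff_eq {x : ℝ} (hx : 0 < x) :
    A2s x - B2s x = 1 - 2 * ∑' n : ℕ, (-1) ^ n * ff n x := by
  have hs := ff_summable hx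
  have he : Summable (fun n : ℕ => ff (2 * n) x) :=
    hs.comp_injective (i := fun n : ℕ => 2 * n) (fun a b h => by
      have : 2 * a = 2 * b := h
      omega)
  have ho : Summable (fun n : ℕ => ff (2 * n + 1) x) :=
    hs.comp_injective (i := fun n : ℕ => 2 * n + 1) (fun a b h => by
      have : 2 * a + 1 = 2 * b + 1 := h
      omega)
  -- the even part
  have a1 : ∀ n : ℕ, 1 / Real.cosh (2 * (((-((n : ℤ) + 1) : ℤ)) : ℝ) * x) ^ 2 = ff (2 * n + 1) x := by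
    intro n
    rw [ff]
    have : 2 * (((-((n : ℤ) + 1) : ℤ)) : ℝ) * x = -((((2 * n + 1 : ℕ) : ℝ) + 1) * x) := by
      push_cast
      ring
    rw [this, Real.cosh_neg]
  have a2 : ∀ n : ℕ, 1 / Real.cosh (2 * ((((n + 1 : ℕ) : ℤ)) : ℝ) * x) ^ 2 = ff (2 * n + 1) x := by
    intro n
    rw [ff]
    have : 2 * ((((n + 1 : ℕ) : ℤ)) : ℝ) * x = (((2 * n + 1 : ℕ) : ℝ) + 1) * x := by
      push_cast
      ring
    rw [this]
  have a3 : Summable (fun n : ℕ => 1 / Real.cosh (2 * (((n : ℕ) : ℤ) : ℝ) * x) ^ 2) := by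
    refine (summable_nat_add_iff 1).1 (ho.congr ?_)
    intro n
    exact (a2 n).symm
  have hA : A2s x = 1 + 2 * ∑' n : ℕ, ff (2 * n + 1) x := by
    have h1 := tsum_of_nat_of_neg_add_one (f := fun j : ℤ => 1 / Real.cosh (2 * (j : ℝ) * x) ^ 2) a3
      (ho.congr fun n => (a1 n).symm)
    have h2 := a3.tsum_eq_zero_add
    have h3 : ∑' n : ℕ, 1 / Real.cosh (2 * ((((n + 1 : ℕ) : ℤ)) : ℝ) * x) ^ 2 =
        ∑' n : ℕ, ff (2 * n + 1) x := tsum_congr a2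
    have h4 : ∑' n : ℕ, 1 / Real.cosh (2 * (((-((n : ℤ) + 1) : ℤ)) : ℝ) * x) ^ 2 =
        ∑' n : ℕ, ff (2 * n + 1) x := tsum_congr a1
    have h5 : 1 / Real.cosh (2 * ((((0 : ℕ) : ℤ)) : ℝ) * x) ^ 2 = 1 := by
      simp
    rw [h3, h5] at h2
    rw [A2s, h1, h2, h4]
    ring
  -- the odd part
  have b1 : ∀ n : ℕ, 1 / Real.cosh ((2 * ((n : ℤ) : ℝ) + 1) * x) ^ 2 = ff (2 * n) x := by
    intro n
    rw [ff]
    have : (2 * ((n : ℤ) : ℝ) + 1) * x = (((2 * n : ℕ) : ℝ) + 1) * x := by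
      push_cast
      ring
    rw [this]
  have b2 : ∀ n : ℕ, 1 / Real.cosh ((2 * (((-((n : ℤ) + 1) : ℤ)) : ℝ) + 1) * x) ^ 2 =
      ff (2 * n) x := by
    intro n
    rw [ff]
    have : (2 * (((-((n : ℤ) + 1) : ℤ)) : ℝ) + 1) * x = -((((2 * n : ℕ) : ℝ) + 1) * x) := by
      push_cast
      ring
    rw [this, Real.cosh_neg]
  have hB : B2s x = 2 * ∑' n : ℕ, ff (2 * n) x := by
    have h1 := tsum_of_nat_of_neg_add_one
      (f := fun j : ℤ => 1 / Real.cosh ((2 * (j : ℝ) + 1) * x) ^ 2)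
      (he.congr fun n => (b1 n).symm) (he.congr fun n => (b2 n).symm)
    have h3 : ∑' n : ℕ, 1 / Real.cosh ((2 * ((n : ℤ) : ℝ) + 1) * x) ^ 2 =
        ∑' n : ℕ, ff (2 * n) x := tsum_congr b1
    have h4 : ∑' n : ℕ, 1 / Real.cosh ((2 * (((-((n : ℤ) + 1) : ℤ)) : ℝ) + 1) * x) ^ 2 =
        ∑' n : ℕ, ff (2 * n) x := tsum_congr b2
    rw [B2s, h1, h3, h4]
    ring
  have c1 : ∀ n : ℕ, (-1 : ℝ) ^ (2 * n) * ff (2 * n) x = ff (2 * n) x := by
    intro n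
    rw [pow_mul]
    norm_num
  have c2 : ∀ n : ℕ, (-1 : ℝ) ^ (2 * n + 1) * ff (2 * n + 1) x = -ff (2 * n + 1) x := by
    intro n
    rw [pow_succ, pow_mul]
    norm_num
  have hC := tsum_even_add_odd (f := fun n : ℕ => (-1 : ℝ) ^ n * ff n x)
    (he.congr fun n => (c1 n).symm) (ho.neg.congr fun n => (c2 n).symm)
  have c3 : ∑' n : ℕ, (-1 : ℝ) ^ (2 * n) * ff (2 * n) x = ∑' n : ℕ, ff (2 * n) x := tsum_congr c1
  have c4 : ∑' n : ℕ, (-1 : ℝ) ^ (2 * n + 1) * ff (2 * n + 1) x = -∑' n : ℕ, ff (2 * n + 1) x := by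
    rw [← tsum_neg]
    exact tsum_congr c2
  rw [c3, c4] at hC
  rw [hA, hB, ← hC]
  ring

theorem ff_deriv (n : ℕ) (x : ℝ) : HasDerivAt (ff n)
    (-(2 * ((n : ℝ) + 1) * (Real.sinh (((n : ℝ) + 1) * x) / Real.cosh (((n : ℝ) + 1) * x) ^ 3))) x := by
  have h1 : HasDerivAt (fun y : ℝ => ((n : ℝ) + 1) * y) ((n : ℝ) + 1) x := by
    simpa using (hasDerivAt_id x).const_mul ((n : ℝ) + 1)
  have h2 := h1.cosh
  have h3 : HasDerivAt (fun y : ℝ => Real.cosh (((n : ℝ) + 1) * y) ^ 2)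
      (2 * Real.cosh (((n : ℝ) + 1) * x) * (Real.sinh (((n : ℝ) + 1) * x) * ((n : ℝ) + 1))) x := by
    have := h2.fun_pow 2
    simpa using this
  have h4 : Real.cosh (((n : ℝ) + 1) * x) ≠ 0 := (Real.cosh_pos _).ne'
  have h5 : HasDerivAt (fun y : ℝ => (Real.cosh (((n : ℝ) + 1) * y) ^ 2)⁻¹)
      (-(2 * Real.cosh (((n : ℝ) + 1) * x) * (Real.sinh (((n : ℝ) + 1) * x) * ((n : ℝ) + 1))) /
        (Real.cosh (((n : ℝ) + 1) * x) ^ 2) ^ 2) x := h3.fun_inv (pow_ne_zero 2 h4)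
  have h6 : ff n = fun y : ℝ => (Real.cosh (((n : ℝ) + 1) * y) ^ 2)⁻¹ := by
    funext y
    rw [ff, one_div]
  rw [h6]
  refine h5.congr_deriv ?_
  field_simp

theorem ff_deriv_le {n : ℕ} {x e : ℝ} (he : e / 2 < x) :
    ‖(-1 : ℝ) ^ n * (-(2 * ((n : ℝ) + 1) *
      (Real.sinh (((n : ℝ) + 1) * x) / Real.cosh (((n : ℝ) + 1) * x) ^ 3)))‖ ≤
      8 * (((n : ℝ) + 1) ^ 1 * Real.exp (-(e * ((n : ℝ) + 1)))) := by
  have hc := Real.cosh_pos (((n : ℝ) + 1) * x)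
  have h1 : |Real.sinh (((n : ℝ) + 1) * x)| ≤ Real.cosh (((n : ℝ) + 1) * x) := by
    rw [abs_le]
    constructor
    · have h2 := Real.cosh_add_sinh (((n : ℝ) + 1) * x)
      have h3 := Real.exp_pos (((n : ℝ) + 1) * x)
      linarith
    · exact (Real.sinh_lt_cosh _).le
  have h2 : |Real.sinh (((n : ℝ) + 1) * x) / Real.cosh (((n : ℝ) + 1) * x) ^ 3| ≤
      1 / Real.cosh (((n : ℝ) + 1) * x) ^ 2 := by
    rw [abs_div, abs_of_pos (by positivity : 0 < Real.cosh (((n : ℝ) + 1) * x) ^ 3),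
      div_le_div_iff₀ (by positivity) (by positivity)]
    calc |Real.sinh (((n : ℝ) + 1) * x)| * Real.cosh (((n : ℝ) + 1) * x) ^ 2 ≤
        Real.cosh (((n : ℝ) + 1) * x) * Real.cosh (((n : ℝ) + 1) * x) ^ 2 :=
          mul_le_mul_of_nonneg_right h1 (by positivity)
      _ = 1 * Real.cosh (((n : ℝ) + 1) * x) ^ 3 := by ring
  have h3 := h2.trans (inv_cosh_sq_le _)
  have h4 : Real.exp (-(2 * (((n : ℝ) + 1) * x))) ≤ Real.exp (-(e * ((n : ℝ) + 1))) := by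
    rw [Real.exp_le_exp]
    have h5 : e * ((n : ℝ) + 1) ≤ 2 * x * ((n : ℝ) + 1) :=
      mul_le_mul_of_nonneg_right (by linarith) (by positivity)
    linarith
  rw [norm_mul, norm_pow, norm_neg, norm_one, one_pow, one_mul, norm_neg, norm_mul,
    Real.norm_of_nonneg (by positivity : (0 : ℝ) ≤ 2 * ((n : ℝ) + 1)), Real.norm_eq_abs]
  calc 2 * ((n : ℝ) + 1) * |Real.sinh (((n : ℝ) + 1) * x) / Real.cosh (((n : ℝ) + 1) * x) ^ 3|
      ≤ 2 * ((n : ℝ) + 1) * (4 * Real.exp (-(e * ((n : ℝ) + 1)))) :=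
        mul_le_mul_of_nonneg_left (h3.trans (by linarith)) (by positivity)
    _ = _ := by ring

theorem zd : S6_zd := by
  intro e he
  have hd : HasDerivAt (fun z : ℝ => ∑' n : ℕ, (-1 : ℝ) ^ n * ff n z)
      (∑' n : ℕ, (-1 : ℝ) ^ n * (-(2 * ((n : ℝ) + 1) *
        (Real.sinh (((n : ℝ) + 1) * e) / Real.cosh (((n : ℝ) + 1) * e) ^ 3)))) e := by
    refine hasDerivAt_tsum_of_isPreconnected (u := fun n : ℕ =>
      8 * (((n : ℝ) + 1) ^ 1 * Real.exp (-(e * ((n : ℝ) + 1)))))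
      (g := fun (n : ℕ) (z : ℝ) => (-1 : ℝ) ^ n * ff n z)
      (g' := fun (n : ℕ) (z : ℝ) => (-1 : ℝ) ^ n * (-(2 * ((n : ℝ) + 1) *
        (Real.sinh (((n : ℝ) + 1) * z) / Real.cosh (((n : ℝ) + 1) * z) ^ 3))))
      (t := Set.Ioi (e / 2))
      (y₀ := e) ((summ_pow he 1).mul_left 8) isOpen_Ioi isPreconnected_Ioi ?_ ?_ ?_ ?_ ?_
    · intro n y _
      exact (ff_deriv n y).const_mul _
    · intro n y hy
      exact ff_deriv_le hy
    · exact Set.mem_Ioi.2 (by linarith)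
    · refine Summable.of_norm_bounded (ff_summable he) ?_
      intro n
      rw [norm_mul, norm_pow, norm_neg, norm_one, one_pow, one_mul, Real.norm_of_nonneg]
      unfold ff
      positivity
    · exact Set.mem_Ioi.2 (by linarith)
  have h1 : HasDerivAt (fun z : ℝ => 1 - 2 * ∑' n : ℕ, (-1 : ℝ) ^ n * ff n z)
      (-(2 * ∑' n : ℕ, (-1 : ℝ) ^ n * (-(2 * ((n : ℝ) + 1) *
        (Real.sinh (((n : ℝ) + 1) * e) / Real.cosh (((n : ℝ) + 1) * e) ^ 3))))) e :=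
    (hd.const_mul 2).const_sub 1
  have h2 : -(2 * ∑' n : ℕ, (-1 : ℝ) ^ n * (-(2 * ((n : ℝ) + 1) *
        (Real.sinh (((n : ℝ) + 1) * e) / Real.cosh (((n : ℝ) + 1) * e) ^ 3)))) = 4 * Zs e := by
    rw [Zs_eq he, ← tsum_mul_left, ← tsum_mul_left, ← tsum_neg]
    refine tsum_congr fun n => ?_
    ring
  rw [h2] at h1
  refine h1.congr_of_eventuallyEq ?_
  filter_upwards [lt_mem_nhds he] with x hx
  exact diff_eq hx

end Pool.Agent.TH41.BL.ZD5f
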