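import Mathlib
import Pool.Agent.TH41.BL.ASMF
import Pool.Agent.TH41.BL.Stm5
import Pool.Agent.TH41.BL.SM5
import Pool.Agent.TH41.BL.SQ5
import Pool.Agent.TH41.BL.CU5
import Pool.Agent.TH41.BL.SY5
import Pool.Agent.TH41.BL.FO5
import Pool.Agent.TH41.BL.CL5
import Pool.Agent.TH41.BL.IM5
import Pool.Agent.TH41.BL.CZ5
import Pool.Agent.TH41.BL.BV5
import Pool.Agent.TH41.BL.KE5
import Pool.Agent.TH41.BL.SD5
import Pool.Agent.TH41.BL.ZD5
import Pool.Agent.TH41.BL.FI5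
import Pool.Agent.TH41.BL.LIM

set_option autoImplicit false

namespace Pool.Agent.TH41.BL

theorem k6_sm : S6_sm := SM5f.sm
theorem k6_sq : S6_sq := SQ5f.sq5 k6_sm
theorem k6_cu : S6_cu := CU5f.cu k6_sm
theorem k6_sy : S6_sy := SY5f.sy k6_sm
theorem k6_fo : S6_fo := FO5f.fo k6_sm k6_sq k6_cu k6_sy
theorem k6_cl : S6_cl := CL5f.cl k6_sm k6_sy
theorem k6_im : S6_im := IM5f.im k6_sm k6_sy
theorem k6_cz : S6_cz := CZ5f.cz k6_sm k6_sq k6_sy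
theorem k6_bv : S6_bv := BV5f.bv k6_sm k6_sy
theorem k6_ke : S6_ke := KE5f.ke k6_sq k6_sy k6_fo k6_cl k6_im k6_cz k6_bv
theorem k6_sd : S6_sd := SD5f.sd
theorem k6_zd : S6_zd := ZD5f.zd

end Pool.Agent.TH41.BL
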