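import Mathlib
import Pool.Agent.TH41.BL.Stm6
import Pool.Agent.TH41.BL.KRA

/-!
Project BL6, piece CH: Krawtchouk polynomials as sums of characters (helper952).
-/

set_option autoImplicit false

open MeasureTheory Filter Topology

namespace Pool.Agent.TH41.BL.CH7f

open Pool.Agent.TH41.BL

lemma sign_prod {ι : Type} [DecidableEq ι] (s z : Finset ι) :
    ∏ x ∈ s, (if x ∈ z then (-1 : ℤ) else 1) = (-1 : ℤ) ^ (s ∩ z).card := by
  rw [Finset.prod_ite, Finset.prod_const, Finset.prod_const_one, mul_one,
    Finset.filter_mem_eq_inter]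

lemma gen_left {ι : Type} [Fintype ι] [DecidableEq ι] (z : Finset ι) :
    ∏ x : ι, (1 + Polynomial.C (if x ∈ z then (-1 : ℤ) else 1) * Polynomial.X) =
      ∑ s ∈ (Finset.univ : Finset ι).powerset,
        Polynomial.C ((-1 : ℤ) ^ (s ∩ z).card) * Polynomial.X ^ s.card := by
  rw [Finset.prod_one_add]
  refine Finset.sum_congr rfl fun s _ => ?_
  rw [Finset.prod_mul_distrib, Finset.prod_const, ← sign_prod, map_prod]

lemma gen_right {ι : Type} [Fintype ι] [DecidableEq ι] (z : Finset ι) :
    ∏ x : ι, (1 + Polynomial.C (if x ∈ z then (-1 : ℤ) else 1) * Polynomial.X) =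
      KRAf.G (Fintype.card ι) z.card (1 : ℤ) 1 := by
  have h : ∀ x : ι, (1 + Polynomial.C (if x ∈ z then (-1 : ℤ) else 1) * Polynomial.X) =
      if x ∈ z then (Polynomial.C 1 - Polynomial.C 1 * Polynomial.X : Polynomial ℤ)
        else Polynomial.C 1 + Polynomial.C 1 * Polynomial.X := by
    intro x
    split_ifs
    · simp only [map_neg, map_one]
      ring
    · simp only [map_one]
  rw [Finset.prod_congr rfl fun x _ => h x, Finset.prod_ite, Finset.prod_const,
    Finset.prod_const, mul_comm]
  unfold KRAf.G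
  congr 2
  · have h2 : (Finset.univ.filter fun x => x ∉ z) = zᶜ := by
      ext x
      simp
    rw [h2, Finset.card_compl]
  · congr 1
    ext x
    simp

theorem ch : S7_chr := by
  intro ι _ _ z j
  have h1 := (gen_left z).symm.trans (gen_right z)
  have h2 := congrArg (fun p => Polynomial.coeff p j) h1
  simp only [Polynomial.finsetSum_coeff, Polynomial.coeff_C_mul, Polynomial.coeff_X_pow] at h2
  rw [KRAf.coeff_G _ _ _ (Finset.card_le_univ z), one_pow, one_pow, mul_one, mul_one] at h2
  rw [Int.cast_id] at h2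
  rw [← h2, Finset.powersetCard_eq_filter, Finset.sum_filter]
  refine Finset.sum_congr rfl fun s _ => ?_
  by_cases hs : s.card = j
  · rw [if_pos hs, if_pos hs.symm, mul_one]
  · rw [if_neg hs, if_neg (fun h => hs h.symm), mul_zero]

end Pool.Agent.TH41.BL.CH7f
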