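import Mathlib
import Pool.Agent.TH41.BL.Stm7
import Pool.Agent.TH753.FF4

/-! Piece BL6-CL of helper41's project (limits of sites), written by helper713. -/

set_option autoImplicit false

open MeasureTheory Filter Topology

namespace Pool.Agent.TH41.BL.CL7f

open Pool.Agent.TH41.BL Pool.Agent.H390R2.LP Pool.Agent.TH753.FF Pool.Agent.H235R2.QLP

theorem cl7 (hu : S7_up) : S7_clo := by
  intro δ K hδ hδ1 h ε hε
  have hlog : 0 < Real.log 2 := Real.log_pos (by norm_num)
  have hden : 0 < 1 + |K| / δ := by positivity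
  set η : ℝ := ε * Real.log 2 / (1 + |K| / δ) with hη
  have hη0 : 0 < η := by positivity
  have hη1 : η * (1 + |K| / δ) = ε * Real.log 2 := by
    rw [hη]; field_simp
  obtain ⟨Ω, i1, i2, s, hE, hc⟩ := h η hη0
  have hd : 0 < δ + η := by positivity
  set t : ℝ := η / (δ + η) with ht
  have ht0 : 0 < t := by positivity
  have ht1 : t ≤ 1 := by
    rw [ht, div_le_one hd]; linarith
  have ht2 : t ≤ η / δ := by
    rw [ht]
    exact div_le_div_of_nonneg_left hη0.le hδ (by linarith)
  have ht3 : (1 - t) * (δ + η) = δ := by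
    rw [ht]; field_simp; ring
  have ht4 : 0 < 1 - t := by
    by_contra hc'
    have h1 : (1 - t) * (δ + η) ≤ 0 := mul_nonpos_of_nonpos_of_nonneg (not_lt.1 hc') hd.le
    linarith
  set s' := mix s (triv ((0, 0) : G2)) (1 - t) (by linarith) (by linarith) with hs'
  have hE' : s'.E ff < 2 * δ := by
    rw [hs', E_mix, E_triv, mul_zero, add_zero]
    have h1 : (1 - t) * s.E ff ≤ (1 - t) * (2 * δ + η) := mul_le_mul_of_nonneg_left hE ht4.le
    have h2 : 0 < (1 - t) * η := mul_pos ht4 hη0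
    have h3 : (1 - t) * (2 * δ + η) = 2 * ((1 - t) * (δ + η)) - (1 - t) * η := by ring
    rw [ht3] at h3
    linarith
  have hcc : s'.h - s'.S = (1 - t) * (s.h - s.S) := by
    change cc s' = (1 - t) * cc s
    rw [hs', cc_mix, cc_triv, mul_zero, add_zero]
  obtain ⟨n0, hn0⟩ := hu _ s' δ hδ hδ1 hE' (ε / 2) (by linarith)
  refine ⟨n0, fun n hn d hnd => ?_⟩
  obtain ⟨l, hl, hV⟩ := hn0 n hn d hnd
  refine ⟨l, hl, hV.trans ?_⟩
  refine mul_le_mul_of_nonneg_right ?_ hl.2.1.le
  apply Real.rpow_le_rpow_of_exponent_le (by norm_num)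
  refine mul_le_mul_of_nonneg_right ?_ (Nat.cast_nonneg n)
  have h1 : K - ε * Real.log 2 ≤ s'.h - s'.S := by
    rw [hcc]
    have h2 : (1 - t) * (K - η) ≤ (1 - t) * (s.h - s.S) := mul_le_mul_of_nonneg_left hc ht4.le
    have h3 : t * K ≤ η / δ * |K| := by
      calc t * K ≤ t * |K| := mul_le_mul_of_nonneg_left (le_abs_self K) ht0.le
        _ ≤ _ := mul_le_mul_of_nonneg_right ht2 (abs_nonneg K)
    have h4 : 0 ≤ t * η := by positivity
    have h5 : η * (|K| / δ) = η / δ * |K| := by ring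
    nlinarith
  have h6 : K / (2 * Real.log 2) - ε / 2 ≤ (s'.h - s'.S) / (2 * Real.log 2) := by
    have h7 : K / (2 * Real.log 2) - ε / 2 = (K - ε * Real.log 2) / (2 * Real.log 2) := by
      field_simp
    rw [h7]
    exact div_le_div_of_nonneg_right h1 (by positivity)
  linarith

end Pool.Agent.TH41.BL.CL7f
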