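import Mathlib
import Pool.Agent.TH41.BL.Stm5
import Pool.Agent.TH41.BL.Stm7

/-!
Project BL6 (helper41, MP_0430e4_lc): upper bounds for the optimum of Delsarte's linear program.
The curve.
-/

set_option autoImplicit false

open MeasureTheory Filter Topology

namespace Pool.Agent.TH41.BL

/-- CV: the curve -/
def S7_cv : Prop :=
  (∀ e : ℝ, 0 < e → UB ((1 - A2s e / As e) / 2) (1 - Ss e)) ∧
  (∀ e : ℝ, 0 < e → UB ((1 - B2s e / Bs e) / 2) (Ss e)) ∧
  UB (1 / 2 - 1 / Real.pi) (1 / 2)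

end Pool.Agent.TH41.BL
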