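import Mathlib
import Pool.Agent.TH41.BL.Stm8
import Pool.Agent.TH753.FF15

/-!
# BL6-CV (helper811): the curve
-/

set_option autoImplicit false

open MeasureTheory Filter Topology

namespace Pool.Agent.TH41.BL.CV7f

open Pool.Agent.TH41.BL Pool.Agent.H390R2.LP Pool.Agent.H235R2.QLP Pool.Agent.TH753.FF

lemma eta_eq (x : ℝ) : ηb x = Real.negMulLog x / Real.log 2 := by
  unfold ηb Real.logb Real.negMulLog
  ring

lemma h_hh (x : ℝ) : hb x = hh x := by
  unfold hb Hb hh
  rw [eta_eq, eta_eq, add_div]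

lemma se_zero : se 0 = 1 := by
  unfold se sg
  rw [Real.tanh_zero]
  have h1 : Real.negMulLog ((1 + 0) / 2) = Real.log 2 / 2 := by
    unfold Real.negMulLog
    rw [show ((1 + 0) / 2 : ℝ) = 2⁻¹ by norm_num, Real.log_inv]
    ring
  rw [show (1 : ℝ) - (1 + 0) / 2 = (1 + 0) / 2 by norm_num, h1]
  have : Real.log 2 ≠ 0 := (Real.log_pos (by norm_num)).ne'
  field_simp
  norm_num

lemma summable_nat {e : ℝ} (he : 0 < e) (b : ℝ) : Summable fun n : ℕ => se (b + 2 * (n : ℝ) * e) :=
  ((summable_se b he).comp_injective (i := fun n : ℕ => (n : ℤ)) Nat.cast_injective).congr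
    fun n => by simp

/-- the odd terms -/
noncomputable def So (e : ℝ) : ℝ := ∑' n : ℕ, se (e + 2 * (n : ℝ) * e)
/-- the even terms -/
noncomputable def Se (e : ℝ) : ℝ := ∑' n : ℕ, se (2 * e + 2 * (n : ℝ) * e)

lemma sum_even {e : ℝ} (he : 0 < e) : ∑' j : ℤ, se (2 * (j : ℝ) * e) = 1 + 2 * Se e := by
  have h1 := tsum_of_add_one_of_neg_add_one (f := fun j : ℤ => se (2 * (j : ℝ) * e))
    ((summable_nat he (2 * e)).congr fun n => by push_cast; congr 1; ring)
    ((summable_nat he (2 * e)).congr fun n => by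
      push_cast
      rw [← se_neg]
      congr 1
      ring)
  rw [h1]
  have e1 : ∑' n : ℕ, se (2 * (((n : ℤ) + 1 : ℤ) : ℝ) * e) = Se e := by
    refine tsum_congr fun n => ?_
    push_cast
    congr 1
    ring
  have e2 : ∑' n : ℕ, se (2 * ((-((n : ℤ) + 1) : ℤ) : ℝ) * e) = Se e := by
    refine tsum_congr fun n => ?_
    push_cast
    rw [← se_neg]
    congr 1
    ring
  rw [e1, e2]
  simp only [Int.cast_zero, mul_zero, zero_mul, se_zero]
  ring

lemma sum_odd {e : ℝ} (he : 0 < e) : ∑' j : ℤ, se ((2 * (j : ℝ) + 1) * e) = 2 * So e := by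
  have h1 := tsum_of_nat_of_neg_add_one (f := fun j : ℤ => se ((2 * (j : ℝ) + 1) * e))
    ((summable_nat he e).congr fun n => by push_cast; congr 1; ring)
    ((summable_nat he e).congr fun n => by
      push_cast
      rw [← se_neg]
      congr 1
      ring)
  rw [h1]
  have e1 : ∑' n : ℕ, se ((2 * (((n : ℤ)) : ℝ) + 1) * e) = So e := by
    refine tsum_congr fun n => ?_
    push_cast
    congr 1
    ring
  have e2 : ∑' n : ℕ, se ((2 * ((-((n : ℤ) + 1) : ℤ) : ℝ) + 1) * e) = So e := by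
    refine tsum_congr fun n => ?_
    push_cast
    rw [← se_neg]
    congr 1
    ring
  rw [e1, e2]
  ring

lemma S_eq {e : ℝ} (he : 0 < e) : Ss e = So e - Se e := by
  unfold Ss
  simp_rw [h_hh, hh_cosh]
  have h1 : ∀ k : ℕ, (-1 : ℝ) ^ (2 * k) * se ((((2 * k : ℕ) : ℝ) + 1) * e)
      = se (e + 2 * (k : ℝ) * e) := by
    intro k
    rw [pow_mul]
    push_cast
    norm_num
    congr 1
    ring
  have h2 : ∀ k : ℕ, (-1 : ℝ) ^ (2 * k + 1) * se ((((2 * k + 1 : ℕ) : ℝ) + 1) * e)
      = -se (2 * e + 2 * (k : ℝ) * e) := by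
    intro k
    rw [pow_succ, pow_mul]
    push_cast
    norm_num
    congr 1
    ring
  have h3 := tsum_even_add_odd (f := fun n : ℕ => (-1 : ℝ) ^ n * se (((n : ℝ) + 1) * e))
    ((summable_nat he e).congr fun k => (h1 k).symm)
    ((summable_nat he (2 * e)).neg.congr fun k => (h2 k).symm)
  rw [← h3]
  simp_rw [h1, h2]
  rw [tsum_neg]
  unfold So Se
  ring

lemma val_one {e : ℝ} (he : 0 < e) : 1 / 2 + 1 / 2 * (∑' j : ℤ, (se (((1 : ℤ) : ℝ) * e
    + 2 * (j : ℝ) * e) - se (((1 : ℤ) : ℝ) * e + (2 * (j : ℝ) + 1) * e))) = Ss e := by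
  rw [(summable_se _ he).tsum_sub (summable_se' _ he), S_eq he]
  have e1 : ∑' j : ℤ, se (((1 : ℤ) : ℝ) * e + 2 * (j : ℝ) * e) = 2 * So e := by
    rw [← sum_odd he]
    refine tsum_congr fun j => ?_
    push_cast
    congr 1
    ring
  have e2 : ∑' j : ℤ, se (((1 : ℤ) : ℝ) * e + (2 * (j : ℝ) + 1) * e) = 1 + 2 * Se e := by
    rw [← sum_even he, ← (Equiv.addRight (1 : ℤ)).tsum_eq (fun j : ℤ => se (2 * (j : ℝ) * e))]
    refine tsum_congr fun j => ?_
    simp only [Equiv.coe_addRight]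
    push_cast
    congr 1
    ring
  rw [e1, e2]
  ring

lemma val_zero {e : ℝ} (he : 0 < e) : 1 / 2 + 1 / 2 * (∑' j : ℤ, (se (((0 : ℤ) : ℝ) * e
    + 2 * (j : ℝ) * e) - se (((0 : ℤ) : ℝ) * e + (2 * (j : ℝ) + 1) * e))) = 1 - Ss e := by
  rw [(summable_se _ he).tsum_sub (summable_se' _ he), S_eq he]
  have e1 : ∑' j : ℤ, se (((0 : ℤ) : ℝ) * e + 2 * (j : ℝ) * e) = 1 + 2 * Se e := by
    rw [← sum_even he]
    refine tsum_congr fun j => ?_
    push_cast
    congr 1
    ring
  have e2 : ∑' j : ℤ, se (((0 : ℤ) : ℝ) * e + (2 * (j : ℝ) + 1) * e) = 2 * So e := by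
    rw [← sum_odd he]
    refine tsum_congr fun j => ?_
    push_cast
    congr 1
    ring
  rw [e1, e2]
  ring

/-- the ratio of the sums is positive -/
lemma al_pos {e : ℝ} (he : 0 < e) (k : ℤ) : 0 < al k e := div_pos (Wl_pos he k) (Zl_pos he k)

lemma term_le (x : ℝ) : 1 / Real.cosh x ^ 2 ≤ 1 / Real.cosh x := by
  have h1 := Real.one_le_cosh x
  have h0 : 0 < Real.cosh x := by linarith
  apply one_div_le_one_div_of_le h0
  nlinarith

lemma term_lt {x : ℝ} (hx : x ≠ 0) : 1 / Real.cosh x ^ 2 < 1 / Real.cosh x := by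
  have h1 := Real.one_lt_cosh.2 hx
  have h0 : 0 < Real.cosh x := by linarith
  apply one_div_lt_one_div_of_lt h0
  nlinarith

/-- the ratio of the sums is less than one -/
lemma al_lt_one {e : ℝ} (he : 0 < e) {k : ℤ} (hk : 0 ≤ k) : al k e < 1 := by
  unfold al
  rw [div_lt_one (Zl_pos he k)]
  unfold Wl Zl
  refine (summable_l2 he k).tsum_lt_tsum (i := 1) (fun j => term_le _) (term_lt ?_) (summable_l1 he k)
  unfold xl
  have hk' : (0 : ℝ) ≤ (k : ℝ) := by exact_mod_cast hk
  have : 0 < (k : ℝ) * e + 2 * ((1 : ℤ) : ℝ) * e := by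
    push_cast
    nlinarith
  exact this.ne'

lemma al_zero (e : ℝ) : al 0 e = A2s e / As e := by
  unfold al Wl Zl xl A2s As
  simp

lemma al_one (e : ℝ) : al 1 e = B2s e / Bs e := by
  unfold al Wl Zl xl B2s Bs
  have h1 : ∀ j : ℤ, ((1 : ℤ) : ℝ) * e + 2 * (j : ℝ) * e = (2 * (j : ℝ) + 1) * e := fun j => by
    push_cast; ring
  simp_rw [h1]

/-- the bound for a symmetric lattice -/
lemma lattice_point (hc : S7_clo) (k : ℤ) (hk : 0 ≤ k) {e : ℝ} (he : 0 < e) :
    UB ((1 - al k e) / 2) (1 / 2 + 1 / 2 * (∑' j : ℤ, (se (k * e + 2 * (j : ℝ) * e)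
      - se (k * e + (2 * (j : ℝ) + 1) * e)))) := by
  have hlog : 0 < Real.log 2 := Real.log_pos (by norm_num)
  have h0 := al_pos he k
  have h1 := al_lt_one he hk
  set S : ℝ := ∑' j : ℤ, (se (k * e + 2 * (j : ℝ) * e) - se (k * e + (2 * (j : ℝ) + 1) * e)) with hS
  have key := hc ((1 - al k e) / 2) (Real.log 2 * (1 - S)) (by linarith) (by linarith) (by
    intro η hη
    obtain ⟨Ω, i1, i2, s, h3, h4⟩ := theta_sites (k * e) he hη
    refine ⟨Ω, i1, i2, s, ?_, ?_⟩
    · have h5 : (∑' j, g2 (k * e) e j) / (∑' j, g1 (k * e) e j) = al k e := rfl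
      rw [h5] at h3
      linarith
    · exact h4)
  have e1 : 1 - Real.log 2 * (1 - S) / (2 * Real.log 2) = 1 / 2 + 1 / 2 * S := by
    field_simp
    ring
  rw [e1] at key
  exact key

theorem cv (hc : S7_clo) : S7_cv := by
  have hlog : 0 < Real.log 2 := Real.log_pos (by norm_num)
  refine ⟨fun e he => ?_, fun e he => ?_, ?_⟩
  · have h := lattice_point hc 0 le_rfl he
    rw [val_zero he, al_zero] at h
    exact h
  · have h := lattice_point hc 1 (by norm_num) he
    rw [val_one he, al_one] at h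
    exact h
  · have hpi := Real.pi_pos
    have hpi3 := Real.pi_gt_three
    have h1 : 1 / Real.pi < 1 / 2 := one_div_lt_one_div_of_lt (by norm_num) (by linarith)
    have h2 : 0 < 1 / Real.pi := by positivity
    have key := hc (1 / 2 - 1 / Real.pi) (Real.log 2) (by linarith) (by linarith) (by
      intro η hη
      have hη2 : 0 < η / (2 * Real.log 2) := by positivity
      have u1 := tendsto_al.eventually (lt_mem_nhds (show 2 / Real.pi - η / 2 < 2 / Real.pi by
        linarith))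
      have u2 := tendsto_S.eventually (gt_mem_nhds hη2)
      obtain ⟨e, ⟨h1, h2⟩, h3⟩ := ((u1.and u2).and self_mem_nhdsWithin).exists
      have he : (0 : ℝ) < e := h3
      obtain ⟨Ω, i1, i2, s, h4, h5⟩ := theta_sites 0 he (half_pos hη)
      refine ⟨Ω, i1, i2, s, ?_, ?_⟩
      · have e1 : (∑' j, g2 0 e j) / (∑' j, g1 0 e j) = al 0 e := by
          unfold al Wl Zl g1 g2 xl
          simp
        rw [e1] at h4
        have e2 : 2 * (1 / 2 - 1 / Real.pi) = 1 - 2 / Real.pi := by ring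
        rw [e2]
        linarith
      · refine le_trans ?_ h5
        have h6 : Real.log 2 * (∑' j : ℤ, (se (0 + 2 * (j : ℝ) * e)
            - se (0 + (2 * (j : ℝ) + 1) * e))) ≤ η / 2 := by
          have := mul_le_mul_of_nonneg_left h2.le hlog.le
          refine this.trans (le_of_eq ?_)
          field_simp
        linarith)
    have e1 : 1 - Real.log 2 / (2 * Real.log 2) = 1 / 2 := by
      field_simp
      norm_num
    rw [e1] at key
    exact key

end Pool.Agent.TH41.BL.CV7f
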