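import Mathlib
import Pool.Agent.TH41.BL.Stm5
import Pool.Agent.TH41.BL.EFI

set_option autoImplicit false

open MeasureTheory Filter Topology

namespace Pool.Agent.TH41.BL.EK5f

open Pool.Agent.TH41.BL

lemma intK {k : ℝ} (h0 : 0 ≤ k) (h1 : k < 1) :
    Continuous fun φ : ℝ => 1 / √(1 - k ^ 2 * Real.sin φ ^ 2) := by
  refine Continuous.div continuous_const (by fun_prop) fun φ => ?_
  have := EFIf.rad_pos h0 h1 φ
  exact (Real.sqrt_pos.2 (by linarith)).ne'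

lemma Kc_strict : StrictMonoOn Kc (Set.Ico 0 1) := by
  intro a ha b hb hab
  have hpi := Real.pi_pos
  have hab2 : a ^ 2 < b ^ 2 := by nlinarith [ha.1]
  unfold Kc
  refine intervalIntegral.integral_lt_integral_of_continuousOn_of_le_of_exists_lt (by positivity)
    (intK ha.1 ha.2).continuousOn (intK hb.1 hb.2).continuousOn ?_ ?_
  · intro φ hφ
    have h1 := EFIf.rad_pos hb.1 hb.2 φ
    refine one_div_le_one_div_of_le (Real.sqrt_pos.2 (by linarith)) (Real.sqrt_le_sqrt ?_)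
    have : 0 ≤ Real.sin φ ^ 2 := sq_nonneg _
    nlinarith
  · refine ⟨Real.pi / 2, ⟨by positivity, le_rfl⟩, ?_⟩
    rw [Real.sin_pi_div_two]
    have h1 : 0 < 1 - b ^ 2 := by nlinarith [hb.1, hb.2]
    refine one_div_lt_one_div_of_lt (Real.sqrt_pos.2 (by linarith))
      (Real.sqrt_lt_sqrt (by linarith) (by linarith))

lemma Kc_lb (hd : S5_kd) {k : ℝ} (h0 : 0 ≤ k) (h1 : k < 1) : Real.pi / 2 ≤ Kc k := by
  rw [← hd.2.2.2.2]
  rcases h0.eq_or_lt with h | h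
  · rw [← h]
  · exact (Kc_strict ⟨le_rfl, by norm_num⟩ ⟨h0, h1⟩ h).le

lemma Kc_pos (hd : S5_kd) {k : ℝ} (h0 : 0 ≤ k) (h1 : k < 1) : 0 < Kc k :=
  lt_of_lt_of_le (by have := Real.pi_pos; positivity) (Kc_lb hd h0 h1)

/-- complementary modulus -/
noncomputable def cm (k : ℝ) : ℝ := √(1 - k ^ 2)

lemma cm_mem {k : ℝ} (h0 : 0 < k) (h1 : k < 1) : 0 < cm k ∧ cm k < 1 := by
  have h2 : 0 < 1 - k ^ 2 := by nlinarith
  refine ⟨Real.sqrt_pos.2 h2, ?_⟩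
  unfold cm
  rw [Real.sqrt_lt' (by norm_num)]
  nlinarith

lemma cm_sq {k : ℝ} (h0 : 0 < k) (h1 : k < 1) : cm k ^ 2 = 1 - k ^ 2 :=
  Real.sq_sqrt (by nlinarith)

lemma cm_cm {k : ℝ} (h0 : 0 < k) (h1 : k < 1) : √(1 - cm k ^ 2) = k := by
  rw [cm_sq h0 h1, show 1 - (1 - k ^ 2) = k ^ 2 by ring, Real.sqrt_sq h0.le]

lemma cm_anti {a b : ℝ} (h0 : 0 < a) (hab : a < b) (h1 : b < 1) : cm b < cm a := by
  unfold cm
  exact Real.sqrt_lt_sqrt (by nlinarith) (by nlinarith)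

noncomputable def E0 (k : ℝ) : ℝ := Real.pi * Kc (cm k) / (2 * Kc k)

lemma E0_pos (hd : S5_kd) {k : ℝ} (h0 : 0 < k) (h1 : k < 1) : 0 < E0 k := by
  have hc := cm_mem h0 h1
  have k1 := Kc_pos hd h0.le h1
  have k2 := Kc_pos hd hc.1.le hc.2
  have := Real.pi_pos
  unfold E0
  positivity

lemma E0_anti (hd : S5_kd) : StrictAntiOn E0 (Set.Ioo 0 1) := by
  intro a ha b hb hab
  have hpi := Real.pi_pos
  have hca := cm_mem ha.1 ha.2
  have hcb := cm_mem hb.1 hb.2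
  have k1 : Kc (cm b) < Kc (cm a) :=
    Kc_strict ⟨hcb.1.le, hcb.2⟩ ⟨hca.1.le, hca.2⟩ (cm_anti ha.1 hab hb.2)
  have k2 : Kc a < Kc b := Kc_strict ⟨ha.1.le, ha.2⟩ ⟨hb.1.le, hb.2⟩ hab
  have k3 := Kc_pos hd ha.1.le ha.2
  have k4 := Kc_pos hd hcb.1.le hcb.2
  have k5 := Kc_pos hd hca.1.le hca.2
  unfold E0
  exact div_lt_div₀ (mul_lt_mul_of_pos_left k1 hpi) (by linarith) (by positivity) (by positivity)

lemma surj (hd : S5_kd) (hk : S6_ke) {e : ℝ} (he : 0 < e) : ∃ k : ℝ, 0 < k ∧ k < 1 ∧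
    E0 k = e ∧ A2s e - B2s e = 4 / Real.pi ^ 2 * ((1 - k ^ 2) * Kc k ^ 2) := by
  obtain ⟨k, h0, h1, hA, -, hE, -, -, hZ⟩ := hk e he
  refine ⟨k, h0, h1, ?_, hZ⟩
  have hpi := Real.pi_pos
  have k1 := Kc_pos hd h0.le h1
  unfold E0 cm
  rw [← hE, hA]
  field_simp

lemma key (hd : S5_kd) (hk : S6_ke) {k : ℝ} (h0 : 0 < k) (h1 : k < 1) :
    A2s (E0 k) - B2s (E0 k) = 4 / Real.pi ^ 2 * ((1 - k ^ 2) * Kc k ^ 2) := by
  obtain ⟨x, x0, x1, hx, hZ⟩ := surj hd hk (E0_pos hd h0 h1)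
  have : x = k := (E0_anti hd).injOn ⟨x0, x1⟩ ⟨h0, h1⟩ hx
  rwa [this] at hZ

lemma E0_tendsto (hd : S5_kd) (hk : S6_ke) : Tendsto E0 (𝓝[>] 0) atTop := by
  rw [tendsto_atTop]
  intro M
  obtain ⟨x, x0, x1, hx, -⟩ := surj hd hk (show 0 < max M 1 from lt_max_of_lt_right one_pos)
  have e1 : ∀ᶠ k : ℝ in 𝓝[>] 0, k < x := (eventually_lt_nhds x0).filter_mono nhdsWithin_le_nhds
  have e2 : ∀ᶠ k : ℝ in 𝓝[>] 0, 0 < k := eventually_mem_nhdsWithin
  filter_upwards [e1, e2] with k hk1 hk2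
  have h3 := E0_anti hd ⟨hk2, hk1.trans x1⟩ ⟨x0, x1⟩ hk1
  rw [hx] at h3
  exact (le_max_left M 1).trans h3.le

lemma cm_deriv {k : ℝ} (h0 : 0 < k) (h1 : k < 1) : DifferentiableAt ℝ cm k := by
  unfold cm
  refine DifferentiableAt.sqrt (by fun_prop) ?_
  have : 0 < 1 - k ^ 2 := by nlinarith
  exact this.ne'

lemma Kcm_diff (hd : S5_kd) {k : ℝ} (h0 : 0 < k) (h1 : k < 1) :
    DifferentiableAt ℝ (fun x => Kc (cm x)) k := by
  have hc := cm_mem h0 h1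
  exact DifferentiableAt.comp k (hd.1 _ hc.1 hc.2).2.differentiableAt (cm_deriv h0 h1)

lemma E0_diff (hd : S5_kd) {k : ℝ} (h0 : 0 < k) (h1 : k < 1) : DifferentiableAt ℝ E0 k := by
  unfold E0
  refine DifferentiableAt.div ((Kcm_diff hd h0 h1).const_mul _)
    ((hd.1 _ h0 h1).2.differentiableAt.const_mul _) ?_
  have := Kc_pos hd h0.le h1
  positivity

/-- the derivative of the constant -/
lemma Zs_eq (hd : S5_kd) (hk : S6_ke) (hz : S6_zd) {k : ℝ} (h0 : 0 < k) (h1 : k < 1) :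
    Zs (E0 k) * deriv E0 k = 1 / Real.pi ^ 2 * (2 * Kc k / k) * (Ec k - Kc k) := by
  have hE := (E0_diff hd h0 h1).hasDerivAt
  have d1 := (hz (E0 k) (E0_pos hd h0 h1)).comp k hE
  have hK := (hd.1 k h0 h1).2
  have h2 : HasDerivAt (fun x : ℝ => 1 - x ^ 2) (-(2 * k)) k := by
    have := (hasDerivAt_pow 2 k).const_sub 1
    simpa using this
  have d2 := ((h2.mul (hK.pow 2)).const_mul (4 / Real.pi ^ 2))
  have hev : (fun x => A2s (E0 x) - B2s (E0 x)) =ᶠ[𝓝 k]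
      fun x => 4 / Real.pi ^ 2 * ((1 - x ^ 2) * Kc x ^ 2) := by
    filter_upwards [Ioo_mem_nhds h0 h1] with x hx
    exact key hd hk hx.1 hx.2
  have d3 := d2.congr_of_eventuallyEq hev
  have hu := d1.unique d3
  simp only [Pi.pow_apply] at hu
  have hpi := Real.pi_pos
  have h4 : 0 < 1 - k ^ 2 := by nlinarith
  have h5 : 4 * (Zs (E0 k) * deriv E0 k) =
      4 * (1 / Real.pi ^ 2 * (2 * Kc k / k) * (Ec k - Kc k)) := by
    rw [← mul_assoc, hu]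
    field_simp
    ring
  linarith

lemma KE_le {x : ℝ} (h0 : 0 ≤ x) (h1 : x < 1) : Kc x - Ec x ≤ x ^ 2 * Kc x := by
  have hpi := Real.pi_pos
  have i1 := (intK h0 h1).intervalIntegrable (μ := volume) 0 (Real.pi / 2)
  have i2 : IntervalIntegrable (fun φ : ℝ => √(1 - x ^ 2 * Real.sin φ ^ 2)) volume 0
    (Real.pi / 2) := (by fun_prop : Continuous fun φ : ℝ =>
      √(1 - x ^ 2 * Real.sin φ ^ 2)).intervalIntegrable _ _
  unfold Kc Ec
  rw [← intervalIntegral.integral_sub i1 i2, ← intervalIntegral.integral_const_mul]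
  refine intervalIntegral.integral_mono_on (by positivity) (i1.sub i2) (i1.const_mul _) ?_
  intro φ _
  have h3 := EFIf.rad_pos h0 h1 φ
  have h4 : 0 < √(1 - x ^ 2 * Real.sin φ ^ 2) := Real.sqrt_pos.2 (by linarith)
  have h5 : √(1 - x ^ 2 * Real.sin φ ^ 2) * √(1 - x ^ 2 * Real.sin φ ^ 2) =
    1 - x ^ 2 * Real.sin φ ^ 2 := Real.mul_self_sqrt (by linarith)
  have h6 := Real.sin_sq_le_one φ
  have h7 : 0 ≤ x ^ 2 := sq_nonneg _
  rw [mul_one_div, sub_le_iff_le_add, div_add' _ _ _ h4.ne', div_le_div_iff_of_pos_right h4, h5]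
  nlinarith

/-- the integrand -/
noncomputable def gg (x : ℝ) : ℝ := (Kc x - Ec x) * Kc (√(1 - x ^ 2)) / x

lemma gg_bound (hw : S3_w) (hd : S5_kd) (hn : S5_wn) {x k : ℝ} (h0 : 0 < x) (hx : x ≤ k)
    (h1 : k < 1) : ‖gg x‖ ≤ Kc k * (Real.pi / 2) := by
  have hpi := Real.pi_pos
  have hx1 : x < 1 := lt_of_le_of_lt hx h1
  have hc := cm_mem h0 hx1
  have a1 : 0 < Kc x - Ec x := by linarith [EFIf.K_gt_E hw hn h0 hx1]
  have a2 := KE_le h0.le hx1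
  have a3 := EFIf.Kc_le hc.1.le hc.2
  rw [cm_cm h0 hx1] at a3
  have a4 := Kc_pos hd hc.1.le hc.2
  have a5 : Kc x ≤ Kc k := by
    rcases hx.eq_or_lt with h | h
    · rw [h]
    · exact (Kc_strict ⟨h0.le, hx1⟩ ⟨(h0.trans h).le, h1⟩ h).le
  have a6 : gg x = (Kc x - Ec x) / x ^ 2 * (x * Kc (cm x)) := by
    unfold gg cm
    field_simp
  have a7 : (Kc x - Ec x) / x ^ 2 ≤ Kc x := by
    rw [div_le_iff₀ (by positivity)]
    linarith
  have a8 : 0 ≤ (Kc x - Ec x) / x ^ 2 := by positivity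
  rw [a6, Real.norm_of_nonneg (by positivity)]
  exact mul_le_mul (a7.trans a5) a3 (by positivity) (a8.trans (a7.trans a5))

lemma gg_cont (hd : S5_kd) : ContinuousOn gg (Set.Ioo 0 1) := by
  intro x hx
  refine ContinuousAt.continuousWithinAt ?_
  unfold gg
  refine ContinuousAt.div (ContinuousAt.mul (ContinuousAt.sub ?_ ?_) ?_) continuousAt_id hx.1.ne'
  · exact (hd.1 x hx.1 hx.2).2.continuousAt
  · exact (hd.1 x hx.1 hx.2).1.continuousAt
  · exact (Kcm_diff hd hx.1 hx.2).continuousAt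

lemma gg_int (hw : S3_w) (hd : S5_kd) (hn : S5_wn) {k : ℝ} (h0 : 0 < k) (h1 : k < 1) :
    IntervalIntegrable gg volume 0 k := by
  rw [intervalIntegrable_iff_integrableOn_Ioc_of_le h0.le]
  have hm : AEStronglyMeasurable gg (volume.restrict (Set.Ioc 0 k)) :=
    ((gg_cont hd).mono fun x hx => ⟨hx.1, lt_of_le_of_lt hx.2 h1⟩).aestronglyMeasurable
      measurableSet_Ioc
  have hc : Integrable (fun _ : ℝ => Kc k * (Real.pi / 2)) (volume.restrict (Set.Ioc 0 k)) :=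
    integrable_const _
  refine hc.mono' hm ?_
  rw [ae_restrict_iff' measurableSet_Ioc]
  exact ae_of_all _ fun x hx => gg_bound hw hd hn hx.1 hx.2 h1

lemma Ic_eq (k : ℝ) : Ic k = 1 / Real.pi * ∫ x in (0 : ℝ)..k, gg x := rfl

lemma Ic_deriv (hw : S3_w) (hd : S5_kd) (hn : S5_wn) {k : ℝ} (h0 : 0 < k) (h1 : k < 1) :
    HasDerivAt Ic (1 / Real.pi * gg k) k := by
  have h2 := intervalIntegral.integral_hasDerivAt_right (gg_int hw hd hn h0 h1)
    ((gg_cont hd).stronglyMeasurableAtFilter isOpen_Ioo k ⟨h0, h1⟩)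
    ((gg_cont hd).continuousAt (Ioo_mem_nhds h0 h1))
  exact h2.const_mul (1 / Real.pi)

lemma Ic_tendsto (hw : S3_w) (hd : S5_kd) (hn : S5_wn) : Tendsto Ic (𝓝[>] 0) (𝓝 0) := by
  have hpi := Real.pi_pos
  rw [tendsto_zero_iff_norm_tendsto_zero]
  have hB : Tendsto (fun k : ℝ => 1 / Real.pi * (Kc (1 / 2) * (Real.pi / 2) * k)) (𝓝[>] 0)
      (𝓝 0) := by
    have : Continuous fun k : ℝ => 1 / Real.pi * (Kc (1 / 2) * (Real.pi / 2) * k) := by fun_prop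
    have h := (this.tendsto 0).mono_left (nhdsWithin_le_nhds (s := Set.Ioi 0))
    simpa using h
  refine squeeze_zero' (Eventually.of_forall fun _ => norm_nonneg _) ?_ hB
  have e1 : ∀ᶠ k : ℝ in 𝓝[>] 0, k < 1 / 2 :=
    (eventually_lt_nhds (by norm_num)).filter_mono nhdsWithin_le_nhds
  have e2 : ∀ᶠ k : ℝ in 𝓝[>] 0, 0 < k := eventually_mem_nhdsWithin
  filter_upwards [e1, e2] with k hk1 hk2
  rw [Ic_eq, norm_mul, Real.norm_of_nonneg (by positivity : (0 : ℝ) ≤ 1 / Real.pi)]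
  refine mul_le_mul_of_nonneg_left ?_ (by positivity)
  have h3 := intervalIntegral.norm_integral_le_of_norm_le_const (f := gg) (a := 0) (b := k)
    (C := Kc (1 / 2) * (Real.pi / 2)) ?_
  · rwa [sub_zero, abs_of_pos hk2] at h3
  · intro x hx
    rw [Set.uIoc_of_le hk2.le] at hx
    exact gg_bound hw hd hn hx.1 (hx.2.trans hk1.le) (by norm_num)

theorem ek (hw : S3_w) (hd : S5_kd) (hn : S5_wn) (hk : S6_ke) (hs : S6_sd) (hz : S6_zd) :
    S6_ek := by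
  intro k h0 h1
  have hpi := Real.pi_pos
  have hl : Real.log 2 ≠ 0 := (Real.log_pos one_lt_two).ne'
  obtain ⟨Φ, hΦ⟩ : ∃ Φ : ℝ → ℝ, Φ = fun x => Real.log 2 * Ss (E0 x) - Ic x := ⟨_, rfl⟩
  have hder : ∀ x ∈ Set.Ioo (0 : ℝ) 1, HasDerivAt Φ 0 x := by
    intro x hx
    have d1 := ((hs.1 (E0 x) (E0_pos hd hx.1 hx.2)).comp x
      (E0_diff hd hx.1 hx.2).hasDerivAt).const_mul (Real.log 2)
    have d2 := d1.sub (Ic_deriv hw hd hn hx.1 hx.2)
    rw [hΦ]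
    refine d2.congr_deriv ?_
    have hZ := Zs_eq hd hk hz hx.1 hx.2
    have h5 : Real.log 2 * (-(E0 x * Zs (E0 x)) / Real.log 2 * deriv E0 x) =
        -(E0 x * (Zs (E0 x) * deriv E0 x)) := by
      field_simp
    rw [h5, hZ]
    have hK := Kc_pos hd hx.1.le hx.2
    have hx0 := hx.1.ne'
    unfold E0 gg cm
    field_simp
    ring
  have hconst : ∀ x ∈ Set.Ioo (0 : ℝ) 1, Φ x = Φ k := fun x hx =>
    isOpen_Ioo.is_const_of_deriv_eq_zero isPreconnected_Ioo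
      (fun y hy => (hder y hy).differentiableAt.differentiableWithinAt)
      (fun y hy => (hder y hy).deriv) hx ⟨h0, h1⟩
  have hlim : Tendsto Φ (𝓝[>] 0) (𝓝 0) := by
    have t1 := (hs.2.comp (E0_tendsto hd hk)).const_mul (Real.log 2)
    have t2 := t1.sub (Ic_tendsto hw hd hn)
    rw [mul_zero, sub_zero] at t2
    rw [hΦ]
    exact t2
  have hlim2 : Tendsto Φ (𝓝[>] 0) (𝓝 (Φ k)) := by
    refine tendsto_const_nhds.congr' ?_
    have e1 : ∀ᶠ x : ℝ in 𝓝[>] 0, x < 1 :=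
      (eventually_lt_nhds (by norm_num)).filter_mono nhdsWithin_le_nhds
    have e2 : ∀ᶠ x : ℝ in 𝓝[>] 0, 0 < x := eventually_mem_nhdsWithin
    filter_upwards [e1, e2] with x hx1 hx2
    exact (hconst x ⟨hx2, hx1⟩).symm
  have h6 := tendsto_nhds_unique hlim2 hlim
  rw [hΦ] at h6
  have h7 : Real.log 2 * Ss (E0 k) = Ic k := by linarith
  have h8 : Ss (E0 k) = Ic k / Real.log 2 := by
    rw [← h7]
    field_simp
  exact h8

end Pool.Agent.TH41.BL.EK5f
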