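import Mathlib
import Pool.Agent.TH41.BL.Stm6
import Pool.Agent.TH41.BL.KRA

/-!
Project BL6, piece SH: shortening, and monotonicity in the distance.
-/

set_option autoImplicit false

open MeasureTheory Filter Topology

namespace Pool.Agent.TH41.BL.SH7f

open Pool.Agent.TH41.BL

lemma kr_top (n w : ℕ) (hw : w ≤ n) : kr n (n + 1) w = 0 := by
  have h1 := KRAf.coeff_G (R := ℤ) n w (n + 1) hw 1 1
  have h2 := Polynomial.coeff_eq_zero_of_natDegree_lt (KRAf.natDegree_G (R := ℤ) n w hw 1 1)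
  rw [h2] at h1
  simpa using h1.symm

lemma kr_succ (n j w : ℕ) (hw : w ≤ n) : kr (n + 1) (j + 1) w = kr n (j + 1) w + kr n j w := by
  have h0 := KRAf.coeff_G (R := ℤ) (n + 1) w (j + 1) (by omega) 1 1
  have h1 := KRAf.coeff_G (R := ℤ) n w (j + 1) hw 1 1
  have h2 := KRAf.coeff_G (R := ℤ) n w j hw 1 1
  have h3 : KRAf.G (R := ℤ) (n + 1) w 1 1 = KRAf.G (R := ℤ) n w 1 1 +
      KRAf.G (R := ℤ) n w 1 1 * Polynomial.X := by
    unfold KRAf.G
    have e : n + 1 - w = (n - w) + 1 := by omega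
    rw [e, pow_succ]
    simp only [Polynomial.C_1, one_mul]
    ring
  rw [h3, Polynomial.coeff_add, Polynomial.coeff_mul_X, h1, h2] at h0
  simp only [one_pow, mul_one, Int.cast_id] at h0
  exact h0.symm

lemma kr_zero (n w : ℕ) : kr n 0 w = 1 := by
  simp [kr]

lemma sum_short (n w : ℕ) (hw : w ≤ n) (l : ℕ → ℝ) :
    ∑ j ∈ Finset.range (n + 1), (l j + l (j + 1)) * (kr n j w : ℝ) =
      ∑ j ∈ Finset.range (n + 1 + 1), l j * (kr (n + 1) j w : ℝ) := by
  have h1 : ∑ j ∈ Finset.range (n + 1 + 1), l j * (kr n j w : ℝ) =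
      ∑ j ∈ Finset.range (n + 1), l j * (kr n j w : ℝ) := by
    rw [Finset.sum_range_succ, kr_top n w hw]
    simp
  rw [Finset.sum_range_succ'] at h1
  rw [Finset.sum_range_succ' (fun j => l j * (kr (n + 1) j w : ℝ)) (n + 1)]
  have h2 : ∀ j ∈ Finset.range (n + 1), l (j + 1) * (kr (n + 1) (j + 1) w : ℝ) =
      l (j + 1) * (kr n (j + 1) w : ℝ) + l (j + 1) * (kr n j w : ℝ) := by
    intro j _
    rw [kr_succ n j w hw]
    push_cast
    ring
  rw [Finset.sum_congr rfl h2, Finset.sum_add_distrib]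
  simp only [add_mul]
  rw [Finset.sum_add_distrib, ← h1, kr_zero, kr_zero]
  ring

theorem sh : S7_short := by
  refine ⟨?_, ?_⟩
  · intro n d d' l hd h
    exact ⟨h.1, h.2.1, fun w hw hn => h.2.2 w (hd.trans hw) hn⟩
  · intro n d l h
    have h00 := h.1 0
    have h01 := h.1 1
    refine ⟨fun j => l j + l (j + 1), ⟨fun j => add_nonneg (h.1 j) (h.1 (j + 1)),
      add_pos_of_pos_of_nonneg h.2.1 h01, fun w hw hn => ?_⟩, ?_⟩
    · rw [sum_short n w hn l]
      exact h.2.2 w hw (by omega)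
    · have h1 : Vl n (fun j => l j + l (j + 1)) = Vl (n + 1) l := by
        unfold Vl
        have h2 := sum_short n 0 (Nat.zero_le n) l
        simp only [KRAf.kr_zero_right, Int.cast_natCast] at h2
        exact h2
      rw [h1]
      have h3 : 0 ≤ Vl (n + 1) l :=
        Finset.sum_nonneg fun j _ => mul_nonneg (h.1 j) (Nat.cast_nonneg _)
      refine mul_le_mul_of_nonneg_left ?_ h3
      change l 0 ≤ l 0 + l (0 + 1)
      simpa using h01

end Pool.Agent.TH41.BL.SH7f
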