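import Mathlib
import Pool.Agent.TH41.BL.Stm7

/-!
Project BL6 (helper41, MP_0430e4_lc): the square root of the product state.
-/

set_option autoImplicit false

open MeasureTheory Filter Topology

namespace Pool.Agent.TH41.BL.ST7f

open Pool.Agent.TH41.BL
open Pool.Agent.H390R2.LP Pool.Agent.TH753.FF

section one
variable {Ω : Type} [Fintype Ω] [DecidableEq Ω] (s : Site Ω G2)

/-- the square root of the one-site state -/
noncomputable def tau (a b : Ω) : ℝ := ∑ x, √(s.lam x) * s.u x a * s.u x b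

/-- the one-site state -/
noncomputable def rho (a b : Ω) : ℝ := ∑ x, s.lam x * s.u x a * s.u x b

lemma tau_comm (a b : Ω) : tau s a b = tau s b a :=
  Finset.sum_congr rfl fun _ _ => by ring

/-- a double sum with a weight, expanded in the eigenbasis -/
lemma tau_quad (F G : Ω → ℝ) :
    ∑ a, ∑ b, F a * G b * tau s a b ^ 2 =
      ∑ x, ∑ y, √(s.lam x) * √(s.lam y) *
        ((∑ a, s.u x a * F a * s.u y a) * (∑ b, s.u x b * G b * s.u y b)) := by
  have h1 : ∀ a b, F a * G b * tau s a b ^ 2 = ∑ x, ∑ y, √(s.lam x) * √(s.lam y) *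
      ((s.u x a * F a * s.u y a) * (s.u x b * G b * s.u y b)) := by
    intro a b
    unfold tau
    rw [sq, Finset.sum_mul_sum, Finset.mul_sum]
    refine Finset.sum_congr rfl fun x _ => ?_
    rw [Finset.mul_sum]
    exact Finset.sum_congr rfl fun y _ => by ring
  simp_rw [h1]
  have h2 : ∀ x y, √(s.lam x) * √(s.lam y) *
        ((∑ a, s.u x a * F a * s.u y a) * (∑ b, s.u x b * G b * s.u y b)) =
      ∑ a, ∑ b, √(s.lam x) * √(s.lam y) *
      ((s.u x a * F a * s.u y a) * (s.u x b * G b * s.u y b)) := by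
    intro x y
    rw [Finset.sum_mul_sum, Finset.mul_sum]
    exact Finset.sum_congr rfl fun a _ => by rw [Finset.mul_sum]
  simp_rw [h2]
  have h3 : ∀ (Φ : Ω → Ω → Ω → Ω → ℝ), ∑ a, ∑ b, ∑ x, ∑ y, Φ a b x y =
      ∑ x, ∑ y, ∑ a, ∑ b, Φ a b x y := by
    intro Φ
    have e1 : ∀ a, ∑ b, ∑ x, ∑ y, Φ a b x y = ∑ x, ∑ b, ∑ y, Φ a b x y :=
      fun a => Finset.sum_comm
    simp_rw [e1]
    rw [Finset.sum_comm]
    refine Finset.sum_congr rfl fun x _ => ?_
    have e2 : ∀ a, ∑ b, ∑ y, Φ a b x y = ∑ y, ∑ b, Φ a b x y := fun a => Finset.sum_comm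
    simp_rw [e2]
    rw [Finset.sum_comm]
  exact h3 _

lemma tau_quad_one (F : Ω → ℝ) :
    ∑ a, ∑ b, F a * tau s a b ^ 2 = ∑ x, s.lam x * ∑ a, s.u x a ^ 2 * F a := by
  have h := tau_quad s F (fun _ => 1)
  simp only [mul_one] at h
  rw [h]
  refine Finset.sum_congr rfl fun x _ => ?_
  rw [Finset.sum_eq_single x]
  · rw [s.u_orth x x, if_pos rfl, Real.mul_self_sqrt (s.lam_nonneg x), mul_one]
    congr 1
    exact Finset.sum_congr rfl fun a _ => by ring
  · intro y _ hy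
    rw [s.u_orth x y, if_neg (Ne.symm hy)]
    ring
  · simp

lemma tau_sq_sum : ∑ a, ∑ b, tau s a b ^ 2 = 1 := by
  have h := tau_quad_one s (fun _ => 1)
  simp only [one_mul, mul_one] at h
  rw [h]
  have e : ∀ x, ∑ a, s.u x a ^ 2 = 1 := by
    intro x
    have := s.u_orth x x
    rw [if_pos rfl] at this
    rw [← this]
    exact Finset.sum_congr rfl fun ω _ => by ring
  simp only [e, mul_one]
  exact s.lam_sum

lemma tau_comp (a b : Ω) : ∑ o, tau s a o * tau s o b = rho s a b := by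
  have h1 : ∀ o, tau s a o * tau s o b = ∑ x, ∑ y, (√(s.lam x) * √(s.lam y)) *
      (s.u x a * s.u y b) * (s.u x o * s.u y o) := by
    intro o
    unfold tau
    rw [Finset.sum_mul_sum]
    refine Finset.sum_congr rfl fun x _ => ?_
    exact Finset.sum_congr rfl fun y _ => by ring
  simp_rw [h1]
  rw [Finset.sum_comm]
  refine Finset.sum_congr rfl fun x _ => ?_
  rw [Finset.sum_comm]
  simp only [← Finset.mul_sum]
  rw [Finset.sum_eq_single x]
  · rw [s.u_orth x x, if_pos rfl, Real.mul_self_sqrt (s.lam_nonneg x)]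
    ring
  · intro y _ hy
    rw [s.u_orth x y, if_neg (Ne.symm hy), mul_zero]
  · simp

/-- the number of differing bits of two positions -/
noncomputable def h1 (a b : Ω) : ℝ := ∑ i, (ff i (s.pos a) - ff i (s.pos b)) ^ 2

lemma h1_eq (a b : Ω) :
    h1 s a b = ∑ i : Fin 2, if bG s.pos a i ≠ bG s.pos b i then (1 : ℝ) else 0 := by
  unfold h1 bG
  generalize s.pos a = p
  generalize s.pos b = q
  refine Finset.sum_congr rfl fun i _ => ?_
  obtain ⟨a1, a2⟩ := p
  obtain ⟨b1, b2⟩ := q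
  fin_cases i <;> fin_cases a1 <;> fin_cases a2 <;> fin_cases b1 <;> fin_cases b2 <;>
    simp [ff] <;> norm_num

lemma h1_sum : ∑ a, ∑ b, h1 s a b * tau s a b ^ 2 = s.E ff := by
  have e0 : ∀ i : Fin 2, ∑ a, ∑ b, (ff i (s.pos a) - ff i (s.pos b)) ^ 2 * tau s a b ^ 2 =
      2 * (∑ a, s.lam a * ∑ ω, s.u a ω ^ 2 * ff i (s.pos ω) ^ 2
    - ∑ a, ∑ b, √(s.lam a * s.lam b) * (∑ ω, s.u a ω * ff i (s.pos ω) * s.u b ω) ^ 2) := by
    intro i
    have f1 := tau_quad_one s (fun ω => ff i (s.pos ω) ^ 2)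
    have f2 : ∑ a, ∑ b, ff i (s.pos b) ^ 2 * tau s a b ^ 2 =
        ∑ a, ∑ b, ff i (s.pos a) ^ 2 * tau s a b ^ 2 := by
      rw [Finset.sum_comm]
      exact Finset.sum_congr rfl fun b _ => Finset.sum_congr rfl fun a _ => by
        rw [tau_comm s a b]
    have f3 := tau_quad s (fun ω => ff i (s.pos ω)) (fun ω => ff i (s.pos ω))
    have f4 : ∑ a, ∑ b, (ff i (s.pos a) - ff i (s.pos b)) ^ 2 * tau s a b ^ 2 =
        ∑ a, ∑ b, ff i (s.pos a) ^ 2 * tau s a b ^ 2 +
        ∑ a, ∑ b, ff i (s.pos b) ^ 2 * tau s a b ^ 2 -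
        2 * ∑ a, ∑ b, ff i (s.pos a) * ff i (s.pos b) * tau s a b ^ 2 := by
      simp only [Finset.mul_sum, ← Finset.sum_add_distrib, ← Finset.sum_sub_distrib]
      exact Finset.sum_congr rfl fun _ _ => Finset.sum_congr rfl fun _ _ => by ring
    rw [f4, f2, f1, f3]
    have f5 : ∀ x y, √(s.lam x * s.lam y) * (∑ ω, s.u x ω * ff i (s.pos ω) * s.u y ω) ^ 2 =
        √(s.lam x) * √(s.lam y) * ((∑ ω, s.u x ω * ff i (s.pos ω) * s.u y ω) *
          (∑ ω, s.u x ω * ff i (s.pos ω) * s.u y ω)) := by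
      intro x y
      rw [Real.sqrt_mul (s.lam_nonneg x)]
      ring
    simp_rw [f5]
    ring
  unfold Site.E h1
  rw [Finset.mul_sum]
  simp_rw [← e0]
  have e1 : ∀ a b, (∑ i, (ff i (s.pos a) - ff i (s.pos b)) ^ 2) * tau s a b ^ 2 =
      ∑ i, (ff i (s.pos a) - ff i (s.pos b)) ^ 2 * tau s a b ^ 2 := fun a b => Finset.sum_mul ..
  simp_rw [e1]
  have e2 : ∀ a, ∑ b, ∑ i : Fin 2, (ff i (s.pos a) - ff i (s.pos b)) ^ 2 * tau s a b ^ 2 =
      ∑ i : Fin 2, ∑ b, (ff i (s.pos a) - ff i (s.pos b)) ^ 2 * tau s a b ^ 2 :=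
    fun a => Finset.sum_comm
  simp_rw [e2]
  rw [Finset.sum_comm]

end one

section prod
variable {Ω : Type} [Fintype Ω] [DecidableEq Ω] {m : ℕ}

lemma sum_prod2 (φ : Fin m → Ω → Ω → ℝ) :
    ∑ a : Fin m → Ω, ∑ b : Fin m → Ω, ∏ k, φ k (a k) (b k) = ∏ k, ∑ o, ∑ o', φ k o o' := by
  have h : ∀ a : Fin m → Ω, ∑ b : Fin m → Ω, ∏ k, φ k (a k) (b k) = ∏ k, ∑ o', φ k (a k) o' :=
    fun a => sum_prod fun k o' => φ k (a k) o'
  simp_rw [h]
  exact sum_prod fun k o => ∑ o', φ k o o'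

lemma hd_eq (s : Site Ω G2) (a b : Fin m → Ω) :
    (hd (bG s.pos) a b : ℝ) = ∑ k, h1 s (a k) (b k) := by
  unfold hd
  rw [Finset.card_filter]
  push_cast
  rw [Fintype.sum_prod_type]
  exact Finset.sum_congr rfl fun k _ => (h1_eq s (a k) (b k)).symm

lemma Tm_apply (s : Site Ω G2) (a b : Fin m → Ω) : Tm s m a b = ∏ k, tau s (a k) (b k) := rfl

lemma Tm_eq (s : Site Ω G2) (a b : Fin m → Ω) :
    Tm s m a b = ∑ c : Fin m → Ω, (∏ k, √(s.lam (c k))) * pv s.u c a * pv s.u c b := by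
  rw [Tm_apply]
  unfold tau
  rw [← sum_prod fun k x => √(s.lam x) * s.u x (a k) * s.u x (b k)]
  refine Finset.sum_congr rfl fun c _ => ?_
  rw [Finset.prod_mul_distrib, Finset.prod_mul_distrib]
  rfl

lemma Tm_psd (s : Site Ω G2) : PSD (Tm s m) := by
  constructor
  · ext a b
    rw [Matrix.transpose_apply, Tm_apply, Tm_apply]
    exact Finset.prod_congr rfl fun k _ => tau_comm s _ _
  · intro x
    have h : ∑ a, ∑ b, x a * Tm s m a b * x b =
        ∑ c : Fin m → Ω, (∏ k, √(s.lam (c k))) * (∑ a, x a * pv s.u c a) ^ 2 := by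
      have h1 : ∀ a b, x a * Tm s m a b * x b = ∑ c : Fin m → Ω, (∏ k, √(s.lam (c k))) *
          ((x a * pv s.u c a) * (x b * pv s.u c b)) := by
        intro a b
        rw [Tm_eq, Finset.mul_sum, Finset.sum_mul]
        exact Finset.sum_congr rfl fun c _ => by ring
      simp_rw [h1]
      have h2 : ∀ c : Fin m → Ω, (∏ k, √(s.lam (c k))) * (∑ a, x a * pv s.u c a) ^ 2 =
          ∑ a, ∑ b, (∏ k, √(s.lam (c k))) * ((x a * pv s.u c a) * (x b * pv s.u c b)) := by
        intro c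
        rw [sq, Finset.sum_mul_sum, Finset.mul_sum]
        exact Finset.sum_congr rfl fun a _ => by rw [Finset.mul_sum]
      simp_rw [h2]
      have h3 : ∀ a, ∑ b, ∑ c : Fin m → Ω, (∏ k, √(s.lam (c k))) *
          ((x a * pv s.u c a) * (x b * pv s.u c b)) =
          ∑ c : Fin m → Ω, ∑ b, (∏ k, √(s.lam (c k))) *
          ((x a * pv s.u c a) * (x b * pv s.u c b)) := fun a => Finset.sum_comm
      simp_rw [h3]
      rw [Finset.sum_comm]
    rw [h]
    exact Finset.sum_nonneg fun c _ => mul_nonneg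
      (Finset.prod_nonneg fun k _ => Real.sqrt_nonneg _) (sq_nonneg _)

lemma Tm_inv (s : Site Ω G2) : PInv (Tm s m) := by
  intro σ a b
  rw [Tm_apply, Tm_apply]
  exact Equiv.prod_comp σ fun k => tau s (a k) (b k)

lemma Tm_mul (s : Site Ω G2) : Tm s m * Tm s m = Rm s m := by
  ext a b
  rw [Matrix.mul_apply]
  have h : ∀ c : Fin m → Ω, Tm s m a c * Tm s m c b =
      ∏ k, (tau s (a k) (c k) * tau s (c k) (b k)) := by
    intro c
    rw [Tm_apply, Tm_apply, ← Finset.prod_mul_distrib]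
  simp_rw [h]
  rw [sum_prod fun k o => tau s (a k) o * tau s o (b k)]
  simp_rw [tau_comp]
  rfl

lemma Tm_hs (s : Site Ω G2) : hs (Tm s m) (Tm s m) = 1 := by
  unfold hs
  have h : ∀ a b : Fin m → Ω, Tm s m a b * Tm s m a b = ∏ k, tau s (a k) (b k) ^ 2 := by
    intro a b
    rw [Tm_apply, ← Finset.prod_mul_distrib]
    exact Finset.prod_congr rfl fun k _ => by ring
  simp_rw [h]
  rw [sum_prod2 fun _ o o' => tau s o o' ^ 2]
  simp only [tau_sq_sum, Finset.prod_const_one]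

lemma Tm_hd (s : Site Ω G2) :
    ∑ a : Fin m → Ω, ∑ b : Fin m → Ω, (hd (bG s.pos) a b : ℝ) * (Tm s m a b * Tm s m a b) =
      m * s.E ff := by
  have h : ∀ a b : Fin m → Ω, (hd (bG s.pos) a b : ℝ) * (Tm s m a b * Tm s m a b) =
      ∑ k, ∏ l, (if l = k then h1 s (a l) (b l) * tau s (a l) (b l) ^ 2
        else tau s (a l) (b l) ^ 2) := by
    intro a b
    rw [hd_eq, Finset.sum_mul]
    refine Finset.sum_congr rfl fun k _ => ?_
    rw [Tm_apply, ← Finset.prod_mul_distrib,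
      ← Finset.mul_prod_erase Finset.univ _ (Finset.mem_univ k),
      ← Finset.mul_prod_erase Finset.univ (fun l => (if l = k then
        h1 s (a l) (b l) * tau s (a l) (b l) ^ 2 else tau s (a l) (b l) ^ 2)) (Finset.mem_univ k),
      if_pos rfl]
    have h2 : ∏ l ∈ Finset.univ.erase k, (if l = k then h1 s (a l) (b l) * tau s (a l) (b l) ^ 2
        else tau s (a l) (b l) ^ 2) =
        ∏ l ∈ Finset.univ.erase k, (tau s (a l) (b l) * tau s (a l) (b l)) := by
      refine Finset.prod_congr rfl fun l hl => ?_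
      rw [Finset.mem_erase] at hl
      rw [if_neg hl.1, sq]
    rw [h2]
    ring
  simp_rw [h]
  have h3 : ∀ a : Fin m → Ω, ∑ b : Fin m → Ω, ∑ k, ∏ l, (if l = k then
      h1 s (a l) (b l) * tau s (a l) (b l) ^ 2 else tau s (a l) (b l) ^ 2) =
      ∑ k, ∑ b : Fin m → Ω, ∏ l, (if l = k then
      h1 s (a l) (b l) * tau s (a l) (b l) ^ 2 else tau s (a l) (b l) ^ 2) :=
    fun a => Finset.sum_comm
  simp_rw [h3]
  rw [Finset.sum_comm]
  have h4 : ∀ k : Fin m, ∑ a : Fin m → Ω, ∑ b : Fin m → Ω, ∏ l, (if l = k then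
      h1 s (a l) (b l) * tau s (a l) (b l) ^ 2 else tau s (a l) (b l) ^ 2) = s.E ff := by
    intro k
    rw [sum_prod2 fun l o o' => (if l = k then h1 s o o' * tau s o o' ^ 2 else tau s o o' ^ 2),
      ← Finset.mul_prod_erase Finset.univ _ (Finset.mem_univ k)]
    have h5 : ∏ l ∈ Finset.univ.erase k, ∑ o, ∑ o', (if l = k then h1 s o o' * tau s o o' ^ 2
        else tau s o o' ^ 2) = 1 := by
      refine Finset.prod_eq_one fun l hl => ?_
      rw [Finset.mem_erase] at hl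
      simp only [hl.1, if_false]
      exact tau_sq_sum s
    rw [h5, mul_one]
    simp only [if_true]
    exact h1_sum s
  simp_rw [h4]
  rw [Finset.sum_const, Finset.card_univ, Fintype.card_fin, nsmul_eq_mul]

lemma Tm_energy (s : Site Ω G2) :
    hs (Tm s m) (Ad (bG s.pos) (Tm s m)) = 2 * m * (1 - s.E ff) := by
  have h0 : hs (Tm s m) (Ad (bG s.pos) (Tm s m)) =
      (nb (Fin 2) m : ℝ) * hs (Tm s m) (Tm s m) -
      2 * ∑ a : Fin m → Ω, ∑ b : Fin m → Ω,
        (hd (bG s.pos) a b : ℝ) * (Tm s m a b * Tm s m a b) := by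
    unfold hs Ad
    simp only [Finset.mul_sum, ← Finset.sum_sub_distrib, Matrix.of_apply]
    exact Finset.sum_congr rfl fun _ _ => Finset.sum_congr rfl fun _ _ => by ring
  rw [h0, Tm_hs, Tm_hd]
  unfold nb
  rw [Fintype.card_fin]
  push_cast
  ring

end prod

theorem st : S7_st := by
  intro Ω _ _ s m
  exact ⟨Tm_psd s, Tm_inv s, Tm_mul s, Tm_hs s, Tm_energy s⟩

end Pool.Agent.TH41.BL.ST7f
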