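import Mathlib
import Pool.Agent.TH41.BL.Stm7

set_option autoImplicit false

open MeasureTheory Filter Topology

namespace Pool.Agent.TH41.BL.UP7f

open Pool.Agent.TH41.BL

theorem up7 (ha : S7_asm) (hs : S7_short) : S7_up := by
  intro Ω _ _ s δ hδ hδ1 hE ε hε
  have hlog : 0 < Real.log 2 := Real.log_pos (by norm_num)
  set Φ : ℝ := 2 * Real.log 2 - (s.h - s.S) with hΦ
  have hθ : (1 - (s.h - s.S) / (2 * Real.log 2)) * (2 * Real.log 2) = Φ := by
    rw [hΦ]; field_simp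
  set θ : ℝ := 1 - (s.h - s.S) / (2 * Real.log 2) with hθd
  set ε' : ℝ := ε * Real.log 2 with hε'
  have hε'0 : 0 < ε' := by positivity
  set δ' : ℝ := (s.E TH753.FF.ff / 2 + δ) / 2 with hδ'
  have h1 : s.E TH753.FF.ff < 2 * δ' := by rw [hδ']; linarith
  have h2 : δ' < δ := by rw [hδ']; linarith
  obtain ⟨m1, hm1⟩ := ha Ω s δ ε' hE hε'0
  obtain ⟨m2, hm2⟩ := ha Ω s δ' ε' h1 hε'0
  obtain ⟨n1, hn1⟩ := exists_nat_gt (δ' / (δ - δ'))
  obtain ⟨n2, hn2⟩ := exists_nat_gt ((Φ + ε') / ε')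
  refine ⟨max (2 * m1) (max (2 * m2) (max n1 n2)), fun n hn d hd => ?_⟩
  have hn_1 : 2 * m1 ≤ n := le_trans (le_max_left _ _) hn
  have hn_2 : 2 * m2 ≤ n := le_trans (le_trans (le_max_left _ _) (le_max_right _ _)) hn
  have hn_3 : n1 ≤ n := le_trans (le_trans (le_trans (le_max_left _ _) (le_max_right _ _))
    (le_max_right _ _)) hn
  have hn_4 : n2 ≤ n := le_trans (le_trans (le_trans (le_max_right _ _) (le_max_right _ _))
    (le_max_right _ _)) hn
  have hexp : (2 : ℝ) ^ ((θ + ε) * n) = Real.exp (n * (Φ / 2 + ε')) := by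
    rw [Real.rpow_def_of_pos (by norm_num)]
    congr 1
    have : Φ / 2 = θ * Real.log 2 := by rw [← hθ]; ring
    rw [this, hε']
    ring
  rcases Nat.even_or_odd' n with ⟨m, hm | hm⟩
  · subst hm
    have hd' : δ * (2 * m) ≤ d := by
      have := hd
      push_cast at this
      exact this
    have hmm : m1 ≤ m := by omega
    have hmR : (0 : ℝ) ≤ m := Nat.cast_nonneg m
    obtain ⟨l, hl, hV⟩ := hm1 m hmm (min d (2 * m)) (by
      rw [Nat.cast_min]
      refine le_min hd' ?_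
      push_cast
      nlinarith) (min_le_right _ _)
    refine ⟨l, hs.1 _ _ _ l (min_le_left _ _) hl, hV.trans ?_⟩
    refine mul_le_mul_of_nonneg_right ?_ hl.2.1.le
    rw [hexp]
    refine Real.exp_le_exp.mpr ?_
    push_cast
    have : (0 : ℝ) ≤ m * ε' := by positivity
    nlinarith
  · have hmm : m2 ≤ m + 1 := by omega
    have hnR : (n : ℝ) = 2 * m + 1 := by rw [hm]; push_cast; ring
    have hmR : (0 : ℝ) ≤ m := Nat.cast_nonneg m
    have hn1R : δ' / (δ - δ') < n := lt_of_lt_of_le hn1 (by exact_mod_cast hn_3)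
    have hn2R : (Φ + ε') / ε' < n := lt_of_lt_of_le hn2 (by exact_mod_cast hn_4)
    rw [div_lt_iff₀ (by linarith)] at hn1R
    rw [div_lt_iff₀ hε'0] at hn2R
    have e2 : 2 * (m + 1) = n + 1 := by omega
    obtain ⟨l, hl, hV⟩ := hm2 (m + 1) hmm (min d (2 * (m + 1))) (by
      rw [Nat.cast_min]
      refine le_min ?_ ?_
      · refine le_trans ?_ hd
        push_cast
        nlinarith
      · push_cast
        nlinarith) (min_le_right _ _)
    rw [e2] at hl hV
    have hl2 := hs.1 _ _ _ l (min_le_left _ _) hl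
    obtain ⟨l', hl', hV'⟩ := hs.2 n d l hl2
    refine ⟨l', hl', ?_⟩
    have hl0 : 0 < l 0 := hl.2.1
    have hl'0 : 0 < l' 0 := hl'.2.1
    have h3 : Vl n l' * l 0 ≤ (Real.exp (n * (Φ / 2 + ε')) * l' 0) * l 0 := by
      refine hV'.trans ?_
      have : Real.exp (((m + 1 : ℕ) : ℝ) * (Φ + ε')) ≤ Real.exp (n * (Φ / 2 + ε')) := by
        refine Real.exp_le_exp.mpr ?_
        push_cast
        rw [hnR] at hn2R ⊢
        nlinarith
      calc Vl (n + 1) l * l' 0 ≤ (Real.exp (((m + 1 : ℕ) : ℝ) * (Φ + ε')) * l 0) * l' 0 :=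
            mul_le_mul_of_nonneg_right hV hl'0.le
        _ ≤ (Real.exp (n * (Φ / 2 + ε')) * l 0) * l' 0 :=
            mul_le_mul_of_nonneg_right (mul_le_mul_of_nonneg_right this hl0.le) hl'0.le
        _ = _ := by ring
    rw [hexp]
    exact le_of_mul_le_mul_right h3 hl0

end Pool.Agent.TH41.BL.UP7f
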