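import Mathlib
import Pool.Agent.TH41.BL.ASMG
import Pool.Agent.TH41.BL.EK5
import Pool.Agent.TH41.BL.Stm8
import Pool.Agent.TH41.BL.DM7
import Pool.Agent.TH41.BL.EN7
import Pool.Agent.TH41.BL.LO7
import Pool.Agent.TH41.BL.TP7
import Pool.Agent.TH41.BL.PO7
import Pool.Agent.TH41.BL.AB7
import Pool.Agent.TH41.BL.MX7
import Pool.Agent.TH41.BL.RY7
import Pool.Agent.TH41.BL.CH7
import Pool.Agent.TH41.BL.CE7
import Pool.Agent.TH41.BL.SH7
import Pool.Agent.TH41.BL.TY7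
import Pool.Agent.TH41.BL.PS7
import Pool.Agent.TH41.BL.ST7
import Pool.Agent.TH41.BL.AS7
import Pool.Agent.TH41.BL.UP7
import Pool.Agent.TH41.BL.CL7
import Pool.Agent.TH41.BL.CV7
import Pool.Agent.TH41.BL.FIN

set_option autoImplicit false

namespace Pool.Agent.TH41.BL

theorem k6_ek : S6_ek := EK5f.ek k3_w k5_kd k5_wn k6_ke k6_sd k6_zd
theorem k6_fi : S6_fi := FI5f.fi5 k6_ke k6_ek
theorem k7_dim : S7_dim := DM7f.dm
theorem k7_env : S7_env := EN7f.en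
theorem k7_low : S7_low := LO7f.lo
theorem k7_top : S7_top := TP7f.tp
theorem k7_pos : S7_pos := PO7f.po
theorem k7_abs : S7_abs := AB7f.ab7
theorem k7_max : S7_max := MX7f.mx
theorem k7_ray : S7_ray := RY7f.ry k7_pos k7_abs k7_max
theorem k7_chr : S7_chr := CH7f.ch
theorem k7_cert : S7_cert := CE7f.ce k7_pos k7_chr
theorem k7_short : S7_short := SH7f.sh
theorem k7_typ : S7_typ := TY7f.ty
theorem k7_ps : S7_ps := PS7f.ps
theorem k7_st : S7_st := ST7f.st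
theorem k7_asm : S7_asm := AS7f.as7 k7_dim k7_env k7_low k7_top k7_pos k7_ray k7_cert k7_typ k7_ps k7_st
theorem k7_up : S7_up := UP7f.up7 k7_asm k7_short
theorem k7_clo : S7_clo := CL7f.cl7 k7_up
theorem k7_cv : S7_cv := CV7f.cv k7_clo

open Pool.Agent.TH41.BL.EFIf

theorem be_one {e : ℝ} (he : 0 < e) : LIMf.Be ((1 - A2s e / As e) / 2) ((1 - Ss e) * Real.log 2) :=
  LIMf.one k3_w k5_wn k5_kd k4_mu k4_val k5_a k5_c k3_fin k6_fi he
theorem be_two {e : ℝ} (he : 0 < e) : LIMf.Be ((1 - B2s e / Bs e) / 2) (Ss e * Real.log 2) :=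
  LIMf.two k3_w k5_wn k5_kd k4_mu k4_val k5_b k5_c k4_fin k6_fi he
theorem be_mid : LIMf.Be (1 / 2 - 1 / Real.pi) (1 / 2 * Real.log 2) := LIMf.middle h_fin

end Pool.Agent.TH41.BL
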