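import Mathlib
import Pool.Agent.TH41.BL.Stm4
import Pool.Agent.TH41.BL.N3B

set_option autoImplicit false

open MeasureTheory Filter Topology

namespace Pool.Agent.TH41.BL.CH4f

open Pool.Agent.TH41.BL

/-- the weight, extended -/
noncomputable def Wt (y : ℝ) : ℝ := WN (max y 0)

lemma Wt_cont (hw : S3_w) : Continuous Wt :=
  hw.1.comp_continuous (continuous_id.max continuous_const) (fun _ => Set.mem_Ici.2 (le_max_right _ _))

lemma Wt_pos (hw : S3_w) (y : ℝ) : 0 < Wt y := (hw.2.1 _ (le_max_right _ _)).1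

lemma Wt_eq {y : ℝ} (hy : 0 ≤ y) : Wt y = WN y := by
  unfold Wt
  rw [max_eq_left hy]

/-- the continuous kernel -/
noncomputable def GK (θ y : ℝ) : ℝ := Wt y / √(1 + max y 0 * Real.sin θ ^ 2)

lemma GK_den (θ y : ℝ) : 0 < 1 + max y 0 * Real.sin θ ^ 2 := by
  have h1 : 0 ≤ max y 0 := le_max_right _ _
  positivity

lemma GK_cont (hw : S3_w) : Continuous (Function.uncurry GK) := by
  have h1 : Function.uncurry GK = fun p : ℝ × ℝ =>
      Wt p.2 / √(1 + max p.2 0 * Real.sin p.1 ^ 2) := rfl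
  rw [h1]
  refine Continuous.div ((Wt_cont hw).comp continuous_snd) ?_ ?_
  · fun_prop
  · intro p
    exact (Real.sqrt_pos.2 (GK_den _ _)).ne'

lemma GK_nonneg (hw : S3_w) (θ y : ℝ) : 0 ≤ GK θ y :=
  div_nonneg (Wt_pos hw y).le (Real.sqrt_nonneg _)

lemma GK_meas (hw : S3_w) :
    Measurable (Function.uncurry fun y θ : ℝ => ENNReal.ofReal (GK θ y)) := by
  have h1 : (Function.uncurry fun y θ : ℝ => ENNReal.ofReal (GK θ y)) =
      fun p : ℝ × ℝ => ENNReal.ofReal (Function.uncurry GK (p.2, p.1)) := rfl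
  have h2 : Continuous (fun p : ℝ × ℝ => Function.uncurry GK (p.2, p.1)) :=
    (GK_cont hw).comp (continuous_snd.prodMk continuous_fst)
  rw [h1]
  exact h2.measurable.ennreal_ofReal

/-- the inner integral -/
noncomputable def BK (m θ : ℝ) : ℝ := ∫ y in (0 : ℝ)..m, GK θ y

lemma BK_cont (hw : S3_w) (m : ℝ) : Continuous (BK m) :=
  intervalIntegral.continuous_parametric_intervalIntegral_of_continuous' (GK_cont hw) 0 m

lemma BK_neg (m θ : ℝ) : BK m (-θ) = BK m θ := by
  unfold BK GK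
  simp only [Real.sin_neg, neg_sq]

lemma BK_nonneg (hw : S3_w) {m : ℝ} (hm : 0 < m) (θ : ℝ) : 0 ≤ BK m θ :=
  intervalIntegral.integral_nonneg hm.le fun y _ => GK_nonneg hw θ y

/-- the right side -/
lemma rhs (hw : S3_w) {m : ℝ} (hm : 0 < m) :
    Real.pi / 2 * Nbar m = ∫ θ in (0 : ℝ)..(Real.pi / 2), BK m θ := by
  have h1 : ∀ φ : ℝ, (Nf m (φ * Complex.I)).re = BK m (Real.pi / 2 - φ) := by
    intro φ
    rw [N3Bf.Nf_real m hm ((φ : ℂ) * Complex.I) (Real.cos φ ^ 2) (sq_nonneg _)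
      (by rw [Complex.cosh_mul_I]; push_cast; rfl), Complex.ofReal_re]
    unfold BK GK
    refine intervalIntegral.integral_congr fun y hy => ?_
    rw [Set.uIcc_of_le hm.le] at hy
    rw [Wt_eq hy.1, max_eq_left hy.1, Real.sin_pi_div_two_sub]
  unfold Nbar
  simp only [h1]
  rw [intervalIntegral.integral_comp_sub_left (fun x => BK m x) (Real.pi / 2)]
  have h2 : Real.pi / 2 - Real.pi = -(Real.pi / 2) := by ring
  rw [h2, sub_zero]
  have h3 := intervalIntegral.integral_add_adjacent_intervals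
    (μ := volume) (f := BK m) (a := -(Real.pi / 2)) (b := 0) (c := Real.pi / 2)
    ((BK_cont hw m).intervalIntegrable _ _) ((BK_cont hw m).intervalIntegrable _ _)
  have h4 : ∫ x in (-(Real.pi / 2))..(0 : ℝ), BK m x = ∫ x in (0 : ℝ)..(Real.pi / 2), BK m x := by
    have h5 := intervalIntegral.integral_comp_neg (a := 0) (b := Real.pi / 2) (fun x => BK m x)
    rw [neg_zero] at h5
    rw [← h5]
    simp only [BK_neg]
  rw [← h3, h4]
  have hpi := Real.pi_pos.ne'
  field_simp
  ring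

/-- the set integral over an open interval of a continuous function -/
lemma lint_Ioo {f : ℝ → ℝ} (hf : Continuous f) (h0 : ∀ x, 0 ≤ f x) {a b : ℝ} (hab : a ≤ b) :
    ∫⁻ x in Set.Ioo a b, ENNReal.ofReal (f x) = ENNReal.ofReal (∫ x in a..b, f x) := by
  rw [intervalIntegral.integral_of_le hab, setLIntegral_congr Ioo_ae_eq_Ioc]
  rw [ofReal_integral_eq_lintegral_ofReal]
  · exact (hf.integrableOn_Icc).mono_set Set.Ioc_subset_Icc_self
  · exact Eventually.of_forall h0

/-- the substitution -/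
lemma inner {y c : ℝ} (hy : 0 < y) :
    ∫⁻ u in Set.Ioo 0 (Real.arsinh (√y) / 2),
      ENNReal.ofReal (2 * c / √(y - Real.sinh (2 * u) ^ 2)) =
      ∫⁻ θ in Set.Ioo 0 (Real.pi / 2), ENNReal.ofReal (c / √(1 + y * Real.sin θ ^ 2)) := by
  have hsy : 0 < √y := Real.sqrt_pos.2 hy
  have hsy2 : √y ^ 2 = y := Real.sq_sqrt hy.le
  set U : ℝ → ℝ := fun θ => Real.arsinh (√y * Real.sin θ) / 2 with hU
  have himg : U '' Set.Ioo 0 (Real.pi / 2) = Set.Ioo 0 (Real.arsinh (√y) / 2) := by
    ext u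
    constructor
    · rintro ⟨θ, hθ, rfl⟩
      have h1 : 0 < Real.sin θ := Real.sin_pos_of_pos_of_lt_pi hθ.1 (by linarith [hθ.2, Real.pi_pos])
      have h2 : Real.sin θ < 1 := by
        have := Real.sin_lt_sin_of_lt_of_le_pi_div_two (x := θ) (y := Real.pi / 2)
          (by linarith [hθ.1, Real.pi_pos]) le_rfl hθ.2
        rwa [Real.sin_pi_div_two] at this
      have h3 : 0 < Real.arsinh (√y * Real.sin θ) := Real.arsinh_pos_iff.2 (by positivity)
      have h4 : Real.arsinh (√y * Real.sin θ) < Real.arsinh (√y) :=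
        Real.arsinh_lt_arsinh.2 (by nlinarith)
      exact ⟨by simp only [hU]; linarith, by simp only [hU]; linarith⟩
    · rintro ⟨h1, h2⟩
      have h3 : 0 < Real.sinh (2 * u) := Real.sinh_pos_iff.2 (by linarith)
      have h4 : Real.sinh (2 * u) < √y := by
        have : Real.sinh (2 * u) < Real.sinh (Real.arsinh (√y)) :=
          Real.sinh_lt_sinh.2 (by linarith)
        rwa [Real.sinh_arsinh] at this
      have h5 : Real.sinh (2 * u) / √y < 1 := by rwa [div_lt_one hsy]
      have h6 : 0 < Real.sinh (2 * u) / √y := by positivity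
      refine ⟨Real.arcsin (Real.sinh (2 * u) / √y), ⟨Real.arcsin_pos.2 h6,
        Real.arcsin_lt_pi_div_two.2 h5⟩, ?_⟩
      simp only [hU]
      rw [Real.sin_arcsin (by linarith) h5.le, mul_div_cancel₀ _ hsy.ne', Real.arsinh_sinh]
      ring
  have hinj : Set.InjOn U (Set.Ioo 0 (Real.pi / 2)) := by
    intro a ha b hb hab
    simp only [hU] at hab
    have h1 : Real.arsinh (√y * Real.sin a) = Real.arsinh (√y * Real.sin b) := by linarith
    have h2 := Real.arsinh_injective h1
    have h3 : Real.sin a = Real.sin b := mul_left_cancel₀ hsy.ne' h2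
    exact Real.injOn_sin ⟨by linarith [ha.1, Real.pi_pos], ha.2.le⟩
      ⟨by linarith [hb.1, Real.pi_pos], hb.2.le⟩ h3
  have hder : ∀ θ ∈ Set.Ioo 0 (Real.pi / 2), HasDerivWithinAt U
      ((√(1 + (√y * Real.sin θ) ^ 2))⁻¹ * (√y * Real.cos θ) / 2) (Set.Ioo 0 (Real.pi / 2)) θ := by
    intro θ _
    have h1 : HasDerivAt (fun θ => √y * Real.sin θ) (√y * Real.cos θ) θ :=
      (Real.hasDerivAt_sin θ).const_mul _
    exact ((h1.arsinh).div_const 2).hasDerivWithinAt
  rw [← himg, lintegral_image_eq_lintegral_abs_deriv_mul measurableSet_Ioo hder hinj]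
  refine setLIntegral_congr_fun measurableSet_Ioo fun θ hθ => ?_
  have hcos : 0 < Real.cos θ := Real.cos_pos_of_mem_Ioo ⟨by linarith [hθ.1, Real.pi_pos], hθ.2⟩
  have h1 : Real.sinh (2 * U θ) = √y * Real.sin θ := by
    simp only [hU]
    rw [mul_div_cancel₀ _ (two_ne_zero), Real.sinh_arsinh]
  have h2 : y - (√y * Real.sin θ) ^ 2 = (√y * Real.cos θ) ^ 2 := by
    have := Real.sin_sq_add_cos_sq θ
    rw [mul_pow, mul_pow, hsy2]
    linear_combination (-y) * this
  have h3 : (√y * Real.sin θ) ^ 2 = y * Real.sin θ ^ 2 := by rw [mul_pow, hsy2]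
  have h4 : 0 < 1 + y * Real.sin θ ^ 2 := by positivity
  have h5 : 0 < √(1 + y * Real.sin θ ^ 2) := Real.sqrt_pos.2 h4
  rw [h1, h2, Real.sqrt_sq (by positivity), h3, abs_of_pos (by positivity),
    ← ENNReal.ofReal_mul (by positivity)]
  congr 1
  field_simp

/-- the kernel of the left side -/
noncomputable def kk (u y : ℝ) : ENNReal :=
  open Classical in if Real.sinh (2 * u) ^ 2 < y then
    ENNReal.ofReal (2 * Wt y / √(y - Real.sinh (2 * u) ^ 2)) else 0

lemma kk_meas (hw : S3_w) : Measurable (Function.uncurry kk) := by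
  have h1 : Function.uncurry kk = fun p : ℝ × ℝ => kk p.1 p.2 := rfl
  rw [h1]
  unfold kk
  have h0 := (Wt_cont hw).measurable
  refine Measurable.ite (measurableSet_lt ?_ measurable_snd) ?_ measurable_const
  · exact ((Real.measurable_sinh.comp (measurable_fst.const_mul 2)).pow_const 2)
  · refine ENNReal.measurable_ofReal.comp ?_
    refine ((h0.comp measurable_snd).const_mul 2).div ?_
    refine Real.continuous_sqrt.measurable.comp (measurable_snd.sub ?_)
    exact ((Real.measurable_sinh.comp (measurable_fst.const_mul 2)).pow_const 2)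

/-- the inner integral on the left side -/
lemma left_inner {m u : ℝ} (hu : Real.sinh (2 * u) ^ 2 < m) :
    ∫⁻ y in Set.Ioo 0 m, kk u y = ∫⁻ y in Set.Ioc (Real.sinh (2 * u) ^ 2) m,
      ENNReal.ofReal (2 * Wt y / √(y - Real.sinh (2 * u) ^ 2)) := by
  have h1 : ∀ y, kk u y = (Set.Ioi (Real.sinh (2 * u) ^ 2)).indicator
      (fun y => ENNReal.ofReal (2 * Wt y / √(y - Real.sinh (2 * u) ^ 2))) y := by
    intro y
    unfold kk
    by_cases h : Real.sinh (2 * u) ^ 2 < y
    · rw [if_pos h, Set.indicator_of_mem (by exact h)]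
    · rw [if_neg h, Set.indicator_of_notMem (by exact h)]
  simp only [h1]
  rw [lintegral_indicator measurableSet_Ioi, Measure.restrict_restrict measurableSet_Ioi,
    ← setLIntegral_congr (Ioo_ae_eq_Ioc (a := Real.sinh (2 * u) ^ 2) (b := m))]
  congr 2
  ext y
  have h2 := sq_nonneg (Real.sinh (2 * u))
  simp only [Set.mem_inter_iff, Set.mem_Ioi, Set.mem_Ioo]
  constructor
  · rintro ⟨h3, h4, h5⟩
    exact ⟨h3, h5⟩
  · rintro ⟨h3, h4⟩
    exact ⟨h3, by linarith, h4⟩

/-- the real inner integral -/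
lemma left_real (hw : S3_w) {m u : ℝ} (hu : Real.sinh (2 * u) ^ 2 < m) :
    THR (Real.sinh (2 * u) ^ 2) m / Real.cosh (2 * u) = (∫⁻ y in Set.Ioo 0 m, kk u y).toReal := by
  have hc : 0 < Real.cosh (2 * u) := Real.cosh_pos _
  have h1 : √(1 + Real.sinh (2 * u) ^ 2) = Real.cosh (2 * u) := by
    have h2 : 1 + Real.sinh (2 * u) ^ 2 = Real.cosh (2 * u) ^ 2 := by
      rw [Real.cosh_sq]
      ring
    rw [h2, Real.sqrt_sq hc.le]
  unfold THR
  rw [h1, mul_div_cancel_left₀ _ hc.ne', left_inner hu, intervalIntegral.integral_of_le hu.le]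
  have h3 : ∫ y in Set.Ioc (Real.sinh (2 * u) ^ 2) m, 2 * WN y / √(y - Real.sinh (2 * u) ^ 2) =
      ∫ y in Set.Ioc (Real.sinh (2 * u) ^ 2) m, 2 * Wt y / √(y - Real.sinh (2 * u) ^ 2) := by
    refine setIntegral_congr_fun measurableSet_Ioc fun y hy => ?_
    have h4 : 0 ≤ y := (sq_nonneg _).trans hy.1.le
    rw [Wt_eq h4]
  rw [h3, integral_eq_lintegral_of_nonneg_ae]
  · refine Eventually.of_forall fun y => ?_
    have := Wt_pos hw y
    simp only [Pi.zero_apply]
    positivity
  · have h0 := (Wt_cont hw).measurable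
    refine Measurable.aestronglyMeasurable ?_
    exact (h0.const_mul 2).div (Real.continuous_sqrt.measurable.comp (measurable_id.sub_const _))

/-- the integral in the other order -/
lemma right_inner {m y : ℝ} (hy : 0 < y) (hym : y < m) :
    ∫⁻ u in Set.Ioo 0 (Real.arsinh (√m) / 2), kk u y =
      ∫⁻ θ in Set.Ioo 0 (Real.pi / 2), ENNReal.ofReal (GK θ y) := by
  have h1 : ∀ u, kk u y = ({u : ℝ | Real.sinh (2 * u) ^ 2 < y}).indicator
      (fun u => ENNReal.ofReal (2 * Wt y / √(y - Real.sinh (2 * u) ^ 2))) u := by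
    intro u
    unfold kk
    by_cases h : Real.sinh (2 * u) ^ 2 < y
    · rw [if_pos h, Set.indicator_of_mem (by exact h)]
    · rw [if_neg h, Set.indicator_of_notMem (by exact h)]
  have hms : MeasurableSet {u : ℝ | Real.sinh (2 * u) ^ 2 < y} :=
    measurableSet_lt ((Real.measurable_sinh.comp (measurable_id.const_mul 2)).pow_const 2)
      measurable_const
  simp only [h1]
  rw [lintegral_indicator hms, Measure.restrict_restrict hms]
  have h2 : {u : ℝ | Real.sinh (2 * u) ^ 2 < y} ∩ Set.Ioo 0 (Real.arsinh (√m) / 2) =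
      Set.Ioo 0 (Real.arsinh (√y) / 2) := by
    ext u
    simp only [Set.mem_inter_iff, Set.mem_setOf_eq, Set.mem_Ioo]
    have h3 : Real.arsinh (√y) < Real.arsinh (√m) :=
      Real.arsinh_lt_arsinh.2 (Real.sqrt_lt_sqrt hy.le hym)
    constructor
    · rintro ⟨h4, h5, h6⟩
      refine ⟨h5, ?_⟩
      have h7 : 0 < Real.sinh (2 * u) := Real.sinh_pos_iff.2 (by linarith)
      have h8 : Real.sinh (2 * u) < √y := (Real.lt_sqrt h7.le).2 h4
      have h9 : 2 * u < Real.arsinh (√y) := by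
        rw [← Real.arsinh_sinh (2 * u)]
        exact Real.arsinh_lt_arsinh.2 h8
      linarith
    · rintro ⟨h4, h5⟩
      have h7 : 0 < Real.sinh (2 * u) := Real.sinh_pos_iff.2 (by linarith)
      have h8 : Real.sinh (2 * u) < √y := by
        have : Real.sinh (2 * u) < Real.sinh (Real.arsinh (√y)) :=
          Real.sinh_lt_sinh.2 (by linarith)
        rwa [Real.sinh_arsinh] at this
      exact ⟨(Real.lt_sqrt h7.le).1 h8, h4, by linarith⟩
  rw [h2, inner hy]
  unfold GK
  rw [max_eq_left hy.le]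

set_option maxHeartbeats 400000 in
theorem chi (hw : S3_w) (hb : S3_nb) : S4_chi := by
  intro m hm
  have hpi := Real.pi_pos
  set T : ℝ := Real.arsinh (√m) / 2 with hT
  have hT0 : 0 < T := by
    have : 0 < Real.arsinh (√m) := Real.arsinh_pos_iff.2 (Real.sqrt_pos.2 hm)
    linarith
  have hmeas := kk_meas hw
  -- the double integral
  have hD : ∫⁻ u in Set.Ioo 0 T, ∫⁻ y in Set.Ioo 0 m, kk u y =
      ENNReal.ofReal (∫ θ in (0 : ℝ)..(Real.pi / 2), BK m θ) := by
    have hsw0 := lintegral_lintegral_swap (μ := volume.restrict (Set.Ioo 0 T))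
      (ν := volume.restrict (Set.Ioo 0 m)) (f := kk) hmeas.aemeasurable
    rw [hsw0]
    have h1 : ∫⁻ y in Set.Ioo 0 m, ∫⁻ u in Set.Ioo 0 T, kk u y =
        ∫⁻ y in Set.Ioo 0 m, ∫⁻ θ in Set.Ioo 0 (Real.pi / 2), ENNReal.ofReal (GK θ y) :=
      setLIntegral_congr_fun measurableSet_Ioo fun y hy => right_inner hy.1 hy.2
    have hsw := lintegral_lintegral_swap (μ := volume.restrict (Set.Ioo 0 m))
      (ν := volume.restrict (Set.Ioo 0 (Real.pi / 2)))
      (f := fun y θ : ℝ => ENNReal.ofReal (GK θ y)) (GK_meas hw).aemeasurable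
    rw [h1, hsw]
    · have h2 : ∀ θ, ∫⁻ y in Set.Ioo 0 m, ENNReal.ofReal (GK θ y) = ENNReal.ofReal (BK m θ) := by
        intro θ
        exact lint_Ioo ((GK_cont hw).comp (Continuous.prodMk_right θ)) (GK_nonneg hw θ) hm.le
      simp only [h2]
      exact lint_Ioo (BK_cont hw m) (BK_nonneg hw hm) (by positivity)
  rw [rhs hw hm]
  unfold chi4
  rw [← hT, intervalIntegral.integral_of_le hT0.le, integral_Ioc_eq_integral_Ioo]
  have h3 : ∫ u in Set.Ioo 0 T, THR (Real.sinh (2 * u) ^ 2) m / Real.cosh (2 * u) =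
      ∫ u in Set.Ioo 0 T, (∫⁻ y in Set.Ioo 0 m, kk u y).toReal := by
    refine setIntegral_congr_fun measurableSet_Ioo fun u hu => ?_
    refine left_real hw ?_
    have h7 : 0 < Real.sinh (2 * u) := Real.sinh_pos_iff.2 (by linarith [hu.1])
    have h8 : Real.sinh (2 * u) < √m := by
      have : Real.sinh (2 * u) < Real.sinh (Real.arsinh (√m)) :=
        Real.sinh_lt_sinh.2 (by linarith [hu.2])
      rwa [Real.sinh_arsinh] at this
    exact (Real.lt_sqrt h7.le).1 h8
  have hF : Measurable fun u => ∫⁻ y in Set.Ioo 0 m, kk u y := hmeas.lintegral_prod_right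
  rw [h3, integral_toReal hF.aemeasurable, hD, ENNReal.toReal_ofReal]
  · exact intervalIntegral.integral_nonneg (by positivity) fun θ _ => BK_nonneg hw hm θ
  · refine ae_lt_top hF ?_
    rw [hD]
    exact ENNReal.ofReal_ne_top

end Pool.Agent.TH41.BL.CH4f
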