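import Mathlib
import Pool.Agent.TH41.BL.Stm

set_option autoImplicit false

open MeasureTheory Filter Topology

namespace Pool.Agent.TH41.BL.DLAf

open Pool.Agent.TH41.BL

open Pool.Agent.TH41.LP (WW)

lemma cos_pt (t : ℝ) : Complex.cos ((Real.pi / 4 : ℝ) + t * Complex.I) =
    ((√2 / 2 * Real.cosh t : ℝ) : ℂ) - ((√2 / 2 * Real.sinh t : ℝ) : ℂ) * Complex.I := by
  rw [Complex.cos_add, Complex.cos_mul_I, Complex.sin_mul_I, ← Complex.ofReal_cos,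
    ← Complex.ofReal_sin, Real.cos_pi_div_four, Real.sin_pi_div_four]
  push_cast
  ring

lemma sin_pt (t : ℝ) : Complex.sin ((Real.pi / 4 : ℝ) + t * Complex.I) =
    ((√2 / 2 * Real.cosh t : ℝ) : ℂ) + ((√2 / 2 * Real.sinh t : ℝ) : ℂ) * Complex.I := by
  rw [Complex.sin_add, Complex.cos_mul_I, Complex.sin_mul_I, ← Complex.ofReal_cos,
    ← Complex.ofReal_sin, Real.cos_pi_div_four, Real.sin_pi_div_four]
  push_cast
  ring

lemma sq2 : √2 * √2 = (2 : ℝ) := Real.mul_self_sqrt (by norm_num)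

lemma norm_add_sub (t : ℝ) (z : ℂ) (a b : ℝ) (ha : a = √2 / 2 * Real.cosh t)
    (hb : b = √2 / 2 * Real.sinh t ∨ b = -(√2 / 2 * Real.sinh t))
    (hz : z = (a : ℂ) + (b : ℂ) * Complex.I) : ‖2 * z / (√2 : ℝ)‖ = √(Real.cosh (2 * t)) := by
  have h2 : (0 : ℝ) ≤ ‖2 * z / (√2 : ℝ)‖ := norm_nonneg _
  rw [← Real.sqrt_sq h2]
  congr 1
  have h3 : ‖z‖ ^ 2 = a ^ 2 + b ^ 2 := by
    rw [hz, ← Complex.normSq_eq_norm_sq, Complex.normSq_add_mul_I]
  have h4 : ‖(2 : ℂ) * z / (√2 : ℝ)‖ ^ 2 = 2 * ‖z‖ ^ 2 := by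
    rw [norm_div, norm_mul, div_pow, mul_pow]
    have e1 : ‖((√2 : ℝ) : ℂ)‖ ^ 2 = 2 := by
      rw [Complex.norm_real, Real.norm_of_nonneg (Real.sqrt_nonneg 2)]
      exact Real.sq_sqrt (by norm_num)
    have e2 : ‖(2 : ℂ)‖ = 2 := by simp
    rw [e1, e2]
    ring
  rw [h4, h3, ha]
  have hb2 : b ^ 2 = (√2 / 2 * Real.sinh t) ^ 2 := by
    rcases hb with h | h <;> rw [h]
    ring
  rw [hb2, Real.cosh_two_mul]
  have := sq2
  nlinarith [this]

theorem dl (h : S_lam) : S_dl := by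
  obtain ⟨_, _, _, h4, h5⟩ := h
  intro n j hj t
  obtain ⟨s, hs⟩ : ∃ s : ℂ, s = (Real.pi / 4 : ℝ) + t * Complex.I := ⟨_, rfl⟩
  rw [← hs]
  have hc : Complex.cos s = ((√2 / 2 * Real.cosh t : ℝ) : ℂ) +
      ((-(√2 / 2 * Real.sinh t) : ℝ) : ℂ) * Complex.I := by
    rw [hs, cos_pt]
    push_cast
    ring
  have hsn : Complex.sin s = ((√2 / 2 * Real.cosh t : ℝ) : ℂ) +
      ((√2 / 2 * Real.sinh t : ℝ) : ℂ) * Complex.I := by
    rw [hs, sin_pt]
  have e1 : AA s + BB s = 2 * Complex.cos s := by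
    unfold AA BB
    ring
  have e2 : AA s - BB s = 2 * Complex.sin s := by
    unfold AA BB
    ring
  have n1 : ‖(AA s + BB s) / (√2 : ℝ)‖ = √(Real.cosh (2 * t)) := by
    rw [e1]
    exact norm_add_sub t _ _ _ rfl (Or.inr rfl) hc
  have n2 : ‖(AA s - BB s) / (√2 : ℝ)‖ = √(Real.cosh (2 * t)) := by
    rw [e2]
    exact norm_add_sub t _ _ _ rfl (Or.inl rfl) hsn
  have h6 : Lam s = Lam (((-t : ℝ) : ℂ) * Complex.I) := by
    have h7 := h4 (((-t : ℝ) : ℂ) * Complex.I) (by simp; positivity) (by simp; positivity)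
    rw [← h7, hs]
    congr 1
    push_cast
    ring
  have h8 : (Lam s).re = -(1 / 2) * Real.log (Real.cosh (2 * t)) := by
    rw [h6, h5, mul_neg, Real.cosh_neg]
  have hcp : 0 < Real.cosh (2 * t) := Real.cosh_pos _
  have h9 : √(Real.cosh (2 * t)) = Real.exp ((1 / 2) * Real.log (Real.cosh (2 * t))) := by
    rw [Real.sqrt_eq_rpow, Real.rpow_def_of_pos hcp]
    congr 1
    ring
  rw [norm_mul, norm_mul, norm_pow, norm_pow, n1, n2, ← pow_add, Nat.sub_add_cancel hj,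
    Complex.norm_exp, h9, ← Real.exp_nat_mul, ← Real.exp_add]
  rw [show (n : ℂ) * Lam s = ((n : ℝ) : ℂ) * Lam s by norm_cast, Complex.re_ofReal_mul, h8]
  rw [show (n : ℝ) * (1 / 2 * Real.log (Real.cosh (2 * t))) +
    n * (-(1 / 2) * Real.log (Real.cosh (2 * t))) = 0 by ring, Real.exp_zero]

end Pool.Agent.TH41.BL.DLAf
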