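import Mathlib
import Pool.Agent.TH41.BL.Stm3

/-!
# BL3-DUAL: the transform of the test function (job 3406, helper986)

The sum of the statement is an integral of `E K` over a vertical line, with `E = exp (n Ph)` and
`K` the generating function of `f` in `exp (-s)` times the mollified pole.  The contour statement
moves it to the lines where the transform of the kernel is bounded.
-/

set_option autoImplicit false

open MeasureTheory Filter Topology

namespace Pool.Agent.TH41.BL.DU3f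

open Pool.Agent.TH41.BL

/-- the generating function of `f` in `exp (-s)` -/
noncomputable def SS (n : ℕ) (f : ℕ → ℝ) (s : ℂ) : ℂ :=
  ∑ w ∈ Finset.range (n + 1), (n.choose w : ℂ) * Complex.exp (-(w * s)) * (f w : ℂ)

/-- the mollified pole -/
noncomputable def PP (n : ℕ) (ε : ℝ) (s : ℂ) : ℂ := gN n ε s / (Complex.exp s - 1)

theorem NN_nonneg (n : ℕ) (f : ℕ → ℝ) : 0 ≤ NN n f := by
  unfold NN
  exact Finset.sum_nonneg fun j _ => by positivity

theorem sum_bound (hk : S_kra) (m : ℝ) (n : ℕ) (f : ℕ → ℝ) (s : ℂ) (M : ℝ)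
    (hM : ∀ j : ℕ, j ≤ n → Dsn m n j s ≤ M) :
    ‖Complex.exp (n * Ph m s) * SS n f s‖ ≤ M * NN n f := by
  have h1 := hk.1 n f 1 (Complex.exp (-s))
  have h2 : Complex.exp (n * Ph m s) * SS n f s =
      ∑ j ∈ Finset.range (n + 1), (n.choose j : ℂ) * (tr n f j : ℂ) *
        (((1 + Complex.exp (-s)) / (√2 : ℝ)) ^ (n - j) *
          ((1 - Complex.exp (-s)) / (√2 : ℝ)) ^ j * Complex.exp (n * Ph m s)) := by
    have h3 : SS n f s = ∑ w ∈ Finset.range (n + 1),
        (n.choose w : ℂ) * ((1 : ℂ) ^ (n - w) * Complex.exp (-s) ^ w) * (f w : ℂ) := by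
      unfold SS
      refine Finset.sum_congr rfl fun w _ => ?_
      rw [one_pow, one_mul, ← Complex.exp_nat_mul]
      congr 3
      ring
    rw [h3, h1, Finset.mul_sum]
    refine Finset.sum_congr rfl fun j _ => ?_
    ring
  rw [h2]
  refine (norm_sum_le _ _).trans ?_
  unfold NN
  rw [Finset.mul_sum]
  refine Finset.sum_le_sum fun j hj => ?_
  have hj' : j ≤ n := by
    have := Finset.mem_range.1 hj
    omega
  have h4 := hM j hj'
  unfold Dsn at h4
  rw [norm_mul, norm_mul, Complex.norm_real, Real.norm_eq_abs, mul_comm M]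
  have h5 : ‖(n.choose j : ℂ)‖ = (n.choose j : ℝ) := by simp
  rw [h5]
  exact mul_le_mul_of_nonneg_left h4 (by positivity)

theorem SS_shift (n : ℕ) (f : ℕ → ℝ) (s : ℂ) :
    SS n f (s + Real.pi * Complex.I) = SS n (fun w => (-1) ^ w * f w) s := by
  unfold SS
  refine Finset.sum_congr rfl fun w _ => ?_
  have h1 : -((w : ℂ) * (s + Real.pi * Complex.I)) =
      -((w : ℂ) * s) + (w : ℂ) * (-(Real.pi * Complex.I)) := by ring
  have h2 : Complex.exp ((w : ℂ) * (-(Real.pi * Complex.I))) = (-1) ^ w := by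
    rw [Complex.exp_nat_mul, Complex.exp_neg, Complex.exp_pi_mul_I]
    norm_num
  rw [h1, Complex.exp_add, h2]
  push_cast
  ring

theorem SS_period (n : ℕ) (f : ℕ → ℝ) (s : ℂ) :
    SS n f (s + 2 * Real.pi * Complex.I) = SS n f s := by
  unfold SS
  refine Finset.sum_congr rfl fun w _ => ?_
  have h1 : -((w : ℂ) * (s + 2 * Real.pi * Complex.I)) =
      -((w : ℂ) * s) + ((-w : ℤ) : ℂ) * (2 * Real.pi * Complex.I) := by
    push_cast
    ring
  rw [h1, Complex.exp_add, Complex.exp_int_mul_two_pi_mul_I, mul_one]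

theorem SS_diff (n : ℕ) (f : ℕ → ℝ) : Differentiable ℂ (SS n f) := by
  unfold SS
  fun_prop

theorem exp_ne_one (s : ℂ) (hs : 0 < s.re) : Complex.exp s - 1 ≠ 0 := by
  intro h
  have h1 : Complex.exp s = 1 := sub_eq_zero.1 h
  have h2 : ‖Complex.exp s‖ = 1 := by rw [h1]; simp
  rw [Complex.norm_exp] at h2
  have h3 : 1 < Real.exp s.re := Real.one_lt_exp_iff.2 hs
  linarith

theorem PP_diff (n : ℕ) (ε : ℝ) (s : ℂ) (hs : 0 < s.re) : DifferentiableAt ℂ (PP n ε) s := by
  unfold PP gN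
  apply DifferentiableAt.div
  · fun_prop
  · fun_prop
  · exact exp_ne_one s hs

theorem PP_period (n : ℕ) (ε : ℝ) (s : ℂ) : PP n ε (s + 2 * Real.pi * Complex.I) = PP n ε s := by
  unfold PP gN
  have h1 : Complex.exp (s + 2 * Real.pi * Complex.I) = Complex.exp s := by
    rw [Complex.exp_add, Complex.exp_two_pi_mul_I, mul_one]
  rw [Complex.exp_neg (s + 2 * Real.pi * Complex.I), h1, Complex.exp_neg s]

theorem PP_bound (n : ℕ) (ε ρ : ℝ) (hε : 0 < ε) (hρ : 0 < ρ) (s : ℂ) (hs : ρ ≤ s.re) :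
    ‖PP n ε s‖ ≤ Real.exp (-s.re) / (1 - Real.exp (-ρ)) := by
  have hρ1 : 0 < 1 - Real.exp (-ρ) := by
    have : Real.exp (-ρ) < 1 := Real.exp_lt_one_iff.mpr (by linarith)
    linarith
  have h1 : ‖gN n ε s‖ ≤ 1 := by
    unfold gN
    rw [Complex.norm_exp]
    apply Real.exp_le_one_iff.2
    have h2 : ((n : ℂ) * ε * (Complex.exp (-s) - 1)).re = n * ε * ((Complex.exp (-s)).re - 1) := by
      have : (n : ℂ) * ε = ((n * ε : ℝ) : ℂ) := by push_cast; ring
      rw [this, Complex.re_ofReal_mul]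
      simp
    rw [h2]
    have h3 : (Complex.exp (-s)).re ≤ 1 := by
      refine (Complex.re_le_norm _).trans ?_
      rw [Complex.norm_exp]
      apply Real.exp_le_one_iff.2
      simp
      linarith
    have h4 : 0 ≤ (n : ℝ) * ε := by positivity
    nlinarith
  have h5 : Real.exp s.re * (1 - Real.exp (-ρ)) ≤ ‖Complex.exp s - 1‖ := by
    have h6 : ‖Complex.exp s‖ - ‖(1 : ℂ)‖ ≤ ‖Complex.exp s - 1‖ := norm_sub_norm_le _ _
    rw [Complex.norm_exp, norm_one] at h6
    have h7 : 1 ≤ Real.exp s.re * Real.exp (-ρ) := by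
      rw [← Real.exp_add]
      exact Real.one_le_exp (by linarith)
    nlinarith
  unfold PP
  rw [norm_div]
  have h8 : 0 < Real.exp s.re * (1 - Real.exp (-ρ)) := mul_pos (Real.exp_pos _) hρ1
  calc ‖gN n ε s‖ / ‖Complex.exp s - 1‖ ≤ 1 / (Real.exp s.re * (1 - Real.exp (-ρ))) :=
        div_le_div₀ zero_le_one h1 h8 h5
    _ = Real.exp (-s.re) / (1 - Real.exp (-ρ)) := by
        rw [Real.exp_neg s.re, one_div, mul_inv, div_eq_mul_inv]

/-- the bound of `E K` from the bound of the transform of the kernel -/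
theorem EK_bound (hk : S_kra) (m : ℝ) (n : ℕ) (ε ρ θ M : ℝ) (hε : 0 < ε) (hρ : 0 < ρ)
    (hM0 : 0 ≤ M) (f : ℕ → ℝ) (s : ℂ) (hs : ρ ≤ s.re)
    (hM : ∀ j : ℕ, j ≤ n → Dsn m n j s ≤ M) :
    ‖Complex.exp (n * Ph m s) * (SS n f s * PP n ε (s - θ * Complex.I))‖ ≤
      M * NN n f / (1 - Real.exp (-ρ)) * Real.exp (-s.re) ∧
    ‖Complex.exp (n * Ph m s) * (SS n f (s + Real.pi * Complex.I) *
      PP n ε (s + Real.pi * Complex.I - θ * Complex.I))‖ ≤
      M * NN n f / (1 - Real.exp (-ρ)) * Real.exp (-s.re) := by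
  have hρ1 : 0 < 1 - Real.exp (-ρ) := by
    have : Real.exp (-ρ) < 1 := Real.exp_lt_one_iff.mpr (by linarith)
    linarith
  have hN := NN_nonneg n f
  constructor
  · have h1 := sum_bound hk m n f s M hM
    have hr : (s - θ * Complex.I).re = s.re := by simp
    have h2 := PP_bound n ε ρ hε hρ (s - θ * Complex.I) (by rw [hr]; exact hs)
    rw [hr] at h2
    rw [← mul_assoc, norm_mul]
    calc ‖Complex.exp (n * Ph m s) * SS n f s‖ * ‖PP n ε (s - θ * Complex.I)‖
        ≤ (M * NN n f) * (Real.exp (-s.re) / (1 - Real.exp (-ρ))) :=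
          mul_le_mul h1 h2 (norm_nonneg _) (by positivity)
      _ = _ := by ring
  · have h1 := sum_bound hk m n (fun w => (-1) ^ w * f w) s M hM
    rw [hk.2.2.2.2 n f, ← SS_shift] at h1
    have hr : (s + Real.pi * Complex.I - θ * Complex.I).re = s.re := by simp
    have h2 := PP_bound n ε ρ hε hρ (s + Real.pi * Complex.I - θ * Complex.I)
      (by rw [hr]; exact hs)
    rw [hr] at h2
    rw [← mul_assoc, norm_mul]
    calc ‖Complex.exp (n * Ph m s) * SS n f (s + Real.pi * Complex.I)‖ *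
          ‖PP n ε (s + Real.pi * Complex.I - θ * Complex.I)‖
        ≤ (M * NN n f) * (Real.exp (-s.re) / (1 - Real.exp (-ρ))) :=
          mul_le_mul h1 h2 (norm_nonneg _) (by positivity)
      _ = _ := by ring

/-- the primitive is bounded in the half strip -/
theorem Ph_bound (m C ρ : ℝ) (hC : 0 < C) (hρ : 0 < ρ)
    (hb : ∀ s : ℂ, |s.im| < Real.pi / 2 → 0 ≤ s.re → ‖Nf m s‖ ≤ C * Real.exp (-s.re))
    (s : ℂ) (hs : ρ ≤ s.re) (hi : |s.im| < Real.pi / 2) :
    ‖Ph m s‖ ≤ C * (1 + Real.pi / (2 * ρ)) := by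
  have hx : 0 < s.re := by linarith
  have hpi := Real.pi_pos
  have h1 : ‖Ph m s‖ ≤ ∫ u in (0 : ℝ)..1, ‖s‖ * (C * Real.exp (-(s.re * u))) := by
    unfold Ph
    apply intervalIntegral.norm_integral_le_of_norm_le zero_le_one
    · refine Filter.Eventually.of_forall fun u hu => ?_
      have hu0 : 0 ≤ u := hu.1.le
      have hu1 : u ≤ 1 := hu.2
      rw [norm_mul]
      apply mul_le_mul_of_nonneg_left _ (norm_nonneg _)
      have h2 := hb (u * s) (by
        rw [Complex.im_ofReal_mul, abs_mul, abs_of_nonneg hu0]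
        calc u * |s.im| ≤ 1 * |s.im| := mul_le_mul_of_nonneg_right hu1 (abs_nonneg _)
          _ < Real.pi / 2 := by rw [one_mul]; exact hi) (by
        rw [Complex.re_ofReal_mul]
        positivity)
      rw [Complex.re_ofReal_mul, mul_comm u] at h2
      exact h2
    · apply Continuous.intervalIntegrable
      fun_prop
  have h3 : ∫ u in (0 : ℝ)..1, ‖s‖ * (C * Real.exp (-(s.re * u))) =
      ‖s‖ * C * ((1 - Real.exp (-s.re)) / s.re) := by
    have h4 : ∀ u ∈ Set.uIcc (0 : ℝ) 1,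
        HasDerivAt (fun u : ℝ => ‖s‖ * C * (-Real.exp (-(s.re * u)) / s.re))
          (‖s‖ * (C * Real.exp (-(s.re * u)))) u := by
      intro u _
      have h5 : HasDerivAt (fun u : ℝ => -(s.re * u)) (-(s.re * 1)) u :=
        ((hasDerivAt_id u).const_mul s.re).neg
      have h6 := ((h5.exp.neg).div_const s.re).const_mul (‖s‖ * C)
      refine h6.congr_deriv ?_
      field_simp
    rw [intervalIntegral.integral_eq_sub_of_hasDerivAt h4]
    · simp
      ring
    · apply Continuous.intervalIntegrable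
      fun_prop
  rw [h3] at h1
  have h7 : ‖s‖ ≤ s.re + Real.pi / 2 := by
    have h8 := Complex.norm_le_abs_re_add_abs_im s
    rw [abs_of_pos hx] at h8
    linarith
  have h9 : (1 - Real.exp (-s.re)) / s.re ≤ 1 / s.re := by
    apply div_le_div_of_nonneg_right _ hx.le
    have := Real.exp_pos (-s.re)
    linarith
  have h10 : ‖s‖ * C * ((1 - Real.exp (-s.re)) / s.re) ≤ (s.re + Real.pi / 2) * C * (1 / s.re) := by
    apply mul_le_mul (mul_le_mul_of_nonneg_right h7 hC.le) h9
    · apply div_nonneg _ hx.le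
      have : Real.exp (-s.re) ≤ 1 := Real.exp_le_one_iff.2 (by linarith)
      linarith
    · positivity
  have h11 : (s.re + Real.pi / 2) * C * (1 / s.re) = C * (1 + Real.pi / (2 * s.re)) := by
    field_simp
  have h12 : Real.pi / (2 * s.re) ≤ Real.pi / (2 * ρ) :=
    div_le_div_of_nonneg_left hpi.le (by positivity) (by linarith)
  calc ‖Ph m s‖ ≤ _ := h1
    _ ≤ _ := h10
    _ = _ := h11
    _ ≤ C * (1 + Real.pi / (2 * ρ)) := mul_le_mul_of_nonneg_left (by linarith) hC.le

/-- a rough bound of the transform of the kernel -/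
theorem Dsn_rough (m : ℝ) (n j : ℕ) (hj : j ≤ n) (s : ℂ) (A : ℝ) (hs : 0 ≤ s.re)
    (hA : ‖Ph m s‖ ≤ A) : Dsn m n j s ≤ 2 ^ n * Real.exp (n * A) := by
  unfold Dsn
  have h0 : ‖Complex.exp (-s)‖ ≤ 1 := by
    rw [Complex.norm_exp]
    exact Real.exp_le_one_iff.2 (by simp; exact hs)
  have hsq : (1 : ℝ) ≤ √2 := by
    rw [show (1 : ℝ) = √1 by simp]
    exact Real.sqrt_le_sqrt (by norm_num)
  have h1 : ‖(1 + Complex.exp (-s)) / (√2 : ℝ)‖ ≤ 2 := by
    rw [norm_div, Complex.norm_real, Real.norm_eq_abs, abs_of_pos (by positivity)]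
    rw [div_le_iff₀ (by positivity)]
    have h2 : ‖1 + Complex.exp (-s)‖ ≤ 1 + 1 := (norm_add_le _ _).trans (by
      rw [norm_one]; linarith)
    nlinarith
  have h1' : ‖(1 - Complex.exp (-s)) / (√2 : ℝ)‖ ≤ 2 := by
    rw [norm_div, Complex.norm_real, Real.norm_eq_abs, abs_of_pos (by positivity)]
    rw [div_le_iff₀ (by positivity)]
    have h2 : ‖1 - Complex.exp (-s)‖ ≤ 1 + 1 := (norm_sub_le _ _).trans (by
      rw [norm_one]; linarith)
    nlinarith
  have h3 : ‖Complex.exp (n * Ph m s)‖ ≤ Real.exp (n * A) := by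
    rw [Complex.norm_exp]
    apply Real.exp_le_exp.2
    have h4 : ((n : ℂ) * Ph m s).re = n * (Ph m s).re := by
      have : (n : ℂ) = ((n : ℝ) : ℂ) := by push_cast; rfl
      rw [this, Complex.re_ofReal_mul]
    rw [h4]
    apply mul_le_mul_of_nonneg_left _ (Nat.cast_nonneg _)
    exact (Complex.re_le_norm _).trans hA
  rw [norm_mul, norm_mul, norm_pow, norm_pow]
  have h5 : ‖(1 + Complex.exp (-s)) / (√2 : ℝ)‖ ^ (n - j) ≤ 2 ^ (n - j) :=
    pow_le_pow_left₀ (norm_nonneg _) h1 _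
  have h6 : ‖(1 - Complex.exp (-s)) / (√2 : ℝ)‖ ^ j ≤ 2 ^ j :=
    pow_le_pow_left₀ (norm_nonneg _) h1' _
  have h7 : ‖(1 + Complex.exp (-s)) / (√2 : ℝ)‖ ^ (n - j) *
      ‖(1 - Complex.exp (-s)) / (√2 : ℝ)‖ ^ j ≤ 2 ^ n := by
    calc _ ≤ (2 : ℝ) ^ (n - j) * 2 ^ j := mul_le_mul h5 h6 (by positivity) (by positivity)
      _ = 2 ^ n := by rw [← pow_add, Nat.sub_add_cancel hj]
  exact mul_le_mul h7 h3 (norm_nonneg _) (by positivity)

/-- the line of the test function lies in the domain -/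
theorem line_mem (m ρ : ℝ) (hm : 0 < m) (hρm : m * Real.sinh ρ ^ 2 < 1) (c : ℝ) (hc : 0 < c)
    (hcρ : c ≤ ρ) (φ : ℝ) : ((c : ℂ) + φ * Complex.I) ∈ DN m := by
  right
  have hr : ((c : ℂ) + φ * Complex.I).re = c := by simp
  rw [hr]
  have h1 : Real.sinh c ≤ Real.sinh ρ := Real.sinh_le_sinh.2 hcρ
  have h2 : 0 ≤ Real.sinh c := Real.sinh_nonneg_iff.2 hc.le
  have h3 : Real.sinh c ^ 2 ≤ Real.sinh ρ ^ 2 := pow_le_pow_left₀ h2 h1 2
  nlinarith

/-- the sum is an integral over the line -/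
theorem sum_eq (hp : S3_ph) (m ρ : ℝ) (hm : 0 < m) (hρm : m * Real.sinh ρ ^ 2 < 1) (c : ℝ)
    (hc : 0 < c) (hcρ : c ≤ ρ) (n : ℕ) (ε θ : ℝ) (f : ℕ → ℝ) :
    ∑ w ∈ Finset.range (n + 1), (n.choose w : ℂ) * vN m n w ε c θ * (f w : ℂ) =
      (∫ φ in (-Real.pi)..Real.pi, Complex.exp (n * Ph m (c + φ * Complex.I)) *
        (SS n f (c + φ * Complex.I) * PP n ε (c + φ * Complex.I - θ * Complex.I))) /
        (2 * Real.pi) := by
  have hcont : Continuous (fun φ : ℝ => Complex.exp (n * Ph m (c + φ * Complex.I))) := by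
    rw [continuous_iff_continuousAt]
    intro φ
    have h1 : ContinuousAt (Ph m) ((c : ℂ) + φ * Complex.I) :=
      ((hp m hm).1 _ (line_mem m ρ hm hρm c hc hcρ φ)).continuousAt
    have h2 : ContinuousAt (fun φ : ℝ => (c : ℂ) + φ * Complex.I) φ := by fun_prop
    have h3 : ContinuousAt (fun φ : ℝ => Ph m ((c : ℂ) + φ * Complex.I)) φ :=
      ContinuousAt.comp (f := fun φ : ℝ => (c : ℂ) + φ * Complex.I) h1 h2
    exact (continuousAt_const.mul h3).cexp
  have hP : Continuous (fun φ : ℝ => PP n ε ((c : ℂ) + φ * Complex.I - θ * Complex.I)) := by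
    rw [continuous_iff_continuousAt]
    intro φ
    have h1 : ContinuousAt (PP n ε) ((c : ℂ) + φ * Complex.I - θ * Complex.I) :=
      (PP_diff n ε _ (by simp; exact hc)).continuousAt
    have h2 : ContinuousAt (fun φ : ℝ => (c : ℂ) + φ * Complex.I - θ * Complex.I) φ := by fun_prop
    exact ContinuousAt.comp (f := fun φ : ℝ => (c : ℂ) + φ * Complex.I - θ * Complex.I) h1 h2
  have hv : ∀ w : ℕ, vN m n w ε c θ =
      (∫ φ in (-Real.pi)..Real.pi, Complex.exp (n * Ph m (c + φ * Complex.I)) *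
        (Complex.exp (-(w * (c + φ * Complex.I))) *
          PP n ε (c + φ * Complex.I - θ * Complex.I))) / (2 * Real.pi) := by
    intro w
    unfold vN PP
    congr 1
    refine intervalIntegral.integral_congr fun φ _ => ?_
    have : (c : ℂ) + (φ - θ) * Complex.I = c + φ * Complex.I - θ * Complex.I := by ring
    simp only [this]
  have h4 : ∀ w : ℕ, (n.choose w : ℂ) * vN m n w ε c θ * (f w : ℂ) =
      (∫ φ in (-Real.pi)..Real.pi, (n.choose w : ℂ) * (f w : ℂ) *
        (Complex.exp (n * Ph m (c + φ * Complex.I)) *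
        (Complex.exp (-(w * (c + φ * Complex.I))) *
          PP n ε (c + φ * Complex.I - θ * Complex.I)))) / (2 * Real.pi) := by
    intro w
    rw [hv w, intervalIntegral.integral_const_mul]
    ring
  rw [Finset.sum_congr rfl fun w _ => h4 w, ← Finset.sum_div]
  congr 1
  rw [← intervalIntegral.integral_finsetSum]
  · refine intervalIntegral.integral_congr fun φ _ => ?_
    simp only [SS]
    rw [Finset.sum_mul, Finset.mul_sum]
    refine Finset.sum_congr rfl fun w _ => ?_
    ring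
  · intro w _
    apply Continuous.intervalIntegrable
    apply Continuous.mul continuous_const
    apply Continuous.mul hcont
    apply Continuous.mul _ hP
    fun_prop

/-- BL3-DUAL -/
theorem dual3 (hk : S_kra) (hp : S3_ph) (hpb : S3_pb) (hc : S3_nc) (hd : S3_db)
    (hco : S3_cont) : S3_dual := by
  intro m ε ε₂ hm hε hε₂
  obtain ⟨ϑ, ρ, hϑ, hϑ2, hρ, hρm, hh, hv⟩ := hd m (ε₂ / 2) hm (by positivity)
  obtain ⟨C, hC, hNb, -⟩ := hc m hm
  have hpi := Real.pi_pos
  have hρ1 : 0 < 1 - Real.exp (-ρ) := by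
    have : Real.exp (-ρ) < 1 := Real.exp_lt_one_iff.mpr (by linarith)
    linarith
  refine ⟨ρ, hρ, fun c hc0 hcρ => ?_⟩
  obtain ⟨n₀, hn₀⟩ := exists_nat_ge (16 / (2 * Real.pi * (1 - Real.exp (-ρ))) / (ε₂ / 2))
  refine ⟨n₀, fun n hn hq θ f => ?_⟩
  have hN := NN_nonneg n f
  obtain ⟨M, hMd⟩ : ∃ M : ℝ, M = Real.exp (n * (mu3 m + ε₂ / 2)) := ⟨_, rfl⟩
  have hM0 : 0 ≤ M := by rw [hMd]; positivity
  obtain ⟨M', hM'd⟩ : ∃ M' : ℝ, M' = 2 ^ n * Real.exp (n * (C * (1 + Real.pi / (2 * ρ)))) :=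
    ⟨_, rfl⟩
  have hM'0 : 0 ≤ M' := by rw [hM'd]; positivity
  have key := hco (fun s => Complex.exp (n * Ph m s))
    (fun s => SS n f s * PP n ε (s - θ * Complex.I)) m ϑ ρ
    (M * NN n f / (1 - Real.exp (-ρ))) (M' * NN n f / (1 - Real.exp (-ρ))) hm hϑ hϑ2 hρ hρm
    (fun s hs => (((hp m hm).1 s hs).differentiableAt.const_mul (n : ℂ)).cexp)
    (by
      intro s hs
      rw [(hp m hm).2.2.2 s hs]
      obtain ⟨k, hk'⟩ := hq
      have h1 : (n : ℂ) * (Nbar m : ℂ) = 2 * (k : ℂ) := by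
        have := congrArg (fun x : ℝ => (x : ℂ)) hk'
        push_cast at this
        exact this
      have h2 : (n : ℂ) * (Ph m s + Real.pi * Nbar m * Complex.I) =
          n * Ph m s + (k : ℂ) * (2 * Real.pi * Complex.I) := by
        linear_combination (Real.pi * Complex.I) * h1
      rw [h2, Complex.exp_add, Complex.exp_int_mul_two_pi_mul_I, mul_one])
    (by
      intro s hs
      apply DifferentiableAt.mul (SS_diff n f s)
      have h1 : DifferentiableAt ℂ (PP n ε) (s - θ * Complex.I) :=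
        PP_diff n ε _ (by simp; exact hs)
      exact DifferentiableAt.comp (f := fun s : ℂ => s - θ * Complex.I) s h1 (by fun_prop))
    (by
      intro s
      rw [SS_period]
      have h1 : s + 2 * Real.pi * Complex.I - θ * Complex.I =
          (s - θ * Complex.I) + 2 * Real.pi * Complex.I := by ring
      rw [h1, PP_period])
    (by
      intro s hs hsi
      apply EK_bound hk m n ε ρ θ M' hε hρ hM'0 f s hs
      intro j hj
      rw [hM'd]
      apply Dsn_rough m n j hj s _ (by linarith)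
      exact Ph_bound m C ρ hC hρ hNb s hs (by linarith))
    (by
      intro s hs hsi
      apply EK_bound hk m n ε ρ θ M hε hρ hM0 f s hs
      intro j hj
      rw [hMd]
      have h1 := hh n j s.re hj hs
      have h2 : s = (s.re : ℂ) + (s.im : ℂ) * Complex.I := (Complex.re_add_im s).symm
      rcases abs_choice s.im with h3 | h3
      · have h4 : s.im = Real.pi / 2 - ϑ := by rw [← hsi, h3]
        rw [h2, h4]
        exact h1.1
      · have h4 : s.im = -(Real.pi / 2 - ϑ) := by rw [← hsi, h3]; ring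
        rw [h2, h4]
        exact h1.2)
    (by
      intro s hs hs1 hs2
      have h0 := EK_bound hk m n ε ρ θ M hε hρ hM0 f s (by linarith) (by
        intro j hj
        rw [hMd]
        have h1 := hv n j s.im hj hs1 hs2
        have h2 : s = (s.re : ℂ) + (s.im : ℂ) * Complex.I := (Complex.re_add_im s).symm
        rw [h2, hs]
        exact h1)
      have h3 : M * NN n f / (1 - Real.exp (-ρ)) * Real.exp (-s.re) ≤
          M * NN n f / (1 - Real.exp (-ρ)) := by
        have h4 : Real.exp (-s.re) ≤ 1 := Real.exp_le_one_iff.2 (by linarith)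
        have h5 : 0 ≤ M * NN n f / (1 - Real.exp (-ρ)) := by positivity
        nlinarith
      exact ⟨h0.1.trans h3, h0.2.trans h3⟩) c hc0 hcρ
  rw [sum_eq hp m ρ hm hρm c hc0 hcρ n ε θ f, norm_div]
  have h6 : ‖(2 * Real.pi : ℂ)‖ = 2 * Real.pi := by
    rw [norm_mul, Complex.norm_real, Real.norm_eq_abs, abs_of_pos hpi]
    norm_num
  rw [h6]
  have h7 : 16 / (2 * Real.pi * (1 - Real.exp (-ρ))) ≤ Real.exp (n * (ε₂ / 2)) := by
    have h8 : 16 / (2 * Real.pi * (1 - Real.exp (-ρ))) ≤ n₀ * (ε₂ / 2) := by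
      rw [div_le_iff₀ (by positivity)] at hn₀
      exact hn₀
    have h9 : (n₀ : ℝ) * (ε₂ / 2) ≤ n * (ε₂ / 2) := by
      apply mul_le_mul_of_nonneg_right _ (by positivity)
      exact_mod_cast hn
    have h10 := Real.add_one_le_exp ((n : ℝ) * (ε₂ / 2))
    linarith
  rw [div_le_iff₀ (by positivity)]
  refine key.trans ?_
  have h11 : Real.exp (n * (mu3 m + ε₂)) = M * Real.exp (n * (ε₂ / 2)) := by
    rw [hMd, ← Real.exp_add]
    congr 1
    ring
  rw [h11]
  have h12 : 16 * (M * NN n f / (1 - Real.exp (-ρ))) =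
      M * (16 / (2 * Real.pi * (1 - Real.exp (-ρ)))) * NN n f * (2 * Real.pi) := by
    field_simp
  rw [h12]
  apply mul_le_mul_of_nonneg_right _ (by positivity)
  apply mul_le_mul_of_nonneg_right _ hN
  exact mul_le_mul_of_nonneg_left h7 hM0

end Pool.Agent.TH41.BL.DU3f
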