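import Mathlib
import Pool.Agent.TH41.BL.Stm

/-!
# BL-DUAL: the transform of the test function is bounded (job 3127, helper511)
-/

set_option autoImplicit false

open MeasureTheory Filter Topology

namespace Pool.Agent.TH41.BL.DUAf

open Pool.Agent.TH41.BL

open Pool.Agent.TH41.LP (WW)

/-- the integrand of the test function -/
noncomputable def gg (n w : ℕ) (ε η τ : ℝ) (t : ℝ) : ℂ :=
  YY n w ε τ (((Real.pi / 4 : ℝ) : ℂ) + t * Complex.I) /
      (((Real.pi / 4 : ℝ) : ℂ) + t * Complex.I) *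
    Complex.exp (-(((Real.pi / 4 : ℝ) : ℂ) + t * Complex.I) * ((n * η : ℝ) : ℂ))

theorem vv_eq (n w : ℕ) (ε η τ : ℝ) :
    vv n w ε η τ = (∫ t : ℝ, gg n w ε η τ t) / (2 * Real.pi) := rfl

theorem re_line (t : ℝ) : (((Real.pi / 4 : ℝ) : ℂ) + t * Complex.I).re = Real.pi / 4 := by
  simp

theorem im_line (t : ℝ) : (((Real.pi / 4 : ℝ) : ℂ) + t * Complex.I).im = t := by
  simp

theorem norm_line (t : ℝ) : Real.pi / 4 ≤ ‖((Real.pi / 4 : ℝ) : ℂ) + t * Complex.I‖ := by
  have h := Complex.abs_re_le_norm (((Real.pi / 4 : ℝ) : ℂ) + t * Complex.I)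
  rw [re_line, abs_of_pos (by positivity)] at h
  exact h

theorem line_ne (t : ℝ) : ((Real.pi / 4 : ℝ) : ℂ) + t * Complex.I ≠ 0 := by
  intro h
  have h1 := norm_line t
  rw [h, norm_zero] at h1
  have := Real.pi_pos
  linarith

theorem norm_exp_sq (n : ℕ) (ε t : ℝ) :
    ‖Complex.exp (n * ε * (((Real.pi / 4 : ℝ) : ℂ) + t * Complex.I) ^ 2)‖ =
      Real.exp (n * ε * (Real.pi ^ 2 / 16)) * Real.exp (-(n * ε) * t ^ 2) := by
  rw [Complex.norm_exp, ← Real.exp_add]
  congr 1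
  have h : (n : ℂ) * ε * (((Real.pi / 4 : ℝ) : ℂ) + t * Complex.I) ^ 2 =
      ((n * ε * (Real.pi ^ 2 / 16) + -(n * ε) * t ^ 2 : ℝ) : ℂ) +
        ((n * ε * (Real.pi / 2 * t) : ℝ) : ℂ) * Complex.I := by
    push_cast
    ring_nf
    rw [Complex.I_sq]
    ring
  rw [h, Complex.add_re, Complex.ofReal_re, Complex.re_ofReal_mul, Complex.I_re]
  ring

theorem norm_exp_rho (ρ t : ℝ) :
    ‖Complex.exp (-(((Real.pi / 4 : ℝ) : ℂ) + t * Complex.I) * (ρ : ℂ))‖ =
      Real.exp (-(Real.pi / 4) * ρ) := by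
  rw [Complex.norm_exp]
  congr 1
  have h : -(((Real.pi / 4 : ℝ) : ℂ) + t * Complex.I) * (ρ : ℂ) =
      ((-(Real.pi / 4) * ρ : ℝ) : ℂ) + ((-(t * ρ) : ℝ) : ℂ) * Complex.I := by
    push_cast
    ring
  rw [h]
  simp

/-- a bound for the factors without the kernel -/
theorem norm_fac (n : ℕ) (ε ρ t : ℝ) (q : ℂ) (N : ℝ) (hq : ‖q‖ ≤ N) :
    ‖q * Complex.exp (n * ε * (((Real.pi / 4 : ℝ) : ℂ) + t * Complex.I) ^ 2) /
      (((Real.pi / 4 : ℝ) : ℂ) + t * Complex.I) *
      Complex.exp (-(((Real.pi / 4 : ℝ) : ℂ) + t * Complex.I) * (ρ : ℂ))‖ ≤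
      (N * (4 / Real.pi) * Real.exp (n * ε * (Real.pi ^ 2 / 16)) *
        Real.exp (-(Real.pi / 4) * ρ)) * Real.exp (-(n * ε) * t ^ 2) := by
  have hpi := Real.pi_pos
  rw [norm_mul, norm_div, norm_mul, norm_exp_sq, norm_exp_rho]
  have hN : 0 ≤ N := (norm_nonneg q).trans hq
  have h1 : ‖q‖ * (Real.exp (n * ε * (Real.pi ^ 2 / 16)) * Real.exp (-(n * ε) * t ^ 2)) /
      ‖((Real.pi / 4 : ℝ) : ℂ) + t * Complex.I‖ ≤
      N * (Real.exp (n * ε * (Real.pi ^ 2 / 16)) * Real.exp (-(n * ε) * t ^ 2)) /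
        (Real.pi / 4) := by
    apply div_le_div₀ (by positivity) _ (by positivity) (norm_line t)
    exact mul_le_mul_of_nonneg_right hq (by positivity)
  refine (mul_le_mul_of_nonneg_right h1 (by positivity)).trans (le_of_eq ?_)
  field_simp

theorem gg_eq (n w : ℕ) (ε η τ t : ℝ) : gg n w ε η τ t =
    QQ n w (((Real.pi / 4 : ℝ) : ℂ) + t * Complex.I + τ * Complex.I) *
      Complex.exp (n * ε * (((Real.pi / 4 : ℝ) : ℂ) + t * Complex.I) ^ 2) /
      (((Real.pi / 4 : ℝ) : ℂ) + t * Complex.I) *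
      Complex.exp (-(((Real.pi / 4 : ℝ) : ℂ) + t * Complex.I) * ((n * η : ℝ) : ℂ)) := rfl

theorem gg_int (hq : S_qq) {n w : ℕ} (hw : w ≤ n) {ε : ℝ} (hε : 0 < n * ε) (η τ : ℝ) :
    Integrable (gg n w ε η τ) := by
  have hpi := Real.pi_pos
  obtain ⟨h1, _, _, _, _, M, hM⟩ := hq n w hw
  have hline : Continuous (fun t : ℝ => ((Real.pi / 4 : ℝ) : ℂ) + t * Complex.I) := by fun_prop
  have hQ : Continuous (fun t : ℝ =>
      QQ n w (((Real.pi / 4 : ℝ) : ℂ) + t * Complex.I + τ * Complex.I)) := by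
    rw [continuous_iff_continuousAt]
    intro t
    have hre : (((Real.pi / 4 : ℝ) : ℂ) + t * Complex.I + τ * Complex.I).re = Real.pi / 4 := by
      simp
    have h2 : ContinuousAt (QQ n w) (((Real.pi / 4 : ℝ) : ℂ) + t * Complex.I + τ * Complex.I) :=
      (h1 _ (by rw [hre]; linarith) (by rw [hre]; linarith)).continuousAt
    exact ContinuousAt.comp (f := fun t : ℝ =>
      ((Real.pi / 4 : ℝ) : ℂ) + t * Complex.I + τ * Complex.I) h2 (by fun_prop)
  have hcont : Continuous (gg n w ε η τ) := by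
    have he : gg n w ε η τ = fun t : ℝ =>
      QQ n w (((Real.pi / 4 : ℝ) : ℂ) + t * Complex.I + τ * Complex.I) *
      Complex.exp (n * ε * (((Real.pi / 4 : ℝ) : ℂ) + t * Complex.I) ^ 2) /
      (((Real.pi / 4 : ℝ) : ℂ) + t * Complex.I) *
      Complex.exp (-(((Real.pi / 4 : ℝ) : ℂ) + t * Complex.I) * ((n * η : ℝ) : ℂ)) := by
      funext t
      exact gg_eq n w ε η τ t
    rw [he]
    refine Continuous.mul (Continuous.div (Continuous.mul hQ (by fun_prop)) hline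
      fun t => line_ne t) (by fun_prop)
  refine Integrable.mono' (g := fun t => (M * (4 / Real.pi) *
      Real.exp (n * ε * (Real.pi ^ 2 / 16)) * Real.exp (-(Real.pi / 4) * (n * η))) *
      Real.exp (-(n * ε) * t ^ 2)) ?_ hcont.aestronglyMeasurable ?_
  · exact (integrable_exp_neg_mul_sq hε).const_mul _
  · refine Eventually.of_forall fun t => ?_
    rw [gg_eq]
    refine norm_fac n ε (n * η) t _ M (hM _ ?_ ?_)
    · simp
      linarith
    · simp

theorem sum_bound (hk : S_kra) (hd : S_dl) (n : ℕ) (f : ℕ → ℝ) (t : ℝ) :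
    ‖∑ w ∈ Finset.range (n + 1), (n.choose w : ℂ) * (f w : ℂ) *
      QQ n w (((Real.pi / 4 : ℝ) : ℂ) + t * Complex.I)‖ ≤ NN n f := by
  obtain ⟨z, hz⟩ : ∃ z : ℂ, z = ((Real.pi / 4 : ℝ) : ℂ) + t * Complex.I := ⟨_, rfl⟩
  have h1 := hk.1 n f (AA z) (BB z)
  have h2 : ∑ w ∈ Finset.range (n + 1), (n.choose w : ℂ) * (f w : ℂ) * QQ n w z =
      ∑ j ∈ Finset.range (n + 1), (n.choose j : ℂ) * (tr n f j : ℂ) *
        (((AA z + BB z) / (√2 : ℝ)) ^ (n - j) * ((AA z - BB z) / (√2 : ℝ)) ^ j *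
          Complex.exp (n * Lam z)) := by
    have h3 : ∑ w ∈ Finset.range (n + 1), (n.choose w : ℂ) * (f w : ℂ) * QQ n w z =
        (∑ w ∈ Finset.range (n + 1), (n.choose w : ℂ) * (AA z ^ (n - w) * BB z ^ w) *
          (f w : ℂ)) * Complex.exp (n * Lam z) := by
      rw [Finset.sum_mul]
      refine Finset.sum_congr rfl fun w _ => ?_
      unfold QQ
      ring
    rw [h3, h1, Finset.sum_mul]
    refine Finset.sum_congr rfl fun j _ => ?_
    ring
  rw [← hz, h2]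
  refine (norm_sum_le _ _).trans ?_
  unfold NN
  refine Finset.sum_le_sum fun j hj => ?_
  have hj' : j ≤ n := by
    have := Finset.mem_range.1 hj
    omega
  have h4 := hd n j hj' t
  rw [← hz] at h4
  rw [norm_mul, h4, mul_one, norm_mul, Complex.norm_real, Real.norm_eq_abs]
  simp

theorem dual (hk : S_kra) (hd : S_dl) (hq : S_qq) : S_dual := by
  intro ε hε
  refine ⟨⌈Real.pi / ε⌉₊, fun n hn η τ f => ?_⟩
  have hpi := Real.pi_pos
  have hn1 : Real.pi / ε ≤ n := (Nat.le_ceil _).trans (by exact_mod_cast hn)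
  have hnε : Real.pi ≤ n * ε := by rwa [div_le_iff₀ hε] at hn1
  have hnε0 : 0 < n * ε := by linarith
  have hNN : 0 ≤ NN n f := by
    unfold NN
    exact Finset.sum_nonneg fun j _ => by positivity
  have hint : ∀ w ∈ Finset.range (n + 1), Integrable
      (fun t => (n.choose w : ℂ) * (f w : ℂ) * gg n w ε η τ t) := by
    intro w hw
    have hw' : w ≤ n := by
      have := Finset.mem_range.1 hw
      omega
    exact (gg_int hq hw' hnε0 η τ).const_mul _
  have h1 : ∑ w ∈ Finset.range (n + 1), (n.choose w : ℂ) * vv n w ε η τ * (f w : ℂ) =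
      (∫ t : ℝ, ∑ w ∈ Finset.range (n + 1), (n.choose w : ℂ) * (f w : ℂ) * gg n w ε η τ t) /
        (2 * Real.pi) := by
    rw [integral_finsetSum _ hint, Finset.sum_div]
    refine Finset.sum_congr rfl fun w _ => ?_
    rw [integral_const_mul, vv_eq]
    ring
  have h2 : ∀ t : ℝ, ‖∑ w ∈ Finset.range (n + 1),
      (n.choose w : ℂ) * (f w : ℂ) * gg n w ε η τ t‖ ≤
      (NN n f * (4 / Real.pi) * Real.exp (n * ε * (Real.pi ^ 2 / 16)) *
        Real.exp (-(Real.pi / 4) * (n * η))) * Real.exp (-(n * ε) * t ^ 2) := by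
    intro t
    have h3 : ∑ w ∈ Finset.range (n + 1), (n.choose w : ℂ) * (f w : ℂ) * gg n w ε η τ t =
        (∑ w ∈ Finset.range (n + 1), (n.choose w : ℂ) * (f w : ℂ) *
          QQ n w (((Real.pi / 4 : ℝ) : ℂ) + ((t + τ : ℝ) : ℂ) * Complex.I)) *
          Complex.exp (n * ε * (((Real.pi / 4 : ℝ) : ℂ) + t * Complex.I) ^ 2) /
          (((Real.pi / 4 : ℝ) : ℂ) + t * Complex.I) *
          Complex.exp (-(((Real.pi / 4 : ℝ) : ℂ) + t * Complex.I) * ((n * η : ℝ) : ℂ)) := by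
      rw [Finset.sum_mul, Finset.sum_div, Finset.sum_mul]
      refine Finset.sum_congr rfl fun w _ => ?_
      rw [gg_eq]
      have h4 : ((Real.pi / 4 : ℝ) : ℂ) + t * Complex.I + τ * Complex.I =
          ((Real.pi / 4 : ℝ) : ℂ) + ((t + τ : ℝ) : ℂ) * Complex.I := by
        push_cast
        ring
      rw [h4]
      ring
    rw [h3]
    exact norm_fac n ε (n * η) t _ (NN n f) (sum_bound hk hd n f (t + τ))
  have h3 := norm_integral_le_of_norm_le
    ((integrable_exp_neg_mul_sq hnε0).const_mul (NN n f * (4 / Real.pi) *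
      Real.exp (n * ε * (Real.pi ^ 2 / 16)) * Real.exp (-(Real.pi / 4) * (n * η))))
    (Eventually.of_forall h2)
  rw [integral_const_mul, integral_gaussian] at h3
  rw [h1, norm_div]
  have h4 : ‖(2 * Real.pi : ℂ)‖ = 2 * Real.pi := by
    rw [norm_mul, Complex.norm_real, Real.norm_eq_abs, abs_of_pos hpi]
    simp
  rw [h4, div_le_iff₀ (by positivity)]
  refine h3.trans ?_
  have h5 : √(Real.pi / (n * ε)) ≤ 1 := by
    rw [Real.sqrt_le_one]
    rwa [div_le_one hnε0]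
  have h6 : Real.exp (n * ε * (Real.pi ^ 2 / 16)) * Real.exp (-(Real.pi / 4) * (n * η)) =
      Real.exp (n * (ε * Real.pi ^ 2 / 16 - η * Real.pi / 4)) := by
    rw [← Real.exp_add]
    congr 1
    ring
  have h7 : 4 / Real.pi ≤ 2 * Real.pi := by
    rw [div_le_iff₀ hpi]
    have := Real.pi_gt_three
    nlinarith
  calc NN n f * (4 / Real.pi) * Real.exp (n * ε * (Real.pi ^ 2 / 16)) *
        Real.exp (-(Real.pi / 4) * (n * η)) * √(Real.pi / (n * ε))
      = NN n f * (4 / Real.pi) * (Real.exp (n * ε * (Real.pi ^ 2 / 16)) *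
        Real.exp (-(Real.pi / 4) * (n * η))) * √(Real.pi / (n * ε)) := by ring
    _ ≤ NN n f * (2 * Real.pi) * (Real.exp (n * ε * (Real.pi ^ 2 / 16)) *
        Real.exp (-(Real.pi / 4) * (n * η))) * 1 := by gcongr
    _ = _ := by
        rw [h6]
        ring

end Pool.Agent.TH41.BL.DUAf
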