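import Mathlib
import Pool.Agent.TH41.BL.Stm4

set_option autoImplicit false

open MeasureTheory Filter Topology

namespace Pool.Agent.TH41.BL.EL2f

open Pool.Agent.TH41.BL

theorem s_pos {k : ℝ} (hk : 0 < k) (hk1 : k < 1) (φ : ℝ) : 0 < 1 - k ^ 2 * Real.sin φ ^ 2 := by
  have h1 : Real.sin φ ^ 2 ≤ 1 := Real.sin_sq_le_one φ
  have h2 : k ^ 2 < 1 := by nlinarith
  have h3 : 0 ≤ Real.sin φ ^ 2 := sq_nonneg _
  nlinarith

theorem cont_s (k : ℝ) : Continuous fun φ : ℝ => √(1 - k ^ 2 * Real.sin φ ^ 2) := by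
  fun_prop

theorem deriv_A {k : ℝ} (hk : 0 < k) (hk1 : k < 1) (φ : ℝ) :
    HasDerivAt (fun φ : ℝ => Real.sin φ * Real.cos φ / √(1 - k ^ 2 * Real.sin φ ^ 2))
      (Real.cos φ ^ 2 / √(1 - k ^ 2 * Real.sin φ ^ 2) ^ 3 -
        Real.sin φ ^ 2 / √(1 - k ^ 2 * Real.sin φ ^ 2)) φ := by
  have hs := s_pos hk hk1 φ
  have h1 : HasDerivAt (fun φ : ℝ => 1 - k ^ 2 * Real.sin φ ^ 2)
      (-(k ^ 2 * (2 * Real.sin φ * Real.cos φ))) φ := by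
    have h := (((Real.hasDerivAt_sin φ).pow 2).const_mul (k ^ 2)).const_sub 1
    refine h.congr_deriv ?_
    norm_num
  have h2 := h1.sqrt hs.ne'
  have h3 := (Real.hasDerivAt_sin φ).mul (Real.hasDerivAt_cos φ)
  have hr : √(1 - k ^ 2 * Real.sin φ ^ 2) ≠ 0 := (Real.sqrt_pos.2 hs).ne'
  have h4 := h3.div h2 hr
  refine h4.congr_deriv ?_
  have hsq : √(1 - k ^ 2 * Real.sin φ ^ 2) ^ 2 = 1 - k ^ 2 * Real.sin φ ^ 2 :=
    Real.sq_sqrt hs.le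
  have hc : Real.cos φ ^ 2 = 1 - Real.sin φ ^ 2 := Real.cos_sq' φ
  set r := √(1 - k ^ 2 * Real.sin φ ^ 2) with hrdef
  set s := Real.sin φ
  set c := Real.cos φ
  simp only [Pi.mul_apply]
  field_simp
  have hr4 : r ^ 2 = 1 - k ^ 2 * s ^ 2 := hsq
  linear_combination c ^ 2 * hr4

theorem cont_r3 {k : ℝ} (hk : 0 < k) (hk1 : k < 1) :
    Continuous fun φ : ℝ => Real.cos φ ^ 2 / √(1 - k ^ 2 * Real.sin φ ^ 2) ^ 3 :=
  (Real.continuous_cos.pow 2).div ((cont_s k).pow 3)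
    fun φ => pow_ne_zero _ (Real.sqrt_pos.2 (s_pos hk hk1 φ)).ne'

theorem cont_r1 {k : ℝ} (hk : 0 < k) (hk1 : k < 1) :
    Continuous fun φ : ℝ => Real.sin φ ^ 2 / √(1 - k ^ 2 * Real.sin φ ^ 2) :=
  (Real.continuous_sin.pow 2).div (cont_s k)
    fun φ => (Real.sqrt_pos.2 (s_pos hk hk1 φ)).ne'

theorem cont_r0 {k : ℝ} (hk : 0 < k) (hk1 : k < 1) :
    Continuous fun φ : ℝ => 1 / √(1 - k ^ 2 * Real.sin φ ^ 2) :=
  continuous_const.div (cont_s k) fun φ => (Real.sqrt_pos.2 (s_pos hk hk1 φ)).ne'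

theorem key {k : ℝ} (hk : 0 < k) (hk1 : k < 1) :
    ∫ φ in (0 : ℝ)..(Real.pi / 2), Real.cos φ ^ 2 / √(1 - k ^ 2 * Real.sin φ ^ 2) ^ 3 =
      (Kc k - Ec k) / k ^ 2 := by
  have h1 : ∫ φ in (0 : ℝ)..(Real.pi / 2),
      (Real.cos φ ^ 2 / √(1 - k ^ 2 * Real.sin φ ^ 2) ^ 3 -
        Real.sin φ ^ 2 / √(1 - k ^ 2 * Real.sin φ ^ 2)) = 0 := by
    rw [intervalIntegral.integral_eq_sub_of_hasDerivAt (fun φ _ => deriv_A hk hk1 φ)
      (((cont_r3 hk hk1).sub (cont_r1 hk hk1)).intervalIntegrable _ _)]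
    simp
  rw [intervalIntegral.integral_sub ((cont_r3 hk hk1).intervalIntegrable _ _)
    ((cont_r1 hk hk1).intervalIntegrable _ _)] at h1
  have h2 : ∫ φ in (0 : ℝ)..(Real.pi / 2), Real.sin φ ^ 2 / √(1 - k ^ 2 * Real.sin φ ^ 2) =
      ∫ φ in (0 : ℝ)..(Real.pi / 2), (1 / k ^ 2) *
        (1 / √(1 - k ^ 2 * Real.sin φ ^ 2) - √(1 - k ^ 2 * Real.sin φ ^ 2)) := by
    congr 1
    funext φ
    have hs := s_pos hk hk1 φ
    have hr : √(1 - k ^ 2 * Real.sin φ ^ 2) ≠ 0 := (Real.sqrt_pos.2 hs).ne'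
    have hsq : √(1 - k ^ 2 * Real.sin φ ^ 2) ^ 2 = 1 - k ^ 2 * Real.sin φ ^ 2 :=
      Real.sq_sqrt hs.le
    set r := √(1 - k ^ 2 * Real.sin φ ^ 2)
    field_simp
    linear_combination hsq
  rw [h2, intervalIntegral.integral_const_mul,
    intervalIntegral.integral_sub ((cont_r0 hk hk1).intervalIntegrable _ _)
      ((cont_s k).intervalIntegrable _ _)] at h1
  unfold Kc Ec
  rw [sub_eq_zero.1 h1]
  ring

theorem wn : S5_wn := by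
  intro k hk hk1
  have hk2 : 0 < 1 - k ^ 2 := by nlinarith
  unfold WN
  have h1 : ∫ φ in (0 : ℝ)..(Real.pi / 2),
      Real.cos φ ^ 2 / (√(1 + k ^ 2 / (1 - k ^ 2) * Real.cos φ ^ 2)) ^ 3 =
      ∫ φ in (0 : ℝ)..(Real.pi / 2),
        √(1 - k ^ 2) ^ 3 * (Real.cos φ ^ 2 / √(1 - k ^ 2 * Real.sin φ ^ 2) ^ 3) := by
    congr 1
    funext φ
    have hs := s_pos hk hk1 φ
    have e : 1 + k ^ 2 / (1 - k ^ 2) * Real.cos φ ^ 2 =
        (1 - k ^ 2 * Real.sin φ ^ 2) / (1 - k ^ 2) := by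
      rw [Real.cos_sq']
      field_simp
      ring
    rw [e, Real.sqrt_div hs.le]
    have hr : √(1 - k ^ 2 * Real.sin φ ^ 2) ≠ 0 := (Real.sqrt_pos.2 hs).ne'
    have hr2 : √(1 - k ^ 2) ≠ 0 := (Real.sqrt_pos.2 hk2).ne'
    field_simp
  rw [h1, intervalIntegral.integral_const_mul, key hk hk1]
  ring

end Pool.Agent.TH41.BL.EL2f
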