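import Mathlib
import Pool.Agent.TH41.BL.Stm5

set_option autoImplicit false

open MeasureTheory Filter Topology

namespace Pool.Agent.TH41.BL.FI5f

open Pool.Agent.TH41.BL

theorem kc_pos {k : ℝ} (h0 : 0 < k) (h1 : k < 1) : 0 < Kc k := by
  have hpos : ∀ φ : ℝ, 0 < 1 - k ^ 2 * Real.sin φ ^ 2 := by
    intro φ
    have h2 := Real.sin_sq_le_one φ
    have h3 : k ^ 2 < 1 := by nlinarith
    have h4 := sq_nonneg (Real.sin φ)
    nlinarith
  unfold Kc
  refine intervalIntegral.intervalIntegral_pos_of_pos_on ?_ ?_ (by positivity)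
  · apply Continuous.intervalIntegrable
    refine continuous_const.div ?_ ?_
    · exact (continuous_const.sub (continuous_const.mul (Real.continuous_sin.pow 2))).sqrt
    · exact fun φ => (Real.sqrt_pos.mpr (hpos φ)).ne'
  · intro φ _
    have := Real.sqrt_pos.mpr (hpos φ)
    positivity

theorem fi5 (hk : S6_ke) (he : S6_ek) : S6_fi := by
  intro e he0
  obtain ⟨k, h0, h1, hA, _, hEA, h3, h4, _⟩ := hk e he0
  refine ⟨k, h0, h1, h3, h4, ?_⟩
  have h5 := he k h0 h1
  have hK := kc_pos h0 h1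
  have h6 : Real.pi * Kc (√(1 - k ^ 2)) / (2 * Kc k) = e := by
    rw [← hEA, hA]
    have hp := Real.pi_pos
    field_simp
  rwa [h6] at h5

end Pool.Agent.TH41.BL.FI5f
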