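import Mathlib
import Pool.Agent.TH41.BL.Stm

set_option autoImplicit false

open MeasureTheory Filter Topology

namespace Pool.Agent.TH41.BL.MAIf

open Pool.Agent.TH41.BL

open Pool.Agent.TH41.LP (WW)

lemma QQ_zero (n w : ℕ) : QQ n w (((0 : ℝ) : ℂ) * Complex.I) = 1 := by
  unfold QQ AA BB Lam
  simp

/-- the comparison of the sums -/
lemma compare (m : ℕ) (C v f : ℕ → ℝ) (bbw : ℕ → ℝ) (η Δ x : ℝ) (hC : ∀ w, 0 ≤ C w) (hΔ : 0 < Δ)
    (hx : 0 ≤ x)
    (h1 : ∀ w ∈ Finset.range m, η + Δ ≤ bbw w → |1 - v w| ≤ x)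
    (h2 : ∀ w ∈ Finset.range m, bbw w ≤ η + Δ → v w ≤ 1)
    (h3 : ∀ w ∈ Finset.range m, bbw w ≤ η → v w ≤ 5 / 6)
    (hf : ∀ w ∈ Finset.range m, bbw w < η + Δ → f w ≤ 0) :
    ∑ w ∈ Finset.range m, C w * (1 - v w) * f w ≤
      x * ∑ w ∈ (Finset.range m).filter (fun w => η ≤ bbw w), C w * |f w| -
        1 / 6 * ∑ w ∈ (Finset.range m).filter (fun w => bbw w < η), C w * |f w| := by
  classical
  rw [Finset.sum_filter, Finset.sum_filter, Finset.mul_sum, Finset.mul_sum,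
    ← Finset.sum_sub_distrib]
  refine Finset.sum_le_sum fun w hw => ?_
  have hCw := hC w
  have hab := abs_nonneg (f w)
  have hCf : 0 ≤ C w * |f w| := mul_nonneg hCw hab
  rcases lt_or_ge (bbw w) η with hb | hb
  · rw [if_neg (not_le.2 hb), if_pos hb]
    have hfw := hf w hw (by linarith)
    have hv := h3 w hw hb.le
    rw [abs_of_nonpos hfw]
    have e1 : 0 ≤ (1 - v w - 1 / 6) * (C w * (-f w)) :=
      mul_nonneg (by linarith) (mul_nonneg hCw (by linarith))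
    nlinarith
  · rw [if_pos hb, if_neg (not_lt.2 hb)]
    rcases lt_or_ge (bbw w) (η + Δ) with hb2 | hb2
    · have hfw := hf w hw hb2
      have hv := h2 w hw hb2.le
      have e1 : 0 ≤ (1 - v w) * (C w * (-f w)) :=
        mul_nonneg (by linarith) (mul_nonneg hCw (by linarith))
      have e2 : 0 ≤ x * (C w * |f w|) := mul_nonneg hx hCf
      nlinarith
    · have hv := h1 w hw hb2
      have e1 : C w * (1 - v w) * f w ≤ |C w * (1 - v w) * f w| := le_abs_self _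
      rw [abs_mul, abs_mul, abs_of_nonneg hCw] at e1
      have e2 : |1 - v w| * (C w * |f w|) ≤ x * (C w * |f w|) :=
        mul_le_mul_of_nonneg_right hv hCf
      nlinarith

theorem main (hk : S_kra) (hl : S_left) (ht : S_trans) (hd : S_dual) (hn : S_near) : S_main := by
  obtain ⟨-, hk2, hk3, -, -⟩ := hk
  intro δ μ hμ0 hμ1 hδ
  have hπ := Real.pi_pos
  have hπ3 := Real.pi_gt_three
  have hπ4 := Real.pi_le_four
  obtain ⟨η0, hη0⟩ : ∃ η0 : ℝ, η0 = -(4 * μ / Real.pi) := ⟨_, rfl⟩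
  have hηle : η0 ≤ 0 := by
    rw [hη0]
    have : 0 ≤ 4 * μ / Real.pi := by positivity
    linarith
  have hηge : -1 ≤ η0 := by
    rw [hη0, neg_le_neg_iff, div_le_one hπ]
    linarith
  have hηπ : -(η0 * Real.pi / 4) = μ := by
    rw [hη0]
    field_simp
  obtain ⟨γ, hγ⟩ : ∃ γ : ℝ, γ = (1 - 2 * δ - 2 / Real.pi) - η0 := ⟨_, rfl⟩
  have hγ0 : 0 < γ := by
    rw [hγ, hη0]
    have e1 : 4 * μ / Real.pi = 2 * (2 * μ / Real.pi) := by ring
    have e2 : 2 / Real.pi = 2 * (1 / Real.pi) := by ring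
    linarith
  obtain ⟨ε, hε⟩ : ∃ ε : ℝ, ε = min (γ / 2) (1 / 4) := ⟨_, rfl⟩
  have hε0 : 0 < ε := by
    rw [hε]
    exact lt_min (by linarith) (by norm_num)
  have hε4 : ε ≤ 1 / 4 := by
    rw [hε]
    exact min_le_right _ _
  have hεγ : ε ≤ γ / 2 := by
    rw [hε]
    exact min_le_left _ _
  have hηabs : |η0 + ε| ≤ 1 := abs_le.2 ⟨by linarith, by linarith⟩
  obtain ⟨D0, hD0, n1, h1⟩ := ht ε (η0 + ε) hε0 (by linarith) hηabs
  obtain ⟨Δ, hΔ⟩ : ∃ Δ : ℝ, Δ = min D0 ε := ⟨_, rfl⟩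
  have hΔ0 : 0 < Δ := by
    rw [hΔ]
    exact lt_min hD0 hε0
  have hΔD : Δ ≤ D0 := by
    rw [hΔ]
    exact min_le_left _ _
  have hΔε : Δ ≤ ε := by
    rw [hΔ]
    exact min_le_right _ _
  obtain ⟨ε1, hε1, n2, h2⟩ := hl ε (η0 + ε) Δ hε0 hηabs hΔ0
  obtain ⟨n3, h3⟩ := hn η0 ε (ε1 / 2) hηle hηge hε0 (by linarith)
  obtain ⟨n4, h4⟩ := hd ε hε0
  obtain ⟨n5, h5⟩ := exists_nat_ge (10 / ε1)
  refine ⟨n1 + n2 + n3 + n4 + n5 + 1, ?_⟩
  intro n hnn d hdn l hl0 hfe
  have hn1 : (1 : ℝ) ≤ n := by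
    have : 1 ≤ n := by omega
    exact_mod_cast this
  have hnpos : (0 : ℝ) < n := by linarith
  -- the function
  obtain ⟨f, hf⟩ : ∃ f : ℕ → ℝ, f = fun w => ∑ i ∈ Finset.range (n + 1), l i * (kr n i w : ℝ) :=
    ⟨_, rfl⟩
  have htr : ∀ j, j ≤ n → tr n f j = √2 ^ n * l j := by
    intro j hj
    rw [hf]
    exact hk2 n l j hj
  have hs2 : (0 : ℝ) < √2 ^ n := by positivity
  have hs22 : (√2 : ℝ) ^ n * √2 ^ n = 2 ^ n := by
    rw [← mul_pow, Real.mul_self_sqrt (by norm_num)]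
  obtain ⟨Sg, hSg⟩ : ∃ Sg : ℝ, Sg = ∑ j ∈ Finset.range (n + 1), l j * (kr n j 0 : ℝ) := ⟨_, rfl⟩
  have hNN : NN n f = √2 ^ n * Sg := by
    unfold NN
    rw [hSg, Finset.mul_sum]
    refine Finset.sum_congr rfl fun j hj => ?_
    have hj' : j ≤ n := by
      have := Finset.mem_range.1 hj
      omega
    rw [htr j hj', abs_of_nonneg (mul_nonneg hs2.le (hl0 j)), hk3]
    push_cast
    ring
  have hsum : ∑ w ∈ Finset.range (n + 1), (n.choose w : ℝ) * f w = 2 ^ n * l 0 := by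
    have e1 := htr 0 (Nat.zero_le n)
    unfold tr at e1
    have e2 : ∑ w ∈ Finset.range (n + 1), f w * (kr n w 0 : ℝ) = √2 ^ n * (√2 ^ n * l 0) := by
      rw [← e1, ← mul_assoc, mul_inv_cancel₀ hs2.ne', one_mul]
    rw [← mul_assoc, hs22] at e2
    rw [← e2]
    refine Finset.sum_congr rfl fun w _ => ?_
    rw [hk3]
    push_cast
    ring
  -- the weights
  obtain ⟨v, hv⟩ : ∃ v : ℕ → ℝ, ∀ w, v w = (vv n w ε (η0 + ε) 0).re := ⟨_, fun _ => rfl⟩
  have hre : (∑ w ∈ Finset.range (n + 1), (n.choose w : ℂ) * vv n w ε (η0 + ε) 0 * (f w : ℂ)).re =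
      ∑ w ∈ Finset.range (n + 1), (n.choose w : ℝ) * v w * f w := by
    rw [Complex.re_sum]
    refine Finset.sum_congr rfl fun w _ => ?_
    rw [Complex.re_mul_ofReal, ← Complex.ofReal_natCast, Complex.re_ofReal_mul, hv]
  have hdual := h4 n (by omega) (η0 + ε) 0 f
  have hdual2 : |∑ w ∈ Finset.range (n + 1), (n.choose w : ℝ) * v w * f w| ≤
      Real.exp (μ * n) * NN n f := by
    rw [← hre]
    refine (Complex.abs_re_le_norm _).trans (hdual.trans ?_)
    have hNN0 : 0 ≤ NN n f := by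
      unfold NN
      exact Finset.sum_nonneg fun j _ => mul_nonneg (Nat.cast_nonneg _) (abs_nonneg _)
    refine mul_le_mul_of_nonneg_right (Real.exp_le_exp.2 ?_) hNN0
    rw [mul_comm μ]
    refine mul_le_mul_of_nonneg_left ?_ hnpos.le
    have e1 : ε * Real.pi ^ 2 / 16 - (η0 + ε) * Real.pi / 4 =
        -(η0 * Real.pi / 4) - ε * Real.pi * (4 - Real.pi) / 16 := by ring
    rw [e1, hηπ]
    have e2 : 0 ≤ ε * Real.pi * (4 - Real.pi) / 16 :=
      div_nonneg (mul_nonneg (mul_nonneg hε0.le hπ.le) (by linarith)) (by norm_num)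
    linarith
  -- the position of the small weights
  have hbbw : ∀ w : ℕ, w < d → η0 + ε + Δ ≤ bb n w := by
    intro w hw
    unfold bb
    have e1 : (w : ℝ) ≤ δ * n := by
      have : (w : ℝ) ≤ d := by exact_mod_cast hw.le
      linarith
    have e2 : 2 * (w : ℝ) / n ≤ 2 * δ := by
      rw [div_le_iff₀ hnpos]
      linarith
    have e3 : η0 + γ = 1 - 2 * δ - 2 / Real.pi := by
      rw [hγ]
      ring
    linarith
  have hwn : ∀ w ∈ Finset.range (n + 1), w ≤ n := fun w hw => by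
    have := Finset.mem_range.1 hw
    omega
  have hcmp := compare (n + 1) (fun w => (n.choose w : ℝ)) v f (fun w => bb n w) (η0 + ε) Δ
    (Real.exp (-ε1 * n)) (fun w => Nat.cast_nonneg _) hΔ0 (Real.exp_pos _).le
    (fun w hw hb => by
      have e1 := h2 n w (by omega) (hwn w hw) 0 (by
        rw [mul_zero, Real.cosh_zero, div_one]
        exact hb)
      rw [QQ_zero] at e1
      have e2 := (Complex.abs_re_le_norm _).trans e1
      rw [Complex.sub_re, Complex.one_re, ← hv, abs_sub_comm] at e2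
      exact e2)
    (fun w hw hb => by
      have e1 := (h1 n w (by omega) (hwn w hw)).1 (hb.trans (by linarith))
      rw [hv]
      exact e1)
    (fun w hw hb => by
      have e1 := (h1 n w (by omega) (hwn w hw)).2 hb
      rw [hv]
      exact e1)
    (fun w hw hb => by
      have hdw : d ≤ w := by
        by_contra hcon
        have := hbbw w (by omega)
        linarith
      have := hfe w hdw (hwn w hw)
      rw [hf]
      exact this)
  have hnear := h3 n (by omega) f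
  obtain ⟨Ne, hNe⟩ : ∃ Ne : ℝ, Ne = ∑ w ∈ (Finset.range (n + 1)).filter
    (fun w => η0 + ε ≤ bb n w), (n.choose w : ℝ) * |f w| := ⟨_, rfl⟩
  obtain ⟨Fa, hFa⟩ : ∃ Fa : ℝ, Fa = ∑ w ∈ (Finset.range (n + 1)).filter
    (fun w => bb n w < η0 + ε), (n.choose w : ℝ) * |f w| := ⟨_, rfl⟩
  have hFa0 : 0 ≤ Fa := by
    rw [hFa]
    exact Finset.sum_nonneg fun j _ => mul_nonneg (Nat.cast_nonneg _) (abs_nonneg _)
  rw [← hNe, ← hFa, hηπ] at hnear
  rw [← hNe, ← hFa] at hcmp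
  have hNN0 : 0 ≤ NN n f := by
    unfold NN
    exact Finset.sum_nonneg fun j _ => mul_nonneg (Nat.cast_nonneg _) (abs_nonneg _)
  -- the exponential factors
  have hx6 : Real.exp (-(ε1 / 2) * n) ≤ 1 / 6 := by
    have e1 : 5 ≤ ε1 / 2 * n := by
      have e2 : (n5 : ℝ) ≤ n := by
        have : n5 ≤ n := by omega
        exact_mod_cast this
      have e3 : 10 / ε1 ≤ n := h5.trans e2
      rw [div_le_iff₀ hε1] at e3
      linarith
    have e2 := Real.add_one_le_exp (ε1 / 2 * n)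
    have e3 : 6 ≤ Real.exp (ε1 / 2 * n) := by linarith
    rw [neg_mul, Real.exp_neg, one_div]
    exact inv_anti₀ (by norm_num) e3
  have hxx : Real.exp (-ε1 * n) * Real.exp (ε1 / 2 * n) = Real.exp (-(ε1 / 2) * n) := by
    rw [← Real.exp_add]
    congr 1
    ring
  have hexp0 := Real.exp_pos (μ * n)
  have hE := mul_nonneg hexp0.le hNN0
  have hS : ∑ w ∈ Finset.range (n + 1), (n.choose w : ℝ) * (1 - v w) * f w ≤
      Real.exp (μ * n) * NN n f := by
    refine hcmp.trans ?_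
    have e1 : Real.exp (-ε1 * n) * Ne ≤ Real.exp (-(ε1 / 2) * n) *
        (Fa + Real.exp (μ * n) * NN n f) := by
      rw [← hxx, mul_assoc]
      exact mul_le_mul_of_nonneg_left hnear (Real.exp_pos _).le
    have e2 : Real.exp (-(ε1 / 2) * n) * (Fa + Real.exp (μ * n) * NN n f) ≤
        1 / 6 * (Fa + Real.exp (μ * n) * NN n f) :=
      mul_le_mul_of_nonneg_right hx6 (by linarith)
    linarith
  have hsplit : ∑ w ∈ Finset.range (n + 1), (n.choose w : ℝ) * (1 - v w) * f w =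
      2 ^ n * l 0 - ∑ w ∈ Finset.range (n + 1), (n.choose w : ℝ) * v w * f w := by
    rw [← hsum, ← Finset.sum_sub_distrib]
    refine Finset.sum_congr rfl fun w _ => ?_
    ring
  have hfin : 2 ^ n * l 0 ≤ 2 * (Real.exp (μ * n) * NN n f) := by
    have e1 := le_abs_self (∑ w ∈ Finset.range (n + 1), (n.choose w : ℝ) * v w * f w)
    rw [hsplit] at hS
    linarith
  rw [← hSg]
  rw [hNN, ← hs22] at hfin
  have e1 : √2 ^ n * (√2 ^ n * l 0) ≤ √2 ^ n * (2 * Real.exp (μ * n) * Sg) := by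
    nlinarith
  have e2 := le_of_mul_le_mul_left e1 hs2
  have e3 : Real.exp (-μ * n) * Real.exp (μ * n) = 1 := by
    rw [← Real.exp_add]
    simp
  calc √2 ^ n * Real.exp (-μ * n) * l 0 = Real.exp (-μ * n) * (√2 ^ n * l 0) := by ring
    _ ≤ Real.exp (-μ * n) * (2 * Real.exp (μ * n) * Sg) :=
        mul_le_mul_of_nonneg_left e2 (Real.exp_pos _).le
    _ = 2 * Sg * (Real.exp (-μ * n) * Real.exp (μ * n)) := by ring
    _ = 2 * Sg := by rw [e3, mul_one]

end Pool.Agent.TH41.BL.MAIf
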