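import Mathlib
import Pool.Agent.TH41.BL.Stm

set_option autoImplicit false

open MeasureTheory Filter Topology

namespace Pool.Agent.TH41.BL.RIGf

open Pool.Agent.TH41.BL

open Pool.Agent.TH41.LP (WW)

/-- the integrand on the line -/
lemma integrand {C κ₀ ε ε₂ η κ τ : ℝ} {n w : ℕ} (hn : 0 < n) (hQ : QB C κ₀ n w)
    (hε : 0 < ε) (hκ : 0 < κ) (hκ₀ : κ ≤ κ₀) (hκ1 : κ ≤ 1) (hη : |η| ≤ 1)
    (hk : κ * (C + ε + 1) ≤ ε₂ / 2) (t : ℝ) :
    ‖YY n w ε τ ((κ : ℂ) + t * Complex.I) / ((κ : ℂ) + t * Complex.I) *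
      Complex.exp (-((κ : ℂ) + t * Complex.I) * ((n * η : ℝ) : ℂ))‖ ≤
      κ⁻¹ * Real.exp (n * (ε₂ / 2)) * Real.exp (-(n * ε) * t ^ 2) := by
  have hn' : (0 : ℝ) < n := by exact_mod_cast hn
  set s : ℂ := (κ : ℂ) + t * Complex.I with hs
  have e1 : s + τ * Complex.I = (κ : ℂ) + ((t + τ : ℝ) : ℂ) * Complex.I := by
    rw [hs]
    push_cast
    ring
  have hre : s.re = κ := by simp [hs]
  have him : s.im = t := by simp [hs]
  have h1 : ‖QQ n w (s + τ * Complex.I)‖ ≤ Real.exp (C * n * κ) := by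
    rw [e1]
    have := hQ.q2 κ (t + τ) (by rw [abs_of_pos hκ]; exact hκ₀)
    rwa [abs_of_pos hκ] at this
  have h2 : ‖Complex.exp (n * ε * s ^ 2)‖ = Real.exp (n * (ε * (κ ^ 2 - t ^ 2))) := by
    rw [Complex.norm_exp]
    congr 1
    have e2 : (n * ε * s ^ 2 : ℂ) = ((n * ε : ℝ) : ℂ) * s ^ 2 := by push_cast; ring
    rw [e2, Complex.re_ofReal_mul, pow_two, Complex.mul_re, hre, him]
    ring
  have h3 : ‖Complex.exp (-s * ((n * η : ℝ) : ℂ))‖ = Real.exp (n * (-κ * η)) := by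
    rw [Complex.norm_exp]
    congr 1
    rw [Complex.re_mul_ofReal, Complex.neg_re, hre]
    ring
  have h4 : κ ≤ ‖s‖ := by
    have := Complex.abs_re_le_norm s
    rw [hre, abs_of_pos hκ] at this
    exact this
  have h5 : ‖YY n w ε τ s‖ ≤ Real.exp (C * n * κ) * Real.exp (n * (ε * (κ ^ 2 - t ^ 2))) := by
    unfold YY
    rw [norm_mul, h2]
    exact mul_le_mul_of_nonneg_right h1 (Real.exp_pos _).le
  rw [norm_mul, norm_div, h3]
  have h6 : ‖YY n w ε τ s‖ / ‖s‖ ≤ κ⁻¹ * (Real.exp (C * n * κ) *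
      Real.exp (n * (ε * (κ ^ 2 - t ^ 2)))) := by
    rw [div_eq_inv_mul]
    exact mul_le_mul (inv_anti₀ hκ h4) h5 (norm_nonneg _) (inv_nonneg.2 hκ.le)
  refine (mul_le_mul_of_nonneg_right h6 (Real.exp_pos _).le).trans ?_
  rw [mul_assoc, mul_assoc κ⁻¹, ← Real.exp_add, ← Real.exp_add, ← Real.exp_add]
  refine mul_le_mul_of_nonneg_left (Real.exp_le_exp.2 ?_) (inv_nonneg.2 hκ.le)
  have h7 : -η ≤ 1 := by
    have := (abs_le.1 hη).1
    linarith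
  have h8 : κ * (-η) ≤ κ * 1 := mul_le_mul_of_nonneg_left h7 hκ.le
  have h9 : κ ^ 2 ≤ κ := by nlinarith
  have h10 : ε * κ ^ 2 ≤ ε * κ := mul_le_mul_of_nonneg_left h9 hε.le
  have h11 : C * κ + ε * κ ^ 2 + κ * (-η) ≤ ε₂ / 2 := by nlinarith
  have h12 := mul_le_mul_of_nonneg_left h11 hn'.le
  nlinarith

theorem right (h : S_sh) (hb : S_qb) : S_right := by
  intro ε ε₂ hε hε₂
  obtain ⟨C, κ₀, hC, hκ₀, hκπ, hQ⟩ := hb
  have hD : 0 < C + ε + 1 := by positivity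
  set κ : ℝ := min (min κ₀ (1 / 2)) (ε₂ / 2 / (C + ε + 1)) with hκdef
  have hκ : 0 < κ := lt_min (lt_min hκ₀ (by norm_num)) (by positivity)
  have hκ1 : κ ≤ κ₀ := (min_le_left _ _).trans (min_le_left _ _)
  have hκ3 : κ ≤ 1 / 2 := (min_le_left _ _).trans (min_le_right _ _)
  have hκ2 : κ * (C + ε + 1) ≤ ε₂ / 2 := by
    have := min_le_right (min κ₀ (1 / 2)) (ε₂ / 2 / (C + ε + 1))
    rwa [← hκdef, le_div_iff₀ hD] at this
  set K : ℝ := κ⁻¹ * √(Real.pi / ε) with hK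
  have hK0 : 0 ≤ K := by positivity
  obtain ⟨n₁, hn₁⟩ := exists_nat_ge (K / (ε₂ / 2))
  refine ⟨n₁ + 1, ?_⟩
  intro n w hn hw τ η hη
  have hn0 : 0 < n := by omega
  have hn' : (1 : ℝ) ≤ n := by exact_mod_cast hn0
  have hsh := (h n w ε η τ hn0 hw hε).1 κ hκ (by linarith [Real.pi_gt_three])
  rw [hsh]
  have hint : Integrable (fun t : ℝ => κ⁻¹ * Real.exp (n * (ε₂ / 2)) *
      Real.exp (-(n * ε) * t ^ 2)) := by
    refine Integrable.const_mul ?_ _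
    exact integrable_exp_neg_mul_sq (by positivity)
  have hW : ‖WW (YY n w ε τ) κ (n * η)‖ ≤ ∫ t : ℝ, κ⁻¹ * Real.exp (n * (ε₂ / 2)) *
      Real.exp (-(n * ε) * t ^ 2) := by
    unfold WW
    refine norm_integral_le_of_norm_le hint (ae_of_all _ fun t => ?_)
    exact integrand hn0 (hQ n w hn0 hw) hε hκ hκ1 (by linarith) hη hκ2 t
  rw [integral_const_mul, integral_gaussian] at hW
  have h1 : √(Real.pi / (n * ε)) ≤ √(Real.pi / ε) := by
    apply Real.sqrt_le_sqrt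
    apply div_le_div_of_nonneg_left Real.pi_pos.le hε
    nlinarith
  have h2 : K ≤ Real.exp (n * (ε₂ / 2)) := by
    have h3 : K / (ε₂ / 2) ≤ n := hn₁.trans (by exact_mod_cast (by omega : n₁ ≤ n))
    rw [div_le_iff₀ (by positivity)] at h3
    have h4 := Real.add_one_le_exp (n * (ε₂ / 2))
    linarith
  have hpi : 1 ≤ 2 * Real.pi := by linarith [Real.pi_gt_three]
  rw [norm_div]
  have h5 : ‖(2 * Real.pi : ℂ)‖ = 2 * Real.pi := by
    rw [norm_mul, Complex.norm_ofNat, Complex.norm_real, Real.norm_eq_abs,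
      abs_of_pos Real.pi_pos]
  rw [h5, div_le_iff₀ (by positivity)]
  calc ‖WW (YY n w ε τ) κ (n * η)‖
      ≤ κ⁻¹ * Real.exp (n * (ε₂ / 2)) * √(Real.pi / (n * ε)) := hW
    _ ≤ κ⁻¹ * Real.exp (n * (ε₂ / 2)) * √(Real.pi / ε) := by gcongr
    _ = K * Real.exp (n * (ε₂ / 2)) := by
      rw [hK]
      ring
    _ ≤ Real.exp (n * (ε₂ / 2)) * Real.exp (n * (ε₂ / 2)) := by gcongr
    _ = Real.exp (ε₂ * n) := by
      rw [← Real.exp_add]
      congr 1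
      ring
    _ ≤ Real.exp (ε₂ * n) * (2 * Real.pi) :=
      le_mul_of_one_le_right (Real.exp_pos _).le hpi

end Pool.Agent.TH41.BL.RIGf
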