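import Mathlib
import Pool.Agent.TH41.BL.Stm

set_option autoImplicit false

open MeasureTheory Filter Topology

namespace Pool.Agent.TH41.BL.SHAf

open Pool.Agent.TH41.BL

open Pool.Agent.TH41.LP (WW)

theorem sh (hs : S_shift) (hq : S_qq) : S_sh := by
  intro n w ε η τ hn hw hε
  have hπ := Real.pi_pos
  have hπ4 : Real.pi < 4 := Real.pi_lt_four
  obtain ⟨h1, _, _, _, _, M, hM⟩ := hq n w hw
  have hM0 : 0 ≤ M := by
    refine le_trans (norm_nonneg _) (hM 0 ?_ ?_)
    · simp only [Complex.zero_re]; linarith
    · simp only [Complex.zero_re]; linarith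
  have hnε : 0 < (n : ℝ) * ε := by
    have : (0 : ℝ) < n := by exact_mod_cast hn
    positivity
  have key := hs (YY n w ε τ) (Real.pi / 16) (Real.pi / 4) (Real.pi / 10) (3 * Real.pi / 8)
    (M * Real.exp (n * ε)) (n * ε) (by linarith) (by linarith) (by linarith) (by linarith) hnε
    (by
      intro s hs1 hs2
      have hre : (s + τ * Complex.I).re = s.re := by simp
      have hd : DifferentiableAt ℂ (fun s : ℂ => QQ n w (s + τ * Complex.I)) s := by
        have hd0 : DifferentiableAt ℂ (QQ n w) (s + τ * Complex.I) := by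
          apply h1
          · rw [hre]; linarith
          · rw [hre]; linarith
        have hd1 : DifferentiableAt ℂ (fun s : ℂ => s + τ * Complex.I) s := by fun_prop
        exact DifferentiableAt.comp (g := QQ n w) (f := fun s : ℂ => s + τ * Complex.I) s hd0 hd1
      unfold YY
      exact hd.mul (by fun_prop))
    (by
      intro s hs1 hs2
      have hre : (s + τ * Complex.I).re = s.re := by simp
      have hb : ‖QQ n w (s + τ * Complex.I)‖ ≤ M := by
        apply hM
        · rw [hre]; linarith
        · rw [hre]; linarith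
      have he : ‖Complex.exp (n * ε * s ^ 2)‖ = Real.exp (n * ε * (s.re ^ 2 - s.im ^ 2)) := by
        rw [Complex.norm_exp]
        congr 1
        have : (n : ℂ) * ε * s ^ 2 = (((n : ℝ) * ε : ℝ) : ℂ) * s ^ 2 := by push_cast; ring
        rw [this, Complex.re_ofReal_mul]
        congr 1
        rw [sq, Complex.mul_re]
        ring
      unfold YY
      rw [norm_mul, he]
      have hx : s.re ^ 2 ≤ 1 := by
        rw [sq_le_one_iff_abs_le_one, abs_le]
        constructor <;> linarith
      calc ‖QQ n w (s + τ * Complex.I)‖ * Real.exp (n * ε * (s.re ^ 2 - s.im ^ 2))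
          ≤ M * Real.exp (n * ε + -(n * ε) * s.im ^ 2) := by
            apply mul_le_mul hb _ (Real.exp_pos _).le hM0
            apply Real.exp_le_exp.mpr
            nlinarith
        _ = M * Real.exp (n * ε) * Real.exp (-(n * ε) * s.im ^ 2) := by
            rw [Real.exp_add]; ring)
    (n * η)
  obtain ⟨k1, k2⟩ := key
  constructor
  · intro c hc1 hc2
    unfold vv
    rw [k1 c hc1 hc2]
  · intro c hc1 hc2
    have h0 : YY n w ε τ 0 = QQ n w (τ * Complex.I) := by
      unfold YY
      simp
    have hk := k2 c hc1 hc2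
    rw [h0] at hk
    unfold vv
    have hπc : (2 * (Real.pi : ℂ)) ≠ 0 := by
      have : (Real.pi : ℂ) ≠ 0 := by exact_mod_cast hπ.ne'
      exact mul_ne_zero two_ne_zero this
    rw [sub_eq_iff_eq_add, div_eq_iff hπc, add_mul, div_mul_cancel₀ _ hπc]
    linear_combination hk

end Pool.Agent.TH41.BL.SHAf
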