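import Mathlib
import Pool.Agent.TH41.BL.Stm
import Pool.Agent.TH41.LP.SHIFT

set_option autoImplicit false

open MeasureTheory Filter Topology

namespace Pool.Agent.TH41.BL.SHIf

open Pool.Agent.TH41.BL

open Pool.Agent.TH41.LP (WW)

open Pool.Agent.TH41.LP.SHIFTf (strip int_line JG JG_pi JG_neg G_int norm_G)

open Complex

/-- the first part of the theorem, for functions differentiable in the strip -/
theorem part1' {Y : ℂ → ℂ} {c B M ε : ℝ} (hc : 0 < c) (hcB : c ≤ B) (hε : 0 < ε)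
    (hY : ∀ s : ℂ, c ≤ s.re → s.re ≤ B → DifferentiableAt ℂ Y s)
    (hb : ∀ s : ℂ, c ≤ s.re → s.re ≤ B → ‖Y s‖ ≤ M * Real.exp (-ε * s.im ^ 2)) (ρ : ℝ) :
    WW Y c ρ = WW Y B ρ := by
  unfold WW
  refine strip (g := fun s => Y s / s * cexp (-s * ρ)) (M := M / c * Real.exp (B * |ρ|)) hcB hε ?_ ?_
  · intro s h1 h2
    have hs : s ≠ 0 := by
      rintro rfl
      simp only [zero_re] at h1; linarith
    exact ((hY s h1 h2).div differentiableAt_id hs).mul (by fun_prop)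
  · intro s h1 h2
    have hM : 0 ≤ M := by
      have h3 := (norm_nonneg _).trans (hb s h1 h2)
      exact nonneg_of_mul_nonneg_left h3 (Real.exp_pos _)
    have hre : 0 < s.re := hc.trans_le h1
    have hn : c ≤ ‖s‖ := h1.trans (re_le_norm s)
    have e1 : ‖cexp (-s * ρ)‖ ≤ Real.exp (B * |ρ|) := by
      rw [norm_exp]
      apply Real.exp_le_exp.mpr
      rw [re_mul_ofReal, neg_re]
      calc -s.re * ρ ≤ |(-s.re) * ρ| := le_abs_self _
        _ = s.re * |ρ| := by rw [abs_mul, abs_neg, abs_of_pos hre]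
        _ ≤ B * |ρ| := mul_le_mul_of_nonneg_right h2 (abs_nonneg _)
    rw [norm_mul, norm_div]
    calc ‖Y s‖ / ‖s‖ * ‖cexp (-s * ρ)‖
        ≤ (M * Real.exp (-ε * s.im ^ 2)) / c * Real.exp (B * |ρ|) := by
          refine mul_le_mul ?_ e1 (norm_nonneg _) (by positivity)
          exact div_le_div₀ (by positivity) (hb s h1 h2) hc hn
      _ = _ := by ring

theorem shift : S_shift := by
  intro Y A B A' B' M ε hA hAA hB hBB hε hY hb ρ
  refine ⟨fun c hc hcB => part1' hc hcB hε (fun s h1 h2 => hY s (by linarith) (by linarith))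
    (fun s h1 h2 => hb s (by linarith) h2) ρ, ?_⟩
  intro c hcA hc
  have hM : 0 ≤ M := by
    have h1 := (norm_nonneg _).trans (hb 0 (by simpa using hA.le) (by simpa using hB.le))
    simpa using h1
  obtain ⟨R, hR⟩ : ∃ R : ℝ, R = A + B := ⟨_, rfl⟩
  have hR0 : 0 < R := by rw [hR]; positivity
  obtain ⟨h, hh⟩ : ∃ h : ℂ → ℂ, h = fun s => Y s * cexp (-s * ρ) - Y 0 * cexp (ε * s ^ 2) :=
    ⟨_, rfl⟩
  -- the open strip
  obtain ⟨U, hU⟩ : ∃ U : Set ℂ, U = {s : ℂ | -A' < s.re} ∩ {s : ℂ | s.re < B'} := ⟨_, rfl⟩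
  have hUo : IsOpen U := by
    rw [hU]
    exact (isOpen_lt continuous_const continuous_re).inter (isOpen_lt continuous_re continuous_const)
  have hU0 : U ∈ 𝓝 (0 : ℂ) := by
    refine hUo.mem_nhds ?_
    rw [hU]
    refine ⟨?_, ?_⟩
    · show -A' < (0 : ℂ).re
      rw [zero_re]; linarith
    · show (0 : ℂ).re < B'
      rw [zero_re]; linarith
  have hUs : ∀ s : ℂ, -A ≤ s.re → s.re ≤ B → s ∈ U := by
    intro s h1 h2
    rw [hU]
    refine ⟨?_, ?_⟩
    · show -A' < s.re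
      linarith
    · show s.re < B'
      linarith
  have hhd : DifferentiableOn ℂ h U := by
    intro s hs
    rw [hU] at hs
    have h1 : DifferentiableAt ℂ Y s := hY s hs.1 hs.2
    rw [hh]
    exact ((h1.mul (by fun_prop)).sub (by fun_prop)).differentiableWithinAt
  have hh0 : h 0 = 0 := by rw [hh]; simp
  obtain ⟨Q, hQ⟩ : ∃ Q : ℂ → ℂ, Q = dslope h 0 := ⟨_, rfl⟩
  have hQd' : DifferentiableOn ℂ Q U := by
    rw [hQ, Complex.differentiableOn_dslope hU0]
    exact hhd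
  have hQd : ∀ s : ℂ, -A ≤ s.re → s.re ≤ B → DifferentiableAt ℂ Q s := fun s h1 h2 =>
    hQd'.differentiableAt (hUo.mem_nhds (hUs s h1 h2))
  have hQs : ∀ s : ℂ, s ≠ 0 → Q s = h s / s := by
    intro s hs
    rw [hQ, dslope_of_ne _ hs, slope_def_field, hh0, sub_zero, sub_zero]
  have hre : ∀ s : ℂ, -A ≤ s.re → s.re ≤ B → |s.re| ≤ R := by
    intro s h1 h2
    rw [hR, abs_le]
    constructor <;> linarith
  -- bound of `h`
  obtain ⟨M1, hM1⟩ : ∃ M1 : ℝ, M1 = M * Real.exp (R * |ρ|) + ‖Y 0‖ * Real.exp (ε * R ^ 2) :=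
    ⟨_, rfl⟩
  have hM10 : 0 ≤ M1 := by rw [hM1]; positivity
  have hhb : ∀ s : ℂ, -A ≤ s.re → s.re ≤ B → ‖h s‖ ≤ M1 * Real.exp (-ε * s.im ^ 2) := by
    intro s h1 h2
    have h3 := hre s h1 h2
    have e1 : ‖cexp (-s * ρ)‖ ≤ Real.exp (R * |ρ|) := by
      rw [norm_exp]
      apply Real.exp_le_exp.mpr
      rw [re_mul_ofReal, neg_re]
      calc -s.re * ρ ≤ |(-s.re) * ρ| := le_abs_self _
        _ = |s.re| * |ρ| := by rw [abs_mul, abs_neg]
        _ ≤ R * |ρ| := mul_le_mul_of_nonneg_right h3 (abs_nonneg _)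
    have e2 : ‖cexp (ε * s ^ 2)‖ ≤ Real.exp (ε * R ^ 2) * Real.exp (-ε * s.im ^ 2) := by
      rw [norm_G, ← Real.exp_add]
      apply Real.exp_le_exp.mpr
      have h4 : s.re ^ 2 ≤ R ^ 2 := by
        rw [← sq_abs s.re]
        exact pow_le_pow_left₀ (abs_nonneg _) h3 2
      nlinarith
    rw [hh]
    simp only
    calc ‖Y s * cexp (-s * ρ) - Y 0 * cexp (ε * s ^ 2)‖
        ≤ ‖Y s‖ * ‖cexp (-s * ρ)‖ + ‖Y 0‖ * ‖cexp (ε * s ^ 2)‖ := by
          refine (norm_sub_le _ _).trans ?_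
          rw [norm_mul, norm_mul]
      _ ≤ (M * Real.exp (-ε * s.im ^ 2)) * Real.exp (R * |ρ|) +
          ‖Y 0‖ * (Real.exp (ε * R ^ 2) * Real.exp (-ε * s.im ^ 2)) := by
          refine add_le_add (mul_le_mul (hb s h1 h2) e1 (norm_nonneg _) (by positivity)) ?_
          exact mul_le_mul_of_nonneg_left e2 (norm_nonneg _)
      _ = _ := by rw [hM1]; ring
  -- bound of `Q`
  obtain ⟨M2, hM2⟩ : ∃ M2 : ℝ, ∀ s : ℂ, -A ≤ s.re → s.re ≤ B → |s.im| ≤ 1 → ‖Q s‖ ≤ M2 := by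
    have hcomp : IsCompact (Set.Icc (-A) B ×ℂ Set.Icc (-1 : ℝ) 1) :=
      isCompact_Icc.reProdIm isCompact_Icc
    have hcont : ContinuousOn Q (Set.Icc (-A) B ×ℂ Set.Icc (-1 : ℝ) 1) := by
      intro s hs
      rw [Complex.mem_reProdIm] at hs
      exact (hQd s hs.1.1 hs.1.2).continuousAt.continuousWithinAt
    obtain ⟨C, hC⟩ := hcomp.exists_bound_of_continuousOn hcont
    refine ⟨C, fun s h1 h2 h3 => hC s ?_⟩
    rw [Complex.mem_reProdIm]
    exact ⟨⟨h1, h2⟩, abs_le.mp h3⟩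
  have hM20 : 0 ≤ M2 := (norm_nonneg _).trans
    (hM2 0 (by simpa using hA.le) (by simpa using hB.le) (by simp))
  have hQb : ∀ s : ℂ, -A ≤ s.re → s.re ≤ B →
      ‖Q s‖ ≤ (M1 + M2 * Real.exp ε) * Real.exp (-ε * s.im ^ 2) := by
    intro s h1 h2
    rcases le_or_gt |s.im| 1 with h3 | h3
    · have h4 : 1 ≤ Real.exp ε * Real.exp (-ε * s.im ^ 2) := by
        rw [← Real.exp_add]
        apply Real.one_le_exp
        have : s.im ^ 2 ≤ 1 := by
          rw [← sq_abs]; exact pow_le_one₀ (abs_nonneg _) h3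
        nlinarith
      have h5 : 0 ≤ M1 * Real.exp (-ε * s.im ^ 2) := by positivity
      calc ‖Q s‖ ≤ M2 * 1 := by rw [mul_one]; exact hM2 s h1 h2 h3
        _ ≤ M2 * (Real.exp ε * Real.exp (-ε * s.im ^ 2)) := mul_le_mul_of_nonneg_left h4 hM20
        _ ≤ _ := by nlinarith
    · have hs : s ≠ 0 := by
        rintro rfl
        simp at h3
        linarith
      have hn : 1 ≤ ‖s‖ := h3.le.trans (abs_im_le_norm s)
      rw [hQs s hs, norm_div]
      have h5 : 0 ≤ M2 * Real.exp ε * Real.exp (-ε * s.im ^ 2) := by positivity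
      calc ‖h s‖ / ‖s‖ ≤ ‖h s‖ / 1 := div_le_div_of_nonneg_left (norm_nonneg _) one_pos hn
        _ ≤ M1 * Real.exp (-ε * s.im ^ 2) := by rw [div_one]; exact hhb s h1 h2
        _ ≤ _ := by nlinarith
  have hQint : ∫ t : ℝ, Q (c + t * I) = ∫ t : ℝ, Q (B + t * I) :=
    strip (by linarith) hε (fun s h1 h2 => hQd s (by linarith) h2)
      (fun s h1 h2 => hQb s (by linarith) h2)
  have key : ∀ x : ℝ, x ≠ 0 → -A ≤ x → x ≤ B →
      WW Y x ρ = Y 0 * JG ε x + ∫ t : ℝ, Q (x + t * I) := by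
    intro x hx h1 h2
    have i1 : Integrable (fun t : ℝ => Q (x + t * I)) :=
      int_line hε (fun t => hQd _ (by simpa using h1) (by simpa using h2)) (fun t => by
        simpa using hQb (x + t * I) (by simpa using h1) (by simpa using h2))
    have i2 : Integrable (fun t : ℝ => Y 0 * (cexp (ε * ((x : ℂ) + t * I) ^ 2) /
        ((x : ℂ) + t * I))) := (G_int hε hx).const_mul _
    unfold WW JG
    rw [← integral_const_mul, ← integral_add i2 i1]
    congr 1
    funext t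
    have hx' : (x : ℂ) + t * I ≠ 0 := by
      intro h
      have := congrArg re h
      simp at this
      exact hx this
    rw [hQs _ hx', hh]
    simp only
    field_simp
    ring
  have hc' : JG ε c = -Real.pi := by
    have h1 := JG_neg ε (-c)
    rw [neg_neg] at h1
    rw [h1, JG_pi hε (by linarith)]
  rw [key B hB.ne' (by linarith) le_rfl, key c hc.ne hcA (by linarith), hQint, hc', JG_pi hε hB]
  ring

end Pool.Agent.TH41.BL.SHIf
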