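import Mathlib
import Pool.Agent.TH41.BL.Stm9

/-!
Project BL7 (helper41, MP_dbfdb2_gt): the square root of the product state.
-/

set_option autoImplicit false

open MeasureTheory Filter Topology

open scoped FourierTransform

namespace Pool.Agent.TH41.BL.ST8f

open Pool.Agent.TH41.BL
open Pool.Agent.H390R2.LP

section one
variable {Ω X : Type} [Fintype Ω] [DecidableEq Ω] (s : Site Ω X)

/-- the square root of the one-site state -/
noncomputable def tau (a b : Ω) : ℝ := ∑ x, √(s.lam x) * s.u x a * s.u x b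

/-- the one-site state -/
noncomputable def rho (a b : Ω) : ℝ := ∑ x, s.lam x * s.u x a * s.u x b

lemma tau_comm (a b : Ω) : tau s a b = tau s b a :=
  Finset.sum_congr rfl fun _ _ => by ring

/-- a double sum with a weight, expanded in the eigenbasis -/
lemma tau_quad (F G : Ω → ℝ) :
    ∑ a, ∑ b, F a * G b * tau s a b ^ 2 =
      ∑ x, ∑ y, √(s.lam x) * √(s.lam y) *
        ((∑ a, s.u x a * F a * s.u y a) * (∑ b, s.u x b * G b * s.u y b)) := by
  have h1 : ∀ a b, F a * G b * tau s a b ^ 2 = ∑ x, ∑ y, √(s.lam x) * √(s.lam y) *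
      ((s.u x a * F a * s.u y a) * (s.u x b * G b * s.u y b)) := by
    intro a b
    unfold tau
    rw [sq, Finset.sum_mul_sum, Finset.mul_sum]
    refine Finset.sum_congr rfl fun x _ => ?_
    rw [Finset.mul_sum]
    exact Finset.sum_congr rfl fun y _ => by ring
  simp_rw [h1]
  have h2 : ∀ x y, √(s.lam x) * √(s.lam y) *
        ((∑ a, s.u x a * F a * s.u y a) * (∑ b, s.u x b * G b * s.u y b)) =
      ∑ a, ∑ b, √(s.lam x) * √(s.lam y) *
      ((s.u x a * F a * s.u y a) * (s.u x b * G b * s.u y b)) := by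
    intro x y
    rw [Finset.sum_mul_sum, Finset.mul_sum]
    exact Finset.sum_congr rfl fun a _ => by rw [Finset.mul_sum]
  simp_rw [h2]
  have h3 : ∀ (Φ : Ω → Ω → Ω → Ω → ℝ), ∑ a, ∑ b, ∑ x, ∑ y, Φ a b x y =
      ∑ x, ∑ y, ∑ a, ∑ b, Φ a b x y := by
    intro Φ
    have e1 : ∀ a, ∑ b, ∑ x, ∑ y, Φ a b x y = ∑ x, ∑ b, ∑ y, Φ a b x y :=
      fun a => Finset.sum_comm
    simp_rw [e1]
    rw [Finset.sum_comm]
    refine Finset.sum_congr rfl fun x _ => ?_
    have e2 : ∀ a, ∑ b, ∑ y, Φ a b x y = ∑ y, ∑ b, Φ a b x y := fun a => Finset.sum_comm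
    simp_rw [e2]
    rw [Finset.sum_comm]
  exact h3 _

lemma tau_quad_one (F : Ω → ℝ) :
    ∑ a, ∑ b, F a * tau s a b ^ 2 = ∑ x, s.lam x * ∑ a, s.u x a ^ 2 * F a := by
  have h := tau_quad s F (fun _ => 1)
  simp only [mul_one] at h
  rw [h]
  refine Finset.sum_congr rfl fun x _ => ?_
  rw [Finset.sum_eq_single x]
  · rw [s.u_orth x x, if_pos rfl, Real.mul_self_sqrt (s.lam_nonneg x), mul_one]
    congr 1
    exact Finset.sum_congr rfl fun a _ => by ring
  · intro y _ hy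
    rw [s.u_orth x y, if_neg (Ne.symm hy)]
    ring
  · simp

lemma tau_sq_sum : ∑ a, ∑ b, tau s a b ^ 2 = 1 := by
  have h := tau_quad_one s (fun _ => 1)
  simp only [one_mul, mul_one] at h
  rw [h]
  have e : ∀ x, ∑ a, s.u x a ^ 2 = 1 := by
    intro x
    have := s.u_orth x x
    rw [if_pos rfl] at this
    rw [← this]
    exact Finset.sum_congr rfl fun ω _ => by ring
  simp only [e, mul_one]
  exact s.lam_sum

lemma tau_comp (a b : Ω) : ∑ o, tau s a o * tau s o b = rho s a b := by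
  have h1 : ∀ o, tau s a o * tau s o b = ∑ x, ∑ y, (√(s.lam x) * √(s.lam y)) *
      (s.u x a * s.u y b) * (s.u x o * s.u y o) := by
    intro o
    unfold tau
    rw [Finset.sum_mul_sum]
    refine Finset.sum_congr rfl fun x _ => ?_
    exact Finset.sum_congr rfl fun y _ => by ring
  simp_rw [h1]
  rw [Finset.sum_comm]
  refine Finset.sum_congr rfl fun x _ => ?_
  rw [Finset.sum_comm]
  simp only [← Finset.mul_sum]
  rw [Finset.sum_eq_single x]
  · rw [s.u_orth x x, if_pos rfl, Real.mul_self_sqrt (s.lam_nonneg x)]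
    ring
  · intro y _ hy
    rw [s.u_orth x y, if_neg (Ne.symm hy), mul_zero]
  · simp

/-- the squared distance of two positions -/
noncomputable def h1 {q : ℕ} (s : Site Ω (Fin q)) (a b : Ω) : ℝ :=
  (((s.pos a : ℕ) : ℝ) - ((s.pos b : ℕ) : ℝ)) ^ 2

lemma h1_sum {q : ℕ} (s : Site Ω (Fin q)) :
    ∑ a, ∑ b, h1 s a b * tau s a b ^ 2 = s.E (fun (_ : Unit) (x : Fin q) => (x : ℝ)) := by
  have f1 := tau_quad_one s (fun ω => ((s.pos ω : ℕ) : ℝ) ^ 2)
  have f2 : ∑ a, ∑ b, ((s.pos b : ℕ) : ℝ) ^ 2 * tau s a b ^ 2 =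
      ∑ a, ∑ b, ((s.pos a : ℕ) : ℝ) ^ 2 * tau s a b ^ 2 := by
    rw [Finset.sum_comm]
    exact Finset.sum_congr rfl fun b _ => Finset.sum_congr rfl fun a _ => by
      rw [tau_comm s a b]
  have f3 := tau_quad s (fun ω => ((s.pos ω : ℕ) : ℝ)) (fun ω => ((s.pos ω : ℕ) : ℝ))
  have f4 : ∑ a, ∑ b, h1 s a b * tau s a b ^ 2 =
      ∑ a, ∑ b, ((s.pos a : ℕ) : ℝ) ^ 2 * tau s a b ^ 2 +
      ∑ a, ∑ b, ((s.pos b : ℕ) : ℝ) ^ 2 * tau s a b ^ 2 -
      2 * ∑ a, ∑ b, ((s.pos a : ℕ) : ℝ) * ((s.pos b : ℕ) : ℝ) * tau s a b ^ 2 := by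
    unfold h1
    simp only [Finset.mul_sum, ← Finset.sum_add_distrib, ← Finset.sum_sub_distrib]
    exact Finset.sum_congr rfl fun _ _ => Finset.sum_congr rfl fun _ _ => by ring
  rw [f4, f2, f1, f3]
  have f5 : ∀ x y, √(s.lam x * s.lam y) *
      (∑ ω, s.u x ω * ((s.pos ω : ℕ) : ℝ) * s.u y ω) ^ 2 =
      √(s.lam x) * √(s.lam y) * ((∑ ω, s.u x ω * ((s.pos ω : ℕ) : ℝ) * s.u y ω) *
        (∑ ω, s.u x ω * ((s.pos ω : ℕ) : ℝ) * s.u y ω)) := by
    intro x y
    rw [Real.sqrt_mul (s.lam_nonneg x)]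
    ring
  unfold Site.E
  simp only [Finset.univ_unique, Finset.sum_singleton]
  simp_rw [f5]
  ring

end one

section prod
variable {Ω : Type} [Fintype Ω] [DecidableEq Ω] {m q : ℕ}

lemma sum_prod2 (φ : Fin m → Ω → Ω → ℝ) :
    ∑ a : Fin m → Ω, ∑ b : Fin m → Ω, ∏ k, φ k (a k) (b k) = ∏ k, ∑ o, ∑ o', φ k o o' := by
  have h : ∀ a : Fin m → Ω, ∑ b : Fin m → Ω, ∏ k, φ k (a k) (b k) = ∏ k, ∑ o', φ k (a k) o' :=
    fun a => sum_prod fun k o' => φ k (a k) o'
  simp_rw [h]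
  exact sum_prod fun k o => ∑ o', φ k o o'

lemma sd_eq (s : Site Ω (Fin q)) (a b : Fin m → Ω) :
    sd s.pos a b = ∑ k, h1 s (a k) (b k) := rfl

lemma Tg_apply (s : Site Ω (Fin q)) (a b : Fin m → Ω) : Tg s m a b = ∏ k, tau s (a k) (b k) := rfl

lemma Tg_eq (s : Site Ω (Fin q)) (a b : Fin m → Ω) :
    Tg s m a b = ∑ c : Fin m → Ω, (∏ k, √(s.lam (c k))) * pv s.u c a * pv s.u c b := by
  rw [Tg_apply]
  unfold tau
  rw [← sum_prod fun k x => √(s.lam x) * s.u x (a k) * s.u x (b k)]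
  refine Finset.sum_congr rfl fun c _ => ?_
  rw [Finset.prod_mul_distrib, Finset.prod_mul_distrib]
  rfl

lemma Tg_psd (s : Site Ω (Fin q)) : PSD (Tg s m) := by
  constructor
  · ext a b
    rw [Matrix.transpose_apply, Tg_apply, Tg_apply]
    exact Finset.prod_congr rfl fun k _ => tau_comm s _ _
  · intro x
    have h : ∑ a, ∑ b, x a * Tg s m a b * x b =
        ∑ c : Fin m → Ω, (∏ k, √(s.lam (c k))) * (∑ a, x a * pv s.u c a) ^ 2 := by
      have h1 : ∀ a b, x a * Tg s m a b * x b = ∑ c : Fin m → Ω, (∏ k, √(s.lam (c k))) *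
          ((x a * pv s.u c a) * (x b * pv s.u c b)) := by
        intro a b
        rw [Tg_eq, Finset.mul_sum, Finset.sum_mul]
        exact Finset.sum_congr rfl fun c _ => by ring
      simp_rw [h1]
      have h2 : ∀ c : Fin m → Ω, (∏ k, √(s.lam (c k))) * (∑ a, x a * pv s.u c a) ^ 2 =
          ∑ a, ∑ b, (∏ k, √(s.lam (c k))) * ((x a * pv s.u c a) * (x b * pv s.u c b)) := by
        intro c
        rw [sq, Finset.sum_mul_sum, Finset.mul_sum]
        exact Finset.sum_congr rfl fun a _ => by rw [Finset.mul_sum]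
      simp_rw [h2]
      have h3 : ∀ a, ∑ b, ∑ c : Fin m → Ω, (∏ k, √(s.lam (c k))) *
          ((x a * pv s.u c a) * (x b * pv s.u c b)) =
          ∑ c : Fin m → Ω, ∑ b, (∏ k, √(s.lam (c k))) *
          ((x a * pv s.u c a) * (x b * pv s.u c b)) := fun a => Finset.sum_comm
      simp_rw [h3]
      rw [Finset.sum_comm]
    rw [h]
    exact Finset.sum_nonneg fun c _ => mul_nonneg
      (Finset.prod_nonneg fun k _ => Real.sqrt_nonneg _) (sq_nonneg _)

lemma Tg_inv (s : Site Ω (Fin q)) : PInv (Tg s m) := by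
  intro σ a b
  rw [Tg_apply, Tg_apply]
  exact Equiv.prod_comp σ fun k => tau s (a k) (b k)

lemma Tg_mul (s : Site Ω (Fin q)) : Tg s m * Tg s m = Rg s m := by
  ext a b
  rw [Matrix.mul_apply]
  have h : ∀ c : Fin m → Ω, Tg s m a c * Tg s m c b =
      ∏ k, (tau s (a k) (c k) * tau s (c k) (b k)) := by
    intro c
    rw [Tg_apply, Tg_apply, ← Finset.prod_mul_distrib]
  simp_rw [h]
  rw [sum_prod fun k o => tau s (a k) o * tau s o (b k)]
  simp_rw [tau_comp]
  rfl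

lemma Tg_hs (s : Site Ω (Fin q)) : hs (Tg s m) (Tg s m) = 1 := by
  unfold hs
  have h : ∀ a b : Fin m → Ω, Tg s m a b * Tg s m a b = ∏ k, tau s (a k) (b k) ^ 2 := by
    intro a b
    rw [Tg_apply, ← Finset.prod_mul_distrib]
    exact Finset.prod_congr rfl fun k _ => by ring
  simp_rw [h]
  rw [sum_prod2 fun _ o o' => tau s o o' ^ 2]
  simp only [tau_sq_sum, Finset.prod_const_one]

lemma Tg_sd (s : Site Ω (Fin q)) :
    ∑ a : Fin m → Ω, ∑ b : Fin m → Ω, sd s.pos a b * (Tg s m a b * Tg s m a b) =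
      m * s.E (fun (_ : Unit) (x : Fin q) => (x : ℝ)) := by
  have h : ∀ a b : Fin m → Ω, sd s.pos a b * (Tg s m a b * Tg s m a b) =
      ∑ k, ∏ l, (if l = k then h1 s (a l) (b l) * tau s (a l) (b l) ^ 2
        else tau s (a l) (b l) ^ 2) := by
    intro a b
    rw [sd_eq, Finset.sum_mul]
    refine Finset.sum_congr rfl fun k _ => ?_
    rw [Tg_apply, ← Finset.prod_mul_distrib,
      ← Finset.mul_prod_erase Finset.univ _ (Finset.mem_univ k),
      ← Finset.mul_prod_erase Finset.univ (fun l => (if l = k then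
        h1 s (a l) (b l) * tau s (a l) (b l) ^ 2 else tau s (a l) (b l) ^ 2)) (Finset.mem_univ k),
      if_pos rfl]
    have h2 : ∏ l ∈ Finset.univ.erase k, (if l = k then h1 s (a l) (b l) * tau s (a l) (b l) ^ 2
        else tau s (a l) (b l) ^ 2) =
        ∏ l ∈ Finset.univ.erase k, (tau s (a l) (b l) * tau s (a l) (b l)) := by
      refine Finset.prod_congr rfl fun l hl => ?_
      rw [Finset.mem_erase] at hl
      rw [if_neg hl.1, sq]
    rw [h2]
    ring
  simp_rw [h]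
  have h3 : ∀ a : Fin m → Ω, ∑ b : Fin m → Ω, ∑ k, ∏ l, (if l = k then
      h1 s (a l) (b l) * tau s (a l) (b l) ^ 2 else tau s (a l) (b l) ^ 2) =
      ∑ k, ∑ b : Fin m → Ω, ∏ l, (if l = k then
      h1 s (a l) (b l) * tau s (a l) (b l) ^ 2 else tau s (a l) (b l) ^ 2) :=
    fun a => Finset.sum_comm
  simp_rw [h3]
  rw [Finset.sum_comm]
  have h4 : ∀ k : Fin m, ∑ a : Fin m → Ω, ∑ b : Fin m → Ω, ∏ l, (if l = k then
      h1 s (a l) (b l) * tau s (a l) (b l) ^ 2 else tau s (a l) (b l) ^ 2) = s.E (fun (_ : Unit) (x : Fin q) => (x : ℝ)) := by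
    intro k
    rw [sum_prod2 fun l o o' => (if l = k then h1 s o o' * tau s o o' ^ 2 else tau s o o' ^ 2),
      ← Finset.mul_prod_erase Finset.univ _ (Finset.mem_univ k)]
    have h5 : ∏ l ∈ Finset.univ.erase k, ∑ o, ∑ o', (if l = k then h1 s o o' * tau s o o' ^ 2
        else tau s o o' ^ 2) = 1 := by
      refine Finset.prod_eq_one fun l hl => ?_
      rw [Finset.mem_erase] at hl
      simp only [hl.1, if_false]
      exact tau_sq_sum s
    rw [h5, mul_one]
    simp only [if_true]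
    exact h1_sum s
  simp_rw [h4]
  rw [Finset.sum_const, Finset.card_univ, Fintype.card_fin, nsmul_eq_mul]

lemma Tg_energy (s : Site Ω (Fin q)) :
    hs (Tg s m) (Ae s.pos (Tg s m)) = -(m * s.E (fun (_ : Unit) (x : Fin q) => (x : ℝ))) := by
  rw [← Tg_sd]
  unfold hs Ae
  simp only [← Finset.sum_neg_distrib, Matrix.of_apply]
  exact Finset.sum_congr rfl fun _ _ => Finset.sum_congr rfl fun _ _ => by ring

end prod

theorem st8 : S8_st := by
  intro Ω _ _ q s m
  exact ⟨Tg_psd s, Tg_inv s, Tg_mul s, Tg_hs s, Tg_energy s⟩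

end Pool.Agent.TH41.BL.ST8f
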