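import Mathlib
import Pool.Agent.TH41.BL.Stm
import Pool.Agent.TH41.LP.VV2

set_option autoImplicit false

open MeasureTheory Filter Topology

namespace Pool.Agent.TH41.BL.TRAf

open Pool.Agent.TH41.BL

open Pool.Agent.TH41.LP (WW)

open Pool.Agent.TH41.LP.VVf

theorem pos_part' {Y : ℂ → ℂ} {σ ρ V y0 : ℝ} (hσ : σ < 0)
    (hVσ : √V / 5 ≤ -σ) (hV : 0 < V) (hy0 : 0 < y0)
    (h1 : ∀ t : ℝ, ‖Y (σ + t * Complex.I)‖ ≤
      101 / 100 * y0 * Real.exp (-(49 / 100) * t ^ 2 / V))
    (h2 : ∀ t : ℝ, |t| ≤ 3 * √V → ∃ m θ : ℝ, |θ| ≤ 1 / 1000 ∧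
      99 / 100 * Real.exp (-(51 / 100) * t ^ 2 / V) ≤ m ∧
      Y (σ + t * Complex.I) = (y0 : ℂ) * (m : ℂ) *
        Complex.exp (((ρ * t + θ : ℝ) : ℂ) * Complex.I)) :
    (WW Y σ ρ).re ≤ 0 := by
  have hsV : 0 < √V := Real.sqrt_pos.2 hV
  set a := -σ with ha
  have ha0 : 0 < a := by linarith
  by_cases hint : Integrable (fun t : ℝ => Y (σ + t * Complex.I) / (σ + t * Complex.I) *
      Complex.exp (-(σ + t * Complex.I) * ρ))
  swap
  · unfold WW
    rw [integral_undef hint]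
    simp
  set w := min a √V with hw
  have hw0 : 0 < w := lt_min ha0 hsV
  set mx := max a (3 * √V) with hmx
  have hmx0 : 0 < mx := lt_of_lt_of_le ha0 (le_max_left _ _)
  set E := y0 * Real.exp (a * ρ) with hE
  have hE0 : 0 < E := by positivity
  -- the upper bound of the real part of the integrand
  have key : ∀ t : ℝ, (Y (σ + t * Complex.I) / (σ + t * Complex.I) *
      Complex.exp (-(σ + t * Complex.I) * ρ)).re ≤
      E * (101 / 100 / mx * Real.exp (-(351 / 100)) * Real.exp (-(1 / 10 / V) * t ^ 2) -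
        (Set.Icc (-w) w).indicator (fun _ => 29 / 100 / a) t) := by
    intro t
    by_cases ht : |t| ≤ 3 * √V
    · obtain ⟨m, θ, hθ, hm, hYt⟩ := h2 t ht
      have hm0 : 0 ≤ m := le_trans (by positivity) hm
      have e1 : Y (σ + t * Complex.I) / (σ + t * Complex.I) *
          Complex.exp (-(σ + t * Complex.I) * ρ) =
          ((E * m / (a ^ 2 + t ^ 2) : ℝ) : ℂ) * (Complex.exp ((θ : ℂ) * Complex.I) *
            (-(a : ℂ) - t * Complex.I)) := by
        have h3 : (σ : ℂ) + t * Complex.I ≠ 0 := line_ne hσ.ne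
        have h4 : ((a ^ 2 + t ^ 2 : ℝ) : ℂ) = ((σ : ℂ) + t * Complex.I) *
            (-(a : ℂ) - t * Complex.I) := by
          rw [ha]
          push_cast
          linear_combination ((t : ℂ) ^ 2) * Complex.I_sq
        have h5 : ((a ^ 2 + t ^ 2 : ℝ) : ℂ) ≠ 0 := by
          have : 0 < a ^ 2 + t ^ 2 := by positivity
          exact_mod_cast this.ne'
        have h6 : Complex.exp (((ρ * t + θ : ℝ) : ℂ) * Complex.I) *
            Complex.exp (-(σ + t * Complex.I) * ρ) =
            ((Real.exp (a * ρ) : ℝ) : ℂ) * Complex.exp ((θ : ℂ) * Complex.I) := by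
          rw [Complex.ofReal_exp, ← Complex.exp_add, ← Complex.exp_add]
          congr 1
          rw [ha]
          push_cast
          ring
        rw [hYt]
        have h7 : ((y0 : ℂ) * (m : ℂ) * Complex.exp (((ρ * t + θ : ℝ) : ℂ) * Complex.I)) /
            (σ + t * Complex.I) * Complex.exp (-(σ + t * Complex.I) * ρ) =
            (y0 : ℂ) * m * (Complex.exp (((ρ * t + θ : ℝ) : ℂ) * Complex.I) *
            Complex.exp (-(σ + t * Complex.I) * ρ)) / (σ + t * Complex.I) := by ring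
        rw [h7, h6, hE]
        rw [div_eq_iff h3]
        rw [Complex.ofReal_div, div_mul_eq_mul_div, div_mul_eq_mul_div, eq_div_iff h5, h4]
        push_cast
        ring
      rw [e1, Complex.re_ofReal_mul]
      have e2 : (Complex.exp ((θ : ℂ) * Complex.I) * (-(a : ℂ) - t * Complex.I)).re =
          -(a * Real.cos θ - t * Real.sin θ) := by
        rw [Complex.exp_mul_I]
        simp only [Complex.mul_re, Complex.add_re, Complex.add_im, Complex.sub_re, Complex.sub_im,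
          Complex.neg_re, Complex.neg_im, Complex.ofReal_re, Complex.ofReal_im, Complex.I_re,
          Complex.I_im, Complex.mul_im, Complex.cos_ofReal_re, Complex.cos_ofReal_im,
          Complex.sin_ofReal_re, Complex.sin_ofReal_im]
        ring
      rw [e2]
      have hcos : 999 / 1000 ≤ Real.cos θ := by
        have := Real.one_sub_sq_div_two_le_cos (x := θ)
        have h8 : θ ^ 2 ≤ (1 / 1000) ^ 2 := by
          rw [← sq_abs]
          exact pow_le_pow_left₀ (abs_nonneg _) hθ 2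
        nlinarith
      have hsin : |Real.sin θ| ≤ 1 / 1000 := (Real.abs_sin_le_abs (x := θ)).trans hθ
      have h9 : t * Real.sin θ ≤ 15 / 1000 * a := by
        have h10 : t * Real.sin θ ≤ |t| * |Real.sin θ| := by
          rw [← abs_mul]
          exact le_abs_self _
        have h11 : |t| * |Real.sin θ| ≤ (3 * √V) * (1 / 1000) :=
          mul_le_mul ht hsin (abs_nonneg _) (by positivity)
        have h12 : √V ≤ 5 * a := by linarith
        nlinarith
      have h13 : 984 / 1000 * a ≤ a * Real.cos θ - t * Real.sin θ := by nlinarith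
      have hfac : 0 ≤ E * m / (a ^ 2 + t ^ 2) := by positivity
      have hterm : 0 ≤ E * (101 / 100 / mx * Real.exp (-(351 / 100)) *
          Real.exp (-(1 / 10 / V) * t ^ 2)) := by positivity
      by_cases hin : t ∈ Set.Icc (-w) w
      · rw [Set.indicator_of_mem hin]
        have ht1 : |t| ≤ w := abs_le.2 hin
        have hta : |t| ≤ a := ht1.trans (min_le_left _ _)
        have htV : |t| ≤ √V := ht1.trans (min_le_right _ _)
        have h14 : t ^ 2 ≤ a ^ 2 := by
          rw [← sq_abs]; exact pow_le_pow_left₀ (abs_nonneg _) hta 2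
        have h15 : t ^ 2 ≤ V := by
          have := pow_le_pow_left₀ (abs_nonneg _) htV 2
          rwa [sq_abs, Real.sq_sqrt hV.le] at this
        have hm1 : 59 / 100 ≤ m := by
          refine le_trans ?_ hm
          have h16 : -(51 / 100) ≤ -(51 / 100) * t ^ 2 / V := by
            rw [le_div_iff₀ hV]
            nlinarith
          have h17 : Real.exp (-(51 / 100)) ≤ Real.exp (-(51 / 100) * t ^ 2 / V) :=
            Real.exp_le_exp.2 h16
          have h18 : (60 / 100 : ℝ) ≤ Real.exp (-(51 / 100)) := by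
            rw [Real.exp_neg, le_inv_comm₀ (by norm_num) (Real.exp_pos _)]
            have h19 : Real.exp (51 / 100) ≤ 1666 / 1000 := by
              have := Real.exp_bound' (x := 51 / 100) (by norm_num) (by norm_num) (n := 5)
                (by norm_num)
              refine this.trans ?_
              norm_num [Finset.sum_range_succ, Nat.factorial]
            refine h19.trans ?_
            norm_num
          nlinarith
        have h20 : E * m / (a ^ 2 + t ^ 2) * (984 / 1000 * a) ≤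
            E * m / (a ^ 2 + t ^ 2) * (a * Real.cos θ - t * Real.sin θ) :=
          mul_le_mul_of_nonneg_left h13 hfac
        have h21 : E * (29 / 100 / a) ≤ E * m / (a ^ 2 + t ^ 2) * (984 / 1000 * a) := by
          have h22 : E * m / (a ^ 2 + t ^ 2) * (984 / 1000 * a) =
              E * (m * (984 / 1000) * a / (a ^ 2 + t ^ 2)) := by ring
          rw [h22]
          apply mul_le_mul_of_nonneg_left _ hE0.le
          rw [div_le_div_iff₀ ha0 (by positivity)]
          have h23 : a ^ 2 + t ^ 2 ≤ 2 * a ^ 2 := by linarith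
          nlinarith [mul_le_mul_of_nonneg_right hm1 (sq_nonneg a)]
        nlinarith
      · rw [Set.indicator_of_notMem hin]
        have : 0 ≤ E * m / (a ^ 2 + t ^ 2) * (a * Real.cos θ - t * Real.sin θ) :=
          mul_nonneg hfac (le_trans (by positivity) h13)
        rw [sub_zero]
        nlinarith
    · have ht' : 3 * √V < |t| := not_le.1 ht
      have hin : t ∉ Set.Icc (-w) w := by
        intro h
        have h3 : |t| ≤ w := abs_le.2 h
        have h4 : w ≤ √V := min_le_right _ _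
        linarith
      rw [Set.indicator_of_notMem hin, sub_zero]
      refine (Complex.re_le_norm _).trans ?_
      rw [norm_mul, norm_div, exp_norm]
      have hmxn : mx ≤ ‖(σ : ℂ) + t * Complex.I‖ := by
        apply max_le
        · have := line_norm σ t
          rwa [abs_of_neg hσ] at this
        · exact ht'.le.trans (line_norm' σ t)
      have h3 : ‖Y (σ + t * Complex.I)‖ / ‖(σ : ℂ) + t * Complex.I‖ ≤
          101 / 100 * y0 * Real.exp (-(49 / 100) * t ^ 2 / V) / mx :=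
        div_le_div₀ (by positivity) (h1 t) hmx0 hmxn
      have h4 : Real.exp (-(49 / 100) * t ^ 2 / V) ≤
          Real.exp (-(351 / 100)) * Real.exp (-(1 / 10 / V) * t ^ 2) := by
        rw [← Real.exp_add, Real.exp_le_exp]
        have h5 : 9 * V ≤ t ^ 2 := by
          have := pow_le_pow_left₀ (by positivity) ht'.le 2
          rw [sq_abs, mul_pow, Real.sq_sqrt hV.le] at this
          linarith
        have h6 : 9 ≤ t ^ 2 / V := by rwa [le_div_iff₀ hV]
        have h7 : -(49 / 100) * t ^ 2 / V = -(49 / 100) * (t ^ 2 / V) := by ring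
        have h8 : -(1 / 10 / V) * t ^ 2 = -(1 / 10) * (t ^ 2 / V) := by ring
        rw [h7, h8]
        linarith
      calc _ ≤ 101 / 100 * y0 * Real.exp (-(49 / 100) * t ^ 2 / V) / mx * Real.exp (-σ * ρ) :=
            mul_le_mul_of_nonneg_right h3 (Real.exp_pos _).le
        _ ≤ 101 / 100 * y0 * (Real.exp (-(351 / 100)) * Real.exp (-(1 / 10 / V) * t ^ 2)) / mx *
            Real.exp (-σ * ρ) := by gcongr
        _ = _ := by rw [hE, ha]; ring
  have hb : 0 < (1 / 10 : ℝ) / V := by positivity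
  have hgi : Integrable (fun t : ℝ => 101 / 100 / mx * Real.exp (-(351 / 100)) *
      Real.exp (-(1 / 10 / V) * t ^ 2)) := (integrable_exp_neg_mul_sq hb).const_mul _
  have hii : Integrable (fun t : ℝ => (Set.Icc (-w) w).indicator (fun _ => 29 / 100 / a) t) := by
    rw [integrable_indicator_iff measurableSet_Icc]
    exact integrableOn_const (by simp)
  unfold WW
  have hre : (∫ t : ℝ, Y (σ + t * Complex.I) / (σ + t * Complex.I) *
      Complex.exp (-(σ + t * Complex.I) * ρ)).re = ∫ t : ℝ, (Y (σ + t * Complex.I) /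
      (σ + t * Complex.I) * Complex.exp (-(σ + t * Complex.I) * ρ)).re :=
    (integral_re hint).symm
  rw [hre]
  refine (integral_mono hint.re ((hgi.sub hii).const_mul E) key).trans ?_
  rw [integral_const_mul]
  apply mul_nonpos_of_nonneg_of_nonpos hE0.le
  have hsub := integral_sub hgi hii
  simp only [Pi.sub_apply] at hsub ⊢
  rw [hsub, integral_const_mul, gauss_int, integral_indicator measurableSet_Icc,
    setIntegral_const]
  have hvol : (volume.real (Set.Icc (-w) w)) = 2 * w := by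
    rw [Real.volume_real_Icc_of_le (by linarith)]
    ring
  rw [hvol, smul_eq_mul]
  have hs := num_s hV
  have he := num_e
  have hfin := num_fin ha0 hV hw hmx
  have h3 : 101 / 100 / mx * Real.exp (-(351 / 100)) * √(Real.pi / (1 / 10 / V)) ≤
      101 / 100 / mx * (1 / 25) * (57 / 10 * √V) := by gcongr
  linarith


/-- the modulus and the phase of `YY` -/
theorem YY_eq (n w : ℕ) (ε σ t : ℝ) :
    YY n w ε 0 (σ + t * Complex.I) = QQ n w (σ + t * Complex.I) *
      ((Real.exp (n * ε * (σ ^ 2 - t ^ 2)) : ℝ) : ℂ) *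
      Complex.exp (((2 * n * ε * σ * t : ℝ) : ℂ) * Complex.I) := by
  unfold YY
  conv_rhs => rw [mul_assoc, Complex.ofReal_exp, ← Complex.exp_add]
  congr 2
  · simp
  · push_cast
    linear_combination ((n : ℂ) * ε * t ^ 2) * Complex.I_sq

theorem YY_norm (n w : ℕ) (ε σ t : ℝ) :
    ‖YY n w ε 0 (σ + t * Complex.I)‖ = ‖QQ n w (σ + t * Complex.I)‖ *
      Real.exp (n * ε * (σ ^ 2 - t ^ 2)) := by
  rw [YY_eq, norm_mul, norm_mul, Complex.norm_exp_ofReal_mul_I, mul_one, Complex.norm_real,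
    Real.norm_of_nonneg (Real.exp_pos _).le]

theorem YY_norm0 (n w : ℕ) (ε σ : ℝ) :
    ‖YY n w ε 0 σ‖ = ‖QQ n w σ‖ * Real.exp (n * ε * σ ^ 2) := by
  have := YY_norm n w ε σ 0
  simpa using this

theorem QQ_zero (n w : ℕ) : QQ n w ((0 : ℝ) * Complex.I) = 1 := by
  unfold QQ AA BB Lam
  simp

/-- the upper bound on vertical lines -/
theorem YY_upper {C κ ε : ℝ} {n w : ℕ} (hQ : QB C κ n w) (hn : 0 < n) (hε : 0 < ε) {σ : ℝ}
    (hσ : |σ| ≤ κ) (hC : C * |σ| ≤ ε / 50) (t : ℝ) :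
    ‖YY n w ε 0 (σ + t * Complex.I)‖ ≤
      101 / 100 * ‖YY n w ε 0 σ‖ * Real.exp (-(49 / 100) * t ^ 2 / (1 / (2 * n * ε))) := by
  have hn' : (0 : ℝ) < n := by exact_mod_cast hn
  rw [YY_norm, YY_norm0]
  have h3 := hQ.q3 σ t hσ
  have e1 : -(49 / 100) * t ^ 2 / (1 / (2 * n * ε)) = -(49 / 50) * (n * ε * t ^ 2) := by
    field_simp
    ring
  rw [e1]
  have h4 : Real.exp (C * n * |σ| * t ^ 2) * Real.exp (n * ε * (σ ^ 2 - t ^ 2)) ≤
      Real.exp (n * ε * σ ^ 2) * Real.exp (-(49 / 50) * (n * ε * t ^ 2)) := by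
    rw [← Real.exp_add, ← Real.exp_add, Real.exp_le_exp]
    have h5 : C * n * |σ| * t ^ 2 ≤ ε / 50 * (n * t ^ 2) := by
      calc C * n * |σ| * t ^ 2 = C * |σ| * (n * t ^ 2) := by ring
        _ ≤ _ := mul_le_mul_of_nonneg_right hC (by positivity)
    nlinarith
  calc ‖QQ n w (σ + t * Complex.I)‖ * Real.exp (n * ε * (σ ^ 2 - t ^ 2))
      ≤ ‖QQ n w σ‖ * Real.exp (C * n * |σ| * t ^ 2) * Real.exp (n * ε * (σ ^ 2 - t ^ 2)) :=
        mul_le_mul_of_nonneg_right h3 (Real.exp_pos _).le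
    _ = ‖QQ n w σ‖ * (Real.exp (C * n * |σ| * t ^ 2) * Real.exp (n * ε * (σ ^ 2 - t ^ 2))) := by
        ring
    _ ≤ ‖QQ n w σ‖ * (Real.exp (n * ε * σ ^ 2) * Real.exp (-(49 / 50) * (n * ε * t ^ 2))) :=
        mul_le_mul_of_nonneg_left h4 (norm_nonneg _)
    _ ≤ 101 / 100 * (‖QQ n w σ‖ * (Real.exp (n * ε * σ ^ 2) *
        Real.exp (-(49 / 50) * (n * ε * t ^ 2)))) := by
        have : 0 ≤ ‖QQ n w σ‖ * (Real.exp (n * ε * σ ^ 2) *
          Real.exp (-(49 / 50) * (n * ε * t ^ 2))) := by positivity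
        linarith
    _ = _ := by ring

/-- the lower bound and the phase on vertical lines -/
theorem YY_phase {C κ ε : ℝ} {n w : ℕ} (hQ : QB C κ n w) (hn : 0 < n) (hε : 0 < ε) {σ : ℝ}
    (hσ : |σ| ≤ κ) (hC : C * |σ| ≤ ε / 50) (t : ℝ) (hθ : C * n * |t| ^ 3 ≤ 1 / 1000) :
    ∃ m θ : ℝ, |θ| ≤ 1 / 1000 ∧
      99 / 100 * Real.exp (-(51 / 100) * t ^ 2 / (1 / (2 * n * ε))) ≤ m ∧
      YY n w ε 0 (σ + t * Complex.I) = (‖YY n w ε 0 σ‖ : ℂ) * (m : ℂ) *
        Complex.exp (((n * ((GG ((w : ℝ) / n) σ).re + 2 * ε * σ) * t + θ : ℝ) : ℂ) *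
          Complex.I) := by
  have hn' : (0 : ℝ) < n := by exact_mod_cast hn
  obtain ⟨θ, h1, h2⟩ := hQ.q5 σ t hσ
  have hQ0 : 0 < ‖QQ n w σ‖ := by
    rw [norm_pos_iff]
    intro h0
    have := (hQ.q1 σ hσ).2
    rw [h0] at this
    simp at this
  refine ⟨‖QQ n w (σ + t * Complex.I)‖ * Real.exp (-(n * ε * t ^ 2)) / ‖QQ n w σ‖, θ,
    h1.trans hθ, ?_, ?_⟩
  · have e1 : -(51 / 100) * t ^ 2 / (1 / (2 * n * ε)) = -(51 / 50) * (n * ε * t ^ 2) := by
      field_simp
      ring
    rw [e1, le_div_iff₀ hQ0]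
    have h4 := hQ.q4 σ t hσ
    have h5 : Real.exp (-(51 / 50) * (n * ε * t ^ 2)) ≤
        Real.exp (-(C * n * |σ| * t ^ 2)) * Real.exp (-(n * ε * t ^ 2)) := by
      rw [← Real.exp_add, Real.exp_le_exp]
      have h6 : C * n * |σ| * t ^ 2 ≤ ε / 50 * (n * t ^ 2) := by
        calc C * n * |σ| * t ^ 2 = C * |σ| * (n * t ^ 2) := by ring
          _ ≤ _ := mul_le_mul_of_nonneg_right hC (by positivity)
      nlinarith
    calc 99 / 100 * Real.exp (-(51 / 50) * (n * ε * t ^ 2)) * ‖QQ n w σ‖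
        ≤ Real.exp (-(51 / 50) * (n * ε * t ^ 2)) * ‖QQ n w σ‖ := by
          have : 0 ≤ Real.exp (-(51 / 50) * (n * ε * t ^ 2)) * ‖QQ n w σ‖ := by positivity
          linarith
      _ ≤ Real.exp (-(C * n * |σ| * t ^ 2)) * Real.exp (-(n * ε * t ^ 2)) * ‖QQ n w σ‖ :=
          mul_le_mul_of_nonneg_right h5 hQ0.le
      _ = ‖QQ n w σ‖ * Real.exp (-(C * n * |σ| * t ^ 2)) * Real.exp (-(n * ε * t ^ 2)) := by ring
      _ ≤ _ := mul_le_mul_of_nonneg_right h4 (Real.exp_pos _).le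
  · rw [YY_eq, YY_norm0]
    have hQ0' : ((‖QQ n w σ‖ : ℝ) : ℂ) ≠ 0 := by exact_mod_cast hQ0.ne'
    have e2 : Complex.exp (((n * ((GG ((w : ℝ) / n) σ).re + 2 * ε * σ) * t + θ : ℝ) : ℂ) *
        Complex.I) = Complex.exp (((n * (GG ((w : ℝ) / n) σ).re * t + θ : ℝ) : ℂ) * Complex.I) *
        Complex.exp (((2 * n * ε * σ * t : ℝ) : ℂ) * Complex.I) := by
      rw [← Complex.exp_add]
      congr 1
      push_cast
      ring
    have e3 : Real.exp (n * ε * (σ ^ 2 - t ^ 2)) = Real.exp (n * ε * σ ^ 2) *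
        Real.exp (-(n * ε * t ^ 2)) := by
      rw [← Real.exp_add]
      congr 1
      ring
    rw [e2, e3]
    conv_lhs => rw [h2]
    push_cast
    field_simp

theorem re_div_two_pi (z : ℂ) : (z / (2 * Real.pi)).re = z.re / (2 * Real.pi) := by
  have : z / (2 * (Real.pi : ℂ)) = z / (((2 * Real.pi : ℝ)) : ℂ) := by push_cast; rfl
  rw [this, Complex.div_ofReal_re]

/-- the bound on the right -/
theorem caseB {C κ0 ε η : ℝ} {n w : ℕ} (h : S_sh) (hC : 0 < C) (hκ0' : κ0 ≤ Real.pi / 16)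
    (hε : 0 < ε) (hn0 : 0 < n) (hw : w ≤ n) (hQ : QB C κ0 n w) {r : ℝ} (hr : 0 < r)
    (hrV : r ^ 2 = 1 / (2 * n * ε)) (hrκ : r ≤ κ0) (hrC : C * r ≤ ε / 50)
    (hr3 : r ≤ ε / (13500 * C))
    (hcase : n * ((GG ((w : ℝ) / n) (-(r / 5) : ℝ)).re + 2 * ε * (-(r / 5))) < n * η) :
    (vv n w ε η 0).re ≤ 5 / 6 := by
  have hn' : (0 : ℝ) < n := by exact_mod_cast hn0
  have hpi : (3.14 : ℝ) < Real.pi := Real.pi_gt_d2
  have hpi0 : 0 < Real.pi := Real.pi_pos
  have hV : (0 : ℝ) < 1 / (2 * n * ε) := by positivity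
  have hsq : √(1 / (2 * n * ε)) = r := by rw [← hrV, Real.sqrt_sq hr.le]
  have hnr : n * ε * r ^ 2 = 1 / 2 := by
    rw [hrV]
    field_simp
  have hc0 : 0 < 9 / 10 * r := by positivity
  have hcabs : |9 / 10 * r| ≤ κ0 := by
    rw [abs_of_pos hc0]
    linarith
  have hcC : C * |9 / 10 * r| ≤ ε / 50 := by
    rw [abs_of_pos hc0]
    nlinarith
  have h1 := (h n w ε η 0 hn0 hw hε).1 (9 / 10 * r) hc0 (by linarith)
  have h2 := WW_bound (Y := YY n w ε 0) (c := 9 / 10 * r) (ρ := n * η) hc0.ne' hV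
    (norm_nonneg (YY n w ε 0 (9 / 10 * r : ℝ))) (YY_upper hQ hn0 hε hcabs hcC)
  rw [abs_of_pos hc0] at h2
  -- the size of `YY` on the real axis
  have hq7 := hQ.q7 (9 / 10 * r) hcabs
  have hq8 := hQ.q8 (-(r / 5)) (by rw [abs_neg, abs_of_pos (by positivity)]; linarith)
  have hg : bb n w - η ≤ 2 / 5 * ε * r + C * r ^ 2 / 25 := by
    have h3 := (abs_le.mp hq8).1
    have h4 : (GG ((w : ℝ) / n) (-(r / 5) : ℝ)).re + 2 * ε * (-(r / 5)) < η :=
      lt_of_mul_lt_mul_left hcase hn'.le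
    nlinarith
  have hsmall : n * C * r ^ 3 ≤ 1 / 27000 := by
    have h3 : n * C * r ^ 3 = (n * ε * r ^ 2) * (C * r / ε) := by
      field_simp
    rw [h3, hnr]
    have h4 : C * r / ε ≤ 1 / 13500 := by
      rw [div_le_iff₀ hε]
      calc C * r ≤ C * (ε / (13500 * C)) := mul_le_mul_of_nonneg_left hr3 hC.le
        _ = 1 / 13500 * ε := by field_simp
    linarith
  have h5 : ‖YY n w ε 0 (9 / 10 * r : ℝ)‖ * Real.exp (-(9 / 10 * r) * (n * η)) ≤
      Real.exp (3 / 5) := by
    rw [YY_norm0]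
    calc ‖QQ n w (9 / 10 * r : ℝ)‖ * Real.exp (n * ε * (9 / 10 * r) ^ 2) *
          Real.exp (-(9 / 10 * r) * (n * η))
        ≤ Real.exp (n * (bb n w * (9 / 10 * r) + C * |9 / 10 * r| ^ 3)) *
          Real.exp (n * ε * (9 / 10 * r) ^ 2) * Real.exp (-(9 / 10 * r) * (n * η)) := by
          gcongr
      _ ≤ Real.exp (3 / 5) := by
          rw [← Real.exp_add, ← Real.exp_add, Real.exp_le_exp, abs_of_pos hc0]
          have h6 : n * (9 / 10 * r) * (bb n w - η) ≤
              n * (9 / 10 * r) * (2 / 5 * ε * r + C * r ^ 2 / 25) :=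
            mul_le_mul_of_nonneg_left hg (by positivity)
          have h7 : n * (9 / 10 * r) * (2 / 5 * ε * r + C * r ^ 2 / 25) =
              36 / 100 * (n * ε * r ^ 2) + 36 / 1000 * (n * C * r ^ 3) := by ring
          have h8 : n * (bb n w * (9 / 10 * r) + C * (9 / 10 * r) ^ 3) +
              n * ε * (9 / 10 * r) ^ 2 + -(9 / 10 * r) * (n * η) =
              n * (9 / 10 * r) * (bb n w - η) + 729 / 1000 * (n * C * r ^ 3) +
              81 / 100 * (n * ε * r ^ 2) := by ring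
          rw [h8]
          rw [h7, hnr] at h6
          rw [hnr]
          linarith
  have h6 := h5.trans num_exp
  have h7 := num_pi_sqrt hV
  rw [hsq] at h7
  have h8 : ‖WW (YY n w ε 0) (9 / 10 * r) (n * η)‖ ≤ 5 / 6 * (2 * Real.pi) := by
    refine h2.trans ?_
    calc 101 / 100 * ‖YY n w ε 0 (9 / 10 * r : ℝ)‖ * Real.exp (-(9 / 10 * r) * (n * η)) /
          (9 / 10 * r) * √(Real.pi / ((49 / 100) / (1 / (2 * n * ε))))
        = 101 / 100 * (‖YY n w ε 0 (9 / 10 * r : ℝ)‖ * Real.exp (-(9 / 10 * r) * (n * η))) /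
          (9 / 10 * r) * √(Real.pi / ((49 / 100) / (1 / (2 * n * ε)))) := by ring
      _ ≤ 101 / 100 * (1823 / 1000) / (9 / 10 * r) * (2533 / 1000 * r) := by gcongr
      _ = 101 / 100 * (1823 / 1000) * (2533 / 1000) / (9 / 10) := by field_simp
      _ ≤ 5 / 6 * (2 * 3.14) := by norm_num
      _ ≤ 5 / 6 * (2 * Real.pi) := by linarith
  rw [h1, re_div_two_pi, div_le_iff₀ (by positivity)]
  exact (Complex.re_le_norm _).trans h8

/-- the bound on the left -/
theorem caseA {C κ0 κ ε η : ℝ} {n w : ℕ} (h : S_sh) (hC : 0 < C) (hκ0' : κ0 ≤ Real.pi / 16)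
    (hε : 0 < ε) (hn0 : 0 < n) (hw : w ≤ n) (hQ : QB C κ0 n w) (hκ : 0 < κ) (hκκ : κ ≤ κ0)
    (hκC : C * κ ≤ ε / 50) {r : ℝ} (hr : 0 < r)
    (hrV : r ^ 2 = 1 / (2 * n * ε)) (hrκ : r ≤ κ)
    (hr3 : r ≤ ε / (13500 * C)) (hb : bb n w ≤ η + ε * κ)
    (hcase : n * η ≤ n * ((GG ((w : ℝ) / n) (-(r / 5) : ℝ)).re + 2 * ε * (-(r / 5)))) :
    (vv n w ε η 0).re ≤ 1 := by
  have hn' : (0 : ℝ) < n := by exact_mod_cast hn0
  have hpi0 : 0 < Real.pi := Real.pi_pos
  have hV : (0 : ℝ) < 1 / (2 * n * ε) := by positivity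
  have hsq : √(1 / (2 * n * ε)) = r := by rw [← hrV, Real.sqrt_sq hr.le]
  have hnr : n * ε * r ^ 2 = 1 / 2 := by
    rw [hrV]
    field_simp
  -- the intermediate value theorem
  have hcont : ContinuousOn (fun σ : ℝ => n * ((GG ((w : ℝ) / n) σ).re + 2 * ε * σ))
      (Set.Icc (-κ) (-(r / 5))) := by
    have h9 : ContinuousOn (fun σ : ℝ => (GG ((w : ℝ) / n) σ).re) (Set.Icc (-κ) (-(r / 5))) :=
      hQ.q9.mono (Set.Icc_subset_Icc (by linarith) (by linarith))
    exact continuousOn_const.mul (h9.add (by fun_prop))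
  have hle : n * ((GG ((w : ℝ) / n) (-κ : ℝ)).re + 2 * ε * (-κ)) ≤ n * η := by
    refine mul_le_mul_of_nonneg_left ?_ hn'.le
    have hq8 := (abs_le.mp (hQ.q8 (-κ) (by rw [abs_neg, abs_of_pos hκ]; exact hκκ))).2
    have h3 : C * (-κ) ^ 2 ≤ ε / 50 * κ := by
      calc C * (-κ) ^ 2 = C * κ * κ := by ring
        _ ≤ _ := mul_le_mul_of_nonneg_right hκC hκ.le
    nlinarith [mul_pos hε hκ]
  obtain ⟨σ, hσ, hσρ⟩ := intermediate_value_Icc (by linarith) hcont ⟨hle, hcase⟩
  have hσneg : σ < 0 := by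
    have := hσ.2
    linarith
  have hσabs : |σ| ≤ κ := by
    rw [abs_of_neg hσneg]
    linarith [hσ.1]
  have hσC : C * |σ| ≤ ε / 50 := (mul_le_mul_of_nonneg_left hσabs hC.le).trans hκC
  have hy0 : 0 < ‖YY n w ε 0 σ‖ := by
    rw [YY_norm0]
    refine mul_pos ?_ (Real.exp_pos _)
    rw [norm_pos_iff]
    intro h0
    have := (hQ.q1 σ (hσabs.trans hκκ)).2
    rw [h0] at this
    simp at this
  have h9 : (WW (YY n w ε 0) σ (n * η)).re ≤ 0 := by
    refine pos_part' (V := 1 / (2 * n * ε)) (y0 := ‖YY n w ε 0 σ‖) hσneg ?_ hV hy0 ?_ ?_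
    · rw [hsq]
      linarith [hσ.2]
    · exact YY_upper hQ hn0 hε (hσabs.trans hκκ) hσC
    · intro t ht
      rw [hsq] at ht
      have hθ : C * n * |t| ^ 3 ≤ 1 / 1000 := by
        have h10 : |t| ^ 3 ≤ (3 * r) ^ 3 := pow_le_pow_left₀ (abs_nonneg _) ht 3
        have h11 : C * n * (3 * r) ^ 3 = 27 * (n * ε * r ^ 2) * (C * r / ε) := by
          field_simp
          ring
        have h4 : C * r / ε ≤ 1 / 13500 := by
          rw [div_le_iff₀ hε]
          calc C * r ≤ C * (ε / (13500 * C)) := mul_le_mul_of_nonneg_left hr3 hC.le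
            _ = 1 / 13500 * ε := by field_simp
        calc C * n * |t| ^ 3 ≤ C * n * (3 * r) ^ 3 :=
              mul_le_mul_of_nonneg_left h10 (by positivity)
          _ = 27 * (n * ε * r ^ 2) * (C * r / ε) := h11
          _ ≤ 27 * (1 / 2) * (1 / 13500) := by
              rw [hnr]
              linarith
          _ = 1 / 1000 := by norm_num
      obtain ⟨m, θ, h1, h2, h3⟩ := YY_phase hQ hn0 hε (hσabs.trans hκκ) hσC t hθ
      refine ⟨m, θ, h1, h2, ?_⟩
      rw [h3]
      simp only at hσρ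
      rw [hσρ]
  have hs := (h n w ε η 0 hn0 hw hε).2 σ (by linarith [hσ.1]) hσneg
  rw [QQ_zero] at hs
  have h10 : vv n w ε η 0 = WW (YY n w ε 0) σ (n * η) / (2 * Real.pi) + 1 := by
    linear_combination hs
  rw [h10, Complex.add_re, re_div_two_pi, Complex.one_re]
  have : (WW (YY n w ε 0) σ (n * η)).re / (2 * Real.pi) ≤ 0 :=
    div_nonpos_of_nonpos_of_nonneg h9 (by positivity)
  linarith

theorem trans (h : S_sh) (hb : S_qb) : S_trans := by
  obtain ⟨C, κ0, hC, hκ0, hκ0', hQB⟩ := hb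
  intro ε η hε hε1 hη
  set κ := min κ0 (ε / (50 * C)) with hκ
  have hκpos : 0 < κ := lt_min hκ0 (by positivity)
  have hκκ : κ ≤ κ0 := min_le_left _ _
  have hκC : C * κ ≤ ε / 50 := by
    calc C * κ ≤ C * (ε / (50 * C)) := mul_le_mul_of_nonneg_left (min_le_right _ _) hC.le
      _ = ε / 50 := by field_simp
  set r0 := min κ (ε / (13500 * C)) with hr0
  have hr0pos : 0 < r0 := lt_min hκpos (by positivity)
  refine ⟨ε * κ, by positivity, ⌈1 / (2 * ε * r0 ^ 2)⌉₊ + 1, ?_⟩
  intro n w hn hw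
  have hn0 : 0 < n := by omega
  have hn' : (0 : ℝ) < n := by exact_mod_cast hn0
  have hQ := hQB n w hn0 hw
  have hV : (0 : ℝ) < 1 / (2 * n * ε) := by positivity
  set r := √(1 / (2 * n * ε)) with hr
  have hrpos : 0 < r := Real.sqrt_pos.2 hV
  have hrV : r ^ 2 = 1 / (2 * n * ε) := Real.sq_sqrt hV.le
  have hrr : r ≤ r0 := by
    rw [hr, Real.sqrt_le_left hr0pos.le, div_le_iff₀ (by positivity)]
    have h1 : 1 / (2 * ε * r0 ^ 2) ≤ n := by
      refine (Nat.le_ceil _).trans ?_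
      exact_mod_cast (Nat.le_succ _).trans hn
    rw [div_le_iff₀ (by positivity)] at h1
    linarith
  have hrκ : r ≤ κ := hrr.trans (min_le_left _ _)
  have hr3 : r ≤ ε / (13500 * C) := hrr.trans (min_le_right _ _)
  have hrC : C * r ≤ ε / 50 := (mul_le_mul_of_nonneg_left hrκ hC.le).trans hκC
  rcases le_or_gt (n * η)
    (n * ((GG ((w : ℝ) / n) (-(r / 5) : ℝ)).re + 2 * ε * (-(r / 5)))) with hcase | hcase
  · refine ⟨fun hbb => caseA h hC hκ0' hε hn0 hw hQ hκpos hκκ hκC hrpos hrV hrκ hr3 hbb hcase,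
      fun hbb => ?_⟩
    exfalso
    have h1 : η ≤ (GG ((w : ℝ) / n) (-(r / 5) : ℝ)).re + 2 * ε * (-(r / 5)) :=
      le_of_mul_le_mul_left hcase hn'
    have hq8 := (abs_le.mp (hQ.q8 (-(r / 5)) (by
      rw [abs_neg, abs_of_pos (by positivity)]; linarith))).2
    have h2 : C * (-(r / 5)) ^ 2 ≤ ε / 50 * r / 25 := by
      calc C * (-(r / 5)) ^ 2 = C * r * r / 25 := by ring
        _ ≤ ε / 50 * r / 25 := by gcongr
    nlinarith [mul_pos hε hrpos]
  · have h1 := caseB h hC hκ0' hε hn0 hw hQ hrpos hrV (hrκ.trans hκκ) hrC hr3 hcase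
    exact ⟨fun _ => by linarith, fun _ => h1⟩

end Pool.Agent.TH41.BL.TRAf
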