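import Mathlib
import Pool.Agent.TH41.BL.Stm7

/-! The typical subspace of a product state. -/

set_option autoImplicit false

open MeasureTheory Filter Topology

namespace Pool.Agent.TH41.BL.TY7f

open Pool.Agent.TH41.BL Pool.Agent.H390R2.LP Pool.Agent.TH753.FF

variable {Ω : Type} [Fintype Ω] [DecidableEq Ω]

/-- the projection onto the span of product vectors -/
noncomputable def Pj (u : Ω → Ω → ℝ) {m : ℕ} (W : Finset (Fin m → Ω)) :
    Matrix (Fin m → Ω) (Fin m → Ω) ℝ :=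
  Matrix.of fun x y => ∑ a ∈ W, pv u a x * pv u a y

lemma Pj_prj (u : Ω → Ω → ℝ) (hu : ∀ a b, ∑ ω, u a ω * u b ω = if a = b then 1 else 0) {m : ℕ}
    (W : Finset (Fin m → Ω)) : Prj (Pj u W) := by
  constructor
  · ext x y
    simp only [Matrix.transpose_apply, Pj, Matrix.of_apply]
    exact Finset.sum_congr rfl fun a _ => mul_comm _ _
  · ext x y
    rw [Matrix.mul_apply]
    simp only [Pj, Matrix.of_apply]
    have h1 : ∀ z, (∑ a ∈ W, pv u a x * pv u a z) * (∑ b ∈ W, pv u b z * pv u b y) =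
        ∑ a ∈ W, ∑ b ∈ W, pv u a x * pv u b y * (pv u a z * pv u b z) := by
      intro z
      rw [Finset.sum_mul_sum]
      exact Finset.sum_congr rfl fun a _ => Finset.sum_congr rfl fun b _ => by ring
    simp only [h1]
    rw [Finset.sum_comm]
    refine Finset.sum_congr rfl fun a ha => ?_
    rw [Finset.sum_comm]
    have h2 : ∀ b ∈ W, ∑ z, pv u a x * pv u b y * (pv u a z * pv u b z) =
        if a = b then pv u a x * pv u b y else 0 := by
      intro b _
      rw [← Finset.mul_sum, pv_orth u hu a b]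
      split_ifs <;> simp
    rw [Finset.sum_congr rfl h2, Finset.sum_ite_eq, if_pos ha]

lemma Pj_trace (u : Ω → Ω → ℝ) (hu : ∀ a b, ∑ ω, u a ω * u b ω = if a = b then 1 else 0) {m : ℕ}
    (W : Finset (Fin m → Ω)) : (Pj u W).trace = (W.card : ℝ) := by
  unfold Matrix.trace
  simp only [Matrix.diag_apply, Pj, Matrix.of_apply]
  rw [Finset.sum_comm]
  have h1 : ∀ a ∈ W, ∑ x, pv u a x * pv u a x = 1 := by
    intro a _
    rw [pv_orth u hu a a, if_pos rfl]
  rw [Finset.sum_congr rfl h1]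
  simp

omit [Fintype Ω] [DecidableEq Ω] in
lemma pv_perm (u : Ω → Ω → ℝ) {m : ℕ} (σ : Equiv.Perm (Fin m)) (a x : Fin m → Ω) :
    pv u (fun k => a (σ k)) (fun k => x (σ k)) = pv u a x := by
  unfold pv
  exact Equiv.prod_comp σ fun k => u (a k) (x k)

lemma Pj_inv (u : Ω → Ω → ℝ) {m : ℕ} (W : Finset (Fin m → Ω))
    (hW : ∀ (σ : Equiv.Perm (Fin m)) (a : Fin m → Ω), (fun k => a (σ k)) ∈ W ↔ a ∈ W) :
    PInv (Pj u W) := by
  classical
  intro σ x y
  simp only [Pj, Matrix.of_apply]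
  have h0 : ∀ f : (Fin m → Ω) → ℝ, ∑ a ∈ W, f a = ∑ a, if a ∈ W then f a else 0 := by
    intro f
    rw [Finset.sum_ite_mem, Finset.univ_inter]
  rw [h0, h0]
  rw [← Equiv.sum_comp (Equiv.arrowCongr σ.symm (Equiv.refl Ω))]
  refine Finset.sum_congr rfl fun a _ => ?_
  have h1 : (Equiv.arrowCongr σ.symm (Equiv.refl Ω)) a = fun k => a (σ k) := by
    funext k
    simp
  rw [h1]
  by_cases h : a ∈ W
  · rw [if_pos ((hW σ a).2 h), if_pos h, pv_perm, pv_perm]
  · rw [if_neg (fun h' => h ((hW σ a).1 h')), if_neg h]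

lemma Rm_eq (s : Site Ω G2) {m : ℕ} (x y : Fin m → Ω) :
    Rm s m x y = ∑ a : Fin m → Ω, H390R2.LP.Lam s a * (pv s.u a x * pv s.u a y) := by
  unfold Rm
  rw [Matrix.of_apply, ← sum_prod fun k o => s.lam o * s.u o (x k) * s.u o (y k)]
  refine Finset.sum_congr rfl fun a _ => ?_
  rw [Finset.prod_mul_distrib, Finset.prod_mul_distrib]
  unfold H390R2.LP.Lam pv
  ring

lemma Rm_trace (s : Site Ω G2) (m : ℕ) : (Rm s m).trace = 1 := by
  unfold Matrix.trace
  simp only [Matrix.diag_apply, Rm_eq]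
  rw [Finset.sum_comm, ← Lam_sum s (n := m)]
  refine Finset.sum_congr rfl fun a _ => ?_
  rw [← Finset.mul_sum, pv_orth s.u s.u_orth a a, if_pos rfl, mul_one]

lemma Pj_Rm_trace (s : Site Ω G2) {m : ℕ} (W : Finset (Fin m → Ω)) :
    (Pj s.u W * Rm s m).trace = ∑ a ∈ W, H390R2.LP.Lam s a := by
  unfold Matrix.trace
  simp only [Matrix.diag_apply, Matrix.mul_apply, Pj, Matrix.of_apply, Rm_eq]
  have h1 : ∀ x z : Fin m → Ω, (∑ a ∈ W, pv s.u a x * pv s.u a z) *
      ∑ b : Fin m → Ω, H390R2.LP.Lam s b * (pv s.u b z * pv s.u b x) =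
      ∑ a ∈ W, ∑ b : Fin m → Ω, H390R2.LP.Lam s b * ((pv s.u a x * pv s.u b x) *
        (pv s.u a z * pv s.u b z)) := by
    intro x z
    rw [Finset.sum_mul_sum]
    exact Finset.sum_congr rfl fun a _ => Finset.sum_congr rfl fun b _ => by ring
  simp only [h1]
  have h2 : ∀ x : Fin m → Ω, ∑ z, ∑ a ∈ W, ∑ b : Fin m → Ω,
      H390R2.LP.Lam s b * ((pv s.u a x * pv s.u b x) * (pv s.u a z * pv s.u b z)) =
      ∑ a ∈ W, H390R2.LP.Lam s a * (pv s.u a x * pv s.u a x) := by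
    intro x
    rw [Finset.sum_comm]
    refine Finset.sum_congr rfl fun a _ => ?_
    rw [Finset.sum_comm]
    have h3 : ∀ b : Fin m → Ω, ∑ z, H390R2.LP.Lam s b * ((pv s.u a x * pv s.u b x) *
        (pv s.u a z * pv s.u b z)) =
        if a = b then H390R2.LP.Lam s b * (pv s.u a x * pv s.u b x) else 0 := by
      intro b
      simp only [← mul_assoc]
      simp only [mul_assoc (H390R2.LP.Lam s b * pv s.u a x * pv s.u b x)]
      rw [← Finset.mul_sum, pv_orth s.u s.u_orth a b]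
      split_ifs <;> simp
    rw [Finset.sum_congr rfl fun b _ => h3 b, Finset.sum_ite_eq, if_pos (Finset.mem_univ a)]
  simp only [h2]
  rw [Finset.sum_comm]
  refine Finset.sum_congr rfl fun a _ => ?_
  rw [← Finset.mul_sum, pv_orth s.u s.u_orth a a, if_pos rfl, mul_one]

theorem ty : S7_typ := by
  classical
  intro Ω _ _ s ε hε
  set C : ℝ := ∑ o, s.lam o * (-Real.log (s.lam o) - ∑ o', Real.negMulLog (s.lam o')) ^ 2 with hC
  obtain ⟨m₁, hm₁⟩ := exists_nat_ge (C / ε ^ 3)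
  refine ⟨max 1 m₁, fun m hm => ?_⟩
  have hm1 : 1 ≤ m := (le_max_left _ _).trans hm
  have hm2 : m₁ ≤ m := (le_max_right _ _).trans hm
  have hm0 : (0 : ℝ) < m := by exact_mod_cast hm1
  set B : Finset (Fin m → Ω) := Finset.univ.filter (fun a : Fin m → Ω =>
    ∏ k, s.lam (a k) < Real.exp (-(m * (∑ o, Real.negMulLog (s.lam o) + ε)))) with hB
  have hlight := aep_light hm1 s.lam s.lam_nonneg s.lam_sum hε
  have hlight' : ∑ a ∈ B, H390R2.LP.Lam s a ≤ C / (m * ε ^ 2) := hlight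
  have hfin : C / (m * ε ^ 2) ≤ ε := by
    rw [div_le_iff₀ (by positivity)]
    have h1 : C / ε ^ 3 ≤ m := hm₁.trans (by exact_mod_cast hm2)
    rw [div_le_iff₀ (by positivity)] at h1
    calc C ≤ m * ε ^ 3 := h1
      _ = _ := by ring
  have hmem : ∀ a : Fin m → Ω, a ∈ Bᶜ ↔
      ¬ (∏ k, s.lam (a k) < Real.exp (-(m * (∑ o, Real.negMulLog (s.lam o) + ε)))) := by
    intro a
    rw [Finset.mem_compl, hB, Finset.mem_filter]
    simp
  refine ⟨Pj s.u Bᶜ, Pj_inv s.u _ ?_, Pj_prj s.u s.u_orth _, ?_, ?_⟩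
  · intro σ a
    rw [hmem, hmem, Equiv.prod_comp σ fun k => s.lam (a k)]
  · rw [Pj_trace s.u s.u_orth]
    have h1 : ∑ a ∈ Bᶜ, Real.exp (-(m * (s.S + ε))) ≤ ∑ a ∈ Bᶜ, H390R2.LP.Lam s a := by
      refine Finset.sum_le_sum fun a ha => ?_
      have := not_lt.1 ((hmem a).1 ha)
      exact this
    have h2 : ∑ a ∈ Bᶜ, H390R2.LP.Lam s a ≤ 1 := by
      rw [← Lam_sum s (n := m)]
      exact Finset.sum_le_univ_sum_of_nonneg fun a => Lam_nonneg s a
    rw [Finset.sum_const, nsmul_eq_mul, Real.exp_neg] at h1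
    have h3 := h1.trans h2
    rwa [← div_eq_mul_inv, div_le_one (Real.exp_pos _)] at h3
  · rw [Matrix.sub_mul, Matrix.one_mul, Matrix.trace_sub, Rm_trace, Pj_Rm_trace]
    have h1 : ∑ a ∈ Bᶜ, H390R2.LP.Lam s a = 1 - ∑ a ∈ B, H390R2.LP.Lam s a := by
      have := Finset.sum_add_sum_compl B (fun a => H390R2.LP.Lam s a)
      rw [Lam_sum s] at this
      linarith
    rw [h1]
    linarith

end Pool.Agent.TH41.BL.TY7f
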